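import Pool.Agent.Lib.MP_adc574_ag_HS.NTw
import Pool.Agent.Lib.MP_adc574_ag_GP.BCd

/-!
# HS: sections (definitions)

`IsSec I F I'`: `I'` is between the ideal `(I, F)` and its saturation. `Dv I F`: on every chart there are a derivation `v` and a function `g` with
`v f + g f = 1`, `f = F / x ^ e`, and `f` is not a zero divisor.
-/

set_option autoImplicit false
set_option linter.unusedSectionVars false

namespace MPadcHS

open MvPolynomial MPadcGP MPadcDC

universe u v w

section

variable {A : Type u} [CommRing A] {n : ℕ}

/-- `I'` is an ideal of the section `F = 0`. -/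
structure IsSec (I : Ideal (MvPolynomial (Fin n) A)) (F : MvPolynomial (Fin n) A) (I' : Ideal (MvPolynomial (Fin n) A)) :
    Prop where
  le : I ≤ I'
  mem : F ∈ I'
  sat : ∀ g ∈ I', ∃ N : ℕ, ∀ l, X l ^ N * g ∈ I ⊔ Ideal.span {F}

/-- The derivations for the division by `f`. -/
structure Dv (I : Ideal (MvPolynomial (Fin n) A)) (F : MvPolynomial (Fin n) A) : Prop where
  der : ∀ C : Finset (Fin n), C.Nonempty → ∃ (v : Derivation A (chart I C) (chart I C)) (g : chart I C),
    v (fC I F C) + g * fC I F C = 1
  nzd : ∀ C : Finset (Fin n), C.Nonempty → fC I F C ∈ nonZeroDivisors (chart I C)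

end

end MPadcHS
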