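import Pool.Agent.Lib.MP_adc574_ag_HS.GyDefs
import Pool.Agent.Lib.MP_adc574_ag_HS.NDiv
import Pool.Agent.Lib.MP_adc574_ag_DC.W1A

/-!
# HS: the hypotheses for the consequences of the vanishing theorem

`AkH hle d`: `Y = Proj Q` is smooth of dimension `d + 1`, `X = Proj P` the smooth hyperplane section `z = 0`, and the systems of the forms which
vanish on `X` have the vanishing cohomology of the vanishing theorem.
-/

set_option autoImplicit false
set_option linter.unusedSectionVars false

namespace MPadcHS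

open MvPolynomial MPadcGP MPadcDC

universe u

/-- The hypotheses. -/
structure AkH {K : Type u} [Field K] {n : ℕ} {Q P : Ideal (MvPolynomial (Fin (n + 1)) K)} (hle : Q ≤ P) (d : ℕ) :
    Prop where
  gd : Gd Q P
  homP : IsHomog P
  smP : IsSmoothProj P
  dv : Dv Q (X (Fin.last n))
  aff : Nonempty (W1Aff (prC Q) (Fin.last n))
  top : ∀ C : Finset (Fin (n + 1)), C.Nonempty → ∀ q, d + 1 < q → ∀ w ∈ Fd K (chart Q C) q, w = 0
  ker0 : ∀ a b, a + b ≤ d → (kT hle 0 a).Acy b
  ker1 : ∀ a b, a + b = d → (kT hle 1 (a + 1)).Acy (b + 1)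

end MPadcHS
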