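import Pool.Agent.Lib.MP_adc574_ag_HS.GyDefs

/-!
# JOB GyA (HS, Part P)

`z = Fin.last n`, `hyp Q = Q ⊔ span {X z}`.
* `isHomog_hyp`: `IsHomog I := ∀ f ∈ I, ∀ d, homogeneousComponent d f ∈ I`. `f = g + h * X z` with `g ∈ Q` (`Submodule.mem_sup`, `Ideal.mem_span_singleton'`); the homogeneous component of `h * X z` of degree `d` is
  (component of `h` of degree `d - 1`) `* X z` (or `0` if `d = 0`): it is enough to show it is a multiple of `X z`. (Look at `PHom_cyc` / `isHomog_cyc` in DC/PHom.lean for a general lemma on ideals generated by homogeneous elements, e.g. use it for `Q ⊔ span {X z}` directly.)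
* `bI_hyp`: `bI φ I = I.map (MvPolynomial.map φ)`: `Ideal.map_sup`, `Ideal.map_span`, `Set.image_singleton`, `map_X`.
* `subs_chart`: `chart P C` is a subring of `LR P C = Localization.Away (..)` (GP/Mod.lean). `lx P C z` is the image of `X z ∈ P`, so it is `0` (see the definition of `lx`), and it is a unit (`lx_isUnit`), so `1 = 0` in `LR P C`.
* `subs_E`: `(prC P).R C = chart P C`; forms over a ring with `1 = 0`: `e = fz 1 * e = fz 0 * e = 0`.
* `rsH_surj`: `(rsH hle).h C = cmap (RingHom.id A) (rs_mem hle) (Finset.Subset.refl C)` (GP/Parts3.lean). By `chart_ind` (GP/Mod.lean): the image contains `algebraMap a` (`cmap_base`), `cq P C l hm` (`cmap_cq`) and is closed under `+` and `*`.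
* `rsH_ker`. `←`: `(rsH hle).h C (cq Q C z hj) = cq P C z hj = 0` (`cmap_cq`; `cq P C z hj * lx P C j = lx P C z = 0`, `cq_mul_lx`, `lx_isUnit`, `Subtype.ext`).
  `→`: let `r ∈ chart Q C` go to `0`. Elements of `chart Q C`: `r = f / x_j ^ N`-type presentation: use GP/Mod*.lean lemmas which write an element of the chart as the class of a homogeneous polynomial divided by a monomial in the `x_i`, `i ∈ C` (grep: `exists_num`, `chart_eq`, `lx_prod`; DC/GCyc*.lean, GP/Mod2.lean `cmap`..). Alternative without fractions: construct the inverse: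
  the quotient ring `T := chart Q C ⧸ span {cq Q C z hj}` receives an `A`-algebra homomorphism from `chart P C` sending `cq P C l hm` to the class of `cq Q C l hm` (then it is a left inverse of the map induced by `(rsH hle).h C`, checked on generators by `chart_ind`). To construct it use the characterization of homomorphisms out of `chart P C`
  in GP/Mod2.lean (how `cmap` is constructed: from a homomorphism of the polynomial ring killing the ideal, `LR`, restricted to degree `0`), for the ring `T[x_j, 1/x_j]`; or: `LR P C` is the localization of `MvPolynomial ⧸ P`, `MvPolynomial ⧸ P = (MvPolynomial ⧸ Q) ⧸ (X z)`; if `r ↦ 0` then `r = (X z) * s` in `LR Q C` (exactness of localization: `r = a / m`, `m' a ∈ P`, so `m' a = q + h X z`),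
  and `r` has degree `0`, so take the component of `s` of degree `-1` (GP/Mod.lean has the grading of `LR` / the projection to degree `0`: use that `r = (z / x_j) (x_j s)` and project to degree `0`, the projection is linear over the chart).
-/

set_option autoImplicit false

namespace MPadcHS

open MvPolynomial MPadcGP MPadcDC

universe u v w

section

variable {A : Type u} [CommRing A] {n : ℕ} {Q P : Ideal (MvPolynomial (Fin (n + 1)) A)}

private theorem GyA_mul {σ : Type*} {M : Type*} [AddCommMonoid M] (w : σ → M)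
    {J : Ideal (MvPolynomial σ A)} {s : MvPolynomial σ A} {ν : M} (hs : s ∈ J)
    (h : IsWeightedHomogeneous w s ν) (q : MvPolynomial σ A) (μ : M) :
    weightedHomogeneousComponent w μ (q * s) ∈ J := by
  classical
  induction q using MvPolynomial.induction_on' with
  | monomial m a =>
    have h1 : IsWeightedHomogeneous w (monomial m a * s) (Finsupp.weight w m + ν) :=
      (isWeightedHomogeneous_monomial w m a rfl).mul h
    by_cases hμ : Finsupp.weight w m + ν = μ
    · rw [← hμ, h1.weightedHomogeneousComponent_same]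
      exact J.mul_mem_left _ hs
    · rw [h1.weightedHomogeneousComponent_ne μ (Ne.symm hμ)]
      exact J.zero_mem
  | add p q hp hq =>
    rw [add_mul, map_add]
    exact J.add_mem hp hq

theorem isHomog_hyp (hQ : IsHomog Q) : IsHomog (hyp Q) := by
  intro f hf d
  obtain ⟨g, hg, y, hy, rfl⟩ := Submodule.mem_sup.1 hf
  obtain ⟨h, rfl⟩ := Ideal.mem_span_singleton'.1 hy
  rw [map_add]
  refine (hyp Q).add_mem (le_hyp Q (hQ g hg d)) ?_
  have h1 : (X (Fin.last n) : MvPolynomial (Fin (n + 1)) A) ∈ hyp Q :=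
    (le_sup_right : Ideal.span {X (Fin.last n)} ≤ hyp Q) (Ideal.subset_span rfl)
  exact GyA_mul (M := ℕ) 1 h1 (isHomogeneous_X A (Fin.last n)) h d

theorem bI_hyp {B : Type u} [CommRing B] (φ : A →+* B) : bI φ (hyp Q) = hyp (bI φ Q) := by
  change Ideal.map (MvPolynomial.map φ) (Q ⊔ Ideal.span {X (Fin.last n)}) =
    Ideal.map (MvPolynomial.map φ) Q ⊔ Ideal.span {X (Fin.last n)}
  rw [Ideal.map_sup, Ideal.map_span, Set.image_singleton, map_X]

/-- The charts of `X` inside `z ≠ 0` are empty. -/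
theorem subs_chart (hP : P = hyp Q) {C : Finset (Fin (n + 1))} (hz : Fin.last n ∈ C) : Subsingleton (chart P C) := by
  have h1 : (X (Fin.last n) : MvPolynomial (Fin (n + 1)) A) ∈ P := by
    rw [hP]
    exact (le_sup_right : Ideal.span {X (Fin.last n)} ≤ hyp Q) (Ideal.subset_span rfl)
  have h2 : lx P C (Fin.last n) = 0 := by
    rw [lx, Ideal.Quotient.eq_zero_iff_mem.2 h1, map_zero]
  have h3 : IsUnit (0 : LR P C) := h2 ▸ lx_isUnit P C hz
  have h4 : (0 : LR P C) = 1 := isUnit_zero_iff.1 h3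
  have h5 : (0 : chart P C) = 1 := Subtype.ext h4
  exact subsingleton_of_zero_eq_one h5

theorem subs_E (hP : P = hyp Q) {C : Finset (Fin (n + 1))} (hz : Fin.last n ∈ C) : Subsingleton ((prC P).E C) := by
  have h1 : Subsingleton ((prC P).R C) := subs_chart hP hz
  exact Module.subsingleton ((prC P).R C) _

theorem rsH_surj (hle : Q ≤ P) (C : Finset (Fin (n + 1))) : Function.Surjective ((rsH hle).h C) := by
  intro y
  refine chart_ind (P := fun y => ∃ x, (rsH hle).h C x = y) P C (fun a => ?_) (fun l m hm => ?_) ?_ ?_ y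
  · exact ⟨_, (rsH hle).base C a⟩
  · exact ⟨cq Q C l hm, cmap_cq (RingHom.id A) (rs_mem hle) (Finset.Subset.refl C) l hm⟩
  · rintro x y ⟨x', rfl⟩ ⟨y', rfl⟩
    exact ⟨x' + y', map_add ((rsH hle).h C) x' y'⟩
  · rintro x y ⟨x', rfl⟩ ⟨y', rfl⟩
    exact ⟨x' * y', map_mul ((rsH hle).h C) x' y'⟩

private theorem GyA_lift (hQ : IsHomog Q) (hP : P = hyp Q) (hle : Q ≤ P) {C : Finset (Fin (n + 1))} {j : Fin (n + 1)}
    (hj : j ∈ C) {T : Type*} [CommRing T] (mk : chart Q C →+* T) (hmz : mk (cq Q C (Fin.last n) hj) = 0)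
    (r : chart Q C) (hr : cmap (RingHom.id A) (rs_mem hle) (Finset.Subset.refl C) r = 0) : mk r = 0 := by
  have hev : ∀ f : MvPolynomial (Fin (n + 1)) A,
      eval₂ (mk.comp (algebraMap A (chart Q C))) (fun l => mk (cq Q C l hj)) f =
      mk (eval₂ (algebraMap A (chart Q C)) (fun l => cq Q C l hj) f) := fun f =>
    (eval₂_comp_left mk (algebraMap A (chart Q C)) (fun l => cq Q C l hj) f).symm
  obtain ⟨β, hβ0, hβ⟩ := exists_chart_lift P C (R' := T) (mk.comp (algebraMap A (chart Q C))) hj
    (fun l => mk (cq Q C l hj)) (by rw [cq_self, map_one]) (fun j' hj' => (cq_isUnit Q C hj' hj).map mk)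
    (fun f hf => by
      rw [hP] at hf
      obtain ⟨g, hg, y, hy, rfl⟩ := Submodule.mem_sup.1 hf
      obtain ⟨h, rfl⟩ := Ideal.mem_span_singleton'.1 hy
      rw [hev, eval₂_add, eval₂_mul, eval₂_X, eval₂_cq hQ hj hg, zero_add, map_mul, hmz, mul_zero])
  have hc : β.comp (cmap (RingHom.id A) (rs_mem hle) (Finset.Subset.refl C)) = mk := by
    refine chart_hom_ext' Q C hj (fun a => ?_) fun l => ?_
    · rw [RingHom.comp_apply, cmap_base, RingHom.id_apply, hβ0]
      rfl
    · rw [RingHom.comp_apply, cmap_cq, hβ]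
  rw [← hc, RingHom.comp_apply, hr, map_zero]

private theorem GyA_abs {S : Type u} {S' : Type u} [CommRing S] [CommRing S'] (f : S →+* S') (x r : S) (hx : f x = 0)
    (H : ∀ (T : Type u) (_ : CommRing T) (mk : S →+* T), mk x = 0 → f r = 0 → mk r = 0) : f r = 0 ↔ ∃ s, r = x * s := by
  constructor
  · intro hr
    have h0 : (Ideal.Quotient.mk (Ideal.span {x})) x = 0 :=
      Ideal.Quotient.eq_zero_iff_mem.2 (Ideal.mem_span_singleton_self _)
    have h1 := H (S ⧸ Ideal.span {x}) inferInstance (Ideal.Quotient.mk (Ideal.span {x})) h0 hr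
    obtain ⟨a, ha⟩ := Ideal.mem_span_singleton'.1 (Ideal.Quotient.eq_zero_iff_mem.1 h1)
    exact ⟨a, by rw [← ha, mul_comm]⟩
  · rintro ⟨s, rfl⟩
    rw [map_mul, hx, zero_mul]

private theorem GyA_unit {S : Type u} [CommRing S] {a u b : S} (hu : IsUnit u) (h : a * u = b) (hb : b = 0) : a = 0 := by
  rw [hb] at h
  exact hu.mul_left_eq_zero.1 h

private theorem GyA_cq {C : Finset (Fin (n + 1))} {j : Fin (n + 1)} (hj : j ∈ C)
    (hzP : (X (Fin.last n) : MvPolynomial (Fin (n + 1)) A) ∈ P) : cq P C (Fin.last n) hj = 0 := by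
  have h1 : lx P C (Fin.last n) = 0 := by
    rw [lx, Ideal.Quotient.eq_zero_iff_mem.2 hzP, map_zero]
  exact Subtype.ext (GyA_unit (lx_isUnit P C hj) (cq_mul_lx P C (Fin.last n) hj) h1)

private theorem GyA_0 (hle : Q ≤ P) {C : Finset (Fin (n + 1))} {j : Fin (n + 1)} (hj : j ∈ C)
    (hzP : (X (Fin.last n) : MvPolynomial (Fin (n + 1)) A) ∈ P) :
    cmap (RingHom.id A) (rs_mem hle) (Finset.Subset.refl C) (cq Q C (Fin.last n) hj) = 0 :=
  (cmap_cq (RingHom.id A) (rs_mem hle) (Finset.Subset.refl C) (Fin.last n) hj).trans (GyA_cq hj hzP)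

private theorem GyA_1 (hQ : IsHomog Q) (hP : P = hyp Q) (hle : Q ≤ P) {C : Finset (Fin (n + 1))} {j : Fin (n + 1)}
    (hj : j ∈ C) (r : chart Q C) (T : Type u) (_ : CommRing T) (mk : chart Q C →+* T)
    (h0 : mk (cq Q C (Fin.last n) hj) = 0)
    (hr : cmap (RingHom.id A) (rs_mem hle) (Finset.Subset.refl C) r = 0) : mk r = 0 :=
  GyA_lift hQ hP hle hj mk h0 r hr

private theorem GyA_2 (hQ : IsHomog Q) (hP : P = hyp Q) (hle : Q ≤ P) {C : Finset (Fin (n + 1))} {j : Fin (n + 1)}
    (hj : j ∈ C) (hzP : (X (Fin.last n) : MvPolynomial (Fin (n + 1)) A) ∈ P) (r : chart Q C) :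
    cmap (RingHom.id A) (rs_mem hle) (Finset.Subset.refl C) r = 0 ↔ ∃ s, r = cq Q C (Fin.last n) hj * s :=
  GyA_abs (S := chart Q C) (S' := chart P C) (cmap (RingHom.id A) (rs_mem hle) (Finset.Subset.refl C))
    (cq Q C (Fin.last n) hj) r (GyA_0 hle hj hzP) (GyA_1 hQ hP hle hj r)

theorem rsH_ker (hQ : IsHomog Q) (hP : P = hyp Q) (hle : Q ≤ P) {C : Finset (Fin (n + 1))} {j : Fin (n + 1)} (hj : j ∈ C)
    (hz : Fin.last n ∉ C) (r : chart Q C) :
    (rsH hle).h C r = 0 ↔ ∃ s, r = cq Q C (Fin.last n) hj * s := by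
  have _ := hz
  have hzP : (X (Fin.last n) : MvPolynomial (Fin (n + 1)) A) ∈ P := by
    rw [hP]
    exact (le_sup_right : Ideal.span {X (Fin.last n)} ≤ hyp Q) (Ideal.subset_span rfl)
  exact GyA_2 hQ hP hle hj hzP r

end

end MPadcHS
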