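import Pool.Agent.Lib.MP_adc574_ag_HS.GyDefs

/-!
# JOB GyD (HS, Part P)

`dlg Q C l j hl hj = fz (cq Q C j hl) * df (cq Q C l hj)` is `u⁻¹ du`, `u = x_l / x_j = cq Q C l hj`, `u⁻¹ = cq Q C j hl` (`cq_mul`, `cq_self`, GP/Mod.lean: `cq l hj * cq j hl = 1`). `dl` is `dlg` or `0` (`dl_eq`, `dif_neg`).
`dl_self`: `cq l hl = 1`, `df 1 = 0`. `dd_dl`: `dd (fz a * df b) = df a * df b`, and `a b = 1` gives `fz a * df b = - fz b * df a`, so `df a * df b = ..`: from `a * b = 1`: `df a = - fz (a * a) * df b`, so `df a * df b = - fz (a^2) * df b * df b = 0`. `inv_dl`: `inv_fz`, `inv_df`.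
`dl_add`: `cq l hi = cq l hj * cq j hi` (`cq_mul`), `df` of the product, multiply with `cq i hl = cq i hj * cq j hl`. If `l, j, i ∈ C`. `rs_dl`: `rs_fz`, `rs_df`, `tr_cq` (`(prC Q).ρ h = tr Q h` by definition). `dd_dl_mul`: `dd_mul`: `dd (x * y) = dd x * y + inv x * dd y`. `inv_dl_mul`: `map_mul`.
`dl_mul_mem`: `fd_mul` (degrees `1 + q`; `add_comm`). `push_dl`: `(prH φ Q).e` is a ring homomorphism: `CovD.Hm.e_fz`, `e_df`, `(prH φ Q).h C = cb φ Q C`, `cb_cq` (GP). The `0` case: `map_zero`.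
-/

set_option autoImplicit false

namespace MPadcHS

open MvPolynomial MPadcGP MPadcDC

universe u v w

section

variable {A : Type u} [CommRing A] {n : ℕ} {Q : Ideal (MvPolynomial (Fin (n + 1)) A)}

/-- logarithmic differentials are closed -/
private theorem GyD_dd {R : Type v} [CommRing R] [Algebra A R] {a b : R} (h : a * b = 1) :
    dd A (fz A a * df A b) = 0 := by
  have h1 : fz A a * df A b + fz A b * df A a = 0 := by
    rw [← df_mul, h, df_one]
  have h2 : df A a = -(fz A (a * a) * df A b) := by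
    have h3 : fz A a * (fz A a * df A b + fz A b * df A a) = 0 := by rw [h1, mul_zero]
    rw [mul_add, ← mul_assoc, ← mul_assoc, ← map_mul, ← map_mul, h, map_one, one_mul] at h3
    exact eq_neg_of_add_eq_zero_right h3
  rw [dd_mul, dd_fz, dd_df, mul_zero, add_zero, h2, neg_mul, mul_assoc, df_sq, mul_zero, neg_zero]

private theorem GyD_inv {R : Type v} [CommRing R] [Algebra A R] (a b : R) :
    inv A (fz A a * df A b) = -(fz A a * df A b) := by
  rw [map_mul, inv_fz, inv_df, mul_neg]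

private theorem GyD_add {R : Type v} [CommRing R] [Algebra A R] {il li jl lj ij ji : R} (h1 : li = lj * ji)
    (h2 : il * lj = ij) (h3 : il * ji = jl) :
    fz A il * df A li = fz A jl * df A lj + fz A ij * df A ji := by
  rw [h1, df_mul, mul_add, ← mul_assoc, ← mul_assoc, ← map_mul, ← map_mul, h2, h3]
  exact add_comm _ _

theorem dlg_mem (C : Finset (Fin (n + 1))) (l j : Fin (n + 1)) (hl : l ∈ C) (hj : j ∈ C) :
    dlg Q C l j hl hj ∈ Fd A ((prC Q).R C) 1 :=
  fz_mul_mem (R := chart Q C) (cq Q C j hl) (df_mem (cq Q C l hj))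

theorem dl_mem (C : Finset (Fin (n + 1))) (l j : Fin (n + 1)) : dl Q C l j ∈ Fd A ((prC Q).R C) 1 := by
  unfold dl
  split_ifs with h
  · exact dlg_mem C l j h.1 h.2
  · exact zero_mem _

theorem dl_self (C : Finset (Fin (n + 1))) (l : Fin (n + 1)) : dl Q C l l = 0 := by
  unfold dl
  split_ifs with h
  · show (fz A (cq Q C l h.1) * df A (cq Q C l h.2) : Fm A (chart Q C)) = 0
    rw [cq_self, df_one, mul_zero]
  · rfl

theorem dd_dl (C : Finset (Fin (n + 1))) (l j : Fin (n + 1)) : dd A (dl Q C l j) = 0 := by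
  unfold dl
  split_ifs with h
  · exact GyD_dd (A := A) (R := chart Q C) (a := cq Q C j h.1) (b := cq Q C l h.2)
      (by rw [cq_mul, cq_self])
  · exact map_zero _

theorem inv_dl (C : Finset (Fin (n + 1))) (l j : Fin (n + 1)) : inv A (dl Q C l j) = -dl Q C l j := by
  unfold dl
  split_ifs with h
  · exact GyD_inv (A := A) (R := chart Q C) (cq Q C j h.1) (cq Q C l h.2)
  · rw [map_zero, neg_zero]

/-- `dlog (x_l / x_i) = dlog (x_l / x_j) + dlog (x_j / x_i)` -/
theorem dl_add {C : Finset (Fin (n + 1))} {l j i : Fin (n + 1)} (hl : l ∈ C) (hj : j ∈ C) (hi : i ∈ C) :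
    dl Q C l i = dl Q C l j + dl Q C j i := by
  rw [dl_eq Q hl hi, dl_eq Q hl hj, dl_eq Q hj hi]
  show (fz A (cq Q C i hl) * df A (cq Q C l hi) : Fm A (chart Q C)) =
    fz A (cq Q C j hl) * df A (cq Q C l hj) + fz A (cq Q C i hj) * df A (cq Q C j hi)
  have h1 : cq Q C l hi = cq Q C l hj * cq Q C j hi := (cq_mul Q C hj hi).symm
  have h2 : cq Q C i hl * cq Q C l hj = cq Q C i hj := cq_mul Q C hl hj
  have h3 : cq Q C i hl * cq Q C j hi = cq Q C j hl := by
    rw [mul_comm]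
    exact cq_mul Q C hi hl
  exact GyD_add (A := A) (R := chart Q C) h1 h2 h3

theorem rs_dl {C C₁ : Finset (Fin (n + 1))} (h : C ⊆ C₁) {l j : Fin (n + 1)} (hl : l ∈ C) (hj : j ∈ C) :
    (prC Q).rs h (dl Q C l j) = dl Q C₁ l j := by
  rw [dl_eq Q hl hj, dl_eq Q (h hl) (h hj)]
  have h1 : (prC Q).rs h (dlg Q C l j hl hj) = fz A ((prC Q).ρ h (cq Q C j hl)) * df A ((prC Q).ρ h (cq Q C l hj)) :=
    (map_mul ((prC Q).rs h) (fz A (cq Q C j hl) : (prC Q).E C) (df A (cq Q C l hj) : (prC Q).E C)).trans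
      (congrArg₂ (· * ·) ((prC Q).rs_fz h (cq Q C j hl)) ((prC Q).rs_df h (cq Q C l hj)))
  rw [h1]
  have h2 : (prC Q).ρ h (cq Q C j hl) = cq Q C₁ j (h hl) := tr_cq Q h j hl
  have h3 : (prC Q).ρ h (cq Q C l hj) = cq Q C₁ l (h hj) := tr_cq Q h l hj
  rw [h2, h3]
  rfl

/-- `dlog ∧` and the operators. -/
theorem dd_dl_mul (C : Finset (Fin (n + 1))) (l j : Fin (n + 1)) (e : (prC Q).E C) :
    dd A (dl Q C l j * e) = -(dl Q C l j * dd A e) := by
  rw [dd_mul, dd_dl, zero_mul, zero_add, inv_dl, neg_mul]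

theorem inv_dl_mul (C : Finset (Fin (n + 1))) (l j : Fin (n + 1)) (e : (prC Q).E C) :
    inv A (dl Q C l j * e) = -(dl Q C l j * inv A e) := by
  rw [map_mul, inv_dl, neg_mul]

theorem dl_mul_mem {C : Finset (Fin (n + 1))} (l j : Fin (n + 1)) {q : ℕ} {e : (prC Q).E C}
    (he : e ∈ Fd A ((prC Q).R C) q) : dl Q C l j * e ∈ Fd A ((prC Q).R C) (q + 1) := by
  have h := fd_mul (dl_mem (Q := Q) C l j) he
  rwa [Nat.add_comm 1 q] at h

end

section

variable {A : Type u} [CommRing A] {n : ℕ} {Q : Ideal (MvPolynomial (Fin (n + 1)) A)} {B : Type u} [CommRing B]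

/-- Base change. -/
theorem push_dl (φ : A →+* B) (C : Finset (Fin (n + 1))) (l j : Fin (n + 1)) :
    (prH φ Q).e C (dl Q C l j) = dl (bI φ Q) C l j := by
  unfold dl
  split_ifs with h
  · have h1 : (prH φ Q).e C (dlg Q C l j h.1 h.2) =
        fz B ((prH φ Q).h C (cq Q C j h.1)) * df B ((prH φ Q).h C (cq Q C l h.2)) :=
      (map_mul ((prH φ Q).e C) (fz A (cq Q C j h.1) : (prC Q).E C) (df A (cq Q C l h.2) : (prC Q).E C)).trans
        (congrArg₂ (· * ·) ((prH φ Q).e_fz C (cq Q C j h.1)) ((prH φ Q).e_df C (cq Q C l h.2)))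
    have h2 : (prH φ Q).h C (cq Q C j h.1) = cq (bI φ Q) C j h.1 := cb_cq φ Q C j h.1
    have h3 : (prH φ Q).h C (cq Q C l h.2) = cq (bI φ Q) C l h.2 := cb_cq φ Q C l h.2
    rw [h1, h2, h3]
    rfl
  · exact map_zero _

end

end MPadcHS
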