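import Pool.Agent.Lib.MP_adc574_ag_HS.NDiv
import Pool.Agent.Lib.MP_adc574_ag_DC.W1Q

/-!
# JOB NKer (HS): the kernel of the restriction to a section

* `hx_surj`: every element of `chart I' J` is in the range: `chart_ind` (base, `cq`, sums, products): `hx_base`, `hx_cq`.
* `hx_ker`: `←`: `hx_rsc`.. `F ∈ I'`: `fC I' F J = 0`: `dh_mul` (GV0): `dh * lx ^ e = mkL I' J F = 0`, `lx` a unit (`lx_isUnit`); `fC_rsH` (NTw). `→`: let `x ∈ chart I J` with `hx x = 0`. `Ideal`-theoretic: in `LR I J` the kernel of `LR I J → LR I' J` (`lmap`, or localization of `CR I → CR I'`) is generated by the image of `I'`: write `x * lx_j ^ k`.. Suggested: choose `j ∈ J` and write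
  `x = dh I J hj p` for a polynomial `p` (`chart_ind`: `p` a polynomial in the `x_l / x_j` and, for other denominators `x_l / x_m = (x_l / x_j) * (x_j / x_m)`, multiply by a power of the unit `∏ m ∈ J, x_m / x_j`): `x * (∏ m ∈ J, cq m hj) ^ k = dh I J hj p`, `p` a polynomial, WLOG homogeneous of degree `d` (multiply the components with powers of `X j`: `dh I J hj (X j) = 1`).
  Then `dh I' J hj p = 0`, so `mkL I' J p = 0` (`dh_mul`) in `LR I' J`, so `(∏ m ∈ J, X m) ^ k' * p ∈ I'` (`IsLocalization.Away` / `IsLocalization.mk'_eq_zero_iff`), so by `sat` `X j ^ N * (∏ X m) ^ k' * p = a + F * b`, `a ∈ I`, so `dh I J hj p * unit = dh I J hj F * dh I J hj b` (`dh I J hj a = 0` for `a ∈ I`: `eval₂_cq`). `x` is a unit times this. The statement for `j = min J` is `fC`.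
* `fsurj`: `fd_ind` (GP/DRm): `fz r * wd t` is the image of `fz r' * wd t'` (`hx_surj`, `mp_wd`, `rsx_fz`, `rsx_df`; `rsx` is `mp (hx) _`).
* `fker`: let `Z := Fm A (chart I J) ⧸ N`, `N := {fz f * ω + df f * ω'}` (an additive subgroup: `df f * r = ..`), `R` the quotient map. `W1_desc` (DC/W1Q) for `π = hx` (as an `AlgHom`, `hx_base`), `g = f = fC I F J`: `hs` = `hx_surj`, `hk` = `hx_ker`: `R = R' ∘ mp π`, so `rsx x = 0` implies `R x = 0`, `x = fz f * ω + df f * ω'`.
  Degrees: apply the projection `pj A q` (GP/BCd; `pj_of_mem`, `pj_of_ne`, see `C1A_pj`, `W1_dec` for `fz f * ` and for `df f *`, or decompose `ω`, `ω'` into components: `DirectSum.decompose`): the component of degree `q` of `df f * ω'` is `df f * (component of degree q - 1 of ω')`, and `0` if `q = 0`.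
* `fker'`: `map_mul`, `rsx_fz`, `rsx_df`, `hx f = 0`, `df 0 = 0`.
* `fdiv`: copy `C1B_gen` / `div_zeta` (DC/C1B.lean), `ct`.
* `fz_inj`: copy `C1A_smul` (DC/C1A.lean): `hs.smooth hI hJ : Algebra.Smooth A (chart I J)`, `projective_ext`.
-/

set_option autoImplicit false
set_option linter.unusedSectionVars false

namespace MPadcHS

open MvPolynomial MPadcGP MPadcDC

universe u v w

section forms

variable {A R : Type u} [CommRing A] [CommRing R] [Algebra A R]

private theorem NKer_pj (q : ℕ) (r : R) (e : Fm A R) : pj A q (fz A r * e) = fz A r * pj A q e := by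
  induction e using homog_ind with
  | h0 => rw [mul_zero, map_zero, mul_zero]
  | h1 s e he =>
    rcases eq_or_ne s q with rfl | h
    · rw [pj_of_mem he, pj_of_mem (fz_mul_mem r he)]
    · rw [pj_of_ne he h, pj_of_ne (fz_mul_mem r he) h, mul_zero]
  | h2 a b ha hb => rw [mul_add, map_add, ha, hb, map_add, mul_add]

private theorem NKer_dmem (r : R) {s : ℕ} {e : Fm A R} (he : e ∈ Fd A R s) : df A r * e ∈ Fd A R (s + 1) := by
  have h := fd_mul (df_mem (A := A) r) he
  rwa [add_comm 1 s] at h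

private theorem NKer_pjd (q : ℕ) (r : R) (e : Fm A R) : pj A (q + 1) (df A r * e) = df A r * pj A q e := by
  induction e using homog_ind with
  | h0 => rw [mul_zero, map_zero, map_zero, mul_zero]
  | h1 s e he =>
    rcases eq_or_ne s q with rfl | h
    · rw [pj_of_mem he, pj_of_mem (NKer_dmem r he)]
    · rw [pj_of_ne he h, pj_of_ne (NKer_dmem r he) (fun h' => h (Nat.succ_injective h')), mul_zero]
  | h2 a b ha hb => rw [mul_add, map_add, ha, hb, map_add, mul_add]

private theorem NKer_pjd0 (r : R) (e : Fm A R) : pj A 0 (df A r * e) = 0 := by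
  induction e using homog_ind with
  | h0 => rw [mul_zero, map_zero]
  | h1 s e he => rw [pj_of_ne (NKer_dmem r he) (Nat.succ_ne_zero s)]
  | h2 a b ha hb => rw [mul_add, map_add, ha, hb, add_zero]

private theorem NKer_pj_zero {e : Fm A R} (h : ∀ q, pj A q e = 0) : e = 0 := by
  apply (DirectSum.decompose (fun i : ℕ => ⋀[R]^i (Ω[R⁄A]))).injective
  rw [DirectSum.decompose_zero]
  refine DFinsupp.ext fun q => Subtype.ext ?_
  exact h q

private theorem NKer_tf {P : Type u} [AddCommGroup P] [Module R P]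
    [Module.Projective R P] {r : R} (hr : r ∈ nonZeroDivisors R) {x : P} (hx : r • x = 0) : x = 0 := by
  obtain ⟨s, hs⟩ := Module.projective_def.1 (inferInstance : Module.Projective R P)
  have h1 : s x = 0 := by
    refine Finsupp.ext fun p => ?_
    have h2 : r * s x p = 0 := by
      have h3 := congrArg s hx
      rw [map_smul, map_zero] at h3
      have h4 := DFunLike.congr_fun h3 p
      exact h4
    rw [mul_comm] at h2
    exact (mem_nonZeroDivisors_iff_right.1 hr) _ h2
  have h2 := hs x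
  rw [h1, map_zero] at h2
  exact h2.symm

private theorem NKer_smul [Algebra.FormallySmooth A R] {r : R} (hr : r ∈ nonZeroDivisors R) {e : Fm A R}
    (he : fz A r * e = 0) : e = 0 := by
  refine NKer_pj_zero fun q => ?_
  have h1 : fz A r * pj A q e = 0 := by
    rw [← NKer_pj, he, map_zero]
  have hp : Module.Projective R (⋀[R]^q (Ω[R⁄A])) := projective_ext q
  have h2 : (⟨pj A q e, pj_mem q e⟩ : ⋀[R]^q (Ω[R⁄A])) = 0 := by
    refine NKer_tf (P := ⋀[R]^q (Ω[R⁄A])) hr ?_
    apply Subtype.ext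
    change r • pj A q e = 0
    rw [fz_smul]
    exact h1
  exact congrArg Subtype.val h2

private theorem NKer_gen (D : Derivation A R R) (ζ g : R) (hD : D ζ + g * ζ = 1) {η x : Fm A R}
    (h : df A ζ * η = fz A ζ * x) :
    η = df A ζ * ct A D η + fz A ζ * (ct A D x + fz A g * η) := by
  have h1 := congrArg (ct A D) h
  rw [ct_df_mul, ← fz_smul ζ x, map_smul, fz_smul] at h1
  have e : fz A (D ζ) * η = df A ζ * ct A D η + fz A ζ * ct A D x := by
    rw [← h1]
    abel
  calc η = fz A (1 : R) * η := by rw [map_one, one_mul]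
    _ = fz A (D ζ) * η + fz A (g * ζ) * η := by rw [← hD, map_add, add_mul]
    _ = df A ζ * ct A D η + fz A ζ * (ct A D x + fz A g * η) := by
      rw [e, mul_comm g, map_mul, mul_add, mul_assoc, add_assoc]

/-- The kernel on forms. -/
private theorem NKer_ker {B : Type u} [CommRing B] [Algebra A B] (π : R →ₐ[A] B) (hs : Function.Surjective π) (g : R)
    (hk : ∀ x, π x = 0 → ∃ h, x = g * h) {x : Fm A R} (hx : mp (π : R →+* B) (CC.of_algHom π) x = 0) :
    ∃ a b : Fm A R, x = fz A g * a + df A g * b := by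
  let N : AddSubgroup (Fm A R) :=
    { carrier := {x | ∃ a b, x = fz A g * a + df A g * b}
      zero_mem' := ⟨0, 0, by rw [mul_zero, mul_zero, add_zero]⟩
      add_mem' := by
        rintro x y ⟨a, b, rfl⟩ ⟨a', b', rfl⟩
        exact ⟨a + a', b + b', by rw [mul_add, mul_add]; abel⟩
      neg_mem' := by
        rintro x ⟨a, b, rfl⟩
        exact ⟨-a, -b, by rw [mul_neg, mul_neg]; abel⟩ }
  obtain ⟨R', hR'⟩ := W1_desc π hs g hk (QuotientAddGroup.mk' N)
    (fun ω => (QuotientAddGroup.eq_zero_iff _).2 ⟨ω, 0, by rw [mul_zero, add_zero]⟩)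
    (fun ω => (QuotientAddGroup.eq_zero_iff _).2 ⟨0, ω, by rw [mul_zero, zero_add]⟩)
  have h1 := hR' x
  rw [hx, map_zero] at h1
  exact (QuotientAddGroup.eq_zero_iff x).1 h1.symm

private theorem NKer_kerd {B : Type u} [CommRing B] [Algebra A B] (π : R →ₐ[A] B) (hs : Function.Surjective π) (g : R)
    (hk : ∀ x, π x = 0 → ∃ h, x = g * h) {q : ℕ} {x : Fm A R} (hx' : x ∈ Fd A R q)
    (hx : mp (π : R →+* B) (CC.of_algHom π) x = 0) :
    ∃ ω ω' : Fm A R, ω ∈ Fd A R q ∧ (∀ r, r + 1 = q → ω' ∈ Fd A R r) ∧ (q = 0 → ω' = 0) ∧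
      x = fz A g * ω + df A g * ω' := by
  obtain ⟨a, b, hab⟩ := NKer_ker π hs g hk hx
  cases q with
  | zero =>
    refine ⟨pj A 0 a, 0, pj_mem 0 a, fun r hr => absurd hr (Nat.succ_ne_zero r), fun _ => rfl, ?_⟩
    have h1 := congrArg (pj A 0) hab
    rw [pj_of_mem hx', map_add, NKer_pj, NKer_pjd0] at h1
    rw [mul_zero]
    exact h1
  | succ q =>
    refine ⟨pj A (q + 1) a, pj A q b, pj_mem (q + 1) a, fun r hr => ?_, fun h0 => absurd h0 (Nat.succ_ne_zero q), ?_⟩
    · obtain rfl := Nat.succ_injective hr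
      exact pj_mem r b
    · have h1 := congrArg (pj A (q + 1)) hab
      rw [pj_of_mem hx', map_add, NKer_pj, NKer_pjd] at h1
      exact h1

private theorem NKer_sj {B : Type u} [CommRing B] [Algebra A B] (π : R →ₐ[A] B) (hs : Function.Surjective π)
    {q : ℕ} {y : Fm A B} (hy : y ∈ Fd A B q) : ∃ x ∈ Fd A R q, mp (π : R →+* B) (CC.of_algHom π) x = y := by
  refine fd_ind (P := fun y => ∃ x ∈ Fd A R q, mp (π : R →+* B) (CC.of_algHom π) x = y) ?_ ?_ ?_ hy
  · exact ⟨0, Submodule.zero_mem _, map_zero _⟩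
  · intro r t
    obtain ⟨r', hr'⟩ := hs r
    choose t' ht' using fun i => hs (t i)
    refine ⟨fz A r' * wd A t', fz_mul_mem _ (wd_mem _), ?_⟩
    have h1 : (fun i => (π : R →+* B) (t' i)) = t := funext ht'
    have h2 : (π : R →+* B) r' = r := hr'
    rw [map_mul, mp_fz, h2, mp_wd, h1]
  · rintro a b ⟨a', ha', rfl⟩ ⟨b', hb', rfl⟩
    exact ⟨a' + b', Submodule.add_mem _ ha' hb', map_add _ _ _⟩

private theorem NKer_fdiv (D : Derivation A R R) (ζ g : R) (hD : D ζ + g * ζ = 1) {q : ℕ} {η x : Fm A R}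
    (hη : η ∈ Fd A R q) (hx' : x ∈ Fd A R (q + 1)) (h : df A ζ * η = fz A ζ * x) :
    ∃ b y : Fm A R, (∀ r, r + 1 = q → b ∈ Fd A R r) ∧ (q = 0 → b = 0) ∧ y ∈ Fd A R q ∧
      η = df A ζ * b + fz A ζ * y := by
  refine ⟨ct A D η, ct A D x + fz A g * η, ?_, ?_, ?_, NKer_gen D _ g hD h⟩
  · intro r hr
    rw [← hr] at hη
    exact ct_mem D hη
  · intro hq
    rw [hq] at hη
    exact ct_mem_zero D hη
  · exact Submodule.add_mem _ (ct_mem D hx') (fz_mul_mem g hη)

end forms

section rings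

private theorem NKer_quo {R : Type u} [CommRing R] (g : R) :
    ∃ (T : Type u) (_ : CommRing T) (Q : R →+* T), ∀ x, Q x = 0 ↔ ∃ y, x = g * y := by
  refine ⟨R ⧸ Ideal.span {g}, inferInstance, Ideal.Quotient.mk (Ideal.span {g}), fun x => ?_⟩
  rw [Ideal.Quotient.eq_zero_iff_mem]
  exact Ideal.mem_span_singleton

private theorem NKer_k0 {E : Type*} {E' : Type*} [Ring E] [Ring E'] (f : E →+* E') {a b : E} (ha : f a = 0)
    (hb : f b = 0) (ω ω' : E) : f (a * ω + b * ω') = 0 := by
  rw [map_add, map_mul, map_mul, ha, hb, zero_mul, zero_mul, add_zero]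

private theorem NKer_sat {A : Type u} [CommRing A] {n : ℕ} {R : Type v} [CommRing R] [Algebra A R] {T : Type v} [CommRing T]
    (Q : R →+* T) (t : Fin n → R) (j : Fin n) (ht : t j = 1) {F f a c : MvPolynomial (Fin n) A} {N : ℕ}
    (hQF : Q (eval₂ (algebraMap A R) t F) = 0) (ha : eval₂ (algebraMap A R) t a = 0)
    (hab : a + c * F = X j ^ N * f) : eval₂ (Q.comp (algebraMap A R)) (fun l => Q (t l)) f = 0 := by
  have hev : ∀ f : MvPolynomial (Fin n) A, eval₂ (Q.comp (algebraMap A R)) (fun l => Q (t l)) f =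
      Q (eval₂ (algebraMap A R) t f) := by
    intro f
    induction f using MvPolynomial.induction_on with
    | C a => rw [eval₂_C, eval₂_C, RingHom.comp_apply]
    | add p q hp hq => rw [eval₂_add, eval₂_add, map_add, hp, hq]
    | mul_X p i hp => rw [eval₂_mul, eval₂_mul, eval₂_X, eval₂_X, map_mul, hp]
  have h1 := congrArg (fun g => Q (eval₂ (algebraMap A R) t g)) hab
  simp only [eval₂_add, eval₂_mul, eval₂_pow, eval₂_X, map_add, map_mul, map_pow, hQF, ha, ht, map_zero, mul_zero,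
    add_zero, map_one, one_pow, one_mul] at h1
  rw [hev]
  exact h1.symm

end rings

section

variable {A : Type u} [CommRing A] {n : ℕ} {I I' : Ideal (MvPolynomial (Fin n) A)} {F : MvPolynomial (Fin n) A} {e : ℕ}

private theorem NKer_zero (hF : F.IsHomogeneous e) (hs : IsSec I F I') {J : Finset (Fin n)} (hJ : J.Nonempty) :
    hx hs.le J (fC I F J) = 0 := by
  rw [fC_rsH, fC_of hJ]
  apply Subtype.ext
  apply ((lx_isUnit I' J (J.min'_mem hJ)).pow e).mul_right_cancel
  have h1 : mkL I' J F = 0 := by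
    unfold mkL
    rw [Ideal.Quotient.eq_zero_iff_mem.2 hs.mem, map_zero]
  rw [dh_mul I' J (J.min'_mem hJ) hF, h1]
  exact (zero_mul _).symm

/-- The restriction to the section as a homomorphism of algebras. -/
private noncomputable def NKer_alg (hle : I ≤ I') (J : Finset (Fin n)) : chart I J →ₐ[A] chart I' J :=
  { hx hle J with commutes' := fun a => hx_base J a }

private theorem NKer_alg_coe (hle : I ≤ I') (J : Finset (Fin n)) (x : chart I J) : NKer_alg hle J x = hx hle J x := rfl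

private theorem NKer_rsx (hle : I ≤ I') (J : Finset (Fin n)) (x : Fm A (chart I J)) :
    rsx hle J x = mp ((NKer_alg hle J : chart I J →ₐ[A] chart I' J) : chart I J →+* chart I' J)
      (CC.of_algHom (NKer_alg hle J)) x := 
  mp_congr ((rsH hle).cc J) (CC.of_algHom (NKer_alg hle J)) (RingHom.ext fun _ => rfl) x

theorem hx_surj (hle : I ≤ I') (J : Finset (Fin n)) : Function.Surjective (hx hle J) := by
  intro y
  induction y using chart_ind with
  | h1 a => exact ⟨algebraMap A _ a, hx_base J a⟩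
  | h2 l m hm => exact ⟨cq I J l hm, hx_cq J l hm⟩
  | h3 x y hx' hy =>
    obtain ⟨x', rfl⟩ := hx'
    obtain ⟨y', rfl⟩ := hy
    exact ⟨x' + y', map_add _ _ _⟩
  | h4 x y hx' hy =>
    obtain ⟨x', rfl⟩ := hx'
    obtain ⟨y', rfl⟩ := hy
    exact ⟨x' * y', map_mul _ _ _⟩

theorem hx_ker (hI : IsHomog I) (hF : F.IsHomogeneous e) (hs : IsSec I F I') {J : Finset (Fin n)} (hJ : J.Nonempty)
    (x : chart I J) : hx hs.le J x = 0 ↔ ∃ y, x = fC I F J * y := by
  constructor
  · intro hx0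
    have hj : J.min' hJ ∈ J := J.min'_mem hJ
    obtain ⟨T, _, Q, hQ⟩ := NKer_quo (fC I F J)
    have hQF : Q (eval₂ (algebraMap A (chart I J)) (fun l => cq I J l hj) F) = 0 := by
      refine (hQ _).2 ⟨1, ?_⟩
      rw [fC_of hJ, mul_one]
      rfl
    have hz1 : Q (cq I J (J.min' hJ) hj) = 1 := (congrArg Q (cq_self I J hj)).trans Q.map_one
    have hzJ : ∀ j ∈ J, IsUnit (Q (cq I J j hj)) := fun j hj' => (cq_isUnit I J hj' hj).map Q
    have hzI : ∀ f ∈ I', eval₂ (Q.comp (algebraMap A (chart I J))) (fun l => Q (cq I J l hj)) f = 0 := by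
      intro f hf
      obtain ⟨N, hN⟩ := hs.sat f hf
      obtain ⟨a, ha, b, hb, hab⟩ := Submodule.mem_sup.1 (hN (J.min' hJ))
      obtain ⟨c, rfl⟩ := Ideal.mem_span_singleton'.1 hb
      exact NKer_sat Q (fun l => cq I J l hj) (J.min' hJ) (cq_self I J hj) hQF (eval₂_cq hI hj ha) hab
    obtain ⟨ρ, hρ1, hρ2⟩ := exists_chart_lift I' J (Q.comp (algebraMap A (chart I J))) hj
      (fun l => Q (cq I J l hj)) hz1 hzJ hzI
    have h3 : ρ.comp (hx hs.le J) = Q := by
      exact chart_hom_ext' I J hj (fun a => (congrArg ρ (hx_base J a)).trans (hρ1 a))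
        fun l => (congrArg ρ (hx_cq J l hj)).trans (hρ2 l)
    have h4 : Q x = 0 := (RingHom.congr_fun h3 x).symm.trans ((congrArg ρ hx0).trans (map_zero ρ))
    exact (hQ x).1 h4
  · rintro ⟨y, rfl⟩
    exact ((hx hs.le J).map_mul _ _).trans ((congrArg (fun z => z * hx hs.le J y) (NKer_zero hF hs hJ)).trans (zero_mul _))

theorem fsurj (hle : I ≤ I') {J : Finset (Fin n)} {q : ℕ} {y : Fm A (chart I' J)} (hy : y ∈ Fd A (chart I' J) q) :
    ∃ x ∈ Fd A (chart I J) q, rsx hle J x = y := 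
  (NKer_sj (NKer_alg hle J) (hx_surj hle J) hy).elim fun x hx' => ⟨x, hx'.1, (NKer_rsx hle J x).trans hx'.2⟩

theorem fker' (hI : IsHomog I) (hF : F.IsHomogeneous e) (hs : IsSec I F I') {J : Finset (Fin n)} (hJ : J.Nonempty)
    (ω ω' : Fm A (chart I J)) : rsx hs.le J (fz A (fC I F J) * ω + df A (fC I F J) * ω') = 0 :=
  NKer_k0 (rsx hs.le J)
    ((rsx_fz J _).trans ((congrArg (fz A) (NKer_zero hF hs hJ)).trans (map_zero (fz A))))
    ((rsx_df J _).trans ((congrArg (df A) (NKer_zero hF hs hJ)).trans df_zero)) ω ω'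

theorem fker (hI : IsHomog I) (hF : F.IsHomogeneous e) (hs : IsSec I F I') {J : Finset (Fin n)} (hJ : J.Nonempty)
    {q : ℕ} {x : Fm A (chart I J)} (hx' : x ∈ Fd A (chart I J) q) (h : rsx hs.le J x = 0) :
    ∃ ω ω' : Fm A (chart I J), ω ∈ Fd A (chart I J) q ∧ (∀ r, r + 1 = q → ω' ∈ Fd A (chart I J) r) ∧
      (q = 0 → ω' = 0) ∧ x = fz A (fC I F J) * ω + df A (fC I F J) * ω' := 
  NKer_kerd (NKer_alg hs.le J) (hx_surj hs.le J) (fC I F J) (fun y hy => (hx_ker hI hF hs hJ y).1 hy) hx'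
    ((NKer_rsx hs.le J x).symm.trans h)

theorem fdiv (hD : Dv I F) {J : Finset (Fin n)} (hJ : J.Nonempty) {q : ℕ} {η x : Fm A (chart I J)}
    (hη : η ∈ Fd A (chart I J) q) (hx' : x ∈ Fd A (chart I J) (q + 1))
    (h : df A (fC I F J) * η = fz A (fC I F J) * x) :
    ∃ b y : Fm A (chart I J), (∀ r, r + 1 = q → b ∈ Fd A (chart I J) r) ∧ (q = 0 → b = 0) ∧ y ∈ Fd A (chart I J) q ∧
      η = df A (fC I F J) * b + fz A (fC I F J) * y := by
  obtain ⟨v, g, hv⟩ := hD.der J hJ
  exact NKer_fdiv v _ g hv hη hx' h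

theorem fz_inj (hI : IsHomog I) (hs : IsSmoothProj I) {J : Finset (Fin n)} (hJ : J.Nonempty) {f : chart I J}
    (hf : f ∈ nonZeroDivisors (chart I J)) {x : Fm A (chart I J)} (h : fz A f * x = 0) : x = 0 := by
  have hsm : Algebra.Smooth A (chart I J) := hs.smooth hI hJ
  exact NKer_smul hf h

end

end MPadcHS
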