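import Pool.Agent.Lib.MP_adc574_ag_HS.NDiv
import Pool.Agent.Lib.MP_adc574_ag_DC.GSm
import Pool.Agent.Lib.MP_adc574_ag_DC.GNz

/-!
# JOB TDv (HS): the derivations for the generic sections

* `dv_gen`: `exists_v0` (DC/GV0), `f_nzd` (DC/GNz), `fC_of`.
* `fC_X`: `fC I (X l) C = cq I C l (min C)` for nonempty `C`: `fC_of`, the definition of `dh` (GV0): `dh I C hj f` is the value of `f` at `x_l / x_j` (`gV0_coe`, `aeval_X`, `Subtype.ext`).
* `dv_hyp`: `Q = cyc (bI ..) (frm a) 1` (even any `e ≥ 1`), `F = X (Fin.last n)`. `C` without `z = Fin.last n`: `exists_der_chart`, `zeta_nzd` with `j = min C`. `C ∋ z`: `fC Q (X z) C = cq Q C z _` is a unit (`cq_isUnit`): `v = 0`, `g` = its inverse; units are not zero divisors (`IsUnit.mem_nonZeroDivisors`).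
-/

set_option autoImplicit false
set_option linter.unusedSectionVars false

namespace MPadcHS

open MvPolynomial MPadcGP MPadcDC

universe u v w

section

theorem fC_X {A : Type u} [CommRing A] {n : ℕ} (I : Ideal (MvPolynomial (Fin n) A)) (l : Fin n) {C : Finset (Fin n)}
    (hC : C.Nonempty) : fC I (X l) C = cq I C l (C.min'_mem hC) := by
  rw [fC_of hC]
  unfold dh
  rw [aeval_X]

variable {κ : Type u} [Field κ] [CharZero κ] {n : ℕ} {J : Ideal (MvPolynomial (Fin n) κ)} {K : Type u} [Field K]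
  [Algebra κ K] {e m : ℕ} {a : Mon n e → K}

theorem dv_gen (hJ : Good J m) (he : 1 ≤ e) (ha : AlgebraicIndependent κ a) :
    Dv (bI (algebraMap κ K) J) (frm a) := by
  refine ⟨fun C hC => ?_, fun C hC => ?_⟩
  · rw [fC_of hC]
    exact exists_v0 hJ he ha C (C.min'_mem hC)
  · rw [fC_of hC]
    exact f_nzd hJ he ha (C.min'_mem hC)

theorem dv_hyp (hJ : Good J m) (he : 1 ≤ e) (ha : AlgebraicIndependent κ a) :
    Dv (cyc (bI (algebraMap κ K) J) (frm a) e) (X (Fin.last n)) := by
  refine ⟨fun C hC => ?_, fun C hC => ?_⟩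
  · rw [fC_X _ _ hC]
    by_cases hz : Fin.last n ∈ C
    · obtain ⟨g, hg⟩ := (cq_isUnit (cyc (bI (algebraMap κ K) J) (frm a) e) C hz (C.min'_mem hC)).exists_left_inv
      exact ⟨0, g, by rw [Derivation.zero_apply, zero_add, hg]⟩
    · exact exists_der_chart hJ he ha hz (C.min'_mem hC)
  · rw [fC_X _ _ hC]
    by_cases hz : Fin.last n ∈ C
    · exact (cq_isUnit (cyc (bI (algebraMap κ K) J) (frm a) e) C hz (C.min'_mem hC)).mem_nonZeroDivisors
    · exact zeta_nzd hJ he ha hz (C.min'_mem hC)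

end

end MPadcHS
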