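import Pool.Agent.Lib.MP_adc574_ag_GP.DatA
import Pool.Agent.Lib.MP_adc574_ag_HS.AkDefs
import Pool.Agent.Lib.MP_adc574_ag_HS.GyA
import Pool.Agent.Lib.MP_adc574_ag_HS.GyD
import Pool.Agent.Lib.MP_adc574_ag_HS.NKer
import Pool.Agent.Lib.MP_adc574_ag_HS.TDv

/-!
# JOB AkA (HS): the connecting map of the sequence (II) in coordinates

`Y = Proj Q`, `X = Proj P`, `P = hyp Q` (`h.gd.eq`), `z = Fin.last n`, `f_C := fC Q (X z) C = cq Q C z (min C)` (`fC_X`, TDv.lean) for nonempty `C`, `IsSec Q (X z) P` (`isSec_sup`; `hle` and `hs.le` are equal as proofs), `C⁺ = insert z C`.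
Let `g ∈ Gr (a + 1) (d + 2)`, `Dq g = 0`, `a + b = d`. `g` lives on the sets with `b + 2` elements; `ic` is `(-1)^(a+1)` on `Gr (a + 1)` (`inv_mem`), so `del g = 0`.
1. The cochain `C ↦ fz f_C * g C` of `kT hle 1 (a + 1)` on the sets with `b + 2` elements (`fker'`: it vanishes on `X`; for `C = ∅` put `0`) is a cocycle: on `K`: `∑_j sg j K • fz (tau 1) * rsc (fz f_{K-j} * g (K-j)) = fz f_K * (del g) K = 0` (`tau_fC` with `e = 1`: `tau 1 h * tr h (f_(K-j)) = f_K`, `K - j` nonempty).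
   `h.ker1 a b`: it is `del k`, `k` on the sets with `b + 1` elements, `k C ∈ kF hle (a + 1) C`.
2. `fker` (NKer.lean): for nonempty `C` with `b + 1` elements: `k C = fz f_C * s C + df f_C * c C`, `s C ∈ Fd (a + 1)`, `c C ∈ Fd a`; `s C := 0`, `c C := 0` for the other `C` AND for `C ∋ z`. So `c ∈ Gr a d`, `s ∈ Gr (a + 1) (d + 1)`.
3. The equation in `K⁺` for `K ∌ z` with `b + 2` elements: `fz f_K * g K = ∑_{j ∈ K} sg j K • fz (tau 1) * rsc (fz f_(K-j) * s (K-j) + df f_(K-j) * c (K-j))`. Restrict to `K⁺` and multiply with `fz` of the inverse of `f_K` there (`f_K` becomes `cq Q K⁺ z (min K)`, the inverse is `cq Q K⁺ (min K) z`); `tau 1 = x_(min (K-j)) / x_(min K)` (`tau_one`), so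
   `cq K⁺ (min K) z * cq K⁺ (min (K-j)) (min K) = cq K⁺ (min (K-j)) z` (`cq_mul`), the inverse of `f_(K-j)` on `K⁺`: the term is `rs (s (K-j)) + dlg K⁺ z (min (K-j)) * rs (c (K-j))`, that is `dl Q K⁺ z (mn (K.erase j)) * ev c (K.erase j) K⁺` (`dl_eq`, `mn_eq`, `ev_of`). This is the last statement.
4. `Dq (push c) = 0` on `X`: for `K ∋ z` the ring of `X` is zero (`subs_E`, GyA; or `chart` of `P`: `z` is invertible and `0`). For `K ∌ z` with `b + 2` elements: `fz (tau 1) * df (tr f_(K-j)) = df f_K - fz (tr f_(K-j)) * df (tau 1)` (`tau_fC`), so the equation of 3. on `U_K` gives `df f_K * (del c) K = fz f_K * (..)`, with `(..) ∈ Fd (a + 1)`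
   (`fz (tr f_(K-j)) * df (tau 1) = fz (f_K * tau (-1)) * df (tau 1)`), `fdiv` (NKer.lean) gives `(del c) K = df f_K * b' + fz f_K * y`, and `fker'`: `rsx ((del c) K) = 0`. `push c K = rsx (c K)`, the push commutes with `Dq` (`CovD.Hm.e_rs`, `e_inv`). For other `K` both sides are `0`.
-/

set_option autoImplicit false
set_option linter.unusedSectionVars false

namespace MPadcHS

open MvPolynomial MPadcGP MPadcDC

universe u

variable {K : Type u} [Field K] {n : ℕ} {Q P : Ideal (MvPolynomial (Fin (n + 1)) K)} {hle : Q ≤ P} {d : ℕ}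

section

variable {A : Type u} {R : Type u} [CommRing A] [CommRing R] [Algebra A R]

private theorem AkA_sum {M N ι : Type*} [AddCommGroup M] [AddCommGroup N] (ψ : M →+ N) (s : Finset ι) (ε : ι → ℤ)
    (x : ι → M) : ψ (∑ j ∈ s, ε j • x j) = ∑ j ∈ s, ε j • ψ (x j) := by
  rw [map_sum]
  exact Finset.sum_congr rfl fun j _ => map_zsmul ψ _ _

private theorem AkA_t1 {u t f w : R} (h1 : u * t = w) (h2 : w * f = 1) (S C : Fm A R) :
    fz A u * (fz A t * (fz A f * S + df A f * C)) = S + fz A w * df A f * C := by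
  rw [← mul_assoc, ← map_mul, h1, mul_add, ← mul_assoc, ← map_mul, h2, map_one, one_mul, mul_assoc]

private theorem AkA_t2 {t f F t' : R} (h1 : t * f = F) (h2 : t' * t = 1) (S C : Fm A R) :
    fz A t * (fz A f * S + df A f * C) = fz A F * (S - fz A t' * df A t * C) + df A F * C := by
  have h3 : F * t' = f := by rw [← h1, mul_right_comm, mul_comm t t', h2, one_mul]
  have h4 : df A F = fz A t * df A f + fz A f * df A t := by rw [← h1, df_mul]
  rw [h4, mul_add, mul_sub, ← mul_assoc (fz A t) (fz A f) S, ← map_mul, h1, mul_assoc (fz A t') (df A t) C,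
    ← mul_assoc (fz A F) (fz A t'), ← map_mul, h3, add_mul, mul_assoc, mul_assoc]
  abel

private theorem AkA_mem0 {q : ℕ} {x : Fm A R} (h : x = 0) : x ∈ Fd A R q := by
  rw [h]
  exact Submodule.zero_mem _

private theorem AkA_z (f : R) (x : Fm A R) : fz A f * x + df A f * 0 = fz A f * x := by
  rw [mul_zero, add_zero]

private theorem AkA_z0 (f : R) {x : Fm A R} (h : x = 0) : fz A f * x = 0 := by rw [h, mul_zero]

private theorem AkA_j {t f F : R} (ε : ℤ) (y : Fm A R) (h : t * f = F ∨ y = 0) :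
    ε • (fz A t * (fz A f * y)) = fz A F * (ε • y) := by
  rcases h with h | h
  · rw [← mul_assoc, ← map_mul, h, mul_smul_comm]
  · rw [h, mul_zero, mul_zero, smul_zero, mul_zero]

private theorem AkA_s0 {ι : Type*} (s : Finset ι) (F : R) (x y : ι → Fm A R) (h : ∀ j ∈ s, y j = fz A F * x j)
    (h0 : ∑ j ∈ s, x j = 0) : ∑ j ∈ s, y j = 0 := by
  rw [Finset.sum_congr rfl h, ← Finset.mul_sum, h0, mul_zero]

private theorem AkA_s1 {ι : Type*} (s : Finset ι) (ε : ι → ℤ) (F : R) (S D : ι → Fm A R) :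
    ∑ j ∈ s, ε j • (fz A F * S j + df A F * D j) = fz A F * ∑ j ∈ s, ε j • S j + df A F * ∑ j ∈ s, ε j • D j := by
  rw [Finset.mul_sum, Finset.mul_sum, ← Finset.sum_add_distrib]
  refine Finset.sum_congr rfl fun j _ => ?_
  rw [smul_add, mul_smul_comm, mul_smul_comm]

variable {S : Type u} [CommRing S] [Algebra A S]

private theorem AkA_gr (φ : Fm A R →+* Fm A S) {f : R} {f' : S} (h1 : φ (fz A f) = fz A f') (h2 : φ (df A f) = df A f')
    (x y : Fm A R) : φ (fz A f * x + df A f * y) = fz A f' * φ x + df A f' * φ y := by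
  rw [map_add, map_mul, map_mul, h1, h2]

private theorem AkA_gr1 (φ : Fm A R →+* Fm A S) {f : R} {f' : S} (h1 : φ (fz A f) = fz A f')
    (x : Fm A R) : φ (fz A f * x) = fz A f' * φ x := by
  rw [map_mul, h1]

private theorem AkA_gu (φ : Fm A R →+* Fm A S) {f : R} {f' u : S} (h1 : φ (fz A f) = fz A f') (h2 : u * f' = 1)
    (x : Fm A R) : fz A u * φ (fz A f * x) = φ x := by
  rw [map_mul, h1, ← mul_assoc, ← map_mul, h2, map_one, one_mul]

private theorem AkA_s3 {ι : Type*} (φ : Fm A R →+* Fm A S) (u : S) (s : Finset ι) (ε : ι → ℤ) (y : ι → Fm A R)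
    (S' D' : ι → Fm A S) (h : ∀ j ∈ s, fz A u * φ (y j) = S' j + D' j) :
    fz A u * φ (∑ j ∈ s, ε j • y j) = ∑ j ∈ s, ε j • D' j + ∑ j ∈ s, ε j • S' j := by
  rw [map_sum, Finset.mul_sum, ← Finset.sum_add_distrib]
  refine Finset.sum_congr rfl fun j hj => ?_
  rw [map_zsmul, mul_smul_comm, h j hj, smul_add, add_comm]

private theorem AkA_s4 {ι : Type*} (s : Finset ι) (ε : ι → ℤ) (F : R) (G : Fm A R) (V D y : ι → Fm A R)
    (h : fz A F * G = ∑ j ∈ s, ε j • y j) (hy : ∀ j ∈ s, y j = fz A F * V j + df A F * D j) :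
    df A F * ∑ j ∈ s, ε j • D j = fz A F * (G - ∑ j ∈ s, ε j • V j) := by
  have h1 : ∑ j ∈ s, ε j • y j = fz A F * ∑ j ∈ s, ε j • V j + df A F * ∑ j ∈ s, ε j • D j := by
    rw [← AkA_s1]
    exact Finset.sum_congr rfl fun j hj => by rw [hy j hj]
  rw [mul_sub, h, h1, add_sub_cancel_left]

private theorem AkA_m4 {q : ℕ} {t t' : R} {S D : Fm A R} (hS : S ∈ Fd A R (q + 1)) (hD : D ∈ Fd A R q) :
    S - fz A t' * df A t * D ∈ Fd A R (q + 1) := by
  have h1 := fd_mul (fz_mul_mem t' (df_mem (A := A) t)) hD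
  rw [add_comm 1 q] at h1
  exact Submodule.sub_mem _ hS h1

private theorem AkA_m6 {ι : Type*} (s : Finset ι) (ε : ι → ℤ) {q : ℕ} {D : ι → Fm A R} (h : ∀ j, D j ∈ Fd A R q) :
    ∑ j ∈ s, ε j • D j ∈ Fd A R q := Submodule.sum_mem _ fun j _ => zsmul_mem (h j) _

private theorem AkA_m5 {ι : Type*} (s : Finset ι) (ε : ι → ℤ) {q : ℕ} {G : Fm A R} {V : ι → Fm A R}
    (hG : G ∈ Fd A R q) (h : ∀ j, V j ∈ Fd A R q) : G - ∑ j ∈ s, ε j • V j ∈ Fd A R q :=
  Submodule.sub_mem _ hG (AkA_m6 s ε h)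

end

private theorem AkA_isSec (h : AkH hle d) : IsSec Q (X (Fin.last n)) P := by
  refine ⟨hle, ?_, fun g hg => ⟨0, fun l => ?_⟩⟩
  · rw [h.gd.eq]
    exact (le_sup_right : Ideal.span {X (Fin.last n)} ≤ hyp Q) (Ideal.subset_span rfl)
  · rw [pow_zero, one_mul]
    rw [h.gd.eq] at hg
    exact hg

/-- the form of an element of the system `kT` -/
private noncomputable def AkA_v {t : ℤ} {q : ℕ} {C : Finset (Fin (n + 1))} (x : (kT hle t q).E C) : Fm K (chart Q C) :=
  Subtype.val (p := fun y => y ∈ kF hle q C) x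

private theorem AkA_v_mem {t : ℤ} {q : ℕ} {C : Finset (Fin (n + 1))} (x : (kT hle t q).E C) :
    AkA_v x ∈ kF hle q C := Subtype.property (p := fun y => y ∈ kF hle q C) x

private theorem AkA_v_inj {t : ℤ} {q : ℕ} {C : Finset (Fin (n + 1))} {x y : (kT hle t q).E C} (h : AkA_v x = AkA_v y) :
    x = y := Subtype.ext (p := fun y => y ∈ kF hle q C) h

private noncomputable def AkA_m (t : ℤ) {q : ℕ} {C : Finset (Fin (n + 1))} (x : Fm K (chart Q C)) (hx : x ∈ kF hle q C) :
    (kT hle t q).E C := (⟨x, hx⟩ : ↥(kF hle q C))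

private theorem AkA_v_m {t : ℤ} {q : ℕ} {C : Finset (Fin (n + 1))} (x : Fm K (chart Q C)) (hx : x ∈ kF hle q C) :
    AkA_v (AkA_m t x hx) = x := rfl

private theorem AkA_v_zero {t : ℤ} {q : ℕ} {C : Finset (Fin (n + 1))} :
    AkA_v (0 : (kT hle t q).E C) = 0 := rfl

private noncomputable def AkA_ψ (t : ℤ) (q : ℕ) (C : Finset (Fin (n + 1))) : (kT hle t q).E C →+ Fm K (chart Q C) :=
  (kF hle q C).subtype

/-- the equation of the system `kT` in coordinates -/
private theorem AkA_del (t : ℤ) (q : ℕ) (k : ∀ J, (kT hle t q).E J) (C : Finset (Fin (n + 1))) :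
    AkA_v ((kT hle t q).del k C) = ∑ j ∈ C, sg j C •
      (fz K (tau Q t (Finset.erase_subset j C)) * rsc Q (Finset.erase_subset j C) (AkA_v (k (C.erase j)))) := by
  exact @AkA_sum ((kT hle t q).E C) (Fm K (chart Q C)) (Fin (n + 1)) _ _ (AkA_ψ t q C) C (fun j => sg j C)
    (fun j => (kT hle t q).r (Finset.erase_subset j C) (k (C.erase j)))

private theorem AkA_ev (c : (prC Q).Ch) {J C : Finset (Fin (n + 1))} (h : J ⊆ C) :
    (prC Q).ev c J C = rsc Q h (c J) := CovD.ev_of h

private theorem AkA_delC (c : (prC Q).Ch) (C : Finset (Fin (n + 1))) :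
    (prC Q).del c C = ∑ j ∈ C, sg j C • rsc Q (Finset.erase_subset j C) (c (C.erase j)) :=
  Finset.sum_congr rfl fun j _ => congrArg (fun y => sg j C • y) (AkA_ev c (Finset.erase_subset j C))

private theorem AkA_delR (s : (prC Q).Ch) {C D : Finset (Fin (n + 1))} (h : C ⊆ D) :
    (prC Q).rs h ((prC Q).del s C) = ∑ j ∈ C, sg j C • rsc Q ((Finset.erase_subset j C).trans h) (s (C.erase j)) :=
  ((CovD.ev_of h).symm.trans (CovD.ev_del h s)).trans
    (Finset.sum_congr rfl fun j _ => congrArg (fun y => sg j C • y) (AkA_ev s ((Finset.erase_subset j C).trans h)))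

private theorem AkA_hF : (X (Fin.last n) : MvPolynomial (Fin (n + 1)) K).IsHomogeneous 1 := isHomogeneous_X K _

private theorem AkA_tau {J C : Finset (Fin (n + 1))} (h : J ⊆ C) (hJ : J.Nonempty) :
    tau Q 1 h * tr Q h (fC Q (X (Fin.last n)) J) = fC Q (X (Fin.last n)) C := by
  have h1 := tau_fC (I := Q) (AkA_hF (K := K) (n := n)) h hJ
  rwa [Nat.cast_one] at h1

private theorem AkA_taum {J C : Finset (Fin (n + 1))} (h : J ⊆ C) : tau Q (-1) h * tau Q 1 h = 1 := by
  rw [← tau_add, neg_add_cancel, tau_zero]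

/-- decomposition of a form which vanishes on `X` -/
private theorem AkA_dec (h : AkH hle d) {C : Finset (Fin (n + 1))} (hC : C.Nonempty) {q : ℕ} {x : Fm K (chart Q C)}
    (hx : x ∈ kF hle (q + 1) C) : ∃ p : Fm K (chart Q C) × Fm K (chart Q C), p.1 ∈ Fd K (chart Q C) q ∧
      p.2 ∈ Fd K (chart Q C) (q + 1) ∧ x = fz K (fC Q (X (Fin.last n)) C) * p.2 + df K (fC Q (X (Fin.last n)) C) * p.1 := by
  have hh := fker h.gd.hom AkA_hF (AkA_isSec h) hC hx.1 hx.2
  obtain ⟨ω, ω', h1, h2, _, h4⟩ := hh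
  exact ⟨(ω', ω), h2 q rfl, h1, h4⟩

private theorem AkA_c₀ (t : ℤ) {q : ℕ} (x : ∀ C, Fm K (chart Q C)) (hx : ∀ C : Finset (Fin (n + 1)), C.Nonempty → x C ∈ kF hle q C)
    (h0 : x ∅ = 0) : ∃ c : ∀ C, (kT hle t q).E C, ∀ C, AkA_v (c C) = x C := by
  have h1 : ∀ C, ∃ c : (kT hle t q).E C, AkA_v c = x C := by
    intro C
    rcases C.eq_empty_or_nonempty with he | he
    · refine ⟨0, ?_⟩
      rw [he, h0]
      rfl
    · exact ⟨AkA_m t _ (hx C he), rfl⟩
  choose c hc using h1
  exact ⟨c, hc⟩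

private theorem AkA_r {J C : Finset (Fin (n + 1))} (h : J ⊆ C) (f : chart Q J) (S D : Fm K (chart Q J)) :
    rsc Q h (fz K f * S + df K f * D) = fz K (tr Q h f) * rsc Q h S + df K (tr Q h f) * rsc Q h D :=
  AkA_gr (rsc Q (J := J) (K := C) h) (rsc_fz h f) (rsc_df h f) S D

private theorem AkA_r1 {J C : Finset (Fin (n + 1))} (h : J ⊆ C) (f : chart Q J) (S : Fm K (chart Q J)) :
    rsc Q h (fz K f * S) = fz K (tr Q h f) * rsc Q h S := AkA_gr1 (rsc Q (J := J) (K := C) h) (rsc_fz h f) S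

/-- the cocycle `f g` of `K(a + 1)(1)` is a coboundary -/
private theorem AkA_cob (h : AkH hle d) {a b : ℕ} (hab : a + b = d) (g : ∀ C, Fm K (chart Q C))
    (hgm : ∀ C, g C ∈ Fd K (chart Q C) (a + 1)) (hgz : ∀ C : Finset (Fin (n + 1)), C.card ≠ b + 2 → g C = 0)
    (hdel : ∀ C : Finset (Fin (n + 1)), ∑ j ∈ C, sg j C • rsc Q (Finset.erase_subset j C) (g (C.erase j)) = 0) :
    ∃ k : ∀ C, (kT hle 1 (a + 1)).E C, ∀ C : Finset (Fin (n + 1)),
      fz K (fC Q (X (Fin.last n)) C) * g C = ∑ j ∈ C, sg j C • (fz K (tau Q 1 (Finset.erase_subset j C)) *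
        rsc Q (Finset.erase_subset j C) (AkA_v (k (C.erase j)))) := by
  have hfg : ∀ C : Finset (Fin (n + 1)), C.Nonempty → fz K (fC Q (X (Fin.last n)) C) * g C ∈ kF hle (a + 1) C :=
    fun C hC => ⟨fz_mul_mem _ (hgm C), (congrArg (rsx hle C) (AkA_z _ _)).symm.trans
      (fker' h.gd.hom AkA_hF (AkA_isSec h) hC (g C) 0)⟩
  have hh0 := AkA_c₀ (hle := hle) 1 (fun C => fz K (fC Q (X (Fin.last n)) C) * g C) hfg
    (AkA_z0 _ (hgz ∅ (by rw [Finset.card_empty]; omega)))
  obtain ⟨c₀, hc₀⟩ := hh0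
  have hcd : (kT hle 1 (a + 1)).Cd (b + 1 + 1) c₀ :=
    ⟨AkA_v_inj ((hc₀ ∅).trans (AkA_z0 _ (hgz ∅ (by rw [Finset.card_empty]; omega)))), fun C hC =>
      AkA_v_inj ((hc₀ C).trans (AkA_z0 _ (hgz C hC)))⟩
  have hd0 : (kT hle 1 (a + 1)).del c₀ = 0 := by
    funext C
    refine AkA_v_inj ((AkA_del 1 (a + 1) c₀ C).trans ?_)
    refine AkA_s0 (A := K) (R := chart Q C) C (fC Q (X (Fin.last n)) C)
      (fun j => sg j C • rsc Q (Finset.erase_subset j C) (g (C.erase j))) _ (fun j hj => ?_) (hdel C)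
    refine (congrArg (fun y => sg j C • (fz K (tau Q 1 (Finset.erase_subset j C)) * y))
      ((congrArg (rsc Q (Finset.erase_subset j C)) (hc₀ (C.erase j))).trans (AkA_r1 _ _ _))).trans ?_
    refine AkA_j (A := K) (R := chart Q C) (sg j C) _ ?_
    have hh1 := (C.erase j).eq_empty_or_nonempty
    rcases hh1 with he | he
    · right
      exact (congrArg (rsc Q (Finset.erase_subset j C)) (hgz (C.erase j) (by rw [he, Finset.card_empty]; omega))).trans
        (map_zero _)
    · left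
      exact AkA_tau (Finset.erase_subset j C) he
  have h5 : (kT hle 1 (a + 1)).Acy (b + 1) := h.ker1 a b hab
  have h6 := h5 c₀ hcd hd0
  obtain ⟨k, hk⟩ := h6
  have hk2 := hk.2
  refine ⟨k, fun C => ?_⟩
  exact (hc₀ C).symm.trans ((congrArg AkA_v (congrFun hk2 C).symm).trans (AkA_del 1 (a + 1) k C))

private theorem AkA_term4 {J C : Finset (Fin (n + 1))} (h : J ⊆ C) (hJ : J.Nonempty) (S D : Fm K (chart Q J)) :
    fz K (tau Q 1 h) * rsc Q h (fz K (fC Q (X (Fin.last n)) J) * S + df K (fC Q (X (Fin.last n)) J) * D) =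
      fz K (fC Q (X (Fin.last n)) C) * (rsc Q h S - fz K (tau Q (-1) h) * df K (tau Q 1 h) * rsc Q h D) +
        df K (fC Q (X (Fin.last n)) C) * rsc Q h D :=
  (congrArg (fun y => fz K (tau Q 1 h) * y) (AkA_r h _ S D)).trans
    (AkA_t2 (A := K) (R := chart Q C) (AkA_tau h hJ) (AkA_taum h) _ _)

/-- `dlog` as a form on the chart -/
private noncomputable def AkA_dl (C : Finset (Fin (n + 1))) (l j : Fin (n + 1)) : Fm K (chart Q C) := dl Q C l j

private theorem AkA_term3 {J C : Finset (Fin (n + 1))} (h : J ⊆ C) (hJ : J.Nonempty) (hC : C.Nonempty)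
    (S D : Fm K (chart Q J)) :
    fz K (cq Q (insert (Fin.last n) C) (C.min' hC) (Finset.mem_insert_self (Fin.last n) C)) *
      rsc Q (Finset.subset_insert (Fin.last n) C) (fz K (tau Q 1 h) *
        rsc Q h (fz K (fC Q (X (Fin.last n)) J) * S + df K (fC Q (X (Fin.last n)) J) * D)) =
      rsc Q (h.trans (Finset.subset_insert (Fin.last n) C)) S +
        AkA_dl (insert (Fin.last n) C) (Fin.last n) (mn J) *
          rsc Q (h.trans (Finset.subset_insert (Fin.last n) C)) D := by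
  have h0 : J.min' hJ ∈ insert (Fin.last n) C := Finset.mem_insert_of_mem (h (J.min'_mem hJ))
  have h1 : rsc Q (Finset.subset_insert (Fin.last n) C) (fz K (tau Q 1 h) *
      rsc Q h (fz K (fC Q (X (Fin.last n)) J) * S + df K (fC Q (X (Fin.last n)) J) * D)) =
      fz K (tr Q (Finset.subset_insert (Fin.last n) C) (tau Q 1 h)) *
        (fz K (cq Q (insert (Fin.last n) C) (Fin.last n) h0) * rsc Q (h.trans (Finset.subset_insert (Fin.last n) C)) S +
          df K (cq Q (insert (Fin.last n) C) (Fin.last n) h0) *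
            rsc Q (h.trans (Finset.subset_insert (Fin.last n) C)) D) := by
    have h5 : rsc Q (h.trans (Finset.subset_insert (Fin.last n) C)) (fz K (fC Q (X (Fin.last n)) J) * S +
        df K (fC Q (X (Fin.last n)) J) * D) =
        fz K (cq Q (insert (Fin.last n) C) (Fin.last n) h0) * rsc Q (h.trans (Finset.subset_insert (Fin.last n) C)) S +
          df K (cq Q (insert (Fin.last n) C) (Fin.last n) h0) *
            rsc Q (h.trans (Finset.subset_insert (Fin.last n) C)) D := by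
      have h6 : tr Q (h.trans (Finset.subset_insert (Fin.last n) C)) (fC Q (X (Fin.last n)) J) =
          cq Q (insert (Fin.last n) C) (Fin.last n) h0 := by
        rw [fC_X Q (Fin.last n) hJ, tr_cq]
      exact (AkA_r _ _ S D).trans (congrArg (fun y => fz K y * rsc Q (h.trans (Finset.subset_insert (Fin.last n) C)) S +
        df K y * rsc Q (h.trans (Finset.subset_insert (Fin.last n) C)) D) h6)
    exact (AkA_r1 _ _ _).trans (congrArg (fun y => fz K (tr Q (Finset.subset_insert (Fin.last n) C) (tau Q 1 h)) * y)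
      ((rsc_rsc h (Finset.subset_insert (Fin.last n) C) _).trans h5))
  have h2 : cq Q (insert (Fin.last n) C) (C.min' hC) (Finset.mem_insert_self (Fin.last n) C) *
      tr Q (Finset.subset_insert (Fin.last n) C) (tau Q 1 h) =
      cq Q (insert (Fin.last n) C) (J.min' hJ) (Finset.mem_insert_self (Fin.last n) C) := by
    rw [tau_one h hJ, tr_cq, mul_comm, cq_mul]
  have h3 : cq Q (insert (Fin.last n) C) (J.min' hJ) (Finset.mem_insert_self (Fin.last n) C) *
      cq Q (insert (Fin.last n) C) (Fin.last n) h0 = 1 := by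
    rw [cq_mul, cq_self]
  have h4 : AkA_dl (Q := Q) (insert (Fin.last n) C) (Fin.last n) (mn J) =
      fz K (cq Q (insert (Fin.last n) C) (J.min' hJ) (Finset.mem_insert_self (Fin.last n) C)) *
        df K (cq Q (insert (Fin.last n) C) (Fin.last n) h0) := by
    rw [mn_eq hJ]
    exact dl_eq Q (Finset.mem_insert_self (Fin.last n) C) h0
  exact ((congrArg (fun y => fz K (cq Q (insert (Fin.last n) C) (C.min' hC) (Finset.mem_insert_self (Fin.last n) C)) * y)
    h1).trans (AkA_t1 (A := K) (R := chart Q (insert (Fin.last n) C)) h2 h3 _ _)).trans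
    (congrArg (fun y => rsc Q (h.trans (Finset.subset_insert (Fin.last n) C)) S +
      y * rsc Q (h.trans (Finset.subset_insert (Fin.last n) C)) D) h4.symm)

private theorem AkA_unit {C : Finset (Fin (n + 1))} (hC : C.Nonempty) (x : Fm K (chart Q C)) :
    fz K (cq Q (insert (Fin.last n) C) (C.min' hC) (Finset.mem_insert_self (Fin.last n) C)) *
      rsc Q (Finset.subset_insert (Fin.last n) C) (fz K (fC Q (X (Fin.last n)) C) * x) =
      rsc Q (Finset.subset_insert (Fin.last n) C) x := by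
  refine AkA_gu (rsc Q (J := C) (K := insert (Fin.last n) C) (Finset.subset_insert (Fin.last n) C))
    (rsc_fz (Finset.subset_insert (Fin.last n) C) (fC Q (X (Fin.last n)) C)) ?_ x
  rw [fC_X Q (Fin.last n) hC, tr_cq, cq_mul, cq_self]

private theorem AkA_vanish (h : AkH hle d) {C : Finset (Fin (n + 1))} (hC : C.Nonempty) {a : ℕ} {δ x : Fm K (chart Q C)}
    (hδ : δ ∈ Fd K (chart Q C) a) (hx : x ∈ Fd K (chart Q C) (a + 1))
    (he : df K (fC Q (X (Fin.last n)) C) * δ = fz K (fC Q (X (Fin.last n)) C) * x) : rsx hle C δ = 0 := by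
  have hh := fdiv h.dv hC hδ hx he
  obtain ⟨b', y, -, -, -, h5⟩ := hh
  exact (congrArg (rsx hle C) (h5.trans (add_comm _ _))).trans (fker' h.gd.hom AkA_hF (AkA_isSec h) hC y b')

theorem ak_conn (h : AkH hle d) {a b : ℕ} (hab : a + b = d) {g : (prC Q).Ch} (hg : g ∈ (prC Q).Gr (a + 1) (d + 2))
    (hd : (prC Q).Dq g = 0) : ∃ c s : (prC Q).Ch, c ∈ (prC Q).Gr a d ∧ s ∈ (prC Q).Gr (a + 1) (d + 1) ∧
      (∀ C, Fin.last n ∈ C → c C = 0) ∧ (prC P).Dq ((rsH hle).push c) = 0 ∧
      ∀ C : Finset (Fin (n + 1)), C.card = b + 2 → Fin.last n ∉ C →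
        (prC Q).rs (Finset.subset_insert (Fin.last n) C) (g C) =
          ∑ j ∈ C, sg j C • (dl Q (insert (Fin.last n) C) (Fin.last n) (mn (C.erase j)) *
            (prC Q).ev c (C.erase j) (insert (Fin.last n) C)) +
          (prC Q).rs (Finset.subset_insert (Fin.last n) C) ((prC Q).del s C) := by
  obtain ⟨hg0, hg'⟩ := CovD.mem_Gr'.1 hg
  obtain ⟨gg, hgg⟩ : ∃ gg : ∀ C, Fm K (chart Q C), gg = g := ⟨g, rfl⟩
  have hgm : ∀ C, gg C ∈ Fd K (chart Q C) (a + 1) := fun C => by
    rw [hgg]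
    by_cases hC : a + 1 + C.card = d + 2 + 1
    · exact (hg' C).1 hC
    · exact AkA_mem0 (A := K) (R := chart Q C) ((hg' C).2 hC)
  have hgz : ∀ C : Finset (Fin (n + 1)), C.card ≠ b + 2 → gg C = 0 := fun C hC => by
    rw [hgg]
    exact (hg' C).2 (by omega)
  have hdel : (prC Q).del g = 0 := by
    have h1 : (prC Q).ic ((prC Q).del g) = 0 := by
      rw [← CovD.del_ic]
      exact hd
    rw [← CovD.ic_ic ((prC Q).del g), h1, map_zero]
  have hdelC : ∀ C : Finset (Fin (n + 1)), ∑ j ∈ C, sg j C • rsc Q (Finset.erase_subset j C) (gg (C.erase j)) = 0 := by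
    intro C
    subst hgg
    exact (AkA_delC gg C).symm.trans (congrFun hdel C)
  obtain ⟨k, hk⟩ := AkA_cob h hab gg hgm hgz hdelC
  have key : ∀ C : Finset (Fin (n + 1)), ∃ p : Fm K (chart Q C) × Fm K (chart Q C), p.1 ∈ Fd K (chart Q C) a ∧
      p.2 ∈ Fd K (chart Q C) (a + 1) ∧ (¬(C.card = b + 1 ∧ Fin.last n ∉ C) → p.1 = 0 ∧ p.2 = 0) ∧
      (C.card = b + 1 → Fin.last n ∉ C → AkA_v (k C) =
        fz K (fC Q (X (Fin.last n)) C) * p.2 + df K (fC Q (X (Fin.last n)) C) * p.1) := by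
    intro C
    by_cases hC : C.card = b + 1 ∧ Fin.last n ∉ C
    · have hne : C.Nonempty := Finset.card_pos.1 (by omega)
      have hh := AkA_dec h hne (AkA_v_mem (k C))
      obtain ⟨p, h1, h2, h3⟩ := hh
      exact ⟨p, h1, h2, fun h => absurd hC h, fun _ _ => h3⟩
    · exact ⟨(0, 0), Submodule.zero_mem _, Submodule.zero_mem _, fun _ => ⟨rfl, rfl⟩, fun h1 h2 => absurd ⟨h1, h2⟩ hC⟩
  choose p hp1 hp2 hp3 hp4 using key
  have hcG : (fun C => (p C).1 : (prC Q).Ch) ∈ (prC Q).Gr a d := by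
    refine CovD.mem_Gr'.2 ⟨?_, fun C => ⟨fun _ => hp1 C, fun hC => (hp3 C (fun h => hC (by omega))).1⟩⟩
    exact (hp3 ∅ (fun h => by rw [Finset.card_empty] at h; omega)).1
  have hsG : (fun C => (p C).2 : (prC Q).Ch) ∈ (prC Q).Gr (a + 1) (d + 1) := by
    refine CovD.mem_Gr'.2 ⟨?_, fun C => ⟨fun _ => hp2 C, fun hC => (hp3 C (fun h => hC (by omega))).2⟩⟩
    exact (hp3 ∅ (fun h => by rw [Finset.card_empty] at h; omega)).2
  refine ⟨fun C => (p C).1, fun C => (p C).2, hcG, hsG, fun C hC => (hp3 C (fun h => h.2 hC)).1, ?_, fun C hC hz => ?_⟩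
  · have h1 : (prC P).Dq ((rsH hle).push (fun C => (p C).1)) = (rsH hle).push ((prC Q).Dq (fun C => (p C).1)) := by
      rw [CovD.Dq_apply, CovD.Dq_apply, CovD.Hm.push_del, CovD.Hm.push_ic]
    rw [h1]
    funext C
    by_cases hz : Fin.last n ∈ C
    · have := subs_E h.gd.eq hz
      exact Subsingleton.elim _ _
    by_cases hC : C.card = b + 2
    · have hne : C.Nonempty := Finset.card_pos.1 (by omega)
      have h2 : (prC Q).Dq (fun C => (p C).1) C = MPadcGP.inv K ((prC Q).del (fun C => (p C).1) C) := by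
        rw [CovD.Dq_apply, CovD.del_ic]
        rfl
      rw [CovD.Hm.push_apply, h2, CovD.Hm.e_inv]
      have h3 : (prC Q).del (fun C => (p C).1) C =
          ∑ j ∈ C, sg j C • rsc Q (Finset.erase_subset j C) (p (C.erase j)).1 := AkA_delC (fun C => (p C).1) C
      have h4 : df K (fC Q (X (Fin.last n)) C) * ∑ j ∈ C, sg j C • rsc Q (Finset.erase_subset j C) (p (C.erase j)).1 =
          fz K (fC Q (X (Fin.last n)) C) * (gg C - ∑ j ∈ C, sg j C • (rsc Q (Finset.erase_subset j C) (p (C.erase j)).2 -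
            fz K (tau Q (-1) (Finset.erase_subset j C)) * df K (tau Q 1 (Finset.erase_subset j C)) *
              rsc Q (Finset.erase_subset j C) (p (C.erase j)).1)) := by
        refine AkA_s4 (A := K) (R := chart Q C) C (fun j => sg j C) (fC Q (X (Fin.last n)) C) (gg C)
          _ (fun j => rsc Q (Finset.erase_subset j C) (p (C.erase j)).1) _ (hk C) fun j hj => ?_
        have h5 := Finset.card_erase_add_one hj
        exact (congrArg (fun y => fz K (tau Q 1 (Finset.erase_subset j C)) * rsc Q (Finset.erase_subset j C) y)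
          (hp4 (C.erase j) (by omega) (fun h => hz (Finset.mem_of_mem_erase h)))).trans
          (AkA_term4 (Finset.erase_subset j C) (Finset.card_pos.1 (by omega)) _ _)
      have h5 : rsx hle C (∑ j ∈ C, sg j C • rsc Q (Finset.erase_subset j C) (p (C.erase j)).1) = 0 :=
        AkA_vanish h hne (a := a) (AkA_m6 C (fun j => sg j C) fun j => rsc_mem _ (hp1 _))
          (AkA_m5 C (fun j => sg j C) (hgm C) fun j => AkA_m4 (rsc_mem _ (hp2 _)) (rsc_mem _ (hp1 _))) h4
      rw [h3]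
      exact (congrArg (MPadcGP.inv K) h5).trans (map_zero _)
    · have h2 := ((CovD.mem_Gr'.1 (CovD.Dq_mem hcG)).2 C).2 (by omega)
      rw [CovD.Hm.push_apply, h2]
      exact map_zero _
  · have hne : C.Nonempty := Finset.card_pos.1 (by omega)
    have h1 : ∀ j ∈ C, fz K (cq Q (insert (Fin.last n) C) (C.min' hne) (Finset.mem_insert_self (Fin.last n) C)) *
        rsc Q (Finset.subset_insert (Fin.last n) C) (fz K (tau Q 1 (Finset.erase_subset j C)) *
          rsc Q (Finset.erase_subset j C) (AkA_v (k (C.erase j)))) =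
        rsc Q ((Finset.erase_subset j C).trans (Finset.subset_insert (Fin.last n) C)) (p (C.erase j)).2 +
          AkA_dl (insert (Fin.last n) C) (Fin.last n) (mn (C.erase j)) *
            rsc Q ((Finset.erase_subset j C).trans (Finset.subset_insert (Fin.last n) C)) (p (C.erase j)).1 := by
      intro j hj
      have h5 := Finset.card_erase_add_one hj
      exact (congrArg (fun y => fz K (cq Q (insert (Fin.last n) C) (C.min' hne) (Finset.mem_insert_self (Fin.last n) C)) *
        rsc Q (Finset.subset_insert (Fin.last n) C) (fz K (tau Q 1 (Finset.erase_subset j C)) *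
          rsc Q (Finset.erase_subset j C) y)) (hp4 (C.erase j) (by omega) (fun h => hz (Finset.mem_of_mem_erase h)))).trans
        (AkA_term3 (Finset.erase_subset j C) (Finset.card_pos.1 (by omega)) hne _ _)
    have h2 := AkA_s3 (A := K) (rsc Q (J := C) (K := insert (Fin.last n) C) (Finset.subset_insert (Fin.last n) C))
      (cq Q (insert (Fin.last n) C) (C.min' hne) (Finset.mem_insert_self (Fin.last n) C)) C (fun j => sg j C) _ _ _ h1
    have h3 := (AkA_unit hne (gg C)).symm.trans ((congrArg (fun y => fz K (cq Q (insert (Fin.last n) C) (C.min' hne)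
      (Finset.mem_insert_self (Fin.last n) C)) * rsc Q (Finset.subset_insert (Fin.last n) C) y) (hk C)).trans h2)
    have h4 : (prC Q).rs (Finset.subset_insert (Fin.last n) C) ((prC Q).del (fun C => (p C).2) C) =
        ∑ j ∈ C, sg j C • rsc Q ((Finset.erase_subset j C).trans (Finset.subset_insert (Fin.last n) C)) (p (C.erase j)).2 :=
      AkA_delR (fun C => (p C).2) (Finset.subset_insert (Fin.last n) C)
    have h5 : ∀ j ∈ C, sg j C • (dl Q (insert (Fin.last n) C) (Fin.last n) (mn (C.erase j)) *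
        (prC Q).ev (fun C => (p C).1) (C.erase j) (insert (Fin.last n) C)) =
        sg j C • (AkA_dl (insert (Fin.last n) C) (Fin.last n) (mn (C.erase j)) *
          rsc Q ((Finset.erase_subset j C).trans (Finset.subset_insert (Fin.last n) C)) (p (C.erase j)).1) :=
      fun j _ => congrArg (fun y => sg j C • (dl Q (insert (Fin.last n) C) (Fin.last n) (mn (C.erase j)) * y))
        (AkA_ev (fun C => (p C).1) ((Finset.erase_subset j C).trans (Finset.subset_insert (Fin.last n) C)))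
    have h6 := (congrArg (fun y => (prC Q).rs (Finset.subset_insert (Fin.last n) C) (y C)) hgg.symm).trans h3
    exact h6.trans (congrArg₂ (fun y z => y + z) (Finset.sum_congr rfl h5).symm h4.symm)

end MPadcHS
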