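import Pool.Agent.Lib.MP_adc574_ag_GP.DatA
import Pool.Agent.Lib.MP_adc574_ag_GP.Deg
import Pool.Agent.Lib.MP_adc574_ag_HS.AkDefs

/-!
# JOB AkB (HS): the complex of the forms which vanish on `X` is acyclic in the degrees `≤ d`

`(rsH hle).push c` has the component `rsx hle C (c C)` at `C` (`rsx_eq`, `CovD.Hm.push_apply`).
* `ak_gr`: if `m < a`: `Gr a m = ⊥` (`Gr_gt`), `g = 0`, `k = 0`. Else `m = a + b`. `g` lives on the sets with `b + 1` elements, `g C ∈ kF hle a C` for all `C`. It is a cocycle of `kT hle 0 a` (`rK_coe`, `tau_zero`, `map_one`, `one_mul`: the restriction is `rsc`; `Dq g = ± del g`: `inv_mem`: `inv` is `(-1)^a` on `Fd a`; the sums `∑ j ∈ C, sg j C • ev g (C.erase j) C`,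
  `ev_of (Finset.erase_subset j C)`). `h.ker0 a b`: `g = del c'`. `k C := (-1) ^ a • c' C`. If `b = 0` then `c' = 0` (`Cd 0`: `c' C = 0` for `C.card ≠ 0`, and `c' ∅ = 0`), so `g = 0`, `k = 0`. If `m = 0` then `a = 0`, `b = 0`.
* `ak_tot`: prove by induction on `m + 1 - a` (from `a = m + 1` down to `0`): if `w ∈ Fi a m`, `push w = 0`, `Dt w = 0` then there is `k ∈ Tt (m - 1)` with `push k = 0`, `Dt k = w` (`Fi a m = ⊥` for `m < a`: `Fi_bot`). Step: `g := pG a m w ∈ Gr a m` (`pG_mem`), `push g = 0` (componentwise), `Dq g = pG a (m + 1) (Dt w) = 0` (`pG_Dt`), `ak_gr`: `g = Dq k₁`, `k₁ ∈ Gr a (m - 1)`.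
  `w - Dt k₁ ∈ Fi (a + 1) m`: `w - g ∈ Fi (a + 1) m` (`sub_pG_mem`), `Dt k₁ = dc k₁ + Dq k₁` (`Dt_eq`), `dc k₁ ∈ Fi (a + 1) m` (`dc_Gr_mem`). `push (Dt k₁) = Dt (push k₁) = 0` (`CovD.Hm.push_Dt`). For `m = 0`: `k₁ = 0`. `Fi 0 m = Tt m` (`Fi_zero`), `Zc m = Tt m ⊓ ker Dt`.
-/

set_option autoImplicit false
set_option linter.unusedSectionVars false

namespace MPadcHS

open MvPolynomial MPadcGP MPadcDC

universe u

private theorem AkB_r1 {R : Type u} [Ring R] (a : ℕ) (x : R) : (-1) ^ a * ((-1) ^ a * x) = x := by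
  rw [← mul_assoc, ← pow_add, ← two_mul, pow_mul, neg_one_sq, one_pow, one_mul]

private theorem AkB_r2 {R S : Type u} [Ring R] [Ring S] (f : R →+* S) (a : ℕ) (z : ℤ) (x : R) :
    z • f ((-1) ^ a * x) = (-1) ^ a * (z • f x) := by
  rw [map_mul, map_pow, map_neg, map_one, mul_smul_comm]

private theorem AkB_r3 {R S : Type u} [Ring R] [Ring S] (f : S →+* R) {s : S} (hs : s = 1) (x : R) :
    f s * x = x := by
  rw [hs, map_one, one_mul]

private theorem AkB_r4 {R : Type u} [Ring R] {y : R} (a : ℕ) (h : y = 0) : (-1) ^ a * y = 0 := by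
  rw [h, mul_zero]

private theorem AkB_r5 {R S : Type u} [Ring R] [Ring S] (f : R →+* S) (a : ℕ) {y : R} (h : f y = 0) :
    f ((-1) ^ a * y) = 0 := by
  rw [map_mul, h, mul_zero]

private theorem AkB_r6 {R : Type u} [Ring R] (a : ℕ) {ι : Type} (s : Finset ι) (z : ι → ℤ) (f : ι → R) :
    (-1) ^ a * ∑ j ∈ s, z j • f j = ∑ j ∈ s, z j • ((-1) ^ a * f j) := by
  rw [Finset.mul_sum]
  exact Finset.sum_congr rfl fun j _ => mul_smul_comm _ _ _

variable {K : Type u} [Field K] {n : ℕ} {Q P : Ideal (MvPolynomial (Fin (n + 1)) K)} {hle : Q ≤ P} {d : ℕ}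

/-- The alternating sum of the restrictions. -/
private noncomputable def AkB_S (k : ∀ J, Fm K (chart Q J)) (J : Finset (Fin (n + 1))) : Fm K (chart Q J) :=
  ∑ j ∈ J, sg j J • rsc Q (Finset.erase_subset j J) (k (J.erase j))

/-- `Dq` of cochains of the form degree `a`. -/
private theorem AkB_Dq {a : ℕ} {k : ∀ J, Fm K (chart Q J)} (hk : ∀ J, k J ∈ Fd K (chart Q J) a)
    (J : Finset (Fin (n + 1))) : @Eq (Fm K (chart Q J)) ((prC Q).Dq k J) ((-1) ^ a * AkB_S k J) := by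
  have h0 : (-1) ^ a * AkB_S k J =
      ∑ j ∈ J, sg j J • ((-1) ^ a * rsc Q (Finset.erase_subset j J) (k (J.erase j))) :=
    AkB_r6 a J (fun j => sg j J) fun j => rsc Q (Finset.erase_subset j J) (k (J.erase j))
  refine Eq.trans ?_ h0.symm
  refine Eq.trans (CovD.Dq_app (X := prC Q) k J) ?_
  refine Finset.sum_congr rfl fun j _ => ?_
  have h1 : @Eq (Fm K (chart Q J)) ((prC Q).ev ((prC Q).ic k) (J.erase j) J)
      ((-1) ^ a * rsc Q (Finset.erase_subset j J) (k (J.erase j))) := by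
    refine Eq.trans (CovD.ev_of (X := prC Q) (Finset.erase_subset j J)) ?_
    refine Eq.trans (CovD.rs_inv (X := prC Q) (Finset.erase_subset j J) (k (J.erase j))) ?_
    exact inv_mem (rsc_mem (Finset.erase_subset j J) (hk (J.erase j)))
  exact congrArg (fun y : Fm K (chart Q J) => sg j J • y) h1

/-- The values. -/
private noncomputable def AkB_v (hle : Q ≤ P) (a : ℕ) (J : Finset (Fin (n + 1))) :
    (kT hle 0 a).E J →+ Fm K (chart Q J) := (kF hle a J).subtype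

private theorem AkB_v_inj {a : ℕ} {J : Finset (Fin (n + 1))} {x y : (kT hle 0 a).E J}
    (h : AkB_v hle a J x = AkB_v hle a J y) : x = y := Subtype.ext h

private theorem AkB_v_mem {a : ℕ} {J : Finset (Fin (n + 1))} (x : (kT hle 0 a).E J) :
    AkB_v hle a J x ∈ Fd K (chart Q J) a := x.2.1

private theorem AkB_v_res {a : ℕ} {J : Finset (Fin (n + 1))} (x : (kT hle 0 a).E J) :
    rsx hle J (AkB_v hle a J x) = 0 := x.2.2

private theorem AkB_v_mk {a : ℕ} {J : Finset (Fin (n + 1))} {y : Fm K (chart Q J)} (hy : y ∈ Fd K (chart Q J) a)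
    (hy' : rsx hle J y = 0) : ∃ x : (kT hle 0 a).E J, AkB_v hle a J x = y := ⟨⟨y, hy, hy'⟩, rfl⟩

private theorem AkB_v_r {a : ℕ} {J J' : Finset (Fin (n + 1))} (h : J ⊆ J') (x : (kT hle 0 a).E J) :
    AkB_v hle a J' ((kT hle 0 a).r h x) = rsc Q h (AkB_v hle a J x) := by
  change fz K (tau Q 0 h) * rsc Q h (AkB_v hle a J x) = rsc Q h (AkB_v hle a J x)
  exact AkB_r3 (fz K) (tau_zero h) _

/-- The differential of the untwisted system. -/
private theorem AkB_del {a : ℕ} (c : ∀ J, (kT hle 0 a).E J) (J : Finset (Fin (n + 1))) :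
    AkB_v hle a J ((kT hle 0 a).del c J) = AkB_S (fun J => AkB_v hle a J (c J)) J := by
  unfold TS.del AkB_S
  rw [map_sum]
  refine Finset.sum_congr rfl fun j _ => ?_
  rw [map_zsmul, AkB_v_r]

private theorem AkB_sq (a : ℕ) (J : Finset (Fin (n + 1))) (x : Fm K (chart Q J)) :
    (-1) ^ a * ((-1) ^ a * x) = x := AkB_r1 a x

private theorem AkB_Smul (a : ℕ) (k : ∀ J, Fm K (chart Q J)) (J : Finset (Fin (n + 1))) :
    AkB_S (fun J => (-1) ^ a * k J) J = (-1) ^ a * AkB_S k J := by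
  have h0 : (-1) ^ a * AkB_S k J =
      ∑ j ∈ J, sg j J • ((-1) ^ a * rsc Q (Finset.erase_subset j J) (k (J.erase j))) :=
    AkB_r6 a J (fun j => sg j J) fun j => rsc Q (Finset.erase_subset j J) (k (J.erase j))
  refine Eq.trans ?_ h0.symm
  exact Finset.sum_congr rfl fun j _ => (AkB_r2 _ a _ _).trans (mul_smul_comm _ _ _)

theorem ak_gr (h : AkH hle d) {a m : ℕ} (hm : m ≤ d) {g : (prC Q).Ch} (hg : g ∈ (prC Q).Gr a m)
    (hp : (rsH hle).push g = 0) (hd : (prC Q).Dq g = 0) : ∃ k : (prC Q).Ch, (∀ l, l + 1 = m → k ∈ (prC Q).Gr a l) ∧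
      (m = 0 → k = 0) ∧ (rsH hle).push k = 0 ∧ (prC Q).Dq k = g := by
  rcases Nat.lt_or_ge m a with hma | hma
  · rw [CovD.Gr_gt hma, Submodule.mem_bot] at hg
    exact ⟨0, fun l _ => Submodule.zero_mem _, fun _ => rfl, map_zero _, by rw [map_zero, hg]⟩
  obtain ⟨b, rfl⟩ := Nat.exists_eq_add_of_le hma
  obtain ⟨hg0, hgJ⟩ := CovD.mem_Gr'.1 hg
  obtain ⟨G, hG⟩ : ∃ G : ∀ J, Fm K (chart Q J), G = g := ⟨g, rfl⟩
  have hGF : ∀ J, G J ∈ Fd K (chart Q J) a := by
    intro J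
    rw [hG]
    by_cases hJ : a + J.card = a + b + 1
    · exact (hgJ J).1 hJ
    · rw [(hgJ J).2 hJ]
      exact Submodule.zero_mem _
  have hGp : ∀ J, rsx hle J (G J) = 0 := fun J => by
    rw [hG]
    exact congrFun hp J
  have hG0 : ∀ J, (J = ∅ ∨ J.card ≠ b + 1) → G J = 0 := by
    rintro J (hJ | hJ)
    · rw [hG, hJ]
      exact hg0
    · rw [hG]
      exact (hgJ J).2 (by omega)
  choose c hc using fun J => AkB_v_mk (hle := hle) (hGF J) (hGp J)
  have hcG : (fun J => AkB_v hle a J (c J)) = G := funext hc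
  have hc1 : (kT hle 0 a).Cd (b + 1) c := by
    refine ⟨AkB_v_inj ?_, fun J hJ => AkB_v_inj ?_⟩
    · rw [hc, map_zero, hG0 _ (Or.inl rfl)]
    · rw [hc, map_zero, hG0 _ (Or.inr hJ)]
  have hc2 : (kT hle 0 a).del c = 0 := by
    funext J
    refine AkB_v_inj ?_
    rw [Pi.zero_apply, map_zero, AkB_del, hcG, ← AkB_sq a J (AkB_S G J), ← AkB_Dq hGF J]
    have h1 : @Eq (Fm K (chart Q J)) ((prC Q).Dq G J) 0 := by
      rw [hG, hd]
      rfl
    exact AkB_r4 a h1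
  obtain ⟨c', hc', hcc⟩ := h.ker0 a b hm c hc1 hc2
  obtain ⟨k, hk⟩ : ∃ k : ∀ J, Fm K (chart Q J), k = fun J => (-1) ^ a * AkB_v hle a J (c' J) := ⟨_, rfl⟩
  have hkF : ∀ J, k J ∈ Fd K (chart Q J) a := by
    intro J
    rw [hk]
    exact neg_one_pow_mul_mem _ (AkB_v_mem (c' J))
  have hk0 : ∀ J, c' J = 0 → k J = 0 := by
    intro J hJ
    rw [hk]
    exact AkB_r4 a (by rw [hJ, map_zero])
  have hkp : ∀ J, rsx hle J (k J) = 0 := by
    intro J
    rw [hk]
    exact AkB_r5 _ a (AkB_v_res (c' J))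
  have hkD : ∀ J, @Eq (Fm K (chart Q J)) ((prC Q).Dq k J) (G J) := by
    intro J
    rw [AkB_Dq hkF J, hk, AkB_Smul, AkB_sq, ← AkB_del, hcc, hc]
  refine ⟨k, fun l hl => CovD.mem_Gr'.2 ⟨hk0 _ hc'.1, fun J => ⟨fun _ => hkF J, fun hJ => hk0 _ (hc'.2 J (by omega))⟩⟩,
    fun h0 => ?_, funext hkp, ?_⟩
  · funext J
    rcases J.eq_empty_or_nonempty with hJ | hJ
    · rw [hJ]
      exact hk0 _ hc'.1
    · have h1 := hJ.card_pos
      exact hk0 _ (hc'.2 J (by omega))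
  · rw [← hG]
    exact funext hkD

theorem ak_tot (h : AkH hle d) {m : ℕ} (hm : m ≤ d) {w : (prC Q).Ch} (hw : w ∈ (prC Q).Zc m)
    (hp : (rsH hle).push w = 0) : ∃ k : (prC Q).Ch, (∀ l, l + 1 = m → k ∈ (prC Q).Tt l) ∧ (m = 0 → k = 0) ∧
      (rsH hle).push k = 0 ∧ (prC Q).Dt k = w := by
  have hind : ∀ t a : ℕ, a + t = m + 1 → ∀ w : (prC Q).Ch, w ∈ (prC Q).Fi a m → (rsH hle).push w = 0 →
      (prC Q).Dt w = 0 → ∃ k : (prC Q).Ch, (∀ l, l + 1 = m → k ∈ (prC Q).Tt l) ∧ (m = 0 → k = 0) ∧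
        (rsH hle).push k = 0 ∧ (prC Q).Dt k = w := by
    intro t
    induction t with
    | zero =>
      intro a ha w hwF _ _
      rw [CovD.Fi_bot (by omega), Submodule.mem_bot] at hwF
      exact ⟨0, fun l _ => Submodule.zero_mem _, fun _ => rfl, map_zero _, by rw [map_zero, hwF]⟩
    | succ t ih =>
      intro a ha w hwF hwp hwD
      have hg : (prC Q).pG a m w ∈ (prC Q).Gr a m := CovD.pG_mem hwF
      have hgp : (rsH hle).push ((prC Q).pG a m w) = 0 := by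
        funext J
        rw [CovD.Hm.push_apply]
        by_cases hJ : J = ∅ ∨ a + J.card ≠ m + 1
        · rw [CovD.pG_not w hJ, map_zero]
          rfl
        · push Not at hJ
          rw [CovD.pG_of w hJ.1.ne_empty hJ.2]
          exact congrFun hwp J
      have hgD : (prC Q).Dq ((prC Q).pG a m w) = 0 := by
        rw [← CovD.pG_Dt hwF, hwD, map_zero]
      obtain ⟨k₁, hk₁, hk₁0, hk₁p, hk₁D⟩ := ak_gr h hm hg hgp hgD
      have hDt : (prC Q).Dt k₁ = (prC Q).dc k₁ + (prC Q).pG a m w := by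
        rw [CovD.Dt_eq, hk₁D]
      have hdc : (prC Q).dc k₁ ∈ (prC Q).Fi (a + 1) m := by
        rcases Nat.eq_zero_or_pos m with h0 | h0
        · rw [hk₁0 h0, map_zero]
          exact Submodule.zero_mem _
        · obtain ⟨l, rfl⟩ : ∃ l, m = l + 1 := ⟨m - 1, by omega⟩
          exact CovD.dc_Gr_mem (hk₁ l rfl)
      have hw' : w - (prC Q).Dt k₁ ∈ (prC Q).Fi (a + 1) m := by
        have e1 : w - (prC Q).Dt k₁ = (w - (prC Q).pG a m w) - (prC Q).dc k₁ := by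
          rw [hDt]
          abel
        rw [e1]
        exact Submodule.sub_mem _ (CovD.sub_pG_mem hwF) hdc
      obtain ⟨k₂, hk₂, hk₂0, hk₂p, hk₂D⟩ := ih (a + 1) (by omega) (w - (prC Q).Dt k₁) hw'
        (by rw [map_sub, hwp, CovD.Hm.push_Dt, hk₁p, map_zero, sub_zero])
        (by rw [map_sub, hwD, CovD.Dt_Dt, sub_zero])
      refine ⟨k₁ + k₂, fun l hl => Submodule.add_mem _ (CovD.Gr_le_Fi a l (hk₁ l hl)).1 (hk₂ l hl),
        fun h0 => by rw [hk₁0 h0, hk₂0 h0, add_zero], by rw [map_add, hk₁p, hk₂p, add_zero], ?_⟩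
      rw [map_add, hk₂D]
      abel
  exact hind (m + 1) 0 (by omega) w (by rw [CovD.Fi_zero]; exact hw.1) hp hw.2

end MPadcHS
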