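import Pool.Agent.Lib.MP_adc574_ag_HS.GyH

/-!
# JOB GyJ (HS, Part P)

`exists_lift_Tt`: for every `C` choose (`mp_onto` with `rsH_surj`) `c C ∈ Fd q` with `(rsH hle).e C (c C) = x C`, where `q + C.card = m + 1`; put `c C := 0` if `x C = 0`, if `z ∈ C` (then `x C = 0` anyway, `subs_E`) or if `C = ∅`, or `m + 1 < C.card`. So `c ∈ Tt m`, and `x C = 0` implies `c C = 0`, which gives the statement for `Fi`.
`gyr_bc`: case `m = 0`: `Bc 0 = ⊥`, so `push c = 0`; put `b := 0`, `e := c`. Case `m = m' + 1`: `push c = Dt b₀`, `b₀ ∈ Tt m'`; lift `b₀` to `b ∈ Tt m'`, `e := c - Dt b ∈ Tt m`, `push e = 0`. Let `v ∈ Tt (m + 1)` be given by `exists_div` for `e`. Claim `w = Dt (v - Gam b)` (`v - Gam b ∈ Tt (m + 1)`, `Gam_mem`), so `w ∈ Bc (m + 2)`: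
`zero_of_last` for `w - Dt v + Dt (Gam b)`: on `C⁺`: `dlg * rs (c C) - dlg * rs (e C) - dlg * rs (Dt b C) = 0` (`Dt_Gam_insert`), on `{z}`: `w {z} = 0`, `(Dt v) {z} = 0` (`v {z} = 0`, `v ∅ = 0`), `Dt_Gam_last`; and `Dt` of it is `0`.
-/

set_option autoImplicit false

namespace MPadcHS

open MvPolynomial MPadcGP MPadcDC

universe u v w

section

variable {A : Type u} [CommRing A] {n : ℕ} {Q P : Ideal (MvPolynomial (Fin (n + 1)) A)}

/-- Cochains of `X` lift to `Y`. -/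
theorem exists_lift_Tt (hP : P = hyp Q) (hle : Q ≤ P) {m : ℕ} {x : (prC P).Ch} (hx : x ∈ (prC P).Tt m) :
    ∃ c ∈ (prC Q).Tt m, (rsH hle).push c = x ∧ ∀ i, x ∈ (prC P).Fi i m → c ∈ (prC Q).Fi i m := by
  have key : ∀ C : Finset (Fin (n + 1)), ∃ e : (prC Q).E C,
      (∀ q, q + C.card = m + 1 → e ∈ Fd A ((prC Q).R C) q) ∧ (x C = 0 → e = 0) ∧
      (rsH hle).e C e = x C := by
    intro C
    by_cases h1 : x C = 0
    · exact ⟨0, fun _ _ => Submodule.zero_mem _, fun _ => rfl, by rw [map_zero, h1]⟩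
    · have hcard : C.card ≤ m + 1 := by
        by_contra h2
        exact h1 ((hx.2 C).2 (by omega))
      obtain ⟨q, hq⟩ : ∃ q, q + C.card = m + 1 := ⟨m + 1 - C.card, by omega⟩
      obtain ⟨e, he, hex⟩ := mp_onto ((rsH hle).cc C) (rsH_surj hle C) ((hx.2 C).1 q hq)
      refine ⟨e, fun q' hq' => ?_, fun h3 => absurd h3 h1, hex⟩
      have h4 : q' = q := by omega
      rw [h4]
      exact he
  choose c hc hc0 hcx using key
  have hT : (c : (prC Q).Ch) ∈ (prC Q).Tt m :=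
    ⟨hc0 ∅ hx.1, fun C => ⟨fun q hq => hc C q hq, fun h1 => hc0 C ((hx.2 C).2 h1)⟩⟩
  refine ⟨c, hT, funext fun C => hcx C, fun i hi => ⟨hT, fun C hC => hc0 C (hi.2 C hC)⟩⟩

private theorem GyJ_cases {C : Finset (Fin (n + 1))} (hz : Fin.last n ∈ C) :
    C = {Fin.last n} ∨ ∃ C' : Finset (Fin (n + 1)), C'.Nonempty ∧ Fin.last n ∉ C' ∧ C = insert (Fin.last n) C' := by
  have h1 : insert (Fin.last n) (C.erase (Fin.last n)) = C := Finset.insert_erase hz
  rcases (C.erase (Fin.last n)).eq_empty_or_nonempty with h2 | h2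
  · left
    rw [h2] at h1
    exact h1.symm
  · right
    exact ⟨C.erase (Fin.last n), h2, Finset.notMem_erase _ _, h1.symm⟩

private theorem GyJ_last {v : (prC Q).Ch} (h0 : v ∅ = 0) (hv : v {Fin.last n} = 0) :
    (prC Q).Dt v {Fin.last n} = 0 := by
  rw [CovD.Dt_apply, Pi.add_apply, CovD.dc_apply, hv, map_zero, zero_add, CovD.del_apply]
  refine Finset.sum_eq_zero fun j hj => ?_
  have hj' : j = Fin.last n := Finset.mem_singleton.1 hj
  subst hj'
  have h1 : v (({Fin.last n} : Finset (Fin (n + 1))).erase (Fin.last n)) = 0 := by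
    have h2 : ({Fin.last n} : Finset (Fin (n + 1))).erase (Fin.last n) = ∅ := by
      rw [Finset.erase_singleton]
    rw [h2]
    exact h0
  rw [CovD.ev_ic, CovD.ev_eq_zero h1, map_zero, smul_zero]

/-- `c = e + D b` with `e = 0` on `X`. -/
private theorem GyJ_split (hle : Q ≤ P) (h : Gd Q P) {m : ℕ} {c : (prC Q).Ch} (hc : c ∈ (prC Q).Tt m)
    (hX : (rsH hle).push c ∈ (prC P).Bc m) :
    ∃ b e : (prC Q).Ch, e ∈ (prC Q).Tt m ∧ c = e + (prC Q).Dt b ∧ (rsH hle).push e = 0 ∧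
      (Gam Q b ∈ (prC Q).Tt (m + 1) ∧ b ∅ = 0) := by
  cases m with
  | zero =>
    have h1 : (rsH hle).push c = 0 := hX
    exact ⟨0, c, hc, by rw [map_zero, add_zero], h1, by rw [map_zero]; exact Submodule.zero_mem _, rfl⟩
  | succ m =>
    obtain ⟨b₀, hb₀, hb₁⟩ := hX
    obtain ⟨b, hb, hbb, _⟩ := exists_lift_Tt h.eq hle hb₀
    refine ⟨b, c - (prC Q).Dt b, Submodule.sub_mem _ hc (CovD.Dt_mem hb), by rw [sub_add_cancel], ?_,
      Gam_mem hb, hb.1⟩
    rw [map_sub, CovD.Hm.push_Dt, hbb, hb₁, sub_self]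

/-- The class of the Gysin cocycle only depends on the class of the restriction. -/
theorem gyr_bc (h : Gd Q P) (hle : Q ≤ P) {m : ℕ} {c w : (prC Q).Ch} (hw : GyR Q m c w)
    (hX : (rsH hle).push c ∈ (prC P).Bc m) : w ∈ (prC Q).Bc (m + 2) := by
  obtain ⟨b, e, he, hce, h0, hb⟩ := GyJ_split hle h hw.cm hX
  obtain ⟨v, hv, hvz, hvd, _, _⟩ := exists_div h hle he h0
  have hu : v - Gam Q b ∈ (prC Q).Tt (m + 1) := Submodule.sub_mem _ hv hb.1
  have hww := CovD.mem_Zc.1 hw.wz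
  have hz : w - (prC Q).Dt (v - Gam Q b) = 0 := by
    refine zero_of_last h (Submodule.sub_mem _ hww.1 (CovD.Dt_mem hu)).1 (fun C hC => ?_) (fun C _ _ => ?_)
    · rw [Pi.sub_apply, map_sub, Pi.sub_apply]
      rcases GyJ_cases hC with rfl | ⟨C', hne, hz, rfl⟩
      · rw [hw.w0, Dt_Gam_last hb.2, GyJ_last hv.1 (hvz _ (Finset.mem_singleton_self _)), sub_zero, sub_zero]
      · rw [hw.wl C' hne hz, hvd C' hne hz, Dt_Gam_insert hb.2 hne hz, hce, Pi.add_apply, map_add, mul_add]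
        abel
    · rw [map_sub, hww.2, CovD.Dt_Dt, sub_zero]
      rfl
  exact ⟨v - Gam Q b, hu, (sub_eq_zero.1 hz).symm⟩

end

end MPadcHS
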