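import Pool.Agent.Lib.MP_adc574_ag_HS.GyI
import Pool.Agent.Lib.MP_adc574_ag_HS.GyJ

/-!
# JOB GyK (HS, Part P)

`exists_gy`: for a class `x ∈ HdR m` of `P` choose `c₀ ∈ Zc m` (`CovD.cl_surjective`), lift it to `c ∈ Tt m` (`exists_lift_Tt`), `w` by `exists_gyr`; `gys hle m x (cl w)`. If `gys hle m x y` and `gys hle m x y'` then `y = y'`: the difference of the witnesses is `GyR (c - c') (w - w')` (`GyR.add`, `GyR.smul (-1)`), `push (c - c') ∈ Bc m` (`CovD.cl_eq`), `gyr_bc`. Additivity and `A`-linearity by `GyR.add`, `GyR.smul`.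
So `g x := choose`, and it is linear by uniqueness. `exists_rH`: `push_mem_Zc`, `push_mem_Bc` (GP). `resR_Fil`, `resR_Con`: `CovD.mem_Fil`, `CovD.mem_Con`, `CovD.Hm.push_mem_Fi`, `push_mem_Ni`; the witness of `resR` may be replaced by any other cocycle of the class: `push_mem_Bc`.
`gys_Fil`: `x = cl x₀`, `x₀ ∈ Fi i m`; lift `x₀` to `c ∈ Fi i m` (`exists_lift_Tt`), `w ∈ Fi (i + 1) (m + 2)` by `exists_gyr`; `y = cl w` by the uniqueness.
All of it is proved for a general morphism of cover data `F : X → Y` and a general relation `R` on the cochains of `X`.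
-/

set_option autoImplicit false

namespace MPadcHS

open MvPolynomial MPadcGP MPadcDC

universe u v w x

private theorem GyK_lin {A : Type u} [CommRing A] {M : Type*} {N : Type*} [AddCommGroup M] [AddCommGroup N] [Module A M] [Module A N]
    (R : M → N → Prop)
    (ht : ∀ x, ∃ y, R x y) (hu : ∀ x y y', R x y → R x y' → y = y')
    (ha : ∀ x x' y y', R x y → R x' y' → R (x + x') (y + y')) (hs : ∀ (a : A) x y, R x y → R (a • x) (a • y)) :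
    ∃ g : M →ₗ[A] N, ∀ x y, R x y ↔ g x = y := by
  choose g hg using ht
  refine ⟨{ toFun := g
            map_add' := fun x x' => hu _ _ _ (hg _) (ha _ _ _ _ (hg x) (hg x'))
            map_smul' := fun a x => hu _ _ _ (hg _) (hs a _ _ (hg x)) }, fun x y => ⟨fun h => hu _ _ _ (hg x) h, ?_⟩⟩
  rintro rfl
  exact hg x

section general

variable {A : Type u} [CommRing A] {N : ℕ} {X : CovD.{u, v} A N} {Y : CovD.{u, w} A N}

private theorem GyK_runiq {F : CovD.Hm (RingHom.id A) X Y} {m : ℕ} {c c' : ↥(X.Zc m)} {d d' : ↥(Y.Zc m)}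
    (hd : (d : Y.Ch) = F.push (c : X.Ch)) (hd' : (d' : Y.Ch) = F.push (c' : X.Ch)) (h : X.cl m c = X.cl m c') :
    Y.cl m d = Y.cl m d' := by
  have h1 := CovD.cl_eq.1 h
  refine CovD.cl_eq.2 ?_
  rw [hd, hd', ← map_sub]
  exact push_mem_Bc h1

private theorem GyK_rH (F : CovD.Hm (RingHom.id A) X Y) (m : ℕ) :
    ∃ r : X.HdR m →ₗ[A] Y.HdR m, ∀ y x, (∃ (c : ↥(X.Zc m)) (c' : ↥(Y.Zc m)), (c' : Y.Ch) = F.push (c : X.Ch) ∧
      X.cl m c = y ∧ Y.cl m c' = x) ↔ r y = x := by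
  refine GyK_lin (fun y x => ∃ (c : ↥(X.Zc m)) (c' : ↥(Y.Zc m)), (c' : Y.Ch) = F.push (c : X.Ch) ∧
      X.cl m c = y ∧ Y.cl m c' = x) (fun y => ?_) (fun y x x' => ?_) ?_ ?_
  · obtain ⟨c, rfl⟩ := CovD.cl_surjective m y
    exact ⟨_, c, ⟨F.push (c : X.Ch), push_mem_Zc c.2⟩, rfl, rfl, rfl⟩
  · rintro ⟨c, d, hcd, hy, rfl⟩ ⟨c', d', hcd', hy', rfl⟩
    exact GyK_runiq hcd hcd' (hy.trans hy'.symm)
  · rintro y y' x x' ⟨c, d, hcd, rfl, rfl⟩ ⟨c', d', hcd', rfl, rfl⟩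
    refine ⟨c + c', d + d', ?_, map_add _ _ _, map_add _ _ _⟩
    change (d : Y.Ch) + d' = F.push ((c : X.Ch) + c')
    rw [map_add, hcd, hcd']
  · rintro a y x ⟨c, d, hcd, rfl, rfl⟩
    refine ⟨a • c, a • d, ?_, map_smul _ _ _, map_smul _ _ _⟩
    change a • (d : Y.Ch) = F.push (a • (c : X.Ch))
    rw [CovD.Hm.push_smul, hcd]
    rfl

private theorem GyK_rFil {F : CovD.Hm (RingHom.id A) X Y} {m i : ℕ} {y : X.HdR m} {x : Y.HdR m}
    (h : ∃ (c : ↥(X.Zc m)) (c' : ↥(Y.Zc m)), (c' : Y.Ch) = F.push (c : X.Ch) ∧ X.cl m c = y ∧ Y.cl m c' = x)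
    (hy : y ∈ X.Fil m i) : x ∈ Y.Fil m i := by
  obtain ⟨c, hc, hcy⟩ := CovD.mem_Fil.1 hy
  obtain ⟨c', d', hd', hy', rfl⟩ := h
  exact CovD.mem_Fil.2 ⟨⟨F.push (c : X.Ch), push_mem_Zc c.2⟩, CovD.Hm.push_mem_Fi hc, GyK_runiq rfl hd' (hcy.trans hy'.symm)⟩

private theorem GyK_rCon {F : CovD.Hm (RingHom.id A) X Y} {m i : ℕ} {y : X.HdR m} {x : Y.HdR m}
    (h : ∃ (c : ↥(X.Zc m)) (c' : ↥(Y.Zc m)), (c' : Y.Ch) = F.push (c : X.Ch) ∧ X.cl m c = y ∧ Y.cl m c' = x)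
    (hy : y ∈ X.Con m i) : x ∈ Y.Con m i := by
  obtain ⟨c, hc, hcy⟩ := CovD.mem_Con.1 hy
  obtain ⟨c', d', hd', hy', rfl⟩ := h
  exact CovD.mem_Con.2 ⟨⟨F.push (c : X.Ch), push_mem_Zc c.2⟩, CovD.Hm.push_mem_Ni hc, GyK_runiq rfl hd' (hcy.trans hy'.symm)⟩

/-- The properties of a relation on the cochains which gives a linear map `H^m(Y) → H^(m')(X)`. -/
private structure GyK_P (F : CovD.Hm (RingHom.id A) X Y) (m m' : ℕ) (R : X.Ch → X.Ch → Prop) : Prop where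
  wz : ∀ {c w}, R c w → w ∈ X.Zc m'
  add : ∀ {c c' w w'}, R c w → R c' w' → R (c + c') (w + w')
  smul : ∀ (a : A) {c w}, R c w → R (a • c) (a • w)
  ex : ∀ {x : Y.Ch}, x ∈ Y.Zc m → ∃ c w, F.push c = x ∧ R c w
  bc : ∀ {c w}, R c w → F.push c ∈ Y.Bc m → w ∈ X.Bc m'

/-- The relation on the classes. -/
private def GyK_R (F : CovD.Hm (RingHom.id A) X Y) (m m' : ℕ) (R : X.Ch → X.Ch → Prop) (x : Y.HdR m) (y : X.HdR m') : Prop :=
  ∃ (c w : X.Ch) (_ : R c w) (hc : F.push c ∈ Y.Zc m) (hw : w ∈ X.Zc m'), Y.cl m ⟨_, hc⟩ = x ∧ X.cl m' ⟨w, hw⟩ = y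

private theorem GyK_uniq {F : CovD.Hm (RingHom.id A) X Y} {m m' : ℕ} {R : X.Ch → X.Ch → Prop} (P : GyK_P F m m' R)
    {x : Y.HdR m} {y y' : X.HdR m'} (hy : GyK_R F m m' R x y) (hy' : GyK_R F m m' R x y') : y = y' := by
  obtain ⟨c, w, hw, hc, hz, hx, rfl⟩ := hy
  obtain ⟨c', w', hw', hc', hz', hx', rfl⟩ := hy'
  have h1 : R (c + (-1 : A) • c') (w + (-1 : A) • w') := P.add hw (P.smul (-1) hw')
  have h2 : F.push (c + (-1 : A) • c') ∈ Y.Bc m := by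
    have h3 : F.push (c + (-1 : A) • c') = F.push c - F.push c' := by
      rw [map_add, CovD.Hm.push_smul, RingHom.id_apply, neg_one_smul, sub_eq_add_neg]
    rw [h3]
    exact CovD.cl_eq.1 (hx.trans hx'.symm)
  have h4 := P.bc h1 h2
  rw [neg_one_smul, ← sub_eq_add_neg] at h4
  exact CovD.cl_eq.2 h4

private theorem GyK_ex {F : CovD.Hm (RingHom.id A) X Y} {m m' : ℕ} {R : X.Ch → X.Ch → Prop} (P : GyK_P F m m' R) :
    ∃ g : Y.HdR m →ₗ[A] X.HdR m', ∀ x y, GyK_R F m m' R x y ↔ g x = y := by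
  refine GyK_lin (GyK_R F m m' R) (fun x => ?_) (fun x y y' => GyK_uniq P) ?_ ?_
  · obtain ⟨c₀, rfl⟩ := CovD.cl_surjective m x
    obtain ⟨c, w, hpc, hw⟩ := P.ex c₀.2
    have hz : F.push c ∈ Y.Zc m := by
      rw [hpc]
      exact c₀.2
    exact ⟨_, c, w, hw, hz, P.wz hw, congrArg _ (Subtype.ext hpc), rfl⟩
  · rintro x x' y y' ⟨c, w, hw, hc, hz, rfl, rfl⟩ ⟨c', w', hw', hc', hz', rfl, rfl⟩
    have h1 : F.push (c + c') = F.push c + F.push c' := map_add _ _ _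
    have h2 : F.push (c + c') ∈ Y.Zc m := by
      rw [h1]
      exact Submodule.add_mem _ hc hc'
    refine ⟨c + c', w + w', P.add hw hw', h2, Submodule.add_mem _ hz hz', ?_, ?_⟩
    · rw [← map_add]
      exact congrArg _ (Subtype.ext h1)
    · rw [← map_add]
      exact congrArg _ (Subtype.ext rfl)
  · rintro a x y ⟨c, w, hw, hc, hz, rfl, rfl⟩
    have h1 : F.push (a • c) = a • F.push c := CovD.Hm.push_smul a c
    have h2 : F.push (a • c) ∈ Y.Zc m := by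
      rw [h1]
      exact Submodule.smul_mem _ _ hc
    refine ⟨a • c, a • w, P.smul a hw, h2, Submodule.smul_mem _ _ hz, ?_, ?_⟩
    · rw [← map_smul]
      exact congrArg _ (Subtype.ext h1)
    · rw [← map_smul]
      exact congrArg _ (Subtype.ext rfl)

private theorem GyK_Fil {F : CovD.Hm (RingHom.id A) X Y} {m m' i i' : ℕ} {R : X.Ch → X.Ch → Prop} (P : GyK_P F m m' R)
    (hF : ∀ {x : Y.Ch}, x ∈ Y.Zc m → x ∈ Y.Fi i m → ∃ c w, F.push c = x ∧ R c w ∧ w ∈ X.Fi i' m')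
    {x : Y.HdR m} {y : X.HdR m'} (hxy : GyK_R F m m' R x y) (hx : x ∈ Y.Fil m i) : y ∈ X.Fil m' i' := by
  obtain ⟨c₀, hc₀, hcx⟩ := CovD.mem_Fil.1 hx
  obtain ⟨c, w, hpc, hw, hwF⟩ := hF c₀.2 hc₀
  have hz : F.push c ∈ Y.Zc m := by
    rw [hpc]
    exact c₀.2
  refine CovD.mem_Fil.2 ⟨⟨w, P.wz hw⟩, hwF, ?_⟩
  refine GyK_uniq P ⟨c, w, hw, hz, P.wz hw, ?_, rfl⟩ hxy
  rw [← hcx]
  exact congrArg _ (Subtype.ext hpc)

end general

section

variable {A : Type u} [CommRing A] {n : ℕ} {Q P : Ideal (MvPolynomial (Fin (n + 1)) A)}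

private theorem GyK_pack (h : Gd Q P) (hle : Q ≤ P) (m : ℕ) : GyK_P (rsH hle) m (m + 2) (GyR Q m) where
  wz := GyR.wz
  add := GyR.add
  smul a := GyR.smul a
  ex {x} hx := by
    obtain ⟨c, hc, hpc, -⟩ := exists_lift_Tt h.eq hle hx.1
    have hz : (rsH hle).push c ∈ (prC P).Zc m := by
      rw [hpc]
      exact hx
    obtain ⟨w, hw, -, -⟩ := exists_gyr h hle hc hz
    exact ⟨c, w, hpc, hw⟩
  bc hw hb := gyr_bc h hle hw hb

private theorem GyK_iff {hle : Q ≤ P} {m : ℕ} {x : (prC P).HdR m} {y : (prC Q).HdR (m + 2)} :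
    gys hle m x y ↔ GyK_R (rsH hle) m (m + 2) (GyR Q m) x y := by
  constructor
  · intro h
    obtain ⟨c, w, hw, hc, hx, hy⟩ := h
    exact ⟨c, w, hw, hc, GyR.wz hw, hx, hy⟩
  · intro h
    obtain ⟨c, w, hw, hc, _, hx, hy⟩ := h
    exact ⟨c, w, hw, hc, hx, hy⟩

/-- The Gysin map is a linear map. -/
theorem exists_gy (h : Gd Q P) (hle : Q ≤ P) (m : ℕ) :
    ∃ g : (prC P).HdR m →ₗ[A] (prC Q).HdR (m + 2), ∀ x y, gys hle m x y ↔ g x = y := by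
  obtain ⟨g, hg⟩ := GyK_ex (GyK_pack h hle m)
  refine ⟨g, fun x y => ?_⟩
  rw [GyK_iff]
  exact hg x y

/-- The restriction is a linear map. -/
theorem exists_rH (hle : Q ≤ P) (m : ℕ) :
    ∃ r : (prC Q).HdR m →ₗ[A] (prC P).HdR m, ∀ y x, resR hle m y x ↔ r y = x := GyK_rH (rsH hle) m

theorem resR_Fil (hle : Q ≤ P) {m i : ℕ} {y : (prC Q).HdR m} {x : (prC P).HdR m} (h : resR hle m y x)
    (hy : y ∈ (prC Q).Fil m i) : x ∈ (prC P).Fil m i := GyK_rFil h hy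

theorem resR_Con (hle : Q ≤ P) {m i : ℕ} {y : (prC Q).HdR m} {x : (prC P).HdR m} (h : resR hle m y x)
    (hy : y ∈ (prC Q).Con m i) : x ∈ (prC P).Con m i := GyK_rCon h hy

theorem gys_Fil (h : Gd Q P) (hle : Q ≤ P) {m i : ℕ} {x : (prC P).HdR m} {y : (prC Q).HdR (m + 2)} (hxy : gys hle m x y)
    (hx : x ∈ (prC P).Fil m i) : y ∈ (prC Q).Fil (m + 2) (i + 1) := by
  refine GyK_Fil (GyK_pack h hle m) (fun {x} hx hi => ?_) (GyK_iff.1 hxy) hx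
  obtain ⟨c, hc, hpc, hFi⟩ := exists_lift_Tt h.eq hle hx.1
  have hz : (rsH hle).push c ∈ (prC P).Zc m := by
    rw [hpc]
    exact hx
  obtain ⟨w, hw, hwF, -⟩ := exists_gyr h hle hc hz
  exact ⟨c, w, hpc, hw, hwF i (hFi i hi)⟩

end

end MPadcHS
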