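import Pool.Agent.Lib.MP_adc574_ag_GP.CarBr
import Pool.Agent.Lib.MP_adc574_ag_GP.Fin
import Pool.Agent.Lib.MP_adc574_ag_GP.Fin3a
import Pool.Agent.Lib.MP_adc574_ag_DC.PHom
import Pool.Agent.Lib.MP_adc574_ag_DC.PMoA

/-!
# JOB NDeg (HS): degeneration of the Hodge filtration in characteristic 0

* `exists_desc`: `P` is generated by finitely many homogeneous polynomials (`P.FG`, noetherian; replace the generators by their homogeneous components, which are in `P` by `hP`, `sum_homogeneousComponent`); `A := Algebra.adjoin ℤ` (all coefficients), `Subalgebra.FG` (finite set); `P₀ := Ideal.span` of the same polynomials over `A` (`MvPolynomial.mem_range_map..`: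
  a polynomial whose coefficients are in `A` is `map (algebraMap A K) g₀`; `g₀` is homogeneous because `map` of the injective `algebraMap A K` reflects it). `IsHomog (Ideal.span S)` for a set of homogeneous polynomials: see `C3A_span`, `C3A_mul` (private lemmas in DC/C3A.lean, copy them; the component of `a * x`). `bI (algebraMap A K) P₀ = P`: `Ideal.map_span`.
* `deg_smooth`: `exists_desc`; `A` is a domain of characteristic `0` and of finite type over `ℤ`; `exists_aff hI j hj hs` (GP/Fin3a) gives `a ≠ 0` with smoothness and `Dat` after inverting `a`: `B := Localization.Away a` (`away_isDomain`, `away_charZero`?, `away_finiteType'`), `φ : B →+* K` the lift (`IsLocalization.Away.lift`), `bI φ (bI ι P₀) = P` (`bI_bI`).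
  `Dat.hodge` gives the finiteness; `dat_sum` (GP/Fin) gives `∑ a ∈ range (m + 1), hn a m ≤ finrank (HdR m)`, and `hn_zero` (GP/CarBr) and `brdE` (`LinearEquiv.finrank_eq`) the form stated (compare `brd_sum` in CarBr, which does exactly this).
* `lift_lead` (a cocycle of `(Gr a, Dq)` is the leading part of a cocycle): the map `HH Dt zs (Fi a) m → HH Dt (Fi (a+1)) (Fi a) m` is surjective: its kernel is the image of `HH Dt zs (Fi (a+1)) m`; dimensions: `finrank (FH a m) = ∑_{Ico a (m+2)} hn` (`FH_finrank`), `F_inj` (the maps `HH zs (Fi a) → Hmz` are injective), so `finrank HH zs (Fi a) m = finrank HH zs (Fi (a+1)) m + hn a m`,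
  and an injective map of finite dimensional spaces between the right dimensions..: the induced injective map `HH zs (Fi a) / image of HH zs (Fi (a+1)) → HH (Fi (a+1)) (Fi a)` (injective: if `x ∈ Fi a` is a cocycle and `x = s + Dt y`, `s ∈ Fi (a+1)`, `y ∈ Fi a`, then `s` is a cocycle) has source of dimension `hn a m`, so it is surjective. For `y ∈ Gr a m`, `Dq y = 0`: `y ∈ ZZ Dt (Fi (a+1)) (Fi a) m` (`Dt_eq`, `dc_Gr_mem`), so there is a
  cocycle `x ∈ Fi a m` with `x - y ∈ BB`: `x = y + s + Dt w`, `w ∈ Fi a (m - 1)`; then `c := x - Dt w` is a cocycle in `Fi a m` and `pG a m c = y + pG a m s = y` (`pG_self`, `pG_zero`).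
* `strict`: `F_strict` (GP/Deg) with `brd_pr`: `x ∈ Fi i m`, cocycle, in `Bc m` ⟹ `x ∈ (pr (Fi i) m).map Dt`.
-/

set_option autoImplicit false
set_option linter.unusedSectionVars false

namespace MPadcHS

open MvPolynomial MPadcGP MPadcDC

universe u v w

section

variable {K : Type u} [Field K] [CharZero K] {n : ℕ} {P : Ideal (MvPolynomial (Fin n) K)}

theorem exists_desc (hP : IsHomog P) : ∃ (A : Subalgebra ℤ K) (P₀ : Ideal (MvPolynomial (Fin n) A)), A.FG ∧
    IsHomog P₀ ∧ bI (algebraMap A K) P₀ = P := by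
  obtain ⟨A, -, hA, P₀, h1, h2⟩ := exists_modelY hP ⊥ Subalgebra.fg_bot
  exact ⟨A, P₀, hA, h1, h2⟩

theorem deg_smooth (hP : IsHomog P) (hs : IsSmoothProj P) :
    (∀ a m, FiniteDimensional K (HH (prC P).Dt ((prC P).Fi (a + 1)) ((prC P).Fi a) m)) ∧
      ∀ m, ∑ a ∈ Finset.range (m + 2), (prC P).hn a m ≤ Module.finrank K ((prC P).Hmz m) := by
  obtain ⟨A, P₀, hA, hP₀, rfl⟩ := exists_desc hP
  have ft : ∀ A' : Subalgebra ℤ K, A'.FG → Algebra.FiniteType ℤ A' := fun A' h =>
    (Subalgebra.fg_iff_finiteType A').1 h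
  have cz : ∀ A' : Subalgebra ℤ K, CharZero A' := fun A' =>
    ⟨fun a b h => by
      have h1 := congrArg (algebraMap A' K) h
      rw [map_natCast, map_natCast] at h1
      exact Nat.cast_injective h1⟩
  have hftA := ft A hA
  have hczA := cz A
  obtain ⟨a, ha, hsm, hdat⟩ := exists_aff hP₀ (algebraMap A K) Subtype.val_injective hs
  obtain ⟨B, hle, hB, hu⟩ := exists_inv A hA a ha
  have hftB := ft B hB
  have hczB := cz B
  obtain ⟨φ, hφ⟩ : ∃ φ : A →+* B, φ = (Subalgebra.inclusion hle).toRingHom := ⟨_, rfl⟩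
  rw [← hφ] at hu
  obtain ⟨β, i1, i2, lev, z, h, hD⟩ := hdat B φ hu
  have hsB := hsm B φ hu
  have hc : bI (algebraMap B K) (bI φ P₀) = bI (algebraMap A K) P₀ := by
    rw [bI_bI, hφ]
    rfl
  have h1 := fun a m => (hD.hodge K (algebraMap B K) a m).1
  have h2 := fun m => dat_sum (hP₀.map φ) hsB hD (algebraMap B K) m
  rw [hc] at h1 h2
  exact ⟨h1, fun m => CovD.brd_sum h2 m⟩

theorem lift_lead (hP : IsHomog P) (hs : IsSmoothProj P) {a m : ℕ} {y : (prC P).Ch} (hy : y ∈ (prC P).Gr a m)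
    (hd : (prC P).Dq y = 0) : ∃ c ∈ (prC P).Zc m, c ∈ (prC P).Fi a m ∧ (prC P).pG a m c = y := by
  obtain ⟨hfin, hsum⟩ := deg_smooth hP hs
  rcases Nat.lt_or_ge m a with h | h
  · rw [CovD.Gr_gt h] at hy
    rw [(Submodule.mem_bot K).1 hy]
    exact ⟨0, Submodule.zero_mem _, Submodule.zero_mem _, map_zero _⟩
  · have h1 := (chain_exact (S := (prC P).Fc (m + 2)) CovD.Dt_comp (fun j k => CovD.Fc_mono _ j k)
      (fun j => CovD.Fi_sub _) m (fun j => CovD.Fc_finite hfin (m + 2) j m) (m + 2) (by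
        rw [CovD.Hmz_finrank_F, CovD.Fc_sum _ _ _ le_rfl, Nat.sub_self, ← Finset.range_eq_Ico]
        exact hsum m) (m + 1 - a) (by omega)).2.2
    have e1 : (prC P).Fc (m + 2) (m + 1 - a) = (prC P).Fi (a + 1) := by
      unfold CovD.Fc
      congr 1
      omega
    have e2 : (prC P).Fc (m + 2) (m + 1 - a + 1) = (prC P).Fi a := by
      unfold CovD.Fc
      congr 1
      omega
    have e3 : (prC P).Fc (m + 2) 0 = (prC P).Fi (m + 2) := rfl
    have h2 : ∀ x ∈ ZZ (prC P).Dt ((prC P).Fc (m + 2) (m + 1 - a)) ((prC P).Fc (m + 2) (m + 1 - a + 1)) m,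
        ∃ x' ∈ ZZ (prC P).Dt ((prC P).Fc (m + 2) 0) ((prC P).Fc (m + 2) (m + 1 - a + 1)) m,
          x - x' ∈ BB (prC P).Dt ((prC P).Fc (m + 2) (m + 1 - a)) ((prC P).Fc (m + 2) (m + 1 - a + 1)) m :=
      of_sq_surjective _ _ h1
    rw [e1, e2, e3] at h2
    have hyF := CovD.Gr_le_Fi a m hy
    obtain ⟨x, hx, hyx⟩ := h2 y ⟨hyF, by
      change (prC P).Dt y ∈ (prC P).Fi (a + 1) (m + 1)
      rw [CovD.Dt_eq, hd, add_zero]
      exact CovD.dc_Gr_mem hy⟩
    have hxF : x ∈ (prC P).Fi a m := hx.1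
    have hDx : (prC P).Dt x = 0 := by
      have h3 : (prC P).Dt x ∈ (prC P).Fi (m + 2) (m + 1) := hx.2
      rw [CovD.Fi_bot (by omega)] at h3
      exact (Submodule.mem_bot K).1 h3
    obtain ⟨s, hs1, w, hw, hsw⟩ := mem_BB.1 hyx
    have hDw : (prC P).Dt w ∈ (prC P).Fi a m := by
      cases m with
      | zero =>
        have h3 : w = 0 := (Submodule.mem_bot K).1 hw
        rw [h3, map_zero]
        exact Submodule.zero_mem _
      | succ m => exact CovD.Dt_mem_Fi hw
    have hc : x + (prC P).Dt w ∈ (prC P).Fi a m := Submodule.add_mem _ hxF hDw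
    refine ⟨x + (prC P).Dt w, ⟨CovD.Fi_le_Tt _ a m hc, ?_⟩, hc, ?_⟩
    · change (prC P).Dt (x + (prC P).Dt w) = 0
      rw [map_add, hDx, CovD.Dt_Dt, add_zero]
    · have h4 : x + (prC P).Dt w = y - s := by
        have h5 : y = x + (s + (prC P).Dt w) := by rw [← hsw, add_sub_cancel]
        rw [h5]
        abel
      rw [h4, map_sub, CovD.pG_self hy, CovD.pG_zero hs1, sub_zero]

theorem strict (hP : IsHomog P) (hs : IsSmoothProj P) {i m : ℕ} {x : (prC P).Ch} (hx : x ∈ (prC P).Fi i m)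
    (hxB : x ∈ (prC P).Bc m) : ∃ y, (∀ l, l + 1 = m → y ∈ (prC P).Fi i l) ∧ (m = 0 → y = 0) ∧ (prC P).Dt y = x := by
  obtain ⟨hfin, hsum⟩ := deg_smooth hP hs
  have hDx : (prC P).Dt x = 0 := (CovD.Bc_le_Zc m hxB).2
  rw [← CovD.brd_pr] at hxB
  obtain ⟨y, hy, hyx⟩ := Submodule.mem_map.1 (CovD.F_strict hfin hsum i m x hx hDx hxB)
  refine ⟨y, ?_, ?_, hyx⟩
  · rintro l rfl
    exact hy
  · rintro rfl
    exact (Submodule.mem_bot K).1 hy

end

end MPadcHS
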