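import Pool.Agent.Lib.MP_adc574_ag_HS.AkB
import Pool.Agent.Lib.MP_adc574_ag_HS.NDeg
import Pool.Agent.Lib.MP_adc574_ag_HS.GyJ
import Pool.Agent.Lib.MP_adc574_ag_HS.GyK

/-!
# JOB AkC (HS): the restriction `H^j(Y) → H^j(X)`

`r` from `exists_rH hle m` (GyK.lean) or directly: `resR hle m y x` says `y = cl c`, `x = cl c'`, `c' = push c`.
* `ak_rinj`: `y = cl c₀`, `c₀ ∈ Fi a d`, a cocycle (`CovD.mem_Fil`); `x = cl (push c₀)` (the representatives in `resR` may be changed: `exists_rH` or `push_mem_Bc`), and `x = cl c'`, `c' ∈ Fi (a + 1) d`. If `d < a`: `Fi a d = ⊥` (`Fi_bot`), `y = 0`. Let `a ≤ d`. `push c₀ - c' ∈ Bc d` and `∈ Fi a d`: `strict h.homP h.smP` (NDeg.lean): `push c₀ - c' = Dt e`, `e ∈ Fi a l` for `l + 1 = d`, `e = 0` if `d = 0`.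
  `g := pG a d c₀ ∈ Gr a d`, `Dq g = pG a (d + 1) (Dt c₀) = 0` (`pG_Dt`), `push g = pG a d (push c₀) = pG a d (Dt e) = Dq (pG a l e)` (`pG_zero` for `c'`, `pG_Dt`; the push commutes with `pG`: componentwise, `if`). Lift: `exists_lift_Tt h.gd.eq hle` for `pG a l e ∈ Gr a l ≤ Fi a l`: `e₁ ∈ Fi a l`, `push e₁ = pG a l e`; `e₂ := pG a l e₁ ∈ Gr a l`, `push e₂ = pG a l e` (`pG_self`).
  `g - Dq e₂ ∈ Gr a d` is killed by push and `Dq`: `ak_gr h le_rfl`: `g - Dq e₂ = Dq k`. So `c₀ - Dt (e₂ + k) ∈ Fi (a + 1) d` (`sub_pG_mem`, `dc_Gr_mem`, `Dt_eq`), and its class is `y` (`CovD.cl_eq`, `Bc`). For `d = 0`: `a = 0`, `e = 0`, `push g = 0`, `ak_gr` gives `k = 0`, `g = 0`, `c₀ ∈ Fi 1 0`.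
* `ak_rsurj`: `j < d`, `x = cl c'`, lift `c'` to `c ∈ Tt j` (`exists_lift_Tt`), `w := Dt c ∈ Zc (j + 1)`, `push w = Dt c' = 0`, `ak_tot h` (`j + 1 ≤ d`): `w = Dt k`, `k ∈ Tt j`, `push k = 0`; `c - k ∈ Zc j` restricts to `c'`.
-/

set_option autoImplicit false
set_option linter.unusedSectionVars false

namespace MPadcHS

open MvPolynomial MPadcGP MPadcDC

universe u

variable {K : Type u} [Field K] [CharZero K] {n : ℕ} {Q P : Ideal (MvPolynomial (Fin (n + 1)) K)} {hle : Q ≤ P}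
  {d : ℕ}

private theorem AkC_pG {a m : ℕ} (c : (prC Q).Ch) :
    (rsH hle).push ((prC Q).pG a m c) = (prC P).pG a m ((rsH hle).push c) := by
  funext J
  rw [CovD.Hm.push_apply]
  by_cases h : J = ∅ ∨ a + J.card ≠ m + 1
  · rw [CovD.pG_not c h, CovD.pG_not _ h, map_zero]
  · push Not at h
    rw [CovD.pG_of c h.1.ne_empty h.2, CovD.pG_of _ h.1.ne_empty h.2, CovD.Hm.push_apply]

private theorem AkC_Dq (c : (prC Q).Ch) : (rsH hle).push ((prC Q).Dq c) = (prC P).Dq ((rsH hle).push c) := by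
  rw [CovD.Dq_apply, CovD.Dq_apply, CovD.Hm.push_del, CovD.Hm.push_ic]

private theorem AkC_fin {a l : ℕ} {c u : (prC Q).Ch} (hz : c ∈ (prC Q).Zc (l + 1)) (hc : c ∈ (prC Q).Fi a (l + 1))
    (hu : u ∈ (prC Q).Gr a l) (hd : (prC Q).Dq u = (prC Q).pG a (l + 1) c) :
    (prC Q).cl (l + 1) ⟨c, hz⟩ ∈ (prC Q).Fil (l + 1) (a + 1) := by
  have h1 : c - (prC Q).Dt u ∈ (prC Q).Zc (l + 1) := by
    refine Submodule.sub_mem _ hz (CovD.mem_Zc.2 ⟨CovD.Dt_mem (CovD.Gr_le_Fi a l hu).1, CovD.Dt_Dt u⟩)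
  have h2 : c - (prC Q).Dt u ∈ (prC Q).Fi (a + 1) (l + 1) := by
    have h3 : c - (prC Q).Dt u = (c - (prC Q).pG a (l + 1) c) - (prC Q).dc u := by
      rw [CovD.Dt_eq, hd]
      abel
    rw [h3]
    exact Submodule.sub_mem _ (CovD.sub_pG_mem hc) (CovD.dc_Gr_mem hu)
  refine CovD.mem_Fil.2 ⟨⟨c - (prC Q).Dt u, h1⟩, h2, CovD.cl_eq.2 ?_⟩
  have h4 : c - (prC Q).Dt u - c = (prC Q).Dt (-u) := by
    rw [map_neg]
    abel
  change c - (prC Q).Dt u - c ∈ (prC Q).Bc (l + 1)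
  rw [h4]
  exact CovD.Dt_mem_Bc (Submodule.neg_mem _ (CovD.Gr_le_Fi a l hu).1)

theorem ak_rinj (h : AkH hle d) (a : ℕ) (y : (prC Q).HdR d) (x : (prC P).HdR d) (hr : resR hle d y x)
    (hy : y ∈ (prC Q).Fil d a) (hx : x ∈ (prC P).Fil d (a + 1)) : y ∈ (prC Q).Fil d (a + 1) := by
  obtain ⟨c₀, hc₀, rfl⟩ := CovD.mem_Fil.1 hy
  obtain ⟨c', hc', rfl⟩ := CovD.mem_Fil.1 hx
  have hB : (rsH hle).push (c₀ : (prC Q).Ch) - (c' : (prC P).Ch) ∈ (prC P).Bc d := by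
    obtain ⟨r, hr'⟩ := exists_rH hle d
    have h1 := (hr' _ _).1 hr
    have h2 : resR hle d ((prC Q).cl d c₀) ((prC P).cl d ⟨(rsH hle).push (c₀ : (prC Q).Ch), push_mem_Zc c₀.2⟩) :=
      ⟨c₀, ⟨(rsH hle).push (c₀ : (prC Q).Ch), push_mem_Zc c₀.2⟩, rfl, rfl, rfl⟩
    have h3 := (hr' _ _).1 h2
    rw [h1] at h3
    exact CovD.cl_eq.1 h3.symm
  have hpF : (rsH hle).push (c₀ : (prC Q).Ch) ∈ (prC P).Fi a d := CovD.Hm.push_mem_Fi hc₀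
  obtain ⟨e, he, he0, hde⟩ := strict h.homP h.smP
    (Submodule.sub_mem _ hpF (CovD.Fi_anti (Nat.le_succ a) d hc')) hB
  have hpc : (rsH hle).push (c₀ : (prC Q).Ch) = (prC P).Dt e + c' := by
    rw [hde, sub_add_cancel]
  have hz0 : (prC Q).Dt (c₀ : (prC Q).Ch) = 0 := (CovD.mem_Zc.1 c₀.2).2
  have hgD : (prC Q).Dq ((prC Q).pG a d (c₀ : (prC Q).Ch)) = 0 := by
    rw [← CovD.pG_Dt hc₀, hz0, map_zero]
  rcases Nat.eq_zero_or_pos d with hd0 | hd0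
  · subst hd0
    have hp : (rsH hle).push ((prC Q).pG a 0 (c₀ : (prC Q).Ch)) = 0 := by
      rw [AkC_pG, hpc, he0 rfl, map_zero, zero_add, CovD.pG_zero hc']
    obtain ⟨k, -, hk0, -, hk⟩ := ak_gr h le_rfl (CovD.pG_mem hc₀) hp hgD
    rw [hk0 rfl, map_zero] at hk
    refine CovD.mem_Fil.2 ⟨c₀, ?_, rfl⟩
    have h5 := CovD.sub_pG_mem hc₀
    rwa [← hk, sub_zero] at h5
  · obtain ⟨l, rfl⟩ : ∃ l, d = l + 1 := ⟨d - 1, by omega⟩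
    have he' := he l rfl
    have hpe := CovD.pG_mem he'
    obtain ⟨e₁, -, hpe₁, hFe₁⟩ := exists_lift_Tt h.gd.eq hle (CovD.Gr_le_Fi a l hpe).1
    have he₁ := hFe₁ a (CovD.Gr_le_Fi a l hpe)
    have hpe₂ : (rsH hle).push ((prC Q).pG a l e₁) = (prC P).pG a l e := by
      rw [AkC_pG, hpe₁, CovD.pG_self hpe]
    have hp : (rsH hle).push ((prC Q).pG a (l + 1) (c₀ : (prC Q).Ch) - (prC Q).Dq ((prC Q).pG a l e₁)) = 0 := by
      rw [map_sub, AkC_pG, AkC_Dq, hpe₂, hpc, map_add, CovD.pG_zero hc', add_zero, CovD.pG_Dt he', sub_self]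
    obtain ⟨k, hk1, -, -, hk⟩ := ak_gr h le_rfl
      (Submodule.sub_mem _ (CovD.pG_mem hc₀) (CovD.Dq_mem (CovD.pG_mem he₁))) hp
      (by rw [map_sub, hgD, CovD.Dq_Dq, sub_zero])
    refine AkC_fin c₀.2 hc₀ (Submodule.add_mem _ (CovD.pG_mem he₁) (hk1 l rfl)) ?_
    rw [map_add, hk, add_sub_cancel]

theorem ak_rsurj (h : AkH hle d) (j : ℕ) (hj : j < d) (x : (prC P).HdR j) : ∃ y, resR hle j y x := by
  obtain ⟨c', rfl⟩ := CovD.cl_surjective j x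
  obtain ⟨c, hc, hpc, -⟩ := exists_lift_Tt h.gd.eq hle (CovD.mem_Zc.1 c'.2).1
  have hw : (prC Q).Dt c ∈ (prC Q).Zc (j + 1) := CovD.mem_Zc.2 ⟨CovD.Dt_mem hc, CovD.Dt_Dt c⟩
  have hp : (rsH hle).push ((prC Q).Dt c) = 0 := by
    rw [CovD.Hm.push_Dt, hpc]
    exact (CovD.mem_Zc.1 c'.2).2
  obtain ⟨k, hk, -, hpk, hdk⟩ := ak_tot h hj hw hp
  have hz : c - k ∈ (prC Q).Zc j :=
    CovD.mem_Zc.2 ⟨Submodule.sub_mem _ hc (hk j rfl), by rw [map_sub, hdk, sub_self]⟩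
  refine ⟨_, ⟨c - k, hz⟩, c', ?_, rfl, rfl⟩
  change (c' : (prC P).Ch) = (rsH hle).push (c - k)
  rw [map_sub, hpk, sub_zero, hpc]

end MPadcHS
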