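import Pool.Agent.Lib.MP_adc574_ag_HS.GyDefs
import Pool.Agent.Lib.MP_adc574_ag_DC.C1A

/-!
# JOB GyC (HS, Part P)

Copy of `rs_inj` of DC/C1A.lean (which is over a field of characteristic `0`) over any ring `A`: none of its arguments uses the field. `loc_zeta` there also holds over any ring (`tr_isLocalization` of GP/Mod2.lean is over any ring). `h.sm.smooth h.hom hC : Algebra.Smooth A (chart Q C)` (name: see how C1A does it),
`h.nz C j hj hz` is the non zero divisor. `(prC Q).rs (subset_insert z C) e = 0` implies `fz (ζ ^ k) * e = 0` for some `k` (`mp_ker`, GP/FmLoc.lean), and multiplication by a non zero divisor is injective on `Fm A (chart Q C)` because the exterior powers of the projective module `Ω` are projective (`projective_ext`, as in C1A). The private lemmas of C1A must be copied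
(there `A`, `R` are general already).
-/

set_option autoImplicit false

namespace MPadcHS

open MvPolynomial MPadcGP MPadcDC

universe u v w

section

variable {A : Type u} [CommRing A] {n : ℕ} {Q P : Ideal (MvPolynomial (Fin (n + 1)) A)}

private theorem GyC_loc (hI : IsHomog Q) {C : Finset (Fin (n + 1))} {z j : Fin (n + 1)} (hj : j ∈ C) :
    letI := (tr Q (Finset.subset_insert z C)).toRingHom.toAlgebra
    IsLocalization.Away (cq Q C z hj) (chart Q (insert z C)) := by
  classical
  let _ := (tr Q (Finset.subset_insert z C)).toRingHom.toAlgebra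
  have h0 : IsLocalization.Away (∏ l ∈ insert z C, cq Q C l hj) (chart Q (insert z C)) :=
    tr_isLocalization hI (Finset.subset_insert z C) hj
  have hu : IsUnit (∏ l ∈ C, cq Q C l hj) :=
    Finset.prod_induction _ _ (fun _ _ h1 h2 => h1.mul h2) isUnit_one fun l hl => cq_isUnit Q C hl hj
  have ha : Associated (∏ l ∈ insert z C, cq Q C l hj) (cq Q C z hj) := by
    by_cases hz : z ∈ C
    · rw [Finset.insert_eq_of_mem hz]
      exact (associated_one_iff_isUnit.2 hu).trans (associated_one_iff_isUnit.2 (cq_isUnit Q C hz hj)).symm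
    · rw [Finset.prod_insert hz]
      exact associated_mul_unit_left _ _ hu
  exact IsLocalization.Away.of_associated ha

private theorem GyC_pj {B : Type u} {R : Type u} [CommRing B] [CommRing R] [Algebra B R] (q : ℕ) (r : R)
    (e : Fm B R) : pj B q (fz B r * e) = fz B r * pj B q e := by
  induction e using homog_ind with
  | h0 => rw [mul_zero, map_zero, mul_zero]
  | h1 s e he =>
    rcases eq_or_ne s q with rfl | h
    · rw [pj_of_mem he, pj_of_mem (fz_mul_mem r he)]
    · rw [pj_of_ne he h, pj_of_ne (fz_mul_mem r he) h, mul_zero]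
  | h2 a b ha hb => rw [mul_add, map_add, ha, hb, map_add, mul_add]

private theorem GyC_zero {B : Type u} {R : Type u} [CommRing B] [CommRing R] [Algebra B R] {e : Fm B R}
    (h : ∀ q, pj B q e = 0) : e = 0 := by
  apply (DirectSum.decompose (fun i : ℕ => ⋀[R]^i (Ω[R⁄B]))).injective
  rw [DirectSum.decompose_zero]
  refine DFinsupp.ext fun q => Subtype.ext ?_
  exact h q

private theorem GyC_tf {R : Type u} [CommRing R] {M : Type u} [AddCommGroup M] [Module R M]
    [Module.Projective R M] {r : R} (hr : r ∈ nonZeroDivisors R) {x : M} (hx : r • x = 0) : x = 0 := by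
  obtain ⟨s, hs⟩ := Module.projective_def.1 (inferInstance : Module.Projective R M)
  have h1 : s x = 0 := by
    refine Finsupp.ext fun p => ?_
    have h2 : r * s x p = 0 := by
      have h3 := congrArg s hx
      rw [map_smul, map_zero] at h3
      have h4 := DFunLike.congr_fun h3 p
      exact h4
    rw [mul_comm] at h2
    exact (mem_nonZeroDivisors_iff_right.1 hr) _ h2
  have h2 := hs x
  rw [h1, map_zero] at h2
  exact h2.symm

private theorem GyC_smul {B : Type u} {R : Type u} [CommRing B] [CommRing R] [Algebra B R]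
    [Algebra.FormallySmooth B R] {r : R} (hr : r ∈ nonZeroDivisors R) {e : Fm B R}
    (he : fz B r * e = 0) : e = 0 := by
  refine GyC_zero fun q => ?_
  have h1 : fz B r * pj B q e = 0 := by
    rw [← GyC_pj, he, map_zero]
  have hp : Module.Projective R (⋀[R]^q (Ω[R⁄B])) := projective_ext q
  have h2 : (⟨pj B q e, pj_mem q e⟩ : ⋀[R]^q (Ω[R⁄B])) = 0 := by
    refine GyC_tf (M := ⋀[R]^q (Ω[R⁄B])) hr ?_
    apply Subtype.ext
    change r • pj B q e = 0
    rw [fz_smul]
    exact h1
  exact congrArg Subtype.val h2

/-- The restriction of forms from `U_C` to `U_C ∩ U_z` is injective. -/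
theorem rs_injA (h : Gd Q P) {C : Finset (Fin (n + 1))} (hC : C.Nonempty) (hz : Fin.last n ∉ C) :
    Function.Injective ((prC Q).rs (Finset.subset_insert (Fin.last n) C)) := by
  obtain ⟨j, hj⟩ := hC
  have hnz : cq Q C (Fin.last n) hj ∈ nonZeroDivisors (chart Q C) := h.nz C j hj hz
  let _ := (tr Q (Finset.subset_insert (Fin.last n) C)).toRingHom.toAlgebra
  have hst : IsScalarTower A (chart Q C) (chart Q (insert (Fin.last n) C)) :=
    IsScalarTower.of_algebraMap_eq fun a => ((tr Q (Finset.subset_insert (Fin.last n) C)).commutes a).symm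
  have hloc : IsLocalization.Away (cq Q C (Fin.last n) hj) (chart Q (insert (Fin.last n) C)) := GyC_loc h.hom hj
  have hsm : Algebra.Smooth A (chart Q C) := h.sm.smooth h.hom ⟨j, hj⟩
  rw [injective_iff_map_eq_zero]
  intro (e : Fm A (chart Q C)) he
  have hcc : CC A A (algebraMap (chart Q C) (chart Q (insert (Fin.last n) C))) := cc_alg
  have h1 : mp (algebraMap (chart Q C) (chart Q (insert (Fin.last n) C))) hcc e = 0 := he
  obtain ⟨m, hm, h2⟩ := mp_ker (Submonoid.powers (cq Q C (Fin.last n) hj)) hcc h1
  obtain ⟨k, rfl⟩ := hm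
  exact GyC_smul (pow_mem hnz k) h2

end

end MPadcHS
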