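import Pool.Agent.Lib.MP_adc574_ag_GP.DatA
import Pool.Agent.Lib.MP_adc574_ag_HS.AkDefs
import Pool.Agent.Lib.MP_adc574_ag_HS.GyC
import Pool.Agent.Lib.MP_adc574_ag_HS.GyD

/-!
# JOB AkD (HS): comparison of the connecting map with the Gysin cocycle

`C⁺ = insert z C`, `X = prC Q`. All cochains here are in `Gr (a + 1)`, where `ic` is the multiplication by `(-1)^(a + 1)` (`inv_mem`), so `Dq u = (-1)^(a + 1) • del u`. `g`, `g₁` live on the sets with `b + 2` elements, `s` on the sets with `b + 1` elements.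
1. `del g₁ = 0` at `C⁺`, `C ∌ z` with `b + 2` elements: `∑_{j ∈ C⁺} sg j C⁺ • ev g₁ (C⁺.erase j) C⁺ = 0`; `j = z`: `sg z C⁺ = (-1)^|C|` (`z` is the largest index: `sg` is defined with `filter (· < j)`, all elements of `C` are `< z`), `C⁺.erase z = C`; `j ∈ C`: `sg j C⁺ = sg j C`, `C⁺.erase j = (C.erase j)⁺`, `C.erase j` nonempty, `h1`:
   `g₁ (C.erase j)⁺ = dlg .. * rs (c (C.erase j))`, so `ev g₁ (C⁺.erase j) C⁺ = dl Q C⁺ z (mn (C.erase j)) * ev c (C.erase j) C⁺` (`rs_dl`, `dl_eq`, `mn_eq`, `rs_ev`). So `(-1)^(b + 2) • rs (g₁ C) = - ∑ j ∈ C, sg j C • (dl .. * ev c ..)`, and with `h2`: `rs (g C) = (-1)^(b + 1) • rs (g₁ C) + rs (del s C)`, so by `rs_injA h.gd`: `g C = (-1)^(b + 1) • g₁ C + del s C` for `C ∌ z` with `b + 2` elements.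
2. `u := g - (-1)^(b + 1) • g₁ - del s`: zero on the sets without `z` (for the sets with another number of elements all terms are zero), zero on the sets with `≠ b + 2` elements, `u C ∈ Fd (a + 1)`, `del u = 0` (`del_del`). `W1_exact` (DC/W1A.lean) with `h.aff`, `r = b + 1`: `u = del t`, `t` on the sets with `b + 1` elements, zero on the sets without `z` (so `t ∅ = 0`).
3. `y := (-1)^(a + 1) • (s + t) ∈ Gr (a + 1) (d + 1)`, `Dq y = del (s + t) = g - (-1)^(b + 1) • g₁`.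
-/

set_option autoImplicit false
set_option linter.unusedSectionVars false

namespace MPadcHS

open MvPolynomial MPadcGP MPadcDC

universe u

variable {K : Type u} [Field K] {n : ℕ} {Q P : Ideal (MvPolynomial (Fin (n + 1)) K)} {hle : Q ≤ P} {d : ℕ}

private theorem AkD_sg_last {C : Finset (Fin (n + 1))} (hz : Fin.last n ∉ C) :
    sg (Fin.last n) (insert (Fin.last n) C) = (-1) ^ C.card := by
  unfold sg
  congr 2
  ext k
  rw [Finset.mem_filter, Finset.mem_insert]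
  constructor
  · rintro ⟨h1 | h1, h2⟩
    · exact absurd h2 (by rw [h1]; exact lt_irrefl _)
    · exact h1
  · intro h1
    exact ⟨Or.inr h1, lt_of_le_of_ne (Fin.le_last k) fun h2 => hz (h2 ▸ h1)⟩

private theorem AkD_sg {C : Finset (Fin (n + 1))} (j : Fin (n + 1)) :
    sg j (insert (Fin.last n) C) = sg j C := by
  unfold sg
  congr 2
  ext k
  rw [Finset.mem_filter, Finset.mem_filter, Finset.mem_insert]
  constructor
  · rintro ⟨h1 | h1, h2⟩
    · rw [h1] at h2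
      exact absurd h2 (not_lt.2 (Fin.le_last j))
    · exact ⟨h1, h2⟩
  · rintro ⟨h1, h2⟩
    exact ⟨Or.inr h1, h2⟩

private theorem AkD_ic {q m : ℕ} {u : (prC Q).Ch} (hu : u ∈ (prC Q).Gr q m) :
    (prC Q).ic u = (-1 : ℤ) ^ q • u := by
  obtain ⟨h0, h1⟩ := CovD.mem_Gr'.1 hu
  funext J
  rw [CovD.ic_apply, Pi.smul_apply]
  by_cases hJ : q + J.card = m + 1
  · refine (MPadcGP.inv_mem ((h1 J).1 hJ)).trans ?_
    rw [zsmul_eq_mul, Int.cast_pow, Int.cast_neg, Int.cast_one]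
  · rw [(h1 J).2 hJ, map_zero, smul_zero]

private theorem AkD_Dq {q m : ℕ} {u : (prC Q).Ch} (hu : u ∈ (prC Q).Gr q m) :
    (prC Q).Dq u = (-1 : ℤ) ^ q • (prC Q).del u := by
  rw [CovD.Dq_apply, AkD_ic hu, map_zsmul]

private theorem AkD_sq (q : ℕ) : (-1 : ℤ) ^ q * (-1 : ℤ) ^ q = 1 := by
  rw [← pow_add, ← two_mul, pow_mul, neg_one_sq, one_pow]

private theorem AkD_del {q m : ℕ} {u : (prC Q).Ch} (hu : u ∈ (prC Q).Gr q m) :
    (prC Q).del u = (-1 : ℤ) ^ q • (prC Q).Dq u := by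
  rw [AkD_Dq hu, smul_smul, AkD_sq, one_smul]

/-- the component of `del g₁` on `C + z` -/
private theorem AkD_step {g₁ c : (prC Q).Ch} (hd₁ : (prC Q).del g₁ = 0)
    (h1 : ∀ (C : Finset (Fin (n + 1))) (hC : C.Nonempty), Fin.last n ∉ C →
      g₁ (insert (Fin.last n) C) = dlg Q (insert (Fin.last n) C) (Fin.last n) (C.min' hC) (Finset.mem_insert_self _ _)
        (Finset.mem_insert_of_mem (C.min'_mem hC)) * (prC Q).rs (Finset.subset_insert (Fin.last n) C) (c C))
    {C : Finset (Fin (n + 1))} (hz : Fin.last n ∉ C) (h2 : 2 ≤ C.card) :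
    (-1 : ℤ) ^ C.card • (prC Q).rs (Finset.subset_insert (Fin.last n) C) (g₁ C) =
      -∑ j ∈ C, sg j C • (dl Q (insert (Fin.last n) C) (Fin.last n) (mn (C.erase j)) *
            (prC Q).ev c (C.erase j) (insert (Fin.last n) C)) := by
  have e0 : (prC Q).del g₁ (insert (Fin.last n) C) = 0 := by
    rw [hd₁]
    rfl
  rw [CovD.del_apply, Finset.sum_insert hz, Finset.erase_insert hz, AkD_sg_last hz,
    CovD.ev_of (Finset.subset_insert _ _)] at e0
  rw [eq_neg_iff_add_eq_zero, ← e0]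
  congr 1
  refine Finset.sum_congr rfl fun j hj => ?_
  rw [AkD_sg]
  congr 1
  have hjz : j ≠ Fin.last n := fun h => hz (h ▸ hj)
  have he : (insert (Fin.last n) C).erase j = insert (Fin.last n) (C.erase j) :=
    Finset.erase_insert_of_ne (Ne.symm hjz)
  have hzj : Fin.last n ∉ C.erase j := fun h => hz (Finset.mem_of_mem_erase h)
  have hsub : insert (Fin.last n) (C.erase j) ⊆ insert (Fin.last n) C :=
    Finset.insert_subset_insert _ (Finset.erase_subset _ _)
  rw [he, CovD.ev_of hsub]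
  have hne : (C.erase j).Nonempty := by
    have h3 := Finset.card_erase_add_one hj
    exact Finset.card_pos.1 (by omega)
  rw [h1 _ hne hzj, map_mul, ← dl_eq, ← mn_eq hne,
    rs_dl hsub (Finset.mem_insert_self _ _) (Finset.mem_insert_of_mem (mn_mem hne)), CovD.rs_rs,
    CovD.ev_of ((Finset.subset_insert _ _).trans hsub)]

theorem ak_cmp (h : AkH hle d) {a b : ℕ} (hab : a + b = d) {g g₁ c s : (prC Q).Ch}
    (hg : g ∈ (prC Q).Gr (a + 1) (d + 2)) (hd : (prC Q).Dq g = 0) (hg₁ : g₁ ∈ (prC Q).Gr (a + 1) (d + 2))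
    (hd₁ : (prC Q).Dq g₁ = 0) (hs : s ∈ (prC Q).Gr (a + 1) (d + 1))
    (h1 : ∀ (C : Finset (Fin (n + 1))) (hC : C.Nonempty), Fin.last n ∉ C →
      g₁ (insert (Fin.last n) C) = dlg Q (insert (Fin.last n) C) (Fin.last n) (C.min' hC) (Finset.mem_insert_self _ _)
        (Finset.mem_insert_of_mem (C.min'_mem hC)) * (prC Q).rs (Finset.subset_insert (Fin.last n) C) (c C))
    (h2 : ∀ C : Finset (Fin (n + 1)), C.card = b + 2 → Fin.last n ∉ C →
        (prC Q).rs (Finset.subset_insert (Fin.last n) C) (g C) =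
          ∑ j ∈ C, sg j C • (dl Q (insert (Fin.last n) C) (Fin.last n) (mn (C.erase j)) *
            (prC Q).ev c (C.erase j) (insert (Fin.last n) C)) +
          (prC Q).rs (Finset.subset_insert (Fin.last n) C) ((prC Q).del s C)) :
    ∃ y ∈ (prC Q).Gr (a + 1) (d + 1), (prC Q).Dq y = g - (-1 : ℤ) ^ (b + 1) • g₁ := by
  obtain ⟨hg0, hgC⟩ := CovD.mem_Gr'.1 hg
  have hdg : (prC Q).del g = 0 := by rw [AkD_del hg, hd, smul_zero]
  have hdg₁ : (prC Q).del g₁ = 0 := by rw [AkD_del hg₁, hd₁, smul_zero]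
  have hds : (prC Q).del s ∈ (prC Q).Gr (a + 1) (d + 2) := by
    rw [AkD_del hs]
    exact zsmul_mem (CovD.Dq_mem hs) _
  -- the sets without `z`
  have hC : ∀ C : Finset (Fin (n + 1)), Fin.last n ∉ C → C.card = b + 2 →
      g C = (-1 : ℤ) ^ (b + 1) • g₁ C + (prC Q).del s C := by
    intro C hz hCc
    refine rs_injA h.gd (Finset.card_pos.1 (by omega)) hz ?_
    have e1 := AkD_step hdg₁ h1 hz (by omega)
    rw [h2 C hCc hz, map_add, map_zsmul]
    congr 1
    have e2 : ∑ j ∈ C, sg j C • (dl Q (insert (Fin.last n) C) (Fin.last n) (mn (C.erase j)) *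
            (prC Q).ev c (C.erase j) (insert (Fin.last n) C)) =
        -((-1 : ℤ) ^ C.card • (prC Q).rs (Finset.subset_insert (Fin.last n) C) (g₁ C)) := by
      rw [e1, neg_neg]
    rw [e2, hCc, ← neg_smul]
    congr 1
    rw [pow_succ (-1 : ℤ) (b + 1)]
    ring
  obtain ⟨u, hu⟩ : ∃ u, u = g - (-1 : ℤ) ^ (b + 1) • g₁ - (prC Q).del s := ⟨_, rfl⟩
  have huG : u ∈ (prC Q).Gr (a + 1) (d + 2) := by
    rw [hu]
    exact Submodule.sub_mem _ (Submodule.sub_mem _ hg (zsmul_mem hg₁ _)) hds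
  obtain ⟨-, huC⟩ := CovD.mem_Gr'.1 huG
  have huF : ∀ C, u C ∈ Fd K ((prC Q).R C) (a + 1) := by
    intro C
    by_cases h3 : a + 1 + C.card = d + 2 + 1
    · exact (huC C).1 h3
    · rw [(huC C).2 h3]
      exact Submodule.zero_mem _
  have hu0 : ∀ C : Finset (Fin (n + 1)), C.card ≠ b + 1 + 1 → u C = 0 := fun C h3 => (huC C).2 (by omega)
  have huz : ∀ C : Finset (Fin (n + 1)), Fin.last n ∉ C → u C = 0 := by
    intro C hz
    by_cases h3 : C.card = b + 2
    · rw [hu, Pi.sub_apply, Pi.sub_apply, hC C hz h3, Pi.smul_apply, add_sub_cancel_left, sub_self]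
    · exact hu0 C h3
  have hud : (prC Q).del u = 0 := by
    rw [hu, map_sub, map_sub, map_zsmul, hdg, hdg₁, CovD.del_del, smul_zero, sub_zero, sub_zero]
  obtain ⟨t, ht1, ht2, ht3, ht4⟩ := W1_exact h.aff.some huF hu0 huz hud
  have htG : t ∈ (prC Q).Gr (a + 1) (d + 1) :=
    CovD.mem_Gr'.2 ⟨ht3 ∅ (Finset.notMem_empty _), fun J => ⟨fun _ => ht1 J, fun h3 => ht2 J (by omega)⟩⟩
  have hst : s + t ∈ (prC Q).Gr (a + 1) (d + 1) := Submodule.add_mem _ hs htG
  refine ⟨(-1 : ℤ) ^ (a + 1) • (s + t), zsmul_mem hst _, ?_⟩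
  rw [map_zsmul, ← AkD_del hst, map_add, ht4, hu]
  abel

end MPadcHS
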