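import Pool.Agent.Lib.MP_adc574_ag_HS.AkA
import Pool.Agent.Lib.MP_adc574_ag_HS.AkD
import Pool.Agent.Lib.MP_adc574_ag_HS.NDeg
import Pool.Agent.Lib.MP_adc574_ag_HS.GyK

/-!
# JOB AkE (HS): the Gysin map `F^a H^d(X) → F^(a+1) H^(d+2)(Y)` is surjective

* `ak_step`: `y = cl w₀`, `w₀ ∈ Fi (a + 1) (d + 2)` a cocycle (`CovD.mem_Fil`), `b := d - a`. `g := pG (a + 1) (d + 2) w₀ ∈ Gr (a + 1) (d + 2)`, `Dq g = 0` (`pG_Dt`). `ak_conn h hab hg hd`: `c`, `s`. `η := push c ∈ Gr a d` (`push` respects the degrees: `rsx_mem`/`CovD.Hm.e_mem`), `Dq η = 0`. `lift_lead h.homP h.smP` (NDeg.lean): `c' ∈ Zc d`, `c' ∈ Fi a d`, `pG a d c' = η`.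
  `c' - η ∈ Fi (a + 1) d` (`sub_pG_mem`); `exists_lift_Tt h.gd.eq hle`: `e ∈ Fi (a + 1) d`, `push e = c' - η`. `c₁ := c + e ∈ Fi a d` (`Gr_le_Fi`, `Fi_anti`), `push c₁ = c'`, `pG a d c₁ = c` (`pG_self`, `pG_zero`). `exists_gyr h.gd hle` (GyI.lean): `w`, `GyR Q d c₁ w`, `w ∈ Fi (a + 1) (d + 2)`.
  `g₁ := pG (a + 1) (d + 2) w`; `h1` of `ak_cmp` for `g₁` and `c`: if `C.card = b + 1`: `pG_of` (both), `GyR.wl`; otherwise both sides are `0` (`pG_not`, `c C = 0` by `mem_Gr'`). `ak_cmp`: `y'' ∈ Gr (a + 1) (d + 1)`, `Dq y'' = g - ε • g₁`, `ε = (-1) ^ (b + 1)`.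
  `w₂ := w₀ - ε • w - Dt y'' ∈ Fi (a + 2) (d + 2)`: `sub_pG_mem` for `w₀ - ε • w ∈ Fi (a + 1) (d + 2)`, `Dt y'' = dc y'' + Dq y''`, `dc_Gr_mem`. `x := ε • cl c'`, `gys hle d x (ε • cl w)` (`GyR.smul` with `(ε : K)` or `exists_gy`: the Gysin map is linear), `y - ε • cl w = cl w₂ ∈ Fil (d + 2) (a + 2)`.
* `ak_gsurj`: induction on `d + 1 - a`. If `a ≥ d + 1`: a cocycle `w₀ ∈ Fi (a + 1) (d + 2)` is zero: `Fi_bot` if `d + 2 < a + 1`; if `a = d + 1`: only the components on the sets with one element survive, of degree `d + 2`, zero by `h.top`. So `y = 0`, `x = 0`. If `a ≤ d`: `ak_step`, the induction hypothesis for `a + 1` and `y - y'`, add (`exists_gy h.gd hle d` is linear; `Fil_anti`: `Fil d (a + 1) ≤ Fil d a`).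
-/

set_option autoImplicit false
set_option linter.unusedSectionVars false

namespace MPadcHS

open MvPolynomial MPadcGP MPadcDC

universe u

variable {K : Type u} [Field K] [CharZero K] {n : ℕ} {Q P : Ideal (MvPolynomial (Fin (n + 1)) K)} {hle : Q ≤ P}
  {d : ℕ}

private theorem AkE_Gr {a m : ℕ} {c : (prC Q).Ch} (hc : c ∈ (prC Q).Gr a m) :
    (rsH hle).push c ∈ (prC P).Gr a m := by
  obtain ⟨h0, h1⟩ := CovD.mem_Gr'.1 hc
  refine CovD.mem_Gr'.2 ⟨?_, fun J => ⟨fun hJ => ?_, fun hJ => ?_⟩⟩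
  · rw [CovD.Hm.push_apply, h0, map_zero]
  · exact CovD.Hm.e_mem ((h1 J).1 hJ)
  · rw [CovD.Hm.push_apply, (h1 J).2 hJ, map_zero]

private theorem AkE_Fil {X : CovD.{u, u} K (n + 1)} {m i : ℕ} : X.Fil m (i + 1) ≤ X.Fil m i := by
  intro x hx
  obtain ⟨c, hc, rfl⟩ := CovD.mem_Fil.1 hx
  exact CovD.mem_Fil.2 ⟨c, CovD.Fi_anti (Nat.le_succ i) m hc, rfl⟩

theorem ak_step (h : AkH hle d) {a : ℕ} (ha : a ≤ d) {y : (prC Q).HdR (d + 2)} (hy : y ∈ (prC Q).Fil (d + 2) (a + 1)) :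
    ∃ x ∈ (prC P).Fil d a, ∃ y', gys hle d x y' ∧ y - y' ∈ (prC Q).Fil (d + 2) (a + 2) := by
  obtain ⟨w₀, hw₀, rfl⟩ := CovD.mem_Fil.1 hy
  obtain ⟨b, hab⟩ : ∃ b, a + b = d := ⟨d - a, by omega⟩
  have hw₀z : (prC Q).Dt (w₀ : (prC Q).Ch) = 0 := (CovD.mem_Zc.1 w₀.2).2
  have hg := CovD.pG_mem hw₀
  have hd : (prC Q).Dq ((prC Q).pG (a + 1) (d + 2) (w₀ : (prC Q).Ch)) = 0 := by
    rw [← CovD.pG_Dt hw₀, hw₀z, map_zero]
  obtain ⟨c, s, hc, hs, -, hD, hE⟩ := ak_conn h hab hg hd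
  have hη := AkE_Gr (hle := hle) hc
  obtain ⟨c', hc'z, hc'F, hc'p⟩ := lift_lead h.homP h.smP hη hD
  have h1 : c' - (rsH hle).push c ∈ (prC P).Fi (a + 1) d := by
    have h2 := CovD.sub_pG_mem hc'F
    rwa [hc'p] at h2
  obtain ⟨e, -, hpe, heF⟩ := exists_lift_Tt h.gd.eq hle h1.1
  have he := heF (a + 1) h1
  have hpc : (rsH hle).push (c + e) = c' := by rw [map_add, hpe, add_sub_cancel]
  have hcF := CovD.Gr_le_Fi a d hc
  have hc₁F : c + e ∈ (prC Q).Fi a d := Submodule.add_mem _ hcF (CovD.Fi_anti (Nat.le_succ a) d he)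
  obtain ⟨w, hw, hwF, -⟩ := exists_gyr h.gd hle hc₁F.1 (by rw [hpc]; exact hc'z)
  have hwF' := hwF a hc₁F
  have hwz : (prC Q).Dt w = 0 := (CovD.mem_Zc.1 hw.wz).2
  have hg₁ := CovD.pG_mem hwF'
  have hd₁ : (prC Q).Dq ((prC Q).pG (a + 1) (d + 2) w) = 0 := by
    rw [← CovD.pG_Dt hwF', hwz, map_zero]
  obtain ⟨y₂, hy₂, hDy₂⟩ := ak_cmp h hab hg hd hg₁ hd₁ hs (fun C hC hz => by
    have hcard : (insert (Fin.last n) C).card = C.card + 1 := Finset.card_insert_of_notMem hz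
    by_cases hb : C.card = b + 1
    · rw [CovD.pG_of w (Finset.insert_nonempty _ _).ne_empty (by omega), hw.wl C hC hz, Pi.add_apply,
        he.2 C (by omega), add_zero]
    · rw [CovD.pG_not w (Or.inr (by omega)), ((CovD.mem_Gr'.1 hc).2 C).2 (by omega), map_zero, mul_zero]) hE
  obtain ⟨G, hG⟩ := exists_gy h.gd hle d
  obtain ⟨ε, hε⟩ : ∃ ε : K, ε = (-1) ^ (b + 1) := ⟨_, rfl⟩
  have hεs : ∀ v : (prC Q).Ch, (-1 : ℤ) ^ (b + 1) • v = ε • v := by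
    intro v
    rw [hε, ← Int.cast_smul_eq_zsmul K ((-1 : ℤ) ^ (b + 1)) v]
    push_cast
    rfl
  have hgw : gys hle d ((prC P).cl d ⟨c', hc'z⟩) ((prC Q).cl (d + 2) ⟨w, hw.wz⟩) :=
    ⟨c + e, w, hw, by rw [hpc]; exact hc'z, congrArg _ (Subtype.ext hpc), rfl⟩
  refine ⟨ε • (prC P).cl d ⟨c', hc'z⟩, Submodule.smul_mem _ _ (CovD.mem_Fil.2 ⟨⟨c', hc'z⟩, hc'F, rfl⟩),
    ε • (prC Q).cl (d + 2) ⟨w, hw.wz⟩, ?_, ?_⟩
  · rw [hG, map_smul, (hG _ _).1 hgw]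
  · have h3 : (w₀ : (prC Q).Ch) - ε • w - (prC Q).Dt y₂ ∈ (prC Q).Fi (a + 2) (d + 2) := by
      have h4 : (w₀ : (prC Q).Ch) - ε • w - (prC Q).Dt y₂ =
          ((w₀ : (prC Q).Ch) - (prC Q).pG (a + 1) (d + 2) (w₀ : (prC Q).Ch)) -
          ε • (w - (prC Q).pG (a + 1) (d + 2) w) - (prC Q).dc y₂ := by
        rw [CovD.Dt_eq, hDy₂, hεs, smul_sub]
        abel
      rw [h4]
      exact Submodule.sub_mem _ (Submodule.sub_mem _ (CovD.sub_pG_mem hw₀)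
        (Submodule.smul_mem _ _ (CovD.sub_pG_mem hwF'))) (CovD.dc_Gr_mem hy₂)
    have hyT := (CovD.Gr_le_Fi (a + 1) (d + 1) hy₂).1
    have h5 : (w₀ : (prC Q).Ch) - ε • w - (prC Q).Dt y₂ ∈ (prC Q).Zc (d + 2) :=
      Submodule.sub_mem _ (Submodule.sub_mem _ w₀.2 (Submodule.smul_mem _ _ hw.wz))
        (CovD.mem_Zc.2 ⟨CovD.Dt_mem hyT, CovD.Dt_Dt y₂⟩)
    refine CovD.mem_Fil.2 ⟨⟨_, h5⟩, h3, ?_⟩
    rw [← map_smul, ← map_sub]
    refine CovD.cl_eq.2 ?_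
    have h6 : (w₀ : (prC Q).Ch) - ε • w - (prC Q).Dt y₂ - ((w₀ : (prC Q).Ch) - ε • w) = (prC Q).Dt (-y₂) := by
      rw [map_neg]
      abel
    change (w₀ : (prC Q).Ch) - ε • w - (prC Q).Dt y₂ - ((w₀ : (prC Q).Ch) - ε • w) ∈ (prC Q).Bc (d + 2)
    rw [h6]
    exact CovD.Dt_mem_Bc (Submodule.neg_mem _ hyT)

theorem ak_gsurj (h : AkH hle d) (a : ℕ) (y : (prC Q).HdR (d + 2)) (hy : y ∈ (prC Q).Fil (d + 2) (a + 1)) :
    ∃ x ∈ (prC P).Fil d a, gys hle d x y := by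
  obtain ⟨G, hG⟩ := exists_gy h.gd hle d
  obtain ⟨t, ht⟩ : ∃ t, t = d + 1 - a := ⟨_, rfl⟩
  induction t generalizing a y with
  | zero =>
    obtain ⟨w₀, hw₀, rfl⟩ := CovD.mem_Fil.1 hy
    have h1 : (w₀ : (prC Q).Ch) = 0 := by
      funext J
      by_cases hJ : d + 2 + 1 < J.card + (a + 1)
      · exact hw₀.2 J hJ
      · rcases J.eq_empty_or_nonempty with hJe | hJe
        · rw [hJe]
          exact hw₀.1.1
        · have hJ1 : J.card = 1 := by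
            have := hJe.card_pos
            omega
          exact h.top J hJe (d + 2) (by omega) _ ((hw₀.1.2 J).1 (d + 2) (by omega))
    refine ⟨0, Submodule.zero_mem _, ?_⟩
    rw [hG, map_zero]
    have h2 : w₀ = 0 := Subtype.ext h1
    rw [h2, map_zero]
  | succ t ih =>
    obtain ⟨x₁, hx₁, y', hg, hy'⟩ := ak_step h (a := a) (by omega) hy
    obtain ⟨x₂, hx₂, hg₂⟩ := ih (a + 1) (y - y') hy' (by omega)
    refine ⟨x₁ + x₂, Submodule.add_mem _ hx₁ (AkE_Fil hx₂), ?_⟩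
    rw [hG, map_add, (hG _ _).1 hg, (hG _ _).1 hg₂, add_sub_cancel]

end MPadcHS
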