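import Pool.Agent.Lib.MP_adc574_ag_HS.V2F

/-!
# JOB AkG (HS): the Gysin map `H^j(X) → H^(j+2)(Y)` is injective for `j > d` and surjective for `j = d`

`hX : (dzQ hle).Ok` (V2E.lean), `top`: the forms of degree `> d + 1` on the chart `{z}` are zero, `z = Fin.last n`.
* `ak_gsurj0`: `y = cl w₀`, `w₀ ∈ Zc (d + 2)` (`CovD.cl_surjective` / `Submodule.mkQ_surjective`). `w₀ {z} ∈ Fd (d + 2)` (`mem_Tt`, `{z}.card = 1`), so `w₀ {z} = 0` by `top`. `gyr_sur hX` (V2F.lean): `c`, `w`, `v`, `GyR Q d c w`, `push c ∈ Zc d`, `v ∈ Tt (d + 1)`, `w = w₀ + Dt v`. So `cl w = y` (`CovD.cl_eq`; `Dt v ∈ Bc (d + 2)`), `x := cl (push c)`.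
* `ak_ginj`: `j = m + 1`. `x = cl (push c)`, `GyR Q (m + 1) c w`, `cl w = 0`, so `w ∈ Bc (m + 3)`, `w = Dt v`, `v ∈ Tt (m + 2)`. `v {z} ∈ Fd (m + 2)`, `m + 2 > d + 1`, so `v {z} = 0`. `gyr_ex hX`: `push c ∈ Bc (m + 1)`, so `x = 0`.
-/

set_option autoImplicit false
set_option linter.unusedSectionVars false

namespace MPadcHS

open MvPolynomial MPadcGP MPadcDC

universe u

variable {K : Type u} [Field K] [CharZero K] {n : ℕ} {Q P : Ideal (MvPolynomial (Fin (n + 1)) K)} {hle : Q ≤ P}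
  {d : ℕ}

theorem ak_gsurj0 (hX : (dzQ hle).Ok) (top : ∀ q, d + 1 < q → ∀ w ∈ Fd K (chart Q {Fin.last n}) q, w = 0)
    (y : (prC Q).HdR (d + 2)) : ∃ x : (prC P).HdR d, gys hle d x y := by
  obtain ⟨⟨w₀, hw₀⟩, rfl⟩ := CovD.cl_surjective (X := prC Q) (d + 2) y
  have hz : w₀ {Fin.last n} = 0 := by
    refine top (d + 2) (by omega) _ ((hw₀.1.2 {Fin.last n}).1 (d + 2) ?_)
    rw [Finset.card_singleton]
  obtain ⟨c, w, v, h, hc, hv, hvz, hw⟩ := gyr_sur hX hw₀ hz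
  refine ⟨(prC P).cl d ⟨_, hc⟩, c, w, h, hc, rfl, ?_⟩
  rw [CovD.cl_eq]
  show w - w₀ ∈ (prC Q).Bc (d + 2)
  rw [hw, add_sub_cancel_left]
  exact ⟨v, hv, rfl⟩

theorem ak_ginj (hX : (dzQ hle).Ok) (top : ∀ q, d + 1 < q → ∀ w ∈ Fd K (chart Q {Fin.last n}) q, w = 0) (j : ℕ)
    (hj : d < j) (x : (prC P).HdR j) (hx : gys hle j x 0) : x = 0 := by
  obtain ⟨m, rfl⟩ : ∃ m, j = m + 1 := ⟨j - 1, by omega⟩
  obtain ⟨c, w, h, hc, rfl, hw⟩ := hx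
  rw [CovD.cl_eq_zero] at hw ⊢
  obtain ⟨v, hv, hvw⟩ := hw
  have hz : v {Fin.last n} = 0 := by
    refine top (m + 2) (by omega) _ ((hv.2 {Fin.last n}).1 (m + 2) ?_)
    rw [Finset.card_singleton]
  exact gyr_ex hX h hv hz hvw

end MPadcHS
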