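import Pool.Agent.Lib.MP_adc574_ag_HS.NAkn

/-!
# JOB NHyp (HS): the vanishing theorem for the kernel of the restriction to the generic hyperplane section

`Q := cyc (bI (algebraMap κ K) J) (frm (ak κ n 1 K)) 1`, `z = Fin.last n`, `F := X z` (homogeneous of degree `1`: `isHomogeneous_X`). `good_Q hJ : Good Q (m + 1)`. `hyp_good hJ` (TSg.lean): `P'` with `IsSec Q (X z) P'` and `Good P' m`; `akn_neg`, `akn_pos` (NAkn.lean) for `Q` and for `P'`, and `acy_sat` (NDesc.lean) carries them from `P'` to `P`.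
`dv_hyp hJ le_rfl ak_indep : Dv Q (X z)`.
* `hyp_ker0`: `a = 0`: `acy_II_zero` with `t = 0`, `e = 1` and `akn_neg` for `Q` (`0 + b < m + 1`). `a = a' + 1`: `acy_II_mid` with `t = 0`, `e = 1` (`0 - 1 = -1`): `(cT Q (-1) (a' + 1)).Acy b` (`akn_neg`), `(cT P (-1) a').Acy b` (`a' + b < m`).
* `hyp_ker1`: `acy_I_left` with `t = 1`: `(cT Q 1 (a + 1)).Acy (b + 1)`: `akn_pos`, `m + 1 < a + 1 + (b + 1)`; `(cT P 1 (a + 1)).Acy b'` for `b + 1 = b' + 1`: `akn_pos` for `P'`, `m < a + 1 + b`.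
-/

set_option autoImplicit false
set_option linter.unusedSectionVars false

namespace MPadcHS

open MvPolynomial MPadcGP MPadcDC

universe u

variable {κ : Type u} [Field κ] [CharZero κ] {n : ℕ} {J : Ideal (MvPolynomial (Fin n) κ)} {K : Type u} [Field K]
  [Algebra κ K] [Algebra (Ra κ n 1) K] [IsScalarTower κ (Ra κ n 1) K] [IsFractionRing (Ra κ n 1) K]

theorem hyp_ker0 {m : ℕ} (hJ : Good J (m + 1)) {P : Ideal (MvPolynomial (Fin (n + 1)) K)}
    (hs : IsSec (cyc (bI (algebraMap κ K) J) (frm (ak κ n 1 K)) 1) (X (Fin.last n)) P) {a b : ℕ} (hab : a + b ≤ m) :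
    (kT hs.le 0 a).Acy b := by
  have : CharZero K := charZero_of_injective_algebraMap (algebraMap κ K).injective
  have hQ := good_Q (K := K) hJ
  obtain ⟨P', hs', hg'⟩ := hyp_good (K := K) hJ
  have hF : (X (Fin.last n) : MvPolynomial (Fin (n + 1)) K).IsHomogeneous 1 := isHomogeneous_X K _
  have hD := dv_hyp (K := K) hJ (e := 1) le_rfl (ak_indep (κ := κ) (n := n) (e := 1) (K := K))
  have e1 : (0 : ℤ) - ((1 : ℕ) : ℤ) = -1 := by norm_num
  rcases a with _ | a
  · refine (acy_II_zero hQ.homog hQ.smooth hF hs hD 0 b).2 ?_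
    rw [e1]
    exact akn_neg hQ (by omega)
  · refine acy_II_mid hQ.homog hQ.smooth hF hs hD 0 a b ?_ ?_
    · rw [e1]
      exact akn_neg hQ (by omega)
    · rw [e1]
      exact acy_sat hQ.homog hF hs' hs (-1) a b (akn_neg hg' (by omega))

theorem hyp_ker1 {m : ℕ} (hJ : Good J (m + 1)) {P : Ideal (MvPolynomial (Fin (n + 1)) K)}
    (hs : IsSec (cyc (bI (algebraMap κ K) J) (frm (ak κ n 1 K)) 1) (X (Fin.last n)) P) {a b : ℕ} (hab : a + b = m) :
    (kT hs.le 1 (a + 1)).Acy (b + 1) := by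
  have : CharZero K := charZero_of_injective_algebraMap (algebraMap κ K).injective
  have hQ := good_Q (K := K) hJ
  obtain ⟨P', hs', hg'⟩ := hyp_good (K := K) hJ
  have hF : (X (Fin.last n) : MvPolynomial (Fin (n + 1)) K).IsHomogeneous 1 := isHomogeneous_X K _
  refine acy_I_left hs.le 1 (a + 1) (b + 1) (akn_pos hQ (by omega) (by omega)) ?_
  intro b' hb'
  obtain rfl : b' = b := by omega
  exact acy_sat hQ.homog hF hs' hs 1 (a + 1) b' (akn_pos hg' (by omega) (by omega))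

end MPadcHS
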