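import Pool.Agent.Lib.MP_adc574_ag_HS.AkDefs
import Pool.Agent.Lib.MP_adc574_ag_HS.GyA
import Pool.Agent.Lib.MP_adc574_ag_HS.NHyp

/-!
# JOB AkH (HS): the generic hyperplane section satisfies the hypotheses

`I := bI (algebraMap κ K) J`, `F := frm (ak κ n 1 K)`, `Q := cyc I F 1`, `P = hyp Q`, `hs : IsSec Q (X z) P` from `isSec_sup` (`hP`; `hyp Q = Q ⊔ span {X z}`). `gd`: `hP`, `(cyc_smooth hJ le_rfl ak_indep).1`, `.2`, `zeta_nzd hJ le_rfl ak_indep hC hj`. `homP`: `isHomog_hyp` (GyA) or `sup_homog` (TSec). `smP`: `smooth_sec` (TSmr) with `dv_hyp hJ le_rfl ak_indep`, `isHomogeneous_X`.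
`dv`: `dv_hyp`. `aff`: `⟨W1aff (hJ.homog.map _) (frm_hom _)⟩` (DC/W1E, `e = 1`). `top`: `cyc_top hJ le_rfl ak_indep` (DC/GCT). `ker0`: `hyp_ker0 hJ hs`, `ker1`: `hyp_ker1 hJ hs` (NHyp.lean).
-/

set_option autoImplicit false
set_option linter.unusedSectionVars false

namespace MPadcHS

open MvPolynomial MPadcGP MPadcDC

universe u

variable {κ : Type u} [Field κ] [CharZero κ] {n : ℕ} {J : Ideal (MvPolynomial (Fin n) κ)} {K : Type u} [Field K]
  [Algebra κ K] [Algebra (Ra κ n 1) K] [IsScalarTower κ (Ra κ n 1) K] [IsFractionRing (Ra κ n 1) K]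

theorem akH_of {d : ℕ} (hJ : Good J (d + 1)) {P : Ideal (MvPolynomial (Fin (n + 1)) K)}
    (hle : cyc (bI (algebraMap κ K) J) (frm (ak κ n 1 K)) 1 ≤ P)
    (hP : P = hyp (cyc (bI (algebraMap κ K) J) (frm (ak κ n 1 K)) 1)) : AkH hle d := by
  have hs : IsSec (cyc (bI (algebraMap κ K) J) (frm (ak κ n 1 K)) 1) (X (Fin.last n)) P := by
    rw [hP]
    exact isSec_sup _ _
  have hc := cyc_smooth (K := K) hJ le_rfl (ak_indep (κ := κ) (n := n) (e := 1) (K := K))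
  have hd := dv_hyp (K := K) hJ le_rfl (ak_indep (κ := κ) (n := n) (e := 1) (K := K))
  exact ⟨⟨hP, hc.1, hc.2, fun C j hj hC => zeta_nzd hJ le_rfl ak_indep hC hj⟩,
    by rw [hP]; exact isHomog_hyp hc.1,
    smooth_sec hc.1 hc.2 (isHomogeneous_X K (Fin.last n)) hs hd, hd,
    ⟨W1aff (hJ.homog.map _) (frm_hom _)⟩,
    fun C hC q hq w hw => cyc_top hJ le_rfl ak_indep hC hq hw,
    fun a b hab => hyp_ker0 hJ hs hab, fun a b hab => hyp_ker1 hJ hs hab⟩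

end MPadcHS
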