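import Pool.Agent.Lib.MP_adc574_ag_DC.PDefs
import Pool.Agent.Lib.MP_adc574_ag_GP.Parts3

/-!
# HS (hyperplane sections): the definitions shared by all blocks

`Q` is a homogeneous ideal in `n + 1` variables, `z` the last one, `Y = Proj Q`, `X = Y ∩ {z = 0}` with the ideal
`P = hyp Q = Q + (z)`. (`P` is a separate variable, `hle : Q ≤ P`; the theorems assume `P = hyp Q`. So base change is `bI φ Q`, `bI φ P`.)
For a hyperplane section `F = 0` of the scheme with the ideal `J` in `n` variables: `Q = cyc J F 1 = (J, z - F)`.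

* `dlg Q C l j = dlog (x_l / x_j)` on `U_C`.
* `GyR Q m c w`: `c` is a cochain of degree `m` of `Y`, `w` a cocycle of degree `m + 2` of `Y`, whose components on the sets
  containing `z` are `w_{z} = 0`, `w_{C ∪ z} = dlog (z / x_{min C}) ∧ c_C`. (So `(w_C)`, `z ∉ C`, is `D (dlog z ∧ c)` up to signs.)
* `gys hle m x y`: the Gysin map `H^m(X) → H^(m+2)(Y)` (`y` is the image of `x`): the class of the cocycle `c|X` goes to the class of `w`.
* `resR hle m y x`: `x` is the restriction of `y`.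
* `Vg hle m`: the kernel of the Gysin map; `Tr hle m`: the image of the restriction.
* `Akn hle d`: the consequences of the vanishing theorem, `d = dim X`.
* `KeyPosH J d`: the position theorem for `V / (V ∩ T)`, `V = Vg hle d`, `T = Tr hle d`, for the generic hyperplane section.
-/

set_option autoImplicit false

namespace MPadcHS

open MvPolynomial MPadcGP MPadcDC

universe u v w

section

variable {A : Type u} [CommRing A]

/-- `dlog (x_l / x_j)` on `U_C`. -/
noncomputable def dlg {N : ℕ} (I : Ideal (MvPolynomial (Fin N) A)) (C : Finset (Fin N)) (l j : Fin N) (hl : l ∈ C)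
    (hj : j ∈ C) : (prC I).E C :=
  (fz A (cq I C j hl) * df A (cq I C l hj) : Fm A (chart I C))

variable {n : ℕ} (Q : Ideal (MvPolynomial (Fin (n + 1)) A))

/-- The ideal of the hyperplane section `z = 0`. -/
noncomputable def hyp : Ideal (MvPolynomial (Fin (n + 1)) A) := Q ⊔ Ideal.span {X (Fin.last n)}

theorem le_hyp : Q ≤ hyp Q := le_sup_left

/-- `w` is a Gysin cocycle for the cochain `c`. -/
structure GyR (m : ℕ) (c w : (prC Q).Ch) : Prop where
  cm : c ∈ (prC Q).Tt m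
  wz : w ∈ (prC Q).Zc (m + 2)
  w0 : w {Fin.last n} = 0
  wl : ∀ (C : Finset (Fin (n + 1))) (hC : C.Nonempty), Fin.last n ∉ C →
    w (insert (Fin.last n) C) = dlg Q (insert (Fin.last n) C) (Fin.last n) (C.min' hC) (Finset.mem_insert_self _ _)
      (Finset.mem_insert_of_mem (C.min'_mem hC)) * (prC Q).rs (Finset.subset_insert (Fin.last n) C) (c C)

variable {Q} {P : Ideal (MvPolynomial (Fin (n + 1)) A)} (hle : Q ≤ P)

/-- `y` is the image of `x` by the Gysin map `H^m(X) → H^(m+2)(Y)`. -/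
def gys (m : ℕ) (x : (prC P).HdR m) (y : (prC Q).HdR (m + 2)) : Prop :=
  ∃ (c w : (prC Q).Ch) (h : GyR Q m c w) (hc : (rsH hle).push c ∈ (prC P).Zc m),
    (prC P).cl m ⟨_, hc⟩ = x ∧ (prC Q).cl (m + 2) ⟨w, h.wz⟩ = y

/-- `x` is the restriction of `y`. -/
def resR (m : ℕ) (y : (prC Q).HdR m) (x : (prC P).HdR m) : Prop :=
  ∃ (c : ↥((prC Q).Zc m)) (c' : ↥((prC P).Zc m)), (c' : (prC P).Ch) = (rsH hle).push (c : (prC Q).Ch) ∧
    (prC Q).cl m c = y ∧ (prC P).cl m c' = x

/-- The kernel of the Gysin map. -/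
def Vg (m : ℕ) : Set ((prC P).HdR m) := {x | gys hle m x 0}

/-- The image of the restriction. -/
def Tr (m : ℕ) : Set ((prC P).HdR m) := {x | ∃ y, resR hle m y x}

end

/-- The consequences of the vanishing theorem. -/
structure Akn {K : Type u} [Field K] {n : ℕ} {Q P : Ideal (MvPolynomial (Fin (n + 1)) K)} (hle : Q ≤ P) (d : ℕ) :
    Prop where
  /-- `Gr_F^a H^d(Y) → Gr_F^a H^d(X)` is injective. -/
  rinj : ∀ (a : ℕ) (y : (prC Q).HdR d) (x : (prC P).HdR d), resR hle d y x → y ∈ (prC Q).Fil d a →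
    x ∈ (prC P).Fil d (a + 1) → y ∈ (prC Q).Fil d (a + 1)
  /-- `F^a H^d(X) → F^(a+1) H^(d+2)(Y)` is surjective. -/
  gsurj : ∀ (a : ℕ) (y : (prC Q).HdR (d + 2)), y ∈ (prC Q).Fil (d + 2) (a + 1) →
    ∃ x ∈ (prC P).Fil d a, gys hle d x y
  /-- `H^d(X) → H^(d+2)(Y)` is surjective. -/
  gsurj0 : ∀ y : (prC Q).HdR (d + 2), ∃ x : (prC P).HdR d, gys hle d x y
  /-- `H^j(Y) → H^j(X)` is surjective for `j < d`. -/
  rsurj : ∀ j, j < d → ∀ x : (prC P).HdR j, ∃ y, resR hle j y x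
  /-- `H^j(X) → H^(j+2)(Y)` is injective for `j > d`. -/
  ginj : ∀ j, d < j → ∀ x : (prC P).HdR j, gys hle j x 0 → x = 0

/-- The position theorem for the generic hyperplane section of the scheme with the ideal `J` over `κ`. -/
def KeyPosH {κ : Type u} [Field κ] {n : ℕ} (J : Ideal (MvPolynomial (Fin n) κ)) (d : ℕ) : Prop :=
  ∀ (K : Type u) [Field K] [Algebra (Ra κ n 1) K] [IsFractionRing (Ra κ n 1) K] (DK : Mon n 1 → Derivation ℤ K K),
    (∀ γ P, DK γ (algebraMap (Ra κ n 1) K P) = algebraMap (Ra κ n 1) K (pderiv γ P)) →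
    ∀ (Q P : Ideal (MvPolynomial (Fin (n + 1)) K)) (hle : Q ≤ P), Q = bI (algebraMap (Ra κ n 1) K) (cycG J 1) →
      P = hyp Q →
    ∃ V T : Submodule K ((prC P).HdR d), (∀ x, x ∈ V ↔ x ∈ Vg hle d) ∧ (∀ x, x ∈ T ↔ x ∈ Tr hle d) ∧
      (∀ γ x y, x ∈ V → (prC P).gaussManin d (DK γ) x y → y ∈ V) ∧
      (∀ γ x y, x ∈ T → (prC P).gaussManin d (DK γ) x y → y ∈ T) ∧
    ∀ (L : Type u) [Field L] [Algebra K L], (∀ x : L, IsAlgebraic K x → x ∈ (algebraMap K L).range) →
    ∀ (DL : Mon n 1 → Derivation ℤ L L), (∀ γ x, DL γ (algebraMap K L x) = algebraMap K L (DK γ x)) →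
    ∀ (g : Type) [Fintype g] [DecidableEq g] (c : g → (↥V →ₗ[K] L)),
      (∀ v (x : ↥V), (x : (prC P).HdR d) ∈ T → c v x = 0) →
      (∀ lam : g → L, (∀ x, ∑ v, lam v * c v x = 0) → lam = 0) →
      ∀ (ν : Mon n 1 → Matrix g g L),
        (∀ (γ : Mon n 1) (v : g) (x y : ↥V), (prC P).gaussManin d (DK γ) x y →
            DL γ (c v x) = c v y + ∑ v', ν γ v v' * c v' x) →
        ∀ f : g → ↥V, (∀ lam : g → K, ((∑ v, lam v • f v : ↥V) : (prC P).HdR d) ∈ T → lam = 0) →
          (Matrix.of fun v u => c v (f u)).det ≠ 0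

end MPadcHS
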