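import Pool.Agent.Lib.MP_adc574_ag_GP.DatA

/-!
# JOB F5a (HS): the twisted Čech complex is exact if the twisted de Rham complexes of the rings are

`X : CovD K n`, `th C ∈ X.E C` closed forms of degree `1`, compatible with the restrictions. `thC th c C = th C * c C`, `Nt = Dt + th`.
* `thC_mem`: `fd_mul`, degrees. `Nt_mem`.
* `Nt_Nt`: `Dt (Dt c) = 0`; `Dt (thC c) = dc (thC c) + del (ic (thC c))`; `dc (thC c) C = dd (th C * c C) = dd (th C) * c C + inv (th C) * dd (c C) = - th C * dd (c C)` (`dd_mul`, `inv` of a form of degree one is its negative: `inv_mem`); `ic (thC c) = - thC (ic c)`; `del (thC c) = thC (del c)` (`rs` is multiplicative and maps `th C` to `th C'`; `ev` with `C.erase j ⊆ C`). So `Dt (thC c) = - thC (Dt c)`; `th C * th C = 0` (`hsq`).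
* `solve`: Let `ŵ C := w C` if `C.card = 1`, else `0`. `ŵ ∈ Tt (m + 1)`. `Nt ŵ = 0`: at `C` with one element: `dd (w C) + th C * w C = 0` (`hcl`); the `del` term is `0` (`C.erase j = ∅`, `ŵ ∅ = 0`). At `C = {i, j}`, `i < j`: `∑_{l ∈ C} sg l C • rs (inv (w (C.erase l)))`, both restrictions are `inv (w C)` (`hrs` with `C.erase l` nonempty, `rs_inv`), `sg i C + sg j C = 0`. Otherwise `0`.
  Claim by induction on `r`: there is `v ∈ Tt m` with `(ŵ - Nt v) C = 0` for all `C` with `C.card ≤ r`. `r = 0`: `v = 0`. Step: `y := ŵ - Nt v ∈ Tt (m + 1)`, `Nt y = 0`; for `C` with `r + 1` elements `(Nt y) C = dd (y C) + th C * y C + (terms with y (C.erase j) = 0) = 0`. If `r = 0` then `y C = w C - (Nt v) C`, and `v = 0` may be assumed for `r = 0` (start the induction with `r = 1`: `z C` from `hex1`).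
  If `r ≥ 1`: `y C ∈ Fd (m + 1 - r)` if `r ≤ m + 1`, `hex` with `q = m + 1 - r ≤ m` gives `z C` with `dd (z C) + th C * z C = y C`, `z C ∈ Fd (m - r)` (or `z C = 0` if `r = m + 1`; if `r > m + 1` then `y C = 0`, `z C = 0`). `z` is supported on the sets with `r + 1` elements, `z ∈ Tt m`. `v + z` works. At the end `r = n`.
-/

set_option autoImplicit false
set_option linter.unusedSectionVars false

namespace MPadcHS

open MPadcGP

universe u

section

variable {K : Type u} [Field K] {n : ℕ} {X : CovD.{u, u} K n}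

/-- Multiplication with the forms `th C`. -/
noncomputable def thC (th : ∀ C, X.E C) : X.Ch →ₗ[K] X.Ch where
  toFun c C := th C * c C
  map_add' a b := by
    funext C
    exact mul_add _ _ _
  map_smul' a b := by
    funext C
    exact mul_smul_comm a (th C) (b C)

theorem thC_apply (th : ∀ C, X.E C) (c : X.Ch) (C : Finset (Fin n)) : thC th c C = th C * c C := rfl

variable {th : ∀ C, X.E C} (h1 : ∀ C, th C ∈ Fd K (X.R C) 1) (hd : ∀ C, dd K (th C) = 0)
  (hrs : ∀ {C C' : Finset (Fin n)} (h : C ⊆ C'), X.rs h (th C) = th C')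
  (hsq : ∀ C, th C * th C = 0)

include h1 in
theorem thC_mem {m : ℕ} {c : X.Ch} (hc : c ∈ X.Tt m) : thC th c ∈ X.Tt (m + 1) := by
  refine ⟨by rw [thC_apply, hc.1, mul_zero], fun J => ⟨fun q hq => ?_, fun h => ?_⟩⟩
  · rw [thC_apply]
    cases q with
    | zero => rw [(hc.2 J).2 (by omega), mul_zero]; exact Submodule.zero_mem _
    | succ q =>
      have h := fd_mul (h1 J) ((hc.2 J).1 q (by omega))
      rwa [add_comm 1 q] at h
  · rw [thC_apply, (hc.2 J).2 (by omega), mul_zero]

include h1 in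
private theorem F5a_inv (C : Finset (Fin n)) : inv K (th C) = -th C := by
  rw [inv_mem (h1 C), pow_one, neg_one_mul]

include hrs in
private theorem F5a_ev (c : X.Ch) {C D : Finset (Fin n)} (h : C ⊆ D) :
    X.ev (thC th c) C D = th D * X.ev c C D := by
  rw [CovD.ev_of h, CovD.ev_of h, thC_apply, map_mul, hrs h]

/-- The twisted differential at `C`. -/
private theorem F5a_at (th : ∀ C, X.E C) (c : X.Ch) (C : Finset (Fin n)) :
    (X.Dt c + thC th c) C = dd K (c C) +
      ∑ j ∈ C, sg j C • X.ev (X.ic c) (C.erase j) C + th C * c C := by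
  rw [Pi.add_apply, CovD.Dt_apply, Pi.add_apply, CovD.dc_apply, CovD.del_apply, thC_apply]

/-- The sum is zero if the components vanish. -/
private theorem F5a_sum (c : X.Ch) (C : Finset (Fin n)) (h : ∀ j ∈ C, c (C.erase j) = 0) :
    ∑ j ∈ C, sg j C • X.ev (X.ic c) (C.erase j) C = 0 := by
  refine Finset.sum_eq_zero fun j hj => ?_
  rw [CovD.ev_ic, CovD.ev_eq_zero (h j hj), map_zero, smul_zero]

include h1 hd hrs in
theorem Dt_thC (c : X.Ch) : X.Dt (thC th c) = -thC th (X.Dt c) := by
  funext C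
  rw [Pi.neg_apply, thC_apply, CovD.Dt_apply, CovD.Dt_apply, Pi.add_apply, Pi.add_apply,
    CovD.dc_apply, CovD.dc_apply, CovD.del_apply, CovD.del_apply, thC_apply, dd_mul, hd, zero_mul,
    zero_add, F5a_inv h1, mul_add, neg_add, neg_mul, Finset.mul_sum, ← Finset.sum_neg_distrib]
  refine congrArg _ (Finset.sum_congr rfl fun j _ => ?_)
  rw [CovD.ev_ic, CovD.ev_ic, F5a_ev hrs c (Finset.erase_subset _ _), map_mul, F5a_inv h1, neg_mul,
    smul_neg, mul_smul_comm]

include h1 hd hrs hsq in
theorem Nt_Nt (c : X.Ch) : X.Dt (X.Dt c + thC th c) + thC th (X.Dt c + thC th c) = 0 := by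
  have h : thC th (thC th c) = 0 := by
    funext C
    rw [thC_apply, thC_apply, ← mul_assoc, hsq, zero_mul]
    rfl
  rw [map_add, map_add, CovD.Dt_Dt, Dt_thC h1 hd hrs, h, zero_add, add_zero, neg_add_cancel]

/-- The first cochain. -/
private noncomputable def F5aw (w : ∀ C, X.E C) : X.Ch := fun C => if C.card = 1 then w C else 0

private theorem F5aw_one {w : ∀ C, X.E C} {C : Finset (Fin n)} (h : C.card = 1) :
    F5aw w C = w C := if_pos h

private theorem F5aw_ne {w : ∀ C, X.E C} {C : Finset (Fin n)} (h : C.card ≠ 1) :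
    F5aw w C = 0 := if_neg h

private theorem F5aw_mem {m : ℕ} {w : ∀ C, X.E C} (hw : ∀ C, w C ∈ Fd K (X.R C) (m + 1)) :
    F5aw w ∈ X.Tt (m + 1) := by
  refine ⟨F5aw_ne (by rw [Finset.card_empty]; omega), fun J => ⟨fun q hq => ?_, fun h => ?_⟩⟩
  · rcases eq_or_ne J.card 1 with h | h
    · rw [F5aw_one h]
      have h2 : q = m + 1 := by omega
      rw [h2]
      exact hw J
    · rw [F5aw_ne h]
      exact Submodule.zero_mem _
  · exact F5aw_ne (by omega)

private theorem F5a_sg {i j : Fin n} (h : i ≠ j) :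
    sg i ({i, j} : Finset (Fin n)) + sg j ({i, j} : Finset (Fin n)) = 0 := by
  have h0 : ∀ k : Fin n, sg k ({k} : Finset (Fin n)) = 1 := by
    intro k
    unfold sg
    have h1 : ({k} : Finset (Fin n)).filter (· < k) = ∅ := by
      ext l
      simp only [Finset.mem_filter, Finset.mem_singleton, Finset.notMem_empty, iff_false, not_and]
      rintro rfl
      exact lt_irrefl _
    rw [h1, Finset.card_empty, pow_zero]
  have h2 := sg_sg (J := ({i, j} : Finset (Fin n))) (i := i) (j := j)
    (Finset.mem_insert_self _ _) (Finset.mem_insert_of_mem (Finset.mem_singleton_self _)) h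
  have h3 : ({i, j} : Finset (Fin n)).erase i = {j} := by
    rw [Finset.erase_insert]
    rw [Finset.mem_singleton]
    exact h
  have h4 : ({i, j} : Finset (Fin n)).erase j = {i} := by
    rw [Finset.pair_comm, Finset.erase_insert]
    rw [Finset.mem_singleton]
    exact h.symm
  rw [h3, h4, h0, h0, mul_one, mul_one] at h2
  exact h2

private theorem F5aw_Nt {w : ∀ C, X.E C}
    (hwr : ∀ {C C' : Finset (Fin n)} (h : C ⊆ C'), C.Nonempty → X.rs h (w C) = w C')
    (hcl : ∀ C, C.Nonempty → dd K (w C) + th C * w C = 0) :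
    X.Dt (F5aw w) + thC th (F5aw w) = 0 := by
  funext C
  rw [F5a_at, Pi.zero_apply]
  have hcd : ∀ j ∈ C, (C.erase j).card + 1 = C.card := fun j hj => Finset.card_erase_add_one hj
  rcases Nat.lt_trichotomy C.card 2 with h | h | h
  · rw [F5a_sum _ _ fun j hj => F5aw_ne (by have := hcd j hj; omega), add_zero]
    rcases eq_or_ne C.card 1 with h2 | h2
    · rw [F5aw_one h2]
      exact hcl C (Finset.card_pos.1 (by omega))
    · rw [F5aw_ne h2, map_zero, mul_zero, add_zero]
  · rw [F5aw_ne (by omega), map_zero, mul_zero, add_zero, zero_add]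
    have h3 : ∀ j ∈ C, sg j C • X.ev (X.ic (F5aw w)) (C.erase j) C = sg j C • inv K (w C) := by
      intro j hj
      have h4 := hcd j hj
      rw [CovD.ev_ic, CovD.ev_of (Finset.erase_subset _ _), F5aw_one (by omega),
        hwr _ (Finset.card_pos.1 (by omega))]
    rw [Finset.sum_congr rfl h3, ← Finset.sum_smul]
    obtain ⟨i, j, hij, hC⟩ := Finset.card_eq_two.1 h
    have h5 : ∑ l ∈ C, sg l C = 0 := by
      rw [hC, Finset.sum_pair hij]
      exact F5a_sg hij
    rw [h5, zero_smul]
  · rw [F5a_sum _ _ fun j hj => F5aw_ne (by have := hcd j hj; omega),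
      F5aw_ne (by omega), map_zero, mul_zero, add_zero, add_zero]

/-- The step of the induction. -/
private theorem F5a_step {m r : ℕ} (g : X.Ch) {v : X.Ch} (hv : v ∈ X.Tt m)
    (hvr : ∀ C : Finset (Fin n), C.card ≤ r → (X.Dt v + thC th v) C = g C)
    (hx : ∀ C : Finset (Fin n), C.card = r + 1 → ∃ x : X.E C,
      (∀ q, q + (r + 1) = m + 1 → x ∈ Fd K (X.R C) q) ∧ (m + 1 < r + 1 → x = 0) ∧
      dd K x + th C * x = g C - (X.Dt v + thC th v) C) :
    ∃ v' ∈ X.Tt m, ∀ C : Finset (Fin n), C.card ≤ r + 1 → (X.Dt v' + thC th v') C = g C := by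
  choose x hx1 hx2 hx3 using hx
  let z : X.Ch := fun C => if h : C.card = r + 1 then x C h else 0
  have hz1 : ∀ (C : Finset (Fin n)) (h : C.card = r + 1), z C = x C h := fun C h => dif_pos h
  have hz0 : ∀ C : Finset (Fin n), C.card ≠ r + 1 → z C = 0 := fun C h => dif_neg h
  have hzm : z ∈ X.Tt m := by
    refine ⟨hz0 _ (by rw [Finset.card_empty]; omega), fun J => ⟨fun q hq => ?_, fun h => ?_⟩⟩
    · rcases eq_or_ne J.card (r + 1) with h | h
      · rw [hz1 J h]
        exact hx1 J h q (by omega)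
      · rw [hz0 J h]
        exact Submodule.zero_mem _
    · rcases eq_or_ne J.card (r + 1) with h' | h'
      · rw [hz1 J h']
        exact hx2 J h' (by omega)
      · exact hz0 J h'
  refine ⟨v + z, Submodule.add_mem _ hv hzm, fun C hC => ?_⟩
  have e1 : X.Dt (v + z) + thC th (v + z) = (X.Dt v + thC th v) + (X.Dt z + thC th z) := by
    rw [map_add, map_add]
    abel
  have hcd : ∀ j ∈ C, (C.erase j).card + 1 = C.card := fun j hj => Finset.card_erase_add_one hj
  rw [e1, Pi.add_apply, F5a_at th z, F5a_sum z C fun j hj => hz0 _ (by have := hcd j hj; omega),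
    add_zero]
  rcases eq_or_ne C.card (r + 1) with h | h
  · rw [hz1 C h, hx3 C h]
    exact add_sub_cancel _ _
  · rw [hz0 C h, map_zero, mul_zero, add_zero, add_zero]
    exact hvr C (by omega)

include h1 hd hrs hsq in
theorem solve {m : ℕ} (w : ∀ C, X.E C) (hw : ∀ C, w C ∈ Fd K (X.R C) (m + 1))
    (hwr : ∀ {C C' : Finset (Fin n)} (h : C ⊆ C'), C.Nonempty → X.rs h (w C) = w C')
    (hcl : ∀ C, C.Nonempty → dd K (w C) + th C * w C = 0)
    (hex1 : ∀ l, ∃ y ∈ Fd K (X.R {l}) m, dd K y + th {l} * y = w {l})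
    (hex : ∀ C : Finset (Fin n), C.Nonempty → ∀ q, q ≤ m → ∀ y ∈ Fd K (X.R C) q, dd K y + th C * y = 0 →
      ∃ x : X.E C, (∀ r, r + 1 = q → x ∈ Fd K (X.R C) r) ∧ (q = 0 → x = 0) ∧ dd K x + th C * x = y) :
    ∃ v ∈ X.Tt m, ∀ C, (X.Dt v + thC th v) C = if C.card = 1 then w C else 0 := by
  have key : ∀ r : ℕ, ∃ v ∈ X.Tt m, ∀ C : Finset (Fin n), C.card ≤ r + 1 →
      (X.Dt v + thC th v) C = F5aw w C := by
    intro r
    induction r with
    | zero =>
      refine F5a_step (r := 0) (F5aw w) (Submodule.zero_mem (X.Tt m)) ?_ ?_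
      · intro C hC
        rw [map_zero, map_zero, add_zero, F5aw_ne (by omega)]
        rfl
      · intro C hC
        obtain ⟨l, rfl⟩ := Finset.card_eq_one.1 hC
        obtain ⟨y, hy, hy'⟩ := hex1 l
        refine ⟨y, fun q hq => ?_, fun h => by omega, ?_⟩
        · have h2 : q = m := by omega
          rw [h2]
          exact hy
        · rw [hy', map_zero, map_zero, add_zero, F5aw_one hC, Pi.zero_apply, sub_zero]
    | succ r ih =>
      obtain ⟨v, hv, hvr⟩ := ih
      refine F5a_step (r := r + 1) (F5aw w) hv hvr ?_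
      intro C hC
      have hy : F5aw w - (X.Dt v + thC th v) ∈ X.Tt (m + 1) :=
        Submodule.sub_mem _ (F5aw_mem hw) (Submodule.add_mem _ (CovD.Dt_mem hv) (thC_mem h1 hv))
      have hN : X.Dt (F5aw w - (X.Dt v + thC th v)) + thC th (F5aw w - (X.Dt v + thC th v)) = 0 := by
        have e1 := Nt_Nt h1 hd hrs hsq v
        have e2 := F5aw_Nt (th := th) (w := w) hwr hcl
        have e3 : X.Dt (F5aw w - (X.Dt v + thC th v)) + thC th (F5aw w - (X.Dt v + thC th v)) =
            (X.Dt (F5aw w) + thC th (F5aw w)) -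
              (X.Dt (X.Dt v + thC th v) + thC th (X.Dt v + thC th v)) := by
          rw [map_sub, map_sub]
          abel
        rw [e3, e1, e2, sub_zero]
      have hcd : ∀ j ∈ C, (C.erase j).card + 1 = C.card := fun j hj => Finset.card_erase_add_one hj
      have hz : ∀ j ∈ C, (F5aw w - (X.Dt v + thC th v)) (C.erase j) = 0 := by
        intro j hj
        have h4 := hcd j hj
        rw [Pi.sub_apply, hvr _ (by omega), sub_self]
      have hcC : dd K ((F5aw w - (X.Dt v + thC th v)) C) +
          th C * (F5aw w - (X.Dt v + thC th v)) C = 0 := by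
        have e4 := congrFun hN C
        rw [F5a_at th, F5a_sum _ C hz, add_zero] at e4
        exact e4
      rcases Nat.lt_or_ge (m + 1) (r + 1) with h | h
      · refine ⟨0, fun q hq => Submodule.zero_mem _, fun _ => rfl, ?_⟩
        have h5 := (hy.2 C).2 (by omega)
        rw [Pi.sub_apply] at h5
        rw [map_zero, mul_zero, add_zero, h5]
      · obtain ⟨q, hq⟩ : ∃ q, q + (r + 1) = m + 1 := ⟨m + 1 - (r + 1), by omega⟩
        obtain ⟨x, hx1, hx2, hx3⟩ := hex C (Finset.card_pos.1 (by omega)) q (by omega) _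
          ((hy.2 C).1 q (by omega)) hcC
        refine ⟨x, fun q' hq' => hx1 q' (by omega), fun h' => hx2 (by omega), ?_⟩
        rw [hx3, Pi.sub_apply]
  obtain ⟨v, hv, hvr⟩ := key n
  refine ⟨v, hv, fun C => ?_⟩
  have h3 : C.card ≤ n := by
    have h4 := Finset.card_le_univ C
    rwa [Fintype.card_fin] at h4
  exact hvr C (by omega)

end

end MPadcHS
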