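import Mathlib

/-!
# JOB FAbs (HS): removing the negative weights (algebra)

`T` a `K`-module, `D`, `th`, `io` linear, `W g` for `g : ℤ → K`. `δ_k := fun t => if t = k then 1 else 0`, `(W δ_k) x` = the part of weight `k`. `Nt := D + th`.
Claim by induction on `N`: if `v ∈ S`, `Nt v = w` and `W g v = 0` for all `g` which vanish on `t ≥ -N`, then there is `b ∈ S'` with `W (fun t => if t < 0 then 1 else 0) (v - Nt b) = 0`.
`N = 0`: `b = 0`. `N + 1`: `k := -(N + 1)`, `v_k := W δ_k v`. `D v_k = W δ_k (D v) = W δ_k (w - th v) = 0 - th (W (fun t => δ_k (t + 1)) v) = 0`: `W δ_k w = 0` by `hw` (`k ≤ 0`, so `δ_k = δ_k * (fun t => if t ≤ 0 then 1 else 0)`, `hWW`), and `fun t => δ_k (t + 1)` vanishes on `t ≥ k = -(N+1)` (it is `δ_(k-1)`), hypothesis.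
`b₁ := (k : K)⁻¹ • io v_k` (`∈ S'`), `D b₁ = k⁻¹ (D io v_k) = k⁻¹ (W (fun t => t) v_k - io (D v_k)) = v_k` (`hL`, `W (t ↦ t) (W δ_k v) = k • W δ_k v` by `hWW`: `t * δ_k t = k * δ_k t`; `W` of a constant multiple: `hWs`). `v₁ := v - Nt b₁`: `Nt v₁ = w` (`hNN`), `v₁ ∈ S`. For `g` which vanishes on `t ≥ -N`: `W g v₁ = W g v - W g v_k - W g (th b₁)`.
`g = g' + g (k) δ_k`, `g'` vanishing on `t ≥ -(N+1)`, `W g v = g k • v_k`; `W g v_k = g k • v_k`; `W g (th b₁) = th (W (g (· + 1)) b₁)`, `b₁` has only the weight `k` and `g (k + 1) = g (-N) = 0`, so it is `0`. So `W g v₁ = 0` and the induction hypothesis applies to `v₁`: `b := b₁ + b'`.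
Start: `hbdd`.
-/

set_option autoImplicit false

namespace MPadcHS

universe u

private theorem FAbs_step {K T : Type u} [Field K] [CharZero K] [AddCommGroup T] [Module K T] (D th io : T →ₗ[K] T)
    (W : (ℤ → K) → (T →ₗ[K] T)) (S S' : Submodule K T) (hD : ∀ g x, W g (D x) = D (W g x))
    (hth : ∀ g x, W g (th x) = th (W (fun t => g (t + 1)) x)) (hio : ∀ g x, W g (io x) = io (W g x))
    (hWW : ∀ g g' x, W g (W g' x) = W (fun t => g t * g' t) x)
    (hWa : ∀ g g' x, W (fun t => g t + g' t) x = W g x + W g' x)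
    (hWs : ∀ (a : K) g x, W (fun t => a * g t) x = a • W g x)
    (hL : ∀ x, D (io x) + io (D x) = W (fun t => (t : K)) x) (hNN : ∀ x, D (D x + th x) + th (D x + th x) = 0)
    (hS : ∀ g x, x ∈ S → W g x ∈ S) (hioS : ∀ x ∈ S, io x ∈ S') (hS' : ∀ x ∈ S', D x + th x ∈ S) {w : T}
    (hw : W (fun t => if t ≤ 0 then 1 else 0) w = 0) (N : ℕ) : ∀ v ∈ S, D v + th v = w →
    (∀ g : ℤ → K, (∀ t, -(N : ℤ) ≤ t → g t = 0) → W g v = 0) →
    ∃ b ∈ S', W (fun t => if t < 0 then 1 else 0) (v - (D b + th b)) = 0 := by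
  have hW0 : ∀ x, W (fun _ => 0) x = 0 := by
    intro x
    have h1 := hWs 0 (fun _ => 0) x
    simp only [zero_mul, zero_smul] at h1
    exact h1
  induction N with
  | zero =>
    intro v hv hN hg
    refine ⟨0, S'.zero_mem, ?_⟩
    rw [map_zero, map_zero, add_zero, sub_zero]
    refine hg _ fun t ht => ?_
    rw [Nat.cast_zero, neg_zero] at ht
    exact if_neg (not_lt.2 ht)
  | succ N ih =>
    intro v hv hN hg
    obtain ⟨k, hk⟩ : ∃ k : ℤ, k = -((N : ℤ) + 1) := ⟨_, rfl⟩
    have hk0 : (k : K) ≠ 0 := by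
      have h1 : k ≠ 0 := by omega
      exact_mod_cast h1
    obtain ⟨vk, hvk⟩ : ∃ vk, vk = W (fun t => if t = k then 1 else 0) v := ⟨_, rfl⟩
    have hDvk : D vk = 0 := by
      have e1 : W (fun t => if t = k then 1 else 0) w = 0 := by
        have h1 : (fun t : ℤ => if t = k then (1 : K) else 0) =
            fun t => (if t = k then (1 : K) else 0) * (if t ≤ 0 then 1 else 0) := by
          funext t
          by_cases ht : t = k
          · rw [if_pos ht, if_pos (by omega), one_mul]
          · rw [if_neg ht, zero_mul]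
        rw [h1, ← hWW, hw, map_zero]
      have e2 : W (fun t => if t + 1 = k then (1 : K) else 0) v = 0 := by
        refine hg _ fun t ht => if_neg ?_
        push_cast at ht
        omega
      have e3 : D v = w - th v := by rw [← hN, add_sub_cancel_right]
      rw [hvk, ← hD, e3, map_sub, e1, hth, e2, map_zero, sub_zero]
    obtain ⟨b₁, hb₁⟩ : ∃ b₁, b₁ = (k : K)⁻¹ • io vk := ⟨_, rfl⟩
    have hvkS : vk ∈ S := by
      rw [hvk]
      exact hS _ _ hv
    have hb₁S : b₁ ∈ S' := by
      rw [hb₁]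
      exact S'.smul_mem _ (hioS _ hvkS)
    have hDb : D b₁ = vk := by
      have e1 : W (fun t => (t : K)) vk = (k : K) • vk := by
        rw [hvk, hWW, ← hWs]
        congr 1
        congr 1
        funext t
        by_cases ht : t = k
        · rw [ht]
        · rw [if_neg ht, mul_zero, mul_zero]
      have e2 := hL vk
      rw [hDvk, map_zero, add_zero, e1] at e2
      rw [hb₁, map_smul, e2, inv_smul_smul₀ hk0]
    obtain ⟨v₁, hv₁⟩ : ∃ v₁, v₁ = v - (D b₁ + th b₁) := ⟨_, rfl⟩
    have hv₁S : v₁ ∈ S := by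
      rw [hv₁]
      exact S.sub_mem hv (hS' _ hb₁S)
    have hv₁N : D v₁ + th v₁ = w := by
      rw [hv₁, map_sub, map_sub]
      have e1 := hNN b₁
      rw [← hN]
      calc D v - D (D b₁ + th b₁) + (th v - th (D b₁ + th b₁)) =
          D v + th v - (D (D b₁ + th b₁) + th (D b₁ + th b₁)) := by abel
        _ = D v + th v := by rw [e1, sub_zero]
    have hv₁g : ∀ g : ℤ → K, (∀ t, -(N : ℤ) ≤ t → g t = 0) → W g v₁ = 0 := by
      intro g hg0
      have e1 : W g v = W g vk := by
        have h1 : W (fun t => g t - g t * (if t = k then (1 : K) else 0)) v = 0 := by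
          refine hg _ fun t ht => ?_
          by_cases htk : t = k
          · rw [if_pos htk, mul_one, sub_self]
          · rw [if_neg htk, mul_zero, sub_zero]
            refine hg0 t ?_
            push_cast at ht
            omega
        have h2 := hWa (fun t => g t - g t * (if t = k then (1 : K) else 0))
          (fun t => g t * (if t = k then (1 : K) else 0)) v
        have h3 : (fun t => g t - g t * (if t = k then (1 : K) else 0) + g t * (if t = k then (1 : K) else 0)) = g := by
          funext t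
          ring
        rw [h3, h1, zero_add] at h2
        rw [h2, hvk, hWW]
      have e2 : W (fun t => g (t + 1)) b₁ = 0 := by
        rw [hb₁, map_smul, hio, hvk, hWW]
        have h1 : (fun t => g (t + 1) * (if t = k then (1 : K) else 0)) = fun _ => 0 := by
          funext t
          by_cases htk : t = k
          · rw [hg0 (t + 1) (by omega), zero_mul]
          · rw [if_neg htk, mul_zero]
        rw [h1, hW0, map_zero, smul_zero]
      rw [hv₁, map_sub, map_add, hDb, hth, e2, map_zero, add_zero, e1, sub_self]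
    obtain ⟨b', hb', hb''⟩ := ih v₁ hv₁S hv₁N hv₁g
    refine ⟨b₁ + b', S'.add_mem hb₁S hb', ?_⟩
    have e1 : v - (D (b₁ + b') + th (b₁ + b')) = v₁ - (D b' + th b') := by
      rw [hv₁, map_add, map_add]
      abel
    rw [e1]
    exact hb''

theorem neg_weights {K T : Type u} [Field K] [CharZero K] [AddCommGroup T] [Module K T] (D th io : T →ₗ[K] T)
    (W : (ℤ → K) → (T →ₗ[K] T)) (S S' : Submodule K T) (hD : ∀ g x, W g (D x) = D (W g x))
    (hth : ∀ g x, W g (th x) = th (W (fun t => g (t + 1)) x)) (hio : ∀ g x, W g (io x) = io (W g x))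
    (hWW : ∀ g g' x, W g (W g' x) = W (fun t => g t * g' t) x)
    (hWa : ∀ g g' x, W (fun t => g t + g' t) x = W g x + W g' x)
    (hW1 : ∀ x, W (fun _ => 1) x = x) (hWs : ∀ (a : K) g x, W (fun t => a * g t) x = a • W g x)
    (hL : ∀ x, D (io x) + io (D x) = W (fun t => (t : K)) x) (hNN : ∀ x, D (D x + th x) + th (D x + th x) = 0)
    (hS : ∀ g x, x ∈ S → W g x ∈ S) (hioS : ∀ x ∈ S, io x ∈ S') (hS' : ∀ x ∈ S', D x + th x ∈ S)
    (hbdd : ∀ x, ∃ N : ℕ, ∀ g : ℤ → K, (∀ t, -(N : ℤ) ≤ t → g t = 0) → W g x = 0) {v w : T} (hv : v ∈ S)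
    (hN : D v + th v = w) (hw : W (fun t => if t ≤ 0 then 1 else 0) w = 0) :
    ∃ b ∈ S', W (fun t => if t < 0 then 1 else 0) (v - (D b + th b)) = 0 := by
  have _ := hW1
  obtain ⟨N, hg⟩ := hbdd v
  exact FAbs_step D th io W S S' hD hth hio hWW hWa hWs hL hNN hS hioS hS' hw N v hv hN hg

theorem weight_zero {K T : Type u} [Field K] [CharZero K] [AddCommGroup T] [Module K T] (D th : T →ₗ[K] T)
    (W : (ℤ → K) → (T →ₗ[K] T)) (hD : ∀ g x, W g (D x) = D (W g x))
    (hth : ∀ g x, W g (th x) = th (W (fun t => g (t + 1)) x))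
    (hWW : ∀ g g' x, W g (W g' x) = W (fun t => g t * g' t) x) {v w : T} (hN : D v + th v = w)
    (hw : W (fun t => if t ≤ 0 then 1 else 0) w = 0) (hv : W (fun t => if t < 0 then 1 else 0) v = 0) :
    D (W (fun t => if t = 0 then 1 else 0) v) = 0 := by
  have e1 : W (fun t => if t = 0 then 1 else 0) w = 0 := by
    have h1 : (fun t : ℤ => if t = 0 then (1 : K) else 0) =
        fun t => (if t = 0 then (1 : K) else 0) * (if t ≤ 0 then 1 else 0) := by
      funext t
      by_cases ht : t = 0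
      · rw [if_pos ht, if_pos (by omega), one_mul]
      · rw [if_neg ht, zero_mul]
    rw [h1, ← hWW, hw, map_zero]
  have e2 : W (fun t => if t + 1 = 0 then (1 : K) else 0) v = 0 := by
    have h1 : (fun t : ℤ => if t + 1 = 0 then (1 : K) else 0) =
        fun t => (if t + 1 = 0 then (1 : K) else 0) * (if t < 0 then 1 else 0) := by
      funext t
      by_cases ht : t + 1 = 0
      · rw [if_pos ht, if_pos (by omega), one_mul]
      · rw [if_neg ht, zero_mul]
    rw [h1, ← hWW, hv, map_zero]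
  have e3 : D v = w - th v := by rw [← hN, add_sub_cancel_right]
  rw [← hD, e3, map_sub, e1, hth, e2, map_zero, sub_zero]

end MPadcHS
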