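import Pool.Agent.Lib.MP_adc574_ag_HS.FWt
import Pool.Agent.Lib.MP_adc574_ag_HS.F5a
import Pool.Agent.Lib.MP_adc574_ag_HS.FAbs

/-!
# JOB F6 (HS): solution of the twisted equation on the Čech complex; its part of weight `0` is closed

`X = lrC I`, `th C = df K (mkL I C F)`, `F` homogeneous of degree `1`. `WC g c C := wg hI C g (c C)`.
* `WC` is a `K`-linear map of the cochains. `WC_Dt`: `WC g (Dt c) = Dt (WC g c)` (`wg_dd`, `wg_rs`, `wg_inv`, `wg` is `K`-linear; `Dt c = dc c + del (ic c)`, `del c K = ∑ sg j K • ev c (K.erase j) K`). `WC_mem`: `wg_mem`.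
* `f6_sol`: `solve` (F5a.lean) with `m := m + 2`, `th C := df K (mkL I C F)`: `df_mem`, `dd_df`, `(lrC I).rs h (df (mkL ..)) = df (mkL ..)` (`mp_df`, `trL_mkL`), `df_sq`: `df x * df x = 0`.
  This gives `v₀`. `neg_weights` (FAbs.lean): `T := (lrC I).Ch`, `D := Dt`, `th := thC ..`, `io c C := ct K (eu hI C) (c C)`, `W := WC`, `S := Tt (m + 2)`, `S' := Tt (m + 1)`. Hypotheses: `hD`: `WC_Dt`; `hth`: `wg_df`; `hio`: `wg_ct`; `hWW`: `wg_wg`; `hWa`: `wg_add`; `hW1`: `wg_one`;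
  `hWs`: `wg (fun t => a * g t) x = a • wg g x`: `wg_ext` or `wg_wg` with the constant function `a` (`wg (fun _ => a) x = a • x` by `wg_ext`, `wg_of`); `hL`: `Dt (io c) + io (Dt c) = WC (t ↦ t) c`: at `C`: `dd (ct (c C)) + ∑ sg • rs (inv (ct (c (C.erase j)))) + ct (dd (c C)) + ∑ sg • ct (rs (inv (c ..)))`, the sums cancel (`ct_inv`: `inv (ct x) = - ct (inv x)`, `ct_rs`), the rest is `wg_L`;
  `hNN`: `Nt_Nt`; `hS`: `WC_mem`; `hioS`: `ct_mem`, `ct_mem_zero`; `hS'`: `thC_mem`, `CovD.Dt_mem`-like lemma of GP/Cov.lean; `hbdd`: `wg_bdd` for every `C`, the maximum over the finitely many `C`; `hv`, `hN`; `hw`: at `C`: `hw0` or `map_zero`.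
  It gives `b ∈ Tt (m + 1)`; `v := v₀ - (Dt b + thC b)`: `Nt v = Nt v₀` by `Nt_Nt`. `WC (t < 0) v = 0`. `weight_zero`: `Dt (WC δ₀ v) = 0`.
-/

set_option autoImplicit false
set_option linter.unusedSectionVars false

namespace MPadcHS

open MvPolynomial MPadcGP MPadcDC

universe u

section general

variable {K : Type u} [Field K] {n : ℕ} {X : CovD.{u, u} K n}

private theorem F6_Dt (c : X.Ch) (C : Finset (Fin n)) : X.Dt c C = dd K (c C) +
    ∑ j ∈ C, sg j C • X.rs (Finset.erase_subset j C) (MPadcGP.inv K (c (C.erase j))) := by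
  rw [CovD.Dt_apply, Pi.add_apply, CovD.dc_apply, CovD.del_apply]
  congr 1
  refine Finset.sum_congr rfl fun j _ => ?_
  rw [CovD.ev_of (Finset.erase_subset j C), CovD.ic_apply]

private theorem F6_comm (W : ∀ C, X.E C →ₗ[K] X.E C) (hdd : ∀ C x, W C (dd K x) = dd K (W C x))
    (hrs : ∀ {C C' : Finset (Fin n)} (h : C ⊆ C') x, W C' (X.rs h x) = X.rs h (W C x))
    (hinv : ∀ C x, W C (MPadcGP.inv K x) = MPadcGP.inv K (W C x)) (c : X.Ch) (C : Finset (Fin n)) :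
    W C (X.Dt c C) = X.Dt (fun C => W C (c C)) C := by
  rw [F6_Dt, F6_Dt, map_add, map_sum, hdd]
  congr 1
  refine Finset.sum_congr rfl fun j _ => ?_
  rw [map_zsmul, hrs, hinv]

private theorem F6_L (ι L : ∀ C, X.E C →ₗ[K] X.E C) (hL : ∀ C x, dd K (ι C x) + ι C (dd K x) = L C x)
    (hrs : ∀ {C C' : Finset (Fin n)} (h : C ⊆ C') x, ι C' (X.rs h x) = X.rs h (ι C x))
    (hinv : ∀ C x, ι C (MPadcGP.inv K x) = -MPadcGP.inv K (ι C x)) (c : X.Ch) (C : Finset (Fin n)) :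
    X.Dt (fun C => ι C (c C)) C + ι C (X.Dt c C) = L C (c C) := by
  rw [F6_Dt, F6_Dt, map_add, map_sum, ← hL, add_add_add_comm, ← Finset.sum_add_distrib, Finset.sum_eq_zero, add_zero]
  intro j _
  rw [map_zsmul, hrs, hinv, map_neg, smul_neg, add_neg_cancel]

private theorem F6_bdd (W : (ℤ → K) → ∀ C, X.E C →ₗ[K] X.E C)
    (hb : ∀ C x, ∃ N : ℕ, ∀ g : ℤ → K, (∀ t, -(N : ℤ) ≤ t → g t = 0) → W g C x = 0) (c : X.Ch) :
    ∃ N : ℕ, ∀ g : ℤ → K, (∀ t, -(N : ℤ) ≤ t → g t = 0) → ∀ C, W g C (c C) = 0 := by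
  choose N hN using fun C => hb C (c C)
  refine ⟨Finset.univ.sup N, fun g hg C => hN C g fun t ht => hg t ?_⟩
  have h1 : N C ≤ Finset.univ.sup N := Finset.le_sup (Finset.mem_univ C)
  have h2 : (N C : ℤ) ≤ (Finset.univ.sup N : ℕ) := by exact_mod_cast h1
  omega

private theorem F6_mem (T : ∀ C, X.E C →ₗ[K] X.E C) (hT : ∀ C (q : ℕ) x, x ∈ Fd K (X.R C) q → T C x ∈ Fd K (X.R C) q)
    {m : ℕ} {c : X.Ch} (hc : c ∈ X.Tt m) : (fun C => T C (c C)) ∈ X.Tt m := by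
  refine ⟨?_, fun C => ⟨fun q hq => hT C q _ ((hc.2 C).1 q hq), fun h => ?_⟩⟩
  · show T ∅ (c ∅) = 0
    rw [hc.1, map_zero]
  · show T C (c C) = 0
    rw [(hc.2 C).2 h, map_zero]

private theorem F6_memi (T : ∀ C, X.E C →ₗ[K] X.E C)
    (hT : ∀ C (q : ℕ) x, x ∈ Fd K (X.R C) (q + 1) → T C x ∈ Fd K (X.R C) q)
    (hT0 : ∀ C x, x ∈ Fd K (X.R C) 0 → T C x = 0) {m : ℕ} {c : X.Ch} (hc : c ∈ X.Tt (m + 1)) :
    (fun C => T C (c C)) ∈ X.Tt m := by
  refine ⟨?_, fun C => ⟨fun q hq => hT C q _ ((hc.2 C).1 (q + 1) (by omega)), fun h => ?_⟩⟩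
  · show T ∅ (c ∅) = 0
    rw [hc.1, map_zero]
  · show T C (c C) = 0
    rcases Nat.lt_or_ge (m + 1 + 1) C.card with h1 | h1
    · rw [(hc.2 C).2 h1, map_zero]
    · exact hT0 C _ ((hc.2 C).1 0 (by omega))

end general

section

variable {K : Type u} [Field K] [CharZero K] {n : ℕ} {I : Ideal (MvPolynomial (Fin n) K)}

/-- The operators `wg` on cochains. -/
noncomputable def WC (hI : IsHomog I) (g : ℤ → K) : (lrC I).Ch →ₗ[K] (lrC I).Ch where
  toFun c C := wg hI C g (c C)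
  map_add' a b := by
    funext C
    exact map_add (wg hI C g) _ _
  map_smul' a b := by
    funext C
    exact map_smul (wg hI C g) _ _

theorem WC_apply (hI : IsHomog I) (g : ℤ → K) (c : (lrC I).Ch) (C : Finset (Fin n)) :
    WC hI g c C = wg hI C g (c C) := rfl

theorem WC_Dt (hI : IsHomog I) (g : ℤ → K) (c : (lrC I).Ch) : WC hI g ((lrC I).Dt c) = (lrC I).Dt (WC hI g c) := by
  funext C
  exact F6_comm (X := lrC I) (fun C => wg hI C g) (fun _ x => wg_dd g x) (fun h x => wg_rs g h x)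
    (fun _ x => wg_inv g x) c C

theorem WC_mem (hI : IsHomog I) (g : ℤ → K) {m : ℕ} {c : (lrC I).Ch} (hc : c ∈ (lrC I).Tt m) :
    WC hI g c ∈ (lrC I).Tt m :=
  F6_mem (X := lrC I) (fun C => wg hI C g) (fun _ _ _ hx => wg_mem g hx) hc

/-- The contraction with the Euler derivation on cochains. -/
private noncomputable def F6_io (hI : IsHomog I) : (lrC I).Ch →ₗ[K] (lrC I).Ch where
  toFun c C := ((ct K (eu hI C)).restrictScalars K : Fm K (LR I C) →ₗ[K] Fm K (LR I C)) (c C)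
  map_add' a b := by
    funext C
    exact map_add ((ct K (eu hI C)).restrictScalars K : Fm K (LR I C) →ₗ[K] Fm K (LR I C)) _ _
  map_smul' a b := by
    funext C
    exact map_smul ((ct K (eu hI C)).restrictScalars K : Fm K (LR I C) →ₗ[K] Fm K (LR I C)) _ _

private theorem F6_io_apply (hI : IsHomog I) (c : (lrC I).Ch) (C : Finset (Fin n)) :
    F6_io hI c C = ct K (eu hI C) (c C) := rfl

private theorem F6_ws (hI : IsHomog I) (a : K) (g : ℤ → K) (x : (lrC I).Ch) :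
    WC hI (fun t => a * g t) x = a • WC hI g x := by
  funext C
  have h1 : wg hI C (fun t => a * g t) = a • wg hI C g := by
    refine wg_ext hI fun q t y _ hy => ?_
    rw [wg_of _ hy, LinearMap.smul_apply, wg_of _ hy, mul_smul]
  have h2 : wg hI C (fun t => a * g t) (x C) = a • wg hI C g (x C) := by
    rw [h1, LinearMap.smul_apply]
  exact h2

private theorem F6_WW (hI : IsHomog I) (g g' : ℤ → K) (x : (lrC I).Ch) :
    WC hI g (WC hI g' x) = WC hI (fun t => g t * g' t) x := by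
  funext C
  exact wg_wg g g' (x C)

private theorem F6_Wa (hI : IsHomog I) (g g' : ℤ → K) (x : (lrC I).Ch) :
    WC hI (fun t => g t + g' t) x = WC hI g x + WC hI g' x := by
  funext C
  exact wg_add g g' (x C)

private theorem F6_W1 (hI : IsHomog I) (x : (lrC I).Ch) : WC hI (fun _ => 1) x = x := by
  funext C
  exact wg_one (x C)

private theorem F6_Wio (hI : IsHomog I) (g : ℤ → K) (x : (lrC I).Ch) :
    WC hI g (F6_io hI x) = F6_io hI (WC hI g x) := by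
  funext C
  exact wg_ct g (x C)

private theorem F6_LL (hI : IsHomog I) (x : (lrC I).Ch) :
    (lrC I).Dt (F6_io hI x) + F6_io hI ((lrC I).Dt x) = WC hI (fun t => (t : K)) x := by
  funext C
  exact F6_L (X := lrC I)
      (fun C => ((ct K (eu hI C)).restrictScalars K : Fm K (LR I C) →ₗ[K] Fm K (LR I C)))
      (fun C => wg hI C (fun t => (t : K))) (fun C x => wg_L x) (fun h x => (ct_rs h x).symm)
      (fun C x => ct_inv K (eu hI C) x) x C

private theorem F6_ioS (hI : IsHomog I) {m : ℕ} (x : (lrC I).Ch) (hx : x ∈ (lrC I).Tt (m + 1)) :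
    F6_io hI x ∈ (lrC I).Tt m :=
  F6_memi (X := lrC I)
      (fun C => ((ct K (eu hI C)).restrictScalars K : Fm K (LR I C) →ₗ[K] Fm K (LR I C)))
      (fun C _ _ hx => ct_mem (eu hI C) hx) (fun C _ hx => ct_mem_zero (eu hI C) hx) hx

private theorem F6_bd (hI : IsHomog I) (x : (lrC I).Ch) :
    ∃ N : ℕ, ∀ g : ℤ → K, (∀ t, -(N : ℤ) ≤ t → g t = 0) → WC hI g x = 0 := by
  obtain ⟨N, hN⟩ := F6_bdd (X := lrC I) (fun g C => wg hI C g) (fun C x => wg_bdd hI x) x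
  exact ⟨N, fun g hg => funext fun C => hN g hg C⟩

theorem f6_sol {m : ℕ} (hI : IsHomog I) {F : MvPolynomial (Fin n) K} (hF : F.IsHomogeneous 1)
    (w : ∀ C, Fm K (LR I C)) (hw : ∀ C, w C ∈ Fd K (LR I C) (m + 3))
    (hwr : ∀ {C C' : Finset (Fin n)} (h : C ⊆ C'), C.Nonempty → (lrC I).rs h (w C) = w C')
    (hcl : ∀ C : Finset (Fin n), C.Nonempty → dd K (w C) + df K (mkL I C F) * w C = 0)
    (hw0 : ∀ C, wg hI C (fun t => if t ≤ 0 then 1 else 0) (w C) = 0)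
    (hex1 : ∀ l, ∃ y ∈ Fd K (LR I {l}) (m + 2), dd K y + df K (mkL I {l} F) * y = w {l})
    (hex : ∀ C : Finset (Fin n), C.Nonempty → ∀ q, q ≤ m + 2 → ∀ y ∈ Fd K (LR I C) q,
      dd K y + df K (mkL I C F) * y = 0 →
      ∃ x : Fm K (LR I C), (∀ r, r + 1 = q → x ∈ Fd K (LR I C) r) ∧ (q = 0 → x = 0) ∧
        dd K x + df K (mkL I C F) * x = y) :
    ∃ v ∈ (lrC I).Tt (m + 2), (∀ C, ((lrC I).Dt v +
      thC (X := lrC I) (fun C => (df K (mkL I C F) : Fm K (LR I C))) v) C =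
        if C.card = 1 then (w C : (lrC I).E C) else 0) ∧
      (lrC I).Dt (WC hI (fun t => if t = 0 then 1 else 0) v) = 0 := by
  have h1 : ∀ C, (df K (mkL I C F) : (lrC I).E C) ∈ Fd K ((lrC I).R C) 1 := fun C => df_mem (R := LR I C) _
  have hd : ∀ C, dd K (df K (mkL I C F) : (lrC I).E C) = 0 := fun C => dd_df (R := LR I C) K _
  have hrs : ∀ {C C' : Finset (Fin n)} (h : C ⊆ C'), (lrC I).rs h (df K (mkL I C F) : (lrC I).E C) =
      (df K (mkL I C' F) : (lrC I).E C') := by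
    intro C C' h
    have h2 : (lrC I).ρ h (mkL I C F) = mkL I C' F := trL_mkL I h F
    rw [← h2]
    exact CovD.rs_df (X := lrC I) h (mkL I C F)
  have hsq : ∀ C, (df K (mkL I C F) : (lrC I).E C) * (df K (mkL I C F) : (lrC I).E C) = 0 :=
    fun C => df_sq (R := LR I C) _
  obtain ⟨th, hth⟩ : ∃ th : ∀ C, (lrC I).E C, th = fun C => (df K (mkL I C F) : Fm K (LR I C)) := ⟨_, rfl⟩
  obtain ⟨v₀, hv₀, hN⟩ := solve (X := lrC I) (th := th) (m := m + 2) (hth ▸ h1) (hth ▸ hd) (hth ▸ hrs) (hth ▸ hsq)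
    w hw hwr (by rw [hth]; exact hcl) (by rw [hth]; exact hex1) (by rw [hth]; exact hex)
  obtain ⟨w', hw'⟩ : ∃ w' : (lrC I).Ch, ∀ C, w' C = if C.card = 1 then (w C : (lrC I).E C) else 0 :=
    ⟨fun C => if C.card = 1 then (w C : (lrC I).E C) else 0, fun _ => rfl⟩
  have hN' : (lrC I).Dt v₀ + thC th v₀ = w' := funext fun C => (hN C).trans (hw' C).symm
  have hmem : ∀ x ∈ (lrC I).Tt (m + 1), (lrC I).Dt x + thC th x ∈ (lrC I).Tt (m + 2) := fun x hx =>
    Submodule.add_mem _ (CovD.Dt_mem hx) (thC_mem (hth ▸ h1) hx)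
  have hww : WC hI (fun t => if t ≤ 0 then 1 else 0) w' = 0 := by
    funext C
    rw [WC_apply, hw']
    split_ifs with h
    · exact hw0 C
    · exact map_zero _
  have hWth : ∀ (g : ℤ → K) (x : (lrC I).Ch), WC hI g (thC th x) = thC th (WC hI (fun t => g (t + 1)) x) := by
    intro g x
    funext C
    rw [hth]
    exact wg_df g hF (x C)
  have hNN : ∀ x : (lrC I).Ch, (lrC I).Dt ((lrC I).Dt x + thC th x) + thC th ((lrC I).Dt x + thC th x) = 0 :=
    Nt_Nt (X := lrC I) (hth ▸ h1) (hth ▸ hd) (hth ▸ hrs) (hth ▸ hsq)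
  obtain ⟨b, hb, hb'⟩ := neg_weights (K := K) (T := (lrC I).Ch) (lrC I).Dt (thC th) (F6_io hI) (WC hI)
    ((lrC I).Tt (m + 2)) ((lrC I).Tt (m + 1)) (WC_Dt hI) hWth (F6_Wio hI) (F6_WW hI) (F6_Wa hI) (F6_W1 hI) (F6_ws hI)
    (F6_LL hI) hNN (fun g x hx => WC_mem hI g hx) (F6_ioS hI) hmem (F6_bd hI) hv₀ hN' hww
  have hv : (lrC I).Dt (v₀ - ((lrC I).Dt b + thC th b)) + thC th (v₀ - ((lrC I).Dt b + thC th b)) = w' := by
    rw [map_sub, map_sub, sub_add_sub_comm, hNN, sub_zero, hN']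
  have h6 := weight_zero (K := K) (T := (lrC I).Ch) (lrC I).Dt (thC th) (WC hI) (WC_Dt hI) hWth (F6_WW hI) hv hww hb'
  refine ⟨v₀ - ((lrC I).Dt b + thC th b), Submodule.sub_mem _ hv₀ (hmem b hb), fun C => ?_, h6⟩
  rw [← hth, hv, hw']

end

end MPadcHS
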