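import Pool.Agent.Lib.MP_adc574_ag_HS.FPb
import Pool.Agent.Lib.MP_adc574_ag_HS.F5a

/-!
# JOB F7a (HS): the cochain `γ` with `γ_z = η`

`Q := cyc I F 1`, `z = Fin.last n`, `X₀ = lrC I`, `Nt v = Dt v + dF v` (`thC`, F5a.lean). `hN`: `Nt v = w` on the sets with one element, `0` on the others.
`γ K' := η` if `K' = {z}`; `γ (ci C) := (-1)^m • Pb C (v C)` for `C` nonempty; `γ K' := 0` if `z ∉ K'`. (`K' ∋ z`, `K' ≠ {z}`: `K' = ci C` for the unique `C = {l | l.castSucc ∈ K'}`; define `γ` by `if`/`dite` with `C := univ.filter (fun l => l.castSucc ∈ K')` and a cast, or by choice: prove first that for every `K'` there is a value with the required property.)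
* `γ ∈ Tt (m + 2)`: `γ {z} = η ∈ Fd (m + 2)`; `(ci C).card = C.card + 1`, `v C ∈ Fd q`, `q + C.card = m + 3`: `q = q' + 1`: `Pb_mem`: `Fd q'`, `q' + (C.card + 1) = m + 3`; if `q = 0`: `Pb_zero`; if `C.card > m + 3`: `v C = 0`.
* `Dt γ (ci C)`, `C` nonempty: `dd (γ (ci C)) + ∑_{j ∈ ci C} sg j (ci C) • ev (ic γ) ((ci C).erase j) (ci C)`; the term `j = z` is `0` (`(ci C).erase z = cm C`, no `z`); `j = castSucc l`, `l ∈ C`: `sg (castSucc l) (ci C) = sg l C` (`z` is larger than all `castSucc l`; `W1_sg`), `(ci C).erase (castSucc l) = ci (C.erase l)`.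
  If `C.erase l` is nonempty the term is `sg l C • rs (inv ((-1)^m • Pb (v (C.erase l)))) = - (-1)^m • sg l C • Pb C (rs (inv (v (C.erase l))))` (`Pb_inv`, `Pb_rs`). If `C = {l}`: `(ci C).erase (castSucc l) = {z}`: the term is `rs (inv η) = (-1)^(m+2) • rs η = (-1)^m • Pb {l} (w {l})` (`inv_mem`: `inv` is `(-1)^q` on `Fd q`; `hηw`).
  So `Dt γ (ci C) = (-1)^m • [dd (Pb C (v C)) - Pb C (∑_{l ∈ C, C.erase l ≠ ∅} sg l C • rs (inv (v (C.erase l))))] + (if C.card = 1 then (-1)^m • Pb C (w C) else 0)`, and the inner sum is `(del (ic v)) C` (`v ∅ = 0`). By `Pb_nab`: `dd (Pb C (v C)) = phF (wg δ₀ (v C)) - Pb C (dd (v C) + df F * v C)`. So the bracket is `phF (wg δ₀ (v C)) - Pb C ((Dt v + dF v) C)`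
  (`Dt v = dc v + del (ic v)`), and `hN`: it is `phF (wg δ₀ (v C)) - Pb C (if C.card = 1 then w C else 0)`: the terms with `w` cancel (for `C.card = 1`, `C = {l}`).
-/

set_option autoImplicit false
set_option linter.unusedSectionVars false

namespace MPadcHS

open MvPolynomial MPadcGP MPadcDC

universe u

section

variable {K : Type u} [Field K] [CharZero K] {n : ℕ} {I : Ideal (MvPolynomial (Fin n) K)}
  {F : MvPolynomial (Fin n) K} (hI : IsHomog I) (hF : F.IsHomogeneous 1)

theorem z_sub {n : ℕ} (C : Finset (Fin n)) : ({Fin.last n} : Finset (Fin (n + 1))) ⊆ ci C :=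
  Finset.singleton_subset_iff.2 (Finset.mem_insert_self _ _)

omit [CharZero K] in
private theorem F7a_erase (C : Finset (Fin n)) : (ci C).erase (Fin.last n) = cm C :=
  Finset.erase_insert (W1_last_notMem C)

omit [CharZero K] in
private theorem F7a_inj {C C' : Finset (Fin n)} (h : ci C = ci C') : C = C' := by
  have h1 : cm C = cm C' := by rw [← F7a_erase C, h, F7a_erase C']
  exact Finset.map_injective _ h1

omit [CharZero K] in
private theorem F7a_ex {K' : Finset (Fin (n + 1))} (hK : Fin.last n ∈ K') : ∃ C : Finset (Fin n), ci C = K' := by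
  obtain ⟨C, hC⟩ := W1_exK (K' := K'.erase (Fin.last n)) (Finset.notMem_erase _ _)
  refine ⟨C, ?_⟩
  unfold ci cm
  rw [hC, Finset.insert_erase hK]

private theorem F7a_card (C : Finset (Fin n)) : (ci C).card = C.card + 1 := by
  unfold ci
  rw [Finset.card_insert_of_notMem (W1_last_notMem C), Finset.card_map]

private theorem F7a_empty : ci (∅ : Finset (Fin n)) = {Fin.last n} := rfl

private theorem F7a_sg (l : Fin n) (C : Finset (Fin n)) : sg (Fin.castSuccEmb l) (ci C) = sg l C := by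
  have h1 : sg (Fin.castSuccEmb l) ((ci C).erase (Fin.last n)) = sg (Fin.castSuccEmb l) (ci C) :=
    sg_erase_gt (Fin.le_last _)
  rw [← h1, F7a_erase]
  exact W1_sg l C

private theorem F7a_er (l : Fin n) (C : Finset (Fin n)) : (ci C).erase (Fin.castSuccEmb l) = ci (C.erase l) := by
  unfold ci cm
  rw [Finset.erase_insert_of_ne, Finset.map_erase]
  exact fun h => Fin.castSucc_ne_last l h.symm

private theorem F7a_one (l : Fin n) : sg l {l} = 1 := by
  unfold sg
  rw [Finset.filter_eq_empty_iff.2, Finset.card_empty, pow_zero]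
  intro x hx
  rw [Finset.mem_singleton.1 hx]
  exact lt_irrefl _

private theorem F7a_exists {m : ℕ} (v : (lrC I).Ch) (η : (prC (cyc I F 1)).E {Fin.last n}) :
    ∃ γ : (prC (cyc I F 1)).Ch, γ {Fin.last n} = η ∧ (∀ K', Fin.last n ∉ K' → γ K' = 0) ∧
      ∀ C : Finset (Fin n), C.Nonempty → γ (ci C) = (-1 : ℤ) ^ m • Pb hI hF C (v C) := by
  classical
  have h1 : ∀ K' : Finset (Fin (n + 1)), ∃ y : (prC (cyc I F 1)).E K',
      (∀ e : {Fin.last n} = K', y = (prC (cyc I F 1)).rs (le_of_eq e) η) ∧ (Fin.last n ∉ K' → y = 0) ∧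
      ∀ (C : Finset (Fin n)) (_ : C.Nonempty) (e : ci C = K'),
        y = (prC (cyc I F 1)).rs (le_of_eq e) ((-1 : ℤ) ^ m • Pb hI hF C (v C)) := by
    intro K'
    by_cases hK : Fin.last n ∈ K'
    · obtain ⟨C₀, hC₀⟩ := F7a_ex hK
      subst hC₀
      rcases C₀.eq_empty_or_nonempty with h0 | h0
      · subst h0
        refine ⟨(prC (cyc I F 1)).rs (z_sub ∅) η, fun _ => rfl, fun h => absurd hK h, fun C hC e => ?_⟩
        exact absurd (F7a_inj e) hC.ne_empty
      · refine ⟨(-1 : ℤ) ^ m • Pb hI hF C₀ (v C₀), fun e => ?_, fun h => absurd hK h, fun C hC e => ?_⟩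
        · exact absurd (F7a_inj (C := ∅) (C' := C₀) e).symm h0.ne_empty
        · have h2 := F7a_inj e
          subst h2
          exact (CovD.rs_id (X := prC (cyc I F 1)) _ _ _).symm
    · refine ⟨0, fun e => absurd (e ▸ Finset.mem_singleton_self _) hK, fun _ => rfl, fun C hC e => ?_⟩
      exact absurd (e ▸ Finset.mem_insert_self _ _) hK
  choose γ a1 a2 a3 using h1
  refine ⟨γ, ?_, a2, fun C hC => ?_⟩
  · rw [a1 _ rfl]
    exact CovD.rs_id (X := prC (cyc I F 1)) _ _ _
  · rw [a3 _ C hC rfl]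
    exact CovD.rs_id (X := prC (cyc I F 1)) _ _ _

private theorem F7a_PA : ∃ PA : ∀ C : Finset (Fin n), (lrC I).E C →+ (prC (cyc I F 1)).E (ci C),
    (∀ C x, PA C x = Pb hI hF C x) ∧ (∀ C x, PA C (MPadcGP.inv K x) = -MPadcGP.inv K (PA C x)) ∧
    (∀ {C C' : Finset (Fin n)} (h : C ⊆ C') (x : (lrC I).E C),
      PA C' ((lrC I).rs h x) = (prC (cyc I F 1)).rs (ci_mono h) (PA C x)) ∧
    ∀ (C : Finset (Fin n)) (x : (lrC I).E C),
      PA C (dd K x + (show (lrC I).E C from df K (mkL I C F)) * x) + dd K (PA C x) =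
      phF hI hF C (wg hI C (fun t => if t = 0 then 1 else 0) x) := by
  have h1 : ∃ PA : ∀ C : Finset (Fin n), (lrC I).E C →+ (prC (cyc I F 1)).E (ci C),
      ∀ C x, PA C x = Pb hI hF C x :=
    ⟨fun C => AddMonoidHom.mk' (Pb hI hF C) (Pb_add hI hF C), fun _ _ => rfl⟩
  obtain ⟨PA, hPA⟩ := h1
  refine ⟨PA, hPA, fun C x => ?_, fun {C C'} h x => ?_, fun C x => ?_⟩
  · rw [hPA, hPA]
    exact Pb_inv hI hF C x
  · rw [hPA, hPA]
    exact Pb_rs hI hF h x
  · rw [hPA, hPA]
    exact Pb_nab hI hF C x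

theorem f7_gam {m : ℕ} {v : (lrC I).Ch} (hv : v ∈ (lrC I).Tt (m + 2)) (w : ∀ C, (lrC I).E C)
    (hN : ∀ C, ((lrC I).Dt v + thC (X := lrC I) (fun C => (df K (mkL I C F) : Fm K (LR I C))) v) C =
      if C.card = 1 then w C else 0)
    {η : (prC (cyc I F 1)).E {Fin.last n}} (hη : η ∈ Fd K ((prC (cyc I F 1)).R {Fin.last n}) (m + 2))
    (hηw : ∀ l : Fin n, (prC (cyc I F 1)).rs (z_sub {l}) η = Pb hI hF {l} (w {l})) :
    ∃ γ ∈ (prC (cyc I F 1)).Tt (m + 2), γ {Fin.last n} = η ∧ ∀ C : Finset (Fin n), C.Nonempty →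
      (prC (cyc I F 1)).Dt γ (ci C) =
        (-1 : ℤ) ^ m • phF hI hF C (wg hI C (fun t => if t = 0 then 1 else 0) (v C)) := by
  obtain ⟨γ, g1, g2, g3⟩ := F7a_exists hI hF (m := m) v η
  refine ⟨γ, ?_, g1, ?_⟩
  · refine ⟨g2 ∅ (Finset.notMem_empty _), fun J => ?_⟩
    by_cases hJ : Fin.last n ∈ J
    · obtain ⟨C, rfl⟩ := F7a_ex hJ
      rcases C.eq_empty_or_nonempty with h0 | h0
      · subst h0
        refine ⟨fun q hq => ?_, fun h => ?_⟩
        · rw [F7a_card, Finset.card_empty] at hq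
          have h1 : q = m + 2 := by omega
          subst h1
          have h2 : γ (ci (∅ : Finset (Fin n))) = η := g1
          rw [h2]
          exact hη
        · rw [F7a_card, Finset.card_empty] at h
          omega
      · rw [F7a_card, g3 C h0]
        refine ⟨fun q hq => zsmul_mem (Pb_mem hI hF C ((hv.2 C).1 (q + 1) (by omega))) _, fun h => ?_⟩
        have h1 : Pb hI hF C (v C) = 0 := by
          rcases Nat.lt_or_ge (m + 2 + 1) C.card with h2 | h2
          · rw [(hv.2 C).2 h2]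
            exact Pb_zero hI hF C (Submodule.zero_mem _)
          · exact Pb_zero hI hF C ((hv.2 C).1 0 (by omega))
        rw [h1, smul_zero]
    · rw [g2 J hJ]
      exact ⟨fun _ _ => Submodule.zero_mem _, fun _ => rfl⟩
  · intro C hC
    obtain ⟨PA, p0, p1, p2, p3⟩ := F7a_PA (n := n) (I := I) (F := F) hI hF
    have g4 : ∀ C : Finset (Fin n), C.Nonempty → γ (ci C) = (-1 : ℤ) ^ m • PA C (v C) := by
      intro C hC
      rw [p0]
      exact g3 C hC
    have hηw' : ∀ l : Fin n, (prC (cyc I F 1)).rs (z_sub {l}) η = PA {l} (w {l}) := by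
      intro l
      rw [p0]
      exact hηw l
    obtain ⟨T, hT⟩ : ∃ T : ∀ C : Finset (Fin n), (lrC I).E C, ∀ C, T C = df K (mkL I C F) :=
      ⟨fun C => df K (mkL I C F), fun _ => rfl⟩
    have hNC : dd K (v C) + (lrC I).del ((lrC I).ic v) C + T C * v C = if C.card = 1 then w C else 0 := by
      rw [hT]
      exact hN C
    have hnab : PA C (dd K (v C) + T C * v C) + dd K (PA C (v C)) =
        phF hI hF C (wg hI C (fun t => if t = 0 then 1 else 0) (v C)) := by
      rw [hT]
      exact p3 C (v C)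
    refine Eq.trans ?_ (congrArg (fun t => (-1 : ℤ) ^ m • t) hnab)
    rw [CovD.Dt_apply, Pi.add_apply, CovD.dc_apply, CovD.del_apply]
    have hsum : ∑ j ∈ ci C, sg j (ci C) • (prC (cyc I F 1)).ev ((prC (cyc I F 1)).ic γ) ((ci C).erase j) (ci C) =
        ∑ l ∈ C, sg l C • (prC (cyc I F 1)).ev ((prC (cyc I F 1)).ic γ) (ci (C.erase l)) (ci C) := by
      rw [Finset.sum_insert (W1_last_notMem C), Finset.sum_map]
      have h1 : (prC (cyc I F 1)).ev ((prC (cyc I F 1)).ic γ) ((ci C).erase (Fin.last n)) (ci C) = 0 := by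
        refine CovD.ev_eq_zero ?_ _
        rw [CovD.ic_apply, g2 _ (Finset.notMem_erase _ _), map_zero]
      rw [h1, smul_zero, zero_add]
      refine Finset.sum_congr rfl fun l _ => ?_
      rw [F7a_sg, F7a_er]
    rw [hsum, g4 C hC, map_zsmul]
    by_cases hc1 : C.card = 1
    · rw [if_pos hc1] at hNC
      obtain ⟨l, rfl⟩ := Finset.card_eq_one.1 hc1
      have h3 : ({l} : Finset (Fin n)).erase l = ∅ := Finset.erase_singleton l
      have h1 : (lrC I).del ((lrC I).ic v) {l} = 0 := by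
        rw [CovD.del_apply, Finset.sum_singleton]
        have h2 : (lrC I).ev ((lrC I).ic v) (({l} : Finset (Fin n)).erase l) {l} = 0 := by
          refine CovD.ev_eq_zero ?_ _
          rw [h3, CovD.ic_apply, hv.1, map_zero]
        rw [h2, smul_zero]
      rw [h1, add_zero] at hNC
      rw [Finset.sum_singleton, F7a_one, one_smul, hNC, ← hηw' l, smul_add]
      refine (add_comm _ _).trans ?_
      congr 1
      rw [h3]
      have h4 : (prC (cyc I F 1)).ev ((prC (cyc I F 1)).ic γ) (ci (∅ : Finset (Fin n))) (ci {l}) =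
          (prC (cyc I F 1)).rs (z_sub {l}) (MPadcGP.inv K (γ {Fin.last n})) := CovD.ev_of (z_sub {l})
      rw [h4, g1, inv_mem hη, pow_add, neg_one_sq, mul_one, map_mul, map_pow, map_neg, map_one, zsmul_eq_mul]
      push_cast
      rfl
    · rw [if_neg hc1] at hNC
      have h1 : ∀ l ∈ C, (prC (cyc I F 1)).ev ((prC (cyc I F 1)).ic γ) (ci (C.erase l)) (ci C) =
          -((-1 : ℤ) ^ m • PA C ((lrC I).ev ((lrC I).ic v) (C.erase l) C)) := by
        intro l hl
        have h2 : (C.erase l).Nonempty := by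
          rw [← Finset.card_pos, Finset.card_erase_of_mem hl]
          have := Finset.card_pos.2 hC
          omega
        rw [CovD.ev_of (ci_mono (Finset.erase_subset l C)), CovD.ev_of (Finset.erase_subset l C), CovD.ic_apply,
          CovD.ic_apply, g4 _ h2, p2, p1, map_neg, smul_neg, neg_neg, map_zsmul, map_zsmul]
      have h2 : ∑ l ∈ C, sg l C • (prC (cyc I F 1)).ev ((prC (cyc I F 1)).ic γ) (ci (C.erase l)) (ci C) =
          -((-1 : ℤ) ^ m • PA C ((lrC I).del ((lrC I).ic v) C)) := by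
        rw [CovD.del_apply, map_sum, Finset.smul_sum, ← Finset.sum_neg_distrib]
        refine Finset.sum_congr rfl fun l hl => ?_
        rw [h1 l hl, map_zsmul, smul_neg, smul_comm]
      have h3 : (lrC I).del ((lrC I).ic v) C = -(dd K (v C) + T C * v C) := by
        rw [eq_neg_iff_add_eq_zero, ← hNC]
        abel
      rw [h2, h3, map_neg, smul_neg, neg_neg, smul_add]
      exact add_comm _ _

end

end MPadcHS
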