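import Pool.Agent.Lib.MP_adc574_ag_DC.W1B
import Pool.Agent.Lib.MP_adc574_ag_DC.W1E

/-!
# JOB FExt (HS): cocycles on the charts without `z` extend to cocycles on all charts

`W1Aff X z`, `W1_exact`: DC/W1A.lean.
* `z_acyc`: the proof of `W1_acyc` (DC/W1A.lean) with the support: by induction on `t` (all `c K` with more than `t` elements vanish); there `c1` = the part of `c` on the sets with `t + 1` elements is `del`-closed (up to sign), `W1_exact` gives `b` on the sets with `t` elements, supported on the sets containing `z`, and `c - Dt (± b)` is the next one. All the `b` are supported on the sets containing `z`. (Copy the proof; the conclusion there is `c ∈ Bc m`, here the primitive with its support; `c ∈ Tt (m + 1)`, `b ∈ Tt m`.)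
* `ext_closed`: `W1_ext` (DC/W1B.lean) gives `c₁ : (prC Q).Ch` with `W1res Q c₁ = c` which vanishes on the sets containing `z`, `W1_ext_mem`: `c₁ ∈ Tt m`. `y := Dt c₁ ∈ Tt (m + 1)`: `W1res Q y = (W1X Q).Dt c = 0` (`W1res_Dt`), so `y` vanishes on the sets without `z` (`W1_exK`). `z_acyc` (`Dt y = 0`): `y = Dt b`, `b ∈ Tt m` supported on the sets containing `z`. `c' := c₁ - b`.
-/

set_option autoImplicit false
set_option linter.unusedSectionVars false

namespace MPadcHS

open MvPolynomial MPadcGP MPadcDC

universe u v

theorem z_acyc {A : Type u} [CommRing A] {N : ℕ} {X : CovD.{u, v} A N} {z : Fin N} (h : W1Aff X z) {m : ℕ} {c : X.Ch}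
    (hc : c ∈ X.Tt (m + 1)) (hz : ∀ K, z ∉ K → c K = 0) (hd : X.Dt c = 0) :
    ∃ b ∈ X.Tt m, (∀ K, z ∉ K → b K = 0) ∧ X.Dt b = c := by
  classical
  have key : ∀ (t : ℕ) (c : X.Ch), c ∈ X.Tt (m + 1) → (∀ K, z ∉ K → c K = 0) → X.Dt c = 0 →
      (∀ K : Finset (Fin N), t < K.card → c K = 0) → ∃ b ∈ X.Tt m, (∀ K, z ∉ K → b K = 0) ∧ X.Dt b = c := by
    intro t
    induction t with
    | zero =>
      intro c hc hz hd ht
      have h1 : c = 0 := by
        funext K
        rcases K.eq_empty_or_nonempty with hK | hK
        · subst hK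
          exact hc.1
        · exact ht K (Finset.card_pos.2 hK)
      rw [h1]
      exact ⟨0, Submodule.zero_mem _, fun _ _ => rfl, map_zero _⟩
    | succ t ih =>
      intro c hc hz hd ht
      rcases Nat.lt_or_ge (m + 1) t with hm | hm
      · refine ih c hc hz hd fun K hK => ?_
        rcases Nat.lt_or_ge (t + 1) K.card with h1 | h1
        · exact ht K h1
        · exact (hc.2 K).2 (by omega)
      obtain ⟨q, hq⟩ : ∃ q, q + t = m + 1 := ⟨m + 1 - t, by omega⟩
      set c1 : X.Ch := fun K => if K.card = t + 1 then c K else 0 with hc1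
      have c1of : ∀ {K : Finset (Fin N)}, K.card = t + 1 → c1 K = c K := fun hK => if_pos hK
      have c1not : ∀ {K : Finset (Fin N)}, K.card ≠ t + 1 → c1 K = 0 := fun hK => if_neg hK
      have hc1q : ∀ K, c1 K ∈ Fd A (X.R K) q := by
        intro K
        by_cases hK : K.card = t + 1
        · rw [c1of hK]
          exact (hc.2 K).1 q (by omega)
        · rw [c1not hK]
          exact Submodule.zero_mem _
      have hc1z : ∀ K, z ∉ K → c1 K = 0 := by
        intro K hK
        by_cases hK' : K.card = t + 1
        · rw [c1of hK', hz K hK]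
        · exact c1not hK'
      have hc1d : X.del c1 = 0 := by
        have h1 : X.del (X.ic c1) = 0 := by
          funext K
          by_cases hK : K.card = t + 2
          · have h2 : X.Dt c K = 0 := by rw [hd]; rfl
            rw [CovD.Dt_apply, Pi.add_apply, CovD.dc_apply, ht K (by omega), map_zero, zero_add, CovD.del_apply] at h2
            rw [CovD.del_apply, Pi.zero_apply, ← h2]
            refine Finset.sum_congr rfl fun l hl => ?_
            have := Finset.card_erase_add_one hl
            rw [CovD.ev_of (Finset.erase_subset l K), CovD.ev_of (Finset.erase_subset l K), CovD.ic_apply, CovD.ic_apply,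
              c1of (by omega)]
          · rw [CovD.del_apply]
            refine Finset.sum_eq_zero fun l hl => ?_
            have := Finset.card_erase_add_one hl
            rw [CovD.ev_ic, CovD.ev_eq_zero (c1not (by omega)), map_zero, smul_zero]
        rw [CovD.del_ic] at h1
        have h2 := congrArg X.ic h1
        rw [CovD.ic_ic, map_zero] at h2
        exact h2
      obtain ⟨b, hb1, hb2, hb3, hb4⟩ := W1_exact h hc1q (fun K hK => c1not hK) hc1z hc1d
      rcases Nat.eq_zero_or_pos t with ht0 | ht0
      · -- `b = 0`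
        subst ht0
        have h1 : b = 0 := by
          funext K
          rcases K.eq_empty_or_nonempty with hK | hK
          · subst hK
            exact hb3 _ (Finset.notMem_empty z)
          · exact hb2 K (Finset.card_pos.2 hK).ne'
        rw [h1, map_zero] at hb4
        refine ih c hc hz hd fun K hK => ?_
        by_cases hK' : K.card = 0 + 1
        · rw [← c1of hK', ← hb4]
          rfl
        · exact ht K (by omega)
      · have hbT : X.ic b ∈ X.Tt m := by
          refine ⟨?_, fun K => ⟨fun q' hq' => ?_, fun hK => ?_⟩⟩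
          · rw [CovD.ic_apply, hb3 _ (Finset.notMem_empty z), map_zero]
          · rw [CovD.ic_apply]
            by_cases hK : K.card = t
            · have : q' = q := by omega
              subst this
              exact inv_mem' (hb1 K)
            · rw [hb2 K hK, map_zero]
              exact Submodule.zero_mem _
          · rw [CovD.ic_apply, hb2 K (by omega), map_zero]
        have hDb : ∀ K, X.Dt (X.ic b) K = dd A (MPadcGP.inv A (b K)) + c1 K := by
          intro K
          rw [CovD.Dt_apply, CovD.ic_ic, hb4, Pi.add_apply, CovD.dc_apply, CovD.ic_apply]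
        obtain ⟨b2, hb21, hb22, hb23⟩ : ∃ b2 ∈ X.Tt m, (∀ K, z ∉ K → b2 K = 0) ∧ X.Dt b2 = c - X.Dt (X.ic b) := by
          refine ih _ (Submodule.sub_mem _ hc (CovD.Dt_mem hbT)) (fun K hK => ?_) ?_ fun K hK => ?_
          · rw [Pi.sub_apply, hDb, hz K hK, hb3 K hK, map_zero, map_zero, hc1z K hK, add_zero, sub_zero]
          · rw [map_sub, hd, CovD.Dt_Dt, sub_zero]
          · rw [Pi.sub_apply, hDb, hb2 K (by omega), map_zero, map_zero, zero_add]
            by_cases hK' : K.card = t + 1
            · rw [c1of hK', sub_self]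
            · rw [c1not hK', sub_zero]
              exact ht K (by omega)
        refine ⟨b2 + X.ic b, Submodule.add_mem _ hb21 hbT, fun K hK => ?_, ?_⟩
        · rw [Pi.add_apply, hb22 K hK, CovD.ic_apply, hb3 K hK, map_zero, add_zero]
        · rw [map_add, hb23, sub_add_cancel]
  refine key N c hc hz hd fun K hK => ?_
  have := Finset.card_le_univ K
  rw [Fintype.card_fin] at this
  omega

theorem ext_closed {A : Type u} [CommRing A] {n e : ℕ} [NeZero e] {I : Ideal (MvPolynomial (Fin n) A)}
    (hI : IsHomog I) {F : MvPolynomial (Fin n) A} (hF : F.IsHomogeneous e) {m : ℕ} {c : (W1X (cyc I F e)).Ch}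
    (hc : c ∈ (W1X (cyc I F e)).Zc m) : ∃ c' ∈ (prC (cyc I F e)).Zc m, W1res (cyc I F e) c' = c := by
  obtain ⟨c1, h1, h2⟩ := W1_ext (cyc I F e) c
  have h3 : c1 ∈ (prC (cyc I F e)).Tt m := W1_ext_mem (cyc I F e) hc.1 h1 h2
  obtain ⟨b, hb1, hb2, hb3⟩ := z_acyc (W1aff hI hF) (m := m) (c := (prC (cyc I F e)).Dt c1) (CovD.Dt_mem h3)
    (fun K' hK' => by
      obtain ⟨K, rfl⟩ := W1_exK hK'
      have h4 : W1res (cyc I F e) ((prC (cyc I F e)).Dt c1) = 0 := by
        rw [← W1res_Dt, h1]
        exact hc.2
      exact congrFun h4 K) (CovD.Dt_Dt _)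
  refine ⟨c1 - b, ⟨Submodule.sub_mem _ h3 hb1, ?_⟩, ?_⟩
  · show (prC (cyc I F e)).Dt (c1 - b) = 0
    rw [map_sub, hb3, sub_self]
  · funext K
    have h5 : b (K.map Fin.castSuccEmb) = 0 := hb2 _ (W1_last_notMem K)
    change c1 (K.map Fin.castSuccEmb) - b (K.map Fin.castSuccEmb) = c K
    rw [h5, sub_zero]
    exact congrFun h1 K

end MPadcHS
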