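import Pool.Agent.Lib.MP_adc574_ag_HS.FCh
import Pool.Agent.Lib.MP_adc574_ag_HS.FExt

/-!
# JOB F7b (HS): the weight `0` part of the solution gives a cocycle of `Y`

`x C ∈ Fm K (LR I C)` of weight `0` for all `C`, `x ∈ (lrC I).Tt (m + 2)`, `Dt x = 0`, `ι = ct K (eu hI C)`.
* `ζ C := ι (x C)`: `ζ ∈ Tt (m + 1)` (`ct_mem`, `ct_mem_zero`), and `Dt ζ = - ι (Dt x) + L x = 0`: `(Dt ζ) C = dd (ι (x C)) + ∑ sg j C • rs (inv (ι (x (C.erase j)))) = dd (ι (x C)) - ι (∑ sg j C • rs (inv (x (C.erase j))))` (`ct_inv`, `ct_rs`) and `dd (ι (x C)) = - ι (dd (x C))` as the weight is `0` (`Wt`).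
* `ζ' C := reF hI hC (ζ C)` for nonempty `C`, `0` for `C = ∅` (`dite`): `inF (ζ' C) = ζ C` (`ct_wt0`). `ζ' ∈ (prC I).Tt (m + 1)` (`mp_mem`), `Dt ζ' = 0`: `inF` is injective on forms (`reF_inF`), `inF (Dt ζ' C) = (Dt ζ) C` (`inF_rsc`, `mp_dd`, `mp_inv`; terms with `C.erase j = ∅` are `0`).
* `ζQ := (W1F I F 1).push ζ' ∈ (W1X Q).Zc (m + 1)` (`W1F_Dt`, `CovD.Hm.push_mem_Tt`), `ext_closed hI hF` (FExt.lean, `e = 1`): `c' ∈ (prC Q).Zc (m + 1)`, `c' (cm C) = (W1F I F 1).e C (ζ' C)`. `c := -c'`.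
* `β`: `y' C := reF hI hC (x C)` (`0` for `C = ∅`), `y' ∈ (prC I).Tt (m + 2)`, `W1_ext` of `(W1F I F 1).push y'`, `W1_ext_mem`: `β (cm C) = (W1F I F 1).e C (reF hI hC (x C))`.
* `phF_wt0`: `phF (x C) = rs (β (cm C)) - dlg * rs (c' (cm C)) = rs (β (cm C)) + dlg * rs (c (cm C))`.
-/

set_option autoImplicit false
set_option linter.unusedSectionVars false

namespace MPadcHS

open MvPolynomial MPadcGP MPadcDC

universe u

section abs

variable {K R S : Type u} [Field K] [CommRing R] [Algebra K R] [CommRing S] [Algebra K S]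

/-- The contraction, additive. -/
private noncomputable def F7b_ctA (θ : Derivation K R R) : Fm K R →+ Fm K R := (ct K θ).toAddMonoidHom

private theorem F7b_A_inv (θ : Derivation K R R) (y : Fm K R) :
    MPadcGP.inv K (F7b_ctA θ y) = -F7b_ctA θ (MPadcGP.inv K y) := (neg_eq_iff_eq_neg.2 (ct_inv (A := K) θ y)).symm

private theorem F7b_A_dd (θ : Derivation K R R) {y : Fm K R}
    (hw : dd K (ct K θ y) + ct K θ (dd K y) = ((0 : ℤ) : K) • y) : dd K (F7b_ctA θ y) = -F7b_ctA θ (dd K y) := by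
  rw [Int.cast_zero, zero_smul] at hw
  exact eq_neg_of_add_eq_zero_left hw

private theorem F7b_A_mem (θ : Derivation K R R) {q : ℕ} {y : Fm K R} (h : y ∈ Fd K R (q + 1)) :
    F7b_ctA θ y ∈ Fd K R q := ct_mem (A := K) θ h

private theorem F7b_A_mem0 (θ : Derivation K R R) {y : Fm K R} (h : y ∈ Fd K R 0) :
    F7b_ctA θ y = 0 := ct_mem_zero (A := K) θ h

private theorem F7b_A_rs (θ : Derivation K R R) (θ' : Derivation K S S) (r : Fm K R →+* Fm K S)
    (h : ∀ y, r (ct K θ y) = ct K θ' (r y)) (y : Fm K R) : r (F7b_ctA θ y) = F7b_ctA θ' (r y) := h y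

private theorem F7b_A_mp (φ : R →ₐ[K] S) {q : ℕ} {y : Fm K R} (h : y ∈ Fd K R q) :
    mp (φ : R →+* S) (CC.of_algHom φ) y ∈ Fd K S q := mp_mem (CC.of_algHom φ) h

private theorem F7b_fin {E T : Type*} [Ring E] [Ring T] (f : E →+* T) (d : T) {c z b y : E} (h1 : c = z) (h2 : b = y) :
    f y - d * f z = d * f (-c) + f b := by
  rw [h1, h2, map_neg, mul_neg, neg_add_eq_sub]

private theorem F7b_zero {E T : Type*} [Ring E] [Ring T] (f : E →+* T) {x : E} (h : x = 0) : f x = 0 := by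
  rw [h, map_zero]

end abs

section

variable {K : Type u} [Field K] [CharZero K] {n : ℕ} {I : Ideal (MvPolynomial (Fin n) K)}
  {F : MvPolynomial (Fin n) K} (hI : IsHomog I) (hF : F.IsHomogeneous 1)

/-- The inclusion of the charts. -/
private noncomputable def F7b_in (I : Ideal (MvPolynomial (Fin n) K)) : CovD.Hm (RingHom.id K) (prC I) (lrC I) where
  h C := ((chart I C).val : chart I C →+* LR I C)
  base _ _ := rfl
  comm h x := (trL_val I h x).symm

/-- The retraction, as a map between the values of the cover data. -/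
private noncomputable def F7b_rE (hI : IsHomog I) {C : Finset (Fin n)} (hC : C.Nonempty) :
    (lrC I).E C →+* (prC I).E C := reF hI hC

private theorem F7b_rE_in {C : Finset (Fin n)} (hC : C.Nonempty) (y : (prC I).E C) :
    F7b_rE hI hC ((F7b_in I).e C y) = y := reF_inF hI hC y

include hI in
private theorem F7b_inj {y : (prC I).Ch} (h0 : y ∅ = 0) (h : (F7b_in I).push y = 0) : y = 0 := by
  funext C
  rcases C.eq_empty_or_nonempty with hC | hC
  · subst hC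
    exact h0
  · have h1 : (F7b_in I).e C (y C) = 0 := congrFun h C
    have h2 := F7b_rE_in hI hC (y C)
    rw [h1, map_zero] at h2
    exact h2.symm

/-- The contraction, as a map of the values of the cover data. -/
private noncomputable def F7b_ct (hI : IsHomog I) (C : Finset (Fin n)) : (lrC I).E C →+ (lrC I).E C :=
  @F7b_ctA K (LR I C) _ _ _ (eu hI C)

private theorem F7b_ct_rs {C C' : Finset (Fin n)} (h : C ⊆ C') (y : (lrC I).E C) :
    (lrC I).rs h (F7b_ct hI C y) = F7b_ct hI C' ((lrC I).rs h y) :=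
  @F7b_A_rs K (LR I C) (LR I C') _ _ _ _ _ (eu hI C) (eu hI C') ((lrC I).rs h) (fun y => ct_rs (hI := hI) h y) y

private theorem F7b_ct_inv (C : Finset (Fin n)) (y : (lrC I).E C) :
    MPadcGP.inv K (F7b_ct hI C y) = -F7b_ct hI C (MPadcGP.inv K y) :=
  @F7b_A_inv K (LR I C) _ _ _ (eu hI C) y

private theorem F7b_ct_dd {C : Finset (Fin n)} {y : (lrC I).E C} (hw : Wt hI C 0 y) :
    dd K (F7b_ct hI C y) = -F7b_ct hI C (dd K y) :=
  @F7b_A_dd K (LR I C) _ _ _ (eu hI C) y hw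

private theorem F7b_ct_mem (C : Finset (Fin n)) {q : ℕ} {y : (lrC I).E C} (h : y ∈ Fd K ((lrC I).R C) (q + 1)) :
    F7b_ct hI C y ∈ Fd K ((lrC I).R C) q := @F7b_A_mem K (LR I C) _ _ _ (eu hI C) q y h

private theorem F7b_ct_mem0 (C : Finset (Fin n)) {y : (lrC I).E C} (h : y ∈ Fd K ((lrC I).R C) 0) :
    F7b_ct hI C y = 0 := @F7b_A_mem0 K (LR I C) _ _ _ (eu hI C) y h

/-- The retraction of cochains of weight zero. -/
private noncomputable def F7b_re (hI : IsHomog I) (x : (lrC I).Ch) : (prC I).Ch := by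
  classical
  exact fun C => if hC : C.Nonempty then F7b_rE hI hC (x C) else 0

private theorem F7b_re_of (x : (lrC I).Ch) {C : Finset (Fin n)} (hC : C.Nonempty) :
    F7b_re hI x C = F7b_rE hI hC (x C) := dif_pos hC

private theorem F7b_re_empty (x : (lrC I).Ch) : F7b_re hI x ∅ = 0 := dif_neg Finset.not_nonempty_empty

private theorem F7b_re_mem {m : ℕ} {x : (lrC I).Ch} (hx : x ∈ (lrC I).Tt m) : F7b_re hI x ∈ (prC I).Tt m := by
  refine ⟨F7b_re_empty hI x, fun C => ⟨fun q hq => ?_, fun h => ?_⟩⟩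
  · rcases C.eq_empty_or_nonempty with hC | hC
    · subst hC
      rw [F7b_re_empty]
      exact Submodule.zero_mem _
    · rw [F7b_re_of hI x hC]
      exact @F7b_A_mp K (LR I C) (chart I C) _ _ _ _ _ (reL hI hC) q (x C) ((hx.2 C).1 q hq)
  · have hC : C.Nonempty := Finset.card_pos.1 (by omega)
    rw [F7b_re_of hI x hC, (hx.2 C).2 h, map_zero]

private theorem F7b_Dt0 {X : CovD.{u, u} K n} {c : X.Ch} (h : c ∅ = 0) : X.Dt c ∅ = 0 := by
  rw [CovD.Dt_apply, Pi.add_apply, CovD.dc_apply, h, map_zero, CovD.del_apply, Finset.sum_empty, add_zero]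

private theorem F7b_zeta_mem {m : ℕ} {x : (lrC I).Ch} (hx : x ∈ (lrC I).Tt (m + 1)) :
    (fun C => F7b_ct hI C (x C) : (lrC I).Ch) ∈ (lrC I).Tt m := by
  refine ⟨?_, fun C => ⟨fun q hq => ?_, fun h => ?_⟩⟩
  · change F7b_ct hI ∅ (x ∅) = 0
    rw [hx.1, map_zero]
  · exact F7b_ct_mem hI C ((hx.2 C).1 (q + 1) (by omega))
  · change F7b_ct hI C (x C) = 0
    rcases Nat.lt_or_ge (m + 1 + 1) C.card with h1 | h1
    · rw [(hx.2 C).2 h1, map_zero]
    · exact F7b_ct_mem0 hI C ((hx.2 C).1 0 (by omega))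

private theorem F7b_zeta_Dt {x : (lrC I).Ch} (hw : ∀ C, Wt hI C 0 (x C)) (hd : (lrC I).Dt x = 0) :
    (lrC I).Dt (fun C => F7b_ct hI C (x C) : (lrC I).Ch) = 0 := by
  obtain ⟨ζ, hζ⟩ : ∃ ζ : (lrC I).Ch, ζ = fun C => F7b_ct hI C (x C) := ⟨_, rfl⟩
  have hζC : ∀ C, ζ C = F7b_ct hI C (x C) := fun C => congrFun hζ C
  rw [← hζ]
  funext C
  rw [CovD.Dt_apply, Pi.add_apply, CovD.dc_apply, CovD.del_apply, Pi.zero_apply]
  have h1 : ∀ j ∈ C, sg j C • (lrC I).ev ((lrC I).ic ζ) (C.erase j) C =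
      -F7b_ct hI C (sg j C • (lrC I).ev ((lrC I).ic x) (C.erase j) C) := by
    intro j _
    rw [CovD.ev_of (Finset.erase_subset j C), CovD.ev_of (Finset.erase_subset j C), CovD.ic_apply, CovD.ic_apply,
      hζC, map_zsmul, ← smul_neg, F7b_ct_inv, map_neg, F7b_ct_rs]
  rw [Finset.sum_congr rfl h1, Finset.sum_neg_distrib, ← map_sum, hζC]
  have h5 : (lrC I).Dt x C = 0 := by rw [hd]; rfl
  rw [CovD.Dt_apply, Pi.add_apply, CovD.dc_apply, CovD.del_apply] at h5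
  rw [F7b_ct_dd hI (hw C), ← neg_add, ← map_add, h5, map_zero, neg_zero]

theorem f7_zet {m : ℕ} {x : (lrC I).Ch} (hx : x ∈ (lrC I).Tt (m + 2)) (hw : ∀ C, Wt hI C 0 (x C))
    (hd : (lrC I).Dt x = 0) : ∃ c ∈ (prC (cyc I F 1)).Zc (m + 1), ∃ β ∈ (prC (cyc I F 1)).Tt (m + 2),
      ∀ (C : Finset (Fin n)) (hC : C.Nonempty), phF hI hF C (x C) =
        dlg (cyc I F 1) (ci C) (Fin.last n) (C.min' hC).castSucc (Finset.mem_insert_self _ _)
          (Finset.mem_insert_of_mem (Finset.mem_map_of_mem Fin.castSuccEmb (C.min'_mem hC))) *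
          (prC (cyc I F 1)).rs (Finset.subset_insert (Fin.last n) (cm C)) (c (cm C)) +
        (prC (cyc I F 1)).rs (Finset.subset_insert (Fin.last n) (cm C)) (β (cm C)) := by
  obtain ⟨ζ, hζ⟩ : ∃ ζ : (lrC I).Ch, ζ = fun C => F7b_ct hI C (x C) := ⟨_, rfl⟩
  have hζC : ∀ C, ζ C = F7b_ct hI C (x C) := fun C => congrFun hζ C
  have hζT : ζ ∈ (lrC I).Tt (m + 1) := by
    rw [hζ]
    exact F7b_zeta_mem hI hx
  have hζD : (lrC I).Dt ζ = 0 := by
    rw [hζ]
    exact F7b_zeta_Dt hI hw hd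
  have hz1 : F7b_re hI ζ ∈ (prC I).Tt (m + 1) := F7b_re_mem hI hζT
  have hpush : (F7b_in I).push (F7b_re hI ζ) = ζ := by
    funext C
    rw [CovD.Hm.push_apply]
    rcases C.eq_empty_or_nonempty with hC | hC
    · subst hC
      rw [F7b_re_empty, map_zero, hζT.1]
    · rw [F7b_re_of hI ζ hC, hζC]
      exact ct_wt0 hI hC (hw C)
  have hz2 : (prC I).Dt (F7b_re hI ζ) = 0 := by
    refine F7b_inj hI (F7b_Dt0 (F7b_re_empty hI ζ)) ?_
    rw [CovD.Hm.push_Dt, hpush, hζD]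
  have hQ : (W1F I F 1).push (F7b_re hI ζ) ∈ (W1X (cyc I F 1)).Zc (m + 1) := by
    refine ⟨CovD.Hm.push_mem_Tt hz1, ?_⟩
    show (W1X (cyc I F 1)).Dt ((W1F I F 1).push (F7b_re hI ζ)) = 0
    rw [← W1F_Dt, hz2, map_zero]
  obtain ⟨c', hc', hc'2⟩ := ext_closed hI hF hQ
  have hy : F7b_re hI x ∈ (prC I).Tt (m + 2) := F7b_re_mem hI hx
  obtain ⟨β, hβ1, hβ2⟩ := W1_ext (cyc I F 1) ((W1F I F 1).push (F7b_re hI x))
  have hβ : β ∈ (prC (cyc I F 1)).Tt (m + 2) := W1_ext_mem (cyc I F 1) (CovD.Hm.push_mem_Tt hy) hβ1 hβ2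
  refine ⟨-c', Submodule.neg_mem _ hc', β, hβ, fun C hC => ?_⟩
  have h1 : c' (cm C) = (W1F I F 1).e C (F7b_re hI ζ C) := congrFun hc'2 C
  have h2 : F7b_re hI ζ C = F7b_rE hI hC (F7b_ct hI C (x C)) :=
    (F7b_re_of hI ζ hC).trans (congrArg (F7b_rE hI hC) (hζC C))
  have h3 : β (cm C) = (W1F I F 1).e C (F7b_re hI x C) := congrFun hβ1 C
  have h4 : F7b_re hI x C = F7b_rE hI hC (x C) := F7b_re_of hI x hC
  exact (phF_wt0 hI hF hC (hw C)).trans (F7b_fin _ _ (h1.trans (congrArg ((W1F I F 1).e C) h2))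
    (h3.trans (congrArg ((W1F I F 1).e C) h4)))

end

end MPadcHS
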