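import Pool.Agent.Lib.MP_adc574_ag_HS.FDefs
import Pool.Agent.Lib.MP_adc574_ag_DC.GTop
import Pool.Agent.Lib.MP_adc574_ag_DC.GFra
import Pool.Agent.Lib.MP_adc574_ag_DC.GLoc
import Pool.Agent.Lib.MP_adc574_ag_DC.GBaseC

/-!
# JOB FTop (HS): the forms of degree `> m + 1` on `S[1/x_C]` vanish

`Good J m`: the cone has the dimension `m + 1`.
* `top_lr`: choose `l ∈ C`. If `X l ∈ J` then the unit `lx J C l` (`lx_isUnit`) is the class of `X l`, so `0`, the ring `LR J C` is trivial, and so is the algebra of forms (`1 = fz 1 = fz 0 = 0`). Otherwise: forms of degree `q` on `LR J {l}` vanish: `exists_fra hJ le_rfl hl` (`e = 1`, DC/GFra.lean) and `topC` (DC/GTop.lean). For `y ∈ Fd κ (LR J C) q`: `mp_surj` (GP/FmLoc.lean) for the localization `CR J → LR J C` at the powers of `∏_{j ∈ C} x_j`: `fz s * y = mp y₀` with `s` a unit in `LR J C`, `y₀ ∈ Fd κ (CR J) q`. The image of `y₀` in the forms on `LR J {l}` is `0`, so `mp_ker`: `fz m * y₀ = 0`, `m` a power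 of `x_l`; in `LR J C` the image of `m` is a unit (`l ∈ C`). So `mp y₀ = 0` and `y = 0`.
* `top_lrG`: `FdG κ Γ q = ((Fd κ (LR J C) q).restrictScalars κ).baseChange _`, and the submodule is `⊥` by `top_lr` (`Submodule.baseChange_bot`).
-/

set_option autoImplicit false
set_option linter.unusedSectionVars false

namespace MPadcHS

open MvPolynomial TensorProduct MPadcGP MPadcDC

universe u

variable {κ : Type u} [Field κ] [CharZero κ] {n : ℕ} {J : Ideal (MvPolynomial (Fin n) κ)} {m : ℕ}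

omit [CharZero κ] in
private theorem FTop_unit {R : Type u} [CommRing R] [Algebra κ R] {s : R} (hs : IsUnit s) {y : Fm κ R}
    (h : fz κ s * y = 0) : y = 0 := by
  obtain ⟨t, ht⟩ := hs.exists_left_inv
  rw [← one_mul y, ← map_one (fz κ : R →+* Fm κ R), ← ht, map_mul, mul_assoc, h, mul_zero]

theorem top_lr (hJ : Good J m) {C : Finset (Fin n)} (hC : C.Nonempty) {q : ℕ} (hq : m + 1 < q)
    {y : Fm κ (LR J C)} (hy : y ∈ Fd κ (LR J C) q) : y = 0 := by
  obtain ⟨l, hl⟩ := hC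
  obtain ⟨s, hs, y₀, hy₀, h1⟩ :=
    mp_surj (Submonoid.powers (Ideal.Quotient.mk J (∏ j ∈ C, X j))) (cc_alg (A := κ) (R := CR J) (S := LR J C)) hy
  have h2 : mp (algebraMap (CR J) (LR J {l})) (cc_alg (A := κ) (R := CR J) (S := LR J {l})) y₀ = 0 :=
    LR_top hJ hq (mp_mem _ hy₀)
  obtain ⟨t, ht, h3⟩ := mp_ker (Submonoid.powers (Ideal.Quotient.mk J (∏ j ∈ ({l} : Finset (Fin n)), X j)))
    (cc_alg (A := κ) (R := CR J) (S := LR J {l})) h2
  have h4 : IsUnit (algebraMap (CR J) (LR J C) t) := by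
    obtain ⟨k, rfl⟩ := ht
    rw [Finset.prod_singleton, map_pow]
    exact (lx_isUnit J C hl).pow k
  have h5 : mp (algebraMap (CR J) (LR J C)) (cc_alg (A := κ) (R := CR J) (S := LR J C)) y₀ = 0 := by
    refine FTop_unit h4 ?_
    rw [← mp_fz (cc_alg (A := κ) (R := CR J) (S := LR J C)), ← map_mul, h3, map_zero]
  have h6 : IsUnit (algebraMap (CR J) (LR J C) s) := IsLocalization.map_units _
    (⟨s, hs⟩ : Submonoid.powers (Ideal.Quotient.mk J (∏ j ∈ C, X j)))
  exact FTop_unit h6 (h1.trans h5)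

theorem top_lrG (hJ : Good J m) {C : Finset (Fin n)} (hC : C.Nonempty) {Γ : Type} [Fintype Γ] {q : ℕ} (hq : m + 1 < q)
    {y : FG κ Γ (LR J C)} (hy : y ∈ FdG κ Γ (C := LR J C) q) : y = 0 := by
  refine FdG_ind (P := fun y => y = 0) rfl ?_ ?_ hy
  · intro r c t
    have h1 : fz κ c * wd κ t = 0 := top_lr hJ hC hq (fz_mul_mem c (wd_mem t))
    rw [h1, TensorProduct.tmul_zero]
  · intro a b ha hb
    rw [ha, hb, add_zero]

end MPadcHS
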