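import Pool.Agent.Lib.MP_adc574_ag_HS.FEta
import Pool.Agent.Lib.MP_adc574_ag_HS.F6
import Pool.Agent.Lib.MP_adc574_ag_HS.F7b
import Pool.Agent.Lib.MP_adc574_ag_HS.FTop

/-!
# JOB F8 (HS): the residue of the closed form `η` is the restriction of a class of `Y`

* `wt_zero`: `L (wg δ₀ x) = wg (t ↦ t) (wg δ₀ x) = wg (t ↦ t * δ₀ t) x = 0` (`wg_L`, `wg_wg`; the function `t * δ₀ t` is `0`, and `wg (fun _ => 0) x = 0` by `wg_bdd` or `wg_add`).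
* `f8_res`: `x := WC hI δ₀ v`; `f7_zet` (F7b.lean) for `x` (`WC_mem`, `wt_zero`, `hd`) gives `c₀, β₀`; `f7_gam` (F7a.lean) gives `γ`. `c := (-1)^m • c₀`, `β := (-1)^m • β₀`. `ResR` (VDefs.lean): `γ ∈ Tt (m + 2)`, `γ {z} = η`, `Lg (m + 1) (Dt γ) c`: `c ∈ Zc (m + 1) ≤ Tt (m + 1)`, `β ∈ Tt (m + 2)`, and for `C'` nonempty with `z ∉ C'`: `C' = cm C`, `C` nonempty (`C := univ.filter (fun l => l.castSucc ∈ C')`, or the lemma for this in DC/W1*.lean), `(Dt γ) (insert z C') = (-1)^m • phF (x C) = dlg .. * rs (c C') + rs (β C')`; `(dzQ hle).dl C' = dlg ..` (`dlz_eq`, V2E.lean; the index `(cm C).min' = (C.min').castSucc`: `min_cm`, FCh.lean), `(dzQ hle).re C' = (prC Q).rs (subset_insert)` by definition.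
* `f8_tr`: `c ∈ (prC Q).Zc (m + 1)`, so `(rsH hle).push c ∈ (prC P).Zc (m + 1)` (`CovD.Hm.push_mem_Zc` or the lemma for this in GP/Cov*.lean, GP/Hom.lean), `hs` gives `s η = cl ⟨push c, _⟩`, and this is in `Tr hle (m + 1)` with `y := cl ⟨c, _⟩` (Defs.lean: `Tr`, `resR`).
* `fp_core`: `exists_eta` gives `η`. `f6_sol` for the family `C ↦ bw J K C w`: `hw`: `bw_mem`; `hwr`: `bw_rs`; `hcl`: `be_nG` with `x = loG .. w`: `nG x` has the degree `m + 4 > (m + 2) + 1`, so it is `0` (`top_lrG`; `x ∈ FdG (m + 3)`: `loG` preserves the degrees: GLoc.lean / on `r ⊗ v`; `nG x ∈ FdG (m + 4)`); `hw0`: `bw_wg`; `hex1`: `hl l` gives `v`, `y := be J K {l} v` (`be_mem`, `be_nG`, `bw_apply`); `hex`: `exK` with `hG`. Then `f8_res`, `f8_tr`.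
-/

set_option autoImplicit false
set_option linter.unusedSectionVars false

namespace MPadcHS

open MvPolynomial TensorProduct MPadcGP MPadcGP2 MPadcDC

universe u

section

private theorem f8_dlg {A : Type u} [CommRing A] {N : ℕ} (Q : Ideal (MvPolynomial (Fin N) A)) {C : Finset (Fin N)}
    {l j j' : Fin N} (h : j = j') {hl : l ∈ C} {hj : j ∈ C} {hj' : j' ∈ C} :
    dlg Q C l j hl hj = dlg Q C l j' hl hj' := by
  subst h
  rfl

private theorem f8_nG {κ : Type u} [Field κ] {Γ : Type} [Fintype Γ] {C : Type u} [CommRing C] [Algebra κ C]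
    (b : Γ → C) {q : ℕ} {x : FG κ Γ C} (hx : x ∈ FdG κ Γ q) : nG κ b x ∈ FdG κ Γ (q + 1) := by
  rw [nG_apply]
  refine Submodule.add_mem _ ?_ (thG_mul_mem b hx)
  refine GGrS_bcInd (P := fun x => (MPadcDC.ddl κ C).baseChange (MvPolynomial Γ κ) x ∈ FdG κ Γ (q + 1)) ?_ ?_ ?_ hx
  · rw [map_zero]
    exact Submodule.zero_mem _
  · intro r x hx
    rw [LinearMap.baseChange_tmul]
    exact tmul_FdG r (dd_mem hx)
  · intro x y hx hy
    rw [map_add]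
    exact Submodule.add_mem _ hx hy

private theorem f8_VR {κ : Type u} [Field κ] [CharZero κ] {n : ℕ} {J : Ideal (MvPolynomial (Fin n) κ)} (hJ : IsHomog J)
    {q : ℕ} {w : FR J 1} (hw : w ∈ ⨆ k, (cxS hJ 1 1).VR q k) : w ∈ FdG κ (Mon n 1) (C := CR J) q := by
  have h1 : (⨆ k, (cxS hJ 1 1).VR q k) ≤ FdG κ (Mon n 1) (C := CR J) q :=
    iSup_le fun k x hx => OmR_le (e := 1) (j := 1 + 1 * k) hx
  exact h1 hw

variable {K : Type u} [Field K] [CharZero K] {n : ℕ} {I : Ideal (MvPolynomial (Fin n) K)}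
  {F : MvPolynomial (Fin n) K}

theorem wt_zero (hI : IsHomog I) (C : Finset (Fin n)) (x : Fm K (LR I C)) :
    Wt hI C 0 (wg hI C (fun t => if t = 0 then 1 else 0) x) := by
  have h0 : wg hI C (fun _ => 0) x = 0 := by
    have h1 := wg_add (hI := hI) (C := C) (fun _ => 0) (fun _ => 0) x
    have h2 : (fun t : ℤ => (fun _ => 0 : ℤ → K) t + (fun _ => 0 : ℤ → K) t) = fun _ => 0 := by
      funext t
      exact add_zero _
    rw [h2] at h1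
    have h3 : wg hI C (fun _ => 0) x + 0 = wg hI C (fun _ => 0) x + wg hI C (fun _ => 0) x := by
      rw [add_zero]
      exact h1
    exact (add_left_cancel h3).symm
  unfold Wt
  rw [wg_L, wg_wg]
  have h4 : (fun t : ℤ => (t : K) * (if t = 0 then 1 else 0)) = fun _ => 0 := by
    funext t
    split_ifs with h
    · rw [h, Int.cast_zero, zero_mul]
    · rw [mul_zero]
  rw [h4, h0, Int.cast_zero, zero_smul]

theorem f8_res (hI : IsHomog I) (hF : F.IsHomogeneous 1) {P : Ideal (MvPolynomial (Fin (n + 1)) K)}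
    (hle : cyc I F 1 ≤ P) {m : ℕ} {v : (lrC I).Ch} (hv : v ∈ (lrC I).Tt (m + 2)) (w : ∀ C, (lrC I).E C)
    (hN : ∀ C, ((lrC I).Dt v + thC (X := lrC I) (fun C => (df K (mkL I C F) : Fm K (LR I C))) v) C =
      if C.card = 1 then w C else 0)
    (hd : (lrC I).Dt (WC hI (fun t => if t = 0 then 1 else 0) v) = 0)
    {η : (prC (cyc I F 1)).E {Fin.last n}} (hη : η ∈ Fd K ((prC (cyc I F 1)).R {Fin.last n}) (m + 2))
    (hηw : ∀ l : Fin n, (prC (cyc I F 1)).rs (z_sub {l}) η = Pb hI hF {l} (w {l})) :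
    ∃ c ∈ (prC (cyc I F 1)).Zc (m + 1), (dzQ hle).ResR (m + 1) η c := by
  classical
  have hh0 := f7_zet hI hF (WC_mem hI (fun t => if t = 0 then 1 else 0) hv)
    (fun C => wt_zero hI C (v C)) hd
  obtain ⟨c₀, hc₀, β₀, hβ₀, h1⟩ := hh0
  have hh1 := f7_gam hI hF hv w hN hη hηw
  obtain ⟨γ, hγ, hγz, h2⟩ := hh1
  have hc : (-1 : ℤ) ^ m • c₀ ∈ (prC (cyc I F 1)).Zc (m + 1) := zsmul_mem hc₀ _
  refine ⟨(-1 : ℤ) ^ m • c₀, hc, γ, hγ, hγz, hc.1, (-1 : ℤ) ^ m • β₀, zsmul_mem hβ₀ _, ?_⟩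
  intro C' hC' hz
  have hh2 := W1_exK hz
  obtain ⟨C, rfl⟩ := hh2
  have hC : C.Nonempty := Finset.map_nonempty.1 hC'
  refine (h2 C hC).trans ?_
  have h3 := h1 C hC
  rw [WC_apply] at h3
  rw [h3, dlz_eq hle hC' hz, f8_dlg (cyc I F 1) (min_cm hC hC')
    (hj' := Finset.mem_insert_of_mem (Finset.mem_map_of_mem Fin.castSuccEmb (C.min'_mem hC))), smul_add]
  have h4 : (dzQ hle).re (C.map Fin.castSuccEmb) (((-1 : ℤ) ^ m • c₀) (C.map Fin.castSuccEmb)) =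
      (-1 : ℤ) ^ m • (prC (cyc I F 1)).rs (Finset.subset_insert (Fin.last n) (cm C)) (c₀ (cm C)) :=
    map_zsmul ((prC (cyc I F 1)).rs (Finset.subset_insert (Fin.last n) (cm C))) _ _
  have h5 : (dzQ hle).re (C.map Fin.castSuccEmb) (((-1 : ℤ) ^ m • β₀) (C.map Fin.castSuccEmb)) =
      (-1 : ℤ) ^ m • (prC (cyc I F 1)).rs (Finset.subset_insert (Fin.last n) (cm C)) (β₀ (cm C)) :=
    map_zsmul ((prC (cyc I F 1)).rs (Finset.subset_insert (Fin.last n) (cm C))) _ _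
  refine Eq.trans ?_ (congrArg₂ (fun a b => dlg (cyc I F 1) (ci C) (Fin.last n) (C.min' hC).castSucc
    (Finset.mem_insert_self _ _)
    (Finset.mem_insert_of_mem (Finset.mem_map_of_mem Fin.castSuccEmb (C.min'_mem hC))) * a + b) h4 h5).symm
  rw [mul_smul_comm]

theorem f8_tr {Q P : Ideal (MvPolynomial (Fin (n + 1)) K)} (hle : Q ≤ P) {m : ℕ}
    (s : ↥((dzQ hle).Zz (m + 2)) →ₗ[K] (prC P).HdR (m + 1))
    (hs : ∀ (η : ↥((dzQ hle).Zz (m + 2))) (c : (dzQ hle).Y.Ch)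
      (_ : (dzQ hle).ResR (m + 1) (η : (dzQ hle).Y.E {(dzQ hle).z}) c)
      (hc : (dzQ hle).rp c ∈ (prC P).Zc (m + 1)), s η = (prC P).cl (m + 1) ⟨_, hc⟩)
    (η : ↥((dzQ hle).Zz (m + 2))) {c : (prC Q).Ch} (hc : c ∈ (prC Q).Zc (m + 1))
    (hr : (dzQ hle).ResR (m + 1) (η : (dzQ hle).Y.E {(dzQ hle).z}) c) : s η ∈ Tr hle (m + 1) := by
  have h1 : (rsH hle).push c ∈ (prC P).Zc (m + 1) := push_mem_Zc (F := rsH hle) hc
  have h2 := hs η c hr h1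
  exact ⟨(prC Q).cl (m + 1) ⟨c, hc⟩, ⟨c, hc⟩, ⟨_, h1⟩, rfl, rfl, h2.symm⟩

end

variable {κ : Type u} [Field κ] [CharZero κ] {n : ℕ} {J : Ideal (MvPolynomial (Fin n) κ)} {K : Type u} [Field K]
  [CharZero K] [Algebra κ K] [Algebra (Ra κ n 1) K] [IsScalarTower κ (Ra κ n 1) K] [IsFractionRing (Ra κ n 1) K]

theorem fp_core {m : ℕ} (hJ : Good J (m + 2)) {P : Ideal (MvPolynomial (Fin (n + 1)) K)}
    (hle : cyc (bI (algebraMap κ K) J) (frm (ak κ n 1 K)) 1 ≤ P)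
    (s : ↥((dzQ hle).Zz (m + 2)) →ₗ[K] (prC P).HdR (m + 1))
    (hs : ∀ (η : ↥((dzQ hle).Zz (m + 2))) (c : (dzQ hle).Y.Ch)
      (_ : (dzQ hle).ResR (m + 1) (η : (dzQ hle).Y.E {(dzQ hle).z}) c)
      (hc : (dzQ hle).rp c ∈ (prC P).Zc (m + 1)), s η = (prC P).cl (m + 1) ⟨_, hc⟩)
    (c : Fm κ (CR J) →+ ↥(LinearMap.range s))
    (hZ : ∀ k, ∀ w ∈ (cxS hJ.homog 1 1).Vd (m + 3) k,
      phK hJ.homog (ak κ n 1 K) (1 ⊗ₜ[κ] (cxS hJ.homog 1 1).io w) ∈ (dzQ hle).Zz (m + 2))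
    (hcw : ∀ k w (hw : w ∈ (cxS hJ.homog 1 1).Vd (m + 3) k), (c w : (prC P).HdR (m + 1)) =
      algebraMap κ K ((cxS hJ.homog 1 1).lam k) • s ⟨_, hZ k w hw⟩)
    [Module (Ra κ n 1) ↥(LinearMap.range s)] [IsScalarTower (Ra κ n 1) K ↥(LinearMap.range s)]
    (cR : FR J 1 →ₗ[Ra κ n 1] ↥(LinearMap.range s)) (hcR : ∀ r x, cR (r ⊗ₜ[κ] x) = r • c x)
    {w : FR J 1} (hw : w ∈ ⨆ k, (cxS hJ.homog 1 1).VR (m + 3) k)
    (hl : ∀ l : Fin n, ∃ v ∈ FdG κ (Mon n 1) (C := LR J {l}) (m + 2),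
      nG κ (bC J 1 {l}) v = loG (Mon n 1) (lmC J {l}) w)
    (hG : ∀ C : Finset (Fin n), C.Nonempty → ∀ q, q ≤ m + 2 → ∀ x ∈ FdG κ (Mon n 1) (C := LR J C) q,
      nG κ (bC J 1 C) x = 0 →
      ∃ y : FG κ (Mon n 1) (LR J C), (∀ r, r + 1 = q → y ∈ FdG κ (Mon n 1) (C := LR J C) r) ∧ (q = 0 → y = 0) ∧
        nG κ (bC J 1 C) y = x) : (cR w : (prC P).HdR (m + 1)) ∈ Tr hle (m + 1) := by
  have hh3 := exists_eta hJ.homog hle s c hZ hcw cR hcR hw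
  obtain ⟨η, h1, h2⟩ := hh3
  rw [h1]
  have hF : (frm (ak κ n 1 K)).IsHomogeneous 1 := isHomogeneous_frm (ak κ n 1 K)
  have hI : IsHomog (bI (algebraMap κ K) J) := hJ.homog.map (algebraMap κ K)
  have hdeg : w ∈ FdG κ (Mon n 1) (C := CR J) (m + 3) := f8_VR hJ.homog hw
  have hh4 := f6_sol hI hF (fun C => bw J K C w) (fun C => bw_mem hJ.homog C hw)
    (fun h _ => bw_rs J K h w) (fun C hC => by
      rw [bw_apply, ← be_nG, top_lrG hJ hC (q := m + 4) (by omega)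
        (f8_nG (bC J 1 C) (loG_mem (lmC J C) hdeg)), map_zero]) (fun C => bw_wg hJ.homog C hw)
    (fun l => by
      obtain ⟨v, hv, hv2⟩ := hl l
      refine ⟨be J K {l} v, be_mem J K {l} hv, ?_⟩
      rw [← be_nG, hv2, bw_apply])
    (fun C hC q hq y hy h0 => exK J K (fun q hq x hx h => hG C hC q hq x hx h) hq hy h0)
  obtain ⟨v, hv, hN, hd⟩ := hh4
  have hh5 := f8_res hI hF hle hv (fun C => bw J K C w) hN hd η.2.1 h2
  obtain ⟨c', hc', hr⟩ := hh5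
  exact f8_tr hle s hs η hc' hr

end MPadcHS
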