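import Pool.Agent.Lib.MP_adc574_ag_HS.FDefs
import Pool.Agent.Lib.MP_adc574_ag_GP.BC
import Pool.Agent.Lib.MP_adc574_ag_GP.FmLoc
import Pool.Agent.Lib.MP_adc574_ag_DC.GGrR

/-!
# HS: base change of forms, abstract statements (used in FBc.lean)
-/

set_option autoImplicit false
set_option linter.unusedSectionVars false

namespace MPadcHS

open MvPolynomial TensorProduct MPadcGP MPadcDC

universe u

section gen

variable {κ : Type u} [Field κ] {Γ : Type} [Fintype Γ] {K : Type u} [Field K] [Algebra κ K] {C₀ C₁ : Type u}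
  [CommRing C₀] [CommRing C₁] [Algebra κ C₀] [Algebra K C₁] {h : C₀ →+* C₁}

/-- The inverse of the base change map. -/
theorem FBc_inv {n : ℕ} (J : Ideal (MvPolynomial (Fin n) κ)) (K : Type u) [Field K] [Algebra κ K]
    (C : Finset (Fin n)) {R : Type u} [CommRing R] [Algebra κ R]
    (v : MvPolynomial (Fin n) κ →ₐ[κ] R) (hv : ∀ f ∈ J, v f = 0) (hu0 : IsUnit (v (∏ j ∈ C, X j))) :
    ∃ Ψ : LR (bI (algebraMap κ K) J) C →+* K ⊗[κ] R,
    (∀ b : K, Ψ (algebraMap K _ b) = b ⊗ₜ[κ] (1 : R)) ∧ ∀ l, Ψ (lx (bI (algebraMap κ K) J) C l) = 1 ⊗ₜ[κ] v (X l) := by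
  obtain ⟨Ψ0, hΨ0⟩ : ∃ Ψ0 : MvPolynomial (Fin n) K →+* K ⊗[κ] R,
      Ψ0 = eval₂Hom (algebraMap K (K ⊗[κ] R)) (fun l => 1 ⊗ₜ[κ] v (X l)) := ⟨_, rfl⟩
  have h0 : ∀ b : K, Ψ0 (MvPolynomial.C b) = b ⊗ₜ[κ] (1 : R) := by
    intro b
    rw [hΨ0, eval₂Hom_C]
    rfl
  have h1 : ∀ l, Ψ0 (X l) = 1 ⊗ₜ[κ] v (X l) := by
    intro l
    rw [hΨ0, eval₂Hom_X']
  have h2 : ∀ f : MvPolynomial (Fin n) κ, Ψ0 (MvPolynomial.map (algebraMap κ K) f) = 1 ⊗ₜ[κ] v f := by
    intro f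
    have h3 : Ψ0.comp (MvPolynomial.map (algebraMap κ K)) = (Algebra.TensorProduct.includeRight :
        R →ₐ[κ] K ⊗[κ] R).toRingHom.comp (v : MvPolynomial (Fin n) κ →+* R) := by
      refine MvPolynomial.ringHom_ext (fun a => ?_) fun l => ?_
      · rw [RingHom.comp_apply, map_C, h0, RingHom.comp_apply]
        have h4 : (v : MvPolynomial (Fin n) κ →+* R) (MvPolynomial.C a) = algebraMap κ R a := v.commutes a
        rw [h4]
        change _ = (1 : K) ⊗ₜ[κ] algebraMap κ R a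
        rw [Algebra.algebraMap_eq_smul_one a, Algebra.algebraMap_eq_smul_one a, TensorProduct.tmul_smul,
          TensorProduct.smul_tmul']
      · rw [RingHom.comp_apply, map_X, h1]
        rfl
    exact RingHom.congr_fun h3 f
  have h3 : ∀ f ∈ bI (algebraMap κ K) J, Ψ0 f = 0 := by
    have h4 : bI (algebraMap κ K) J ≤ RingHom.ker Ψ0 := by
      refine Ideal.map_le_iff_le_comap.2 fun f hf => ?_
      rw [Ideal.mem_comap, RingHom.mem_ker]
      refine (h2 f).trans ?_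
      rw [hv f hf, TensorProduct.tmul_zero]
    exact fun f hf => h4 hf
  obtain ⟨Ψ1, hΨ1⟩ : ∃ Ψ1 : CR (bI (algebraMap κ K) J) →+* K ⊗[κ] R, ∀ f, Ψ1 (Ideal.Quotient.mk _ f) = Ψ0 f :=
    ⟨Ideal.Quotient.lift _ Ψ0 h3, fun f => rfl⟩
  have hu : IsUnit (Ψ1 (Ideal.Quotient.mk (bI (algebraMap κ K) J) (∏ j ∈ C, X j))) := by
    have h4 : MvPolynomial.map (algebraMap κ K) (∏ j ∈ C, X j) = ∏ j ∈ C, X j := by
      rw [map_prod]
      exact Finset.prod_congr rfl fun j _ => map_X _ j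
    rw [hΨ1, ← h4, h2]
    exact hu0.map (Algebra.TensorProduct.includeRight : R →ₐ[κ] K ⊗[κ] R)
  refine ⟨IsLocalization.Away.lift (Ideal.Quotient.mk (bI (algebraMap κ K) J) (∏ j ∈ C, X j)) hu, fun b => ?_, fun l => ?_⟩
  · have h4 : algebraMap K (LR (bI (algebraMap κ K) J) C) b =
        algebraMap (CR (bI (algebraMap κ K) J)) (LR (bI (algebraMap κ K) J) C) (Ideal.Quotient.mk _ (MvPolynomial.C b)) := by
      rw [IsScalarTower.algebraMap_apply K (CR (bI (algebraMap κ K) J)) (LR (bI (algebraMap κ K) J) C)]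
      rfl
    rw [h4, IsLocalization.Away.lift_eq, hΨ1, h0]
  · unfold lx
    rw [IsLocalization.Away.lift_eq, hΨ1, h1]

/-- A left and right inverse ring homomorphism of the base change map. -/
theorem FBc_bij (hb : HB κ K h) (Ψ : C₁ →+* K ⊗[κ] C₀) (h1 : ∀ b : K, Ψ (algebraMap K _ b) = b ⊗ₜ[κ] (1 : C₀))
    (h2 : ∀ x, Ψ (h x) = 1 ⊗ₜ[κ] x) (h3 : ∀ G : K ⊗[κ] C₀ →+* C₁, (∀ b x, G (b ⊗ₜ[κ] x) = algebraMap K C₁ b * h x) →
      ∀ y, G (Ψ y) = y) : Function.Bijective (bcr hb) := by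
  obtain ⟨G, hG⟩ : ∃ G : K ⊗[κ] C₀ →+* C₁, ∀ x, G x = bcr hb x :=
    ⟨{ toFun := bcr hb
       map_one' := by
        rw [Algebra.TensorProduct.one_def, bcr_tmul, one_smul, map_one]
       map_mul' := bcr_mul _
       map_zero' := map_zero _
       map_add' := map_add _ }, fun x => rfl⟩
  have h5 : ∀ x, Ψ (bcr hb x) = x := by
    intro x
    induction x using TensorProduct.induction_on with
    | zero => rw [map_zero, map_zero]
    | tmul b x =>
      rw [bcr_tmul, Algebra.smul_def, map_mul, h1, h2, Algebra.TensorProduct.tmul_mul_tmul, mul_one, one_mul]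
    | add x y hx hy => rw [map_add, map_add, hx, hy]
  refine ⟨fun x y hxy => ?_, fun y => ⟨Ψ y, ?_⟩⟩
  · rw [← h5 x, hxy, h5]
  · rw [← hG]
    exact h3 G (fun b x => by rw [hG, bcr_tmul, Algebra.smul_def]) y

variable [Algebra (MvPolynomial Γ κ) K] [IsScalarTower κ (MvPolynomial Γ κ) K] (hb : HB κ K h)

theorem FBc_ex : ∃ φ : FG κ Γ C₀ →+* Fm K C₁, ∀ (r : MvPolynomial Γ κ) (x : Fm κ C₀),
      φ (r ⊗ₜ[κ] x) = algebraMap (MvPolynomial Γ κ) K r • mp h hb.cc x := by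
  obtain ⟨G, hG⟩ : ∃ G : K ⊗[κ] Fm κ C₀ →+* Fm K C₁, ∀ x, G x = bcf hb x :=
    ⟨{ toFun := bcf hb
       map_one' := by
        rw [Algebra.TensorProduct.one_def, bcf_tmul, one_smul, map_one]
       map_mul' := bcf_mul _
       map_zero' := map_zero _
       map_add' := map_add _ }, fun x => rfl⟩
  refine ⟨G.comp (Algebra.TensorProduct.map (IsScalarTower.toAlgHom κ (MvPolynomial Γ κ) K)
    (AlgHom.id κ (Fm κ C₀))).toRingHom, fun r x => ?_⟩
  refine (hG _).trans ?_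
  exact bcf_tmul _ _ _

variable {φ : FG κ Γ C₀ →+* Fm K C₁} (hφ : ∀ (r : MvPolynomial Γ κ) (x : Fm κ C₀),
      φ (r ⊗ₜ[κ] x) = algebraMap (MvPolynomial Γ κ) K r • mp h hb.cc x)

include hb hφ

theorem FBc_smul (r : MvPolynomial Γ κ) (x : FG κ Γ C₀) :
    φ (r • x) = algebraMap (MvPolynomial Γ κ) K r • φ x := by
  induction x using TensorProduct.induction_on with
  | zero => rw [smul_zero, map_zero, smul_zero]
  | tmul s x => rw [TensorProduct.smul_tmul', smul_eq_mul, hφ, hφ, map_mul, mul_smul]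
  | add x y hx hy => rw [smul_add, map_add, map_add, smul_add, hx, hy]

theorem FBc_mem {q : ℕ} {x : FG κ Γ C₀} (hx : x ∈ FdG κ Γ (C := C₀) q) : φ x ∈ Fd K C₁ q := by
  refine FdG_ind (P := fun w => φ w ∈ Fd K C₁ q) ?_ ?_ ?_ hx
  · rw [map_zero]
    exact Submodule.zero_mem _
  · intro r c t
    rw [hφ]
    exact Submodule.smul_of_tower_mem _ _ (mp_mem _ (fz_mul_mem c (wd_mem t)))
  · intro x y hx hy
    rw [map_add]
    exact Submodule.add_mem _ hx hy

theorem FBc_inj [IsFractionRing (MvPolynomial Γ κ) K] (hbij : Function.Bijective (bcr hb)) :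
    Function.Injective φ := by
  have h1 : Function.Injective (bcf hb) := (bcf_bijective hb hbij).1
  have h2 : Function.Injective (LinearMap.rTensor (Fm κ C₀) (IsScalarTower.toAlgHom κ (MvPolynomial Γ κ) K).toLinearMap) :=
    Module.Flat.rTensor_preserves_injective_linearMap _ (IsFractionRing.injective (MvPolynomial Γ κ) K)
  have h3 : ∀ x, φ x = bcf hb
      (LinearMap.rTensor (Fm κ C₀) (IsScalarTower.toAlgHom κ (MvPolynomial Γ κ) K).toLinearMap x) := by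
    intro x
    induction x using TensorProduct.induction_on with
    | zero => rw [map_zero, map_zero, map_zero]
    | tmul s x =>
      rw [hφ, LinearMap.rTensor_tmul, bcf_tmul]
      rfl
    | add x y hx hy => rw [map_add, map_add, map_add, hx, hy]
  intro x y hxy
  rw [h3, h3] at hxy
  exact h2 (h1 hxy)

omit [IsScalarTower κ (MvPolynomial Γ κ) K] hb hφ in
/-- `y` is a quotient of an element in the image of `φ`. -/
def FBc_Q (φ : FG κ Γ C₀ →+* Fm K C₁) (q : ℕ) (y : Fm K C₁) : Prop :=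
  ∃ r : MvPolynomial Γ κ, r ≠ 0 ∧ ∃ x ∈ FdG κ Γ (C := C₀) q, algebraMap (MvPolynomial Γ κ) K r • y = φ x

omit [IsScalarTower κ (MvPolynomial Γ κ) K] hb hφ in
theorem FBc_Q_zero (q : ℕ) : FBc_Q φ q 0 :=
  ⟨1, one_ne_zero, 0, Submodule.zero_mem _, by rw [smul_zero, map_zero]⟩

theorem FBc_Q_add {q : ℕ} {y y' : Fm K C₁}
    (hy : FBc_Q φ q y) (hy' : FBc_Q φ q y') : FBc_Q φ q (y + y') := by
  obtain ⟨r, hr, x, hx, h1⟩ := hy
  obtain ⟨r', hr', x', hx', h2⟩ := hy'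
  refine ⟨r * r', mul_ne_zero hr hr', r' • x + r • x', Submodule.add_mem _ (Submodule.smul_mem _ _ hx)
    (Submodule.smul_mem _ _ hx'), ?_⟩
  rw [map_add, FBc_smul hb hφ, FBc_smul hb hφ, ← h1, ← h2, smul_smul, smul_smul, smul_add, map_mul,
    mul_comm (algebraMap (MvPolynomial Γ κ) K r') (algebraMap (MvPolynomial Γ κ) K r)]

omit [IsScalarTower κ (MvPolynomial Γ κ) K] hb hφ in
theorem FBc_Q_mul {q q' : ℕ} {y y' : Fm K C₁}
    (hy : FBc_Q φ q y) (hy' : FBc_Q φ q' y') : FBc_Q φ (q + q') (y * y') := by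
  obtain ⟨r, hr, x, hx, h1⟩ := hy
  obtain ⟨r', hr', x', hx', h2⟩ := hy'
  refine ⟨r * r', mul_ne_zero hr hr', x * x', FdG_mul hx hx', ?_⟩
  rw [map_mul φ, ← h1, ← h2, smul_mul_smul_comm, map_mul]

theorem FBc_Q_fd [IsFractionRing (MvPolynomial Γ κ) K] (hbij : Function.Bijective (bcr hb)) (s : C₁) :
    FBc_Q φ 0 (fz K s) ∧ FBc_Q φ 1 (df K s) := by
  obtain ⟨x, rfl⟩ := hbij.2 s
  induction x using TensorProduct.induction_on with
  | zero =>
    rw [map_zero, map_zero, df_zero]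
    exact ⟨FBc_Q_zero 0, FBc_Q_zero 1⟩
  | add x y hx hy =>
    rw [map_add, map_add, df_add]
    exact ⟨FBc_Q_add hb hφ hx.1 hy.1, FBc_Q_add hb hφ hx.2 hy.2⟩
  | tmul b c =>
    obtain ⟨r', r, hr, hb'⟩ := IsFractionRing.div_surjective (A := MvPolynomial Γ κ) b
    have hr0 : r ≠ 0 := nonZeroDivisors.ne_zero hr
    have hr1 : algebraMap (MvPolynomial Γ κ) K r ≠ 0 := fun h0 => hr0 (IsFractionRing.injective (MvPolynomial Γ κ) K
      (h0.trans (map_zero _).symm))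
    have h1 : algebraMap (MvPolynomial Γ κ) K r * b = algebraMap (MvPolynomial Γ κ) K r' := by
      rw [← hb', mul_div_cancel₀ _ hr1]
    have h2 : fz K (b • h c) = b • fz K (h c) := by
      rw [smul_fm, Algebra.smul_def, map_mul]
    have h3 : df K (b • h c) = b • df K (h c) := by
      rw [smul_fm, Algebra.smul_def, df_mul, df_base, mul_zero, add_zero]
    rw [bcr_tmul, h2, h3]
    refine ⟨⟨r, hr0, r' ⊗ₜ[κ] fz κ c, tmul_FdG _ (fz_mem c), ?_⟩, ⟨r, hr0, r' ⊗ₜ[κ] df κ c, tmul_FdG _ (df_mem c), ?_⟩⟩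
    · rw [smul_smul, h1, hφ, mp_fz]
    · rw [smul_smul, h1, hφ, mp_df]

theorem FBc_surj [IsFractionRing (MvPolynomial Γ κ) K] (hbij : Function.Bijective (bcr hb)) {q : ℕ}
    {y : Fm K C₁} (hy : y ∈ Fd K C₁ q) : FBc_Q φ q y := by
  have hwd : ∀ (q : ℕ) (t : Fin q → C₁), FBc_Q φ q (wd K t) := by
    intro q
    induction q with
    | zero =>
      intro t
      rw [wd_zero]
      refine ⟨1, one_ne_zero, 1, ?_, by rw [map_one, one_smul, map_one]⟩
      rw [Algebra.TensorProduct.one_def, ← map_one (fz κ)]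
      exact tmul_FdG _ (fz_mem 1)
    | succ q ih =>
      intro t
      have h1 := FBc_Q_mul (FBc_Q_fd hb hφ hbij (t 0)).2 (ih (Fin.tail t))
      rw [Nat.add_comm 1 q] at h1
      rw [wd_succ]
      exact h1
  refine fd_ind (P := fun y => FBc_Q φ q y) (FBc_Q_zero q) (fun s t => ?_) (fun x y hx hy => FBc_Q_add hb hφ hx hy) hy
  have h1 := FBc_Q_mul (FBc_Q_fd hb hφ hbij s).1 (hwd q t)
  rwa [zero_add] at h1

theorem FBc_nG (b : Γ → C₀) (x : FG κ Γ C₀) :
    φ (nG κ b x) = dd K (φ x) + (∑ g, algebraMap (MvPolynomial Γ κ) K (X g) • df K (h (b g))) * φ x := by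
  have h1 : ∀ x : FG κ Γ C₀, φ ((MPadcDC.ddl κ C₀).baseChange (MvPolynomial Γ κ) x) = dd K (φ x) := by
    intro x
    induction x using TensorProduct.induction_on with
    | zero => rw [map_zero, map_zero, map_zero]
    | tmul r x =>
      have h2 : (MPadcDC.ddl κ C₀).baseChange (MvPolynomial Γ κ) (r ⊗ₜ[κ] x) = r ⊗ₜ[κ] dd κ x := rfl
      rw [h2, hφ, hφ, dd_smul, mp_dd]
    | add x y hx hy => rw [map_add, map_add, hx, hy, map_add, map_add]
  have h2 : φ (thG κ b) = ∑ g, algebraMap (MvPolynomial Γ κ) K (X g) • df K (h (b g)) := by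
    unfold thG
    rw [map_sum]
    refine Finset.sum_congr rfl fun g _ => ?_
    rw [hφ, mp_df]
  rw [nG_apply, map_add, map_mul, h1, h2]

/-- Exactness over `K`. -/
theorem FBc_exK [IsFractionRing (MvPolynomial Γ κ) K] (hbij : Function.Bijective (bcr hb)) {b : Γ → C₀} {θ : Fm K C₁}
    (hθ : ∀ x, φ (nG κ b x) = dd K (φ x) + θ * φ x) {m : ℕ}
    (hG : ∀ q, q ≤ m → ∀ x ∈ FdG κ Γ (C := C₀) q, nG κ b x = 0 →
      ∃ y : FG κ Γ C₀, (∀ r, r + 1 = q → y ∈ FdG κ Γ (C := C₀) r) ∧ (q = 0 → y = 0) ∧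
        nG κ b y = x) {q : ℕ} (hq : q ≤ m) {y : Fm K C₁}
    (hy : y ∈ Fd K C₁ q) (h0 : dd K y + θ * y = 0) :
    ∃ x : Fm K C₁, (∀ r, r + 1 = q → x ∈ Fd K C₁ r) ∧ (q = 0 → x = 0) ∧ dd K x + θ * x = y := by
  obtain ⟨r, hr, x, hx, h1⟩ := FBc_surj hb hφ hbij hy
  have hr1 : algebraMap (MvPolynomial Γ κ) K r ≠ 0 := fun h0 => hr (IsFractionRing.injective (MvPolynomial Γ κ) K
    (h0.trans (map_zero _).symm))
  have h2 : nG κ b x = 0 := by
    refine FBc_inj hb hφ hbij ?_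
    rw [hθ, ← h1, dd_smul, mul_smul_comm, ← smul_add, h0, smul_zero, map_zero]
  obtain ⟨x', h3, h4, h5⟩ := hG q hq x hx h2
  refine ⟨(algebraMap (MvPolynomial Γ κ) K r)⁻¹ • φ x', fun r' hr' => ?_, fun h6 => ?_, ?_⟩
  · exact Submodule.smul_of_tower_mem _ _ (FBc_mem hb hφ (h3 r' hr'))
  · rw [h4 h6, map_zero, smul_zero]
  · rw [dd_smul, mul_smul_comm, ← smul_add, ← hθ, h5, ← h1, smul_smul, inv_mul_cancel₀ hr1, one_smul]

end gen

section df

variable {K R : Type u} [Field K] [CommRing R] [Algebra K R] {Γ : Type} [Fintype Γ]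

theorem FBc_df (a : Γ → K) (v : Γ → R) : ∑ g, a g • df K (v g) = df K (∑ g, algebraMap K R (a g) * v g) := by
  have h1 : ∀ s : Finset Γ, ∑ g ∈ s, a g • df K (v g) = df K (∑ g ∈ s, algebraMap K R (a g) * v g) := by
    classical
    intro s
    induction s using Finset.induction_on with
    | empty => rw [Finset.sum_empty, Finset.sum_empty, df_zero]
    | insert g s hg ih =>
      rw [Finset.sum_insert hg, Finset.sum_insert hg, df_add, ih, df_mul, df_base, mul_zero, add_zero, smul_fm]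
  exact h1 Finset.univ

end df

section gen2

variable {κ : Type u} [Field κ] {K : Type u} [Field K] [Algebra κ K] {C₀ C₁ : Type u}
  [CommRing C₀] [CommRing C₁] [Algebra κ C₀] [Algebra K C₁] {h : C₀ →+* C₁}

/-- The base change map is bijective. -/
theorem FBc_bij2 (hb : HB κ K h) {ι : Type} {x : ι → C₀} {y : ι → C₁} (hxy : ∀ l, h (x l) = y l)
    (e0 : ∀ f g : C₀ →+* K ⊗[κ] C₀, (∀ a, f (algebraMap κ C₀ a) = g (algebraMap κ C₀ a)) → (∀ l, f (x l) = g (x l)) → f = g)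
    (e1 : ∀ f g : C₁ →+* C₁, (∀ a, f (algebraMap K C₁ a) = g (algebraMap K C₁ a)) → (∀ l, f (y l) = g (y l)) → f = g)
    (hex : ∃ Ψ : C₁ →+* K ⊗[κ] C₀, (∀ b : K, Ψ (algebraMap K _ b) = b ⊗ₜ[κ] (1 : C₀)) ∧ ∀ l, Ψ (y l) = 1 ⊗ₜ[κ] x l) :
    Function.Bijective (bcr hb) := by
  obtain ⟨Ψ, h1, h2⟩ := hex
  have h4 : Ψ.comp h = (Algebra.TensorProduct.includeRight : C₀ →ₐ[κ] K ⊗[κ] C₀).toRingHom := by
    refine e0 _ _ (fun a => ?_) fun l => ?_
    · rw [RingHom.comp_apply, hb a, h1]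
      change _ = (1 : K) ⊗ₜ[κ] algebraMap κ C₀ a
      rw [Algebra.algebraMap_eq_smul_one a, Algebra.algebraMap_eq_smul_one a, TensorProduct.tmul_smul,
        TensorProduct.smul_tmul']
    · rw [RingHom.comp_apply, hxy, h2]
      rfl
  refine FBc_bij hb Ψ h1 (fun x => RingHom.congr_fun h4 x) fun G hG z => ?_
  have h3 : G.comp Ψ = RingHom.id _ := by
    refine e1 _ _ (fun b => ?_) fun l => ?_
    · rw [RingHom.comp_apply, h1, hG, map_one, RingHom.id_apply, mul_one]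
    · rw [RingHom.comp_apply, h2, hG, map_one, one_mul, RingHom.id_apply, hxy]
  exact RingHom.congr_fun h3 z

/-- The differential of the generic form. -/
theorem FBc_frm {n e : ℕ} (w : MvPolynomial (Fin n) K →+* C₁) (hw : ∀ c, w (MvPolynomial.C c) = algebraMap K C₁ c)
    (v : Mon n e → C₀) (hv : ∀ g, h (v g) = w (monomial g.1 1)) (a : Mon n e → K) :
    ∑ g, a g • df K (h (v g)) = df K (w (frm a)) := by
  have h1 : w (frm a) = ∑ g : Mon n e, algebraMap K C₁ (a g) * h (v g) := by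
    unfold frm
    rw [map_sum]
    refine Finset.sum_congr rfl fun g _ => ?_
    rw [hv, ← hw, ← map_mul, C_mul_monomial, mul_one]
  rw [FBc_df, h1]

end gen2

end MPadcHS
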