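import Pool.Agent.Lib.MP_adc574_ag_HS.FEu
import Pool.Agent.Lib.MP_adc574_ag_GP.BCd

/-!
# JOB FWt (HS): operators which depend only on the weight

For `g : ℤ → K` the operator `wg hI C g` multiplies the forms of weight `t` with `g t`.
* `exists_wg`: `L := ddl ∘ ct + ct ∘ ddl` as a `K`-linear map of `Fm K (LR I C)`; the eigenspaces `Module.End.eigenspace L (t : K)`, `t : ℤ`, are independent (`Module.End.eigenspaces_iSupIndep`, composed with the injective `Int.cast`: `iSupIndep.comp`), their supremum is everything (every form is a sum of forms of pure degree (`homog_ind` or `DirectSum.decompose`), `wt_span`), so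
  `DirectSum.IsInternal` (`DirectSum.isInternal_submodule_of_iSupIndep_of_iSup_eq_top`), and `T` is `DirectSum.toModule` of the maps `g t • subtype` composed with the inverse of the bijection.
* `wg_ext`: two additive maps which agree on the forms `y ∈ Fd q` of weight `t` (all `q`, `t`), and are `K`-linear, are equal. All the other statements follow: check them for `x` of weight `t`: `wg_of` and `Wt.dd`, `Wt.inv`, `Wt.ct`, `Wt.rs`, `Wt.mul` (FEu.lean). `wg_df`: `df K (mkL I C F)` has the weight `1` (`Wt_df`, `eu_mkL`), so the product has the weight `1 + t`, `g (1 + t)`; here `g (t + 1)`: `add_comm`.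
* `wg_mem`: `wt_span`, `wg_of`, `Fd` is stable under `K` (`Submodule.smul_of_tower_mem` or `fz_mul_mem` with `smul_fm`).
* `wg_bdd`: `x` is a finite sum of forms of weights `t_i`; `N` with `- N ≤ t_i` (span induction; for a sum take the maximum).
-/

set_option autoImplicit false
set_option linter.unusedSectionVars false

namespace MPadcHS

open MvPolynomial MPadcGP MPadcDC

universe u

section abs

private theorem FWt_abs {K T : Type u} [Field K] [CharZero K] [AddCommGroup T] [Module K T] (L : T →ₗ[K] T)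
    (hL : ∀ x, x ∈ Submodule.span K {y : T | ∃ t : ℤ, L y = (t : K) • y}) (g : ℤ → K) :
    ∃ W : T →ₗ[K] T, ∀ (t : ℤ) (x : T), L x = (t : K) • x → W x = g t • x := by
  classical
  let E : ℤ → Submodule K T := fun t => Module.End.eigenspace L (t : K)
  have hE : ∀ t x, x ∈ E t ↔ L x = (t : K) • x := fun t x => Module.End.mem_eigenspace_iff
  have h1 : iSupIndep E := (Module.End.eigenspaces_iSupIndep L).comp Int.cast_injective
  have h2 : iSup E = ⊤ := by
    rw [eq_top_iff]
    intro x _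
    refine Submodule.span_le.2 ?_ (hL x)
    rintro y ⟨t, ht⟩
    exact Submodule.mem_iSup_of_mem t ((hE t y).2 ht)
  have h3 : DirectSum.IsInternal E := DirectSum.isInternal_submodule_of_iSupIndep_of_iSup_eq_top h1 h2
  let Φ := LinearEquiv.ofBijective (DirectSum.coeLinearMap E) h3
  refine ⟨(DirectSum.toModule K ℤ T fun t => g t • (E t).subtype).comp Φ.symm.toLinearMap, fun t x hx => ?_⟩
  have h4 : Φ.symm x = DirectSum.lof K ℤ (fun t => ↥(E t)) t ⟨x, (hE t x).2 hx⟩ := by
    rw [LinearEquiv.symm_apply_eq]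
    exact (DirectSum.coeLinearMap_lof E t ⟨x, (hE t x).2 hx⟩).symm
  rw [LinearMap.comp_apply]
  change (DirectSum.toModule K ℤ T fun t => g t • (E t).subtype) (Φ.symm x) = g t • x
  rw [h4, DirectSum.toModule_lof]
  rfl

/-- `u` commutes with the operators `W`, `W'` with the same eigenvalues. -/
private theorem FWt_c {K T T' : Type*} [Semiring K] [AddCommMonoid T] [AddCommMonoid T'] [Module K T] [Module K T']
    (u : T →ₗ[K] T') {y z : T} {z' : T'} {a : K} (h : z = a • y) (h' : z' = a • u y) : z' = u z := by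
  rw [h, h', map_smul]

private theorem FWt_s {K T M : Type*} [Ring K] [AddCommGroup T] [AddCommGroup M] [Module K T] [Module K M] {G : Set T}
    {f f' : T →ₗ[K] M} (h : ∀ y ∈ G, f y = f' y) (x : T) (hx : x ∈ Submodule.span K G) : f x = f' x := by
  refine Submodule.span_induction (p := fun x _ => f x = f' x) ?_ ?_ ?_ ?_ hx
  · exact h
  · rw [map_zero, map_zero]
  · intro a b _ _ ha hb
    rw [map_add, map_add, ha, hb]
  · intro a b _ hb
    rw [map_smul, map_smul, hb]

private theorem FWt_s2 {K T T' : Type*} [Ring K] [AddCommGroup T] [AddCommGroup T'] [Module K T] [Module K T'] {G : Set T}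
    (u : T →ₗ[K] T') (W : T →ₗ[K] T) (W' : T' →ₗ[K] T') (h : ∀ y ∈ G, W' (u y) = u (W y)) (x : T)
    (hx : x ∈ Submodule.span K G) : W' (u x) = u (W x) :=
  FWt_s (f := W'.comp u) (f' := u.comp W) h x hx

private theorem FWt_m {K R T : Type*} [Ring K] [Ring R] [AddCommGroup T] [SMul K R] [Module K T] [Module R T]
    [IsScalarTower K R T] {G : Set T} (N : Submodule R T) (W : T →ₗ[K] T) (h : ∀ y ∈ G, W y ∈ N) (x : T)
    (hx : x ∈ Submodule.span K G) : W x ∈ N := by
  refine Submodule.span_induction (p := fun x _ => W x ∈ N) ?_ ?_ ?_ ?_ hx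
  · exact h
  · rw [map_zero]
    exact Submodule.zero_mem _
  · intro a b _ _ ha hb
    rw [map_add]
    exact Submodule.add_mem _ ha hb
  · intro a b _ hb
    rw [map_smul]
    exact Submodule.smul_of_tower_mem _ _ hb

private theorem FWt_sm {K R T : Type*} [Ring K] [Ring R] [AddCommGroup T] [SMul K R] [Module K T] [Module R T]
    [IsScalarTower K R T] (N : Submodule R T) {y z : T} {a : K} (h : z = a • y) (hy : y ∈ N) : z ∈ N := by
  rw [h]
  exact Submodule.smul_of_tower_mem _ _ hy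

private theorem FWt_a1 {K T : Type*} [Semiring K] [AddCommMonoid T] [Module K T] {y z : T} {a : K} (h : z = a • y)
    (ha : a = 1) : z = y := by
  rw [h, ha, one_smul]

private theorem FWt_a2 {K T : Type*} [Semiring K] [AddCommMonoid T] [Module K T] {y z z' z'' : T} {a b : K}
    (h : z = (a + b) • y) (h' : z' = a • y) (h'' : z'' = b • y) : z = z' + z'' := by
  rw [h, h', h'', add_smul]

private theorem FWt_a3 {K T : Type*} [CommSemiring K] [AddCommMonoid T] [Module K T] (W W' : T →ₗ[K] T) {y z : T} {a b : K}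
    (h : W y = a • y) (h' : W' y = b • y) (h'' : z = (a * b) • y) : W (W' y) = z := by
  rw [h', map_smul, h, h'', smul_smul, mul_comm]

private theorem FWt_mul {K E : Type*} [CommSemiring K] [Semiring E] [Algebra K E] {y z z' d : E} {a : K} (h : z = a • y)
    (h' : z' = a • (d * y)) : z' = d * z := by
  rw [h, h', mul_smul_comm]

private theorem FWt_b {K T : Type*} [Ring K] [AddCommGroup T] [Module K T] {G : Set T} (W : (ℤ → K) → T →ₗ[K] T)
    (h : ∀ y ∈ G, ∃ t : ℤ, ∀ g, W g y = g t • y) (x : T) (hx : x ∈ Submodule.span K G) :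
    ∃ N : ℕ, ∀ g : ℤ → K, (∀ t, -(N : ℤ) ≤ t → g t = 0) → W g x = 0 := by
  refine Submodule.span_induction (p := fun x _ =>
    ∃ N : ℕ, ∀ g : ℤ → K, (∀ t, -(N : ℤ) ≤ t → g t = 0) → W g x = 0) ?_ ?_ ?_ ?_ hx
  · intro y hy
    obtain ⟨t, ht⟩ := h y hy
    refine ⟨t.natAbs, fun g hg => ?_⟩
    rw [ht g, hg t (by omega), zero_smul]
  · exact ⟨0, fun g _ => map_zero _⟩
  · rintro a b _ _ ⟨N, hN⟩ ⟨N', hN'⟩
    refine ⟨N + N', fun g hg => ?_⟩
    rw [map_add, hN g (fun t ht => hg t (by push_cast; omega)), hN' g (fun t ht => hg t (by push_cast; omega)),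
      add_zero]
  · rintro a b _ ⟨N, hN⟩
    refine ⟨N, fun g hg => ?_⟩
    rw [map_smul, hN g hg, smul_zero]

section lin

variable {K R S : Type u} [CommRing K] [CommRing R] [CommRing S] [Algebra K R] [Algebra K S]

/-- The contraction as a linear map over `K`. -/
private noncomputable def FWt_ctl (θ : Derivation K R R) : Fm K R →ₗ[K] Fm K R where
  toFun x := ct K θ x
  map_add' := map_add _
  map_smul' a x := by
    have h1 : a • x = algebraMap K R a • x := (algebraMap_smul R a x).symm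
    have h2 : a • ct K θ x = algebraMap K R a • ct K θ x := (algebraMap_smul R a (ct K θ x)).symm
    rw [RingHom.id_apply, h1, h2]
    exact (ct K θ).map_smul _ _

private theorem FWt_ctl_apply (θ : Derivation K R R) (x : Fm K R) : FWt_ctl θ x = ct K θ x := rfl

/-- The functoriality as a linear map over `K`. -/
private noncomputable def FWt_mp (φ : R →ₐ[K] S) : Fm K R →ₗ[K] Fm K S where
  toFun x := mp (φ : R →+* S) (CC.of_algHom φ) x
  map_add' := map_add _
  map_smul' a x := by
    rw [smul_fm, map_mul, mp_fz, RingHom.id_apply, smul_fm]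
    congr 2
    exact φ.commutes a

end lin

end abs

section

variable {K : Type u} [Field K] [CharZero K] {n : ℕ} {I : Ideal (MvPolynomial (Fin n) K)}

/-- The contraction as a linear map over `K`. -/
private noncomputable def FWt_ct (hI : IsHomog I) (C : Finset (Fin n)) : Fm K (LR I C) →ₗ[K] Fm K (LR I C) :=
  FWt_ctl (eu hI C)

private theorem FWt_top (hI : IsHomog I) (C : Finset (Fin n)) (x : Fm K (LR I C)) :
    x ∈ Submodule.span K {y : Fm K (LR I C) | ∃ q, y ∈ Fd K (LR I C) q ∧ ∃ t : ℤ, Wt hI C t y} := by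
  induction x using homog_ind with
  | h0 => exact Submodule.zero_mem _
  | h1 q e he =>
    refine Submodule.span_mono ?_ (wt_span (hI := hI) he)
    rintro y ⟨hy, t, ht⟩
    exact ⟨q, hy, t, ht⟩
  | h2 a b ha hb => exact Submodule.add_mem _ ha hb

theorem exists_wg (hI : IsHomog I) (C : Finset (Fin n)) (g : ℤ → K) :
    ∃ T : Fm K (LR I C) →ₗ[K] Fm K (LR I C), ∀ (t : ℤ) (x : Fm K (LR I C)), Wt hI C t x → T x = g t • x := by
  obtain ⟨W, hW⟩ := FWt_abs ((MPadcGP.ddl K (LR I C)).comp (FWt_ct hI C) + (FWt_ct hI C).comp (MPadcGP.ddl K (LR I C)))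
    (fun x => by
      refine Submodule.span_mono ?_ (FWt_top hI C x)
      rintro y ⟨q, hy, t, ht⟩
      exact ⟨t, ht⟩) g
  exact ⟨W, fun t x hx => hW t x hx⟩

/-- Multiplication with `g t` on the forms of weight `t`. -/
noncomputable def wg (hI : IsHomog I) (C : Finset (Fin n)) (g : ℤ → K) : Fm K (LR I C) →ₗ[K] Fm K (LR I C) :=
  (exists_wg hI C g).choose

variable {hI : IsHomog I} {C : Finset (Fin n)}

theorem wg_of (g : ℤ → K) {t : ℤ} {x : Fm K (LR I C)} (hx : Wt hI C t x) : wg hI C g x = g t • x :=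
  (exists_wg hI C g).choose_spec t x hx

theorem wg_ext (hI : IsHomog I) {M : Type u} [AddCommGroup M] [Module K M] {f f' : Fm K (LR I C) →ₗ[K] M}
    (h : ∀ (q : ℕ) (t : ℤ) (y : Fm K (LR I C)), y ∈ Fd K (LR I C) q → Wt hI C t y → f y = f' y) : f = f' := by
  exact LinearMap.ext fun x => FWt_s (by
    rintro y ⟨q, hy, t, ht⟩
    exact h q t y hy ht) x (FWt_top hI C x)

/-- `u` commutes with the operators. -/
private theorem FWt_e (hI : IsHomog I) {T' : Type u} [AddCommGroup T'] [Module K T'] (u : Fm K (LR I C) →ₗ[K] T')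
    (W : Fm K (LR I C) →ₗ[K] Fm K (LR I C)) (W' : T' →ₗ[K] T')
    (h : ∀ (t : ℤ) (y : Fm K (LR I C)), Wt hI C t y → W' (u y) = u (W y)) (x : Fm K (LR I C)) :
    W' (u x) = u (W x) :=
  FWt_s2 u W W' (by
    rintro y ⟨_, _, t, ht⟩
    exact h t y ht) x (FWt_top hI C x)

theorem wg_mem (g : ℤ → K) {q : ℕ} {x : Fm K (LR I C)} (hx : x ∈ Fd K (LR I C) q) :
    wg hI C g x ∈ Fd K (LR I C) q :=
  FWt_m (Fd K (LR I C) q) (wg hI C g) (by
    rintro y ⟨hy, t, ht⟩
    exact FWt_sm (Fd K (LR I C) q) (wg_of g ht) hy) x (wt_span (hI := hI) hx)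

theorem wg_one (x : Fm K (LR I C)) : wg hI C (fun _ => 1) x = x :=
  LinearMap.congr_fun (f := wg hI C fun _ => 1) (g := LinearMap.id)
    (wg_ext hI fun _ _ _ _ ht => FWt_a1 (wg_of _ ht) rfl) x

theorem wg_add (g g' : ℤ → K) (x : Fm K (LR I C)) :
    wg hI C (fun t => g t + g' t) x = wg hI C g x + wg hI C g' x :=
  LinearMap.congr_fun (f := wg hI C fun t => g t + g' t) (g := wg hI C g + wg hI C g')
    (wg_ext hI fun _ _ _ _ ht => FWt_a2 (wg_of _ ht) (wg_of _ ht) (wg_of _ ht)) x

theorem wg_wg (g g' : ℤ → K) (x : Fm K (LR I C)) : wg hI C g (wg hI C g' x) = wg hI C (fun t => g t * g' t) x :=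
  LinearMap.congr_fun (f := (wg hI C g).comp (wg hI C g')) (g := wg hI C fun t => g t * g' t)
    (wg_ext hI fun _ _ _ _ ht => FWt_a3 (wg hI C g) (wg hI C g') (wg_of _ ht) (wg_of _ ht) (wg_of _ ht)) x

theorem wg_L (x : Fm K (LR I C)) : dd K (ct K (eu hI C) x) + ct K (eu hI C) (dd K x) = wg hI C (fun t => (t : K)) x :=
  LinearMap.congr_fun (f := (MPadcGP.ddl K (LR I C)).comp (FWt_ct hI C) + (FWt_ct hI C).comp (MPadcGP.ddl K (LR I C)))
    (g := wg hI C fun t => (t : K)) (wg_ext hI fun _ _ _ _ ht => Eq.trans ht (wg_of _ ht).symm) x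

theorem wg_dd (g : ℤ → K) (x : Fm K (LR I C)) : wg hI C g (dd K x) = dd K (wg hI C g x) :=
  FWt_e hI (MPadcGP.ddl K (LR I C)) (wg hI C g) (wg hI C g)
    (fun _ _ ht => FWt_c (MPadcGP.ddl K (LR I C)) (wg_of _ ht) (wg_of _ ht.dd)) x

theorem wg_ct (g : ℤ → K) (x : Fm K (LR I C)) : wg hI C g (ct K (eu hI C) x) = ct K (eu hI C) (wg hI C g x) :=
  FWt_e hI (FWt_ct hI C) (wg hI C g) (wg hI C g) (fun _ _ ht => FWt_c (FWt_ct hI C) (wg_of _ ht) (wg_of _ ht.ct)) x

theorem wg_inv (g : ℤ → K) (x : Fm K (LR I C)) :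
    wg hI C g (MPadcGP.inv K x) = MPadcGP.inv K (wg hI C g x) :=
  FWt_e hI (invl K (LR I C)) (wg hI C g) (wg hI C g)
    (fun _ _ ht => FWt_c (invl K (LR I C)) (wg_of _ ht) (wg_of _ ht.inv)) x

theorem wg_rs (g : ℤ → K) {C' : Finset (Fin n)} (h : C ⊆ C') (x : Fm K (LR I C)) :
    wg hI C' g ((lrC I).rs h x) = (lrC I).rs h (wg hI C g x) :=
  FWt_e hI (FWt_mp (trL I h)) (wg hI C g) (wg hI C' g)
    (fun _ _ ht => FWt_c (FWt_mp (trL I h)) (wg_of _ ht) (wg_of _ (ht.rs h))) x

theorem wg_df (g : ℤ → K) {F : MvPolynomial (Fin n) K} (hF : F.IsHomogeneous 1) (x : Fm K (LR I C)) :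
    wg hI C g (df K (mkL I C F) * x) = df K (mkL I C F) * wg hI C (fun t => g (t + 1)) x := by
  have hw : Wt hI C 1 (df K (mkL I C F)) := Wt_df (by
    rw [eu_mkL hI C hF, Nat.cast_one, Int.cast_one])
  refine FWt_e hI (LinearMap.mulLeft K (df K (mkL I C F))) (wg hI C fun t => g (t + 1)) (wg hI C g) (fun t y ht => ?_) x
  have h2 : wg hI C g (df K (mkL I C F) * y) = g (t + 1) • (df K (mkL I C F) * y) :=
    (wg_of g (hw.mul ht)).trans (by rw [add_comm])
  exact FWt_mul (wg_of _ ht) h2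

theorem wg_bdd (hI : IsHomog I) (x : Fm K (LR I C)) :
    ∃ N : ℕ, ∀ g : ℤ → K, (∀ t, -(N : ℤ) ≤ t → g t = 0) → wg hI C g x = 0 := 
  FWt_b (wg hI C) (by
    rintro y ⟨_, _, t, ht⟩
    exact ⟨t, fun g => wg_of g ht⟩) x (FWt_top hI C x)

end

end MPadcHS
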