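import Pool.Agent.Lib.MP_adc574_ag_DC.C5K
import Pool.Agent.Lib.MP_adc574_ag_HS.FBcA
import Pool.Agent.Lib.MP_adc574_ag_HS.FWt

/-!
# JOB FBc (HS): from `κ[a] ⊗ Ω(S[1/x_C])` to the forms on `S_K[1/x_C]`, `K = Frac κ[a]`

`lb J K C : LR J C → LR (bI J) C`. `be C (r ⊗ x) = r • mp x`.
* `lb_mkL`: as `GExK_lmap` (DC/GExK.lean, `MvPolynomial.induction_on`; `lmap_base`, `lmap_lx`).
* `lb_bij`: the inverse: `Ψ : LR (bI J) C → K ⊗[κ] LR J C` with `x_l ↦ 1 ⊗ x_l`: `Ideal.Quotient.lift (bI J) (eval₂Hom (algebraMap K (K ⊗ LR J C)) (fun l => 1 ⊗ₜ lx J C l))` (`bI J = Ideal.map ..`: `Ideal.map_le_iff_le_comap`, the generators `map f`, `f ∈ J`, go to `1 ⊗ (value of f) = 0`: `eval₂_map`), `IsLocalization.Away.lift` (the image of `∏ x_j` is `1 ⊗ unit`). `bcr ∘ Ψ = id`: `trL_ext` (FLr.lean). `Ψ ∘ bcr = id` on `b ⊗ x`: `Ψ (b • lb x) = b • Ψ (lb x)` and `Ψ (lb x) = 1 ⊗ x`: `trL_ext` for the two homomorphisms `LR J C → K ⊗ LR J C`. (Or look at the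 proof of `bcm_bijective` in GP/Mod3.lean.)
* `exists_be`: `bcf (lb_hb ..)` (GP/BC.lean) composed with `Algebra.TensorProduct.map (IsScalarTower.toAlgHom κ (Ra κ n 1) K) (AlgHom.id ..)`: `Ra ⊗ Fm κ (LR J C) → K ⊗ Fm κ (LR J C)`; multiplicative by `bcf_mul`.
* `be_inj`: `bcf_bijective` and the injectivity of `Ra ⊗ M → K ⊗ M` for a `κ`-vector space `M` (`Module.Flat.rTensor_preserves_injective_linearMap`, `IsFractionRing.injective`).
* `be_surj`: `Fd K (LR (bI J) C) q` is spanned over `K` by the images of `Fd κ (LR J C) q`: `fd_ind`: `fz r * wd t`; by `lb_bij` `r` and the `t i` are `K`-linear combinations of images of elements of `LR J C` (multilinearity; or `bc_fo`, GP/BCd.lean, with `o = some q`). Then a common denominator (`IsLocalization.exist_integer_multiples` or span induction: `r₁ r₂`).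
* `be_nG`: for `x = r ⊗ v` (`TensorProduct.induction_on`, additivity): `nG_apply`, `thG`; `be (r ⊗ dd v) = r • mp (dd v) = dd (r • mp v)` (`mp_dd`, `dd_smul`), `be (thG * x) = be (thG) * be x`, `be (thG) = ∑ a_g • df (lb (bC J 1 C g)) = df (mkL (frm a))` (`df` is linear over `K`; `bC J 1 C g = mkL J C (monomial g 1)`, `lb_mkL`).
* `exK`: `r • y = be x` (`be_surj`), `be (nG x) = r • (dd y + ..) = 0`, `be_inj`, `hG`; `x' = r⁻¹ • be x''`.
-/

set_option autoImplicit false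
set_option linter.unusedSectionVars false

namespace MPadcHS

open MvPolynomial TensorProduct MPadcGP MPadcDC

universe u

section lb

variable {κ : Type u} [Field κ] {n : ℕ} (J : Ideal (MvPolynomial (Fin n) κ)) (K : Type u) [Field K] [Algebra κ K]

/-- `S[1/x_C] → S_K[1/x_C]` -/
noncomputable abbrev lb (C : Finset (Fin n)) : LR J C →+* LR (bI (algebraMap κ K) J) C :=
  lmap (algebraMap κ K) (bI_mem (algebraMap κ K) J) (Finset.Subset.refl C)

theorem lb_hb (C : Finset (Fin n)) : HB κ K (lb J K C) := fun a =>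
  lmap_base (algebraMap κ K) (bI_mem (algebraMap κ K) J) (Finset.Subset.refl C) a

theorem lb_mkL (C : Finset (Fin n)) (f : MvPolynomial (Fin n) κ) :
    lb J K C (mkL J C f) = mkL (bI (algebraMap κ K) J) C (MvPolynomial.map (algebraMap κ K) f) := by
  have h1 : (lb J K C).comp ((algebraMap (CR J) (LR J C)).comp (Ideal.Quotient.mk J)) =
      ((algebraMap (CR (bI (algebraMap κ K) J)) (LR (bI (algebraMap κ K) J) C)).comp (Ideal.Quotient.mk _)).comp
        (MvPolynomial.map (algebraMap κ K)) := by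
    refine MvPolynomial.ringHom_ext (fun c => ?_) fun i => ?_
    · rw [RingHom.comp_apply _ (MvPolynomial.map (algebraMap κ K)), map_C]
      exact lmap_base (algebraMap κ K) (bI_mem (algebraMap κ K) J) (Finset.Subset.refl C) c
    · rw [RingHom.comp_apply _ (MvPolynomial.map (algebraMap κ K)), map_X]
      exact lmap_lx (algebraMap κ K) (bI_mem (algebraMap κ K) J) (Finset.Subset.refl C) i
  exact RingHom.congr_fun h1 f

private theorem FBc_mk0 (C : Finset (Fin n)) (f : MvPolynomial (Fin n) κ) (hf : f ∈ J) : mkL J C f = 0 := by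
  unfold MPadcDC.mkL
  rw [Ideal.Quotient.eq_zero_iff_mem.2 hf, map_zero]

private theorem FBc_exi (C : Finset (Fin n)) : ∃ Ψ : LR (bI (algebraMap κ K) J) C →+* K ⊗[κ] LR J C,
    (∀ b : K, Ψ (algebraMap K _ b) = b ⊗ₜ[κ] (1 : LR J C)) ∧
      ∀ l, Ψ (lx (bI (algebraMap κ K) J) C l) = 1 ⊗ₜ[κ] lx J C l :=
  @FBc_inv κ _ n J K _ _ C (LR J C) _ _ ((IsScalarTower.toAlgHom κ (CR J) (LR J C)).comp (Ideal.Quotient.mkₐ κ J))
    (fun f hf => FBc_mk0 J C f hf) (IsLocalization.Away.algebraMap_isUnit (Ideal.Quotient.mk J (∏ j ∈ C, X j)))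

theorem lb_bij (C : Finset (Fin n)) : Function.Bijective (bcr (lb_hb J K C)) :=
  @FBc_bij2 κ _ K _ _ (LR J C) (LR (bI (algebraMap κ K) J) C) _ _ _ _ (lb J K C) (lb_hb J K C) (Fin n) (lx J C)
    (lx (bI (algebraMap κ K) J) C) (fun l => lmap_lx (algebraMap κ K) (bI_mem (algebraMap κ K) J) (Finset.Subset.refl C) l)
    (fun _ _ h1 h2 => trL_ext J h1 h2) (fun _ _ h1 h2 => trL_ext (bI (algebraMap κ K) J) h1 h2) (FBc_exi J K C)

end lb

section be

variable {κ : Type u} [Field κ] {n : ℕ} (J : Ideal (MvPolynomial (Fin n) κ)) (K : Type u) [Field K]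
  [Algebra κ K] [Algebra (Ra κ n 1) K] [IsScalarTower κ (Ra κ n 1) K]

theorem exists_be (C : Finset (Fin n)) :
    ∃ φ : FG κ (Mon n 1) (LR J C) →+* Fm K (LR (bI (algebraMap κ K) J) C), ∀ (r : Ra κ n 1) (x : Fm κ (LR J C)),
      φ (r ⊗ₜ[κ] x) = algebraMap (Ra κ n 1) K r • mp (lb J K C) (lb_hb J K C).cc x := by
  exact FBc_ex (lb_hb J K C)

/-- The map from the forms over `κ[a]` to the forms over `K`. -/
noncomputable def be (C : Finset (Fin n)) : FG κ (Mon n 1) (LR J C) →+* Fm K (LR (bI (algebraMap κ K) J) C) :=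
  (exists_be J K C).choose

theorem be_tmul (C : Finset (Fin n)) (r : Ra κ n 1) (x : Fm κ (LR J C)) :
    be J K C (r ⊗ₜ[κ] x) = algebraMap (Ra κ n 1) K r • mp (lb J K C) (lb_hb J K C).cc x :=
  (exists_be J K C).choose_spec r x

theorem be_smul (C : Finset (Fin n)) (r : Ra κ n 1) (x : FG κ (Mon n 1) (LR J C)) :
    be J K C (r • x) = algebraMap (Ra κ n 1) K r • be J K C x := by
  exact FBc_smul (lb_hb J K C) (be_tmul J K C) r x

theorem be_mem (C : Finset (Fin n)) {q : ℕ} {x : FG κ (Mon n 1) (LR J C)} (hx : x ∈ FdG κ (Mon n 1) (C := LR J C) q) :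
    be J K C x ∈ Fd K (LR (bI (algebraMap κ K) J) C) q := by
  exact FBc_mem (lb_hb J K C) (be_tmul J K C) hx

theorem be_inj [IsFractionRing (Ra κ n 1) K] (C : Finset (Fin n)) : Function.Injective (be J K C) := by
  exact FBc_inj (lb_hb J K C) (be_tmul J K C) (lb_bij J K C)

theorem be_surj [IsFractionRing (Ra κ n 1) K] (C : Finset (Fin n)) {q : ℕ}
    {y : Fm K (LR (bI (algebraMap κ K) J) C)} (hy : y ∈ Fd K (LR (bI (algebraMap κ K) J) C) q) :
    ∃ r : Ra κ n 1, r ≠ 0 ∧ ∃ x ∈ FdG κ (Mon n 1) (C := LR J C) q, algebraMap (Ra κ n 1) K r • y = be J K C x := by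
  exact FBc_surj (lb_hb J K C) (be_tmul J K C) (lb_bij J K C) hy

/-- the homomorphism `mkL` -/
private noncomputable def FBc_g (I : Ideal (MvPolynomial (Fin n) K)) (C : Finset (Fin n)) :
    MvPolynomial (Fin n) K →+* LR I C := (algebraMap (CR I) (LR I C)).comp (Ideal.Quotient.mk I)

private theorem FBc_v (C : Finset (Fin n)) (g : Mon n 1) :
    lb J K C (bC J 1 C g) = FBc_g K (bI (algebraMap κ K) J) C (monomial g.1 1) :=
  (lb_mkL J K C (monomial g.1 1)).trans (congrArg (FBc_g K (bI (algebraMap κ K) J) C)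
    ((map_monomial (algebraMap κ K) g.1 1).trans (congrArg (monomial g.1) (map_one (algebraMap κ K)))))

theorem be_nG (C : Finset (Fin n)) (x : FG κ (Mon n 1) (LR J C)) :
    be J K C (nG κ (bC J 1 C) x) = dd K (be J K C x) +
      df K (mkL (bI (algebraMap κ K) J) C (frm (ak κ n 1 K))) * be J K C x :=
  (FBc_nG (lb_hb J K C) (be_tmul J K C) (bC J 1 C) x).trans (congrArg (fun t => dd K (be J K C x) + t * be J K C x)
    (@FBc_frm K _ (LR J C) (LR (bI (algebraMap κ K) J) C) _ _ _ (lb J K C) n 1 (FBc_g K (bI (algebraMap κ K) J) C)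
      (fun _ => rfl) (bC J 1 C) (FBc_v J K C) (ak κ n 1 K)))

theorem exK [IsFractionRing (Ra κ n 1) K] {C : Finset (Fin n)} {m : ℕ}
    (hG : ∀ q, q ≤ m → ∀ x ∈ FdG κ (Mon n 1) (C := LR J C) q, nG κ (bC J 1 C) x = 0 →
      ∃ y : FG κ (Mon n 1) (LR J C), (∀ r, r + 1 = q → y ∈ FdG κ (Mon n 1) (C := LR J C) r) ∧ (q = 0 → y = 0) ∧
        nG κ (bC J 1 C) y = x) {q : ℕ} (hq : q ≤ m) {y : Fm K (LR (bI (algebraMap κ K) J) C)}
    (hy : y ∈ Fd K (LR (bI (algebraMap κ K) J) C) q)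
    (h0 : dd K y + df K (mkL (bI (algebraMap κ K) J) C (frm (ak κ n 1 K))) * y = 0) :
    ∃ x : Fm K (LR (bI (algebraMap κ K) J) C), (∀ r, r + 1 = q → x ∈ Fd K (LR (bI (algebraMap κ K) J) C) r) ∧
      (q = 0 → x = 0) ∧ dd K x + df K (mkL (bI (algebraMap κ K) J) C (frm (ak κ n 1 K))) * x = y := by
  exact FBc_exK (lb_hb J K C) (be_tmul J K C) (lb_bij J K C) (be_nG J K C) hG hq hy h0

end be

end MPadcHS
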