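import Mathlib

/-!
# HS: the subsets of the first `n` indices
-/

set_option autoImplicit false

namespace MPadcHS

/-- The set `C` in the first `n` indices of `Fin (n + 1)`. -/
abbrev cm {n : ℕ} (C : Finset (Fin n)) : Finset (Fin (n + 1)) := C.map Fin.castSuccEmb

theorem cm_mono {n : ℕ} {J K : Finset (Fin n)} (h : J ⊆ K) : cm J ⊆ cm K := Finset.map_subset_map.2 h

end MPadcHS
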