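import Pool.Agent.Lib.MP_adc574_ag_HS.FLr
import Pool.Agent.Lib.MP_adc574_ag_HS.NCm
import Pool.Agent.Lib.MP_adc574_ag_DC.W1B

/-!
# JOB FPhi (HS): the homomorphism `x_l ↦ x_l / z` from `S[1/x_C]` to the functions on `U_(C ∪ z)`

`Q := cyc I F 1 = (I, z - F)` in `n + 1` variables, `z = Fin.last n`, `ci C = C ∪ {z}`. `phL hI hF C : LR I C → chart Q (ci C)`, `x_l ↦ x_l / z`; `phF`: the map of forms. `sC C := (W1F I F 1).e C`: the forms on `U_C` as forms on the chart `cm C` of `Proj Q` (`W1F`, DC/W1B.lean; `(W1F I F 1).e C = mp (W1c I F 1 C) _`).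
* `exists_phL`: as `exists_phiC` (DC/C3A.lean): `Ideal.Quotient.lift I (eval₂Hom ..)`: for `f ∈ I`: `rename castSucc f ∈ Q` (`W1_mem`, DC/W1C.lean), `eval₂_cq` (GP/Mod.lean; `IsHomog Q`: `isHomog_cyc hI hF`, DC/PHom.lean), `eval₂_rename`; then `IsLocalization.Away.lift`: the image of `∏ j ∈ C, X j` is a product of units `cq Q (ci C) j.castSucc z` (`cq_isUnit`).
* `phL_F`: as `phi_F` (DC/C3A.lean): `X z ^ 1 - rename castSucc F ∈ Q` (`W1_mem'`) evaluates to `0`, `cq z z = 1` (`cq_self`): `F` evaluated at the `x_l / z` is `1`; and `phL (mkL I C F)` is that value.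
* `phL_val`: `chart_hom_ext'` or `chart_ind`: `phL (cq I C l hj : LR) = (x_l / z) / (x_j / z) = x_l / x_j` (`cq_coe`/`cq_mul_lx`, `cq_mul`) and `tr (W1c (cq l hj)) = cq Q (ci C) l.castSucc _` (`W1c_cq`, `tr_cq`).
* `phL_trL`: `trL_ext` (FLr.lean) for the two homomorphisms `LR I C → chart Q (ci C')`.
* the statements on forms: `mp_fz`, `mp_df`, `mp_comp` (two ring homomorphisms from `Fm` agree if they agree on the `fz`, `df`: `hom_ext'`), `map_mul`; `phF_F1`: `fz 1 = 1`; `phF_F2`: `df 1 = 0`.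
-/

set_option autoImplicit false
set_option linter.unusedSectionVars false

namespace MPadcHS

open MvPolynomial MPadcGP MPadcDC

universe u

section

/-- The set `C ∪ {z}`. -/
abbrev ci {n : ℕ} (C : Finset (Fin n)) : Finset (Fin (n + 1)) := insert (Fin.last n) (cm C)

theorem ci_mono {n : ℕ} {C C' : Finset (Fin n)} (h : C ⊆ C') : ci C ⊆ ci C' := Finset.insert_subset_insert _ (cm_mono h)

variable {A : Type u} [CommRing A] {n : ℕ} {I : Ideal (MvPolynomial (Fin n) A)} {F : MvPolynomial (Fin n) A}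

private theorem FPhi_eval (hI : IsHomog I) (hF : F.IsHomogeneous 1) (C : Finset (Fin n))
    {f : MvPolynomial (Fin n) A} (hf : f ∈ I) :
    eval₂ (algebraMap A (chart (cyc I F 1) (ci C)))
      (fun l : Fin n => cq (cyc I F 1) (ci C) l.castSucc (Finset.mem_insert_self _ _)) f = 0 := by
  have h3 := eval₂_cq (isHomog_cyc hI hF) (Finset.mem_insert_self (Fin.last n) (cm C)) (W1_mem I F 1 hf)
  rw [eval₂_rename] at h3
  exact h3

private theorem FPhi_mk {R' : Type u} [CommRing R'] [Algebra A R'] {C : Finset (Fin n)} (φ : LR I C →ₐ[A] R')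
    (f : MvPolynomial (Fin n) A) :
    φ (mkL I C f) = eval₂ (algebraMap A R') (fun l => φ (lx I C l)) f := by
  have h : (φ : LR I C →+* R').comp ((algebraMap (CR I) (LR I C)).comp (Ideal.Quotient.mk I)) =
      eval₂Hom (algebraMap A R') (fun l => φ (lx I C l)) := by
    refine MvPolynomial.ringHom_ext (fun a => ?_) (fun l => ?_)
    · rw [eval₂Hom_C]
      have h1 : algebraMap A (LR I C) a = algebraMap (CR I) (LR I C) (Ideal.Quotient.mk I (MvPolynomial.C a)) := by
        rw [IsScalarTower.algebraMap_apply A (CR I) (LR I C)]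
        rfl
      have h2 := φ.commutes a
      rw [h1] at h2
      exact h2
    · rw [eval₂Hom_X']
      rfl
  exact congrArg (fun g : MvPolynomial (Fin n) A →+* R' => g f) h

theorem exists_phL (hI : IsHomog I) (hF : F.IsHomogeneous 1) (C : Finset (Fin n)) :
    ∃ φ : LR I C →ₐ[A] chart (cyc I F 1) (ci C), ∀ l : Fin n,
      φ (lx I C l) = cq (cyc I F 1) (ci C) l.castSucc (Finset.mem_insert_self _ _) := by
  let z : Fin n → chart (cyc I F 1) (ci C) := fun l =>
    cq (cyc I F 1) (ci C) l.castSucc (Finset.mem_insert_self _ _)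
  let g0 : CR I →+* chart (cyc I F 1) (ci C) := Ideal.Quotient.lift I
    (eval₂Hom (algebraMap A (chart (cyc I F 1) (ci C))) z) fun f hf => FPhi_eval hI hF C hf
  have hg0 : ∀ f, g0 (Ideal.Quotient.mk I f) = eval₂ (algebraMap A (chart (cyc I F 1) (ci C))) z f := fun f => rfl
  have hu : IsUnit (g0 (Ideal.Quotient.mk I (∏ j ∈ C, X j))) := by
    rw [hg0, eval₂_prod]
    simp only [eval₂_X]
    refine Finset.prod_induction _ _ (fun _ _ h1 h2 => h1.mul h2) isUnit_one fun j hj => ?_
    exact cq_isUnit (cyc I F 1) (ci C)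
      (Finset.mem_insert_of_mem (Finset.mem_map_of_mem Fin.castSuccEmb hj)) (Finset.mem_insert_self _ _)
  let g : LR I C →+* chart (cyc I F 1) (ci C) :=
    IsLocalization.Away.lift (Ideal.Quotient.mk I (∏ j ∈ C, X j)) hu
  have hg : ∀ x, g (algebraMap (CR I) (LR I C) x) = g0 x := fun x => IsLocalization.Away.lift_eq _ hu x
  refine ⟨{ g with commutes' := fun a => ?_ }, fun l => ?_⟩
  · have h1 : algebraMap A (LR I C) a = algebraMap (CR I) (LR I C) (Ideal.Quotient.mk I (MvPolynomial.C a)) := by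
      rw [IsScalarTower.algebraMap_apply A (CR I) (LR I C)]
      rfl
    change g (algebraMap A (LR I C) a) = _
    rw [h1, hg, hg0, eval₂_C]
  · change g (lx I C l) = _
    rw [lx, hg, hg0, eval₂_X]

/-- The homomorphism `x_l ↦ x_l / z`. -/
noncomputable def phL (hI : IsHomog I) (hF : F.IsHomogeneous 1) (C : Finset (Fin n)) :
    LR I C →ₐ[A] chart (cyc I F 1) (ci C) := (exists_phL hI hF C).choose

theorem phL_lx (hI : IsHomog I) (hF : F.IsHomogeneous 1) (C : Finset (Fin n)) (l : Fin n) :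
    phL hI hF C (lx I C l) = cq (cyc I F 1) (ci C) l.castSucc (Finset.mem_insert_self _ _) :=
  (exists_phL hI hF C).choose_spec l

theorem phL_F (hI : IsHomog I) (hF : F.IsHomogeneous 1) (C : Finset (Fin n)) : phL hI hF C (mkL I C F) = 1 := by
  rw [FPhi_mk]
  have h3 := eval₂_cq (isHomog_cyc hI hF) (Finset.mem_insert_self (Fin.last n) (cm C)) (W1_mem' I F 1)
  rw [eval₂_sub, eval₂_pow, eval₂_X, cq_self, one_pow, eval₂_rename, sub_eq_zero] at h3
  refine Eq.trans ?_ h3.symm
  exact congrArg (fun z => eval₂ (algebraMap A (chart (cyc I F 1) (ci C))) z F) (funext fun l => phL_lx hI hF C l)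

theorem phL_val (hI : IsHomog I) (hF : F.IsHomogeneous 1) (C : Finset (Fin n)) (x : chart I C) :
    phL hI hF C (x : LR I C) = tr (cyc I F 1) (Finset.subset_insert (Fin.last n) (cm C)) (W1c I F 1 C x) := by
  induction x using chart_ind with
  | h1 a =>
    rw [AlgHom.commutes, AlgHom.commutes]
    exact (phL hI hF C).commutes a
  | h2 l m hm =>
    have hm' : Fin.castSucc m ∈ cm C := Finset.mem_map_of_mem Fin.castSuccEmb hm
    have hm2 : Fin.castSucc m ∈ ci C := Finset.mem_insert_of_mem hm'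
    rw [W1c_cq I F 1 l hm hm', tr_cq]
    apply (cq_isUnit (cyc I F 1) (ci C) hm2 (Finset.mem_insert_self (Fin.last n) (cm C))).mul_right_cancel
    rw [cq_mul, ← phL_lx hI hF C m, ← map_mul, cq_mul_lx, phL_lx]
  | h3 x y hx hy =>
    rw [map_add, map_add, ← hx, ← hy, ← map_add]
    rfl
  | h4 x y hx hy =>
    rw [map_mul, map_mul, ← hx, ← hy, ← map_mul]
    rfl

theorem phL_trL (hI : IsHomog I) (hF : F.IsHomogeneous 1) {C C' : Finset (Fin n)} (h : C ⊆ C') (x : LR I C) :
    phL hI hF C' (trL I h x) = tr (cyc I F 1) (ci_mono h) (phL hI hF C x) := by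
  have h1 : ((phL hI hF C').comp (trL I h) : LR I C →+* chart (cyc I F 1) (ci C')) =
      ((tr (cyc I F 1) (ci_mono h)).comp (phL hI hF C) : LR I C →+* chart (cyc I F 1) (ci C')) := by
    refine trL_ext I (fun a => ?_) (fun l => ?_)
    · exact (((phL hI hF C').comp (trL I h)).commutes a).trans
        (((tr (cyc I F 1) (ci_mono h)).comp (phL hI hF C)).commutes a).symm
    · change phL hI hF C' (trL I h (lx I C l)) = tr (cyc I F 1) (ci_mono h) (phL hI hF C (lx I C l))
      rw [trL_lx, phL_lx, phL_lx, tr_cq]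
  exact congrArg (fun g : LR I C →+* chart (cyc I F 1) (ci C') => g x) h1

/-- The homomorphism of forms. -/
noncomputable def phF (hI : IsHomog I) (hF : F.IsHomogeneous 1) (C : Finset (Fin n)) :
    Fm A (LR I C) →+* (prC (cyc I F 1)).E (ci C) :=
  mp (phL hI hF C : LR I C →+* chart (cyc I F 1) (ci C)) (CC.of_algHom _)

variable (hI : IsHomog I) (hF : F.IsHomogeneous 1)

theorem phF_fz (C : Finset (Fin n)) (r : LR I C) : phF hI hF C (fz A r) = fz A (phL hI hF C r) := mp_fz _ r

theorem phF_df (C : Finset (Fin n)) (r : LR I C) : phF hI hF C (df A r) = df A (phL hI hF C r) := mp_df _ r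

theorem phF_dd (C : Finset (Fin n)) (x : Fm A (LR I C)) : phF hI hF C (dd A x) = dd A (phF hI hF C x) :=
  mp_dd _ _

theorem phF_inv (C : Finset (Fin n)) (x : Fm A (LR I C)) :
    phF hI hF C (MPadcGP.inv A x) = MPadcGP.inv A (phF hI hF C x) := mp_inv _ _

theorem phF_mem (C : Finset (Fin n)) {q : ℕ} {x : Fm A (LR I C)} (hx : x ∈ Fd A (LR I C) q) :
    phF hI hF C x ∈ Fd A ((prC (cyc I F 1)).R (ci C)) q := mp_mem _ hx

theorem phF_smul (C : Finset (Fin n)) (a : A) (x : Fm A (LR I C)) :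
    phF hI hF C (a • x) = a • phF hI hF C x := by
  rw [smul_fm, map_mul, phF_fz, smul_fm, AlgHom.commutes]
  rfl

theorem phF_F1 (C : Finset (Fin n)) (x : Fm A (LR I C)) :
    phF hI hF C (fz A (mkL I C F) * x) = phF hI hF C x := by
  rw [map_mul, phF_fz, phL_F, map_one]
  exact one_mul (phF hI hF C x)

theorem phF_F2 (C : Finset (Fin n)) (x : Fm A (LR I C)) : phF hI hF C (df A (mkL I C F) * x) = 0 := by
  rw [map_mul, phF_df, phL_F, df_one]
  exact zero_mul (phF hI hF C x)

theorem phF_inF (C : Finset (Fin n)) (x : Fm A (chart I C)) :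
    phF hI hF C (inF I C x) =
      (prC (cyc I F 1)).rs (Finset.subset_insert (Fin.last n) (cm C)) ((W1F I F 1).e C x) := by
  have h1 : (phF hI hF C).comp (inF I C) =
      ((prC (cyc I F 1)).rs (Finset.subset_insert (Fin.last n) (cm C))).comp ((W1F I F 1).e C) := by
    refine hom_ext' (fun r => ?_) (fun r => ?_)
    · change phF hI hF C (inF I C (fz A r)) =
        (prC (cyc I F 1)).rs (Finset.subset_insert (Fin.last n) (cm C)) ((W1F I F 1).e C (fz A r))
      have h2 : inF I C (fz A r) = fz A (r : LR I C) := mp_fz _ r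
      rw [h2, phF_fz, phL_val, CovD.Hm.e_fz]
      exact (CovD.rs_fz (X := prC (cyc I F 1)) (Finset.subset_insert (Fin.last n) (cm C)) (W1c I F 1 C r)).symm
    · change phF hI hF C (inF I C (df A r)) =
        (prC (cyc I F 1)).rs (Finset.subset_insert (Fin.last n) (cm C)) ((W1F I F 1).e C (df A r))
      have h2 : inF I C (df A r) = df A (r : LR I C) := mp_df _ r
      rw [h2, phF_df, phL_val, CovD.Hm.e_df]
      exact (CovD.rs_df (X := prC (cyc I F 1)) (Finset.subset_insert (Fin.last n) (cm C)) (W1c I F 1 C r)).symm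
  exact congrArg (fun g : Fm A (chart I C) →+* (prC (cyc I F 1)).E (ci C) => g x) h1

theorem phF_rs {C C' : Finset (Fin n)} (h : C ⊆ C') (x : Fm A (LR I C)) :
    phF hI hF C' ((lrC I).rs h x) = (prC (cyc I F 1)).rs (ci_mono h) (phF hI hF C x) := by
  have h1 : (phF hI hF C').comp ((lrC I).rs h) = ((prC (cyc I F 1)).rs (ci_mono h)).comp (phF hI hF C) := by
    refine hom_ext' (fun r => ?_) (fun r => ?_)
    · change phF hI hF C' ((lrC I).rs h (fz A r)) = (prC (cyc I F 1)).rs (ci_mono h) (phF hI hF C (fz A r))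
      have h2 : (lrC I).rs h (fz A r) = fz A (trL I h r) := CovD.rs_fz (X := lrC I) h r
      rw [h2, phF_fz, phF_fz, phL_trL]
      exact (CovD.rs_fz (X := prC (cyc I F 1)) (ci_mono h) (phL hI hF C r)).symm
    · change phF hI hF C' ((lrC I).rs h (df A r)) = (prC (cyc I F 1)).rs (ci_mono h) (phF hI hF C (df A r))
      have h2 : (lrC I).rs h (df A r) = df A (trL I h r) := CovD.rs_df (X := lrC I) h r
      rw [h2, phF_df, phF_df, phL_trL]
      exact (CovD.rs_df (X := prC (cyc I F 1)) (ci_mono h) (phL hI hF C r)).symm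
  exact congrArg (fun g : Fm A (LR I C) →+* (prC (cyc I F 1)).E (ci C') => g x) h1

end

end MPadcHS
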