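import Pool.Agent.Lib.MP_adc574_ag_HS.FChA
import Pool.Agent.Lib.MP_adc574_ag_HS.FPhi
import Pool.Agent.Lib.MP_adc574_ag_HS.Defs

/-!
# JOB FCh (HS): the forms of weight `0` on `S[1/x_C]`

`l := min C`, `dlx I hC = dlog x_l` on `S[1/x_C]`, `ct (dlx) = 1` (`ct_df`, `eu_lx`, `ct` is linear over the functions: `ct (fz r * y) = fz r * ct y`: `fz_smul`).
* `wt0_dec`: `x = inF a + dlx * inF b`, `a = reF x`, `b = reF (ct x)`. Let `T_i ⊆ Fm K (LR I C)` be the set of the `fz (x_l ^ i) * (inF a + dlx * inF b)`, `i : ℤ` (`x_l` a unit; `x_l ^ i` as a power of the unit). Every form is a sum of elements of the `T_i`: the set of these sums contains `1`, is closed under multiplication with `fz r` (every `r : LR I C` is a sum of `x_l ^ i * b`, `b ∈ chart`: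
  `exists_laurent` (DC/GExt.lean) is for `C = {l}`; in general: `r = (polynomial in the lx) * (∏_{j ∈ C} lx j)^(-N)`, `lx k = cq k l * lx l`, so `r` is a sum of elements of `chart` times powers of `lx l`), and with `df r` for these `r` (`df (x_l ^ i * b) = fz (x_l ^ i) * (df b + i b dlx)`; `df b * inF a = inF (df b * a)`, `df b * dlx = - dlx * df b`, `dlx * dlx = 0`): `fm_ind`-type induction (GP/DR.lean).
  An element of `T_i` has the weight `i` (`Wt_fz`, `Wt.mul`, `eu_chart`; `inF a` has the weight `0`: `ct (inF a) = 0` for all `a` as `eu` vanishes on the chart, and `dd (inF a) = inF (dd a)`; `dlx` has the weight `0`). Apply `wg hI C δ₀`, `δ₀ t = if t = 0 then 1 else 0`: `x = wg δ₀ x` (weight `0`, `wg_of`) is an element of `T_0` (sums of elements of `T_0` are in `T_0`): `x = inF a + dlx * inF b`.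
  Now `reF (dlx) = fz 1 * df 1 = 0` (`reL_lx`, `cq_self`), so `reF x = a` (`reF_inF`); `ct x = ct (inF a) + inF b - dlx * ct (inF b) = inF b` (`ct_mul`/`ct_df_mul`), so `reF (ct x) = b`.
* `ct_wt0`: from the same representation: `ct x = inF b`.
* `phF_wt0`: apply `phF`: `phF (inF a) = rs (sC a)` (`phF_inF`), `phF (dlx) = fz (z / x_l) * df (x_l / z) = - fz (x_l / z) * df (z / x_l) = - dlg Q (ci C) z x_l` (`phL_lx`, `(x_l / z) * (z / x_l) = 1`: `cq_mul`, `cq_self`; from `u * v = 1`: `fz v * df u = - fz u * df v`). `dlg Q C z j = fz (cq Q C j z) * df (cq Q C z j)` (Defs.lean).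
  `reF hI hC x ∈ Fd q` etc. are not needed.
-/

set_option autoImplicit false
set_option linter.unusedSectionVars false

namespace MPadcHS

open MvPolynomial MPadcGP MPadcDC

universe u

section

variable {K : Type u} [Field K] [CharZero K] {n : ℕ} {I : Ideal (MvPolynomial (Fin n) K)}

theorem min_cm {C : Finset (Fin n)} (hC : C.Nonempty) (h : (cm C).Nonempty) : (cm C).min' h = (C.min' hC).castSucc := by
  apply le_antisymm
  · exact Finset.min'_le _ _ (Finset.mem_map_of_mem Fin.castSuccEmb (C.min'_mem hC))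
  · refine Finset.le_min' _ _ _ fun y hy => ?_
    obtain ⟨j, hj, rfl⟩ := Finset.mem_map.1 hy
    exact Fin.castSucc_le_castSucc_iff.2 (Finset.min'_le _ _ hj)

private theorem FCh_e0 {R S : Type*} [Ring R] [Ring S] (φ : R →+* S) {u v : R} {a b : S} (hu : φ u = a) (hv : φ v = b) :
    φ (u * v) = a * b := by
  rw [map_mul, hu, hv]

private theorem FCh_e1 {R S : Type*} [CommRing R] [CommRing S] (φ : R →+* S) {u v : R} {a b : S} (h : v * u = 1)
    (hu : φ u = a) (hab : a * b = 1) : φ v = b := by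
  have h1 : φ v * a = 1 := by rw [← hu, ← map_mul, h, map_one]
  calc φ v = φ v * (a * b) := by rw [hab, mul_one]
    _ = b := by rw [← mul_assoc, h1, one_mul]

private theorem FCh_e2 {R S : Type*} [Ring R] [Ring S] (φ : R →+* S) {x p q r : R} {P Q D : S} (hx : x = p + q * r)
    (hp : φ p = P) (hq : φ q = -D) (hr : φ r = Q) : φ x = P - D * Q := by
  rw [hx, map_add, map_mul, hp, hq, hr, neg_mul, sub_eq_add_neg]

private theorem FCh_e3 {A R : Type*} [CommRing A] [CommRing R] [Algebra A R] {a b : R} (hab : a * b = 1) :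
    fz A b * df A a = -(fz A a * df A b) := by
  have h5 : fz A a * df A b + fz A b * df A a = 0 := by rw [← df_mul, hab, df_one]
  exact eq_neg_of_add_eq_zero_right h5

theorem phF_wt0 (hI : IsHomog I) {F : MvPolynomial (Fin n) K} (hF : F.IsHomogeneous 1) {C : Finset (Fin n)}
    (hC : C.Nonempty) {x : Fm K (LR I C)} (hw : Wt hI C 0 x) :
    phF hI hF C x = (prC (cyc I F 1)).rs (Finset.subset_insert (Fin.last n) (cm C)) ((W1F I F 1).e C (reF hI hC x)) -
      dlg (cyc I F 1) (ci C) (Fin.last n) (C.min' hC).castSucc (Finset.mem_insert_self _ _)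
        (Finset.mem_insert_of_mem (Finset.mem_map_of_mem Fin.castSuccEmb (C.min'_mem hC))) *
        (prC (cyc I F 1)).rs (Finset.subset_insert (Fin.last n) (cm C))
          ((W1F I F 1).e C (reF hI hC (ct K (eu hI C) x))) := by
  set l := C.min' hC with hl
  have hz : Fin.last n ∈ ci C := Finset.mem_insert_self _ _
  have hlm : l.castSucc ∈ ci C :=
    Finset.mem_insert_of_mem (Finset.mem_map_of_mem Fin.castSuccEmb (C.min'_mem hC))
  have hab : cq (cyc I F 1) (ci C) l.castSucc hz * cq (cyc I F 1) (ci C) (Fin.last n) hlm = 1 :=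
    (cq_mul (cyc I F 1) (ci C) hz hlm).trans (cq_self (cyc I F 1) (ci C) hlm)
  have h3 : phL hI hF C (((lx_isUnit I C (C.min'_mem hC)).unit⁻¹ : (LR I C)ˣ) : LR I C) =
      cq (cyc I F 1) (ci C) (Fin.last n) hlm :=
    FCh_e1 (phL hI hF C : LR I C →+* chart (cyc I F 1) (ci C)) (IsUnit.val_inv_mul _) (phL_lx hI hF C l) hab
  have h4 : phF hI hF C (dlx I hC) = -dlg (cyc I F 1) (ci C) (Fin.last n) l.castSucc hz hlm :=
    (FCh_e0 (phF hI hF C) ((phF_fz hI hF C _).trans (congrArg _ h3))
      ((phF_df hI hF C _).trans (congrArg _ (phL_lx hI hF C l)))).trans (FCh_e3 hab)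
  exact FCh_e2 (phF hI hF C) (wt0_dec hI hC hw) (phF_inF hI hF C _) h4 (phF_inF hI hF C _)

end

end MPadcHS
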