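import Pool.Agent.Lib.MP_adc574_ag_HS.FEuA

/-!
# HS: the forms of weight `0`, abstract statements (used in FChA.lean)

`E` a derivation of the `K`-algebra `R`, `π : R → R`, `u` a unit, `d = dlog u`, `ρ` the endomorphism of the forms given by `π`.
If `R` is spanned by the `r` with `E r = i • r`, `r = u ^ i * π r`, then `x = ρ x + d * ρ (ct x)` for all `x` of weight `0`.
-/

set_option autoImplicit false
set_option linter.unusedSectionVars false

namespace MPadcHS

open MvPolynomial MPadcGP MPadcDC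

universe u

section dl

variable {K : Type u} {R : Type u} [Field K] [CommRing R] [Algebra K R]

/-- the logarithmic derivative of a unit -/
noncomputable def FBdl (w : Rˣ) : Fm K R := fz K ((w⁻¹ : Rˣ) : R) * df K (w : R)

theorem FBdl_mul (w w' : Rˣ) : FBdl (K := K) (w * w') = FBdl w + FBdl w' := by
  unfold FBdl
  have h1 : ((w * w')⁻¹ : Rˣ) = w⁻¹ * w'⁻¹ := mul_inv w w'
  rw [h1, Units.val_mul, Units.val_mul, df_mul, mul_add, ← mul_assoc, ← mul_assoc, ← map_mul, ← map_mul]
  have h2 : ((w⁻¹ : Rˣ) : R) * ((w'⁻¹ : Rˣ) : R) * (w : R) = ((w'⁻¹ : Rˣ) : R) := by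
    rw [mul_comm ((w⁻¹ : Rˣ) : R), mul_assoc, Units.inv_mul, mul_one]
  have h3 : ((w⁻¹ : Rˣ) : R) * ((w'⁻¹ : Rˣ) : R) * (w' : R) = ((w⁻¹ : Rˣ) : R) := by
    rw [mul_assoc, Units.inv_mul, mul_one]
  rw [h2, h3, add_comm]

theorem FBdl_zpow (w : Rˣ) (i : ℤ) : FBdl (K := K) (w ^ i) = i • FBdl w := by
  let D : Additive Rˣ →+ Fm K R :=
    { toFun := fun w => FBdl w.toMul
      map_zero' := by
        have h1 := FBdl_mul (K := K) (1 : Rˣ) 1
        rw [mul_one] at h1
        exact left_eq_add.1 h1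
      map_add' := fun w w' => FBdl_mul _ _ }
  exact map_zsmul D i (Additive.ofMul w)

theorem FBdf_zpow (w : Rˣ) (i : ℤ) :
    df K ((w ^ i : Rˣ) : R) = fz K ((w ^ i : Rˣ) : R) * (i • FBdl w) := by
  rw [← FBdl_zpow]
  unfold FBdl
  rw [← mul_assoc, ← map_mul, Units.mul_inv, map_one, one_mul]

theorem FBdl_comm (u : Rˣ) (w : Fm K R) : w * FBdl u = FBdl u * MPadcGP.inv K w := by
  unfold FBdl
  rw [mul_assoc, df_comm, MPadcGP.inv_inv, ← mul_assoc, ← mul_assoc, fz_comm]

theorem FBdl_sq (u : Rˣ) : FBdl (K := K) u * FBdl u = 0 := by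
  unfold FBdl
  rw [mul_assoc, ← mul_assoc (df K (u : R)), ← fz_comm, mul_assoc (fz K _) (df K _) (df K _), df_sq,
    mul_zero, mul_zero]

end dl

section la

variable {K : Type u} {R : Type u} [Field K] [CommRing R] [Algebra K R] (E : Derivation K R R) (u : Rˣ)
  (ρ : Fm K R →+* Fm K R)

/-- `x ↦ ρ x + dlog u * ρ (ct x)` -/
noncomputable def FBLa (x : Fm K R) : Fm K R := ρ x + FBdl u * ρ (ct K E x)

theorem FBLa_add (x y : Fm K R) : FBLa E u ρ (x + y) = FBLa E u ρ x + FBLa E u ρ y := by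
  unfold FBLa
  rw [map_add, map_add, map_add, mul_add]
  abel

variable {E u ρ} {π : R →ₐ[K] R} (h1 : ∀ r, ρ (fz K r) = fz K (π r)) (h2 : ∀ r, ρ (df K r) = df K (π r))

include h1

theorem FBrho_smul (c : K) (x : Fm K R) : ρ (c • x) = c • ρ x := by
  rw [smul_fm, map_mul, h1, smul_fm, AlgHom.commutes]

theorem FBLa_smul (c : K) (x : Fm K R) : FBLa E u ρ (c • x) = c • FBLa E u ρ x := by
  unfold FBLa
  rw [FEu_ct_smul, FBrho_smul h1, FBrho_smul h1, smul_add, mul_smul_comm]

theorem FBLa_fz (r : R) : FBLa E u ρ (fz K r) = fz K (π r) := by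
  unfold FBLa
  rw [ct_fz, map_zero, mul_zero, add_zero, h1]

include h2

theorem FBrho_inv (x : Fm K R) : ρ (MPadcGP.inv K x) = MPadcGP.inv K (ρ x) := by
  induction x using fm_ind with
  | h1 r => rw [inv_fz, h1, inv_fz]
  | h2 t => rw [inv_df, map_neg, h2, inv_df]
  | h3 a b ha hb => rw [map_mul, map_mul, ha, hb, map_mul, map_mul]
  | h4 a b ha hb => rw [map_add, map_add, ha, hb, map_add, map_add]

theorem FBLa_mul (x y : Fm K R) : FBLa E u ρ (x * y) = FBLa E u ρ x * FBLa E u ρ y := by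
  unfold FBLa
  rw [ct_mul, map_add, map_mul, map_mul, map_mul, FBrho_inv h1 h2]
  generalize ρ x = a
  generalize ρ y = b
  generalize ρ (ct K E x) = a'
  generalize ρ (ct K E y) = b'
  have h3 := FBdl_comm u a
  have h4 := FBdl_comm u a'
  have h5 := FBdl_sq (K := K) u
  generalize FBdl (K := K) u = d at h3 h4 h5 ⊢
  have h6 : a * (d * b') = d * (MPadcGP.inv K a * b') := by
    rw [← mul_assoc, h3, mul_assoc]
  have h7 : d * a' * (d * b') = 0 := by
    rw [mul_assoc, ← mul_assoc a', h4, mul_assoc d, ← mul_assoc d d, h5, zero_mul]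
  have e : (a + d * a') * (b + d * b') = a * b + a * (d * b') + (d * a' * b + d * a' * (d * b')) := by
    rw [add_mul, mul_add, mul_add]
  rw [e, h6, h7, add_zero, mul_add, mul_assoc d a' b]
  abel

theorem FBLa_df (r : R) : FBLa E u ρ (df K r) = df K (π r) + FBdl u * fz K (π (E r)) := by
  unfold FBLa
  rw [ct_df, h2, h1]

end la

section T0

variable {K : Type u} {R : Type u} [Field K] [CommRing R] [Algebra K R] (E : Derivation K R R) (u : Rˣ)
  (π : R →ₐ[K] R)

/-- the homogeneous functions -/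
def FBT0 : Set R := {r | ∃ i : ℤ, E r = (i : K) • r ∧ r = ((u ^ i : Rˣ) : R) * π r}

variable {E u π}

theorem FBT0_mul {r s : R} (hr : r ∈ FBT0 E u π) (hs : s ∈ FBT0 E u π) : r * s ∈ FBT0 E u π := by
  obtain ⟨i, hi, hi2⟩ := hr
  obtain ⟨j, hj, hj2⟩ := hs
  refine ⟨i + j, FEu_a_lmul E hi hj, ?_⟩
  rw [zpow_add, Units.val_mul, map_mul, mul_mul_mul_comm, ← hi2, ← hj2]

theorem FBT0_base (a : K) : algebraMap K R a ∈ FBT0 E u π := by
  refine ⟨0, ?_, ?_⟩
  · rw [Derivation.map_algebraMap, Int.cast_zero, zero_smul]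
  · rw [zpow_zero, Units.val_one, one_mul, AlgHom.commutes]

theorem FBT0_one : (1 : R) ∈ FBT0 E u π := by
  have h1 := FBT0_base (E := E) (u := u) (π := π) 1
  rwa [map_one] at h1

theorem FBT0_inv {r v : R} (hr : r ∈ FBT0 E u π) (h : r * v = 1) : v ∈ FBT0 E u π := by
  obtain ⟨i, hi, hi2⟩ := hr
  refine ⟨-i, FEu_a_inv E hi h, ?_⟩
  apply (IsUnit.of_mul_eq_one v h).mul_left_cancel
  have h3 : π r * π v = 1 := by rw [← map_mul, h, map_one]
  rw [h, zpow_neg]
  conv_rhs => rw [hi2]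
  rw [mul_mul_mul_comm, Units.mul_inv, one_mul, h3]

theorem FBT0_prod {ι : Type*} (C : Finset ι) (f : ι → R) (hf : ∀ i, f i ∈ FBT0 E u π) : ∏ i ∈ C, f i ∈ FBT0 E u π :=
  Finset.prod_induction _ (fun y => y ∈ FBT0 E u π) (fun _ _ => FBT0_mul) FBT0_one fun i _ => hf i

theorem FBT0_pow {v : R} (hv : v ∈ FBT0 E u π) (k : ℕ) : v ^ k ∈ FBT0 E u π := by
  induction k with
  | zero => rw [pow_zero]; exact FBT0_one
  | succ k ih => rw [pow_succ]; exact FBT0_mul ih hv

theorem FBT0_smul {x y : R} (hx : x ∈ Submodule.span K (FBT0 E u π)) (hy : y ∈ FBT0 E u π) :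
    x * y ∈ Submodule.span K (FBT0 E u π) := by
  induction hx using Submodule.span_induction with
  | mem x hx => exact Submodule.subset_span (FBT0_mul hx hy)
  | zero => rw [zero_mul]; exact Submodule.zero_mem _
  | add y y' _ _ h1 h2 => rw [add_mul]; exact Submodule.add_mem _ h1 h2
  | smul c y _ h1 => rw [smul_mul_assoc]; exact Submodule.smul_mem _ _ h1

theorem FBT0_span {n : ℕ} (g : MvPolynomial (Fin n) K →+* R) (hc : ∀ c, g (MvPolynomial.C c) = algebraMap K R c)
    (hE : ∀ l, E (g (X l)) = g (X l)) (hπ : ∀ l, g (X l) = u * π (g (X l))) {C : Finset (Fin n)} {x : R} {k : ℕ}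
    {p : MvPolynomial (Fin n) K} (hx : x * g ((∏ j ∈ C, X j) ^ k) = g p) (hu : IsUnit (g ((∏ j ∈ C, X j) ^ k))) :
    x ∈ Submodule.span K (FBT0 E u π) := by
  have hX : ∀ l, g (X l) ∈ FBT0 E u π := by
    intro l
    refine ⟨1, ?_, ?_⟩
    · rw [hE, Int.cast_one, one_smul]
    · rw [zpow_one]
      exact hπ l
  have hp : ∀ p, g p ∈ Submodule.span K (FBT0 E u π) := by
    intro p
    induction p using MvPolynomial.induction_on with
    | C a =>
      rw [hc]
      exact Submodule.subset_span (FBT0_base a)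
    | add p q hp hq =>
      rw [map_add]
      exact Submodule.add_mem _ hp hq
    | mul_X p l hp =>
      rw [map_mul]
      exact FBT0_smul hp (hX l)
  obtain ⟨v, hv⟩ := hu.exists_right_inv
  have h1 : g ((∏ j ∈ C, X j) ^ k) ∈ FBT0 E u π := by
    rw [map_pow, map_prod]
    exact FBT0_pow (FBT0_prod C _ hX) k
  have h2 : x = g p * v := by rw [← hx, mul_assoc, hv, mul_one]
  rw [h2]
  exact FBT0_smul (hp p) (FBT0_inv h1 hv)

end T0

section T

variable {K : Type u} {R : Type u} [Field K] [CommRing R] [Algebra K R] (E : Derivation K R R) (u : Rˣ)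
  (ρ : Fm K R →+* Fm K R)

/-- the homogeneous forms -/
def FBT : Set (Fm K R) := {y | ∃ i : ℤ, FWA E i y ∧ y = fz K ((u ^ i : Rˣ) : R) * FBLa E u ρ y}

variable {E u ρ} {π : R →ₐ[K] R} (h1 : ∀ r, ρ (fz K r) = fz K (π r)) (h2 : ∀ r, ρ (df K r) = df K (π r))

include h1

theorem FBT_fz {r : R} (hr : r ∈ FBT0 E u π) : fz K r ∈ FBT E u ρ := by
  obtain ⟨i, hi, hi2⟩ := hr
  refine ⟨i, FWA_fz hi, ?_⟩
  rw [FBLa_fz h1, ← map_mul, ← hi2]

include h2

theorem FBT_mul {x y : Fm K R} (hx : x ∈ FBT E u ρ) (hy : y ∈ FBT E u ρ) : x * y ∈ FBT E u ρ := by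
  obtain ⟨i, hi, hi2⟩ := hx
  obtain ⟨j, hj, hj2⟩ := hy
  refine ⟨i + j, hi.mul hj, ?_⟩
  rw [zpow_add, Units.val_mul, map_mul, FBLa_mul h1 h2]
  have h3 : ∀ a b c d : Fm K R, b * c = c * b → a * b * (c * d) = (a * c) * (b * d) := fun a b c d h => by
    rw [mul_assoc, ← mul_assoc b, h, mul_assoc, ← mul_assoc]
  rw [h3 _ _ _ _ (fz_comm _ _), ← hi2, ← hj2]

theorem FBT_df {r : R} (hr : r ∈ FBT0 E u π) : df K r ∈ FBT E u ρ := by
  obtain ⟨i, hi, hi2⟩ := hr
  refine ⟨i, FWA_df hi, ?_⟩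
  rw [FBLa_df h1 h2, hi, map_smul, FEu_fz_smul, mul_add]
  conv_lhs => rw [hi2, df_mul]
  rw [FBdf_zpow]
  congr 1
  rw [mul_smul_comm, mul_smul_comm, mul_smul_comm, mul_smul_comm, ← fz_comm (π r) (FBdl u), ← mul_assoc, ← mul_assoc,
    ← map_mul, ← map_mul, mul_comm (π r)]
  exact (Int.cast_smul_eq_zsmul K i _).symm

theorem FBT_smul {x y : Fm K R} (hx : x ∈ Submodule.span K (FBT E u ρ)) (hy : y ∈ Submodule.span K (FBT E u ρ)) :
    x * y ∈ Submodule.span K (FBT E u ρ) := by
  induction hx using Submodule.span_induction with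
  | mem x hx =>
    induction hy using Submodule.span_induction with
    | mem y hy => exact Submodule.subset_span (FBT_mul h1 h2 hx hy)
    | zero => rw [mul_zero]; exact Submodule.zero_mem _
    | add y y' _ _ h1 h2 => rw [mul_add]; exact Submodule.add_mem _ h1 h2
    | smul c y _ h1 => rw [mul_smul_comm]; exact Submodule.smul_mem _ _ h1
  | zero => rw [zero_mul]; exact Submodule.zero_mem _
  | add y y' _ _ h1 h2 => rw [add_mul]; exact Submodule.add_mem _ h1 h2
  | smul c y _ h1 => rw [smul_mul_assoc]; exact Submodule.smul_mem _ _ h1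

theorem FBT_span (hT : ∀ r : R, r ∈ Submodule.span K (FBT0 E u π)) (x : Fm K R) : x ∈ Submodule.span K (FBT E u ρ) := by
  induction x using fm_ind with
  | h1 r =>
    have h3 := hT r
    induction h3 using Submodule.span_induction with
    | mem r hr => exact Submodule.subset_span (FBT_fz h1 hr)
    | zero => rw [map_zero]; exact Submodule.zero_mem _
    | add x y _ _ hx hy => rw [map_add]; exact Submodule.add_mem _ hx hy
    | smul c x _ hx => rw [FEu_fz_smul]; exact Submodule.smul_mem _ _ hx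
  | h2 t =>
    have h3 := hT t
    induction h3 using Submodule.span_induction with
    | mem r hr => exact Submodule.subset_span (FBT_df h1 h2 hr)
    | zero => rw [df_zero]; exact Submodule.zero_mem _
    | add x y _ _ hx hy => rw [df_add]; exact Submodule.add_mem _ hx hy
    | smul c x _ hx => rw [FEu_df_smul]; exact Submodule.smul_mem _ _ hx
  | h3 x y hx hy => exact FBT_smul h1 h2 hx hy
  | h4 x y hx hy => exact Submodule.add_mem _ hx hy

theorem FBmain (hT : ∀ r : R, r ∈ Submodule.span K (FBT0 E u π)) (W : Fm K R →ₗ[K] Fm K R)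
    (hW : ∀ (t : ℤ) (y : Fm K R), FWA E t y → W y = (if t = 0 then (1 : K) else 0) • y) {x : Fm K R}
    (hx : FWA E 0 x) : x = FBLa E u ρ x := by
  have key : ∀ y ∈ Submodule.span K (FBT E u ρ), W y = FBLa E u ρ (W y) := by
    intro y hy
    induction hy using Submodule.span_induction with
    | mem y hy =>
      obtain ⟨i, hi, hi2⟩ := hy
      rw [hW i y hi, FBLa_smul h1]
      by_cases h : i = 0
      · subst h
        rw [zpow_zero, Units.val_one, map_one, one_mul] at hi2
        rw [← hi2]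
      · rw [if_neg h, zero_smul, zero_smul]
    | zero =>
      rw [map_zero]
      have h1 := FBLa_smul (E := E) (u := u) h1 (0 : K) (0 : Fm K R)
      rw [zero_smul, zero_smul] at h1
      exact h1.symm
    | add y z _ _ hy hz =>
      rw [map_add, FBLa_add, ← hy, ← hz]
    | smul c y _ hy =>
      rw [map_smul, FBLa_smul h1, ← hy]
  have h3 := key x (FBT_span h1 h2 hT x)
  have h4 : W x = x := by
    rw [hW 0 x hx, if_pos rfl, one_smul]
  rw [h4] at h3
  exact h3

omit h2 in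
theorem FBct {x : Fm K R} (hx : ct K E x = FBLa E u ρ (ct K E x)) : ρ (ct K E x) = ct K E x := by
  unfold FBLa at hx
  rw [FEu_ct_ct, map_zero, mul_zero, add_zero] at hx
  exact hx.symm

end T

end MPadcHS
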