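import Pool.Agent.Lib.MP_adc574_ag_HS.FWt
import Pool.Agent.Lib.MP_adc574_ag_HS.FChB
import Pool.Agent.Lib.MP_adc574_ag_DC.GExt

/-!
# HS: the forms of weight `0` on `S[1/x_C]`

`l := min C`, `dlx I hC = dlog x_l` on `S[1/x_C]`.
* `wt0_dec`: `x = inF a + dlx * inF b`, `a = reF x`, `b = reF (ct x)`, for `x` of weight `0`.
* `ct_wt0`: `ct x = inF b`.
-/

set_option autoImplicit false
set_option linter.unusedSectionVars false

namespace MPadcHS

open MvPolynomial MPadcGP MPadcDC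

universe u

section

variable {K : Type u} [Field K] [CharZero K] {n : ℕ} {I : Ideal (MvPolynomial (Fin n) K)}

variable (I) in
/-- `dlog x_l`, `l = min C`. -/
noncomputable def dlx {C : Finset (Fin n)} (hC : C.Nonempty) : Fm K (LR I C) :=
  fz K (↑(lx_isUnit I C (C.min'_mem hC)).unit⁻¹ : LR I C) * df K (lx I C (C.min' hC))

private theorem FCh_mp {K R S : Type u} [Field K] [CommRing R] [CommRing S] [Algebra K R] [Algebra K S]
    (p : R →ₐ[K] S) (i : S →ₐ[K] R) (r : R) :
    mp (i : S →+* R) (CC.of_algHom i) (mp (p : R →+* S) (CC.of_algHom p) (fz K r)) = fz K (i (p r)) := by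
  rw [mp_fz, mp_fz]
  rfl

private theorem FCh_mp' {K R S : Type u} [Field K] [CommRing R] [CommRing S] [Algebra K R] [Algebra K S]
    (p : R →ₐ[K] S) (i : S →ₐ[K] R) (r : R) :
    mp (i : S →+* R) (CC.of_algHom i) (mp (p : R →+* S) (CC.of_algHom p) (df K r)) = df K (i (p r)) := by
  rw [mp_df, mp_df]
  rfl

private noncomputable def FChpi (hI : IsHomog I) {C : Finset (Fin n)} (hC : C.Nonempty) : LR I C →ₐ[K] LR I C :=
  (chart I C).val.comp (reL hI hC)

private noncomputable def FChrho (hI : IsHomog I) {C : Finset (Fin n)} (hC : C.Nonempty) :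
    Fm K (LR I C) →+* Fm K (LR I C) := (inF I C).comp (reF hI hC)

private theorem FChrho_fz (hI : IsHomog I) {C : Finset (Fin n)} (hC : C.Nonempty) (r : LR I C) :
    FChrho hI hC (fz K r) = fz K (FChpi hI hC r) :=
  @FCh_mp K (LR I C) (chart I C) _ _ _ _ _ (reL hI hC) (chart I C).val r

private theorem FChrho_df (hI : IsHomog I) {C : Finset (Fin n)} (hC : C.Nonempty) (r : LR I C) :
    FChrho hI hC (df K r) = df K (FChpi hI hC r) :=
  @FCh_mp' K (LR I C) (chart I C) _ _ _ _ _ (reL hI hC) (chart I C).val r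

private noncomputable def FCh_g (I : Ideal (MvPolynomial (Fin n) K)) (C : Finset (Fin n)) :
    MvPolynomial (Fin n) K →+* LR I C := (algebraMap (CR I) (LR I C)).comp (Ideal.Quotient.mk I)

private theorem FCh_dec (C : Finset (Fin n)) (x : LR I C) :
    ∃ (k : ℕ) (p : MvPolynomial (Fin n) K), x * FCh_g I C ((∏ j ∈ C, X j) ^ k) = FCh_g I C p := by
  have hh := IsLocalization.Away.surj (Ideal.Quotient.mk I (∏ j ∈ C, X j)) x
  obtain ⟨k, a, h⟩ := hh
  obtain ⟨p, rfl⟩ := Ideal.Quotient.mk_surjective a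
  refine ⟨k, p, ?_⟩
  rw [map_pow]
  exact h

private theorem FCh_unit (C : Finset (Fin n)) (k : ℕ) : IsUnit (FCh_g I C ((∏ j ∈ C, X j) ^ k)) := by
  rw [map_pow]
  exact (IsLocalization.Away.algebraMap_isUnit (Ideal.Quotient.mk I (∏ j ∈ C, X j))).pow k

private theorem FCh_pi (hI : IsHomog I) {C : Finset (Fin n)} (hC : C.Nonempty) (k : Fin n) :
    lx I C k = ((lx_isUnit I C (C.min'_mem hC)).unit : LR I C) * FChpi hI hC (lx I C k) := by
  have h1 : FChpi hI hC (lx I C k) = (cq I C k (C.min'_mem hC) : LR I C) :=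
    congrArg (fun y : chart I C => (y : LR I C)) (reL_lx hI hC k)
  rw [h1, mul_comm]
  exact (cq_mul_lx I C k (C.min'_mem hC)).symm

private theorem FCh_main (hI : IsHomog I) {C : Finset (Fin n)} (hC : C.Nonempty) {x : Fm K (LR I C)}
    (hw : Wt hI C 0 x) : x = FBLa (eu hI C) (lx_isUnit I C (C.min'_mem hC)).unit (FChrho hI hC) x :=
  @FBmain K (LR I C) _ _ _ (eu hI C) (lx_isUnit I C (C.min'_mem hC)).unit (FChrho hI hC) (FChpi hI hC)
    (FChrho_fz hI hC) (FChrho_df hI hC)
    (fun r => (FCh_dec C r).elim fun k h => h.elim fun p hp =>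
      @FBT0_span K (LR I C) _ _ _ (eu hI C) (lx_isUnit I C (C.min'_mem hC)).unit (FChpi hI hC) n (FCh_g I C)
        (fun _ => rfl) (fun l => eu_lx hI C l) (fun l => FCh_pi hI hC l) C r k p hp (FCh_unit C k))
    (wg hI C (fun t => if t = 0 then 1 else 0)) (fun t y hy => wg_of _ hy) x hw

theorem wt0_dec (hI : IsHomog I) {C : Finset (Fin n)} (hC : C.Nonempty) {x : Fm K (LR I C)} (hw : Wt hI C 0 x) :
    x = inF I C (reF hI hC x) + dlx I hC * inF I C (reF hI hC (ct K (eu hI C) x)) := FCh_main hI hC hw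

theorem ct_wt0 (hI : IsHomog I) {C : Finset (Fin n)} (hC : C.Nonempty) {x : Fm K (LR I C)} (hw : Wt hI C 0 x) :
    inF I C (reF hI hC (ct K (eu hI C) x)) = ct K (eu hI C) x :=
  @FBct K (LR I C) _ _ _ (eu hI C) (lx_isUnit I C (C.min'_mem hC)).unit (FChrho hI hC) (FChpi hI hC)
    (FChrho_fz hI hC) x (FCh_main hI hC hw.ct)

end

end MPadcHS
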