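import Pool.Agent.Lib.MP_adc574_ag_DC.GDefs
import Pool.Agent.Lib.MP_adc574_ag_DC.GCx

/-!
# HS, Part F: the operator `d + dF` on the forms over the localizations

`FG κ Γ C = κ[a] ⊗ Fm κ C`. `nG b = d + dF ∧`, `F = ∑ a_g b_g`. `lmC J C : S → S[1/x_C]`; `bC J e C g`: the monomial `x^g` in `S[1/x_C]`.
-/

set_option autoImplicit false

namespace MPadcHS

open MvPolynomial TensorProduct MPadcGP MPadcDC

universe u

section general

variable (κ : Type u) [Field κ] {Γ : Type} [Fintype Γ] {C : Type u} [CommRing C] [Algebra κ C]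

/-- The operator `d + dF`. -/
noncomputable def nG (b : Γ → C) : FG κ Γ C →ₗ[MvPolynomial Γ κ] FG κ Γ C :=
  (MPadcDC.ddl κ C).baseChange (MvPolynomial Γ κ) + LinearMap.mulLeft (MvPolynomial Γ κ) (thG κ b)

theorem nG_apply (b : Γ → C) (x : FG κ Γ C) :
    nG κ b x = (MPadcDC.ddl κ C).baseChange (MvPolynomial Γ κ) x + thG κ b * x := rfl

end general

section forms

variable {κ : Type u} [Field κ] {n : ℕ} (J : Ideal (MvPolynomial (Fin n) κ))

/-- The localization `S → S[1/x_C]`. -/
noncomputable def lmC (C : Finset (Fin n)) : CR J →ₐ[κ] LR J C := IsScalarTower.toAlgHom κ (CR J) (LR J C)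

/-- The monomials `x^g` of degree `e` in `S[1/x_C]`. -/
noncomputable def bC (e : ℕ) (C : Finset (Fin n)) (g : Mon n e) : LR J C := lmC J C (xm J g.1)

end forms

end MPadcHS
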