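import Pool.Agent.Lib.MP_adc574_ag_HS.V1C

/-!
# JOB V2R (HS): regular parts are differentials

`ρ C := sg z (insert z C) • inv (β C)` for `C` nonempty, `z ∉ C` and `ρ C := 0` otherwise. `ρ ∈ Tt (m + 1)` (`β ∈ Tt (m + 1)`, `inv_mem'`; `inv 0 = 0`, `smul_zero`).
`(Dt ρ) (insert z C)`, `D := insert z C` (`Dt_apply`, `dc_apply`, `del_apply`; `Finset.sum_insert`): `dd (ρ D) = 0` (`z ∈ D`), the terms `j ∈ C` contain `ρ (D.erase j) = 0` (`z ∈ D.erase j` as `j ≠ z`), the term `j = z` (`D.erase z = C`, `Finset.erase_insert`) is `sg z D • inv (rs (ρ C)) = sg z D • sg z D • inv (inv (rs (β C))) = re C (β C)` (`sg_sq`, `inv_inv`; `rs` commutes with `inv` and the integers; transport along `D.erase z = C` with `ev`, see `C2A_cast` in DC/C2A.lean).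
`(Dt ρ) {z} = 0`: `ρ {z} = 0`, `ρ ∅ = 0`. For `C = ∅` nothing is claimed.
-/

set_option autoImplicit false
set_option linter.unusedSectionVars false

namespace MPadcHS

open MPadcGP MPadcDC

universe u

variable {A : Type u} [CommRing A] {N : ℕ} {X : Dz A N}

private theorem V2R_Dt (c : X.Y.Ch) {D : Finset (Fin N)} (hz : X.z ∈ D)
    (h0 : ∀ j ∈ D, j ≠ X.z → c (D.erase j) = 0) :
    X.Y.Dt c D = dd A (c D) + sg X.z D • inv A (X.Y.rs (Finset.erase_subset X.z D) (c (D.erase X.z))) := by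
  rw [CovD.Dt_apply, Pi.add_apply, CovD.dc_apply, CovD.del_apply]
  congr 1
  rw [Finset.sum_eq_single X.z]
  · rw [CovD.ev_ic, CovD.ev_of (Finset.erase_subset X.z D)]
  · intro j hj hjz
    rw [CovD.ev_ic, CovD.ev_eq_zero (h0 j hj hjz), map_zero, smul_zero]
  · intro h
    exact absurd hz h

private theorem V2R_rs (c : X.Y.Ch) {J K L : Finset (Fin N)} (e : J = K) (h : J ⊆ L) (h' : K ⊆ L) :
    X.Y.rs h (c J) = X.Y.rs h' (c K) := by
  subst e
  rfl

/-- The correction: `± inv (β C)` on the sets which do not contain `z`. -/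
private noncomputable def V2R_rho (X : Dz A N) (β : X.Y.Ch) : X.Y.Ch := fun C =>
  if C.Nonempty ∧ X.z ∉ C then sg X.z (insert X.z C) • inv A (β C) else 0

private theorem V2R_pos (β : X.Y.Ch) {C : Finset (Fin N)} (h : C.Nonempty) (hz : X.z ∉ C) :
    V2R_rho X β C = sg X.z (insert X.z C) • inv A (β C) := if_pos ⟨h, hz⟩

private theorem V2R_z (β : X.Y.Ch) {C : Finset (Fin N)} (hz : X.z ∈ C) : V2R_rho X β C = 0 :=
  if_neg fun h => h.2 hz

private theorem V2R_empty (β : X.Y.Ch) : V2R_rho X β ∅ = 0 :=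
  if_neg fun h => Finset.not_nonempty_empty h.1

theorem exists_rho {m : ℕ} {β : X.Y.Ch} (hβ : β ∈ X.Y.Tt (m + 1)) : ∃ ρ ∈ X.Y.Tt (m + 1), ρ {X.z} = 0 ∧
    X.Y.Dt ρ {X.z} = 0 ∧ ∀ C : Finset (Fin N), C.Nonempty → X.z ∉ C → X.Y.Dt ρ (insert X.z C) = X.re C (β C) := by
  refine ⟨V2R_rho X β, ⟨V2R_empty β, fun J => ⟨fun q hq => ?_, fun h => ?_⟩⟩, V2R_z β (Finset.mem_singleton_self _),
    ?_, fun C hC hz => ?_⟩
  · unfold V2R_rho
    split_ifs with h1
    · exact zsmul_mem (inv_mem' ((hβ.2 J).1 q hq)) _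
    · exact Submodule.zero_mem _
  · unfold V2R_rho
    split_ifs with h1
    · rw [(hβ.2 J).2 h, map_zero, smul_zero]
    · rfl
  · rw [V2R_Dt (V2R_rho X β) (Finset.mem_singleton_self X.z) (fun j hj hjz => absurd (Finset.mem_singleton.1 hj) hjz),
      V2R_z β (Finset.mem_singleton_self _), map_zero, zero_add]
    have h1 : V2R_rho X β (({X.z} : Finset (Fin N)).erase X.z) = 0 := by
      have h2 : ({X.z} : Finset (Fin N)).erase X.z = ∅ := Finset.erase_singleton _
      rw [h2]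
      exact V2R_empty β
    rw [h1, map_zero, map_zero, smul_zero]
  · have h1 : (insert X.z C).erase X.z = C := Finset.erase_insert hz
    rw [V2R_Dt (V2R_rho X β) (Finset.mem_insert_self X.z C) (fun j hj hjz =>
      V2R_z β (Finset.mem_erase.2 ⟨Ne.symm hjz, Finset.mem_insert_self X.z C⟩)),
      V2R_z β (Finset.mem_insert_self X.z C), map_zero, zero_add,
      V2R_rs (V2R_rho X β) h1 (Finset.erase_subset X.z _) (Finset.subset_insert X.z C), V2R_pos β hC hz,
      map_zsmul, map_zsmul, smul_smul, sg_sq, one_smul, CovD.rs_inv, MPadcGP.inv_inv]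
    rfl

end MPadcHS
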