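import Pool.Agent.Lib.MP_adc574_ag_HS.V2B
import Pool.Agent.Lib.MP_adc574_ag_HS.V2R
import Pool.Agent.Lib.MP_adc574_ag_HS.Defs

/-!
# JOB V2E (HS): the kernel of the Gysin map are the residues

`dzQ hle`: the divisor `z = 0` of `Proj Q` (`Q` homogeneous in `n + 1` variables, `hle : Q ≤ P`, `P` = the ideal of the divisor) as a `Dz`. `(prC Q).R C = chart Q C`.
* `dlz_eq`: `X.dl C = fz (s C) * df (ro C (t C))`, `s C = cq Q (insert z C) (min' C) _ = x_j / z`, `ro C (t C) = tr Q _ (cq Q C z _) = cq Q (insert z C) z _` (`tr_cq`). So `X.dl C` is `dlg Q (insert z C) z (C.min' hC) _ _` (Defs: `fz (cq C' j hl) * df (cq C' l hj)` with `l = z`, `j = min' C`). (`dif_pos hC`.)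
* `gys_iff` `→`: `gys hle m x 0`: `c, w, h : GyR Q m c w`, `cl (m + 2) ⟨w, _⟩ = 0`, so `w ∈ Bc (m + 2)`: `w = Dt γ`, `γ ∈ Tt (m + 1)`. `η := γ {z}`; `dd η = (Dt γ) {z} = w {z} = 0` (`h.w0`); `η ∈ Fd (m + 1)`. `Lg m (Dt γ) c` with `β = 0`: `h.wl` and `dlz_eq`, `h.cm`. So `ResR m η c`. And `(rsH hle).push c = X.rp c` (`rfl`).
* `gys_iff` `←`: `ResR m η c` with `γ, β`, `Dt γ (insert z C) = dl C * re C (c C) + re C (β C)`. `exists_rho` (V2R) for `β`: `ρ ∈ Tt (m + 1)`, `ρ {z} = 0`, `(Dt ρ) (insert z C) = re C (β C)`, `(Dt ρ) {z} = 0`.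
  `γ' := γ - ρ ∈ Tt (m + 1)`, `w := Dt γ'`: `w ∈ Zc (m + 2)` (`Dt_mem`, `Dt_Dt`), `w {z} = dd η - 0 = 0`, `w (insert z C) = dl C * re C (c C)`: `GyR Q m c w`, and `cl (m + 2) ⟨w, _⟩ = 0` as `w = Dt γ' ∈ Bc (m + 2)`.
-/

set_option autoImplicit false
set_option linter.unusedSectionVars false

namespace MPadcHS

open MvPolynomial MPadcGP MPadcDC

universe u

/-- The divisor `z = 0`, `z` the last coordinate. -/
noncomputable def dzQ {A : Type u} [CommRing A] {n : ℕ} {Q P : Ideal (MvPolynomial (Fin (n + 1)) A)} (hle : Q ≤ P) :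
    Dz A (n + 1) where
  Y := prC Q
  S := prC P
  r := rsH hle
  z := Fin.last n
  t C := if h : C.Nonempty then (cq Q C (Fin.last n) (C.min'_mem h) : chart Q C) else 0
  s C := if h : C.Nonempty then (cq Q (insert (Fin.last n) C) (C.min' h) (Finset.mem_insert_self _ _) :
    chart Q (insert (Fin.last n) C)) else 0

section

variable {A : Type u} [CommRing A] {n : ℕ} {Q P : Ideal (MvPolynomial (Fin (n + 1)) A)} (hle : Q ≤ P)

theorem dlz_eq {C : Finset (Fin (n + 1))} (hC : C.Nonempty) (hz : Fin.last n ∉ C) : (dzQ hle).dl C =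
    dlg Q (insert (Fin.last n) C) (Fin.last n) (C.min' hC) (Finset.mem_insert_self _ _)
      (Finset.mem_insert_of_mem (C.min'_mem hC)) := by
  have ht : (dzQ hle).t C = (cq Q C (Fin.last n) (C.min'_mem hC) : chart Q C) := dif_pos hC
  have hs : (dzQ hle).s C = (cq Q (insert (Fin.last n) C) (C.min' hC) (Finset.mem_insert_self _ _) :
    chart Q (insert (Fin.last n) C)) := dif_pos hC
  have h1 : (dzQ hle).ro C ((dzQ hle).t C) = (cq Q (insert (Fin.last n) C) (Fin.last n)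
      (Finset.mem_insert_of_mem (C.min'_mem hC)) : chart Q (insert (Fin.last n) C)) := by
    rw [ht]
    exact tr_cq Q (Finset.subset_insert (Fin.last n) C) (Fin.last n) (C.min'_mem hC)
  unfold Dz.dl
  rw [h1, hs]
  rfl

end

private theorem V2E_Dt {A : Type u} [CommRing A] {N : ℕ} {Y : CovD.{u, u} A N} {γ : Y.Ch} (h0 : γ ∅ = 0) (z : Fin N) :
    Y.Dt γ {z} = dd A (γ {z}) := by
  rw [CovD.Dt_apply, Pi.add_apply, CovD.dc_apply, CovD.del_apply]
  have h1 : ∑ j ∈ ({z} : Finset (Fin N)), sg j {z} • Y.ev (Y.ic γ) (({z} : Finset (Fin N)).erase j) {z} = 0 := by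
    refine Finset.sum_eq_zero fun j hj => ?_
    have hj' : j = z := Finset.mem_singleton.1 hj
    subst hj'
    have h2 : γ (({j} : Finset (Fin N)).erase j) = 0 := by
      have h3 : ({j} : Finset (Fin N)).erase j = ∅ := Finset.erase_singleton _
      rw [h3]
      exact h0
    rw [CovD.ev_ic, CovD.ev_eq_zero h2, map_zero, smul_zero]
  rw [h1, add_zero]

variable {K : Type u} [Field K] {n : ℕ} {Q P : Ideal (MvPolynomial (Fin (n + 1)) K)} {hle : Q ≤ P}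

/-- The kernel of the Gysin map are the residues of the closed forms on `U_z`. -/
theorem gys_iff (hX : (dzQ hle).Ok) {m : ℕ} (x : (prC P).HdR m) : x ∈ Vg hle m ↔
    ∃ (η : (prC Q).E {Fin.last n}) (c : (prC Q).Ch) (hc : (dzQ hle).rp c ∈ (prC P).Zc m),
      η ∈ (dzQ hle).Zz (m + 1) ∧ (dzQ hle).ResR m η c ∧ (prC P).cl m ⟨_, hc⟩ = x := by
  constructor
  · rintro ⟨c, w, h, hc, hx, hy⟩
    obtain ⟨γ, hγ, hγw⟩ := CovD.cl_eq_zero.1 hy
    have hγw' : (prC Q).Dt γ = w := hγw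
    refine ⟨γ {Fin.last n}, c, hc, ⟨(hγ.2 {Fin.last n}).1 (m + 1) (by rw [Finset.card_singleton]), ?_⟩,
      ⟨γ, hγ, rfl, h.cm, 0, Submodule.zero_mem _, fun C hC hz => ?_⟩, hx⟩
    · have h3 := V2E_Dt hγ.1 (Fin.last n)
      rw [hγw', h.w0] at h3
      exact h3.symm
    · rw [dlz_eq hle hC hz]
      change (prC Q).Dt γ (insert (Fin.last n) C) = _
      rw [hγw', h.wl C hC hz]
      change _ = _ + (dzQ hle).re C 0
      rw [map_zero, add_zero]
      rfl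
  · rintro ⟨η, c, hc, hη, ⟨γ, hγ, hγη, hcm, β, hβ, e⟩, hx⟩
    obtain ⟨ρ, hρ, hρD, hρC⟩ : ∃ ρ : (prC Q).Ch, ρ ∈ (prC Q).Tt (m + 1) ∧ (prC Q).Dt ρ {Fin.last n} = 0 ∧
        ∀ C : Finset (Fin (n + 1)), C.Nonempty → Fin.last n ∉ C →
          (prC Q).Dt ρ (insert (Fin.last n) C) = (dzQ hle).re C (β C) := by
      obtain ⟨ρ, hρ, _, hρD, hρC⟩ := exists_rho (X := dzQ hle) hβ
      exact ⟨ρ, hρ, hρD, hρC⟩
    obtain ⟨γ, hγ, hγη, e⟩ : ∃ γ : (prC Q).Ch, γ ∈ (prC Q).Tt (m + 1) ∧ γ {Fin.last n} = η ∧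
        ∀ C : Finset (Fin (n + 1)), C.Nonempty → Fin.last n ∉ C → (prC Q).Dt γ (insert (Fin.last n) C) =
          (dzQ hle).dl C * (dzQ hle).re C (c C) + (dzQ hle).re C (β C) := ⟨γ, hγ, hγη, e⟩
    have hm : γ - ρ ∈ (prC Q).Tt (m + 1) := Submodule.sub_mem _ hγ hρ
    refine ⟨c, (prC Q).Dt (γ - ρ), ⟨hcm, CovD.mem_Zc.2 ⟨CovD.Dt_mem hm, CovD.Dt_Dt _⟩, ?_, fun C hC hz => ?_⟩, hc, hx,
      CovD.cl_eq_zero.2 ⟨γ - ρ, hm, rfl⟩⟩
    · rw [map_sub, Pi.sub_apply, hρD, sub_zero, V2E_Dt hγ.1, hγη]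
      exact hη.2
    · have h1 : (prC Q).Dt ρ (insert (Fin.last n) C) = (dzQ hle).re C (β C) := hρC C hC hz
      have h2 : (prC Q).Dt γ (insert (Fin.last n) C) = (dzQ hle).dl C * (dzQ hle).re C (c C) + (dzQ hle).re C (β C) :=
        e C hC hz
      rw [map_sub, Pi.sub_apply, h1, h2]
      refine (add_sub_cancel_right _ _).trans ?_
      exact congrArg (fun e => e * (dzQ hle).re C (c C)) (dlz_eq hle hC hz)

end MPadcHS
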