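import Pool.Agent.Lib.MP_adc574_ag_HS.FPk
import Pool.Agent.Lib.MP_adc574_ag_HS.V2E

/-!
# JOB FEta (HS): the closed form `η` on `U_z` which represents the class of `w`

`Q := cyc (bI J) (frm a) 1`, `z = Fin.last n`, `G := cxS hJ 1 1`. For every `w ∈ ⨆ k, G.VR (m + 3) k` there is a closed form `η` of degree `m + 2` on `U_z` with `cR w = s η` and `η = Pb {l} (bw w)` on `U_z ∩ U_l` for all `l`.
`Submodule.iSup_induction`: `0`, sums: clear (`Pb_add`, `map_add`). For `w ∈ G.VR (m + 3) k`, the base change of `G.Vd (m + 3) k = Om J (m + 3) (1 + 1 * k)` (`Submodule.span_induction` over `Submodule.baseChange`): sums and multiples with `r : Ra`: `η := algebraMap r • η` (`hsm`: `cR (r • w) = r • cR w`, `bw_smul`, `Pb_smul`, the class `(r • x : range s)` is `algebraMap r • x`: `algebraMap_smul` / `Algebra.smul_def`, `IsScalarTower`).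
For `w = 1 ⊗ v`, `v ∈ G.Vd (m + 3) k`: `cR (1 ⊗ v) = 1 • c v = c v`, `(c v : HdR) = algebraMap (lam k) • s ⟨phK (1 ⊗ io v), _⟩ = s (algebraMap (lam k) • ⟨..⟩)`; `η := algebraMap (lam k) • ⟨phK (1 ⊗ io v), hZ k v hv⟩`. `bw (1 ⊗ v) = 1 • mS v = mS v` (`bw_tmul`), `Pb_mS`; `phK (1 ⊗ io v) = 1 • ph (ct (eul) v)` (`phK_tmul`; `G.io` is `ct κ (eul hJ)` by definition); `rs` is `K`-linear (`CovD.rs_smul` or `mp_smul` with `trA`; look in GP/Cov.lean).
-/

set_option autoImplicit false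
set_option linter.unusedSectionVars false

namespace MPadcHS

open MvPolynomial TensorProduct MPadcGP MPadcGP2 MPadcDC

universe u

private theorem FEta_abs {κ K A V Z H M : Type u} [Field κ] [Field K] [CommRing A] [Algebra κ A] [Algebra A K]
    [AddCommGroup V] [Module κ V] [AddCommGroup Z] [Module K Z] [AddCommGroup H] [Module K H] [AddCommGroup M] [Module K M]
    [Module A M] [IsScalarTower A K M] (val : M →ₗ[K] H) (s : Z →ₗ[K] H) (cR : A ⊗[κ] V →ₗ[A] M) {L : Type}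
    {F : L → Type u} [∀ l, AddCommGroup (F l)] [∀ l, Module K (F l)] (ρ : ∀ l, Z → F l)
    (hρa : ∀ l x y, ρ l (x + y) = ρ l x + ρ l y) (hρs : ∀ l (a : K) x, ρ l (a • x) = a • ρ l x)
    (β : ∀ l, A ⊗[κ] V → F l) (hβa : ∀ l x y, β l (x + y) = β l x + β l y)
    (hβs : ∀ l (r : A) x, β l (r • x) = algebraMap A K r • β l x) (p : ℕ → Submodule κ V)
    (base : ∀ k v, v ∈ p k → ∃ η, val (cR (1 ⊗ₜ[κ] v)) = s η ∧ ∀ l, ρ l η = β l (1 ⊗ₜ[κ] v)) {w : A ⊗[κ] V}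
    (hw : w ∈ ⨆ k, (p k).baseChange A) : ∃ η, val (cR w) = s η ∧ ∀ l, ρ l η = β l w := by
  have hadd : ∀ x y : A ⊗[κ] V, (∃ η, val (cR x) = s η ∧ ∀ l, ρ l η = β l x) →
      (∃ η, val (cR y) = s η ∧ ∀ l, ρ l η = β l y) → ∃ η, val (cR (x + y)) = s η ∧ ∀ l, ρ l η = β l (x + y) := by
    rintro x y ⟨η, h1, h2⟩ ⟨η', h3, h4⟩
    refine ⟨η + η', ?_, fun l => ?_⟩
    · rw [map_add, map_add, map_add, h1, h3]
    · rw [hρa, hβa, h2, h4]
  have hzero : ∃ η, val (cR 0) = s η ∧ ∀ l, ρ l η = β l 0 := by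
    refine ⟨0, ?_, fun l => ?_⟩
    · rw [map_zero, map_zero, map_zero]
    · have h1 := hρa l 0 0
      have h2 := hβa l 0 0
      rw [add_zero] at h1 h2
      rw [left_eq_add.1 h1, left_eq_add.1 h2]
  have hsmul : ∀ (r : A) (x : A ⊗[κ] V), (∃ η, val (cR x) = s η ∧ ∀ l, ρ l η = β l x) →
      ∃ η, val (cR (r • x)) = s η ∧ ∀ l, ρ l η = β l (r • x) := by
    rintro r x ⟨η, h1, h2⟩
    refine ⟨algebraMap A K r • η, ?_, fun l => ?_⟩
    · rw [map_smul, ← algebraMap_smul K r (cR x), map_smul, map_smul, h1]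
    · rw [hρs, hβs, h2]
  induction hw using Submodule.iSup_induction' with
  | mem k w hw =>
    rw [Submodule.baseChange_eq_span] at hw
    induction hw using Submodule.span_induction with
    | mem w hw =>
      obtain ⟨v, hv, rfl⟩ := hw
      exact base k v hv
    | zero => exact hzero
    | add x y _ _ hx hy => exact hadd x y hx hy
    | smul r x _ hx => exact hsmul r x hx
  | zero => exact hzero
  | add x y _ _ hx hy => exact hadd x y hx hy

variable {κ : Type u} [Field κ] [CharZero κ] {n : ℕ} {J : Ideal (MvPolynomial (Fin n) κ)} {K : Type u} [Field K]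
  [CharZero K] [Algebra κ K] [Algebra (Ra κ n 1) K] [IsScalarTower κ (Ra κ n 1) K]

theorem exists_eta {m : ℕ} (hJ : IsHomog J) {P : Ideal (MvPolynomial (Fin (n + 1)) K)}
    (hle : cyc (bI (algebraMap κ K) J) (frm (ak κ n 1 K)) 1 ≤ P)
    (s : ↥((dzQ hle).Zz (m + 2)) →ₗ[K] (prC P).HdR (m + 1)) (c : Fm κ (CR J) →+ ↥(LinearMap.range s))
    (hZ : ∀ k, ∀ w ∈ (cxS hJ 1 1).Vd (m + 3) k,
      phK hJ (ak κ n 1 K) (1 ⊗ₜ[κ] (cxS hJ 1 1).io w) ∈ (dzQ hle).Zz (m + 2))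
    (hcw : ∀ k w (hw : w ∈ (cxS hJ 1 1).Vd (m + 3) k), (c w : (prC P).HdR (m + 1)) =
      algebraMap κ K ((cxS hJ 1 1).lam k) • s ⟨_, hZ k w hw⟩)
    [Module (Ra κ n 1) ↥(LinearMap.range s)] [IsScalarTower (Ra κ n 1) K ↥(LinearMap.range s)]
    (cR : FR J 1 →ₗ[Ra κ n 1] ↥(LinearMap.range s)) (hcR : ∀ r x, cR (r ⊗ₜ[κ] x) = r • c x)
    {w : FR J 1} (hw : w ∈ ⨆ k, (cxS hJ 1 1).VR (m + 3) k) :
    ∃ η : ↥((dzQ hle).Zz (m + 2)), (cR w : (prC P).HdR (m + 1)) = s η ∧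
      ∀ l : Fin n, (prC (cyc (bI (algebraMap κ K) J) (frm (ak κ n 1 K)) 1)).rs (z_sub {l}) η.1 =
        Pb (hJ.map (algebraMap κ K)) (isHomogeneous_frm (ak κ n 1 K)) {l} (bw J K {l} w) := by
  have base : ∀ k, ∀ v ∈ Om J (m + 3) (1 + 1 * k), ∃ η : ↥((dzQ hle).Zz (m + 2)),
      (cR (1 ⊗ₜ[κ] v) : (prC P).HdR (m + 1)) = s η ∧
      ∀ l : Fin n, (prC (cyc (bI (algebraMap κ K) J) (frm (ak κ n 1 K)) 1)).rs (z_sub {l}) η.1 =
        Pb (hJ.map (algebraMap κ K)) (isHomogeneous_frm (ak κ n 1 K)) {l} (bw J K {l} (1 ⊗ₜ[κ] v)) := by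
    intro k v hv
    refine ⟨algebraMap κ K ((cxS hJ 1 1).lam k) • ⟨_, hZ k v hv⟩, ?_, fun l => ?_⟩
    · have h1 : cR (1 ⊗ₜ[κ] v) = c v := (hcR 1 v).trans (one_smul _ _)
      exact ((congrArg (fun y : ↥(LinearMap.range s) => (y : (prC P).HdR (m + 1))) h1).trans (hcw k v hv)).trans
        (s.map_smul _ _).symm
    · have e1 := CovD.rs_smul (X := prC (cyc (bI (algebraMap κ K) J) (frm (ak κ n 1 K)) 1)) (z_sub {l})
        (algebraMap κ K ((cxS hJ 1 1).lam k)) (ph hJ (ak κ n 1 K) (ct κ (eul hJ) v))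
      have e2 : phK hJ (ak κ n 1 K) (1 ⊗ₜ[κ] (cxS hJ 1 1).io v) = ph hJ (ak κ n 1 K) (ct κ (eul hJ) v) :=
        (phK_tmul hJ (ak κ n 1 K) 1 _).trans (one_smul _ _)
      have e3 := Pb_mS (K := K) hJ {l} hv
      have e4 : bw J K {l} (1 ⊗ₜ[κ] v) = mS J K {l} v :=
        (bw_tmul J K {l} 1 v).trans ((congrArg (fun y : K => y • mS J K {l} v) (map_one (algebraMap (Ra κ n 1) K))).trans
          (one_smul _ _))
      exact ((congrArg (fun y => (prC (cyc (bI (algebraMap κ K) J) (frm (ak κ n 1 K)) 1)).rs (z_sub {l})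
        (algebraMap κ K ((cxS hJ 1 1).lam k) • y)) e2).trans e1).trans (e3.symm.trans
        (congrArg (Pb (hJ.map (algebraMap κ K)) (isHomogeneous_frm (ak κ n 1 K)) {l}) e4.symm))
  exact FEta_abs (κ := κ) (K := K) (A := Ra κ n 1) (V := Fm κ (CR J)) (Z := ↥((dzQ hle).Zz (m + 2)))
    (H := (prC P).HdR (m + 1)) (M := ↥(LinearMap.range s)) (LinearMap.range s).subtype s cR (L := Fin n)
    (F := fun l => (prC (cyc (bI (algebraMap κ K) J) (frm (ak κ n 1 K)) 1)).E (ci {l}))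
    (fun l η => (prC (cyc (bI (algebraMap κ K) J) (frm (ak κ n 1 K)) 1)).rs (z_sub {l}) η.1)
    (fun l x y => map_add ((prC (cyc (bI (algebraMap κ K) J) (frm (ak κ n 1 K)) 1)).rs (z_sub {l})) x.1 y.1)
    (fun l a x => CovD.rs_smul (X := prC (cyc (bI (algebraMap κ K) J) (frm (ak κ n 1 K)) 1)) (z_sub {l}) a x.1)
    (fun l w => Pb (hJ.map (algebraMap κ K)) (isHomogeneous_frm (ak κ n 1 K)) {l} (bw J K {l} w))
    (fun l x y => (congrArg (Pb (hJ.map (algebraMap κ K)) (isHomogeneous_frm (ak κ n 1 K)) {l})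
      (map_add (bw J K {l}) x y)).trans (Pb_add (hJ.map (algebraMap κ K)) (isHomogeneous_frm (ak κ n 1 K)) {l} _ _))
    (fun l r x => (congrArg (Pb (hJ.map (algebraMap κ K)) (isHomogeneous_frm (ak κ n 1 K)) {l})
      (bw_smul J K {l} r x)).trans (Pb_smul (hJ.map (algebraMap κ K)) (isHomogeneous_frm (ak κ n 1 K)) {l} _ _))
    (fun k => Om J (m + 3) (1 + 1 * k)) base hw

end MPadcHS
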