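import Pool.Agent.Lib.MP_adc574_ag_DC.GGr

/-!
# HS: a derivation of an algebra and the weights of forms, abstract statements (used in FEu.lean)
-/

set_option autoImplicit false
set_option linter.unusedSectionVars false

namespace MPadcHS

open MvPolynomial MPadcGP MPadcDC

universe u

section abs

variable {A : Type u} {R : Type u} [CommRing A] [CommRing R] [Algebra A R] (θ : Derivation A R R)

theorem FEu_ct_ct (x : Fm A R) : ct A θ (ct A θ x) = 0 := by
  induction x using fm_ind with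
  | h1 r => rw [ct_fz, map_zero]
  | h2 t => rw [ct_df, ct_fz]
  | h3 x y hx hy =>
    rw [ct_mul, map_add, ct_mul, ct_mul, hx, hy, ct_inv, zero_mul, mul_zero, zero_add, add_zero, neg_mul,
      add_neg_cancel]
  | h4 x y hx hy => rw [map_add, map_add, hx, hy, add_zero]

theorem FEu_L_mul (x y : Fm A R) : dd A (ct A θ (x * y)) + ct A θ (dd A (x * y)) =
    (dd A (ct A θ x) + ct A θ (dd A x)) * y + x * (dd A (ct A θ y) + ct A θ (dd A y)) := by
  rw [← cartan, ← cartan, ← cartan]
  exact LL_mul A (fun a => ⟨0, by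
    rw [map_zero]
    exact θ.map_algebraMap a⟩) x y

theorem FEu_L_fz (r : R) : dd A (ct A θ (fz A r)) + ct A θ (dd A (fz A r)) = fz A (θ r) := by
  rw [ct_fz, map_zero, zero_add, dd_fz, ct_df]

theorem FEu_L_df (r : R) : dd A (ct A θ (df A r)) + ct A θ (dd A (df A r)) = df A (θ r) := by
  rw [ct_df, dd_df, map_zero, add_zero, dd_fz]

theorem FEu_L_inv (x : Fm A R) : dd A (ct A θ (MPadcGP.inv A x)) + ct A θ (dd A (MPadcGP.inv A x)) =
    MPadcGP.inv A (dd A (ct A θ x) + ct A θ (dd A x)) := by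
  have h1 : dd A (MPadcGP.inv A x) = - MPadcGP.inv A (dd A x) := by rw [inv_dd, neg_neg]
  rw [ct_inv, map_neg, h1, map_neg, ct_inv, neg_neg, map_add, inv_dd]

end abs

/-! ### Abstract statements about a derivation -/

section abs2

variable {K : Type u} {R : Type u} [Field K] [CommRing R] [Algebra K R] (θ : Derivation K R R)

theorem FEu_a_alg (a : K) : θ (algebraMap K R a) = 0 := θ.map_algebraMap a

theorem FEu_a_add {x y : R} (hx : θ x = 0) (hy : θ y = 0) : θ (x + y) = 0 := by rw [map_add, hx, hy, add_zero]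

theorem FEu_a_mul {x y : R} (hx : θ x = 0) (hy : θ y = 0) : θ (x * y) = 0 := by
  rw [Derivation.leibniz, hx, hy, smul_zero, smul_zero, add_zero]

theorem FEu_a_cq {q a b : R} (h : q * b = a) (ha : θ a = a) (hb : θ b = b) (hu : IsUnit b) : θ q = 0 := by
  have h1 := congrArg θ h
  rw [Derivation.leibniz, ha, hb, smul_eq_mul, smul_eq_mul, h] at h1
  have h2 : b * θ q = b * 0 := by
    rw [mul_zero]
    exact left_eq_add.1 h1.symm
  exact hu.mul_left_cancel h2

theorem FEu_a_pol {n : ℕ} (g : MvPolynomial (Fin n) K →+* R) (hc : ∀ c, g (MvPolynomial.C c) = algebraMap K R c)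
    (hX : ∀ i, θ (g (X i)) = g (X i)) (f : MvPolynomial (Fin n) K) : θ (g f) = g (eulP K n f) := by
  induction f using MvPolynomial.induction_on with
  | C c =>
    have h3 : eulP K n (MvPolynomial.C c) = 0 := (eulP K n).map_algebraMap c
    rw [hc, Derivation.map_algebraMap, h3, map_zero]
  | add f h hf hg =>
    rw [map_add, map_add, hf, hg, map_add, map_add]
  | mul_X f i hf =>
    have h3 : eulP K n (X i) = X i := mkDerivation_X _ _ _
    rw [map_mul, Derivation.leibniz, Derivation.leibniz, hf, h3, hX, smul_eq_mul, smul_eq_mul,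
      smul_eq_mul, smul_eq_mul, map_add, map_mul, map_mul]

theorem FEu_a_hom {n : ℕ} [CharZero K] (g : MvPolynomial (Fin n) K →+* R)
    (hc : ∀ c, g (MvPolynomial.C c) = algebraMap K R c)
    (hX : ∀ i, θ (g (X i)) = g (X i)) {f : MvPolynomial (Fin n) K} {e : ℕ} (hf : f.IsHomogeneous e) :
    θ (g f) = (e : K) • g f := by
  rw [FEu_a_pol θ g hc hX, eulP_homog hf, MvPolynomial.smul_eq_C_mul, map_mul, hc, ← Algebra.smul_def]

theorem FEu_a_tr {S P : Type u} [CommRing S] [CommRing P] [Algebra K S] (θ' : Derivation K S S) (g : P →+* R)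
    (τ : R →+* S) (e : P → P) (h1 : ∀ p, θ (g p) = g (e p)) (h2 : ∀ p, θ' (τ (g p)) = τ (g (e p))) {x : R} {v p : P}
    (hx : x * g v = g p) (hu : IsUnit (g v)) : θ' (τ x) = τ (θ x) := by
  have h3 := congrArg (fun y => τ (θ y)) hx
  have h4 := congrArg (fun y => θ' (τ y)) hx
  simp only [map_mul] at h3 h4
  rw [h2, Derivation.leibniz, h2, smul_eq_mul, smul_eq_mul] at h4
  rw [h1, Derivation.leibniz, h1, smul_eq_mul, smul_eq_mul, map_add, map_mul, map_mul] at h3
  exact (hu.map τ).mul_left_cancel (add_left_cancel (h4.trans h3.symm))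

theorem FEu_a_lmul {y z : R} {s t : ℤ} (hy : θ y = (s : K) • y) (hz : θ z = (t : K) • z) :
    θ (y * z) = ((s + t : ℤ) : K) • (y * z) := by
  rw [Derivation.leibniz, hy, hz, smul_eq_mul, smul_eq_mul, mul_smul_comm, mul_smul_comm, mul_comm z y, ← add_smul,
    ← Int.cast_add, add_comm t s]

theorem FEu_a_inv {y v : R} {s : ℤ} (hy : θ y = (s : K) • y) (hv : y * v = 1) : θ v = ((-s : ℤ) : K) • v := by
  have h1 := congrArg θ hv
  rw [Derivation.leibniz, hy, Derivation.map_one_eq_zero, smul_eq_mul, smul_eq_mul, mul_smul_comm] at h1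
  have h2 : y * θ v = y * (((-s : ℤ) : K) • v) := by
    rw [mul_smul_comm, Int.cast_neg, neg_smul, mul_comm y v]
    exact eq_neg_of_add_eq_zero_left h1
  exact (IsUnit.of_mul_eq_one v hv).mul_left_cancel h2

theorem FEu_a_sum {n : ℕ} (g : MvPolynomial (Fin n) K →+* R)
    (hh : ∀ (f : MvPolynomial (Fin n) K) (e : ℕ), f.IsHomogeneous e → θ (g f) = (e : K) • g f) {x : R}
    {w p : MvPolynomial (Fin n) K} {e : ℕ} (hw : w.IsHomogeneous e) (hx : x * g w = g p) (hu : IsUnit (g w)) :
    x ∈ Submodule.span K {y : R | ∃ t : ℤ, θ y = (t : K) • y} := by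
  obtain ⟨v, hv⟩ := hu.exists_right_inv
  have hw' : θ (g w) = ((e : ℤ) : K) • g w := by
    rw [Int.cast_natCast]
    exact hh w e hw
  have hv' := FEu_a_inv θ hw' hv
  have h3 : x = g p * v := by
    rw [← hx, mul_assoc, hv, mul_one]
  have h4 : ∀ (s : Finset ℕ), g (∑ d ∈ s, homogeneousComponent d p) * v ∈
      Submodule.span K {y : R | ∃ t : ℤ, θ y = (t : K) • y} := by
    intro s
    induction s using Finset.induction_on with
    | empty =>
      rw [Finset.sum_empty, map_zero, zero_mul]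
      exact Submodule.zero_mem _
    | insert d s hd ih =>
      rw [Finset.sum_insert hd, map_add, add_mul]
      refine Submodule.add_mem _ (Submodule.subset_span ⟨_, FEu_a_lmul θ (s := (d : ℤ)) ?_ hv'⟩) ih
      rw [Int.cast_natCast]
      exact hh _ d (homogeneousComponent_isHomogeneous d p)
  have h6 := h4 (Finset.range (p.totalDegree + 1))
  rw [sum_homogeneousComponent, ← h3] at h6
  exact h6

/-- weight -/
def FWA (t : ℤ) (x : Fm K R) : Prop := dd K (ct K θ x) + ct K θ (dd K x) = (t : K) • x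

theorem FEu_ct_smul (a : K) (x : Fm K R) : MPadcGP.ct K θ (a • x) = a • MPadcGP.ct K θ x := by
  rw [smul_fm, ← fz_smul, map_smul, fz_smul, ← smul_fm]

theorem FEu_fz_smul (a : K) (r : R) : fz K (a • r) = a • fz K r := by
  rw [smul_fm, ← map_mul, ← Algebra.smul_def]

theorem FEu_df_smul (a : K) (r : R) : df K (a • r) = a • df K r := by
  rw [← dd_fz, FEu_fz_smul, dd_smul, dd_fz]

variable {θ}

theorem FWA.add {t : ℤ} {x y : Fm K R} (hx : FWA θ t x) (hy : FWA θ t y) : FWA θ t (x + y) := by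
  unfold FWA at hx hy ⊢
  rw [map_add, map_add, map_add, map_add, smul_add, ← hx, ← hy, add_add_add_comm]

theorem FWA.smul {t : ℤ} (a : K) {x : Fm K R} (hx : FWA θ t x) : FWA θ t (a • x) := by
  unfold FWA at hx ⊢
  rw [dd_smul, FEu_ct_smul, FEu_ct_smul, dd_smul, ← smul_add, hx, smul_comm]

theorem FWA_zero (t : ℤ) : FWA θ t 0 := by
  unfold FWA
  rw [map_zero, map_zero, map_zero, smul_zero, add_zero]

theorem FWA.mul {s t : ℤ} {x y : Fm K R} (hx : FWA θ s x) (hy : FWA θ t y) : FWA θ (s + t) (x * y) := by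
  have h1 := FEu_L_mul θ x y
  have h2 : (s : K) • x * y + x * ((t : K) • y) = ((s + t : ℤ) : K) • (x * y) := by
    rw [smul_mul_assoc, mul_smul_comm, ← add_smul, Int.cast_add]
  exact h1.trans ((congrArg₂ (fun a b => a * y + x * b) hx hy).trans h2)

theorem FWA_fz {t : ℤ} {r : R} (hr : θ r = (t : K) • r) : FWA θ t (fz K r) := by
  unfold FWA
  rw [FEu_L_fz, hr, FEu_fz_smul]

theorem FWA_df {t : ℤ} {r : R} (hr : θ r = (t : K) • r) : FWA θ t (df K r) := by
  unfold FWA
  rw [FEu_L_df, hr, FEu_df_smul]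

theorem FWA.dd {t : ℤ} {x : Fm K R} (hx : FWA θ t x) : FWA θ t (dd K x) := by
  have h1 := congrArg (MPadcGP.dd K) hx
  rw [map_add, dd_dd, zero_add, dd_smul] at h1
  unfold FWA
  rw [dd_dd, map_zero, add_zero]
  exact h1

theorem FWA.inv {t : ℤ} {x : Fm K R} (hx : FWA θ t x) : FWA θ t (MPadcGP.inv K x) := by
  have h1 := congrArg (MPadcGP.inv K) hx
  exact (FEu_L_inv θ x).trans (h1.trans ((invl K R).map_smul _ _))

theorem FWA.ct {t : ℤ} {x : Fm K R} (hx : FWA θ t x) : FWA θ t (ct K θ x) := by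
  have h1 := congrArg (MPadcGP.ct K θ) hx
  rw [map_add, FEu_ct_ct, add_zero, FEu_ct_smul] at h1
  unfold FWA
  rw [FEu_ct_ct, map_zero, zero_add]
  exact h1

variable (hr : ∀ r : R, r ∈ Submodule.span K {y : R | ∃ t : ℤ, θ y = (t : K) • y})

include hr

theorem FWA_span_fz (r : R) {q : ℕ} {x : Fm K R}
    (hx : x ∈ Submodule.span K {y : Fm K R | y ∈ Fd K R q ∧ ∃ t : ℤ, FWA θ t y}) :
    fz K r * x ∈ Submodule.span K {y : Fm K R | y ∈ Fd K R q ∧ ∃ t : ℤ, FWA θ t y} := by
  have hr := hr r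
  induction hr using Submodule.span_induction with
  | mem r hr =>
    obtain ⟨s, hs⟩ := hr
    induction hx using Submodule.span_induction with
    | mem x hx =>
      obtain ⟨h1, t, ht⟩ := hx
      exact Submodule.subset_span ⟨fz_mul_mem r h1, s + t, (FWA_fz hs).mul ht⟩
    | zero =>
      rw [mul_zero]
      exact Submodule.zero_mem _
    | add x y _ _ hx hy =>
      rw [mul_add]
      exact Submodule.add_mem _ hx hy
    | smul a x _ hx =>
      rw [mul_smul_comm]
      exact Submodule.smul_mem _ a hx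
  | zero =>
    rw [map_zero, zero_mul]
    exact Submodule.zero_mem _
  | add r s _ _ hr hs =>
    rw [map_add, add_mul]
    exact Submodule.add_mem _ hr hs
  | smul a r _ hr =>
    rw [FEu_fz_smul, smul_mul_assoc]
    exact Submodule.smul_mem _ a hr

theorem FWA_span_df (r : R) {q : ℕ} {x : Fm K R}
    (hx : x ∈ Submodule.span K {y : Fm K R | y ∈ Fd K R q ∧ ∃ t : ℤ, FWA θ t y}) :
    df K r * x ∈ Submodule.span K {y : Fm K R | y ∈ Fd K R (q + 1) ∧ ∃ t : ℤ, FWA θ t y} := by
  have hr := hr r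
  induction hr using Submodule.span_induction with
  | mem r hr =>
    obtain ⟨s, hs⟩ := hr
    induction hx using Submodule.span_induction with
    | mem x hx =>
      obtain ⟨h1, t, ht⟩ := hx
      have h2 := fd_mul (df_mem (A := K) r) h1
      rw [add_comm 1 q] at h2
      exact Submodule.subset_span ⟨h2, s + t, (FWA_df hs).mul ht⟩
    | zero =>
      rw [mul_zero]
      exact Submodule.zero_mem _
    | add x y _ _ hx hy =>
      rw [mul_add]
      exact Submodule.add_mem _ hx hy
    | smul a x _ hx =>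
      rw [mul_smul_comm]
      exact Submodule.smul_mem _ a hx
  | zero =>
    rw [df_zero, zero_mul]
    exact Submodule.zero_mem _
  | add r s _ _ hr hs =>
    rw [df_add, add_mul]
    exact Submodule.add_mem _ hr hs
  | smul a r _ hr =>
    rw [FEu_df_smul, smul_mul_assoc]
    exact Submodule.smul_mem _ a hr

theorem FWA_span_wd {q : ℕ} (t : Fin q → R) :
    wd K t ∈ Submodule.span K {y : Fm K R | y ∈ Fd K R q ∧ ∃ t : ℤ, FWA θ t y} := by
  induction q with
  | zero =>
    have h1 : FWA θ 0 (fz K (1 : R)) := by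
      refine FWA_fz ?_
      rw [Derivation.map_one_eq_zero, Int.cast_zero, zero_smul]
    rw [wd_zero, ← map_one (fz K)]
    exact Submodule.subset_span ⟨fz_mem _, 0, h1⟩
  | succ q ih =>
    rw [wd_succ]
    exact FWA_span_df hr _ (ih _)

theorem FWA_span {q : ℕ} {x : Fm K R} (hx : x ∈ Fd K R q) :
    x ∈ Submodule.span K {y : Fm K R | y ∈ Fd K R q ∧ ∃ t : ℤ, FWA θ t y} := by
  refine fd_ind (P := fun x => x ∈ Submodule.span K {y : Fm K R | y ∈ Fd K R q ∧
    ∃ t : ℤ, FWA θ t y}) ?_ ?_ ?_ hx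
  · exact Submodule.zero_mem _
  · intro r t
    exact FWA_span_fz hr r (FWA_span_wd hr t)
  · intro a b ha hb
    exact Submodule.add_mem _ ha hb

end abs2

end MPadcHS
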