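import Pool.Agent.Lib.MP_adc574_ag_HS.FLr
import Pool.Agent.Lib.MP_adc574_ag_HS.FEuA
import Pool.Agent.Lib.MP_adc574_ag_DC.GGr
import Pool.Agent.Lib.MP_adc574_ag_DC.GExK

/-!
# JOB FEu (HS): the Euler derivation on `S[1/x_C]` and the weights of forms

`K` a field of characteristic `0`, `I` homogeneous. `eu hI C`: the derivation of `LR I C` with `x_l ↦ x_l`. `Wt hI C t x`: the form `x` has the weight `t : ℤ`, that is `L x = t x` for the Lie derivative of `eu` (Cartan's formula).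
* `exists_eu`: `eul hI` (DC/GGr.lean: derivation of `CR I` with `x_l ↦ x_l`) and `exists_der_loc` (DC/GExK.lean) for the localization `CR I → LR I C`; `lx I C l` is the image of `xv I l`.
* `eu_ext`: a derivation of `LR I C` (values in an algebra) which vanishes on the `lx` vanishes; used for `eu_trL`: both sides are derivations `LR I C → LR I C'` along `trL`, which agree on the `lx` (units: `x_j⁻¹ ↦ - x_j⁻²  D x_j`). Suggested: `S := {x | eu (trL x) = trL (eu x)}` is a subring which contains the constants, the `lx l` and the inverses of the units `lx j`, `j ∈ C`; every element of `LR I C` is `p * u⁻¹`, `p` a polynomial in the `lx`.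
* `eu_chart`: `chart_ind`: `eu (cq l m) = 0` as `cq l m * lx m = lx l` (`cq_mul_lx`): `eu (cq) * lx m + cq * lx m = lx l`, `lx m` a unit.
* `eu_mkL`: `F = ∑` monomials of degree `e`; `eul` on `CR I`: `eul_xm`.
* `lr_sum`: every `x : LR I C` is a sum of elements `y` with `eu y = t • y`: `x = p * u⁻¹`, `u` a power of `∏ x_j` (`IsLocalization.Away`), `p = ∑ homogeneous components`.
* `Wt_mul_*`: `L` is a derivation of the algebra of forms: `cartan` (GP/DR.lean): `LL A (θ.restrictScalars ℤ) e = dd (ct θ e) + ct θ (dd e)`, `LL_mul`, `LL_fz`, `LL_df`, `LL_dd`, `LL_inv`.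
* `wt_span`: `fd_ind` (GP/DRm.lean): `fz r * wd t`; by multilinearity (`wd` = product of the `df (t i)`) and `lr_sum` we may assume that `r` and the `t i` are eigenvectors, then `fz r * wd t` has the sum of the weights.
* `Wt_ct`: `ct (ct x) = 0` (`c3f_ct_ct`, DC/C3F.lean, or `CliffordAlgebra.contractLeft_contractLeft`): `L (ct x) = ct (dd (ct x)) = ct (L x)`.
-/

set_option autoImplicit false
set_option linter.unusedSectionVars false

namespace MPadcHS

open MvPolynomial MPadcGP MPadcDC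

universe u

private theorem FEu_ex {K A B : Type u} [Field K] [CommRing A] [CommRing B] [Algebra K A] [Algebra K B] [Algebra A B]
    [IsScalarTower K A B] (M : Submonoid A) [IsLocalization M B] (D : Derivation K A A) :
    ∃ E : Derivation K B B, ∀ a, D a = a → E (algebraMap A B a) = algebraMap A B a := by
  have hh := exists_der_loc (k := K) (A := A) (B := B) M ((Algebra.linearMap A B).compDer D)
  obtain ⟨E, hE⟩ := hh
  refine ⟨E, fun a ha => ?_⟩
  have h1 := hE a
  have h2 : ((Algebra.linearMap A B).compDer D) a = algebraMap A B (D a) := rfl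
  rw [h2, ha] at h1
  exact h1

section

variable {K : Type u} [Field K] [CharZero K] {n : ℕ} {I : Ideal (MvPolynomial (Fin n) K)}

theorem exists_eu (hI : IsHomog I) (C : Finset (Fin n)) :
    ∃ E : Derivation K (LR I C) (LR I C), ∀ l, E (lx I C l) = lx I C l := by
  have hh := @FEu_ex K (CR I) (LR I C) _ _ _ _ _ _ _ (Submonoid.powers (Ideal.Quotient.mk I (∏ j ∈ C, X j))) _ (eul hI)
  obtain ⟨E, hE⟩ := hh
  exact ⟨E, fun l => hE (xv I l) (eul_xv hI l)⟩

/-- The Euler derivation. -/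
noncomputable def eu (hI : IsHomog I) (C : Finset (Fin n)) : Derivation K (LR I C) (LR I C) := (exists_eu hI C).choose

theorem eu_lx (hI : IsHomog I) (C : Finset (Fin n)) (l : Fin n) : eu hI C (lx I C l) = lx I C l :=
  (exists_eu hI C).choose_spec l

/-- the homomorphism `mkL` -/
private noncomputable def FEu_g (I : Ideal (MvPolynomial (Fin n) K)) (C : Finset (Fin n)) :
    MvPolynomial (Fin n) K →+* LR I C := (algebraMap (CR I) (LR I C)).comp (Ideal.Quotient.mk I)

private theorem FEu_pol (hI : IsHomog I) (C : Finset (Fin n)) (f : MvPolynomial (Fin n) K) :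
    eu hI C (mkL I C f) = mkL I C (eulP K n f) :=
  @FEu_a_pol K (LR I C) _ _ _ (eu hI C) n (FEu_g I C) (fun _ => rfl) (fun l => eu_lx hI C l) f

theorem eu_mkL (hI : IsHomog I) (C : Finset (Fin n)) {F : MvPolynomial (Fin n) K} {e : ℕ} (hF : F.IsHomogeneous e) :
    eu hI C (mkL I C F) = (e : K) • mkL I C F :=
  @FEu_a_hom K (LR I C) _ _ _ (eu hI C) n _ (FEu_g I C) (fun _ => rfl) (fun l => eu_lx hI C l) F e hF

private theorem FEu_dec (C : Finset (Fin n)) (x : LR I C) :
    ∃ (k : ℕ) (p : MvPolynomial (Fin n) K), x * mkL I C ((∏ j ∈ C, X j) ^ k) = mkL I C p := by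
  obtain ⟨k, a, h⟩ := IsLocalization.Away.surj (Ideal.Quotient.mk I (∏ j ∈ C, X j)) x
  obtain ⟨p, rfl⟩ := Ideal.Quotient.mk_surjective a
  refine ⟨k, p, ?_⟩
  unfold mkL
  rw [map_pow, map_pow]
  exact h

private theorem FEu_unit (C : Finset (Fin n)) (k : ℕ) : IsUnit (mkL I C ((∏ j ∈ C, X j) ^ k)) := by
  unfold mkL
  rw [map_pow, map_pow]
  exact (IsLocalization.Away.algebraMap_isUnit _).pow k

theorem eu_trL (hI : IsHomog I) {C C' : Finset (Fin n)} (h : C ⊆ C') (x : LR I C) :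
    eu hI C' (trL I h x) = trL I h (eu hI C x) := by
  have hh := FEu_dec C x
  obtain ⟨k, p, hx⟩ := hh
  have h2 : ∀ f, eu hI C' (trL I h (mkL I C f)) = trL I h (mkL I C (eulP K n f)) := fun f =>
    ((congrArg (eu hI C') (trL_mkL I h f)).trans (FEu_pol hI C' f)).trans (trL_mkL I h _).symm
  exact @FEu_a_tr K (LR I C) _ _ _ (eu hI C) (LR I C') (MvPolynomial (Fin n) K) _ _ _ (eu hI C') (FEu_g I C)
    (trL I h : LR I C →+* LR I C') (eulP K n) (FEu_pol hI C) h2 x ((∏ j ∈ C, X j) ^ k) p hx (FEu_unit C k)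

theorem eu_chart (hI : IsHomog I) {C : Finset (Fin n)} (x : chart I C) : eu hI C (x : LR I C) = 0 := by
  induction x using chart_ind with
  | h1 a => exact @FEu_a_alg K (LR I C) _ _ _ (eu hI C) a
  | h2 l m hm =>
    exact @FEu_a_cq K (LR I C) _ _ _ (eu hI C) _ _ _ (cq_mul_lx I C l hm) (eu_lx hI C l) (eu_lx hI C m)
      (lx_isUnit I C hm)
  | h3 x y hx hy => exact @FEu_a_add K (LR I C) _ _ _ (eu hI C) _ _ hx hy
  | h4 x y hx hy => exact @FEu_a_mul K (LR I C) _ _ _ (eu hI C) _ _ hx hy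

theorem lr_sum (hI : IsHomog I) (C : Finset (Fin n)) (x : LR I C) :
    x ∈ Submodule.span K {y : LR I C | ∃ t : ℤ, eu hI C y = (t : K) • y} := by
  have hh := FEu_dec C x
  obtain ⟨k, p, hx⟩ := hh
  have h1 : ((∏ j ∈ C, X j : MvPolynomial (Fin n) K) ^ k).IsHomogeneous (C.card * k) := by
    refine IsHomogeneous.pow ?_ k
    have h2 := IsHomogeneous.prod C (fun j => (X j : MvPolynomial (Fin n) K)) (fun _ => 1)
      (fun j _ => isHomogeneous_X K j)
    rwa [Finset.sum_const, smul_eq_mul, mul_one] at h2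
  exact @FEu_a_sum K (LR I C) _ _ _ (eu hI C) n (FEu_g I C) (fun f e hf => eu_mkL hI C hf) x _ p _ h1 hx
    (FEu_unit C k)

/-- The form `x` has the weight `t`. -/
def Wt (hI : IsHomog I) (C : Finset (Fin n)) (t : ℤ) (x : Fm K (LR I C)) : Prop :=
  dd K (ct K (eu hI C) x) + ct K (eu hI C) (dd K x) = (t : K) • x

variable {hI : IsHomog I} {C : Finset (Fin n)}

theorem Wt.add {t : ℤ} {x y : Fm K (LR I C)} (hx : Wt hI C t x) (hy : Wt hI C t y) : Wt hI C t (x + y) :=
  @FWA.add K (LR I C) _ _ _ (eu hI C) t x y hx hy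

theorem Wt.smul {t : ℤ} (a : K) {x : Fm K (LR I C)} (hx : Wt hI C t x) : Wt hI C t (a • x) :=
  @FWA.smul K (LR I C) _ _ _ (eu hI C) t a x hx

theorem Wt_zero (t : ℤ) : Wt hI C t 0 := @FWA_zero K (LR I C) _ _ _ (eu hI C) t

theorem Wt.mul {s t : ℤ} {x y : Fm K (LR I C)} (hx : Wt hI C s x) (hy : Wt hI C t y) : Wt hI C (s + t) (x * y) :=
  @FWA.mul K (LR I C) _ _ _ (eu hI C) s t x y hx hy

theorem Wt_fz {t : ℤ} {r : LR I C} (hr : eu hI C r = (t : K) • r) : Wt hI C t (fz K r) :=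
  @FWA_fz K (LR I C) _ _ _ (eu hI C) t r hr

theorem Wt_df {t : ℤ} {r : LR I C} (hr : eu hI C r = (t : K) • r) : Wt hI C t (df K r) :=
  @FWA_df K (LR I C) _ _ _ (eu hI C) t r hr

theorem Wt.dd {t : ℤ} {x : Fm K (LR I C)} (hx : Wt hI C t x) : Wt hI C t (dd K x) :=
  @FWA.dd K (LR I C) _ _ _ (eu hI C) t x hx

theorem Wt.inv {t : ℤ} {x : Fm K (LR I C)} (hx : Wt hI C t x) : Wt hI C t (MPadcGP.inv K x) :=
  @FWA.inv K (LR I C) _ _ _ (eu hI C) t x hx

theorem Wt.ct {t : ℤ} {x : Fm K (LR I C)} (hx : Wt hI C t x) : Wt hI C t (ct K (eu hI C) x) :=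
  @FWA.ct K (LR I C) _ _ _ (eu hI C) t x hx

theorem ct_rs {C' : Finset (Fin n)} (h : C ⊆ C') (x : Fm K (LR I C)) :
    (lrC I).rs h (MPadcGP.ct K (eu hI C) x) = MPadcGP.ct K (eu hI C') ((lrC I).rs h x) :=
  mp_ct _ (fun x => (eu_trL hI h x).symm) x

theorem Wt.rs {C' : Finset (Fin n)} (h : C ⊆ C') {t : ℤ} {x : Fm K (LR I C)} (hx : Wt hI C t x) :
    Wt hI C' t ((lrC I).rs h x) := by
  have h1 := congrArg ((lrC I).rs h) hx
  have h2 := CovD.rs_dd (X := lrC I) h (MPadcGP.ct K (eu hI C) x)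
  have h3 := ct_rs (hI := hI) h (MPadcGP.dd K x)
  have h4 := CovD.rs_dd (X := lrC I) h x
  have h5 := CovD.rs_smul (X := lrC I) h (t : K) x
  have h6 := ct_rs (hI := hI) h x
  have h7 := map_add ((lrC I).rs h) (MPadcGP.dd K (MPadcGP.ct K (eu hI C) x)) (MPadcGP.ct K (eu hI C) (MPadcGP.dd K x))
  have h8 := h2.trans (congrArg (MPadcGP.dd K) h6)
  have h9 := h3.trans (congrArg (MPadcGP.ct K (eu hI C')) h4)
  exact (congrArg₂ (fun a b => a + b) h8 h9).symm.trans ((h7.symm.trans h1).trans h5)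

theorem wt_span {q : ℕ} {x : Fm K (LR I C)} (hx : x ∈ Fd K (LR I C) q) :
    x ∈ Submodule.span K {y : Fm K (LR I C) | y ∈ Fd K (LR I C) q ∧ ∃ t : ℤ, Wt hI C t y} :=
  @FWA_span K (LR I C) _ _ _ (eu hI C) (lr_sum hI C) q x hx

end

end MPadcHS
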