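import Pool.Agent.Lib.MP_adc574_ag_DC.GV0a

/-!
# JOB FLr (HS): the localizations `S[1/x_C]` as cover data

`lrC I`: the cover data `C ↦ LR I C = S[1/x_C]`. `mkL I C f`: the class of the polynomial `f`.
* `trL_ext`: two ring homomorphisms from `LR I C` which agree on the constants and on the `lx I C l` are equal (`LR I C` is the localization of `CR I = A[x] ⧸ I` at the powers of `∏ x_j`: `IsLocalization.ringHom_ext`, `Ideal.Quotient.ringHom_ext`, `MvPolynomial.ringHom_ext`; `lx` is the image of `X l`).
* `trL_id`, `trL_trL`, `trL_mkL`, `trL_val`: `trL_ext` (for `trL_val`: `chart_ind`, `lmap_cq`, `tr_cq`).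
* `reL`: the retraction `LR I C → chart I C`, `x_k ↦ x_k / x_l`, `l = min C`: `Ideal.Quotient.lift I (eval₂Hom ..)` (`eval₂_cq hI`: elements of `I` go to `0`), `IsLocalization.Away.lift` (`∏ j ∈ C, x_j / x_l` is a unit: `cq_isUnit`). `reL_val`: `chart_hom_ext` (the values at `cq I C l _` agree: `cq_coe`).
* `inF_reL`: `mp` of the composition (`mp_comp`, `mp_id`: look at GP/DRm.lean for the names).
-/

set_option autoImplicit false
set_option linter.unusedSectionVars false

namespace MPadcHS

open MvPolynomial MPadcGP MPadcDC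

universe u v w

section

variable {A : Type u} [CommRing A] {n : ℕ} (I : Ideal (MvPolynomial (Fin n) A))

theorem map_id_mem' : ∀ f ∈ I, MvPolynomial.map (RingHom.id A) f ∈ I := fun f hf => by
  rw [MvPolynomial.map_id]
  exact hf

/-- The restriction `S[1/x_C] → S[1/x_C']`. -/
noncomputable def trL {C C' : Finset (Fin n)} (h : C ⊆ C') : LR I C →ₐ[A] LR I C' :=
  { lmap (RingHom.id A) (map_id_mem' I) h with
    commutes' := fun a => lmap_base (RingHom.id A) (map_id_mem' I) h a }

theorem trL_lx {C C' : Finset (Fin n)} (h : C ⊆ C') (l : Fin n) : trL I h (lx I C l) = lx I C' l :=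
  lmap_lx (RingHom.id A) (map_id_mem' I) h l

theorem trL_ext {C : Finset (Fin n)} {R' : Type v} [CommRing R'] {f g : LR I C →+* R'}
    (h0 : ∀ a, f (algebraMap A _ a) = g (algebraMap A _ a)) (h : ∀ l, f (lx I C l) = g (lx I C l)) : f = g := by
  have h1 : f.comp (algebraMap (CR I) (LR I C)) = g.comp (algebraMap (CR I) (LR I C)) := by
    refine Ideal.Quotient.ringHom_ext ?_
    refine MvPolynomial.ringHom_ext (fun a => ?_) (fun l => ?_)
    · have h2 : algebraMap A (LR I C) a = algebraMap (CR I) (LR I C) (Ideal.Quotient.mk I (MvPolynomial.C a)) := by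
        rw [IsScalarTower.algebraMap_apply A (CR I) (LR I C)]
        rfl
      have h3 := h0 a
      rw [h2] at h3
      exact h3
    · exact h l
  exact IsLocalization.ringHom_ext (Submonoid.powers (Ideal.Quotient.mk I (∏ j ∈ C, X j))) h1

theorem trL_id (C : Finset (Fin n)) (h : C ⊆ C) (x : LR I C) : trL I h x = x := by
  have h1 : (trL I h : LR I C →+* LR I C) = RingHom.id (LR I C) :=
    trL_ext I (fun a => (trL I h).commutes a) (fun l => trL_lx I h l)
  exact congrArg (fun f : LR I C →+* LR I C => f x) h1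

theorem trL_trL {C C' C'' : Finset (Fin n)} (h : C ⊆ C') (h' : C' ⊆ C'') (x : LR I C) :
    trL I h' (trL I h x) = trL I (h.trans h') x := by
  have h1 : ((trL I h' : LR I C' →+* LR I C'').comp (trL I h : LR I C →+* LR I C')) =
      (trL I (h.trans h') : LR I C →+* LR I C'') := by
    refine trL_ext I (fun a => ?_) (fun l => ?_)
    · change trL I h' (trL I h (algebraMap A _ a)) = trL I (h.trans h') (algebraMap A _ a)
      rw [AlgHom.commutes, AlgHom.commutes, AlgHom.commutes]
    · change trL I h' (trL I h (lx I C l)) = trL I (h.trans h') (lx I C l)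
      rw [trL_lx, trL_lx, trL_lx]
  exact congrArg (fun f : LR I C →+* LR I C'' => f x) h1

theorem trL_mkL {C C' : Finset (Fin n)} (h : C ⊆ C') (f : MvPolynomial (Fin n) A) :
    trL I h (mkL I C f) = mkL I C' f := by
  have h1 : (trL I h).comp (aeval (lx I C)) = (aeval (lx I C') : MvPolynomial (Fin n) A →ₐ[A] LR I C') := by
    refine MvPolynomial.algHom_ext fun l => ?_
    rw [AlgHom.comp_apply, aeval_X, aeval_X, trL_lx]
  rw [← gV0_eval, ← gV0_eval, ← h1]
  rfl

theorem trL_val {C C' : Finset (Fin n)} (h : C ⊆ C') (x : chart I C) :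
    trL I h (x : LR I C) = ((tr I h x : chart I C') : LR I C') := by
  rfl

/-- The cover data of the localizations of the coordinate ring. -/
noncomputable def lrC : CovD.{u, u} A n where
  R C := LR I C
  ρ h := trL I h
  ρ_id C x := trL_id I C (Finset.Subset.refl C) x
  ρ_comp h h' x := trL_trL I h h' x

/-- The forms on the chart, as forms on `S[1/x_C]`. -/
noncomputable def inF (C : Finset (Fin n)) : Fm A (chart I C) →+* Fm A (LR I C) :=
  mp ((chart I C).val : chart I C →+* LR I C) (CC.of_algHom _)

variable {I}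

theorem exists_reL (hI : IsHomog I) {C : Finset (Fin n)} (hC : C.Nonempty) :
    ∃ ρ : LR I C →ₐ[A] chart I C, ∀ l, ρ (lx I C l) = cq I C l (C.min'_mem hC) := by
  have hm := C.min'_mem hC
  obtain ⟨g0, hg0⟩ : ∃ g0 : CR I →+* chart I C, ∀ f, g0 (Ideal.Quotient.mk I f) =
      eval₂ (algebraMap A (chart I C)) (fun l => cq I C l hm) f :=
    ⟨Ideal.Quotient.lift I (eval₂Hom (algebraMap A (chart I C)) (fun l => cq I C l hm)) fun f hf => eval₂_cq hI hm hf,
      fun f => rfl⟩
  have hu : IsUnit (g0 (Ideal.Quotient.mk I (∏ j ∈ C, X j))) := by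
    rw [hg0, eval₂_prod]
    simp only [eval₂_X]
    exact Finset.prod_induction _ _ (fun _ _ h1 h2 => h1.mul h2) isUnit_one fun j hj => cq_isUnit I C hj hm
  obtain ⟨g, hg⟩ : ∃ g : LR I C →+* chart I C, ∀ x, g (algebraMap (CR I) (LR I C) x) = g0 x :=
    ⟨IsLocalization.Away.lift (Ideal.Quotient.mk I (∏ j ∈ C, X j)) hu, fun x => IsLocalization.Away.lift_eq _ hu x⟩
  refine ⟨{ g with commutes' := fun a => ?_ }, fun l => ?_⟩
  · change g (algebraMap A (LR I C) a) = _
    have h2 : algebraMap A (LR I C) a = algebraMap (CR I) (LR I C) (Ideal.Quotient.mk I (MvPolynomial.C a)) := by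
      rw [IsScalarTower.algebraMap_apply A (CR I) (LR I C)]
      rfl
    rw [h2, hg, hg0, eval₂_C]
  · change g (lx I C l) = _
    rw [lx, hg, hg0, eval₂_X]

/-- The retraction `x_k ↦ x_k / x_(min C)`. -/
noncomputable def reL (hI : IsHomog I) {C : Finset (Fin n)} (hC : C.Nonempty) : LR I C →ₐ[A] chart I C :=
  (exists_reL hI hC).choose

theorem reL_lx (hI : IsHomog I) {C : Finset (Fin n)} (hC : C.Nonempty) (l : Fin n) :
    reL hI hC (lx I C l) = cq I C l (C.min'_mem hC) := (exists_reL hI hC).choose_spec l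

theorem reL_val (hI : IsHomog I) {C : Finset (Fin n)} (hC : C.Nonempty) (x : chart I C) :
    reL hI hC (x : LR I C) = x := by
  have h1 : (reL hI hC).comp (chart I C).val = AlgHom.id A (chart I C) := by
    refine chart_hom_ext I C (C.min'_mem hC) fun l => ?_
    change reL hI hC (cq I C l (C.min'_mem hC) : LR I C) = cq I C l (C.min'_mem hC)
    have h2 : reL hI hC ((cq I C l (C.min'_mem hC) : LR I C) * lx I C (C.min' hC)) = cq I C l (C.min'_mem hC) := by
      rw [cq_mul_lx, reL_lx]
    rw [map_mul, reL_lx, cq_self, mul_one] at h2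
    exact h2
  exact congrArg (fun f : chart I C →ₐ[A] chart I C => f x) h1

/-- The retraction of forms. -/
noncomputable def reF (hI : IsHomog I) {C : Finset (Fin n)} (hC : C.Nonempty) : Fm A (LR I C) →+* Fm A (chart I C) :=
  mp (reL hI hC : LR I C →+* chart I C) (CC.of_algHom _)

theorem reF_inF (hI : IsHomog I) {C : Finset (Fin n)} (hC : C.Nonempty) (x : Fm A (chart I C)) :
    reF hI hC (inF I C x) = x := by
  have h1 : ((reL hI hC : LR I C →+* chart I C)).comp ((chart I C).val : chart I C →+* LR I C) =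
      RingHom.id (chart I C) := RingHom.ext fun y => reL_val hI hC y
  have h2 : CC A A (RingHom.id (chart I C)) := CC.id
  have h3 : CC A A (((reL hI hC : LR I C →+* chart I C)).comp ((chart I C).val : chart I C →+* LR I C)) := by
    rw [h1]
    exact h2
  have h4 := mp_comp (CC.of_algHom (A := A) (chart I C).val) (CC.of_algHom (A := A) (reL hI hC)) h3 x
  exact h4.symm.trans ((mp_congr h3 h2 h1 x).trans (mp_id h2 x))

theorem inF_rsc {C C' : Finset (Fin n)} (h : C ⊆ C') (x : Fm A (chart I C)) :
    (lrC I).rs h (inF I C x) = inF I C' ((prC I).rs h x) := by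
  have h1 : ((lrC I).rs h).comp (inF I C) = (inF I C').comp ((prC I).rs h) := by
    refine hom_ext' (fun r => ?_) (fun t => ?_)
    · have e1 : (lrC I).rs h (inF I C (fz A r)) = fz A ((trL I h (r : LR I C) : LR I C')) :=
        (congrArg ((lrC I).rs h) (mp_fz _ r)).trans (CovD.rs_fz (X := lrC I) h _)
      have e2 : inF I C' ((prC I).rs h (fz A r)) = fz A ((tr I h r : chart I C') : LR I C') :=
        (congrArg (inF I C') (CovD.rs_fz (X := prC I) h r)).trans (mp_fz _ _)
      exact e1.trans ((congrArg (fz A) (trL_val I h r)).trans e2.symm)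
    · have e1 : (lrC I).rs h (inF I C (df A t)) = df A ((trL I h (t : LR I C) : LR I C')) :=
        (congrArg ((lrC I).rs h) (mp_df _ t)).trans (CovD.rs_df (X := lrC I) h _)
      have e2 : inF I C' ((prC I).rs h (df A t)) = df A ((tr I h t : chart I C') : LR I C') :=
        (congrArg (inF I C') (CovD.rs_df (X := prC I) h t)).trans (mp_df _ _)
      exact e1.trans ((congrArg (df A) (trL_val I h t)).trans e2.symm)
  exact congrArg (fun f => f x) h1

end

end MPadcHS
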