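import Pool.Agent.Lib.MP_adc574_ag_HS.FWt
import Pool.Agent.Lib.MP_adc574_ag_HS.FPhi

/-!
# JOB FPb (HS): the operator `Φ(u) = λ_t φ(ι u)` on the forms `u` of weight `t`

`lamZ K t = (-1)^(t-1) (t-1)!` for `t ≥ 1`, `0` for `t ≤ 0`. `Pb C x = phF (ct (wg lamZ x))`.
* `lamZ_one`, `lamZ_succ`: for `t ≥ 1`: `(t + 1).toNat - 1 = t.toNat`, `t.toNat - 1 + 1 = t.toNat`, `factorial_succ`, `((t.toNat : ℕ) : K) = (t : K)`; for `t ≤ -1` both sides are `0`.
* `Pb_nab` (write `L = wg (t ↦ t)`, `g = lamZ`, `ι = ct`): `wg g (dd x + df F * x) = dd (wg g x) + df F * wg (g (· + 1)) x` (`wg_dd`, `wg_df`). `φ (ι (df F * y)) = φ (fz (eu F) * y - df F * ι y) = φ y` (`ct_df_mul`, `eu_mkL`: `eu F = F`, `phF_F1`, `phF_F2`). So `Pb (dd x + df F * x) = φ (ι (dd (wg g x))) + φ (wg (g (· + 1)) x)`.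
  `dd (Pb x) = φ (dd (ι (wg g x)))` (`phF_dd`) `= φ (wg (t ↦ t) (wg g x)) - φ (ι (dd (wg g x)))` (`wg_L`) and `wg (t ↦ t) (wg g x) = wg (t ↦ t g t) x` (`wg_wg`). The sum is `φ (wg (g (· + 1)) x) + φ (wg (t ↦ t * g t) x) = φ (wg (t ↦ g (t + 1) + t * g t) x)` (`wg_add`), and `g (t + 1) + t * g t = if t = 0 then 1 else 0` (`lamZ_one`, `lamZ_succ`).
* `Pb_inv`: `wg_inv`, `ct_inv`, `phF_inv`. `Pb_rs`: `wg_rs`, `ct_rs` (FEu), `phF_rs`. `Pb_mem`, `Pb_zero`: `wg_mem`, `ct_mem`, `ct_mem_zero` (GP/DRm.lean), `phF_mem`.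
-/

set_option autoImplicit false
set_option linter.unusedSectionVars false

namespace MPadcHS

open MvPolynomial MPadcGP MPadcDC

universe u

section

variable (K : Type u) [Field K]

/-- `λ_t = (-1)^(t-1) (t-1)!`, `t ≥ 1`. -/
noncomputable def lamZ (t : ℤ) : K := if 1 ≤ t then (-1) ^ (t.toNat - 1) * ((t.toNat - 1).factorial : K) else 0

theorem lamZ_one : lamZ K 1 = 1 := by
  unfold lamZ
  rw [if_pos (le_refl 1)]
  simp

theorem lamZ_succ {t : ℤ} (ht : t ≠ 0) : lamZ K (t + 1) = -((t : K) * lamZ K t) := by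
  unfold lamZ
  rcases lt_or_gt_of_ne ht with h1 | h1
  · rw [if_neg (by omega), if_neg (by omega), mul_zero, neg_zero]
  · obtain ⟨k, rfl⟩ : ∃ k : ℕ, t = (k : ℤ) + 1 := ⟨(t - 1).toNat, by omega⟩
    rw [if_pos (by omega), if_pos (by omega)]
    have e1 : ((k : ℤ) + 1 + 1).toNat - 1 = k + 1 := by omega
    have e2 : ((k : ℤ) + 1).toNat - 1 = k := by omega
    rw [e1, e2, Nat.factorial_succ]
    push_cast
    ring

end

section abs

variable {K : Type*} [Field K] {U V : Type*} [Ring U] [Ring V] [Module K U] [Module K V] (φ : U →+* V) (io : U →+ U)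
  (W : (ℤ → K) → (U →ₗ[K] U))

private theorem FPb_add (g : ℤ → K) (x y : U) : φ (io (W g (x + y))) = φ (io (W g x)) + φ (io (W g y)) := by
  rw [map_add, map_add, map_add]

private theorem FPb_smul (hφ : ∀ (a : K) x, φ (a • x) = a • φ x) (hio : ∀ (a : K) x, io (a • x) = a • io x) (g : ℤ → K)
    (a : K) (x : U) : φ (io (W g (a • x))) = a • φ (io (W g x)) := by
  rw [map_smul, hio, hφ]

private theorem FPb_nab (D : U →+ U) (DV : V →+ V) (m : U → U) (hφD : ∀ x, φ (D x) = DV (φ x))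
    (hWD : ∀ g x, W g (D x) = D (W g x)) (hWm : ∀ g x, W g (m x) = m (W (fun t => g (t + 1)) x))
    (hm : ∀ x, φ (io (m x)) = φ x) (hL : ∀ x, D (io x) + io (D x) = W (fun t => (t : K)) x)
    (hWW : ∀ g g' x, W g (W g' x) = W (fun t => g t * g' t) x)
    (hWa : ∀ g g' x, W (fun t => g t + g' t) x = W g x + W g' x) (g d : ℤ → K)
    (hg : (fun t : ℤ => g (t + 1) + (t : K) * g t) = d) (x : U) :
    φ (io (W g (D x + m x))) + DV (φ (io (W g x))) = φ (W d x) := by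
  have h1 : W g (D x + m x) = D (W g x) + m (W (fun t => g (t + 1)) x) := by rw [map_add, hWD, hWm]
  have h2 : φ (io (W g (D x + m x))) = φ (io (D (W g x))) + φ (W (fun t => g (t + 1)) x) := by
    rw [h1, map_add, map_add, hm]
  have h3 : DV (φ (io (W g x))) = φ (W (fun t => (t : K) * g t) x) - φ (io (D (W g x))) := by
    rw [← hφD, ← hWW, ← hL (W g x), ← map_sub, add_sub_cancel_right]
  rw [h2, h3, ← hg, hWa, map_add]
  abel

private theorem FPb_inv (iU : U → U) (iV : V → V) (h1 : ∀ g x, W g (iU x) = iU (W g x)) (h2 : ∀ x, io (iU x) = -iU (io x))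
    (h3 : ∀ x, φ (iU x) = iV (φ x)) (g : ℤ → K) (x : U) : φ (io (W g (iU x))) = -iV (φ (io (W g x))) := by
  rw [h1, h2, map_neg, h3]

end abs

section

variable {K : Type u} [Field K] [CharZero K] {n : ℕ} {I : Ideal (MvPolynomial (Fin n) K)}
  {F : MvPolynomial (Fin n) K} (hI : IsHomog I) (hF : F.IsHomogeneous 1)

/-- The operator `Φ`. -/
noncomputable def Pb (C : Finset (Fin n)) (x : Fm K (LR I C)) : (prC (cyc I F 1)).E (ci C) :=
  phF hI hF C (ct K (eu hI C) (wg hI C (lamZ K) x))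

theorem Pb_add (C : Finset (Fin n)) (x y : Fm K (LR I C)) : Pb hI hF C (x + y) = Pb hI hF C x + Pb hI hF C y :=
  FPb_add (phF hI hF C) (ct K (eu hI C)).toAddMonoidHom (wg hI C) (lamZ K) x y

theorem Pb_smul (C : Finset (Fin n)) (a : K) (x : Fm K (LR I C)) : Pb hI hF C (a • x) = a • Pb hI hF C x :=
  FPb_smul (phF hI hF C) (ct K (eu hI C)).toAddMonoidHom (wg hI C) (phF_smul hI hF C)
    (fun a x => (ct K (eu hI C)).map_smul_of_tower a x) (lamZ K) a x

private theorem FPb_one (C : Finset (Fin n)) (y : Fm K (LR I C)) :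
    phF hI hF C (ct K (eu hI C) (df K (mkL I C F) * y)) = phF hI hF C y := by
  have hF' : eu hI C (mkL I C F) = mkL I C F := (eu_mkL hI C hF).trans (by rw [Nat.cast_one, one_smul])
  have h1 : ct K (eu hI C) (df K (mkL I C F) * y) = fz K (mkL I C F) * y - df K (mkL I C F) * ct K (eu hI C) y :=
    (ct_df_mul K (eu hI C) (mkL I C F) y).trans (congrArg (fun r => fz K r * y - df K (mkL I C F) * ct K (eu hI C) y) hF')
  have h2 := map_sub (phF hI hF C) (fz K (mkL I C F) * y) (df K (mkL I C F) * ct K (eu hI C) y)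
  exact (congrArg (phF hI hF C) h1).trans (h2.trans ((congrArg₂ (· - ·) (phF_F1 hI hF C y)
    (phF_F2 hI hF C (ct K (eu hI C) y))).trans (sub_zero _)))

theorem Pb_nab (C : Finset (Fin n)) (x : Fm K (LR I C)) :
    Pb hI hF C (dd K x + df K (mkL I C F) * x) + dd K (Pb hI hF C x) =
      phF hI hF C (wg hI C (fun t => if t = 0 then 1 else 0) x) := by
  have h4 : (fun t : ℤ => lamZ K (t + 1) + (t : K) * lamZ K t) = fun t => if t = 0 then 1 else 0 := by
    funext t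
    by_cases ht : t = 0
    · rw [if_pos ht, ht, zero_add, lamZ_one, Int.cast_zero, zero_mul, add_zero]
    · rw [if_neg ht, lamZ_succ K ht, neg_add_cancel]
  exact FPb_nab (phF hI hF C) (ct K (eu hI C)).toAddMonoidHom (wg hI C) (dd K) (dd K) (fun x => df K (mkL I C F) * x)
    (phF_dd hI hF C) wg_dd (fun g x => wg_df g hF x) (FPb_one hI hF C) wg_L wg_wg wg_add (lamZ K) _ h4 x

theorem Pb_inv (C : Finset (Fin n)) (x : Fm K (LR I C)) :
    Pb hI hF C (MPadcGP.inv K x) = -MPadcGP.inv K (Pb hI hF C x) :=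
  FPb_inv (phF hI hF C) (ct K (eu hI C)).toAddMonoidHom (wg hI C) _ _ wg_inv (ct_inv K (eu hI C)) (phF_inv hI hF C)
    (lamZ K) x

theorem Pb_rs {C C' : Finset (Fin n)} (h : C ⊆ C') (x : Fm K (LR I C)) :
    Pb hI hF C' ((lrC I).rs h x) = (prC (cyc I F 1)).rs (ci_mono h) (Pb hI hF C x) := by
  have h1 := congrArg (fun y => phF hI hF C' (ct K (eu hI C') y)) (wg_rs (hI := hI) (lamZ K) h x)
  have h2 := congrArg (phF hI hF C') (ct_rs (hI := hI) h (wg hI C (lamZ K) x))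
  exact h1.trans (h2.symm.trans (phF_rs hI hF h _))

theorem Pb_mem (C : Finset (Fin n)) {q : ℕ} {x : Fm K (LR I C)} (hx : x ∈ Fd K (LR I C) (q + 1)) :
    Pb hI hF C x ∈ Fd K ((prC (cyc I F 1)).R (ci C)) q := by
  exact phF_mem hI hF C (ct_mem _ (wg_mem _ hx))

theorem Pb_zero (C : Finset (Fin n)) {x : Fm K (LR I C)} (hx : x ∈ Fd K (LR I C) 0) : Pb hI hF C x = 0 :=
  (congrArg (phF hI hF C) (ct_mem_zero _ (wg_mem _ hx))).trans (map_zero (phF hI hF C))

end

end MPadcHS
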