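import Pool.Agent.Lib.MP_adc574_ag_DC.C3A
import Pool.Agent.Lib.MP_adc574_ag_DC.GGrS
import Pool.Agent.Lib.MP_adc574_ag_HS.F7a
import Pool.Agent.Lib.MP_adc574_ag_HS.FBc

/-!
# JOB FPk (HS): the forms on the cone over `κ[a]`, as forms on `S_K[1/x_C]`

`ls C : S → S_K[1/x_C]`, `mS C` the map of forms, `bw C (r ⊗ v) = r • mS v` (`bw C = be C ∘ loG`). `I := bI J`, `F := frm a`, `a = ak κ n 1 K`, `Q := cyc I F 1`.
* `ls_xv`: `lmC J C (xv J l) = lx J C l` (definition of `lx`), `lmap_lx`. `ls_hb`: `lmap_base`, `lmC` is a `κ`-algebra homomorphism.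
* `bw_tmul`: `be_tmul`, `loG` on `r ⊗ v` is `r ⊗ mpA v`, `mp_comp`.
* `bw_mem`: `Submodule.iSup_induction`, `VR q k` is the base change of `Om J q (1 + 1 * k)`: elements are sums of `r ⊗ v` (`Submodule.baseChange`, `Submodule.span_induction`); `Om_le`, `mp_mem`.
* `bw_rs`: on `r ⊗ v` (`TensorProduct.induction_on`): `(lrC I).rs h = mp (trL I h)`, `trL ∘ ls C = ls C'` (`Ideal.Quotient.ringHom_ext`, `MvPolynomial.ringHom_ext` : they agree on the constants and on the `xv l`: `trL_lx`, `ls_xv`), `mp_comp`, `mp_congr`.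
* `mS_Wt`: `Om_ind`: `mS (fz (xm g) * wd (xv ..)) = fz (ls (xm g)) * wd (lx ..)`: weight `g.degree + q` (`Wt_fz`, `Wt_df`, `Wt.mul`, `eu_mkL` with `ls (xm J g) = mkL I C (monomial g 1)`, `eu_lx`). Or: `LL_Om` (DC/GGr.lean), `cartan`, `mS_ct`, `mp_dd`: `dd (ct (mS v)) + ct (dd (mS v)) = mS (LL v) = j • mS v`.
* `bw_wg`: on `VR q k` the weight of `mS v` is `1 + 1 * k ≥ 1`: `wg_of` gives the factor `0`.
* `mS_ct`: `mp_ct` with `ls (eul x) = eu (ls x)`: both sides are additive in `x`, agree on the `xm J g` (`span_xm`, `eul_xm`, `eu_mkL`) times constants.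
* `phF_mS`: both sides are ring homomorphisms `Fm κ (CR J) → Fm K (chart Q (ci C))`, `mp` of `phL ∘ ls C` and of `tr ∘ phi hJ a`; these agree on the constants and on the `xv l` (`phL_lx`, `phi_xv`, `tr_cq`): `mp_comp`, `mp_congr`.
* `lamZ_lam`: by induction on `k`: `lam (k + 1) = -(θ + k) lam k`, `θ = 1 / 1`; `lamZ_one`, `lamZ_succ`.
* `Pb_mS`: `mS v` has the weight `1 + 1 * k`: `wg_of`, `lamZ_lam`, `mS_ct`, `phF_smul`, `phF_mS`.
-/

set_option autoImplicit false
set_option linter.unusedSectionVars false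

namespace MPadcHS

open MvPolynomial TensorProduct MPadcGP MPadcDC

universe u

section aux

variable {κ : Type u} [Field κ] {n : ℕ}

/-- Homomorphisms from the coordinate ring. -/
private theorem FPk_ext {J : Ideal (MvPolynomial (Fin n) κ)} {R' : Type u} [CommRing R'] {f g : CR J →+* R'}
    (h0 : ∀ c : κ, f (algebraMap κ (CR J) c) = g (algebraMap κ (CR J) c)) (h : ∀ l, f (xv J l) = g (xv J l)) : f = g :=
  Ideal.Quotient.ringHom_ext (MvPolynomial.ringHom_ext (fun c => h0 c) fun l => h l)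

/-- The contraction is linear over the constants. -/
private theorem FPk_ct {K R : Type u} [Field K] [CommRing R] [Algebra K R] (D : Derivation K R R) (a : K) (x : Fm K R) :
    ct K D (a • x) = a • ct K D x := by
  rw [smul_fm, ← fz_smul, map_smul, fz_smul, ← smul_fm]

/-- Contraction and a homomorphism of the coordinate ring. -/
private theorem FPk_eul [CharZero κ] {J : Ideal (MvPolynomial (Fin n) κ)} (hJ : IsHomog J) {K : Type u} [Field K]
    [Algebra κ K] {R : Type u} [CommRing R] [Algebra K R] {f : CR J →+* R} (hf : HB κ K f) (E : Derivation K R R)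
    (hE : ∀ g : Fin n →₀ ℕ, E (f (xm J g)) = ((g.degree : ℕ) : K) • f (xm J g)) (x : CR J) :
    f (eul hJ x) = E (f x) := by
  have hx : x ∈ Submodule.span κ (Set.range (xm J)) := by
    rw [span_xm]
    exact Submodule.mem_top
  induction hx using Submodule.span_induction with
  | mem x hx =>
    obtain ⟨g, rfl⟩ := hx
    rw [eul_xm, hf.smul, hE, map_natCast]
  | zero => rw [map_zero, map_zero, map_zero]
  | add x y _ _ hx hy => rw [map_add, map_add, map_add, hx, hy, map_add]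
  | smul a x _ hx =>
    rw [Derivation.map_smul, hf.smul, hf.smul, hx, Derivation.map_smul]

private theorem FPk_one {K R : Type u} [Field K] [CommRing R] [Algebra K R] (D : Derivation K R R) :
    D 1 = (((0 : ℕ) : ℤ) : K) • (1 : R) := by
  rw [Derivation.map_one_eq_zero, Nat.cast_zero, Int.cast_zero, zero_smul]

private theorem FPk_ext2 {A V W : Type u} [CommRing A] [Algebra κ A] [AddCommGroup V] [Module κ V] [AddCommGroup W]
    (f g : A ⊗[κ] V →+ W) (h : ∀ (r : A) (v : V), f (r ⊗ₜ[κ] v) = g (r ⊗ₜ[κ] v)) (w : A ⊗[κ] V) : f w = g w := by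
  induction w using TensorProduct.induction_on with
  | zero => rw [map_zero, map_zero]
  | tmul r v => exact h r v
  | add x y hx hy => rw [map_add, map_add, hx, hy]

private theorem FPk_sm {K : Type u} [Field K] {A V W : Type u} [CommRing A] [Algebra κ A] [AddCommGroup V] [Module κ V]
    [AddCommGroup W] [Module K W] (f : A ⊗[κ] V →+ W) (g : V → W) (φ : A →+* K)
    (h : ∀ (r : A) (v : V), f (r ⊗ₜ[κ] v) = φ r • g v) (r : A) (w : A ⊗[κ] V) : f (r • w) = φ r • f w := by
  induction w using TensorProduct.induction_on with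
  | zero => rw [smul_zero, map_zero, smul_zero]
  | tmul s x => rw [TensorProduct.smul_tmul', smul_eq_mul, h, h, map_mul, mul_smul]
  | add x y hx hy => rw [smul_add, map_add, map_add, smul_add, hx, hy]

private theorem FPk_sup {A V W : Type u} [CommRing A] [Algebra κ A] [AddCommGroup V] [Module κ V] [AddCommGroup W]
    (f : A ⊗[κ] V →+ W) (P : W → Prop) (h0 : P 0) (h2 : ∀ x y, P x → P y → P (x + y)) (p : ℕ → Submodule κ V)
    (h1 : ∀ (k : ℕ) (r : A) (v : V), v ∈ p k → P (f (r ⊗ₜ[κ] v))) {w : A ⊗[κ] V}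
    (hw : w ∈ ⨆ k, (p k).baseChange A) : P (f w) := by
  refine Submodule.iSup_induction (fun k => (p k).baseChange A) (motive := fun w => P (f w)) hw (fun k w hw => ?_) ?_
    fun x y hx hy => ?_
  · refine GGrS_bcInd (P := fun w => P (f w)) ?_ (fun r v hv => h1 k r v hv) (fun x y hx hy => ?_) hw
    · rw [map_zero]
      exact h0
    · rw [map_add]
      exact h2 _ _ hx hy
  · rw [map_zero]
    exact h0
  · rw [map_add]
    exact h2 _ _ hx hy

private theorem FPk_add0 {M N : Type u} [AddCommGroup M] [AddCommGroup N] (f : M →+ N) {x y : M} (hx : f x = 0)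
    (hy : f y = 0) : f (x + y) = 0 := by
  rw [map_add, hx, hy, add_zero]

private theorem FPk_sm0 {K M N : Type u} [Field K] [AddCommGroup M] [AddCommGroup N] [Module K M] [Module K N]
    (f : M →ₗ[K] N) (a : K) {x : M} (hx : f x = 0) : f (a • x) = 0 := by
  rw [map_smul, hx, smul_zero]

private theorem FPk_dec {C R : Type u} [CommRing C] [CommRing R] [Algebra κ C] {K : Type u} [Field K] [Algebra κ K]
    [Algebra K R] (u : C →+* R) (hu : CC κ K u) {q : ℕ} (x : C) (x' : R) (t : Fin q → C) (t' : Fin q → R) (hx : u x = x')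
    (ht : ∀ i, u (t i) = t' i) : mp u hu (fz κ x * wd κ t) = fz K x' * wd K t' := by
  have h1 : (fun i => u (t i)) = t' := funext ht
  rw [map_mul, mp_fz, mp_wd, hx, ← h1]

end aux

section

variable {κ : Type u} [Field κ] {n : ℕ} (J : Ideal (MvPolynomial (Fin n) κ)) (K : Type u) [Field K] [Algebra κ K]

/-- `S → S_K[1/x_C]` -/
noncomputable def ls (C : Finset (Fin n)) : CR J →+* LR (bI (algebraMap κ K) J) C :=
  (lb J K C).comp (lmC J C : CR J →+* LR J C)

theorem ls_xv (C : Finset (Fin n)) (l : Fin n) : ls J K C (xv J l) = lx (bI (algebraMap κ K) J) C l := by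
  exact lmap_lx (algebraMap κ K) (bI_mem (algebraMap κ K) J) (Finset.Subset.refl C) l

theorem ls_hb (C : Finset (Fin n)) : HB κ K (ls J K C) := by
  intro a
  have h1 : ls J K C (algebraMap κ (CR J) a) = lb J K C (lmC J C (algebraMap κ (CR J) a)) := rfl
  rw [h1, AlgHom.commutes]
  exact lb_hb J K C a

/-- The map of forms. -/
noncomputable def mS (C : Finset (Fin n)) : Fm κ (CR J) →+* Fm K (LR (bI (algebraMap κ K) J) C) :=
  mp (ls J K C) (ls_hb J K C).cc

end

section

variable {κ : Type u} [Field κ] {n : ℕ} (J : Ideal (MvPolynomial (Fin n) κ)) (K : Type u) [Field K]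
  [Algebra κ K] [Algebra (Ra κ n 1) K] [IsScalarTower κ (Ra κ n 1) K]

/-- The forms over `κ[a]` as forms on `S_K[1/x_C]`. -/
noncomputable def bw (C : Finset (Fin n)) : FR J 1 →+* Fm K (LR (bI (algebraMap κ K) J) C) :=
  (be J K C).comp (loG (Mon n 1) (lmC J C) : FR J 1 →+* FG κ (Mon n 1) (LR J C))

theorem bw_apply (C : Finset (Fin n)) (w : FR J 1) : bw J K C w = be J K C (loG (Mon n 1) (lmC J C) w) := rfl

theorem bw_tmul (C : Finset (Fin n)) (r : Ra κ n 1) (v : Fm κ (CR J)) :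
    bw J K C (r ⊗ₜ[κ] v) = algebraMap (Ra κ n 1) K r • mS J K C v := by
  rw [bw_apply, loG_tmul, be_tmul]
  congr 1
  exact (mp_comp (CC.of_algHom (lmC J C)) (lb_hb J K C).cc (ls_hb J K C).cc v).symm

theorem bw_smul (C : Finset (Fin n)) (r : Ra κ n 1) (w : FR J 1) :
    bw J K C (r • w) = algebraMap (Ra κ n 1) K r • bw J K C w :=
  @FPk_sm κ _ K _ (Ra κ n 1) (Fm κ (CR J)) (Fm K (LR (bI (algebraMap κ K) J) C)) _ _ _ _ _ _ (bw J K C).toAddMonoidHom
    (mS J K C) (algebraMap (Ra κ n 1) K) (bw_tmul J K C) r w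

theorem bw_rs {C C' : Finset (Fin n)} (h : C ⊆ C') (w : FR J 1) :
    (lrC (bI (algebraMap κ K) J)).rs h (bw J K C w) = bw J K C' w := by
  have h1 : ∀ v : Fm κ (CR J), (lrC (bI (algebraMap κ K) J)).rs h (mS J K C v) = mS J K C' v := by
    intro v
    have h2 : (trL (bI (algebraMap κ K) J) h : LR (bI (algebraMap κ K) J) C →+* LR (bI (algebraMap κ K) J) C').comp
        (ls J K C) = ls J K C' := by
      refine FPk_ext (fun c => ?_) fun l => ?_
      · rw [RingHom.comp_apply, ls_hb J K C c, ls_hb J K C' c]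
        exact AlgHom.commutes _ _
      · rw [RingHom.comp_apply, ls_xv, ls_xv]
        exact trL_lx _ h l
    have h3 : CC κ K ((trL (bI (algebraMap κ K) J) h :
        LR (bI (algebraMap κ K) J) C →+* LR (bI (algebraMap κ K) J) C').comp (ls J K C)) := by
      rw [h2]
      exact (ls_hb J K C').cc
    exact (mp_comp (ls_hb J K C).cc (CC.of_algHom (trL (bI (algebraMap κ K) J) h)) h3 v).symm.trans
      (mp_congr h3 (ls_hb J K C').cc h2 v)
  have h4 : ∀ (r : Ra κ n 1) (v : Fm κ (CR J)), (lrC (bI (algebraMap κ K) J)).rs h (bw J K C (r ⊗ₜ[κ] v)) =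
      bw J K C' (r ⊗ₜ[κ] v) := fun r v =>
    (congrArg ((lrC (bI (algebraMap κ K) J)).rs h) (bw_tmul J K C r v)).trans ((CovD.rs_smul _ _ _).trans
      ((congrArg (fun y => algebraMap (Ra κ n 1) K r • y) (h1 v)).trans (bw_tmul J K C' r v).symm))
  exact @FPk_ext2 κ _ (Ra κ n 1) (Fm κ (CR J)) (Fm K (LR (bI (algebraMap κ K) J) C')) _ _ _ _ _
    (((lrC (bI (algebraMap κ K) J)).rs h).comp (bw J K C)).toAddMonoidHom (bw J K C').toAddMonoidHom h4 w

variable {J K} [CharZero κ] [CharZero K]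

theorem bw_mem (hJ : IsHomog J) (C : Finset (Fin n)) {q : ℕ} {w : FR J 1} (hw : w ∈ ⨆ k, (cxS hJ 1 1).VR q k) :
    bw J K C w ∈ Fd K (LR (bI (algebraMap κ K) J) C) q := by
  exact @FPk_sup κ _ (Ra κ n 1) (Fm κ (CR J)) (Fm K (LR (bI (algebraMap κ K) J) C)) _ _ _ _ _ (bw J K C).toAddMonoidHom
    (fun y => y ∈ Fd K (LR (bI (algebraMap κ K) J) C) q) (Submodule.zero_mem _) (fun x y hx hy => Submodule.add_mem _ hx hy)
    (fun k => Om J q (1 + 1 * k)) (fun k r v hv => (congrArg (fun y => y ∈ Fd K (LR (bI (algebraMap κ K) J) C) q)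
      (bw_tmul J K C r v)).mpr (Submodule.smul_mem _ _ (mp_mem _ (Om_le hv)))) w hw

private theorem FPk_xm (C : Finset (Fin n)) (g : Fin n →₀ ℕ) :
    ls J K C (xm J g) = MPadcDC.mkL (bI (algebraMap κ K) J) C (monomial g 1) := by
  have h1 : ls J K C (xm J g) = lb J K C (MPadcDC.mkL J C (monomial g 1)) := rfl
  rw [h1, lb_mkL, map_monomial, map_one]

private theorem FPk_eu (hJ : IsHomog J) (C : Finset (Fin n)) (g : Fin n →₀ ℕ) :
    eu (hJ.map (algebraMap κ K)) C (ls J K C (xm J g)) = ((g.degree : ℕ) : K) • ls J K C (xm J g) := by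
  rw [FPk_xm]
  exact eu_mkL _ C (isHomogeneous_monomial 1 rfl)

private theorem FPk_mS (C : Finset (Fin n)) (a : κ) (v : Fm κ (CR J)) : mS J K C (a • v) = algebraMap κ K a • mS J K C v :=
  (ls_hb J K C).mp_smul a v

theorem mS_Wt (hJ : IsHomog J) (C : Finset (Fin n)) {q j : ℕ} {v : Fm κ (CR J)} (hv : v ∈ Om J q j) :
    Wt (hJ.map (algebraMap κ K)) C j (mS J K C v) := by
  refine Om_ind (P := fun v => Wt (hJ.map (algebraMap κ K)) C j (mS J K C v)) ?_ (fun g t hg => ?_)
    (fun a b ha hb => ?_) (fun a w hw => ?_) hv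
  · rw [map_zero]
    exact Wt_zero _
  · have h1 : ∀ (q : ℕ) (t : Fin q → Fin n), Wt (hJ.map (algebraMap κ K)) C (q : ℤ)
        (wd K (fun i => lx (bI (algebraMap κ K) J) C (t i))) := by
      intro q
      induction q with
      | zero =>
        intro t
        rw [wd_zero, ← map_one (fz K)]
        exact Wt_fz (@FPk_one K (LR (bI (algebraMap κ K) J) C) _ _ _ (eu (hJ.map (algebraMap κ K)) C))
      | succ q ih =>
        intro t
        have h2 : Wt (hJ.map (algebraMap κ K)) C (1 : ℤ) (df K (lx (bI (algebraMap κ K) J) C (t 0))) := by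
          refine Wt_df ?_
          rw [eu_lx, Int.cast_one, one_smul]
        have h3 := h2.mul (ih (Fin.tail t))
        rw [wd_succ]
        have h4 : (1 : ℤ) + (q : ℤ) = ((q + 1 : ℕ) : ℤ) := by
          push_cast
          ring
        rw [← h4]
        exact h3
    have h2 : mS J K C (fz κ (xm J g) * wd κ (fun i => xv J (t i))) =
        fz K (ls J K C (xm J g)) * wd K (fun i => lx (bI (algebraMap κ K) J) C (t i)) :=
      FPk_dec (ls J K C) (ls_hb J K C).cc _ _ _ _ rfl fun i => ls_xv J K C (t i)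
    have h3 : Wt (hJ.map (algebraMap κ K)) C ((g.degree : ℕ) : ℤ) (fz K (ls J K C (xm J g))) := by
      refine Wt_fz ?_
      rw [FPk_eu hJ, Int.cast_natCast]
    have h4 := h3.mul (h1 q t)
    rw [h2, ← hg, Nat.cast_add]
    exact h4
  · rw [map_add]
    exact ha.add hb
  · rw [FPk_mS]
    exact hw.smul _

theorem bw_wg (hJ : IsHomog J) (C : Finset (Fin n)) {q : ℕ} {w : FR J 1} (hw : w ∈ ⨆ k, (cxS hJ 1 1).VR q k) :
    wg (hJ.map (algebraMap κ K)) C (fun t => if t ≤ 0 then 1 else 0) (bw J K C w) = 0 := by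
  have h1 : ∀ (k : ℕ) (r : Ra κ n 1) (v : Fm κ (CR J)), v ∈ Om J q (1 + 1 * k) →
      wg (hJ.map (algebraMap κ K)) C (fun t => if t ≤ 0 then 1 else 0) (bw J K C (r ⊗ₜ[κ] v)) = 0 := by
    intro k r v hv
    have h1 : Wt (hJ.map (algebraMap κ K)) C ((1 + 1 * k : ℕ) : ℤ) (mS J K C v) := mS_Wt hJ C hv
    have h2 : ¬ (((1 + 1 * k : ℕ) : ℤ) ≤ 0) := by
      push_cast
      omega
    have h3 : wg (hJ.map (algebraMap κ K)) C (fun t => if t ≤ 0 then 1 else 0) (mS J K C v) = 0 :=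
      (wg_of (fun t => if t ≤ 0 then 1 else 0) h1).trans ((congrArg (fun c : K => c • mS J K C v) (if_neg h2)).trans
        (zero_smul _ _))
    exact (congrArg (wg (hJ.map (algebraMap κ K)) C (fun t => if t ≤ 0 then 1 else 0)) (bw_tmul J K C r v)).trans
      (@FPk_sm0 K (Fm K (LR (bI (algebraMap κ K) J) C)) (Fm K (LR (bI (algebraMap κ K) J) C)) _ _ _ _ _
        (wg (hJ.map (algebraMap κ K)) C (fun t => if t ≤ 0 then 1 else 0)) _ _ h3)
  exact @FPk_sup κ _ (Ra κ n 1) (Fm κ (CR J)) (Fm K (LR (bI (algebraMap κ K) J) C)) _ _ _ _ _ (bw J K C).toAddMonoidHom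
    (fun y => wg (hJ.map (algebraMap κ K)) C (fun t => if t ≤ 0 then 1 else 0) y = 0) (map_zero _)
    (fun x y hx hy => @FPk_add0 (Fm K (LR (bI (algebraMap κ K) J) C)) (Fm K (LR (bI (algebraMap κ K) J) C)) _ _
      (wg (hJ.map (algebraMap κ K)) C (fun t => if t ≤ 0 then 1 else 0)).toAddMonoidHom _ _ hx hy)
    (fun k => Om J q (1 + 1 * k)) h1 w hw

theorem mS_ct (hJ : IsHomog J) (C : Finset (Fin n)) (v : Fm κ (CR J)) :
    mS J K C (ct κ (eul hJ) v) = ct K (eu (hJ.map (algebraMap κ K)) C) (mS J K C v) := by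
  exact mp_ct (ls_hb J K C).cc (fun x => FPk_eul hJ (ls_hb J K C) (eu (hJ.map (algebraMap κ K)) C) (FPk_eu hJ C) x) v

theorem phF_mS (hJ : IsHomog J) (C : Finset (Fin n)) (v : Fm κ (CR J)) :
    phF (hJ.map (algebraMap κ K)) (isHomogeneous_frm (ak κ n 1 K)) C (mS J K C v) =
      (prC (cyc (bI (algebraMap κ K) J) (frm (ak κ n 1 K)) 1)).rs (z_sub C) (ph hJ (ak κ n 1 K) v) := by
  have h1 : (phL (hJ.map (algebraMap κ K)) (isHomogeneous_frm (ak κ n 1 K)) C : LR (bI (algebraMap κ K) J) C →+*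
        chart (cyc (bI (algebraMap κ K) J) (frm (ak κ n 1 K)) 1) (ci C)).comp (ls J K C) =
      (tr (cyc (bI (algebraMap κ K) J) (frm (ak κ n 1 K)) 1) (z_sub C) :
        chart (cyc (bI (algebraMap κ K) J) (frm (ak κ n 1 K)) 1) {Fin.last n} →+*
        chart (cyc (bI (algebraMap κ K) J) (frm (ak κ n 1 K)) 1) (ci C)).comp (phi hJ (ak κ n 1 K)) := by
    refine FPk_ext (fun c => ?_) fun l => ?_
    · have e1 := congrArg (phL (hJ.map (algebraMap κ K)) (isHomogeneous_frm (ak κ n 1 K)) C) (ls_hb J K C c)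
      have e2 := congrArg (tr (cyc (bI (algebraMap κ K) J) (frm (ak κ n 1 K)) 1) (z_sub C)) (phi_base hJ (ak κ n 1 K) c)
      exact (e1.trans (AlgHom.commutes _ _)).trans (e2.trans (AlgHom.commutes _ _)).symm
    · have e1 := congrArg (phL (hJ.map (algebraMap κ K)) (isHomogeneous_frm (ak κ n 1 K)) C) (ls_xv J K C l)
      have e2 := congrArg (tr (cyc (bI (algebraMap κ K) J) (frm (ak κ n 1 K)) 1) (z_sub C)) (phi_xv hJ (ak κ n 1 K) l)
      exact (e1.trans (phL_lx _ _ C l)).trans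
        (e2.trans (tr_cq _ (z_sub C) l.castSucc (Finset.mem_singleton_self _))).symm
  have hc : CC κ K (phi hJ (ak κ n 1 K)) := fun c => ⟨algebraMap κ K c, phi_base hJ (ak κ n 1 K) c⟩
  have h3 : CC κ K ((tr (cyc (bI (algebraMap κ K) J) (frm (ak κ n 1 K)) 1) (z_sub C) :
        chart (cyc (bI (algebraMap κ K) J) (frm (ak κ n 1 K)) 1) {Fin.last n} →+*
        chart (cyc (bI (algebraMap κ K) J) (frm (ak κ n 1 K)) 1) (ci C)).comp (phi hJ (ak κ n 1 K))) :=
    hc.comp (CC.of_algHom _)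
  have h4 : CC κ K ((phL (hJ.map (algebraMap κ K)) (isHomogeneous_frm (ak κ n 1 K)) C : LR (bI (algebraMap κ K) J) C →+*
        chart (cyc (bI (algebraMap κ K) J) (frm (ak κ n 1 K)) 1) (ci C)).comp (ls J K C)) :=
    (ls_hb J K C).cc.comp (CC.of_algHom _)
  exact ((mp_comp (ls_hb J K C).cc (CC.of_algHom _) h4 v).symm.trans (mp_congr h4 h3 h1 v)).trans
    (mp_comp hc (CC.of_algHom _) h3 v)

theorem lamZ_lam (hJ : IsHomog J) (k : ℕ) :
    lamZ K ((1 + 1 * k : ℕ) : ℤ) = algebraMap κ K ((cxS hJ 1 1).lam k) := by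
  have hθ : (cxS hJ 1 1).θ = 1 := by
    change ((1 : ℕ) : κ) / ((1 : ℕ) : κ) = 1
    rw [Nat.cast_one, div_one]
  induction k with
  | zero =>
    have h1 : ((1 + 1 * 0 : ℕ) : ℤ) = 1 := rfl
    have h2 : (cxS hJ 1 1).lam 0 = 1 := rfl
    rw [h1, lamZ_one, h2, map_one]
  | succ k ih =>
    have h1 : ((1 + 1 * (k + 1) : ℕ) : ℤ) = ((1 + 1 * k : ℕ) : ℤ) + 1 := by
      push_cast
      ring
    have h2 : (cxS hJ 1 1).lam (k + 1) = -((cxS hJ 1 1).θ + k) * (cxS hJ 1 1).lam k := rfl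
    have h3 : ((1 + 1 * k : ℕ) : ℤ) ≠ 0 := by
      push_cast
      omega
    rw [h1, lamZ_succ K h3, ih, h2, hθ, map_mul, map_neg, map_add, map_one, map_natCast, neg_mul]
    congr 2
    push_cast
    ring

theorem Pb_mS (hJ : IsHomog J) (C : Finset (Fin n)) {q k : ℕ} {v : Fm κ (CR J)} (hv : v ∈ Om J q (1 + 1 * k)) :
    Pb (hJ.map (algebraMap κ K)) (isHomogeneous_frm (ak κ n 1 K)) C (mS J K C v) =
      algebraMap κ K ((cxS hJ 1 1).lam k) • (prC (cyc (bI (algebraMap κ K) J) (frm (ak κ n 1 K)) 1)).rs (z_sub C)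
        (ph hJ (ak κ n 1 K) (ct κ (eul hJ) v)) := by
  have h1 : Wt (hJ.map (algebraMap κ K)) C ((1 + 1 * k : ℕ) : ℤ) (mS J K C v) := mS_Wt hJ C hv
  unfold Pb
  rw [wg_of _ h1, lamZ_lam hJ k, FPk_ct, phF_smul, ← mS_ct, phF_mS]

end

end MPadcHS
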