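import Pool.Agent.Lib.MP_adc574_ag_HS.GyA
import Pool.Agent.Lib.MP_adc574_ag_DC.PHom
import Pool.Agent.Lib.MP_adc574_ag_DC.GNz

/-!
# JOB FiA (HS, Part P): the generic hyperplane section: `z / x_j` is a non zero divisor

`Gd.eq`: `hP`; `Gd.hom`: `isHomog_cycG` (PHom), `IsHomog.map`; `Gd.sm`: `hs`. `Gd.nz`, plan: let `R' := Ra R n 1 = R[a_γ : γ ∈ Mon n 1]`, `I' := bI C I`, `F := frm X` (`cycG I 1 = cyc I' F 1`, see DC/DefsL.lean), `z ∉ C`, `C = C₀.map castSucc`, `j = castSucc j₀`, `S := chart I C₀`.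
(1) First over `A = R'` (localization at `⊥`-monoid; prove the claim for `Q₀ := cycG I 1` itself): a ring homomorphism `Θ : chart Q₀ C → MvPolynomial (Mon n 1) S` and an inverse `Ξ`. `Θ`: by `exists_chart_lift` (GP/Mod.lean) over `R' → MvPolynomial (Mon n 1) S` (`MvPolynomial.map (algebraMap R S)`): `x_l / x_j ↦ C (cq I C₀ l)` (`l ≤ n - 1`), `z / x_j ↦ ∑_γ X_γ * C (x ^ γ / x_j)`; the relations hold (`eval₂` of the elements of `I'` and of `z - F`; homogeneous elements). `Ξ`: `MvPolynomial.eval₂Hom`: on `S`: again `exists_chart_lift` for `I` (`x_l / x_j ↦ cq Q₀ C l`), `X_γ ↦ algebraMap _ _ (X γ)`. They are inverse to each other (`chart_hom_ext'`, `MvPolynomial.ringHom_ext`). It is enough to have: `Θ` is injective (`Ξ ∘ Θ = id`).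
    `Θ (z / x_j) = f := ∑_γ C (s_γ) * X_γ` with `s_{γ₀} = 1` for the monomial `γ₀ = x_j` (`Mon n 1` = exponents of total degree `1`). `f` is a non zero divisor in `MvPolynomial (Mon n 1) S` for every commutative ring `S`: the `S`-algebra endomorphism `X_{γ₀} ↦ X_{γ₀} - ∑_{γ ≠ γ₀} C s_γ X_γ`, the other variables fixed, is an automorphism (inverse with `+`) and maps `f` to `X_{γ₀}`, and `X_{γ₀} * g = 0` implies `g = 0` (`MvPolynomial.coeff_X_mul`-type lemma).
    See also the proofs in DC/GNz.lean (`f_nzd`, `zeta_nzd`: the same over a field with `J` prime) and DC/W1B.lean, DC/W1C.lean, for the computations with charts of `cyc J F e`.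
(2) For a localization `A` of `R'`: `chart (bI (algebraMap R' A) Q₀) C` is the base change (`cmA_isBaseChange` GP/Mod3.lean), `A` is flat over `R'` (`IsLocalization.flat`), multiplication by `cq Q₀ C z` is injective on `chart Q₀ C` and stays injective after `A ⊗ ·` (`Module.Flat.lTensor_preserves_injective_linearMap`), and it is multiplication by `cq Q C z` (`cmA_cq`).
-/

set_option autoImplicit false

namespace MPadcHS

open MvPolynomial MPadcGP MPadcDC TensorProduct

universe u v w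

private theorem FiA_mul {R K B : Type u} [CommRing R] [CommRing K] [CommRing B] [Algebra R K] [Algebra R B] (f : B)
    (t : K ⊗[R] B) : LinearMap.lTensor K (LinearMap.mulLeft R f) t = (1 ⊗ₜ f) * t := by
  induction t using TensorProduct.induction_on with
  | zero => rw [map_zero, mul_zero]
  | tmul b x =>
    rw [LinearMap.lTensor_tmul, Algebra.TensorProduct.tmul_mul_tmul, one_mul, LinearMap.mulLeft_apply]
  | add s t hs ht => rw [map_add, hs, ht, mul_add]

/-- A linear form with a coefficient `1` is a non zero divisor. -/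
private theorem FiA_lin {S : Type u} [CommRing S] {Γ : Type} [Fintype Γ] [DecidableEq Γ] (y : Γ → S) {g0 : Γ}
    (hy : y g0 = 1) {p : MvPolynomial Γ S} (hp : (∑ g, C (y g) * X g) * p = 0) : p = 0 := by
  obtain ⟨s, hs⟩ : ∃ s : MvPolynomial Γ S, s = ∑ g ∈ Finset.univ.erase g0, C (y g) * X g := ⟨_, rfl⟩
  obtain ⟨σ, hσ⟩ : ∃ σ : MvPolynomial Γ S →ₐ[S] MvPolynomial Γ S, ∀ g, σ (X g) = if g = g0 then X g0 - s else X g :=
    ⟨aeval fun g => if g = g0 then X g0 - s else X g, fun g => aeval_X _ g⟩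
  obtain ⟨τ, hτ⟩ : ∃ τ : MvPolynomial Γ S →ₐ[S] MvPolynomial Γ S, ∀ g, τ (X g) = if g = g0 then X g0 + s else X g :=
    ⟨aeval fun g => if g = g0 then X g0 + s else X g, fun g => aeval_X _ g⟩
  have hC : ∀ (ψ : MvPolynomial Γ S →ₐ[S] MvPolynomial Γ S) (a : S), ψ (C a) = C a := fun ψ a => ψ.commutes a
  have hσs : σ s = s := by
    rw [hs, map_sum]
    refine Finset.sum_congr rfl fun g hg => ?_
    rw [map_mul, hC, hσ, if_neg (Finset.ne_of_mem_erase hg)]
  have hτs : τ s = s := by
    rw [hs, map_sum]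
    refine Finset.sum_congr rfl fun g hg => ?_
    rw [map_mul, hC, hτ, if_neg (Finset.ne_of_mem_erase hg)]
  have hτσ : τ.comp σ = AlgHom.id S _ := by
    refine MvPolynomial.algHom_ext fun g => ?_
    rw [AlgHom.comp_apply, hσ, AlgHom.id_apply]
    by_cases hg : g = g0
    · rw [if_pos hg, map_sub, hτ, if_pos rfl, hτs, add_sub_cancel_right, hg]
    · rw [if_neg hg, hτ, if_neg hg]
  have hinj : ∀ q, σ q = 0 → q = 0 := by
    intro q hq
    have h1 := DFunLike.congr_fun hτσ q
    rw [AlgHom.comp_apply, hq, map_zero] at h1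
    exact h1.symm
  have h1 : (∑ g, C (y g) * X g : MvPolynomial Γ S) = X g0 + s := by
    rw [← Finset.add_sum_erase _ _ (Finset.mem_univ g0), hy, C_1, one_mul, ← hs]
  rw [h1] at hp
  have h2 : X g0 * σ p = 0 := by
    have h3 := congrArg σ hp
    rw [map_mul, map_add, hσ, if_pos rfl, hσs, sub_add_cancel, map_zero] at h3
    exact h3
  refine hinj p ?_
  ext m
  have h3 := congrArg (coeff (m + Finsupp.single g0 1)) h2
  rw [mul_comm, coeff_mul_X, coeff_zero] at h3
  rw [h3, coeff_zero]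

/-- A generic linear combination of `y_g`, one of them `1`, is a non zero divisor. -/
private theorem FiA_gen {R S A : Type u} [CommRing R] [CommRing S] [Algebra R S] {Γ : Type} [Fintype Γ] [CommRing A]
    [Algebra (MvPolynomial Γ R) A] [Algebra R A] [IsScalarTower R (MvPolynomial Γ R) A]
    [Module.Flat (MvPolynomial Γ R) A] (y : Γ → S) {g0 : Γ} (hy : y g0 = 1) (x : A ⊗[R] S)
    (hx : (∑ g, algebraMap (MvPolynomial Γ R) A (X g) ⊗ₜ[R] y g) * x = 0) : x = 0 := by
  classical
  let e1 : (MvPolynomial Γ R) ⊗[R] S ≃ₐ[R] MvPolynomial Γ S :=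
    (Algebra.TensorProduct.comm R (MvPolynomial Γ R) S).trans ((MvPolynomial.algebraTensorAlgEquiv R S).restrictScalars R)
  let f0 : (MvPolynomial Γ R) ⊗[R] S := ∑ g, X g ⊗ₜ[R] y g
  have h2 : e1 f0 = ∑ g, C (y g) * X g := by
    rw [map_sum]
    refine Finset.sum_congr rfl fun g _ => ?_
    have h3 : e1 (X g ⊗ₜ[R] y g) = MvPolynomial.algebraTensorAlgEquiv R S (y g ⊗ₜ[R] X g) := rfl
    rw [h3, MvPolynomial.algebraTensorAlgEquiv_tmul, map_X, MvPolynomial.smul_eq_C_mul]
  have hf0 : Function.Injective (LinearMap.mulLeft (MvPolynomial Γ R) f0) := by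
    rw [injective_iff_map_eq_zero]
    intro z hz
    rw [LinearMap.mulLeft_apply] at hz
    have h3 := congrArg e1 hz
    rw [map_mul, h2, map_zero] at h3
    exact (map_eq_zero_iff _ e1.injective).1 (FiA_lin y hy h3)
  let E := Algebra.TensorProduct.cancelBaseChange R (MvPolynomial Γ R) (MvPolynomial Γ R) A S
  have hinj := Module.Flat.lTensor_preserves_injective_linearMap (M := A)
    (LinearMap.mulLeft (MvPolynomial Γ R) f0) hf0
  have hE : E (1 ⊗ₜ f0) = ∑ g, algebraMap (MvPolynomial Γ R) A (X g) ⊗ₜ[R] y g := by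
    rw [tmul_sum, map_sum]
    refine Finset.sum_congr rfl fun g _ => ?_
    rw [Algebra.TensorProduct.cancelBaseChange_tmul, Algebra.smul_def, mul_one]
  have h7 : E.symm x = 0 := by
    apply hinj
    rw [map_zero]
    refine (FiA_mul f0 (E.symm x)).trans ?_
    apply E.injective
    rw [map_mul, hE, AlgEquiv.apply_symm_apply, hx, map_zero]
  rw [← E.apply_symm_apply x, h7, map_zero]

section FiA

variable {R : Type u} [CommRing R] {n : ℕ} {I : Ideal (MvPolynomial (Fin n) R)} {A : Type u} [CommRing A]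
  [Algebra (Ra R n 1) A] [Algebra R A] [IsScalarTower R (Ra R n 1) A] [Module.Flat (Ra R n 1) A]

private theorem FiA_f (hI : IsHomog I) {C : Finset (Fin n)} {j : Fin n} (hj : j ∈ C) :
    dh (bI (algebraMap R A) I) C hj (frm fun g : Mon n 1 => algebraMap (Ra R n 1) A (X g)) ∈
      nonZeroDivisors (chart (bI (algebraMap R A) I) C) := by
  have hne : C.Nonempty := ⟨j, hj⟩
  rw [mem_nonZeroDivisors_iff_right]
  intro z hz
  obtain ⟨x, rfl⟩ := (bce (B := A) hI hne).surjective z
  have h1 : dh (bI (algebraMap R A) I) C hj (frm fun g : Mon n 1 => algebraMap (Ra R n 1) A (X g)) =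
      bce (B := A) hI hne (∑ g : Mon n 1, algebraMap (Ra R n 1) A (X g) ⊗ₜ[R] dh I C hj (monomial g.1 1)) := by
    unfold frm
    unfold dh
    rw [map_sum, map_sum]
    refine Finset.sum_congr rfl fun g _ => ?_
    rw [bce_tmul, aeval_monomial, aeval_monomial, map_one, one_mul]
    refine congrArg _ ?_
    refine Eq.trans ?_ (map_prod (cmA (B := A) I C) _ _).symm
    refine Finset.prod_congr rfl fun i _ => ?_
    refine Eq.trans ?_ (map_pow (cmA (B := A) I C) _ _).symm
    rw [cmA_cq]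
  rw [h1, ← map_mul, mul_comm] at hz
  have h2 := (map_eq_zero_iff _ (bce (B := A) hI hne).injective).1 hz
  have h4 : x = 0 := by
    refine FiA_gen (fun g : Mon n 1 => dh I C hj (monomial g.1 1)) (g0 := mon0 1 j) ?_ x h2
    have h5 : (monomial (mon0 1 j).1 (1 : R)) = X j ^ 1 := by
      rw [X_pow_eq_monomial]
      rfl
    have h6 : dh I C hj (X j ^ 1) = 1 := by
      unfold dh
      rw [map_pow, aeval_X, cq_self, one_pow]
    simp only [h5, h6]
  rw [h4, map_zero]

private theorem FiA_zeta (hI : IsHomog I) {C : Finset (Fin (n + 1))} (hC : Fin.last n ∉ C) {j : Fin (n + 1)}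
    (hj : j ∈ C) : cq (cyc (bI (algebraMap R A) I) (frm fun g : Mon n 1 => algebraMap (Ra R n 1) A (X g)) 1) C
      (Fin.last n) hj ∈ nonZeroDivisors
        (chart (cyc (bI (algebraMap R A) I) (frm fun g : Mon n 1 => algebraMap (Ra R n 1) A (X g)) 1) C) := by
  obtain ⟨C', rfl⟩ := exists_cs hC
  obtain ⟨j', hj', rfl⟩ := Finset.mem_map.1 hj
  obtain ⟨F, hF⟩ : ∃ F : MvPolynomial (Fin n) A, F = frm fun g : Mon n 1 => algebraMap (Ra R n 1) A (X g) := ⟨_, rfl⟩
  have hFh : F.IsHomogeneous 1 := by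
    rw [hF]
    exact frm_hom _
  have hf := FiA_f (A := A) hI hj'
  rw [← hF] at hf ⊢
  obtain ⟨Ψ, -, h1⟩ := exists_adj (F := F) (e := 1) (hI.map (algebraMap R A)) hFh C' hj'
  have h4 : (AdjoinRoot.root (Polynomial.X ^ 1 - Polynomial.C (dh (bI (algebraMap R A) I) C' hj' F))) =
      AdjoinRoot.of _ (dh (bI (algebraMap R A) I) C' hj' F) := by
    have h5 := AdjoinRoot.eval₂_root (Polynomial.X ^ 1 - Polynomial.C (dh (bI (algebraMap R A) I) C' hj' F))
    rw [Polynomial.eval₂_sub, Polynomial.eval₂_pow, Polynomial.eval₂_X, Polynomial.eval₂_C] at h5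
    exact (pow_one _).symm.trans (sub_eq_zero.1 h5)
  have hmon : (Polynomial.X ^ 1 - Polynomial.C (dh (bI (algebraMap R A) I) C' hj' F) :
      Polynomial (chart (bI (algebraMap R A) I) C')).Monic :=
    Polynomial.monic_X_pow_sub_C _ one_ne_zero
  have hfree := hmon.free_adjoinRoot
  have hreg : IsSMulRegular (AdE (chart (bI (algebraMap R A) I) C') (dh (bI (algebraMap R A) I) C' hj' F) 1)
      (dh (bI (algebraMap R A) I) C' hj' F) := Module.Flat.isSMulRegular_of_nonZeroDivisors hf
  rw [mem_nonZeroDivisors_iff_right]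
  intro z hz
  obtain ⟨x, rfl⟩ := Ψ.surjective z
  have h2 : cq (cyc (bI (algebraMap R A) I) F 1) (cs C') (Fin.last n) hj = Ψ (AdjoinRoot.root _) := h1.symm
  rw [h2, ← map_mul] at hz
  have h3 := (map_eq_zero_iff _ Ψ.injective).1 hz
  have h6 : x = 0 := by
    apply hreg
    refine Eq.trans ?_ (smul_zero _).symm
    refine (Algebra.smul_def _ _).trans ?_
    have h7 : algebraMap _ (AdE (chart (bI (algebraMap R A) I) C') (dh (bI (algebraMap R A) I) C' hj' F) 1)
      (dh (bI (algebraMap R A) I) C' hj' F) = AdjoinRoot.of _ (dh (bI (algebraMap R A) I) C' hj' F) := rfl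
    rw [h7, ← h4, mul_comm]
    exact h3
  rw [h6, map_zero]

end FiA

theorem gd_gen {R : Type u} [CommRing R] {n : ℕ} {I : Ideal (MvPolynomial (Fin n) R)} (hI : IsHomog I)
    (M : Submonoid (Ra R n 1)) (A : Type u) [CommRing A] [Algebra (Ra R n 1) A] [IsLocalization M A]
    {Q P : Ideal (MvPolynomial (Fin (n + 1)) A)} (hQ : Q = bI (algebraMap (Ra R n 1) A) (cycG I 1)) (hP : P = hyp Q)
    (hs : IsSmoothProj Q) : Gd Q P := by
  let _ : Algebra R A := ((algebraMap (Ra R n 1) A).comp C).toAlgebra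
  have _ : IsScalarTower R (Ra R n 1) A := IsScalarTower.of_algebraMap_eq fun _ => rfl
  have _ : Module.Flat (Ra R n 1) A := IsLocalization.flat A M
  have hQ' : Q = cyc (bI (algebraMap R A) I) (frm fun g : Mon n 1 => algebraMap (Ra R n 1) A (X g)) 1 := by
    rw [hQ, bI_cycG]
    rfl
  refine ⟨hP, ?_, hs, fun C j hj hC => ?_⟩
  · rw [hQ]
    exact (isHomog_cycG hI).map _
  · subst hQ'
    exact FiA_zeta hI hC hj

end MPadcHS
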