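import Pool.Agent.Lib.MP_adc574_ag_HS.GyA
import Pool.Agent.Lib.MP_adc574_ag_DC.POpp

/-!
# JOB FiB (HS, Part P): from `Y` over `K = Frac (A / 𝔓)` to the hyperplane section over `K`

Copy `opp_cyc` of DC/POpp.lean (complete proof there) with `e = 1` and small changes.
* `hyp_ideal`: `popp_ideal` and `bI_hyp` (GyA).
* `opp_hyp`: the variables `κ := AlgebraicClosure K`, `ψ`, `L := FractionRing (Ra κ n 1)`, `Φ` as there. Step 1: the same. Step 2: `NoBad` for the weight `0`, so `IsOppC (prC (bI Φ (cycG I₀ 1)))`: for `e = 1` every class has the weight `0`: `x ∈ (grP ..).HW m 0` for all `x`: `GrX.mem_HW`: `c ∈ Wt 0` since `∑ μ : ZMod 1, P μ c = c` (`GrX.sum_P`) and `ZMod 1` has one element; so from `hW0 m i x hx1 hx2 _` we get `x = 0`. (`¬ p ∣ 1` is `Nat.Prime.not_dvd_one`.) No `DatW`, no step 3.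
  Then `hbig κ L` (rewrite `ψ`, `jL` as in the proof of `hWμ`) gives `IsOppC (prC (bI Φ (hyp (cycG I₀ 1))))`.
  Steps 4 and 5: the same with `hyp (cycG I₀ 1)` instead of `cycG I₀ e` (`isHomog_hyp`, GyA), `HasDat (hyp (cycG I₀ 1)) g`. At the end `hyp_ideal`.
  (`hdQ` is used for the smoothness of `bI Φ (cycG I₀ 1)` in step 2.)
-/

set_option autoImplicit false

namespace MPadcHS

open MvPolynomial MPadcGP MPadcDC

universe u v w

theorem hyp_ideal {R₀ A : Type u} [CommRing R₀] [CommRing A] (ι : R₀ →+* A) {n : ℕ}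
    (I₀ : Ideal (MvPolynomial (Fin n) R₀)) (a : Mon n 1 → A) {K : Type u} [CommRing K] (φ : A →+* K) :
    bI (φ.comp (eval₂Hom ι a)) (hyp (cycG I₀ 1)) = bI φ (hyp (cyc (bI ι I₀) (frm a) 1)) := by
  rw [bI_hyp, bI_hyp, popp_ideal]

theorem opp_hyp {R₀ A : Type u} [CommRing R₀] [IsDomain R₀] [CharZero R₀] [Algebra.FiniteType ℤ R₀] [CommRing A]
    [IsDomain A] [CharZero A] [Algebra.FiniteType ℤ A] (ι : R₀ →+* A) {n : ℕ}
    {I₀ : Ideal (MvPolynomial (Fin n) R₀)} (hI₀ : IsHomog I₀) (a : Mon n 1 → A) {p : ℕ} [Fact p.Prime]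
    {c : A} (hc : c ≠ 0) (hdY : HasDat (bI ι I₀) c)
    {g : Ra R₀ n 1} (hg : g ≠ 0) (hdQ : HasDat (cycG I₀ 1) g) (hdP : HasDat (hyp (cycG I₀ 1)) g)
    {K : Type u} [Field K] [CharP K p] (φ : A →+* K) {Λ : Type} [Fintype Λ] {bb : Λ → K} (hbb : PBas p bb)
    (hcφ : φ c ≠ 0) (hgφ : φ (eval₂Hom ι a g) ≠ 0)
    (hind : ∀ P : Ra R₀ n 1, φ (eval₂Hom ι a P) = 0 → ∀ m, φ (ι (P.coeff m)) = 0)
    (hbig : ∀ (κ : Type u) [Field κ] [IsAlgClosed κ] [Algebra K κ] (L : Type u) [Field L] [Algebra (Ra κ n 1) L]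
      [IsFractionRing (Ra κ n 1) L],
      IsOppC (prC (bI ((algebraMap (Ra κ n 1) L).comp
        (MvPolynomial.map ((algebraMap K κ).comp (φ.comp ι)))) (cycG I₀ 1))) →
      IsOppC (prC (bI ((algebraMap (Ra κ n 1) L).comp
        (MvPolynomial.map ((algebraMap K κ).comp (φ.comp ι)))) (hyp (cycG I₀ 1)))))
    (hopp : IsOppC (prC (bI φ (bI ι I₀)))) :
    IsOppC (prC (bI φ (hyp (cyc (bI ι I₀) (frm a) 1)))) := by
  classical
  obtain ⟨hsY, βY, iY1, iY2, levY, zY, hhY, hDY⟩ := hdY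
  obtain ⟨hsX, βX, iX1, iX2, levX, zX, hhX, hDX⟩ := hdQ
  obtain ⟨hsP, βP, iP1, iP2, levP, zP, hhP, hDP⟩ := hdP
  have hft := finiteType_Ra (R₀ := R₀) n 1
  have hcκ : CharP (AlgebraicClosure K) p :=
    charP_of_injective_algebraMap (algebraMap K (AlgebraicClosure K)).injective p
  obtain ⟨ψ, hψ⟩ : ∃ ψ : R₀ →+* AlgebraicClosure K, ψ = (algebraMap K (AlgebraicClosure K)).comp (φ.comp ι) := ⟨_, rfl⟩
  have hcL : CharP (FractionRing (Ra (AlgebraicClosure K) n 1)) p :=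
    charP_ratfun (κ := AlgebraicClosure K) (σ := Mon n 1) p _
  obtain ⟨ΛL, iΛL, bbL, hbbL⟩ := exists_pbas_ratfun (κ := AlgebraicClosure K) (σ := Mon n 1) (p := p)
    (FractionRing (Ra (AlgebraicClosure K) n 1))
  obtain ⟨jL, hjL⟩ : ∃ jL : Ra (AlgebraicClosure K) n 1 →+* FractionRing (Ra (AlgebraicClosure K) n 1),
    jL = algebraMap _ _ := ⟨_, rfl⟩
  have hjLi : Function.Injective jL := hjL ▸ IsFractionRing.injective _ _
  obtain ⟨Φ, hΦ⟩ : ∃ Φ : Ra R₀ n 1 →+* FractionRing (Ra (AlgebraicClosure K) n 1),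
    Φ = jL.comp (MvPolynomial.map ψ) := ⟨_, rfl⟩
  have hker : ∀ P, Φ P = 0 ↔ φ (eval₂Hom ι a P) = 0 := fun P => by
    rw [hΦ, hψ]
    exact popp_ker ι a φ hind (algebraMap K (AlgebraicClosure K)) (algebraMap K (AlgebraicClosure K)).injective jL hjLi P
  have hΦg : Φ g ≠ 0 := fun h => hgφ ((hker g).1 h)
  -- step 1
  obtain ⟨ρ, hρ⟩ : ∃ ρ : K →+* FractionRing (Ra (AlgebraicClosure K) n 1),
    ρ = jL.comp (C.comp (algebraMap K (AlgebraicClosure K))) := ⟨_, rfl⟩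
  have hρC : (ρ.comp φ).comp ι = Φ.comp C := RingHom.ext fun r => by
    rw [hρ, hΦ, hψ]
    simp only [RingHom.comp_apply, map_C]
  have hY := opp_up (hI₀.map ι) hc hsY hDY φ hbb hcφ ρ hbbL hopp
  have hsYL : IsSmoothProj (bI (ρ.comp φ) (bI ι I₀)) := IsSmoothProj.of_away (hI₀.map ι) hsY (ρ.comp φ)
    (IsUnit.mk0 _ (by rw [RingHom.comp_apply]; exact (map_ne_zero_iff ρ ρ.injective).2 hcφ))
  rw [bI_bI, hρC] at hY hsYL
  -- step 2
  have hsXL : IsSmoothProj (bI Φ (cycG I₀ 1)) := IsSmoothProj.of_away (isHomog_cycG hI₀) hsX Φ (IsUnit.mk0 _ hΦg)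
  have hXL : bI Φ (cycG I₀ 1) = cyc (bI (Φ.comp C) I₀) (frm fun g => Φ (X g)) 1 := bI_cycG Φ I₀
  have hpe : ¬ p ∣ 1 := (Fact.out : p.Prime).not_dvd_one
  have hW0 : ∀ m i, NoBad ((isHomog_cycG (e := 1) hI₀).map Φ) ((isWHomog_cycG (e := 1) hI₀).map Φ) m i 0 := by
    intro m i
    refine noBad_congr hXL.symm (isHomog_cyc (hI₀.map _) (isHomogeneous_frm _))
      (isWHomog_cyc (hI₀.map _) (isHomogeneous_frm _)) _ _ m i 0 ?_
    exact weight_zero hbbL hpe (hI₀.map _) (isHomogeneous_frm _) hsYL (hXL ▸ hsXL) hY m i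
  have hoppL : IsOppC (prC (bI Φ (cycG I₀ 1))) := by
    intro m i
    rw [eq_bot_iff]
    intro x hx
    rw [Submodule.mem_bot]
    refine hW0 m i x hx.1 hx.2 ?_
    rw [GrX.mem_HW]
    obtain ⟨c', hc'⟩ := (prC (bI Φ (cycG I₀ 1))).cl_surjective m x
    refine ⟨c', ?_, hc'⟩
    have h1 := (grP ((isHomog_cycG (e := 1) hI₀).map Φ) ((isWHomog_cycG (e := 1) hI₀).map Φ)).sum_P (c' : _)
    have h2 : ∀ μ : ZMod 1, μ = 0 := fun μ => Subsingleton.elim _ _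
    rw [Fintype.sum_subsingleton _ (0 : ZMod 1)] at h1
    rw [← h1]
    exact GrX.P_mem _ _ _
  have hoppP : IsOppC (prC (bI Φ (hyp (cycG I₀ 1)))) := by
    have h1 := hbig (AlgebraicClosure K) (FractionRing (Ra (AlgebraicClosure K) n 1))
    rw [← hψ, ← hjL] at h1
    have h2 : Φ = jL.comp (MvPolynomial.map ψ) := hΦ
    subst h2
    exact h1 hoppL
  -- step 4
  obtain ⟨q, hq⟩ : ∃ q : Ideal (Ra R₀ n 1), q = RingHom.ker Φ := ⟨_, rfl⟩
  have hqp : q.IsPrime := hq ▸ RingHom.ker_isPrime Φ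
  have hq' : RingHom.ker (φ.comp (eval₂Hom ι a)) = q := by
    rw [hq]
    ext P
    rw [RingHom.mem_ker, RingHom.mem_ker, hker]
    rfl
  obtain ⟨ρL, hρL⟩ := exists_hom_frac q Φ hq.symm
  obtain ⟨ρK, hρK⟩ := exists_hom_frac q (φ.comp (eval₂Hom ι a)) hq'
  have hkerE := frac_ker q
  have hfrE := frac_surj q
  generalize (algebraMap (Ra R₀ n 1 ⧸ q) (FractionRing (Ra R₀ n 1 ⧸ q))).comp (Ideal.Quotient.mk q) = φE at *
  have hhom : IsHomog (hyp (cycG I₀ 1)) := isHomog_hyp (isHomog_cycG hI₀)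
  have hoppE : IsOppC (prC (bI φE (hyp (cycG I₀ 1)))) := by
    refine isOppC_of_ext (hhom.map φE) ρL ?_
    rw [bI_bI, hρL]
    exact hoppP
  -- step 5
  have hcE : CharP (FractionRing (Ra R₀ n 1 ⧸ q)) p := by
    refine charP_of_cast_zero (Fact.out : p.Prime) (ρL.injective ?_)
    rw [map_natCast, map_zero]
    exact CharP.cast_eq_zero _ p
  obtain ⟨ΛE, iΛE, bbE, hbbE⟩ := exists_pbas_of_gen (p := p) φE hfrE
  have hgE : φE g ≠ 0 := by
    intro h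
    apply hΦg
    rw [← hρL, RingHom.comp_apply, h, map_zero]
  have hfin := opp_up hhom hg hsP hDP φE hbbE hgE ρK hbb hoppE
  rw [hρK, hyp_ideal] at hfin
  exact hfin

end MPadcHS
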