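import Pool.Agent.Lib.MP_adc574_ag_HS.UlD

/-!
# JOB UlE (HS, Part P): the generic hyperplane section is opposite for large `p`

* `akn_large`: `akn_spread` (SpD) with `j₀` as in the proof of `hyp_large_one` (UlD), `r` from `phi_ne`, `gd_at`.
* `hyp_large_loc`: `p₀ := N r + ∑_{i < i₀} p₀ i + 1`, `r` from `akn_large`, `p₀ i` from `hyp_large_one`, `i₀` larger than all levels `lev' d b`. Let `φ`, `hopp`: `m ≠ d`: `opp_off` (UlA), with `Dgn` from `dgn_of` (SpA; `p`-basis `exists_pbas_ratfun`, `charP_ratfun`, DC/PPB.lean), `gd_at`, `akn_large`. `m = d`: `i < i₀`: `hyp_large_one`; `i₀ ≤ i`: `Fil d (i + 1) = ⊥` (`IsAd.eqv_mem_Fil` for `hDP.ad L φ`, `eqv` surjective).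
* `hyp_large`: `exists_hasDat` (GP/Fin3.lean) for `I₀ := cycG I₀ 1`, `I := hyp (cycG I₀ 1)` over the domain `Ra R₀ n 1` (`finiteType_Ra` DC/PWgA.lean; `isHomog_cycG`, `isHomog_hyp`): `g ≠ 0` and data over `B := Localization.Away g` (`away_isDomain`, `away_finiteType'`, `away_charZero`, GP/Fin3a.lean); `bI (algebraMap _ B) (hyp (cycG I₀ 1)) = hyp (bI (algebraMap _ B) (cycG I₀ 1))` (`bI_hyp`, GyA): to use `hyp_large_loc` with `P := bI (algebraMap _ B) (hyp (cycG I₀ 1))`. `p > N r` (`r` a nonzero coefficient of `g`) gives `φ` by `exists_phi`; the homomorphism `(algebraMap (Ra κ n 1) L).comp (map ψ)` is `φ ∘ algebraMap`, so `bI _ (cycG I₀ 1) = bI φ (bI (algebraMap _ B) (cycG I₀ 1))` (`bI_bI`, `RingHom.ext`), and the same for `hyp (cycG I₀ 1)`.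
-/

set_option autoImplicit false

namespace MPadcHS

open MvPolynomial MPadcGP MPadcDC MPadcGM

universe u v w

theorem akn_large {R₀ : Type u} [CommRing R₀] [IsDomain R₀] [CharZero R₀] {n : ℕ}
    {I₀ : Ideal (MvPolynomial (Fin n) R₀)} (hI₀ : IsHomog I₀) (d : ℕ)
    (hakn : ∀ (κ₀ : Type u) [Field κ₀] [IsAlgClosed κ₀] [CharZero κ₀] (ψ₀ : R₀ →+* κ₀), Function.Injective ψ₀ →
      ∀ (K : Type u) [Field K] [Algebra (Ra κ₀ n 1) K] [IsFractionRing (Ra κ₀ n 1) K]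
        (Q P : Ideal (MvPolynomial (Fin (n + 1)) K)) (hle : Q ≤ P),
        Q = bI (algebraMap (Ra κ₀ n 1) K) (cycG (bI ψ₀ I₀) 1) → P = hyp Q → Akn hle d)
    (g : Ra R₀ n 1) (hg : g ≠ 0) (B : Type u) [CommRing B] [IsDomain B]
    [Algebra (Ra R₀ n 1) B] [IsLocalization.Away g B] {Q P : Ideal (MvPolynomial (Fin (n + 1)) B)}
    (hQ : Q = bI (algebraMap (Ra R₀ n 1) B) (cycG I₀ 1)) (hP : P = hyp Q) (hle : Q ≤ P)
    (hsQ : IsSmoothProj Q) {β : ℕ → Type} [∀ m, Fintype (β m)]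
    {lev : ∀ m, β m → ℕ} {z : ∀ m, β m → (prC Q).Ch} {h : ℕ → ℕ → ℕ} (hDQ : Dat Q lev z h)
    {β' : ℕ → Type} [∀ m, Fintype (β' m)] {lev' : ∀ m, β' m → ℕ}
    {z' : ∀ m, β' m → (prC P).Ch} {h' : ℕ → ℕ → ℕ} (hDP : Dat P lev' z' h') :
    ∃ r : R₀, r ≠ 0 ∧ ∀ (κ : Type u) [Field κ] (ψ : R₀ →+* κ) (L : Type u) [Field L] [Algebra (Ra κ n 1) L]
      [IsFractionRing (Ra κ n 1) L] (φ : B →+* L),
      (∀ x, φ (algebraMap (Ra R₀ n 1) B x) = algebraMap (Ra κ n 1) L (MvPolynomial.map ψ x)) → ψ r ≠ 0 →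
      Akn (le_map φ hle) d := by
  have hG : Gd Q P := gd_gen hI₀ (Submonoid.powers g) B hQ hP hsQ
  obtain ⟨ψ₀, hψ₀⟩ : ∃ ψ₀ : R₀ →+* AlgebraicClosure (FractionRing R₀), Function.Injective ψ₀ :=
    ⟨(algebraMap (FractionRing R₀) (AlgebraicClosure (FractionRing R₀))).comp (algebraMap R₀ (FractionRing R₀)),
      (algebraMap (FractionRing R₀) (AlgebraicClosure (FractionRing R₀))).injective.comp
        (IsFractionRing.injective R₀ (FractionRing R₀))⟩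
  have hcz : CharZero (AlgebraicClosure (FractionRing R₀)) := charZero_of_injective_ringHom hψ₀
  have hg' : (MvPolynomial.map ψ₀ g : Ra (AlgebraicClosure (FractionRing R₀)) n 1) ≠ 0 :=
    fun h => hg (MvPolynomial.map_injective _ hψ₀ (h.trans (map_zero _).symm))
  obtain ⟨j₀, hj₀, -⟩ := exists_phi ψ₀ g hg' B (FractionRing (Ra (AlgebraicClosure (FractionRing R₀)) n 1))
  have hinj : Function.Injective j₀ := by
    rw [injective_iff_map_eq_zero]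
    intro b hb
    by_contra hb0
    obtain ⟨r, hr, hr'⟩ := phi_ne g hg B b hb0
    exact hr' _ ψ₀ _ j₀ hj₀ (fun h => hr (hψ₀ (h.trans (map_zero _).symm))) hb
  obtain ⟨hQ₀, hP₀, hGd₀⟩ := gd_at hI₀ B hQ hP hsQ _ ψ₀ _ j₀ hj₀
  obtain ⟨g₁, hg₁, hg₁'⟩ := akn_spread hG hle hDQ hDP d j₀ hinj hGd₀
    (hakn _ ψ₀ hψ₀ _ _ _ (le_map j₀ hle) hQ₀ hP₀)
  obtain ⟨r, hr, hr'⟩ := phi_ne g hg B g₁ hg₁
  exact ⟨r, hr, fun κ _ ψ L _ _ _ φ hφ hψr =>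
    hg₁' L φ (hr' κ ψ L φ hφ hψr) (gd_at hI₀ B hQ hP hsQ κ ψ L φ hφ).2.2⟩

theorem hyp_large_loc {R₀ : Type u} [CommRing R₀] [IsDomain R₀] [CharZero R₀] {n : ℕ}
    {I₀ : Ideal (MvPolynomial (Fin n) R₀)} (hI₀ : IsHomog I₀) (d : ℕ)
    (hkey : ∀ (κ₀ : Type u) [Field κ₀] [IsAlgClosed κ₀] [CharZero κ₀] (ψ₀ : R₀ →+* κ₀), Function.Injective ψ₀ →
      KeyPosH (bI ψ₀ I₀) d)
    (hakn : ∀ (κ₀ : Type u) [Field κ₀] [IsAlgClosed κ₀] [CharZero κ₀] (ψ₀ : R₀ →+* κ₀), Function.Injective ψ₀ →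
      ∀ (K : Type u) [Field K] [Algebra (Ra κ₀ n 1) K] [IsFractionRing (Ra κ₀ n 1) K]
        (Q P : Ideal (MvPolynomial (Fin (n + 1)) K)) (hle : Q ≤ P),
        Q = bI (algebraMap (Ra κ₀ n 1) K) (cycG (bI ψ₀ I₀) 1) → P = hyp Q → Akn hle d)
    (g : Ra R₀ n 1) (hg : g ≠ 0) (B : Type u) [CommRing B] [IsDomain B] [CharZero B] [Algebra.FiniteType ℤ B]
    [Algebra (Ra R₀ n 1) B] [IsLocalization.Away g B] {Q P : Ideal (MvPolynomial (Fin (n + 1)) B)}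
    (hQ : Q = bI (algebraMap (Ra R₀ n 1) B) (cycG I₀ 1)) (hP : P = hyp Q) (hle : Q ≤ P)
    (hsQ : IsSmoothProj Q) (hsP : IsSmoothProj P) {β : ℕ → Type} [∀ m, Fintype (β m)] [∀ m, DecidableEq (β m)]
    {lev : ∀ m, β m → ℕ} {z : ∀ m, β m → (prC Q).Ch} {h : ℕ → ℕ → ℕ} (hDQ : Dat Q lev z h)
    {β' : ℕ → Type} [∀ m, Fintype (β' m)] [∀ m, DecidableEq (β' m)] {lev' : ∀ m, β' m → ℕ}
    {z' : ∀ m, β' m → (prC P).Ch} {h' : ℕ → ℕ → ℕ} (hDP : Dat P lev' z' h') (N : R₀ → ℕ) :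
    ∃ p₀ : ℕ, ∀ p : ℕ, p₀ ≤ p → p.Prime → ∀ (κ : Type u) [Field κ] [IsAlgClosed κ] [CharP κ p]
      (ψ : R₀ →+* κ), (∀ r : R₀, r ≠ 0 → N r < p → ψ r ≠ 0) → ∀ (L : Type u) [Field L] [Algebra (Ra κ n 1) L]
      [IsFractionRing (Ra κ n 1) L] (φ : B →+* L),
      (∀ x, φ (algebraMap (Ra R₀ n 1) B x) = algebraMap (Ra κ n 1) L (MvPolynomial.map ψ x)) →
      IsOppC (prC (bI φ Q)) → IsOppC (prC (bI φ P)) := by
  classical
  have hG : Gd Q P := gd_gen hI₀ (Submonoid.powers g) B hQ hP hsQ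
  have hhQ : IsHomog Q := hG.hom
  have hhP : IsHomog P := hP ▸ isHomog_hyp hhQ
  obtain ⟨r, hr, hr'⟩ := akn_large hI₀ d hakn g hg B hQ hP hle hsQ hDQ hDP
  choose p₀ hp₀ using fun i => hyp_large_one hI₀ d hkey hakn g hg B hQ hP hle hsQ hsP hDQ hDP N i
  obtain ⟨i₀, hi₀⟩ : ∃ i₀ : ℕ, ∀ b : β' d, lev' d b < i₀ := by
    refine ⟨∑ b : β' d, (lev' d b + 1), fun b => ?_⟩
    have h1 : lev' d b + 1 ≤ ∑ b : β' d, (lev' d b + 1) :=
      Finset.single_le_sum (f := fun b : β' d => lev' d b + 1) (fun _ _ => Nat.zero_le _) (Finset.mem_univ b)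
    omega
  refine ⟨N r + ∑ i ∈ Finset.range i₀, p₀ i + 1, fun p hp hpr κ _ _ _ ψ hψ L _ _ _ φ hφ hopp m i => ?_⟩
  by_cases hm : m = d
  · subst hm
    by_cases hi : i < i₀
    · refine hp₀ i p (le_trans ?_ hp) hpr κ ψ hψ L φ hφ hopp
      have h1 : p₀ i ≤ ∑ i ∈ Finset.range i₀, p₀ i :=
        Finset.single_le_sum (f := fun i => p₀ i) (fun _ _ => Nat.zero_le _) (Finset.mem_range.2 hi)
      omega
    · rw [Submodule.eq_bot_iff]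
      rintro x ⟨-, hx⟩
      obtain ⟨c, rfl⟩ := ((hDP.ad L φ).eqv m).surjective x
      have h2 := (hDP.ad L φ).eqv_mem_Fil.1 hx
      have h3 : c = 0 := funext fun b => h2 b (by have := hi₀ b; omega)
      rw [h3, map_zero]
  · have : Fact p.Prime := ⟨hpr⟩
    have : CharP L p := charP_ratfun (κ := κ) (σ := Mon n 1) p L
    obtain ⟨Λ, iΛ, b, hb⟩ := exists_pbas_ratfun (κ := κ) (σ := Mon n 1) (p := p) L
    have hGd := gd_at hI₀ B hQ hP hsQ κ ψ L φ hφ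
    exact opp_off hGd.2.2 (le_map φ hle) (dgn_of hhP hDP hsP φ hb) (dgn_of hhQ hDQ hsQ φ hb)
      (hr' κ ψ L φ hφ (hψ r hr (by omega))) hopp hm

theorem hyp_large {R₀ : Type u} [CommRing R₀] [IsDomain R₀] [CharZero R₀] [Algebra.FiniteType ℤ R₀] {n : ℕ}
    {I₀ : Ideal (MvPolynomial (Fin n) R₀)} (hI₀ : IsHomog I₀) (d : ℕ)
    (hkey : ∀ (κ₀ : Type u) [Field κ₀] [IsAlgClosed κ₀] [CharZero κ₀] (ψ₀ : R₀ →+* κ₀), Function.Injective ψ₀ →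
      KeyPosH (bI ψ₀ I₀) d)
    (hakn : ∀ (κ₀ : Type u) [Field κ₀] [IsAlgClosed κ₀] [CharZero κ₀] (ψ₀ : R₀ →+* κ₀), Function.Injective ψ₀ →
      ∀ (K : Type u) [Field K] [Algebra (Ra κ₀ n 1) K] [IsFractionRing (Ra κ₀ n 1) K]
        (Q P : Ideal (MvPolynomial (Fin (n + 1)) K)) (hle : Q ≤ P),
        Q = bI (algebraMap (Ra κ₀ n 1) K) (cycG (bI ψ₀ I₀) 1) → P = hyp Q → Akn hle d)
    {E : Type u} [Field E] (j : Ra R₀ n 1 →+* E) (hj : Function.Injective j) (hsQ : IsSmoothProj (bI j (cycG I₀ 1)))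
    (hsP : IsSmoothProj (bI j (hyp (cycG I₀ 1)))) (N : R₀ → ℕ) :
    ∃ p₀ : ℕ, ∀ p : ℕ, p₀ ≤ p → p.Prime → ∀ (κ : Type u) [Field κ] [IsAlgClosed κ] [CharP κ p]
      (ψ : R₀ →+* κ), (∀ r : R₀, r ≠ 0 → N r < p → ψ r ≠ 0) → ∀ (L : Type u) [Field L] [Algebra (Ra κ n 1) L]
      [IsFractionRing (Ra κ n 1) L],
      IsOppC (prC (bI ((algebraMap (Ra κ n 1) L).comp (MvPolynomial.map ψ)) (cycG I₀ 1))) →
      IsOppC (prC (bI ((algebraMap (Ra κ n 1) L).comp (MvPolynomial.map ψ)) (hyp (cycG I₀ 1)))) := by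
  classical
  have hft := finiteType_Ra (R₀ := R₀) n 1
  obtain ⟨g, hg, ⟨hsm, β, i1, i2, lev, z, h, hD⟩, ⟨hsm', β', i1', i2', lev', z', h', hD'⟩⟩ :=
    exists_hasDat (isHomog_cycG (e := 1) hI₀) (isHomog_hyp (isHomog_cycG (e := 1) hI₀)) j hj hsQ hsP
  have hd' : IsDomain (Localization.Away g) := away_isDomain hg
  have hft' := away_finiteType' g
  have hcz : CharZero (Localization.Away g) := away_charZero hg
  obtain ⟨γ₀, hγ₀⟩ : ∃ γ₀, MvPolynomial.coeff γ₀ g ≠ 0 := by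
    by_contra hne
    push Not at hne
    exact hg (MvPolynomial.ext _ _ fun m => by rw [hne m, MvPolynomial.coeff_zero])
  obtain ⟨r, hr⟩ : ∃ r, r = MvPolynomial.coeff γ₀ g := ⟨_, rfl⟩
  have hr0 : r ≠ 0 := hr ▸ hγ₀
  obtain ⟨p₀, hp₀⟩ := hyp_large_loc hI₀ d hkey hakn g hg (Localization.Away g) rfl (bI_hyp _)
    (le_map _ (le_hyp _)) hsm hsm' hD hD' N
  refine ⟨N r + 1 + p₀, fun p hp hpr κ _ _ _ ψ hψ L _ _ _ => ?_⟩
  have hmap : (MvPolynomial.map ψ g : Ra κ n 1) ≠ 0 := by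
    intro h
    have h1 := congrArg (MvPolynomial.coeff γ₀) h
    rw [coeff_map, MvPolynomial.coeff_zero, ← hr] at h1
    exact hψ r hr0 (by omega) h1
  obtain ⟨φ, hφ, -⟩ := exists_phi ψ g hmap (Localization.Away g) L
  have hideal : ∀ J : Ideal (MvPolynomial (Fin (n + 1)) (Ra R₀ n 1)),
      bI ((algebraMap (Ra κ n 1) L).comp (MvPolynomial.map ψ)) J =
        bI φ (bI (algebraMap (Ra R₀ n 1) (Localization.Away g)) J) := by
    intro J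
    rw [bI_bI]
    congr 1
    exact (RingHom.ext hφ).symm
  rw [hideal, hideal]
  exact hp₀ p (by omega) hpr κ ψ hψ L φ hφ

end MPadcHS
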