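import Pool.Agent.Lib.MP_adc574_ag_HS.FiB
import Pool.Agent.Lib.MP_adc574_ag_HS.UlE
import Pool.Agent.Lib.MP_adc574_ag_DC.PFin
import Pool.Agent.Lib.MP_adc574_ag_DC.PRed0
import Pool.Agent.Lib.MP_adc574_ag_DC.PMod

/-!
# JOB FiC (HS, Part P): the theorem at the generic points of `Spec (A / p)`, for all models

* `hyp_core`: copy `dc_core` of DC/PFin.lean: `c` from `exists_hasDat` for `bI ι I₀`, `g` from `exists_hasDat (isHomog_cycG hI₀) (isHomog_hyp (isHomog_cycG hI₀)) (j.comp (eval₂Hom ι a))` (smoothness by `popp_ideal`, `hyp_ideal`), `BA` from `exists_resB A`, `p₀` from `hyp_large` (UlE) with `N r := BA (ι r)`, `p₁` from `exists_indep`. Then `opp_hyp` (FiB).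
* `exists_modelH`: `exists_modelY` (DC/PMoA.lean) for the ideal `cyc (bI (algebraMap κ k) J) (frm a) 1` (homogeneous: `isHomog_cyc`, `isHomogeneous_frm`) gives `A₁ ≥ A` and a model `IX'`. `exists_model` (DC/PMod.lean) over `A₁` for `bI incl IY`, `IX'`: `A₂`, `R₀`, `I₀`, `ι`, `a'`. `bI (A₂ → k) (bI incl IX) = hyp (cyc (bI (κ → k) J) (frm a) 1) = bI (A₂ → k) (hyp (cyc (bI ι I₀) (frm a') 1))` (`bI_hyp`, `bI_bI`; as `hXk'` in DC/PRed1.lean). `exists_eq_model` gives `A' ≥ A₂` where the two ideals become equal; compose `ι`, `a'` with the inclusion (`bI_hyp`, `bI_cyc`, `bI_frm`, `bI_bI`; injectivity of `eval₂Hom`: composition with an injective map, `MvPolynomial.ringHom_ext`).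
* `oppRel_hyp'`: copy `oppRel_cyc'` of DC/PRed1.lean.
-/

set_option autoImplicit false

namespace MPadcHS

open MvPolynomial MPadcGP MPadcDC

universe u v w

/-- `Akn` for the generic hyperplane section over the rational function fields. -/
def AknG {κ : Type u} [Field κ] {n : ℕ} (J : Ideal (MvPolynomial (Fin n) κ)) (d : ℕ) : Prop :=
  ∀ (K : Type u) [Field K] [Algebra (Ra κ n 1) K] [IsFractionRing (Ra κ n 1) K]
    (Q P : Ideal (MvPolynomial (Fin (n + 1)) K)) (hle : Q ≤ P),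
    Q = bI (algebraMap (Ra κ n 1) K) (cycG J 1) → P = hyp Q → Akn hle d

theorem hyp_core {R₀ A : Type u} [CommRing R₀] [IsDomain R₀] [CharZero R₀] [Algebra.FiniteType ℤ R₀] [CommRing A]
    [IsDomain A] [CharZero A] [Algebra.FiniteType ℤ A] (ι : R₀ →+* A) (hι : Function.Injective ι) {n : ℕ}
    {I₀ : Ideal (MvPolynomial (Fin n) R₀)} (hI₀ : IsHomog I₀) (a : Mon n 1 → A)
    (ha : Function.Injective (eval₂Hom ι a)) {k : Type u} [Field k] (j : A →+* k) (hj : Function.Injective j)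
    (hsY : IsSmoothProj (bI j (bI ι I₀))) (hsQ : IsSmoothProj (bI j (cyc (bI ι I₀) (frm a) 1)))
    (hsX : IsSmoothProj (bI j (hyp (cyc (bI ι I₀) (frm a) 1)))) (d : ℕ)
    (hkey : ∀ (κ₀ : Type u) [Field κ₀] [IsAlgClosed κ₀] [CharZero κ₀] (ψ₀ : R₀ →+* κ₀), Function.Injective ψ₀ →
      KeyPosH (bI ψ₀ I₀) d ∧ AknG (bI ψ₀ I₀) d) :
    ∃ p₀ : ℕ, ∀ p : ℕ, p₀ ≤ p → p.Prime → ∀ 𝔓 ∈ (Ideal.span {(p : A)}).minimalPrimes,
      ∀ (K : Type u) [Field K] (φ : A →+* K), RingHom.ker φ = 𝔓 → (∀ x : K, ∃ a b : A, φ b ≠ 0 ∧ x = φ a / φ b) →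
        IsOppC (prC (bI φ (bI ι I₀))) → IsOppC (prC (bI φ (hyp (cyc (bI ι I₀) (frm a) 1)))) := by
  classical
  have hft := finiteType_Ra (R₀ := R₀) n 1
  have hinj : Function.Injective (j.comp (eval₂Hom ι a)) := hj.comp ha
  have hsQ' : IsSmoothProj (bI (j.comp (eval₂Hom ι a)) (cycG I₀ 1)) := by
    rw [popp_ideal]
    exact hsQ
  have hsX' : IsSmoothProj (bI (j.comp (eval₂Hom ι a)) (hyp (cycG I₀ 1))) := by
    rw [hyp_ideal]
    exact hsX
  have hhG : IsHomog (cycG I₀ 1) := isHomog_cycG hI₀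
  obtain ⟨c, hc, -, hdY⟩ := exists_hasDat (hI₀.map ι) (hI₀.map ι) j hj hsY hsY
  obtain ⟨g, hg, hdQ, hdX⟩ := exists_hasDat hhG (isHomog_hyp hhG) (j.comp (eval₂Hom ι a)) hinj hsQ' hsX'
  obtain ⟨BA, hBA⟩ := exists_resB A
  obtain ⟨p₀, hp₀⟩ := hyp_large hI₀ d (fun κ₀ _ _ _ ψ₀ h => (hkey κ₀ ψ₀ h).1)
    (fun κ₀ _ _ _ ψ₀ h => (hkey κ₀ ψ₀ h).2) (j.comp (eval₂Hom ι a)) hinj hsQ' hsX' (fun r => BA (ι r))
  obtain ⟨p₁, hp₁⟩ := exists_indep ι hι a ha
  refine ⟨p₀ + p₁ + BA 0 + BA c + BA (eval₂Hom ι a g) + 1, fun p hp hpr 𝔓 h𝔓 K _ φ hk hfr hopp => ?_⟩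
  have hfact : Fact p.Prime := ⟨hpr⟩
  obtain ⟨hcK, -, hne, Λ, iΛ, bb, hbb⟩ := hBA p hpr (by omega) 𝔓 h𝔓 K φ hk hfr
  refine opp_hyp ι hI₀ a hc hdY hg hdQ hdX φ hbb (hne c hc (by omega))
    (hne _ ((map_ne_zero_iff _ ha).2 hg) (by omega)) ?_ ?_ hopp
  · intro P hP m
    have h1 : eval₂Hom ι a P ∈ 𝔓 := by
      rw [← hk]
      exact hP
    have h2 := hp₁ p hpr (by omega) 𝔓 h𝔓 P h1 m
    rw [← hk] at h2
    exact h2
  · intro κ _ _ _ L _ _ _
    have hcκ : CharP κ p := charP_of_injective_algebraMap (algebraMap K κ).injective p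
    refine hp₀ p (by omega) hpr κ ((algebraMap K κ).comp (φ.comp ι)) (fun r hr hlt => ?_) L
    rw [RingHom.comp_apply, RingHom.comp_apply]
    exact (map_ne_zero_iff _ (algebraMap K κ).injective).2 (hne _ ((map_ne_zero_iff _ hι).2 hr) hlt)

theorem exists_modelH {k : Type u} [Field k] [CharZero k] (κ : Subfield k) {n : ℕ} {J : Ideal (MvPolynomial (Fin n) κ)}
    (hJ : IsHomog J) (a : Mon n 1 → k) (ha : AlgebraicIndependent κ a) (A : Subalgebra ℤ k) (hA : A.FG)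
    (IY : Ideal (MvPolynomial (Fin n) A)) (hYk : bI (algebraMap A k) IY = bI (algebraMap κ k) J)
    (IX : Ideal (MvPolynomial (Fin (n + 1)) A))
    (hXk : bI (algebraMap A k) IX = hyp (cyc (bI (algebraMap κ k) J) (frm a) 1)) :
    ∃ (A' : Subalgebra ℤ k) (hle : A ≤ A') (_ : A'.FG) (R₀ : Subalgebra ℤ κ) (_ : R₀.FG)
      (I₀ : Ideal (MvPolynomial (Fin n) R₀)) (_ : IsHomog I₀) (ι : R₀ →+* A') (a' : Mon n 1 → A'),
      (∀ r : R₀, (ι r : k) = ((r : κ) : k)) ∧ bI (algebraMap R₀ κ) I₀ = J ∧ (∀ g, (a' g : k) = a g) ∧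
      Function.Injective (eval₂Hom ι a') ∧
      bI (Subalgebra.inclusion hle).toRingHom IY = bI ι I₀ ∧
      bI (Subalgebra.inclusion hle).toRingHom IX = hyp (cyc (bI ι I₀) (frm a') 1) := by
  have hcyc : IsHomog (cyc (bI (algebraMap κ k) J) (frm a) 1) := isHomog_cyc (hJ.map _) (isHomogeneous_frm a)
  obtain ⟨A₁, hle₁, hA₁, IX', -, hX'k⟩ := exists_modelY hcyc A hA
  obtain ⟨A₂, hle₂, hA₂, R₀, hR₀, I₀, hI₀, ι, a', hι, hIJ, ha', hinj, hY, -⟩ :=
    exists_model κ hJ a ha A₁ hA₁ (bI (Subalgebra.inclusion hle₁).toRingHom IY) (by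
      rw [bI_bI]
      exact hYk) IX' hX'k
  have hcomp : (algebraMap A₂ k).comp ι = (algebraMap κ k).comp (algebraMap R₀ κ) := RingHom.ext fun r => hι r
  have hYk' : bI (algebraMap A₂ k) (bI ι I₀) = bI (algebraMap κ k) J := by
    rw [bI_bI, hcomp, ← bI_bI, hIJ]
  have hXk' : bI (algebraMap A₂ k) (hyp (cyc (bI ι I₀) (frm a') 1)) =
      hyp (cyc (bI (algebraMap κ k) J) (frm a) 1) := by
    rw [bI_hyp, bI_cyc, hYk', bI_frm]
    congr 3
    funext g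
    exact ha' g
  have hle₁₂ : A ≤ A₂ := hle₁.trans hle₂
  have hincl : (algebraMap A₂ k).comp (Subalgebra.inclusion hle₁₂).toRingHom = algebraMap A k := rfl
  obtain ⟨A₃, hle₃, hA₃, heq⟩ := exists_eq_model A₂ hA₂ (bI (Subalgebra.inclusion hle₁₂).toRingHom IX)
    (hyp (cyc (bI ι I₀) (frm a') 1)) (by rw [bI_bI, hincl, hXk, hXk'])
  have hle : A ≤ A₃ := hle₁₂.trans hle₃
  refine ⟨A₃, hle, hA₃, R₀, hR₀, I₀, hI₀, (Subalgebra.inclusion hle₃).toRingHom.comp ι,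
    fun g => Subalgebra.inclusion hle₃ (a' g), fun r => hι r, hIJ, fun g => ha' g, ?_, ?_, ?_⟩
  · have h1 : eval₂Hom ((Subalgebra.inclusion hle₃).toRingHom.comp ι) (fun g => Subalgebra.inclusion hle₃ (a' g)) =
        (Subalgebra.inclusion hle₃).toRingHom.comp (eval₂Hom ι a') := by
      refine MvPolynomial.ringHom_ext (fun r => ?_) fun g => ?_
      · rw [coe_eval₂Hom, eval₂_C, RingHom.comp_apply, RingHom.comp_apply, coe_eval₂Hom, eval₂_C]
      · rw [coe_eval₂Hom, eval₂_X, RingHom.comp_apply, coe_eval₂Hom, eval₂_X]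
        rfl
    rw [h1]
    exact (Subalgebra.inclusion_injective hle₃).comp hinj
  · have h1 : (Subalgebra.inclusion hle).toRingHom = ((Subalgebra.inclusion hle₃).toRingHom.comp
        (Subalgebra.inclusion hle₂).toRingHom).comp (Subalgebra.inclusion hle₁).toRingHom := rfl
    rw [h1, ← bI_bI, ← bI_bI, hY, bI_bI]
  · have h1 : (Subalgebra.inclusion hle).toRingHom = (Subalgebra.inclusion hle₃).toRingHom.comp
        (Subalgebra.inclusion hle₁₂).toRingHom := rfl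
    rw [h1, ← bI_bI, heq, bI_hyp, bI_cyc, bI_bI, bI_frm]
    rfl

theorem oppRel_hyp' {k : Type u} [Field k] [CharZero k] (κ : Subfield k) {n : ℕ}
    {J : Ideal (MvPolynomial (Fin n) κ)} (hJ : IsHomog J) (hsJ : IsSmoothProj J) (d : ℕ)
    (hkey : ∀ (R₀ : Subalgebra ℤ κ) (I₀ : Ideal (MvPolynomial (Fin n) R₀)), IsHomog I₀ → R₀.FG →
      bI (algebraMap R₀ κ) I₀ = J → ∀ (κ₀ : Type u) [Field κ₀] [IsAlgClosed κ₀] [CharZero κ₀] (ψ₀ : R₀ →+* κ₀),
      Function.Injective ψ₀ → KeyPosH (bI ψ₀ I₀) d ∧ AknG (bI ψ₀ I₀) d)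
    (a : Mon n 1 → k) (ha : AlgebraicIndependent κ a)
    (hsQ : IsSmoothProj (cyc (bI (algebraMap κ k) J) (frm a) 1))
    (hsX : IsSmoothProj (hyp (cyc (bI (algebraMap κ k) J) (frm a) 1))) :
    OppRel (bI (algebraMap κ k) J) (hyp (cyc (bI (algebraMap κ k) J) (frm a) 1)) 1 := by
  intro A hA IY IX hIY hIX hYk hXk
  have hfA := pred_ft hA
  have hcA := pred_cz A
  obtain ⟨A', hle, hA', R₀, hR₀, I₀, hI₀, ι, a', hιk, hIJ, ha'k, hinj, hYe, hXe⟩ :=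
    exists_modelH κ hJ a ha A hA IY hYk IX hXk
  have hfA' := pred_ft hA'
  have hcA' := pred_cz A'
  have hcκ : CharZero κ := charZero_of_injective_algebraMap (algebraMap κ k).injective |> fun h => by
    exact ⟨fun x y hxy => by
      have h1 := congrArg (algebraMap κ k) hxy
      rw [map_natCast, map_natCast] at h1
      exact Nat.cast_injective h1⟩
  have hfR := pred_ft (k := κ) hR₀
  have hcR := pred_cz (k := κ) R₀
  have hιi : Function.Injective ι := by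
    intro x y hxy
    have h1 : ((x : κ) : k) = ((y : κ) : k) := by rw [← hιk, ← hιk, hxy]
    exact Subtype.ext (Subtype.ext h1)
  have hcomp : (algebraMap A' k).comp ι = (algebraMap κ k).comp (algebraMap R₀ κ) := RingHom.ext fun r => hιk r
  have hYk' : bI (algebraMap A' k) (bI ι I₀) = bI (algebraMap κ k) J := by
    rw [bI_bI, hcomp, ← bI_bI, hIJ]
  have hQk' : bI (algebraMap A' k) (cyc (bI ι I₀) (frm a') 1) = cyc (bI (algebraMap κ k) J) (frm a) 1 := by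
    rw [bI_cyc, hYk', bI_frm]
    congr 2
    funext g
    exact ha'k g
  have hXk' : bI (algebraMap A' k) (hyp (cyc (bI ι I₀) (frm a') 1)) =
      hyp (cyc (bI (algebraMap κ k) J) (frm a) 1) := by
    rw [bI_hyp, hQk']
  have hsY : IsSmoothProj (bI (algebraMap κ k) J) := hsJ.map hJ _
  obtain ⟨p₁, h₁⟩ := exists_over A A' (Subalgebra.inclusion hle).toRingHom (Subalgebra.inclusion_injective hle)
  obtain ⟨p₂, h₂⟩ := opp_upd (Subalgebra.inclusion hle).toRingHom hIY (algebraMap A k) Subtype.val_injective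
    (hYk.symm ▸ hsY)
  obtain ⟨p₃, h₃⟩ := hyp_core ι hιi hI₀ a' hinj (algebraMap A' k) Subtype.val_injective (hYk'.symm ▸ hsY)
    (hQk'.symm ▸ hsQ) (hXk'.symm ▸ hsX) d fun κ₀ _ _ _ ψ₀ hψ₀ => hkey R₀ I₀ hI₀ hR₀ hIJ κ₀ ψ₀ hψ₀
  refine ⟨p₁ + p₂ + p₃ + 1, fun p hp hpr hpE 𝔓 h𝔓 hopp => ?_⟩
  obtain ⟨𝔓', h𝔓', hc⟩ := h₁ p hpr (by omega) 𝔓 h𝔓
  have hpr' : 𝔓'.IsPrime := h𝔓'.1.1
  have h4 := h₂ p hpr (by omega) 𝔓 h𝔓 𝔓' h𝔓' hc hopp
  rw [hYe] at h4
  rw [← hc]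
  refine opp_down _ hIX ?_
  rw [hXe]
  intro K _ φ hk hfr
  exact h₃ p (by omega) hpr 𝔓' h𝔓' K φ hk hfr (h4 K φ hk hfr)

end MPadcHS
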