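import Pool.Agent.Lib.MP_adc574_ag_HS.GyDefs

/-!
# JOB FiD (HS, Part P): the cover without the empty open set

`CIso X Y`: `X` is a cover with `n + 1` sets, the last one empty (`sub`), `Y` the cover with the other `n` sets; `e C : Y.R C → X.R (C.map castSuccEmb)` bijective for `C` nonempty.
`CIso.opp`: Define on cochains `T : Y.Ch → X.Ch`, `T c D := if h : D = (D').map castSuccEmb ∧ D'.Nonempty then mp (e D') (c D') else 0` (with `D' := D.preimage castSucc` or `Finset.univ.filter (fun l => l.castSucc ∈ D)`), i.e. for every `D` with `last ∉ D`, `D ≠ ∅` there is a unique `D'` with `D = D'.map castSuccEmb`. It is easier to work with the relation `R c c' := c ∅ = 0 ∧ c' ∅ = 0 ∧ ∀ C nonempty, c' (C.map castSuccEmb) = mp (e C) _ (c C)` (`c ∈ Y.Ch`, `c' ∈ X.Ch`); `c'` at the sets containing `last` is automatic (`X.E D` is a subsingleton: `Fm` over the zero ring).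
* `R` is the graph of a bijection between the cochains vanishing at `∅` (`mp (e C)` is bijective: its inverse is `mp` of the inverse ring homomorphism, `mp_comp`, `hom_ext'`); additive, `κ`-linear (`base`).
* `R c c'` implies `R (Dt c) (Dt c')`: `mp_dd`, `mp_inv`; `del`: `(C.map castSuccEmb).erase (castSucc j) = (C.erase j).map castSuccEmb`, `sg (castSucc j) (C.map ..) = sg j C` (the filter by `<` and `card_map`), `rs`: `comm`; for `C = {j}` the term `C.erase j = ∅` vanishes (`c ∅ = 0`).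
* `R c c'`: `c ∈ Tt m ↔ c' ∈ Tt m`, `Fi`, `Ni` (`Finset.card_map`, `mp_mem` and for the converse the inverse of `mp (e C)`), so `Zc`, `Bc`; hence classes: a linear bijection `HdR m` of `Y` and of `X` which maps `Con m i` onto `Con m i` and `Fil m i` onto `Fil m i`. So if `x ∈ Y.Con m i ⊓ Y.Fil m (i + 1)`: `x = cl c₁ = cl c₂`, `c₁ ∈ Ni`, `c₂ ∈ Fi`, `c₁ - c₂ ∈ Bc`; then `c₁' - c₂' ∈ Bc`, so `cl c₁' = cl c₂' ∈ Con ⊓ Fil = ⊥`, `c₁' ∈ X.Bc m`, so `c₁ ∈ Y.Bc m`, `x = 0`. (Only this is needed.)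
-/

set_option autoImplicit false

namespace MPadcHS

open MvPolynomial MPadcGP MPadcDC

universe u v w

/-- `Y` is the cover `X` without the last (empty) open set. -/
structure CIso {κ : Type u} [Field κ] {n : ℕ} (X : CovD.{u, v} κ (n + 1)) (Y : CovD.{u, w} κ n) where
  e : ∀ C : Finset (Fin n), C.Nonempty → (Y.R C →+* X.R (C.map Fin.castSuccEmb))
  bij : ∀ C (hC : C.Nonempty), Function.Bijective (e C hC)
  base : ∀ C (hC : C.Nonempty) (a : κ), e C hC (algebraMap κ _ a) = algebraMap κ _ a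
  comm : ∀ {C C' : Finset (Fin n)} (h : C ⊆ C') (hC : C.Nonempty) (hC' : C'.Nonempty) (x : Y.R C),
    e C' hC' (Y.ρ h x) = X.ρ (Finset.map_subset_map.2 h) (e C hC x)
  sub : ∀ C : Finset (Fin (n + 1)), Fin.last n ∈ C → Subsingleton (X.R C)

section

variable {κ : Type u} [Field κ] {n : ℕ} {X : CovD.{u, v} κ (n + 1)} {Y : CovD.{u, w} κ n}

private theorem FiD_cc (h : CIso X Y) (C : Finset (Fin n)) (hC : C.Nonempty) : CC κ κ (h.e C hC) :=
  fun a => ⟨a, h.base C hC a⟩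

/-- the map of forms -/
private noncomputable def FiD_e (h : CIso X Y) (C : Finset (Fin n)) (hC : C.Nonempty) :
    Y.E C →+* X.E (C.map Fin.castSuccEmb) := mp (h.e C hC) (FiD_cc h C hC)

/-- the inverse homomorphism -/
private theorem FiD_inv (h : CIso X Y) (C : Finset (Fin n)) (hC : C.Nonempty) :
    ∃ g : X.R (C.map Fin.castSuccEmb) →+* Y.R C, CC κ κ g ∧ g.comp (h.e C hC) = RingHom.id _ ∧
      (h.e C hC).comp g = RingHom.id _ := by
  obtain ⟨E, hE⟩ : ∃ E : Y.R C ≃+* X.R (C.map Fin.castSuccEmb), E = RingEquiv.ofBijective (h.e C hC) (h.bij C hC) :=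
    ⟨_, rfl⟩
  have h1 : ∀ x, E x = h.e C hC x := by
    intro x
    rw [hE]
    rfl
  refine ⟨E.symm.toRingHom, fun a => ⟨a, ?_⟩, RingHom.ext fun x => ?_, RingHom.ext fun x => ?_⟩
  · change E.symm (algebraMap κ _ a) = algebraMap κ _ a
    rw [RingEquiv.symm_apply_eq, h1, h.base]
  · change E.symm (h.e C hC x) = x
    rw [← h1, RingEquiv.symm_apply_apply]
  · change h.e C hC (E.symm x) = x
    rw [← h1, RingEquiv.apply_symm_apply]

private theorem FiD_finv (h : CIso X Y) (C : Finset (Fin n)) (hC : C.Nonempty) :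
    ∃ G : X.E (C.map Fin.castSuccEmb) →+* Y.E C, (∀ x, G (FiD_e h C hC x) = x) ∧ (∀ x, FiD_e h C hC (G x) = x) ∧
      ∀ q x, x ∈ Fd κ (X.R (C.map Fin.castSuccEmb)) q → G x ∈ Fd κ (Y.R C) q := by
  obtain ⟨g, hg, h1, h2⟩ := FiD_inv h C hC
  refine ⟨mp g hg, fun x => ?_, fun x => ?_, fun q x hx => mp_mem hg hx⟩
  · have h3 := mp_comp (FiD_cc h C hC) hg (CC.comp (FiD_cc h C hC) hg) x
    have h4 := mp_congr (CC.comp (FiD_cc h C hC) hg) CC.id h1 x
    exact h3.symm.trans (h4.trans (mp_id _ x))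
  · have h3 := mp_comp hg (FiD_cc h C hC) (CC.comp hg (FiD_cc h C hC)) x
    have h4 := mp_congr (CC.comp hg (FiD_cc h C hC)) CC.id h2 x
    exact h3.symm.trans (h4.trans (mp_id _ x))

private theorem FiD_inj (h : CIso X Y) {C : Finset (Fin n)} {hC : C.Nonempty} {x y : Y.E C}
    (hxy : FiD_e h C hC x = FiD_e h C hC y) : x = y := by
  obtain ⟨G, h1, -, -⟩ := FiD_finv h C hC
  rw [← h1 x, hxy, h1]

private theorem FiD_mem (h : CIso X Y) {C : Finset (Fin n)} {hC : C.Nonempty} {x : Y.E C} {q : ℕ} :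
    FiD_e h C hC x ∈ Fd κ (X.R (C.map Fin.castSuccEmb)) q ↔ x ∈ Fd κ (Y.R C) q := by
  obtain ⟨G, h1, -, h3⟩ := FiD_finv h C hC
  constructor
  · intro hx
    have h4 := h3 q _ hx
    rw [h1] at h4
    exact h4
  · intro hx
    exact mp_mem _ hx

private theorem FiD_rs (h : CIso X Y) {C C' : Finset (Fin n)} (hh : C ⊆ C') (hC : C.Nonempty) (hC' : C'.Nonempty)
    (x : Y.E C) : FiD_e h C' hC' (Y.rs hh x) = X.rs (Finset.map_subset_map.2 hh) (FiD_e h C hC x) := by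
  have h1 : (FiD_e h C' hC').comp (Y.rs hh) = (X.rs (Finset.map_subset_map.2 hh)).comp (FiD_e h C hC) := by
    refine hom_ext' (fun r => ?_) fun t => ?_
    · rw [RingHom.comp_apply, RingHom.comp_apply, CovD.rs_fz]
      have h2 : FiD_e h C' hC' (fz κ (Y.ρ hh r)) = fz κ (h.e C' hC' (Y.ρ hh r)) := mp_fz _ _
      have h3 : FiD_e h C hC (fz κ r) = fz κ (h.e C hC r) := mp_fz _ _
      rw [h2, h3, CovD.rs_fz, h.comm hh hC hC']
    · rw [RingHom.comp_apply, RingHom.comp_apply, CovD.rs_df]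
      have h2 : FiD_e h C' hC' (df κ (Y.ρ hh t)) = df κ (h.e C' hC' (Y.ρ hh t)) := mp_df _ _
      have h3 : FiD_e h C hC (df κ t) = df κ (h.e C hC t) := mp_df _ _
      rw [h2, h3, CovD.rs_df, h.comm hh hC hC']
  exact congrArg (fun f : Y.E C →+* X.E (C'.map Fin.castSuccEmb) => f x) h1

private theorem FiD_last (h : CIso X Y) {D : Finset (Fin (n + 1))} (hD : Fin.last n ∈ D) (x : X.E D) : x = 0 := by
  have h1 := h.sub D hD
  have h2 : (1 : X.E D) = 0 := by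
    have h3 : fz κ (1 : X.R D) = fz κ (0 : X.R D) := by rw [Subsingleton.elim (1 : X.R D) 0]
    rw [map_one, map_zero] at h3
    exact h3
  rw [← one_mul x, h2, zero_mul]

private theorem FiD_cases (D : Finset (Fin (n + 1))) : D = ∅ ∨ Fin.last n ∈ D ∨
    ∃ C : Finset (Fin n), C.Nonempty ∧ C.map Fin.castSuccEmb = D := by
  by_cases h1 : D = ∅
  · exact Or.inl h1
  · by_cases h2 : Fin.last n ∈ D
    · exact Or.inr (Or.inl h2)
    · refine Or.inr (Or.inr ⟨Finset.univ.filter fun l => Fin.castSucc l ∈ D, ?_⟩)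
      have h3 : (Finset.univ.filter fun l => Fin.castSucc l ∈ D).map Fin.castSuccEmb = D := by
        ext k
        rw [Finset.mem_map]
        constructor
        · rintro ⟨l, hl, rfl⟩
          exact (Finset.mem_filter.1 hl).2
        · intro hk
          induction k using Fin.lastCases with
          | last => exact absurd hk h2
          | cast l => exact ⟨l, Finset.mem_filter.2 ⟨Finset.mem_univ _, hk⟩, rfl⟩
      refine ⟨?_, h3⟩
      rw [← Finset.map_nonempty (f := Fin.castSuccEmb), h3]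
      exact Finset.nonempty_iff_ne_empty.2 h1

/-- the relation between cochains -/
private def FiD_R (h : CIso X Y) (c : Y.Ch) (c' : X.Ch) : Prop :=
  c ∅ = 0 ∧ c' ∅ = 0 ∧ ∀ (C : Finset (Fin n)) (hC : C.Nonempty), c' (C.map Fin.castSuccEmb) = FiD_e h C hC (c C)

private theorem FiD_ex (h : CIso X Y) {c : Y.Ch} (h0 : c ∅ = 0) : ∃ c', FiD_R h c c' := by
  have h1 : ∀ D : Finset (Fin (n + 1)), ∃ y : X.E D, (D = ∅ → y = 0) ∧ ∀ (C : Finset (Fin n)) (hC : C.Nonempty)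
      (hh : C.map Fin.castSuccEmb ⊆ D), C.map Fin.castSuccEmb = D → y = X.rs hh (FiD_e h C hC (c C)) := by
    intro D
    by_cases hD : ∃ C : Finset (Fin n), C.Nonempty ∧ C.map Fin.castSuccEmb = D
    · obtain ⟨C, hC, rfl⟩ := hD
      refine ⟨FiD_e h C hC (c C), fun h2 => ?_, fun C₂ hC₂ hh h2 => ?_⟩
      · exact absurd h2 (Finset.map_nonempty.2 hC).ne_empty
      · have h3 := Finset.map_injective _ h2
        subst h3
        rw [CovD.rs_id]
    · exact ⟨0, fun _ => rfl, fun C hC _ h2 => absurd ⟨C, hC, h2⟩ hD⟩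
  choose c' hc1 hc2 using h1
  refine ⟨c', h0, hc1 ∅ rfl, fun C hC => ?_⟩
  rw [hc2 _ C hC (Finset.Subset.refl _) rfl, CovD.rs_id]

private theorem FiD_ex' (h : CIso X Y) {c' : X.Ch} (h0 : c' ∅ = 0) : ∃ c, FiD_R h c c' := by
  have h1 : ∀ C : Finset (Fin n), ∃ y : Y.E C, (C = ∅ → y = 0) ∧ ∀ hC : C.Nonempty,
      c' (C.map Fin.castSuccEmb) = FiD_e h C hC y := by
    intro C
    by_cases hC : C.Nonempty
    · obtain ⟨G, -, h2, -⟩ := FiD_finv h C hC
      exact ⟨G (c' (C.map Fin.castSuccEmb)), fun h3 => absurd h3 hC.ne_empty, fun _ => (h2 _).symm⟩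
    · exact ⟨0, fun _ => rfl, fun h3 => absurd h3 hC⟩
  choose c hc1 hc2 using h1
  exact ⟨c, hc1 ∅ rfl, h0, hc2⟩

private theorem FiD_uniq (h : CIso X Y) {c : Y.Ch} {c' d' : X.Ch} (h1 : FiD_R h c c') (h2 : FiD_R h c d') :
    c' = d' := by
  funext D
  rcases FiD_cases D with h3 | h3 | ⟨C, hC, rfl⟩
  · subst h3
    rw [h1.2.1, h2.2.1]
  · rw [FiD_last h h3 (c' D), FiD_last h h3 (d' D)]
  · rw [h1.2.2 C hC, h2.2.2 C hC]

private theorem FiD_uniq' (h : CIso X Y) {c d : Y.Ch} {c' : X.Ch} (h1 : FiD_R h c c') (h2 : FiD_R h d c') : c = d := by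
  funext C
  by_cases hC : C.Nonempty
  · exact FiD_inj h (hC := hC) ((h1.2.2 C hC).symm.trans (h2.2.2 C hC))
  · have h3 := Finset.not_nonempty_iff_eq_empty.1 hC
    subst h3
    rw [h1.1, h2.1]

private theorem FiD_zero (h : CIso X Y) : FiD_R h 0 0 :=
  ⟨rfl, rfl, fun C hC => (map_zero (FiD_e h C hC)).symm⟩

private theorem FiD_sub (h : CIso X Y) {c d : Y.Ch} {c' d' : X.Ch} (h1 : FiD_R h c c') (h2 : FiD_R h d d') :
    FiD_R h (c - d) (c' - d') := by
  refine ⟨?_, ?_, fun C hC => ?_⟩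
  · rw [Pi.sub_apply, h1.1, h2.1, sub_zero]
  · rw [Pi.sub_apply, h1.2.1, h2.2.1, sub_zero]
  · rw [Pi.sub_apply, Pi.sub_apply, h1.2.2 C hC, h2.2.2 C hC]
    exact (map_sub (FiD_e h C hC) (c C) (d C)).symm

private theorem FiD_sg {C : Finset (Fin n)} (j : Fin n) :
    sg (Fin.castSuccEmb j) (C.map Fin.castSuccEmb) = sg j C := by
  unfold sg
  congr 1
  rw [Finset.filter_map, Finset.card_map]
  congr 1

private theorem FiD_erase {C : Finset (Fin n)} (j : Fin n) :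
    (C.map Fin.castSuccEmb).erase (Fin.castSuccEmb j) = (C.erase j).map Fin.castSuccEmb :=
  (Finset.map_erase _ _ _).symm

private theorem FiD_Dt (h : CIso X Y) {c : Y.Ch} {c' : X.Ch} (h1 : FiD_R h c c') : FiD_R h (Y.Dt c) (X.Dt c') := by
  refine ⟨?_, ?_, fun C hC => ?_⟩
  · rw [CovD.Dt_apply, Pi.add_apply, CovD.dc_apply, h1.1, map_zero, zero_add, CovD.del_apply, Finset.sum_empty]
  · rw [CovD.Dt_apply, Pi.add_apply, CovD.dc_apply, h1.2.1, map_zero, zero_add, CovD.del_apply, Finset.sum_empty]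
  · rw [CovD.Dt_apply, Pi.add_apply, CovD.dc_apply, h1.2.2 C hC, CovD.del_apply, Finset.sum_map,
      CovD.Dt_apply, Pi.add_apply, CovD.dc_apply, CovD.del_apply]
    have e1 : FiD_e h C hC (dd κ (c C)) = dd κ (FiD_e h C hC (c C)) := mp_dd _ _
    refine Eq.trans ?_ (map_add (FiD_e h C hC) _ _).symm
    rw [e1]
    congr 1
    refine Eq.trans ?_ (map_sum (FiD_e h C hC) _ _).symm
    refine Finset.sum_congr rfl fun j hj => ?_
    refine Eq.trans ?_ (map_zsmul (FiD_e h C hC) (sg j C) _).symm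
    rw [FiD_sg, FiD_erase]
    congr 1
    by_cases hK : (C.erase j).Nonempty
    · have hsub : (C.erase j).map Fin.castSuccEmb ⊆ C.map Fin.castSuccEmb :=
        Finset.map_subset_map.2 (Finset.erase_subset j C)
      have e2 : MPadcGP.inv κ (FiD_e h (C.erase j) hK (c (C.erase j))) =
          FiD_e h (C.erase j) hK (MPadcGP.inv κ (c (C.erase j))) := (mp_inv _ _).symm
      rw [CovD.ev_of hsub, CovD.ic_apply, h1.2.2 _ hK, e2, CovD.ev_of (Finset.erase_subset j C), CovD.ic_apply,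
        FiD_rs h (Finset.erase_subset j C) hK hC]
    · have h3 := Finset.not_nonempty_iff_eq_empty.1 hK
      have e3 : Y.ev (Y.ic c) (C.erase j) C = 0 := by
        rw [h3]
        exact CovD.ev_eq_zero (by rw [CovD.ic_apply, h1.1, map_zero]) _
      have e4 : X.ev (X.ic c') ((C.erase j).map Fin.castSuccEmb) (C.map Fin.castSuccEmb) = 0 := by
        rw [h3]
        exact CovD.ev_eq_zero (by rw [Finset.map_empty, CovD.ic_apply, h1.2.1, map_zero]) _
      rw [e3, e4]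
      exact (map_zero (FiD_e h C hC)).symm

private theorem FiD_eq0 (h : CIso X Y) {c : Y.Ch} {c' : X.Ch} (h1 : FiD_R h c c') (P : ℕ → Prop) :
    (∀ J : Finset (Fin n), P J.card → c J = 0) ↔ ∀ D : Finset (Fin (n + 1)), P D.card → c' D = 0 := by
  constructor
  · intro h2 D hD
    rcases FiD_cases D with h3 | h3 | ⟨C, hC, rfl⟩
    · subst h3
      exact h1.2.1
    · exact FiD_last h h3 _
    · rw [Finset.card_map] at hD
      rw [h1.2.2 C hC, h2 C hD]
      exact map_zero (FiD_e h C hC)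
  · intro h2 C hCP
    by_cases hC : C.Nonempty
    · refine FiD_inj h (hC := hC) ?_
      rw [← h1.2.2 C hC, h2 _ (by rw [Finset.card_map]; exact hCP)]
      exact (map_zero (FiD_e h C hC)).symm
    · have h3 := Finset.not_nonempty_iff_eq_empty.1 hC
      subst h3
      exact h1.1

private theorem FiD_Tt (h : CIso X Y) {c : Y.Ch} {c' : X.Ch} (h1 : FiD_R h c c') (m : ℕ) :
    c ∈ Y.Tt m ↔ c' ∈ X.Tt m := by
  have h2 := FiD_eq0 h h1 (fun k => m + 1 < k)
  constructor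
  · intro hc
    refine ⟨h1.2.1, fun D => ⟨fun q hq => ?_, fun hD => h2.1 (fun J hJ => (hc.2 J).2 hJ) D hD⟩⟩
    rcases FiD_cases D with h3 | h3 | ⟨C, hC, rfl⟩
    · subst h3
      rw [h1.2.1]
      exact Submodule.zero_mem _
    · rw [FiD_last h h3 (c' D)]
      exact Submodule.zero_mem _
    · rw [h1.2.2 C hC]
      rw [Finset.card_map] at hq
      exact (FiD_mem h).2 ((hc.2 C).1 q hq)
  · intro hc
    refine ⟨h1.1, fun C => ⟨fun q hq => ?_, fun hD => h2.2 (fun J hJ => (hc.2 J).2 hJ) C hD⟩⟩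
    by_cases hC : C.Nonempty
    · have h3 := (hc.2 (C.map Fin.castSuccEmb)).1 q (by rw [Finset.card_map]; exact hq)
      rw [h1.2.2 C hC] at h3
      exact (FiD_mem h).1 h3
    · have h3 := Finset.not_nonempty_iff_eq_empty.1 hC
      subst h3
      rw [h1.1]
      exact Submodule.zero_mem _

private theorem FiD_Fi (h : CIso X Y) {c : Y.Ch} {c' : X.Ch} (h1 : FiD_R h c c') {i m : ℕ} (hc : c ∈ Y.Fi i m) :
    c' ∈ X.Fi i m :=
  ⟨(FiD_Tt h h1 m).1 hc.1, (FiD_eq0 h h1 (fun k => m + 1 < k + i)).1 hc.2⟩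

private theorem FiD_Ni (h : CIso X Y) {c : Y.Ch} {c' : X.Ch} (h1 : FiD_R h c c') {i m : ℕ} (hc : c ∈ Y.Ni i m) :
    c' ∈ X.Ni i m := by
  refine ⟨(FiD_Tt h h1 m).1 hc.1, fun D => ⟨fun hD =>
    (FiD_eq0 h h1 (fun k => k + i < m + 1)).1 (fun J hJ => (hc.2 J).1 hJ) D hD, fun hD => ?_⟩⟩
  rcases FiD_cases D with h3 | h3 | ⟨C, hC, rfl⟩
  · subst h3
    rw [h1.2.1, map_zero]
  · exact FiD_last h h3 _
  · rw [Finset.card_map] at hD
    rw [h1.2.2 C hC]
    have e1 : FiD_e h C hC (dd κ (c C)) = dd κ (FiD_e h C hC (c C)) := mp_dd _ _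
    rw [← e1, (hc.2 C).2 hD]
    exact map_zero (FiD_e h C hC)

private theorem FiD_Bc (h : CIso X Y) {c : Y.Ch} {c' : X.Ch} (h1 : FiD_R h c c') (m : ℕ) :
    c ∈ Y.Bc m ↔ c' ∈ X.Bc m := by
  cases m with
  | zero =>
    constructor
    · intro hc
      have h2 : c = 0 := hc
      subst h2
      have h3 : c' = 0 := FiD_uniq h h1 (FiD_zero h)
      exact h3
    · intro hc
      have h2 : c' = 0 := hc
      subst h2
      have h3 : c = 0 := FiD_uniq' h h1 (FiD_zero h)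
      exact h3
  | succ m =>
    constructor
    · rintro ⟨b, hb, hbc⟩
      obtain ⟨b', hb'⟩ := FiD_ex h hb.1
      have h2 := FiD_Dt h hb'
      rw [hbc] at h2
      exact ⟨b', (FiD_Tt h hb' m).1 hb, FiD_uniq h h2 h1⟩
    · rintro ⟨b', hb', hbc⟩
      obtain ⟨b, hb⟩ := FiD_ex' h hb'.1
      have h2 := FiD_Dt h hb
      rw [hbc] at h2
      exact ⟨b, (FiD_Tt h hb m).2 hb', FiD_uniq' h h2 h1⟩

private theorem FiD_Zc (h : CIso X Y) {c : Y.Ch} {c' : X.Ch} (h1 : FiD_R h c c') {m : ℕ} (hc : c ∈ Y.Zc m) :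
    c' ∈ X.Zc m := by
  refine CovD.mem_Zc.2 ⟨(FiD_Tt h h1 m).1 hc.1, ?_⟩
  have h2 := FiD_Dt h h1
  rw [(CovD.mem_Zc.1 hc).2] at h2
  exact FiD_uniq h h2 (FiD_zero h)

end

theorem CIso.opp {κ : Type u} [Field κ] {n : ℕ} {X : CovD.{u, v} κ (n + 1)} {Y : CovD.{u, w} κ n} (h : CIso X Y)
    (hX : IsOppC X) : IsOppC Y := by
  intro m i
  rw [Submodule.eq_bot_iff]
  rintro x ⟨hx1, hx2⟩
  obtain ⟨c₁, hc₁, rfl⟩ := CovD.mem_Con.1 hx1
  obtain ⟨c₂, hc₂, h12⟩ := CovD.mem_Fil.1 hx2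
  obtain ⟨c₁', h1⟩ := FiD_ex h c₁.2.1.1
  obtain ⟨c₂', h2⟩ := FiD_ex h c₂.2.1.1
  have hz1 := FiD_Zc h h1 c₁.2
  have hz2 := FiD_Zc h h2 c₂.2
  have h3 : X.cl m ⟨c₂', hz2⟩ = X.cl m ⟨c₁', hz1⟩ :=
    CovD.cl_eq.2 ((FiD_Bc h (FiD_sub h h2 h1) m).1 (CovD.cl_eq.1 h12))
  have h4 : X.cl m ⟨c₁', hz1⟩ ∈ X.Con m i ⊓ X.Fil m (i + 1) :=
    ⟨CovD.mem_Con.2 ⟨⟨c₁', hz1⟩, FiD_Ni h h1 hc₁, rfl⟩, CovD.mem_Fil.2 ⟨⟨c₂', hz2⟩, FiD_Fi h h2 hc₂, h3⟩⟩
  rw [hX m i] at h4
  have h5 : X.cl m ⟨c₁', hz1⟩ = 0 := (Submodule.mem_bot κ).1 h4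
  exact CovD.cl_eq_zero.2 ((FiD_Bc h h1 m).2 (CovD.cl_eq_zero.1 h5))

end MPadcHS
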