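import Pool.Agent.Lib.MP_adc574_ag_HS.FiD
import Pool.Agent.Lib.MP_adc574_ag_HS.GyA
import Pool.Agent.Lib.MP_adc574_ag_DC.PHom

/-!
# JOB FiE (HS, Part P): the hyperplane section in `n` variables

`secU I F := I ⊔ (F)`. `Sat I S`: `I ≤ S` and `S` is contained in the saturation of `I`.
* `sat_map`: `X l ^ N * f ∈ I` for the `f ∈ S`; `bI φ S` is spanned by the `map φ f`.
* `exists_ciso`: `X := prC (hyp (cyc I F 1))`, `Y := prC S`. For `C` nonempty, `j ∈ C`, `C' := C.map castSuccEmb`, `j' := castSucc j`.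
  `e C : chart S C → chart (hyp (cyc I F 1)) C'`: `exists_chart_lift` (GP/Mod.lean): `cq S C l ↦ cq _ C' (castSucc l)`: every `f ∈ S` homogeneous: `X j ^ N * f ∈ I ⊔ (F)`, and `I`, `F` map to `0` there (`rename castSucc f ∈ cyc ..` for `f ∈ I`; `z ∈ hyp ..` and `z ^ 1 - rename F ∈ cyc` give `rename F ∈ hyp ..`), so `(x_j / x_j) ^ N * f (x / x_j) = 0` (`eval₂_cq` GP/Mod.lean).
  The inverse: `cq _ C' (castSucc l) ↦ cq S C l`, `cq _ C' z ↦ 0`: the generators of `hyp (cyc I F 1)` go to `0` (`rename castSucc f`, `f ∈ I ≤ S`; `z - rename F`, `F ∈ S`; `z`). Both compositions are the identity by `chart_hom_ext'`. Compatibility `comm`, `base` by `chart_hom_ext'`, `tr_cq`.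
  The homogeneity `hS : IsHomog S` is needed for `exists_chart_lift` if it asks for it. `sub`: `subs_chart` (GyA).
-/

set_option autoImplicit false

namespace MPadcHS

open MvPolynomial MPadcGP MPadcDC

universe u v w

/-- The ideal `(I, F)`. -/
noncomputable def secU {A : Type u} [CommRing A] {n : ℕ} (I : Ideal (MvPolynomial (Fin n) A))
    (F : MvPolynomial (Fin n) A) : Ideal (MvPolynomial (Fin n) A) := I ⊔ Ideal.span {F}

/-- `S` is between `I` and its saturation. -/
structure Sat {A : Type u} [CommRing A] {n : ℕ} (I S : Ideal (MvPolynomial (Fin n) A)) : Prop where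
  le : I ≤ S
  sat : ∀ l, ∀ f ∈ S, ∃ N : ℕ, X l ^ N * f ∈ I

theorem sat_map {A : Type u} [CommRing A] {n : ℕ} {I S : Ideal (MvPolynomial (Fin n) A)} (h : Sat I S)
    {B : Type v} [CommRing B] (φ : A →+* B) : Sat (bI φ I) (bI φ S) := by
  refine ⟨Ideal.map_mono h.le, fun l f hf => ?_⟩
  unfold bI at hf
  rw [Ideal.map] at hf
  induction hf using Submodule.span_induction with
  | mem f hf =>
    obtain ⟨g, hg, rfl⟩ := hf
    obtain ⟨N, hN⟩ := h.sat l g hg
    refine ⟨N, ?_⟩
    have h1 := Ideal.mem_map_of_mem (MvPolynomial.map φ) hN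
    rw [map_mul, map_pow, map_X] at h1
    exact h1
  | zero =>
    refine ⟨0, ?_⟩
    rw [mul_zero]
    exact Ideal.zero_mem _
  | add x y _ _ hx hy =>
    obtain ⟨N, hN⟩ := hx
    obtain ⟨M, hM⟩ := hy
    refine ⟨N + M, ?_⟩
    have h1 : (X l : MvPolynomial (Fin n) B) ^ (N + M) * (x + y) = X l ^ M * (X l ^ N * x) + X l ^ N * (X l ^ M * y) := by
      rw [pow_add]
      ring
    rw [h1]
    exact Ideal.add_mem _ (Ideal.mul_mem_left _ _ hN) (Ideal.mul_mem_left _ _ hM)
  | smul r x _ hx =>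
    obtain ⟨N, hN⟩ := hx
    refine ⟨N, ?_⟩
    have h1 : (X l : MvPolynomial (Fin n) B) ^ N * (r • x) = r * (X l ^ N * x) := by
      rw [smul_eq_mul]
      ring
    rw [h1]
    exact Ideal.mul_mem_left _ _ hN

private theorem FiE_mem {n : ℕ} {C : Finset (Fin n)} {m : Fin n} (hm : m ∈ C) :
    Fin.castSucc m ∈ C.map Fin.castSuccEmb := Finset.mem_map_of_mem Fin.castSuccEmb hm

private theorem FiE_last {A : Type u} [CommRing A] {n : ℕ} (Q : Ideal (MvPolynomial (Fin (n + 1)) A)) :
    (X (Fin.last n) : MvPolynomial (Fin (n + 1)) A) ∈ hyp Q :=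
  (le_sup_right : Ideal.span {X (Fin.last n)} ≤ hyp Q) (Ideal.subset_span rfl)

private theorem FiE_ren {A : Type u} [CommRing A] {n : ℕ} {I : Ideal (MvPolynomial (Fin n) A)}
    {F : MvPolynomial (Fin n) A} : secU I F ≤
      (hyp (cyc I F 1)).comap (rename Fin.castSucc : MvPolynomial (Fin n) A →ₐ[A] MvPolynomial (Fin (n + 1)) A).toRingHom := by
  refine sup_le ?_ ?_
  · intro f hf
    exact le_hyp _ ((le_sup_left : _ ≤ cyc I F 1) (Ideal.mem_map_of_mem _ hf))
  · rw [Ideal.span_le, Set.singleton_subset_iff]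
    show rename Fin.castSucc F ∈ hyp (cyc I F 1)
    have h1 : (X (Fin.last n) ^ 1 - rename Fin.castSucc F : MvPolynomial (Fin (n + 1)) A) ∈ hyp (cyc I F 1) :=
      le_hyp _ ((le_sup_right : _ ≤ cyc I F 1) (Ideal.subset_span rfl))
    have h2 : rename Fin.castSucc F = (X (Fin.last n) : MvPolynomial (Fin (n + 1)) A) ^ 1 -
        (X (Fin.last n) ^ 1 - rename Fin.castSucc F) := by
      ring
    rw [h2, pow_one]
    rw [pow_one] at h1
    exact Ideal.sub_mem _ (FiE_last _) h1

private theorem FiE_chart {κ : Type u} [Field κ] {n : ℕ} {I S : Ideal (MvPolynomial (Fin n) κ)}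
    {F : MvPolynomial (Fin n) κ} (hP : IsHomog (hyp (cyc I F 1))) (hS : IsHomog S) (h : Sat (secU I F) S)
    {C : Finset (Fin n)} (hC : C.Nonempty) :
    ∃ e : chart S C →+* chart (hyp (cyc I F 1)) (C.map Fin.castSuccEmb),
      (∀ a, e (algebraMap κ _ a) = algebraMap κ _ a) ∧ (∀ (l : Fin n) {m : Fin n} (hm : m ∈ C),
        e (cq S C l hm) = cq (hyp (cyc I F 1)) (C.map Fin.castSuccEmb) (Fin.castSucc l) (FiE_mem hm)) ∧
      Function.Bijective e := by
  obtain ⟨j, hj⟩ := hC
  have hev : ∀ g ∈ secU I F, eval₂ (algebraMap κ (chart (hyp (cyc I F 1)) (C.map Fin.castSuccEmb)))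
      (fun l : Fin n => cq (hyp (cyc I F 1)) (C.map Fin.castSuccEmb) (Fin.castSucc l) (FiE_mem hj)) g = 0 := by
    intro g hg
    have h1 : rename Fin.castSucc g ∈ hyp (cyc I F 1) := FiE_ren hg
    have h2 := eval₂_cq hP (FiE_mem hj) h1
    rw [eval₂_rename] at h2
    exact h2
  obtain ⟨e, he0, he1⟩ := exists_chart_lift S C (algebraMap κ (chart (hyp (cyc I F 1)) (C.map Fin.castSuccEmb))) hj
    (fun l : Fin n => cq (hyp (cyc I F 1)) (C.map Fin.castSuccEmb) (Fin.castSucc l) (FiE_mem hj))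
    (cq_self (hyp (cyc I F 1)) (C.map Fin.castSuccEmb) (FiE_mem hj))
    (fun m hm => cq_isUnit (hyp (cyc I F 1)) (C.map Fin.castSuccEmb) (FiE_mem hm) (FiE_mem hj))
    (fun f hf => by
      obtain ⟨N, hN⟩ := h.sat j f hf
      have h1 := hev _ hN
      rw [eval₂_mul, eval₂_pow, eval₂_X, cq_self, one_pow, one_mul] at h1
      exact h1)
  let z : Fin (n + 1) → chart S C := Fin.lastCases (motive := fun _ => chart S C) 0 (fun l => cq S C l hj)
  have hz0 : z (Fin.last n) = 0 := Fin.lastCases_last (motive := fun _ => chart S C)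
  have hz1 : ∀ l : Fin n, z (Fin.castSucc l) = cq S C l hj := fun l =>
    Fin.lastCases_castSucc (motive := fun _ => chart S C) l
  have hz2 : ∀ g ∈ S, eval₂ (algebraMap κ (chart S C)) z (rename Fin.castSucc g) = 0 := by
    intro g hg
    rw [eval₂_rename]
    have h1 : z ∘ Fin.castSucc = fun l => cq S C l hj := funext hz1
    rw [h1]
    exact eval₂_cq hS hj hg
  have hz3 : hyp (cyc I F 1) ≤ RingHom.ker (eval₂Hom (algebraMap κ (chart S C)) z) := by
    refine sup_le (sup_le ?_ ?_) ?_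
    · rw [Ideal.map_le_iff_le_comap]
      intro f hf
      exact hz2 f (h.le ((le_sup_left : I ≤ secU I F) hf))
    · rw [Ideal.span_le, Set.singleton_subset_iff]
      have h1 : eval₂ (algebraMap κ (chart S C)) z (X (Fin.last n) ^ 1 - rename Fin.castSucc F) = 0 := by
        rw [eval₂_sub, hz2 F (h.le ((le_sup_right : _ ≤ secU I F) (Ideal.subset_span rfl))), pow_one, eval₂_X, hz0,
          sub_zero]
      exact h1
    · rw [Ideal.span_le, Set.singleton_subset_iff]
      have h1 : eval₂ (algebraMap κ (chart S C)) z (X (Fin.last n)) = 0 := by rw [eval₂_X, hz0]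
      exact h1
  obtain ⟨e', he0', he1'⟩ := exists_chart_lift (hyp (cyc I F 1)) (C.map Fin.castSuccEmb) (algebraMap κ (chart S C))
    (FiE_mem hj) z ((hz1 j).trans (cq_self S C hj)) (fun m hm => by
      obtain ⟨m', hm', rfl⟩ := Finset.mem_map.1 hm
      have h1 : z (Fin.castSuccEmb m') = cq S C m' hj := hz1 m'
      rw [h1]
      exact cq_isUnit S C hm' hj) (fun f hf => hz3 hf)
  have hc1 : e'.comp e = RingHom.id _ := by
    refine chart_hom_ext' S C hj (fun a => ?_) fun l => ?_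
    · rw [RingHom.comp_apply, he0, he0', RingHom.id_apply]
    · rw [RingHom.comp_apply, he1, he1', hz1, RingHom.id_apply]
  have hc2 : e.comp e' = RingHom.id _ := by
    refine chart_hom_ext' (hyp (cyc I F 1)) (C.map Fin.castSuccEmb) (FiE_mem hj) (fun a => ?_) fun l => ?_
    · rw [RingHom.comp_apply, he0', he0, RingHom.id_apply]
    · rw [RingHom.comp_apply, he1', RingHom.id_apply]
      refine Fin.lastCases ?_ (fun l => ?_) l
      · rw [hz0, map_zero]
        have h1 := eval₂_cq hP (FiE_mem hj) (FiE_last (cyc I F 1))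
        rw [eval₂_X] at h1
        exact h1.symm
      · rw [hz1, he1]
  refine ⟨e, he0, fun l m hm => ?_, ?_⟩
  · have h1 : e (cq S C l hm) * e (cq S C m hj) = e (cq S C l hj) := by
      rw [← map_mul, cq_mul]
    rw [he1, he1] at h1
    refine (cq_isUnit (hyp (cyc I F 1)) (C.map Fin.castSuccEmb) (FiE_mem hm) (FiE_mem hj)).mul_right_cancel ?_
    rw [h1, cq_mul]
  · refine ⟨fun x y hxy => ?_, fun y => ⟨e' y, ?_⟩⟩
    · have h1 := congrArg e' hxy
      rw [← RingHom.comp_apply, ← RingHom.comp_apply, hc1] at h1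
      exact h1
    · rw [← RingHom.comp_apply, hc2, RingHom.id_apply]

theorem exists_ciso {κ : Type u} [Field κ] {n : ℕ} {I S : Ideal (MvPolynomial (Fin n) κ)} (hI : IsHomog I)
    {F : MvPolynomial (Fin n) κ} (hF : F.IsHomogeneous 1) (hS : IsHomog S) (h : Sat (secU I F) S) :
    Nonempty (CIso (prC (hyp (cyc I F 1))) (prC S)) := by
  have hP : IsHomog (hyp (cyc I F 1)) := isHomog_hyp (isHomog_cyc hI hF)
  have key : ∀ (C : Finset (Fin n)) (hC : C.Nonempty), ∃ e : chart S C →+* chart (hyp (cyc I F 1)) (C.map Fin.castSuccEmb),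
      (∀ a, e (algebraMap κ _ a) = algebraMap κ _ a) ∧ (∀ (l : Fin n) {m : Fin n} (hm : m ∈ C),
        e (cq S C l hm) = cq (hyp (cyc I F 1)) (C.map Fin.castSuccEmb) (Fin.castSucc l) (FiE_mem hm)) ∧
      Function.Bijective e := fun C hC => FiE_chart hP hS h hC
  choose e he1 he2 he3 using key
  refine ⟨⟨e, he3, he1, ?_, fun C hz => subs_chart rfl hz⟩⟩
  intro C C' hCC hC hC' x
  obtain ⟨j, hj⟩ := hC
  have h1 : (e C' hC').comp (tr S hCC).toRingHom =
      (tr (hyp (cyc I F 1)) (Finset.map_subset_map.2 hCC)).toRingHom.comp (e C ⟨j, hj⟩) := by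
    refine chart_hom_ext' S C hj (fun a => ?_) fun l => ?_
    · rw [RingHom.comp_apply, RingHom.comp_apply, he1]
      have h2 : (tr S hCC).toRingHom (algebraMap κ _ a) = algebraMap κ _ a := (tr S hCC).commutes a
      rw [h2, he1]
      exact ((tr (hyp (cyc I F 1)) (Finset.map_subset_map.2 hCC)).commutes a).symm
    · rw [RingHom.comp_apply, RingHom.comp_apply, he2]
      have h2 : (tr S hCC).toRingHom (cq S C l hj) = cq S C' l (hCC hj) := tr_cq S hCC l hj
      rw [h2, he2]
      exact (tr_cq (hyp (cyc I F 1)) (Finset.map_subset_map.2 hCC) (Fin.castSucc l) (FiE_mem hj)).symm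
  exact congrArg (fun f : chart S C →+* chart (hyp (cyc I F 1)) (C'.map Fin.castSuccEmb) => f x) h1

end MPadcHS
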