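import Pool.Agent.Lib.MP_adc574_ag_HS.FiE
import Pool.Agent.Lib.MP_adc574_ag_DC.PRed0

/-!
# JOB FiF (HS, Part P): from the hyperplane section in `n + 1` variables to the one in `n` variables, for all models

Given a model `(A, IP, IS)`. (1) `exists_modelY` (DC/PMoA.lean) for `I` over `k`: `A₁ ≥ A` and a homogeneous model `I₁` of `I`; adjoin the finitely many coefficients of `F`: `F₁` over `A₂`, homogeneous of degree `1` (`homogeneousComponent 1` of any lift; `MvPolynomial.map` is injective). Over `k`: `bI IP = hyp (cyc (bI I₁) (map F₁) 1)`, so (`exists_eq_model`, `bI_hyp`, `bI_cyc`, `bI_bI`) over some `A₃`: `bI incl IP = hyp (cyc I₃ F₃ 1)`.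
(2) `S₃ := bI incl IS`: `bI S₃ = S` over `k`. `Sat (secU I₃ F₃) S₃` after a further enlargement (`pmoA_le`, DC/PMoA.lean, as in the proof of `exists_eq_model`): `secU I₃ F₃ ≤ S₃` since `bI (secU I₃ F₃) = secU I F ≤ S`; and `S₃` is generated by finitely many `f_i`, `X l ^ N * map f_i ∈ secU I F` for one `N` large: the ideal `span {X l ^ N * f_i}` is contained in `secU I₃ F₃` over `k`, so over a larger ring; `Sat` for the generators implies `Sat` for all elements (finite sums: `N` = the maximum).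
    Everything in (1), (2) holds over one `A' ≥ A`, finitely generated (use `bI_bI` to transport the equalities to the larger ring; `sat_map`).
(3) Then as in the proof of `OppRel.refl` (DC/PRed0.lean): `exists_over`, `opp_upd` for `IP` (smoothness `hs`), for every `K`, `φ : A' → K` as in `OppAt`: `bI φ (bI incl IP) = hyp (cyc (bI φ I') (map φ F') 1)`, `Sat (secU (bI φ I') (map φ F')) (bI φ (bI incl IS))`, `exists_ciso` and `CIso.opp` give `OppAt (bI incl IS) 𝔓'`; `opp_down`.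
-/

set_option autoImplicit false

namespace MPadcHS

open MvPolynomial MPadcGP MPadcDC

universe u v w

private theorem FiF_secU {A : Type u} [CommRing A] {B : Type v} [CommRing B] (φ : A →+* B) {n : ℕ}
    (I : Ideal (MvPolynomial (Fin n) A)) (F : MvPolynomial (Fin n) A) :
    bI φ (secU I F) = secU (bI φ I) (MvPolynomial.map φ F) := by
  change Ideal.map (MvPolynomial.map φ) (I ⊔ Ideal.span {F}) =
    Ideal.map (MvPolynomial.map φ) I ⊔ Ideal.span {MvPolynomial.map φ F}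
  rw [Ideal.map_sup, Ideal.map_span, Set.image_singleton]

private theorem FiF_sat {k : Type u} [Field k] (A : Subalgebra ℤ k) (hA : A.FG) {n : ℕ}
    (U W : Ideal (MvPolynomial (Fin n) A)) (h : Sat (bI (algebraMap A k) U) (bI (algebraMap A k) W)) :
    ∃ (A' : Subalgebra ℤ k) (hle : A ≤ A'), A'.FG ∧
      Sat (bI (Subalgebra.inclusion hle).toRingHom U) (bI (Subalgebra.inclusion hle).toRingHom W) := by
  classical
  have hft : Algebra.FiniteType ℤ A := (Subalgebra.fg_iff_finiteType A).1 hA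
  have hn : IsNoetherianRing A := Algebra.FiniteType.isNoetherianRing ℤ A
  obtain ⟨G, hG⟩ := (isNoetherianRing_iff_ideal_fg (MvPolynomial (Fin n) A)).1 inferInstance W
  have hGW : ∀ f : G, (f : MvPolynomial (Fin n) A) ∈ W := fun f => by
    rw [← hG]
    exact Submodule.subset_span f.2
  choose N hN using fun (f : G) (l : Fin n) => h.sat l _ (Ideal.mem_map_of_mem (MvPolynomial.map (algebraMap A k)) (hGW f))
  obtain ⟨J, hJ⟩ : ∃ J : Ideal (MvPolynomial (Fin n) A), J = Ideal.span (Set.range fun q : G × Fin n =>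
    X q.2 ^ (N q.1 q.2) * (q.1 : MvPolynomial (Fin n) A)) := ⟨_, rfl⟩
  have hJU : bI (algebraMap A k) J ≤ bI (algebraMap A k) U := by
    rw [hJ]
    unfold bI
    rw [Ideal.map_span, Ideal.span_le]
    rintro _ ⟨_, ⟨q, rfl⟩, rfl⟩
    have h1 := hN q.1 q.2
    show MvPolynomial.map (algebraMap A k) (X q.2 ^ (N q.1 q.2) * (q.1 : MvPolynomial (Fin n) A)) ∈
      Ideal.map (MvPolynomial.map (algebraMap A k)) U
    rw [map_mul, map_pow, map_X]
    exact h1
  obtain ⟨T₁, hT₁⟩ := pmoA_le A hA U W h.le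
  obtain ⟨T₂, hT₂⟩ := pmoA_le A hA J U hJU
  obtain ⟨A', hA'⟩ : ∃ A' : Subalgebra ℤ k, A' = A ⊔ Algebra.adjoin ℤ ((T₁ ∪ T₂ : Finset k) : Set k) := ⟨_, rfl⟩
  have hle : A ≤ A' := hA' ▸ le_sup_left
  have hTT : ((T₁ ∪ T₂ : Finset k) : Set k) ⊆ A' := fun x hx => by
    rw [hA']
    exact (le_sup_right : Algebra.adjoin ℤ ((T₁ ∪ T₂ : Finset k) : Set k) ≤ _) (Algebra.subset_adjoin hx)
  rw [Finset.coe_union, Set.union_subset_iff] at hTT
  refine ⟨A', hle, hA' ▸ hA.sup ⟨T₁ ∪ T₂, rfl⟩, hT₁ A' hle hTT.1, fun l f hf => ?_⟩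
  unfold bI at hf
  rw [← hG, Ideal.map_span] at hf
  induction hf using Submodule.span_induction with
  | mem f hf =>
    obtain ⟨g, hg, rfl⟩ := hf
    refine ⟨N ⟨g, hg⟩ l, hT₂ A' hle hTT.2 ?_⟩
    have h1 : X l ^ (N ⟨g, hg⟩ l) * g ∈ J := by
      rw [hJ]
      exact Ideal.subset_span ⟨(⟨g, hg⟩, l), rfl⟩
    have h2 := Ideal.mem_map_of_mem (MvPolynomial.map (Subalgebra.inclusion hle).toRingHom) h1
    rw [map_mul, map_pow, map_X] at h2
    exact h2
  | zero =>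
    refine ⟨0, ?_⟩
    rw [mul_zero]
    exact Ideal.zero_mem _
  | add x y _ _ hx hy =>
    obtain ⟨N, hN⟩ := hx
    obtain ⟨M, hM⟩ := hy
    refine ⟨N + M, ?_⟩
    have h1 : (X l : MvPolynomial (Fin n) A') ^ (N + M) * (x + y) =
        X l ^ M * (X l ^ N * x) + X l ^ N * (X l ^ M * y) := by
      rw [pow_add]
      ring
    rw [h1]
    exact Ideal.add_mem _ (Ideal.mul_mem_left _ _ hN) (Ideal.mul_mem_left _ _ hM)
  | smul r x _ hx =>
    obtain ⟨N, hN⟩ := hx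
    refine ⟨N, ?_⟩
    have h1 : (X l : MvPolynomial (Fin n) A') ^ N * (r • x) = r * (X l ^ N * x) := by
      rw [smul_eq_mul]
      ring
    rw [h1]
    exact Ideal.mul_mem_left _ _ hN

private theorem FiF_lift {k : Type u} [Field k] {n : ℕ} (F : MvPolynomial (Fin n) k) (hF : F.IsHomogeneous 1)
    (A : Subalgebra ℤ k) (hA : A.FG) :
    ∃ (A' : Subalgebra ℤ k) (_ : A ≤ A') (_ : A'.FG) (F' : MvPolynomial (Fin n) A'), F'.IsHomogeneous 1 ∧
      MvPolynomial.map (algebraMap A' k) F' = F := by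
  classical
  obtain ⟨A', hA'⟩ : ∃ A' : Subalgebra ℤ k, A' = A ⊔ Algebra.adjoin ℤ (F.coeffs : Set k) := ⟨_, rfl⟩
  have hle : A ≤ A' := hA' ▸ le_sup_left
  have hT : (F.coeffs : Set k) ⊆ A' := fun x hx => by
    rw [hA']
    exact (le_sup_right : Algebra.adjoin ℤ (F.coeffs : Set k) ≤ _) (Algebra.subset_adjoin hx)
  have h1 : F ∈ Set.range (MvPolynomial.map (algebraMap A' k)) := by
    rw [mem_range_map_iff_coeffs_subset]
    intro x hx
    exact ⟨⟨x, hT hx⟩, rfl⟩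
  obtain ⟨F', hF'⟩ := h1
  refine ⟨A', hle, hA' ▸ hA.sup ⟨F.coeffs, rfl⟩, F', fun d hd => ?_, hF'⟩
  refine hF ?_
  rw [← hF', coeff_map]
  intro h2
  exact hd (Subtype.val_injective h2)

private theorem FiF_model {k : Type u} [Field k] {n : ℕ} {I S : Ideal (MvPolynomial (Fin n) k)} (hI : IsHomog I)
    {F : MvPolynomial (Fin n) k} (hF : F.IsHomogeneous 1) (h : Sat (secU I F) S) (A : Subalgebra ℤ k) (hA : A.FG)
    (IP : Ideal (MvPolynomial (Fin (n + 1)) A)) (IS : Ideal (MvPolynomial (Fin n) A))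
    (hPk : bI (algebraMap A k) IP = hyp (cyc I F 1)) (hSk : bI (algebraMap A k) IS = S) :
    ∃ (A' : Subalgebra ℤ k) (hle : A ≤ A') (_ : A'.FG) (I' : Ideal (MvPolynomial (Fin n) A'))
      (F' : MvPolynomial (Fin n) A'), IsHomog I' ∧ F'.IsHomogeneous 1 ∧
      bI (Subalgebra.inclusion hle).toRingHom IP = hyp (cyc I' F' 1) ∧
      Sat (secU I' F') (bI (Subalgebra.inclusion hle).toRingHom IS) := by
  obtain ⟨A₁, hle₁, hA₁, I₁, hI₁, h1k⟩ := exists_modelY hI A hA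
  obtain ⟨A₂, hle₂, hA₂, F₂, hF₂, h2k⟩ := FiF_lift F hF A₁ hA₁
  obtain ⟨I₂, hI₂⟩ : ∃ I₂, I₂ = bI (Subalgebra.inclusion hle₂).toRingHom I₁ := ⟨_, rfl⟩
  have hI₂h : IsHomog I₂ := hI₂ ▸ hI₁.map _
  have hI₂k : bI (algebraMap A₂ k) I₂ = I := by
    rw [hI₂, bI_bI]
    exact h1k
  have hle₀₂ : A ≤ A₂ := hle₁.trans hle₂
  obtain ⟨A₃, hle₃, hA₃, heq⟩ := exists_eq_model A₂ hA₂ (bI (Subalgebra.inclusion hle₀₂).toRingHom IP)
    (hyp (cyc I₂ F₂ 1)) (by
      rw [bI_hyp, bI_cyc, hI₂k, h2k, bI_bI]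
      exact hPk)
  rw [bI_hyp, bI_cyc, bI_bI] at heq
  obtain ⟨I₃, hI₃⟩ : ∃ I₃, I₃ = bI (Subalgebra.inclusion hle₃).toRingHom I₂ := ⟨_, rfl⟩
  obtain ⟨F₃, hF₃⟩ : ∃ F₃, F₃ = MvPolynomial.map (Subalgebra.inclusion hle₃).toRingHom F₂ := ⟨_, rfl⟩
  have hI₃h : IsHomog I₃ := hI₃ ▸ hI₂h.map _
  have hF₃h : F₃.IsHomogeneous 1 := hF₃ ▸ hF₂.map _
  have hI₃k : bI (algebraMap A₃ k) I₃ = I := by
    rw [hI₃, bI_bI]
    exact hI₂k
  have hF₃k : MvPolynomial.map (algebraMap A₃ k) F₃ = F := by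
    rw [hF₃, MvPolynomial.map_map]
    exact h2k
  rw [← hI₃, ← hF₃] at heq
  have hle₀₃ : A ≤ A₃ := hle₀₂.trans hle₃
  have heq' : bI (Subalgebra.inclusion hle₀₃).toRingHom IP = hyp (cyc I₃ F₃ 1) := heq
  have hsat : Sat (bI (algebraMap A₃ k) (secU I₃ F₃))
      (bI (algebraMap A₃ k) (bI (Subalgebra.inclusion hle₀₃).toRingHom IS)) := by
    rw [FiF_secU, hI₃k, hF₃k, bI_bI]
    have h1 : bI ((algebraMap A₃ k).comp (Subalgebra.inclusion hle₀₃).toRingHom) IS = S := hSk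
    rw [h1]
    exact h
  obtain ⟨A₄, hle₄, hA₄, hs⟩ := FiF_sat A₃ hA₃ _ _ hsat
  rw [FiF_secU, bI_bI] at hs
  have heq₄ : bI (Subalgebra.inclusion hle₄).toRingHom (bI (Subalgebra.inclusion hle₀₃).toRingHom IP) =
      hyp (cyc (bI (Subalgebra.inclusion hle₄).toRingHom I₃)
        (MvPolynomial.map (Subalgebra.inclusion hle₄).toRingHom F₃) 1) := by
    rw [heq', bI_hyp, bI_cyc]
  rw [bI_bI] at heq₄
  exact ⟨A₄, hle₀₃.trans hle₄, hA₄, bI (Subalgebra.inclusion hle₄).toRingHom I₃,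
    MvPolynomial.map (Subalgebra.inclusion hle₄).toRingHom F₃, hI₃h.map _, hF₃h.map _, heq₄, hs⟩

theorem oppRel_sat {k : Type u} [Field k] [CharZero k] {n : ℕ} {I S : Ideal (MvPolynomial (Fin n) k)} (hI : IsHomog I)
    {F : MvPolynomial (Fin n) k} (hF : F.IsHomogeneous 1) (h : Sat (secU I F) S)
    (hs : IsSmoothProj (hyp (cyc I F 1))) : OppRel (hyp (cyc I F 1)) S 1 := by
  intro A hA IP IS hIP hIS hPk hSk
  have hfA := pred_ft hA
  have hcA := pred_cz A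
  obtain ⟨A', hle, hA', I', F', hI', hF', hP', hS'⟩ := FiF_model hI hF h A hA IP IS hPk hSk
  have hfA' := pred_ft hA'
  have hcA' := pred_cz A'
  obtain ⟨p₁, h₁⟩ := exists_over A A' (Subalgebra.inclusion hle).toRingHom (Subalgebra.inclusion_injective hle)
  obtain ⟨p₂, h₂⟩ := opp_upd (Subalgebra.inclusion hle).toRingHom hIP (algebraMap A k) Subtype.val_injective
    (hPk.symm ▸ hs)
  refine ⟨p₁ + p₂ + 1, fun p hp hpr _ 𝔓 h𝔓 hopp => ?_⟩
  obtain ⟨𝔓', h𝔓', hc⟩ := h₁ p hpr (by omega) 𝔓 h𝔓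
  have h3 := h₂ p hpr (by omega) 𝔓 h𝔓 𝔓' h𝔓' hc hopp
  have hpr' : 𝔓'.IsPrime := h𝔓'.1.1
  rw [← hc]
  refine opp_down _ hIS ?_
  intro K _ φ hk hfr
  have h4 := h3 K φ hk hfr
  rw [hP', bI_hyp, bI_cyc] at h4
  have h5 : Sat (secU (bI φ I') (MvPolynomial.map φ F')) (bI φ (bI (Subalgebra.inclusion hle).toRingHom IS)) := by
    rw [← FiF_secU]
    exact sat_map hS' φ
  obtain ⟨ci⟩ := exists_ciso (hI'.map φ) (hF'.map φ) ((hIS.map _).map φ) h5
  exact ci.opp h4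

end MPadcHS
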