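import Pool.Agent.Lib.MP_adc574_ag_HS.GyDefs

/-!
# JOB GyB (HS, Part P)

* `mp_onto`: by `fd_ind` (GP/DRm.lean): `fz A s * wd A t` is the image of `fz A r * wd A t'` with `φ r = s`, `φ (t' i) = t i` (`mp_fz`, `mp_wd` or `wd` as a product and `mp_df`), sums.
* `mp_kerz`: let `T ⊆ Fm A R` be the set of all `fz A ζ * x + df A ζ * y`: it is a two-sided ideal (`fz r * (df ζ * y) = df ζ * (fz r * y)`, `df t * (df ζ * y) = - df ζ * (df t * y)`, `fz_comm`). Let `G := Fm A R ⧸ T` (`RingCon` / `TwoSidedIdeal`, or simply avoid quotient rings: see below). By `exists_hom` (GP/DR.lean) there is a ring homomorphism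
  `Ψ : Fm A S →+* G` with `Ψ (fz (φ r)) = [fz r]`, `Ψ (df (φ t)) = [df t]`: well defined because `φ r = φ r'` implies `r - r' = ζ s`, `fz (ζ s) ∈ T`, `df (ζ s) = fz ζ * df s + fz s * df ζ ∈ T`. Then `Ψ (mp φ e) = [e]` (`hom_ext'`), so `mp φ e = 0` implies `e ∈ T`: `e = fz ζ * x + df ζ * y`.
  A concrete model of the quotient ring: `RingQuot`, or `(TwoSidedIdeal).ringCon.Quotient`: Mathlib has `TwoSidedIdeal.mk'` with carrier and `TwoSidedIdeal.ringCon`, quotient ring `I.ringCon.Quotient`, `TwoSidedIdeal.mem_iff`, `RingCon.eq`.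
  At the end project to form degree `q` (`pj A q`, GP/Rep.lean; `pj A q (fz r * x) = fz r * pj A q x`; `pj A q (df t * y) = df t * pj A r y` if `r + 1 = q`, `0` if `q = 0`: split `y` into homogeneous components, `homog_ind`; see `C1A_pj` in DC/C1A.lean).
-/

set_option autoImplicit false

namespace MPadcHS

open MvPolynomial MPadcGP MPadcDC

universe u v w

section

variable {A : Type u} {R : Type v} {S : Type w} [CommRing A] [CommRing R] [CommRing S] [Algebra A R] [Algebra A S]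
  {φ : R →+* S}

/-- A surjective ring homomorphism is surjective on forms. -/
theorem mp_onto (hφ : CC A A φ) (hs : Function.Surjective φ) {q : ℕ} {e : Fm A S} (he : e ∈ Fd A S q) :
    ∃ e₀ ∈ Fd A R q, mp φ hφ e₀ = e := by
  refine fd_ind (P := fun e => ∃ e₀ ∈ Fd A R q, mp φ hφ e₀ = e) ?_ ?_ ?_ he
  · exact ⟨0, Submodule.zero_mem _, map_zero _⟩
  · intro s t
    obtain ⟨r, rfl⟩ := hs s
    choose t' ht' using fun i => hs (t i)
    refine ⟨fz A r * wd A t', fz_mul_mem r (wd_mem t'), ?_⟩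
    rw [map_mul, mp_fz, mp_wd]
    congr 2
    funext i
    exact ht' i
  · rintro a b ⟨a₀, ha, rfl⟩ ⟨b₀, hb, rfl⟩
    exact ⟨a₀ + b₀, Submodule.add_mem _ ha hb, map_add _ _ _⟩

/-- the ideal generated by `ζ` and `dζ` -/
private noncomputable def GyB_T (A : Type u) {R : Type v} [CommRing A] [CommRing R] [Algebra A R] (ζ : R) : Ideal (Fm A R) where
  carrier := {e | ∃ x y, e = fz A ζ * x + df A ζ * y}
  zero_mem' := ⟨0, 0, by rw [mul_zero, mul_zero, add_zero]⟩
  add_mem' := by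
    rintro _ _ ⟨x, y, rfl⟩ ⟨x', y', rfl⟩
    exact ⟨x + x', y + y', by rw [mul_add, mul_add]; abel⟩
  smul_mem' := by
    rintro c _ ⟨x, y, rfl⟩
    refine ⟨c * x, inv A c * y, ?_⟩
    rw [smul_eq_mul, mul_add, ← mul_assoc c, ← fz_comm, mul_assoc, ← mul_assoc c, ← mul_assoc (df A ζ), df_comm ζ,
      MPadcGP.inv_inv]

private theorem GyB_mem {ζ : R} {e : Fm A R} : e ∈ GyB_T A ζ ↔ ∃ x y, e = fz A ζ * x + df A ζ * y := Iff.rfl

private instance GyB_two (ζ : R) : (GyB_T A ζ).IsTwoSided := ⟨fun {a} b ha => by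
  obtain ⟨x, y, rfl⟩ := ha
  exact ⟨x * b, y * b, by rw [add_mul, mul_assoc, mul_assoc]⟩⟩

private theorem GyB_pjz (q : ℕ) (r : R) (e : Fm A R) : pj A q (fz A r * e) = fz A r * pj A q e := by
  induction e using homog_ind with
  | h0 => rw [mul_zero, map_zero, mul_zero]
  | h1 s e he =>
    rcases eq_or_ne s q with rfl | h
    · rw [pj_of_mem he, pj_of_mem (fz_mul_mem r he)]
    · rw [pj_of_ne he h, pj_of_ne (fz_mul_mem r he) h, mul_zero]
  | h2 a b ha hb => rw [mul_add, map_add, ha, hb, map_add, mul_add]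

private theorem GyB_dmem {s : ℕ} (r : R) {e : Fm A R} (he : e ∈ Fd A R s) : df A r * e ∈ Fd A R (s + 1) := by
  have h := fd_mul (df_mem (A := A) r) he
  rwa [add_comm] at h

private theorem GyB_pjd (q : ℕ) (r : R) (e : Fm A R) : pj A (q + 1) (df A r * e) = df A r * pj A q e := by
  induction e using homog_ind with
  | h0 => rw [mul_zero, map_zero, map_zero, mul_zero]
  | h1 s e he =>
    rcases eq_or_ne s q with rfl | h
    · rw [pj_of_mem he, pj_of_mem (GyB_dmem r he)]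
    · rw [pj_of_ne he h, pj_of_ne (GyB_dmem r he) (fun h' => h (Nat.succ_injective h')), mul_zero]
  | h2 a b ha hb => rw [mul_add, map_add, ha, hb, map_add, mul_add]

private theorem GyB_pjd0 (r : R) (e : Fm A R) : pj A 0 (df A r * e) = 0 := by
  induction e using homog_ind with
  | h0 => rw [mul_zero, map_zero]
  | h1 s e he => rw [pj_of_ne (GyB_dmem r he) (Nat.succ_ne_zero s)]
  | h2 a b ha hb => rw [mul_add, map_add, ha, hb, add_zero]

private theorem GyB_ker (hφ : CC A A φ) (hs : Function.Surjective φ)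
    (hA : ∀ a : A, φ (algebraMap A R a) = algebraMap A S a) {ζ : R} (hk : ∀ r, φ r = 0 → ∃ s, r = ζ * s)
    {e : Fm A R} (h : mp φ hφ e = 0) : e ∈ GyB_T A ζ := by
  have h1 : ∀ r, φ r = 0 → fz A r ∈ GyB_T A ζ := by
    intro r hr
    obtain ⟨s, rfl⟩ := hk r hr
    exact ⟨fz A s, 0, by rw [map_mul, mul_zero, add_zero]⟩
  have h2 : ∀ r, φ r = 0 → df A r ∈ GyB_T A ζ := by
    intro r hr
    obtain ⟨s, rfl⟩ := hk r hr
    exact ⟨df A s, fz A s, by rw [df_mul, fz_comm s]⟩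
  obtain ⟨g, hg⟩ : ∃ g : S →+* Fm A R ⧸ GyB_T A ζ, ∀ r, g (φ r) = Ideal.Quotient.mk _ (fz A r) := by
    refine ⟨RingHom.liftOfSurjective φ hs ⟨(Ideal.Quotient.mk (GyB_T A ζ)).comp (fz A), ?_⟩, fun r => ?_⟩
    · intro r hr
      rw [RingHom.mem_ker] at hr ⊢
      exact Ideal.Quotient.eq_zero_iff_mem.2 (h1 r hr)
    · exact RingHom.liftOfRightInverse_comp_apply _ _ _ _ r
  obtain ⟨d, hd⟩ : ∃ d : S →+ Fm A R ⧸ GyB_T A ζ, ∀ r, d (φ r) = Ideal.Quotient.mk _ (df A r) := by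
    let d0 : R →+ Fm A R ⧸ GyB_T A ζ :=
      { toFun := fun r => Ideal.Quotient.mk _ (df A r)
        map_zero' := by rw [df_zero, map_zero]
        map_add' := fun r s => by rw [df_add, map_add] }
    refine ⟨AddMonoidHom.liftOfSurjective φ.toAddMonoidHom hs ⟨d0, ?_⟩, fun r => ?_⟩
    · intro r hr
      rw [AddMonoidHom.mem_ker] at hr ⊢
      exact Ideal.Quotient.eq_zero_iff_mem.2 (h2 r hr)
    · exact AddMonoidHom.liftOfRightInverse_comp_apply _ _ _ _ r
  obtain ⟨Ψ, hΨ1, hΨ2⟩ := exists_hom (A := A) g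
    (by
      intro s x
      obtain ⟨r, rfl⟩ := hs s
      obtain ⟨x, rfl⟩ := Ideal.Quotient.mk_surjective x
      rw [hg, ← map_mul, ← map_mul, fz_comm])
    d
    (by
      intro s t
      obtain ⟨s, rfl⟩ := hs s
      obtain ⟨t, rfl⟩ := hs t
      rw [← map_mul φ, hd, hg, hg, hd, hd, df_mul, map_add, map_mul, map_mul])
    (by
      intro a
      rw [← hA a, hd, df_base, map_zero])
    (by
      intro s t
      obtain ⟨s, rfl⟩ := hs s
      obtain ⟨t, rfl⟩ := hs t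
      rw [hd, hd, ← map_mul, ← map_mul, ← map_add, df_swap, neg_add_cancel, map_zero])
    (by
      intro s
      obtain ⟨s, rfl⟩ := hs s
      rw [hd, ← map_mul, df_sq, map_zero])
  have h3 : Ψ.comp (mp φ hφ) = Ideal.Quotient.mk (GyB_T A ζ) :=
    hom_ext' (fun r => by rw [RingHom.comp_apply, mp_fz, hΨ1, hg]) (fun t => by rw [RingHom.comp_apply, mp_df, hΨ2, hd])
  have h4 : Ideal.Quotient.mk (GyB_T A ζ) e = 0 := by rw [← h3, RingHom.comp_apply, h, map_zero]
  exact Ideal.Quotient.eq_zero_iff_mem.1 h4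

/-- The kernel on forms of the homomorphism `R → R / ζ`. -/
theorem mp_kerz (hφ : CC A A φ) (hs : Function.Surjective φ)
    (hA : ∀ a : A, φ (algebraMap A R a) = algebraMap A S a) {ζ : R} (hk : ∀ r, φ r = 0 ↔ ∃ s, r = ζ * s) {q : ℕ}
    {e : Fm A R} (he : e ∈ Fd A R q) (h : mp φ hφ e = 0) :
    ∃ x ∈ Fd A R q, ∃ y : Fm A R, (∀ r, r + 1 = q → y ∈ Fd A R r) ∧ (q = 0 → y = 0) ∧
      e = fz A ζ * x + df A ζ * y := by
  obtain ⟨x, y, hxy⟩ := GyB_mem.1 (GyB_ker hφ hs hA (fun r hr => (hk r).1 hr) h)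
  have h1 : e = pj A q (fz A ζ * x + df A ζ * y) := by rw [← hxy, pj_of_mem he]
  rw [map_add, GyB_pjz] at h1
  cases q with
  | zero =>
    rw [GyB_pjd0, add_zero] at h1
    exact ⟨pj A 0 x, pj_mem 0 x, 0, fun r hr => absurd hr (Nat.succ_ne_zero r), fun _ => rfl, by rw [mul_zero, add_zero]; exact h1⟩
  | succ q =>
    rw [GyB_pjd] at h1
    refine ⟨pj A (q + 1) x, pj_mem _ x, pj A q y, fun r hr => ?_, fun h0 => absurd h0 (Nat.succ_ne_zero q), h1⟩
    rw [Nat.succ_injective hr]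
    exact pj_mem q y

end

end MPadcHS
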