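import Pool.Agent.Lib.MP_adc574_ag_HS.Defs

/-!
# HS, Gysin map: definitions

`z = Fin.last n`. `Gd Q P`: the standing hypotheses. `mn C`: the smallest element of `C`. `dl Q C l j = dlog (x_l / x_j)` on `U_C`
(`0` if `l ∉ C` or `j ∉ C`). `chn c`: the Chern part, `chn c C = - ∑_{j ∈ C} ± dlog (x_{mn C} / x_{mn (C - j)}) ∧ inv (c_{C - j})`.
`Gam c`: `(Gam c)_{C + z} = dlog (z / x_{mn C}) ∧ c_C` and `(Gam c)_C = (-1)^(|C| + 1) inv (chn c C)` for `z ∉ C`.
-/

set_option autoImplicit false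

namespace MPadcHS

open MvPolynomial MPadcGP MPadcDC

universe u v w

variable {A : Type u} [CommRing A] {n : ℕ}

/-- The standing hypotheses: `Y = Proj Q` is smooth, `z / x_j` is a non zero divisor on `U_C`, `z ∉ C`. -/
structure Gd (Q P : Ideal (MvPolynomial (Fin (n + 1)) A)) : Prop where
  eq : P = hyp Q
  hom : IsHomog Q
  sm : IsSmoothProj Q
  nz : ∀ (C : Finset (Fin (n + 1))) (j : Fin (n + 1)) (hj : j ∈ C), Fin.last n ∉ C →
    cq Q C (Fin.last n) hj ∈ nonZeroDivisors (chart Q C)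

/-- The smallest element of `C`. -/
noncomputable def mn (C : Finset (Fin (n + 1))) : Fin (n + 1) := if h : C.Nonempty then C.min' h else 0

theorem mn_eq {C : Finset (Fin (n + 1))} (h : C.Nonempty) : mn C = C.min' h := dif_pos h

theorem mn_mem {C : Finset (Fin (n + 1))} (h : C.Nonempty) : mn C ∈ C := by
  rw [mn_eq h]
  exact C.min'_mem h

variable (Q : Ideal (MvPolynomial (Fin (n + 1)) A))

/-- `dlog (x_l / x_j)` on `U_C`, `0` if `l ∉ C` or `j ∉ C`. -/
noncomputable def dl (C : Finset (Fin (n + 1))) (l j : Fin (n + 1)) : (prC Q).E C :=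
  if h : l ∈ C ∧ j ∈ C then dlg Q C l j h.1 h.2 else 0

theorem dl_eq {C : Finset (Fin (n + 1))} {l j : Fin (n + 1)} (hl : l ∈ C) (hj : j ∈ C) :
    dl Q C l j = dlg Q C l j hl hj := dif_pos ⟨hl, hj⟩

/-- The Chern part. -/
noncomputable def chn : (prC Q).Ch →ₗ[A] (prC Q).Ch where
  toFun c C := -∑ j ∈ C, sg j C • (dl Q C (mn C) (mn (C.erase j)) * (prC Q).ev ((prC Q).ic c) (C.erase j) C)
  map_add' b c := by
    funext C
    rw [Pi.add_apply, ← neg_add, ← Finset.sum_add_distrib]
    congr 1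
    refine Finset.sum_congr rfl fun j _ => ?_
    rw [map_add, CovD.ev_add, mul_add, smul_add]
  map_smul' a c := by
    funext C
    rw [RingHom.id_apply, Pi.smul_apply, smul_neg, Finset.smul_sum]
    congr 1
    refine Finset.sum_congr rfl fun j _ => ?_
    rw [map_smul, CovD.ev_smul, mul_smul_comm, smul_comm]

/-- The values of `Gam`. -/
noncomputable def gamF (c : (prC Q).Ch) (C : Finset (Fin (n + 1))) : (prC Q).E C :=
  if Fin.last n ∈ C then dl Q C (Fin.last n) (mn (C.erase (Fin.last n))) * (prC Q).ev c (C.erase (Fin.last n)) C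
  else (-1 : ℤ) ^ (C.card + 1) • inv A (chn Q c C)

/-- The operator `Gam`. -/
noncomputable def Gam : (prC Q).Ch →ₗ[A] (prC Q).Ch where
  toFun c C := gamF Q c C
  map_add' b c := by
    funext C
    change gamF Q (b + c) C = gamF Q b C + gamF Q c C
    unfold gamF
    split_ifs with h
    · rw [CovD.ev_add, mul_add]
    · rw [map_add, Pi.add_apply, map_add, smul_add]
  map_smul' a c := by
    funext C
    change gamF Q (a • c) C = a • gamF Q c C
    unfold gamF
    split_ifs with h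
    · rw [CovD.ev_smul, mul_smul_comm]
    · rw [map_smul, Pi.smul_apply, ← invl_apply, map_smul, smul_comm]
      rfl

theorem Gam_of_mem {c : (prC Q).Ch} {C : Finset (Fin (n + 1))} (h : Fin.last n ∈ C) :
    Gam Q c C = dl Q C (Fin.last n) (mn (C.erase (Fin.last n))) * (prC Q).ev c (C.erase (Fin.last n)) C := if_pos h

theorem Gam_of_notMem {c : (prC Q).Ch} {C : Finset (Fin (n + 1))} (h : Fin.last n ∉ C) :
    Gam Q c C = (-1 : ℤ) ^ (C.card + 1) • inv A (chn Q c C) := if_neg h

theorem chn_apply (c : (prC Q).Ch) (C : Finset (Fin (n + 1))) : chn Q c C =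
    -∑ j ∈ C, sg j C • (dl Q C (mn C) (mn (C.erase j)) * (prC Q).ev ((prC Q).ic c) (C.erase j) C) := rfl

end MPadcHS
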