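import Pool.Agent.Lib.MP_adc574_ag_HS.GyD

/-!
# JOB GyE (HS, Part P)

`Gam_of_mem`, `Gam_of_notMem`, `chn_apply` (GyDefs.lean). `Gam_insert`: `(insert z C).erase z = C` (`Finset.erase_insert hz`), `mn_eq hC`, `dl_eq`, `CovD.ev_of`. (Rewriting `(insert z C).erase z` inside `ev`: generalize `(insert z C).erase z = C'`, `subst`.)
`Gam_last`: `({z} : Finset _).erase z = ∅`, `ev_eq_zero h0`, `mul_zero`. `Gam_empty`: the sum over `∅`.
`Gam_mem`: `mem_Tt`; for `z ∈ C`: `(C.erase z).card + 1 = C.card`, `ev_mem`, `dl_mul_mem`; if `q + C.card = m + 3`: `q = q' + 1` with `q' + (C.erase z).card = m + 1`, or `q = 0` and then `(C.erase z).card = m + 2 > m + 1`, `c (C.erase z) = 0`, `ev_eq_zero`. For `z ∉ C`: every term of the sum `chn_apply` in the same way (`ev_ic`), `inv_mem'`, `zsmul_mem`, `Submodule.sum_mem`, `neg_mem`.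
`Gam_mem_Fi`: in addition `m + 3 < C.card + (i + 1)` implies `m + 1 < (C.erase j).card + i`, so all the `ev`s are `0`. `Gam_mem_Ni`: `C.card + (i + 1) < m + 3` implies `(C.erase j).card + i < m + 1` (for `j ∈ C`); `C.card + (i + 1) = m + 3` implies `(C.erase j).card + i = m + 1`, so `dd (c (C.erase j)) = 0`, `dd (ev ..) = 0` (`ev_dc`, `ev_ic`, `inv_dd`),
`dd_dl_mul`. (`C = ∅`: `Gam_empty`.)
-/

set_option autoImplicit false

namespace MPadcHS

open MvPolynomial MPadcGP MPadcDC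

universe u v w

section

variable {A : Type u} [CommRing A] {n : ℕ} {Q : Ideal (MvPolynomial (Fin (n + 1)) A)}

/-- A subgroup stable under the involution, containing the products with the logarithmic forms, contains the values of `Gam`. -/
private theorem GyE_ind {c : (prC Q).Ch} {C : Finset (Fin (n + 1))} (S : AddSubgroup ((prC Q).E C))
    (hi : ∀ x ∈ S, inv A x ∈ S)
    (h : ∀ j ∈ C, ∀ l i, dl Q C l i * (prC Q).ev c (C.erase j) C ∈ S) : Gam Q c C ∈ S := by
  by_cases hz : Fin.last n ∈ C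
  · rw [Gam_of_mem Q hz]
    exact h _ hz _ _
  · rw [Gam_of_notMem Q hz, chn_apply]
    refine S.zsmul_mem (hi _ (S.neg_mem (S.sum_mem fun j hj => S.zsmul_mem ?_ _))) _
    have h1 : dl Q C (mn C) (mn (C.erase j)) * (prC Q).ev ((prC Q).ic c) (C.erase j) C =
        -inv A (dl Q C (mn C) (mn (C.erase j)) * (prC Q).ev c (C.erase j) C) := by
      rw [inv_dl_mul, neg_neg, CovD.ev_ic]
    rw [h1]
    exact S.neg_mem (hi _ (h j hj _ _))

private theorem GyE_zero {c : (prC Q).Ch} {C : Finset (Fin (n + 1))} (h : ∀ j ∈ C, c (C.erase j) = 0) :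
    Gam Q c C = 0 := by
  have h1 : Gam Q c C ∈ (⊥ : AddSubgroup ((prC Q).E C)) := by
    refine GyE_ind ⊥ ?_ ?_
    · intro x hx
      rw [AddSubgroup.mem_bot] at hx ⊢
      rw [hx, map_zero]
    · intro j hj l i
      rw [AddSubgroup.mem_bot, CovD.ev_eq_zero (h j hj), mul_zero]
  exact AddSubgroup.mem_bot.1 h1

theorem Gam_insert (c : (prC Q).Ch) {C : Finset (Fin (n + 1))} (hC : C.Nonempty) (hz : Fin.last n ∉ C) :
    Gam Q c (insert (Fin.last n) C) = dlg Q (insert (Fin.last n) C) (Fin.last n) (C.min' hC) (Finset.mem_insert_self _ _)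
      (Finset.mem_insert_of_mem (C.min'_mem hC)) * (prC Q).rs (Finset.subset_insert (Fin.last n) C) (c C) := by
  have h1 : (insert (Fin.last n) C).erase (Fin.last n) = C := Finset.erase_insert hz
  rw [Gam_of_mem Q (Finset.mem_insert_self _ _), h1, mn_eq hC,
    dl_eq Q (Finset.mem_insert_self _ _) (Finset.mem_insert_of_mem (C.min'_mem hC)),
    CovD.ev_of (Finset.subset_insert (Fin.last n) C)]

theorem Gam_last {c : (prC Q).Ch} (h0 : c ∅ = 0) : Gam Q c {Fin.last n} = 0 := by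
  refine GyE_zero fun j hj => ?_
  have h1 : ({Fin.last n} : Finset (Fin (n + 1))).erase j = ∅ := by
    rw [Finset.mem_singleton.1 hj, Finset.erase_singleton]
  rw [h1, h0]

theorem Gam_empty (c : (prC Q).Ch) : Gam Q c ∅ = 0 := by
  exact GyE_zero fun j hj => absurd hj (Finset.notMem_empty j)

theorem Gam_mem {m : ℕ} {c : (prC Q).Ch} (hc : c ∈ (prC Q).Tt m) : Gam Q c ∈ (prC Q).Tt (m + 2) := by
  rw [CovD.mem_Tt] at hc ⊢
  refine ⟨Gam_empty c, fun J => ⟨fun q hq => ?_, fun h => ?_⟩⟩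
  · refine GyE_ind (Fd A ((prC Q).R J) q).toAddSubgroup (fun x hx => inv_mem' hx) fun j hj l i => ?_
    have h1 := Finset.card_erase_add_one hj
    change _ ∈ Fd A ((prC Q).R J) q
    cases q with
    | zero =>
      rw [CovD.ev_eq_zero ((hc.2 _).2 (by omega)), mul_zero]
      exact Submodule.zero_mem _
    | succ q => exact dl_mul_mem l i (CovD.ev_mem ((hc.2 _).1 q (by omega)) _)
  · refine GyE_zero fun j hj => ?_
    have h1 := Finset.card_erase_add_one hj
    exact (hc.2 _).2 (by omega)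

theorem Gam_mem_Fi {i m : ℕ} {c : (prC Q).Ch} (hc : c ∈ (prC Q).Fi i m) : Gam Q c ∈ (prC Q).Fi (i + 1) (m + 2) := by
  rw [CovD.mem_Fi] at hc ⊢
  refine ⟨Gam_mem hc.1, fun J hJ => GyE_zero fun j hj => ?_⟩
  have h1 := Finset.card_erase_add_one hj
  exact hc.2 _ (by omega)

theorem Gam_mem_Ni {i m : ℕ} {c : (prC Q).Ch} (hc : c ∈ (prC Q).Ni i m) : Gam Q c ∈ (prC Q).Ni (i + 1) (m + 2) := by
  rw [CovD.mem_Ni] at hc ⊢
  refine ⟨Gam_mem hc.1, fun J => ⟨fun hJ => GyE_zero fun j hj => ?_, fun hJ => ?_⟩⟩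
  · have h1 := Finset.card_erase_add_one hj
    exact (hc.2 _).1 (by omega)
  · have h2 : Gam Q c J ∈ (dd A : Fm A ((prC Q).R J) →+ Fm A ((prC Q).R J)).ker := by
      refine GyE_ind _ (fun x hx => ?_) fun j hj l i => ?_
      · rw [AddMonoidHom.mem_ker] at hx ⊢
        have h3 : dd A (inv A x) = -inv A (dd A x) := by
          rw [inv_dd, neg_neg]
        rw [h3, hx, map_zero, neg_zero]
      · have h1 := Finset.card_erase_add_one hj
        have h4 : dd A ((prC Q).ev c (J.erase j) J) = 0 := by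
          rw [← CovD.ev_dc]
          refine CovD.ev_eq_zero ?_ _
          rw [CovD.dc_apply]
          exact (hc.2 _).2 (by omega)
        rw [AddMonoidHom.mem_ker, dd_dl_mul, h4, mul_zero, neg_zero]
    exact h2

end

end MPadcHS
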