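import Pool.Agent.Lib.MP_adc574_ag_HS.GyE

/-!
# JOB GyF (HS, Part P)

Write `C⁺ = insert z C`, `X = prC Q`. `X.Dt c J = dd (c J) + ∑ j ∈ J, sg j J • X.ev (X.ic c) (J.erase j) J` (`Dt_apply`, `dc_apply`, `del_apply`). `sg z C⁺ = (-1)^|C|`, `sg j C⁺ = sg j C` for `j ∈ C` (`z` is the largest index). `C⁺.erase z = C`, `C⁺.erase j = (C.erase j)⁺`.
(1) `dd (Gam c C⁺) = - dl C⁺ z (mn C) * rs (dd (c C))` (`Gam_of_mem`, `dd_dl_mul`).
(2) for `j ∈ C`: `ev (ic (Gam c)) (C.erase j)⁺ C⁺ = - dl C⁺ z (mn (C.erase j)) * ev (ic c) (C.erase j) C⁺` (`inv_dl_mul`, `rs_dl`, `rs_ev`; if `C.erase j = ∅` both sides are `0` as `c ∅ = 0`) `= - dl C⁺ z (mn C) * ev (ic c) (C.erase j) C⁺ - dl C⁺ (mn C) (mn (C.erase j)) * ev (ic c) (C.erase j) C⁺` (`dl_add`, `mn_mem`).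
(3) `sg z C⁺ • ev (ic (Gam c)) C C⁺ = (-1)^|C| • inv (rs ((-1)^(|C|+1) • inv (chn c C))) = - rs (chn c C)` (`inv_inv`), and `rs (chn c C) = - ∑ j ∈ C, sg j C • (dl C⁺ (mn C) (mn (C.erase j)) * ev (ic c) (C.erase j) C⁺)` (`rs_dl`, `rs_ev`).
The sum: the terms with `dl (mn C) (mn (C.erase j))` cancel, what remains is `- dl C⁺ z (mn C) * rs (Dt c C)`.
`Dt_Gam_last`: `dd (Gam c {z}) = 0` (`Gam_last`), the only other term is `sg z {z} • ev (ic (Gam c)) ∅ {z}`, `Gam_empty`.
-/

set_option autoImplicit false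

namespace MPadcHS

open MvPolynomial MPadcGP MPadcDC

universe u v w

section

variable {A : Type u} [CommRing A] {n : ℕ} {Q : Ideal (MvPolynomial (Fin (n + 1)) A)}

private theorem GyF_sg_last {C : Finset (Fin (n + 1))} (hz : Fin.last n ∉ C) :
    sg (Fin.last n) (insert (Fin.last n) C) = (-1) ^ C.card := by
  unfold sg
  congr 2
  ext k
  rw [Finset.mem_filter, Finset.mem_insert]
  constructor
  · rintro ⟨h1 | h1, h2⟩
    · exact absurd h2 (by rw [h1]; exact lt_irrefl _)
    · exact h1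
  · intro h1
    exact ⟨Or.inr h1, lt_of_le_of_ne (Fin.le_last k) fun h2 => hz (h2 ▸ h1)⟩

private theorem GyF_sg {C : Finset (Fin (n + 1))} (j : Fin (n + 1)) :
    sg j (insert (Fin.last n) C) = sg j C := by
  unfold sg
  congr 2
  ext k
  rw [Finset.mem_filter, Finset.mem_filter, Finset.mem_insert]
  constructor
  · rintro ⟨h1 | h1, h2⟩
    · rw [h1] at h2
      exact absurd h2 (not_lt.2 (Fin.le_last j))
    · exact ⟨h1, h2⟩
  · rintro ⟨h1, h2⟩
    exact ⟨Or.inr h1, h2⟩

private theorem GyF_term {c : (prC Q).Ch} (h0 : c ∅ = 0) {C : Finset (Fin (n + 1))} (hC : C.Nonempty)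
    (hz : Fin.last n ∉ C) {j : Fin (n + 1)} (hj : j ∈ C) :
    (prC Q).ev ((prC Q).ic (Gam Q c)) ((insert (Fin.last n) C).erase j) (insert (Fin.last n) C) =
      -(dl Q (insert (Fin.last n) C) (Fin.last n) (mn C) *
        (prC Q).ev ((prC Q).ic c) (C.erase j) (insert (Fin.last n) C)) -
      dl Q (insert (Fin.last n) C) (mn C) (mn (C.erase j)) *
        (prC Q).ev ((prC Q).ic c) (C.erase j) (insert (Fin.last n) C) := by
  have hjz : j ≠ Fin.last n := fun h => hz (h ▸ hj)
  have he : (insert (Fin.last n) C).erase j = insert (Fin.last n) (C.erase j) :=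
    Finset.erase_insert_of_ne (Ne.symm hjz)
  have hzj : Fin.last n ∉ C.erase j := fun h => hz (Finset.mem_of_mem_erase h)
  rw [he, CovD.ev_ic]
  have hsub : insert (Fin.last n) (C.erase j) ⊆ insert (Fin.last n) C :=
    Finset.insert_subset_insert _ (Finset.erase_subset _ _)
  by_cases hne : (C.erase j).Nonempty
  · have h1 : (prC Q).ev (Gam Q c) (insert (Fin.last n) (C.erase j)) (insert (Fin.last n) C) =
        dl Q (insert (Fin.last n) C) (Fin.last n) (mn (C.erase j)) *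
          (prC Q).ev c (C.erase j) (insert (Fin.last n) C) := by
      rw [CovD.ev_of hsub, Gam_insert c hne hzj, map_mul, ← dl_eq, ← mn_eq hne,
        rs_dl hsub (Finset.mem_insert_self _ _) (Finset.mem_insert_of_mem (mn_mem hne)), CovD.rs_rs,
        CovD.ev_of ((Finset.subset_insert _ _).trans hsub)]
    have hm : mn (C.erase j) ∈ insert (Fin.last n) C :=
      Finset.mem_insert_of_mem (Finset.mem_of_mem_erase (mn_mem hne))
    rw [h1, inv_dl_mul, CovD.ev_ic, dl_add (Finset.mem_insert_self _ _)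
      (Finset.mem_insert_of_mem (mn_mem hC)) hm, add_mul, neg_add, sub_eq_add_neg]
  · rw [Finset.not_nonempty_iff_eq_empty] at hne
    rw [hne]
    have h1 : (prC Q).ev ((prC Q).ic c) ∅ (insert (Fin.last n) C) = 0 := by
      rw [CovD.ev_ic, CovD.ev_eq_zero h0, map_zero]
    have h2 : Gam Q c (insert (Fin.last n) ∅) = 0 := Gam_last h0
    rw [h1, CovD.ev_eq_zero h2, map_zero, mul_zero, mul_zero, neg_zero, sub_zero]

private theorem GyF_chn {c : (prC Q).Ch} (h0 : c ∅ = 0) {C : Finset (Fin (n + 1))} (hC : C.Nonempty) :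
    (prC Q).rs (Finset.subset_insert (Fin.last n) C) (chn Q c C) =
      -∑ j ∈ C, sg j C • (dl Q (insert (Fin.last n) C) (mn C) (mn (C.erase j)) *
        (prC Q).ev ((prC Q).ic c) (C.erase j) (insert (Fin.last n) C)) := by
  rw [chn_apply, map_neg, map_sum]
  congr 1
  refine Finset.sum_congr rfl fun j hj => ?_
  rw [map_zsmul, map_mul, CovD.rs_ev (Finset.erase_subset _ _)]
  by_cases hne : (C.erase j).Nonempty
  · rw [rs_dl _ (mn_mem hC) (Finset.mem_of_mem_erase (mn_mem hne))]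
  · rw [Finset.not_nonempty_iff_eq_empty] at hne
    have h1 : (prC Q).ev ((prC Q).ic c) (C.erase j) (insert (Fin.last n) C) = 0 := by
      rw [hne, CovD.ev_ic, CovD.ev_eq_zero h0, map_zero]
    rw [h1, mul_zero, mul_zero]

/-- The main identity for `Gam`. -/
theorem Dt_Gam_insert {c : (prC Q).Ch} (h0 : c ∅ = 0) {C : Finset (Fin (n + 1))} (hC : C.Nonempty) (hz : Fin.last n ∉ C) :
    (prC Q).Dt (Gam Q c) (insert (Fin.last n) C) = -(dlg Q (insert (Fin.last n) C) (Fin.last n) (C.min' hC)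
      (Finset.mem_insert_self _ _) (Finset.mem_insert_of_mem (C.min'_mem hC)) *
        (prC Q).rs (Finset.subset_insert (Fin.last n) C) ((prC Q).Dt c C)) := by
  have hd : dlg Q (insert (Fin.last n) C) (Fin.last n) (C.min' hC)
      (Finset.mem_insert_self _ _) (Finset.mem_insert_of_mem (C.min'_mem hC)) =
      dl Q (insert (Fin.last n) C) (Fin.last n) (mn C) := by
    rw [← dl_eq, ← mn_eq hC]
  have e1 : dd A (Gam Q c (insert (Fin.last n) C)) =
      -(dl Q (insert (Fin.last n) C) (Fin.last n) (mn C) *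
        (prC Q).rs (Finset.subset_insert (Fin.last n) C) (dd A (c C))) := by
    rw [Gam_insert c hC hz, hd, dd_dl_mul, CovD.rs_dd]
  have e2 : sg (Fin.last n) (insert (Fin.last n) C) • (prC Q).ev ((prC Q).ic (Gam Q c))
      ((insert (Fin.last n) C).erase (Fin.last n)) (insert (Fin.last n) C) =
      ∑ j ∈ C, sg j C • (dl Q (insert (Fin.last n) C) (mn C) (mn (C.erase j)) *
        (prC Q).ev ((prC Q).ic c) (C.erase j) (insert (Fin.last n) C)) := by
    rw [Finset.erase_insert hz, CovD.ev_ic, CovD.ev_of (Finset.subset_insert _ _),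
      Gam_of_notMem Q hz, map_zsmul, CovD.rs_inv, map_zsmul, MPadcGP.inv_inv, GyF_chn h0 hC, smul_smul,
      GyF_sg_last hz, pow_succ, mul_neg_one, mul_neg, ← pow_add, ← two_mul, pow_mul, neg_one_sq,
      one_pow, neg_smul, one_smul, neg_neg]
  have e3 : ∑ j ∈ C, sg j (insert (Fin.last n) C) • (prC Q).ev ((prC Q).ic (Gam Q c))
      ((insert (Fin.last n) C).erase j) (insert (Fin.last n) C) =
      -(dl Q (insert (Fin.last n) C) (Fin.last n) (mn C) * ∑ j ∈ C, sg j C •
        (prC Q).ev ((prC Q).ic c) (C.erase j) (insert (Fin.last n) C)) -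
      ∑ j ∈ C, sg j C • (dl Q (insert (Fin.last n) C) (mn C) (mn (C.erase j)) *
        (prC Q).ev ((prC Q).ic c) (C.erase j) (insert (Fin.last n) C)) := by
    rw [Finset.mul_sum, ← Finset.sum_neg_distrib, ← Finset.sum_sub_distrib]
    refine Finset.sum_congr rfl fun j hj => ?_
    rw [GyF_sg, GyF_term h0 hC hz hj, smul_sub, smul_neg, mul_smul_comm]
  have e4 : (prC Q).rs (Finset.subset_insert (Fin.last n) C) ((prC Q).Dt c C) =
      (prC Q).rs (Finset.subset_insert (Fin.last n) C) (dd A (c C)) + ∑ j ∈ C, sg j C •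
        (prC Q).ev ((prC Q).ic c) (C.erase j) (insert (Fin.last n) C) := by
    rw [CovD.Dt_apply, Pi.add_apply, CovD.dc_apply, CovD.del_apply, map_add, map_sum]
    congr 1
    refine Finset.sum_congr rfl fun j _ => ?_
    rw [map_zsmul, CovD.rs_ev (Finset.erase_subset _ _)]
  rw [CovD.Dt_apply, Pi.add_apply, CovD.dc_apply, CovD.del_apply, Finset.sum_insert hz, e1, e2, e3,
    hd, e4, mul_add, neg_add]
  abel

theorem Dt_Gam_last {c : (prC Q).Ch} (h0 : c ∅ = 0) : (prC Q).Dt (Gam Q c) {Fin.last n} = 0 := by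
  rw [CovD.Dt_apply, Pi.add_apply, CovD.dc_apply, CovD.del_apply, Gam_last h0, map_zero, zero_add,
    Finset.sum_singleton]
  have h1 : ({Fin.last n} : Finset (Fin (n + 1))).erase (Fin.last n) = ∅ := Finset.erase_singleton _
  rw [h1, CovD.ev_ic, CovD.ev_eq_zero (Gam_empty c), map_zero, smul_zero]

end

end MPadcHS
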