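import Pool.Agent.Lib.MP_adc574_ag_HS.GyC
import Pool.Agent.Lib.MP_adc574_ag_HS.GyF

/-!
# JOB GyG (HS, Part P)

`Dt_insert`: `Dt_apply`, `dc_apply`, `del_apply`; `v C⁺ = 0`; in the sum over `j ∈ C⁺` the terms `j ∈ C` vanish (`z ∈ C⁺.erase j`, `ev_eq_zero`), the term `j = z`: `sg z C⁺ = (-1)^|C|` (`C⁺.filter (· < z) = C`), `C⁺.erase z = C`, `ev_of`, `ic_apply`, `rs_inv`.
`zero_of_last`: for `C` nonempty, `z ∉ C`: `(-1)^|C| • inv (rs (v C)) = 0`, so `rs (v C) = 0` (`inv_inv`), `v C = 0` (`rs_injA`).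
`Dt_Gam`: apply `zero_of_last` to `v := Dt (Gam c) + Gam (Dt c)`: `(Dt c) ∅ = dd (c ∅) = 0`; `v ∅ = 0` (`Gam_empty`); `v C⁺ = 0` (`Dt_Gam_insert`, `Gam_insert`), `v {z} = 0` (`Dt_Gam_last`, `Gam_last`); every `C` with `z ∈ C` is `{z}` or `insert z (C.erase z)` with `C.erase z` nonempty;
`Dt v = Dt (Gam (Dt c))` (`Dt_Dt`), on `C⁺` it is `- dlg * rs (Dt (Dt c) C) = 0`.
-/

set_option autoImplicit false

namespace MPadcHS

open MvPolynomial MPadcGP MPadcDC

universe u v w

section

variable {A : Type u} [CommRing A] {n : ℕ} {Q P : Ideal (MvPolynomial (Fin (n + 1)) A)}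

/-- The value of `D v` on `C + z` if `v` vanishes on the sets containing `z`. -/
theorem Dt_insert {v : (prC Q).Ch} (hv : ∀ C, Fin.last n ∈ C → v C = 0) {C : Finset (Fin (n + 1))} (hz : Fin.last n ∉ C) :
    (prC Q).Dt v (insert (Fin.last n) C) =
      (-1 : ℤ) ^ C.card • inv A ((prC Q).rs (Finset.subset_insert (Fin.last n) C) (v C)) := by
  have h1 : (insert (Fin.last n) C).erase (Fin.last n) = C := Finset.erase_insert hz
  have h2 : sg (Fin.last n) (insert (Fin.last n) C) = (-1) ^ C.card := by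
    unfold sg
    congr 2
    ext k
    simp only [Finset.mem_filter, Finset.mem_insert]
    constructor
    · rintro ⟨h | h, h3⟩
      · exact absurd h (ne_of_lt h3)
      · exact h
    · intro h
      refine ⟨Or.inr h, lt_of_le_of_ne (Fin.le_last k) ?_⟩
      rintro rfl
      exact hz h
  have h3 : ∑ j ∈ C, sg j (insert (Fin.last n) C) •
      (prC Q).ev ((prC Q).ic v) ((insert (Fin.last n) C).erase j) (insert (Fin.last n) C) = 0 := by
    refine Finset.sum_eq_zero fun j hj => ?_
    have h4 : Fin.last n ∈ (insert (Fin.last n) C).erase j :=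
      Finset.mem_erase.2 ⟨fun h => hz (h ▸ hj), Finset.mem_insert_self _ _⟩
    rw [CovD.ev_ic, CovD.ev_eq_zero (hv _ h4), map_zero, smul_zero]
  rw [CovD.Dt_apply, Pi.add_apply, CovD.dc_apply, hv _ (Finset.mem_insert_self _ _), map_zero, zero_add,
    CovD.del_apply, Finset.sum_insert hz, h3, add_zero, h2, h1, CovD.ev_of (Finset.subset_insert _ _),
    CovD.ic_apply, CovD.rs_inv]

/-- A cochain is `0` if its components and those of its differential on the sets containing `z` are `0`. -/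
theorem zero_of_last (h : Gd Q P) {v : (prC Q).Ch} (h0 : v ∅ = 0) (hv : ∀ C, Fin.last n ∈ C → v C = 0)
    (hd : ∀ C : Finset (Fin (n + 1)), C.Nonempty → Fin.last n ∉ C → (prC Q).Dt v (insert (Fin.last n) C) = 0) : v = 0 := by
  funext C
  rw [Pi.zero_apply]
  by_cases hz : Fin.last n ∈ C
  · exact hv C hz
  · rcases C.eq_empty_or_nonempty with hC | hC
    · rw [hC]
      exact h0
    · have h1 := hd C hC hz
      rw [Dt_insert hv hz] at h1
      have h2 : inv A ((prC Q).rs (Finset.subset_insert (Fin.last n) C) (v C)) = 0 := by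
        have h3 := congrArg (fun e => (-1 : ℤ) ^ C.card • e) h1
        simp only [smul_zero, smul_smul] at h3
        rw [← mul_pow, neg_one_mul, neg_neg, one_pow, one_smul] at h3
        exact h3
      have h4 : (prC Q).rs (Finset.subset_insert (Fin.last n) C) (v C) = 0 := by
        rw [← inv_inv (A := A) ((prC Q).rs (Finset.subset_insert (Fin.last n) C) (v C)), h2, map_zero]
      exact rs_injA h hC hz (h4.trans (map_zero _).symm)

theorem Dt_Gam (h : Gd Q P) {c : (prC Q).Ch} (h0 : c ∅ = 0) : (prC Q).Dt (Gam Q c) = -Gam Q ((prC Q).Dt c) := by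
  have hD0 : (prC Q).Dt c ∅ = 0 := by
    rw [CovD.Dt_apply, Pi.add_apply, CovD.dc_apply, h0, map_zero, zero_add, CovD.del_apply, Finset.sum_empty]
  refine eq_neg_of_add_eq_zero_left (zero_of_last h ?_ ?_ ?_)
  · rw [Pi.add_apply, Gam_empty, add_zero, CovD.Dt_apply, Pi.add_apply, CovD.dc_apply, Gam_empty, map_zero,
      zero_add, CovD.del_apply, Finset.sum_empty]
  · intro C hz
    rcases (C.erase (Fin.last n)).eq_empty_or_nonempty with hC | hC
    · have h1 : C = {Fin.last n} := by
        rw [← Finset.insert_erase hz, hC, insert_empty_eq]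
      rw [h1, Pi.add_apply, Dt_Gam_last h0, Gam_last hD0, add_zero]
    · have h1 : Fin.last n ∉ C.erase (Fin.last n) := Finset.notMem_erase _ _
      have h2 : insert (Fin.last n) (C.erase (Fin.last n)) = C := Finset.insert_erase hz
      rw [← h2, Pi.add_apply, Dt_Gam_insert h0 hC h1, Gam_insert _ hC h1, neg_add_cancel]
  · intro C hC hz
    rw [map_add, CovD.Dt_Dt, zero_add, Dt_Gam_insert hD0 hC hz, CovD.Dt_Dt, Pi.zero_apply, map_zero, mul_zero, neg_zero]

end

end MPadcHS
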