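import Pool.Agent.Lib.MP_adc574_ag_HS.GyA
import Pool.Agent.Lib.MP_adc574_ag_HS.GyB
import Pool.Agent.Lib.MP_adc574_ag_HS.GyG

/-!
# JOB GyH (HS, Part P)

For `C` nonempty, `z ∉ C`, `e C ≠ 0`: `j := C.min' hC`, `ζ := cq Q C z hj`. `(rsH hle).push e = 0` gives `mp ((rsH hle).h C) _ (e C) = 0` (`CovD.Hm.push_apply`, `CovD.Hm.e`). `mp_kerz` with `rsH_surj`, `rsH_ker h.hom h.eq hle hj hz`: `e C = fz ζ * x + df ζ * y`, `x ∈ Fd q`, where `q + C.card = m + 1` (such a `q` exists since `e C ≠ 0`, `he`).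
Put `v C := (-1)^|C| • inv (df ζ * x)`; `v C := 0` if `e C = 0` or `z ∈ C` or `C = ∅`. By `Dt_insert` (GyG.lean) `(Dt v)(C⁺) = (-1)^|C| • inv (rs (v C)) = rs (df ζ * x) = df ζ' * rs x`, `ζ' = cq Q C⁺ z _` (`rs_df`, `tr_cq`), and `dlg * rs (e C) = fz ζ'⁻¹ * df ζ' * (fz ζ' * rs x + df ζ' * rs y) = df ζ' * rs x` (`cq_mul`, `cq_self`, `df_sq`, `fz_comm`).
If `e C = 0` both sides are `0`. `v ∈ Tt (m + 1)`: `df ζ * x ∈ Fd (q + 1)`, `(q + 1) + C.card = m + 2`. `Fi`: `e C = 0` implies `v C = 0`. `Ni`: if `C.card + (i + 1) = m + 2` then `dd (e C) = 0`, and `rs (dd (v C)) = ± dd (dlg * rs (e C)) = ∓ dlg * rs (dd (e C)) = 0` (`dd_dl_mul`, `inv_dd`), so `dd (v C) = 0` (`rs_injA`).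
-/

set_option autoImplicit false

namespace MPadcHS

open MvPolynomial MPadcGP MPadcDC

universe u v w

section

variable {A : Type u} [CommRing A] {n : ℕ} {Q P : Ideal (MvPolynomial (Fin (n + 1)) A)}

private theorem GyH_pt (h : Gd Q P) (hle : Q ≤ P) {m : ℕ} {e : (prC Q).Ch} (he : e ∈ (prC Q).Tt m)
    (h0 : (rsH hle).push e = 0) (C : Finset (Fin (n + 1))) (hC : C.Nonempty) (hz : Fin.last n ∉ C) :
    ∃ v : (prC Q).E C, (∀ q, q + C.card = m + 2 → v ∈ Fd A ((prC Q).R C) q) ∧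
      (m + 2 < C.card → v = 0) ∧ (e C = 0 → v = 0) ∧
      (-1 : ℤ) ^ C.card • inv A ((prC Q).rs (Finset.subset_insert (Fin.last n) C) v) =
        dlg Q (insert (Fin.last n) C) (Fin.last n) (C.min' hC) (Finset.mem_insert_self _ _)
          (Finset.mem_insert_of_mem (C.min'_mem hC)) *
          (prC Q).rs (Finset.subset_insert (Fin.last n) C) (e C) := by
  by_cases h1 : e C = 0
  · refine ⟨0, fun _ _ => Submodule.zero_mem _, fun _ => rfl, fun _ => rfl, ?_⟩
    rw [h1, map_zero, map_zero, smul_zero, mul_zero]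
  · have hcard : C.card ≤ m + 1 := by
      by_contra h2
      exact h1 ((he.2 C).2 (by omega))
    obtain ⟨q, hq⟩ : ∃ q, q + C.card = m + 1 := ⟨m + 1 - C.card, by omega⟩
    have h2 : mp ((rsH hle).h C) ((rsH hle).cc C) (e C) = 0 := congrFun h0 C
    obtain ⟨x, hx, y, _, _, hxy⟩ := mp_kerz ((rsH hle).cc C) (rsH_surj hle C)
      (fun a => (rsH hle).base C a)
      (rsH_ker h.hom h.eq hle (C.min'_mem hC) hz) ((he.2 C).1 q hq) h2
    obtain ⟨ζ, hζ⟩ : ∃ ζ : (prC Q).R C, ζ = cq Q C (Fin.last n) (C.min'_mem hC) := ⟨_, rfl⟩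
    have hxy' : e C = fz A ζ * x + df A ζ * y := by
      rw [hζ]
      exact hxy
    refine ⟨(-1 : ℤ) ^ C.card • inv A (df A ζ * x), fun q' hq' => ?_, fun h3 => by omega,
      fun h3 => absurd h3 h1, ?_⟩
    · have h3 : q' = 1 + q := by omega
      rw [h3]
      exact zsmul_mem (inv_mem' (fd_mul (df_mem ζ) hx)) _
    · obtain ⟨ζ', hζ'⟩ : ∃ ζ' : (prC Q).R (insert (Fin.last n) C),
          ζ' = cq Q (insert (Fin.last n) C) (Fin.last n)
            (Finset.mem_insert_of_mem (C.min'_mem hC)) := ⟨_, rfl⟩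
      obtain ⟨η, hη⟩ : ∃ η : (prC Q).R (insert (Fin.last n) C),
          η = cq Q (insert (Fin.last n) C) (C.min' hC) (Finset.mem_insert_self _ _) := ⟨_, rfl⟩
      have hρ : (prC Q).ρ (Finset.subset_insert (Fin.last n) C) ζ = ζ' := by
        rw [hζ, hζ']
        exact tr_cq Q (Finset.subset_insert (Fin.last n) C) (Fin.last n) (C.min'_mem hC)
      have hηζ : η * ζ' = 1 := by
        rw [hη, hζ']
        have h4 := cq_mul Q (insert (Fin.last n) C) (l := C.min' hC) (j := Fin.last n)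
          (m := C.min' hC) (Finset.mem_insert_self _ _) (Finset.mem_insert_of_mem (C.min'_mem hC))
        rw [cq_self] at h4
        exact h4
      have hd : dlg Q (insert (Fin.last n) C) (Fin.last n) (C.min' hC) (Finset.mem_insert_self _ _)
          (Finset.mem_insert_of_mem (C.min'_mem hC)) = fz A η * df A ζ' := by
        rw [hη, hζ']
        rfl
      have hff : fz A η * fz A ζ' = (1 : (prC Q).E (insert (Fin.last n) C)) := by
        rw [← map_mul, hηζ, map_one]
      have key : ∀ X Y : (prC Q).E (insert (Fin.last n) C),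
          fz A η * df A ζ' * (fz A ζ' * X + df A ζ' * Y) = df A ζ' * X := by
        intro X Y
        have h5 : fz A η * df A ζ' * (fz A ζ' * X + df A ζ' * Y) =
            fz A η * (df A ζ' * fz A ζ') * X + fz A η * (df A ζ' * df A ζ') * Y := by
          simp only [mul_add, mul_assoc]
        rw [h5, df_sq, mul_zero, zero_mul, add_zero, ← fz_comm, ← mul_assoc, hff, one_mul]
      rw [map_zsmul, CovD.rs_inv, map_zsmul, MPadcGP.inv_inv, smul_smul, ← pow_add, ← two_mul, pow_mul,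
        neg_one_sq, one_pow, one_smul, hd, hxy', map_add, map_mul, map_mul, map_mul, CovD.rs_df,
        CovD.rs_fz, hρ, key]

/-- Division: if `e` restricts to `0` on `X` then `dlog z ∧ e` is regular. -/
theorem exists_div (h : Gd Q P) (hle : Q ≤ P) {m : ℕ} {e : (prC Q).Ch} (he : e ∈ (prC Q).Tt m) (h0 : (rsH hle).push e = 0) :
    ∃ v ∈ (prC Q).Tt (m + 1), (∀ C, Fin.last n ∈ C → v C = 0) ∧
      (∀ (C : Finset (Fin (n + 1))) (hC : C.Nonempty), Fin.last n ∉ C → (prC Q).Dt v (insert (Fin.last n) C) =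
        dlg Q (insert (Fin.last n) C) (Fin.last n) (C.min' hC) (Finset.mem_insert_self _ _)
          (Finset.mem_insert_of_mem (C.min'_mem hC)) * (prC Q).rs (Finset.subset_insert (Fin.last n) C) (e C)) ∧
      (∀ i, e ∈ (prC Q).Fi i m → v ∈ (prC Q).Fi (i + 1) (m + 1)) ∧
      (∀ i, e ∈ (prC Q).Ni i m → v ∈ (prC Q).Ni (i + 1) (m + 1)) := by
  classical
  have key := GyH_pt h hle he h0
  let v : (prC Q).Ch := fun C => if hC : C.Nonempty ∧ Fin.last n ∉ C then
    (key C hC.1 hC.2).choose else 0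
  have hv0 : ∀ C : Finset (Fin (n + 1)), ¬ (C.Nonempty ∧ Fin.last n ∉ C) → v C = 0 :=
    fun C hC => dif_neg hC
  have hv1 : ∀ (C : Finset (Fin (n + 1))) (hC : C.Nonempty) (hz : Fin.last n ∉ C),
      (∀ q, q + C.card = m + 2 → v C ∈ Fd A ((prC Q).R C) q) ∧
      (m + 2 < C.card → v C = 0) ∧ (e C = 0 → v C = 0) ∧
      (-1 : ℤ) ^ C.card • inv A ((prC Q).rs (Finset.subset_insert (Fin.last n) C) (v C)) =
        dlg Q (insert (Fin.last n) C) (Fin.last n) (C.min' hC) (Finset.mem_insert_self _ _)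
          (Finset.mem_insert_of_mem (C.min'_mem hC)) *
          (prC Q).rs (Finset.subset_insert (Fin.last n) C) (e C) := by
    intro C hC hz
    have h1 : v C = (key C hC hz).choose := dif_pos ⟨hC, hz⟩
    rw [h1]
    exact (key C hC hz).choose_spec
  have hve : ∀ C, e C = 0 → v C = 0 := by
    intro C hC
    by_cases h1 : C.Nonempty ∧ Fin.last n ∉ C
    · exact (hv1 C h1.1 h1.2).2.2.1 hC
    · exact hv0 C h1
  have hvz : ∀ C, Fin.last n ∈ C → v C = 0 := fun C hC => hv0 C fun h1 => h1.2 hC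
  have hvT : v ∈ (prC Q).Tt (m + 1) := by
    refine ⟨hv0 ∅ fun h1 => Finset.not_nonempty_empty h1.1, fun C => ⟨fun q hq => ?_, fun hq => ?_⟩⟩
    · by_cases h1 : C.Nonempty ∧ Fin.last n ∉ C
      · exact (hv1 C h1.1 h1.2).1 q (by omega)
      · rw [hv0 C h1]
        exact Submodule.zero_mem _
    · by_cases h1 : C.Nonempty ∧ Fin.last n ∉ C
      · exact (hv1 C h1.1 h1.2).2.1 (by omega)
      · exact hv0 C h1
  refine ⟨v, hvT, hvz, fun C hC hz => ?_, fun i hi => ⟨hvT, fun C hC => ?_⟩,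
    fun i hi => ⟨hvT, fun C => ⟨fun hC => ?_, fun hC => ?_⟩⟩⟩
  · rw [Dt_insert hvz hz]
    exact (hv1 C hC hz).2.2.2
  · exact hve C (hi.2 C (by omega))
  · exact hve C ((hi.2 C).1 (by omega))
  · by_cases h1 : C.Nonempty ∧ Fin.last n ∉ C
    · have h2 : dd A (e C) = 0 := (hi.2 C).2 (by omega)
      have h3 := (hv1 C h1.1 h1.2).2.2.2
      rw [← dl_eq] at h3
      have h4 : dd A ((-1 : ℤ) ^ C.card •
          inv A ((prC Q).rs (Finset.subset_insert (Fin.last n) C) (v C))) = 0 := by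
        rw [h3, dd_dl_mul, ← CovD.rs_dd, h2, map_zero, mul_zero, neg_zero]
      have h5 : inv A (dd A ((prC Q).rs (Finset.subset_insert (Fin.last n) C) (v C))) = 0 := by
        rw [map_zsmul] at h4
        have h6 := congrArg (fun t => (-1 : ℤ) ^ C.card • t) h4
        simp only [smul_smul, smul_zero] at h6
        rw [← pow_add, ← two_mul, pow_mul, neg_one_sq, one_pow, one_smul] at h6
        rw [inv_dd, h6, neg_zero]
      have h7 : dd A ((prC Q).rs (Finset.subset_insert (Fin.last n) C) (v C)) = 0 := by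
        rw [← MPadcGP.inv_inv (A := A) (dd A ((prC Q).rs (Finset.subset_insert (Fin.last n) C) (v C))), h5,
          map_zero]
      apply rs_injA h h1.1 h1.2
      rw [CovD.rs_dd, h7, map_zero]
    · rw [hv0 C h1, map_zero]

end

end MPadcHS
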