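import Pool.Agent.Lib.MP_adc574_ag_HS.GyH

/-!
# JOB GyI (HS, Part P)

`exists_gyr`: `Dt c ∈ Tt (m + 1)`, `push (Dt c) = Dt (push c) = 0` (`CovD.Hm.push_Dt`). Let `v` be given by `exists_div` for `e := Dt c`, `w := Gam c + v`. `w C = (Gam c) C` for `z ∈ C`: so `w {z} = 0` (`Gam_last`), `w C⁺ = dlg * rs (c C)` (`Gam_insert`). `Dt w = 0` by `zero_of_last` for `Dt w`: `Dt w = - Gam (Dt c) + Dt v` (`Dt_Gam`), on `C⁺`: `- dlg * rs (Dt c C) + dlg * rs (Dt c C) = 0`,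
on `{z}`: `(Dt v) {z} = dd (v {z}) + .. v ∅ = 0`; `Dt (Dt w) = 0`. Filtrations: `Gam_mem_Fi`, `Gam_mem_Ni`, `Dt_mem_Fi`, `Dt_mem_Ni` and the last two properties of `exists_div`. `Zc m = Tt m ⊓ ker Dt`.
`GyR.add`, `GyR.smul`: `mul_add`, `map_add`, `rs_smul`, `mul_smul_comm`, `Submodule.add_mem`. `GyR.unique`: `zero_of_last` for `w - w₁`.
-/

set_option autoImplicit false

namespace MPadcHS

open MvPolynomial MPadcGP MPadcDC

universe u v w

section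

variable {A : Type u} [CommRing A] {n : ℕ} {Q P : Ideal (MvPolynomial (Fin (n + 1)) A)}

private theorem GyI_cases {C : Finset (Fin (n + 1))} (hz : Fin.last n ∈ C) :
    C = {Fin.last n} ∨ ∃ C' : Finset (Fin (n + 1)), C'.Nonempty ∧ Fin.last n ∉ C' ∧ C = insert (Fin.last n) C' := by
  have h1 : insert (Fin.last n) (C.erase (Fin.last n)) = C := Finset.insert_erase hz
  rcases (C.erase (Fin.last n)).eq_empty_or_nonempty with h2 | h2
  · left
    rw [h2] at h1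
    exact h1.symm
  · right
    exact ⟨C.erase (Fin.last n), h2, Finset.notMem_erase _ _, h1.symm⟩

private theorem GyI_last {v : (prC Q).Ch} (h0 : v ∅ = 0) (hv : v {Fin.last n} = 0) :
    (prC Q).Dt v {Fin.last n} = 0 := by
  rw [CovD.Dt_apply, Pi.add_apply, CovD.dc_apply, hv, map_zero, zero_add, CovD.del_apply]
  refine Finset.sum_eq_zero fun j hj => ?_
  have hj' : j = Fin.last n := Finset.mem_singleton.1 hj
  subst hj'
  have h1 : v (({Fin.last n} : Finset (Fin (n + 1))).erase (Fin.last n)) = 0 := by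
    have h2 : ({Fin.last n} : Finset (Fin (n + 1))).erase (Fin.last n) = ∅ := by
      rw [Finset.erase_singleton]
    rw [h2]
    exact h0
  rw [CovD.ev_ic, CovD.ev_eq_zero h1, map_zero, smul_zero]

/-- Existence of the Gysin cocycle. -/
theorem exists_gyr (h : Gd Q P) (hle : Q ≤ P) {m : ℕ} {c : (prC Q).Ch} (hc : c ∈ (prC Q).Tt m)
    (hX : (rsH hle).push c ∈ (prC P).Zc m) :
    ∃ w, GyR Q m c w ∧ (∀ i, c ∈ (prC Q).Fi i m → w ∈ (prC Q).Fi (i + 1) (m + 2)) ∧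
      (∀ i, c ∈ (prC Q).Ni i m → w ∈ (prC Q).Ni (i + 1) (m + 2)) := by
  have hcc : (prC Q).Dt c ∈ (prC Q).Tt (m + 1) := CovD.Dt_mem hc
  have h0 : (rsH hle).push ((prC Q).Dt c) = 0 := by
    rw [CovD.Hm.push_Dt]
    exact (CovD.mem_Zc.1 hX).2
  obtain ⟨v, hv, hvz, hvd, hvF, hvN⟩ := exists_div h hle hcc h0
  have hw : Gam Q c + v ∈ (prC Q).Tt (m + 2) := Submodule.add_mem _ (Gam_mem hc) hv
  have hD : (prC Q).Dt (Gam Q c + v) = -Gam Q ((prC Q).Dt c) + (prC Q).Dt v := by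
    rw [map_add, Dt_Gam h hc.1]
  have hz0 : (prC Q).Dt (Gam Q c + v) = 0 := by
    refine zero_of_last h (CovD.Dt_mem hw).1 (fun C hC => ?_) (fun C _ _ => ?_)
    · rw [hD, Pi.add_apply, Pi.neg_apply]
      rcases GyI_cases hC with rfl | ⟨C', hne, hz, rfl⟩
      · rw [Gam_last hcc.1, GyI_last hv.1 (hvz _ (Finset.mem_singleton_self _)), neg_zero, add_zero]
      · rw [Gam_insert _ hne hz, hvd C' hne hz, neg_add_cancel]
    · rw [CovD.Dt_Dt]
      rfl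
  refine ⟨Gam Q c + v, ⟨hc, CovD.mem_Zc.2 ⟨hw, hz0⟩, ?_, fun C hC hz => ?_⟩, fun i hi => ?_, fun i hi => ?_⟩
  · rw [Pi.add_apply, Gam_last hc.1, hvz _ (Finset.mem_singleton_self _), add_zero]
  · rw [Pi.add_apply, Gam_insert c hC hz, hvz _ (Finset.mem_insert_self _ _), add_zero]
  · exact Submodule.add_mem _ (Gam_mem_Fi hi) (hvF i (CovD.Dt_mem_Fi hi))
  · exact Submodule.add_mem _ (Gam_mem_Ni hi) (hvN i (CovD.Dt_mem_Ni hi))

theorem GyR.add {m : ℕ} {c w c₁ w₁ : (prC Q).Ch} (h : GyR Q m c w) (h₁ : GyR Q m c₁ w₁) : GyR Q m (c + c₁) (w + w₁) := by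
  refine ⟨Submodule.add_mem _ h.cm h₁.cm, Submodule.add_mem _ h.wz h₁.wz, ?_, fun C hC hz => ?_⟩
  · rw [Pi.add_apply, h.w0, h₁.w0, add_zero]
  · rw [Pi.add_apply, h.wl C hC hz, h₁.wl C hC hz, Pi.add_apply, map_add, mul_add]

theorem GyR.smul {m : ℕ} {c w : (prC Q).Ch} (a : A) (h : GyR Q m c w) : GyR Q m (a • c) (a • w) := by
  refine ⟨Submodule.smul_mem _ a h.cm, Submodule.smul_mem _ a h.wz, ?_, fun C hC hz => ?_⟩
  · rw [Pi.smul_apply, h.w0, smul_zero]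
  · rw [Pi.smul_apply, h.wl C hC hz, Pi.smul_apply, CovD.rs_smul, mul_smul_comm]

/-- Two Gysin cocycles of the same cochain are equal. -/
theorem GyR.unique (h : Gd Q P) {m : ℕ} {c w w₁ : (prC Q).Ch} (hw : GyR Q m c w) (hw₁ : GyR Q m c w₁) : w = w₁ := by
  have h1 : w ∈ (prC Q).Tt (m + 2) ∧ (prC Q).Dt w = 0 := CovD.mem_Zc.1 hw.wz
  have h2 : w₁ ∈ (prC Q).Tt (m + 2) ∧ (prC Q).Dt w₁ = 0 := CovD.mem_Zc.1 hw₁.wz
  have h3 : w - w₁ = 0 := by
    refine zero_of_last h (Submodule.sub_mem _ h1.1 h2.1).1 (fun C hC => ?_) (fun C _ _ => ?_)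
    · rw [Pi.sub_apply]
      rcases GyI_cases hC with rfl | ⟨C', hne, hz, rfl⟩
      · rw [hw.w0, hw₁.w0, sub_zero]
      · rw [hw.wl C' hne hz, hw₁.wl C' hne hz, sub_self]
    · rw [map_sub, h1.2, h2.2, sub_zero]
      rfl
  exact sub_eq_zero.1 h3

end

end MPadcHS
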