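import Mathlib

/-!
# JOB LaA (HS, Part P): linear algebra below, above and in the middle degree

* `la_low`: `PY ⊔ FY = ⊤` (disjoint, `finrank` complementary), `r` surjective, so `P ⊔ F = ⊤`; with `hdX` and `Submodule.finrank_sup_add_finrank_inf_eq`: `finrank (P ⊓ F) = 0`.
* `la_high`: `x ∈ P ⊓ F`: `g x ∈ PZ ⊓ FZ = ⊥`, `g` injective.
* `la_mid`: `V := ker g`, `T := range r`, `W := V ⊓ T`.
  (1) `x ∈ P ⊓ F`: `g x ∈ PZ ⊓ FZ = ⊥`.
  (2) `x = r y ∈ P ⊓ F`: `y ∈ PY ⊓ FY = ⊥`, `x = 0`.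
  (3) `finrank (P ⊓ V) = finrank P - finrank PZ`, `finrank (F ⊓ V) = finrank F - finrank FZ` (rank-nullity for `g.domRestrict P`, `g.domRestrict F`), so by `hX`, `hZ`, `finrank V = finrank HX - finrank HZ` (`g` surjective: `PZ ⊔ FZ = ⊤`, or from `hZ'`... `g` is surjective since `P.map g ⊔ F.map g = PZ ⊔ FZ` has the dimension of `HZ`): `finrank (P ⊓ V) + finrank (F ⊓ V) = finrank V`.
  (4) `W = (P ⊓ W) ⊔ (F ⊓ W)`: `w = r y`, `y = a + b`, `a ∈ PY`, `b ∈ FY` (`PY ⊔ FY = ⊤`), `g (r a) + g (r b) = 0` with `g (r a) ∈ PZ`, `g (r b) ∈ FZ`, so both are `0`. The sum is direct by (2): `finrank W = finrank (P ⊓ W) + finrank (F ⊓ W)`.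
  (5) `finrank ((P ⊓ V) ⊔ W) = finrank (P ⊓ V) + finrank W - finrank (P ⊓ W)` (`(P ⊓ V) ⊓ W = P ⊓ W`) `= finrank (P ⊓ V) + finrank (F ⊓ W)`. Combine.
-/

set_option autoImplicit false

namespace MPadcHS

open Module

universe u v w x

section

variable {K : Type u} [Field K] {HX : Type v} {HY : Type w} {HZ : Type x} [AddCommGroup HX] [Module K HX]
  [AddCommGroup HY] [Module K HY] [AddCommGroup HZ] [Module K HZ]

private theorem LaA_top {H : Type*} [AddCommGroup H] [Module K H] [FiniteDimensional K H] (P F : Submodule K H)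
    (h0 : P ⊓ F = ⊥) (h : finrank K P + finrank K F = finrank K H) : P ⊔ F = ⊤ := by
  have h1 := Submodule.finrank_sup_add_finrank_inf_eq P F
  rw [h0, finrank_bot, add_zero, h] at h1
  exact Submodule.eq_top_of_finrank_eq h1

private theorem LaA_nul [FiniteDimensional K HX] (g : HX →ₗ[K] HZ) (P : Submodule K HX) :
    finrank K (P.map g) + finrank K ↥(P ⊓ LinearMap.ker g) = finrank K P := by
  have h1 := LinearMap.finrank_range_add_finrank_ker (g.domRestrict P)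
  rw [LinearMap.range_domRestrict] at h1
  have h2 : LinearMap.ker (g.domRestrict P) = (LinearMap.ker g).comap P.subtype := by
    ext x
    rfl
  rw [h2, ← Submodule.finrank_map_subtype_eq P, Submodule.map_comap_subtype] at h1
  exact h1

theorem la_low [FiniteDimensional K HX] [FiniteDimensional K HY] (r : HY →ₗ[K] HX) (hr : Function.Surjective r)
    (P F : Submodule K HX) (PY FY : Submodule K HY) (hP : ∀ y ∈ PY, r y ∈ P) (hF : ∀ y ∈ FY, r y ∈ F)
    (h0 : PY ⊓ FY = ⊥) (hX : finrank K P + finrank K F = finrank K HX)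
    (hY : finrank K PY + finrank K FY = finrank K HY) : P ⊓ F = ⊥ := by
  have h1 := LaA_top PY FY h0 hY
  have h2 : P ⊔ F = ⊤ := by
    refine eq_top_iff.2 fun x _ => ?_
    obtain ⟨y, rfl⟩ := hr x
    have h3 : y ∈ PY ⊔ FY := h1 ▸ Submodule.mem_top
    obtain ⟨a, ha, b, hb, rfl⟩ := Submodule.mem_sup.1 h3
    rw [map_add]
    exact Submodule.add_mem _ ((le_sup_left : P ≤ P ⊔ F) (hP a ha)) ((le_sup_right : F ≤ P ⊔ F) (hF b hb))
  have h4 := Submodule.finrank_sup_add_finrank_inf_eq P F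
  rw [h2, finrank_top, hX] at h4
  exact Submodule.finrank_eq_zero.1 (by omega)

theorem la_high (g : HX →ₗ[K] HZ) (hg : Function.Injective g) (P F : Submodule K HX) (PZ FZ : Submodule K HZ)
    (hP : ∀ x ∈ P, g x ∈ PZ) (hF : ∀ x ∈ F, g x ∈ FZ) (h0 : PZ ⊓ FZ = ⊥) : P ⊓ F = ⊥ := by
  refine (Submodule.eq_bot_iff _).2 fun x hx => ?_
  have h1 : g x ∈ PZ ⊓ FZ := ⟨hP x hx.1, hF x hx.2⟩
  rw [h0, Submodule.mem_bot] at h1
  exact hg (h1.trans (map_zero g).symm)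

theorem la_mid [FiniteDimensional K HX] [FiniteDimensional K HY] [FiniteDimensional K HZ] (r : HY →ₗ[K] HX)
    (g : HX →ₗ[K] HZ) (P F : Submodule K HX) (PY FY : Submodule K HY) (PZ FZ : Submodule K HZ)
    (hPY : ∀ y, r y ∈ P ↔ y ∈ PY) (hFY : ∀ y, r y ∈ F ↔ y ∈ FY) (hPZ : P.map g = PZ) (hFZ : F.map g = FZ)
    (hY0 : PY ⊓ FY = ⊥) (hZ0 : PZ ⊓ FZ = ⊥) (hX : finrank K P + finrank K F = finrank K HX)
    (hY : finrank K PY + finrank K FY = finrank K HY) (hZ : finrank K PZ + finrank K FZ = finrank K HZ) :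
    P ⊓ F ≤ LinearMap.ker g ∧ P ⊓ F ⊓ LinearMap.range r = ⊥ ∧
      finrank K (LinearMap.ker g) + finrank K ↥(F ⊓ LinearMap.ker g ⊓ LinearMap.range r) =
        finrank K ↥((P ⊓ LinearMap.ker g) ⊔ (LinearMap.ker g ⊓ LinearMap.range r)) +
          finrank K ↥(F ⊓ LinearMap.ker g) := by
  have c1 : P ⊓ F ≤ LinearMap.ker g := fun x hx => by
    have h1 : g x ∈ PZ ⊓ FZ := ⟨hPZ ▸ Submodule.mem_map_of_mem hx.1, hFZ ▸ Submodule.mem_map_of_mem hx.2⟩
    rw [hZ0, Submodule.mem_bot] at h1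
    exact h1
  have c2 : P ⊓ F ⊓ LinearMap.range r = ⊥ := by
    refine (Submodule.eq_bot_iff _).2 fun x hx => ?_
    obtain ⟨⟨h1, h2⟩, y, rfl⟩ := hx
    have h3 : y ∈ PY ⊓ FY := ⟨(hPY y).1 h1, (hFY y).1 h2⟩
    rw [hY0, Submodule.mem_bot] at h3
    rw [h3, map_zero]
  refine ⟨c1, c2, ?_⟩
  have tY := LaA_top PY FY hY0 hY
  have tZ := LaA_top PZ FZ hZ0 hZ
  have n1 := LaA_nul g P
  have n2 := LaA_nul g F
  rw [hPZ] at n1
  rw [hFZ] at n2
  have hs : LinearMap.range g = ⊤ := by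
    refine eq_top_iff.2 (tZ ▸ sup_le ?_ ?_)
    · rw [← hPZ]
      exact LinearMap.map_le_range
    · rw [← hFZ]
      exact LinearMap.map_le_range
  have n3 := LinearMap.finrank_range_add_finrank_ker g
  rw [hs, finrank_top] at n3
  have hW : LinearMap.ker g ⊓ LinearMap.range r =
      (P ⊓ (LinearMap.ker g ⊓ LinearMap.range r)) ⊔ (F ⊓ (LinearMap.ker g ⊓ LinearMap.range r)) := by
    refine le_antisymm (fun w hw => ?_) (sup_le inf_le_right inf_le_right)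
    obtain ⟨h1, y, rfl⟩ := hw
    have h3 : y ∈ PY ⊔ FY := tY ▸ Submodule.mem_top
    obtain ⟨a, ha, b, hb, rfl⟩ := Submodule.mem_sup.1 h3
    have ha1 : r a ∈ P := (hPY a).2 ha
    have hb1 : r b ∈ F := (hFY b).2 hb
    have ha2 : g (r a) ∈ PZ := hPZ ▸ Submodule.mem_map_of_mem ha1
    have hb2 : g (r b) ∈ FZ := hFZ ▸ Submodule.mem_map_of_mem hb1
    have h4 : g (r a) + g (r b) = 0 := by
      have h5 : g (r (a + b)) = 0 := h1
      rw [map_add, map_add] at h5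
      exact h5
    have h6 : g (r a) = 0 := by
      have h7 : g (r a) ∈ PZ ⊓ FZ := ⟨ha2, by
        rw [eq_neg_of_add_eq_zero_left h4]
        exact FZ.neg_mem hb2⟩
      rw [hZ0, Submodule.mem_bot] at h7
      exact h7
    have h8 : g (r b) = 0 := by
      rw [h6, zero_add] at h4
      exact h4
    rw [map_add]
    exact Submodule.add_mem _
      ((le_sup_left : _ ≤ (P ⊓ (LinearMap.ker g ⊓ LinearMap.range r)) ⊔ (F ⊓ (LinearMap.ker g ⊓ LinearMap.range r)))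
        ⟨ha1, h6, a, rfl⟩)
      ((le_sup_right : _ ≤ (P ⊓ (LinearMap.ker g ⊓ LinearMap.range r)) ⊔ (F ⊓ (LinearMap.ker g ⊓ LinearMap.range r)))
        ⟨hb1, h8, b, rfl⟩)
  have n4 := Submodule.finrank_sup_add_finrank_inf_eq (P ⊓ (LinearMap.ker g ⊓ LinearMap.range r))
    (F ⊓ (LinearMap.ker g ⊓ LinearMap.range r))
  have h9 : P ⊓ (LinearMap.ker g ⊓ LinearMap.range r) ⊓ (F ⊓ (LinearMap.ker g ⊓ LinearMap.range r)) = ⊥ := by
    refine (Submodule.eq_bot_iff _).2 fun x hx => ?_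
    have h10 : x ∈ P ⊓ F ⊓ LinearMap.range r := ⟨⟨hx.1.1, hx.2.1⟩, hx.1.2.2⟩
    rw [c2, Submodule.mem_bot] at h10
    exact h10
  rw [h9, finrank_bot, ← hW] at n4
  have n5 := Submodule.finrank_sup_add_finrank_inf_eq (P ⊓ LinearMap.ker g) (LinearMap.ker g ⊓ LinearMap.range r)
  have h11 : P ⊓ LinearMap.ker g ⊓ (LinearMap.ker g ⊓ LinearMap.range r) =
      P ⊓ (LinearMap.ker g ⊓ LinearMap.range r) := by
    ext x
    constructor
    · rintro ⟨⟨h1, _⟩, h2⟩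
      exact ⟨h1, h2⟩
    · rintro ⟨h1, h2⟩
      exact ⟨⟨h1, h2.1⟩, h2⟩
  rw [h11] at n5
  rw [inf_assoc F]
  omega

end

end MPadcHS
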