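import Mathlib
import Pool.Agent.Lib.MP_adc574_ag_DC.PLin

/-!
# JOB LaB (HS, Part P): the functionals which define a stable subspace (compare DC/PLin.lean)

`Ann W := {l : β → L | ∀ x ∈ W, ∑ b, l b * x b = 0}`, `finrank (Ann W) = card β - finrank W` (see `plin_finrank` in DC/PLin.lean: it may be imported). `Ann V = span (range Gz)`: `⊇` by `hV`; equality by dimensions (`V` is the annihilator of `span (range Gz)`, so `finrank V = card β - finrank (span (range Gz))`: `plin_finrank` for `span (range Gz)`). `span (range Gz) ≤ Ann W` (`hWV`).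
Choose a complement of `span (range Gz)` in `Ann W`, its dimension is `(card β - finrank W) - (card β - finrank V) = card S`; `c` a basis of it indexed by `S` (`Module.finBasisOfFinrankEq`, `Fintype.equivFin S`).
So (a) `∑ lam v • c v + ∑ mu r • Gz r = 0` implies `lam = 0`; (b) every `l ∈ Ann W` is `∑ ν v • c v + ∑ ξ r • Gz r`.
The relation: `l ∈ Ann W` implies `(fun b => δ γ (l b) - ∑ b', l b' * G γ b' b) ∈ Ann W`: exactly as in `exists_functionals` (DC/PLin.lean) with `hst`. Apply (b).
`∑ b, c v b * U s b = 0` since `U s ∈ W`. The determinant: `0 = ∑ b, c v b * x b = ∑ u, lam u * ∑ b, c v b * f u b` for all `v`, `lam ≠ 0`: `Matrix.exists_mulVec_eq_zero_iff`.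
`row_span`: let `V := {x : β → K | ∀ r, ∑ b, Gz r b * x b = 0}`, `k 1, ..., k m` a basis of `V` over `K` (`m = finrank V`), `N := span_L (range (j ∘ k i))` in `β → L`: `finrank_L N = m` (linear independence over `K` implies linear independence over `L` of the images: e.g. a nonzero minor of the matrix, or `LinearIndependent.map_of_injective..`, or extend the basis of `V` to a basis of `β → K`: an invertible matrix over `K` stays invertible over `L`: this is the simplest way). `l` and the rows `j ∘ Gz r` are in the annihilator of `N`, of dimension `card β - m`; the row space over `K` has dimension `card β - m`, so its image spans over `L` a space of the same dimension (again by an invertible matrix), hence everything.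
  (Another way: let `e : β → K ≃ₗ β → K` be an automorphism (invertible matrix `E`) with `V = E (span of the first m basis vectors)`; then the rows times `E` vanish on the first `m` coordinates and have rank `card β - m`, so after multiplying on the left by a matrix `A` over `K` we get `A * Gz * E = (0 | 1)`; `l * E` vanishes on the first `m` coordinates, so `l * E = mu' * (A Gz E)`, `l = mu' A Gz`.)
-/

set_option autoImplicit false

namespace MPadcHS

open Module

universe u v w

private theorem LaB_stab {L : Type u} [Field L] {β : Type} [Fintype β] {σ : Type} (δ : σ → Derivation ℤ L L)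
    (G : σ → β → β → L) (W : Submodule L (β → L))
    (hst : ∀ γ, ∀ x ∈ W, (fun b' => δ γ (x b') + ∑ b, G γ b' b * x b) ∈ W) (γ : σ) (l : β → L)
    (hl : ∀ y ∈ W, ∑ b, l b * y b = 0) : ∀ y ∈ W, ∑ b, (δ γ (l b) - ∑ b', l b' * G γ b' b) * y b = 0 := by
  intro y hy
  have h1 := hl _ (hst γ y hy)
  have h2 : δ γ (∑ b, l b * y b) = 0 := by rw [hl y hy, map_zero]
  rw [map_sum] at h2
  simp only [Derivation.leibniz, smul_eq_mul, mul_add, Finset.sum_add_distrib] at h1 h2
  simp only [sub_mul, Finset.sum_sub_distrib]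
  have h3 : ∑ b, (∑ b', l b' * G γ b' b) * y b = ∑ b', l b' * ∑ b, G γ b' b * y b := by
    simp only [Finset.sum_mul, Finset.mul_sum]
    rw [Finset.sum_comm]
    exact Finset.sum_congr rfl fun b _ => Finset.sum_congr rfl fun b' _ => by ring
  have h4 : ∑ b, δ γ (l b) * y b = ∑ b, y b * δ γ (l b) := Finset.sum_congr rfl fun b _ => mul_comm _ _
  rw [h3, h4]
  linear_combination h2 - h1

private theorem LaB_cpl {L : Type u} [Field L] {M : Type u} [AddCommGroup M] [Module L M] [FiniteDimensional L M]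
    {S : Type} [Fintype S] (P Q : Submodule L M) (hPQ : P ≤ Q) (hcard : finrank L ↥Q = finrank L ↥P + Fintype.card S) :
    ∃ c : S → M, (∀ v, c v ∈ Q) ∧ (∀ lam : S → L, ∑ v, lam v • c v ∈ P → lam = 0) ∧
      ∀ q ∈ Q, ∃ (ν : S → L) (p : M), p ∈ P ∧ q = ∑ v, ν v • c v + p := by
  obtain ⟨C, hC⟩ := Submodule.exists_isCompl P
  obtain ⟨D, hD⟩ : ∃ D : Submodule L M, D = C ⊓ Q := ⟨_, rfl⟩
  have hsup : P ⊔ D = Q := by
    rw [hD, ← sup_inf_assoc_of_le C hPQ, hC.sup_eq_top, top_inf_eq]
  have hinf : P ⊓ D = ⊥ := by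
    rw [hD, ← inf_assoc, hC.inf_eq_bot, bot_inf_eq]
  have hDQ : D ≤ Q := by
    rw [hD]
    exact inf_le_right
  have h1 := Submodule.finrank_sup_add_finrank_inf_eq P D
  rw [hsup, hinf, finrank_bot, add_zero] at h1
  have f5 : finrank L ↥D = Fintype.card S := by omega
  obtain ⟨Bs⟩ : Nonempty (Module.Basis S L ↥D) :=
    ⟨(Module.finBasisOfFinrankEq L ↥D f5).reindex (Fintype.equivFin S).symm⟩
  refine ⟨fun v => (Bs v : M), fun v => ?_, ?_, ?_⟩
  · exact hDQ (Bs v).2
  · intro lam h
    have h2 : ((∑ v, lam v • Bs v : ↥D) : M) ∈ P ⊓ D := by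
      refine Submodule.mem_inf.2 ⟨?_, (∑ v, lam v • Bs v : ↥D).2⟩
      rw [Submodule.coe_sum]
      exact h
    rw [hinf, Submodule.mem_bot] at h2
    have h3 : (∑ v, lam v • Bs v : ↥D) = 0 := Subtype.ext h2
    funext v
    exact Fintype.linearIndependent_iff.1 Bs.linearIndependent lam h3 v
  · intro q hq
    rw [← hsup] at hq
    obtain ⟨y, hy, z, hz, hyz⟩ := Submodule.mem_sup.1 hq
    refine ⟨fun v => Bs.repr ⟨z, hz⟩ v, y, hy, ?_⟩
    have h3 := congrArg (fun g : ↥D => (g : M)) (Bs.sum_repr ⟨z, hz⟩)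
    simp only [Submodule.coe_sum, Submodule.coe_smul] at h3
    rw [h3, add_comm]
    exact hyz.symm

private theorem LaB_basis {L : Type u} [Field L] {β ρ S : Type} [Fintype β] [DecidableEq β] [Fintype ρ] [Fintype S]
    (Gz : ρ → β → L) (W V : Submodule L (β → L)) (hV : ∀ x, x ∈ V ↔ ∀ r, ∑ b, Gz r b * x b = 0)
    (hWV : W ≤ V) (hcard : finrank L W + Fintype.card S = finrank L V) :
    ∃ c : S → β → L, (∀ v, ∀ y ∈ W, ∑ b, c v b * y b = 0) ∧
      (∀ (lam : S → L) (mu : ρ → L), (∀ b, ∑ v, lam v * c v b + ∑ r, mu r * Gz r b = 0) → lam = 0) ∧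
      (∀ l : β → L, (∀ y ∈ W, ∑ b, l b * y b = 0) → ∃ (ν : S → L) (ξ : ρ → L), ∀ b, l b = ∑ v, ν v * c v b + ∑ r, ξ r * Gz r b) := by
  obtain ⟨Q, hQ⟩ : ∃ Q : Submodule L (β → L), ∀ l, l ∈ Q ↔ ∀ y ∈ W, ∑ b, l b * y b = 0 :=
    ⟨{ carrier := {l | ∀ y ∈ W, ∑ b, l b * y b = 0}
       add_mem' := fun {l l'} hl hl' y hy => by
        have h1 : ∑ b, (l + l') b * y b = ∑ b, l b * y b + ∑ b, l' b * y b := by
          rw [← Finset.sum_add_distrib]
          exact Finset.sum_congr rfl fun b _ => add_mul _ _ _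
        rw [h1, hl y hy, hl' y hy, add_zero]
       zero_mem' := fun y _ => Finset.sum_eq_zero fun b _ => zero_mul _
       smul_mem' := fun r l hl y hy => by
        have h1 : ∑ b, (r • l) b * y b = r * ∑ b, l b * y b := by
          rw [Finset.mul_sum]
          exact Finset.sum_congr rfl fun b _ => mul_assoc _ _ _
        rw [h1, hl y hy, mul_zero] }, fun l => Iff.rfl⟩
  have f1 := MPadcDC.plin_finrank W Q hQ
  obtain ⟨P, hP⟩ : ∃ P : Submodule L (β → L), P = Submodule.span L (Set.range Gz) := ⟨_, rfl⟩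
  have f2 := MPadcDC.plin_finrank P V (fun l => by
    rw [hV]
    constructor
    · intro h y hy
      rw [hP] at hy
      induction hy using Submodule.span_induction with
      | mem y hy =>
        obtain ⟨r, rfl⟩ := hy
        rw [← h r]
        exact Finset.sum_congr rfl fun b _ => mul_comm _ _
      | zero => exact Finset.sum_eq_zero fun b _ => mul_zero _
      | add y y' _ _ h1 h2 =>
        have h3 : ∑ b, l b * (y + y') b = ∑ b, l b * y b + ∑ b, l b * y' b := by
          rw [← Finset.sum_add_distrib]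
          exact Finset.sum_congr rfl fun b _ => mul_add _ _ _
        rw [h3, h1, h2, add_zero]
      | smul a y _ h1 =>
        have h3 : ∑ b, l b * (a • y) b = a * ∑ b, l b * y b := by
          rw [Finset.mul_sum]
          exact Finset.sum_congr rfl fun b _ => mul_left_comm _ _ _
        rw [h3, h1, mul_zero]
    · intro h r
      rw [← h (Gz r) (by
        rw [hP]
        exact Submodule.subset_span ⟨r, rfl⟩)]
      exact Finset.sum_congr rfl fun b _ => mul_comm _ _)
  have hPQ : P ≤ Q := by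
    rw [hP]
    refine Submodule.span_le.2 ?_
    rintro _ ⟨r, rfl⟩
    exact (hQ _).2 fun y hy => (hV y).1 (hWV hy) r
  obtain ⟨c, hc1, hc2, hc3⟩ := LaB_cpl (S := S) P Q hPQ (by omega)
  refine ⟨c, fun v y hy => (hQ _).1 (hc1 v) y hy, ?_, ?_⟩
  · intro lam mu h
    refine hc2 lam ?_
    have h2 : ∑ v, lam v • c v = -∑ r, mu r • Gz r := by
      funext b
      have h3 := h b
      have h4 : (∑ v, lam v • c v) b = ∑ v, lam v * c v b := by
        simp only [Finset.sum_apply, Pi.smul_apply, smul_eq_mul]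
      have h5 : (-∑ r, mu r • Gz r) b = -∑ r, mu r * Gz r b := by
        simp only [Pi.neg_apply, Finset.sum_apply, Pi.smul_apply, smul_eq_mul]
      rw [h4, h5]
      exact eq_neg_of_add_eq_zero_left h3
    rw [h2, hP]
    exact Submodule.neg_mem _ (Submodule.sum_mem _ fun r _ => Submodule.smul_mem _ _ (Submodule.subset_span ⟨r, rfl⟩))
  · intro l hl
    obtain ⟨ν, p, hp, hq⟩ := hc3 l ((hQ l).2 hl)
    rw [hP] at hp
    obtain ⟨ξ, hξ⟩ := (Submodule.mem_span_range_iff_exists_fun L).1 hp
    refine ⟨ν, ξ, fun b => ?_⟩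
    have h2 := congrFun hq b
    have h4 := congrFun hξ b
    simp only [Pi.add_apply, Finset.sum_apply, Pi.smul_apply, smul_eq_mul] at h2
    simp only [Finset.sum_apply, Pi.smul_apply, smul_eq_mul] at h4
    rw [h2, h4]

theorem la_fun {L : Type u} [Field L] {β ρ τ S : Type} [Fintype β] [DecidableEq β] [Fintype ρ] [Fintype τ] [Fintype S]
    [DecidableEq S] {σ : Type} (δ : σ → Derivation ℤ L L) (G : σ → β → β → L) (Gz : ρ → β → L) (U : τ → β → L)
    (f : S → β → L) (W V : Submodule L (β → L)) (hV : ∀ x, x ∈ V ↔ ∀ r, ∑ b, Gz r b * x b = 0) (hU : ∀ s, U s ∈ W)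
    (hWV : W ≤ V) (hst : ∀ γ, ∀ x ∈ W, (fun b' => δ γ (x b') + ∑ b, G γ b' b * x b) ∈ W)
    (hcard : finrank L W + Fintype.card S = finrank L V) (x : β → L) (hx : x ∈ W) (lam : S → L) (hlam : lam ≠ 0)
    (mu : τ → L) (hxf : ∀ b, x b = ∑ u, lam u * f u b + ∑ s, mu s * U s b) :
    ∃ (c : S → β → L) (ν : σ → Matrix S S L) (ξ : σ → S → ρ → L),
      (∀ (lam : S → L) (mu : ρ → L), (∀ b, ∑ v, lam v * c v b + ∑ r, mu r * Gz r b = 0) → lam = 0) ∧
      (∀ γ v b, δ γ (c v b) = ∑ b', c v b' * G γ b' b + ∑ v', ν γ v v' * c v' b + ∑ r, ξ γ v r * Gz r b) ∧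
      (∀ v s, ∑ b, c v b * U s b = 0) ∧ (Matrix.of fun v u => ∑ b, c v b * f u b).det = 0 := by
  obtain ⟨c, hc1, hc2, hc3⟩ := LaB_basis (S := S) Gz W V hV hWV hcard
  have hst' := fun γ v => LaB_stab δ G W hst γ (c v) (hc1 v)
  choose ν ξ hν using fun γ v => hc3 _ (hst' γ v)
  refine ⟨c, fun γ => Matrix.of fun v v' => ν γ v v', ξ, hc2, fun γ v b => ?_, fun v s => hc1 v (U s) (hU s), ?_⟩
  · have h1 := hν γ v b
    rw [sub_eq_iff_eq_add] at h1
    rw [h1]
    simp only [Matrix.of_apply]
    ring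
  · rw [← Matrix.exists_mulVec_eq_zero_iff]
    refine ⟨lam, hlam, ?_⟩
    funext v
    change ∑ u, (∑ b, c v b * f u b) * lam u = 0
    have h1 : ∑ u, (∑ b, c v b * f u b) * lam u = ∑ b, c v b * ∑ u, lam u * f u b := by
      simp only [Finset.sum_mul, Finset.mul_sum]
      rw [Finset.sum_comm]
      exact Finset.sum_congr rfl fun b _ => Finset.sum_congr rfl fun u _ => by ring
    have h2 : ∀ b, ∑ u, lam u * f u b = x b - ∑ s, mu s * U s b := fun b => eq_sub_of_add_eq (hxf b).symm
    have h3 : ∑ b, c v b * ∑ s, mu s * U s b = ∑ s, mu s * ∑ b, c v b * U s b := by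
      simp only [Finset.mul_sum]
      rw [Finset.sum_comm]
      exact Finset.sum_congr rfl fun s _ => Finset.sum_congr rfl fun b _ => by ring
    rw [h1, Finset.sum_congr rfl fun b _ => by rw [h2 b, mul_sub], Finset.sum_sub_distrib, hc1 v x hx, h3,
      Finset.sum_congr rfl fun s _ => by rw [hc1 v (U s) (hU s), mul_zero], Finset.sum_const_zero, sub_zero]

/-- A functional over `L` which vanishes on the kernel over `K` is a combination of the rows. -/
theorem row_span {K : Type u} [Field K] {L : Type v} [Field L] (j : K →+* L) {β ρ : Type} [Fintype β] [DecidableEq β]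
    [Fintype ρ] (Gz : ρ → β → K) (l : β → L)
    (hl : ∀ x : β → K, (∀ r, ∑ b, Gz r b * x b = 0) → ∑ b, l b * j (x b) = 0) :
    ∃ mu : ρ → L, ∀ b, l b = ∑ r, mu r * j (Gz r b) := by
  -- the kernel over `L`
  have key : ∀ x : β → L, (∀ r, ∑ b, j (Gz r b) * x b = 0) → ∑ b, l b * x b = 0 := by
    intro x hx
    let _ : Algebra K L := j.toAlgebra
    have hsm : ∀ (a : K) (y : L), a • y = j a * y := fun _ _ => rfl
    obtain ⟨Bs, hBs⟩ : ∃ Bs : Module.Basis (Module.Basis.ofVectorSpaceIndex K L) K L, Bs = Module.Basis.ofVectorSpace K L := ⟨_, rfl⟩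
    have h1 : ∀ i, ∑ b, l b * j (Bs.repr (x b) i) = 0 := by
      intro i
      refine hl _ fun r => ?_
      have h2 : ∑ b, Gz r b • x b = 0 := hx r
      have h3 := congrArg (fun y => Bs.repr y i) h2
      simp only [map_sum, map_smul, Finsupp.coe_finsetSum, Finset.sum_apply, Finsupp.coe_smul, Pi.smul_apply, smul_eq_mul, map_zero,
        Finsupp.coe_zero, Pi.zero_apply] at h3
      exact h3
    classical
    obtain ⟨T, hT⟩ : ∃ T : Finset (Module.Basis.ofVectorSpaceIndex K L), ∀ b, (Bs.repr (x b)).support ⊆ T :=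
      ⟨Finset.univ.biUnion fun b => (Bs.repr (x b)).support, fun b =>
        Finset.subset_biUnion_of_mem (fun b => (Bs.repr (x b)).support) (Finset.mem_univ b)⟩
    have h2 : ∀ b, x b = ∑ i ∈ T, j (Bs.repr (x b) i) * Bs i := by
      intro b
      have h3 := Bs.linearCombination_repr (x b)
      rw [Finsupp.linearCombination_apply] at h3
      have h4 := Finsupp.sum_of_support_subset (Bs.repr (x b)) (hT b) (fun (i : Module.Basis.ofVectorSpaceIndex K L) (a : K) => a • Bs i)
        (fun i _ => zero_smul K _)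
      exact h3.symm.trans h4
    have h3 : ∑ b, l b * x b = ∑ i ∈ T, (∑ b, l b * j (Bs.repr (x b) i)) * Bs i := by
      rw [Finset.sum_congr rfl fun b _ => by rw [h2 b, Finset.mul_sum]]
      rw [Finset.sum_comm]
      refine Finset.sum_congr rfl fun i _ => ?_
      rw [Finset.sum_mul]
      exact Finset.sum_congr rfl fun b _ => by ring
    rw [h3]
    exact Finset.sum_eq_zero fun i _ => by rw [h1 i, zero_mul]
  by_cases hmem : l ∈ Submodule.span L (Set.range fun r => fun b => j (Gz r b))
  · obtain ⟨mu, hmu⟩ := (Submodule.mem_span_range_iff_exists_fun L).1 hmem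
    refine ⟨mu, fun b => ?_⟩
    have h1 := congrFun hmu b
    simp only [Finset.sum_apply, Pi.smul_apply, smul_eq_mul] at h1
    exact h1.symm
  · exfalso
    obtain ⟨g, hg1, hg2⟩ := Submodule.exists_dual_map_eq_bot_of_notMem hmem inferInstance
    refine hg1 ?_
    rw [MPadcDC.plin_apply g l]
    have h1 := key (fun b => g (Pi.single b 1)) (fun r => by
      have h2 : g (fun b => j (Gz r b)) = 0 := by
        have h3 : g (fun b => j (Gz r b)) ∈ (Submodule.span L (Set.range fun r => fun b => j (Gz r b))).map g :=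
          Submodule.mem_map_of_mem (Submodule.subset_span ⟨r, rfl⟩)
        rw [hg2, Submodule.mem_bot] at h3
        exact h3
      rw [MPadcDC.plin_apply g] at h2
      rw [← h2]
      exact Finset.sum_congr rfl fun b _ => mul_comm _ _)
    rw [← h1]
    exact Finset.sum_congr rfl fun b _ => mul_comm _ _

end MPadcHS
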