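import Pool.Agent.Lib.MP_adc574_ag_GP.GrA
import Pool.Agent.Lib.MP_adc574_ag_DC.W1D

/-!
# HS: the forms of weight `1` on a double cover (abstract)

`φ : R → S`, `ζ ^ 2 = φ f`, `ζ` has the weight `1` and the image of `φ` the weight `0`.
-/

set_option autoImplicit false
set_option linter.unusedSectionVars false

namespace MPadcHS

open MPadcGP MPadcDC

universe u v w

section

variable {A : Type u} [Field A] {R S : Type v} [CommRing R] [CommRing S] [Algebra A R] [Algebra A S]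

/-- The data of a double cover. -/
structure DCov (φ : R →ₐ[A] S) (G : Grd A S (ZMod 2)) (f : R) (ζ : S) : Prop where
  sq : ζ ^ 2 = φ f
  wt : ∀ μ, G.c μ ζ = if μ = 1 then ζ else 0
  ret : ∃ ρ : Fm A S →+ Fm A R, (∀ x, ρ (mp (φ : R →+* S) (CC.of_algHom _) x) = x) ∧
    ∀ y, mp (φ : R →+* S) (CC.of_algHom _) (ρ y) = wp G 0 y

namespace DCov

variable {φ : R →ₐ[A] S} {G : Grd A S (ZMod 2)} {f : R} {ζ : S} (h : DCov φ G f ζ)

include h

theorem inj : Function.Injective (mp (A := A) (B := A) (φ : R →+* S) (CC.of_algHom _)) := by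
  obtain ⟨ρ, h1, -⟩ := h.ret
  intro x y hxy
  rw [← h1 x, hxy, h1]

theorem wp0 (x : Fm A R) : wp G 0 (mp (φ : R →+* S) (CC.of_algHom _) x) =
    mp (A := A) (B := A) (φ : R →+* S) (CC.of_algHom _) x := by
  obtain ⟨ρ, h1, h2⟩ := h.ret
  rw [← h2, h1]

theorem wfz (μ : ZMod 2) (y : Fm A S) : wp G μ (fz A ζ * y) = fz A ζ * wp G (μ - 1) y := by
  rw [wp_mul, Finset.sum_eq_single 1]
  · rw [wp_fz, h.wt, if_pos rfl]
  · intro ν _ hν
    rw [wp_fz, h.wt, if_neg hν, map_zero, zero_mul]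
  · intro h
    exact absurd (Finset.mem_univ _) h

theorem wdf (μ : ZMod 2) (y : Fm A S) : wp G μ (df A ζ * y) = df A ζ * wp G (μ - 1) y := by
  rw [wp_mul, Finset.sum_eq_single 1]
  · rw [wp_df, h.wt, if_pos rfl]
  · intro ν _ hν
    rw [wp_df, h.wt, if_neg hν, df_zero, zero_mul]
  · intro h
    exact absurd (Finset.mem_univ _) h

theorem psi (x y : Fm A R) : mp (φ : R →+* S) (CC.of_algHom _) (fz A f * x + df A f * y) =
    fz A ζ * (fz A ζ * mp (φ : R →+* S) (CC.of_algHom _) x + df A ζ * (mp (φ : R →+* S) (CC.of_algHom _) y +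
      mp (φ : R →+* S) (CC.of_algHom _) y)) := by
  have h1 : mp (A := A) (B := A) (φ : R →+* S) (CC.of_algHom _) (fz A f) = fz A ζ * fz A ζ := by
    rw [mp_fz]
    change fz A (φ f) = _
    rw [← h.sq, pow_two, map_mul]
  have h3 : mp (A := A) (B := A) (φ : R →+* S) (CC.of_algHom _) (df A f) =
      fz A ζ * df A ζ + fz A ζ * df A ζ := by
    rw [mp_df]
    change df A (φ f) = _
    rw [← h.sq, pow_two, df_mul]
  rw [map_add, map_mul, map_mul, h1, h3]
  simp only [mul_add, add_mul, mul_assoc]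

theorem ex {a : ℕ} {x y : Fm A R} (hx : x ∈ Fd A R a) (hy : ∀ r, r + 1 = a → y ∈ Fd A R r) (hy0 : a = 0 → y = 0) :
    ∃ ω ∈ Fd A S a, wp G 1 ω = ω ∧
      fz A ζ * ω = mp (φ : R →+* S) (CC.of_algHom _) (fz A f * x + df A f * y) := by
  refine ⟨fz A ζ * mp (φ : R →+* S) (CC.of_algHom _) x + df A ζ * (mp (φ : R →+* S) (CC.of_algHom _) y +
    mp (φ : R →+* S) (CC.of_algHom _) y), ?_, ?_, (h.psi x y).symm⟩
  · refine Submodule.add_mem _ (fz_mul_mem _ (mp_mem _ hx)) ?_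
    rcases Nat.eq_zero_or_pos a with h1 | h1
    · rw [hy0 h1, map_zero, add_zero, mul_zero]
      exact Submodule.zero_mem _
    · obtain ⟨r, rfl⟩ := Nat.exists_eq_add_of_le' h1
      rw [Nat.add_comm r 1]
      exact fd_mul (df_mem ζ) (Submodule.add_mem _ (mp_mem _ (hy r rfl)) (mp_mem _ (hy r rfl)))
  · rw [wp_add, h.wfz, h.wdf, sub_self, wp_add, h.wp0, h.wp0]

theorem inv [CharZero A] {a : ℕ} {ω x y : Fm A S} (hw : wp G 1 ω = ω) (hω : ω = fz A ζ * x + df A ζ * y)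
    (hx : x ∈ Fd A S a) (hy : ∀ r, r + 1 = a → y ∈ Fd A S r) (hy0 : a = 0 → y = 0) :
    ∃ x' y' : Fm A R, fz A f * x' + df A f * y' ∈ Fd A R a ∧
      mp (φ : R →+* S) (CC.of_algHom _) (fz A f * x' + df A f * y') = fz A ζ * ω := by
  obtain ⟨ρ, h1, h2⟩ := h.ret
  have hinj := h.inj
  have h3 : ω = fz A ζ * mp (φ : R →+* S) (CC.of_algHom _) (ρ x) +
      df A ζ * mp (φ : R →+* S) (CC.of_algHom _) (ρ y) := by
    rw [← hw, hω, wp_add, h.wfz, h.wdf, sub_self, h2, h2]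
  have h5 : ρ x ∈ Fd A R a := W1_reflect hinj (by
    rw [h2]
    exact wp_mem _ hx 0)
  have h7 : ∀ r, r + 1 = a → ρ y ∈ Fd A R r := fun r hr => W1_reflect hinj (by
    rw [h2]
    exact wp_mem _ (hy r hr) 0)
  have h8 : a = 0 → ρ y = 0 := fun h => by rw [hy0 h, map_zero]
  have h0 : fz A (algebraMap A R (2⁻¹ : A)) + fz A (algebraMap A R (2⁻¹ : A)) = 1 := by
    have h1 : (2⁻¹ : A) + 2⁻¹ = 1 := by rw [← two_mul, mul_inv_cancel₀ two_ne_zero]
    have h2 : fz A (algebraMap A R ((2⁻¹ : A) + 2⁻¹)) = fz A (algebraMap A R 1) := by rw [h1]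
    rw [map_add (algebraMap A R), map_add (fz A), map_one, map_one] at h2
    exact h2
  have h9 : fz A (algebraMap A R (2⁻¹ : A)) * ρ y + fz A (algebraMap A R (2⁻¹ : A)) * ρ y = ρ y := by
    rw [← add_mul, h0, one_mul]
  refine ⟨ρ x, fz A (algebraMap A R (2⁻¹ : A)) * ρ y, ?_, ?_⟩
  · refine Submodule.add_mem _ (fz_mul_mem _ h5) ?_
    rcases Nat.eq_zero_or_pos a with h1 | h1
    · rw [h8 h1, mul_zero, mul_zero]
      exact Submodule.zero_mem _
    · obtain ⟨r, rfl⟩ := Nat.exists_eq_add_of_le' h1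
      rw [Nat.add_comm r 1]
      exact fd_mul (df_mem f) (fz_mul_mem _ (h7 r rfl))
  · rw [h.psi, ← map_add (mp (A := A) (B := A) (φ : R →+* S) (CC.of_algHom _)), h9, ← h3]

end DCov

end

section

variable {A : Type u} [CommRing A] {R S R' S' : Type v} [CommRing R] [CommRing S] [CommRing R'] [CommRing S']
  [Algebra A R] [Algebra A S] [Algebra A R'] [Algebra A S']

/-- A commutative square of algebras gives a commutative square of forms. -/
theorem mp_square {φ : R →ₐ[A] S} {φ' : R' →ₐ[A] S'} {α : R →ₐ[A] R'} {β : S →ₐ[A] S'}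
    (h : ∀ x, φ' (α x) = β (φ x)) (x : Fm A R) :
    mp (φ' : R' →+* S') (CC.of_algHom _) (mp (A := A) (B := A) (α : R →+* R') (CC.of_algHom _) x) =
      mp (A := A) (B := A) (β : S →+* S') (CC.of_algHom _) (mp (A := A) (B := A) (φ : R →+* S) (CC.of_algHom _) x) := by
  have h1 : (φ' : R' →+* S').comp (α : R →+* R') = (β : S →+* S').comp (φ : R →+* S) := RingHom.ext h
  rw [← mp_comp (CC.of_algHom α) (CC.of_algHom φ') (CC.comp (CC.of_algHom α) (CC.of_algHom φ')),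
    ← mp_comp (CC.of_algHom φ) (CC.of_algHom β) (CC.comp (CC.of_algHom φ) (CC.of_algHom β))]
  exact mp_congr _ _ h1 x

end

end MPadcHS
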