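import Pool.Agent.Lib.MP_adc574_ag_DC.C1C
import Pool.Agent.Lib.MP_adc574_ag_DC.W1C
import Pool.Agent.Lib.MP_adc574_ag_HS.NCm
import Pool.Agent.Lib.MP_adc574_ag_HS.NCovF
import Pool.Agent.Lib.MP_adc574_ag_HS.NKer

/-!
# HS: the forms of weight `1` on the double cover
-/

set_option autoImplicit false
set_option linter.unusedSectionVars false

namespace MPadcHS

open MvPolynomial MPadcGP MPadcDC

universe u v w

section

variable {A : Type u} [Field A] [CharZero A] {n : ℕ} {I I' : Ideal (MvPolynomial (Fin n) A)}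
  {F : MvPolynomial (Fin n) A}

variable (I F) in
/-- `x_z / x_(min C)`. -/
noncomputable def zt (C : Finset (Fin n)) (hC : C.Nonempty) : chart (cyc I F 2) (cm C) :=
  cq (cyc I F 2) (cm C) (Fin.last n) (Finset.mem_map_of_mem Fin.castSuccEmb (C.min'_mem hC))

variable (I F) in
/-- The map of forms from `U_C` to the double cover. -/
noncomputable def psi (C : Finset (Fin n)) : Fm A (chart I C) →+* Fm A (chart (cyc I F 2) (cm C)) :=
  mp (W1c I F 2 C : chart I C →+* chart (cyc I F 2) (cm C)) (CC.of_algHom _)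

theorem psi_mem {C : Finset (Fin n)} {q : ℕ} {x : Fm A (chart I C)} (hx' : x ∈ Fd A (chart I C) q) :
    psi I F C x ∈ Fd A (chart (cyc I F 2) (cm C)) q := mp_mem _ hx'

private theorem NCovB_dc (hI : IsHomog I) (hF : F.IsHomogeneous 2) {C : Finset (Fin n)} (hC : C.Nonempty) :
    DCov (W1c I F 2 C) (grC (isHomog_cyc hI hF) (isWHomog_cyc hI hF) (cm C)) (fC I F C) (zt I F C hC) where
  sq := by
    have h1 := W1_zeta hI hF (C.min'_mem hC) (Finset.mem_map_of_mem Fin.castSuccEmb (C.min'_mem hC))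
    rw [fC_of hC]
    exact h1
  wt := by
    intro μ
    have hl : wz n 2 (Fin.last n) = 0 := if_pos rfl
    have hc : ∀ l : Fin n, wz n 2 (Fin.castSucc l) = 1 := fun l => if_neg (Fin.castSucc_ne_last l)
    have h1 : (grC (isHomog_cyc hI hF) (isWHomog_cyc hI hF) (cm C)).c μ (zt I F C hC) =
        if wz n 2 (Fin.last n) - wz n 2 (Fin.castSucc (C.min' hC)) = μ then zt I F C hC else 0 :=
      MPadcGP2.grC_c_cq _ _ _ _ _
    rw [h1, hl, hc]
    have h2 : (0 : ZMod 2) - 1 = 1 := by decide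
    rw [h2]
    by_cases h : μ = 1
    · rw [if_pos h, if_pos h.symm]
    · rw [if_neg h, if_neg (Ne.symm h)]
  ret := by
    have hε : (2⁻¹ : A) * ((2 : ℕ) : A) = 1 := by
      rw [Nat.cast_ofNat, inv_mul_cancel₀ two_ne_zero]
    exact W1_retC hI hF hε hC

theorem psi_inj (hI : IsHomog I) (hF : F.IsHomogeneous 2) {C : Finset (Fin n)} (hC : C.Nonempty) :
    Function.Injective (psi I F C) := (NCovB_dc hI hF hC).inj

theorem phi_ex (hI : IsHomog I) (hF : F.IsHomogeneous 2) (hs : IsSec I F I') {C : Finset (Fin n)} (hC : C.Nonempty)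
    {a : ℕ} {k : Fm A (chart I C)} (hk : k ∈ kF hs.le a C) :
    ∃ ω ∈ Fd A (chart (cyc I F 2) (cm C)) a,
      wp (grC (isHomog_cyc hI hF) (isWHomog_cyc hI hF) (cm C)) (1 : ZMod 2) ω = ω ∧
      fz A (zt I F C hC) * ω = psi I F C k := by
  obtain ⟨x, y, hx, hy1, hy2, hxy⟩ := fker hI hF hs hC hk.1 hk.2
  obtain ⟨ω, h1, h2, h3⟩ := (NCovB_dc hI hF hC).ex hx hy1 hy2
  exact ⟨ω, h1, h2, h3.trans (congrArg (psi I F C) hxy.symm)⟩

theorem phi_inv (hI : IsHomog I) (hF : F.IsHomogeneous 2) (hs : IsSec I F I') {C : Finset (Fin n)} (hC : C.Nonempty)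
    {a : ℕ} {ω : Fm A (chart (cyc I F 2) (cm C))} (hω : ω ∈ Fd A (chart (cyc I F 2) (cm C)) a)
    (hw : wp (grC (isHomog_cyc hI hF) (isWHomog_cyc hI hF) (cm C)) (1 : ZMod 2) ω = ω) :
    ∃ k ∈ kF hs.le a C, psi I F C k = fz A (zt I F C hC) * ω := by
  have hwt : ∀ l l' : Fin (n + 1), l ≠ Fin.last n → l' ≠ Fin.last n → wz n 2 l = wz n 2 l' := by
    intro l l' h h'
    have h1 : wz n 2 l = 1 := if_neg h
    have h2 : wz n 2 l' = 1 := if_neg h'
    rw [h1, h2]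
  have hz : Fin.last n ∉ cm C := by
    intro h
    obtain ⟨l, -, h2⟩ := Finset.mem_map.1 h
    exact Fin.castSucc_ne_last l h2
  obtain ⟨x, y, hx, hy1, hy2, hxy⟩ := wt_zeta (isHomog_cyc hI hF) (isWHomog_cyc hI hF) hwt hz
    (Finset.mem_map_of_mem Fin.castSuccEmb (C.min'_mem hC)) (one_ne_zero : (1 : ZMod 2) ≠ 0) hω hw
  obtain ⟨x', y', h1, h2⟩ := (NCovB_dc hI hF hC).inv hw hxy hx hy1 hy2
  exact ⟨_, ⟨h1, fker' hI hF hs hC x' y'⟩, h2⟩

theorem zt_res {C C' : Finset (Fin n)} (hC : C.Nonempty) (h : C ⊆ C') :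
    zt I F C' (hC.mono h) = W1c I F 2 C' (tau I 1 h) * tr (cyc I F 2) (cm_mono h) (zt I F C hC) := by
  have h1 : Fin.castSucc (C'.min' (hC.mono h)) ∈ cm C' :=
    Finset.mem_map_of_mem Fin.castSuccEmb (C'.min'_mem (hC.mono h))
  rw [tau_one h hC, W1c_cq I F 2 _ _ h1]
  unfold zt
  rw [tr_cq, mul_comm]
  exact (cq_mul _ _ _ _).symm

theorem psi_rsc {C C' : Finset (Fin n)} (h : C ⊆ C') (x : Fm A (chart I C)) :
    psi I F C' (rsc I h x) = rsc (cyc I F 2) (cm_mono h) (psi I F C x) :=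
  mp_square (φ := W1c I F 2 C) (φ' := W1c I F 2 C') (α := tr I h) (β := tr (cyc I F 2) (cm_mono h))
    (fun y => W1c_tr I F 2 h y) x

end

end MPadcHS
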