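import Pool.Agent.Lib.MP_adc574_ag_HS.NCovA
import Pool.Agent.Lib.MP_adc574_ag_HS.NCovB

/-!
# JOB NCovC (HS): `H^b(K(a,1)) = 0` for the generic quadric section, `a + b ≠ m`

`I = bI (algebraMap κ K) J`, `F = frm (ak κ n 2 K)`, `Q = Qc J K 2 = cyc I F 2`. Let `c` be a cocycle of `kT hs.le 1 a` on the sets with `b + 1` elements. For `C` nonempty with `b + 1` elements `phi_ex` gives `ω C ∈ Fd a` of weight `1` with `fz ζ * ω C = psi (c C)`; `ω C := 0` for the other `C` (there `c C = 0`).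
* `del ω = 0` for `nT Q a`: at `K'` nonempty: `fz (ζ_K') * (del ω) K' = psi ((del c) K') = 0`: for `j ∈ K'`, `C = K'.erase j` nonempty: `fz ζ_K' * rsc (ω C) = fz (W1c (tau 1)) * rsc (fz ζ_C * ω C) = psi (fz (tau 1) * rsc (c C))` (`zt_res`, `psi_rsc`, `map_mul`, `mp_fz`). `fz ζ` is injective on the forms of the smooth `Proj Q` (`fz_inj` with `cyc_smooth hJ (by norm_num) ak_indep`, `zeta_nzd`).
* `cov_acy hJ (μ := 1) (by decide) hab`: `ω = del ω'`, `ω'` of weight `1`. `phi_inv`: `k' C ∈ kF hs.le a C` with `psi (k' C) = fz ζ * ω' C` (for nonempty `C` with `b` elements; `0` otherwise). `del k' = c`: apply the injective `psi` (`psi_inj`) at nonempty `K'`: `psi ((del k') K') = fz ζ_K' * (del ω') K' = fz ζ_K' * ω K' = psi (c K')` (same computation).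
-/

set_option autoImplicit false
set_option linter.unusedSectionVars false

namespace MPadcHS

open MvPolynomial MPadcGP MPadcDC

universe u v w

section abs

private theorem NCovC_emp3 {n : ℕ} {M : TS.{u} n} {c : ∀ J, M.E J} (h0 : c ∅ = 0) {D : Finset (Fin n)}
    (hD : ¬ D.Nonempty) : c D = 0 := by
  have h1 := Finset.not_nonempty_iff_eq_empty.1 hD
  subst h1
  exact h0

private theorem NCovC_emp2 {n : ℕ} (M : TS.{u} n) (c : ∀ J, M.E J) {D : Finset (Fin n)} (hD : ¬ D.Nonempty) :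
    M.del c D = 0 := by
  refine NCovC_emp3 ?_ hD
  unfold TS.del
  rw [Finset.sum_empty]

private theorem NCovC_lift {n : ℕ} {M : TS.{u} n} (Q : ∀ C, M.E C → Prop) {b : ℕ}
    (h0 : ∀ C : Finset (Fin n), C = ∅ ∨ C.card ≠ b → Q C 0)
    (h1 : ∀ C : Finset (Fin n), C.Nonempty → C.card = b → ∃ x, Q C x) :
    ∃ c, M.Cd b c ∧ ∀ C, Q C (c C) := by
  have h2 : ∀ C : Finset (Fin n), ∃ x : M.E C, Q C x ∧ (C = ∅ ∨ C.card ≠ b → x = 0) := by
    intro C
    by_cases h3 : C = ∅ ∨ C.card ≠ b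
    · exact ⟨0, h0 C h3, fun _ => rfl⟩
    · rw [not_or, not_not] at h3
      obtain ⟨x, hx⟩ := h1 C (Finset.nonempty_iff_ne_empty.2 h3.1) h3.2
      exact ⟨x, hx, fun h4 => absurd h4 (by rw [not_or, not_not]; exact h3)⟩
  choose c hc hc0 using h2
  exact ⟨c, ⟨hc0 ∅ (Or.inl rfl), fun C hC => hc0 C (Or.inr hC)⟩, hc⟩

private theorem NCovC_ms {E : Type*} [Ring E] (a b : E) (s : ℤ) : a * (s • b) = s • (a * b) := mul_smul_comm _ _ _

/-- transport of acyclicity along a relation -/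
private theorem NCovC_tr {n : ℕ} {M : TS.{u} n} {N : TS.{v} n} (R : ∀ C, M.E C → N.E C → Prop)
    (W : ∀ C, N.E C → Prop) {b : ℕ}
    (hR0 : ∀ C, R C 0 0) (hW0 : ∀ C, W C 0)
    (hdel : ∀ (ω : ∀ C, N.E C) (k : ∀ C, M.E C), ω ∅ = 0 → k ∅ = 0 → (∀ C, R C (k C) (ω C)) →
      ∀ C : Finset (Fin n), C.Nonempty → R C (M.del k C) (N.del ω C))
    (hex : ∀ C : Finset (Fin n), C.Nonempty → ∀ k, ∃ ω, W C ω ∧ R C k ω)
    (hinv : ∀ C : Finset (Fin n), C.Nonempty → ∀ ω, W C ω → ∃ k, R C k ω)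
    (hz : ∀ C : Finset (Fin n), C.Nonempty → ∀ ω, R C 0 ω → ω = 0)
    (hu : ∀ C : Finset (Fin n), C.Nonempty → ∀ k k' ω, R C k ω → R C k' ω → k = k')
    (hac : ∀ ω, N.Cd (b + 1) ω → N.del ω = 0 → (∀ C, W C (ω C)) →
      ∃ ω', N.Cd b ω' ∧ (∀ C, W C (ω' C)) ∧ N.del ω' = ω) : M.Acy b := by
  intro c hc hdc
  obtain ⟨ω, hω, hω'⟩ := NCovC_lift (M := N) (fun C x => W C x ∧ R C (c C) x) (b := b + 1) (fun C hC => by
      refine ⟨hW0 C, ?_⟩
      have h3 : c C = 0 := by
        rcases hC with h2 | h2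
        · exact NCovC_emp3 hc.1 (by rw [h2]; exact Finset.not_nonempty_empty)
        · exact hc.2 C h2
      rw [h3]
      exact hR0 C) (fun C hC _ => hex C hC (c C))
  have hd := hdel ω c hω.1 hc.1 fun C => (hω' C).2
  have hd0 : N.del ω = 0 := by
    funext C
    by_cases hC : C.Nonempty
    · refine hz C hC _ ?_
      have h2 := hd C hC
      rw [hdc] at h2
      exact h2
    · exact NCovC_emp2 _ _ hC
  obtain ⟨ω', hω'c, hw', hdω'⟩ := hac ω hω hd0 fun C => (hω' C).1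
  obtain ⟨k, hk, hk'⟩ := NCovC_lift (M := M) (fun C x => R C x (ω' C)) (b := b) (fun C hC => by
      have h3 : ω' C = 0 := by
        rcases hC with h2 | h2
        · exact NCovC_emp3 hω'c.1 (by rw [h2]; exact Finset.not_nonempty_empty)
        · exact hω'c.2 C h2
      rw [h3]
      exact hR0 C) (fun C hC _ => hinv C hC (ω' C) (hw' C))
  refine ⟨k, hk, ?_⟩
  have hd' := hdel ω' k hω'c.1 hk.1 hk'
  funext C
  by_cases hC : C.Nonempty
  · refine hu C hC _ _ _ (hd' C hC) ?_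
    rw [hdω']
    exact (hω' C).2
  · rw [NCovC_emp2 _ _ hC, NCovC_emp3 hc.1 hC]

end abs

section

variable {A : Type u} [Field A] [CharZero A] {n : ℕ} {I I' : Ideal (MvPolynomial (Fin n) A)}
  {F : MvPolynomial (Fin n) A}

private theorem NCovC_zt {C C' : Finset (Fin n)} (hC : C.Nonempty) (h : C ⊆ C') :
    fz A (zt I F C' (hC.mono h)) = psi I F C' (fz A (tau I 1 h)) * rsc (cyc I F 2) (cm_mono h) (fz A (zt I F C hC)) := by
  have h1 : psi I F C' (fz A (tau I 1 h)) = fz A (W1c I F 2 C' (tau I 1 h)) := mp_fz _ _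
  have h2 : rsc (cyc I F 2) (cm_mono h) (fz A (zt I F C hC)) = fz A (tr (cyc I F 2) (cm_mono h) (zt I F C hC)) :=
    rsc_fz _ _
  refine Eq.trans (congrArg (fz A) (zt_res hC h)) (Eq.trans
    (map_mul (fz A) (W1c I F 2 C' (tau I 1 h)) (tr (cyc I F 2) (cm_mono h) (zt I F C hC))) ?_)
  exact (congrArg₂ (fun x y => x * y) h1 h2).symm

private theorem NCovC_term {C C' : Finset (Fin n)} (hC : C.Nonempty) (h : C ⊆ C')
    {ω : Fm A (chart (cyc I F 2) (cm C))} {k : Fm A (chart I C)} (hk : fz A (zt I F C hC) * ω = psi I F C k) :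
    fz A (zt I F C' (hC.mono h)) * rsc (cyc I F 2) (cm_mono h) ω = psi I F C' (fz A (tau I 1 h) * rsc I h k) :=
  calc fz A (zt I F C' (hC.mono h)) * rsc (cyc I F 2) (cm_mono h) ω =
      (psi I F C' (fz A (tau I 1 h)) * rsc (cyc I F 2) (cm_mono h) (fz A (zt I F C hC))) *
        rsc (cyc I F 2) (cm_mono h) ω := congrArg (fun x => x * rsc (cyc I F 2) (cm_mono h) ω) (NCovC_zt hC h)
    _ = psi I F C' (fz A (tau I 1 h)) * (rsc (cyc I F 2) (cm_mono h) (fz A (zt I F C hC)) *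
        rsc (cyc I F 2) (cm_mono h) ω) := mul_assoc _ _ _
    _ = psi I F C' (fz A (tau I 1 h)) * rsc (cyc I F 2) (cm_mono h) (fz A (zt I F C hC) * ω) :=
      congrArg (fun x => psi I F C' (fz A (tau I 1 h)) * x)
        (map_mul (rsc (cyc I F 2) (cm_mono h)) (fz A (zt I F C hC)) ω).symm
    _ = psi I F C' (fz A (tau I 1 h)) * rsc (cyc I F 2) (cm_mono h) (psi I F C k) :=
      congrArg (fun x => psi I F C' (fz A (tau I 1 h)) * rsc (cyc I F 2) (cm_mono h) x) hk
    _ = psi I F C' (fz A (tau I 1 h)) * psi I F C' (rsc I h k) :=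
      congrArg (fun x => psi I F C' (fz A (tau I 1 h)) * x) (psi_rsc h k).symm
    _ = psi I F C' (fz A (tau I 1 h) * rsc I h k) := (map_mul (psi I F C') (fz A (tau I 1 h)) (rsc I h k)).symm

/-- the components of the differential -/
private theorem NCovC_delN {Q : Ideal (MvPolynomial (Fin (n + 1)) A)} {a : ℕ} (ω : ∀ C, (nT Q a).E C)
    (C : Finset (Fin n)) : ((nT Q a).del ω C).1 =
      ∑ j ∈ C, sg j C • rsc Q (cm_mono (Finset.erase_subset j C)) (ω (C.erase j)).1 := by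
  unfold TS.del
  have h1 := map_sum (Fd A (chart Q (cm C)) a).subtype.toAddMonoidHom
    (fun j => sg j C • (nT Q a).r (Finset.erase_subset j C) (ω (C.erase j))) C
  exact h1

private theorem NCovC_delK (hle : I ≤ I') {a : ℕ} (k : ∀ C, (kT hle 1 a).E C) (C : Finset (Fin n)) :
    ((kT hle 1 a).del k C).1 = ∑ j ∈ C, sg j C • (fz A (tau I 1 (Finset.erase_subset j C)) *
      rsc I (Finset.erase_subset j C) (k (C.erase j)).1) := by
  unfold TS.del
  have h1 := map_sum (kF hle a C).subtype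
    (fun j => sg j C • (kT hle 1 a).r (Finset.erase_subset j C) (k (C.erase j))) C
  exact h1

private theorem NCovC_z1 {C : Finset (Fin n)} (x : Fm A (chart (cyc I F 2) (cm C))) {y : Fm A (chart I C)}
    {w : Fm A (chart (cyc I F 2) (cm C))} (hy : y = 0) (hw : w = 0) : x * w = psi I F C y :=
  calc x * w = x * 0 := congrArg (fun w => x * w) hw
    _ = 0 := mul_zero x
    _ = psi I F C 0 := (map_zero (psi I F C)).symm
    _ = psi I F C y := congrArg (psi I F C) hy.symm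

private theorem NCovC_last (C : Finset (Fin n)) : Fin.last n ∉ cm C := by
  rw [Finset.mem_map]
  rintro ⟨j, _, hj⟩
  exact Fin.castSucc_ne_last j hj

private theorem NCovC_del (hle : I ≤ I') {a : ℕ} (ω : ∀ C, (nT (cyc I F 2) a).E C) (k : ∀ C, (kT hle 1 a).E C)
    (h0 : (ω ∅).1 = 0) (h0' : (k ∅).1 = 0)
    (h : ∀ (C : Finset (Fin n)) (hC : C.Nonempty), fz A (zt I F C hC) * (ω C).1 = psi I F C (k C).1)
    (C : Finset (Fin n)) (hC : C.Nonempty) :
    fz A (zt I F C hC) * ((nT (cyc I F 2) a).del ω C).1 = psi I F C ((kT hle 1 a).del k C).1 := by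
  have h1 : ∀ D : Finset (Fin n), ¬ D.Nonempty → (ω D).1 = 0 := by
    intro D hD
    have h2 := Finset.not_nonempty_iff_eq_empty.1 hD
    subst h2
    exact h0
  have h1' : ∀ D : Finset (Fin n), ¬ D.Nonempty → (k D).1 = 0 := by
    intro D hD
    have h2 := Finset.not_nonempty_iff_eq_empty.1 hD
    subst h2
    exact h0'
  have e1 := congrArg (fun y => fz A (zt I F C hC) * y) (NCovC_delN ω C)
  have e2 := congrArg (psi I F C) (NCovC_delK hle k C)
  refine e1.trans (Eq.trans ?_ e2.symm)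
  refine (Finset.mul_sum _ _ _).trans (Eq.trans (Finset.sum_congr rfl fun j _ => ?_) (map_sum (psi I F C) _ _).symm)
  refine (NCovC_ms _ _ _).trans (Eq.trans (congrArg (fun y => sg j C • y) ?_)
    (map_zsmul (psi I F C) (sg j C) _).symm)
  by_cases hK : (C.erase j).Nonempty
  · exact NCovC_term hK (Finset.erase_subset j C) (h _ hK)
  · refine NCovC_z1 _ ?_ ?_
    · exact (congrArg (fun y => fz A (tau I 1 (Finset.erase_subset j C)) * y) ((congrArg (rsc I
        (Finset.erase_subset j C)) (h1' _ hK)).trans (map_zero (rsc I (Finset.erase_subset j C))))).trans (mul_zero _)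
    · exact (congrArg (rsc (cyc I F 2) (cm_mono (Finset.erase_subset j C))) (h1 _ hK)).trans
        (map_zero (rsc (cyc I F 2) (cm_mono (Finset.erase_subset j C))))

end

section

variable {κ : Type u} [Field κ] [CharZero κ] {n : ℕ} {J : Ideal (MvPolynomial (Fin n) κ)} {K : Type u} [Field K]
  [Algebra κ K] [Algebra (Ra κ n 2) K] [IsScalarTower κ (Ra κ n 2) K] [IsFractionRing (Ra κ n 2) K]

theorem kT_dc {m : ℕ} (hJ : Good J m) {I' : Ideal (MvPolynomial (Fin n) K)}
    (hs : IsSec (bI (algebraMap κ K) J) (frm (ak κ n 2 K)) I') {a b : ℕ} (hab : a + b ≠ m) :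
    (kT hs.le 1 a).Acy b := by
  have hK : CharZero K := charZero_of_injective_algebraMap (algebraMap κ K).injective
  have hI : IsHomog (bI (algebraMap κ K) J) := hJ.homog.map _
  have hF : (frm (ak κ n 2 K)).IsHomogeneous 2 := frm_hom _
  refine NCovC_tr (M := kT hs.le 1 a) (N := nT (Qc J K 2) a)
    (fun C k ω => ∀ hC : C.Nonempty, fz K (zt (bI (algebraMap κ K) J) (frm (ak κ n 2 K)) C hC) * ω.1 =
        psi (bI (algebraMap κ K) J) (frm (ak κ n 2 K)) C k.1)
    (fun C ω => wp (gQ K 2 hJ.homog C) (1 : ZMod 2) ω.1 = ω.1) ?_ ?_ ?_ ?_ ?_ ?_ ?_ ?_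
  · intro C hC
    exact NCovC_z1 _ rfl rfl
  · intro C
    exact wp_zero (gQ K 2 hJ.homog C) (1 : ZMod 2)
  · intro ω k h0 h0' h C hC _
    exact NCovC_del hs.le ω k (congrArg Subtype.val h0) (congrArg Subtype.val h0') h C hC
  · intro C hC k
    exact (phi_ex hI hF hs hC k.2).elim fun ω h => ⟨⟨ω, h.1⟩, h.2.1, fun _ => h.2.2⟩
  · intro C hC ω hw
    exact (phi_inv hI hF hs hC ω.2 hw).elim fun k h => ⟨⟨k, h.1⟩, fun _ => h.2.symm⟩
  · intro C hC ω h
    have hQ := cyc_smooth (K := K) (e := 2) hJ (by norm_num) (ak_indep (κ := κ) (n := n) (e := 2) (K := K))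
    have h4 := (h hC).trans (map_zero (psi (bI (algebraMap κ K) J) (frm (ak κ n 2 K)) C))
    exact Subtype.ext (fz_inj hQ.1 hQ.2 hC.map
      (zeta_nzd hJ (by norm_num) (ak_indep (κ := κ) (n := n) (e := 2) (K := K)) (NCovC_last C) _) h4)
  · intro C hC k k' ω h h'
    exact Subtype.ext (psi_inj (F := frm (ak κ n 2 K)) hI hF hC ((h hC).symm.trans (h' hC)))
  · intro ω hω hdω hw
    exact cov_acy hJ (μ := (1 : ZMod 2)) (by decide) hab ω hω hdω hw

end

end MPadcHS
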