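import Pool.Agent.Lib.MP_adc574_ag_HS.NSys

/-!
# JOB NSysA (HS): exact sequences of Čech systems

* `del_del`: for `c` with `c ∅ = 0` the square of `del` is `0`: copy `CovD.del_del` (GP/Cov.lean): `sg_sg`, `Finset.sum_involution`, `M.r_r` (needs that the set `(J.erase i).erase j` is nonempty; if it is empty then `c` of it is `0`).
* `del_Cd`: `Cd k c → Cd (k + 1) (del c)` (`Finset.card_erase_add_one`; `del c ∅` is an empty sum).
* `SES.left` (zigzag): let `c` be a cocycle of `M'` on the sets with `b + 1` elements. `i c` is a cocycle of `M` (`i_r` for the sets `J.erase j`, nonempty, or `c = 0` there), so `i c = del k`, `Cd b k`. `p k` is a cocycle: `del (p k) = p (del k) = p (i c) = 0` (`ex`). If `b = 0` then `k = 0`, so `i c = 0`, `c = 0`, take `c' = 0`. If `b = b' + 1`: `p k = del h''`, `Cd b' h''`;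
  lift `h''` to `h` with `Cd b' h` (`surj` for nonempty `J`, `0` elsewhere); `k - del h` is killed by `p`, so `k - del h = i c'`, `Cd b c'` (`ex`, and `c' J = 0` where `k - del h` is `0`); `i (del c') = del (k - del h) = del k = i c`, so `del c' = c` by `inj` (at `J = ∅` both are `0`).
* `SES.mid`: `c` cocycle of `M` in `Cd (b + 1)`; `p c` is a cocycle of `M''`, `p c = del h''`, `Cd b h''`; lift to `h`; `c - del h = i y`, `Cd (b + 1) y`, `i (del y) = del c - 0 = 0`, so `y` is a cocycle; `y = del y'`; `c = del (h + i y')`.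
* `Rt.acy`: `c` cocycle of `M`; `i c` is a cocycle of `M'`, `i c = del k`, `c = p (i c) = del (p k)`.
* `acy_zero`: all `c` are `0`.
-/

set_option autoImplicit false

namespace MPadcHS

open MPadcGP

universe u v w

private theorem NSysA_emp {n : ℕ} {M : TS.{u} n} {c : ∀ J, M.E J} (h0 : c ∅ = 0) {K : Finset (Fin n)}
    (hK : ¬ K.Nonempty) : c K = 0 := by
  have h1 := Finset.not_nonempty_iff_eq_empty.1 hK
  subst h1
  exact h0

/-- the restriction of the component on `K` to `U_J` -/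
private def NSysA_ev {n : ℕ} (M : TS.{u} n) (c : ∀ J, M.E J) (K J : Finset (Fin n)) : M.E J :=
  if h : K ⊆ J then M.r h (c K) else 0

private theorem NSysA_r_ev {n : ℕ} {M : TS.{u} n} {c : ∀ J, M.E J} (h0 : c ∅ = 0) {K J L : Finset (Fin n)} (h : K ⊆ J)
    (h' : J ⊆ L) : M.r h' (NSysA_ev M c K J) = NSysA_ev M c K L := by
  unfold NSysA_ev
  rw [dif_pos h, dif_pos (h.trans h')]
  by_cases hK : K.Nonempty
  · exact M.r_r h h' hK _
  · rw [NSysA_emp h0 hK, map_zero, map_zero, map_zero]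

private theorem NSysA_del {n : ℕ} (M : TS.{u} n) (c : ∀ J, M.E J) (J : Finset (Fin n)) :
    M.del c J = ∑ j ∈ J, sg j J • NSysA_ev M c (J.erase j) J := by
  unfold TS.del
  refine Finset.sum_congr rfl fun j _ => ?_
  unfold NSysA_ev
  rw [dif_pos (Finset.erase_subset j J)]

private theorem NSysA_ev_del {n : ℕ} {M : TS.{u} n} {c : ∀ J, M.E J} (h0 : c ∅ = 0) {K J : Finset (Fin n)} (h : K ⊆ J) :
    NSysA_ev M (M.del c) K J = ∑ j ∈ K, sg j K • NSysA_ev M c (K.erase j) J := by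
  have h1 : NSysA_ev M (M.del c) K J = M.r h (M.del c K) := by
    unfold NSysA_ev
    rw [dif_pos h]
  rw [h1, NSysA_del, map_sum]
  refine Finset.sum_congr rfl fun j _ => ?_
  rw [map_zsmul, NSysA_r_ev h0 (Finset.erase_subset _ _) h]

theorem TS.del_del {n : ℕ} (M : TS.{u} n) (c : ∀ J, M.E J) (h0 : c ∅ = 0) : M.del (M.del c) = 0 := by
  funext J
  rw [NSysA_del, Pi.zero_apply]
  have h1 : ∀ i ∈ J, sg i J • NSysA_ev M (M.del c) (J.erase i) J =
      ∑ j ∈ J.erase i, (sg i J * sg j (J.erase i)) • NSysA_ev M c ((J.erase i).erase j) J := by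
    intro i _
    rw [NSysA_ev_del h0 (Finset.erase_subset _ _), Finset.smul_sum]
    refine Finset.sum_congr rfl fun j _ => ?_
    rw [smul_smul]
  rw [Finset.sum_congr rfl h1, Finset.sum_sigma']
  refine Finset.sum_involution (fun p _ => (⟨p.2, p.1⟩ : Σ _ : Fin n, Fin n)) ?_ ?_ ?_ ?_
  · rintro ⟨i, j⟩ h
    rw [Finset.mem_sigma, Finset.mem_erase] at h
    obtain ⟨hi, hij, hj⟩ := h
    change (sg i J * sg j (J.erase i)) • NSysA_ev M c ((J.erase i).erase j) J +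
      (sg j J * sg i (J.erase j)) • NSysA_ev M c ((J.erase j).erase i) J = 0
    rw [Finset.erase_right_comm (a := j) (b := i), ← add_smul, sg_sg hi hj (Ne.symm hij), zero_smul]
  · rintro ⟨i, j⟩ h _ he
    rw [Finset.mem_sigma, Finset.mem_erase] at h
    have h1 : (⟨j, i⟩ : Σ _ : Fin n, Fin n) = ⟨i, j⟩ := he
    have h2 : j = i := congrArg (fun p : (Σ _ : Fin n, Fin n) => p.1) h1
    exact h.2.1 h2
  · rintro ⟨i, j⟩ h
    rw [Finset.mem_sigma, Finset.mem_erase] at h ⊢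
    exact ⟨h.2.2, Ne.symm h.2.1, h.1⟩
  · rintro ⟨i, j⟩ _
    rfl

private theorem NSysA_del_empty {n : ℕ} (M : TS.{u} n) (c : ∀ J, M.E J) : M.del c ∅ = 0 := by
  unfold TS.del
  rw [Finset.sum_empty]

theorem TS.del_Cd {n : ℕ} (M : TS.{u} n) {k : ℕ} {c : ∀ J, M.E J} (h : M.Cd k c) : M.Cd (k + 1) (M.del c) := by
  refine ⟨NSysA_del_empty M c, fun J hJ => ?_⟩
  unfold TS.del
  refine Finset.sum_eq_zero fun j hj => ?_
  have h1 : (J.erase j).card ≠ k := by
    intro h2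
    exact hJ (by rw [← h2, Finset.card_erase_add_one hj])
  rw [h.2 _ h1, map_zero, smul_zero]

private theorem NSysA_sub {n : ℕ} (M : TS.{u} n) (a b : ∀ J, M.E J) : M.del (a - b) = M.del a - M.del b := by
  funext J
  rw [Pi.sub_apply]
  unfold TS.del
  rw [← Finset.sum_sub_distrib]
  refine Finset.sum_congr rfl fun j _ => ?_
  rw [Pi.sub_apply, map_sub, smul_sub]

private theorem NSysA_add {n : ℕ} (M : TS.{u} n) (a b : ∀ J, M.E J) : M.del (a + b) = M.del a + M.del b := by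
  funext J
  rw [Pi.add_apply]
  unfold TS.del
  rw [← Finset.sum_add_distrib]
  refine Finset.sum_congr rfl fun j _ => ?_
  rw [Pi.add_apply, map_add, smul_add]

private theorem NSysA_zero {n : ℕ} (M : TS.{u} n) : M.del 0 = 0 := by
  funext J
  unfold TS.del
  refine Finset.sum_eq_zero fun j _ => ?_
  rw [Pi.zero_apply, map_zero, smul_zero]

private theorem NSysA_cdsub {n : ℕ} {M : TS.{u} n} {k : ℕ} {a b : ∀ J, M.E J} (ha : M.Cd k a) (hb : M.Cd k b) :
    M.Cd k (a - b) := by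
  refine ⟨?_, fun J hJ => ?_⟩
  · rw [Pi.sub_apply, ha.1, hb.1, sub_zero]
  · rw [Pi.sub_apply, ha.2 J hJ, hb.2 J hJ, sub_zero]

private theorem NSysA_cdadd {n : ℕ} {M : TS.{u} n} {k : ℕ} {a b : ∀ J, M.E J} (ha : M.Cd k a) (hb : M.Cd k b) :
    M.Cd k (a + b) := by
  refine ⟨?_, fun J hJ => ?_⟩
  · rw [Pi.add_apply, ha.1, hb.1, add_zero]
  · rw [Pi.add_apply, ha.2 J hJ, hb.2 J hJ, add_zero]

/-- the image of a cochain -/
private def NSysA_mp {n : ℕ} {M : TS.{u} n} {M' : TS.{v} n} (f : ∀ J, M.E J →+ M'.E J) (c : ∀ J, M.E J) :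
    ∀ J, M'.E J := fun J => f J (c J)

private theorem NSysA_mp_cd {n : ℕ} {M : TS.{u} n} {M' : TS.{v} n} (f : ∀ J, M.E J →+ M'.E J) {k : ℕ}
    {c : ∀ J, M.E J} (h : M.Cd k c) : M'.Cd k (NSysA_mp f c) := by
  refine ⟨?_, fun J hJ => ?_⟩
  · unfold NSysA_mp
    rw [h.1, map_zero]
  · unfold NSysA_mp
    rw [h.2 J hJ, map_zero]

private theorem NSysA_mp_del {n : ℕ} {M : TS.{u} n} {M' : TS.{v} n} (f : ∀ J, M.E J →+ M'.E J)
    (hf : ∀ {J K : Finset (Fin n)} (h : J ⊆ K), J.Nonempty → ∀ x, f K (M.r h x) = M'.r h (f J x)) {c : ∀ J, M.E J}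
    (h0 : c ∅ = 0) : NSysA_mp f (M.del c) = M'.del (NSysA_mp f c) := by
  funext J
  unfold NSysA_mp TS.del
  rw [map_sum]
  refine Finset.sum_congr rfl fun j _ => ?_
  rw [map_zsmul]
  by_cases hK : (J.erase j).Nonempty
  · rw [hf _ hK]
  · show sg j J • f J (M.r _ (c (J.erase j))) = sg j J • M'.r _ (f (J.erase j) (c (J.erase j)))
    rw [NSysA_emp h0 hK, map_zero, map_zero, map_zero, map_zero]

private theorem NSysA_mp_sub {n : ℕ} {M : TS.{u} n} {M' : TS.{v} n} (f : ∀ J, M.E J →+ M'.E J) (a b : ∀ J, M.E J) :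
    NSysA_mp f (a - b) = NSysA_mp f a - NSysA_mp f b := by
  funext J
  unfold NSysA_mp
  rw [Pi.sub_apply, Pi.sub_apply, map_sub]

private theorem NSysA_mp_add {n : ℕ} {M : TS.{u} n} {M' : TS.{v} n} (f : ∀ J, M.E J →+ M'.E J) (a b : ∀ J, M.E J) :
    NSysA_mp f (a + b) = NSysA_mp f a + NSysA_mp f b := by
  funext J
  unfold NSysA_mp
  rw [Pi.add_apply, Pi.add_apply, map_add]

/-- lift of a cochain -/
private theorem NSysA_lift {n : ℕ} {M : TS.{u} n} {M' : TS.{v} n} (f : ∀ J, M.E J →+ M'.E J) {k : ℕ}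
    {c : ∀ J, M'.E J} (h : M'.Cd k c) (hs : ∀ J : Finset (Fin n), J.Nonempty → ∃ x, f J x = c J) :
    ∃ c', M.Cd k c' ∧ NSysA_mp f c' = c := by
  have h1 : ∀ J : Finset (Fin n), ∃ x : M.E J, f J x = c J ∧ (¬ J.Nonempty ∨ J.card ≠ k → x = 0) := by
    intro J
    by_cases h2 : ¬ J.Nonempty ∨ J.card ≠ k
    · refine ⟨0, ?_, fun _ => rfl⟩
      rw [map_zero]
      rcases h2 with h2 | h2
      · exact (NSysA_emp h.1 h2).symm
      · exact (h.2 J h2).symm
    · have h3 : J.Nonempty := by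
        by_contra h4
        exact h2 (Or.inl h4)
      obtain ⟨x, hx⟩ := hs J h3
      exact ⟨x, hx, fun h4 => absurd h4 h2⟩
  choose c' hc' hc'' using h1
  exact ⟨c', ⟨hc'' ∅ (Or.inl Finset.not_nonempty_empty), fun J hJ => hc'' J (Or.inr hJ)⟩, funext hc'⟩

private theorem NSysA_inj {n : ℕ} {M : TS.{u} n} {M' : TS.{v} n} {f : ∀ J, M.E J →+ M'.E J}
    (hi : ∀ J : Finset (Fin n), J.Nonempty → Function.Injective (f J)) {a b : ∀ J, M.E J} (ha : a ∅ = 0) (hb : b ∅ = 0)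
    (h : NSysA_mp f a = NSysA_mp f b) : a = b := by
  funext J
  by_cases hJ : J.Nonempty
  · exact hi J hJ (congrFun h J)
  · rw [NSysA_emp ha hJ, NSysA_emp hb hJ]

theorem SES.left {n : ℕ} {M' : TS.{u} n} {M : TS.{v} n} {M'' : TS.{w} n} (s : SES M' M M'') {b : ℕ} (h1 : M.Acy b)
    (h2 : ∀ b', b = b' + 1 → M''.Acy b') : M'.Acy b := by
  intro c hc hdc
  obtain ⟨k, hk, hdk⟩ := h1 (NSysA_mp s.i c) (NSysA_mp_cd s.i hc) (by
    rw [← NSysA_mp_del s.i s.i_r hc.1, hdc]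
    funext J
    exact map_zero _)
  have hpk : M''.del (NSysA_mp s.p k) = 0 := by
    rw [← NSysA_mp_del s.p s.p_r hk.1, hdk]
    funext J
    by_cases hJ : J.Nonempty
    · exact (s.ex J hJ _).2 ⟨c J, rfl⟩
    · show s.p J (s.i J (c J)) = 0
      rw [NSysA_emp hc.1 hJ, map_zero, map_zero]
  rcases b with _ | b'
  · refine ⟨0, ⟨rfl, fun J _ => rfl⟩, ?_⟩
    have hk0 : k = 0 := by
      funext J
      by_cases hJ : J.Nonempty
      · exact hk.2 J (Finset.card_ne_zero.2 hJ)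
      · exact NSysA_emp hk.1 hJ
    rw [NSysA_zero]
    refine NSysA_inj s.inj rfl hc.1 ?_
    rw [← hdk, hk0, NSysA_zero]
    funext J
    exact map_zero _
  · obtain ⟨h'', hh'', hdh''⟩ := h2 b' rfl (NSysA_mp s.p k) (NSysA_mp_cd s.p hk) hpk
    obtain ⟨h, hh, hph⟩ := NSysA_lift s.p hh'' fun J hJ => s.surj J hJ _
    have hcd : M.Cd (b' + 1) (k - M.del h) := NSysA_cdsub hk (M.del_Cd hh)
    have hp0 : NSysA_mp s.p (k - M.del h) = 0 := by
      rw [NSysA_mp_sub, NSysA_mp_del s.p s.p_r hh.1, hph, hdh'', sub_self]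
    obtain ⟨c', hc', hic'⟩ := NSysA_lift s.i hcd fun J hJ => (s.ex J hJ _).1 (congrFun hp0 J)
    refine ⟨c', hc', ?_⟩
    refine NSysA_inj s.inj (NSysA_del_empty M' c') hc.1 ?_
    rw [NSysA_mp_del s.i s.i_r hc'.1, hic', NSysA_sub, M.del_del h hh.1, sub_zero, hdk]

theorem SES.mid {n : ℕ} {M' : TS.{u} n} {M : TS.{v} n} {M'' : TS.{w} n} (s : SES M' M M'') {b : ℕ} (h1 : M'.Acy b)
    (h2 : M''.Acy b) : M.Acy b := by
  intro c hc hdc
  obtain ⟨h'', hh'', hdh''⟩ := h2 (NSysA_mp s.p c) (NSysA_mp_cd s.p hc) (by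
    rw [← NSysA_mp_del s.p s.p_r hc.1, hdc]
    funext J
    exact map_zero _)
  obtain ⟨h, hh, hph⟩ := NSysA_lift s.p hh'' fun J hJ => s.surj J hJ _
  have hcd : M.Cd (b + 1) (c - M.del h) := NSysA_cdsub hc (M.del_Cd hh)
  have hp0 : NSysA_mp s.p (c - M.del h) = 0 := by
    rw [NSysA_mp_sub, NSysA_mp_del s.p s.p_r hh.1, hph, hdh'', sub_self]
  obtain ⟨y, hy, hiy⟩ := NSysA_lift s.i hcd fun J hJ => (s.ex J hJ _).1 (congrFun hp0 J)
  obtain ⟨y', hy', hdy'⟩ := h1 y hy (by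
    refine NSysA_inj s.inj (NSysA_del_empty M' y) (b := 0) rfl ?_
    rw [NSysA_mp_del s.i s.i_r hy.1, hiy, NSysA_sub, M.del_del h hh.1, hdc, sub_zero]
    funext J
    exact (map_zero _).symm)
  refine ⟨h + NSysA_mp s.i y', NSysA_cdadd hh (NSysA_mp_cd s.i hy'), ?_⟩
  rw [NSysA_add, ← NSysA_mp_del s.i s.i_r hy'.1, hdy', hiy, add_sub_cancel]

theorem Rt.acy {n : ℕ} {M : TS.{u} n} {M' : TS.{v} n} (s : Rt M M') {b : ℕ} (h1 : M'.Acy b) : M.Acy b := by
  intro c hc hdc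
  obtain ⟨k, hk, hdk⟩ := h1 (NSysA_mp s.i c) (NSysA_mp_cd s.i hc) (by
    rw [← NSysA_mp_del s.i s.i_r hc.1, hdc]
    funext J
    exact map_zero _)
  refine ⟨NSysA_mp s.p k, NSysA_mp_cd s.p hk, ?_⟩
  rw [← NSysA_mp_del s.p s.p_r hk.1, hdk]
  funext J
  by_cases hJ : J.Nonempty
  · exact s.p_i J hJ _
  · show s.p J (s.i J (c J)) = c J
    rw [NSysA_emp hc.1 hJ, map_zero, map_zero]

theorem acy_zero {n : ℕ} {M : TS.{u} n} (h : ∀ J : Finset (Fin n), J.Nonempty → ∀ x : M.E J, x = 0) (b : ℕ) :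
    M.Acy b := by
  intro c hc _
  refine ⟨0, ⟨rfl, fun J _ => rfl⟩, ?_⟩
  rw [NSysA_zero]
  funext J
  by_cases hJ : J.Nonempty
  · exact (h J hJ _).symm
  · exact (NSysA_emp hc.1 hJ).symm

end MPadcHS
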