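import Pool.Agent.Lib.MP_adc574_ag_HS.NKer
import Pool.Agent.Lib.MP_adc574_ag_HS.NSysA

/-!
# JOB NDesc (HS): descent of the field, change of the ideal

* `acy_desc`: `Rt (cT J t a) (cT (bI (algebraMap κ K) J) t a)` (NSys.lean) and `Rt.acy`. `i C`: the map of forms `mp (cb (algebraMap κ K) J C) _` (`mp_mem`; natural: `cb_tr`, `tau_cb`, `mp_comp`). `p C`: let `s : K →ₗ[κ] κ` with `s 1 = 1` (`exists_leftInverse`/ a basis of `K` containing `1`; `LinearMap.exists_leftInverse_of_injective`).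
  `bcf hb : K ⊗[κ] Fm κ (chart J C) →ₗ[K] Fm K (chart (bI ..) C)` is bijective (`bcf_bijective`, GP/BC, with `HB κ K (cmA J C)` and the bijectivity of `bcr` as in the proof of `chart_topK`, DC/GBaseC.lean); put `p := (TensorProduct.lid ..) ∘ (s ⊗ id) ∘ (bcf)⁻¹` (`LinearMap.rTensor`). `p (i x) = x`: `bcf (1 ⊗ x) = i x`. `p` maps `Fd K _ a` to `Fd κ _ a`: `bcf` maps `K ⊗ Fd a` onto `Fd a` (`fd_ind`: `fz r * wd t` for
  `r`, `t i` sums of `c • cb x`; or: project: `x ∈ Fd a` of the right hand side, `bcf y = x`, write `y = ∑ y_q` with `y_q` in `K ⊗ Fd q`, `bcf y_q ∈ Fd q`, so `bcf y_q = 0` for `q ≠ a`: directness `pj`, and `y = y_a`). Natural: `bcf` is compatible with the restrictions and with the multiplication by `fz (cb x)` (`bcf (c ⊗ (fz x * y)) = fz (cb x) * bcf (c ⊗ y)`), check on pure tensors.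
  Only for nonempty `C` (`bcm_bijective` needs `J.Nonempty`), for `C = ∅` take `p = 0`; `i`, `p` are required to be natural only for nonempty sets.
* `acy_sat`: two ideals of the same section: `I₁ := I ⊔ span {F} ≤ I'`: `hx : chart I₁ C → chart I' C` is bijective for nonempty `C`: surjective `hx_surj`; injective: `x` with `hx x = 0`; `x = hx (I → I₁) x₀`, `x₀ ∈ chart I C`, the image of `x₀` in `chart I' C` is `0` so `x₀ = fC I F C * y` (`hx_ker hI hF hs`), and `hx_ker` for `IsSec I F I₁` gives `x = 0`. (`isSec_sup`.) So the systems `cT I₁ t a` and `cT I' t a` are isomorphic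
  (the map of forms of a bijective homomorphism is bijective: `mp` of the inverse ring homomorphism, `mp_comp`, `mp_id`), `Rt.acy` in both directions; go through `I₁` for the pair `I'`, `I''`.
-/

set_option autoImplicit false
set_option linter.unusedSectionVars false

namespace MPadcHS

open MvPolynomial MPadcGP MPadcDC
open scoped TensorProduct

universe u v w x

private theorem NDesc_ad {R : Type*} {S : Type*} {T : Type*} [Semiring R] [Semiring S] [Semiring T] (f : R →+* S)
    (g : S →+* T) (k : R →+* T) {x y : R} (hx : g (f x) = k x) (hy : g (f y) = k y) : g (f (x + y)) = k (x + y) := by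
  rw [map_add, map_add, map_add, hx, hy]

private theorem NDesc_mu {R : Type*} {S : Type*} {T : Type*} [Semiring R] [Semiring S] [Semiring T] (f : R →+* S)
    (g : S →+* T) (k : R →+* T) {x y : R} (hx : g (f x) = k x) (hy : g (f y) = k y) : g (f (x * y)) = k (x * y) := by
  rw [map_mul, map_mul, map_mul, hx, hy]

private theorem NDesc_m {E : Type*} {E' : Type*} [Mul E] [Mul E'] {f : E → E'} (hf : ∀ x y, f (x * y) = f x * f y)
    {a x : E} {a' x' : E'} (ha : f a = a') (hx : f x = x') : f (a * x) = a' * x' :=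
  (hf a x).trans (congrArg₂ (· * ·) ha hx)

section NDescAux

variable {A : Type u} {B : Type w} [CommRing A] [CommRing B] [Algebra A B] {R : Type v}
  {S : Type x} [CommRing R] [CommRing S] [Algebra A R] [Algebra B S] {h : R →+* S}

/-- The generation of the forms after the base change. -/
private theorem NDesc_ind0 (hb : HB A B h) (hbij : Function.Bijective (bcr hb)) {P : Fm B S → Prop} (h0 : P 0)
    (h1 : ∀ x y, P x → P y → P (x + y)) (h2 : ∀ (b : B) (x : Fm A R), P (b • mp h hb.cc x)) (y : Fm B S) : P y := by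
  obtain ⟨z, rfl⟩ := (bcf_bijective hb hbij).2 y
  induction z using TensorProduct.induction_on with
  | zero => rw [map_zero]; exact h0
  | tmul b x => rw [bcf_tmul]; exact h2 b x
  | add x y hx hy => rw [map_add]; exact h1 _ _ hx hy

private theorem NDesc_ext0 (hb : HB A B h) (hbij : Function.Bijective (bcr hb)) {M : Type u} [AddCommGroup M]
    (f g : Fm B S →+ M) (h2 : ∀ (b : B) (x : Fm A R), f (b • mp h hb.cc x) = g (b • mp h hb.cc x)) (y : Fm B S) :
    f y = g y := by
  refine NDesc_ind0 (P := fun y => f y = g y) hb hbij ?_ ?_ h2 y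
  · rw [map_zero, map_zero]
  · intro x y hx hy
    rw [map_add, map_add, hx, hy]

private theorem NDesc_ind1 (hb : HB A B h) (hbij : Function.Bijective (bcr hb)) (a : ℕ) {P : Fm B S → Prop}
    (h0 : P 0) (h1 : ∀ x y, P x → P y → P (x + y))
    (h2 : ∀ (b : B) (x : Fm A R), x ∈ Fd A R a → P (b • mp h hb.cc x)) (y : Fm B S) (hy : y ∈ Fd B S a) : P y := by
  obtain ⟨z, hz⟩ := (bc_fo hb hbij (some a)).2 ⟨y, hy⟩
  have h3 : ∀ z, P ((bcl (mpo hb (some a)) (mpo_smul hb (some a)) z : ↥(FdO B S (some a))) : Fm B S) := by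
    intro z
    induction z using TensorProduct.induction_on with
    | zero => rw [map_zero]; exact h0
    | tmul b x => rw [bcl_tmul]; exact h2 b x x.2
    | add x y hx hy => rw [map_add]; exact h1 _ _ hx hy
  have h4 := h3 z
  rw [hz] at h4
  exact h4

/-- The projection to the forms over the small ring. -/
private theorem NDesc_p0 (hb : HB A B h) (hbij : Function.Bijective (bcr hb)) (s : B →ₗ[A] A) :
    ∃ p : Fm B S →+ Fm A R, ∀ (b : B) (x : Fm A R), p (b • mp h hb.cc x) = s b • x := by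
  let E : (B ⊗[A] Fm A R) ≃ₗ[B] Fm B S := LinearEquiv.ofBijective (bcf hb) (bcf_bijective hb hbij)
  let L : B ⊗[A] Fm A R →ₗ[A] Fm A R := (TensorProduct.lid A (Fm A R)).toLinearMap ∘ₗ LinearMap.rTensor (Fm A R) s
  have hL : ∀ (b : B) (x : Fm A R), L (b ⊗ₜ[A] x) = s b • x := by
    intro b x
    change (TensorProduct.lid A (Fm A R)) (LinearMap.rTensor (Fm A R) s (b ⊗ₜ[A] x)) = _
    rw [LinearMap.rTensor_tmul, TensorProduct.lid_tmul]
  refine ⟨L.toAddMonoidHom.comp E.symm.toLinearMap.toAddMonoidHom, fun b x => ?_⟩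
  have h2 : E.symm (b • mp h hb.cc x) = b ⊗ₜ[A] x := by
    rw [← bcf_tmul hb]
    exact E.symm_apply_apply _
  change L (E.symm (b • mp h hb.cc x)) = _
  rw [h2, hL]

private theorem NDesc_p1 (hb : HB A B h) (hbij : Function.Bijective (bcr hb)) (s : B →ₗ[A] A) (a : ℕ) :
    ∃ p : Fm B S →+ Fm A R, (∀ x ∈ Fd B S a, p x ∈ Fd A R a) ∧
      ∀ (b : B) (x : Fm A R), p (b • mp h hb.cc x) = s b • x := by
  obtain ⟨p, hp⟩ := NDesc_p0 hb hbij s
  refine ⟨p, fun x hx' => ?_, fun b x => hp b x⟩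
  refine NDesc_ind1 hb hbij a (P := fun y => p y ∈ Fd A R a) ?_ ?_ ?_ x hx'
  · rw [map_zero]
    exact Submodule.zero_mem _
  · intro x y hx hy
    rw [map_add]
    exact Submodule.add_mem _ hx hy
  · intro b x hx
    rw [hp, smul_fm]
    exact fz_mul_mem _ hx

private theorem NDesc_one (hb : HB A B h) {s : B →ₗ[A] A} (hs : s 1 = 1) {p : Fm B S →+ Fm A R}
    (hp : ∀ (b : B) (x : Fm A R), p (b • mp h hb.cc x) = s b • x) (x : Fm A R) : p (mp h hb.cc x) = x := by
  have h1 := hp 1 x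
  rw [one_smul, hs, one_smul] at h1
  exact h1

private theorem NDesc_bijA (hb : HB A B h) (g : B ⊗[A] R →ₐ[B] S) (hg : ∀ b r, g (b ⊗ₜ[A] r) = algebraMap B S b * h r)
    (hbij : Function.Bijective g) : Function.Bijective (bcr hb) := by
  have h2 : ∀ x : B ⊗[A] R, bcr hb x = g x := by
    intro x
    induction x using TensorProduct.induction_on with
    | zero => rw [map_zero, map_zero]
    | tmul b r => rw [hg, bcr_tmul, Algebra.smul_def]
    | add x y hx hy => rw [map_add, map_add, hx, hy]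
  have h3 : (bcr hb : B ⊗[A] R → S) = g := funext h2
  rw [h3]
  exact hbij

private theorem NDesc_comm (b : A) (r : R) (x : Fm A R) : fz A r * (b • x) = b • (fz A r * x) := by
  rw [smul_fm, smul_fm, ← mul_assoc, ← mul_assoc, fz_comm]

end NDescAux

section NDescAux0

variable {A : Type u} [CommRing A] {n : ℕ} {I : Ideal (MvPolynomial (Fin n) A)}

private theorem NDesc_smul {C D : Finset (Fin n)} (h : C ⊆ D) (b : A) (x : Fm A (chart I C)) :
    rsc I h (b • x) = b • rsc I h x := CovD.rs_smul (X := prC I) h b x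

end NDescAux0

section NDescAux1

variable {κ : Type u} [Field κ] {n : ℕ} {J : Ideal (MvPolynomial (Fin n) κ)} {K : Type u} [Field K] [Algebra κ K]

private theorem NDesc_hb (J : Ideal (MvPolynomial (Fin n) κ)) (K : Type u) [Field K] [Algebra κ K]
    (C : Finset (Fin n)) : HB κ K (cb (algebraMap κ K) J C) := fun a => cb_base (algebraMap κ K) J C a

/-- The map of forms of the extension of the field. -/
private noncomputable def NDesc_e (J : Ideal (MvPolynomial (Fin n) κ)) (K : Type u) [Field K] [Algebra κ K]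
    (C : Finset (Fin n)) : Fm κ (chart J C) →+* Fm K (chart (bI (algebraMap κ K) J) C) :=
  mp (cb (algebraMap κ K) J C) (NDesc_hb J K C).cc

private theorem NDesc_e_fz (C : Finset (Fin n)) (x : chart J C) :
    NDesc_e J K C (fz κ x) = fz K (cb (algebraMap κ K) J C x) :=
  mp_fz _ _

private theorem NDesc_e_rsc {C D : Finset (Fin n)} (h : C ⊆ D) (x : Fm κ (chart J C)) :
    NDesc_e J K D (rsc J h x) = rsc (bI (algebraMap κ K) J) h (NDesc_e J K C x) :=
  CovD.Hm.e_rs (F := prH (algebraMap κ K) J) h x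

private theorem NDesc_e_mem {C : Finset (Fin n)} {q : ℕ} {x : Fm κ (chart J C)} (hx' : x ∈ Fd κ (chart J C) q) :
    NDesc_e J K C x ∈ Fd K (chart (bI (algebraMap κ K) J) C) q :=
  mp_mem _ hx'

private theorem NDesc_bij (hJ : IsHomog J) {C : Finset (Fin n)} (hC : C.Nonempty)
    (hb : HB κ K (cb (algebraMap κ K) J C)) : Function.Bijective (bcr hb) :=
  NDesc_bijA hb (bcm J C) (fun b r => bcm_tmul J C b r) (bcm_bijective (B := K) hJ hC)

/-- The projection on a chart. -/
private theorem NDesc_p (hJ : IsHomog J) (s : K →ₗ[κ] κ) (a : ℕ) (C : Finset (Fin n)) :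
    ∃ p : Fm K (chart (bI (algebraMap κ K) J) C) →+ Fm κ (chart J C),
      (∀ x ∈ Fd K (chart (bI (algebraMap κ K) J) C) a, p x ∈ Fd κ (chart J C) a) ∧
      (C.Nonempty → ∀ (b : K) (x : Fm κ (chart J C)), p (b • NDesc_e J K C x) = s b • x) := by
  exact C.eq_empty_or_nonempty.elim (fun hC => ⟨0, fun x _ => Submodule.zero_mem _, fun h => absurd hC h.ne_empty⟩)
    fun hC => (NDesc_p1 (NDesc_hb J K C) (NDesc_bij (K := K) hJ hC (NDesc_hb J K C)) s a).elim
      fun p hp => ⟨p, hp.1, fun _ => hp.2⟩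

private theorem NDesc_ext (hJ : IsHomog J) {C : Finset (Fin n)} (hC : C.Nonempty) {M : Type u} [AddCommGroup M]
    (f g : Fm K (chart (bI (algebraMap κ K) J) C) →+ M)
    (h2 : ∀ (b : K) (x : Fm κ (chart J C)), f (b • NDesc_e J K C x) = g (b • NDesc_e J K C x))
    (y : Fm K (chart (bI (algebraMap κ K) J) C)) : f y = g y :=
  NDesc_ext0 (NDesc_hb J K C) (NDesc_bij (K := K) hJ hC (NDesc_hb J K C)) f g h2 y

end NDescAux1

section NDescAux2

variable {A : Type u} [CommRing A] {B : Type v} [CommRing B] {n : ℕ} {I : Ideal (MvPolynomial (Fin n) A)}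
  {I' : Ideal (MvPolynomial (Fin n) B)}

/-- The restriction of a map of forms to a degree. -/
private noncomputable def NDesc_r {R : Type u} {S : Type v} [CommRing R] [CommRing S] [Algebra A R] [Algebra B S]
    (f : Fm A R →+ Fm B S) (a : ℕ) (hf : ∀ x ∈ Fd A R a, f x ∈ Fd B S a) : ↥(Fd A R a) →+ ↥(Fd B S a) where
  toFun x := ⟨f (x : Fm A R), hf _ x.2⟩
  map_zero' := Subtype.ext (map_zero f)
  map_add' x y := Subtype.ext (map_add f _ _)

private theorem NDesc_r_coe {R : Type u} {S : Type v} [CommRing R] [CommRing S] [Algebra A R] [Algebra B S]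
    (f : Fm A R →+ Fm B S) (a : ℕ) (hf : ∀ x ∈ Fd A R a, f x ∈ Fd B S a) (x : ↥(Fd A R a)) :
    (NDesc_r f a hf x : Fm B S) = f (x : Fm A R) := rfl

private theorem NDesc_Rt (t : ℤ) (a b : ℕ)
    (i : ∀ C, Fm A (chart I C) →+ Fm B (chart I' C)) (p : ∀ C, Fm B (chart I' C) →+ Fm A (chart I C))
    (hi : ∀ C, ∀ x ∈ Fd A (chart I C) a, i C x ∈ Fd B (chart I' C) a)
    (hp : ∀ C, ∀ x ∈ Fd B (chart I' C) a, p C x ∈ Fd A (chart I C) a)
    (hir : ∀ (C D : Finset (Fin n)) (h : C ⊆ D), C.Nonempty → ∀ x,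
      i D (fz A (tau I t h) * rsc I h x) = fz B (tau I' t h) * rsc I' h (i C x))
    (hpr : ∀ (C D : Finset (Fin n)) (h : C ⊆ D), C.Nonempty → ∀ x,
      p D (fz B (tau I' t h) * rsc I' h x) = fz A (tau I t h) * rsc I h (p C x))
    (hpi : ∀ C : Finset (Fin n), C.Nonempty → ∀ x, p C (i C x) = x) (h : (cT I' t a).Acy b) :
    (cT I t a).Acy b := by
  have h1 : Rt (cT I t a) (cT I' t a) :=
    { i := fun C => NDesc_r (i C) a (hi C)
      p := fun C => NDesc_r (p C) a (hp C)
      i_r := fun {C D} h hC x => Subtype.ext (hir C D h hC _)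
      p_r := fun {C D} h hC x => Subtype.ext (hpr C D h hC _)
      p_i := fun C hC x => Subtype.ext (hpi C hC _) }
  exact h1.acy h

end NDescAux2

section NDescAux3

variable {A : Type u} [CommRing A] {n : ℕ} {I₁ I₂ I₃ : Ideal (MvPolynomial (Fin n) A)}

private theorem NDesc_hx_hx (h1 : I₁ ≤ I₂) (h2 : I₂ ≤ I₃) (C : Finset (Fin n)) (x : chart I₁ C) :
    hx h2 C (hx h1 C x) = hx (h1.trans h2) C x := by
  induction x using chart_ind with
  | h1 a => exact (congrArg (hx h2 C) (hx_base C a)).trans ((hx_base C a).trans (hx_base C a).symm)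
  | h2 l m hm => exact (congrArg (hx h2 C) (hx_cq C l hm)).trans ((hx_cq C l hm).trans (hx_cq C l hm).symm)
  | h3 x y hx' hy' => exact NDesc_ad (hx h1 C) (hx h2 C) (hx (h1.trans h2) C) hx' hy'
  | h4 x y hx' hy' => exact NDesc_mu (hx h1 C) (hx h2 C) (hx (h1.trans h2) C) hx' hy'

/-- The inverse of the map of forms of a bijective map. -/
private theorem NDesc_inv0 {R S : Type u} [CommRing R] [CommRing S] [Algebra A R] [Algebra A S] (f : R →+* S)
    (hc : CC A A f) (hf : ∀ a, f (algebraMap A R a) = algebraMap A S a) (hb : Function.Bijective f) :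
    ∃ ψ : Fm A S →+* Fm A R, (∀ x, ψ (mp f hc x) = x) ∧ (∀ y, mp f hc (ψ y) = y) ∧
      ∀ q y, y ∈ Fd A S q → ψ y ∈ Fd A R q := by
  let E : R ≃+* S := RingEquiv.ofBijective f hb
  have hE : ∀ x, E x = f x := fun x => rfl
  have hψ : CC A A (E.symm : S →+* R) := fun a => ⟨a, by
    change E.symm (algebraMap A S a) = _
    rw [RingEquiv.symm_apply_eq, hE, hf]⟩
  refine ⟨mp (E.symm : S →+* R) hψ, fun x => ?_, fun y => ?_, fun q y hy => mp_mem hψ hy⟩
  · have h2 : (E.symm : S →+* R).comp f = RingHom.id _ := RingHom.ext fun x => E.symm_apply_apply x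
    have h3 := mp_comp hc hψ (hc.comp hψ) x
    rw [mp_congr (hc.comp hψ) CC.id h2 x, mp_id] at h3
    exact h3.symm
  · have h2 : f.comp (E.symm : S →+* R) = RingHom.id _ := RingHom.ext fun x => E.apply_symm_apply x
    have h3 := mp_comp hψ hc (hψ.comp hc) y
    rw [mp_congr (hψ.comp hc) CC.id h2 y, mp_id] at h3
    exact h3.symm

private theorem NDesc_inv (h1 : I₁ ≤ I₂) (hb : ∀ C : Finset (Fin n), C.Nonempty → Function.Bijective (hx h1 C))
    (a : ℕ) (C : Finset (Fin n)) :
    ∃ ψ : Fm A (chart I₂ C) →+ Fm A (chart I₁ C), (∀ y ∈ Fd A (chart I₂ C) a, ψ y ∈ Fd A (chart I₁ C) a) ∧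
      (C.Nonempty → (∀ x, ψ (rsx h1 C x) = x) ∧ ∀ y, rsx h1 C (ψ y) = y) := by
  exact C.eq_empty_or_nonempty.elim (fun hC => ⟨0, fun x _ => Submodule.zero_mem _, fun h => absurd hC h.ne_empty⟩)
    fun hC => (NDesc_inv0 (hx h1 C) ((rsH h1).cc C) (fun a => hx_base C a) (hb C hC)).elim
      fun ψ hψ => ⟨ψ.toAddMonoidHom, fun y hy => hψ.2.2 a y hy, fun _ => ⟨hψ.1, hψ.2.1⟩⟩

private theorem NDesc_iso (h1 : I₁ ≤ I₂) (hb : ∀ C : Finset (Fin n), C.Nonempty → Function.Bijective (hx h1 C))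
    (t : ℤ) (a b : ℕ) : (cT I₁ t a).Acy b ↔ (cT I₂ t a).Acy b := by
  choose ψ hψ1 hψ2 using fun C => NDesc_inv h1 hb a C
  have hr : ∀ (C D : Finset (Fin n)) (h : C ⊆ D), C.Nonempty → ∀ x : Fm A (chart I₁ C),
      rsx h1 D (fz A (tau I₁ t h) * rsc I₁ h x) = fz A (tau I₂ t h) * rsc I₂ h (rsx h1 C x) := by
    intro C D h hC x
    exact NDesc_m (map_mul (rsx h1 D)) ((rsx_fz D _).trans (congrArg (fz A) (tau_rsH h1 t h))) (rsx_rsc h x)
  have hpr : ∀ (C D : Finset (Fin n)) (h : C ⊆ D), C.Nonempty → ∀ x : Fm A (chart I₂ C),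
      ψ D (fz A (tau I₂ t h) * rsc I₂ h x) = fz A (tau I₁ t h) * rsc I₁ h (ψ C x) := by
    intro C D h hC x
    have h2 := (hr C D h hC (ψ C x)).trans
      (congrArg (fun z => fz A (tau I₂ t h) * rsc I₂ h z) ((hψ2 C hC).2 x))
    exact (congrArg (ψ D) h2.symm).trans ((hψ2 D (hC.mono h)).1 _)
  constructor
  · intro h
    exact NDesc_Rt t a b ψ (fun C => (rsx h1 C).toAddMonoidHom) hψ1 (fun C x hx' => rsx_mem C hx') hpr hr
      (fun C hC => (hψ2 C hC).2) h
  · intro h
    exact NDesc_Rt t a b (fun C => (rsx h1 C).toAddMonoidHom) ψ (fun C x hx' => rsx_mem C hx') hψ1 hr hpr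
      (fun C hC => (hψ2 C hC).1) h

private theorem NDesc_sec {I I' : Ideal (MvPolynomial (Fin n) A)} {F : MvPolynomial (Fin n) A} {e : ℕ}
    (hI : IsHomog I) (hF : F.IsHomogeneous e) (h' : IsSec I F I') (hI1 : IsSec I F (I ⊔ Ideal.span {F}))
    (t : ℤ) (a b : ℕ) :
    (cT (I ⊔ Ideal.span {F}) t a).Acy b ↔ (cT I' t a).Acy b := by
  have hle : I ⊔ Ideal.span {F} ≤ I' :=
    sup_le h'.le ((Ideal.span_singleton_le_iff_mem I').2 h'.mem)
  refine NDesc_iso hle (fun C hC => ⟨?_, hx_surj hle C⟩) t a b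
  rw [injective_iff_map_eq_zero]
  intro x hx'
  obtain ⟨x₀, rfl⟩ := hx_surj hI1.le C x
  rw [NDesc_hx_hx] at hx'
  obtain ⟨y, hy⟩ := (hx_ker hI hF h' hC x₀).1 hx'
  exact (hx_ker hI hF hI1 hC x₀).2 ⟨y, hy⟩

end NDescAux3

section

theorem isSec_sup {A : Type u} [CommRing A] {n : ℕ} (I : Ideal (MvPolynomial (Fin n) A)) (F : MvPolynomial (Fin n) A) :
    IsSec I F (I ⊔ Ideal.span {F}) :=
  ⟨le_sup_left, Ideal.mem_sup_right (Ideal.subset_span rfl), fun g hg => ⟨0, fun l => by
    rw [pow_zero, one_mul]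
    exact hg⟩⟩

theorem acy_desc {κ : Type u} [Field κ] {n : ℕ} {J : Ideal (MvPolynomial (Fin n) κ)} (hJ : IsHomog J) {K : Type u}
    [Field K] [Algebra κ K] (t : ℤ) (a b : ℕ) (h : (cT (bI (algebraMap κ K) J) t a).Acy b) : (cT J t a).Acy b := by
  obtain ⟨s, hs⟩ := LinearMap.exists_leftInverse_of_injective (Algebra.linearMap κ K)
    (LinearMap.ker_eq_bot.2 (algebraMap κ K).injective)
  have hs1 : s 1 = 1 := by
    have h1 := LinearMap.congr_fun hs (1 : κ)
    rw [LinearMap.comp_apply, Algebra.linearMap_apply, map_one, LinearMap.id_apply] at h1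
    exact h1
  choose p hp1 hp2 using fun C => NDesc_p (K := K) hJ s a C
  have hir : ∀ (C D : Finset (Fin n)) (h : C ⊆ D), C.Nonempty → ∀ x : Fm κ (chart J C),
      NDesc_e J K D (fz κ (tau J t h) * rsc J h x) =
        fz K (tau (bI (algebraMap κ K) J) t h) * rsc (bI (algebraMap κ K) J) h (NDesc_e J K C x) := by
    intro C D h hC x
    exact NDesc_m (map_mul (NDesc_e J K D)) ((NDesc_e_fz D _).trans (congrArg (fz K) (tau_cb _ t h))) (NDesc_e_rsc h x)
  have hpr : ∀ (C D : Finset (Fin n)) (h : C ⊆ D), C.Nonempty → ∀ x : Fm K (chart (bI (algebraMap κ K) J) C),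
      p D (fz K (tau (bI (algebraMap κ K) J) t h) * rsc (bI (algebraMap κ K) J) h x) =
        fz κ (tau J t h) * rsc J h (p C x) := by
    intro C D h hC x
    refine NDesc_ext hJ hC ((p D).comp ((AddMonoidHom.mulLeft (fz K (tau (bI (algebraMap κ K) J) t h))).comp
      (rsc (bI (algebraMap κ K) J) h).toAddMonoidHom)) ((AddMonoidHom.mulLeft (fz κ (tau J t h))).comp
      ((rsc J h).toAddMonoidHom.comp (p C))) (fun b x => ?_) x
    have h1 : fz K (tau (bI (algebraMap κ K) J) t h) * rsc (bI (algebraMap κ K) J) h (b • NDesc_e J K C x) =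
        b • NDesc_e J K D (fz κ (tau J t h) * rsc J h x) := by
      exact ((congrArg (fun z => fz K (tau (bI (algebraMap κ K) J) t h) * z) (NDesc_smul h b _)).trans
        (NDesc_comm b _ _)).trans (congrArg (fun z => b • z) (hir C D h hC x).symm)
    change p D (fz K (tau (bI (algebraMap κ K) J) t h) * rsc (bI (algebraMap κ K) J) h (b • NDesc_e J K C x)) =
      fz κ (tau J t h) * rsc J h (p C (b • NDesc_e J K C x))
    have h3 : fz κ (tau J t h) * rsc J h (p C (b • NDesc_e J K C x)) =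
        s b • (fz κ (tau J t h) * rsc J h x) :=
      ((congrArg (fun z => fz κ (tau J t h) * rsc J h z) (hp2 C hC b x)).trans
        (congrArg (fun z => fz κ (tau J t h) * z) (NDesc_smul h (s b) x))).trans (NDesc_comm (s b) _ _)
    exact ((congrArg (p D) h1).trans (hp2 D (hC.mono h) b _)).trans h3.symm
  exact NDesc_Rt t a b (fun C => (NDesc_e J K C).toAddMonoidHom) p (fun C x hx' => NDesc_e_mem hx') hp1 hir hpr
    (fun C hC x => NDesc_one (NDesc_hb J K C) hs1 (hp2 C hC) x) h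

theorem acy_sat {A : Type u} [CommRing A] {n : ℕ} {I I' I'' : Ideal (MvPolynomial (Fin n) A)}
    {F : MvPolynomial (Fin n) A} {e : ℕ} (hI : IsHomog I) (hF : F.IsHomogeneous e) (h' : IsSec I F I')
    (h'' : IsSec I F I'') (t : ℤ) (a b : ℕ) (h : (cT I' t a).Acy b) : (cT I'' t a).Acy b := by
  exact (NDesc_sec hI hF h'' (isSec_sup I F) t a b).1 ((NDesc_sec hI hF h' (isSec_sup I F) t a b).2 h)

end

end MPadcHS
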