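import Pool.Agent.Lib.MP_adc574_ag_HS.NKer
import Pool.Agent.Lib.MP_adc574_ag_HS.NSysA

/-!
# JOB NSeqB (HS): the sequence (II)  `0 → Ω_Y^(a+1)(t-e) → K(a+1,t) → Ω_X^a(t-e) → 0`

The map `p J : ↥(kF hs.le (a + 1) J) →+ ↥(Fd A (chart I' J) a)`: for `x = fz f * ω + df f * ω'` (`fker`; `ω ∈ Fd (a + 1)`, `ω' ∈ Fd a`) it is `rsx ω'`.
* well defined: `exists_p`: for `J` nonempty there is an additive map `p` with `p x = rsx ω'` whenever `x = fz f * ω + df f * ω'`: two decompositions differ by `fz f * ω + df f * ω' = 0` with `ω ∈ Fd (a + 1)`, `ω' ∈ Fd a`: `df f * ω' = fz f * (-ω)`, `fdiv`: `ω' = df f * b + fz f * y`, `rsx ω' = 0` (`fker'`).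
  Define `p x := rsx (choose ..)`, additive by the uniqueness (`AddMonoidHom.mk'`).
* surjective: `y = rsx ω'` (`fsurj`), `x = fz f * 0 + df f * ω'` (`fker'` for `mem_kF`).
* `p x = 0 ↔ x = fz f * ω''`: if `rsx ω' = 0` then `ω' = fz f * u + df f * v` (`fker`), `df f * ω' = fz f * (df f * u)` (`fz_comm`, `df f * df f = 0`), so `x = fz f * (ω + df f * u)`. Conversely clear.
* `i J ω = ⟨fz f * ω, _⟩`, injective by `fz_inj`. `i_r`: for `h : J ⊆ K`: `fz (fC K) * (fz (tau (t - e)) * rsc ω) = fz (tau t) * rsc (fz (fC J) * ω)`: `tau_fC`: `fC K = tau e * tr (fC J)`, `tau_add` with `(t - e) + e = t`.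
* `p_r`: let `x = fz f_J * ω + df f_J * ω'`, `f_K = τ_e * tr f_J` (`τ_e = tau I e h`), `tr f_J = τ_(-e) * f_K` (`tau_add`, `tau_zero`), so `rsc (df f_J) = df (τ_(-e) * f_K) = fz τ_(-e) * df f_K + fz f_K * df τ_(-e)`. So `fz τ_t * rsc x = fz f_K * (..) + df f_K * (fz (τ_t * τ_(-e)) * rsc ω')`
  (move `fz` through, `fz_comm`), so `p` of it is `rsx (fz (tau (t - e)) * rsc ω') = fz (tau I' (t - e)) * rsc (rsx ω')` (`tau_rsH`, `rsx_rsc`).
`acy_II_left`, `acy_II_mid`: `SES.left`, `SES.mid`. For `a = 0` (`acy_II_zero`): `i` is bijective (`fker` with `q = 0`: `ω' = 0`), an isomorphism of systems: `Rt.acy` (NSysA) in both directions (`Rt` with `i`, `p` the two inverse maps).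
-/

set_option autoImplicit false
set_option linter.unusedSectionVars false

namespace MPadcHS

open MvPolynomial MPadcGP MPadcDC

universe u v w

section

variable {A : Type u} [CommRing A] {n : ℕ} {I I' : Ideal (MvPolynomial (Fin n) A)} {F : MvPolynomial (Fin n) A} {e : ℕ}
  (hI : IsHomog I) (hsm : IsSmoothProj I) (hF : F.IsHomogeneous e) (hs : IsSec I F I') (hD : Dv I F)

section gen

variable {R S : Type u} [CommRing R] [Algebra A R] [CommRing S] [Algebra A S]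

private theorem nsB_g1 {f : R} {ω ω' τ τ' : Fm A R} (h : fz A f * ω + df A f * ω' = fz A f * τ + df A f * τ') :
    df A f * (ω' - τ') = fz A f * (τ - ω) := by
  rw [mul_sub, mul_sub, sub_eq_sub_iff_add_eq_add, add_comm, h, add_comm]

private theorem nsB_g2 (f : R) (ω u v : Fm A R) :
    fz A f * (ω + df A f * u) = fz A f * ω + df A f * (fz A f * u + df A f * v) := by
  rw [mul_add, mul_add (df A f), ← mul_assoc (df A f) (df A f), df_sq, zero_mul, add_zero, ← mul_assoc, ← mul_assoc,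
    fz_comm f (df A f)]

private theorem nsB_g3 (τ σ f : R) (x y : Fm A R) :
    fz A τ * (fz A (σ * f) * x + df A (σ * f) * y) =
      fz A f * (fz A τ * (fz A σ * x + df A σ * y)) + df A f * (fz A (τ * σ) * y) := by
  have c1 : df A f * (fz A (τ * σ) * y) = fz A (τ * σ) * (df A f * y) := by
    rw [← mul_assoc, ← fz_comm, mul_assoc]
  rw [c1, df_mul, map_mul, map_mul]
  have c2 : ∀ z : Fm A R, fz A f * (fz A τ * z) = fz A τ * (fz A f * z) := fun z => by
    rw [← mul_assoc, ← mul_assoc, fz_comm f (fz A τ)]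
  have c3 : ∀ z : Fm A R, fz A f * (fz A σ * z) = fz A σ * (fz A f * z) := fun z => by
    rw [← mul_assoc, ← mul_assoc, fz_comm f (fz A σ)]
  rw [c2]
  simp only [mul_add, add_mul, mul_assoc]
  rw [c3]
  abel

private theorem nsB_g4 {f : R} {x y ω ω' τ τ' : Fm A R} (h : x = fz A f * ω + df A f * ω')
    (h' : y = fz A f * τ + df A f * τ') : x + y = fz A f * (ω + τ) + df A f * (ω' + τ') := by
  rw [h, h', mul_add, mul_add]
  exact add_add_add_comm _ _ _ _

private theorem nsB_g5 {f : R} {x ω ω' : Fm A R} (h : x = fz A f * ω + df A f * ω') (h' : ω' = 0) : fz A f * ω = x := by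
  rw [h, h', mul_zero, add_zero]

private theorem nsB_g6 {f : R} {x y : Fm A R} (h : fz A f * x = fz A f * y) : fz A f * (x - y) = 0 := by
  rw [mul_sub, h, sub_self]

private theorem nsB_g7 (f : R) (x : Fm A R) : df A f * x = fz A f * 0 + df A f * x := by
  rw [mul_zero, zero_add]

private theorem nsB_g8 (f : R) (x : Fm A R) : fz A f * x = fz A f * x + df A f * 0 := by
  rw [mul_zero, add_zero]

private theorem nsB_g9 (ρ : Fm A R →+* Fm A S) {f : R} {g : S} (h1 : ρ (fz A f) = fz A g) (h2 : ρ (df A f) = df A g)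
    {x ω ω' : Fm A R} (h : x = fz A f * ω + df A f * ω') : ρ x = fz A g * ρ ω + df A g * ρ ω' := by
  rw [h, map_add, map_mul, map_mul, h1, h2]

private theorem nsB_g10 (ρ : Fm A R →+* Fm A S) {s : R} {s' : S} (h1 : ρ (fz A s) = fz A s') {x : Fm A R} {y : Fm A S}
    (h2 : ρ x = y) : ρ (fz A s * x) = fz A s' * y := by
  rw [map_mul, h1, h2]

private theorem nsB_g11 (c f t s : R) (hc : c * t = s * f) (x : Fm A R) :
    fz A c * (fz A t * x) = fz A s * (fz A f * x) := by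
  rw [← mul_assoc, ← map_mul, hc, map_mul, mul_assoc]

private theorem nsB_df (f : R) {a : ℕ} {x : Fm A R} (h : x ∈ Fd A R a) : df A f * x ∈ Fd A R (a + 1) := by
  have h5 := fd_mul (df_mem (A := A) f) h
  rwa [add_comm] at h5

end gen

/-- Multiplication by `f`. -/
private theorem nsB_i (hI : IsHomog I) (hF : F.IsHomogeneous e) (hs : IsSec I F I') (s t : ℤ) (q : ℕ)
    (J : Finset (Fin n)) :
    ∃ i : (cT I s q).E J →+ (kT hs.le t q).E J, J.Nonempty → ∀ ω : ↥(Fd A (chart I J) q),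
      (i ω : ↥(kF hs.le q J)).1 = fz A (fC I F J) * ω.1 := by
  by_cases hJ : J.Nonempty
  · have h1 : ∀ ω : ↥(Fd A (chart I J) q), rsx hs.le J (fz A (fC I F J) * ω.1) = 0 := by
      intro ω
      have h := fker' hI hF hs hJ ω.1 0
      rwa [← nsB_g8] at h
    refine ⟨AddMonoidHom.mk' (fun ω : ↥(Fd A (chart I J) q) =>
      (⟨fz A (fC I F J) * ω.1, fz_mul_mem _ ω.2, h1 ω⟩ : ↥(kF hs.le q J))) ?_, fun _ ω => rfl⟩
    intro x y
    refine Subtype.ext ?_
    exact mul_add _ _ _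
  · exact ⟨0, fun h => absurd h hJ⟩

/-- The residue is well defined. -/
private theorem nsB_u (hI : IsHomog I) (hF : F.IsHomogeneous e) (hs : IsSec I F I') (hD : Dv I F) {a : ℕ}
    {J : Finset (Fin n)} (hJ : J.Nonempty) {ω ω' τ τ' : Fm A (chart I J)} (h1 : ω ∈ Fd A (chart I J) (a + 1))
    (h2 : ω' ∈ Fd A (chart I J) a) (h3 : τ ∈ Fd A (chart I J) (a + 1)) (h4 : τ' ∈ Fd A (chart I J) a)
    (h : fz A (fC I F J) * ω + df A (fC I F J) * ω' = fz A (fC I F J) * τ + df A (fC I F J) * τ') :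
    rsx hs.le J ω' = rsx hs.le J τ' := by
  obtain ⟨b, y, _, _, _, h6⟩ := fdiv hD hJ (Submodule.sub_mem _ h2 h4) (Submodule.sub_mem _ h3 h1) (nsB_g1 h)
  have h7 : rsx hs.le J (ω' - τ') = 0 := by
    rw [h6, add_comm]
    exact fker' hI hF hs hJ y b
  exact sub_eq_zero.1 ((RingHom.map_sub _ _ _).symm.trans h7)

/-- The residue. -/
private theorem nsB_p (hI : IsHomog I) (hF : F.IsHomogeneous e) (hs : IsSec I F I') (hD : Dv I F) (t s : ℤ) (a : ℕ)
    (J : Finset (Fin n)) : ∃ p : (kT hs.le t (a + 1)).E J →+ (cT I' s a).E J, J.Nonempty →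
      ∀ (x : ↥(kF hs.le (a + 1) J)) (ω ω' : Fm A (chart I J)), ω ∈ Fd A (chart I J) (a + 1) →
        ω' ∈ Fd A (chart I J) a → x.1 = fz A (fC I F J) * ω + df A (fC I F J) * ω' →
        (p x : ↥(Fd A (chart I' J) a)).1 = rsx hs.le J ω' := by
  by_cases hJ : J.Nonempty
  · have h1 : ∀ x : ↥(kF hs.le (a + 1) J), ∃ ω ω' : Fm A (chart I J), ω ∈ Fd A (chart I J) (a + 1) ∧
        ω' ∈ Fd A (chart I J) a ∧ x.1 = fz A (fC I F J) * ω + df A (fC I F J) * ω' := by
      intro x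
      obtain ⟨ω, ω', h1, h2, _, h4⟩ := fker hI hF hs hJ x.2.1 x.2.2
      exact ⟨ω, ω', h1, h2 a rfl, h4⟩
    choose w w' hw hw' hx' using h1
    have hadd : ∀ x y : ↥(kF hs.le (a + 1) J), rsx hs.le J (w' (x + y)) = rsx hs.le J (w' x) + rsx hs.le J (w' y) := by
      intro x y
      refine (nsB_u hI hF hs hD hJ (hw (x + y)) (hw' (x + y)) (Submodule.add_mem _ (hw x) (hw y))
        (Submodule.add_mem _ (hw' x) (hw' y)) ?_).trans (RingHom.map_add _ _ _)
      exact (hx' (x + y)).symm.trans (nsB_g4 (hx' x) (hx' y))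
    refine ⟨AddMonoidHom.mk' (fun x : ↥(kF hs.le (a + 1) J) =>
      (⟨rsx hs.le J (w' x), rsx_mem J (hw' x)⟩ : ↥(Fd A (chart I' J) a))) ?_, ?_⟩
    · intro x y
      refine Subtype.ext ?_
      exact hadd x y
    · intro _ x ω ω' h1 h2 h3
      exact nsB_u hI hF hs hD hJ (hw x) (hw' x) h1 h2 ((hx' x).symm.trans h3)
  · exact ⟨0, fun h => absurd h hJ⟩

private theorem nsB_ir (hF : F.IsHomogeneous e) (t : ℤ) {J K : Finset (Fin n)} (h : J ⊆ K) (hJ : J.Nonempty)
    (x : Fm A (chart I J)) : fz A (fC I F K) * (fz A (tau I (t - e) h) * rsc I h x) =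
      fz A (tau I t h) * rsc I h (fz A (fC I F J) * x) := by
  have h1 : tau I t h = tau I (t - e) h * tau I (e : ℤ) h := by rw [← tau_add, sub_add_cancel]
  have h2 : fC I F K * tau I (t - e) h = tau I t h * tr I h (fC I F J) := by
    rw [← tau_fC hF h hJ, h1]
    ring
  refine (nsB_g11 _ _ _ _ h2 _).trans ?_
  exact congrArg (fun z => fz A (tau I t h) * z) (nsB_g10 (rsc I h) (rsc_fz h _) rfl).symm

/-- The residue and the restriction. -/
private theorem nsB_prr (hI : IsHomog I) (hF : F.IsHomogeneous e) (hs : IsSec I F I') (t : ℤ) {a : ℕ}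
    {J K : Finset (Fin n)} (h : J ⊆ K) (hJ : J.Nonempty) {x : Fm A (chart I J)} (hx' : x ∈ kF hs.le (a + 1) J) :
    ∃ ω ω' : Fm A (chart I J), ∃ τ' : Fm A (chart I K), ω ∈ Fd A (chart I J) (a + 1) ∧ ω' ∈ Fd A (chart I J) a ∧
      x = fz A (fC I F J) * ω + df A (fC I F J) * ω' ∧ τ' ∈ Fd A (chart I K) (a + 1) ∧
      fz A (tau I (t - e) h) * rsc I h ω' ∈ Fd A (chart I K) a ∧
      fz A (tau I t h) * rsc I h x = fz A (fC I F K) * τ' + df A (fC I F K) * (fz A (tau I (t - e) h) * rsc I h ω') := by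
  obtain ⟨ω, ω', h1, h2, _, h4⟩ := fker hI hF hs hJ hx'.1 hx'.2
  have h2' := h2 a rfl
  have e1 : tr I h (fC I F J) = tau I (-(e : ℤ)) h * fC I F K := by
    rw [← tau_fC hF h hJ, ← mul_assoc, ← tau_add, neg_add_cancel, tau_zero, one_mul]
  have e2 : tau I (t - e) h = tau I t h * tau I (-(e : ℤ)) h := by rw [← tau_add, sub_eq_add_neg]
  refine ⟨ω, ω', fz A (tau I t h) * (fz A (tau I (-(e : ℤ)) h) * rsc I h ω +
      df A (tau I (-(e : ℤ)) h) * rsc I h ω'), h1, h2', h4, ?_, fz_mul_mem _ (rsc_mem h h2'), ?_⟩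
  · exact fz_mul_mem _ (Submodule.add_mem _ (fz_mul_mem _ (rsc_mem h h1)) (nsB_df _ (rsc_mem h h2')))
  · have e3 := nsB_g9 (rsc I h) (rsc_fz h _) (rsc_df h _) h4
    rw [e1] at e3
    refine (congrArg (fun z => fz A (tau I t h) * z) e3).trans ?_
    rw [e2]
    exact nsB_g3 _ _ _ _ _

private theorem nsB_rr (hle : I ≤ I') (s : ℤ) {J K : Finset (Fin n)} (h : J ⊆ K) (x : Fm A (chart I J)) :
    rsx hle K (fz A (tau I s h) * rsc I h x) = fz A (tau I' s h) * rsc I' h (rsx hle J x) :=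
  nsB_g10 (rsx hle K) ((rsx_fz K _).trans (congrArg (fun z => fz A z) (tau_rsH hle s h))) (rsx_rsc h x)

/-- The sequence (II). -/
private theorem nsB_ses (hI : IsHomog I) (hsm : IsSmoothProj I) (hF : F.IsHomogeneous e) (hs : IsSec I F I')
    (hD : Dv I F) (t : ℤ) (a : ℕ) :
    Nonempty (SES (cT I (t - e) (a + 1)) (kT hs.le t (a + 1)) (cT I' (t - e) a)) := by
  choose i hi using nsB_i (I := I) (I' := I') (F := F) hI hF hs (t - e) t (a + 1)
  choose p hp using nsB_p (I := I) (I' := I') (F := F) hI hF hs hD t (t - e) a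
  refine ⟨{ i := i, p := p, i_r := ?_, p_r := ?_, inj := ?_, surj := ?_, ex := ?_ }⟩
  · intro J K h hJ x
    refine Subtype.ext ?_
    refine (hi K (hJ.mono h) _).trans ?_
    refine (nsB_ir hF t h hJ x.1).trans ?_
    exact congrArg (fun z => fz A (tau I t h) * rsc I h z) (hi J hJ x).symm
  · intro J K h hJ x
    obtain ⟨ω, ω', τ', h1, h2, h4, h5, h6, h7⟩ := nsB_prr hI hF hs t h hJ x.2
    refine Subtype.ext ?_
    refine (hp K (hJ.mono h) _ τ' _ h5 h6 h7).trans ?_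
    refine (nsB_rr hs.le (t - e) h ω').trans ?_
    exact congrArg (fun z => fz A (tau I' (t - e) h) * rsc I' h z) (hp J hJ x ω ω' h1 h2 h4).symm
  · intro J hJ x y hxy
    have h1 := congrArg (fun z : ↥(kF hs.le (a + 1) J) => z.1) hxy
    have h2 := ((hi J hJ x).symm.trans h1).trans (hi J hJ y)
    exact Subtype.ext (sub_eq_zero.1 (fz_inj hI hsm hJ (hD.nzd J hJ) (nsB_g6 h2)))
  · intro J hJ y
    obtain ⟨ω', h1, h2⟩ := fsurj hs.le y.2
    have h4 : rsx hs.le J (df A (fC I F J) * ω') = 0 := by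
      have h5 := fker' hI hF hs hJ 0 ω'
      rwa [← nsB_g7] at h5
    refine ⟨(⟨df A (fC I F J) * ω', nsB_df _ h1, h4⟩ : ↥(kF hs.le (a + 1) J)), Subtype.ext ?_⟩
    exact (hp J hJ _ 0 ω' (Submodule.zero_mem _) h1 (nsB_g7 _ _)).trans h2
  · intro J hJ x
    constructor
    · intro h
      obtain ⟨ω, ω', h1, h2, _, h4⟩ := fker hI hF hs hJ x.2.1 x.2.2
      have h2' := h2 a rfl
      have h5 : rsx hs.le J ω' = 0 :=
        (hp J hJ x ω ω' h1 h2' h4).symm.trans (congrArg (fun z : ↥(Fd A (chart I' J) a) => z.1) h)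
      obtain ⟨u, v, h6, _, _, h7⟩ := fker hI hF hs hJ h2' h5
      refine ⟨(⟨ω + df A (fC I F J) * u, Submodule.add_mem _ h1 (nsB_df _ h6)⟩ : ↥(Fd A (chart I J) (a + 1))),
        Subtype.ext ?_⟩
      refine (hi J hJ _).trans ((nsB_g2 _ ω u v).trans ?_)
      rw [← h7]
      exact h4.symm
    · rintro ⟨y, rfl⟩
      refine Subtype.ext ?_
      exact (hp J hJ _ y.1 0 y.2 (Submodule.zero_mem _) ((hi J hJ y).trans (nsB_g8 _ _))).trans (RingHom.map_zero _)

/-- The isomorphism in degree zero. -/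
private theorem nsB_rt (hI : IsHomog I) (hsm : IsSmoothProj I) (hF : F.IsHomogeneous e) (hs : IsSec I F I')
    (hD : Dv I F) (t : ℤ) :
    Nonempty (Rt (cT I (t - e) 0) (kT hs.le t 0)) ∧ Nonempty (Rt (kT hs.le t 0) (cT I (t - e) 0)) := by
  choose i hi using nsB_i (I := I) (I' := I') (F := F) hI hF hs (t - e) t 0
  have hb : ∀ J : Finset (Fin n), J.Nonempty → Function.Bijective (i J) := by
    intro J hJ
    constructor
    · intro x y hxy
      have h1 := congrArg (fun z : ↥(kF hs.le 0 J) => z.1) hxy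
      have h2 := ((hi J hJ x).symm.trans h1).trans (hi J hJ y)
      exact Subtype.ext (sub_eq_zero.1 (fz_inj hI hsm hJ (hD.nzd J hJ) (nsB_g6 h2)))
    · intro x
      obtain ⟨ω, ω', h1, _, h3, h4⟩ := fker hI hF hs hJ x.2.1 x.2.2
      refine ⟨(⟨ω, h1⟩ : ↥(Fd A (chart I J) 0)), Subtype.ext ?_⟩
      exact (hi J hJ _).trans (nsB_g5 h4 (h3 rfl))
  have hp : ∀ J : Finset (Fin n), ∃ p : (kT hs.le t 0).E J →+ (cT I (t - e) 0).E J, J.Nonempty →
      (∀ x, i J (p x) = x) ∧ ∀ x, p (i J x) = x := by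
    intro J
    by_cases hJ : J.Nonempty
    · exact ⟨(AddEquiv.ofBijective (i J) (hb J hJ)).symm.toAddMonoidHom, fun _ =>
        ⟨fun x => (AddEquiv.ofBijective (i J) (hb J hJ)).apply_symm_apply x,
          fun x => (AddEquiv.ofBijective (i J) (hb J hJ)).symm_apply_apply x⟩⟩
    · exact ⟨0, fun h => absurd h hJ⟩
  choose p hp using hp
  have h1 : ∀ {J K : Finset (Fin n)} (h : J ⊆ K), J.Nonempty → ∀ x, i K ((cT I (t - e) 0).r h x) =
      (kT hs.le t 0).r h (i J x) := by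
    intro J K h hJ x
    refine Subtype.ext ?_
    refine (hi K (hJ.mono h) _).trans ?_
    refine (nsB_ir hF t h hJ x.1).trans ?_
    exact congrArg (fun z => fz A (tau I t h) * rsc I h z) (hi J hJ x).symm
  have h2 : ∀ {J K : Finset (Fin n)} (h : J ⊆ K), J.Nonempty → ∀ x, p K ((kT hs.le t 0).r h x) =
      (cT I (t - e) 0).r h (p J x) := by
    intro J K h hJ x
    refine (hb K (hJ.mono h)).1 ?_
    have h3 := (hp K (hJ.mono h)).1 ((kT hs.le t 0).r h x)
    have h4 := h1 h hJ (p J x)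
    rw [(hp J hJ).1 x] at h4
    exact h3.trans h4.symm
  exact ⟨⟨{ i := i, p := p, i_r := h1, p_r := h2, p_i := fun J hJ => (hp J hJ).2 }⟩,
    ⟨{ i := p, p := i, i_r := h2, p_r := h1, p_i := fun J hJ => (hp J hJ).1 }⟩⟩

include hI hsm hF hD

theorem acy_II_left (t : ℤ) (a b : ℕ) (h1 : (kT hs.le t (a + 1)).Acy b)
    (h2 : ∀ b', b = b' + 1 → (cT I' (t - e) a).Acy b') : (cT I (t - e) (a + 1)).Acy b := by
  obtain ⟨s⟩ := nsB_ses hI hsm hF hs hD t a
  exact s.left h1 h2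

theorem acy_II_mid (t : ℤ) (a b : ℕ) (h1 : (cT I (t - e) (a + 1)).Acy b) (h2 : (cT I' (t - e) a).Acy b) :
    (kT hs.le t (a + 1)).Acy b := by
  obtain ⟨s⟩ := nsB_ses hI hsm hF hs hD t a
  exact s.mid h1 h2

theorem acy_II_zero (t : ℤ) (b : ℕ) : (kT hs.le t 0).Acy b ↔ (cT I (t - e) 0).Acy b := by
  obtain ⟨⟨s⟩, ⟨s'⟩⟩ := nsB_rt hI hsm hF hs hD t
  exact ⟨fun h => s.acy h, fun h => s'.acy h⟩

end

end MPadcHS
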