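import Pool.Agent.Lib.MP_adc574_ag_GP.Parts3

/-!
# HS: the restriction maps of forms on the charts

`rsc I h : Fm A (chart I J) →+* Fm A (chart I K)` is `(prC I).rs h`; `rsx hle J : Fm A (chart I J) →+* Fm A (chart I' J)` is
`(rsH hle).e J`, `hx hle J` the homomorphism of the functions.
-/

set_option autoImplicit false
set_option linter.unusedSectionVars false

namespace MPadcHS

open MvPolynomial MPadcGP

universe u v w

section

variable {A : Type u} [CommRing A] {n : ℕ} (I : Ideal (MvPolynomial (Fin n) A))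

/-- The restriction of forms. -/
noncomputable def rsc {J K : Finset (Fin n)} (h : J ⊆ K) : Fm A (chart I J) →+* Fm A (chart I K) := (prC I).rs h

variable {I}

theorem rsc_fz {J K : Finset (Fin n)} (h : J ⊆ K) (x : chart I J) : rsc I h (fz A x) = fz A (tr I h x) :=
  CovD.rs_fz (X := prC I) h x

theorem rsc_df {J K : Finset (Fin n)} (h : J ⊆ K) (x : chart I J) : rsc I h (df A x) = df A (tr I h x) :=
  CovD.rs_df (X := prC I) h x

theorem rsc_mem {J K : Finset (Fin n)} (h : J ⊆ K) {q : ℕ} {e : Fm A (chart I J)} (he : e ∈ Fd A (chart I J) q) :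
    rsc I h e ∈ Fd A (chart I K) q := CovD.rs_mem (X := prC I) h he

theorem rsc_rsc {J K L : Finset (Fin n)} (h : J ⊆ K) (h' : K ⊆ L) (e : Fm A (chart I J)) :
    rsc I h' (rsc I h e) = rsc I (h.trans h') e := CovD.rs_rs (X := prC I) h h' e

variable {I' : Ideal (MvPolynomial (Fin n) A)} (hle : I ≤ I')

/-- The homomorphism `B → B / f` of the functions on the charts. -/
noncomputable def hx (J : Finset (Fin n)) : chart I J →+* chart I' J := (rsH hle).h J

/-- The restriction of forms to `X`. -/
noncomputable def rsx (J : Finset (Fin n)) : Fm A (chart I J) →+* Fm A (chart I' J) := (rsH hle).e J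

variable {hle}

theorem hx_base (J : Finset (Fin n)) (a : A) : hx hle J (algebraMap A _ a) = algebraMap A _ a := (rsH hle).base J a

theorem hx_cq (J : Finset (Fin n)) (l : Fin n) {j : Fin n} (hj : j ∈ J) : hx hle J (cq I J l hj) = cq I' J l hj :=
  cmap_cq (RingHom.id A) (rs_mem hle) (Finset.Subset.refl J) l hj

theorem hx_tr {J K : Finset (Fin n)} (h : J ⊆ K) (x : chart I J) : hx hle K (tr I h x) = tr I' h (hx hle J x) :=
  (rsH hle).comm h x

theorem rsx_eq (J : Finset (Fin n)) (x : Fm A (chart I J)) : rsx hle J x = (rsH hle).e J x := rfl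

theorem rsx_fz (J : Finset (Fin n)) (x : chart I J) : rsx hle J (fz A x) = fz A (hx hle J x) :=
  CovD.Hm.e_fz (F := rsH hle) J x

theorem rsx_df (J : Finset (Fin n)) (x : chart I J) : rsx hle J (df A x) = df A (hx hle J x) :=
  CovD.Hm.e_df (F := rsH hle) J x

theorem rsx_mem (J : Finset (Fin n)) {q : ℕ} {e : Fm A (chart I J)} (he : e ∈ Fd A (chart I J) q) :
    rsx hle J e ∈ Fd A (chart I' J) q := CovD.Hm.e_mem (F := rsH hle) he

theorem rsx_rsc {J K : Finset (Fin n)} (h : J ⊆ K) (e : Fm A (chart I J)) :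
    rsx hle K (rsc I h e) = rsc I' h (rsx hle J e) := CovD.Hm.e_rs (F := rsH hle) h e

end

end MPadcHS
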