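import Pool.Agent.Lib.MP_adc574_ag_DC.GBaseB
import Pool.Agent.Lib.MP_adc574_ag_DC.GSm
import Pool.Agent.Lib.MP_adc574_ag_DC.C5A
import Pool.Agent.Lib.MP_adc574_ag_DC.GCycB
import Pool.Agent.Lib.MP_adc574_ag_HS.NRs

/-!
# JOB TGk (HS): base change to `K = Frac κ[a]`, the ideal `(J, z - F)`

* `prime_K`: `K` the fraction field of `R = Ra κ n e` (a polynomial ring over `κ`). `f ∈ K[x]` is in `bI (algebraMap κ K) J` iff `r f` is, `r ∈ R`, `r ≠ 0`. For `f ∈ R[x]` write `f = ∑_μ a^μ f_μ`, `f_μ ∈ κ[x]`; `f ∈ bI (algebraMap κ K) J` iff all `f_μ ∈ J` (the `a^μ` are linearly independent over `κ` in `K`: extend to a basis of `K` over `κ`, `mem_bI`-type argument; or: `K ⊗[κ] (κ[x]/J) = K[x]/bI`, flatness).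
  So it is enough that `(κ[x]/J)[a]` is a domain. Suggested: the homomorphism `Φ : K[x] → Frac ((κ[x]/J)[a])`, `x_l ↦ x_l`, `K →` by `IsFractionRing.lift` of the injective `R = κ[a] → (κ[x]/J)[a]` (`MvPolynomial.map`, `algebraMap κ (κ[x]/J)` is injective because `J` is proper); its kernel is `bI (algebraMap κ K) J`: `⊇` clear; `⊆`: clear denominators, `f ∈ R[x]`, `f = ∑_μ a^μ f_μ ↦ ∑ a^μ [f_μ] = 0`, so `f_μ ∈ J`.
* `good_K`: `Good.map hJ prime_K` (DC/GBaseB).
* `good_Q` (`e = 1`): `I = bI (algebraMap κ K) J`, `F = frm (ak ..)`, `Q = cyc I F 1`: `cyc_smooth hJ le_rfl ak_indep`: homogeneous and smooth. Prime: `exists_cr I F 1`: `CR Q ≃ AdE (CR I) F 1 = AdjoinRoot (X ^ 1 - C F)` which is isomorphic to the domain `CR I` (evaluation at `F`: `X ^ 1 - C F` is monic of degree one; `AdjoinRoot` of `X - C F`: `AdjoinRoot.quotEquivQuotMap`/`Polynomial.quotientSpanXSubCAlgEquiv`), `Ideal.Quotient.isDomain_iff_prime`.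
  `X l ∉ J` gives `X l.castSucc ∉ Q` (`Ψ` is injective and `x_l ≠ 0` in `CR I`: `X_mem_bI`). So `exists_good` (GBaseA) for `Q` gives `m'` with `Good Q m'`, and `m' = m`: `exists_adj hI hF {l} (j := l)` (GCycB): `chart Q (cs {l}) ≃ AdE (chart I {l}) f 1 ≃ chart I {l}`, `cs {l} = {l.castSucc}` (`Finset.map_singleton`), so the ranks of the differentials agree (`KaehlerDifferential` along an `AlgEquiv`: see how DC/GBaseA, GRk transport `Module.finrank` along isomorphisms), `good_K.rank`.
-/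

set_option autoImplicit false
set_option linter.unusedSectionVars false

namespace MPadcHS

open MvPolynomial MPadcGP MPadcDC

universe u

variable {κ : Type u} [Field κ] [CharZero κ] {n : ℕ} {J : Ideal (MvPolynomial (Fin n) κ)} {K : Type u} [Field K]
  [Algebra κ K] {m : ℕ}

section prm

variable {κ : Type u} [Field κ] {n : ℕ} {J : Ideal (MvPolynomial (Fin n) κ)} {e : ℕ}

private theorem TGk_map (J : Ideal (MvPolynomial (Fin n) κ)) (e : ℕ) :
    Ideal.map (commAlgEquiv κ (Mon n e) (Fin n) : MvPolynomial (Mon n e) (MvPolynomial (Fin n) κ) →+*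
      MvPolynomial (Fin n) (Ra κ n e)) (Ideal.map (C : MvPolynomial (Fin n) κ →+* _) J) =
    bI (C : κ →+* Ra κ n e) J := by
  rw [Ideal.map_map]
  congr 1
  refine RingHom.ext fun p => ?_
  exact commAlgEquiv_C p

/-- The extension of a prime ideal to the polynomial ring over `κ[a]` is prime. -/
private theorem TGk_prime (hp : J.IsPrime) : (bI (C : κ →+* Ra κ n e) J).IsPrime := by
  have hd : IsDomain (MvPolynomial (Fin n) κ ⧸ J) := Ideal.Quotient.isDomain J
  have h1 : (Ideal.map (C : MvPolynomial (Fin n) κ →+* MvPolynomial (Mon n e) (MvPolynomial (Fin n) κ)) J).IsPrime := by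
    rw [← Ideal.Quotient.isDomain_iff_prime]
    exact (quotientEquivQuotientMvPolynomial (σ := Mon n e) J).symm.toRingEquiv.toMulEquiv.isDomain _
  rw [← TGk_map]
  exact Ideal.map_isPrime_of_equiv (commAlgEquiv κ (Mon n e) (Fin n)).toRingEquiv

/-- Constants are not in the extension. -/
private theorem TGk_disj (hp : J.IsPrime) {r : Ra κ n e} (hr : (C r : MvPolynomial (Fin n) (Ra κ n e)) ∈
    bI (C : κ →+* Ra κ n e) J) : r = 0 := by
  have hd : IsDomain (MvPolynomial (Fin n) κ ⧸ J) := Ideal.Quotient.isDomain J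
  obtain ⟨θ, hθ1, hθ2⟩ : ∃ θ : MvPolynomial (Fin n) (Ra κ n e) →+* MvPolynomial (Mon n e) (MvPolynomial (Fin n) κ ⧸ J),
      (∀ x, θ (C x) = MvPolynomial.map (algebraMap κ (MvPolynomial (Fin n) κ ⧸ J)) x) ∧
      ∀ l, θ (X l) = C (Ideal.Quotient.mk J (X l)) :=
    ⟨eval₂Hom (MvPolynomial.map (algebraMap κ (MvPolynomial (Fin n) κ ⧸ J))) fun l => C (Ideal.Quotient.mk J (X l)),
      fun x => eval₂Hom_C _ _ x, fun l => eval₂Hom_X' _ _ l⟩
  have h1 : θ.comp (MvPolynomial.map (C : κ →+* Ra κ n e)) =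
      (C : MvPolynomial (Fin n) κ ⧸ J →+* _).comp (Ideal.Quotient.mk J) := by
    refine MvPolynomial.ringHom_ext (fun a => ?_) fun l => ?_
    · rw [RingHom.comp_apply, map_C, hθ1, map_C]
      rfl
    · rw [RingHom.comp_apply, map_X, hθ2]
      rfl
  have h2 : bI (C : κ →+* Ra κ n e) J ≤ RingHom.ker θ := by
    refine Ideal.map_le_iff_le_comap.2 fun f hf => ?_
    rw [Ideal.mem_comap, RingHom.mem_ker]
    have h3 := RingHom.congr_fun h1 f
    rw [RingHom.comp_apply, RingHom.comp_apply, Ideal.Quotient.eq_zero_iff_mem.2 hf, map_zero] at h3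
    exact h3
  have h3 := h2 hr
  rw [RingHom.mem_ker, hθ1] at h3
  have h4 : Function.Injective (algebraMap κ (MvPolynomial (Fin n) κ ⧸ J)) := (algebraMap κ _).injective
  exact MvPolynomial.map_injective _ h4 (h3.trans (map_zero _).symm)

end prm

attribute [local instance] MvPolynomial.algebraMvPolynomial in
/-- Localization. -/
private theorem TGk_loc {R : Type u} [CommRing R] [IsDomain R] {K : Type u} [Field K] [Algebra R K] [IsFractionRing R K]
    {n : ℕ} {I : Ideal (MvPolynomial (Fin n) R)} (hI : I.IsPrime) (hd : ∀ r : R, (C r : MvPolynomial (Fin n) R) ∈ I → r = 0) :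
    (bI (algebraMap R K) I).IsPrime := by
  have h1 : IsLocalization ((nonZeroDivisors R).map (C : R →+* MvPolynomial (Fin n) R)) (MvPolynomial (Fin n) K) :=
    MvPolynomial.isLocalization (nonZeroDivisors R) K
  have h2 := IsLocalization.isPrime_of_isPrime_disjoint ((nonZeroDivisors R).map (C : R →+* MvPolynomial (Fin n) R))
    (MvPolynomial (Fin n) K) I hI (by
      rw [Set.disjoint_left]
      rintro _ ⟨r, hr, rfl⟩ h3
      exact nonZeroDivisors.ne_zero hr (hd r h3))
  exact h2

section cyc1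

variable {R : Type u} [CommRing R] {n : ℕ}

/-- `(I, z - F)` is the inverse image of `I`. -/
private theorem TGk_cyc (I : Ideal (MvPolynomial (Fin n) R)) (F : MvPolynomial (Fin n) R)
    (π : MvPolynomial (Fin (n + 1)) R →ₐ[R] MvPolynomial (Fin n) R) (h1 : ∀ l : Fin n, π (X l.castSucc) = X l)
    (h2 : π (X (Fin.last n)) = F) : cyc I F 1 = I.comap π := by
  have h3 : ∀ f : MvPolynomial (Fin n) R, π (rename Fin.castSucc f) = f := by
    intro f
    have h4 : π.comp (rename Fin.castSucc) = AlgHom.id R _ := by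
      refine MvPolynomial.algHom_ext fun l => ?_
      rw [AlgHom.comp_apply, rename_X, h1]
      rfl
    exact DFunLike.congr_fun h4 f
  have h5 : ∀ g : MvPolynomial (Fin (n + 1)) R, g - rename Fin.castSucc (π g) ∈ cyc I F 1 := by
    intro g
    have h6 : (Ideal.Quotient.mkₐ R (cyc I F 1)).comp ((rename Fin.castSucc).comp π) = Ideal.Quotient.mkₐ R (cyc I F 1) := by
      refine MvPolynomial.algHom_ext fun l => ?_
      induction l using Fin.lastCases with
      | last =>
        rw [AlgHom.comp_apply, AlgHom.comp_apply, h2]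
        refine (Ideal.Quotient.eq.2 ?_).symm
        unfold cyc
        refine Ideal.mem_sup_right (Ideal.subset_span ?_)
        rw [pow_one]
        rfl
      | cast l => rw [AlgHom.comp_apply, AlgHom.comp_apply, h1, rename_X]
    exact Ideal.Quotient.eq.1 (DFunLike.congr_fun h6 g).symm
  refine le_antisymm ?_ fun g hg => ?_
  · unfold cyc
    refine sup_le (Ideal.map_le_iff_le_comap.2 fun f hf => ?_) ((Ideal.span_singleton_le_iff_mem _).2 ?_)
    · rw [Ideal.mem_comap, Ideal.mem_comap]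
      change π (rename Fin.castSucc f) ∈ I
      rw [h3]
      exact hf
    · rw [Ideal.mem_comap, pow_one, map_sub, h2, h3, sub_self]
      exact Ideal.zero_mem _
  · have h6 : g = (g - rename Fin.castSucc (π g)) + rename Fin.castSucc (π g) := (sub_add_cancel _ _).symm
    rw [h6]
    refine Ideal.add_mem _ (h5 g) ?_
    unfold cyc
    exact Ideal.mem_sup_left (Ideal.mem_map_of_mem
      (rename Fin.castSucc : MvPolynomial (Fin n) R →ₐ[R] MvPolynomial (Fin (n + 1)) R).toRingHom hg)

private theorem TGk_pi (F : MvPolynomial (Fin n) R) : ∃ π : MvPolynomial (Fin (n + 1)) R →ₐ[R] MvPolynomial (Fin n) R,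
    (∀ l : Fin n, π (X l.castSucc) = X l) ∧ π (X (Fin.last n)) = F :=
  ⟨aeval (Fin.snoc (fun l => X l) F : Fin (n + 1) → MvPolynomial (Fin n) R), fun l => by
    rw [aeval_X, Fin.snoc_castSucc], by rw [aeval_X, Fin.snoc_last]⟩

/-- `B[T] / (T - f) = B`. -/
private theorem TGk_ade {B : Type u} [CommRing B] [Algebra R B] (f : B) : Nonempty (AdE B f 1 ≃ₐ[R] B) := by
  have h0 : Polynomial.eval₂ (RingHom.id B) f (Polynomial.X ^ 1 - Polynomial.C f : Polynomial B) = 0 := by
    rw [Polynomial.eval₂_sub, Polynomial.eval₂_pow, Polynomial.eval₂_X, Polynomial.eval₂_C, pow_one,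
      RingHom.id_apply, sub_self]
  obtain ⟨Φ, hΦ1, hΦ2⟩ : ∃ Φ : AdE B f 1 →+* B, (∀ x, Φ (AdjoinRoot.of _ x) = x) ∧ Φ (AdjoinRoot.root _) = f :=
    ⟨AdjoinRoot.lift (RingHom.id B) f h0, fun x => AdjoinRoot.lift_of h0, AdjoinRoot.lift_root h0⟩
  have h1 : ∀ x : AdE B f 1, AdjoinRoot.of _ (Φ x) = x := by
    intro x
    have h2 : ((AdjoinRoot.of (Polynomial.X ^ 1 - Polynomial.C f : Polynomial B)).comp Φ) = RingHom.id _ := by
      refine AdjoinRoot.ringHom_ext ?_ ?_
      · refine RingHom.ext fun b => ?_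
        rw [RingHom.comp_apply, RingHom.comp_apply, hΦ1]
        rfl
      · rw [RingHom.comp_apply, hΦ2, RingHom.id_apply]
        have h3 := AdjoinRoot.eval₂_root (Polynomial.X ^ 1 - Polynomial.C f : Polynomial B)
        rw [Polynomial.eval₂_sub, Polynomial.eval₂_pow, Polynomial.eval₂_X, Polynomial.eval₂_C,
          sub_eq_zero] at h3
        exact h3.symm.trans (pow_one _)
    exact RingHom.congr_fun h2 x
  have E : B ≃ₐ[R] AdE B f 1 :=
    { toFun := AdjoinRoot.of _
      invFun := Φ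
      left_inv := hΦ1
      right_inv := h1
      map_mul' := map_mul _
      map_add' := map_add _
      commutes' := fun r => rfl }
  exact ⟨E.symm⟩

end cyc1

/-- The rank of the differentials is invariant under isomorphisms. -/
private theorem TGk_rank {K : Type u} [Field K] {A B : Type u} [CommRing A] [IsDomain A] [CommRing B] [IsDomain B]
    [Algebra K A] [Algebra K B] (E : A ≃ₐ[K] B) : Module.finrank B (Ω[B⁄K]) = Module.finrank A (Ω[A⁄K]) := by
  let _ : Algebra A B := E.toRingEquiv.toRingHom.toAlgebra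
  have hst : IsScalarTower K A B := IsScalarTower.of_algebraMap_eq fun a => (E.commutes a).symm
  have hb : Function.Bijective (algebraMap A B) := E.bijective
  have hfe : Algebra.FormallyEtale A B := Algebra.FormallyEtale.of_equiv (AlgEquiv.ofBijective (Algebra.ofId A B) hb)
  have hf : FaithfulSMul A B := (faithfulSMul_iff_algebraMap_injective _ _).2 hb.1
  have hbc : IsBaseChange B (KaehlerDifferential.map K K A B) :=
    KaehlerDifferential.isBaseChange_of_formallyEtale K A B
  exact hbc.finrank_eq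

theorem prime_K {e : ℕ} [Algebra (Ra κ n e) K] [IsScalarTower κ (Ra κ n e) K] [IsFractionRing (Ra κ n e) K]
    (hp : J.IsPrime) : (bI (algebraMap κ K) J).IsPrime := by
  have h1 : (bI (algebraMap (Ra κ n e) K) (bI (C : κ →+* Ra κ n e) J)).IsPrime :=
    TGk_loc (TGk_prime hp) fun r hr => TGk_disj hp hr
  rw [bI_bI] at h1
  have h2 : (algebraMap (Ra κ n e) K).comp (C : κ →+* Ra κ n e) = algebraMap κ K :=
    (IsScalarTower.algebraMap_eq κ (Ra κ n e) K).symm
  rwa [h2] at h1

theorem good_K {e : ℕ} [Algebra (Ra κ n e) K] [IsScalarTower κ (Ra κ n e) K] [IsFractionRing (Ra κ n e) K]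
    (hJ : Good J m) : Good (bI (algebraMap κ K) J) m :=
  Good.map hJ (prime_K (e := e) hJ.prime)

theorem good_Q [Algebra (Ra κ n 1) K] [IsScalarTower κ (Ra κ n 1) K] [IsFractionRing (Ra κ n 1) K] (hJ : Good J m) :
    Good (cyc (bI (algebraMap κ K) J) (frm (ak κ n 1 K)) 1) m := by
  obtain ⟨I, hI⟩ : ∃ I, I = bI (algebraMap κ K) J := ⟨_, rfl⟩
  obtain ⟨F, hF⟩ : ∃ F : MvPolynomial (Fin n) K, F = frm (ak κ n 1 K) := ⟨_, rfl⟩
  have hI0 : Good I m := by
    rw [hI]
    exact good_K (e := 1) hJ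
  have hF0 : F.IsHomogeneous 1 := by
    rw [hF]
    exact frm_hom _
  have hch : CharZero K := charZero_of_injective_algebraMap (algebraMap κ K).injective
  have h1 := cyc_smooth (K := K) hJ (le_refl 1) ak_indep
  rw [← hI, ← hF] at h1 ⊢
  obtain ⟨π, hπ1, hπ2⟩ := TGk_pi F
  have hc := TGk_cyc I F π hπ1 hπ2
  have hp : (cyc I F 1).IsPrime := by
    rw [hc]
    have := hI0.prime
    exact Ideal.IsPrime.comap _
  obtain ⟨l, hl⟩ := hI0.ne
  have hl' : (X l.castSucc : MvPolynomial (Fin (n + 1)) K) ∉ cyc I F 1 := by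
    rw [hc, Ideal.mem_comap, hπ1]
    exact hl
  obtain ⟨m', hm'⟩ := exists_good h1.1 hp h1.2 ⟨_, hl'⟩
  have hd : IsDomain (chart I {l}) := chart_domain hI0.prime hl
  have hd' : IsDomain (chart (cyc I F 1) {l.castSucc}) := chart_domain hp hl'
  obtain ⟨Ψ, -, -⟩ := exists_adj hI0.homog hF0 {l} (Finset.mem_singleton_self l)
  obtain ⟨E⟩ := TGk_ade (R := K) (dh I {l} (Finset.mem_singleton_self l) F)
  have h2 : cs ({l} : Finset (Fin n)) = {l.castSucc} := Finset.map_singleton _ _
  have h3 := hm'.rank l.castSucc hl'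
  have h4 := hI0.rank l hl
  have h5 : Module.finrank (chart (cyc I F 1) {l.castSucc}) (Ω[chart (cyc I F 1) {l.castSucc}⁄K]) =
      Module.finrank (chart I {l}) (Ω[chart I {l}⁄K]) := by
    rw [← h2] at hd' ⊢
    exact TGk_rank (E.symm.trans Ψ)
  have h6 : m' = m := by
    rw [← h3, h5, h4]
  rwa [h6] at hm'

end MPadcHS
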