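import Pool.Agent.Lib.MP_adc574_ag_HS.TSmq
import Pool.Agent.Lib.MP_adc574_ag_HS.NKer
import Pool.Agent.Lib.MP_adc574_ag_DC.GDefs
import Pool.Agent.Lib.MP_adc574_ag_DC.GDom

/-!
# JOB TSmr (HS): smoothness and rank of a section

* `smooth_sec`: for `l : Fin n`: `smooth_quot` (TSmq) for `π = hx hs.le {l}` as an `AlgHom` (`hx_base`), `B = chart I {l}`, `B' = chart I' {l}`, `f = fC I F {l}`, `hx_surj`, `hx_ker`, `hD.der`.
* `rank_sec`: `X l ∉ I'`, so `X l ∉ I`; `chart I {l}` and `chart I' {l}` are domains (`chart_domain`), `fC I F {l} ≠ 0` (`hD.nzd`, `nonZeroDivisors.ne_zero`), `rank_quot`, `hI.rank l _`.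
-/

set_option autoImplicit false
set_option linter.unusedSectionVars false

namespace MPadcHS

open MvPolynomial MPadcGP MPadcDC

universe u v w

section

variable {K : Type u} [Field K] {n : ℕ} {I I' : Ideal (MvPolynomial (Fin n) K)} {F : MvPolynomial (Fin n) K} {e : ℕ}

/-- The restriction to the section as a homomorphism of algebras. -/
private noncomputable def tsmrP (hle : I ≤ I') (l : Fin n) : chart I {l} →ₐ[K] chart I' {l} :=
  { hx hle {l} with commutes' := fun a => hx_base {l} a }

theorem smooth_sec (hI : IsHomog I) (hsm : IsSmoothProj I) (hF : F.IsHomogeneous e) (hs : IsSec I F I')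
    (hD : Dv I F) : IsSmoothProj I' := by
  intro l
  have h1 : Algebra.Smooth K (chart I {l}) := hsm l
  have hne : ({l} : Finset (Fin n)).Nonempty := Finset.singleton_nonempty l
  obtain ⟨v, g, hv⟩ := hD.der {l} hne
  exact smooth_quot (tsmrP hs.le l) (hx_surj hs.le {l}) (fC I F {l}) (fun x => hx_ker hI hF hs hne x) v g hv

theorem rank_sec {m : ℕ} (hI : Good I (m + 1)) (hF : F.IsHomogeneous e) (hs : IsSec I F I') (hD : Dv I F)
    (hp : I'.IsPrime) (l : Fin n) (hl : (X l : MvPolynomial (Fin n) K) ∉ I') :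
    Module.finrank (chart I' {l}) (Ω[chart I' {l}⁄K]) = m := by
  have h1 : Algebra.Smooth K (chart I {l}) := hI.smooth l
  have hne : ({l} : Finset (Fin n)).Nonempty := Finset.singleton_nonempty l
  have hl' : (X l : MvPolynomial (Fin n) K) ∉ I := fun h => hl (hs.le h)
  have d1 : IsDomain (chart I {l}) := chart_domain hI.prime hl'
  have d2 : IsDomain (chart I' {l}) := chart_domain hp hl
  obtain ⟨v, g, hv⟩ := hD.der {l} hne
  have h2 := rank_quot (tsmrP hs.le l) (hx_surj hs.le {l}) (fC I F {l}) (fun x => hx_ker hI.homog hF hs hne x) v g hv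
    (nonZeroDivisors.ne_zero (hD.nzd {l} hne))
  rw [hI.rank l hl'] at h2
  exact Nat.succ_injective h2

end

end MPadcHS
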