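import Pool.Agent.Lib.MP_adc574_ag_HS.TPrm
import Pool.Agent.Lib.MP_adc574_ag_HS.TSmr
import Pool.Agent.Lib.MP_adc574_ag_HS.TDv
import Pool.Agent.Lib.MP_adc574_ag_HS.TGk

/-!
# JOB TSg (HS): the generic sections over `K` are smooth and integral

* `sec_good`: `P := sec (bI ..) (frm (ak ..))`, `isSec_sec`. `homog`: `sec_homog`, `frm_hom`. `prime`: `sec_prime`. `smooth`: `smooth_sec` with `good_K`, `dv_gen hJ he ak_indep`. `ne`: `sec_X` for `l` with `X l ∉ J`. `rank`: `rank_sec` with `good_K hJ : Good (bI ..) (m + 1)`.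
* `hyp_good`: `Q = cyc I F 1` in `n + 1` variables, `z = Fin.last n`, `π : K[x, z] → K[x]` with `x_l ↦ x_l`, `z ↦ 0`, `P' := (sec I F).comap π`. `IsSec Q (X z) P'`: `le`: `Q` is generated by the `rename castSucc g`, `g ∈ I`, and `X z ^ 1 - rename castSucc F` (definition of `cyc`; `π ∘ rename castSucc = id`, so they go to `g ∈ I ≤ sec I F` and `-F ∈ sec I F`). `mem`: `π z = 0`.
  `sat`: `g ∈ P'`, `g₀ := π g ∈ sec I F`, `X l ^ N * g₀ ∈ I ⊔ span {F}` for all `l`; `g - rename g₀ ∈ (X z)` (by the generators, or `MvPolynomial` division; induction); take `N + 1`: for `l = z`: `X z * .. ∈ (X z)`. For `l = castSucc l'`: `X l ^ N * rename g₀ = rename (X l' ^ N * g₀) ∈ rename (I ⊔ span {F})`, which is contained in `Q ⊔ span {X z}`: `rename F = X z - (X z - rename F)`.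
  `Good P' m`: `homog`: `π` is homogeneous (`homogeneousComponent d (π f) = π (homogeneousComponent d f)`). `prime`: `Ideal.IsPrime.comap`. `smooth`: `smooth_sec` for `Q`, `F := X z` (homogeneous of degree `1`: `isHomogeneous_X`), `good_Q`, `dv_hyp hJ le_rfl ak_indep`. `ne`: `X l ∉ J` gives `X l ∉ sec I F` (`sec_X`), so `X l.castSucc ∉ P'`. `rank`: `rank_sec` with `good_Q hJ`.
-/

set_option autoImplicit false
set_option linter.unusedSectionVars false

namespace MPadcHS

open MvPolynomial MPadcGP MPadcDC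

universe u

variable {κ : Type u} [Field κ] [CharZero κ] {n : ℕ} {J : Ideal (MvPolynomial (Fin n) κ)} {K : Type u} [Field K]
  [Algebra κ K] {m : ℕ}

section aux

variable {A : Type u} [CommRing A] {n : ℕ}

private theorem TSg_pi : ∃ π : MvPolynomial (Fin (n + 1)) A →ₐ[A] MvPolynomial (Fin n) A,
    (∀ l : Fin n, π (X l.castSucc) = X l) ∧ π (X (Fin.last n)) = 0 :=
  ⟨aeval (Fin.snoc (fun l => X l) 0 : Fin (n + 1) → MvPolynomial (Fin n) A), fun l => by
    rw [aeval_X, Fin.snoc_castSucc], by rw [aeval_X, Fin.snoc_last]⟩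

/-- `π` is compatible with the homogeneous components. -/
private theorem TSg_hc (π : MvPolynomial (Fin (n + 1)) A →ₐ[A] MvPolynomial (Fin n) A)
    (h1 : ∀ l : Fin n, π (X l.castSucc) = X l) (h2 : π (X (Fin.last n)) = 0) (f : MvPolynomial (Fin (n + 1)) A) (d : ℕ) :
    π (homogeneousComponent d f) = homogeneousComponent d (π f) := by
  have h3 : ∀ (i : ℕ) (g : MvPolynomial (Fin (n + 1)) A), g.IsHomogeneous i → (π g).IsHomogeneous i := by
    intro i g hg
    have h4 : π = aeval (π ∘ X) := MvPolynomial.aeval_unique π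
    rw [h4]
    have h5 := hg.aeval (π ∘ X) (n := 1) (fun l => by
      rw [Function.comp_apply]
      induction l using Fin.lastCases with
      | last =>
        rw [h2]
        exact isHomogeneous_zero _ _ _
      | cast l =>
        rw [h1]
        exact isHomogeneous_X _ _)
    rwa [one_mul] at h5
  have h6 : homogeneousComponent d (π f) = ∑ i ∈ Finset.range (f.totalDegree + 1),
      homogeneousComponent d (π (homogeneousComponent i f)) := by
    rw [← map_sum, ← map_sum, sum_homogeneousComponent]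
  have h7 : ∀ i ∈ Finset.range (f.totalDegree + 1), homogeneousComponent d (π (homogeneousComponent i f)) =
      if d = i then π (homogeneousComponent i f) else 0 := by
    intro i _
    exact homogeneousComponent_of_mem (h3 i _ (homogeneousComponent_isHomogeneous i f))
  rw [h6, Finset.sum_congr rfl h7, Finset.sum_ite_eq]
  split_ifs with h8
  · rfl
  · rw [Finset.mem_range, not_lt, Nat.succ_le_iff] at h8
    rw [homogeneousComponent_eq_zero _ _ h8, map_zero]

/-- The section `z = 0` of `(I, z - F)`. -/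
private theorem TSg_sec (I : Ideal (MvPolynomial (Fin n) A)) (F : MvPolynomial (Fin n) A)
    (π : MvPolynomial (Fin (n + 1)) A →ₐ[A] MvPolynomial (Fin n) A) (h1 : ∀ l : Fin n, π (X l.castSucc) = X l)
    (h2 : π (X (Fin.last n)) = 0) : IsSec (cyc I F 1) (X (Fin.last n)) ((sec I F).comap π) := by
  have h3 : ∀ f : MvPolynomial (Fin n) A, π (rename Fin.castSucc f) = f := by
    intro f
    have h4 : π.comp (rename Fin.castSucc) = AlgHom.id A _ := by
      refine MvPolynomial.algHom_ext fun l => ?_
      rw [AlgHom.comp_apply, rename_X, h1]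
      rfl
    exact DFunLike.congr_fun h4 f
  have h5 : ∀ g : MvPolynomial (Fin (n + 1)) A, g - rename Fin.castSucc (π g) ∈
      Ideal.span {(X (Fin.last n) : MvPolynomial (Fin (n + 1)) A)} := by
    intro g
    have h6 : (Ideal.Quotient.mkₐ A (Ideal.span {(X (Fin.last n) : MvPolynomial (Fin (n + 1)) A)})).comp
        ((rename Fin.castSucc).comp π) = Ideal.Quotient.mkₐ A _ := by
      refine MvPolynomial.algHom_ext fun l => ?_
      induction l using Fin.lastCases with
      | last =>
        rw [AlgHom.comp_apply, AlgHom.comp_apply, h2, map_zero, map_zero]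
        exact (Ideal.Quotient.eq_zero_iff_mem.2 (Ideal.mem_span_singleton_self _)).symm
      | cast l => rw [AlgHom.comp_apply, AlgHom.comp_apply, h1, rename_X]
    exact Ideal.Quotient.eq.1 (DFunLike.congr_fun h6 g).symm
  have h7 : I.map (rename Fin.castSucc : MvPolynomial (Fin n) A →ₐ[A] MvPolynomial (Fin (n + 1)) A).toRingHom ≤
      cyc I F 1 := by
    unfold cyc
    exact le_sup_left
  have h8 : (X (Fin.last n) - rename Fin.castSucc F : MvPolynomial (Fin (n + 1)) A) ∈ cyc I F 1 := by
    unfold cyc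
    refine Ideal.mem_sup_right (Ideal.subset_span ?_)
    rw [pow_one]
    rfl
  refine ⟨?_, ?_, ?_⟩
  · unfold cyc
    refine sup_le (Ideal.map_le_iff_le_comap.2 fun f hf => ?_) ((Ideal.span_singleton_le_iff_mem _).2 ?_)
    · rw [Ideal.mem_comap, Ideal.mem_comap]
      change π (rename Fin.castSucc f) ∈ sec I F
      rw [h3]
      exact (isSec_sec I F).le hf
    · rw [Ideal.mem_comap, pow_one, map_sub, h2, h3, zero_sub]
      exact (sec I F).neg_mem (isSec_sec I F).mem
  · rw [Ideal.mem_comap, h2]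
    exact Ideal.zero_mem _
  · intro g hg
    rw [Ideal.mem_comap] at hg
    obtain ⟨N, hN⟩ := mem_sec.1 hg
    refine ⟨N + 1, fun l => ?_⟩
    induction l using Fin.lastCases with
    | last =>
      refine Ideal.mem_sup_right ?_
      rw [pow_succ, mul_assoc, mul_left_comm]
      exact Ideal.mul_mem_right _ _ (Ideal.mem_span_singleton_self _)
    | cast l =>
      have h9 : (X l.castSucc ^ (N + 1) * g : MvPolynomial (Fin (n + 1)) A) =
          X l.castSucc ^ (N + 1) * (g - rename Fin.castSucc (π g)) +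
            X l.castSucc * rename Fin.castSucc (X l ^ N * π g) := by
        rw [map_mul, map_pow, rename_X]
        ring
      rw [h9]
      refine Ideal.add_mem _ (Ideal.mul_mem_left _ _ (Ideal.mem_sup_right (h5 g))) (Ideal.mul_mem_left _ _ ?_)
      have h10 : I ⊔ Ideal.span {F} ≤ (cyc I F 1 ⊔ Ideal.span {(X (Fin.last n) : MvPolynomial (Fin (n + 1)) A)}).comap
          (rename Fin.castSucc : MvPolynomial (Fin n) A →ₐ[A] MvPolynomial (Fin (n + 1)) A).toRingHom := by
        refine sup_le (fun f hf => ?_) ((Ideal.span_singleton_le_iff_mem _).2 ?_)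
        · exact Ideal.mem_sup_left (h7 (Ideal.mem_map_of_mem _ hf))
        · rw [Ideal.mem_comap]
          have h11 : (rename Fin.castSucc : MvPolynomial (Fin n) A →ₐ[A] MvPolynomial (Fin (n + 1)) A).toRingHom F =
              X (Fin.last n) - (X (Fin.last n) - rename Fin.castSucc F) := by
            rw [sub_sub_cancel]
            rfl
          rw [h11]
          exact Ideal.sub_mem _ (Ideal.mem_sup_right (Ideal.mem_span_singleton_self _)) (Ideal.mem_sup_left h8)
      exact h10 (hN l)

end aux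

theorem sec_good {e : ℕ} [Algebra (Ra κ n e) K] [IsScalarTower κ (Ra κ n e) K] [IsFractionRing (Ra κ n e) K]
    (hJ : Good J (m + 1)) (he : 1 ≤ e) : Good (sec (bI (algebraMap κ K) J) (frm (ak κ n e K))) m := by
  have hch : CharZero K := charZero_of_injective_algebraMap (algebraMap κ K).injective
  have hI := good_K (K := K) (e := e) hJ
  have hs := isSec_sec (bI (algebraMap κ K) J) (frm (ak κ n e K))
  have hD : Dv (bI (algebraMap κ K) J) (frm (ak κ n e K)) := dv_gen hJ he ak_indep
  have hp := sec_prime (K := K) (e := e) hJ he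
  obtain ⟨l, hl⟩ := hJ.ne
  exact ⟨sec_homog hI.homog (frm_hom _), hp, smooth_sec hI.homog hI.smooth (frm_hom _) hs hD,
    ⟨l, sec_X hJ he hs hl⟩, fun l hl => rank_sec hI (frm_hom _) hs hD hp l hl⟩

theorem hyp_good [Algebra (Ra κ n 1) K] [IsScalarTower κ (Ra κ n 1) K] [IsFractionRing (Ra κ n 1) K]
    (hJ : Good J (m + 1)) : ∃ P' : Ideal (MvPolynomial (Fin (n + 1)) K),
      IsSec (cyc (bI (algebraMap κ K) J) (frm (ak κ n 1 K)) 1) (X (Fin.last n)) P' ∧ Good P' m := by
  have hch : CharZero K := charZero_of_injective_algebraMap (algebraMap κ K).injective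
  have hI := good_K (K := K) (e := 1) hJ
  have hQ := good_Q (K := K) hJ
  have hD : Dv (cyc (bI (algebraMap κ K) J) (frm (ak κ n 1 K)) 1) (X (Fin.last n)) := dv_hyp hJ (le_refl 1) ak_indep
  have hp := sec_prime (K := K) (e := 1) hJ (le_refl 1)
  obtain ⟨π, h1, h2⟩ := TSg_pi (A := K) (n := n)
  have hs := TSg_sec (bI (algebraMap κ K) J) (frm (ak κ n 1 K)) π h1 h2
  have hX : (X (Fin.last n) : MvPolynomial (Fin (n + 1)) K).IsHomogeneous 1 := isHomogeneous_X _ _
  have hp' : ((sec (bI (algebraMap κ K) J) (frm (ak κ n 1 K))).comap π).IsPrime := Ideal.IsPrime.comap _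
  obtain ⟨l, hl⟩ := hJ.ne
  refine ⟨_, hs, fun f hf d => ?_, hp', smooth_sec hQ.homog hQ.smooth hX hs hD, ⟨l.castSucc, ?_⟩,
    fun l hl => rank_sec hQ hX hs hD hp' l hl⟩
  · rw [Ideal.mem_comap] at hf ⊢
    rw [TSg_hc π h1 h2]
    exact sec_homog hI.homog (frm_hom _) _ hf d
  · rw [Ideal.mem_comap, h1]
    exact sec_X hJ (le_refl 1) (isSec_sec _ _) hl

end MPadcHS
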