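import Pool.Agent.Lib.MP_adc574_ag_HS.NSeqA
import Pool.Agent.Lib.MP_adc574_ag_HS.NSeqB
import Pool.Agent.Lib.MP_adc574_ag_HS.NCovC
import Pool.Agent.Lib.MP_adc574_ag_HS.NDesc
import Pool.Agent.Lib.MP_adc574_ag_HS.TSg
import Pool.Agent.Lib.MP_adc574_ag_DC.GBaseC

/-!
# JOB NAkn (HS): the vanishing theorem (AKN) with the twists `-1` and `1`

Both are statements for every field `κ` of characteristic `0` and every `J` with `Good J m`; in the inductions `κ`, `J`, `m` (or `a`, `b`) vary, so prove them in the form `∀ a, ∀ (κ : Type u) [Field κ] [CharZero κ] (J) (m b) ..` etc. Put `e = 2`, `K := FractionRing (Ra κ n 2)` (instances: `Algebra κ K`, `IsScalarTower κ (Ra κ n 2) K` by `inferInstance`),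
`I := bI (algebraMap κ K) J`, `F := frm (ak κ n 2 K)`, `I' := sec I F`, `hs := isSec_sec I F`. `kT_dc hJ hs : a + b ≠ m → (kT hs.le 1 a).Acy b` (NCovC). `good_K hJ : Good I m`. `dv_gen hJ (by norm_num) ak_indep : Dv I F`. At the end descend with `acy_desc hJ.homog` (NDesc).
* `akn_neg`: induction on `a`. `a = 0`: `acy_II_zero` with `t = 1`, `e = 2` (`1 - 2 = -1`). `a = a' + 1`: then `m ≥ 2`, `m = m' + 1`: `acy_II_left` with `t = 1`: `h1` is `kT_dc`; `h2`: `b = b' + 1`: `(cT I' (-1) a').Acy b'` by the induction hypothesis for the field `K` and `I'`: `sec_good hJ (by norm_num) : Good I' m'` (TSg.lean, for `hJ : Good J (m' + 1)`), `a' + b' < m'`.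
* `akn_pos`: induction on `m`. `m = 0`: the forms of degree `a ≥ 1` are zero (`chart_top hJ`, `0 < a`), `acy_zero`. `m = m' + 1`: `acy_I_mid` with `t = 1`: `kT_dc` and the induction hypothesis for `I'`, `Good I' m'`, `a + b > m'`.
-/

set_option autoImplicit false
set_option linter.unusedSectionVars false

namespace MPadcHS

open MvPolynomial MPadcGP MPadcDC

universe u

private theorem NAkn_neg (n : ℕ) : ∀ (a : ℕ) (κ : Type u) [Field κ] [CharZero κ] (J : Ideal (MvPolynomial (Fin n) κ))
    (m b : ℕ), Good J m → a + b < m → (cT J (-1) a).Acy b := by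
  intro a
  induction a with
  | zero =>
    intro κ _ _ J m b hJ hab
    have hc : CharZero (FractionRing (Ra κ n 2)) :=
      charZero_of_injective_algebraMap (algebraMap κ (FractionRing (Ra κ n 2))).injective
    have hI : Good (bI (algebraMap κ (FractionRing (Ra κ n 2))) J) m := good_K (e := 2) hJ
    have hs := isSec_sec (bI (algebraMap κ (FractionRing (Ra κ n 2))) J) (frm (ak κ n 2 (FractionRing (Ra κ n 2))))
    have hD : Dv (bI (algebraMap κ (FractionRing (Ra κ n 2))) J) (frm (ak κ n 2 (FractionRing (Ra κ n 2)))) :=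
      dv_gen hJ (by norm_num) ak_indep
    have h1 := kT_dc hJ hs (a := 0) (b := b) (by omega)
    have h2 := (acy_II_zero hI.homog hI.smooth (frm_hom _) hs hD 1 b).1 h1
    have e : (1 : ℤ) - ((2 : ℕ) : ℤ) = -1 := by norm_num
    rw [e] at h2
    exact acy_desc hJ.homog (-1) 0 b h2
  | succ a ih =>
    intro κ _ _ J m b hJ hab
    obtain ⟨m, rfl⟩ : ∃ m', m = m' + 1 := ⟨m - 1, by omega⟩
    have hc : CharZero (FractionRing (Ra κ n 2)) :=
      charZero_of_injective_algebraMap (algebraMap κ (FractionRing (Ra κ n 2))).injective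
    have hI : Good (bI (algebraMap κ (FractionRing (Ra κ n 2))) J) (m + 1) := good_K (e := 2) hJ
    have hs := isSec_sec (bI (algebraMap κ (FractionRing (Ra κ n 2))) J) (frm (ak κ n 2 (FractionRing (Ra κ n 2))))
    have hD : Dv (bI (algebraMap κ (FractionRing (Ra κ n 2))) J) (frm (ak κ n 2 (FractionRing (Ra κ n 2)))) :=
      dv_gen hJ (by norm_num) ak_indep
    have hg : Good (sec (bI (algebraMap κ (FractionRing (Ra κ n 2))) J) (frm (ak κ n 2 (FractionRing (Ra κ n 2))))) m :=
      sec_good (e := 2) hJ (by norm_num)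
    have h1 := kT_dc hJ hs (a := a + 1) (b := b) (by omega)
    have e : (1 : ℤ) - ((2 : ℕ) : ℤ) = -1 := by norm_num
    have h2 := acy_II_left hI.homog hI.smooth (frm_hom _) hs hD 1 a b h1 (by
      intro b' hb'
      rw [e]
      exact ih _ _ m b' hg (by omega))
    rw [e] at h2
    exact acy_desc hJ.homog (-1) (a + 1) b h2

private theorem NAkn_pos (n : ℕ) : ∀ (m : ℕ) (κ : Type u) [Field κ] [CharZero κ] (J : Ideal (MvPolynomial (Fin n) κ))
    (a b : ℕ), Good J m → 1 ≤ a → m < a + b → (cT J 1 a).Acy b := by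
  intro m
  induction m with
  | zero =>
    intro κ _ _ J a b hJ ha hab
    refine acy_zero (M := cT J 1 a) (fun C hC x => ?_) b
    have h1 : ∀ y : ↥(Fd κ (chart J C) a), y = 0 := fun y => Subtype.ext (chart_top hJ hC ha y.2)
    exact h1 x
  | succ m ih =>
    intro κ _ _ J a b hJ ha hab
    have hc : CharZero (FractionRing (Ra κ n 2)) :=
      charZero_of_injective_algebraMap (algebraMap κ (FractionRing (Ra κ n 2))).injective
    have hs := isSec_sec (bI (algebraMap κ (FractionRing (Ra κ n 2))) J) (frm (ak κ n 2 (FractionRing (Ra κ n 2))))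
    have hg : Good (sec (bI (algebraMap κ (FractionRing (Ra κ n 2))) J) (frm (ak κ n 2 (FractionRing (Ra κ n 2))))) m :=
      sec_good (e := 2) hJ (by norm_num)
    have h1 := kT_dc hJ hs (a := a) (b := b) (by omega)
    have h2 := acy_I_mid hs.le 1 a b h1 (ih _ _ a b hg ha (by omega))
    exact acy_desc hJ.homog 1 a b h2

variable {κ : Type u} [Field κ] [CharZero κ] {n : ℕ} {J : Ideal (MvPolynomial (Fin n) κ)}

theorem akn_neg {m : ℕ} (hJ : Good J m) {a b : ℕ} (hab : a + b < m) : (cT J (-1) a).Acy b :=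
  NAkn_neg n a κ J m b hJ hab

theorem akn_pos {m : ℕ} (hJ : Good J m) {a b : ℕ} (ha : 1 ≤ a) (hab : m < a + b) : (cT J 1 a).Acy b :=
  NAkn_pos n m κ J a b hJ ha hab

end MPadcHS
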