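import Pool.Agent.Lib.MP_adc574_ag_GP.GrB
import Pool.Agent.Lib.MP_adc574_ag_GP.DatA
import Pool.Agent.Lib.MP_adc574_ag_DC.W1A
import Pool.Agent.Lib.MP_adc574_ag_DC.W1L
import Pool.Agent.Lib.MP_adc574_ag_HS.NCm

/-!
# HS, Part N: from all the charts to the charts without `z`, for an abstract cover
-/

set_option autoImplicit false
set_option linter.unusedSectionVars false

namespace MPadcHS

open MPadcGP MPadcDC

universe u v w

variable {A : Type u} [CommRing A] {n : ℕ}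

private theorem NCvM_mem {N : ℕ} {X : CovD.{u, v} A N} {a b : ℕ} {c : X.Ch}
    (h1 : ∀ l, l + 1 = a + b → c ∈ X.Gr a l) (h2 : a + b = 0 → c = 0) :
    c ∅ = 0 ∧ ∀ K' : Finset (Fin N), c K' ∈ Fd A (X.R K') a ∧ (K'.card ≠ b → c K' = 0) := by
  rcases Nat.eq_zero_or_pos (a + b) with h0 | h0
  · rw [h2 h0]
    exact ⟨rfl, fun K' => ⟨Submodule.zero_mem _, fun _ => rfl⟩⟩
  · obtain ⟨l, hl⟩ : ∃ l, l + 1 = a + b := ⟨a + b - 1, by omega⟩
    obtain ⟨h5, h6⟩ := CovD.mem_Gr'.1 (h1 l hl)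
    refine ⟨h5, fun K' => ?_⟩
    have h8 : K'.card ≠ b → c K' = 0 := fun h => (h6 K').2 (by omega)
    refine ⟨?_, h8⟩
    by_cases h9 : K'.card = b
    · exact (h6 K').1 (by omega)
    · rw [h8 h9]
      exact Submodule.zero_mem _

variable {X : CovD.{u, v} A (n + 1)}

/-- Cochains extend. -/
private theorem NCvM_ext (c : ∀ C : Finset (Fin n), X.E (cm C)) :
    ∃ c₁ : X.Ch, (∀ C, c₁ (cm C) = c C) ∧ ∀ K', Fin.last n ∈ K' → c₁ K' = 0 := by
  classical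
  have h1 : ∀ K' : Finset (Fin (n + 1)), ∃ y : X.E K', (Fin.last n ∈ K' → y = 0) ∧
      ∀ (C : Finset (Fin n)) (h : cm C = K'), y = X.rs (by rw [h]) (c C) := by
    intro K'
    by_cases hK : Fin.last n ∈ K'
    · refine ⟨0, fun _ => rfl, fun C h => ?_⟩
      rw [← h] at hK
      exact absurd hK (W1_last_notMem C)
    · obtain ⟨C, rfl⟩ := W1_exK hK
      refine ⟨c C, fun h => absurd h hK, fun C' h => ?_⟩
      have h2 : C' = C := Finset.map_injective _ h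
      subst h2
      exact (X.rs_id _ _ _).symm
  choose y hy hy' using h1
  refine ⟨y, fun C => ?_, hy⟩
  rw [hy' _ C rfl]
  exact X.rs_id _ _ _

private theorem NCvM_del {c : X.Ch} {d : ∀ C : Finset (Fin n), X.E (cm C)}
    (h : ∀ C : Finset (Fin n), c (cm C) = d C) (C : Finset (Fin n)) :
    X.del c (cm C) = ∑ j ∈ C, sg j C • X.rs (cm_mono (Finset.erase_subset j C)) (d (C.erase j)) := by
  rw [CovD.del_apply, Finset.sum_map]
  refine Finset.sum_congr rfl fun j hj => ?_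
  have h2 : (cm C).erase (Fin.castSuccEmb j) = cm (C.erase j) := (Finset.map_erase _ _ _).symm
  have h3 : sg (Fin.castSuccEmb j) (cm C) = sg j C := W1_sg j C
  rw [h2, h3, CovD.ev_of (cm_mono (Finset.erase_subset j C)), h]

theorem NCvM_main {M : Type w} [AddCommGroup M] [Fintype M] [DecidableEq M] (W : GrX X M)
    (hA : W1Aff X (Fin.last n)) {μ : M} {a b : ℕ}
    (hwt : ∀ c ∈ X.Gr a (a + b), W.P μ c = c → X.Dq c = 0 →
      ∃ c' : X.Ch, (∀ l, l + 1 = a + b → c' ∈ X.Gr a l) ∧ (a + b = 0 → c' = 0) ∧ W.P μ c' = c' ∧ X.Dq c' = c)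
    (c : ∀ C : Finset (Fin n), X.E (cm C)) (hca : ∀ C, c C ∈ Fd A (X.R (cm C)) a) (hc0 : c ∅ = 0)
    (hck : ∀ C : Finset (Fin n), C.card ≠ b + 1 → c C = 0)
    (hd : ∀ C : Finset (Fin n), ∑ j ∈ C, sg j C • X.rs (cm_mono (Finset.erase_subset j C)) (c (C.erase j)) = 0)
    (hw : ∀ C : Finset (Fin n), wp (W.G (cm C)) μ (c C) = c C) :
    ∃ c' : ∀ C : Finset (Fin n), X.E (cm C), (∀ C, c' C ∈ Fd A (X.R (cm C)) a) ∧ c' ∅ = 0 ∧
      (∀ C : Finset (Fin n), C.card ≠ b → c' C = 0) ∧ (∀ C : Finset (Fin n), wp (W.G (cm C)) μ (c' C) = c' C) ∧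
      ∀ C : Finset (Fin n),
        ∑ j ∈ C, sg j C • X.rs (cm_mono (Finset.erase_subset j C)) (c' (C.erase j)) = c C := by
  classical
  obtain ⟨c₁, h1c, h1z⟩ := NCvM_ext c
  have h10 : c₁ ∅ = 0 := (h1c ∅).trans hc0
  have h1k : ∀ K' : Finset (Fin (n + 1)), K'.card ≠ b + 1 → c₁ K' = 0 := by
    intro K' hK'
    by_cases hz : Fin.last n ∈ K'
    · exact h1z K' hz
    · obtain ⟨C, rfl⟩ := W1_exK hz
      rw [Finset.card_map] at hK'
      exact (h1c C).trans (hck C hK')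
  have h1m : ∀ K' : Finset (Fin (n + 1)), c₁ K' ∈ Fd A (X.R K') a := by
    intro K'
    by_cases hz : Fin.last n ∈ K'
    · rw [h1z K' hz]
      exact Submodule.zero_mem _
    · obtain ⟨C, rfl⟩ := W1_exK hz
      rw [h1c C]
      exact hca C
  have hdm : ∀ K' : Finset (Fin (n + 1)), X.del c₁ K' ∈ Fd A (X.R K') a := by
    intro K'
    rw [CovD.del_apply]
    exact Submodule.sum_mem _ fun j _ => zsmul_mem (CovD.ev_mem (h1m _) _) _
  have hdk : ∀ K' : Finset (Fin (n + 1)), K'.card ≠ (b + 1) + 1 → X.del c₁ K' = 0 := by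
    intro K' hK'
    rw [CovD.del_apply]
    refine Finset.sum_eq_zero fun j hj => ?_
    have h3 := Finset.card_erase_add_one hj
    rw [CovD.ev_eq_zero (h1k _ (by omega)), smul_zero]
  have hdz : ∀ K' : Finset (Fin (n + 1)), Fin.last n ∉ K' → X.del c₁ K' = 0 := by
    intro K' hz
    obtain ⟨C, rfl⟩ := W1_exK hz
    exact (NCvM_del h1c C).trans (hd C)
  obtain ⟨b₁, hb1, hb2, hb3, hb4⟩ := W1_exact hA (c := X.del c₁) hdm hdk hdz (CovD.del_del c₁)
  have hcb : X.del (c₁ - b₁) = 0 := by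
    rw [map_sub, hb4, sub_self]
  have hc2 : W.P μ (c₁ - b₁) ∈ X.Gr a (a + b) := by
    refine CovD.mem_Gr'.2 ⟨?_, fun K' => ⟨fun hK' => ?_, fun hK' => ?_⟩⟩
    · rw [GrX.P_apply, Pi.sub_apply, h10, hb3 _ (Finset.notMem_empty _), sub_zero, wp_zero]
    · rw [GrX.P_apply, Pi.sub_apply]
      exact wp_mem _ (Submodule.sub_mem _ (h1m K') (hb1 K')) μ
    · rw [GrX.P_apply, Pi.sub_apply, h1k K' (by omega), hb2 K' (by omega), sub_zero, wp_zero]
  have hD2 : X.Dq (W.P μ (c₁ - b₁)) = 0 := by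
    rw [CovD.Dq_apply, CovD.del_ic, ← W.P_del, hcb, map_zero, map_zero]
  have hP2 : W.P μ (W.P μ (c₁ - b₁)) = W.P μ (c₁ - b₁) := by rw [W.P_P, if_pos rfl]
  have hcm : ∀ C : Finset (Fin n), W.P μ (c₁ - b₁) (cm C) = c C := by
    intro C
    have h3 : c₁ (cm C) - b₁ (cm C) = c C := by
      rw [hb3 (cm C) (W1_last_notMem C), sub_zero]
      exact h1c C
    rw [GrX.P_apply, Pi.sub_apply]
    refine Eq.trans ?_ (hw C)
    exact congrArg _ h3
  obtain ⟨c₃, h31, h32, h33, h34⟩ := hwt _ hc2 hP2 hD2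
  obtain ⟨h3e, h3q⟩ := NCvM_mem h31 h32
  have h3p : ∀ C : Finset (Fin n), c₃ (cm C) ∈ Fd A (X.R (cm C)) a ∧ (C.card ≠ b → c₃ (cm C) = 0) := by
    intro C
    have h7 : (cm C).card = C.card := Finset.card_map _
    rw [← h7]
    exact h3q (cm C)
  refine ⟨fun C => X.ic c₃ (cm C), fun C => inv_mem' (h3p C).1, ?_, fun C hC => ?_, fun C => ?_, fun C => ?_⟩
  · change MPadcGP.inv A (c₃ (cm ∅)) = 0
    have h5 : c₃ (cm ∅) = 0 := h3e
    rw [h5, map_zero]
  · change MPadcGP.inv A (c₃ (cm C)) = 0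
    rw [(h3p C).2 hC, map_zero]
  · change wp (W.G (cm C)) μ (MPadcGP.inv A (c₃ (cm C))) = MPadcGP.inv A (c₃ (cm C))
    rw [wp_inv]
    exact congrArg _ (congrFun h33 (cm C))
  · have h5 := NCvM_del (c := X.ic c₃) (d := fun C => X.ic c₃ (cm C)) (fun _ => rfl) C
    refine Eq.trans h5.symm ?_
    have h6 := congrFun h34 (cm C)
    rw [hcm C] at h6
    exact h6

end MPadcHS
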