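import Pool.Agent.Lib.MP_adc574_ag_GP.Cov

/-!
# HS, Part N: Čech systems (definitions)

`TS n`: additive groups `E J`, `J : Finset (Fin n)`, with restriction maps `r`. Cochains: families `c J : E J`; `Cd k c`: only the sets
with `k` elements occur (and not `∅`). `del`: the Čech differential. `Acy b`: the cohomology of degree `b` is zero.
`SES`: short exact sequences. `Rt`: `M` is a direct summand of `M'`.
-/

set_option autoImplicit false

namespace MPadcHS

open MPadcGP

universe u v w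

/-- A Čech system. -/
structure TS (n : ℕ) where
  /-- The sections on `U_J`. -/
  E : Finset (Fin n) → Type u
  [grp : ∀ J, AddCommGroup (E J)]
  /-- The restriction maps. -/
  r : ∀ {J K : Finset (Fin n)}, J ⊆ K → (E J →+ E K)
  r_r : ∀ {J K L : Finset (Fin n)} (h : J ⊆ K) (h' : K ⊆ L), J.Nonempty → ∀ x, r h' (r h x) = r (h.trans h') x

attribute [instance] TS.grp

namespace TS

variable {n : ℕ} (M : TS.{u} n)

/-- The Čech differential. -/
def del (c : ∀ J, M.E J) : ∀ J, M.E J := fun J =>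
  ∑ j ∈ J, sg j J • M.r (Finset.erase_subset j J) (c (J.erase j))

/-- Cochains on the sets with `k` elements. -/
def Cd (k : ℕ) (c : ∀ J, M.E J) : Prop := c ∅ = 0 ∧ ∀ J : Finset (Fin n), J.card ≠ k → c J = 0

/-- The cohomology of degree `b` is zero. -/
def Acy (b : ℕ) : Prop := ∀ c, M.Cd (b + 1) c → M.del c = 0 → ∃ c', M.Cd b c' ∧ M.del c' = c

end TS

/-- A short exact sequence. -/
structure SES {n : ℕ} (M' : TS.{u} n) (M : TS.{v} n) (M'' : TS.{w} n) where
  i : ∀ J, M'.E J →+ M.E J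
  p : ∀ J, M.E J →+ M''.E J
  i_r : ∀ {J K : Finset (Fin n)} (h : J ⊆ K), J.Nonempty → ∀ x, i K (M'.r h x) = M.r h (i J x)
  p_r : ∀ {J K : Finset (Fin n)} (h : J ⊆ K), J.Nonempty → ∀ x, p K (M.r h x) = M''.r h (p J x)
  inj : ∀ J : Finset (Fin n), J.Nonempty → Function.Injective (i J)
  surj : ∀ J : Finset (Fin n), J.Nonempty → Function.Surjective (p J)
  ex : ∀ J : Finset (Fin n), J.Nonempty → ∀ x, p J x = 0 ↔ ∃ y, i J y = x

/-- `M` is a direct summand of `M'`. -/
structure Rt {n : ℕ} (M : TS.{u} n) (M' : TS.{v} n) where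
  i : ∀ J, M.E J →+ M'.E J
  p : ∀ J, M'.E J →+ M.E J
  i_r : ∀ {J K : Finset (Fin n)} (h : J ⊆ K), J.Nonempty → ∀ x, i K (M.r h x) = M'.r h (i J x)
  p_r : ∀ {J K : Finset (Fin n)} (h : J ⊆ K), J.Nonempty → ∀ x, p K (M'.r h x) = M.r h (p J x)
  p_i : ∀ J : Finset (Fin n), J.Nonempty → ∀ x, p J (i J x) = x

end MPadcHS
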