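import Pool.Agent.Lib.MP_adc574_ag_HS.NDeg
import Pool.Agent.Lib.MP_adc574_ag_DC.C5A
import Pool.Agent.Lib.MP_adc574_ag_GP.DegW
import Pool.Agent.Lib.MP_adc574_ag_GP.GrF

/-!
# JOB NWt (HS): in the weights `μ ≠ 0` of the cyclic cover only the Hodge cohomology in the middle degree is not zero

`X := Xc J (ak κ n e K) = prC (cyc ..)`, `W := Wc hJ.homog (ak ..)`. `cyc_smooth hJ he ak_indep` (DC/GSm): homogeneous and smooth. `deg_smooth` (NDeg): `hfin`, `hsum`. `HW_eq_bot hJ hq hμ` (DC/C5A): `W.HW q μ = ⊥`, and `W.HW q μ = X.cln (W.Wt μ) q` (both are `((W.Wt μ).submoduleOf (X.Zc q)).map (X.cl q)`, `rfl`). `CovD.finrank_weight` (GP/DegW, section main: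
`hd := W.isDec` (GP/GrF), `hF` = the `Fi a` are stable under `W.P μ` (see the uses of `finrank_weight` / `IsSt` in GP: GP/DegP.lean lines 35-50), `hfin`, `hsum`): `0 = finrank (cln (W.Wt μ) q) = ∑ a ∈ range (q + 2), hnw W.Wt a q μ`, so every `hnw W.Wt a q μ = 0` for `a < q + 2`; for `a ≥ q + 2 > q` the space `Gr a q` is `⊥` (`Gr_gt`).
So `HH Dt (Sw W (Fi (a+1)) μ) (Sw W (Fi a) μ) q` is a finite dimensional (`finite_weight`) space of dimension `0`: every `c ∈ Gr a q` of weight `μ` with `Dq c = 0` is in `ZZ`, hence in `BB`: `c = s + Dt w`, `s ∈ Fi (a+1) q`, `w ∈ Fi a (q - 1)` of weight `μ`; apply `pG a q`: `c = Dq (pG a (q-1) w)` (`pG_self`, `pG_zero`, `pG_Dt`).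
-/

set_option autoImplicit false
set_option linter.unusedSectionVars false

namespace MPadcHS

open MvPolynomial MPadcGP MPadcDC

universe u v w

section

variable {κ : Type u} [Field κ] [CharZero κ] {n : ℕ} {J : Ideal (MvPolynomial (Fin n) κ)} {K : Type u} [Field K]
  [Algebra κ K] {e : ℕ} [NeZero e] [Algebra (Ra κ n e) K] [IsScalarTower κ (Ra κ n e) K] [IsFractionRing (Ra κ n e) K]

private theorem NWt_pG {A : Type u} [CommRing A] {N : ℕ} {X : CovD.{u, v} A N} {M : Type} [AddCommGroup M] [Fintype M]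
    [DecidableEq M] (W : GrX X M) (μ : M) (a l : ℕ) (y : X.Ch) : W.P μ (X.pG a l y) = X.pG a l (W.P μ y) := by
  funext D
  rw [GrX.P_apply]
  by_cases h : D = ∅ ∨ a + D.card ≠ l + 1
  · rw [CovD.pG_not _ h, CovD.pG_not _ h, wp_zero]
  · push Not at h
    rw [CovD.pG_of _ h.1.ne_empty h.2, CovD.pG_of _ h.1.ne_empty h.2, GrX.P_apply]

theorem wt_acy {m : ℕ} (hJ : Good J m) {μ : ZMod e} (hμ : μ ≠ 0) {a r : ℕ} (hr : r ≠ m)
    {c : (Xc J (ak κ n e K)).Ch} (hc : c ∈ (Xc J (ak κ n e K)).Gr a r)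
    (hw : (Wc hJ.homog (ak κ n e K)).P μ c = c) (hd : (Xc J (ak κ n e K)).Dq c = 0) :
    ∃ c' : (Xc J (ak κ n e K)).Ch, (∀ l, l + 1 = r → c' ∈ (Xc J (ak κ n e K)).Gr a l) ∧ (r = 0 → c' = 0) ∧
      (Wc hJ.homog (ak κ n e K)).P μ c' = c' ∧ (Xc J (ak κ n e K)).Dq c' = c := by
  classical
  have he : 1 ≤ e := NeZero.one_le
  have hch : CharZero K := charZero_of_injective_algebraMap (algebraMap κ K).injective
  have hz : c = 0 → ∃ c' : (Xc J (ak κ n e K)).Ch, (∀ l, l + 1 = r → c' ∈ (Xc J (ak κ n e K)).Gr a l) ∧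
      (r = 0 → c' = 0) ∧ (Wc hJ.homog (ak κ n e K)).P μ c' = c' ∧ (Xc J (ak κ n e K)).Dq c' = c := fun h =>
    ⟨0, fun l _ => Submodule.zero_mem _, fun _ => rfl, map_zero _, by rw [h, map_zero]⟩
  by_cases har : r < a
  · refine hz ?_
    rw [CovD.Gr_gt har] at hc
    exact (Submodule.mem_bot K).1 hc
  have hsm := cyc_smooth (κ := κ) (K := K) hJ he ak_indep
  obtain ⟨hfin, hsum⟩ := deg_smooth hsm.1 hsm.2
  have h1 := CovD.finrank_weight (Wc hJ.homog (ak κ n e K)).isDec (Wc hJ.homog (ak κ n e K)).isSt_Fi hfin hsum r μ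
  have h2 : (Xc J (ak κ n e K)).cln ((Wc hJ.homog (ak κ n e K)).Wt μ) r = ⊥ := HW_eq_bot hJ hr hμ
  rw [h2, finrank_bot] at h1
  have h3 : (Xc J (ak κ n e K)).hnw (Wc hJ.homog (ak κ n e K)).Wt a r μ = 0 :=
    Finset.sum_eq_zero_iff.1 h1.symm a (Finset.mem_range.2 (by omega))
  have h4 := finite_weight (Wc hJ.homog (ak κ n e K)).isDec ((Wc hJ.homog (ak κ n e K)).isSt_Fi (a + 1))
    ((Wc hJ.homog (ak κ n e K)).isSt_Fi a) μ r (hfin a r)
  have h5 := Module.finrank_zero_iff.1 h3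
  have hcW : c ∈ (Wc hJ.homog (ak κ n e K)).Wt μ := hw
  have hDt : (Xc J (ak κ n e K)).Dt c = (Xc J (ak κ n e K)).dc c := by
    rw [CovD.Dt_eq, hd, add_zero]
  have hZ : c ∈ ZZ (Xc J (ak κ n e K)).Dt (Sw (Wc hJ.homog (ak κ n e K)).Wt ((Xc J (ak κ n e K)).Fi (a + 1)) μ)
      (Sw (Wc hJ.homog (ak κ n e K)).Wt ((Xc J (ak κ n e K)).Fi a) μ) r := by
    refine ⟨⟨CovD.Gr_le_Fi a r hc, hcW⟩, ?_, (Wc hJ.homog (ak κ n e K)).Dt_mem_Wt hcW⟩
    show (Xc J (ak κ n e K)).Dt c ∈ (Xc J (ak κ n e K)).Fi (a + 1) (r + 1)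
    rw [hDt]
    exact CovD.dc_Gr_mem hc
  have hB : c ∈ BB (Xc J (ak κ n e K)).Dt (Sw (Wc hJ.homog (ak κ n e K)).Wt ((Xc J (ak κ n e K)).Fi (a + 1)) μ)
      (Sw (Wc hJ.homog (ak κ n e K)).Wt ((Xc J (ak κ n e K)).Fi a) μ) r := by
    have h6 : (Submodule.Quotient.mk ⟨c, hZ⟩ : HH (Xc J (ak κ n e K)).Dt
        (Sw (Wc hJ.homog (ak κ n e K)).Wt ((Xc J (ak κ n e K)).Fi (a + 1)) μ)
        (Sw (Wc hJ.homog (ak κ n e K)).Wt ((Xc J (ak κ n e K)).Fi a) μ) r) = 0 := Subsingleton.elim _ _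
    rw [Submodule.Quotient.mk_eq_zero] at h6
    exact h6
  obtain ⟨s, hs, y, hy, hsy⟩ := mem_BB.1 hB
  cases r with
  | zero =>
    refine hz ?_
    have h6 : y = 0 := (Submodule.mem_bot K).1 hy
    rw [h6, map_zero, add_zero] at hsy
    rw [← CovD.pG_self hc, hsy]
    exact CovD.pG_zero hs.1
  | succ l =>
    have hyF : y ∈ (Xc J (ak κ n e K)).Fi a l := hy.1
    have hyW : (Wc hJ.homog (ak κ n e K)).P μ y = y := hy.2
    refine ⟨(Xc J (ak κ n e K)).pG a l y, fun l' hl' => ?_, fun h => absurd h (Nat.succ_ne_zero l), ?_, ?_⟩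
    · obtain rfl : l' = l := by omega
      exact CovD.pG_mem hyF
    · rw [NWt_pG, hyW]
    · rw [← CovD.pG_Dt hyF]
      have h6 : (Xc J (ak κ n e K)).Dt y = c - s := by
        rw [hsy, add_sub_cancel_left]
      rw [h6, map_sub, CovD.pG_zero hs.1, sub_zero, CovD.pG_self hc]

end

end MPadcHS
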