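import Pool.Agent.Lib.MP_adc574_ag_HS.NRs
import Pool.Agent.Lib.MP_adc574_ag_HS.NSys
import Pool.Agent.Lib.MP_adc574_ag_HS.NWt
import Pool.Agent.Lib.MP_adc574_ag_HS.NCvM
import Pool.Agent.Lib.MP_adc574_ag_DC.W1E
import Pool.Agent.Lib.MP_adc574_ag_DC.GV0

/-!
# JOB NCovA (HS): from the `n + 1` charts of the cyclic cover to the `n` charts without `z`

`nT Q a`: the forms of degree `a` on the charts `cm C`, `C : Finset (Fin n)` (`cm C = C.map Fin.castSuccEmb`), of `Proj Q`, `Q` in `n + 1` variables.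

* `cov_acy`: `X := Xc J (ak κ n e K) = prC Q`, `W := Wc hJ.homog (ak ..)`, `z = Fin.last n`. Let `c` be a cocycle on the sets with `b + 1` elements, of weight `μ`. Let `c₁ : X.Ch` be `c₁ K' = c C` for `K' = cs C` and `0` for `z ∈ K'` (`W1_ext` (DC/W1B) or by hand: `exists_cs` (GCyc), `if z ∈ K' then 0 else ..`; `C ↦ cs C` is injective).
  `c₁ ∈ X.Gr a (a + b)` (`mem_Gr'`). `X.del c₁` vanishes at the sets without `z` (`sg (castSucc j) (cm C) = sg j C`: `W1_sg`), is supported on sets with `b + 2` elements, `del (del c₁) = 0` (`CovD.del_del`). `W1_exact (W1aff hJ.homog hF)` (W1A, W1E; `F = frm (ak ..)`, `frm_hom`/`isHomogeneous_frm`; the ideal of `Xc` is `cyc (bI ..) (frm ..) e`) for `X.del c₁` (`r = b + 1`):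
  `b₁` supported on the sets containing `z` with `b + 1` elements, `del b₁ = del c₁`. `c₂ := W.P μ (c₁ - b₁)`: `∈ Gr a (a + b)` (`W.P` preserves it: `wp_mem`), `del c₂ = 0` (`W.P` commutes with `del`: see GrB, `P_del` or from `GrX.wp_rs`), so `Dq c₂ = 0` (`ic` is `(-1)^a` on `Gr a`, `inv_mem`), weight `μ`, and `c₂ (cm C) = c C`.
  `wt_acy hJ hμ` with `r = a + b ≠ m`: `c₂ = Dq c₃`, `c₃ ∈ Gr a l`, `l + 1 = a + b`. If `a + b = 0`: `c₂ = 0`, `c = 0`, `c' = 0`. If `b = 0` and `a > 0`: `c₃ ∈ Gr a (a - 1)` is `0` (`Gr_gt`), so `c = 0`. Else put `c' C := (-1) ^ a * c₃ (cm C)` (sets with `b` elements): `del c' = c` (compute `Dq c₃ (cm C)`: `Dq_app`, the sum over `cm C` is a sum over `C`, `Finset.sum_map`, `(cm C).erase (castSucc j) = cs (C.erase j)`).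
-/

set_option autoImplicit false
set_option linter.unusedSectionVars false

namespace MPadcHS

open MvPolynomial MPadcGP MPadcDC

universe u v w

section

variable {A : Type u} [CommRing A] {n : ℕ} (Q : Ideal (MvPolynomial (Fin (n + 1)) A))


/-- The restriction of the forms of degree `a` on the charts `cm C`. -/
noncomputable def rN (a : ℕ) {J K : Finset (Fin n)} (h : J ⊆ K) :
    ↥(Fd A (chart Q (cm J)) a) →+ ↥(Fd A (chart Q (cm K)) a) where
  toFun x := ⟨rsc Q (cm_mono h) (x : Fm A (chart Q (cm J))), rsc_mem _ x.2⟩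
  map_zero' := Subtype.ext (map_zero (rsc Q (cm_mono h)))
  map_add' x y := Subtype.ext (map_add (rsc Q (cm_mono h)) (x : Fm A (chart Q (cm J))) y)

/-- The system of the forms of degree `a` on the charts without `z`. -/
noncomputable def nT (a : ℕ) : TS.{u} n where
  E J := ↥(Fd A (chart Q (cm J)) a)
  r h := rN Q a h
  r_r h h' _ x := Subtype.ext (rsc_rsc (cm_mono h) (cm_mono h') _)

end

section

variable {κ : Type u} [Field κ] [CharZero κ] {n : ℕ} {J : Ideal (MvPolynomial (Fin n) κ)} {K : Type u} [Field K]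
  [Algebra κ K] {e : ℕ} [NeZero e] [Algebra (Ra κ n e) K] [IsScalarTower κ (Ra κ n e) K] [IsFractionRing (Ra κ n e) K]

variable (J K e) in
/-- The ideal of the generic cyclic cover over `K`. -/
noncomputable abbrev Qc : Ideal (MvPolynomial (Fin (n + 1)) K) := cyc (bI (algebraMap κ K) J) (frm (ak κ n e K)) e

variable (K e) in
/-- Its grading on the charts. -/
noncomputable abbrev gQ (hJ : IsHomog J) (C : Finset (Fin n)) : Grd K (chart (Qc J K e) (cm C)) (ZMod e) :=
  grC (isHomog_cyc (hJ.map (algebraMap κ K)) (frm_hom (ak κ n e K)))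
    (isWHomog_cyc (hJ.map (algebraMap κ K)) (frm_hom (ak κ n e K))) (cm C)

private theorem NCovA_coe_sum {B : Type u} [CommRing B] [Algebra K B] {a : ℕ} {ι : Type*} (s : Finset ι)
    (f : ι → ↥(Fd K B a)) : ((∑ i ∈ s, f i : ↥(Fd K B a)) : Fm K B) = ∑ i ∈ s, (f i : Fm K B) := by
  classical
  induction s using Finset.induction_on with
  | empty => rfl
  | insert i s hi ih => rw [Finset.sum_insert hi, Finset.sum_insert hi, ← ih]; rfl

private theorem NCovA_del {Q : Ideal (MvPolynomial (Fin (n + 1)) K)} {a : ℕ}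
    (d : ∀ C : Finset (Fin n), ↥(Fd K (chart Q (cm C)) a)) (C : Finset (Fin n)) :
    Subtype.val (α := Fm K (chart Q (cm C))) (p := fun x => x ∈ Fd K (chart Q (cm C)) a) ((nT Q a).del d C) =
      ∑ j ∈ C, sg j C • (prC Q).rs (cm_mono (Finset.erase_subset j C))
        (d (C.erase j) : Fm K (chart Q (cm (C.erase j)))) :=
  NCovA_coe_sum C fun j => sg j C • rN Q a (Finset.erase_subset j C) (d (C.erase j))

private theorem NCovA_main {Q : Ideal (MvPolynomial (Fin (n + 1)) K)} (W : GrX (prC Q) (ZMod e))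
    (hA : W1Aff (prC Q) (Fin.last n)) {μ : ZMod e} {a b : ℕ}
    (hwt : ∀ c ∈ (prC Q).Gr a (a + b), W.P μ c = c → (prC Q).Dq c = 0 →
      ∃ c' : (prC Q).Ch, (∀ l, l + 1 = a + b → c' ∈ (prC Q).Gr a l) ∧ (a + b = 0 → c' = 0) ∧
      W.P μ c' = c' ∧ (prC Q).Dq c' = c)
    (c : ∀ C : Finset (Fin n), ↥(Fd K (chart Q (cm C)) a)) (hc : (nT Q a).Cd (b + 1) c)
    (hd : (nT Q a).del c = 0)
    (hw : ∀ C : Finset (Fin n), wp (W.G (cm C)) μ (c C : Fm K (chart Q (cm C))) =
      (c C : Fm K (chart Q (cm C)))) :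
    ∃ c' : ∀ C : Finset (Fin n), ↥(Fd K (chart Q (cm C)) a), (nT Q a).Cd b c' ∧
      (∀ C : Finset (Fin n), wp (W.G (cm C)) μ (c' C : Fm K (chart Q (cm C))) =
        (c' C : Fm K (chart Q (cm C)))) ∧
      (nT Q a).del c' = c := by
  have hd' : ∀ C : Finset (Fin n), ∑ j ∈ C, sg j C • (prC Q).rs (cm_mono (Finset.erase_subset j C))
      (c (C.erase j) : Fm K (chart Q (cm (C.erase j)))) = 0 := fun C =>
    (NCovA_del c C).symm.trans (congrArg (Subtype.val (α := Fm K (chart Q (cm C)))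
      (p := fun x => x ∈ Fd K (chart Q (cm C)) a)) (congrFun hd C))
  have h0 : (c ∅ : Fm K (chart Q (cm ∅))) = 0 := congrArg Subtype.val hc.1
  have hk : ∀ C : Finset (Fin n), C.card ≠ b + 1 → (c C : Fm K (chart Q (cm C))) = 0 := fun C hC =>
    congrArg Subtype.val (hc.2 C hC)
  obtain ⟨c', h1, h2, h3, h4, h5⟩ := NCvM_main (X := prC Q) W hA hwt
    (fun C => (c C : Fm K (chart Q (cm C)))) (fun C => (c C).2) h0 hk hd' hw
  have h6 : (nT Q a).del (fun C => ⟨c' C, h1 C⟩) = c := by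
    funext C
    refine Subtype.ext ((NCovA_del (Q := Q) (a := a) (fun C => ⟨c' C, h1 C⟩) C).trans (h5 C))
  exact ⟨fun C => ⟨c' C, h1 C⟩, ⟨Subtype.ext h2, fun C hC => Subtype.ext (h3 C hC)⟩, h4, h6⟩

theorem cov_acy {m : ℕ} (hJ : Good J m) {μ : ZMod e} (hμ : μ ≠ 0) {a b : ℕ} (hab : a + b ≠ m)
    (c : ∀ C : Finset (Fin n), ↥(Fd K (chart (Qc J K e) (cm C)) a)) (hc : (nT (Qc J K e) a).Cd (b + 1) c)
    (hd : (nT (Qc J K e) a).del c = 0)
    (hw : ∀ C : Finset (Fin n), wp (gQ K e hJ.homog C) μ (c C : Fm K (chart (Qc J K e) (cm C))) = c C) :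
    ∃ c' : ∀ C : Finset (Fin n), ↥(Fd K (chart (Qc J K e) (cm C)) a), (nT (Qc J K e) a).Cd b c' ∧
      (∀ C : Finset (Fin n), wp (gQ K e hJ.homog C) μ (c' C : Fm K (chart (Qc J K e) (cm C))) = c' C) ∧
      (nT (Qc J K e) a).del c' = c := by
  exact NCovA_main (Q := Qc J K e) (Wc hJ.homog (ak κ n e K))
    (W1aff (hJ.homog.map (algebraMap κ K)) (frm_hom (ak κ n e K)))
    (fun c hc hP hD => wt_acy hJ hμ hab hc hP hD) c hc hd hw

end

end MPadcHS
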