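import Pool.Agent.Lib.MP_adc574_ag_HS.NKer
import Pool.Agent.Lib.MP_adc574_ag_HS.NSysA

/-!
# JOB NSeqA (HS): the sequence (I)  `0 → K(a,t) → Ω_Y^a(t) → Ω_X^a(t) → 0`

Build the `SES` (NSys.lean) with `M' = kT hle t a`, `M = cT I t a`, `M'' = cT I' t a`: `i J x = ⟨x, x.2.1⟩`, `p J x = ⟨rsx hle J x, rsx_mem ..⟩`. `p_r`: `rT_coe`, `map_mul`, `rsx_fz`, `tau_rsH`, `rsx_rsc`. `surj`: `fsurj`. `ex`: `mem_kF`. Then `SES.left`, `SES.mid` (NSysA.lean).
-/

set_option autoImplicit false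
set_option linter.unusedSectionVars false

namespace MPadcHS

open MvPolynomial MPadcGP MPadcDC

universe u v w

section

variable {A : Type u} [CommRing A] {n : ℕ} {I I' : Ideal (MvPolynomial (Fin n) A)} (hle : I ≤ I') (t : ℤ) (a b : ℕ)

private theorem nsA_g {R S : Type u} [CommRing R] [Algebra A R] [CommRing S] [Algebra A S] (ρ : Fm A R →+* Fm A S)
    {s : R} {s' : S} (h1 : ρ (fz A s) = fz A s') {x : Fm A R} {y : Fm A S} (h2 : ρ x = y) :
    ρ (fz A s * x) = fz A s' * y := by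
  rw [map_mul, h1, h2]

private theorem nsA_rr {J K : Finset (Fin n)} (h : J ⊆ K) (x : Fm A (chart I J)) :
    rsx hle K (fz A (tau I t h) * rsc I h x) = fz A (tau I' t h) * rsc I' h (rsx hle J x) :=
  nsA_g (rsx hle K) ((rsx_fz K _).trans (congrArg (fun z => fz A z) (tau_rsH hle t h))) (rsx_rsc h x)

private theorem nsA_sj (J : Finset (Fin n)) (y : ↥(Fd A (chart I' J) a)) :
    ∃ x : ↥(Fd A (chart I J) a), rsx hle J x.1 = y.1 := by
  obtain ⟨x, hx', hxy⟩ := fsurj hle y.2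
  exact ⟨⟨x, hx'⟩, hxy⟩

/-- The sequence (I). -/
private noncomputable def nsA_ses : SES (kT hle t a) (cT I t a) (cT I' t a) where
  i J :=
    { toFun := fun x => (⟨x.1, x.2.1⟩ : ↥(Fd A (chart I J) a))
      map_zero' := rfl
      map_add' := fun _ _ => rfl }
  p J :=
    { toFun := fun x => (⟨rsx hle J x.1, rsx_mem J x.2⟩ : ↥(Fd A (chart I' J) a))
      map_zero' := Subtype.ext (map_zero (rsx hle J))
      map_add' := fun _ _ => Subtype.ext (map_add (rsx hle J) _ _) }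
  i_r := fun _ _ _ => rfl
  p_r := fun h _ x => Subtype.ext (nsA_rr hle t h x.1)
  inj := fun J _ x y h => Subtype.ext (congrArg (fun z : ↥(Fd A (chart I J) a) => z.1) h)
  surj := fun J _ y => (nsA_sj hle a J y).imp fun _ h => Subtype.ext h
  ex := fun J _ x => ⟨fun h => ⟨⟨x.1, x.2, congrArg (fun z : ↥(Fd A (chart I' J) a) => z.1) h⟩, rfl⟩, by
    rintro ⟨y, rfl⟩
    exact Subtype.ext y.2.2⟩

theorem acy_I_left (h1 : (cT I t a).Acy b) (h2 : ∀ b', b = b' + 1 → (cT I' t a).Acy b') : (kT hle t a).Acy b := by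
  exact (nsA_ses hle t a).left h1 h2

theorem acy_I_mid (h1 : (kT hle t a).Acy b) (h2 : (cT I' t a).Acy b) : (cT I t a).Acy b := by
  exact (nsA_ses hle t a).mid h1 h2

end

end MPadcHS
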