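import Pool.Agent.Lib.MP_adc574_ag_HS.NSys
import Pool.Agent.Lib.MP_adc574_ag_HS.NRs
import Pool.Agent.Lib.MP_adc574_ag_DC.GV0

/-!
# JOB NTw (HS): twisted systems of forms

`tau I t h = (x_(min J) / x_(min K)) ^ t` on `U_K`, `h : J ⊆ K`, `J ≠ ∅`. `cT I t a`: the forms of degree `a` with the restriction maps `ω ↦ tau * ω|`
(that is `Ω^a(t)`, `ω` stands for the section `x_(min J) ^ t ω`). `fC I F J = F / x_(min J) ^ e`. `kF hle a J`: the forms of degree `a` on `Y`
whose restriction to `X` is `0`, `kT hle t a` the twisted system.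

* `tau_*`: unfold, `dif_pos`; `Units` computations (`zpow_add`, `Units.map`): `tr I h'` maps the unit `cq I K (min J) _` to `cq I L (min J) _` (`tr_cq`), and `cq I L (min J) * cq I L (min K) (min L) = ..`: `cq_mul`: `x_(min J) / x_(min K) * x_(min K) / x_(min L) = x_(min J) / x_(min L)`.
  (`map_zpow` for `Units.map`: write `tr I h' (↑(u ^ t)) = ↑((Units.map (tr I h' : _ →* _) u) ^ t)`.)
* `tau_rsH`: `cmap_cq`, units again. `tau_fC`: for `t = e` (`zpow_natCast`): `fC K = F / x_(min K) ^ e`: multiply by the unit `lx (min K) ^ e` in `LR I K` (`dh_mul`, `gV0_tr`, `cq_mul_lx`).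
* the membership lemmas: `fz_mul_mem`, `rsc_mem`, `rsx_rsc`, `rsx_fz`, `map_mul` (NRs.lean).
-/

set_option autoImplicit false
set_option linter.unusedSectionVars false

namespace MPadcHS

open MvPolynomial MPadcGP MPadcDC

universe u v w

private theorem NTw_map {R : Type u} {S : Type v} [CommRing R] [CommRing S] (f : R →+* S) (a : Rˣ) (b : Sˣ)
    (h : f a = b) (t : ℤ) : f ((a ^ t : Rˣ) : R) = ((b ^ t : Sˣ) : S) := by
  have h1 : Units.map (f : R →* S) a = b := Units.ext h
  rw [← h1, ← map_zpow]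
  rfl

private theorem NTw_ring {R : Type u} [CommRing R] (a b c : R) (e : ℕ) : a ^ e * b * c ^ e = b * (a * c) ^ e := by
  rw [mul_pow, mul_comm (a ^ e) b, mul_assoc]

private theorem NTw_z {R S : Type*} [Ring R] [Ring S] (f : R →+* S) (a : S) : a * f 0 = 0 := by rw [map_zero, mul_zero]

private theorem NTw_a {R S : Type*} [Ring R] [Ring S] (f : R →+* S) (a : S) (x y : R) :
    a * f (x + y) = a * f x + a * f y := by rw [map_add, mul_add]

private theorem NTw_ka {R S : Type*} [Ring R] [Ring S] (f : R →+* S) {x y : R} (hx : f x = 0) (hy : f y = 0) :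
    f (x + y) = 0 := by rw [map_add, hx, hy, add_zero]

private theorem NTw_kn {R S : Type*} [Ring R] [Ring S] (f : R →+* S) {x : R} (hx : f x = 0) : f (-x) = 0 := by
  rw [map_neg, hx, neg_zero]

private theorem NTw_km {R S : Type*} [Ring R] [Ring S] (f : R →+* S) (a : R) {x : R} (hx : f x = 0) :
    f (a * x) = 0 := by
  rw [map_mul, hx, mul_zero]

private theorem NTw_k0 {R S : Type*} [Ring R] [Ring S] (f : R →+* S) {x : R} (hx : x = 0) : f x = 0 := by
  rw [hx, map_zero]

private theorem NTw_as {R : Type*} [Ring R] {a b c d u : R} (h1 : u = b * c) (h2 : a * b = d) : a * u = d * c := by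
  rw [h1, ← mul_assoc, h2]

section tau

variable {A : Type u} [CommRing A] {n : ℕ} (I : Ideal (MvPolynomial (Fin n) A))

/-- The unit `x_(min J) / x_(min K)` on `U_K`. -/
noncomputable def tauU {J K : Finset (Fin n)} (h : J ⊆ K) (hJ : J.Nonempty) : (chart I K)ˣ :=
  (cq_isUnit I K (h (J.min'_mem hJ)) (K.min'_mem (hJ.mono h))).unit

theorem tauU_coe {J K : Finset (Fin n)} (h : J ⊆ K) (hJ : J.Nonempty) :
    (tauU I h hJ : chart I K) = cq I K (J.min' hJ) (K.min'_mem (hJ.mono h)) := rfl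

/-- The factor of the twist `t`. -/
noncomputable def tau (t : ℤ) {J K : Finset (Fin n)} (h : J ⊆ K) : chart I K :=
  if hJ : J.Nonempty then ((tauU I h hJ ^ t : (chart I K)ˣ) : chart I K) else 1

/-- `F / x_(min J) ^ e`. -/
noncomputable def fC (F : MvPolynomial (Fin n) A) (J : Finset (Fin n)) : chart I J :=
  if hJ : J.Nonempty then dh I J (J.min'_mem hJ) F else 1

variable {I}

theorem fC_of {F : MvPolynomial (Fin n) A} {J : Finset (Fin n)} (hJ : J.Nonempty) :
    fC I F J = dh I J (J.min'_mem hJ) F := dif_pos hJ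

theorem NTw_of (t : ℤ) {J K : Finset (Fin n)} (h : J ⊆ K) (hJ : J.Nonempty) :
    tau I t h = ((tauU I h hJ ^ t : (chart I K)ˣ) : chart I K) := dif_pos hJ

theorem tau_zero {J K : Finset (Fin n)} (h : J ⊆ K) : tau I 0 h = 1 := by
  unfold tau
  split_ifs with hJ
  · rw [zpow_zero, Units.val_one]
  · rfl

theorem tau_isUnit (t : ℤ) {J K : Finset (Fin n)} (h : J ⊆ K) : IsUnit (tau I t h) := by
  unfold tau
  split_ifs with hJ
  · exact Units.isUnit _
  · exact isUnit_one

theorem tau_add (s t : ℤ) {J K : Finset (Fin n)} (h : J ⊆ K) : tau I (s + t) h = tau I s h * tau I t h := by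
  unfold tau
  split_ifs with hJ
  · rw [zpow_add, Units.val_mul]
  · rw [mul_one]

theorem tau_one {J K : Finset (Fin n)} (h : J ⊆ K) (hJ : J.Nonempty) :
    tau I 1 h = cq I K (J.min' hJ) (K.min'_mem (hJ.mono h)) := by
  rw [NTw_of 1 h hJ, zpow_one, tauU_coe]

theorem tau_tau (t : ℤ) {J K L : Finset (Fin n)} (h : J ⊆ K) (h' : K ⊆ L) (hJ : J.Nonempty) :
    tau I t h' * tr I h' (tau I t h) = tau I t (h.trans h') := by
  have hK : K.Nonempty := hJ.mono h
  have h1 : ((tr I h' : chart I K →ₐ[A] chart I L) : chart I K →+* chart I L) (tauU I h hJ : chart I K) =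
      (((cq_isUnit I L (h' (h (J.min'_mem hJ))) (h' (K.min'_mem hK))).unit : (chart I L)ˣ) : chart I L) :=
    tr_cq I h' _ (K.min'_mem hK)
  have h2 := NTw_map ((tr I h' : chart I K →ₐ[A] chart I L) : chart I K →+* chart I L) _ _ h1 t
  have h3 : tr I h' (tau I t h) =
      (((cq_isUnit I L (h' (h (J.min'_mem hJ))) (h' (K.min'_mem hK))).unit ^ t : (chart I L)ˣ) : chart I L) := by
    rw [NTw_of t h hJ]
    exact h2
  rw [h3, NTw_of t h' hK, NTw_of t (h.trans h') hJ, ← Units.val_mul, ← mul_zpow]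
  have h4 : tauU I h' hK * (cq_isUnit I L (h' (h (J.min'_mem hJ))) (h' (K.min'_mem hK))).unit =
      tauU I (h.trans h') hJ := by
    apply Units.ext
    rw [Units.val_mul, tauU_coe, tauU_coe, IsUnit.unit_spec, mul_comm]
    exact cq_mul I L _ _
  rw [h4]

theorem tau_rsH {I' : Ideal (MvPolynomial (Fin n) A)} (hle : I ≤ I') (t : ℤ) {J K : Finset (Fin n)} (h : J ⊆ K) :
    hx hle K (tau I t h) = tau I' t h := by
  by_cases hJ : J.Nonempty
  · rw [NTw_of t h hJ, NTw_of t h hJ]
    refine NTw_map (hx hle K) _ _ ?_ t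
    rw [tauU_coe, tauU_coe, hx_cq]
  · unfold tau
    rw [dif_neg hJ, dif_neg hJ, map_one]

theorem tau_cb {B : Type v} [CommRing B] (φ : A →+* B) (t : ℤ) {J K : Finset (Fin n)} (h : J ⊆ K) :
    cb φ I K (tau I t h) = tau (bI φ I) t h := by
  by_cases hJ : J.Nonempty
  · rw [NTw_of t h hJ, NTw_of t h hJ]
    refine NTw_map (cb φ I K) _ _ ?_ t
    rw [tauU_coe, tauU_coe, cb_cq]
  · unfold tau
    rw [dif_neg hJ, dif_neg hJ, map_one]

theorem tau_fC {F : MvPolynomial (Fin n) A} {e : ℕ} (hF : F.IsHomogeneous e) {J K : Finset (Fin n)} (h : J ⊆ K)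
    (hJ : J.Nonempty) : tau I (e : ℤ) h * tr I h (fC I F J) = fC I F K := by
  have hK : K.Nonempty := hJ.mono h
  rw [NTw_of (e : ℤ) h hJ, zpow_natCast, Units.val_pow_eq_pow_val, tauU_coe, fC_of hJ, fC_of hK, gV0_tr]
  apply Subtype.ext
  apply ((lx_isUnit I K (K.min'_mem hK)).pow e).mul_right_cancel
  have h1 := dh_mul I K (K.min'_mem hK) hF
  have h2 := dh_mul I K (h (J.min'_mem hJ)) hF
  have h3 := cq_mul_lx I K (J.min' hJ) (K.min'_mem hK)
  refine Eq.trans ?_ h1.symm
  rw [← h2, ← h3]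
  exact NTw_ring _ _ _ _

theorem fC_rsH {I' : Ideal (MvPolynomial (Fin n) A)} (hle : I ≤ I') (F : MvPolynomial (Fin n) A)
    (J : Finset (Fin n)) : hx hle J (fC I F J) = fC I' F J := by
  by_cases hJ : J.Nonempty
  · rw [fC_of hJ, fC_of hJ]
    have h1 : (hx hle J).comp ((aeval (fun l => cq I J l (J.min'_mem hJ)) :
        MvPolynomial (Fin n) A →ₐ[A] chart I J) : MvPolynomial (Fin n) A →+* chart I J) =
        ((aeval (fun l => cq I' J l (J.min'_mem hJ)) : MvPolynomial (Fin n) A →ₐ[A] chart I' J) :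
          MvPolynomial (Fin n) A →+* chart I' J) := by
      refine MvPolynomial.ringHom_ext (fun a => ?_) fun l => ?_
      · rw [RingHom.comp_apply]
        change hx hle J (aeval (fun l => cq I J l (J.min'_mem hJ)) (C a)) =
          aeval (fun l => cq I' J l (J.min'_mem hJ)) (C a)
        rw [aeval_C, aeval_C, hx_base]
      · rw [RingHom.comp_apply]
        change hx hle J (aeval (fun l => cq I J l (J.min'_mem hJ)) (X l)) =
          aeval (fun l => cq I' J l (J.min'_mem hJ)) (X l)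
        rw [aeval_X, aeval_X, hx_cq]
    exact RingHom.congr_fun h1 F
  · unfold fC
    rw [dif_neg hJ, dif_neg hJ, map_one]

private theorem NTw_val (t : ℤ) {J K L : Finset (Fin n)} (h : J ⊆ K) (h' : K ⊆ L) (hJ : J.Nonempty)
    (x : Fm A (chart I J)) : fz A (tau I t h') * rsc I h' (fz A (tau I t h) * rsc I h x) =
      fz A (tau I t (h.trans h')) * rsc I (h.trans h') x := by
  have h1 : rsc I h' (fz A (tau I t h) * rsc I h x) = fz A (tr I h' (tau I t h)) * rsc I (h.trans h') x :=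
    ((rsc I h').map_mul _ _).trans (congrArg₂ (fun p q => p * q) (rsc_fz h' _) (rsc_rsc h h' x))
  have h2 : fz A (tau I t h') * fz A (tr I h' (tau I t h)) = fz A (tau I t (h.trans h')) :=
    ((fz A).map_mul _ _).symm.trans (congrArg (fz A) (tau_tau t h h' hJ))
  exact @NTw_as (Fm A (chart I L)) _ _ _ _ _ _ h1 h2

variable (I)

/-- The twisted restriction of forms of degree `a`. -/
noncomputable def rT (t : ℤ) (a : ℕ) {J K : Finset (Fin n)} (h : J ⊆ K) :
    ↥(Fd A (chart I J) a) →+ ↥(Fd A (chart I K) a) where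
  toFun x := ⟨fz A (tau I t h) * rsc I h (x : Fm A (chart I J)), fz_mul_mem _ (rsc_mem h x.2)⟩
  map_zero' := Subtype.ext (@NTw_z (Fm A (chart I J)) (Fm A (chart I K)) _ _ (rsc I h)
    (fz A (tau I t h)))
  map_add' x y := Subtype.ext (@NTw_a (Fm A (chart I J)) (Fm A (chart I K)) _ _ (rsc I h) (fz A (tau I t h))
    (x : Fm A (chart I J)) (y : Fm A (chart I J)))

private theorem NTw_rT (t : ℤ) (a : ℕ) {J K L : Finset (Fin n)} (h : J ⊆ K) (h' : K ⊆ L) (hJ : J.Nonempty)
    (x : ↥(Fd A (chart I J) a)) : rT I t a h' (rT I t a h x) = rT I t a (h.trans h') x := by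
  apply Subtype.ext
  exact NTw_val t h h' hJ (x : Fm A (chart I J))

/-- The system `Ω^a(t)`. -/
noncomputable def cT (t : ℤ) (a : ℕ) : TS.{u} n where
  E J := ↥(Fd A (chart I J) a)
  r h := rT I t a h
  r_r h h' hJ x := NTw_rT I t a h h' hJ x

end tau

section ker

variable {A : Type u} [CommRing A] {n : ℕ} {I I' : Ideal (MvPolynomial (Fin n) A)} (hle : I ≤ I')

/-- The forms of degree `a` which vanish on `X`. -/
noncomputable def kF (a : ℕ) (J : Finset (Fin n)) : AddSubgroup (Fm A (chart I J)) where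
  carrier := {x | x ∈ Fd A (chart I J) a ∧ rsx hle J x = 0}
  zero_mem' := ⟨Submodule.zero_mem _, map_zero _⟩
  add_mem' := fun hx hy => ⟨Submodule.add_mem _ hx.1 hy.1, @NTw_ka (Fm A (chart I J)) (Fm A (chart I' J)) _ _ (rsx hle J) _ _ hx.2 hy.2⟩
  neg_mem' := fun hx => ⟨Submodule.neg_mem _ hx.1, @NTw_kn (Fm A (chart I J)) (Fm A (chart I' J)) _ _ (rsx hle J) _ hx.2⟩

variable {hle}

theorem mem_kF {a : ℕ} {J : Finset (Fin n)} {x : Fm A (chart I J)} :
    x ∈ kF hle a J ↔ x ∈ Fd A (chart I J) a ∧ rsx hle J x = 0 := Iff.rfl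

theorem kF_rT (t : ℤ) (a : ℕ) {J K : Finset (Fin n)} (h : J ⊆ K) {x : Fm A (chart I J)} (hx : x ∈ kF hle a J) :
    fz A (tau I t h) * rsc I h x ∈ kF hle a K := by
  exact ⟨fz_mul_mem _ (rsc_mem h hx.1),
    @NTw_km (Fm A (chart I K)) (Fm A (chart I' K)) _ _ (rsx hle K) _ _ ((rsx_rsc h x).trans
      (@NTw_k0 (Fm A (chart I' J)) (Fm A (chart I' K)) _ _ (rsc I' h) _ hx.2))⟩

variable (hle)

/-- The twisted restriction of the forms which vanish on `X`. -/
noncomputable def rK (t : ℤ) (a : ℕ) {J K : Finset (Fin n)} (h : J ⊆ K) : ↥(kF hle a J) →+ ↥(kF hle a K) where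
  toFun x := ⟨fz A (tau I t h) * rsc I h (x : Fm A (chart I J)), kF_rT t a h x.2⟩
  map_zero' := Subtype.ext (@NTw_z (Fm A (chart I J)) (Fm A (chart I K)) _ _ (rsc I h)
    (fz A (tau I t h)))
  map_add' x y := Subtype.ext (@NTw_a (Fm A (chart I J)) (Fm A (chart I K)) _ _ (rsc I h) (fz A (tau I t h))
    (x : Fm A (chart I J)) (y : Fm A (chart I J)))

private theorem NTw_rK (t : ℤ) (a : ℕ) {J K L : Finset (Fin n)} (h : J ⊆ K) (h' : K ⊆ L) (hJ : J.Nonempty)
    (x : ↥(kF hle a J)) : rK hle t a h' (rK hle t a h x) = rK hle t a (h.trans h') x := by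
  apply Subtype.ext
  exact NTw_val t h h' hJ (x : Fm A (chart I J))

/-- The twisted system of the forms which vanish on `X`. -/
noncomputable def kT (t : ℤ) (a : ℕ) : TS.{u} n where
  E J := ↥(kF hle a J)
  r h := rK hle t a h
  r_r h h' hJ x := NTw_rK hle t a h h' hJ x

end ker

end MPadcHS
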