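import Pool.Agent.Lib.MP_adc574_ag_HS.GyDefs
import Pool.Agent.Lib.MP_adc574_ag_GP.Deg
import Pool.Agent.Lib.MP_adc574_ag_GP.CarBr

/-!
# HS, strictness in characteristic `p`: definitions

`Dgn p b X`: the Hodge numbers are finite, the Hodge - de Rham spectral sequence degenerates, the charts satisfy the
Cartier isomorphism (with the `p`-basis `b` of `κ`).
-/

set_option autoImplicit false

namespace MPadcHS

open MvPolynomial MPadcGP MPadcDC Module

universe u v w

/-- Finiteness, degeneration, Cartier isomorphism. -/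
structure Dgn (p : ℕ) [Fact p.Prime] {κ : Type u} [Field κ] [CharP κ p] {Λ : Type} [Fintype Λ] (b : Λ → κ) {n : ℕ}
    (X : CovD.{u, v} κ n) : Prop where
  fin : ∀ a m, FiniteDimensional κ (HH X.Dt (X.Fi (a + 1)) (X.Fi a) m)
  sum : ∀ m, ∑ a ∈ Finset.range (m + 2), X.hn a m ≤ finrank κ (X.Hmz m)
  car : ∀ J : Finset (Fin n), J.Nonempty → CarP p b (X.R J)

end MPadcHS
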