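import Pool.Agent.Lib.MP_adc574_ag_DC.PDat
import Pool.Agent.Lib.MP_adc574_ag_GP.GlRel
import Pool.Agent.Lib.MP_adc574_ag_HS.StDefs

/-!
# JOB SpA (HS, Part P): the connection and the conjugate filtration in coordinates (without weights)

The unweighted versions of DC/PDat.lean, DC/PDatB.lean, DC/PDatC.lean (`IsAdW`, `crd` there; here `IsAd`, `eqv`).
* `exists_Gu`: `exists_lft hI hs D` (GP/Lifts.lean); the matrix by `IsAd.exists_coord` (GP/GlRel.lean) and `Lft.Gm_mem_Zc`.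
* `nab_coordU`: as `nab_coord` with `glgen_nab` (GP/GlGen.lean, `N = 1`, `α = 1`) and `exists_lft_map`.
* `nab_mk`: `V''` from `exists_lft_map` (as in `nab_coord`), `c := (hD.ad K φ).lc m x`, `c' := V''.Gm c` (`Lft.Gm_mem_Zc`): `gaussManin m D' (eqv x) (cl c')`, and `cl c' = eqv (..)` by `nab_coordU`.
* `con_stabU`: as `con_stab`.
* `dgn_of`: `fin`: `hD.hodge`; `sum`: `CovD.brd_sum` (GP/CarBr.lean) applied to `dat_sum` (GP/Fin.lean); `car`: `carP_of_smooth hbb` (see the proof of `conj_dim` in GP/CarFin.lean).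
-/

set_option autoImplicit false

namespace MPadcHS

open MvPolynomial MPadcGP MPadcDC

universe u v w

section

variable {A : Type u} [CommRing A] {n : ℕ} {I : Ideal (MvPolynomial (Fin n) A)} {β : ℕ → Type} [∀ m, Fintype (β m)]
  {lev : ∀ m, β m → ℕ} {z : ∀ m, β m → (prC I).Ch} {h : ℕ → ℕ → ℕ}

theorem exists_Gu (hI : IsHomog I) (hD : Dat I lev z h) (hs : IsSmoothProj I) (D : Derivation ℤ A A) :
    ∃ (V : Lft (prC I) D) (G : ∀ m, β m → β m → A), ∀ m b, V.Gm (z m b) - ∑ b', G m b' b • z m b' ∈ (prC I).Bc m := by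
  obtain ⟨V⟩ := exists_lft hI hs D
  have h1 : ∀ m b, ∃ g : β m → A, V.Gm (z m b) - ∑ b', g b' • z m b' ∈ (prC I).Bc m :=
    fun m b => hD.self.exists_coord m (V.Gm_mem_Zc (hD.self.mem_Zc m b))
  choose g hg using h1
  exact ⟨V, fun m b' b => g m b b', fun m b => hg m b⟩

theorem nab_coordU (hI : IsHomog I) (hD : Dat I lev z h) {D : Derivation ℤ A A} (V : Lft (prC I) D)
    {G : ∀ m, β m → β m → A} (hG : ∀ m b, V.Gm (z m b) - ∑ b', G m b' b • z m b' ∈ (prC I).Bc m) {K : Type u} [Field K]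
    (φ : A →+* K) (D' : Derivation ℤ K K) (hD' : ∀ x, D' (φ x) = φ (D x)) {m : ℕ} {x : β m → K}
    {y : (prC (bI φ I)).HdR m} (hy : (prC (bI φ I)).gaussManin m D' ((hD.ad K φ).eqv m x) y) :
    y = (hD.ad K φ).eqv m fun b' => D' (x b') + ∑ b, φ (G m b' b) * x b := by
  obtain ⟨V'', hV''⟩ := exists_lft_map hI φ (fun _ : Fin 1 => D) (fun _ => V) (fun _ => (1 : K)) D'
    (fun x => by rw [Fin.sum_univ_one, one_mul]; exact hD' x)
  have h1 := glgen_nab (hD.ad K φ) (fun _ : Fin 1 => V) (G := fun m _ b' b => G m b' b)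
    (fun m _ b => hG m b) (fun m b => (hD.self.mem m b).1) (fun _ => (1 : K)) V'' hV'' hy
  rw [h1]
  congr 1
  funext b'
  rw [Fin.sum_univ_one, one_mul]

theorem nab_mk (hI : IsHomog I) (hD : Dat I lev z h) {D : Derivation ℤ A A} (V : Lft (prC I) D)
    {G : ∀ m, β m → β m → A} (hG : ∀ m b, V.Gm (z m b) - ∑ b', G m b' b • z m b' ∈ (prC I).Bc m) {K : Type u} [Field K]
    (φ : A →+* K) (D' : Derivation ℤ K K) (hD' : ∀ x, D' (φ x) = φ (D x)) (m : ℕ) (x : β m → K) :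
    (prC (bI φ I)).gaussManin m D' ((hD.ad K φ).eqv m x)
      ((hD.ad K φ).eqv m fun b' => D' (x b') + ∑ b, φ (G m b' b) * x b) := by
  have had := hD.ad K φ
  obtain ⟨V'', hV''⟩ := exists_lft_map hI φ (fun _ : Fin 1 => D) (fun _ => V) (fun _ => (1 : K)) D'
    (fun x => by rw [Fin.sum_univ_one, one_mul]; exact hD' x)
  have h1 : (prC (bI φ I)).gaussManin m D' ((hD.ad K φ).eqv m x)
      ((prC (bI φ I)).cl m ⟨V''.Gm (had.lc m x), V''.Gm_mem_Zc (had.lc m x).2⟩) :=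
    ⟨V'', had.lc m x, _, rfl, (had.eqv_apply m x).symm, rfl⟩
  have h2 := nab_coordU hI hD V hG φ D' hD' h1
  rw [← h2]
  exact h1

theorem con_stabU (hI : IsHomog I) (hD : Dat I lev z h) {D : Derivation ℤ A A} (V : Lft (prC I) D)
    {G : ∀ m, β m → β m → A} (hG : ∀ m b, V.Gm (z m b) - ∑ b', G m b' b • z m b' ∈ (prC I).Bc m) {K : Type u} [Field K]
    (φ : A →+* K) (D' : Derivation ℤ K K) (hD' : ∀ x, D' (φ x) = φ (D x)) (m i : ℕ) {x : β m → K}
    (hx : x ∈ (hD.ad K φ).con m i) :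
    (fun b' => D' (x b') + ∑ b, φ (G m b' b) * x b) ∈ (hD.ad K φ).con m i := by
  have had := hD.ad K φ
  obtain ⟨V'', hV''⟩ := exists_lft_map hI φ (fun _ : Fin 1 => D) (fun _ => V) (fun _ => (1 : K)) D'
    (fun x => by rw [Fin.sum_univ_one, one_mul]; exact hD' x)
  obtain ⟨c, hc, hcx⟩ := CovD.mem_Con.1 hx
  have h1 : (prC (bI φ I)).gaussManin m D' ((hD.ad K φ).eqv m x)
      ((prC (bI φ I)).cl m ⟨V''.Gm c, V''.Gm_mem_Zc c.2⟩) := ⟨V'', c, _, rfl, hcx, rfl⟩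
  exact CovD.mem_Con.2 ⟨⟨V''.Gm c, V''.Gm_mem_Zc c.2⟩, V''.Gm_mem_Ni hc, nab_coordU hI hD V hG φ D' hD' h1⟩

theorem dgn_of [IsDomain A] [CharZero A] [Algebra.FiniteType ℤ A] (hI : IsHomog I) (hD : Dat I lev z h)
    (hs : IsSmoothProj I) {p : ℕ} [Fact p.Prime] {K : Type u} [Field K] [CharP K p] (φ : A →+* K) {Λ : Type} [Fintype Λ]
    {bb : Λ → K} (hbb : PBas p bb) : Dgn p bb (prC (bI φ I)) := by
  refine ⟨fun a m => (hD.hodge K φ a m).1, CovD.brd_sum (dat_sum hI hs hD φ), fun J hJ => ?_⟩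
  have : Algebra.Smooth K ((prC (bI φ I)).R J) := IsSmoothProj.smooth (hI.map φ) (hs.map hI φ) hJ
  exact carP_of_smooth hbb

end

end MPadcHS
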