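import Pool.Agent.Lib.MP_adc574_ag_HS.SpDefs
import Pool.Agent.Lib.MP_adc574_ag_HS.GyJ
import Pool.Agent.Lib.MP_adc574_ag_HS.GyI
import Pool.Agent.Lib.MP_adc574_ag_HS.GyD
import Pool.Agent.Lib.MP_adc574_ag_GP.Fin

/-!
# JOB SpB (HS, Part P): the matrices of the restriction and of the Gysin map

* `push_rsH`: componentwise; both sides are `mp` of ring homomorphisms `chart Q C → chart (bI φ P) C` which agree (`CovD.Hm.comp_push`, or `mp_comp`; the ring homomorphisms by `chart_hom_ext'` (GP/Mod.lean) on constants and `cq`; `C = ∅` is not covered by `chart_hom_ext'`: there use `lmap` / `cmap_comp` (GP/Mod2.lean), or restrict the statement: see `cmap_comp`, which holds for all `J`: `rsH` and `prH` are both given by `cmap`).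
* `GyR.push`: `CovD.Hm.push_mem_Tt`, `push_mem_Zc` (GP/GlGen.lean), `push_apply`, `e_rs`, `push_dl` with `dl_eq` (`dlg` of `bI φ Q`).
* `exists_Rv`: for `b : β m`: `(rsH hle).push (z m b) ∈ Zc` has coordinates `Rv b' b` (`IsAd.exists_coord` GP/GlRel.lean for `hDP.self`). Over `K`: `eqv m x = cl (∑ b, x b • push (z m b))` (`eqv_apply`, `lc_coe`); `resR` holds for its push, whose class is the given one: `push_rsH`, `push_mem_Bc`, `CovD.Hm.push_smul`, sums.
* `exists_Gv`: for `b' : β' m` lift `z' m b'` to `c ∈ (prC Q).Tt m` (`exists_lift_Tt`), `exists_gyr`: `w`, a cocycle: coordinates `Gv b b'` in `hDQ.self`. Over `K`: `GyR.push`, `GyR.add`, `GyR.smul`, finite sums (`GyR` of `0`, `0`: `GyR.smul 0`), `(rsH ..).push ((prH φ Q).push c) = (prH φ P).push ((rsH hle).push c)`.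
-/

set_option autoImplicit false

namespace MPadcHS

open MvPolynomial MPadcGP MPadcDC

universe u v w

section

variable {B : Type u} [CommRing B] {n : ℕ} {Q P : Ideal (MvPolynomial (Fin (n + 1)) B)}

theorem push_rsH (hle : Q ≤ P) {K : Type u} [CommRing K] (φ : B →+* K) (c : (prC Q).Ch) :
    (rsH (le_map φ hle)).push ((prH φ Q).push c) = (prH φ P).push ((rsH hle).push c) := by
  funext C
  have hm : ∀ f ∈ Q, MvPolynomial.map φ f ∈ bI φ P := fun f hf => bI_mem φ P f (hle hf)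
  have key : ∀ (f g : (prC Q).R C →+* (prC (bI φ P)).R C) (hf : CC B K f) (hg : CC B K g), f = g →
      mp f hf (c C) = mp g hg (c C) := by
    intro f g hf hg h
    subst h
    rfl
  have h1 : (cmap (RingHom.id K) (rs_mem (le_map φ hle)) (Finset.Subset.refl C)).comp (cb φ Q C) =
      cmap φ hm (Finset.Subset.refl C) := by
    refine cmap_unique φ hm (Finset.Subset.refl C) _ (fun a => ?_) (fun l j hj => ?_)
    · rw [RingHom.comp_apply, cb_base, cmap_base]
      rfl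
    · rw [RingHom.comp_apply, cb_cq, cmap_cq]
  have h2 : (cb φ P C).comp (cmap (RingHom.id B) (rs_mem hle) (Finset.Subset.refl C)) =
      cmap φ hm (Finset.Subset.refl C) := by
    refine cmap_unique φ hm (Finset.Subset.refl C) _ (fun a => ?_) (fun l j hj => ?_)
    · rw [RingHom.comp_apply, cmap_base, cb_base]
      rfl
    · rw [RingHom.comp_apply, cmap_cq, cb_cq]
  have h3 : ((rsH (le_map φ hle)).h C).comp ((prH φ Q).h C) = ((prH φ P).h C).comp ((rsH hle).h C) :=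
    h1.trans h2.symm
  have c1 : CC B K (((rsH (le_map φ hle)).h C).comp ((prH φ Q).h C)) := fun a => ⟨φ a, by
    rw [RingHom.comp_apply, (prH φ Q).base, (rsH (le_map φ hle)).base]
    rfl⟩
  have c2 : CC B K (((prH φ P).h C).comp ((rsH hle).h C)) := fun a => ⟨φ a, by
    rw [RingHom.comp_apply, (rsH hle).base, (prH φ P).base]
    rfl⟩
  exact (mp_comp ((prH φ Q).cc C) ((rsH (le_map φ hle)).cc C) c1 (c C)).symm.trans
    ((key _ _ c1 c2 h3).trans (mp_comp ((rsH hle).cc C) ((prH φ P).cc C) c2 (c C)))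

theorem GyR.push {m : ℕ} {c w : (prC Q).Ch} (h : GyR Q m c w) {K : Type u} [CommRing K] (φ : B →+* K) :
    GyR (bI φ Q) m ((prH φ Q).push c) ((prH φ Q).push w) := by
  refine ⟨CovD.Hm.push_mem_Tt h.cm, push_mem_Zc h.wz, ?_, fun C hC hz => ?_⟩
  · rw [CovD.Hm.push_apply, h.w0, map_zero]
  · rw [CovD.Hm.push_apply, h.wl C hC hz, map_mul, CovD.Hm.e_rs, CovD.Hm.push_apply,
      ← dl_eq Q (Finset.mem_insert_self _ _) (Finset.mem_insert_of_mem (C.min'_mem hC)), push_dl,
      dl_eq (bI φ Q) (Finset.mem_insert_self _ _) (Finset.mem_insert_of_mem (C.min'_mem hC))]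

variable {β : ℕ → Type} [∀ m, Fintype (β m)] {lev : ∀ m, β m → ℕ} {z : ∀ m, β m → (prC Q).Ch} {h : ℕ → ℕ → ℕ}
  {β' : ℕ → Type} [∀ m, Fintype (β' m)] {lev' : ∀ m, β' m → ℕ} {z' : ∀ m, β' m → (prC P).Ch} {h' : ℕ → ℕ → ℕ}

private theorem SpB_comb {β γ : Type} [Fintype β] [Fintype γ] {m : ℕ} {S : Type u} [CommRing S]
    {N : ℕ} {Y : CovD.{u, u} S N} (x : β → S) (y : β → Y.Ch) (g : γ → β → S) (z : γ → Y.Ch)
    (h : ∀ b, y b - ∑ b', g b' b • z b' ∈ Y.Bc m) :
    ∑ b, x b • y b - ∑ b', (∑ b, g b' b * x b) • z b' ∈ Y.Bc m := by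
  have h1 : ∑ b, x b • y b - ∑ b', (∑ b, g b' b * x b) • z b' = ∑ b, x b • (y b - ∑ b', g b' b • z b') := by
    have h2 : ∑ b', (∑ b, g b' b * x b) • z b' = ∑ b, x b • ∑ b', g b' b • z b' := by
      have h3 : ∀ b', (∑ b, g b' b * x b) • z b' = ∑ b, x b • g b' b • z b' := by
        intro b'
        rw [Finset.sum_smul]
        exact Finset.sum_congr rfl fun b _ => by rw [smul_smul, mul_comm]
      rw [Finset.sum_congr rfl fun b' _ => h3 b', Finset.sum_comm]
      exact Finset.sum_congr rfl fun b _ => Finset.smul_sum.symm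
    rw [h2, ← Finset.sum_sub_distrib]
    exact Finset.sum_congr rfl fun b _ => (smul_sub _ _ _).symm
  rw [h1]
  exact Submodule.sum_mem _ fun b _ => Submodule.smul_mem _ _ (h b)

private theorem SpB_push {K : Type u} [CommRing K] (φ : B →+* K) {γ : Type} [Fintype γ] {m : ℕ} {c : (prC P).Ch}
    (g : γ → B) (z : γ → (prC P).Ch) (h : c - ∑ b', g b' • z b' ∈ (prC P).Bc m) :
    (prH φ P).push c - ∑ b', φ (g b') • (prH φ P).push (z b') ∈ (prC (bI φ P)).Bc m := by
  have h1 := push_mem_Bc (F := prH φ P) h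
  rw [map_sub, push_lin] at h1
  exact h1

theorem exists_Rv (hle : Q ≤ P) (hDQ : Dat Q lev z h) (hDP : Dat P lev' z' h') (m : ℕ) :
    ∃ Rv : β' m → β m → B, ∀ (K : Type u) [Field K] (φ : B →+* K) (x : β m → K),
      resR (le_map φ hle) m ((hDQ.ad K φ).eqv m x) ((hDP.ad K φ).eqv m fun b' => ∑ b, φ (Rv b' b) * x b) := by
  have h1 : ∀ b : β m, ∃ c : β' m → B, (rsH hle).push (z m b) - ∑ b', c b' • z' m b' ∈ (prC P).Bc m := fun b =>
    hDP.self.exists_coord m (push_mem_Zc (hDQ.self.mem_Zc m b))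
  choose Rv hRv using h1
  refine ⟨fun b' b => Rv b b', fun K _ φ x => ?_⟩
  have h2 : (rsH (le_map φ hle)).push ((hDQ.ad K φ).lc m x : (prC (bI φ Q)).Ch) =
      ∑ b, x b • (prH φ P).push ((rsH hle).push (z m b)) := by
    rw [IsAd.lc_coe, push_lin]
    exact Finset.sum_congr rfl fun b _ => by rw [push_rsH hle, RingHom.id_apply]
  obtain ⟨c', hc'⟩ : ∃ c' : ↥((prC (bI φ P)).Zc m),
      (c' : (prC (bI φ P)).Ch) = (rsH (le_map φ hle)).push ((hDQ.ad K φ).lc m x : (prC (bI φ Q)).Ch) :=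
    ⟨⟨_, push_mem_Zc ((hDQ.ad K φ).lc m x).2⟩, rfl⟩
  refine ⟨(hDQ.ad K φ).lc m x, c', hc', ((hDQ.ad K φ).eqv_apply m x).symm, ?_⟩
  rw [IsAd.eqv_apply, CovD.cl_eq, hc', h2, IsAd.lc_coe]
  exact SpB_comb x _ (fun b' b => φ (Rv b b')) _ fun b => SpB_push φ (Rv b) (z' m) (hRv b)

theorem exists_Gv (hG : Gd Q P) (hle : Q ≤ P) (hDQ : Dat Q lev z h) (hDP : Dat P lev' z' h') (m : ℕ) :
    ∃ Gv : β (m + 2) → β' m → B, ∀ (K : Type u) [Field K] (φ : B →+* K) (x : β' m → K),
      gys (le_map φ hle) m ((hDP.ad K φ).eqv m x) ((hDQ.ad K φ).eqv (m + 2) fun b => ∑ b', φ (Gv b b') * x b') := by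
  classical
  have h0 : ∀ b' : β' m, ∃ c w : (prC Q).Ch, (rsH hle).push c = z' m b' ∧ GyR Q m c w := by
    intro b'
    obtain ⟨c, hc, hcz, -⟩ := exists_lift_Tt hG.eq hle (hDP.self.mem_Zc m b').1
    obtain ⟨w, hw, -, -⟩ := exists_gyr hG hle hc (by
      rw [hcz]
      exact hDP.self.mem_Zc m b')
    exact ⟨c, w, hcz, hw⟩
  choose c w hc hw using h0
  have h1 : ∀ b' : β' m, ∃ g : β (m + 2) → B, w b' - ∑ b, g b • z (m + 2) b ∈ (prC Q).Bc (m + 2) := fun b' =>
    hDQ.self.exists_coord (m + 2) (hw b').wz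
  choose Gv hGv using h1
  refine ⟨fun b b' => Gv b' b, fun K _ φ x => ?_⟩
  have h3 : ∀ s : Finset (β' m), GyR (bI φ Q) m (∑ b' ∈ s, x b' • (prH φ Q).push (c b'))
      (∑ b' ∈ s, x b' • (prH φ Q).push (w b')) := by
    intro s
    induction s using Finset.induction_on with
    | empty =>
      rw [Finset.sum_empty, Finset.sum_empty]
      refine ⟨Submodule.zero_mem _, Submodule.zero_mem _, rfl, fun C hC hz => ?_⟩
      rw [Pi.zero_apply, Pi.zero_apply, map_zero, mul_zero]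
    | insert b' s hb ih =>
      rw [Finset.sum_insert hb, Finset.sum_insert hb]
      exact (((hw b').push φ).smul (x b')).add ih
  have h4 : (rsH (le_map φ hle)).push (∑ b', x b' • (prH φ Q).push (c b')) =
      ((hDP.ad K φ).lc m x : (prC (bI φ P)).Ch) := by
    rw [IsAd.lc_coe, push_lin]
    exact Finset.sum_congr rfl fun b' _ => by rw [push_rsH hle, RingHom.id_apply, hc]
  refine ⟨_, _, h3 Finset.univ, ?_, ?_, ?_⟩
  · rw [h4]
    exact ((hDP.ad K φ).lc m x).2
  · rw [IsAd.eqv_apply, CovD.cl_eq]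
    show (rsH (le_map φ hle)).push (∑ b', x b' • (prH φ Q).push (c b')) - _ ∈ _
    rw [h4, sub_self]
    exact Submodule.zero_mem _
  · rw [IsAd.eqv_apply, CovD.cl_eq, IsAd.lc_coe]
    exact SpB_comb x _ (fun b b' => φ (Gv b' b)) _ fun b' => SpB_push φ (Gv b') (z (m + 2)) (hGv b')

end

end MPadcHS
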