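import Pool.Agent.Lib.MP_adc574_ag_HS.SpU

/-!
# JOB SpV (HS, Part P): spreading out kernels and bases (pure linear algebra, uses SpU)

Work over `F := FractionRing B`.
* `select`: choose a maximal `S : Finset ω` such that the vectors `f u` (`u ∈ S`) are linearly independent over `F` modulo `span U`. To get the independence over `φ`: choose also a maximal `T : Finset τ` such that `U s`, `s ∈ T`, are linearly independent; then `f u` (`u ∈ S`), `U s` (`s ∈ T`) are linearly independent: `inj_spread` (with `K₀ = F`) for this matrix. All other `U s`, `s ∉ T`, and `f w`, `w ∉ S`, are combinations over `F`; multiply by a common denominator `a ≠ 0`: `a • U s = ∑ ..` over `B` (or use `solve_spread` with `K₀ = F`: this is simplest). `g := ` product of the elements obtained. Over `φ` with `φ g ≠ 0`: `span (φ U) = span (φ U s, s ∈ T)`.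
* `ker_basis`: let `k₁, ..., k_r` be a basis of the kernel of `M` over `F`, multiplied by denominators: vectors over `B` with `M k_i = 0`. The rank of `M` over `F` is `card β - r`: there are rows `a ∈ S₀`, `card S₀ = card β - r`, linearly independent. `surj_spread` for the rows `S₀` gives `g₁`: for `φ g₁ ≠ 0` the rank of `φ M` is `≥ card β - r`; `inj_spread` for the vectors `k_i` gives `g₂`: they stay independent. So for `φ (g₁ g₂) ≠ 0` the kernel of `φ M` has dimension `≤ r` and contains the independent `φ k_i`.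
-/

set_option autoImplicit false

namespace MPadcHS

open Module

universe u v w

section

variable {B : Type u} [CommRing B] [IsDomain B] {α β ρ τ ω : Type} [Fintype α] [Fintype β] [Fintype ρ] [Fintype τ]
  [Fintype ω] [DecidableEq α] [DecidableEq β] [DecidableEq ρ] [DecidableEq τ] [DecidableEq ω]

private theorem SpV_gi {F : Type u} [Field F] (M : α → β → F) :
    ∃ A : β → α → F, ∀ a b, ∑ b', M a b' * (∑ a', A b' a' * M a' b) = M a b := by
  obtain ⟨f, hf⟩ : ∃ f : (β → F) →ₗ[F] (α → F), f = Matrix.toLin' (Matrix.of M) := ⟨_, rfl⟩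
  obtain ⟨s, hs⟩ := LinearMap.exists_rightInverse_of_surjective f.rangeRestrict
    (LinearMap.range_eq_top.2 f.surjective_rangeRestrict)
  obtain ⟨g, hg⟩ := LinearMap.exists_extend s
  have h1 : f ∘ₗ (g ∘ₗ f) = f := by
    refine LinearMap.ext fun x => ?_
    rw [LinearMap.comp_apply, LinearMap.comp_apply]
    have h2 : g (f x) = s (f.rangeRestrict x) := by
      rw [← hg]
      rfl
    have h3 : f.rangeRestrict (s (f.rangeRestrict x)) = f.rangeRestrict x := LinearMap.congr_fun hs _
    rw [h2]
    exact congrArg Subtype.val h3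
  have h2 := congrArg LinearMap.toMatrix' h1
  rw [LinearMap.toMatrix'_comp, LinearMap.toMatrix'_comp, hf, LinearMap.toMatrix'_toLin'] at h2
  refine ⟨LinearMap.toMatrix' g, fun a b => ?_⟩
  have h3 := congrFun (congrFun h2 a) b
  rw [Matrix.mul_apply] at h3
  exact h3

private theorem SpV_sel {F : Type u} [Field F] (f : ω → β → F) (U : τ → β → F) :
    ∃ (S : Finset ω) (C : ↥S → β → F), (∀ u s, ∑ b, C u b * U s b = 0) ∧
      (∀ u u' : ↥S, ∑ b, C u b * f u'.1 b = if u = u' then 1 else 0) ∧
      ∀ w, ∃ (lam : ↥S → F) (mu : τ → F), ∀ b, f w b = ∑ u, lam u * f u.1 b + ∑ s, mu s * U s b := by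
  obtain ⟨W, hW⟩ : ∃ W : Submodule F (β → F), W = Submodule.span F (Set.range U) := ⟨_, rfl⟩
  obtain ⟨S₀, -, -, hsp, hli⟩ := exists_linearIndepOn_extension (K := F) (v := fun w => W.mkQ (f w))
    (linearIndepOn_empty F _) (Set.empty_subset (Set.univ : Set ω))
  obtain ⟨S, hS⟩ : ∃ S : Finset ω, (S : Set ω) = S₀ := ⟨S₀.toFinite.toFinset, Set.Finite.coe_toFinset _⟩
  subst hS
  have hli' : LinearIndependent F (fun u : ↥S => W.mkQ (f u.1)) := hli
  obtain ⟨π, hπ⟩ := LinearMap.exists_leftInverse_of_injective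
    (Fintype.linearCombination F (fun u : ↥S => W.mkQ (f u.1)))
    (LinearMap.ker_eq_bot_of_injective (linearIndependent_iff_injective_fintypeLinearCombination.1 hli'))
  have hπ1 : ∀ u : ↥S, π (W.mkQ (f u.1)) = Pi.single u 1 := by
    intro u
    have h1 := LinearMap.congr_fun hπ (Pi.single u 1)
    rw [LinearMap.comp_apply, Fintype.linearCombination_apply_single, one_smul] at h1
    exact h1
  have hC : ∀ (u : ↥S) (x : β → F), ∑ b, π (W.mkQ (Pi.single b 1)) u * x b = π (W.mkQ x) u := by
    intro u x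
    have h1 := LinearMap.pi_apply_eq_sum_univ ((LinearMap.proj u ∘ₗ π) ∘ₗ W.mkQ : (β → F) →ₗ[F] F) x
    have h2 : ((LinearMap.proj u ∘ₗ π) ∘ₗ W.mkQ : (β → F) →ₗ[F] F) x = π (W.mkQ x) u := rfl
    rw [← h2, h1]
    refine Finset.sum_congr rfl fun b _ => ?_
    rw [smul_eq_mul, mul_comm]
    congr 1
    have h3 : (fun j => if b = j then (1 : F) else 0) = Pi.single b 1 := by
      funext j
      rw [Pi.single_apply]
      by_cases h : b = j
      · rw [if_pos h, if_pos h.symm]
      · rw [if_neg h, if_neg (fun h' => h h'.symm)]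
    rw [h3]
    rfl
  refine ⟨S, fun u b => π (W.mkQ (Pi.single b 1)) u, ?_, ?_, ?_⟩
  · intro u s
    rw [hC]
    have h1 : W.mkQ (U s) = 0 := by
      rw [Submodule.mkQ_apply, Submodule.Quotient.mk_eq_zero, hW]
      exact Submodule.subset_span ⟨s, rfl⟩
    rw [h1, map_zero]
    rfl
  · intro u u'
    rw [hC, hπ1, Pi.single_apply]
  · intro w
    have h1 : W.mkQ (f w) ∈ Submodule.span F ((fun w => W.mkQ (f w)) '' (S : Set ω)) :=
      hsp ⟨w, Set.mem_univ _, rfl⟩
    have h2 : ((fun w => W.mkQ (f w)) '' (S : Set ω)) = Set.range (fun u : ↥S => W.mkQ (f u.1)) := by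
      rw [Set.image_eq_range]
      rfl
    rw [h2, Submodule.mem_span_range_iff_exists_fun] at h1
    obtain ⟨lam, hlam⟩ := h1
    have h3 : f w - ∑ u, lam u • f u.1 ∈ W := by
      rw [← Submodule.Quotient.mk_eq_zero, ← Submodule.mkQ_apply, map_sub, map_sum, ← hlam, sub_eq_zero]
      exact Finset.sum_congr rfl fun u _ => (map_smul _ _ _).symm
    rw [hW, Submodule.mem_span_range_iff_exists_fun] at h3
    obtain ⟨mu, hmu⟩ := h3
    refine ⟨lam, mu, fun b => ?_⟩
    have h4 := congrFun hmu b
    rw [Pi.sub_apply, Finset.sum_apply, Finset.sum_apply] at h4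
    have h5 : f w b = ∑ u, (lam u • f u.1) b + ∑ s, (mu s • U s) b := by
      rw [h4]
      ring
    exact h5

theorem ker_basis (M : α → β → B) : ∃ g : B, g ≠ 0 ∧ ∃ (ι : Type) (_ : Fintype ι) (_ : DecidableEq ι) (k : ι → β → B),
    ∀ (K : Type u) [Field K] (φ : B →+* K), φ g ≠ 0 → ∀ x : β → K, (∀ a, ∑ b, φ (M a b) * x b = 0) ↔
      ∃ mu : ι → K, ∀ b, x b = ∑ i, mu i * φ (k i b) := by
  obtain ⟨A, hA⟩ := SpV_gi (fun a b => algebraMap B (FractionRing B) (M a b))
  obtain ⟨g, hg⟩ := IsLocalization.exist_integer_multiples_of_finite (nonZeroDivisors B)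
    (fun ba : β × α => A ba.1 ba.2)
  have hl : ∀ b a, ∃ l : B, algebraMap B (FractionRing B) l = algebraMap B (FractionRing B) (g : B) * A b a := by
    intro b a
    obtain ⟨l, hl⟩ := hg (b, a)
    refine ⟨l, ?_⟩
    rw [hl, Algebra.smul_def]
  choose l hl using hl
  have hB : ∀ a b, ∑ b', M a b' * (∑ a', l b' a' * M a' b) = (g : B) * M a b := by
    intro a b
    apply IsFractionRing.injective B (FractionRing B)
    rw [map_mul, map_sum, ← hA a b, Finset.mul_sum]
    refine Finset.sum_congr rfl fun b' _ => ?_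
    rw [map_mul, map_sum, Finset.mul_sum, Finset.mul_sum, Finset.mul_sum]
    refine Finset.sum_congr rfl fun a' _ => ?_
    rw [map_mul, hl]
    ring
  refine ⟨(g : B), nonZeroDivisors.ne_zero g.2, β, inferInstance, inferInstance,
    fun i b => (if b = i then (g : B) else 0) - ∑ a, l b a * M a i, ?_⟩
  intro K _ φ hφ x
  constructor
  · intro hx
    refine ⟨fun i => (φ (g : B))⁻¹ * x i, fun b => ?_⟩
    have h1 : ∀ i, (φ (g : B))⁻¹ * x i * φ ((if b = i then (g : B) else 0) - ∑ a, l b a * M a i) =
        (if b = i then x i else 0) - (φ (g : B))⁻¹ * ∑ a, φ (l b a) * (φ (M a i) * x i) := by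
      intro i
      rw [map_sub, map_sum, mul_sub]
      congr 1
      · by_cases h : b = i
        · rw [if_pos h, if_pos h, mul_comm, ← mul_assoc, mul_inv_cancel₀ hφ, one_mul]
        · rw [if_neg h, if_neg h, map_zero, mul_zero]
      · rw [mul_assoc, Finset.mul_sum]
        congr 1
        refine Finset.sum_congr rfl fun a _ => ?_
        rw [map_mul]
        ring
    rw [Finset.sum_congr rfl fun i _ => h1 i, Finset.sum_sub_distrib, Finset.sum_ite_eq, if_pos (Finset.mem_univ _),
      ← Finset.mul_sum, Finset.sum_comm]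
    have h2 : ∀ a, ∑ i, φ (l b a) * (φ (M a i) * x i) = 0 := by
      intro a
      rw [← Finset.mul_sum, hx a, mul_zero]
    rw [Finset.sum_congr rfl fun a _ => h2 a, Finset.sum_const_zero, mul_zero, sub_zero]
  · rintro ⟨mu, hmu⟩ a
    have h1 : ∀ i, ∑ b, φ (M a b) * φ ((if b = i then (g : B) else 0) - ∑ a', l b a' * M a' i) = 0 := by
      intro i
      have h2 : ∑ b, M a b * ((if b = i then (g : B) else 0) - ∑ a', l b a' * M a' i) = 0 := by
        have h3 : ∀ b, M a b * ((if b = i then (g : B) else 0) - ∑ a', l b a' * M a' i) =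
            (if b = i then M a b * (g : B) else 0) - M a b * ∑ a', l b a' * M a' i := by
          intro b
          rw [mul_sub]
          congr 1
          by_cases h : b = i
          · rw [if_pos h, if_pos h]
          · rw [if_neg h, if_neg h, mul_zero]
        rw [Finset.sum_congr rfl fun b _ => h3 b, Finset.sum_sub_distrib, Finset.sum_ite_eq',
          if_pos (Finset.mem_univ _), hB a i, mul_comm, sub_self]
      have h4 := congrArg φ h2
      rw [map_zero, map_sum] at h4
      rw [← h4]
      exact Finset.sum_congr rfl fun b _ => (map_mul φ _ _).symm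
    have h5 : ∀ b, φ (M a b) * x b =
        ∑ i, mu i * (φ (M a b) * φ ((if b = i then (g : B) else 0) - ∑ a', l b a' * M a' i)) := by
      intro b
      rw [hmu b, Finset.mul_sum]
      refine Finset.sum_congr rfl fun i _ => ?_
      ring
    rw [Finset.sum_congr rfl fun b _ => h5 b, Finset.sum_comm]
    refine Finset.sum_eq_zero fun i _ => ?_
    rw [← Finset.mul_sum, h1 i, mul_zero]

theorem select (f : ω → β → B) (U : τ → β → B) : ∃ g : B, g ≠ 0 ∧ ∃ S : Finset ω,
    ∀ (K : Type u) [Field K] (φ : B →+* K), φ g ≠ 0 →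
      (∀ (lam : ↥S → K) (mu : τ → K), (∀ b, ∑ u, lam u * φ (f u.1 b) + ∑ s, mu s * φ (U s b) = 0) → lam = 0) ∧
      ∀ w, ∃ (lam : ↥S → K) (mu : τ → K), ∀ b, φ (f w b) = ∑ u, lam u * φ (f u.1 b) + ∑ s, mu s * φ (U s b) := by
  obtain ⟨S, C, hCU, hCf, hsp⟩ := SpV_sel (fun w b => algebraMap B (FractionRing B) (f w b))
    (fun s b => algebraMap B (FractionRing B) (U s b))
  obtain ⟨g₂, hg₂, hsol⟩ := solve_spread (ρ := ↥S ⊕ τ) f (Sum.elim (fun u : ↥S => f u.1) U)
    (algebraMap B (FractionRing B)) (IsFractionRing.injective B (FractionRing B)) (by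
      intro w
      obtain ⟨lam, mu, h⟩ := hsp w
      refine ⟨Sum.elim lam mu, fun b => ?_⟩
      rw [Fintype.sum_sum_type]
      exact h b)
  obtain ⟨g, hg⟩ := IsLocalization.exist_integer_multiples_of_finite (nonZeroDivisors B)
    (fun ub : ↥S × β => C ub.1 ub.2)
  have hl : ∀ u b, ∃ l : B, algebraMap B (FractionRing B) l = algebraMap B (FractionRing B) (g : B) * C u b := by
    intro u b
    obtain ⟨l, hl⟩ := hg (u, b)
    refine ⟨l, ?_⟩
    rw [hl, Algebra.smul_def]
  choose l hl using hl
  have hU : ∀ u s, ∑ b, l u b * U s b = 0 := by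
    intro u s
    apply IsFractionRing.injective B (FractionRing B)
    rw [map_sum, map_zero]
    have h1 : ∀ b, algebraMap B (FractionRing B) (l u b * U s b) = algebraMap B (FractionRing B) (g : B) *
        (C u b * algebraMap B (FractionRing B) (U s b)) := by
      intro b
      rw [map_mul, hl, mul_assoc]
    rw [Finset.sum_congr rfl fun b _ => h1 b, ← Finset.mul_sum, hCU u s, mul_zero]
  have hf : ∀ u u' : ↥S, ∑ b, l u b * f u'.1 b = if u = u' then (g : B) else 0 := by
    intro u u'
    apply IsFractionRing.injective B (FractionRing B)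
    rw [map_sum]
    have h1 : ∀ b, algebraMap B (FractionRing B) (l u b * f u'.1 b) = algebraMap B (FractionRing B) (g : B) *
        (C u b * algebraMap B (FractionRing B) (f u'.1 b)) := by
      intro b
      rw [map_mul, hl, mul_assoc]
    rw [Finset.sum_congr rfl fun b _ => h1 b, ← Finset.mul_sum, hCf u u']
    by_cases h : u = u'
    · rw [if_pos h, if_pos h, mul_one]
    · rw [if_neg h, if_neg h, mul_zero, map_zero]
  refine ⟨(g : B) * g₂, mul_ne_zero (nonZeroDivisors.ne_zero g.2) hg₂, S, ?_⟩
  intro K _ φ hφ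
  rw [map_mul] at hφ
  have hφ1 : φ (g : B) ≠ 0 := left_ne_zero_of_mul hφ
  have hφ2 : φ g₂ ≠ 0 := right_ne_zero_of_mul hφ
  constructor
  · intro lam mu h
    funext u
    rw [Pi.zero_apply]
    have h1 : ∑ b, φ (l u b) * (∑ u', lam u' * φ (f u'.1 b) + ∑ s, mu s * φ (U s b)) = 0 :=
      Finset.sum_eq_zero fun b _ => by rw [h b, mul_zero]
    have h2 : ∀ b, φ (l u b) * (∑ u', lam u' * φ (f u'.1 b) + ∑ s, mu s * φ (U s b)) =
        ∑ u', lam u' * φ (l u b * f u'.1 b) + ∑ s, mu s * φ (l u b * U s b) := by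
      intro b
      rw [mul_add, Finset.mul_sum, Finset.mul_sum]
      congr 1
      · refine Finset.sum_congr rfl fun u' _ => ?_
        rw [map_mul]
        ring
      · refine Finset.sum_congr rfl fun s _ => ?_
        rw [map_mul]
        ring
    rw [Finset.sum_congr rfl fun b _ => h2 b, Finset.sum_add_distrib, Finset.sum_comm] at h1
    have h3 : ∀ u', ∑ b, lam u' * φ (l u b * f u'.1 b) = if u = u' then lam u' * φ (g : B) else 0 := by
      intro u'
      rw [← Finset.mul_sum, ← map_sum, hf u u']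
      by_cases h : u = u'
      · rw [if_pos h, if_pos h]
      · rw [if_neg h, if_neg h, map_zero, mul_zero]
    have h4 : ∑ b, ∑ s, mu s * φ (l u b * U s b) = 0 := by
      rw [Finset.sum_comm]
      refine Finset.sum_eq_zero fun s _ => ?_
      rw [← Finset.mul_sum, ← map_sum, hU u s, map_zero, mul_zero]
    rw [h4, add_zero, Finset.sum_congr rfl fun u' _ => h3 u', Finset.sum_ite_eq, if_pos (Finset.mem_univ _)] at h1
    exact (mul_eq_zero.1 h1).resolve_right hφ1
  · intro w
    obtain ⟨lam, hlam⟩ := hsol K φ hφ2 w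
    refine ⟨fun u => lam (Sum.inl u), fun s => lam (Sum.inr s), fun b => ?_⟩
    have h1 := hlam b
    rw [Fintype.sum_sum_type] at h1
    exact h1

end

end MPadcHS
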