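import Pool.Agent.Lib.MP_adc574_ag_HS.SpB
import Pool.Agent.Lib.MP_adc574_ag_HS.SpV
import Pool.Agent.Lib.MP_adc574_ag_HS.GyK

/-!
# JOB SpC (HS, Part P): coordinates of `V`, `V ∩ T`, `F^(i+1) ∩ V`

`Gz := Gv` (`exists_Gv`, degree `d`, `ρ := β (d + 2)`), `Rv` (`exists_Rv`, degree `d`).
* `mem_V`: `x ∈ Vg` iff `gys x 0`; `gys (eqv x) (eqv (Gv x))`, uniqueness (`exists_gy` for `hGd`, both directions: `gys x y ↔ g x = y`), `eqv` injective.
* `L b b₀ := ∑ b', Gv b b' * Rv b' b₀` (a matrix over `B`), `ker_basis L`: `k i`, `i : τ`. `U s b' := ∑ b₀, Rv b' b₀ * k s b₀`. `U_V`: `Gz (φ U s) = φ L (φ k s) = 0`.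
  `mem_T`: `eqv x ∈ Tr` iff `x = Rv y` for some `y` (`resR (eqv y) (eqv (Rv y))`, uniqueness by `exists_rH`, `eqv` surjective); then `Gz x = 0` means `L y = 0`, so `y = ∑ mu s • φ (k s)`, `x = ∑ mu s • φ (U s)`; and conversely.
* `F^(i+1) ∩ V`: `ker_basis` for the matrix `M : β (d + 2) → {b' // ¬ lev' d b' < i + 1} → B`, `M b b' = Gv b b'.1`: `k' w`; extend by `0` to `f₀ w : β' d → B`. `select f₀ U` gives `S`. `f u := f₀ u.1`.
  `f_V`, `f_F`, `f_ind` (`select`), `f_span`: `x` with `Gz x = 0` and `x b = 0` for `lev' d b < i + 1`: its restriction is in the kernel of `φ M`, so `x = ∑ mu' w • φ (f₀ w)`, and every `φ (f₀ w)` is a combination of the `φ (f u)`, `φ (U s)` (`select`).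
`g := ` the product of the elements of `ker_basis L`, `ker_basis M`, `select`. (`classical` for the decidable equalities.)
-/

set_option autoImplicit false

namespace MPadcHS

open MvPolynomial MPadcGP MPadcDC

universe u v w

section

variable {B : Type u} [CommRing B] {n : ℕ} {Q P : Ideal (MvPolynomial (Fin (n + 1)) B)}
  {β : ℕ → Type} [∀ m, Fintype (β m)] {lev : ∀ m, β m → ℕ} {z : ∀ m, β m → (prC Q).Ch} {h : ℕ → ℕ → ℕ}
  {β' : ℕ → Type} [∀ m, Fintype (β' m)] {lev' : ∀ m, β' m → ℕ} {z' : ∀ m, β' m → (prC P).Ch} {h' : ℕ → ℕ → ℕ}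

private theorem SpC_ext {ι : Type} [Fintype ι] {R : Type*} [CommRing R] (p : ι → Prop) [DecidablePred p] (a : ι → R)
    (x : {b // p b} → R) :
    ∑ b, a b * (if hb : p b then x ⟨b, hb⟩ else 0) = ∑ b : {b // p b}, a b.1 * x b := by
  rw [← Fintype.sum_subtype_add_sum_subtype p (fun b => a b * (if hb : p b then x ⟨b, hb⟩ else 0))]
  have h1 : ∑ b : {b // ¬ p b}, a b.1 * (if hb : p b.1 then x ⟨b.1, hb⟩ else 0) = 0 := by
    refine Finset.sum_eq_zero fun b _ => ?_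
    rw [dif_neg b.2, mul_zero]
  rw [h1, add_zero]
  refine Finset.sum_congr rfl fun b _ => ?_
  rw [dif_pos b.2]

private theorem SpC_comb {ι κ ν : Type} [Fintype ι] [Fintype κ] {R : Type*} [CommRing R] (A : ν → ι → R) (mu : κ → R)
    (k : κ → ι → R) (b : ν) :
    ∑ j, A b j * (∑ s, mu s * k s j) = ∑ s, mu s * (∑ j, A b j * k s j) := by
  have h1 : ∀ j, A b j * (∑ s, mu s * k s j) = ∑ s, A b j * (mu s * k s j) := fun j => Finset.mul_sum _ _ _
  have h2 : ∀ s, mu s * (∑ j, A b j * k s j) = ∑ j, mu s * (A b j * k s j) := fun s => Finset.mul_sum _ _ _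
  rw [Finset.sum_congr rfl fun j _ => h1 j, Finset.sum_comm, Finset.sum_congr rfl fun s _ => h2 s]
  refine Finset.sum_congr rfl fun s _ => Finset.sum_congr rfl fun j _ => ?_
  ring

theorem exists_goodL [IsDomain B] (hG : Gd Q P) (hle : Q ≤ P) (hDQ : Dat Q lev z h) (hDP : Dat P lev' z' h') (d i : ℕ) :
    ∃ (ρ τ S : Type) (_ : Fintype ρ) (_ : Fintype τ) (_ : Fintype S) (_ : DecidableEq S) (Gz : ρ → β' d → B)
      (U : τ → β' d → B) (f : S → β' d → B) (g : B), g ≠ 0 ∧ ∀ (K : Type u) [Field K] (φ : B →+* K), φ g ≠ 0 →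
        Gd (bI φ Q) (bI φ P) → GoodL hle hDP d i Gz U f K φ := by
  classical
  obtain ⟨Rv, hRv⟩ := exists_Rv hle hDQ hDP d
  obtain ⟨Gv, hGv⟩ := exists_Gv hG hle hDQ hDP d
  obtain ⟨g₁, hg₁, τ, _, _, k, hk⟩ := ker_basis (α := β (d + 2)) (β := β d) (fun b b₀ => ∑ b', Gv b b' * Rv b' b₀)
  obtain ⟨U, hU⟩ : ∃ U : τ → β' d → B, U = fun s b' => ∑ b₀, Rv b' b₀ * k s b₀ := ⟨_, rfl⟩
  obtain ⟨g₂, hg₂, ω, _, _, k', hk'⟩ := ker_basis (α := β (d + 2)) (β := {b' : β' d // ¬ lev' d b' < i + 1})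
    (fun b b' => Gv b b'.1)
  obtain ⟨f₀, hf₀⟩ : ∃ f₀ : ω → β' d → B,
      f₀ = fun w b' => if hb : ¬ lev' d b' < i + 1 then k' w ⟨b', hb⟩ else 0 := ⟨_, rfl⟩
  obtain ⟨g₃, hg₃, S, hS⟩ := select f₀ U
  refine ⟨β (d + 2), τ, ↥S, inferInstance, inferInstance, inferInstance, inferInstance, Gv, U, fun u => f₀ u.1,
    g₁ * g₂ * g₃, mul_ne_zero (mul_ne_zero hg₁ hg₂) hg₃, ?_⟩
  intro K _ φ hφ hGd
  rw [map_mul, map_mul] at hφ
  have h3 : φ g₃ ≠ 0 := right_ne_zero_of_mul hφ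
  have h1 : φ g₁ ≠ 0 := left_ne_zero_of_mul (left_ne_zero_of_mul hφ)
  have h2 : φ g₂ ≠ 0 := right_ne_zero_of_mul (left_ne_zero_of_mul hφ)
  have hUφ : ∀ s b', φ (U s b') = ∑ b₀, φ (Rv b' b₀) * φ (k s b₀) := by
    intro s b'
    rw [hU]
    change φ (∑ b₀, Rv b' b₀ * k s b₀) = _
    rw [map_sum]
    exact Finset.sum_congr rfl fun b₀ _ => map_mul φ _ _
  have hL : ∀ b b₀, φ (∑ b', Gv b b' * Rv b' b₀) = ∑ b', φ (Gv b b') * φ (Rv b' b₀) := by
    intro b b₀
    rw [map_sum]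
    exact Finset.sum_congr rfl fun b' _ => map_mul φ _ _
  have hGR : ∀ (y : β d → K) b, ∑ b', φ (Gv b b') * (∑ b₀, φ (Rv b' b₀) * y b₀) =
      ∑ b₀, φ (∑ b', Gv b b' * Rv b' b₀) * y b₀ := by
    intro y b
    have e1 : ∀ b', φ (Gv b b') * (∑ b₀, φ (Rv b' b₀) * y b₀) = ∑ b₀, φ (Gv b b') * (φ (Rv b' b₀) * y b₀) :=
      fun b' => Finset.mul_sum _ _ _
    have e2 : ∀ b₀, φ (∑ b', Gv b b' * Rv b' b₀) * y b₀ = ∑ b', φ (Gv b b') * φ (Rv b' b₀) * y b₀ := by
      intro b₀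
      rw [hL, Finset.sum_mul]
    rw [Finset.sum_congr rfl fun b' _ => e1 b', Finset.sum_comm, Finset.sum_congr rfl fun b₀ _ => e2 b₀]
    refine Finset.sum_congr rfl fun b₀ _ => Finset.sum_congr rfl fun b' _ => ?_
    rw [mul_assoc]
  have hkk : ∀ s b, ∑ b₀, φ (∑ b', Gv b b' * Rv b' b₀) * φ (k s b₀) = 0 := by
    intro s
    refine (hk K φ h1 (fun b₀ => φ (k s b₀))).2 ⟨Pi.single s 1, fun b₀ => ?_⟩
    rw [Finset.sum_eq_single s]
    · rw [Pi.single_eq_same, one_mul]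
    · intro s' _ hs'
      rw [Pi.single_eq_of_ne hs', zero_mul]
    · intro hs
      exact absurd (Finset.mem_univ s) hs
  have hkk' : ∀ w b, ∑ b' : {b' : β' d // ¬ lev' d b' < i + 1}, φ (Gv b b'.1) * φ (k' w b') = 0 := by
    intro w
    refine (hk' K φ h2 (fun b₀ => φ (k' w b₀))).2 ⟨Pi.single w 1, fun b₀ => ?_⟩
    rw [Finset.sum_eq_single w]
    · rw [Pi.single_eq_same, one_mul]
    · intro s' _ hs'
      rw [Pi.single_eq_of_ne hs', zero_mul]
    · intro hs
      exact absurd (Finset.mem_univ w) hs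
  have hfφ : ∀ w b', φ (f₀ w b') = if hb : ¬ lev' d b' < i + 1 then φ (k' w ⟨b', hb⟩) else 0 := by
    intro w b'
    rw [hf₀]
    change φ (if hb : ¬ lev' d b' < i + 1 then k' w ⟨b', hb⟩ else 0) = _
    by_cases hb : ¬ lev' d b' < i + 1
    · rw [dif_pos hb, dif_pos hb]
    · rw [dif_neg hb, dif_neg hb, map_zero]
  obtain ⟨gm, hgm⟩ := exists_gy hGd (le_map φ hle) d
  obtain ⟨rm, hrm⟩ := exists_rH (le_map φ hle) d
  have hV : ∀ x : β' d → K, (hDP.ad K φ).eqv d x ∈ Vg (le_map φ hle) d ↔ ∀ r, ∑ b, φ (Gv r b) * x b = 0 := by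
    intro x
    have e1 : gm ((hDP.ad K φ).eqv d x) = (hDQ.ad K φ).eqv (d + 2) fun b => ∑ b', φ (Gv b b') * x b' :=
      (hgm _ _).1 (hGv K φ x)
    change gys (le_map φ hle) d ((hDP.ad K φ).eqv d x) 0 ↔ _
    rw [hgm, e1, LinearEquiv.map_eq_zero_iff]
    exact funext_iff
  have hT : ∀ x : β' d → K, (hDP.ad K φ).eqv d x ∈ Tr (le_map φ hle) d ↔
      ∃ y : β d → K, ∀ b', x b' = ∑ b₀, φ (Rv b' b₀) * y b₀ := by
    intro x
    constructor
    · rintro ⟨y', hy'⟩
      refine ⟨((hDQ.ad K φ).eqv d).symm y', fun b' => ?_⟩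
      have e1 := hRv K φ (((hDQ.ad K φ).eqv d).symm y')
      rw [LinearEquiv.apply_symm_apply] at e1
      have e2 := ((hrm _ _).1 hy').symm.trans ((hrm _ _).1 e1)
      exact congrFun (((hDP.ad K φ).eqv d).injective e2) b'
    · rintro ⟨y, hy⟩
      refine ⟨(hDQ.ad K φ).eqv d y, ?_⟩
      have e1 := hRv K φ y
      have e2 : x = fun b' => ∑ b₀, φ (Rv b' b₀) * y b₀ := funext hy
      rw [e2]
      exact e1
  exact
    { mem_V := hV
      mem_T := by
        intro x hx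
        rw [hT]
        constructor
        · rintro ⟨y, hy⟩
          have e1 : ∀ b, ∑ b₀, φ (∑ b', Gv b b' * Rv b' b₀) * y b₀ = 0 := by
            intro b
            rw [← hGR y b, ← (hV x).1 hx b]
            exact Finset.sum_congr rfl fun b' _ => by rw [hy b']
          obtain ⟨mu, hmu⟩ := (hk K φ h1 y).1 e1
          refine ⟨mu, fun b' => ?_⟩
          have e2 : y = fun b₀ => ∑ s, mu s * φ (k s b₀) := funext hmu
          rw [hy b', e2, SpC_comb (fun b' b₀ => φ (Rv b' b₀)) mu (fun s b₀ => φ (k s b₀)) b']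
          exact Finset.sum_congr rfl fun s _ => by rw [hUφ]
        · rintro ⟨mu, hmu⟩
          refine ⟨fun b₀ => ∑ s, mu s * φ (k s b₀), fun b' => ?_⟩
          rw [hmu b', SpC_comb (fun b' b₀ => φ (Rv b' b₀)) mu (fun s b₀ => φ (k s b₀)) b']
          exact Finset.sum_congr rfl fun s _ => by rw [hUφ]
      U_V := by
        intro s r
        have e1 : ∑ b, φ (Gv r b) * φ (U s b) = ∑ b', φ (Gv r b') * (∑ b₀, φ (Rv b' b₀) * φ (k s b₀)) :=
          Finset.sum_congr rfl fun b' _ => by rw [hUφ]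
        rw [e1, hGR (fun b₀ => φ (k s b₀)) r]
        exact hkk s r
      f_V := by
        intro u r
        have e1 : ∑ b, φ (Gv r b) * φ (f₀ u.1 b) =
            ∑ b, φ (Gv r b) * (if hb : ¬ lev' d b < i + 1 then φ (k' u.1 ⟨b, hb⟩) else 0) :=
          Finset.sum_congr rfl fun b' _ => by rw [hfφ]
        rw [e1, SpC_ext (fun b => ¬ lev' d b < i + 1) (fun b => φ (Gv r b)) (fun b => φ (k' u.1 b))]
        exact hkk' u.1 r
      f_F := by
        intro u b hb
        rw [hfφ, dif_neg (not_not.2 hb)]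
      f_ind := (hS K φ h3).1
      f_span := by
        intro x hx hx0
        have e1 : ∀ r, ∑ b : {b' : β' d // ¬ lev' d b' < i + 1}, φ (Gv r b.1) * x b.1 = 0 := by
          intro r
          refine (SpC_ext (fun b => ¬ lev' d b < i + 1) (fun b => φ (Gv r b)) (fun b => x b.1)).symm.trans
            (Eq.trans (Finset.sum_congr rfl fun b _ => ?_) (hx r))
          by_cases hb : ¬ lev' d b < i + 1
          · rw [dif_pos hb]
          · rw [dif_neg hb, hx0 b (not_not.1 hb)]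
        obtain ⟨mu, hmu⟩ := (hk' K φ h2 (fun b => x b.1)).1 e1
        have e2 : ∀ b, x b = ∑ w, mu w * φ (f₀ w b) := by
          intro b
          by_cases hb : ¬ lev' d b < i + 1
          · rw [hmu ⟨b, hb⟩]
            refine Finset.sum_congr rfl fun w _ => ?_
            rw [hfφ, dif_pos hb]
          · rw [hx0 b (not_not.1 hb)]
            symm
            refine Finset.sum_eq_zero fun w _ => ?_
            rw [hfφ, dif_neg hb, mul_zero]
        choose lam mu' hlm using (hS K φ h3).2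
        refine ⟨fun u => ∑ w, mu w * lam w u, fun s => ∑ w, mu w * mu' w s, fun b => ?_⟩
        rw [e2 b]
        have e3 : ∀ w, mu w * φ (f₀ w b) =
            (∑ u : ↥S, mu w * lam w u * φ (f₀ u.1 b)) + ∑ s, mu w * mu' w s * φ (U s b) := by
          intro w
          rw [hlm w b, mul_add, Finset.mul_sum, Finset.mul_sum]
          refine congrArg₂ (· + ·) (Finset.sum_congr rfl fun u _ => ?_) (Finset.sum_congr rfl fun s _ => ?_)
          · rw [mul_assoc]
          · rw [mul_assoc]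
        rw [Finset.sum_congr rfl fun w _ => e3 w, Finset.sum_add_distrib, Finset.sum_comm]
        refine congrArg₂ (· + ·) (Finset.sum_congr rfl fun u _ => ?_) ?_
        · exact (Finset.sum_mul _ _ _).symm
        · rw [Finset.sum_comm]
          exact Finset.sum_congr rfl fun s _ => (Finset.sum_mul _ _ _).symm }

end

end MPadcHS
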