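import Pool.Agent.Lib.MP_adc574_ag_DC.PLin

/-!
# JOB SpU (HS, Part P): spreading out linear algebra over a domain `B` (pure linear algebra)

`j₀ : B → K₀` injective, `K₀` a field. All statements: there is `g ≠ 0` such that the property holds over every field `K` and every `φ : B → K` with `φ g ≠ 0`.
* `inj_spread`: the matrix `j₀ M` has a nonzero maximal minor (injective matrix `card β ≤ rank`): there is `s : β → α` with `det (M (s b') b) ≠ 0` (`exists_minor`-type lemma: see DC/PLin.lean, `exists_minor`, applied to the linearly independent columns `b ↦ (a ↦ j₀ (M a b))`); `g := det`. If `φ g ≠ 0` then `φ M` is injective (`Matrix.eq_zero_of_mulVec_eq_zero`, `RingHom.map_det`).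
* `surj_spread`: the same for the transposed matrix: the rows are linearly independent, `s : α → β`, `g := det (M a (s a'))`; if `φ g ≠ 0`: solve with `x` supported on the image of `s` (`Matrix.mulVec` with the inverse matrix, `Matrix.isUnit_iff_isUnit_det`).
* `solve_spread`: work over `F := FractionRing B`: over `K₀` the vector `j₀ (N a)` is in the span of the `j₀ (R r)`; then over `F` too (a linear system over `F` solvable over an extension field is solvable over `F`: `F → K₀` by `IsFractionRing.lift`; take an `F`-linear projection `K₀ → F` with `1 ↦ 1` (`LinearMap.exists_leftInverse_of_injective`) and apply it to the coefficients). Multiply by a common denominator `g ≠ 0` (`IsLocalization.exist_integer_multiples`): `g * N a b = ∑ r, l r * R r b` over `B`, and apply `φ`.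
-/

set_option autoImplicit false

namespace MPadcHS

open Module

universe u v w

section

variable {B : Type u} [CommRing B] [IsDomain B] {α β ρ τ ω : Type} [Fintype α] [Fintype β] [Fintype ρ] [Fintype τ]
  [Fintype ω] [DecidableEq α] [DecidableEq β] [DecidableEq ρ] [DecidableEq τ] [DecidableEq ω]

theorem inj_spread (M : α → β → B) {K₀ : Type u} [Field K₀] (j₀ : B →+* K₀) (hj : Function.Injective j₀)
    (h0 : ∀ x : β → K₀, (∀ a, ∑ b, j₀ (M a b) * x b = 0) → x = 0) :
    ∃ g : B, g ≠ 0 ∧ ∀ (K : Type u) [Field K] (φ : B →+* K), φ g ≠ 0 →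
      ∀ x : β → K, (∀ a, ∑ b, φ (M a b) * x b = 0) → x = 0 := by
  have hli : LinearIndependent K₀ (fun (b : β) (a : α) => j₀ (M a b)) := by
    rw [Fintype.linearIndependent_iff]
    intro x hx b
    have h1 : x = 0 := by
      refine h0 x fun a => ?_
      have h2 := congrFun hx a
      rw [Finset.sum_apply, Pi.zero_apply] at h2
      rw [← h2]
      exact Finset.sum_congr rfl fun b _ => mul_comm _ _
    rw [h1, Pi.zero_apply]
  obtain ⟨s, hs⟩ := MPadcDC.exists_minor_ne (fun (b : β) (a : α) => j₀ (M a b)) hli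
  have hdet : ∀ {K : Type u} [Field K] (φ : B →+* K),
      φ (Matrix.of fun v u : β => M (s u) v).det = (Matrix.of fun v u : β => φ (M (s u) v)).det := by
    intro K _ φ
    rw [RingHom.map_det]
    rfl
  refine ⟨(Matrix.of fun v u : β => M (s u) v).det, ?_, ?_⟩
  · intro h
    apply hs
    rw [← hdet j₀, h, map_zero]
  · intro K _ φ hφ x hx
    rw [hdet φ] at hφ
    refine Matrix.eq_zero_of_vecMul_eq_zero hφ ?_
    funext u
    have h1 := hx (s u)
    rw [Pi.zero_apply, ← h1]
    exact Finset.sum_congr rfl fun b _ => mul_comm _ _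

theorem surj_spread (M : α → β → B) {K₀ : Type u} [Field K₀] (j₀ : B →+* K₀) (hj : Function.Injective j₀)
    (h0 : ∀ y : α → K₀, ∃ x : β → K₀, ∀ a, ∑ b, j₀ (M a b) * x b = y a) :
    ∃ g : B, g ≠ 0 ∧ ∀ (K : Type u) [Field K] (φ : B →+* K), φ g ≠ 0 →
      ∀ y : α → K, ∃ x : β → K, ∀ a, ∑ b, φ (M a b) * x b = y a := by
  have hli : LinearIndependent K₀ (fun (a : α) (b : β) => j₀ (M a b)) := by
    rw [Fintype.linearIndependent_iff]
    intro lam hlam a
    obtain ⟨x, hx⟩ := h0 (Pi.single a 1)
    have h1 : ∑ a', lam a' * (∑ b, j₀ (M a' b) * x b) = lam a := by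
      rw [Finset.sum_eq_single a]
      · rw [hx a, Pi.single_eq_same, mul_one]
      · intro a' _ ha'
        rw [hx a', Pi.single_eq_of_ne ha', mul_zero]
      · intro h
        exact absurd (Finset.mem_univ a) h
    rw [← h1]
    have h2 : ∀ a', lam a' * (∑ b, j₀ (M a' b) * x b) = ∑ b, (lam a' * j₀ (M a' b)) * x b := by
      intro a'
      rw [Finset.mul_sum]
      exact Finset.sum_congr rfl fun b _ => (mul_assoc _ _ _).symm
    rw [Finset.sum_congr rfl fun a' _ => h2 a', Finset.sum_comm]
    refine Finset.sum_eq_zero fun b _ => ?_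
    rw [← Finset.sum_mul]
    have h3 := congrFun hlam b
    rw [Finset.sum_apply, Pi.zero_apply] at h3
    have h4 : ∑ a', lam a' * j₀ (M a' b) = 0 := h3
    rw [h4, zero_mul]
  obtain ⟨s, hs⟩ := MPadcDC.exists_minor_ne (fun (a : α) (b : β) => j₀ (M a b)) hli
  have hdet : ∀ {K : Type u} [Field K] (φ : B →+* K),
      φ (Matrix.of fun v u : α => M v (s u)).det = (Matrix.of fun v u : α => φ (M v (s u))).det := by
    intro K _ φ
    rw [RingHom.map_det]
    rfl
  refine ⟨(Matrix.of fun v u : α => M v (s u)).det, ?_, ?_⟩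
  · intro h
    apply hs
    rw [← hdet j₀, h, map_zero]
  · intro K _ φ hφ y
    rw [hdet φ] at hφ
    obtain ⟨D, hD⟩ : ∃ D : Matrix α α K, D = Matrix.of fun v u : α => φ (M v (s u)) := ⟨_, rfl⟩
    rw [← hD] at hφ
    have hu : IsUnit D.det := IsUnit.mk0 _ hφ
    obtain ⟨z, hz⟩ : ∃ z : α → K, D.mulVec z = y := by
      refine ⟨D⁻¹.mulVec y, ?_⟩
      rw [Matrix.mulVec_mulVec, Matrix.mul_nonsing_inv D hu, Matrix.one_mulVec]
    refine ⟨fun b => ∑ u, if s u = b then z u else 0, fun a => ?_⟩
    have h1 : ∀ b, φ (M a b) * (∑ u, if s u = b then z u else 0) =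
        ∑ u, if s u = b then φ (M a (s u)) * z u else 0 := by
      intro b
      rw [Finset.mul_sum]
      refine Finset.sum_congr rfl fun u _ => ?_
      by_cases h : s u = b
      · rw [if_pos h, if_pos h, h]
      · rw [if_neg h, if_neg h, mul_zero]
    rw [Finset.sum_congr rfl fun b _ => h1 b, Finset.sum_comm]
    have h2 : ∀ u, (∑ b, if s u = b then φ (M a (s u)) * z u else 0) = φ (M a (s u)) * z u := by
      intro u
      rw [Finset.sum_ite_eq Finset.univ (s u), if_pos (Finset.mem_univ _)]
    rw [Finset.sum_congr rfl fun u _ => h2 u, ← hz, hD]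
    rfl

theorem solve_spread (N : α → β → B) (R : ρ → β → B) {K₀ : Type u} [Field K₀] (j₀ : B →+* K₀)
    (hj : Function.Injective j₀) (h0 : ∀ a, ∃ lam : ρ → K₀, ∀ b, j₀ (N a b) = ∑ r, lam r * j₀ (R r b)) :
    ∃ g : B, g ≠ 0 ∧ ∀ (K : Type u) [Field K] (φ : B →+* K), φ g ≠ 0 →
      ∀ a, ∃ lam : ρ → K, ∀ b, φ (N a b) = ∑ r, lam r * φ (R r b) := by
  choose lam hlam using h0
  let L : FractionRing B →+* K₀ := IsFractionRing.lift hj
  letI : Algebra (FractionRing B) K₀ := L.toAlgebra
  have hL : ∀ x : B, L (algebraMap B (FractionRing B) x) = j₀ x := fun x => IsFractionRing.lift_algebraMap hj x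
  have hLi : Function.Injective L := L.injective
  obtain ⟨π, hπ⟩ := LinearMap.exists_leftInverse_of_injective (Algebra.linearMap (FractionRing B) K₀)
    (LinearMap.ker_eq_bot_of_injective (show Function.Injective (Algebra.linearMap (FractionRing B) K₀) from hLi))
  have hπ1 : ∀ x : FractionRing B, π (L x) = x := fun x => LinearMap.congr_fun hπ x
  have hmu : ∀ a b, algebraMap B (FractionRing B) (N a b) =
      ∑ r, algebraMap B (FractionRing B) (R r b) * π (lam a r) := by
    intro a b
    have h1 := congrArg π (hlam a b)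
    rw [← hL, hπ1, map_sum] at h1
    rw [h1]
    refine Finset.sum_congr rfl fun r _ => ?_
    have h2 : lam a r * j₀ (R r b) = algebraMap B (FractionRing B) (R r b) • lam a r := by
      rw [Algebra.smul_def, mul_comm]
      congr 1
      exact (hL _).symm
    rw [h2, map_smul, smul_eq_mul]
  obtain ⟨g, hg⟩ := IsLocalization.exist_integer_multiples_of_finite (nonZeroDivisors B)
    (fun ar : α × ρ => π (lam ar.1 ar.2))
  have hl : ∀ a r, ∃ l : B, algebraMap B (FractionRing B) l = algebraMap B (FractionRing B) (g : B) * π (lam a r) := by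
    intro a r
    obtain ⟨l, hl⟩ := hg (a, r)
    refine ⟨l, ?_⟩
    rw [hl, Algebra.smul_def]
  choose l hl using hl
  refine ⟨(g : B), nonZeroDivisors.ne_zero g.2, ?_⟩
  intro K _ φ hφ a
  have hB : ∀ b, (g : B) * N a b = ∑ r, l a r * R r b := by
    intro b
    apply IsFractionRing.injective B (FractionRing B)
    rw [map_mul, map_sum, hmu, Finset.mul_sum]
    refine Finset.sum_congr rfl fun r _ => ?_
    rw [map_mul, hl]
    ring
  refine ⟨fun r => (φ (g : B))⁻¹ * φ (l a r), fun b => ?_⟩
  have h1 := congrArg φ (hB b)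
  rw [map_mul, map_sum] at h1
  have h2 : φ (N a b) = (φ (g : B))⁻¹ * (φ (g : B) * φ (N a b)) := by
    rw [← mul_assoc, inv_mul_cancel₀ hφ, one_mul]
  rw [h2, h1, Finset.mul_sum]
  refine Finset.sum_congr rfl fun r _ => ?_
  rw [map_mul, mul_assoc]

end

end MPadcHS
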