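import Pool.Agent.Lib.MP_adc574_ag_HS.SpB
import Pool.Agent.Lib.MP_adc574_ag_HS.SpU
import Pool.Agent.Lib.MP_adc574_ag_HS.GyK

/-!
# JOB SpD (HS, Part P): spreading out `Akn`

`Rv m`, `Gv m` (`choose` from `exists_Rv`, `exists_Gv` for all `m`). Over `φ : B → K` with `Gd (bI φ Q) (bI φ P)`: `resR (eqv y) x` iff `x = eqv (φ Rv y)` (`exists_rH`), `gys (eqv x) y` iff `y = eqv (φ Gv x)` (`exists_gy`), `IsAd.eqv_mem_Fil`, `eqv` bijective. `resR_Fil` says: if `y b = 0` for `lev m b < a` then `(φ Rv y) b' = 0` for `lev' m b' < a`. `gys_Fil`: if `x b' = 0` for `lev' m b' < a` then `(φ Gv x) b = 0` for `lev (m + 2) b < a + 1`.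
* `rinj a` over `φ` iff the matrix `{b' // lev' d b' = a} → {b // lev d b = a} → B`, `Rv d b' b`, is injective (`∀ x, (∀ b', ∑ b, φ (..) * x b = 0) → x = 0`): if `y b = 0` for `lev b < a` and `(φ Rv y) b' = 0` for `lev' b' < a + 1`, write `y = y₁ + y₂`, `y₂` supported on `lev ≥ a + 1`, `y₁` on `lev = a`; `(φ Rv y₂) b' = 0` for `lev' b' = a`. Conversely for `y` supported on `lev = a`.
* `gsurj a` over `φ` iff the matrix `{b // ¬ lev (d + 2) b < a + 1} → {b' // ¬ lev' d b' < a} → B`, `Gv d b b'`, is surjective. `gsurj0` iff `Gv d` is surjective, `rsurj j` iff `Rv j` is surjective, `ginj j` iff `Gv j` is injective.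
Spread each with `inj_spread`, `surj_spread` (SpU). Only finitely many conditions: `a` up to the maximum of the levels `lev d`, `lev (d + 2)` (for larger `a`, `rinj`, `gsurj` hold trivially for all `φ`: the index types on the side of `Y` are empty), `j < d`, and `d < j < N` with `β' m` empty for `m ≥ N` (`hDP.bound`). `g := ` the product.
-/

set_option autoImplicit false

namespace MPadcHS

open MvPolynomial MPadcGP MPadcDC

universe u v w

section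

variable {B : Type u} [CommRing B] {n : ℕ} {Q P : Ideal (MvPolynomial (Fin (n + 1)) B)}
  {β : ℕ → Type} [∀ m, Fintype (β m)] {lev : ∀ m, β m → ℕ} {z : ∀ m, β m → (prC Q).Ch} {h : ℕ → ℕ → ℕ}
  {β' : ℕ → Type} [∀ m, Fintype (β' m)] {lev' : ∀ m, β' m → ℕ} {z' : ∀ m, β' m → (prC P).Ch} {h' : ℕ → ℕ → ℕ}

private theorem SpD_sum {ι : Type} [Fintype ι] {K : Type u} [Field K] (p : ι → Prop) [DecidablePred p] (f y : ι → K)
    (hy : ∀ i, ¬p i → y i = 0) : ∑ i, f i * y i = ∑ i : {i // p i}, f i * y i := by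
  rw [← Finset.sum_subtype (Finset.univ.filter p) (fun x => by simp) (fun i => f i * y i), Finset.sum_filter]
  refine Finset.sum_congr rfl fun i _ => ?_
  by_cases h : p i
  · rw [if_pos h]
  · rw [if_neg h, hy i h, mul_zero]

private theorem SpD_fin (C : ℕ → ∀ (K : Type u) [Field K], (B →+* K) → Prop) [IsDomain B] (N : ℕ)
    (h : ∀ i < N, ∃ g : B, g ≠ 0 ∧ ∀ (K : Type u) [Field K] (φ : B →+* K), φ g ≠ 0 → C i K φ) :
    ∃ g : B, g ≠ 0 ∧ ∀ (K : Type u) [Field K] (φ : B →+* K), φ g ≠ 0 → ∀ i < N, C i K φ := by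
  induction N with
  | zero => exact ⟨1, one_ne_zero, fun K _ φ _ i hi => absurd hi (Nat.not_lt_zero i)⟩
  | succ N ih =>
    obtain ⟨g, hg, h1⟩ := ih fun i hi => h i (Nat.lt_succ_of_lt hi)
    obtain ⟨g', hg', h2⟩ := h N (Nat.lt_succ_self N)
    refine ⟨g * g', mul_ne_zero hg hg', fun K _ φ hφ i hi => ?_⟩
    rw [map_mul] at hφ
    rcases Nat.lt_succ_iff_lt_or_eq.1 hi with h3 | rfl
    · exact h1 K φ (left_ne_zero_of_mul hφ) i h3
    · exact h2 K φ (right_ne_zero_of_mul hφ)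

private theorem SpD_bd {ι : Type} [Fintype ι] (l : ι → ℕ) : ∃ N, ∀ i, l i < N := by
  refine ⟨∑ i, (l i + 1), fun i => ?_⟩
  have h1 : l i + 1 ≤ ∑ i, (l i + 1) :=
    Finset.single_le_sum (f := fun i => l i + 1) (fun _ _ => Nat.zero_le _) (Finset.mem_univ i)
  omega

/-- The matrix conditions. -/
private structure SpD_M (lev : ∀ m, β m → ℕ) (lev' : ∀ m, β' m → ℕ) (Rv : ∀ m, β' m → β m → B)
    (Gv : ∀ m, β (m + 2) → β' m → B) (d : ℕ) (K : Type u) [Field K] (φ : B →+* K) : Prop where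
  c1 : ∀ (a : ℕ) (x : {b : β d // lev d b = a} → K),
    (∀ b' : {b' : β' d // lev' d b' = a}, ∑ b : {b : β d // lev d b = a}, φ (Rv d b' b) * x b = 0) → x = 0
  c2 : ∀ (a : ℕ) (y : {b : β (d + 2) // ¬lev (d + 2) b < a + 1} → K), ∃ x : {b' : β' d // ¬lev' d b' < a} → K,
    ∀ b : {b : β (d + 2) // ¬lev (d + 2) b < a + 1}, ∑ b' : {b' : β' d // ¬lev' d b' < a}, φ (Gv d b b') * x b' = y b
  c3 : ∀ y : β (d + 2) → K, ∃ x : β' d → K, ∀ b, ∑ b', φ (Gv d b b') * x b' = y b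
  c4 : ∀ j, j < d → ∀ y : β' j → K, ∃ x : β j → K, ∀ b', ∑ b, φ (Rv j b' b) * x b = y b'
  c5 : ∀ j, d < j → ∀ x : β' j → K, (∀ b, ∑ b', φ (Gv j b b') * x b' = 0) → x = 0

private theorem SpD_spread [IsDomain B] (Rv : ∀ m, β' m → β m → B) (Gv : ∀ m, β (m + 2) → β' m → B) (d : ℕ)
    (hb : ∃ N, ∀ m, N ≤ m → IsEmpty (β' m)) {K₀ : Type u} [Field K₀] (j₀ : B →+* K₀) (hj : Function.Injective j₀)
    (h0 : SpD_M lev lev' Rv Gv d K₀ j₀) :
    ∃ g : B, g ≠ 0 ∧ ∀ (K : Type u) [Field K] (φ : B →+* K), φ g ≠ 0 → SpD_M lev lev' Rv Gv d K φ := by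
  classical
  obtain ⟨N₁, hN₁⟩ := SpD_bd (lev d)
  obtain ⟨N₂, hN₂⟩ := SpD_bd (lev (d + 2))
  obtain ⟨N₃, hN₃⟩ := hb
  obtain ⟨g₁, hg₁, h₁⟩ := SpD_fin (fun a K _ φ => ∀ x : {b : β d // lev d b = a} → K,
    (∀ b' : {b' : β' d // lev' d b' = a}, ∑ b : {b : β d // lev d b = a}, φ (Rv d b' b) * x b = 0) → x = 0) N₁
    fun a _ => inj_spread (fun (b' : {b' : β' d // lev' d b' = a}) (b : {b : β d // lev d b = a}) => Rv d b' b)
      j₀ hj (h0.c1 a)
  obtain ⟨g₂, hg₂, h₂⟩ := SpD_fin (fun a K _ φ => ∀ y : {b : β (d + 2) // ¬lev (d + 2) b < a + 1} → K,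
    ∃ x : {b' : β' d // ¬lev' d b' < a} → K, ∀ b : {b : β (d + 2) // ¬lev (d + 2) b < a + 1},
      ∑ b' : {b' : β' d // ¬lev' d b' < a}, φ (Gv d b b') * x b' = y b) N₂
    fun a _ => surj_spread (fun (b : {b : β (d + 2) // ¬lev (d + 2) b < a + 1})
      (b' : {b' : β' d // ¬lev' d b' < a}) => Gv d b b') j₀ hj (h0.c2 a)
  obtain ⟨g₃, hg₃, h₃⟩ := surj_spread (Gv d) j₀ hj h0.c3
  obtain ⟨g₄, hg₄, h₄⟩ := SpD_fin (fun j K _ φ => ∀ y : β' j → K, ∃ x : β j → K,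
    ∀ b', ∑ b, φ (Rv j b' b) * x b = y b') d fun j hjd => surj_spread (Rv j) j₀ hj (h0.c4 j hjd)
  obtain ⟨g₅, hg₅, h₅⟩ := SpD_fin (fun j K _ φ => d < j → ∀ x : β' j → K,
    (∀ b, ∑ b', φ (Gv j b b') * x b' = 0) → x = 0) N₃ fun j _ => by
      by_cases hjd : d < j
      · obtain ⟨g, hg, h⟩ := inj_spread (Gv j) j₀ hj (h0.c5 j hjd)
        exact ⟨g, hg, fun K _ φ hφ _ => h K φ hφ⟩
      · exact ⟨1, one_ne_zero, fun K _ φ _ h => absurd h hjd⟩
  refine ⟨g₁ * g₂ * g₃ * g₄ * g₅,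
    mul_ne_zero (mul_ne_zero (mul_ne_zero (mul_ne_zero hg₁ hg₂) hg₃) hg₄) hg₅, fun K _ φ hφ => ?_⟩
  rw [map_mul, map_mul, map_mul, map_mul] at hφ
  have k5 : φ g₅ ≠ 0 := right_ne_zero_of_mul hφ
  have k4' := left_ne_zero_of_mul hφ
  have k4 : φ g₄ ≠ 0 := right_ne_zero_of_mul k4'
  have k3' := left_ne_zero_of_mul k4'
  have k3 : φ g₃ ≠ 0 := right_ne_zero_of_mul k3'
  have k2' := left_ne_zero_of_mul k3'
  have k2 : φ g₂ ≠ 0 := right_ne_zero_of_mul k2'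
  have k1 : φ g₁ ≠ 0 := left_ne_zero_of_mul k2'
  refine ⟨fun a => ?_, fun a => ?_, h₃ K φ k3, fun j hjd => h₄ K φ k4 j hjd, fun j hjd => ?_⟩
  · by_cases ha : a < N₁
    · exact h₁ K φ k1 a ha
    · intro x _
      funext b
      exact absurd (b.2 ▸ hN₁ b.1) ha
  · by_cases ha : a < N₂
    · exact h₂ K φ k2 a ha
    · intro y
      refine ⟨0, fun b => ?_⟩
      have := hN₂ b.1
      have := b.2
      omega
  · by_cases ha : j < N₃
    · exact h₅ K φ k5 j ha hjd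
    · intro x _
      have := hN₃ j (not_lt.1 ha)
      exact Subsingleton.elim _ _

private theorem SpD_res (hle : Q ≤ P) (hDQ : Dat Q lev z h) (hDP : Dat P lev' z' h') {m : ℕ} {Rv : β' m → β m → B}
    {K : Type u} [Field K] {φ : B →+* K}
    (hR : ∀ x : β m → K,
      resR (le_map φ hle) m ((hDQ.ad K φ).eqv m x) ((hDP.ad K φ).eqv m fun b' => ∑ b, φ (Rv b' b) * x b))
    (x : β m → K) (X : (prC (bI φ P)).HdR m) :
    resR (le_map φ hle) m ((hDQ.ad K φ).eqv m x) X ↔ X = (hDP.ad K φ).eqv m fun b' => ∑ b, φ (Rv b' b) * x b := by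
  obtain ⟨r, hr⟩ := exists_rH (le_map φ hle) m
  have h1 := (hr _ _).1 (hR x)
  rw [hr, h1]
  exact eq_comm

private theorem SpD_gys (hle : Q ≤ P) (hDQ : Dat Q lev z h) (hDP : Dat P lev' z' h') {m : ℕ}
    {Gv : β (m + 2) → β' m → B} {K : Type u} [Field K] {φ : B →+* K} (hGd : Gd (bI φ Q) (bI φ P))
    (hGv : ∀ x : β' m → K,
      gys (le_map φ hle) m ((hDP.ad K φ).eqv m x) ((hDQ.ad K φ).eqv (m + 2) fun b => ∑ b', φ (Gv b b') * x b'))
    (x : β' m → K) (Y : (prC (bI φ Q)).HdR (m + 2)) :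
    gys (le_map φ hle) m ((hDP.ad K φ).eqv m x) Y ↔
      Y = (hDQ.ad K φ).eqv (m + 2) fun b => ∑ b', φ (Gv b b') * x b' := by
  obtain ⟨r, hr⟩ := exists_gy hGd (le_map φ hle) m
  have h1 := (hr _ _).1 (hGv x)
  rw [hr, h1]
  exact eq_comm

private theorem SpD_iff (hle : Q ≤ P) (hDQ : Dat Q lev z h) (hDP : Dat P lev' z' h') {Rv : ∀ m, β' m → β m → B}
    {Gv : ∀ m, β (m + 2) → β' m → B}
    (hR : ∀ m (K : Type u) [Field K] (φ : B →+* K) (x : β m → K),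
      resR (le_map φ hle) m ((hDQ.ad K φ).eqv m x) ((hDP.ad K φ).eqv m fun b' => ∑ b, φ (Rv m b' b) * x b))
    (hGv : ∀ m (K : Type u) [Field K] (φ : B →+* K) (x : β' m → K),
      gys (le_map φ hle) m ((hDP.ad K φ).eqv m x) ((hDQ.ad K φ).eqv (m + 2) fun b => ∑ b', φ (Gv m b b') * x b'))
    (d : ℕ) (K : Type u) [Field K] (φ : B →+* K) (hGd : Gd (bI φ Q) (bI φ P)) :
    Akn (le_map φ hle) d ↔ SpD_M lev lev' Rv Gv d K φ := by
  classical
  have hr := fun m => SpD_res hle hDQ hDP (hR m K φ)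
  have hg := fun m => SpD_gys hle hDQ hDP hGd (hGv m K φ)
  have hrF : ∀ (a : ℕ) (y : β d → K), (∀ b, lev d b < a → y b = 0) →
      ∀ b', lev' d b' < a → ∑ b, φ (Rv d b' b) * y b = 0 := by
    intro a y hy
    have h1 := resR_Fil (le_map φ hle) (hR d K φ y) ((hDQ.ad K φ).eqv_mem_Fil.2 hy)
    exact (hDP.ad K φ).eqv_mem_Fil.1 h1
  have hgF : ∀ (a : ℕ) (x : β' d → K), (∀ b', lev' d b' < a → x b' = 0) →
      ∀ b, lev (d + 2) b < a + 1 → ∑ b', φ (Gv d b b') * x b' = 0 := by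
    intro a x hx
    have h1 := gys_Fil hGd (le_map φ hle) (hGv d K φ x) ((hDP.ad K φ).eqv_mem_Fil.2 hx)
    exact (hDQ.ad K φ).eqv_mem_Fil.1 h1
  constructor
  · intro hA
    refine ⟨fun a x hx => ?_, fun a y => ?_, fun y => ?_, fun j hj y => ?_, fun j hj x hx => ?_⟩
    · obtain ⟨y, hy⟩ : ∃ y : β d → K, y = fun b => if hb : lev d b = a then x ⟨b, hb⟩ else 0 := ⟨_, rfl⟩
      have hy1 : ∀ b (hb : lev d b = a), y b = x ⟨b, hb⟩ := fun b hb => by rw [hy]; exact dif_pos hb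
      have hy2 : ∀ b, ¬lev d b = a → y b = 0 := fun b hb => by rw [hy]; exact dif_neg hb
      have h1 : (hDQ.ad K φ).eqv d y ∈ (prC (bI φ Q)).Fil d a :=
        (hDQ.ad K φ).eqv_mem_Fil.2 fun b hb => hy2 b (by omega)
      have h2 : (hDP.ad K φ).eqv d (fun b' => ∑ b, φ (Rv d b' b) * y b) ∈ (prC (bI φ P)).Fil d (a + 1) := by
        refine (hDP.ad K φ).eqv_mem_Fil.2 fun b' hb' => ?_
        rcases Nat.lt_succ_iff_lt_or_eq.1 hb' with h3 | h3
        · exact hrF a y (fun b hb => hy2 b (by omega)) b' h3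
        · have h4 := hx ⟨b', h3⟩
          rw [SpD_sum (fun b => lev d b = a) (fun b => φ (Rv d b' b)) y hy2, ← h4]
          exact Finset.sum_congr rfl fun b _ => by rw [hy1 b.1 b.2]
      have h3 := hA.rinj a _ _ (hR d K φ y) h1 h2
      have h4 := (hDQ.ad K φ).eqv_mem_Fil.1 h3
      funext b
      have h5 := h4 b.1 (by have := b.2; omega)
      rw [hy1 b.1 b.2] at h5
      exact h5
    · obtain ⟨y₁, hy⟩ : ∃ y₁ : β (d + 2) → K, y₁ = fun b => if hb : ¬lev (d + 2) b < a + 1 then y ⟨b, hb⟩ else 0 :=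
        ⟨_, rfl⟩
      have hy1 : ∀ b (hb : ¬lev (d + 2) b < a + 1), y₁ b = y ⟨b, hb⟩ := fun b hb => by rw [hy]; exact dif_pos hb
      have hy2 : ∀ b, lev (d + 2) b < a + 1 → y₁ b = 0 := fun b hb => by rw [hy]; exact dif_neg (not_not.2 hb)
      obtain ⟨X, hX, hXy⟩ := hA.gsurj a _ ((hDQ.ad K φ).eqv_mem_Fil.2 hy2)
      obtain ⟨x, rfl⟩ := ((hDP.ad K φ).eqv d).surjective X
      have h1 := (hDP.ad K φ).eqv_mem_Fil.1 hX
      have h2 := ((hDQ.ad K φ).eqv (d + 2)).injective ((hg d x _).1 hXy)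
      refine ⟨fun b' => x b', fun b => ?_⟩
      rw [← hy1 b.1 b.2, h2]
      exact (SpD_sum (fun b' => ¬lev' d b' < a) (fun b' => φ (Gv d b b')) x fun b' hb' => h1 b' (not_not.1 hb')).symm
    · obtain ⟨X, hX⟩ := hA.gsurj0 ((hDQ.ad K φ).eqv (d + 2) y)
      obtain ⟨x, rfl⟩ := ((hDP.ad K φ).eqv d).surjective X
      have h2 := ((hDQ.ad K φ).eqv (d + 2)).injective ((hg d x _).1 hX)
      exact ⟨x, fun b => by rw [h2]⟩
    · obtain ⟨Y, hY⟩ := hA.rsurj j hj ((hDP.ad K φ).eqv j y)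
      obtain ⟨x, rfl⟩ := ((hDQ.ad K φ).eqv j).surjective Y
      have h2 := ((hDP.ad K φ).eqv j).injective ((hr j x _).1 hY)
      exact ⟨x, fun b => by rw [h2]⟩
    · have h1 : gys (le_map φ hle) j ((hDP.ad K φ).eqv j x) 0 := by
        rw [hg j x, eq_comm, LinearEquiv.map_eq_zero_iff]
        exact funext hx
      have h2 := hA.ginj j hj _ h1
      exact (LinearEquiv.map_eq_zero_iff _).1 h2
  · intro hM
    refine ⟨fun a Y X hYX hY hX => ?_, fun a Y hY => ?_, fun Y => ?_, fun j hj X => ?_, fun j hj X hX => ?_⟩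
    · obtain ⟨y, rfl⟩ := ((hDQ.ad K φ).eqv d).surjective Y
      have h1 := (hDQ.ad K φ).eqv_mem_Fil.1 hY
      rw [(hr d y X).1 hYX] at hX
      have h2 := (hDP.ad K φ).eqv_mem_Fil.1 hX
      obtain ⟨y₂, hy₂⟩ : ∃ y₂ : β d → K, y₂ = fun b => if lev d b = a then 0 else y b := ⟨_, rfl⟩
      have hy21 : ∀ b, lev d b = a → y₂ b = 0 := fun b hb => by rw [hy₂]; exact if_pos hb
      have hy22 : ∀ b, ¬lev d b = a → y₂ b = y b := fun b hb => by rw [hy₂]; exact if_neg hb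
      have h3 := hrF (a + 1) y₂ fun b hb => by
        by_cases h4 : lev d b = a
        · exact hy21 b h4
        · rw [hy22 b h4]
          exact h1 b (by omega)
      have h4 : (fun b : {b : β d // lev d b = a} => y b) = 0 := by
        refine hM.c1 a _ fun b' => ?_
        have h5 : ∑ b, φ (Rv d b' b) * (y b - y₂ b) = 0 := by
          have h6 : ∑ b, φ (Rv d b' b) * (y b - y₂ b) =
              ∑ b, φ (Rv d b' b) * y b - ∑ b, φ (Rv d b' b) * y₂ b := by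
            rw [← Finset.sum_sub_distrib]
            exact Finset.sum_congr rfl fun b _ => mul_sub _ _ _
          rw [h6, h2 b'.1 (by have := b'.2; omega), h3 b'.1 (by have := b'.2; omega), sub_zero]
        rw [SpD_sum (fun b => lev d b = a) (fun b => φ (Rv d b' b)) (fun b => y b - y₂ b)
          fun b hb => by rw [hy22 b hb, sub_self]] at h5
        rw [← h5]
        exact Finset.sum_congr rfl fun b _ => by rw [hy21 b.1 b.2, sub_zero]
      refine (hDQ.ad K φ).eqv_mem_Fil.2 fun b hb => ?_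
      rcases Nat.lt_succ_iff_lt_or_eq.1 hb with h5 | h5
      · exact h1 b h5
      · exact congrFun h4 ⟨b, h5⟩
    · obtain ⟨y, rfl⟩ := ((hDQ.ad K φ).eqv (d + 2)).surjective Y
      have h1 := (hDQ.ad K φ).eqv_mem_Fil.1 hY
      obtain ⟨x, hx⟩ := hM.c2 a fun b => y b
      obtain ⟨x₁, hx₁⟩ : ∃ x₁ : β' d → K, x₁ = fun b' => if hb : ¬lev' d b' < a then x ⟨b', hb⟩ else 0 := ⟨_, rfl⟩
      have hx1 : ∀ b' (hb : ¬lev' d b' < a), x₁ b' = x ⟨b', hb⟩ := fun b' hb => by rw [hx₁]; exact dif_pos hb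
      have hx2 : ∀ b', lev' d b' < a → x₁ b' = 0 := fun b' hb => by rw [hx₁]; exact dif_neg (not_not.2 hb)
      refine ⟨(hDP.ad K φ).eqv d x₁, (hDP.ad K φ).eqv_mem_Fil.2 hx2, ?_⟩
      rw [hg d x₁]
      congr 1
      funext b
      by_cases hb : lev (d + 2) b < a + 1
      · rw [h1 b hb, hgF a x₁ hx2 b hb]
      · rw [SpD_sum (fun b' => ¬lev' d b' < a) (fun b' => φ (Gv d b b')) x₁ fun b' hb' => hx2 b' (not_not.1 hb')]
        have h3 := hx ⟨b, hb⟩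
        rw [← h3]
        exact Finset.sum_congr rfl fun b' _ => by rw [hx1 b'.1 b'.2]
    · obtain ⟨y, rfl⟩ := ((hDQ.ad K φ).eqv (d + 2)).surjective Y
      obtain ⟨x, hx⟩ := hM.c3 y
      refine ⟨(hDP.ad K φ).eqv d x, ?_⟩
      rw [hg d x]
      congr 1
      exact funext fun b => (hx b).symm
    · obtain ⟨y, rfl⟩ := ((hDP.ad K φ).eqv j).surjective X
      obtain ⟨x, hx⟩ := hM.c4 j hj y
      refine ⟨(hDQ.ad K φ).eqv j x, ?_⟩
      rw [hr j x]
      congr 1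
      exact funext fun b => (hx b).symm
    · obtain ⟨x, rfl⟩ := ((hDP.ad K φ).eqv j).surjective X
      rw [hg j x, eq_comm, LinearEquiv.map_eq_zero_iff] at hX
      rw [hM.c5 j hj x fun b => congrFun hX b, map_zero]

theorem akn_spread [IsDomain B] (hG : Gd Q P) (hle : Q ≤ P) (hDQ : Dat Q lev z h) (hDP : Dat P lev' z' h') (d : ℕ)
    {K₀ : Type u} [Field K₀] (j₀ : B →+* K₀) (hj : Function.Injective j₀) (hGd₀ : Gd (bI j₀ Q) (bI j₀ P))
    (h0 : Akn (le_map j₀ hle) d) :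
    ∃ g : B, g ≠ 0 ∧ ∀ (K : Type u) [Field K] (φ : B →+* K), φ g ≠ 0 → Gd (bI φ Q) (bI φ P) →
      Akn (le_map φ hle) d := by
  choose Rv hR using fun m => exists_Rv hle hDQ hDP m
  choose Gv hGv using fun m => exists_Gv hG hle hDQ hDP m
  have hiff := SpD_iff hle hDQ hDP (fun m K _ φ x => hR m K φ x) (fun m K _ φ x => hGv m K φ x) d
  obtain ⟨g, hg, h1⟩ := SpD_spread Rv Gv d hDP.bound j₀ hj ((hiff K₀ j₀ hGd₀).1 h0)
  exact ⟨g, hg, fun K _ φ hφ hGd => (hiff K φ hGd).2 (h1 K φ hφ)⟩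

end

end MPadcHS
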