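import Pool.Agent.Lib.MP_adc574_ag_HS.GyDefs

/-!
# HS, spreading out: definitions

`B` is a domain, `Q`, `P` are ideals over `B`, `φ : B → K` a homomorphism to a field. `hDQ : Dat Q lev z h`, `hDP : Dat P lev' z' h'` are
adapted bases (GP/Parts.lean); `(hDP.ad K φ).eqv m : (β' m → K) ≃ₗ[K] HdR m`.
`GoodL`: the coordinates of `V` (kernel of the Gysin map), `T` (image of the restriction) and `F^(i+1)` in degree `d`: `V` is the kernel of
the rows `Gz`, `V ∩ T` the span of the `U s`, `F^(i+1) ∩ V` is spanned by the `f u` modulo `V ∩ T`, and the `f u` are independent modulo `V ∩ T`.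
`GoodH`: moreover `Akn` and the stability of `V` and `V ∩ T` under the connection `DL + G`.
-/

set_option autoImplicit false

namespace MPadcHS

open MvPolynomial MPadcGP MPadcDC

universe u v w

theorem le_map {A : Type u} {B : Type v} [CommRing A] [CommRing B] {n : ℕ} {Q P : Ideal (MvPolynomial (Fin n) A)}
    (φ : A →+* B) (hle : Q ≤ P) : bI φ Q ≤ bI φ P := Ideal.map_mono hle

section

variable {B : Type u} [CommRing B] {n : ℕ} {Q P : Ideal (MvPolynomial (Fin (n + 1)) B)} (hle : Q ≤ P)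
  {β' : ℕ → Type} [∀ m, Fintype (β' m)] {lev' : ∀ m, β' m → ℕ} {z' : ∀ m, β' m → (prC P).Ch} {h' : ℕ → ℕ → ℕ}
  (hDP : Dat P lev' z' h') (d i : ℕ) {σ : Type} (D : σ → Derivation ℤ B B) (G : σ → ∀ m, β' m → β' m → B)
  {ρ τ S : Type} [Fintype ρ] [Fintype τ] [Fintype S] (Gz : ρ → β' d → B) (U : τ → β' d → B) (f : S → β' d → B)
  (K : Type u) [Field K] (φ : B →+* K)

/-- Coordinates of `V`, `V ∩ T`, `F^(i+1) ∩ V`. -/
structure GoodL : Prop where
  mem_V : ∀ x : β' d → K, (hDP.ad K φ).eqv d x ∈ Vg (le_map φ hle) d ↔ ∀ r, ∑ b, φ (Gz r b) * x b = 0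
  mem_T : ∀ x : β' d → K, (hDP.ad K φ).eqv d x ∈ Vg (le_map φ hle) d →
    ((hDP.ad K φ).eqv d x ∈ Tr (le_map φ hle) d ↔ ∃ mu : τ → K, ∀ b, x b = ∑ s, mu s * φ (U s b))
  U_V : ∀ s r, ∑ b, φ (Gz r b) * φ (U s b) = 0
  f_V : ∀ u r, ∑ b, φ (Gz r b) * φ (f u b) = 0
  f_F : ∀ u b, lev' d b < i + 1 → φ (f u b) = 0
  f_ind : ∀ (lam : S → K) (mu : τ → K), (∀ b, ∑ u, lam u * φ (f u b) + ∑ s, mu s * φ (U s b) = 0) → lam = 0
  f_span : ∀ x : β' d → K, (∀ r, ∑ b, φ (Gz r b) * x b = 0) → (∀ b, lev' d b < i + 1 → x b = 0) →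
    ∃ (lam : S → K) (mu : τ → K), ∀ b, x b = ∑ u, lam u * φ (f u b) + ∑ s, mu s * φ (U s b)

/-- Stability of `V` and `V ∩ T` under the connection. -/
structure GoodS : Prop where
  stV : ∀ (DL : σ → Derivation ℤ K K), (∀ γ x, DL γ (φ x) = φ (D γ x)) → ∀ γ (x : β' d → K),
    (∀ r, ∑ b, φ (Gz r b) * x b = 0) → ∀ r, ∑ b', φ (Gz r b') * (DL γ (x b') + ∑ b, φ (G γ d b' b) * x b) = 0
  stT : ∀ γ s, ∃ mu : τ → K, ∀ b', φ (D γ (U s b')) + ∑ b, φ (G γ d b' b) * φ (U s b) = ∑ s', mu s' * φ (U s' b')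

/-- Everything. -/
structure GoodH : Prop where
  akn : Akn (le_map φ hle) d
  lin : GoodL hle hDP d i Gz U f K φ
  st : GoodS d D G Gz U K φ

end

end MPadcHS
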