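import Pool.Agent.Lib.MP_adc574_ag_HS.SpA
import Pool.Agent.Lib.MP_adc574_ag_HS.SpC
import Pool.Agent.Lib.MP_adc574_ag_HS.SpD
import Pool.Agent.Lib.MP_adc574_ag_HS.LaB

/-!
# JOB SpE (HS, Part P): spreading out everything

`st_spread`: fix `γ` (then take the product over the finite type `σ`).
* `stV`: `N r b := ∑ b', Gz r b' * G γ d b' b - D γ (Gz r b)` over `B`. Claim: over `K₀`, for every `x` with `∑ b, j₀ (Gz r b) * x b = 0` for all `r`: `∑ b, j₀ (N r b) * x b = 0`: `eqv x ∈ Vg` (`hL.mem_V`), `nab_mk`, `hV`: the coordinates `y b' = DK γ (x b') + ∑ b, j₀ (G γ d b' b) * x b` satisfy `∑ b', j₀ (Gz r b') * y b' = 0`; and `0 = DK γ (∑ b', j₀ (Gz r b') * x b') = ∑ b', (j₀ (Gz r b') * DK γ (x b') + x b' * j₀ (D γ (Gz r b')))`. Subtract.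
  `row_span` (LaB, with `K = L = K₀`, `j = RingHom.id`): `j₀ (N r ·)` is a combination of the `j₀ (Gz r' ·)`. `solve_spread` (SpU): over `φ` with `φ g ≠ 0` the same. Then `stV` over `φ` by the same computation.
* `stT`: `N s b' := D γ (U s b') + ∑ b, G γ d b' b * U s b`. Over `K₀`: `x := j₀ ∘ U s`, `eqv x ∈ Vg` (`U_V`, `mem_V`) and `∈ Tr` (`mem_T`), so by `nab_mk`, `hV`, `hT` the class `eqv (j₀ ∘ N s)` is in `Vg` and `Tr`, so `j₀ ∘ N s` is a combination of the `j₀ ∘ U s'` (`mem_T`). `solve_spread`.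
`exists_good`: `exists_goodL` (its `g` satisfies `j₀ g ≠ 0` since `j₀` is injective, so `GoodL .. K₀ j₀` holds), `st_spread`, `akn_spread`; the product of the three elements.
-/

set_option autoImplicit false

namespace MPadcHS

open MvPolynomial MPadcGP MPadcDC

universe u v w

section

variable {B : Type u} [CommRing B] {n : ℕ} {Q P : Ideal (MvPolynomial (Fin (n + 1)) B)}
  {β : ℕ → Type} [∀ m, Fintype (β m)] {lev : ∀ m, β m → ℕ} {z : ∀ m, β m → (prC Q).Ch} {h : ℕ → ℕ → ℕ}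
  {β' : ℕ → Type} [∀ m, Fintype (β' m)] {lev' : ∀ m, β' m → ℕ} {z' : ∀ m, β' m → (prC P).Ch} {h' : ℕ → ℕ → ℕ}

/-- The computation with the rows. -/
private theorem SpE_c {β₀ : Type} [Fintype β₀] {K : Type u} [Field K] (φ : B →+* K) (Dl : Derivation ℤ B B)
    (DL : Derivation ℤ K K) (hDL : ∀ x, DL (φ x) = φ (Dl x)) (q : β₀ → B) (G₀ : β₀ → β₀ → B) (x : β₀ → K)
    (h0 : ∑ b, φ (q b) * x b = 0) :
    ∑ b', φ (q b') * (DL (x b') + ∑ b, φ (G₀ b' b) * x b) = ∑ b, φ (∑ b', q b' * G₀ b' b - Dl (q b)) * x b := by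
  have h1 : DL (∑ b, φ (q b) * x b) = 0 := by rw [h0, map_zero]
  rw [map_sum] at h1
  have h2 : ∀ b, DL (φ (q b) * x b) = φ (q b) * DL (x b) + φ (Dl (q b)) * x b := by
    intro b
    rw [Derivation.leibniz, hDL, smul_eq_mul, smul_eq_mul, mul_comm (x b)]
  rw [Finset.sum_congr rfl fun b _ => h2 b, Finset.sum_add_distrib] at h1
  have h3 : ∀ b, φ (∑ b', q b' * G₀ b' b - Dl (q b)) * x b =
      (∑ b', φ (q b') * (φ (G₀ b' b) * x b)) - φ (Dl (q b)) * x b := by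
    intro b
    rw [map_sub, map_sum, sub_mul, Finset.sum_mul]
    congr 1
    refine Finset.sum_congr rfl fun b' _ => ?_
    rw [map_mul, mul_assoc]
  rw [Finset.sum_congr rfl fun b _ => h3 b, Finset.sum_sub_distrib, Finset.sum_comm]
  have h4 : ∀ b', φ (q b') * (DL (x b') + ∑ b, φ (G₀ b' b) * x b) =
      φ (q b') * DL (x b') + ∑ b, φ (q b') * (φ (G₀ b' b) * x b) := by
    intro b'
    rw [mul_add, Finset.mul_sum]
  rw [Finset.sum_congr rfl fun b' _ => h4 b', Finset.sum_add_distrib, eq_neg_of_add_eq_zero_left h1]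
  ring

theorem st_spread [IsDomain B] (hP : IsHomog P) (hle : Q ≤ P) (hDP : Dat P lev' z' h') (d i : ℕ) {σ : Type} [Finite σ]
    (D : σ → Derivation ℤ B B) (V : ∀ γ, Lft (prC P) (D γ)) {G : σ → ∀ m, β' m → β' m → B}
    (hGm : ∀ γ m b, (V γ).Gm (z' m b) - ∑ b', G γ m b' b • z' m b' ∈ (prC P).Bc m)
    {K₀ : Type u} [Field K₀] (j₀ : B →+* K₀) (hj : Function.Injective j₀) (DK : σ → Derivation ℤ K₀ K₀)
    (hDK : ∀ γ x, DK γ (j₀ x) = j₀ (D γ x))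
    (hV : ∀ γ x y, x ∈ Vg (le_map j₀ hle) d → (prC (bI j₀ P)).gaussManin d (DK γ) x y → y ∈ Vg (le_map j₀ hle) d)
    (hT : ∀ γ x y, x ∈ Tr (le_map j₀ hle) d → (prC (bI j₀ P)).gaussManin d (DK γ) x y → y ∈ Tr (le_map j₀ hle) d)
    {ρ τ S : Type} [Fintype ρ] [Fintype τ] [Fintype S] (Gz : ρ → β' d → B) (U : τ → β' d → B) (f : S → β' d → B)
    (hL : GoodL hle hDP d i Gz U f K₀ j₀) :
    ∃ g : B, g ≠ 0 ∧ ∀ (K : Type u) [Field K] (φ : B →+* K), φ g ≠ 0 → GoodS d D G Gz U K φ := by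
  classical
  have : Fintype σ := Fintype.ofFinite σ
  obtain ⟨N, hN⟩ : ∃ N : σ × ρ → β' d → B, N = fun a b => ∑ b', Gz a.2 b' * G a.1 d b' b - D a.1 (Gz a.2 b) :=
    ⟨_, rfl⟩
  obtain ⟨N', hN'⟩ : ∃ N' : σ × τ → β' d → B, N' = fun a b' => D a.1 (U a.2 b') + ∑ b, G a.1 d b' b * U a.2 b :=
    ⟨_, rfl⟩
  have hA : ∀ a : σ × ρ, ∃ lam : ρ → K₀, ∀ b, j₀ (N a b) = ∑ r, lam r * j₀ (Gz r b) := by
    rintro ⟨γ, r⟩
    refine row_span (RingHom.id K₀) (fun r b => j₀ (Gz r b)) (fun b => j₀ (N (γ, r) b)) fun x hx => ?_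
    have h1 := (hL.mem_V x).2 hx
    have h2 := hV γ _ _ h1 (nab_mk hP hDP (V γ) (hGm γ) j₀ (DK γ) (hDK γ) d x)
    have h3 := (hL.mem_V _).1 h2 r
    rw [SpE_c j₀ (D γ) (DK γ) (hDK γ) (Gz r) (G γ d) x (hx r)] at h3
    rw [hN]
    exact h3
  have hB : ∀ a : σ × τ, ∃ lam : τ → K₀, ∀ b, j₀ (N' a b) = ∑ r, lam r * j₀ (U r b) := by
    rintro ⟨γ, s⟩
    have h1 := (hL.mem_V (fun b => j₀ (U s b))).2 (hL.U_V s)
    have h2 := (hL.mem_T (fun b => j₀ (U s b)) h1).2 ⟨Pi.single s 1, fun b => by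
      rw [Finset.sum_eq_single s]
      · rw [Pi.single_eq_same, one_mul]
      · intro s' _ hs'
        rw [Pi.single_eq_of_ne hs', zero_mul]
      · intro hs'
        exact absurd (Finset.mem_univ s) hs'⟩
    have h3 := nab_mk hP hDP (V γ) (hGm γ) j₀ (DK γ) (hDK γ) d (fun b => j₀ (U s b))
    obtain ⟨mu, hmu⟩ := (hL.mem_T _ (hV γ _ _ h1 h3)).1 (hT γ _ _ h2 h3)
    refine ⟨mu, fun b => ?_⟩
    rw [← hmu b, hN', hDK]
    simp only [map_add, map_sum, map_mul]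
  obtain ⟨g1, hg1, h1⟩ := solve_spread N Gz j₀ hj hA
  obtain ⟨g2, hg2, h2⟩ := solve_spread N' U j₀ hj hB
  refine ⟨g1 * g2, mul_ne_zero hg1 hg2, fun K _ φ hφ => ?_⟩
  rw [map_mul] at hφ
  refine ⟨fun DL hDL γ x hx r => ?_, fun γ s => ?_⟩
  · rw [SpE_c φ (D γ) (DL γ) (hDL γ) (Gz r) (G γ d) x (hx r)]
    obtain ⟨lam, hlam⟩ := h1 K φ (left_ne_zero_of_mul hφ) (γ, r)
    have h3 : ∀ b, φ (∑ b', Gz r b' * G γ d b' b - D γ (Gz r b)) * x b =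
        ∑ r', lam r' * (φ (Gz r' b) * x b) := by
      intro b
      have h4 := hlam b
      rw [hN] at h4
      change φ (∑ b', Gz r b' * G γ d b' b - D γ (Gz r b)) = _ at h4
      rw [h4, Finset.sum_mul]
      exact Finset.sum_congr rfl fun r' _ => mul_assoc _ _ _
    rw [Finset.sum_congr rfl fun b _ => h3 b, Finset.sum_comm]
    refine Finset.sum_eq_zero fun r' _ => ?_
    rw [← Finset.mul_sum, hx r', mul_zero]
  · obtain ⟨lam, hlam⟩ := h2 K φ (right_ne_zero_of_mul hφ) (γ, s)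
    refine ⟨lam, fun b' => ?_⟩
    rw [← hlam b', hN']
    simp only [map_add, map_sum, map_mul]

theorem exists_good [IsDomain B] (hG : Gd Q P) (hle : Q ≤ P) (hDQ : Dat Q lev z h) (hDP : Dat P lev' z' h') (d i : ℕ)
    {σ : Type} [Finite σ] (D : σ → Derivation ℤ B B) (V : ∀ γ, Lft (prC P) (D γ)) {G : σ → ∀ m, β' m → β' m → B}
    (hGm : ∀ γ m b, (V γ).Gm (z' m b) - ∑ b', G γ m b' b • z' m b' ∈ (prC P).Bc m)
    {K₀ : Type u} [Field K₀] (j₀ : B →+* K₀) (hj : Function.Injective j₀) (hGd₀ : Gd (bI j₀ Q) (bI j₀ P))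
    (DK : σ → Derivation ℤ K₀ K₀) (hDK : ∀ γ x, DK γ (j₀ x) = j₀ (D γ x)) (h0 : Akn (le_map j₀ hle) d)
    (hV : ∀ γ x y, x ∈ Vg (le_map j₀ hle) d → (prC (bI j₀ P)).gaussManin d (DK γ) x y → y ∈ Vg (le_map j₀ hle) d)
    (hT : ∀ γ x y, x ∈ Tr (le_map j₀ hle) d → (prC (bI j₀ P)).gaussManin d (DK γ) x y → y ∈ Tr (le_map j₀ hle) d) :
    ∃ (ρ τ S : Type) (_ : Fintype ρ) (_ : Fintype τ) (_ : Fintype S) (_ : DecidableEq S) (Gz : ρ → β' d → B)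
      (U : τ → β' d → B) (f : S → β' d → B) (g : B), g ≠ 0 ∧ ∀ (K : Type u) [Field K] (φ : B →+* K), φ g ≠ 0 →
        Gd (bI φ Q) (bI φ P) → GoodH hle hDP d i D G Gz U f K φ := by
  obtain ⟨ρ, τ, S, iρ, iτ, iS, dS, Gz, U, f, g1, hg1, h1⟩ := exists_goodL hG hle hDQ hDP d i
  have hP : IsHomog P := by
    rw [hG.eq]
    exact isHomog_hyp hG.hom
  have hj0 : ∀ g : B, g ≠ 0 → j₀ g ≠ 0 := fun g hg h => hg (hj (h.trans (map_zero j₀).symm))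
  obtain ⟨g2, hg2, h2⟩ := st_spread hP hle hDP d i D V hGm j₀ hj DK hDK hV hT Gz U f (h1 K₀ j₀ (hj0 g1 hg1) hGd₀)
  obtain ⟨g3, hg3, h3⟩ := akn_spread hG hle hDQ hDP d j₀ hj hGd₀ h0
  refine ⟨ρ, τ, S, iρ, iτ, iS, dS, Gz, U, f, g1 * g2 * g3, mul_ne_zero (mul_ne_zero hg1 hg2) hg3,
    fun K _ φ hφ hGd => ?_⟩
  rw [map_mul, map_mul] at hφ
  exact ⟨h3 K φ (right_ne_zero_of_mul hφ) hGd, h1 K φ (left_ne_zero_of_mul (left_ne_zero_of_mul hφ)) hGd,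
    h2 K φ (right_ne_zero_of_mul (left_ne_zero_of_mul hφ))⟩

end

end MPadcHS
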