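import Pool.Agent.Lib.MP_adc574_ag_HS.StDefs
import Pool.Agent.Lib.MP_adc574_ag_HS.GyB

/-!
# JOB StA (HS, Part P): closed and exact forms lift along a surjection (characteristic `p`)

* `lift_exq`: `q = 0`: `mem_exq_zero`. `q = r + 1`: `e = dd f`, `f ∈ Fd κ S r`; `mp_onto` (GyB) lifts `f`, `mp_dd`.
* `lift_closed`: `hc.surj q e`: `x l`, `z l ∈ Fd κ S q`, `Rep p (x l) (z l)`, `e - ∑ b l • z l ∈ exq κ S q`. Lift `x l` to `x' l ∈ Fd κ R q` (`mp_onto`), choose `z' l ∈ Fd κ R q` with `Rep p (x' l) (z' l)` (`Rep.exists`); `Rep.map` gives `Rep p (x l) (mp φ (z' l))`, so `z l - mp φ (z' l)` is exact (`Rep.exact_sub`) and of degree `q`, so `∈ exq κ S q` (`mem_exq_of_exact`). So `e - mp φ (∑ b l • z' l) ∈ exq κ S q` (`exq_smul`, sums; `mp φ (a • x) = a • mp φ x` by `hA`: `smul_fm` of GP/Cov.lean and `mp_fz`), lift it by `lift_exq` to `g`; `e₀ := ∑ b l • z' l + g`, closed by `Rep.closed`, `exq_closed`, `dd_smul`.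
-/

set_option autoImplicit false

namespace MPadcHS

open MvPolynomial MPadcGP MPadcDC

universe u v w

section

variable {κ : Type u} [Field κ] {R : Type v} {S : Type w} [CommRing R] [CommRing S] [Algebra κ R] [Algebra κ S]
  {φ : R →+* S}

theorem lift_exq (hφ : CC κ κ φ) (hs : Function.Surjective φ) {q : ℕ} {e : Fm κ S} (he : e ∈ exq κ S q) :
    ∃ e₀ ∈ exq κ R q, mp φ hφ e₀ = e := by
  cases q with
  | zero =>
    rw [mem_exq_zero.mp he]
    exact ⟨0, zero_mem _, map_zero _⟩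
  | succ q =>
    obtain ⟨f, hf, rfl⟩ := mem_exq_succ.mp he
    obtain ⟨f₀, hf₀, rfl⟩ := mp_onto hφ hs hf
    exact ⟨dd κ f₀, mem_exq_succ.mpr ⟨f₀, hf₀, rfl⟩, mp_dd hφ f₀⟩

private theorem StA_smul (hφ : CC κ κ φ) (hA : ∀ a : κ, φ (algebraMap κ R a) = algebraMap κ S a) (a : κ) (x : Fm κ R) :
    mp φ hφ (a • x) = a • mp φ hφ x := by
  rw [smul_fm, smul_fm, map_mul, mp_fz, hA]

theorem lift_closed {p : ℕ} [Fact p.Prime] [CharP κ p] {Λ : Type} [Fintype Λ] {b : Λ → κ} (hc : CarP p b S)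
    (hφ : CC κ κ φ) (hs : Function.Surjective φ) (hA : ∀ a : κ, φ (algebraMap κ R a) = algebraMap κ S a) {q : ℕ}
    {e : Fm κ S} (he : e ∈ Fd κ S q) (hd : dd κ e = 0) : ∃ e₀ ∈ Fd κ R q, dd κ e₀ = 0 ∧ mp φ hφ e₀ = e := by
  obtain ⟨x, z, hx, hz, hxz, hez⟩ := hc.surj q e he hd
  choose x' hx' hxx using fun l => mp_onto hφ hs (hx l)
  choose z' hz' hxz' using fun l => Rep.exists (p := p) (hx' l)
  have h1 : ∀ l, z l - mp φ hφ (z' l) ∈ exq κ S q := by
    intro l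
    have h2 : Rep p (x l) (mp φ hφ (z' l)) := by
      have h3 := Rep.map hφ (hxz' l)
      rw [hxx l] at h3
      exact h3
    exact mem_exq_of_exact (Submodule.sub_mem _ (hz l) (mp_mem hφ (hz' l))) ((hxz l).exact_sub h2)
  have h4 : e - mp φ hφ (∑ l, b l • z' l) ∈ exq κ S q := by
    have h5 : e - mp φ hφ (∑ l, b l • z' l) = (e - ∑ l, b l • z l) + ∑ l, b l • (z l - mp φ hφ (z' l)) := by
      rw [map_sum, Finset.sum_congr rfl fun l _ => StA_smul hφ hA (b l) (z' l), Finset.sum_congr rfl fun l _ => smul_sub (b l) (z l) _,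
        Finset.sum_sub_distrib]
      abel
    rw [h5]
    exact add_mem hez (sum_mem fun l _ => exq_smul (b l) (h1 l))
  obtain ⟨g, hg, hge⟩ := lift_exq hφ hs h4
  refine ⟨∑ l, b l • z' l + g, ?_, ?_, ?_⟩
  · refine Submodule.add_mem _ (Submodule.sum_mem _ fun l _ => ?_) (exq_le hg)
    rw [← algebraMap_smul R]
    exact Submodule.smul_mem _ _ (hz' l)
  · rw [map_add, map_sum, exq_closed hg, add_zero]
    refine Finset.sum_eq_zero fun l _ => ?_
    rw [dd_smul, (hxz' l).closed, smul_zero]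
  · rw [map_add, hge]
    abel

end

end MPadcHS
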