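import Pool.Agent.Lib.MP_adc574_ag_HS.StDefs
import Pool.Agent.Lib.MP_adc574_ag_HS.GyC

/-!
# HS, Part P: a closed form on `U_C` which is exact on `C + z` is exact

`(hc C hC).surj q e he hd`: `e - ∑ b l • z l ∈ exq κ _ q` with `Rep p (x l) (z l)`. Restrict to `insert z C` (`rs = mp _ (CC.of_algHom _)`): `rs e` is exact, `rs` of an exact form is exact,
so `∑ b l • rs (z l)` is exact, `Rep p (rs (x l)) (rs (z l))` (`Rep.map`); `(hc (insert z C) _).inj` gives `rs (x l) = 0`, so `x l = 0` (`rs_injA`), so `z l` is exact (`Rep.exact`), so `e` is exact: `mem_exq_of_exact he`.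
-/

set_option autoImplicit false

namespace MPadcHS

open MvPolynomial MPadcGP MPadcDC

universe u v w

section

variable {κ : Type u} [Field κ] {n : ℕ} {Q P : Ideal (MvPolynomial (Fin (n + 1)) κ)}

theorem exact_of_rs (h : Gd Q P) {p : ℕ} [Fact p.Prime] [CharP κ p] {Λ : Type} [Fintype Λ] {b : Λ → κ}
    (hc : ∀ J : Finset (Fin (n + 1)), J.Nonempty → CarP p b ((prC Q).R J)) {C : Finset (Fin (n + 1))} (hC : C.Nonempty)
    (hz : Fin.last n ∉ C) {q : ℕ} {e : (prC Q).E C} (he : e ∈ Fd κ ((prC Q).R C) q) (hd : dd κ e = 0)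
    (hx : ∃ g, dd κ g = (prC Q).rs (Finset.subset_insert (Fin.last n) C) e) : e ∈ exq κ ((prC Q).R C) q := by
  obtain ⟨x, z, _, _, hR, hez⟩ := (hc C hC).surj q e he hd
  obtain ⟨g1, hg1⟩ := exq_exact hez
  obtain ⟨g2, hg2⟩ := hx
  have h1 : ∃ g, dd κ g = ∑ l, b l • (prC Q).rs (Finset.subset_insert (Fin.last n) C) (z l) := by
    refine ⟨g2 - (prC Q).rs (Finset.subset_insert (Fin.last n) C) g1, ?_⟩
    rw [map_sub, hg2, ← CovD.rs_dd, hg1, map_sub, map_sum, sub_sub_cancel]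
    exact Finset.sum_congr rfl fun l _ => CovD.rs_smul _ _ _
  have hR' : ∀ l, Rep p ((prC Q).rs (Finset.subset_insert (Fin.last n) C) (x l))
      ((prC Q).rs (Finset.subset_insert (Fin.last n) C) (z l)) := fun l => (hR l).map _
  have h2 := (hc (insert (Fin.last n) C) (Finset.insert_nonempty _ _)).inj _ _ hR' h1
  have h3 : ∀ l, x l = 0 := fun l => rs_injA h hC hz (by rw [h2 l, map_zero])
  have h4 : ∀ l, ∃ g, dd κ g = z l := fun l => by
    have h5 := hR l
    rw [h3 l] at h5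
    exact h5.exact
  choose g4 hg4 using h4
  refine mem_exq_of_exact he ⟨g1 + ∑ l, b l • g4 l, ?_⟩
  rw [map_add, map_sum, hg1]
  have h6 : ∀ l ∈ Finset.univ, dd κ (b l • g4 l) = b l • z l := fun l _ => by
    rw [dd_smul, hg4]
  rw [Finset.sum_congr rfl h6, sub_add_cancel]

end

end MPadcHS
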