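import Pool.Agent.Lib.MP_adc574_ag_HS.StDefs

/-!
# JOB StC (HS, Part P): degeneration, consequences on cochains

`hD.fin`, `hD.sum`, `hD.car` are the hypotheses of `F_strict`, `N_strict`, `gr_eq`, `conj_le` (GP/Deg.lean, GP/Conj.lean).
* `F_rep`: `X.Dt x ∈ Fi (a + 1) (m + 1)`, closed (`CovD.Dt_Dt`), `= Dt x` with `x ∈ Tt m = pr Tt (m + 1)`; `F_strict` (with `i = a + 1`, degree `m + 1`): `Dt x = Dt f`, `f ∈ pr (Fi (a + 1)) (m + 1) = Fi (a + 1) m`. `x₀ := x - f` (`CovD.Fi_anti`).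
* `mi_le`: the middle part of the proof of `conj_le` (copy it: `f1`, `f2`).
* `mi_eq`: `CovD.be_injective` gives `finrank (HH (Np a) (Np (a + 1))) ≤ finrank (HH (Mi a) (Np (a + 1)))` (`be`, `sq_injective`, `LinearMap.finrank_le_finrank_of_injective`), `gr_eq` (second part) and `mi_le`.
* `N_rep`: if `a < m + 2`: `be` (GP/Fil.lean) is injective between spaces of the same finite dimension, so surjective: there is `z₁ ∈ ZZ (Np a) (Np (a + 1)) m` with `z - z₁ ∈ BB (Mi a) (Np (a + 1)) m` (`of_sq_surjective` or unfold). `a = 0`: `Dt z₁ ∈ Np 0 = ⊥`, take `z₀ := z₁`. `a = a' + 1`: `Dt z₁ ∈ Ni a' (m + 1)`, closed, `= Dt z₁` with `z₁ ∈ Tt m`; `N_strict` (with `i = a'`, degree `m + 1`) gives `f ∈ Ni a' m`, `Dt z₁ = Dt f`; `z₀ := z₁ - f`, `f ∈ Np a m ≤ Mi a m` (`CovD.Np_le_Mi`).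
  If `m + 2 ≤ a`: `z ∈ Mi a m` (all `z ∈ Tt m` are: `J.card + a ≤ m + 1` is impossible), `z₀ := 0`.
* `mi_indep`: if `m < a` then `x i ∈ Fi a m = ⊥` (`CovD.Fi_bot`), so `∑ c i • x i = 0` for every `c` and `hind` gives `c = 0`. Otherwise `N := hn a m`: the classes of the `x i` in `V := HH (Fi (a + 1)) (Fi a) m` are linearly independent (`hind`), extend them to a basis (`Basis.sumExtend`, reindex by `Fin N`), lift the new vectors to `ZZ`, choose representatives (`CovD.RepC.exists`, `x0`: elements of `ZZ` are in `Fi ≤ Tt`).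
  By `CovD.conj_comb` the classes of all the representatives span `HH (Mi a) (Np (a + 1)) m` (`CovD.RepC.mem_ZZ`), whose dimension is `N` (`mi_eq`), so they are linearly independent (`linearIndependent_of_top_le_span_of_card_eq_finrank`), so the classes of the `z i` are.
-/

set_option autoImplicit false

namespace MPadcHS

open MvPolynomial MPadcGP MPadcDC Module

universe u v w

section

variable {p : ℕ} [Fact p.Prime] {κ : Type u} [Field κ] [CharP κ p] {Λ : Type} [Fintype Λ] {b : Λ → κ} {n : ℕ}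
  {X : CovD.{u, v} κ n}

theorem F_rep (hD : Dgn p b X) {a m : ℕ} {x : X.Ch} (hx : x ∈ ZZ X.Dt (X.Fi (a + 1)) (X.Fi a) m) :
    ∃ x₀ ∈ X.Fi a m, X.Dt x₀ = 0 ∧ x - x₀ ∈ X.Fi (a + 1) m := by
  have h1 : X.Dt x ∈ X.Fi (a + 1) (m + 1) := hx.2
  have h2 : X.Dt (X.Dt x) = 0 := CovD.Dt_Dt x
  have h3 : X.Dt x ∈ (pr X.Tt (m + 1)).map X.Dt :=
    Submodule.mem_map_of_mem (show x ∈ pr X.Tt (m + 1) from hx.1.1)
  obtain ⟨f, hf, hff⟩ := Submodule.mem_map.mp (CovD.F_strict hD.fin hD.sum (a + 1) (m + 1) _ h1 h2 h3)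
  have hf' : f ∈ X.Fi (a + 1) m := hf
  refine ⟨x - f, sub_mem hx.1 (CovD.Fi_anti (by omega) m hf'), ?_, ?_⟩
  · rw [map_sub, hff, sub_self]
  · rw [sub_sub_cancel]
    exact hf'

private theorem StC_sumExtend {ι K V : Type*} [Field K] [AddCommGroup V] [Module K V] {v : ι → V}
    (hs : LinearIndependent K v) (i : ι) : Basis.sumExtend hs (Sum.inl i) = v i := by
  unfold Basis.sumExtend
  rw [Basis.reindex_apply, Basis.coe_extend, Equiv.symm_symm]
  have := Classical.decPred (fun x => x ∈ Set.range v)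
  change ((Equiv.Set.sumDiffSubset (hs.linearIndepOn_id.subset_extend (Set.subset_univ _))
    (Sum.inl (Equiv.ofInjective v hs.injective i)) : hs.linearIndepOn_id.extend (Set.subset_univ _)) : V) = v i
  rw [Equiv.Set.sumDiffSubset_apply_inl]
  rfl

/-- Representatives of a basis span. -/
private theorem StC_span {a m r : ℕ} (bas : Basis (Fin r) κ (HH X.Dt (X.Fi (a + 1)) (X.Fi a) m)) (x : Fin r → X.Ch)
    (hxZ : ∀ i, x i ∈ ZZ X.Dt (X.Fi (a + 1)) (X.Fi a) m)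
    (hx : ∀ i, (Submodule.Quotient.mk (⟨x i, hxZ i⟩ : ZZ X.Dt (X.Fi (a + 1)) (X.Fi a) m) :
      HH X.Dt (X.Fi (a + 1)) (X.Fi a) m) = bas i) :
    ∀ y ∈ ZZ X.Dt (X.Fi (a + 1)) (X.Fi a) m, ∃ c : Fin r → κ,
      y - ∑ i, c i • x i ∈ BB X.Dt (X.Fi (a + 1)) (X.Fi a) m := by
  intro y hy
  let v : HH X.Dt (X.Fi (a + 1)) (X.Fi a) m := Submodule.Quotient.mk (⟨y, hy⟩ : ZZ X.Dt (X.Fi (a + 1)) (X.Fi a) m)
  refine ⟨fun i => bas.repr v i, ?_⟩
  have h4 : v = Submodule.Quotient.mk (∑ i, bas.repr v i • (⟨x i, hxZ i⟩ : ZZ X.Dt (X.Fi (a + 1)) (X.Fi a) m)) := by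
    have h5 : (Submodule.Quotient.mk (∑ i, bas.repr v i • (⟨x i, hxZ i⟩ : ZZ X.Dt (X.Fi (a + 1)) (X.Fi a) m)) :
        HH X.Dt (X.Fi (a + 1)) (X.Fi a) m) =
        ∑ i, bas.repr v i • Submodule.Quotient.mk (⟨x i, hxZ i⟩ : ZZ X.Dt (X.Fi (a + 1)) (X.Fi a) m) := by
      rw [← Submodule.mkQ_apply, map_sum]
      exact Finset.sum_congr rfl fun i _ => by rw [map_smul, Submodule.mkQ_apply]
    rw [h5, Finset.sum_congr rfl fun i _ => by rw [hx i]]
    exact (bas.sum_repr v).symm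
  have h6 := (Submodule.Quotient.eq _).mp h4
  have h7 : y - ((∑ i, bas.repr v i • (⟨x i, hxZ i⟩ : ZZ X.Dt (X.Fi (a + 1)) (X.Fi a) m) :
      ZZ X.Dt (X.Fi (a + 1)) (X.Fi a) m) : X.Ch) ∈ BB X.Dt (X.Fi (a + 1)) (X.Fi a) m := h6
  have h8 : ((∑ i, bas.repr v i • (⟨x i, hxZ i⟩ : ZZ X.Dt (X.Fi (a + 1)) (X.Fi a) m) :
      ZZ X.Dt (X.Fi (a + 1)) (X.Fi a) m) : X.Ch) = ∑ i, bas.repr v i • x i := by
    rw [Submodule.coe_sum]
    rfl
  rwa [h8] at h7

/-- The classes of the representatives, as a linear map. -/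
private noncomputable def StC_g {a m r : ℕ} (z : Fin r → X.Ch) (hz : ∀ i, z i ∈ ZZ X.Dt (X.Mi a) (X.Np (a + 1)) m) :
    (Fin r → κ) →ₗ[κ] HH X.Dt (X.Mi a) (X.Np (a + 1)) m :=
  Fintype.linearCombination κ fun i => Submodule.Quotient.mk (⟨z i, hz i⟩ : ZZ X.Dt (X.Mi a) (X.Np (a + 1)) m)

private theorem StC_g_apply {a m r : ℕ} (z : Fin r → X.Ch) (hz : ∀ i, z i ∈ ZZ X.Dt (X.Mi a) (X.Np (a + 1)) m)
    (c : Fin r → κ) : StC_g z hz c =
      Submodule.Quotient.mk (∑ i, c i • (⟨z i, hz i⟩ : ZZ X.Dt (X.Mi a) (X.Np (a + 1)) m)) := by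
  have e2 : ((BB X.Dt (X.Mi a) (X.Np (a + 1)) m).submoduleOf (ZZ X.Dt (X.Mi a) (X.Np (a + 1)) m)).mkQ
      (∑ i, c i • (⟨z i, hz i⟩ : ZZ X.Dt (X.Mi a) (X.Np (a + 1)) m)) =
      ∑ i, c i • ((BB X.Dt (X.Mi a) (X.Np (a + 1)) m).submoduleOf (ZZ X.Dt (X.Mi a) (X.Np (a + 1)) m)).mkQ
        (⟨z i, hz i⟩ : ZZ X.Dt (X.Mi a) (X.Np (a + 1)) m) := by
    rw [map_sum]
    exact Finset.sum_congr rfl fun i _ => map_smul _ _ _
  exact e2.symm

private theorem StC_surj (hD : Dgn p b X) {a m r : ℕ} (x z : Fin r → X.Ch) (hxz : ∀ i, CovD.RepC p a m (x i) (z i))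
    (hspan : ∀ y ∈ ZZ X.Dt (X.Fi (a + 1)) (X.Fi a) m, ∃ c : Fin r → κ,
      y - ∑ i, c i • x i ∈ BB X.Dt (X.Fi (a + 1)) (X.Fi a) m)
    (hz : ∀ i, z i ∈ ZZ X.Dt (X.Mi a) (X.Np (a + 1)) m) : Function.Surjective (StC_g z hz) := by
  intro u
  induction u using Submodule.Quotient.induction_on with
  | H w =>
    obtain ⟨c, hcc⟩ := CovD.conj_comb p b hD.car a m x z hxz hspan w w.2
    refine ⟨c, ?_⟩
    rw [StC_g_apply]
    symm
    rw [Submodule.Quotient.eq]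
    change (w : X.Ch) - ((∑ i, c i • (⟨z i, hz i⟩ : ZZ X.Dt (X.Mi a) (X.Np (a + 1)) m) :
      ZZ X.Dt (X.Mi a) (X.Np (a + 1)) m) : X.Ch) ∈ BB X.Dt (X.Mi a) (X.Np (a + 1)) m
    rw [Submodule.coe_sum]
    exact hcc

theorem mi_le (hD : Dgn p b X) (a m : ℕ) : FiniteDimensional κ (HH X.Dt (X.Mi a) (X.Np (a + 1)) m) ∧
    finrank κ (HH X.Dt (X.Mi a) (X.Np (a + 1)) m) ≤ X.hn a m := by
  have hfin := hD.fin a m
  obtain ⟨r, hr⟩ : ∃ r, r = finrank κ (HH X.Dt (X.Fi (a + 1)) (X.Fi a) m) := ⟨_, rfl⟩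
  have hhn : X.hn a m = r := by
    rw [hr]
    rfl
  let bas : Basis (Fin r) κ (HH X.Dt (X.Fi (a + 1)) (X.Fi a) m) := Module.finBasisOfFinrankEq κ _ hr.symm
  have h1 : ∀ i, ∃ x : ZZ X.Dt (X.Fi (a + 1)) (X.Fi a) m, Submodule.Quotient.mk x = bas i := fun i =>
    Submodule.Quotient.mk_surjective _ (bas i)
  choose x hx using h1
  have h2 : ∀ i, ∃ z : X.Ch, CovD.RepC p a m (x i : X.Ch) z := fun i =>
    CovD.RepC.exists (x i).2.1.1.1 (fun J hJ => ((x i).2.1.1.2 J).1 a (by omega))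
  choose z hz using h2
  have hspan := StC_span bas (fun i => (x i : X.Ch)) (fun i => (x i).2) hx
  have hzZ : ∀ i, z i ∈ ZZ X.Dt (X.Mi a) (X.Np (a + 1)) m := fun i => (hz i).mem_ZZ (x i).2
  have hg := StC_surj hD (fun i => (x i : X.Ch)) z hz hspan hzZ
  refine ⟨Module.Finite.of_surjective (StC_g z hzZ) hg, ?_⟩
  have := LinearMap.finrank_le_finrank_of_surjective (f := StC_g z hzZ) hg
  rw [Module.finrank_fin_fun] at this
  rw [hhn]
  exact this

theorem mi_eq (hD : Dgn p b X) {a m : ℕ} (h : a < m + 2) : finrank κ (HH X.Dt (X.Mi a) (X.Np (a + 1)) m) = X.hn a m := by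
  refine le_antisymm (mi_le hD a m).2 ?_
  have hf := (mi_le hD a m).1
  have hinj : Function.Injective (be (S0 := X.Np a) (S1 := X.Mi a) (S2 := X.Np (a + 1)) X.Dt (CovD.Np_le_Mi a) m) :=
    sq_injective _ _ (CovD.be_injective a m)
  have h1 := LinearMap.finrank_le_finrank_of_injective hinj
  rwa [(CovD.gr_eq hD.fin hD.sum p b hD.car m).2 a h] at h1

theorem N_rep (hD : Dgn p b X) {a m : ℕ} {z : X.Ch} (hz : z ∈ ZZ X.Dt (X.Mi a) (X.Np (a + 1)) m) :
    ∃ z₀ ∈ X.Ni a m, X.Dt z₀ = 0 ∧ z - z₀ ∈ BB X.Dt (X.Mi a) (X.Np (a + 1)) m := by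
  rcases Nat.lt_or_ge a (m + 2) with h | h
  · have hinj : Function.Injective (be (S0 := X.Np a) (S1 := X.Mi a) (S2 := X.Np (a + 1)) X.Dt (CovD.Np_le_Mi a) m) :=
      sq_injective _ _ (CovD.be_injective a m)
    have hf1 := (CovD.conj_le p b hD.car a m (hD.fin a m)).1
    have hf2 := (mi_le hD a m).1
    have he : finrank κ (HH X.Dt (X.Np a) (X.Np (a + 1)) m) = finrank κ (HH X.Dt (X.Mi a) (X.Np (a + 1)) m) := by
      rw [(CovD.gr_eq hD.fin hD.sum p b hD.car m).2 a h, mi_eq hD h]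
    have hsur := (LinearMap.injective_iff_surjective_of_finrank_eq_finrank he).mp hinj
    obtain ⟨z₁, hz₁, hzz⟩ := of_sq_surjective _ _ hsur z hz
    have hz1N : z₁ ∈ X.Ni a m := hz₁.1
    cases a with
    | zero =>
      refine ⟨z₁, hz1N, ?_, hzz⟩
      exact (Submodule.mem_bot κ).mp hz₁.2
    | succ a' =>
      have h1 : X.Dt z₁ ∈ X.Ni a' (m + 1) := hz₁.2
      have h3 : X.Dt z₁ ∈ (pr X.Tt (m + 1)).map X.Dt :=
        Submodule.mem_map_of_mem (show z₁ ∈ pr X.Tt (m + 1) from hz1N.1)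
      obtain ⟨f, hf, hff⟩ := Submodule.mem_map.mp
        (CovD.N_strict hD.fin hD.sum p b hD.car a' (m + 1) _ h1 (CovD.Dt_Dt z₁) h3)
      have hf' : f ∈ X.Ni a' m := hf
      refine ⟨z₁ - f, sub_mem hz1N (CovD.Ni_mono (by omega) m hf'), ?_, ?_⟩
      · rw [map_sub, hff, sub_self]
      · have e : z - (z₁ - f) = (z - z₁) + f := by abel
        rw [e]
        refine add_mem hzz (mem_BB.mpr ⟨f, ?_, 0, zero_mem _, by rw [map_zero, add_zero]⟩)
        exact CovD.Np_le_Mi (a' + 1) m hf'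
  · refine ⟨0, zero_mem _, map_zero _, ?_⟩
    rw [sub_zero]
    refine mem_BB.mpr ⟨z, ?_, 0, zero_mem _, by rw [map_zero, add_zero]⟩
    have h1 : z ∈ X.Ni a m := hz.1
    exact ⟨h1.1, fun J => ⟨fun hJ => by omega, fun hJ => by omega⟩⟩

theorem mi_indep (hD : Dgn p b X) {a m : ℕ} {r : ℕ} (x z : Fin r → X.Ch) (hxz : ∀ i, CovD.RepC p a m (x i) (z i))
    (hx : ∀ i, x i ∈ ZZ X.Dt (X.Fi (a + 1)) (X.Fi a) m)
    (hind : ∀ c : Fin r → κ, ∑ i, c i • x i ∈ BB X.Dt (X.Fi (a + 1)) (X.Fi a) m → c = 0) (c : Fin r → κ)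
    (hc : ∑ i, c i • z i ∈ BB X.Dt (X.Mi a) (X.Np (a + 1)) m) : c = 0 := by
  rcases Nat.lt_or_ge m a with h | h
  · refine hind c ?_
    have h0 : ∑ i, c i • x i = 0 := by
      refine Finset.sum_eq_zero fun i _ => ?_
      have h1 : x i ∈ X.Fi a m := (hx i).1
      rw [CovD.Fi_bot h] at h1
      rw [(Submodule.mem_bot κ).mp h1, smul_zero]
    rw [h0]
    exact zero_mem _
  · have hfin := hD.fin a m
    have hf2 := (mi_le hD a m).1
    -- the classes are independent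
    have hli : LinearIndependent κ (fun i => (Submodule.Quotient.mk
        (⟨x i, hx i⟩ : ZZ X.Dt (X.Fi (a + 1)) (X.Fi a) m) : HH X.Dt (X.Fi (a + 1)) (X.Fi a) m)) := by
      rw [Fintype.linearIndependent_iff]
      intro g hg
      have h5 : (Submodule.Quotient.mk (∑ i, g i • (⟨x i, hx i⟩ : ZZ X.Dt (X.Fi (a + 1)) (X.Fi a) m)) :
          HH X.Dt (X.Fi (a + 1)) (X.Fi a) m) = 0 := by
        rw [← hg, ← Submodule.mkQ_apply, map_sum]
        exact Finset.sum_congr rfl fun i _ => by rw [map_smul, Submodule.mkQ_apply]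
      rw [Submodule.Quotient.mk_eq_zero] at h5
      have h6 : ((∑ i, g i • (⟨x i, hx i⟩ : ZZ X.Dt (X.Fi (a + 1)) (X.Fi a) m) :
          ZZ X.Dt (X.Fi (a + 1)) (X.Fi a) m) : X.Ch) ∈ BB X.Dt (X.Fi (a + 1)) (X.Fi a) m := h5
      rw [Submodule.coe_sum] at h6
      have h7 := hind g h6
      intro i
      rw [h7]
      rfl
    let bas0 := Basis.sumExtend hli
    have hft : Fintype (Fin r ⊕ Basis.sumExtendIndex hli) := FiniteDimensional.fintypeBasisIndex bas0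
    have hcard : Fintype.card (Fin r ⊕ Basis.sumExtendIndex hli) = X.hn a m :=
      (Module.finrank_eq_card_basis bas0).symm
    let e : (Fin r ⊕ Basis.sumExtendIndex hli) ≃ Fin (X.hn a m) := Fintype.equivFinOfCardEq hcard
    let bas : Basis (Fin (X.hn a m)) κ (HH X.Dt (X.Fi (a + 1)) (X.Fi a) m) := bas0.reindex e
    have hb0 : ∀ i, bas0 (Sum.inl i) = Submodule.Quotient.mk (⟨x i, hx i⟩ : ZZ X.Dt (X.Fi (a + 1)) (X.Fi a) m) := by
      intro i
      exact StC_sumExtend hli i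
    have h1 : ∀ s, ∃ x' z' : X.Ch, ∃ hx' : x' ∈ ZZ X.Dt (X.Fi (a + 1)) (X.Fi a) m,
        CovD.RepC p a m x' z' ∧ (Submodule.Quotient.mk (⟨x', hx'⟩ : ZZ X.Dt (X.Fi (a + 1)) (X.Fi a) m) :
          HH X.Dt (X.Fi (a + 1)) (X.Fi a) m) = bas0 s ∧ ∀ i, s = Sum.inl i → z' = z i := by
      intro s
      rcases s with i | s
      · refine ⟨x i, z i, hx i, hxz i, (hb0 i).symm, fun i' hi' => ?_⟩
        rw [Sum.inl.inj hi']
      · obtain ⟨y, hy⟩ := Submodule.Quotient.mk_surjective _ (bas0 (Sum.inr s))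
        obtain ⟨z', hz'⟩ := CovD.RepC.exists (p := p) (a := a) (m := m) (x := (y : X.Ch)) y.2.1.1.1
          (fun J hJ => (y.2.1.1.2 J).1 a (by omega))
        exact ⟨y, z', y.2, hz', hy, fun i hi => absurd hi (by simp)⟩
    choose x' z' hx' hxz' hb' hz' using h1
    have hspan := StC_span bas (fun j => x' (e.symm j)) (fun j => hx' (e.symm j)) (fun j => by
      rw [hb' (e.symm j)]
      exact (Basis.reindex_apply bas0 e j).symm)
    have hzZ : ∀ j, z' (e.symm j) ∈ ZZ X.Dt (X.Mi a) (X.Np (a + 1)) m := fun j =>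
      (hxz' (e.symm j)).mem_ZZ (hx' (e.symm j))
    have hg := StC_surj hD (fun j => x' (e.symm j)) (fun j => z' (e.symm j)) (fun j => hxz' (e.symm j)) hspan hzZ
    have hfr : finrank κ (Fin (X.hn a m) → κ) = finrank κ (HH X.Dt (X.Mi a) (X.Np (a + 1)) m) := by
      rw [Module.finrank_fin_fun, mi_eq hD (by omega)]
    have hginj := (LinearMap.injective_iff_surjective_of_finrank_eq_finrank hfr).mpr hg
    let c' : Fin (X.hn a m) → κ := fun j => Sum.elim c (fun _ => 0) (e.symm j)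
    have hsum : ∑ j, c' j • z' (e.symm j) = ∑ i, c i • z i := by
      have e1 : ∑ j, c' j • z' (e.symm j) = ∑ s, (Sum.elim c (fun _ => (0 : κ)) s) • z' s :=
        Equiv.sum_comp e.symm (fun s => (Sum.elim c (fun _ => (0 : κ)) s) • z' s)
      rw [e1]
      have hft2 : Fintype (Basis.sumExtendIndex hli) := Fintype.ofInjective (Sum.inr : _ → Fin r ⊕ Basis.sumExtendIndex hli)
        Sum.inr_injective
      have e2 : ∀ (F : Fin r ⊕ Basis.sumExtendIndex hli → X.Ch),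
          ∑ s, F s = ∑ i, F (Sum.inl i) + ∑ s, F (Sum.inr s) := by
        intro F
        rw [← Fintype.sum_sum_type]
        exact Finset.sum_congr (by ext; simp) fun _ _ => rfl
      rw [e2]
      have e3 : ∑ s, (Sum.elim c (fun _ => (0 : κ)) (Sum.inr s : Fin r ⊕ Basis.sumExtendIndex hli)) • z' (Sum.inr s) = 0 :=
        Finset.sum_eq_zero fun s _ => by rw [Sum.elim_inr, zero_smul]
      rw [e3, add_zero]
      refine Finset.sum_congr rfl fun i _ => ?_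
      rw [Sum.elim_inl, hz' (Sum.inl i) i rfl]
    have hz0 : StC_g (fun j => z' (e.symm j)) hzZ c' = 0 := by
      rw [StC_g_apply, Submodule.Quotient.mk_eq_zero]
      change ((∑ j, c' j • (⟨z' (e.symm j), hzZ j⟩ : ZZ X.Dt (X.Mi a) (X.Np (a + 1)) m) :
        ZZ X.Dt (X.Mi a) (X.Np (a + 1)) m) : X.Ch) ∈ BB X.Dt (X.Mi a) (X.Np (a + 1)) m
      rw [Submodule.coe_sum]
      have e4 : ∑ j, ((c' j • (⟨z' (e.symm j), hzZ j⟩ : ZZ X.Dt (X.Mi a) (X.Np (a + 1)) m) :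
          ZZ X.Dt (X.Mi a) (X.Np (a + 1)) m) : X.Ch) = ∑ i, c i • z i := hsum
      rw [e4]
      exact hc
    have hc0 : c' = 0 := hginj (by rw [hz0, map_zero])
    funext i
    have h9 := congrFun hc0 (e (Sum.inl i))
    change Sum.elim c (fun _ => (0 : κ)) (e.symm (e (Sum.inl i))) = 0 at h9
    rw [Equiv.symm_apply_apply, Sum.elim_inl] at h9
    exact h9

end

end MPadcHS
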