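import Pool.Agent.Lib.MP_adc574_ag_HS.StDefs
import Pool.Agent.Lib.MP_adc574_ag_HS.GyD

/-!
# JOB StD (HS, Part P): representatives of a Gysin cocycle

* `rep_dlg`: `dlg = fz (u⁻¹) * df u` with `u = cq Q C l hj`, `u⁻¹ = cq Q C j hl` (`u * u⁻¹ = 1` by `cq_mul`, `cq_self`). `Rep.fz`, `Rep.df`, `Rep.mul`: `Rep p (fz v * df u) (fz (v ^ p) * (fz (u ^ (p - 1)) * df u))`, and `v ^ p * u ^ (p - 1) = v` since `u * v = 1`.
* `push_rep`: `RepC` is functorial: `e = mp`, `Rep.map`; `RepC` needs `x0 z0 xm zm rep zz`: `CovD.Hm.push_apply`, `CovD.Hm.e_mem`.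
* `exists_repG`: for `D` with `D.card + (a + 1) = (m + 2) + 1` define `w' D`: if `z ∈ D` and `C := D.erase z` is nonempty: `dl Q D z (mn C) * ev c' C D` (then `D = insert z C`, `w D = dlg .. * rs (c C)` by `hw.wl`, `Rep p (w D) (w' D)` by `rep_dlg`, `Rep.map` and `Rep.mul`; degrees: `C.card + a = m + 1`, `dlg_mem`, `rs_mem`, `fd_mul`); if `D = {z}`: `0` (`hw.w0`); if `z ∉ D`, `D ≠ ∅`: `Rep.exists` (`w D ∈ Fd` by `hw.wz`); `D = ∅`: `0`. For the other `D`: `w' D := 0`; the last claim holds also there since `c' C = 0` (`hc.zz`).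
  It is easier to define `w'` by cases with `Classical.choose`: prove for every `D` the existence of a value with all the properties and use `choose`.
-/

set_option autoImplicit false

namespace MPadcHS

open MvPolynomial MPadcGP MPadcDC

universe u v w

section

variable {p : ℕ} [Fact p.Prime] {κ : Type u} [Field κ] [CharP κ p] {n : ℕ} {Q P : Ideal (MvPolynomial (Fin (n + 1)) κ)}

private theorem StD_rep {R : Type v} [CommRing R] [Algebra κ R] {a b : R} (h : a * b = 1) :
    Rep p (fz κ a * df κ b) (fz κ a * df κ b) := by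
  have h1 := (Rep.fz (p := p) (A := κ) a).mul (Rep.df (p := p) (A := κ) b)
  have hp : 1 ≤ p := (Fact.out : p.Prime).one_le
  have h2 : a ^ p * b ^ (p - 1) = a := by
    obtain ⟨k, hk⟩ := Nat.exists_eq_add_of_le' hp
    rw [hk, Nat.add_sub_cancel, pow_succ', mul_assoc, ← mul_pow, h, one_pow, mul_one]
  rw [← mul_assoc, ← map_mul, h2] at h1
  exact h1

theorem rep_dlg (C : Finset (Fin (n + 1))) (l j : Fin (n + 1)) (hl : l ∈ C) (hj : j ∈ C) :
    Rep p (dlg Q C l j hl hj) (dlg Q C l j hl hj) :=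
  StD_rep (p := p) (κ := κ) (R := chart Q C) (a := cq Q C j hl) (b := cq Q C l hj) (by rw [cq_mul, cq_self])

theorem push_rep (hle : Q ≤ P) {a m : ℕ} {c c' : (prC Q).Ch} (h : CovD.RepC p a m c c') :
    CovD.RepC p a m ((rsH hle).push c) ((rsH hle).push c') where
  x0 := by rw [CovD.Hm.push_apply, h.x0, map_zero]
  z0 := by rw [CovD.Hm.push_apply, h.z0, map_zero]
  xm J hJ := CovD.Hm.e_mem (h.xm J hJ)
  zm J hJ := CovD.Hm.e_mem (h.zm J hJ)
  rep J hJ := Rep.map ((rsH hle).cc J) (h.rep J hJ)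
  zz J hJ := by rw [CovD.Hm.push_apply, h.zz J hJ, map_zero]

private theorem StD_dl (C : Finset (Fin (n + 1))) (l j : Fin (n + 1)) :
    Rep p (dl Q C l j) (dl Q C l j) := by
  unfold dl
  split_ifs with h
  · exact rep_dlg C l j h.1 h.2
  · exact Rep.zero

theorem exists_repG {a m : ℕ} {c w c' : (prC Q).Ch} (hw : GyR Q m c w) (hc : CovD.RepC p a m c c') :
    ∃ w' : (prC Q).Ch, CovD.RepC p (a + 1) (m + 2) w w' ∧ w' {Fin.last n} = 0 ∧
      ∀ (C : Finset (Fin (n + 1))) (hC : C.Nonempty), Fin.last n ∉ C →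
        w' (insert (Fin.last n) C) = dlg Q (insert (Fin.last n) C) (Fin.last n) (C.min' hC) (Finset.mem_insert_self _ _)
          (Finset.mem_insert_of_mem (C.min'_mem hC)) * (prC Q).rs (Finset.subset_insert (Fin.last n) C) (c' C) := by
  classical
  have hT : w ∈ (prC Q).Tt (m + 2) := hw.wz.1
  have hwm : ∀ J : Finset (Fin (n + 1)), J.card + (a + 1) = m + 2 + 1 → w J ∈ Fd κ ((prC Q).R J) (a + 1) :=
    fun J hJ => (hT.2 J).1 (a + 1) (by omega)
  obtain ⟨w₀, h₀⟩ := CovD.RepC.exists (p := p) hT.1 hwm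
  let w' : (prC Q).Ch := fun D => if Fin.last n ∈ D then
    dl Q D (Fin.last n) (mn (D.erase (Fin.last n))) * (prC Q).ev c' (D.erase (Fin.last n)) D else w₀ D
  have hm : ∀ D : Finset (Fin (n + 1)), Fin.last n ∈ D →
      w' D = dl Q D (Fin.last n) (mn (D.erase (Fin.last n))) * (prC Q).ev c' (D.erase (Fin.last n)) D :=
    fun D hD => if_pos hD
  have hn : ∀ D : Finset (Fin (n + 1)), Fin.last n ∉ D → w' D = w₀ D := fun D hD => if_neg hD
  have hi : ∀ C : Finset (Fin (n + 1)), Fin.last n ∉ C → w' (insert (Fin.last n) C) =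
      dl Q (insert (Fin.last n) C) (Fin.last n) (mn C) *
        (prC Q).rs (Finset.subset_insert (Fin.last n) C) (c' C) := by
    intro C hC
    rw [hm _ (Finset.mem_insert_self _ _), Finset.erase_insert hC, CovD.ev_of (Finset.subset_insert _ _)]
  have hdl : ∀ (C : Finset (Fin (n + 1))) (hC : C.Nonempty),
      dl Q (insert (Fin.last n) C) (Fin.last n) (mn C) = dlg Q (insert (Fin.last n) C) (Fin.last n) (C.min' hC)
        (Finset.mem_insert_self _ _) (Finset.mem_insert_of_mem (C.min'_mem hC)) := by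
    intro C hC
    rw [mn_eq hC]
    exact dl_eq Q _ _
  have hw0 : w' {Fin.last n} = 0 := by
    have h1 : ({Fin.last n} : Finset (Fin (n + 1))).erase (Fin.last n) = ∅ := Finset.erase_singleton _
    rw [hm _ (Finset.mem_singleton_self _), h1, CovD.ev_eq_zero hc.z0, mul_zero]
  have hcard : ∀ D : Finset (Fin (n + 1)), Fin.last n ∈ D → (D.erase (Fin.last n)).card + 1 = D.card :=
    fun D hD => Finset.card_erase_add_one hD
  refine ⟨w', ⟨hT.1, ?_, hwm, ?_, ?_, ?_⟩, hw0, ?_⟩
  · rw [hn _ (Finset.notMem_empty _), h₀.z0]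
  · intro D hD
    by_cases hz : Fin.last n ∈ D
    · rw [hm D hz]
      have h1 := hcard D hz
      exact dl_mul_mem _ _ (CovD.ev_mem (hc.zm _ (by omega)) D)
    · rw [hn D hz]
      exact h₀.zm D hD
  · intro D hD
    by_cases hz : Fin.last n ∈ D
    · have h1 := hcard D hz
      obtain ⟨C, hzC, rfl⟩ : ∃ C, Fin.last n ∉ C ∧ D = insert (Fin.last n) C :=
        ⟨D.erase (Fin.last n), Finset.notMem_erase _ _, (Finset.insert_erase hz).symm⟩
      rw [Finset.erase_insert hzC] at h1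
      rcases C.eq_empty_or_nonempty with hC | hC
      · subst hC
        have h2 : insert (Fin.last n) (∅ : Finset (Fin (n + 1))) = {Fin.last n} := rfl
        rw [h2, hw.w0, hw0]
        exact Rep.zero
      · rw [hw.wl C hC hzC, hi C hzC, hdl C hC]
        refine Rep.mul (rep_dlg _ _ _ _ _) ?_
        exact Rep.map (CC.of_algHom _) (hc.rep C (by omega))
    · rw [hn D hz]
      exact h₀.rep D hD
  · intro D hD
    by_cases hz : Fin.last n ∈ D
    · have h1 := hcard D hz
      rw [hm D hz, CovD.ev_eq_zero (hc.zz _ (by omega)), mul_zero]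
    · rw [hn D hz]
      exact h₀.zz D hD
  · intro C hC hzC
    rw [hi C hzC, hdl C hC]

end

end MPadcHS
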