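import Pool.Agent.Lib.MP_adc574_ag_HS.StK
import Pool.Agent.Lib.MP_adc574_ag_HS.StB
import Pool.Agent.Lib.MP_adc574_ag_HS.StD
import Pool.Agent.Lib.MP_adc574_ag_HS.GyI

/-!
# JOB StE (HS, Part P): the representative of a Gysin cocycle is a Gysin cocycle of a representative, modulo `Mi`

`z := Fin.last n`, `push := (rsH hle).push`. `hB`: `push c' - v = s + Dt t`, `s ∈ Mi a m`, `t ∈ pr (Np (a + 1)) m` (`mem_BB`; `Np (a + 1) = Ni a`).
Lift: `s' ∈ (prC Q).Mi a m` (`exists_lift_Mi`), `t' ∈ pr ((prC Q).Ni a) m` with `push t' = t` (`m = 0`: `t = 0`, `t' := 0`; `m = m' + 1`: `exists_lift_Ni`).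
`c₁ := c' - s' - Dt t'`: `push c₁ = v` (`CovD.Hm.push_Dt`), `c₁ ∈ Ni a m` (`RepC.mem_Ni`, `Mi_le_Ni`, `Dt_mem_Ni`). `w₁`: `exists_gyr` (`push c₁ = v ∈ Zc m`), `w₁ ∈ Ni (a + 1) (m + 2)`.
`u := w' - w₁ + Dt (Gam Q t')`. `Gam Q t' ∈ pr (Np (a + 2)) (m + 2) = Ni (a + 1) (m + 1)` (`Gam_mem_Ni`; `m = 0`: `t' = 0`). Claim: `u ∈ (prC Q).Mi (a + 1) (m + 2)`; then `w' - w₁ = u + Dt (-Gam Q t')` is in `BB`.
(1) `u ∈ Ni (a + 1) (m + 2)`: `hw'.mem_Ni`, `w₁`, `Dt_mem_Ni`. So `u ∈ Tt`, `u D = 0` for `D.card + (a + 1) < m + 3` and `u D` is closed for `D.card + (a + 1) = m + 3`. Remains: `u D ∈ exq (a + 1)` for `D.card + (a + 1) = m + 3`.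
(2) `D = insert z C`, `C` nonempty, `z ∉ C`: `(w' - w₁) D = dlg .. * rs (c' C - c₁ C) = dlg .. * rs (s' C) + dlg .. * rs ((Dt t') C)` and `Dt (Gam Q t') D = -(dlg .. * rs ((Dt t') C))` (`Dt_Gam_insert`), so `u D = dlg .. * rs (s' C)`. `C.card + a = m + 1`, `s' C ∈ exq a`: `a = 0`: `s' C = 0`; `a = r + 1`: `s' C = dd f`, `f ∈ Fd r`: `dlg * dd (rs f) = dd (-(dlg * rs f))` (`dd_dl_mul`, `dl_eq`). Degree: `mem_exq_of_exact`.
(3) `D = {z}`: `u D = 0` by `hwz`, `w₁.w0`, `Dt_Gam_last` (`t' ∅ = 0`). `D = ∅`: `u ∅ = 0`.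
(4) `z ∉ D`, `D` nonempty, `D.card + (a + 1) = m + 3`: `exact_of_rs` (StB): it remains to see that `rs (u D)` on `K := insert z D` is exact. `Dt u K = dd (u K) + ∑_{j ∈ K} sg j K • ev (ic u) (K.erase j) K` (`CovD.Dt_apply`, `dc_apply`, `del_apply`, `ev_ic`). The term `j = z`: `± inv (rs (u D))`. The terms `j ∈ D`: `K.erase j = insert z (D.erase j)` contains `z` and has the cardinality of `D`, so `u (K.erase j)` is exact by (2), (3); `ev` and `inv` of exact forms are exact (`CovD.exact_ev`, `inv_dd`).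
  `Dt u K = Dt w' K` (`w₁` is a cocycle, `Dt_Dt`), and `w' ∈ ZZ (Mi (a + 1)) (Np (a + 2)) (m + 2)` by `hw'.mem_ZZ` (`w ∈ ZZ (Fi (a + 2)) (Fi (a + 1)) (m + 2)`: `hwF` and `Dt w = 0`), `K.card + (a + 1) = m + 4`, so `Dt w' K` is exact. So `± inv (rs (u D))` is exact, so `rs (u D)` is (`inv_inv`, `inv_dd`).
  In all cases with `D.card + (a + 1) = m + 3` the degree of `u D` is `a + 1`.
-/

set_option autoImplicit false

namespace MPadcHS

open MvPolynomial MPadcGP MPadcDC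

universe u v w

section

variable {p : ℕ} [Fact p.Prime] {κ : Type u} [Field κ] [CharP κ p] {Λ : Type} [Fintype Λ] {b : Λ → κ} {n : ℕ}
  {Q P : Ideal (MvPolynomial (Fin (n + 1)) κ)}

/-- Lifting the primitive. -/
private theorem StE_lift (h : Gd Q P) (hle : Q ≤ P)
    (hcX : ∀ J : Finset (Fin (n + 1)), J.Nonempty → CarP p b ((prC P).R J)) {a m : ℕ} {t : (prC P).Ch}
    (ht : t ∈ pr ((prC P).Np (a + 1)) m) : ∃ t' : (prC Q).Ch, (rsH hle).push t' = t ∧ t' ∅ = 0 ∧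
      (prC Q).Dt t' ∈ (prC Q).Ni a m ∧ Gam Q t' ∈ pr ((prC Q).Np (a + 2)) (m + 2) ∧
      (prC Q).Dt (Gam Q t') ∈ (prC Q).Ni (a + 1) (m + 2) := by
  cases m with
  | zero =>
    have h0 : t = 0 := (Submodule.mem_bot κ).mp ht
    refine ⟨0, ?_, rfl, ?_, ?_, ?_⟩
    · rw [map_zero, h0]
    · rw [map_zero]
      exact zero_mem _
    · rw [map_zero]
      exact zero_mem _
    · rw [map_zero, map_zero]
      exact zero_mem _
  | succ m =>
    obtain ⟨t', ht', hp⟩ := exists_lift_Ni h.eq hle hcX (a := a) (m := m) ht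
    have h1 : Gam Q t' ∈ (prC Q).Ni (a + 1) (m + 2) := Gam_mem_Ni ht'
    exact ⟨t', hp, ht'.1.1, CovD.Dt_mem_Ni ht', h1, CovD.Dt_mem_Ni h1⟩

private theorem StE_cases {C : Finset (Fin (n + 1))} (hz : Fin.last n ∈ C) :
    C = {Fin.last n} ∨ ∃ C' : Finset (Fin (n + 1)), C'.Nonempty ∧ Fin.last n ∉ C' ∧ C = insert (Fin.last n) C' := by
  have h1 : insert (Fin.last n) (C.erase (Fin.last n)) = C := Finset.insert_erase hz
  rcases (C.erase (Fin.last n)).eq_empty_or_nonempty with h2 | h2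
  · left
    rw [h2] at h1
    exact h1.symm
  · right
    exact ⟨C.erase (Fin.last n), h2, Finset.notMem_erase _ _, h1.symm⟩

private theorem StE_inv {R : Type u} [CommRing R] [Algebra κ R] {e : Fm κ R} (h : ∃ g, dd κ g = e) :
    ∃ g, dd κ g = inv κ e := by
  obtain ⟨g, rfl⟩ := h
  exact ⟨-inv κ g, by rw [map_neg, inv_dd]⟩

private theorem StE_zsmul {R : Type u} [CommRing R] [Algebra κ R] {e : Fm κ R} (k : ℤ) (h : ∃ g, dd κ g = e) :
    ∃ g, dd κ g = k • e := by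
  obtain ⟨g, rfl⟩ := h
  exact ⟨k • g, map_zsmul _ _ _⟩

/-- The last step: the restriction to `insert z D` is exact. -/
private theorem StE_rs {u : (prC Q).Ch} {D : Finset (Fin (n + 1))} (hz : Fin.last n ∉ D)
    (h1 : ∃ g, dd κ g = (prC Q).Dt u (insert (Fin.last n) D))
    (h2 : ∀ j ∈ D, ∃ g, dd κ g = u ((insert (Fin.last n) D).erase j)) :
    ∃ g, dd κ g = (prC Q).rs (Finset.subset_insert (Fin.last n) D) (u D) := by
  have e1 : (insert (Fin.last n) D).erase (Fin.last n) = D := Finset.erase_insert hz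
  have e2 : (prC Q).Dt u (insert (Fin.last n) D) = dd κ (u (insert (Fin.last n) D)) +
      (sg (Fin.last n) (insert (Fin.last n) D) •
        inv κ ((prC Q).rs (Finset.subset_insert (Fin.last n) D) (u D)) +
      ∑ j ∈ D, sg j (insert (Fin.last n) D) •
        inv κ ((prC Q).ev u ((insert (Fin.last n) D).erase j) (insert (Fin.last n) D))) := by
    rw [CovD.Dt_apply, Pi.add_apply, CovD.dc_apply, CovD.del_apply, Finset.sum_insert hz, e1, CovD.ev_ic,
      CovD.ev_of (Finset.subset_insert (Fin.last n) D)]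
    refine congrArg (fun y => dd κ (u (insert (Fin.last n) D)) + (sg (Fin.last n) (insert (Fin.last n) D) •
        inv κ ((prC Q).rs (Finset.subset_insert (Fin.last n) D) (u D)) + y)) ?_
    refine Finset.sum_congr rfl fun j _ => ?_
    rw [CovD.ev_ic]
  have e3 : ∃ g, dd κ g = ∑ j ∈ D, sg j (insert (Fin.last n) D) •
        inv κ ((prC Q).ev u ((insert (Fin.last n) D).erase j) (insert (Fin.last n) D)) :=
    CovD.exact_sum _ _ fun j hj => StE_zsmul _ (StE_inv (CovD.exact_ev (h2 j hj)))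
  have e4 : sg (Fin.last n) (insert (Fin.last n) D) •
        inv κ ((prC Q).rs (Finset.subset_insert (Fin.last n) D) (u D)) =
      ((prC Q).Dt u (insert (Fin.last n) D) - dd κ (u (insert (Fin.last n) D))) -
        ∑ j ∈ D, sg j (insert (Fin.last n) D) •
          inv κ ((prC Q).ev u ((insert (Fin.last n) D).erase j) (insert (Fin.last n) D)) := by
    rw [e2]
    abel
  have e5 : ∃ g, dd κ g = sg (Fin.last n) (insert (Fin.last n) D) •
        inv κ ((prC Q).rs (Finset.subset_insert (Fin.last n) D) (u D)) := by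
    rw [e4]
    exact CovD.exact_sub (CovD.exact_sub h1 ⟨_, rfl⟩) e3
  have e6 := StE_zsmul (sg (Fin.last n) (insert (Fin.last n) D)) e5
  rw [smul_smul, sg_sq, one_smul] at e6
  have e7 := StE_inv e6
  rw [MPadcGP.inv_inv] at e7
  exact e7

theorem repG_sub (h : Gd Q P) (hle : Q ≤ P)
    (hcX : ∀ J : Finset (Fin (n + 1)), J.Nonempty → CarP p b ((prC P).R J))
    (hcY : ∀ J : Finset (Fin (n + 1)), J.Nonempty → CarP p b ((prC Q).R J)) {a m : ℕ} {w c' w' : (prC Q).Ch}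
    (hwF : w ∈ (prC Q).Fi (a + 1) (m + 2)) (hw0 : (prC Q).Dt w = 0) (hc' : c' ∈ (prC Q).Ni a m)
    (hw' : CovD.RepC p (a + 1) (m + 2) w w') (hwz : w' {Fin.last n} = 0)
    (hwl : ∀ (C : Finset (Fin (n + 1))) (hC : C.Nonempty), Fin.last n ∉ C →
        w' (insert (Fin.last n) C) = dlg Q (insert (Fin.last n) C) (Fin.last n) (C.min' hC) (Finset.mem_insert_self _ _)
          (Finset.mem_insert_of_mem (C.min'_mem hC)) * (prC Q).rs (Finset.subset_insert (Fin.last n) C) (c' C))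
    {v : (prC P).Ch} (hv : v ∈ (prC P).Ni a m) (hv0 : (prC P).Dt v = 0)
    (hB : (rsH hle).push c' - v ∈ BB (prC P).Dt ((prC P).Mi a) ((prC P).Np (a + 1)) m) :
    ∃ c₁ w₁ : (prC Q).Ch, GyR Q m c₁ w₁ ∧ (rsH hle).push c₁ = v ∧ w₁ ∈ (prC Q).Ni (a + 1) (m + 2) ∧
      w' - w₁ ∈ BB (prC Q).Dt ((prC Q).Mi (a + 1)) ((prC Q).Np (a + 2)) (m + 2) := by
  obtain ⟨s, hs, t, ht, hst⟩ := mem_BB.mp hB
  obtain ⟨s', hs', hps⟩ := exists_lift_Mi h.eq hle hcX hs
  obtain ⟨t', hpt, ht0, hDt, hG, hDG⟩ := StE_lift h hle hcX ht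
  have hc₁ : c' - s' - (prC Q).Dt t' ∈ (prC Q).Ni a m :=
    Submodule.sub_mem _ (Submodule.sub_mem _ hc' (CovD.Mi_le_Ni a m hs')) hDt
  have hp₁ : (rsH hle).push (c' - s' - (prC Q).Dt t') = v := by
    rw [map_sub, map_sub, CovD.Hm.push_Dt, hps, hpt, sub_sub, ← hst, sub_sub_cancel]
  obtain ⟨w₁, hw₁, _, hN⟩ := exists_gyr h hle (m := m) hc₁.1 (by
    rw [hp₁]
    exact CovD.mem_Zc.2 ⟨hv.1, hv0⟩)
  have hw₁N := hN a hc₁
  refine ⟨_, w₁, hw₁, hp₁, hw₁N, ?_⟩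
  have huN : w' - w₁ + (prC Q).Dt (Gam Q t') ∈ (prC Q).Ni (a + 1) (m + 2) :=
    Submodule.add_mem _ (Submodule.sub_mem _ hw'.mem_Ni hw₁N) hDG
  refine mem_BB.mpr ⟨w' - w₁ + (prC Q).Dt (Gam Q t'), ?_, -Gam Q t', Submodule.neg_mem _ hG, by
    rw [map_neg]
    abel⟩
  generalize hu : w' - w₁ + (prC Q).Dt (Gam Q t') = u at huN ⊢
  have huF : ∀ D : Finset (Fin (n + 1)), D.card + (a + 1) = m + 2 + 1 → u D ∈ Fd κ ((prC Q).R D) (a + 1) :=
    fun D hD => (huN.1.2 D).1 (a + 1) (by omega)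
  -- the sets which contain `z`
  have hE1 : ∀ D : Finset (Fin (n + 1)), Fin.last n ∈ D → D.card + (a + 1) = m + 2 + 1 → ∃ g, dd κ g = u D := by
    intro D hz hD
    rcases StE_cases hz with rfl | ⟨C, hC, hzC, rfl⟩
    · refine ⟨0, ?_⟩
      rw [map_zero, ← hu, Pi.add_apply, Pi.sub_apply, hwz, hw₁.w0, Dt_Gam_last ht0, sub_zero, add_zero]
    · have hcard : (insert (Fin.last n) C).card = C.card + 1 := Finset.card_insert_of_notMem hzC
      obtain ⟨f, hf⟩ := exq_exact ((hs'.2 C).2 (by omega))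
      have e1 : u (insert (Fin.last n) C) = dlg Q (insert (Fin.last n) C) (Fin.last n) (C.min' hC)
          (Finset.mem_insert_self _ _) (Finset.mem_insert_of_mem (C.min'_mem hC)) *
            (prC Q).rs (Finset.subset_insert (Fin.last n) C) (s' C) := by
        rw [← hu, Pi.add_apply, Pi.sub_apply, hwl C hC hzC, hw₁.wl C hC hzC, Dt_Gam_insert ht0 hC hzC,
          Pi.sub_apply, Pi.sub_apply, map_sub, map_sub, mul_sub, mul_sub]
        abel
      refine ⟨-(dl Q (insert (Fin.last n) C) (Fin.last n) (C.min' hC) *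
        (prC Q).rs (Finset.subset_insert (Fin.last n) C) f), ?_⟩
      rw [map_neg, dd_dl_mul, neg_neg, e1, ← hf, CovD.rs_dd,
        dl_eq Q (Finset.mem_insert_self _ _) (Finset.mem_insert_of_mem (C.min'_mem hC))]
  -- the differential
  have hDu : ∀ K : Finset (Fin (n + 1)), K.card + (a + 1) = m + 2 + 1 + 1 → ∃ g, dd κ g = (prC Q).Dt u K := by
    intro K hK
    have h1 : (prC Q).Dt u = (prC Q).Dt w' := by
      rw [← hu, map_add, map_sub, CovD.Dt_Dt, (CovD.mem_Zc.1 hw₁.wz).2, sub_zero, add_zero]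
    have h2 : w ∈ ZZ (prC Q).Dt ((prC Q).Fi (a + 1 + 1)) ((prC Q).Fi (a + 1)) (m + 2) :=
      mem_ZZ.2 ⟨hwF, by rw [hw0]; exact Submodule.zero_mem _⟩
    have h3 := (mem_ZZ.1 (hw'.mem_ZZ h2)).2
    rw [h1]
    exact exq_exact ((h3.2 K).2 hK)
  refine CovD.mem_Mi.2 ⟨huN.1, fun D => ⟨(huN.2 D).1, fun hD => ?_⟩⟩
  by_cases hz : Fin.last n ∈ D
  · exact mem_exq_of_exact (huF D hD) (hE1 D hz hD)
  · rcases D.eq_empty_or_nonempty with rfl | hne
    · rw [huN.1.1]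
      exact zero_mem _
    · refine exact_of_rs h hcY hne hz (huF D hD) ((huN.2 D).2 hD) (StE_rs hz (hDu _ ?_) fun j hj => hE1 _ ?_ ?_)
      · rw [Finset.card_insert_of_notMem hz]
        omega
      · exact Finset.mem_erase.2 ⟨fun h' => hz (h' ▸ hj), Finset.mem_insert_self _ _⟩
      · rw [Finset.card_erase_of_mem (Finset.mem_insert_of_mem hj), Finset.card_insert_of_notMem hz]
        omega

end

end MPadcHS
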