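import Pool.Agent.Lib.MP_adc574_ag_HS.StC
import Pool.Agent.Lib.MP_adc574_ag_HS.StE
import Pool.Agent.Lib.MP_adc574_ag_HS.GyK

/-!
# JOB StF (HS, Part P): the Gysin map is surjective on the graded pieces of the conjugate filtration

Notation: `X := prC P`, `Y := prC Q`. `y = cl w₀`, `w₀ ∈ Y.Ni (a + 1) (m + 2)` a cocycle (`CovD.mem_Con`).
(1) `N := finrank (HH Y.Dt (Y.Fi (a + 2)) (Y.Fi (a + 1)) (m + 2))`, a basis (`Module.finBasis`), representatives `x i ∈ ZZ`; `F_rep` (StC) replaces `x i` by cocycles `x₀ i ∈ Y.Fi (a + 1) (m + 2)` (`x i - x₀ i ∈ Fi (a + 2) ≤ BB`). `hs` for `cl (x₀ i)`: `gys hle m ξ (cl (x₀ i))`, `ξ ∈ X.Fil m a`, `ξ = cl v₀`, `v₀ ∈ X.Fi a m` cocycle; lift it to `c i ∈ Y.Fi a m` (`exists_lift_Tt`), `exists_gyr`: `GyR Q m (c i) (w i)`, `w i ∈ Y.Fi (a + 1) (m + 2)`.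
   `gys hle m ξ (cl (w i))`, so `cl (w i) = cl (x₀ i)` (uniqueness: `exists_gy` (GyK): both are `g ξ`), `w i - x₀ i ∈ Y.Bc (m + 2) = (pr Y.Tt (m + 2)).map Dt` (`CovD.brd_pr` GP/CarBr.lean); `CovD.F_strict`: `w i - x₀ i ∈ (pr (Fi (a + 1)) (m + 2)).map Dt ≤ BB (Fi (a + 2)) (Fi (a + 1)) (m + 2)`. So the classes of the `w i` are the basis: `hspan` of `CovD.conj_comb` holds for the family `w i` (see the proof of `conj_le`).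
(2) `c' i` with `RepC p a m (c i) (c' i)` (`CovD.RepC.exists`; `c i ∈ Tt m`), `w' i` by `exists_repG` (StD). `CovD.conj_comb` for `Y` (`w₀ ∈ ZZ (Mi (a + 1)) (Np (a + 2)) (m + 2)` since it is a cocycle of `Ni (a + 1)`): `w₀ - ∑ l i • w' i ∈ BB (Mi (a + 1)) (Np (a + 2)) (m + 2)`.
(3) `push (c' i)` represents `push (c i)` (`push_rep`), `push (c i) = v₀` is a cocycle of `Fi a m`, so `push (c' i) ∈ ZZ (Mi a) (Np (a + 1)) m` (`CovD.RepC.mem_ZZ`); `N_rep`: `v i ∈ X.Ni a m`, `Dt (v i) = 0`, `push (c' i) - v i ∈ BB`. `repG_sub` (StE): `c₁ i`, `w₁ i`, `GyR`, `push (c₁ i) = v i`, `w' i - w₁ i ∈ BB (Mi (a + 1)) (Np (a + 2)) (m + 2)`.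
(4) So `w₀ - ∑ l i • w₁ i ∈ BB (Mi (a + 1)) (Np (a + 2)) (m + 2)`, and it is a cocycle in `Ni (a + 1) (m + 2) = Np (a + 2) (m + 2)`: `CovD.be_injective`: `= s + Dt t`, `s ∈ Np (a + 1) (m + 2) = Ni a (m + 2)`, `t ∈ pr (Np (a + 2)) (m + 2)`, `s` is a cocycle.
(5) `x := ∑ l i • cl (v i) ∈ Con m a`, `y' := cl (∑ l i • w₁ i)`: `gys hle m x y'` (with the linear map `g` of `exists_gy`, `g (cl (v i)) = cl (w₁ i)`, or by `GyR.add`, `GyR.smul`), `y - y' = cl s ∈ Con (m + 2) a`.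
-/

set_option autoImplicit false

namespace MPadcHS

open MvPolynomial MPadcGP MPadcDC

universe u v w

section

private theorem StF_span {κ : Type u} [Field κ] {n : ℕ} {X : CovD.{u, v} κ n} {a m r : ℕ}
    (bas : Module.Basis (Fin r) κ (HH X.Dt (X.Fi (a + 1)) (X.Fi a) m)) (x : Fin r → X.Ch)
    (hxZ : ∀ i, x i ∈ ZZ X.Dt (X.Fi (a + 1)) (X.Fi a) m)
    (hx : ∀ i, (Submodule.Quotient.mk (⟨x i, hxZ i⟩ : ZZ X.Dt (X.Fi (a + 1)) (X.Fi a) m) :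
      HH X.Dt (X.Fi (a + 1)) (X.Fi a) m) = bas i) :
    ∀ y ∈ ZZ X.Dt (X.Fi (a + 1)) (X.Fi a) m, ∃ c : Fin r → κ,
      y - ∑ i, c i • x i ∈ BB X.Dt (X.Fi (a + 1)) (X.Fi a) m := by
  intro y hy
  let v : HH X.Dt (X.Fi (a + 1)) (X.Fi a) m := Submodule.Quotient.mk (⟨y, hy⟩ : ZZ X.Dt (X.Fi (a + 1)) (X.Fi a) m)
  refine ⟨fun i => bas.repr v i, ?_⟩
  have h4 : v = Submodule.Quotient.mk (∑ i, bas.repr v i • (⟨x i, hxZ i⟩ : ZZ X.Dt (X.Fi (a + 1)) (X.Fi a) m)) := by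
    have h5 : (Submodule.Quotient.mk (∑ i, bas.repr v i • (⟨x i, hxZ i⟩ : ZZ X.Dt (X.Fi (a + 1)) (X.Fi a) m)) :
        HH X.Dt (X.Fi (a + 1)) (X.Fi a) m) =
        ∑ i, bas.repr v i • Submodule.Quotient.mk (⟨x i, hxZ i⟩ : ZZ X.Dt (X.Fi (a + 1)) (X.Fi a) m) := by
      rw [← Submodule.mkQ_apply, map_sum]
      exact Finset.sum_congr rfl fun i _ => by rw [map_smul, Submodule.mkQ_apply]
    rw [h5, Finset.sum_congr rfl fun i _ => by rw [hx i]]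
    exact (bas.sum_repr v).symm
  have h6 := (Submodule.Quotient.eq _).mp h4
  have h7 : y - ((∑ i, bas.repr v i • (⟨x i, hxZ i⟩ : ZZ X.Dt (X.Fi (a + 1)) (X.Fi a) m) :
      ZZ X.Dt (X.Fi (a + 1)) (X.Fi a) m) : X.Ch) ∈ BB X.Dt (X.Fi (a + 1)) (X.Fi a) m := h6
  have h8 : ((∑ i, bas.repr v i • (⟨x i, hxZ i⟩ : ZZ X.Dt (X.Fi (a + 1)) (X.Fi a) m) :
      ZZ X.Dt (X.Fi (a + 1)) (X.Fi a) m) : X.Ch) = ∑ i, bas.repr v i • x i := by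
    rw [Submodule.coe_sum]
    rfl
  rwa [h8] at h7

end

section

variable {p : ℕ} [Fact p.Prime] {κ : Type u} [Field κ] [CharP κ p] {Λ : Type} [Fintype Λ] {b : Λ → κ} {n : ℕ}
  {Q P : Ideal (MvPolynomial (Fin (n + 1)) κ)}

/-- Step (1): Gysin cocycles representing the classes of the graded piece. -/
private theorem StF_one (h : Gd Q P) (hle : Q ≤ P) (hDY : Dgn p b (prC Q)) {a m : ℕ}
    (hs : ∀ y ∈ (prC Q).Fil (m + 2) (a + 1), ∃ x ∈ (prC P).Fil m a, gys hle m x y) {x : (prC Q).Ch}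
    (hx : x ∈ ZZ (prC Q).Dt ((prC Q).Fi (a + 1 + 1)) ((prC Q).Fi (a + 1)) (m + 2)) :
    ∃ c w : (prC Q).Ch, c ∈ (prC Q).Tt m ∧ (rsH hle).push c ∈ (prC P).Fi a m ∧ (prC P).Dt ((rsH hle).push c) = 0 ∧
      GyR Q m c w ∧ w ∈ (prC Q).Fi (a + 1) (m + 2) ∧
      w - x ∈ BB (prC Q).Dt ((prC Q).Fi (a + 1 + 1)) ((prC Q).Fi (a + 1)) (m + 2) := by
  obtain ⟨x₀, hx₀, hDx₀, hxx⟩ := F_rep hDY hx
  have hz₀ : x₀ ∈ (prC Q).Zc (m + 2) := CovD.mem_Zc.2 ⟨hx₀.1, hDx₀⟩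
  obtain ⟨ξ, hξ, hgy⟩ := hs ((prC Q).cl (m + 2) ⟨x₀, hz₀⟩) (CovD.mem_Fil.2 ⟨⟨x₀, hz₀⟩, hx₀, rfl⟩)
  obtain ⟨v₀, hv₀, hvξ⟩ := CovD.mem_Fil.1 hξ
  obtain ⟨c, hc, hpc, hFi⟩ := exists_lift_Tt h.eq hle v₀.2.1
  have hz : (rsH hle).push c ∈ (prC P).Zc m := by
    rw [hpc]
    exact v₀.2
  obtain ⟨w, hw, hwF, -⟩ := exists_gyr h hle hc hz
  have hwFi : w ∈ (prC Q).Fi (a + 1) (m + 2) := hwF a (hFi a hv₀)
  have hgw : gys hle m ξ ((prC Q).cl (m + 2) ⟨w, hw.wz⟩) := by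
    refine ⟨c, w, hw, hz, ?_, rfl⟩
    rw [← hvξ]
    exact congrArg _ (Subtype.ext hpc)
  obtain ⟨g, hg⟩ := exists_gy h hle m
  have hcl : (prC Q).cl (m + 2) ⟨w, hw.wz⟩ = (prC Q).cl (m + 2) ⟨x₀, hz₀⟩ :=
    ((hg _ _).1 hgw).symm.trans ((hg _ _).1 hgy)
  have hBc : w - x₀ ∈ (prC Q).Bc (m + 2) := CovD.cl_eq.1 hcl
  rw [← CovD.brd_pr] at hBc
  have hD0 : (prC Q).Dt (w - x₀) = 0 := by
    rw [map_sub, (CovD.mem_Zc.1 hw.wz).2, hDx₀, sub_zero]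
  have hst := CovD.F_strict hDY.fin hDY.sum (a + 1) (m + 2) (w - x₀) (sub_mem hwFi hx₀) hD0 hBc
  refine ⟨c, w, hc, ?_, ?_, hw, hwFi, ?_⟩
  · rw [hpc]
    exact hv₀
  · exact (CovD.mem_Zc.1 hz).2
  · have e : w - x = (w - x₀) - (x - x₀) := by abel
    rw [e]
    refine sub_mem ?_ ?_
    · exact (le_sup_right : _ ≤ BB (prC Q).Dt ((prC Q).Fi (a + 1 + 1)) ((prC Q).Fi (a + 1)) (m + 2)) hst
    · exact (le_sup_left : _ ≤ BB (prC Q).Dt ((prC Q).Fi (a + 1 + 1)) ((prC Q).Fi (a + 1)) (m + 2)) hxx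

/-- Steps (2), (3) for one class. -/
private theorem StF_two (h : Gd Q P) (hle : Q ≤ P) (hDX : Dgn p b (prC P)) (hDY : Dgn p b (prC Q)) {a m : ℕ}
    {c w : (prC Q).Ch} (hc : c ∈ (prC Q).Tt m) (hcF : (rsH hle).push c ∈ (prC P).Fi a m)
    (hcD : (prC P).Dt ((rsH hle).push c) = 0) (hw : GyR Q m c w) (hwF : w ∈ (prC Q).Fi (a + 1) (m + 2)) :
    ∃ w' c₁ w₁ : (prC Q).Ch, CovD.RepC p (a + 1) (m + 2) w w' ∧ GyR Q m c₁ w₁ ∧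
      (rsH hle).push c₁ ∈ (prC P).Ni a m ∧ (prC P).Dt ((rsH hle).push c₁) = 0 ∧
      w₁ ∈ (prC Q).Ni (a + 1) (m + 2) ∧
      w' - w₁ ∈ BB (prC Q).Dt ((prC Q).Mi (a + 1)) ((prC Q).Np (a + 1 + 1)) (m + 2) := by
  obtain ⟨c', hcc'⟩ := CovD.RepC.exists (p := p) (a := a) (m := m) (x := c) hc.1
    (fun J hJ => (hc.2 J).1 a (by omega))
  obtain ⟨w', hww', hwz, hwl⟩ := exists_repG hw hcc'
  have hp := push_rep hle hcc'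
  have hZ : (rsH hle).push c ∈ ZZ (prC P).Dt ((prC P).Fi (a + 1)) ((prC P).Fi a) m := by
    refine ⟨hcF, ?_⟩
    change (prC P).Dt ((rsH hle).push c) ∈ (prC P).Fi (a + 1) (m + 1)
    rw [hcD]
    exact zero_mem _
  obtain ⟨v, hv, hDv, hB⟩ := N_rep hDX (hp.mem_ZZ hZ)
  obtain ⟨c₁, w₁, hG, hpc, hwN, hB'⟩ := repG_sub h hle hDX.car hDY.car hwF (CovD.mem_Zc.1 hw.wz).2
    hcc'.mem_Ni hww' hwz hwl hv hDv hB
  refine ⟨w', c₁, w₁, hww', hG, ?_, ?_, hwN, hB'⟩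
  · rw [hpc]
    exact hv
  · rw [hpc]
    exact hDv

theorem con_gr (h : Gd Q P) (hle : Q ≤ P) (hDX : Dgn p b (prC P)) (hDY : Dgn p b (prC Q)) {a m : ℕ}
    (hs : ∀ y ∈ (prC Q).Fil (m + 2) (a + 1), ∃ x ∈ (prC P).Fil m a, gys hle m x y) {y : (prC Q).HdR (m + 2)}
    (hy : y ∈ (prC Q).Con (m + 2) (a + 1)) :
    ∃ x ∈ (prC P).Con m a, ∃ y', gys hle m x y' ∧ y - y' ∈ (prC Q).Con (m + 2) a := by
  obtain ⟨w₀, hw₀, rfl⟩ := CovD.mem_Con.1 hy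
  have hfin := hDY.fin (a + 1) (m + 2)
  obtain ⟨r, hr⟩ : ∃ r, r = Module.finrank κ (HH (prC Q).Dt ((prC Q).Fi (a + 1 + 1)) ((prC Q).Fi (a + 1)) (m + 2)) :=
    ⟨_, rfl⟩
  let bas : Module.Basis (Fin r) κ (HH (prC Q).Dt ((prC Q).Fi (a + 1 + 1)) ((prC Q).Fi (a + 1)) (m + 2)) :=
    Module.finBasisOfFinrankEq κ _ hr.symm
  have h1 : ∀ i, ∃ x : ZZ (prC Q).Dt ((prC Q).Fi (a + 1 + 1)) ((prC Q).Fi (a + 1)) (m + 2),
      Submodule.Quotient.mk x = bas i := fun i => Submodule.Quotient.mk_surjective _ (bas i)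
  choose x hx using h1
  have h2 : ∀ i, ∃ c w w' c₁ w₁ : (prC Q).Ch, GyR Q m c w ∧ w ∈ (prC Q).Fi (a + 1) (m + 2) ∧
      w - x i ∈ BB (prC Q).Dt ((prC Q).Fi (a + 1 + 1)) ((prC Q).Fi (a + 1)) (m + 2) ∧
      CovD.RepC p (a + 1) (m + 2) w w' ∧ GyR Q m c₁ w₁ ∧
      (rsH hle).push c₁ ∈ (prC P).Ni a m ∧ (prC P).Dt ((rsH hle).push c₁) = 0 ∧
      w₁ ∈ (prC Q).Ni (a + 1) (m + 2) ∧
      w' - w₁ ∈ BB (prC Q).Dt ((prC Q).Mi (a + 1)) ((prC Q).Np (a + 1 + 1)) (m + 2) := by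
    intro i
    obtain ⟨c, w, g1, g2, g3, g4, g5, g6⟩ := StF_one h hle hDY hs (x i).2
    obtain ⟨w', c₁, w₁, f1, f2, f3, f4, f5, f6⟩ := StF_two h hle hDX hDY g1 g2 g3 g4 g5
    exact ⟨c, w, w', c₁, w₁, g4, g5, g6, f1, f2, f3, f4, f5, f6⟩
  choose c w w' c₁ w₁ hG hwF hwx hR hG₁ hN₁ hD₁ hwN hwB using h2
  have hwZ : ∀ i, w i ∈ ZZ (prC Q).Dt ((prC Q).Fi (a + 1 + 1)) ((prC Q).Fi (a + 1)) (m + 2) := by
    intro i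
    refine ⟨hwF i, ?_⟩
    change (prC Q).Dt (w i) ∈ (prC Q).Fi (a + 1 + 1) (m + 2 + 1)
    rw [(CovD.mem_Zc.1 (hG i).wz).2]
    exact zero_mem _
  have hspan := StF_span bas w hwZ (fun i => by
    rw [← hx i, Submodule.Quotient.eq]
    exact hwx i)
  have hw0Z : (w₀ : (prC Q).Ch) ∈ ZZ (prC Q).Dt ((prC Q).Mi (a + 1)) ((prC Q).Np (a + 1 + 1)) (m + 2) := by
    refine ⟨hw₀, ?_⟩
    change (prC Q).Dt (w₀ : (prC Q).Ch) ∈ (prC Q).Mi (a + 1) (m + 2 + 1)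
    rw [(CovD.mem_Zc.1 w₀.2).2]
    exact zero_mem _
  obtain ⟨l, hl⟩ := CovD.conj_comb p b hDY.car (a + 1) (m + 2) w w' hR hspan _ hw0Z
  -- step (4)
  have h4 : (w₀ : (prC Q).Ch) - ∑ i, l i • w₁ i ∈
      BB (prC Q).Dt ((prC Q).Mi (a + 1)) ((prC Q).Np (a + 1 + 1)) (m + 2) := by
    have e : (w₀ : (prC Q).Ch) - ∑ i, l i • w₁ i =
        ((w₀ : (prC Q).Ch) - ∑ i, l i • w' i) + ∑ i, l i • (w' i - w₁ i) := by
      have e1 : ∑ i, l i • (w' i - w₁ i) = ∑ i, l i • w' i - ∑ i, l i • w₁ i := by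
        rw [← Finset.sum_sub_distrib]
        exact Finset.sum_congr rfl fun i _ => smul_sub _ _ _
      rw [e1]
      abel
    rw [e]
    exact add_mem hl (sum_mem fun i _ => Submodule.smul_mem _ _ (hwB i))
  have hD4 : (prC Q).Dt ((w₀ : (prC Q).Ch) - ∑ i, l i • w₁ i) = 0 := by
    rw [map_sub, (CovD.mem_Zc.1 w₀.2).2, map_sum, zero_sub, neg_eq_zero]
    refine Finset.sum_eq_zero fun i _ => ?_
    rw [map_smul, (CovD.mem_Zc.1 (hG₁ i).wz).2, smul_zero]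
  have hN4 : (w₀ : (prC Q).Ch) - ∑ i, l i • w₁ i ∈ (prC Q).Ni (a + 1) (m + 2) :=
    sub_mem hw₀ (sum_mem fun i _ => Submodule.smul_mem _ _ (hwN i))
  have hZ4 : (w₀ : (prC Q).Ch) - ∑ i, l i • w₁ i ∈
      ZZ (prC Q).Dt ((prC Q).Np (a + 1)) ((prC Q).Np (a + 1 + 1)) (m + 2) := by
    refine ⟨hN4, ?_⟩
    change (prC Q).Dt ((w₀ : (prC Q).Ch) - ∑ i, l i • w₁ i) ∈ (prC Q).Np (a + 1) (m + 2 + 1)
    rw [hD4]
    exact zero_mem _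
  obtain ⟨s, hs', t, ht, hst⟩ := mem_BB.mp (CovD.be_injective (a + 1) (m + 2) _ hZ4 h4)
  have hsN : s ∈ (prC Q).Ni a (m + 2) := hs'
  have hsD : (prC Q).Dt s = 0 := by
    have e : s = ((w₀ : (prC Q).Ch) - ∑ i, l i • w₁ i) - (prC Q).Dt t := by
      rw [hst]
      abel
    rw [e, map_sub, hD4, CovD.Dt_Dt, sub_zero]
  have hsZ : s ∈ (prC Q).Zc (m + 2) := CovD.mem_Zc.2 ⟨hsN.1, hsD⟩
  have htB : (prC Q).Dt t ∈ (prC Q).Bc (m + 2) := by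
    rw [← CovD.brd_pr]
    refine Submodule.mem_map_of_mem (pr_mono (S := (prC Q).Np (a + 1 + 1)) (S' := (prC Q).Tt) (fun k => ?_) (m + 2) ht)
    exact CovD.Ni_le_Tt (X := prC Q) (a + 1) k
  -- step (5)
  have hvZ : ∀ i, (rsH hle).push (c₁ i) ∈ (prC P).Zc m := fun i => CovD.mem_Zc.2 ⟨(hN₁ i).1, hD₁ i⟩
  obtain ⟨g, hg⟩ := exists_gy h hle m
  refine ⟨∑ i, l i • (prC P).cl m ⟨(rsH hle).push (c₁ i), hvZ i⟩, ?_,
    ∑ i, l i • (prC Q).cl (m + 2) ⟨w₁ i, (hG₁ i).wz⟩, ?_, ?_⟩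
  · exact sum_mem fun i _ => Submodule.smul_mem _ _ (CovD.mem_Con.2 ⟨⟨_, hvZ i⟩, hN₁ i, rfl⟩)
  · rw [hg, map_sum]
    refine Finset.sum_congr rfl fun i _ => ?_
    rw [map_smul]
    congr 1
    exact (hg _ _).1 ⟨c₁ i, w₁ i, hG₁ i, hvZ i, rfl, rfl⟩
  · refine CovD.mem_Con.2 ⟨⟨s, hsZ⟩, hsN, ?_⟩
    have e1 : (prC Q).cl (m + 2) w₀ - ∑ i, l i • (prC Q).cl (m + 2) ⟨w₁ i, (hG₁ i).wz⟩ =
        (prC Q).cl (m + 2) (w₀ - ∑ i, l i • (⟨w₁ i, (hG₁ i).wz⟩ : ↥((prC Q).Zc (m + 2)))) := by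
      rw [map_sub, map_sum]
      congr 1
    rw [e1]
    refine CovD.cl_eq.2 ?_
    have e2 : ((w₀ - ∑ i, l i • (⟨w₁ i, (hG₁ i).wz⟩ : ↥((prC Q).Zc (m + 2))) : ↥((prC Q).Zc (m + 2))) : (prC Q).Ch) =
        (w₀ : (prC Q).Ch) - ∑ i, l i • w₁ i := by
      rw [Submodule.coe_sub, Submodule.coe_sum]
      rfl
    rw [e2, hst]
    have e3 : s - (s + (prC Q).Dt t) = -(prC Q).Dt t := by abel
    change s - (s + (prC Q).Dt t) ∈ (prC Q).Bc (m + 2)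
    rw [e3]
    exact neg_mem htB

end

end MPadcHS
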