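import Pool.Agent.Lib.MP_adc574_ag_HS.StF

/-!
# JOB StG (HS, Part P): the Gysin map is strict for the conjugate filtration

* `con_bot`: `CovD.finrank_add hD.fin hD.sum p b hD.car 0 m` (GP/Deg.lean): `finrank (NH 0 m) + finrank (FH 1 m) = finrank (Hmz m)`. By `CovD.brd_Fil`, `FH 1 m = ⊤` (`brdE` is an equivalence and `Fil m 1 = ⊤`), so `finrank (NH 0 m) = 0`, `NH 0 m = ⊥` (`Submodule.finrank_eq_zero`, finite dimension from `CovD.Hmz_finite`), `Con m 0 = ⊥` by `CovD.brd_Con`.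
* `gys_Con`: `x = cl v`, `v ∈ Ni i m` cocycle (`CovD.mem_Con`); lift `c ∈ Ni i m` (`exists_lift_Ni`), `w ∈ Ni (i + 1) (m + 2)` by `exists_gyr`; `gys hle m x (cl w)` and uniqueness (`exists_gy`).
* `con_surj`: induction on `a`: `con_gr`: `x₀ ∈ Con m a`, `gys x₀ y₀`, `y - y₀ ∈ Con (m + 2) a`. `a = 0`: `Con (m + 2) 0 = ⊥` by `con_bot` (every `y'` is `g x'` by `hs0`, and `gys_Fil` with `i = 0`, `Fil m 0 = ⊤` (`CovD.Fi_zero`), gives `y' ∈ Fil (m + 2) 1`), so `y = y₀`. `a = a' + 1`: induction for `y - y₀`, add (`Con m a' ≤ Con m (a' + 1)`: `CovD.Ni_mono`, `CovD.mem_Con`; linearity of `gys`: `exists_gy`).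
-/

set_option autoImplicit false
set_option linter.unusedSectionVars false

namespace MPadcHS

open MvPolynomial MPadcGP MPadcDC

universe u v w

section

variable {p : ℕ} [Fact p.Prime] {κ : Type u} [Field κ] [CharP κ p] {Λ : Type} [Fintype Λ] {b : Λ → κ} {n : ℕ}
  {Q P : Ideal (MvPolynomial (Fin (n + 1)) κ)}

theorem con_bot {N : ℕ} {X : CovD.{u, v} κ N} (hD : Dgn p b X) {m : ℕ} (h1 : ∀ y : X.HdR m, y ∈ X.Fil m 1) :
    X.Con m 0 = ⊥ := by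
  have hadd := CovD.finrank_add hD.fin hD.sum p b hD.car 0 m
  have hfin : FiniteDimensional κ (X.Hmz m) := CovD.Hmz_finite hD.fin m
  have hF : X.FH (0 + 1) m = ⊤ := by
    rw [eq_top_iff]
    intro x _
    have h2 := h1 (CovD.brdE X m x)
    rw [← CovD.brd_Fil] at h2
    obtain ⟨x', hx', he⟩ := h2
    have h3 : x' = x := (CovD.brdE X m).injective he
    rwa [← h3]
  rw [hF, finrank_top] at hadd
  have hN : X.NH 0 m = ⊥ := Submodule.finrank_eq_zero.1 (by omega)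
  rw [← CovD.brd_Con, hN, Submodule.map_bot]

private theorem StG_uniq (h : Gd Q P) (hle : Q ≤ P) {m : ℕ} {x : (prC P).HdR m} {y y' : (prC Q).HdR (m + 2)}
    (hy : gys hle m x y) (hy' : gys hle m x y') : y = y' := by
  obtain ⟨g, hg⟩ := exists_gy h hle m
  exact ((hg x y).1 hy).symm.trans ((hg x y').1 hy')

private theorem StG_Fil0 {m : ℕ} (x : (prC P).HdR m) : x ∈ (prC P).Fil m 0 := by
  obtain ⟨c, rfl⟩ := CovD.cl_surjective m x
  refine CovD.mem_Fil.2 ⟨c, ?_, rfl⟩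
  rw [CovD.Fi_zero]
  exact c.2.1

theorem gys_Con (h : Gd Q P) (hle : Q ≤ P) (hcX : ∀ J : Finset (Fin (n + 1)), J.Nonempty → CarP p b ((prC P).R J))
    {m i : ℕ} {x : (prC P).HdR m} {y : (prC Q).HdR (m + 2)} (hxy : gys hle m x y) (hx : x ∈ (prC P).Con m i) :
    y ∈ (prC Q).Con (m + 2) (i + 1) := by
  obtain ⟨c₀, hc₀, hcx⟩ := CovD.mem_Con.1 hx
  obtain ⟨c, hc, hpc⟩ := exists_lift_Ni h.eq hle hcX hc₀
  have hz : (rsH hle).push c ∈ (prC P).Zc m := by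
    rw [hpc]
    exact c₀.2
  obtain ⟨w, hw, -, hwN⟩ := exists_gyr h hle (CovD.Ni_le_Tt _ i m hc) hz
  refine CovD.mem_Con.2 ⟨⟨w, hw.wz⟩, hwN i hc, ?_⟩
  refine StG_uniq h hle ⟨c, w, hw, hz, ?_, rfl⟩ hxy
  rw [← hcx]
  exact congrArg _ (Subtype.ext hpc)

theorem con_surj (h : Gd Q P) (hle : Q ≤ P) (hDX : Dgn p b (prC P)) (hDY : Dgn p b (prC Q)) {m : ℕ}
    (hs : ∀ a, ∀ y ∈ (prC Q).Fil (m + 2) (a + 1), ∃ x ∈ (prC P).Fil m a, gys hle m x y)
    (hs0 : ∀ y : (prC Q).HdR (m + 2), ∃ x, gys hle m x y) (a : ℕ) {y : (prC Q).HdR (m + 2)}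
    (hy : y ∈ (prC Q).Con (m + 2) (a + 1)) : ∃ x ∈ (prC P).Con m a, gys hle m x y := by
  induction a generalizing y with
  | zero =>
    obtain ⟨x, hx, y', hxy, hd⟩ := con_gr h hle hDX hDY (hs 0) hy
    have h0 : (prC Q).Con (m + 2) 0 = ⊥ := by
      refine con_bot hDY fun z => ?_
      obtain ⟨x', hx'⟩ := hs0 z
      exact gys_Fil h hle hx' (StG_Fil0 x')
    rw [h0, Submodule.mem_bot, sub_eq_zero] at hd
    exact ⟨x, hx, hd ▸ hxy⟩
  | succ a ih =>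
    obtain ⟨x, hx, y', hxy, hd⟩ := con_gr h hle hDX hDY (hs (a + 1)) hy
    obtain ⟨x1, hx1, hxy1⟩ := ih hd
    obtain ⟨g, hg⟩ := exists_gy h hle m
    refine ⟨x + x1, Submodule.add_mem _ hx ?_, (hg _ _).2 ?_⟩
    · obtain ⟨c, hc, hcx⟩ := CovD.mem_Con.1 hx1
      exact CovD.mem_Con.2 ⟨c, CovD.Ni_mono (Nat.le_succ a) m hc, hcx⟩
    · rw [map_add, (hg _ _).1 hxy, (hg _ _).1 hxy1]
      exact add_sub_cancel y' y

end

end MPadcHS
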