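import Pool.Agent.Lib.MP_adc574_ag_HS.StC
import Pool.Agent.Lib.MP_adc574_ag_HS.StD
import Pool.Agent.Lib.MP_adc574_ag_HS.GyK

/-!
# JOB StH (HS, Part P): the restriction is strict for the conjugate filtration

Notation: `X := prC P`, `Y := prC Q`, `push := (rsH hle).push`.
`res_step` (`B := a + 1`, so `Np B = Ni a`, `Np (B + 1) = Ni B`): (1) `y = cl w`, `w ∈ Y.Ni B m` a cocycle; `x = cl (push w)`. `x = cl w'`, `w' ∈ X.Ni a m` a cocycle; `push w - w' ∈ X.Bc m`, in `X.Ni B m`, so `CovD.N_strict`: `= Dt t`, `t ∈ pr (Ni B) m` (`CovD.brd_pr`). So `push w ∈ BB (Np B) (Np (B + 1)) m ≤ BB (Mi B) (Np (B + 1)) m` (`BB_mono`, `CovD.Np_le_Mi`).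
(2) `N := finrank (HH Y.Dt (Y.Fi (B + 1)) (Y.Fi B) m)`, basis, representatives `ξ i`, by `F_rep` cocycles `ξ₀ i ∈ Y.Fi B m`; `z i` with `RepC p B m (ξ₀ i) (z i)`. `CovD.conj_comb`: `w - ∑ c i • z i ∈ BB Y.Dt (Mi B) (Np (B + 1)) m`. Push: `∑ c i • push (z i) ∈ BB X.Dt (X.Mi B) (X.Np (B + 1)) m` (`push` maps `Mi`, `Np`, `pr` to the same: `CovD.Hm.push_mem_Ni`, `mp_exq` for `Mi`; `push_Dt`, `push_smul` with `RingHom.id`).
(3) `push (z i)` represents `push (ξ₀ i)` (`push_rep`). `mi_indep` for `X` gives `c = 0`, if the hypothesis `hind` holds for `x i := push (ξ₀ i)`: let `∑ l i • push (ξ₀ i) = push η ∈ BB X.Dt (X.Fi (B + 1)) (X.Fi B) m`, `η := ∑ l i • ξ₀ i` a cocycle of `Y.Fi B m`: `push η = s + Dt t`, `s ∈ X.Fi (B + 1) m` a cocycle, so `cl (push η) = cl s ∈ X.Fil m (B + 1)`; `resR hle m (cl η) (cl (push η))`; `hr`: `cl η ∈ Y.Fil m (B + 1)`: `η - s' ∈ Y.Bc m`, `s'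 ∈ Y.Fi (B + 1) m`, `CovD.F_strict`: `η - s' ∈ (pr (Fi B) m).map Dt`, so `η ∈ BB Y.Dt (Fi (B + 1)) (Fi B) m`, and `l = 0` by the independence of the basis.
(4) So `w ∈ BB Y.Dt (Mi B) (Np (B + 1)) m`, `CovD.be_injective`: `w = s + Dt t`, `s ∈ Np B m = Ni a m` cocycle: `y = cl s ∈ Con m a`.
`res_con`: every `y` is in `Con m (m + 1)` (`CovD.Ni_top`); descending induction from `m + 1` to `a`: `y ∈ Con m (a' + 1)`, `a ≤ a'`, `x ∈ Con m a ≤ Con m a'` gives `y ∈ Con m a'` by `res_step`. (For `a ≥ m + 1` trivial.)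
-/

set_option autoImplicit false

namespace MPadcHS

open MvPolynomial MPadcGP MPadcDC

universe u v w

section

variable {p : ℕ} [Fact p.Prime] {κ : Type u} [Field κ] [CharP κ p] {Λ : Type} [Fintype Λ] {b : Λ → κ} {n : ℕ}
  {Q P : Ideal (MvPolynomial (Fin (n + 1)) κ)}

private theorem StH_Bc {n : ℕ} (X : CovD.{u, u} κ n) (m : ℕ) : X.Bc m = (pr X.Tt m).map X.Dt := by
  cases m with
  | zero => exact (Submodule.map_bot _).symm
  | succ m => rfl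

private theorem StH_basis {T : Type u} [AddCommGroup T] [Module κ T] {D : T →ₗ[κ] T} {S S' : ℕ → Submodule κ T}
    {m : ℕ} (hf : FiniteDimensional κ (HH D S S' m)) : ∃ (r : ℕ) (x : Fin r → T), (∀ i, x i ∈ ZZ D S S' m) ∧
      (∀ y ∈ ZZ D S S' m, ∃ c : Fin r → κ, y - ∑ i, c i • x i ∈ BB D S S' m) ∧
      ∀ c : Fin r → κ, ∑ i, c i • x i ∈ BB D S S' m → c = 0 := by
  have hs : ∀ i, ∃ x : ↥(ZZ D S S' m), Submodule.Quotient.mk x = Module.finBasis κ (HH D S S' m) i := fun i =>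
    Submodule.Quotient.mk_surjective _ _
  choose x hx using hs
  have hmk : ∀ c : Fin (Module.finrank κ (HH D S S' m)) → κ, ((BB D S S' m).submoduleOf (ZZ D S S' m)).mkQ (∑ i, c i • x i) =
      ∑ i, c i • Module.finBasis κ (HH D S S' m) i := by
    intro c
    rw [map_sum]
    refine Finset.sum_congr rfl fun i _ => ?_
    rw [map_smul, Submodule.mkQ_apply, hx i]
  have hco : ∀ c : Fin (Module.finrank κ (HH D S S' m)) → κ, ((∑ i, c i • x i : ↥(ZZ D S S' m)) : T) =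
      ∑ i, c i • (x i : T) := by
    intro c
    rw [Submodule.coe_sum]
    rfl
  refine ⟨_, fun i => (x i : T), fun i => (x i).2, fun y hy => ?_, fun c hc => ?_⟩
  · refine ⟨fun i => (Module.finBasis κ (HH D S S' m)).repr (((BB D S S' m).submoduleOf (ZZ D S S' m)).mkQ ⟨y, hy⟩) i, ?_⟩
    have h1 := hmk (fun i => (Module.finBasis κ (HH D S S' m)).repr
      (((BB D S S' m).submoduleOf (ZZ D S S' m)).mkQ ⟨y, hy⟩) i)
    rw [(Module.finBasis κ (HH D S S' m)).sum_repr] at h1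
    have h2 := (Submodule.Quotient.eq _).mp h1.symm
    have h3 : y - ((∑ i, (Module.finBasis κ (HH D S S' m)).repr
      (((BB D S S' m).submoduleOf (ZZ D S S' m)).mkQ ⟨y, hy⟩) i • x i : ↥(ZZ D S S' m)) : T) ∈ BB D S S' m := h2
    rwa [hco] at h3
  · have h1 : ((BB D S S' m).submoduleOf (ZZ D S S' m)).mkQ (∑ i, c i • x i) = 0 := by
      rw [Submodule.mkQ_apply, Submodule.Quotient.mk_eq_zero]
      change ((∑ i, c i • x i : ↥(ZZ D S S' m)) : T) ∈ BB D S S' m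
      rw [hco]
      exact hc
    rw [hmk] at h1
    funext i
    exact Fintype.linearIndependent_iff.mp (Module.finBasis κ (HH D S S' m)).linearIndependent c h1 i

private theorem StH_pr {n : ℕ} {X : CovD.{u, u} κ n} {a m : ℕ} {t : X.Ch} (h : t ∈ pr (X.Ni a) m) :
    t ∈ pr (X.Np (a + 1)) m := by
  cases m with
  | zero => exact h
  | succ m => exact h

private theorem StH_push_BB {n : ℕ} {X Y : CovD.{u, u} κ n} (F : CovD.Hm (RingHom.id κ) Y X) {a m : ℕ} {c : Y.Ch}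
    (hc : c ∈ BB Y.Dt (Y.Mi a) (Y.Np (a + 1)) m) : F.push c ∈ BB X.Dt (X.Mi a) (X.Np (a + 1)) m := by
  obtain ⟨s, hs, t, ht, rfl⟩ := mem_BB.mp hc
  refine mem_BB.mpr ⟨F.push s, ⟨CovD.Hm.push_mem_Tt hs.1, fun J => ⟨fun h => ?_, fun h => ?_⟩⟩, F.push t, ?_, ?_⟩
  · rw [CovD.Hm.push_apply, (hs.2 J).1 h, map_zero]
  · exact mp_exq (F.cc J) ((hs.2 J).2 h)
  · cases m with
    | zero =>
      have h1 : t = 0 := ht
      rw [h1, map_zero]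
      exact Submodule.zero_mem _
    | succ m => exact CovD.Hm.push_mem_Ni ht
  · rw [map_add, CovD.Hm.push_Dt]

private theorem StH_push_sum {n : ℕ} {X Y : CovD.{u, u} κ n} (F : CovD.Hm (RingHom.id κ) Y X) {r : ℕ} (c : Fin r → κ)
    (x : Fin r → Y.Ch) : F.push (∑ i, c i • x i) = ∑ i, c i • F.push (x i) := by
  rw [map_sum]
  exact Finset.sum_congr rfl fun i _ => CovD.Hm.push_smul _ _

private theorem StH_gen {n : ℕ} {X Y : CovD.{u, u} κ n} (F : CovD.Hm (RingHom.id κ) Y X) (hDX : Dgn p b X)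
    (hDY : Dgn p b Y) {m a : ℕ}
    (hR : ∀ x z : Y.Ch, CovD.RepC p (a + 1) m x z → CovD.RepC p (a + 1) m (F.push x) (F.push z))
    (hr : ∀ η ∈ Y.Fi (a + 1) m, Y.Dt η = 0 → (∃ s ∈ X.Fi (a + 2) m, X.Dt s = 0 ∧ F.push η - s ∈ X.Bc m) →
      ∃ s ∈ Y.Fi (a + 2) m, Y.Dt s = 0 ∧ η - s ∈ Y.Bc m)
    {w : Y.Ch} (hw : w ∈ Y.Ni (a + 1) m) (hw0 : Y.Dt w = 0) {w' : X.Ch} (hw' : w' ∈ X.Ni a m) (hw'0 : X.Dt w' = 0)
    (hww : F.push w - w' ∈ X.Bc m) : ∃ s ∈ Y.Ni a m, Y.Dt s = 0 ∧ w - s ∈ Y.Bc m := by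
  have hDX2 : ∀ t : X.Ch, X.Dt (X.Dt t) = 0 := CovD.Dt_Dt
  have hDY2 : ∀ t : Y.Ch, Y.Dt (Y.Dt t) = 0 := CovD.Dt_Dt
  -- (1)
  have h1 : F.push w ∈ BB X.Dt (X.Mi (a + 1)) (X.Np (a + 1 + 1)) m := by
    have e1 : X.Dt (F.push w - w') = 0 := by
      rw [map_sub, ← CovD.Hm.push_Dt, hw0, map_zero, hw'0, sub_zero]
    have e2 : F.push w - w' ∈ X.Ni (a + 1) m :=
      Submodule.sub_mem _ (CovD.Hm.push_mem_Ni hw) (CovD.Ni_mono (Nat.le_succ a) m hw')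
    rw [StH_Bc] at hww
    obtain ⟨t, ht, hte⟩ := CovD.N_strict hDX.fin hDX.sum p b hDX.car (a + 1) m _ e2 e1 hww
    refine mem_BB.mpr ⟨w', CovD.Np_le_Mi (a + 1) m hw', t, StH_pr ht, ?_⟩
    rw [hte]
    abel
  -- (2)
  obtain ⟨r, ξ, hξ, hspan, hind⟩ := StH_basis (hDY.fin (a + 1) m)
  choose ξ₀ hξF hξD hξd using fun i => F_rep hDY (hξ i)
  have hξZ : ∀ i, ξ₀ i ∈ ZZ Y.Dt (Y.Fi (a + 1 + 1)) (Y.Fi (a + 1)) m := fun i => mem_ZZ.mpr ⟨hξF i, by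
    rw [hξD i]
    exact Submodule.zero_mem _⟩
  have hdif : ∀ c : Fin r → κ, ∑ i, c i • ξ i - ∑ i, c i • ξ₀ i ∈ BB Y.Dt (Y.Fi (a + 1 + 1)) (Y.Fi (a + 1)) m := by
    intro c
    rw [← Finset.sum_sub_distrib]
    refine Submodule.sum_mem _ fun i _ => ?_
    rw [← smul_sub]
    refine Submodule.smul_mem _ _ ?_
    exact mem_BB.mpr ⟨ξ i - ξ₀ i, hξd i, 0, Submodule.zero_mem _, by rw [map_zero, add_zero]⟩
  have hspan' : ∀ y ∈ ZZ Y.Dt (Y.Fi (a + 1 + 1)) (Y.Fi (a + 1)) m, ∃ c : Fin r → κ,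
      y - ∑ i, c i • ξ₀ i ∈ BB Y.Dt (Y.Fi (a + 1 + 1)) (Y.Fi (a + 1)) m := by
    intro y hy
    obtain ⟨c, hc⟩ := hspan y hy
    refine ⟨c, ?_⟩
    have e := Submodule.add_mem _ hc (hdif c)
    rwa [sub_add_sub_cancel] at e
  have hind' : ∀ c : Fin r → κ, ∑ i, c i • ξ₀ i ∈ BB Y.Dt (Y.Fi (a + 1 + 1)) (Y.Fi (a + 1)) m → c = 0 := by
    intro c hc
    refine hind c ?_
    have e := Submodule.add_mem _ hc (hdif c)
    rwa [add_sub_cancel] at e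
  choose z hz using fun i => CovD.RepC.exists (p := p) (a := a + 1) (m := m) (x := ξ₀ i) (hξF i).1.1
    (fun J hJ => ((hξF i).1.2 J).1 (a + 1) (by omega))
  have hwZ : w ∈ ZZ Y.Dt (Y.Mi (a + 1)) (Y.Np (a + 1 + 1)) m := mem_ZZ.mpr ⟨hw, by
    rw [hw0]
    exact Submodule.zero_mem _⟩
  obtain ⟨c, hc⟩ := CovD.conj_comb p b hDY.car (a + 1) m ξ₀ z hz hspan' w hwZ
  have h2 : ∑ i, c i • F.push (z i) ∈ BB X.Dt (X.Mi (a + 1)) (X.Np (a + 1 + 1)) m := by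
    have e := Submodule.sub_mem _ h1 (StH_push_BB F hc)
    rwa [map_sub, StH_push_sum, sub_sub_cancel] at e
  -- (3)
  have hc0 : c = 0 := by
    refine mi_indep hDX (fun i => F.push (ξ₀ i)) (fun i => F.push (z i)) (fun i => hR _ _ (hz i)) (fun i => ?_) ?_ c h2
    · refine mem_ZZ.mpr ⟨CovD.Hm.push_mem_Fi (hξF i), ?_⟩
      rw [← CovD.Hm.push_Dt, hξD i, map_zero]
      exact Submodule.zero_mem _
    · intro l hl
      refine hind' l ?_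
      have hηF : ∑ i, l i • ξ₀ i ∈ Y.Fi (a + 1) m := Submodule.sum_mem _ fun i _ => Submodule.smul_mem _ _ (hξF i)
      have hηD : Y.Dt (∑ i, l i • ξ₀ i) = 0 := by
        rw [map_sum]
        refine Finset.sum_eq_zero fun i _ => ?_
        rw [map_smul, hξD i, smul_zero]
      have hpe : F.push (∑ i, l i • ξ₀ i) = ∑ i, l i • F.push (ξ₀ i) := StH_push_sum F l ξ₀
      obtain ⟨s, hs, t, ht, hst⟩ := mem_BB.mp hl
      rw [← hpe] at hst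
      have hsD : X.Dt s = 0 := by
        have e : s = F.push (∑ i, l i • ξ₀ i) - X.Dt t := by rw [hst, add_sub_cancel_right]
        rw [e, map_sub, ← CovD.Hm.push_Dt, hηD, map_zero, hDX2, sub_zero]
      have hsB : F.push (∑ i, l i • ξ₀ i) - s ∈ X.Bc m := by
        rw [hst, add_sub_cancel_left, StH_Bc]
        exact Submodule.mem_map_of_mem (pr_mono (fun k => X.Fi_le_Tt (a + 1) k) m ht)
      obtain ⟨s', hs', hs'D, hs'B⟩ := hr _ hηF hηD ⟨s, hs, hsD, hsB⟩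
      have e1 : ∑ i, l i • ξ₀ i - s' ∈ Y.Fi (a + 1) m :=
        Submodule.sub_mem _ hηF (CovD.Fi_anti (Nat.le_succ (a + 1)) m hs')
      have e2 : Y.Dt (∑ i, l i • ξ₀ i - s') = 0 := by rw [map_sub, hηD, hs'D, sub_zero]
      rw [StH_Bc] at hs'B
      obtain ⟨t', ht', hte'⟩ := CovD.F_strict hDY.fin hDY.sum (a + 1) m _ e1 e2 hs'B
      refine mem_BB.mpr ⟨s', hs', t', ht', ?_⟩
      rw [hte']
      abel
  -- (4)
  have h4 : w ∈ BB Y.Dt (Y.Mi (a + 1)) (Y.Np (a + 1 + 1)) m := by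
    have e : ∑ i, c i • z i = 0 := by
      rw [hc0]
      exact Finset.sum_eq_zero fun i _ => zero_smul _ _
    rwa [e, sub_zero] at hc
  have hwZ' : w ∈ ZZ Y.Dt (Y.Np (a + 1)) (Y.Np (a + 1 + 1)) m := mem_ZZ.mpr ⟨hw, by
    rw [hw0]
    exact Submodule.zero_mem _⟩
  obtain ⟨s, hs, t, ht, hst⟩ := mem_BB.mp (CovD.be_injective (a + 1) m w hwZ' h4)
  refine ⟨s, hs, ?_, ?_⟩
  · have e : s = w - Y.Dt t := by rw [hst, add_sub_cancel_right]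
    rw [e, map_sub, hw0, hDY2, sub_zero]
  · rw [hst, add_sub_cancel_left, StH_Bc]
    exact Submodule.mem_map_of_mem (pr_mono (fun k => Y.Ni_le_Tt (a + 1) k) m ht)

theorem res_step (hle : Q ≤ P) (hDX : Dgn p b (prC P)) (hDY : Dgn p b (prC Q)) {m a : ℕ}
    (hr : ∀ (y : (prC Q).HdR m) (x : (prC P).HdR m), resR hle m y x → y ∈ (prC Q).Fil m (a + 1) →
      x ∈ (prC P).Fil m (a + 2) → y ∈ (prC Q).Fil m (a + 2)) {y : (prC Q).HdR m} {x : (prC P).HdR m}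
    (hyx : resR hle m y x) (hy : y ∈ (prC Q).Con m (a + 1)) (hx : x ∈ (prC P).Con m a) : y ∈ (prC Q).Con m a := by
  obtain ⟨w, hwN, rfl⟩ := CovD.mem_Con.1 hy
  obtain ⟨w', hw'N, rfl⟩ := CovD.mem_Con.1 hx
  obtain ⟨R, hRr⟩ := exists_rH hle m
  have hpw : (rsH hle).push (w : (prC Q).Ch) ∈ (prC P).Zc m := push_mem_Zc w.2
  have h1 : resR hle m ((prC Q).cl m w) ((prC P).cl m ⟨_, hpw⟩) := ⟨w, ⟨_, hpw⟩, rfl, rfl, rfl⟩
  have h2 : (prC P).cl m ⟨_, hpw⟩ = (prC P).cl m w' := ((hRr _ _).1 h1).symm.trans ((hRr _ _).1 hyx)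
  have h3 : (rsH hle).push (w : (prC Q).Ch) - (w' : (prC P).Ch) ∈ (prC P).Bc m := CovD.cl_eq.1 h2
  obtain ⟨s, hs, hsD, hsB⟩ := StH_gen (rsH hle) hDX hDY (m := m) (a := a) (fun x z h => push_rep hle h) (by
    rintro η hη hηD ⟨s, hs, hsD, hsB⟩
    have z1 : η ∈ (prC Q).Zc m := ⟨hη.1, hηD⟩
    have z2 : s ∈ (prC P).Zc m := ⟨hs.1, hsD⟩
    have z3 : (rsH hle).push η ∈ (prC P).Zc m := push_mem_Zc z1
    have e1 : (prC P).cl m ⟨_, z3⟩ = (prC P).cl m ⟨s, z2⟩ := CovD.cl_eq.2 hsB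
    have e2 := hr ((prC Q).cl m ⟨η, z1⟩) ((prC P).cl m ⟨_, z3⟩) ⟨⟨η, z1⟩, ⟨_, z3⟩, rfl, rfl, rfl⟩
      (CovD.mem_Fil.2 ⟨⟨η, z1⟩, hη, rfl⟩) (CovD.mem_Fil.2 ⟨⟨s, z2⟩, hs, e1.symm⟩)
    obtain ⟨s', hs', hs'e⟩ := CovD.mem_Fil.1 e2
    have e3 := CovD.cl_eq.1 hs'e.symm
    exact ⟨s', hs', s'.2.2, e3⟩) hwN w.2.2 hw'N w'.2.2 h3
  exact CovD.mem_Con.2 ⟨⟨s, hs.1, hsD⟩, hs, (CovD.cl_eq.2 hsB).symm⟩

theorem res_con (hle : Q ≤ P) (hDX : Dgn p b (prC P)) (hDY : Dgn p b (prC Q)) {m : ℕ}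
    (hr : ∀ (a : ℕ) (y : (prC Q).HdR m) (x : (prC P).HdR m), resR hle m y x → y ∈ (prC Q).Fil m a →
      x ∈ (prC P).Fil m (a + 1) → y ∈ (prC Q).Fil m (a + 1)) (a : ℕ) {y : (prC Q).HdR m} {x : (prC P).HdR m}
    (hyx : resR hle m y x) (hx : x ∈ (prC P).Con m a) : y ∈ (prC Q).Con m a := by
  have key : ∀ k : ℕ, ∀ a : ℕ, a + k = m + 1 → x ∈ (prC P).Con m a → y ∈ (prC Q).Con m a := by
    intro k
    induction k with
    | zero =>
      intro a ha _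
      obtain ⟨c, hc⟩ := CovD.cl_surjective m y
      refine CovD.mem_Con.2 ⟨c, ?_, hc⟩
      rw [CovD.Ni_top (by omega)]
      exact c.2.1
    | succ k ih =>
      intro a ha hxa
      have h1 : x ∈ (prC P).Con m (a + 1) := by
        obtain ⟨c, hc, hcx⟩ := CovD.mem_Con.1 hxa
        exact CovD.mem_Con.2 ⟨c, CovD.Ni_mono (Nat.le_succ a) m hc, hcx⟩
      exact res_step hle hDX hDY (fun y x h1 h2 h3 => hr (a + 1) y x h1 h2 h3) hyx (ih (a + 1) (by omega) h1) hxa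
  rcases Nat.lt_or_ge m a with h | h
  · obtain ⟨c, hc⟩ := CovD.cl_surjective m y
    refine CovD.mem_Con.2 ⟨c, ?_, hc⟩
    rw [CovD.Ni_top h]
    exact c.2.1
  · exact key (m + 1 - a) a (by omega) hx

end

end MPadcHS
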