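import Pool.Agent.Lib.MP_adc574_ag_HS.GyA
import Pool.Agent.Lib.MP_adc574_ag_HS.StA

/-!
# JOB StK (HS, Part P): lifting cochains of `Ni` and `Mi` (characteristic `p`)

As `exists_lift_Tt` (GyJ): componentwise, `R := chart Q C → S := chart P C` is surjective (`rsH_surj`). For each `C` choose `c C`:
* `z ∈ C`: `(prC P).E C` is trivial (`subs_E`), `c C := 0`. `C = ∅`: `0` (`v ∅ = 0`).
* otherwise `C.Nonempty`, `CarP p b (chart P C)` (`hc C`). `Ni`: if `m + 1 < C.card`: `0`. If `C.card + a < m + 1`: `0` (`v C = 0`). If `C.card + a = m + 1`: `v C ∈ Fd a` closed, `lift_closed`. If `m + 1 < C.card + a`, `C.card ≤ m + 1`: `v C ∈ Fd q` with `q + C.card = m + 1`, `mp_onto`.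
* `Mi`: the same with `lift_exq` in the case `C.card + a = m + 1`.
`(rsH hle).push c C = (rsH hle).e C (c C) = mp ((rsH hle).h C) _ (c C)` (`CovD.Hm.push_apply`, `rfl`). `hA` of `lift_closed`: `(rsH hle).base C a`.
-/

set_option autoImplicit false

namespace MPadcHS

open MvPolynomial MPadcGP MPadcDC

universe u v w

section

variable {p : ℕ} [Fact p.Prime] {κ : Type u} [Field κ] [CharP κ p] {Λ : Type} [Fintype Λ] {b : Λ → κ} {n : ℕ}
  {Q P : Ideal (MvPolynomial (Fin (n + 1)) κ)}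

/-- Componentwise lifting: the components of form degree `a` are lifted by `hl`. -/
private theorem StK_lift (hle : Q ≤ P) {a m : ℕ} {v : (prC P).Ch} (hv : v ∈ (prC P).Tt m)
    (h0 : ∀ J : Finset (Fin (n + 1)), J.card + a < m + 1 → v J = 0)
    (T : ∀ J : Finset (Fin (n + 1)), (prC Q).E J → Prop) (hT0 : ∀ J, T J 0)
    (hl : ∀ J : Finset (Fin (n + 1)), J.Nonempty → J.card + a = m + 1 →
      ∃ e₀ ∈ Fd κ ((prC Q).R J) a, T J e₀ ∧ (rsH hle).e J e₀ = v J) :
    ∃ c ∈ (prC Q).Tt m, (∀ J : Finset (Fin (n + 1)), J.card + a < m + 1 → c J = 0) ∧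
      (∀ J : Finset (Fin (n + 1)), J.card + a = m + 1 → T J (c J)) ∧ (rsH hle).push c = v := by
  have key : ∀ J : Finset (Fin (n + 1)), ∃ x : (prC Q).E J, (J = ∅ → x = 0) ∧
      (∀ q, q + J.card = m + 1 → x ∈ Fd κ ((prC Q).R J) q) ∧ (m + 1 < J.card → x = 0) ∧
      (J.card + a < m + 1 → x = 0) ∧ (J.card + a = m + 1 → T J x) ∧ (rsH hle).e J x = v J := by
    intro J
    have z0 : v J = 0 → ∃ x : (prC Q).E J, (J = ∅ → x = 0) ∧
      (∀ q, q + J.card = m + 1 → x ∈ Fd κ ((prC Q).R J) q) ∧ (m + 1 < J.card → x = 0) ∧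
      (J.card + a < m + 1 → x = 0) ∧ (J.card + a = m + 1 → T J x) ∧ (rsH hle).e J x = v J := fun h =>
      ⟨0, fun _ => rfl, fun _ _ => Submodule.zero_mem _, fun _ => rfl, fun _ => rfl, fun _ => hT0 J, by
        rw [map_zero, h]⟩
    rcases J.eq_empty_or_nonempty with hJ | hJ
    · subst hJ
      exact z0 hv.1
    · by_cases h1 : m + 1 < J.card
      · exact z0 ((hv.2 J).2 h1)
      · by_cases h2 : J.card + a < m + 1
        · exact z0 (h0 J h2)
        · by_cases h3 : J.card + a = m + 1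
          · obtain ⟨e₀, he₀, hTe, he⟩ := hl J hJ h3
            refine ⟨e₀, fun h => absurd h hJ.ne_empty, fun q hq => ?_, fun h => absurd h h1, fun h => absurd h h2,
              fun _ => hTe, he⟩
            have e : q = a := by omega
            rw [e]
            exact he₀
          · have h4 : v J ∈ Fd κ ((prC P).R J) (m + 1 - J.card) := (hv.2 J).1 _ (by omega)
            obtain ⟨e₀, he₀, he⟩ := mp_onto ((rsH hle).cc J) (rsH_surj hle J) h4
            refine ⟨e₀, fun h => absurd h hJ.ne_empty, fun q hq => ?_, fun h => absurd h h1, fun h => absurd h h2,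
              fun h => absurd h h3, he⟩
            have e : q = m + 1 - J.card := by omega
            rw [e]
            exact he₀
  choose c c1 c2 c3 c4 c5 c6 using key
  exact ⟨c, ⟨c1 ∅ rfl, fun J => ⟨c2 J, c3 J⟩⟩, c4, c5, funext fun J => c6 J⟩

theorem exists_lift_Ni (hP : P = hyp Q) (hle : Q ≤ P)
    (hc : ∀ J : Finset (Fin (n + 1)), J.Nonempty → CarP p b ((prC P).R J)) {a m : ℕ} {v : (prC P).Ch}
    (hv : v ∈ (prC P).Ni a m) : ∃ c ∈ (prC Q).Ni a m, (rsH hle).push c = v := by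
  obtain ⟨c, hcT, hc0, hcd, hpc⟩ := StK_lift hle hv.1 (fun J => (hv.2 J).1) (fun J x => dd κ x = 0)
    (fun J => map_zero _) (fun J hJ h => lift_closed (hc J hJ) ((rsH hle).cc J) (rsH_surj hle J)
      (fun a => (rsH hle).base J a) ((hv.1.2 J).1 a (by omega)) ((hv.2 J).2 h))
  exact ⟨c, ⟨hcT, fun J => ⟨hc0 J, hcd J⟩⟩, hpc⟩

theorem exists_lift_Mi (hP : P = hyp Q) (hle : Q ≤ P)
    (hc : ∀ J : Finset (Fin (n + 1)), J.Nonempty → CarP p b ((prC P).R J)) {a m : ℕ} {v : (prC P).Ch}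
    (hv : v ∈ (prC P).Mi a m) : ∃ c ∈ (prC Q).Mi a m, (rsH hle).push c = v := by
  obtain ⟨c, hcT, hc0, hcd, hpc⟩ := StK_lift hle hv.1 (fun J => (hv.2 J).1)
    (fun J x => x ∈ exq κ ((prC Q).R J) a) (fun J => zero_mem _) (fun J hJ h => by
      obtain ⟨e₀, he₀, he⟩ := lift_exq ((rsH hle).cc J) (rsH_surj hle J) ((hv.2 J).2 h)
      exact ⟨e₀, exq_le he₀, he₀, he⟩)
  exact ⟨c, ⟨hcT, fun J => ⟨hc0 J, hcd J⟩⟩, hpc⟩

end

end MPadcHS
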