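import Pool.Agent.Lib.MP_adc574_ag_DC.GNUb

/-!
# JOB TDomA (HS): the generic linear combination generates a prime ideal

`A` a domain over `κ`, `y g0 = 1`, `δ (y g) ≠ 0` for some `g`, `K` the fraction field of `κ[a]`, `f = ∑ a_g ⊗ y_g ∈ K ⊗ A`. Then `(f)` is prime and contains no `1 ⊗ b`, `b ≠ 0`.
`φ := phiS κ y g0 : κ[a] ⊗ A → κ[a] ⊗ A` (DC/GNU.lean): `a_g ↦ a_g` for `g ≠ g0`, `a_{g0} ↦ -s`, `s = ∑_{g ≠ g0} a_g ⊗ y_g`, the identity on `A`.
* `φ(f₀) = 0` for `f₀ = ∑ a_g ⊗ y_g ∈ κ[a] ⊗ A` (copy `GNUb_phi` from DC/GNUb.lean, private there), and `x - φ(x) ∈ (f₀)` for all `x ∈ κ[a] ⊗ A`: the set of `x` for which this holds is a subalgebra (`xx' - φ(x)φ(x') = (x - φ x) x' + φ(x) (x' - φ x')`) which contains `1 ⊗ b` (difference `0`), `a_g ⊗ 1` (`g ≠ g0`, difference `0`) and `a_{g0} ⊗ 1` (difference `a_{g0} ⊗ 1 + s = f₀` as `y_{g0} = 1`).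
  So `ker φ = (f₀)`.
* `κ[a] ⊗ A` is a domain (copy `GNU_dom` from DC/GNU.lean, private there); let `E` be its fraction field. `sub_inj hy hδ`: `r ↦ φ(r ⊗ 1)` is injective `κ[a] → E`, so it extends to `K → E` (`IsFractionRing.lift`), with `A → E`, `b ↦ φ(1 ⊗ b) = 1 ⊗ b`, this gives a homomorphism `Φ : K ⊗[κ] A → E` (`Algebra.TensorProduct.lift` or `productMap`), `Φ(f) = φ(f₀) = 0`.
  `ker Φ = (f)`: let `Φ x = 0`; there are `s ∈ κ[a]`, `s ≠ 0` and `x₀ ∈ κ[a] ⊗ A` with `(s ⊗ 1) x = ` the image of `x₀` (induction on `x`: `IsFractionRing.div_surjective`/`IsLocalization.surj` for the pure tensors, common denominators), so `φ(x₀) = 0` in `E`, `x₀ ∈ (f₀)`, `x ∈ (f)` as `s ⊗ 1` is a unit.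
* So `(f) = ker Φ` is prime (`RingHom.ker_isPrime`, `E` a field), and `Φ(1 ⊗ b) = 1 ⊗ b ≠ 0` for `b ≠ 0` (`A → κ[a] ⊗ A` is injective: flat/free; `Algebra.TensorProduct.includeRight_injective`).
-/

set_option autoImplicit false

namespace MPadcHS

open MvPolynomial TensorProduct MPadcDC

universe u

variable {κ A : Type u} [Field κ] [CharZero κ] [CommRing A] [IsDomain A] [Algebra κ A] {Γ : Type} [Fintype Γ] [DecidableEq Γ]
  {y : Γ → A} {g0 : Γ} {δ : Derivation κ A A} {K : Type u} [Field K] [Algebra κ K] [Algebra (MvPolynomial Γ κ) K]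
  [IsScalarTower κ (MvPolynomial Γ κ) K] [IsFractionRing (MvPolynomial Γ κ) K]

omit [CharZero κ] [Fintype Γ] [DecidableEq Γ] in
private theorem TDomA_dom : IsDomain (MvPolynomial Γ κ ⊗[κ] A) :=
  ((Algebra.TensorProduct.comm κ (MvPolynomial Γ κ) A).toRingEquiv.trans
    (MvPolynomial.algebraTensorAlgEquiv (σ := Γ) κ A).toRingEquiv).toMulEquiv.isDomain (MvPolynomial Γ A)

omit [CharZero κ] [IsDomain A] in
private theorem TDomA_one (b : A) : phiS κ y g0 (1 ⊗ₜ[κ] b) = 1 ⊗ₜ[κ] b := by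
  unfold phiS
  rw [Algebra.TensorProduct.lift_tmul, map_one, one_mul]
  rfl

omit [CharZero κ] [IsDomain A] in
private theorem TDomA_X (g : Γ) : phiS κ y g0 ((X g : MvPolynomial Γ κ) ⊗ₜ[κ] 1) =
    if g = g0 then -∑ h ∈ Finset.univ.erase g0, (X h : MvPolynomial Γ κ) ⊗ₜ[κ] y h
      else (X g : MvPolynomial Γ κ) ⊗ₜ[κ] (1 : A) := by
  unfold phiS
  rw [Algebra.TensorProduct.lift_tmul, aeval_X, map_one, mul_one]

omit [CharZero κ] [IsDomain A] in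
/-- The generic form is zero after the substitution. -/
private theorem TDomA_phi (hy : y g0 = 1) :
    phiS κ y g0 (∑ g, (X g : MvPolynomial Γ κ) ⊗ₜ[κ] y g) = 0 := by
  have h1 : ∀ g, phiS κ y g0 ((X g : MvPolynomial Γ κ) ⊗ₜ[κ] y g) =
      (if g = g0 then -∑ h ∈ Finset.univ.erase g0, (X h : MvPolynomial Γ κ) ⊗ₜ[κ] y h
      else (X g : MvPolynomial Γ κ) ⊗ₜ[κ] (1 : A)) * (1 ⊗ₜ[κ] y g) := by
    intro g
    unfold phiS
    rw [Algebra.TensorProduct.lift_tmul, MvPolynomial.aeval_X]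
    rfl
  rw [map_sum, ← Finset.add_sum_erase _ _ (Finset.mem_univ g0), h1 g0, if_pos rfl, hy]
  have h2 : ∀ g ∈ Finset.univ.erase g0, phiS κ y g0 ((X g : MvPolynomial Γ κ) ⊗ₜ[κ] y g) =
      (X g : MvPolynomial Γ κ) ⊗ₜ[κ] y g := by
    intro g hg
    rw [h1 g, if_neg (Finset.ne_of_mem_erase hg), Algebra.TensorProduct.tmul_mul_tmul, mul_one,
      one_mul]
  rw [Finset.sum_congr rfl h2, ← Algebra.TensorProduct.one_def, mul_one, neg_add_cancel]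

omit [CharZero κ] [IsDomain A] in
private theorem TDomA_mul {x z : MvPolynomial Γ κ ⊗[κ] A}
    (hx : ∃ w, x - phiS κ y g0 x = (∑ g, (X g : MvPolynomial Γ κ) ⊗ₜ[κ] y g) * w)
    (hz : ∃ w, z - phiS κ y g0 z = (∑ g, (X g : MvPolynomial Γ κ) ⊗ₜ[κ] y g) * w) :
    ∃ w, x * z - phiS κ y g0 (x * z) = (∑ g, (X g : MvPolynomial Γ κ) ⊗ₜ[κ] y g) * w := by
  obtain ⟨w, hw⟩ := hx
  obtain ⟨w', hw'⟩ := hz
  refine ⟨w * z + phiS κ y g0 x * w', ?_⟩
  have h1 : x * z - phiS κ y g0 (x * z) = (x - phiS κ y g0 x) * z + phiS κ y g0 x * (z - phiS κ y g0 z) := by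
    rw [map_mul]
    ring
  rw [h1, hw, hw']
  ring

omit [CharZero κ] [IsDomain A] in
/-- The substitution modulo the generic form is the identity. -/
private theorem TDomA_sub (hy : y g0 = 1) (x : MvPolynomial Γ κ ⊗[κ] A) :
    ∃ w, x - phiS κ y g0 x = (∑ g, (X g : MvPolynomial Γ κ) ⊗ₜ[κ] y g) * w := by
  have hadd : ∀ x z : MvPolynomial Γ κ ⊗[κ] A,
      (∃ w, x - phiS κ y g0 x = (∑ g, (X g : MvPolynomial Γ κ) ⊗ₜ[κ] y g) * w) →
      (∃ w, z - phiS κ y g0 z = (∑ g, (X g : MvPolynomial Γ κ) ⊗ₜ[κ] y g) * w) →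
      ∃ w, (x + z) - phiS κ y g0 (x + z) = (∑ g, (X g : MvPolynomial Γ κ) ⊗ₜ[κ] y g) * w := by
    rintro x z ⟨w, hw⟩ ⟨w', hw'⟩
    refine ⟨w + w', ?_⟩
    rw [map_add, mul_add, ← hw, ← hw']
    abel
  have hr : ∀ r : MvPolynomial Γ κ, ∃ w, r ⊗ₜ[κ] (1 : A) - phiS κ y g0 (r ⊗ₜ[κ] 1) =
      (∑ g, (X g : MvPolynomial Γ κ) ⊗ₜ[κ] y g) * w := by
    intro r
    induction r using MvPolynomial.induction_on with
    | C a =>
      refine ⟨0, ?_⟩
      have h1 : ((C a : MvPolynomial Γ κ) ⊗ₜ[κ] (1 : A)) = algebraMap κ (MvPolynomial Γ κ ⊗[κ] A) a := rfl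
      rw [h1, AlgHom.commutes, sub_self, mul_zero]
    | add p q hp hq =>
      rw [TensorProduct.add_tmul]
      exact hadd _ _ hp hq
    | mul_X p g hp =>
      have h1 : (p * X g) ⊗ₜ[κ] (1 : A) = (p ⊗ₜ[κ] 1) * (X g ⊗ₜ[κ] 1) := by
        rw [Algebra.TensorProduct.tmul_mul_tmul, mul_one]
      rw [h1]
      refine TDomA_mul hp ?_
      by_cases hg : g = g0
      · refine ⟨1, ?_⟩
        rw [TDomA_X, if_pos hg, sub_neg_eq_add, mul_one, ← Finset.add_sum_erase _ _ (Finset.mem_univ g0), hy, hg]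
      · refine ⟨0, ?_⟩
        rw [TDomA_X, if_neg hg, sub_self, mul_zero]
  induction x using TensorProduct.induction_on with
  | zero => exact ⟨0, by rw [map_zero, sub_self, mul_zero]⟩
  | add x z hx hz => exact hadd x z hx hz
  | tmul r b =>
    have h1 : r ⊗ₜ[κ] b = (r ⊗ₜ[κ] (1 : A)) * ((1 : MvPolynomial Γ κ) ⊗ₜ[κ] b) := by
      rw [Algebra.TensorProduct.tmul_mul_tmul, mul_one, one_mul]
    rw [h1]
    exact TDomA_mul (hr r) ⟨0, by rw [TDomA_one, sub_self, mul_zero]⟩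

theorem quot_ker (hy : y g0 = 1) (hδ : ∃ g, δ (y g) ≠ 0) : ∃ (E : Type u) (_ : Field E) (Φ : K ⊗[κ] A →+* E),
    (∀ x, Φ x = 0 ↔ ∃ z, x = (∑ g, algebraMap (MvPolynomial Γ κ) K (X g) ⊗ₜ[κ] y g) * z) ∧
      ∀ b : A, Φ (1 ⊗ₜ[κ] b) = 0 → b = 0 := by
  have hdom : IsDomain (MvPolynomial Γ κ ⊗[κ] A) := TDomA_dom
  let T := MvPolynomial Γ κ ⊗[κ] A
  let E := FractionRing T
  let φ : T →ₐ[κ] T := phiS κ y g0
  let ι : T →ₐ[κ] E := IsScalarTower.toAlgHom κ T E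
  have hι : Function.Injective ι := IsFractionRing.injective T E
  let g1 : MvPolynomial Γ κ →ₐ[κ] E := ι.comp (φ.comp Algebra.TensorProduct.includeLeft)
  have hg1 : ∀ r, g1 r = ι (φ (r ⊗ₜ[κ] 1)) := fun r => rfl
  have hinj : Function.Injective (g1 : MvPolynomial Γ κ →+* E) := by
    rw [injective_iff_map_eq_zero]
    intro r hr
    have h1 : ι (φ (r ⊗ₜ[κ] 1)) = ι 0 := by
      rw [map_zero]
      exact hr
    exact sub_inj hy hδ (hι h1)
  let fK : K →ₐ[κ] E :=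
    { toRingHom := IsFractionRing.lift hinj
      commutes' := fun c => by
        change IsFractionRing.lift hinj (algebraMap κ K c) = _
        rw [IsScalarTower.algebraMap_apply κ (MvPolynomial Γ κ) K, IsFractionRing.lift_algebraMap]
        exact g1.commutes c }
  have hfK : ∀ r, fK (algebraMap (MvPolynomial Γ κ) K r) = ι (φ (r ⊗ₜ[κ] 1)) := fun r =>
    IsFractionRing.lift_algebraMap hinj r
  let fA : A →ₐ[κ] E := ι.comp Algebra.TensorProduct.includeRight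
  let Φ : K ⊗[κ] A →ₐ[κ] E := Algebra.TensorProduct.lift fK fA fun _ _ => Commute.all _ _
  have hΦ : ∀ k b, Φ (k ⊗ₜ[κ] b) = fK k * ι (1 ⊗ₜ[κ] b) := fun k b => Algebra.TensorProduct.lift_tmul _ _ _ _ _
  let j : T →ₐ[κ] K ⊗[κ] A :=
    Algebra.TensorProduct.map (IsScalarTower.toAlgHom κ (MvPolynomial Γ κ) K) (AlgHom.id κ A)
  have hj : ∀ p b, j (p ⊗ₜ[κ] b) = algebraMap (MvPolynomial Γ κ) K p ⊗ₜ[κ] b := fun p b => rfl
  have hjΦ : ∀ t, Φ (j t) = ι (φ t) := by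
    intro t
    induction t using TensorProduct.induction_on with
    | zero => rw [map_zero, map_zero, map_zero, map_zero]
    | add x z hx hz => rw [map_add, map_add, hx, hz, map_add, map_add]
    | tmul r b =>
      rw [hj, hΦ, hfK, ← map_mul]
      congr 1
      have h1 : (1 : MvPolynomial Γ κ) ⊗ₜ[κ] b = φ (1 ⊗ₜ[κ] b) := (TDomA_one b).symm
      rw [h1, ← map_mul, Algebra.TensorProduct.tmul_mul_tmul, mul_one, one_mul]
  have hjf : j (∑ g, (X g : MvPolynomial Γ κ) ⊗ₜ[κ] y g) =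
      ∑ g, algebraMap (MvPolynomial Γ κ) K (X g) ⊗ₜ[κ] y g := by
    rw [map_sum]
    exact Finset.sum_congr rfl fun g _ => hj _ _
  have h3 : ∀ u : K ⊗[κ] A, ∃ r : MvPolynomial Γ κ, r ≠ 0 ∧ ∃ w, j (r ⊗ₜ[κ] 1) * u = j w := by
    intro u
    induction u using TensorProduct.induction_on with
    | zero => exact ⟨1, one_ne_zero, 0, by rw [mul_zero, map_zero]⟩
    | add u v hu hv =>
      obtain ⟨r, hr, w, hw⟩ := hu
      obtain ⟨r', hr', w', hw'⟩ := hv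
      refine ⟨r * r', mul_ne_zero hr hr', (r' ⊗ₜ[κ] 1) * w + (r ⊗ₜ[κ] 1) * w', ?_⟩
      have e : (r * r') ⊗ₜ[κ] (1 : A) = (r ⊗ₜ[κ] 1) * (r' ⊗ₜ[κ] 1) := by
        rw [Algebra.TensorProduct.tmul_mul_tmul, mul_one]
      rw [e, map_add, map_mul, map_mul, map_mul, ← hw, ← hw']
      ring
    | tmul l b =>
      obtain ⟨p, s, rfl⟩ := IsLocalization.exists_mk'_eq (nonZeroDivisors (MvPolynomial Γ κ)) l
      refine ⟨s, nonZeroDivisors.coe_ne_zero s, p ⊗ₜ[κ] b, ?_⟩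
      rw [hj, hj, Algebra.TensorProduct.tmul_mul_tmul, IsLocalization.mk'_spec', one_mul]
  refine ⟨E, inferInstance, (Φ : K ⊗[κ] A →+* E), fun x => ⟨fun hx => ?_, ?_⟩, fun b hb => ?_⟩
  · obtain ⟨r, hr, w, hw⟩ := h3 x
    have h4 : ι (φ w) = ι 0 := by
      rw [← hjΦ, ← hw, map_mul, map_zero]
      have h5 : Φ x = 0 := hx
      rw [h5, mul_zero]
    have h5 : φ w = 0 := hι h4
    obtain ⟨z, hz⟩ := TDomA_sub (κ := κ) (y := y) hy w
    have h6 : w - φ w = (∑ g, (X g : MvPolynomial Γ κ) ⊗ₜ[κ] y g) * z := hz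
    rw [h5, sub_zero] at h6
    rw [h6, map_mul, hjf] at hw
    have hr' : algebraMap (MvPolynomial Γ κ) K r ≠ 0 := by
      intro h7
      exact hr ((map_eq_zero_iff _ (IsFractionRing.injective (MvPolynomial Γ κ) K)).1 h7)
    refine ⟨((algebraMap (MvPolynomial Γ κ) K r)⁻¹ ⊗ₜ[κ] 1) * j z, ?_⟩
    have h8 : ((algebraMap (MvPolynomial Γ κ) K r)⁻¹ ⊗ₜ[κ] (1 : A)) * j (r ⊗ₜ[κ] 1) = 1 := by
      rw [hj, Algebra.TensorProduct.tmul_mul_tmul, inv_mul_cancel₀ hr', mul_one]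
      rfl
    calc x = ((algebraMap (MvPolynomial Γ κ) K r)⁻¹ ⊗ₜ[κ] (1 : A)) * j (r ⊗ₜ[κ] 1) * x := by rw [h8, one_mul]
      _ = ((algebraMap (MvPolynomial Γ κ) K r)⁻¹ ⊗ₜ[κ] (1 : A)) * (j (r ⊗ₜ[κ] 1) * x) := mul_assoc _ _ _
      _ = _ := by
        rw [hw]
        ring
  · rintro ⟨z, rfl⟩
    change Φ _ = 0
    rw [map_mul, ← hjf, hjΦ]
    have h9 : φ (∑ g, (X g : MvPolynomial Γ κ) ⊗ₜ[κ] y g) = 0 := TDomA_phi hy
    rw [h9, map_zero, zero_mul]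
  · have h1 : Φ ((1 : K) ⊗ₜ[κ] b) = 0 := hb
    rw [hΦ, map_one, one_mul] at h1
    have h2 : (1 : MvPolynomial Γ κ) ⊗ₜ[κ] b = 0 := hι (by rw [h1, map_zero])
    have h3 : Function.Injective (Algebra.TensorProduct.includeRight : A →ₐ[κ] MvPolynomial Γ κ ⊗[κ] A) :=
      Algebra.TensorProduct.includeRight_injective (algebraMap κ (MvPolynomial Γ κ)).injective
    exact h3 (by rw [map_zero]; exact h2)

end MPadcHS
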