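import Pool.Agent.Lib.MP_adc574_ag_HS.NKer
import Pool.Agent.Lib.MP_adc574_ag_HS.TDomA
import Pool.Agent.Lib.MP_adc574_ag_DC.GFnu
import Pool.Agent.Lib.MP_adc574_ag_DC.C5A
import Pool.Agent.Lib.MP_adc574_ag_DC.GDom

/-!
# JOB TDomB (HS): the charts of the generic section over `K = Frac κ[a]` are domains

`I = bI (algebraMap κ K) J`, `F = frm (ak κ n e K)` (`ak g = algebraMap (Ra κ n e) K (X g)`), `X l ∉ J`, `m + 1 ≥ 1` the dimension of `Proj J`.
* `fC_bce`: as in the proof of `F_not_unit` (DC/GFnu.lean): `exists_y hJ he hl` gives `y : Mon n e → chart J {l}` with `y g * lx l ^ e = bl J e l g` and `y (mon0 e l) = 1` and derivations `δ_g` with `∑ δ_g (y g) = m + 1`, so `δ_g (y g) ≠ 0` for some `g`; and `fC I F {l} = bce (∑ g, ak g ⊗ y g)`: the computation `hfF` there (`f * lx ^ e = mkL (frm a)`), `dh_mul`, `fC_of`, `lx` is a unit.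
* `sec_chart`: `quot_ker` (TDomA) for `A = chart J {l}` (domain: `chart_domain`), `g0 = mon0 e l`: `E`, `Φ`. `Ψ₀ := Φ ∘ (bce ..).symm : chart I {l} → E` has the kernel `(fC I F {l})`. `hx hs.le {l}` is surjective (`hx_surj`) with the same kernel (`hx_ker`), so there is an injective `Ψ : chart I' {l} → E` with `Ψ (hx x) = Ψ₀ x` (`RingHom.liftOfSurjective`-type: `Ideal.Quotient`, or `RingHom.liftOfRightInverse`).
  `Ψ (cq I' {l} k) ≠ 0` for `X k ∉ J`: `cq I' {l} k = hx (cq I {l} k)` (`hx_cq`), `bce (1 ⊗ cq J {l} k) = cq I {l} k` (`bce_tmul`, `cmA_cq`), `Φ (1 ⊗ cq J {l} k) = 0` would give `cq J {l} k = 0`, but `lx J {l} k ≠ 0` (`lx_ne`) and `cq * lx l = lx k` (`cq_mul_lx`).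
* `sec_domain`: `Function.Injective.isDomain`. `sec_cq_ne`: `map_zero`. `sec_X`: if `X l ∈ I'` then `LR I' {l}` is trivial (`lx I' {l} l` is a unit and `0`), so `chart I' {l}` is trivial (`0 = 1` in the subring), contradiction.
-/

set_option autoImplicit false
set_option linter.unusedSectionVars false

namespace MPadcHS

open MvPolynomial TensorProduct MPadcGP MPadcDC

universe u

variable {κ : Type u} [Field κ] [CharZero κ] {n : ℕ} {J : Ideal (MvPolynomial (Fin n) κ)} {K : Type u} [Field K]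
  [Algebra κ K] {e m : ℕ} [Algebra (Ra κ n e) K] [IsScalarTower κ (Ra κ n e) K] [IsFractionRing (Ra κ n e) K]
  {I' : Ideal (MvPolynomial (Fin n) K)} {l : Fin n}

private theorem TDomB_mkL {A : Type u} {B : Type u} [CommRing A] [CommRing B] (φ : A →+* B)
    {I : Ideal (MvPolynomial (Fin n) A)} {I' : Ideal (MvPolynomial (Fin n) B)}
    (h : ∀ f ∈ I, MvPolynomial.map φ f ∈ I') {C C' : Finset (Fin n)} (hC : C ⊆ C') (f : MvPolynomial (Fin n) A) :
    lmap φ h hC (algebraMap (CR I) (LR I C) (Ideal.Quotient.mk I f)) =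
      algebraMap (CR I') (LR I' C') (Ideal.Quotient.mk I' (MvPolynomial.map φ f)) := by
  have h1 : ((lmap φ h hC).comp (algebraMap (CR I) (LR I C))).comp (Ideal.Quotient.mk I) =
      ((algebraMap (CR I') (LR I' C')).comp (Ideal.Quotient.mk I')).comp (MvPolynomial.map φ) := by
    refine MvPolynomial.ringHom_ext (fun a => ?_) fun l => ?_
    · have h2 : algebraMap (CR I) (LR I C) (Ideal.Quotient.mk I (MvPolynomial.C a)) = algebraMap A (LR I C) a := by
        rw [IsScalarTower.algebraMap_apply A (CR I) (LR I C)]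
        rfl
      have h3 : algebraMap (CR I') (LR I' C') (Ideal.Quotient.mk I' (MvPolynomial.C (φ a))) =
          algebraMap B (LR I' C') (φ a) := by
        rw [IsScalarTower.algebraMap_apply B (CR I') (LR I' C')]
        rfl
      rw [RingHom.comp_apply, RingHom.comp_apply, RingHom.comp_apply, RingHom.comp_apply, h2, lmap_base, map_C, h3]
    · rw [RingHom.comp_apply, RingHom.comp_apply, RingHom.comp_apply, RingHom.comp_apply, map_X]
      exact lmap_lx φ h hC l
  exact congrArg (fun q : MvPolynomial (Fin n) A →+* LR I' C' => q f) h1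

omit [CharZero κ] [Algebra (Ra κ n e) K] [IsScalarTower κ (Ra κ n e) K] [IsFractionRing (Ra κ n e) K] in
/-- The image of the generic linear combination is the dehomogenized generic form. -/
private theorem TDomB_fC (hH : IsHomog J) (a : Mon n e → K) {y : Mon n e → chart J {l}}
    (hy : ∀ g, (y g : LR J {l}) * lx J {l} l ^ e = bl J e l g) :
    bce (B := K) hH (Finset.singleton_nonempty l) (∑ g, a g ⊗ₜ[κ] y g) =
      fC (bI (algebraMap κ K) J) (frm a) {l} := by
  set J' : Ideal (MvPolynomial (Fin n) K) := bI (algebraMap κ K) J with hJ'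
  let t : K ⊗[κ] chart J {l} := ∑ g, a g ⊗ₜ[κ] y g
  let f : chart J' {l} := bce hH (Finset.singleton_nonempty l) t
  have hfF : (f : LR J' {l}) * lx J' {l} l ^ e = mkL J' {l} (frm a) := by
    have h1 : f = ∑ g, algebraMap K (chart J' {l}) (a g) * cmA (B := K) J {l} (y g) := by
      have h2 : f = ∑ g, bce hH (Finset.singleton_nonempty l) (a g ⊗ₜ[κ] y g) := map_sum _ _ _
      rw [h2]
      exact Finset.sum_congr rfl fun g _ => bce_tmul hH (Finset.singleton_nonempty l) (a g) (y g)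
    have h3 : (f : LR J' {l}) = ∑ g, algebraMap K (LR J' {l}) (a g) *
        (cmA (B := K) J {l} (y g) : LR J' {l}) := by
      have h4 := congrArg (chart J' {l}).val h1
      rw [map_sum] at h4
      refine h4.trans (Finset.sum_congr rfl fun g _ => ?_)
      rw [map_mul]
      rfl
    have h5 : ∀ g : Mon n e, (cmA (B := K) J {l} (y g) : LR J' {l}) * lx J' {l} l ^ e =
        mkL J' {l} (monomial g.1 1) := by
      intro g
      have h6 : (cmA (B := K) J {l} (y g) : LR J' {l}) = lK J K l (y g : LR J {l}) := rfl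
      have h7 : lx J' {l} l = lK J K l (lx J {l} l) :=
        (lmap_lx (algebraMap κ K) (bI_mem (algebraMap κ K) J) (Finset.Subset.refl {l}) l).symm
      rw [h6, h7, ← map_pow, ← map_mul, hy g]
      have h8 := TDomB_mkL (algebraMap κ K) (bI_mem (algebraMap κ K) J) (Finset.Subset.refl {l})
        (monomial g.1 (1 : κ))
      rw [map_monomial, (algebraMap κ K).map_one] at h8
      exact h8
    rw [h3, Finset.sum_mul]
    have h9 : mkL J' {l} (frm a) = ∑ g, mkL J' {l} (monomial g.1 (a g)) := by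
      unfold MPadcDC.mkL frm
      rw [map_sum, map_sum]
    rw [h9]
    refine Finset.sum_congr rfl fun g _ => ?_
    rw [mul_assoc, h5 g]
    have h10 : (monomial g.1 (a g) : MvPolynomial (Fin n) K) = C (a g) * monomial g.1 1 := by
      rw [C_mul_monomial, mul_one]
    unfold MPadcDC.mkL
    rw [h10, map_mul, map_mul, IsScalarTower.algebraMap_apply K (CR J') (LR J' {l})]
    rfl
  have h1 : fC J' (frm a) {l} = dh J' {l} (Finset.mem_singleton_self l) (frm a) := by
    rw [fC_of (Finset.singleton_nonempty l)]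
    rfl
  have h2 := dh_mul J' {l} (Finset.mem_singleton_self l) (frm_hom a)
  have h3 : f = dh J' {l} (Finset.mem_singleton_self l) (frm a) := by
    apply Subtype.ext
    exact ((lx_isUnit J' {l} (Finset.mem_singleton_self l)).pow e).mul_right_cancel (hfF.trans h2.symm)
  rw [h1]
  exact h3

theorem sec_chart (hJ : Good J (m + 1)) (he : 1 ≤ e) (hs : IsSec (bI (algebraMap κ K) J) (frm (ak κ n e K)) I')
    (hl : (X l : MvPolynomial (Fin n) κ) ∉ J) : ∃ (E : Type u) (_ : Field E) (Ψ : chart I' {l} →+* E),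
      Function.Injective Ψ ∧ ∀ k, (X k : MvPolynomial (Fin n) κ) ∉ J →
        Ψ (cq I' {l} k (Finset.mem_singleton_self l)) ≠ 0 := by
  classical
  obtain ⟨y, δ, hy, hy0, -, htr⟩ := exists_y (e := e) hJ he hl
  have hdom : IsDomain (chart J {l}) := chart_domain hJ.prime hl
  have hne : ((m + 1 : ℕ) : chart J {l}) ≠ 0 := by
    have h1 : ((m + 1 : ℕ) : chart J {l}) = algebraMap κ (chart J {l}) ((m + 1 : ℕ) : κ) := by
      rw [map_natCast]
    rw [h1]
    intro h2
    have h3 : ((m + 1 : ℕ) : κ) = 0 :=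
      (algebraMap κ (chart J {l})).injective (h2.trans (map_zero _).symm)
    exact Nat.succ_ne_zero m (Nat.cast_eq_zero.1 h3)
  obtain ⟨g1, hg1⟩ : ∃ g, δ g (y g) ≠ 0 := by
    by_contra hcon
    push Not at hcon
    rw [Finset.sum_eq_zero fun g _ => hcon g] at htr
    exact hne htr.symm
  obtain ⟨E, iE, Φ, hΦ, hΦ1⟩ := quot_ker (κ := κ) (A := chart J {l}) (K := K) (δ := δ g1) (g0 := mon0 e l) hy0
    ⟨g1, hg1⟩
  have hI : IsHomog (bI (algebraMap κ K) J) := hJ.homog.map (algebraMap κ K)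
  let β : K ⊗[κ] chart J {l} ≃ₐ[K] chart (bI (algebraMap κ K) J) {l} :=
    bce hJ.homog (Finset.singleton_nonempty l)
  have hβ : β (∑ g, algebraMap (MvPolynomial (Mon n e) κ) K (X g) ⊗ₜ[κ] y g) =
      fC (bI (algebraMap κ K) J) (frm (ak κ n e K)) {l} := TDomB_fC hJ.homog (ak κ n e K) hy
  let Ψ0 : chart (bI (algebraMap κ K) J) {l} →+* E := Φ.comp (β.symm : chart (bI (algebraMap κ K) J) {l} →+* _)
  have hΨ0 : ∀ x, Ψ0 x = Φ (β.symm x) := fun x => rfl
  have hker : ∀ x, Ψ0 x = 0 ↔ hx hs.le {l} x = 0 := by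
    intro x
    rw [hΨ0, hΦ, hx_ker hI (frm_hom (ak κ n e K)) hs (Finset.singleton_nonempty l)]
    constructor
    · rintro ⟨z, hz⟩
      refine ⟨β z, ?_⟩
      rw [← hβ, ← map_mul, ← hz, AlgEquiv.apply_symm_apply]
    · rintro ⟨z, hz⟩
      refine ⟨β.symm z, ?_⟩
      rw [hz, map_mul, ← hβ, AlgEquiv.symm_apply_apply]
  have hsj : Function.Surjective (hx hs.le {l}) := hx_surj hs.le {l}
  have hle : RingHom.ker (hx hs.le {l}) ≤ RingHom.ker Ψ0 := fun x h =>
    (RingHom.mem_ker).2 ((hker x).2 ((RingHom.mem_ker).1 h))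
  let Ψ : chart I' {l} →+* E :=
    (hx hs.le {l}).liftOfSurjective hsj ⟨Ψ0, hle⟩
  have hΨ : ∀ x, Ψ (hx hs.le {l} x) = Ψ0 x := fun x =>
    RingHom.liftOfRightInverse_comp_apply _ _ _ ⟨Ψ0, hle⟩ x
  refine ⟨E, iE, Ψ, ?_, ?_⟩
  · rw [injective_iff_map_eq_zero]
    intro w hw
    obtain ⟨x, rfl⟩ := hsj w
    rw [hΨ] at hw
    exact (hker x).1 hw
  · intro k hk h0
    have h1 : hx hs.le {l} (cq (bI (algebraMap κ K) J) {l} k (Finset.mem_singleton_self l)) =
        cq I' {l} k (Finset.mem_singleton_self l) := hx_cq {l} k (Finset.mem_singleton_self l)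
    rw [← h1, hΨ, hΨ0] at h0
    have h2 : β ((1 : K) ⊗ₜ[κ] cq J {l} k (Finset.mem_singleton_self l)) =
        cq (bI (algebraMap κ K) J) {l} k (Finset.mem_singleton_self l) := by
      have h3 := bce_tmul (B := K) hJ.homog (Finset.singleton_nonempty l) (1 : K)
        (cq J {l} k (Finset.mem_singleton_self l))
      rw [map_one, one_mul, cmA_cq] at h3
      exact h3
    rw [← h2, AlgEquiv.symm_apply_apply] at h0
    have h3 := hΦ1 _ h0
    have h4 := cq_mul_lx J {l} k (Finset.mem_singleton_self l)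
    rw [h3] at h4
    have h5 : lx J {l} k = 0 := by
      rw [← h4]
      exact zero_mul _
    exact lx_ne hJ.prime hl hk h5

theorem sec_domain (hJ : Good J (m + 1)) (he : 1 ≤ e) (hs : IsSec (bI (algebraMap κ K) J) (frm (ak κ n e K)) I')
    (hl : (X l : MvPolynomial (Fin n) κ) ∉ J) : IsDomain (chart I' {l}) := by
  obtain ⟨E, iE, Ψ, h1, -⟩ := sec_chart hJ he hs hl
  exact Function.Injective.isDomain Ψ h1

theorem sec_cq_ne (hJ : Good J (m + 1)) (he : 1 ≤ e) (hs : IsSec (bI (algebraMap κ K) J) (frm (ak κ n e K)) I')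
    (hl : (X l : MvPolynomial (Fin n) κ) ∉ J) {k : Fin n} (hk : (X k : MvPolynomial (Fin n) κ) ∉ J) :
    cq I' {l} k (Finset.mem_singleton_self l) ≠ 0 := by
  obtain ⟨E, iE, Ψ, -, h2⟩ := sec_chart hJ he hs hl
  intro h
  exact h2 k hk (by rw [h, map_zero])

theorem sec_X (hJ : Good J (m + 1)) (he : 1 ≤ e) (hs : IsSec (bI (algebraMap κ K) J) (frm (ak κ n e K)) I')
    (hl : (X l : MvPolynomial (Fin n) κ) ∉ J) : (X l : MvPolynomial (Fin n) K) ∉ I' := by
  intro hm
  have hdom := sec_domain hJ he hs hl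
  have h1 : lx I' {l} l = 0 := by
    unfold lx
    rw [Ideal.Quotient.eq_zero_iff_mem.2 hm, map_zero]
  have h2 : IsUnit (lx I' {l} l) := lx_isUnit I' {l} (Finset.mem_singleton_self l)
  rw [h1, isUnit_zero_iff] at h2
  have h3 : (1 : chart I' {l}) = 0 := Subtype.ext h2.symm
  exact one_ne_zero h3

end MPadcHS
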