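import Pool.Agent.Lib.MP_adc574_ag_HS.TSec
import Pool.Agent.Lib.MP_adc574_ag_HS.TDomB
import Pool.Agent.Lib.MP_adc574_ag_DC.GExt

/-!
# JOB TPrm (HS): the ideal of the generic section is prime over `K = Frac κ[a]`

`P := sec (bI (algebraMap κ K) J) (frm (ak κ n e K))`, `isSec_sec`, homogeneous (`sec_homog`, `frm_hom`).
1. For `X l ∉ J` the ring `LR P {l}` is a domain: it is the Laurent polynomial ring in `x_l` over `chart P {l}` (`exists_laurent`, DC/GExt.lean), a domain by `sec_domain`; or by hand: let `u v = 0`, `u`, `v ≠ 0`; multiply by powers of the unit `lx P {l} l`; an element of `LR P {l}` is `∑ c_i * lx l ^ i` with unique `c_i ∈ chart`.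
2. `lx P {k} l ≠ 0` for `X k, X l ∉ J`: `cq P {k} l * lx k = lx l` (`cq_mul_lx`), `sec_cq_ne`, `lx k` a unit.
3. If `X l ∉ J` and `X l ^ N * f ∈ P` then `f ∈ P`: `sec_sat`: let `k : Fin n`. If `X k ∈ J`: `X k ^ 1 * f ∈ bI .. ≤ P`. Otherwise `mkL P {k} f * lx l ^ N = 0` in the domain `LR P {k}`, `lx l ≠ 0`, so `mkL P {k} f = 0`, so `X k ^ M * f ∈ P` for some `M` (`IsLocalization.mk'_eq_zero_iff`/`IsLocalization.map_eq_zero_iff`, `Ideal.Quotient.eq_zero_iff_mem`).
4. Choose `l` with `X l ∉ J` (`hJ.ne`). By 3. `P` is the kernel of `mkL P {l} : K[x] → LR P {l}`, so `P` is prime (`RingHom.ker_isPrime`).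
-/

set_option autoImplicit false
set_option linter.unusedSectionVars false

namespace MPadcHS

open MvPolynomial MPadcGP MPadcDC

universe u

section gen

variable {K : Type u} [Field K] {n : ℕ} {P : Ideal (MvPolynomial (Fin n) K)}

/-- the map to the localization -/
private noncomputable def TPrm_mk (P : Ideal (MvPolynomial (Fin n) K)) (l : Fin n) :
    MvPolynomial (Fin n) K →+* LR P {l} := (algebraMap (CR P) (LR P {l})).comp (Ideal.Quotient.mk P)

private theorem TPrm_X (l k : Fin n) : TPrm_mk P l (X k) = lx P {l} k := rfl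

private theorem TPrm_zero {l : Fin n} {f : MvPolynomial (Fin n) K} (h : TPrm_mk P l f = 0) :
    ∃ N : ℕ, X l ^ N * f ∈ P := by
  have h1 : algebraMap (CR P) (LR P {l}) (Ideal.Quotient.mk P f) = 0 := h
  obtain ⟨⟨c, hc⟩, h2⟩ := (IsLocalization.map_eq_zero_iff (Submonoid.powers (Ideal.Quotient.mk P
    (∏ j ∈ ({l} : Finset (Fin n)), X j))) (LR P {l}) (Ideal.Quotient.mk P f)).1 h1
  obtain ⟨N, rfl⟩ := hc
  refine ⟨N, Ideal.Quotient.eq_zero_iff_mem.1 ?_⟩
  have h3 : (∏ j ∈ ({l} : Finset (Fin n)), X j : MvPolynomial (Fin n) K) = X l := Finset.prod_singleton _ _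
  have h4 : Ideal.Quotient.mk P (∏ j ∈ ({l} : Finset (Fin n)), X j) ^ N * Ideal.Quotient.mk P f = 0 := h2
  rw [h3] at h4
  rw [map_mul, map_pow]
  exact h4

private theorem TPrm_dom (hP : IsHomog P) {l : Fin n} (hd : IsDomain (chart P {l})) : IsDomain (LR P {l}) := by
  obtain ⟨Φ, -⟩ := exists_laurent (l := l) hP
  have h1 : IsDomain (LaurentPolynomial (chart P {l})) := inferInstance
  exact Φ.symm.toMulEquiv.isDomain _

private theorem TPrm_main (hP : IsHomog P) (G : Fin n → Prop) (hdom : ∀ l, G l → IsDomain (chart P {l}))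
    (hcq : ∀ l k, G l → G k → cq P {l} k (Finset.mem_singleton_self l) ≠ 0)
    (hsat : ∀ g, (∀ l, ∃ N : ℕ, X l ^ N * g ∈ P) → g ∈ P) (hnG : ∀ k, ¬ G k → (X k : MvPolynomial (Fin n) K) ∈ P)
    (hne : ∃ l, G l) : P.IsPrime := by
  have hlx : ∀ l k, G l → G k → lx P {l} k ≠ 0 := by
    intro l k hl hk h
    have hd := TPrm_dom hP (hdom l hl)
    have h1 := cq_mul_lx P {l} k (Finset.mem_singleton_self l)
    rw [h] at h1
    have h2 : lx P {l} l ≠ 0 := (lx_isUnit P {l} (Finset.mem_singleton_self l)).ne_zero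
    have h3 := (mul_eq_zero.1 h1).resolve_right h2
    exact hcq l k hl hk (Subtype.ext h3)
  have h3 : ∀ l, G l → ∀ (N : ℕ) (f : MvPolynomial (Fin n) K), X l ^ N * f ∈ P → f ∈ P := by
    intro l hl N f hf
    refine hsat f fun k => ?_
    by_cases hk : G k
    · have hd := TPrm_dom hP (hdom k hk)
      refine TPrm_zero ?_
      have h1 : TPrm_mk P k (X l ^ N * f) = 0 := by
        change algebraMap (CR P) (LR P {k}) (Ideal.Quotient.mk P (X l ^ N * f)) = 0
        rw [Ideal.Quotient.eq_zero_iff_mem.2 hf, map_zero]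
      rw [map_mul, map_pow, TPrm_X] at h1
      exact (mul_eq_zero.1 h1).resolve_left (pow_ne_zero N (hlx k l hk hl))
    · refine ⟨1, ?_⟩
      rw [pow_one]
      exact Ideal.mul_mem_right _ _ (hnG k hk)
  obtain ⟨l, hl⟩ := hne
  have hd := TPrm_dom hP (hdom l hl)
  have h4 : P = RingHom.ker (TPrm_mk P l) := by
    ext f
    rw [RingHom.mem_ker]
    constructor
    · intro hf
      change algebraMap (CR P) (LR P {l}) (Ideal.Quotient.mk P f) = 0
      rw [Ideal.Quotient.eq_zero_iff_mem.2 hf, map_zero]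
    · intro hf
      obtain ⟨N, hN⟩ := TPrm_zero hf
      exact h3 l hl N f hN
  rw [h4]
  exact RingHom.ker_isPrime _

end gen

variable {κ : Type u} [Field κ] [CharZero κ] {n : ℕ} {J : Ideal (MvPolynomial (Fin n) κ)} {K : Type u} [Field K]
  [Algebra κ K] {e m : ℕ} [Algebra (Ra κ n e) K] [IsScalarTower κ (Ra κ n e) K] [IsFractionRing (Ra κ n e) K]

theorem sec_prime (hJ : Good J (m + 1)) (he : 1 ≤ e) :
    (sec (bI (algebraMap κ K) J) (frm (ak κ n e K))).IsPrime := by
  have hs := isSec_sec (bI (algebraMap κ K) J) (frm (ak κ n e K))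
  refine TPrm_main (sec_homog (hJ.homog.map _) (frm_hom _)) (fun l => (X l : MvPolynomial (Fin n) κ) ∉ J)
    (fun l hl => sec_domain hJ he hs hl) (fun l k hl hk => sec_cq_ne hJ he hs hl hk) (fun g h => sec_sat h)
    (fun k hk => hs.le ?_) hJ.ne
  have h1 : (X k : MvPolynomial (Fin n) κ) ∈ J := not_not.1 hk
  have h2 : (MvPolynomial.map (algebraMap κ K)) (X k : MvPolynomial (Fin n) κ) = X k := map_X _ _
  rw [← h2]
  exact Ideal.mem_map_of_mem _ h1

end MPadcHS
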