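import Pool.Agent.Lib.MP_adc574_ag_HS.NDiv
import Pool.Agent.Lib.MP_adc574_ag_DC.PHom

/-!
# JOB TSec (HS): the ideal of the section `F = 0` (saturated)

* `sec`: zero, sums (`N = max`, multiply by powers of `X l`), multiples: clear. `isSec_sec`: `le`, `mem`: `N = 0` with `Ideal.mem_sup_left/right`; `sat`: definition.
* `sec_homog`: `f ∈ sec`, `X l ^ N * f ∈ (I, F)` which is homogeneous (`IsHomog` of a sup: components of `x + y`; of `Ideal.span {F}`, `F` homogeneous: see the private lemmas `C3A_sup`, `C3A_span`, `C3A_mul` in DC/C3A.lean or PHom.lean); `homogeneousComponent (N + d) (X l ^ N * f) = X l ^ N * homogeneousComponent d f` (`homogeneousComponent` of a product with a homogeneous polynomial; compare coefficients or `sum_homogeneousComponent`).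
* `sec_sat`: if for every `l` some power of `X l` multiplies `g` into `sec I F` then `g ∈ sec I F`: take the sup over `l` of the exponents and then the `N` of the products (finitely many `l`).
-/

set_option autoImplicit false
set_option linter.unusedSectionVars false

namespace MPadcHS

open MvPolynomial MPadcGP MPadcDC

universe u v w

section

variable {A : Type u} [CommRing A] {n : ℕ}

/-- The saturation of `(I, F)`. -/
def sec (I : Ideal (MvPolynomial (Fin n) A)) (F : MvPolynomial (Fin n) A) : Ideal (MvPolynomial (Fin n) A) where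
  carrier := {f | ∃ N : ℕ, ∀ l, X l ^ N * f ∈ I ⊔ Ideal.span {F}}
  zero_mem' := ⟨0, fun l => by
    rw [mul_zero]
    exact Ideal.zero_mem _⟩
  add_mem' := by
    rintro f g ⟨N, hN⟩ ⟨M, hM⟩
    refine ⟨N + M, fun l => ?_⟩
    have h1 : X l ^ (N + M) * (f + g) = X l ^ M * (X l ^ N * f) + X l ^ N * (X l ^ M * g) := by ring
    rw [h1]
    exact Ideal.add_mem _ (Ideal.mul_mem_left _ _ (hN l)) (Ideal.mul_mem_left _ _ (hM l))
  smul_mem' := by
    rintro c f ⟨N, hN⟩
    refine ⟨N, fun l => ?_⟩
    have h1 : X l ^ N * (c • f) = c * (X l ^ N * f) := by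
      rw [smul_eq_mul]
      ring
    rw [h1]
    exact Ideal.mul_mem_left _ _ (hN l)

variable {I : Ideal (MvPolynomial (Fin n) A)} {F : MvPolynomial (Fin n) A}

theorem mem_sec {f : MvPolynomial (Fin n) A} : f ∈ sec I F ↔ ∃ N : ℕ, ∀ l, X l ^ N * f ∈ I ⊔ Ideal.span {F} := Iff.rfl

private theorem TSec_hc {f : MvPolynomial (Fin n) A} {m : ℕ} (hf : f.IsHomogeneous m) (d : ℕ) :
    homogeneousComponent d f = if d = m then f else 0 := by
  have h1 := homogeneousComponent_of_mem (m := d) hf
  rw [h1]

private theorem TSec_mul {I : Ideal (MvPolynomial (Fin n) A)} {a x : MvPolynomial (Fin n) A}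
    (hx : ∀ d, homogeneousComponent d x ∈ I) (d : ℕ) : homogeneousComponent d (a * x) ∈ I := by
  have h1 : a * x = ∑ i ∈ Finset.range (a.totalDegree + 1), ∑ j ∈ Finset.range (x.totalDegree + 1),
      homogeneousComponent i a * homogeneousComponent j x := by
    rw [← Finset.sum_mul_sum, sum_homogeneousComponent, sum_homogeneousComponent]
  rw [h1, map_sum]
  refine Ideal.sum_mem _ fun i _ => ?_
  rw [map_sum]
  refine Ideal.sum_mem _ fun j _ => ?_
  rw [TSec_hc ((homogeneousComponent_isHomogeneous i a).mul (homogeneousComponent_isHomogeneous j x))]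
  split_ifs
  · exact Ideal.mul_mem_left _ _ (hx j)
  · exact Ideal.zero_mem _

private theorem TSec_shift {p : MvPolynomial (Fin n) A} {N : ℕ} (hp : p.IsHomogeneous N)
    (f : MvPolynomial (Fin n) A) (d : ℕ) :
    homogeneousComponent (N + d) (p * f) = p * homogeneousComponent d f := by
  have h1 : p * f = ∑ i ∈ Finset.range (f.totalDegree + 1), p * homogeneousComponent i f := by
    rw [← Finset.mul_sum, sum_homogeneousComponent]
  have h2 : homogeneousComponent d f = ∑ i ∈ Finset.range (f.totalDegree + 1),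
      homogeneousComponent d (homogeneousComponent i f) := by
    rw [← map_sum, sum_homogeneousComponent]
  rw [h1, h2, map_sum, Finset.mul_sum]
  refine Finset.sum_congr rfl fun i _ => ?_
  rw [TSec_hc (hp.mul (homogeneousComponent_isHomogeneous i f)), TSec_hc (homogeneousComponent_isHomogeneous i f)]
  by_cases h : d = i
  · rw [if_pos h, if_pos (by rw [h])]
  · rw [if_neg h, if_neg (fun h' => h (Nat.add_left_cancel h')), mul_zero]

theorem isSec_sec (I : Ideal (MvPolynomial (Fin n) A)) (F : MvPolynomial (Fin n) A) : IsSec I F (sec I F) := by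
  refine ⟨fun f hf => ⟨0, fun l => ?_⟩, ⟨0, fun l => ?_⟩, fun g hg => hg⟩
  · rw [pow_zero, one_mul]
    exact Ideal.mem_sup_left hf
  · rw [pow_zero, one_mul]
    exact Ideal.mem_sup_right (Ideal.mem_span_singleton_self F)

theorem sup_homog (hI : IsHomog I) {e : ℕ} (hF : F.IsHomogeneous e) : IsHomog (I ⊔ Ideal.span {F}) := by
  intro f hf d
  obtain ⟨x, hx, y, hy, rfl⟩ := Submodule.mem_sup.1 hf
  rw [map_add]
  refine Ideal.add_mem _ (Ideal.mem_sup_left (hI x hx d)) (Ideal.mem_sup_right ?_)
  obtain ⟨a, rfl⟩ := Ideal.mem_span_singleton'.1 hy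
  refine TSec_mul (fun d => ?_) d
  rw [TSec_hc hF]
  split_ifs
  · exact Ideal.mem_span_singleton_self F
  · exact Ideal.zero_mem _

theorem sec_homog (hI : IsHomog I) {e : ℕ} (hF : F.IsHomogeneous e) : IsHomog (sec I F) := by
  rintro f ⟨N, hN⟩ d
  refine ⟨N, fun l => ?_⟩
  have h1 : (X l ^ N : MvPolynomial (Fin n) A).IsHomogeneous N := by
    have h2 := (isHomogeneous_X A l).pow N
    rwa [one_mul] at h2
  rw [← TSec_shift h1]
  exact sup_homog hI hF _ (hN l) (N + d)

theorem sec_sat {g : MvPolynomial (Fin n) A} (h : ∀ l, ∃ N : ℕ, X l ^ N * g ∈ sec I F) : g ∈ sec I F := by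
  have h1 : ∀ l, ∃ N : ℕ, X l ^ N * g ∈ I ⊔ Ideal.span {F} := by
    intro l
    obtain ⟨N, M, hM⟩ := h l
    refine ⟨M + N, ?_⟩
    rw [pow_add, mul_assoc]
    exact hM l
  choose N hN using h1
  refine ⟨Finset.univ.sup N, fun l => ?_⟩
  have h2 : N l ≤ Finset.univ.sup N := Finset.le_sup (Finset.mem_univ l)
  rw [← Nat.sub_add_cancel h2, pow_add, mul_assoc]
  exact Ideal.mul_mem_left _ _ (hN l)

end

end MPadcHS
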