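import Pool.Agent.Lib.MP_adc574_ag_DC.GBaseA

/-!
# JOB TSmq (HS): the quotient of a smooth algebra by one equation `f` with `v f + g f = 1`

* `smooth_quot`: `B` is smooth over `K`, `π : B → B'` surjective with the kernel `(f)`. `B'` is of finite presentation (`Algebra.FinitePresentation.of_surjective`/`.quotient`, the kernel is finitely generated). Formally smooth: Mathlib `Algebra.FormallySmooth.iff_split_injection` (for `P = B`, `S = B'`, surjective; `KaehlerDifferential.kerCotangentToTensor`): the retraction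
  `B' ⊗[B] Ω[B⁄K] → (ker π).Cotangent`, `b' ⊗ ω ↦ b' • v(ω) • [f]` (`v` as a linear map on `Ω`: `Derivation.liftKaehlerDifferential`). It is a retraction: `[b f] ↦ 1 ⊗ D(b f) = b ⊗ D f + f ⊗ D b = b ⊗ D f` (as `f = 0` in `B'`), `↦ b v(f) [f] = b (1 - g f) [f] = [b f]` as `f [f] = 0`.
* `rank_quot`: `B`, `B'` domains, `f ≠ 0`. `0 → (f)/(f²) → B' ⊗ Ω[B⁄K] → Ω[B'⁄K] → 0` is split exact (`KaehlerDifferential.exact_kerCotangentToTensor_mapBaseChange`, the retraction above), `(f)/(f²) = (ker π).Cotangent` is free of rank one over `B'` (generated by `[f]`; `b [f] = 0` iff `b f ∈ (f²)` iff `b ∈ (f)`). So `finrank B' (B' ⊗ Ω[B⁄K]) = 1 + finrank B' Ω[B'⁄K]`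
  (`Submodule.finrank_quotient_add_finrank`-type for domains: tensor with the fraction field of `B'`, or `LinearEquiv.finrank_eq` with `Module.finrank_prod`) and `finrank B' (B' ⊗[B] Ω[B⁄K]) = finrank B Ω[B⁄K]` because `Ω[B⁄K]` is finite projective over the domain `B` (constant rank: `Module.rankAtStalk` is locally constant, `PrimeSpectrum B` is irreducible so connected; `Module.rankAtStalk_baseChange`, `Module.rankAtStalk_eq_finrank..`;
  look at DC/GTr.lean, GBaseA.lean, GBaseB.lean, GRk.lean for how ranks of projective modules were treated). Alternative: a finite free cover of `Spec B`.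
-/

set_option autoImplicit false
set_option linter.unusedSectionVars false

namespace MPadcHS

universe u

section

variable {K : Type u} [Field K] {B B' : Type u} [CommRing B] [CommRing B'] [Algebra K B] [Algebra K B']
  (π : B →ₐ[K] B') (hπ : Function.Surjective π) (f : B) (hk : ∀ x, π x = 0 ↔ ∃ y, x = f * y)
  (v : Derivation K B B) (g : B) (hv : v f + g * f = 1)

include hπ hk hv

theorem smooth_quot [Algebra.Smooth K B] : Algebra.Smooth K B' := by
  have hker : ∀ x, x ∈ RingHom.ker π.toRingHom ↔ ∃ y, x = f * y := fun x => by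
    rw [← hk x]
    exact Iff.rfl
  have hf : f ∈ RingHom.ker π.toRingHom := (hker f).2 ⟨1, (mul_one f).symm⟩
  have hf2 : ∀ x, x * (f * f) ∈ RingHom.ker π.toRingHom ^ 2 := by
    intro x
    refine Ideal.mul_mem_left _ _ ?_
    rw [pow_two]
    exact Ideal.mul_mem_mul hf hf
  have hfp : Algebra.FinitePresentation K B' := by
    refine Algebra.FinitePresentation.of_surjective hπ ?_
    have h1 : RingHom.ker π.toRingHom = Ideal.span {f} := by
      ext x
      rw [hker, Ideal.mem_span_singleton']
      constructor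
      · rintro ⟨y, rfl⟩
        exact ⟨y, mul_comm y f⟩
      · rintro ⟨y, rfl⟩
        exact ⟨y, mul_comm y f⟩
    rw [h1]
    exact Submodule.fg_span_singleton f
  let l₀ : B →ₗ[K] B ⧸ RingHom.ker π.toRingHom ^ 2 :=
    (Ideal.Quotient.mkₐ K (RingHom.ker π.toRingHom ^ 2)).toLinearMap ∘ₗ
      (LinearMap.id - LinearMap.mulRight K f ∘ₗ (v : B →ₗ[K] B))
  have hl₀ : ∀ b, l₀ b = Ideal.Quotient.mk (RingHom.ker π.toRingHom ^ 2) (b - v b * f) := fun b => rfl
  have hfs : Algebra.FormallySmooth K B' := by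
    let g₀ : B →ₐ[K] B ⧸ RingHom.ker π.toRingHom ^ 2 := AlgHom.ofLinearMap l₀ (by
      rw [hl₀, Derivation.map_one_eq_zero, zero_mul, sub_zero, map_one]) (by
      intro a b
      rw [hl₀, hl₀, hl₀, ← map_mul, Ideal.Quotient.eq, Derivation.leibniz, smul_eq_mul, smul_eq_mul]
      have h1 : a * b - (a * v b + b * v a) * f - (a - v a * f) * (b - v b * f) = -(v a * v b) * (f * f) := by
        ring
      rw [h1]
      exact hf2 _)
    have hg₀ : ∀ b, g₀ b = Ideal.Quotient.mk (RingHom.ker π.toRingHom ^ 2) (b - v b * f) := fun b => rfl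
    have H : RingHom.ker π.toRingHom ≤ RingHom.ker g₀.toRingHom := by
      intro x hx
      obtain ⟨y, rfl⟩ := (hker x).1 hx
      show g₀ (f * y) = 0
      rw [hg₀, Ideal.Quotient.eq_zero_iff_mem, Derivation.leibniz, smul_eq_mul, smul_eq_mul]
      have h1 : f * y - (f * v y + y * v f) * f = (y * g - v y) * (f * f) := by
        have h2 : v f = 1 - g * f := by
          rw [← hv, add_sub_cancel_right]
        rw [h2]
        ring
      rw [h1]
      exact hf2 _
    refine Algebra.FormallySmooth.of_split π (AlgHom.liftOfSurjective π hπ g₀ H) ?_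
    ext x
    obtain ⟨b, rfl⟩ := hπ x
    rw [AlgHom.comp_apply, AlgHom.liftOfSurjective_apply, hg₀]
    show π (b - v b * f) = π b
    rw [map_sub, map_mul, (hk f).2 ⟨1, (mul_one f).symm⟩, mul_zero, sub_zero]
  exact ⟨hfs, hfp⟩

open TensorProduct in
theorem rank_quot [Algebra.Smooth K B] [IsDomain B] [IsDomain B'] (hf : f ≠ 0) :
    Module.finrank B' (Ω[B'⁄K]) + 1 = Module.finrank B (Ω[B⁄K]) := by
  have hs : Algebra.Smooth K B' := smooth_quot π hπ f hk v g hv
  let _ : Algebra B B' := π.toRingHom.toAlgebra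
  have hal : ∀ x, algebraMap B B' x = π x := fun x => rfl
  have htow : IsScalarTower K B B' := IsScalarTower.of_algebraMap_eq fun x => (π.commutes x).symm
  have hsur : Function.Surjective (algebraMap B B') := hπ
  have hπf : π f = 0 := (hk f).2 ⟨1, (mul_one f).symm⟩
  let l : B' ⊗[B] Ω[B⁄K] →ₗ[B'] B' :=
    LinearMap.liftBaseChange B' ((Algebra.linearMap B B') ∘ₗ v.liftKaehlerDifferential)
  have hl : ∀ b' b, l (b' ⊗ₜ KaehlerDifferential.D K B b) = b' * π (v b) := by
    intro b' b
    show LinearMap.liftBaseChange B' ((Algebra.linearMap B B') ∘ₗ v.liftKaehlerDifferential)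
      (b' ⊗ₜ KaehlerDifferential.D K B b) = b' * π (v b)
    rw [LinearMap.liftBaseChange_tmul, LinearMap.comp_apply, Derivation.liftKaehlerDifferential_comp_D,
      Algebra.linearMap_apply, hal, smul_eq_mul]
  have hvf : π (v f) = 1 := by
    have h1 := congrArg π hv
    rw [map_add, map_mul, hπf, mul_zero, add_zero, map_one] at h1
    exact h1
  let t : B' ⊗[B] Ω[B⁄K] := 1 ⊗ₜ KaehlerDifferential.D K B f
  have hlt : l t = 1 := by
    show l ((1 : B') ⊗ₜ KaehlerDifferential.D K B f) = 1
    rw [hl, hvf, one_mul]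
  have hmt : KaehlerDifferential.mapBaseChange K B B' t = 0 := by
    show KaehlerDifferential.mapBaseChange K B B' ((1 : B') ⊗ₜ KaehlerDifferential.D K B f) = 0
    rw [KaehlerDifferential.mapBaseChange_tmul, KaehlerDifferential.map_D, hal, hπf, map_zero, smul_zero]
  have hker : ∀ w : B' ⊗[B] Ω[B⁄K], KaehlerDifferential.mapBaseChange K B B' w = 0 → ∃ b' : B', w = b' • t := by
    intro w hw
    obtain ⟨c, rfl⟩ := (KaehlerDifferential.exact_kerCotangentToTensor_mapBaseChange K B B' hsur w).1 hw
    obtain ⟨⟨x, hx⟩, rfl⟩ := Ideal.toCotangent_surjective _ c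
    obtain ⟨y, rfl⟩ := (hk x).1 hx
    refine ⟨π y, ?_⟩
    rw [KaehlerDifferential.kerCotangentToTensor_toCotangent]
    show (1 : B') ⊗ₜ[B] KaehlerDifferential.D K B (f * y) = π y • ((1 : B') ⊗ₜ[B] KaehlerDifferential.D K B f)
    rw [Derivation.leibniz, TensorProduct.tmul_add, ← TensorProduct.smul_tmul, ← TensorProduct.smul_tmul,
      Algebra.smul_def, Algebra.smul_def, hal, hal, hπf, zero_mul, TensorProduct.zero_tmul, zero_add,
      TensorProduct.smul_tmul', smul_eq_mul]
  let E : B' ⊗[B] Ω[B⁄K] →ₗ[B'] B' × Ω[B'⁄K] := l.prod (KaehlerDifferential.mapBaseChange K B B')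
  have hE : Function.Bijective E := by
    refine ⟨?_, ?_⟩
    · rw [← LinearMap.ker_eq_bot, LinearMap.ker_eq_bot']
      intro w hw
      have h1 : l w = 0 := congrArg Prod.fst hw
      have h2 : KaehlerDifferential.mapBaseChange K B B' w = 0 := congrArg Prod.snd hw
      obtain ⟨b', rfl⟩ := hker w h2
      rw [map_smul, hlt, smul_eq_mul, mul_one] at h1
      rw [h1, zero_smul]
    · rintro ⟨b', ω⟩
      obtain ⟨w, hw⟩ := KaehlerDifferential.mapBaseChange_surjective K B B' hsur ω
      refine ⟨w + (b' - l w) • t, Prod.ext ?_ ?_⟩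
      · show l (w + (b' - l w) • t) = b'
        rw [map_add, map_smul, hlt, smul_eq_mul, mul_one, add_sub_cancel]
      · show KaehlerDifferential.mapBaseChange K B B' (w + (b' - l w) • t) = ω
        rw [map_add, map_smul, hmt, smul_zero, add_zero, hw]
  let e : B' ⊗[B] Ω[B⁄K] ≃ₗ[B'] B' × Ω[B'⁄K] := LinearEquiv.ofBijective E hE
  let p : PrimeSpectrum B' := ⟨⊥, Ideal.isPrime_bot⟩
  have hr : ∀ (R M : Type u) [CommRing R] [IsDomain R] [AddCommGroup M] [Module R M] [Module.Finite R M]
      [Module.Flat R M] (q : PrimeSpectrum R), Module.rankAtStalk M q = Module.finrank R M := by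
    intro R M _ _ _ _ _ _ q
    have h1 := q.isPrime
    exact (Ideal.finrank_fiber_eq_rankAtStalk q.asIdeal).symm.trans (Ideal.finrank_fiber_eq_finrank q.asIdeal)
  rw [← hr B (Ω[B⁄K]) (p.comap (algebraMap B B')), ← Module.rankAtStalk_baseChange,
    Module.rankAtStalk_eq_of_equiv e, Module.rankAtStalk_prod, Pi.add_apply, hr B' (Ω[B'⁄K]) p, hr B' B' p,
    Module.finrank_self, add_comm]

end

end MPadcHS
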