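import Pool.Agent.Lib.MP_adc574_ag_HS.TkH0
import Pool.Agent.Lib.MP_adc574_ag_GP.BC
import Pool.Agent.Lib.MP_adc574_ag_GP.Lifts

/-!
# JOB TkBc (HS): base change of `H0`

`h0_bc`: `κ → K` fields. The charts of `bI J` are `K ⊗ chart J {l}` (`bce`, `bcm_bijective`, GP/Mod3.lean: `bcm I J (b ⊗ x) = b * cmA x`, `cmA` is compatible with `tr`: `cb_tr`, `cb_cq`, or `cmap_comp`).
For a `κ`-linear map `s : K → κ` and `C` nonempty let `p s C : chart (bI J) C →+ chart J C` be the map with `p s C (b * cmA x) = s b • x` (`LinearMap.rTensor`, `TensorProduct.lid`, composed with the inverse of `bce`); `p s C' ∘ tr = tr ∘ p s C` (check it on `b * cmA x`). (See also `NDesc_p0` in NDesc.lean.)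
Let `f` be a compatible family on the charts of `bI J`. `p s {l} (f l)` is a compatible family, so (`H0 J`) there is `c s : κ` with `p s {l} (f l) = algebraMap (c s)` for all `l`. Let `b := Module.Basis.ofVectorSpace κ K` with the coordinate functions `s_i`. For `l` fixed: `f l = ∑ i, b_i * cmA (p s_i {l} (f l))` (finite sum: write `f l` as the image of `∑ b_i ⊗ x_i`, `x_i = 0` for almost all `i`; `p s_i` gives `x_i`).
If all `chart J {l}` are trivial, so are the `chart (bI J) {l}` and `c = 0` works. Otherwise choose `l₀` with `chart J {l₀}` nontrivial: `c s_i` is determined by `p s_i {l₀} (f l₀) = x_i` and is `0` for almost all `i` (`algebraMap κ (chart J {l₀})` is injective). `c := ∑ i, c s_i • b_i` (over the finite support at `l₀`). For every `l` with `chart J {l}` nontrivial: `x_i = algebraMap (c s_i)`, so `f l = algebraMap c`. If `chart J {l}` is trivial so is `chart (bI J) {l}`.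
-/

set_option autoImplicit false
set_option linter.unusedSectionVars false

namespace MPadcHS

open MvPolynomial MPadcGP MPadcDC

universe u

section TkBcAux

open scoped TensorProduct

variable {κ : Type u} [Field κ] {n : ℕ} {J : Ideal (MvPolynomial (Fin n) κ)} {K : Type u} [Field K] [Algebra κ K]

/-- The coordinates of the functions over `K` with respect to a basis of `K`. -/
private theorem TkBc_co (hJ : IsHomog J) {ι : Type u} (b : Module.Basis ι κ K) (C : Finset (Fin n))
    (hC : C.Nonempty) :
    ∃ co : chart (bI (algebraMap κ K) J) C →+ (ι →₀ chart J C),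
      (∀ (k : K) (x : chart J C) (i : ι), co (algebraMap K _ k * cmA (B := K) J C x) i = b.repr k i • x) ∧
      (∀ y, y = (co y).sum fun i m => algebraMap K _ (b i) * cmA (B := K) J C m) := by
  classical
  let E : (K ⊗[κ] chart J C) ≃ₐ[K] chart (bI (algebraMap κ K) J) C := bce (B := K) hJ hC
  let F : (K ⊗[κ] chart J C) ≃ₗ[κ] (ι →₀ chart J C) := TensorProduct.equivFinsuppOfBasisLeft b
  have hE : ∀ (k : K) (x : chart J C), E (k ⊗ₜ[κ] x) = algebraMap K _ k * cmA (B := K) J C x :=
    fun k x => bce_tmul hJ hC k x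
  have hF : ∀ (k : K) (x : chart J C) (i : ι), F (k ⊗ₜ[κ] x) i = b.repr k i • x :=
    fun k x i => TensorProduct.equivFinsuppOfBasisLeft_apply_tmul_apply b k x i
  have hFs : ∀ t : ι →₀ chart J C, F.symm t = t.sum fun i m => b i ⊗ₜ[κ] m :=
    fun t => TensorProduct.equivFinsuppOfBasisLeft_symm_apply b t
  refine ⟨(F.toLinearMap.toAddMonoidHom).comp (E.symm : _ →+* _).toAddMonoidHom, ?_, ?_⟩
  · intro k x i
    show F (E.symm (algebraMap K _ k * cmA (B := K) J C x)) i = _
    rw [← hE, AlgEquiv.symm_apply_apply, hF]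
  · intro y
    show y = (F (E.symm y)).sum fun i m => algebraMap K _ (b i) * cmA (B := K) J C m
    have h1 : E (F.symm (F (E.symm y))) = y := by
      rw [LinearEquiv.symm_apply_apply, AlgEquiv.apply_symm_apply]
    rw [hFs, Finsupp.sum, map_sum] at h1
    rw [Finsupp.sum]
    refine h1.symm.trans (Finset.sum_congr rfl fun i _ => ?_)
    exact hE _ _

/-- Generation of the functions over `K`. -/
private theorem TkBc_ind (hJ : IsHomog J) {C : Finset (Fin n)} (hC : C.Nonempty)
    {P : chart (bI (algebraMap κ K) J) C → Prop} (h0 : P 0) (h1 : ∀ x y, P x → P y → P (x + y))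
    (h2 : ∀ (k : K) (x : chart J C), P (algebraMap K _ k * cmA (B := K) J C x)) (y) : P y := by
  obtain ⟨t, rfl⟩ := (bcm_bijective (B := K) hJ hC).2 y
  induction t using TensorProduct.induction_on with
  | zero => rw [map_zero]; exact h0
  | tmul k x => rw [bcm_tmul]; exact h2 k x
  | add x y hx hy => rw [map_add]; exact h1 _ _ hx hy

end TkBcAux

theorem h0_bc {κ : Type u} [Field κ] {n : ℕ} {J : Ideal (MvPolynomial (Fin n) κ)} (hJ : IsHomog J) {K : Type u} [Field K]
    [Algebra κ K] (h : H0 J) : H0 (bI (algebraMap κ K) J) := by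
  classical
  intro f hf
  let b := Module.Basis.ofVectorSpace κ K
  have hne : ∀ l : Fin n, ({l} : Finset (Fin n)).Nonempty := fun l => Finset.singleton_nonempty l
  have hne2 : ∀ l l' : Fin n, ({l, l'} : Finset (Fin n)).Nonempty := fun l l' => Finset.insert_nonempty _ _
  choose co hco1 hco2 using fun (C : Finset (Fin n)) (hC : C.Nonempty) => TkBc_co (K := K) hJ b C hC
  have hnat : ∀ (C D : Finset (Fin n)) (hCD : C ⊆ D) (hC : C.Nonempty) (hD : D.Nonempty)
      (y : chart (bI (algebraMap κ K) J) C) (i), co D hD (tr _ hCD y) i = tr J hCD (co C hC y i) := by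
    intro C D hCD hC hD y i
    refine TkBc_ind (P := fun y => co D hD (tr _ hCD y) i = tr J hCD (co C hC y i)) hJ hC ?_ ?_ ?_ y
    · rw [map_zero, map_zero, map_zero, Finsupp.zero_apply, Finsupp.zero_apply, map_zero]
    · intro x y hx hy
      rw [map_add, map_add, map_add, Finsupp.add_apply, Finsupp.add_apply, hx, hy, map_add]
    · intro k x
      have h1 : tr (bI (algebraMap κ K) J) hCD (cmA (B := K) J C x) = cmA (B := K) J D (tr J hCD x) :=
        (cb_tr (algebraMap κ K) J hCD x).symm
      rw [map_mul, AlgHom.commutes, h1, hco1, hco1, map_smul]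
  have hcf : ∀ i, ∃ c : κ, ∀ l, co {l} (hne l) (f l) i = algebraMap κ _ c := by
    intro i
    refine h (fun l => co {l} (hne l) (f l) i) ?_
    intro l l'
    rw [← hnat {l} {l, l'} (p1l l l') (hne l) (hne2 l l'), ← hnat {l'} {l, l'} (p2l l l') (hne l') (hne2 l l'), hf l l']
  choose c hc using hcf
  let S := (Finset.univ : Finset (Fin n)).biUnion fun l => (co {l} (hne l) (f l)).support
  refine ⟨∑ i ∈ S, algebraMap κ K (c i) * b i, fun l => ?_⟩
  have h1 := hco2 {l} (hne l) (f l)
  have hsub : (co {l} (hne l) (f l)).support ⊆ S :=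
    fun i hi => Finset.mem_biUnion.2 ⟨l, Finset.mem_univ l, hi⟩
  rw [Finsupp.sum] at h1
  rw [h1, map_sum]
  rw [Finset.sum_subset hsub (fun i _ hi => by
    rw [Finsupp.notMem_support_iff.1 hi, map_zero, mul_zero])]
  refine Finset.sum_congr rfl fun i _ => ?_
  rw [hc i l, AlgHom.commutes, map_mul, ← IsScalarTower.algebraMap_apply κ K, mul_comm]

end MPadcHS
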