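import Pool.Agent.Lib.MP_adc574_ag_HS.TkH0
import Pool.Agent.Lib.MP_adc574_ag_HS.FEu
import Pool.Agent.Lib.MP_adc574_ag_DC.GNor
import Pool.Agent.Lib.MP_adc574_ag_DC.GExt

/-!
# JOB TkFr (HS): the field of constants of a smooth projective scheme with constant global functions

`frac_closed`: `E := FractionRing (CR S)`, `Θ ∈ E` algebraic over `K`. Claim: `Θ ∈ K`.
1. For `X l ∉ S`: `LR S {l}` is a domain (`LR_domain`, DC/GDom.lean), `CR S → LR S {l}` injective (`LR_inj`), and `LR S {l} → E` injective, `E` is its field of fractions.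
   `B := chart S {l}` is a smooth domain (`chart_domain`, `hsm l`), so integrally closed (`smooth_icl`, DC/GNor.lean). `LR S {l} ≃ B[T, T⁻¹]` (`exists_laurent`, DC/GExt.lean) is integrally closed too: `LR S {l}` is also smooth over `K` (`Algebra.Smooth K (LaurentPolynomial B)`: `Algebra.Smooth.comp`, polynomial ring and localization), so `smooth_icl` applies; or: `Polynomial` over an integrally closed domain is integrally closed (Mathlib) and so is a localization (`IsIntegrallyClosed` of a localization: `isIntegrallyClosed_of_isLocalization`).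
   `Θ` is integral over `K`, so over `LR S {l}`: `Θ = ` image of `y_l ∈ LR S {l}` (`IsIntegrallyClosed.isIntegral_iff` with `IsFractionRing (LR S {l}) E`: `IsFractionRing.isFractionRing_of_isDomain_of_isLocalization` or directly).
2. `y_l` is algebraic over `K` (injectivity), so `eu hS {l} y_l = 0` (char `0`: a derivation of a domain kills the elements algebraic over the constants: `p(y) = 0`, `p` minimal, `p'(y) D y = 0`, `p'(y) ≠ 0`; `eu`: FEu.lean). An element `y` of `LR S {l}` with `eu y = 0` is in `chart S {l}`: by `exists_laurent` `y = ∑ b_i x_l ^ i` with unique `b_i ∈ B`, `eu y = ∑ i b_i x_l ^ i` (`eu_chart`, `eu_lx`), so `b_i = 0` for `i ≠ 0`.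
3. `f l := y_l ∈ chart S {l}` for `X l ∉ S`, `f l := 0` for `X l ∈ S`. Compatible: if `X l`, `X l' ∉ S` then `chart S {l, l'} ⊆ LR S {l, l'} → E` is injective (`CR S` domain, `x_l x_l' ≠ 0`) and both images are `Θ`; if `X l ∈ S` or `X l' ∈ S` then `LR S {l, l'}` and `chart S {l, l'}` are trivial (`lx` is a unit equal to `0`).
4. `h0` gives `c`, `f l = algebraMap c`, so `Θ = c` (use one `l` with `X l ∉ S`).
-/

set_option autoImplicit false
set_option linter.unusedSectionVars false

namespace MPadcHS

open MvPolynomial MPadcGP MPadcDC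

universe u

private theorem TkFr_coeff {B : Type u} [CommRing B] (a : B) (n i : ℤ) :
    (LaurentPolynomial.C a * LaurentPolynomial.T n : LaurentPolynomial B).coeff i = if n = i then a else 0 := by
  rw [← LaurentPolynomial.single_eq_C_mul_T, AddMonoidAlgebra.coeff_single, Finsupp.single_apply]

/-- A derivation of a domain kills the elements which are algebraic over the constants. -/
private theorem TkFr_alg {K R : Type u} [Field K] [CharZero K] [CommRing R] [IsDomain R] [Algebra K R]
    (D : Derivation K R R) {y : R} (hy : IsAlgebraic K y) : D y = 0 := by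
  have h0 : IsIntegral K y := hy.isIntegral
  have h1 := D.map_aeval (minpoly K y) y
  rw [minpoly.aeval, map_zero, smul_eq_mul] at h1
  rcases mul_eq_zero.1 h1.symm with h2 | h2
  · exfalso
    have h3 : 0 < (minpoly K y).natDegree := minpoly.natDegree_pos h0
    have h4 : Polynomial.derivative (minpoly K y) ≠ 0 := by
      intro h5
      have h6 := Polynomial.derivative_eq_zero.1 h5
      omega
    exact absurd (minpoly.degree_le_of_ne_zero K y h4 h2)
      (not_le.2 (Polynomial.degree_derivative_lt (minpoly.ne_zero h0)))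
  · exact h2

private theorem TkFr_inv {K R : Type u} [Field K] [CommRing R] [Algebra K R]
    (D : Derivation K R R) {x y : R} (hx : D x = x) (hxy : x * y = 1) : D y = - y := by
  have h1 := congrArg D hxy
  rw [Derivation.leibniz, hx, Derivation.map_one_eq_zero, smul_eq_mul, smul_eq_mul, mul_comm y x, hxy] at h1
  have h2 : x * D y = x * (- y) := by
    rw [mul_neg, hxy]
    exact eq_neg_of_add_eq_zero_left h1
  exact (IsUnit.of_mul_eq_one y hxy).mul_left_cancel h2

private theorem TkFr_pow {K R : Type u} [Field K] [CommRing R] [Algebra K R]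
    (D : Derivation K R R) {x : R} {t : ℤ} (hx : D x = t • x) (n : ℕ) : D (x ^ n) = ((n : ℤ) * t) • x ^ n := by
  induction n with
  | zero => rw [pow_zero, Derivation.map_one_eq_zero, Nat.cast_zero, zero_mul, zero_smul]
  | succ n ih =>
    rw [pow_succ, Derivation.leibniz, ih, hx, smul_eq_mul, smul_eq_mul, mul_smul_comm, mul_smul_comm, mul_comm x (x ^ n),
      ← add_smul, Nat.cast_succ, add_mul, one_mul, add_comm]

private theorem TkFr_icl {K R L : Type u} [Field K] [CommRing R] [IsDomain R] [CommRing L] [IsDomain L]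
    [IsIntegrallyClosed L] [Algebra R L] (M : Submonoid R) [IsLocalization M L] (hM : M ≤ nonZeroDivisors R)
    [Algebra K R] [Algebra K L] [IsScalarTower K R L] (θ : L →+* FractionRing R)
    (hθ : ∀ x : R, θ (algebraMap R L x) = algebraMap R (FractionRing R) x) (x : FractionRing R)
    (hx : IsAlgebraic K x) : ∃ y : L, θ y = x := by
  let _ : Algebra L (FractionRing R) := θ.toAlgebra
  have h1 : IsScalarTower R L (FractionRing R) := IsScalarTower.of_algebraMap_eq fun x => (hθ x).symm
  have h2 : IsFractionRing L (FractionRing R) := IsFractionRing.isFractionRing_of_isLocalization M L (FractionRing R) hM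
  have h3 : IsScalarTower K L (FractionRing R) := IsScalarTower.of_algebraMap_eq fun a => by
    rw [IsScalarTower.algebraMap_apply K R L, ← IsScalarTower.algebraMap_apply R L (FractionRing R),
      ← IsScalarTower.algebraMap_apply K R (FractionRing R)]
  have h4 : IsIntegral L x := (hx.isIntegral).tower_top
  exact IsIntegrallyClosed.isIntegral_iff.1 h4

section

variable {K : Type u} [Field K] {n : ℕ} {S : Ideal (MvPolynomial (Fin n) K)}

private theorem TkFr_triv {C : Finset (Fin n)} {j : Fin n} (hj : j ∈ C) (h : (X j : MvPolynomial (Fin n) K) ∈ S)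
    (x y : chart S C) : x = y := by
  have h1 : lx S C j = 0 := by
    unfold lx
    rw [Ideal.Quotient.eq_zero_iff_mem.2 h, map_zero]
  have h2 := lx_isUnit S C hj
  rw [h1, isUnit_zero_iff] at h2
  have h3 : Subsingleton (LR S C) := subsingleton_of_zero_eq_one h2
  exact Subtype.ext (Subsingleton.elim _ _)

private theorem TkFr_ne [IsDomain (CR S)] {C : Finset (Fin n)} (hC : ∀ j ∈ C, (X j : MvPolynomial (Fin n) K) ∉ S) :
    (Ideal.Quotient.mk S (∏ j ∈ C, X j) : CR S) ≠ 0 := by
  rw [map_prod, Finset.prod_ne_zero_iff]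
  intro j hj h
  exact hC j hj (Ideal.Quotient.eq_zero_iff_mem.1 h)

private theorem TkFr_map [IsDomain (CR S)] {C : Finset (Fin n)} (hC : ∀ j ∈ C, (X j : MvPolynomial (Fin n) K) ∉ S) :
    ∃ θ : LR S C →+* FractionRing (CR S), Function.Injective θ ∧
      ∀ x : CR S, θ (algebraMap (CR S) (LR S C) x) = algebraMap (CR S) (FractionRing (CR S)) x := by
  have h1 := TkFr_ne hC
  have h2 : Function.Injective (algebraMap (CR S) (FractionRing (CR S))) := IsFractionRing.injective _ _
  have hu : IsUnit (algebraMap (CR S) (FractionRing (CR S)) (Ideal.Quotient.mk S (∏ j ∈ C, X j))) := by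
    refine IsUnit.mk0 _ fun h => h1 (h2 ?_)
    rw [h, map_zero]
  have h3 : ∀ x : CR S, IsLocalization.Away.lift (S := LR S C) (Ideal.Quotient.mk S (∏ j ∈ C, X j)) hu
      (algebraMap (CR S) (LR S C) x) = algebraMap (CR S) (FractionRing (CR S)) x :=
    fun x => IsLocalization.Away.lift_eq _ hu x
  refine ⟨IsLocalization.Away.lift (Ideal.Quotient.mk S (∏ j ∈ C, X j)) hu, ?_, h3⟩
  rw [injective_iff_map_eq_zero]
  intro z hz
  obtain ⟨k, a, h⟩ := IsLocalization.Away.surj (Ideal.Quotient.mk S (∏ j ∈ C, X j)) z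
  have h4 := congrArg (IsLocalization.Away.lift (S := LR S C) (Ideal.Quotient.mk S (∏ j ∈ C, X j)) hu) h
  rw [map_mul, hz, zero_mul, h3] at h4
  have h5 : a = 0 := h2 (by rw [← h4, map_zero])
  rw [h5, map_zero] at h
  have h6 : IsUnit (algebraMap (CR S) (LR S C) (Ideal.Quotient.mk S (∏ j ∈ C, X j)) ^ k) :=
    (IsLocalization.Away.algebraMap_isUnit _).pow k
  exact h6.mul_right_cancel (h.trans (zero_mul _).symm)

private theorem TkFr_hom {C C' : Finset (Fin n)} (h : C ⊆ C') (x : CR S) :
    trL S h (algebraMap (CR S) (LR S C) x) = algebraMap (CR S) (LR S C') x := by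
  obtain ⟨p, rfl⟩ := Ideal.Quotient.mk_surjective x
  exact trL_mkL S h p

/-- The elements of weight `0` are in the chart. -/
private theorem TkFr_chart [CharZero K] (hS : IsHomog S) (hp : S.IsPrime) {l : Fin n}
    (hl : (X l : MvPolynomial (Fin n) K) ∉ S) (y : LR S {l}) (hy : eu hS {l} y = 0) :
    ∃ z : chart S {l}, (z : LR S {l}) = y := by
  obtain ⟨Φ, hΦ⟩ := exists_laurent (l := l) hS
  have hdom := chart_domain hp hl
  have hC : ∀ a : chart S {l}, Φ (LaurentPolynomial.C a) = (a : LR S {l}) := fun a => Φ.commutes a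
  have hT1 : eu hS {l} (Φ (LaurentPolynomial.T 1)) = Φ (LaurentPolynomial.T 1) := by
    rw [hΦ]
    exact eu_lx hS {l} l
  have hTm : eu hS {l} (Φ (LaurentPolynomial.T (-1))) = - Φ (LaurentPolynomial.T (-1)) := by
    refine TkFr_inv _ hT1 ?_
    rw [← map_mul, ← LaurentPolynomial.T_add, add_neg_cancel, LaurentPolynomial.T_zero, map_one]
  have hT : ∀ m : ℤ, eu hS {l} (Φ (LaurentPolynomial.T m)) = m • Φ (LaurentPolynomial.T m) := by
    intro m
    obtain ⟨k, rfl | rfl⟩ := m.eq_nat_or_neg
    · have h1 : (LaurentPolynomial.T (k : ℤ) : LaurentPolynomial (chart S {l})) = LaurentPolynomial.T 1 ^ k := by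
        rw [LaurentPolynomial.T_pow, mul_one]
      have h2 := TkFr_pow (eu hS {l}) (x := Φ (LaurentPolynomial.T 1)) (t := 1) (by rw [hT1, one_smul]) k
      rw [h1, map_pow, h2, mul_one]
    · have h1 : (LaurentPolynomial.T (-(k : ℤ)) : LaurentPolynomial (chart S {l})) = LaurentPolynomial.T (-1) ^ k := by
        rw [LaurentPolynomial.T_pow, mul_neg, mul_one]
      have h2 := TkFr_pow (eu hS {l}) (x := Φ (LaurentPolynomial.T (-1))) (t := -1) (by rw [hTm, neg_smul, one_smul]) k
      rw [h1, map_pow, h2, mul_neg, mul_one]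
  have key : ∀ f : LaurentPolynomial (chart S {l}), ∀ i : ℤ,
      (Φ.symm (eu hS {l} (Φ f))).coeff i = (i : chart S {l}) * f.coeff i := by
    intro f i
    induction f using LaurentPolynomial.induction_on' with
    | add p q hp hq =>
      rw [map_add, map_add, map_add, AddMonoidAlgebra.coeff_add, AddMonoidAlgebra.coeff_add, Finsupp.add_apply,
        Finsupp.add_apply, hp, hq, mul_add]
    | C_mul_T m a =>
      have h1 : Φ.symm (eu hS {l} (Φ (LaurentPolynomial.C a * LaurentPolynomial.T m))) =
          LaurentPolynomial.C ((m : chart S {l}) * a) * LaurentPolynomial.T m := by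
        have hm : ((m : chart S {l}) : LR S {l}) = (m : LR S {l}) := map_intCast (chart S {l}).val m
        rw [AlgEquiv.symm_apply_eq, map_mul Φ, map_mul Φ, hC, hC, Derivation.leibniz, eu_chart, smul_zero, add_zero, hT,
          smul_eq_mul, zsmul_eq_mul, Subalgebra.coe_mul, hm]
        ring
      rw [h1, TkFr_coeff, TkFr_coeff]
      split_ifs with h2
      · rw [h2]
      · rw [mul_zero]
  have h1 : ∀ i : ℤ, i ≠ 0 → (Φ.symm y).coeff i = 0 := by
    intro i hi
    have h2 := key (Φ.symm y) i
    rw [AlgEquiv.apply_symm_apply, hy, map_zero] at h2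
    have h3 : (i : chart S {l}) * (Φ.symm y).coeff i = 0 := h2.symm
    have h4 : CharZero (chart S {l}) := charZero_of_injective_algebraMap (algebraMap K (chart S {l})).injective
    rcases mul_eq_zero.1 h3 with h5 | h5
    · exact absurd (Int.cast_eq_zero.1 h5) hi
    · exact h5
  refine ⟨(Φ.symm y).coeff 0, ?_⟩
  rw [← hC, ← AlgEquiv.eq_symm_apply]
  refine LaurentPolynomial.ext fun i => ?_
  rw [LaurentPolynomial.C_apply]
  split_ifs with h2
  · rw [h2]
  · exact (h1 i h2).symm

end

theorem frac_closed {K : Type u} [Field K] [CharZero K] {n : ℕ} {S : Ideal (MvPolynomial (Fin n) K)} (hS : IsHomog S)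
    (hp : S.IsPrime) (hsm : IsSmoothProj S) (hn : ∃ l, (X l : MvPolynomial (Fin n) K) ∉ S) (h0 : H0 S)
    [IsDomain (CR S)] (x : FractionRing (CR S)) (hx : IsAlgebraic K x) :
    x ∈ (algebraMap K (FractionRing (CR S))).range := by
  have key : ∀ l : Fin n, ∃ z : chart S {l}, (X l : MvPolynomial (Fin n) K) ∉ S →
      ∀ θ : LR S {l} →+* FractionRing (CR S),
      (∀ x : CR S, θ (algebraMap (CR S) (LR S {l}) x) = algebraMap (CR S) (FractionRing (CR S)) x) →
      θ (z : LR S {l}) = x := by
    intro l
    by_cases hl : (X l : MvPolynomial (Fin n) K) ∈ S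
    · exact ⟨0, fun h => absurd hl h⟩
    have hC : ∀ j ∈ ({l} : Finset (Fin n)), (X j : MvPolynomial (Fin n) K) ∉ S := by
      intro j hj
      rw [Finset.mem_singleton.1 hj]
      exact hl
    obtain ⟨θ, hθ, hθ'⟩ := TkFr_map hC
    have hdom := chart_domain hp hl
    have hdomL := LR_domain hp hl
    have hsml : Algebra.Smooth K (chart S {l}) := hsm l
    have hicl : IsIntegrallyClosed (chart S {l}) := smooth_icl K (chart S {l})
    obtain ⟨Φ, hΦ⟩ := exists_laurent (l := l) hS
    have hicl1 : IsIntegrallyClosed (LaurentPolynomial (chart S {l})) := by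
      refine isIntegrallyClosed_of_isLocalization (R := Polynomial (chart S {l})) _
        (Submonoid.powers (Polynomial.X : Polynomial (chart S {l}))) ?_
      exact powers_le_nonZeroDivisors_of_noZeroDivisors Polynomial.X_ne_zero
    have hicl2 : IsIntegrallyClosed (LR S {l}) := 
      IsIntegrallyClosed.of_equiv (R := LaurentPolynomial (chart S {l})) Φ.toRingEquiv
    obtain ⟨y, hy⟩ := TkFr_icl (K := K) (R := CR S) (L := LR S {l})
      (Submonoid.powers (Ideal.Quotient.mk S (∏ j ∈ ({l} : Finset (Fin n)), X j)))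
      (powers_le_nonZeroDivisors_of_noZeroDivisors (TkFr_ne hC)) θ hθ' x hx
    have hya : IsAlgebraic K y := by
      obtain ⟨P, hP, hP'⟩ := hx
      refine ⟨P, hP, hθ ?_⟩
      rw [map_zero, ← hP', ← hy, Polynomial.aeval_def, Polynomial.aeval_def, Polynomial.hom_eval₂]
      have h1 : θ.comp (algebraMap K (LR S {l})) = algebraMap K (FractionRing (CR S)) := by
        refine RingHom.ext fun a => ?_
        rw [RingHom.comp_apply, IsScalarTower.algebraMap_apply K (CR S) (LR S {l}), hθ',
          ← IsScalarTower.algebraMap_apply K (CR S) (FractionRing (CR S))]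
      rw [h1]
    obtain ⟨z, hz⟩ := TkFr_chart hS hp hl y (TkFr_alg _ hya)
    refine ⟨z, fun _ θ' hθ'' => ?_⟩
    have h2 : θ' = θ := by
      refine IsLocalization.ringHom_ext (Submonoid.powers
        (Ideal.Quotient.mk S (∏ j ∈ ({l} : Finset (Fin n)), X j))) ?_
      refine RingHom.ext fun a => ?_
      rw [RingHom.comp_apply, RingHom.comp_apply, hθ', hθ'']
    rw [h2, hz, hy]
  choose f hf using key
  obtain ⟨c, hc⟩ := h0 f fun l l' => by
    by_cases hl : (X l : MvPolynomial (Fin n) K) ∈ S
    · exact TkFr_triv (Finset.mem_insert_self l {l'}) hl _ _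
    by_cases hl' : (X l' : MvPolynomial (Fin n) K) ∈ S
    · exact TkFr_triv (Finset.mem_insert_of_mem (Finset.mem_singleton_self l')) hl' _ _
    have hC : ∀ j ∈ ({l, l'} : Finset (Fin n)), (X j : MvPolynomial (Fin n) K) ∉ S := by
      intro j hj
      rcases Finset.mem_insert.1 hj with h | h
      · rw [h]
        exact hl
      · rw [Finset.mem_singleton.1 h]
        exact hl'
    obtain ⟨θ, hθ, hθ'⟩ := TkFr_map hC
    have h1 := hf l hl (θ.comp (trL S (p1l l l') : LR S {l} →+* LR S {l, l'})) fun a => by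
      rw [RingHom.comp_apply, ← hθ' a, ← TkFr_hom (p1l l l') a]
      rfl
    have h2 := hf l' hl' (θ.comp (trL S (p2l l l') : LR S {l'} →+* LR S {l, l'})) fun a => by
      rw [RingHom.comp_apply, ← hθ' a, ← TkFr_hom (p2l l l') a]
      rfl
    exact Subtype.ext (hθ (h1.trans h2.symm))
  obtain ⟨l, hl⟩ := hn
  have hC : ∀ j ∈ ({l} : Finset (Fin n)), (X j : MvPolynomial (Fin n) K) ∉ S := by
    intro j hj
    rw [Finset.mem_singleton.1 hj]
    exact hl
  obtain ⟨θ, hθ, hθ'⟩ := TkFr_map hC
  refine ⟨c, ?_⟩
  rw [← hf l hl θ hθ', hc l, IsScalarTower.algebraMap_apply K (CR S) (FractionRing (CR S)), ← hθ']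
  rfl

end MPadcHS
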