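import Pool.Agent.Lib.MP_adc574_ag_HS.TSec
import Pool.Agent.Lib.MP_adc574_ag_DC.PDom
import Pool.Agent.Lib.MP_adc574_ag_HM.RegC

/-!
# JOB TkPr (HS): prime ideals and extensions of the field; the section and base change

* `prime_bI_reg`: the proof of `isPrime_bI_closed` (DC/PDom.lean) with `hd : IsDomain (K ⊗[F] (MvPolynomial (Fin n) F ⧸ I))` from: `E := FractionRing (MvPolynomial (Fin n) F ⧸ I)`, `MPadcHM.isDomain_tensor` (HM/RegC.lean): `E ⊗[F] K` is a domain; `(MvPolynomial ⧸ I) ⊗[F] K → E ⊗[F] K` is injective (flat: `Module.Flat.rTensor_preserves_injective_linearMap`), a ring homomorphism (`Algebra.TensorProduct.map`), so the source is a domain; `Algebra.TensorProduct.comm`.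
* `sec_bI`: `⊇`: the generators `map θ g`, `g ∈ sec I F`: `X l ^ N * g ∈ I ⊔ (F)`, apply `map θ` (`Ideal.mem_map_of_mem`, `bI θ (I ⊔ (F)) = bI θ I ⊔ (map θ F)`: `Ideal.map_sup`, `Ideal.map_span`). `⊆`: `f` with `X l ^ N * f ∈ bI θ I ⊔ (map θ F) ≤ bI θ (sec I F)` (`isSec_sec`: `I ≤ sec I F`, `F ∈ sec I F`); this is prime and does not contain `X l` for one `l`, so `f ∈ bI θ (sec I F)`.
-/

set_option autoImplicit false
set_option linter.unusedSectionVars false

namespace MPadcHS

open MvPolynomial MPadcGP MPadcDC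

universe u

open scoped TensorProduct in
theorem prime_bI_reg {F K : Type u} [Field F] [CharZero F] [Field K] (θ : F →+* K) {n : ℕ}
    {I : Ideal (MvPolynomial (Fin n) F)} [IsDomain (CR I)]
    (hcl : ∀ x : FractionRing (CR I), IsAlgebraic F x → x ∈ (algebraMap F (FractionRing (CR I))).range) :
    (bI θ I).IsPrime := by
  let : Algebra F K := θ.toAlgebra
  have hE : IsDomain (FractionRing (CR I) ⊗[F] K) := MPadcHM.isDomain_tensor hcl
  have hd : IsDomain (K ⊗[F] (MvPolynomial (Fin n) F ⧸ I)) := by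
    let g : CR I →ₐ[F] FractionRing (CR I) := IsScalarTower.toAlgHom F (CR I) (FractionRing (CR I))
    let G : (CR I) ⊗[F] K →ₐ[F] FractionRing (CR I) ⊗[F] K := Algebra.TensorProduct.map g (AlgHom.id F K)
    have hg : Function.Injective g.toLinearMap := IsFractionRing.injective (CR I) (FractionRing (CR I))
    have hG : Function.Injective G :=
      Module.Flat.rTensor_preserves_injective_linearMap (M := K) g.toLinearMap hg
    have h1 : IsDomain ((CR I) ⊗[F] K) := Function.Injective.isDomain G.toRingHom hG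
    exact (Algebra.TensorProduct.comm F K (CR I)).toMulEquiv.isDomain _
  let P : Ideal (K ⊗[F] MvPolynomial (Fin n) F) :=
    I.map (Algebra.TensorProduct.includeRight (A := K) (R := F) : MvPolynomial (Fin n) F →ₐ[F] _)
  have hP : P.IsPrime := by
    have e := Algebra.TensorProduct.tensorQuotientEquiv (R := F) F (MvPolynomial (Fin n) F) K I
    have h2 : IsDomain ((K ⊗[F] MvPolynomial (Fin n) F) ⧸ P) := e.symm.toMulEquiv.isDomain _
    exact (Ideal.Quotient.isDomain_iff_prime P).1 h2
  have h3 : bI θ I = P.map (algebraTensorAlgEquiv (σ := Fin n) F K).toRingEquiv := by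
    have h4 : ∀ g : MvPolynomial (Fin n) F, MvPolynomial.map θ g = algebraTensorAlgEquiv F K (1 ⊗ₜ g) := by
      intro g
      rw [algebraTensorAlgEquiv_tmul, one_smul]
      rfl
    apply le_antisymm
    · refine Ideal.map_le_iff_le_comap.2 fun g hg => ?_
      rw [Ideal.mem_comap, h4]
      exact Ideal.mem_map_of_mem _ (Ideal.mem_map_of_mem _ hg)
    · refine Ideal.map_le_iff_le_comap.2 (Ideal.map_le_iff_le_comap.2 fun g hg => ?_)
      have h5 : MvPolynomial.map θ g ∈ bI θ I := Ideal.mem_map_of_mem _ hg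
      rw [h4] at h5
      exact h5
  rw [h3]
  exact Ideal.map_isPrime_of_equiv _

theorem sec_bI {A B : Type u} [CommRing A] [CommRing B] (θ : A →+* B) {n : ℕ} {I : Ideal (MvPolynomial (Fin n) A)}
    {F : MvPolynomial (Fin n) A} (hp : (bI θ (sec I F)).IsPrime)
    (hn : ∃ l, (X l : MvPolynomial (Fin n) B) ∉ bI θ (sec I F)) :
    bI θ (sec I F) = sec (bI θ I) (MvPolynomial.map θ F) := by
  have hsup : bI θ (I ⊔ Ideal.span {F}) = bI θ I ⊔ Ideal.span {MvPolynomial.map θ F} := by
    have h1 : bI θ (I ⊔ Ideal.span {F}) = (I ⊔ Ideal.span {F}).map (MvPolynomial.map θ) := rfl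
    have h2 : bI θ I = I.map (MvPolynomial.map θ) := rfl
    rw [h1, h2, Ideal.map_sup, Ideal.map_span, Set.image_singleton]
  obtain ⟨l, hl⟩ := hn
  refine le_antisymm ?_ ?_
  · refine Ideal.map_le_iff_le_comap.2 fun g hg => ?_
    obtain ⟨N, hN⟩ := hg
    rw [Ideal.mem_comap]
    refine ⟨N, fun l => ?_⟩
    have h1 : MvPolynomial.map θ (X l ^ N * g) ∈ bI θ (I ⊔ Ideal.span {F}) := Ideal.mem_map_of_mem _ (hN l)
    rw [hsup, map_mul, map_pow, MvPolynomial.map_X] at h1
    exact h1
  · intro f hf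
    obtain ⟨N, hN⟩ := hf
    have hS := isSec_sec I F
    have hle : bI θ I ⊔ Ideal.span {MvPolynomial.map θ F} ≤ bI θ (sec I F) := by
      rw [← hsup]
      refine Ideal.map_mono (sup_le (fun g hg => ⟨0, fun l => ?_⟩) ((Ideal.span_singleton_le_iff_mem _).2 ⟨0, fun l => ?_⟩))
      · rw [pow_zero, one_mul]
        exact Ideal.mem_sup_left hg
      · rw [pow_zero, one_mul]
        exact Ideal.mem_sup_right (Ideal.mem_span_singleton_self F)
    rcases hp.mem_or_mem (hle (hN l)) with h1 | h1
    · exact absurd (hp.mem_of_pow_mem N h1) hl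
    · exact h1

end MPadcHS
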