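import Pool.Agent.Lib.MP_adc574_ag_HS.TkH0
import Pool.Agent.Lib.MP_adc574_ag_HS.NKer
import Pool.Agent.Lib.MP_adc574_ag_HS.NSysA

/-!
# JOB TkSec (HS): the global functions of a section

`h0_sec`: `S` an ideal of the section `F = 0` of `I`, `H^1` of the system `kT hs.le 0 0` of the functions which vanish on the section is `0`, and the global functions for `I` are constant. Let `f l ∈ chart S {l}` be a compatible family.
1. `g l ∈ chart I {l}` with `hx hs.le {l} (g l) = f l` (`hx_surj`, NKer.lean).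
2. The system `M := kT hs.le 0 0` (NTw.lean): `M.E C = ↥(kF hs.le 0 C)`, the forms `x ∈ Fd A (chart I C) 0` with `rsx hs.le C x = 0`, restriction `rK_coe`: `fz (tau I 0 h) * rsc I h x = rsc I h x` (`tau_zero`). Cochain `c`: `c C = 0` if `C.card ≠ 2`; for `C = {j, k}`, `j < k`: the form `∑_{l ∈ C} sg l C • rsc (fz (g (the other element)))`, i.e. `fz` of `± (tr (g k) - tr (g j))` (the same formula as `TS.del` of the cochain `C ↦ fz (g l)` for `C = {l}`; it is in `kF` as `hx` of it is `± (tr (f k) - tr (f j)) = 0`).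
   Suggestion: work with the system `cT I 0 0` (all forms of degree `0`, `M' := cT I 0 0`), `G : ∀ C, M'.E C` with `G {l} = fz (g l)`, `G C = 0` otherwise, `M'.Cd 1 G`. `M'.del G` has values in `kF` (`rsx` of it is the `del` of the family `fz (f l)`: `0` on the sets with two elements). `c := M'.del G` with values in `kF`; `M.del c = 0` as `M'.del (M'.del G) = 0` (`TS.del_del`) and the inclusion `kF → Fd` is injective and compatible with the restrictions.
3. `hk : M.Acy 1` gives `c'` with `M.Cd 1 c'`, `M.del c' = c`. So `h l := g l - (function of c' {l})` (`x ∈ Fd A _ 0` is `fz A y`: `Fd 0` is the image of `fz` (`fd_ind` with `q = 0`, `wd_zero`, or a lemma in GP/DRm, HS/NKer; `y` is unique: `fz` is injective, look for `fz_injective` / `exteriorPower` degree `0`)) is a compatible family on `I` with `hx (h l) = f l`.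
4. `hY` gives `c₀` with `h l = algebraMap c₀`, so `f l = hx (h l) = algebraMap c₀` (`hx_base`).
The equation `tr (h l) = tr (h l')` on `{l, l'}`: for `l = l'` clear; for `l ≠ l'` it is the value of `M'.del (G - c') = 0` at `C = {l, l'}`: `∑_{j ∈ C} sg j C • r (..(C.erase j)) = 0`, `{l, l'}.erase l = {l'}`, `sg l C + sg l' C = 0` (signs in GP/Cov.lean).
-/

set_option autoImplicit false
set_option linter.unusedSectionVars false

namespace MPadcHS

open MvPolynomial MPadcGP MPadcDC

universe u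

private theorem TkSec_fam {n : ℕ} {E : Finset (Fin n) → Type u} [∀ C, Zero (E C)] (g : ∀ l, E {l}) :
    ∃ G : ∀ C, E C, (∀ l, G {l} = g l) ∧ ∀ C, C.card ≠ 1 → G C = 0 := by
  have key : ∀ C : Finset (Fin n), ∃ z : E C, (∀ l (h : {l} = C), z = h ▸ g l) ∧ (C.card ≠ 1 → z = 0) := by
    intro C
    by_cases hC : ∃ l, {l} = C
    · obtain ⟨l, rfl⟩ := hC
      refine ⟨g l, fun l' h => ?_, fun h => absurd (Finset.card_singleton l) h⟩
      have h1 := Finset.singleton_injective h
      subst h1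
      rfl
    · exact ⟨0, fun l h => absurd ⟨l, h⟩ hC, fun _ => rfl⟩
  choose G hG1 hG2 using key
  exact ⟨G, fun l => hG1 {l} l rfl, hG2⟩

private theorem TkSec_ev {n : ℕ} (M : TS.{u} n) (H : ∀ C, M.E C) {K K' J : Finset (Fin n)} (e : K = K') (h : K ⊆ J)
    (h' : K' ⊆ J) : M.r h (H K) = M.r h' (H K') := by
  subst e
  rfl

private theorem TkSec_pair {n : ℕ} (M : TS.{u} n) (H : ∀ C, M.E C) {l l' : Fin n} (h : l ≠ l') :
    ∃ ε : ℤ, ε * ε = 1 ∧ M.del H {l, l'} = ε • (M.r (p1l l l') (H {l}) - M.r (p2l l l') (H {l'})) := by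
  have hl : l ∉ ({l'} : Finset (Fin n)) := fun h1 => h (Finset.mem_singleton.1 h1)
  have e1 : ({l, l'} : Finset (Fin n)).erase l = {l'} := Finset.erase_insert hl
  have e2 : ({l, l'} : Finset (Fin n)).erase l' = {l} := by
    rw [Finset.pair_comm]
    exact Finset.erase_insert fun h1 => h (Finset.mem_singleton.1 h1).symm
  have hs := sg_sg (i := l) (j := l') (J := {l, l'}) (Finset.mem_insert_self _ _)
    (Finset.mem_insert_of_mem (Finset.mem_singleton_self _)) h
  have o : ∀ k : Fin n, sg k ({k} : Finset (Fin n)) = 1 := by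
    intro k
    unfold sg
    rw [Finset.filter_singleton, if_neg (lt_irrefl k), Finset.card_empty, pow_zero]
  rw [e1, e2, o, o, mul_one, mul_one] at hs
  refine ⟨sg l' {l, l'}, sg_sq _ _, ?_⟩
  have h3 : M.del H {l, l'} = sg l {l, l'} • M.r (p2l l l') (H {l'}) + sg l' {l, l'} • M.r (p1l l l') (H {l}) := by
    unfold TS.del
    rw [Finset.sum_insert hl, Finset.sum_singleton, TkSec_ev M H e1 _ (p2l l l'), TkSec_ev M H e2 _ (p1l l l')]
  have h4 : sg l {l, l'} = - sg l' {l, l'} := eq_neg_of_add_eq_zero_left hs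
  rw [h3, h4, neg_smul, smul_sub]
  abel

private theorem TkSec_s0 {R : Type u} [CommRing R] (e : ℤ) : e • (0 : R) = 0 := smul_zero e

private theorem TkSec_ss {R : Type u} [CommRing R] (e : ℤ) (x y : R) : e • (x - y) = e • x - e • y := smul_sub e x y

private theorem TkSec_zero {M : Type u} [AddCommGroup M] {ε : ℤ} (h : ε * ε = 1) {x : M} (hx : ε • x = 0) : x = 0 := by
  have h1 : (ε * ε) • x = 0 := by rw [mul_smul, hx, smul_zero]
  rwa [h, one_smul] at h1

section

variable {A : Type u} [CommRing A] {n : ℕ}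

private theorem TkSec_inj {R : Type u} [CommRing R] [Algebra A R] {x y : R} (h : fz A x = fz A y) : x = y :=
  (ExteriorAlgebra.algebraMap_leftInverse (R := R) (Ω[R⁄A])).injective h

private theorem TkSec_fd {R : Type u} [CommRing R] [Algebra A R] {x : Fm A R} (h : x ∈ Fd A R 0) :
    ∃ y, fz A y = x := by
  refine fd_ind (P := fun x => ∃ y, fz A y = x) ⟨0, map_zero _⟩ ?_ ?_ h
  · intro r t
    exact ⟨r, by rw [wd_zero, mul_one]⟩
  · rintro a b ⟨a', ha⟩ ⟨b', hb⟩
    exact ⟨a' + b', by rw [map_add, ha, hb]⟩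

/-- The system of functions. -/
private noncomputable def TkSec_F (I : Ideal (MvPolynomial (Fin n) A)) : TS.{u} n where
  E J := chart I J
  r h := ((tr I h : chart I _ →ₐ[A] chart I _) : chart I _ →+* chart I _).toAddMonoidHom
  r_r h h' _ x := tr_tr I h h' x

private theorem TkSec_F_r (I : Ideal (MvPolynomial (Fin n) A)) {J K : Finset (Fin n)} (h : J ⊆ K) (x : chart I J) :
    (TkSec_F I).r h x = tr I h x := rfl

private theorem TkSec_F_del (I : Ideal (MvPolynomial (Fin n) A)) (H : ∀ C, chart I C) (J : Finset (Fin n)) :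
    (TkSec_F I).del H J = ∑ j ∈ J, sg j J • tr I (Finset.erase_subset j J) (H (J.erase j)) := rfl

variable {I I' : Ideal (MvPolynomial (Fin n) A)}

/-- The form. -/
private def TkSec_v (hle : I ≤ I') {J : Finset (Fin n)} (x : (kT hle 0 0).E J) : Fm A (chart I J) :=
  Subtype.val (p := (· ∈ kF hle 0 J)) x

private theorem TkSec_v_zero (hle : I ≤ I') {J : Finset (Fin n)} : TkSec_v hle (0 : (kT hle 0 0).E J) = 0 := rfl

private theorem TkSec_v_sum (hle : I ≤ I') {J : Finset (Fin n)} (s : Finset (Fin n)) (e : Fin n → ℤ)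
    (x : Fin n → ↥(kF hle 0 J)) : TkSec_v hle (∑ j ∈ s, e j • x j : ↥(kF hle 0 J)) = ∑ j ∈ s, e j • (x j).1 := by
  have h1 := map_sum (kF hle 0 J).subtype (fun j => e j • x j) s
  refine h1.trans (Finset.sum_congr rfl fun j _ => ?_)
  exact map_zsmul (kF hle 0 J).subtype _ _

private theorem TkSec_v_inj (hle : I ≤ I') {J : Finset (Fin n)} {x y : (kT hle 0 0).E J}
    (h : TkSec_v hle x = TkSec_v hle y) : x = y := Subtype.ext h

private theorem TkSec_v_mem (hle : I ≤ I') {J : Finset (Fin n)} (x : (kT hle 0 0).E J) :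
    TkSec_v hle x ∈ Fd A (chart I J) 0 ∧ rsx hle J (TkSec_v hle x) = 0 := Subtype.property (p := (· ∈ kF hle 0 J)) x

private theorem TkSec_v_ex (hle : I ≤ I') {J : Finset (Fin n)} {y : chart I J} (h : hx hle J y = 0) :
    ∃ x : (kT hle 0 0).E J, TkSec_v hle x = fz A y :=
  ⟨⟨fz A y, ⟨fz_mem _, by rw [rsx_fz, h, map_zero]⟩⟩, rfl⟩

private theorem TkSec_v_r (hle : I ≤ I') {J K : Finset (Fin n)} (h : J ⊆ K) (x : (kT hle 0 0).E J) (y : chart I J)
    (hxy : TkSec_v hle x = fz A y) : TkSec_v hle ((kT hle 0 0).r h x) = fz A (tr I h y) := by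
  have h1 : TkSec_v hle ((kT hle 0 0).r h x) = fz A (tau I 0 h) * rsc I h (TkSec_v hle x) := rfl
  rw [h1, tau_zero, map_one, one_mul, hxy, rsc_fz]

private theorem TkSec_v_del (hle : I ≤ I') (x : ∀ J, (kT hle 0 0).E J) (y : ∀ J, chart I J)
    (hxy : ∀ J, TkSec_v hle (x J) = fz A (y J)) (J : Finset (Fin n)) :
    TkSec_v hle ((kT hle 0 0).del x J) =
      fz A (∑ j ∈ J, sg j J • tr I (Finset.erase_subset j J) (y (J.erase j))) := by
  have h2 : TkSec_v hle ((kT hle 0 0).del x J) = ∑ j ∈ J, sg j J • TkSec_v hle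
      ((kT hle 0 0).r (Finset.erase_subset j J) (x (J.erase j))) :=
    TkSec_v_sum hle J (fun j => sg j J) (fun j => (kT hle 0 0).r (Finset.erase_subset j J) (x (J.erase j)))
  rw [h2, map_sum]
  refine Finset.sum_congr rfl fun j _ => ?_
  rw [TkSec_v_r hle _ _ _ (hxy _), map_zsmul]

private theorem TkSec_dpair (H : ∀ C, chart I C) {l l' : Fin n} (h : l ≠ l') :
    ∃ ε : ℤ, ε * ε = 1 ∧ ∑ j ∈ ({l, l'} : Finset (Fin n)), sg j {l, l'} • tr I (Finset.erase_subset j {l, l'})
      (H (({l, l'} : Finset (Fin n)).erase j)) = ε • (tr I (p1l l l') (H {l}) - tr I (p2l l l') (H {l'})) :=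
  TkSec_pair (TkSec_F I) H h

private theorem TkSec_cd (H : ∀ C, chart I C) (h : ∀ C : Finset (Fin n), C.card ≠ 1 → H C = 0) {J : Finset (Fin n)}
    (hJ : J.card ≠ 2) : ∑ j ∈ J, sg j J • tr I (Finset.erase_subset j J) (H (J.erase j)) = 0 := by
  refine Finset.sum_eq_zero fun j hj => ?_
  have h3 : (J.erase j).card ≠ 1 := by
    intro h2
    exact hJ (by rw [← Finset.card_erase_add_one hj, h2])
  rw [h _ h3, map_zero]
  exact TkSec_s0 _

private theorem TkSec_dd (H : ∀ C, chart I C) (h : H ∅ = 0) (J : Finset (Fin n)) :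
    ∑ j ∈ J, sg j J • tr I (Finset.erase_subset j J)
      (∑ i ∈ J.erase j, sg i (J.erase j) • tr I (Finset.erase_subset i (J.erase j)) (H ((J.erase j).erase i))) = 0 :=
  congrFun (TS.del_del (TkSec_F I) H h) J

end

theorem h0_sec {A : Type u} [CommRing A] {n : ℕ} {I S : Ideal (MvPolynomial (Fin n) A)} {F : MvPolynomial (Fin n) A}
    (hs : IsSec I F S) (hk : (kT hs.le 0 0).Acy 1) (hY : H0 I) : H0 S := by
  intro f hf
  choose g hg using fun l => hx_surj hs.le {l} (f l)
  obtain ⟨G, hG1, hG2⟩ := TkSec_fam (E := fun C => chart I C) g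
  have hG0 : G ∅ = 0 := hG2 ∅ (by rw [Finset.card_empty]; exact zero_ne_one)
  obtain ⟨D, hDC⟩ : ∃ D : ∀ J, chart I J, ∀ J, D J = ∑ j ∈ J, sg j J • tr I (Finset.erase_subset j J)
    (G (J.erase j)) := ⟨fun J => ∑ j ∈ J, sg j J • tr I (Finset.erase_subset j J) (G (J.erase j)), fun J => rfl⟩
  have hDd : ∀ J, ∑ j ∈ J, sg j J • tr I (Finset.erase_subset j J) (D (J.erase j)) = 0 := by
    intro J
    have h1 := TkSec_dd G hG0 J
    refine Eq.trans ?_ h1
    refine Finset.sum_congr rfl fun j _ => ?_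
    rw [hDC]
  have hD2 : ∀ J, J.card ≠ 2 → D J = 0 := fun J hJ => by
    rw [hDC]
    exact TkSec_cd G hG2 hJ
  have hxD : ∀ C, hx hs.le C (D C) = 0 := by
    intro C
    by_cases hC : C.card = 2
    · obtain ⟨l, l', hll, rfl⟩ := Finset.card_eq_two.1 hC
      obtain ⟨ε, -, hε⟩ := TkSec_dpair G hll
      rw [hDC, hε, hG1, hG1, map_zsmul, map_sub, hx_tr, hx_tr, hg, hg, hf l l', sub_self]
      exact TkSec_s0 ε
    · rw [hD2 C hC, map_zero]
  -- the cochain of the system of the functions which vanish on the section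
  choose c hcv using fun J => TkSec_v_ex hs.le (hxD J)
  have hcd : (kT hs.le 0 0).Cd 2 c := by
    refine ⟨?_, fun J hJ => ?_⟩
    · refine TkSec_v_inj hs.le ?_
      rw [hcv, TkSec_v_zero, hD2 ∅ (by rw [Finset.card_empty]; norm_num), map_zero]
    · refine TkSec_v_inj hs.le ?_
      rw [hcv, TkSec_v_zero, hD2 J hJ, map_zero]
  have hc0 : (kT hs.le 0 0).del c = 0 := by
    funext J
    refine TkSec_v_inj hs.le ?_
    rw [TkSec_v_del hs.le c D hcv J, hDd, map_zero, Pi.zero_apply, TkSec_v_zero]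
  obtain ⟨c', -, hc'⟩ := hk c hcd hc0
  choose y hy using fun J => TkSec_fd (TkSec_v_mem hs.le (c' J)).1
  have hyx : ∀ J, hx hs.le J (y J) = 0 := by
    intro J
    have h1 := (TkSec_v_mem hs.le (c' J)).2
    rw [← hy J, rsx_fz] at h1
    refine TkSec_inj (A := A) ?_
    rw [h1, map_zero]
  have hyD : ∀ J, ∑ j ∈ J, sg j J • tr I (Finset.erase_subset j J) (y (J.erase j)) = D J := by
    intro J
    refine TkSec_inj (A := A) ?_
    have h1 := TkSec_v_del hs.le c' y (fun J => (hy J).symm) J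
    rw [hc'] at h1
    exact h1.symm.trans (hcv J)
  have hcomp : ∀ l l' : Fin n, tr I (p1l l l') (g l - y {l}) = tr I (p2l l l') (g l' - y {l'}) := by
    intro l l'
    by_cases hll : l = l'
    · subst hll
      rfl
    · obtain ⟨ε, h1, hε⟩ := TkSec_dpair (fun C => G C - y C) hll
      have h2 : ∑ j ∈ ({l, l'} : Finset (Fin n)), sg j {l, l'} • tr I (Finset.erase_subset j {l, l'})
          (G (({l, l'} : Finset (Fin n)).erase j) - y (({l, l'} : Finset (Fin n)).erase j)) = 0 := by
        have h3 := (hyD {l, l'}).trans (hDC {l, l'})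
        have h4 : ∀ j ∈ ({l, l'} : Finset (Fin n)), sg j {l, l'} • tr I (Finset.erase_subset j {l, l'})
            (G (({l, l'} : Finset (Fin n)).erase j) - y (({l, l'} : Finset (Fin n)).erase j)) =
            sg j {l, l'} • tr I (Finset.erase_subset j {l, l'}) (G (({l, l'} : Finset (Fin n)).erase j)) -
            sg j {l, l'} • tr I (Finset.erase_subset j {l, l'}) (y (({l, l'} : Finset (Fin n)).erase j)) := by
          intro j _
          rw [map_sub]
          exact TkSec_ss _ _ _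
        rw [Finset.sum_congr rfl h4, Finset.sum_sub_distrib, h3, sub_self]
      have h5 := TkSec_zero h1 (hε.symm.trans h2)
      rw [hG1, hG1, sub_eq_zero] at h5
      exact h5
  obtain ⟨a, ha⟩ := hY (fun l => g l - y {l}) hcomp
  refine ⟨a, fun l => ?_⟩
  have h1 := congrArg (hx hs.le {l}) (ha l)
  rw [map_sub, hg, hyx, sub_zero, hx_base] at h1
  exact h1

end MPadcHS
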