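import Pool.Agent.Lib.MP_adc574_ag_HS.TSg
import Pool.Agent.Lib.MP_adc574_ag_HS.NAkn
import Pool.Agent.Lib.MP_adc574_ag_HS.NSeqB
import Pool.Agent.Lib.MP_adc574_ag_HS.TkBc
import Pool.Agent.Lib.MP_adc574_ag_HS.TkSec
import Pool.Agent.Lib.MP_adc574_ag_HS.TkFr
import Pool.Agent.Lib.MP_adc574_ag_HS.TkPr
import Pool.Agent.Lib.MP_adc574_ag_DC.WGeD

/-!
# HS: the generic hyperplane section of an integral smooth projective scheme of dimension `≥ 2` over an algebraically closed
field is geometrically integral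

JOB TkGe: `geo_of_good`: `ne` gives `l` with `X l ∉ J`; if `algebraMap κ (chart J {l})` is surjective then `Ω[chart⁄κ] = 0` (`Subsingleton`: every `D x = D (algebraMap a) = 0`, `KaehlerDifferential.span_range_derivation`), so `Module.finrank .. = 0 ≠ m + 1` (`h.rank l hl`).
-/

set_option autoImplicit false
set_option linter.unusedSectionVars false

namespace MPadcHS

open MvPolynomial MPadcGP MPadcDC

universe u

theorem geo_of_good {κ : Type u} [Field κ] {n : ℕ} {J : Ideal (MvPolynomial (Fin n) κ)} {m : ℕ} (h : Good J (m + 1)) :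
    Geo J := by
  obtain ⟨l, hl⟩ := h.ne
  refine ⟨h.homog, h.prime, h.smooth, l, hl, fun hs => ?_⟩
  have h1 : Subsingleton (Ω[chart J {l}⁄κ]) := by
    have h2 : Submodule.span (chart J {l}) (Set.range (KaehlerDifferential.D κ (chart J {l}))) = ⊤ :=
      KaehlerDifferential.span_range_derivation κ (chart J {l})
    have h3 : Set.range (KaehlerDifferential.D κ (chart J {l})) ⊆ {0} := by
      rintro _ ⟨x, rfl⟩
      obtain ⟨a, rfl⟩ := hs x
      rw [Set.mem_singleton_iff, Derivation.map_algebraMap]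
    have h4 : (⊤ : Submodule (chart J {l}) (Ω[chart J {l}⁄κ])) = ⊥ := by
      rw [← h2, eq_bot_iff]
      exact Submodule.span_le.2 fun x hx => h3 hx
    exact (Submodule.subsingleton_iff _).1 (subsingleton_of_bot_eq_top h4.symm)
  have h5 := h.rank l hl
  have h6 : IsDomain (chart J {l}) := chart_domain h.prime hl
  rw [Module.finrank_zero_of_subsingleton] at h5
  exact absurd h5 (Nat.succ_ne_zero m).symm

theorem h0_gen {κ : Type u} [Field κ] [IsAlgClosed κ] [CharZero κ] {n : ℕ} {J : Ideal (MvPolynomial (Fin n) κ)} {m : ℕ}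
    (hJ : Good J (m + 2)) {K : Type u} [Field K] [Algebra κ K] [Algebra (Ra κ n 1) K] [IsScalarTower κ (Ra κ n 1) K]
    [IsFractionRing (Ra κ n 1) K] : H0 (sec (bI (algebraMap κ K) J) (frm (ak κ n 1 K))) := by
  haveI : CharZero K := charZero_of_injective_algebraMap (algebraMap κ K).injective
  have hs := isSec_sec (bI (algebraMap κ K) J) (frm (ak κ n 1 K))
  have hI : IsHomog (bI (algebraMap κ K) J) := hJ.homog.map _
  have hK : Good (bI (algebraMap κ K) J) (m + 2) := good_K (e := 1) hJ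
  have hD : Dv (bI (algebraMap κ K) J) (frm (ak κ n 1 K)) := dv_gen hJ le_rfl ak_indep
  have h1 : (cT (bI (algebraMap κ K) J) (-1) 0).Acy 1 := akn_neg hK (by omega)
  have h2 : (kT hs.le 0 0).Acy 1 := by
    refine (acy_II_zero hI hK.smooth (isHomogeneous_frm (ak κ n 1 K)) hs hD 0 1).2 ?_
    exact h1
  exact h0_sec hs h2 (h0_bc hJ.homog (h0_closed hJ.homog hJ.prime hJ.ne))

theorem good_sec1 {κ : Type u} [Field κ] [IsAlgClosed κ] [CharZero κ] {n : ℕ} {J : Ideal (MvPolynomial (Fin n) κ)}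
    {m : ℕ} (hJ : Good J (m + 2)) {K : Type u} [Field K] [Algebra κ K] {a : Mon n 1 → K}
    (ha : AlgebraicIndependent κ a) : Good (sec (bI (algebraMap κ K) J) (frm a)) (m + 1) := by
  obtain ⟨K₀, _, _, _⟩ : ∃ (K₀ : Type u) (_ : Field K₀) (_ : Algebra (Ra κ n 1) K₀), IsFractionRing (Ra κ n 1) K₀ :=
    ⟨FractionRing (Ra κ n 1), inferInstance, inferInstance, inferInstance⟩
  letI : Algebra κ K₀ := ((algebraMap (Ra κ n 1) K₀).comp (algebraMap κ (Ra κ n 1))).toAlgebra
  haveI : IsScalarTower κ (Ra κ n 1) K₀ := IsScalarTower.of_algebraMap_eq fun _ => rfl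
  haveI : CharZero K₀ := charZero_of_injective_algebraMap (algebraMap κ K₀).injective
  have hinj : Function.Injective (aeval a : Ra κ n 1 →ₐ[κ] K).toRingHom := ha
  obtain ⟨θ, hθ⟩ : ∃ θ : K₀ →+* K, ∀ x, θ (algebraMap (Ra κ n 1) K₀ x) = (aeval a : Ra κ n 1 →ₐ[κ] K) x :=
    ⟨IsFractionRing.lift hinj, fun x => IsFractionRing.lift_algebraMap hinj x⟩
  letI : Algebra K₀ K := θ.toAlgebra
  have hG : Good (sec (bI (algebraMap κ K₀) J) (frm (ak κ n 1 K₀))) (m + 1) := sec_good (m := m + 1) hJ le_rfl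
  haveI : IsDomain (CR (sec (bI (algebraMap κ K₀) J) (frm (ak κ n 1 K₀)))) :=
    (Ideal.Quotient.isDomain_iff_prime _).2 hG.prime
  have hp : (bI (algebraMap K₀ K) (sec (bI (algebraMap κ K₀) J) (frm (ak κ n 1 K₀)))).IsPrime :=
    prime_bI_reg (algebraMap K₀ K) fun x hx => frac_closed hG.homog hG.prime hG.smooth hG.ne (h0_gen hJ) x hx
  have hG' := hG.map hp
  have h1 : bI (algebraMap K₀ K) (sec (bI (algebraMap κ K₀) J) (frm (ak κ n 1 K₀))) =
      sec (bI (algebraMap κ K) J) (frm a) := by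
    rw [sec_bI _ hp hG'.ne, bI_bI, bI_frm]
    congr 2
    · congr 1
      refine RingHom.ext fun c => ?_
      show θ (algebraMap (Ra κ n 1) K₀ (algebraMap κ (Ra κ n 1) c)) = algebraMap κ K c
      rw [hθ]
      exact (aeval a).commutes c
    · funext g
      show θ (algebraMap (Ra κ n 1) K₀ (X g)) = a g
      rw [hθ, aeval_X]
  rw [h1] at hG'
  exact hG'

end MPadcHS
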