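import Pool.Agent.Lib.MP_adc574_ag_GP.Mod4
import Pool.Agent.Lib.MP_adc574_ag_DC.GDefs
import Pool.Agent.Lib.MP_adc574_ag_DC.GDom

/-!
# JOB TkH0 (HS): the global functions of an integral projective scheme over an algebraically closed field are constant

`H0 I`: a family of functions `f l` on the charts `U_l` which agree on the `U_l ∩ U_l'` is a constant.
* `h0_closed`. `S := CR J` is a domain, `E := FractionRing S`. For `X l ∉ J`: `LR J {l} → E` injective (`LR_inj`, `LR_domain`, DC/GDom.lean; `IsLocalization.Away.lift` or `IsLocalization.lift`; the image of `x_l` is not `0`), so `chart J {l} → E`, `cq J {l} k ↦ x_k / x_l`. If `X l`, `X l' ∉ J` then the two maps `chart J {l} → E` and `chart J {l'} → E` factor over `chart J {l, l'} → E` (`LR J {l, l'} → E`; compare on the `cq`: `chart_hom_ext'` or `chart_ind`), so the images of `f l` and `f l'` in `E` are equal; `φ` := this element (choose `l₀` with `X l₀ ∉ J`).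
  1. Every element of `chart J {l}` (`X l ∉ J`) is of the form `p / x_l ^ N`, `p` the class of a homogeneous polynomial of degree `N`: `chart_ind` (GP/Mod.lean): constants (`N = 0`), `cq l k = x_k / x_l`, sums (common `N`), products. With a common `N` for all `l`: `x_l ^ N * φ = class of p_l` in `E`, `p_l` homogeneous of degree `N` (for `X l ∈ J` take `p_l = 0`: `x_l = 0`, and `N ≥ 1`).
  2. `d := n * N + 1` (or `n * N`), `V := ` the `κ`-span in `E` of the classes of the monomials of degree `d`: finite-dimensional (finitely many monomials: `Finset.finsuppAntidiag`, the type `Mon n d`), not `0` as it contains `x_(l₀) ^ d`. `φ V ⊆ V`: for a monomial `g` of degree `d` some `g l ≥ N` (otherwise `d ≤ n (N - 1)`), `x^g = x_l ^ N x^(g')`, `φ x^g = p_l x^(g')`, a combination of monomials of degree `d`.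
  3. The multiplication with `φ` on `V` has an eigenvalue (`Module.End.exists_eigenvalue`, `IsAlgClosed κ`): `φ v = c v`, `v ≠ 0`, so `φ = c`. For `X l ∉ J`: `f l = algebraMap c` as `chart J {l} → E` is injective; for `X l ∈ J` the ring `chart J {l}` is trivial (`X l = 0` is a unit; look for `Subsingleton (chart ..)` in GP/DC, e.g. `x_l ∈ J → chart trivial`).
-/

set_option autoImplicit false
set_option linter.unusedSectionVars false

namespace MPadcHS

open MvPolynomial MPadcGP MPadcDC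

universe u

theorem p1l {n : ℕ} (l l' : Fin n) : ({l} : Finset (Fin n)) ⊆ {l, l'} :=
  Finset.singleton_subset_iff.2 (Finset.mem_insert_self _ _)

theorem p2l {n : ℕ} (l l' : Fin n) : ({l'} : Finset (Fin n)) ⊆ {l, l'} :=
  Finset.singleton_subset_iff.2 (Finset.mem_insert_of_mem (Finset.mem_singleton_self _))

/-- The global functions are constant. -/
def H0 {A : Type u} [CommRing A] {n : ℕ} (I : Ideal (MvPolynomial (Fin n) A)) : Prop :=
  ∀ f : ∀ l : Fin n, chart I {l}, (∀ l l' : Fin n, tr I (p1l l l') (f l) = tr I (p2l l l') (f l')) →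
    ∃ c : A, ∀ l, f l = algebraMap A _ c

section aux

variable {κ : Type u} [Field κ] {n : ℕ} {J : Ideal (MvPolynomial (Fin n) κ)} {E : Type u} [Field E] [Algebra κ E]

private theorem TkH0_ne {ι : CR J →ₐ[κ] E} (hι : Function.Injective ι) {l : Fin n}
    (hl : (X l : MvPolynomial (Fin n) κ) ∉ J) : ι (Ideal.Quotient.mk J (X l)) ≠ 0 := by
  intro h
  have h1 : (Ideal.Quotient.mk J (X l) : CR J) = 0 := hι (h.trans (map_zero ι).symm)
  exact hl (Ideal.Quotient.eq_zero_iff_mem.1 h1)

private theorem TkH0_lam {ι : CR J →ₐ[κ] E} (hι : Function.Injective ι) {C : Finset (Fin n)}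
    (hC : ∀ j ∈ C, (X j : MvPolynomial (Fin n) κ) ∉ J) :
    ∃ lam : LR J C →+* E, ∀ s : CR J, lam (algebraMap (CR J) (LR J C) s) = ι s := by
  have hu : IsUnit ((ι : CR J →+* E) (Ideal.Quotient.mk J (∏ j ∈ C, X j))) := by
    rw [map_prod, map_prod]
    exact isUnit_iff_ne_zero.2 (Finset.prod_ne_zero_iff.2 fun j hj => TkH0_ne hι (hC j hj))
  exact ⟨IsLocalization.Away.lift (Ideal.Quotient.mk J (∏ j ∈ C, X j)) hu,
    fun s => IsLocalization.Away.lift_eq _ hu s⟩

private theorem TkH0_inj {ι : CR J →ₐ[κ] E} (hι : Function.Injective ι) {C : Finset (Fin n)} {lam : LR J C →+* E}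
    (hlam : ∀ s : CR J, lam (algebraMap (CR J) (LR J C) s) = ι s) : Function.Injective lam := by
  rw [injective_iff_map_eq_zero]
  intro x hx
  obtain ⟨⟨t, s⟩, hs⟩ := IsLocalization.surj (Submonoid.powers (Ideal.Quotient.mk J (∏ j ∈ C, X j))) x
  have h1 : x * algebraMap (CR J) (LR J C) s = algebraMap (CR J) (LR J C) t := hs
  have h2 := congrArg lam h1
  rw [map_mul, hx, zero_mul, hlam] at h2
  have h3 : t = 0 := hι (h2.symm.trans (map_zero ι).symm)
  rw [h3, map_zero] at h1
  have h4 : IsUnit (algebraMap (CR J) (LR J C) s) := IsLocalization.map_units (LR J C) s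
  exact h4.mul_left_eq_zero.1 h1

private theorem TkH0_lx {ι : CR J →ₐ[κ] E} {C : Finset (Fin n)} {lam : LR J C →+* E}
    (hlam : ∀ s : CR J, lam (algebraMap (CR J) (LR J C) s) = ι s) (l : Fin n) :
    lam (lx J C l) = ι (Ideal.Quotient.mk J (X l)) := hlam _

private theorem TkH0_C {ι : CR J →ₐ[κ] E} {C : Finset (Fin n)} {lam : LR J C →+* E}
    (hlam : ∀ s : CR J, lam (algebraMap (CR J) (LR J C) s) = ι s) (a : κ) :
    lam ((algebraMap κ (chart J C) a : chart J C) : LR J C) = algebraMap κ E a := by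
  have h1 : ((algebraMap κ (chart J C) a : chart J C) : LR J C) =
      algebraMap (CR J) (LR J C) (algebraMap κ (CR J) a) := rfl
  rw [h1, hlam]
  exact ι.commutes a

private theorem TkH0_cq {ι : CR J →ₐ[κ] E} {C : Finset (Fin n)} {lam : LR J C →+* E}
    (hlam : ∀ s : CR J, lam (algebraMap (CR J) (LR J C) s) = ι s) (l : Fin n) {j : Fin n} (hj : j ∈ C) :
    lam (cq J C l hj : LR J C) * ι (Ideal.Quotient.mk J (X j)) = ι (Ideal.Quotient.mk J (X l)) := by
  rw [← TkH0_lx hlam, ← TkH0_lx hlam, ← map_mul, cq_mul_lx]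

private theorem TkH0_tr {ι : CR J →ₐ[κ] E} (hι : Function.Injective ι) {C C' : Finset (Fin n)} (h : C ⊆ C')
    (hC : ∀ j ∈ C, (X j : MvPolynomial (Fin n) κ) ∉ J) {lam : LR J C →+* E} {lam' : LR J C' →+* E}
    (hlam : ∀ s : CR J, lam (algebraMap (CR J) (LR J C) s) = ι s)
    (hlam' : ∀ s : CR J, lam' (algebraMap (CR J) (LR J C') s) = ι s) (x : chart J C) :
    lam' (tr J h x : LR J C') = lam (x : LR J C) := by
  induction x using chart_ind with
  | h1 a =>
    rw [AlgHom.commutes, TkH0_C hlam', TkH0_C hlam]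
  | h2 l m hm =>
    rw [tr_cq]
    refine mul_right_cancel₀ (TkH0_ne hι (hC m hm)) ?_
    rw [TkH0_cq hlam', TkH0_cq hlam]
  | h3 x y hx hy =>
    rw [map_add, Subalgebra.coe_add, Subalgebra.coe_add, map_add, map_add, hx, hy]
  | h4 x y hx hy =>
    rw [map_mul, Subalgebra.coe_mul, Subalgebra.coe_mul, map_mul, map_mul, hx, hy]

private theorem TkH0_hom {ι : CR J →ₐ[κ] E} {l : Fin n}
    {lam : LR J {l} →+* E} (hlam : ∀ s : CR J, lam (algebraMap (CR J) (LR J {l}) s) = ι s) (y : chart J {l}) :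
    ∃ (N : ℕ) (p : MvPolynomial (Fin n) κ), p.IsHomogeneous N ∧
      ι (Ideal.Quotient.mk J (X l)) ^ N * lam (y : LR J {l}) = ι (Ideal.Quotient.mk J p) := by
  induction y using chart_ind with
  | h1 a =>
    refine ⟨0, C a, isHomogeneous_C _ a, ?_⟩
    rw [pow_zero, one_mul, TkH0_C hlam]
    exact (ι.commutes a).symm
  | h2 k m hm =>
    obtain rfl := Finset.mem_singleton.1 hm
    refine ⟨1, X k, isHomogeneous_X κ k, ?_⟩
    rw [pow_one, mul_comm, TkH0_cq hlam]
  | h3 x y hx hy =>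
    obtain ⟨N1, p1, h1, h1'⟩ := hx
    obtain ⟨N2, p2, h2, h2'⟩ := hy
    refine ⟨N1 + N2, X l ^ N2 * p1 + X l ^ N1 * p2, ?_, ?_⟩
    · refine IsHomogeneous.add ?_ ?_
      · have h3 := (isHomogeneous_X_pow (R := κ) l N2).mul h1
        rw [Nat.add_comm] at h3
        exact h3
      · exact (isHomogeneous_X_pow (R := κ) l N1).mul h2
    · rw [Subalgebra.coe_add, map_add, map_add, map_mul, map_mul, map_pow, map_pow, map_add, map_mul, map_mul, map_pow,
        map_pow, ← h1', ← h2']
      ring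
  | h4 x y hx hy =>
    obtain ⟨N1, p1, h1, h1'⟩ := hx
    obtain ⟨N2, p2, h2, h2'⟩ := hy
    refine ⟨N1 + N2, p1 * p2, h1.mul h2, ?_⟩
    rw [Subalgebra.coe_mul, map_mul, map_mul, map_mul, ← h1', ← h2']
    ring

private theorem TkH0_main [IsAlgClosed κ] {ι : CR J →ₐ[κ] E} (hι : Function.Injective ι)
    (hn : ∃ l, (X l : MvPolynomial (Fin n) κ) ∉ J) (φ : E)
    (H : ∀ l, (X l : MvPolynomial (Fin n) κ) ∉ J → ∃ (N : ℕ) (p : MvPolynomial (Fin n) κ), p.IsHomogeneous N ∧
      ι (Ideal.Quotient.mk J (X l)) ^ N * φ = ι (Ideal.Quotient.mk J p)) : ∃ c : κ, φ = algebraMap κ E c := by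
  classical
  obtain ⟨L, hL⟩ : ∃ L : MvPolynomial (Fin n) κ →ₐ[κ] E, ∀ p, L p = ι (Ideal.Quotient.mk J p) :=
    ⟨ι.comp (Ideal.Quotient.mkₐ κ J), fun p => rfl⟩
  have H' : ∀ l, ∃ N : ℕ, ∀ N', N ≤ N' → ∃ p : MvPolynomial (Fin n) κ, p.IsHomogeneous N' ∧ L (X l) ^ N' * φ = L p := by
    intro l
    by_cases hl : (X l : MvPolynomial (Fin n) κ) ∈ J
    · refine ⟨1, fun N' hN' => ⟨0, isHomogeneous_zero _ _ _, ?_⟩⟩
      rw [hL (X l), Ideal.Quotient.eq_zero_iff_mem.2 hl, map_zero, zero_pow (by omega), zero_mul, map_zero]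
    · obtain ⟨N, p, hp, hp'⟩ := H l hl
      refine ⟨N, fun N' hN' => ⟨X l ^ (N' - N) * p, ?_, ?_⟩⟩
      · have h3 := (isHomogeneous_X_pow (R := κ) l (N' - N)).mul hp
        rw [Nat.sub_add_cancel hN'] at h3
        exact h3
      · rw [map_mul, map_pow, hL p, ← hp', ← hL, ← mul_assoc, ← pow_add, Nat.sub_add_cancel hN']
  choose Nf hNf using H'
  obtain ⟨N, hN1, hN⟩ : ∃ N : ℕ, 1 ≤ N ∧ ∀ l, Nf l ≤ N := by
    refine ⟨∑ l, Nf l + 1, by omega, fun l => ?_⟩
    have h1 : Nf l ≤ ∑ l, Nf l := Finset.single_le_sum (f := Nf) (fun _ _ => Nat.zero_le _) (Finset.mem_univ l)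
    omega
  choose p hp hpφ using fun l => hNf l N (hN l)
  obtain ⟨l₀, hl₀⟩ := hn
  have hn0 : 0 < n := Fin.pos l₀
  obtain ⟨V, hV⟩ : ∃ V : Submodule κ E, V = Submodule.span κ (Set.range fun g : Mon n (n * N) => L (monomial g.1 1)) :=
    ⟨_, rfl⟩
  have hmem : ∀ q : MvPolynomial (Fin n) κ, q.IsHomogeneous (n * N) → L q ∈ V := by
    intro q hq
    rw [← support_sum_monomial_coeff q, map_sum]
    refine Submodule.sum_mem _ fun g hg => ?_
    have h5 := hq (mem_support_iff.1 hg)
    rw [Finsupp.weight_apply, Finsupp.sum_fintype _ _ (fun _ => by simp)] at h5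
    have h6 : ∑ l, g l = n * N := by simpa using h5
    have h7 : g ∈ (Finset.univ : Finset (Fin n)).finsuppAntidiag (n * N) :=
      Finset.mem_finsuppAntidiag.2 ⟨h6, Finset.subset_univ _⟩
    have h8 : (monomial g (coeff g q) : MvPolynomial (Fin n) κ) = coeff g q • monomial g 1 := by
      rw [smul_monomial, smul_eq_mul, mul_one]
    rw [h8, map_smul, hV]
    exact Submodule.smul_mem _ _ (Submodule.subset_span ⟨⟨g, h7⟩, rfl⟩)
  have hφV : ∀ v ∈ V, φ * v ∈ V := by
    intro v hv
    rw [hV] at hv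
    induction hv using Submodule.span_induction with
    | mem v hv =>
      obtain ⟨g, rfl⟩ := hv
      have hg : ∑ l, g.1 l = n * N := (Finset.mem_finsuppAntidiag.1 g.2).1
      obtain ⟨l, hl⟩ : ∃ l, N ≤ g.1 l := by
        by_contra hne
        push Not at hne
        have h1 : ∑ l, g.1 l < ∑ _l : Fin n, N :=
          Finset.sum_lt_sum_of_nonempty ⟨l₀, Finset.mem_univ _⟩ fun l _ => hne l
        rw [Finset.sum_const, Finset.card_univ, Fintype.card_fin, smul_eq_mul, hg] at h1
        exact lt_irrefl _ h1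
      have h1 : Finsupp.single l N + (g.1 - Finsupp.single l N) = g.1 := by
        refine add_tsub_cancel_of_le ?_
        rw [Finsupp.single_le_iff]
        exact hl
      have h2 : (monomial g.1 1 : MvPolynomial (Fin n) κ) = X l ^ N * monomial (g.1 - Finsupp.single l N) 1 := by
        rw [X_pow_eq_monomial, monomial_mul, one_mul, h1]
      have h3 : φ * L (monomial g.1 1) = L (p l * monomial (g.1 - Finsupp.single l N) 1) := by
        rw [h2, map_mul, map_mul, map_pow, ← hpφ l]
        ring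
      change φ * L (monomial g.1 1) ∈ V
      rw [h3]
      refine hmem _ ?_
      have h4 : (monomial (g.1 - Finsupp.single l N) (1 : κ)).IsHomogeneous (n * N - N) := by
        refine isHomogeneous_monomial _ ?_
        rw [Finsupp.degree_eq_sum]
        have h5 := congrArg (fun f : Fin n →₀ ℕ => ∑ k, f k) h1
        have h6 : ∑ k, (Finsupp.single l N + (g.1 - Finsupp.single l N)) k =
            ∑ k, Finsupp.single l N k + ∑ k, (g.1 - Finsupp.single l N) k := by
          rw [← Finset.sum_add_distrib]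
          rfl
        have h7 : ∑ k, (Finsupp.single l N : Fin n →₀ ℕ) k = N := by
          rw [← Finsupp.degree_eq_sum, Finsupp.degree_single]
        have h8 : ∑ k, (Finsupp.single l N + (g.1 - Finsupp.single l N)) k = n * N := h5.trans hg
        rw [h6, h7] at h8
        omega
      have h5 := (hp l).mul h4
      have h6 : N ≤ n * N := Nat.le_mul_of_pos_left N hn0
      rw [Nat.add_sub_cancel' h6] at h5
      exact h5
    | zero => rw [mul_zero]; exact Submodule.zero_mem _
    | add x y _ _ hx hy => rw [mul_add]; exact Submodule.add_mem _ hx hy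
    | smul a x _ hx => rw [mul_smul_comm]; exact Submodule.smul_mem _ _ hx
  have hfin : FiniteDimensional κ V := by
    rw [hV]
    exact FiniteDimensional.span_of_finite κ (Set.finite_range _)
  have hne : L (X l₀ ^ (n * N)) ≠ 0 := by
    rw [map_pow, hL]
    exact pow_ne_zero _ (TkH0_ne hι hl₀)
  have hnt : Nontrivial V := by
    refine ⟨⟨⟨L (X l₀ ^ (n * N)), hmem _ (isHomogeneous_X_pow (R := κ) l₀ (n * N))⟩, 0, fun h => hne ?_⟩⟩
    exact congrArg Subtype.val h
  obtain ⟨c, hc⟩ := Module.End.exists_eigenvalue ((LinearMap.mulLeft κ φ).restrict hφV : Module.End κ V)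
  obtain ⟨v, hv⟩ := hc.exists_hasEigenvector
  have h1 := hv.apply_eq_smul
  have h2 : φ * (v : E) = c • (v : E) := congrArg Subtype.val h1
  have h3 : (v : E) ≠ 0 := fun h => hv.2 (Subtype.ext h)
  refine ⟨c, mul_right_cancel₀ h3 ?_⟩
  rw [h2, Algebra.smul_def]

end aux

theorem h0_closed {κ : Type u} [Field κ] [IsAlgClosed κ] {n : ℕ} {J : Ideal (MvPolynomial (Fin n) κ)} (hJ : IsHomog J)
    (hp : J.IsPrime) (hn : ∃ l, (X l : MvPolynomial (Fin n) κ) ∉ J) : H0 J := by
  have hdom : IsDomain (CR J) := Ideal.Quotient.isDomain J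
  intro f hf
  obtain ⟨ι, hι⟩ : ∃ ι : CR J →ₐ[κ] FractionRing (CR J), Function.Injective ι :=
    ⟨IsScalarTower.toAlgHom κ (CR J) (FractionRing (CR J)), IsFractionRing.injective (CR J) (FractionRing (CR J))⟩
  have hs : ∀ l : Fin n, (X l : MvPolynomial (Fin n) κ) ∉ J → ∀ j ∈ ({l} : Finset (Fin n)),
      (X j : MvPolynomial (Fin n) κ) ∉ J := by
    intro l hl j hj
    rw [Finset.mem_singleton.1 hj]
    exact hl
  choose lam hlam using fun (l : Fin n) (hl : (X l : MvPolynomial (Fin n) κ) ∉ J) => TkH0_lam hι (hs l hl)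
  have hn' := hn
  obtain ⟨l₀, hl₀⟩ := hn
  have hφ : ∀ l hl, lam l hl (f l : LR J {l}) = lam l₀ hl₀ (f l₀ : LR J {l₀}) := by
    intro l hl
    have h2 : ∀ j ∈ ({l₀, l} : Finset (Fin n)), (X j : MvPolynomial (Fin n) κ) ∉ J := by
      intro j hj
      rcases Finset.mem_insert.1 hj with h | h
      · rw [h]
        exact hl₀
      · rw [Finset.mem_singleton.1 h]
        exact hl
    obtain ⟨lam', hlam'⟩ := TkH0_lam hι h2
    rw [← TkH0_tr hι (p2l l₀ l) (hs l hl) (hlam l hl) hlam' (f l),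
      ← TkH0_tr hι (p1l l₀ l) (hs l₀ hl₀) (hlam l₀ hl₀) hlam' (f l₀), hf l₀ l]
  obtain ⟨c, hc⟩ := TkH0_main hι hn' (lam l₀ hl₀ (f l₀ : LR J {l₀})) fun l hl => by
    obtain ⟨N, p, h1, h2⟩ := TkH0_hom (hlam l hl) (f l)
    rw [hφ l hl] at h2
    exact ⟨N, p, h1, h2⟩
  refine ⟨c, fun l => ?_⟩
  by_cases hl : (X l : MvPolynomial (Fin n) κ) ∈ J
  · have h1 : lx J {l} l = 0 := by
      unfold lx
      rw [Ideal.Quotient.eq_zero_iff_mem.2 hl, map_zero]
    have h2 : IsUnit (0 : LR J {l}) := h1 ▸ lx_isUnit J {l} (Finset.mem_singleton_self l)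
    have h3 : Subsingleton (LR J {l}) := subsingleton_of_zero_eq_one (isUnit_zero_iff.1 h2)
    exact Subtype.ext (Subsingleton.elim _ _)
  · refine Subtype.ext (TkH0_inj hι (hlam l hl) ?_)
    rw [hφ l hl, hc, TkH0_C (hlam l hl)]

end MPadcHS
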