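import Pool.Agent.Lib.MP_adc574_ag_HS.StG
import Pool.Agent.Lib.MP_adc574_ag_HS.LaA

/-!
# JOB UlA (HS, Part P): the degrees `m ≠ d`

* `dgn_finite`: `CovD.Hmz_finite hD.fin m` (GP/Deg.lean) and the equivalence `CovD.brdE` (GP/CarBr.lean). `dgn_dim`: as `CovD.dim_of_carP` (GP/CarBr.lean; its hypothesis `hsum` differs from `hD.sum`, so repeat its two lines: `brd_Con`, `brd_Fil`, `CovD.finrank_add hD.fin hD.sum p b hD.car i m`).
* `opp_off`: `m < d`: `r` from `exists_rH` (GyK), surjective by `ha.rsurj`; `la_low` (LaA) with `P := Con m i`, `F := Fil m (i + 1)` on both sides (`resR_Con`, `resR_Fil`, `dgn_dim` for `X`, `Y`, `hY m i`).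
  `d < m`: `g` from `exists_gy`, injective by `ha.ginj`; `la_high` with `PZ := (prC Q).Con (m + 2) (i + 1)`, `FZ := (prC Q).Fil (m + 2) (i + 2)` (`gys_Con` (StG), `gys_Fil` (GyK), `hY (m + 2) (i + 1)`).
-/

set_option autoImplicit false

namespace MPadcHS

open MvPolynomial MPadcGP MPadcDC Module

universe u v w

section

variable {p : ℕ} [Fact p.Prime] {κ : Type u} [Field κ] [CharP κ p] {Λ : Type} [Fintype Λ] {b : Λ → κ}

theorem dgn_finite {N : ℕ} {X : CovD.{u, v} κ N} (hD : Dgn p b X) (m : ℕ) : FiniteDimensional κ (X.HdR m) := by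
  have h1 : FiniteDimensional κ (X.Hmz m) := CovD.Hmz_finite hD.fin m
  exact Module.Finite.equiv (CovD.brdE X m)

theorem dgn_dim {N : ℕ} {X : CovD.{u, v} κ N} (hD : Dgn p b X) (m i : ℕ) :
    finrank κ (X.Con m i) + finrank κ (X.Fil m (i + 1)) = finrank κ (X.HdR m) := by
  rw [← CovD.brd_Con, ← CovD.brd_Fil, LinearEquiv.finrank_map_eq, LinearEquiv.finrank_map_eq,
    ← (CovD.brdE X m).finrank_eq]
  exact CovD.finrank_add hD.fin hD.sum p b hD.car i m

variable {n : ℕ} {Q P : Ideal (MvPolynomial (Fin (n + 1)) κ)}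

theorem opp_off (h : Gd Q P) (hle : Q ≤ P) (hDX : Dgn p b (prC P)) (hDY : Dgn p b (prC Q)) {d : ℕ} (ha : Akn hle d)
    (hY : IsOppC (prC Q)) {m i : ℕ} (hm : m ≠ d) : (prC P).Con m i ⊓ (prC P).Fil m (i + 1) = ⊥ := by
  rcases Nat.lt_or_gt_of_ne hm with hm | hm
  · obtain ⟨r, hr⟩ := exists_rH hle m
    have f1 := dgn_finite hDX m
    have f2 := dgn_finite hDY m
    refine la_low r (fun x => ?_) ((prC P).Con m i) ((prC P).Fil m (i + 1)) ((prC Q).Con m i)
      ((prC Q).Fil m (i + 1)) (fun y hy => resR_Con hle ((hr y _).2 rfl) hy)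
      (fun y hy => resR_Fil hle ((hr y _).2 rfl) hy) (hY m i) (dgn_dim hDX m i) (dgn_dim hDY m i)
    obtain ⟨y, hy⟩ := ha.rsurj m hm x
    exact ⟨y, (hr y x).1 hy⟩
  · obtain ⟨g, hg⟩ := exists_gy h hle m
    refine la_high g ((injective_iff_map_eq_zero g).2 fun x hx => ha.ginj m hm x ((hg x 0).2 hx))
      ((prC P).Con m i) ((prC P).Fil m (i + 1)) ((prC Q).Con (m + 2) (i + 1)) ((prC Q).Fil (m + 2) (i + 1 + 1))
      (fun x hx => gys_Con h hle hDX.car ((hg x _).2 rfl) hx) (fun x hx => gys_Fil h hle ((hg x _).2 rfl) hx)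
      (hY (m + 2) (i + 1))

end

end MPadcHS
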