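import Pool.Agent.Lib.MP_adc574_ag_HS.UlA
import Pool.Agent.Lib.MP_adc574_ag_HS.StH
import Pool.Agent.Lib.MP_adc574_ag_HS.LaB
import Pool.Agent.Lib.MP_adc574_ag_HS.SpA
import Pool.Agent.Lib.MP_adc574_ag_HS.SpDefs

/-!
# JOB UlB (HS, Part P): the middle degree: functionals with determinant zero from a bad class

Over `K` (characteristic `p`, `φ : B → K`): `X := prC (bI φ P)`, `Y := prC (bI φ Q)`, `hl := le_map φ hle`, `r` from `exists_rH hl d`, `g` from `exists_gy hGd hl d`.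
(1) `la_mid` (LaA) with `P := X.Con d i`, `F := X.Fil d (i + 1)`, `PY := Y.Con d i`, `FY := Y.Fil d (i + 1)`, `PZ := Y.Con (d + 2) (i + 1)`, `FZ := Y.Fil (d + 2) (i + 2)`:
  `hPY`: `resR_Con` and `res_con` (StH, with `hr := hgood.akn.rinj`); `hFY`: `resR_Fil`, and conversely `r y ∈ Fil d (i + 1)` implies `y ∈ Fil d (i + 1)` by induction from `Fil d 0 = ⊤` with `akn.rinj` (`Fil d (i + 1) ≤ Fil d a` for `a ≤ i + 1`: `CovD.Fi_anti`);
  `hPZ`: `gys_Con`, and `con_surj` (StG, with `akn.gsurj`, `akn.gsurj0`); `hFZ`: `gys_Fil` and `akn.gsurj (i + 1)`; `hY d i`, `hY (d + 2) (i + 1)`; dimensions `dgn_dim` (UlA), finiteness `dgn_finite`.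
(2) `V := LinearMap.ker g`, `T := LinearMap.range r`. In coordinates (`e := (hDP.ad K φ).eqv d`): `Vc := V.comap e`, `Wc := ((P ⊓ V) ⊔ (V ⊓ T)).comap e`. `x ∈ Vc` iff `∀ r, ∑ b, φ (Gz r b) * x b = 0` (`hgood.lin.mem_V`; `Vg` is `ker g`). `V ⊓ T` in coordinates is the span of the `φ U s` (`mem_T`, `U_V`, `mem_V`; `Tr` is `range r`).
(3) `finrank (F ⊓ V) = card S + finrank (F ⊓ V ⊓ T)`: in coordinates, by `f_V`, `f_F` (with `IsAd.eqv_mem_Fil`), `f_ind`, `f_span`: the `φ (f u)` span a complement of `F ⊓ V ⊓ T` in `F ⊓ V`. With (1): `finrank Wc + card S = finrank Vc`.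
(4) Stability of `Wc` under `x ↦ (fun b' => DL γ (x b') + ∑ b, φ (G γ d b' b) * x b)`: additive; `P ⊓ V`: `con_stabU` (SpA) and `hgood.st.stV`; `V ⊓ T`: `x = ∑ s, mu s • φ (U s)`: by Leibniz and `hgood.st.stT` (`DL γ (φ (U s b')) = φ (D γ (U s b'))`) again such a combination.
(5) The bad class `x₀ = e x`: `x₀ ∈ P ⊓ F ≤ V`, so `x ∈ Wc`; `f_span`: `x = ∑ lam u • φ (f u) + ∑ mu s • φ (U s)`; `lam ≠ 0`, otherwise `x₀ ∈ P ⊓ F ⊓ T = ⊥`. Apply `la_fun` (LaB) with `δ := DL`, `G γ := fun b' b => φ (G γ d b' b)`.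
-/

set_option autoImplicit false

namespace MPadcHS

open MvPolynomial MPadcGP MPadcDC Module

universe u v w

section lin

variable {K : Type u} [Field K] {β ρ τ S : Type} [Fintype β] [Fintype ρ] [Fintype τ] [Fintype S]

private theorem UlB_fr {H : Type v} [AddCommGroup H] [Module K H] (e : (β → K) ≃ₗ[K] H) (W : Submodule K H) :
    finrank K ↥(W.comap e.toLinearMap) = finrank K W := by
  have h1 : (W.comap e.toLinearMap).map e.toLinearMap = W :=
    Submodule.map_comap_eq_of_surjective e.surjective W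
  have h2 : finrank K ↥((W.comap e.toLinearMap).map e.toLinearMap) = finrank K ↥(W.comap e.toLinearMap) :=
    LinearEquiv.finrank_map_eq e _
  rw [← h2, h1]

/-- The dimension of `F ⊓ V`. -/
private theorem UlB_dim {H : Type v} [AddCommGroup H] [Module K H] [FiniteDimensional K H] (e : (β → K) ≃ₗ[K] H)
    (F V T : Submodule K H) {U : τ → β → K} {f : S → β → K}
    (hVT : ∀ y, e y ∈ V ⊓ T ↔ ∃ mu : τ → K, ∀ b, y b = ∑ s, mu s * U s b) (hf : ∀ u, e (f u) ∈ F ⊓ V)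
    (hind : ∀ (lam : S → K) (mu : τ → K), (∀ b, ∑ u, lam u * f u b + ∑ s, mu s * U s b = 0) → lam = 0)
    (hspan : ∀ x : β → K, e x ∈ F ⊓ V → ∃ (lam : S → K) (mu : τ → K),
      ∀ b, x b = ∑ u, lam u * f u b + ∑ s, mu s * U s b) :
    finrank K ↥(F ⊓ V) = Fintype.card S + finrank K ↥(F ⊓ V ⊓ T) := by
  have hcomb : ∀ (lam : S → K), ∑ u, lam u • e (f u) = e fun b => ∑ u, lam u * f u b := by
    intro lam
    have h1 : (fun b => ∑ u, lam u * f u b) = ∑ u, lam u • f u := by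
      funext b
      rw [Finset.sum_apply]
      rfl
    rw [h1, map_sum]
    exact Finset.sum_congr rfl fun u _ => (map_smul e _ _).symm
  have hli : LinearIndependent K (fun u => e (f u)) := by
    rw [Fintype.linearIndependent_iff]
    intro lam hlam u
    rw [hcomb] at hlam
    have h1 : (fun b => ∑ u, lam u * f u b) = 0 := e.injective (hlam.trans (map_zero e).symm)
    have h2 := hind lam 0 fun b => by
      rw [congrFun h1 b]
      simp
    exact congrFun h2 u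
  have h1 := finrank_span_eq_card hli
  have h2 := Submodule.finrank_sup_add_finrank_inf_eq (Submodule.span K (Set.range fun u => e (f u))) (F ⊓ V ⊓ T)
  have h3 : Submodule.span K (Set.range fun u => e (f u)) ⊓ (F ⊓ V ⊓ T) = ⊥ := by
    refine (Submodule.eq_bot_iff _).2 fun y hy => ?_
    obtain ⟨lam, hlam⟩ := (Submodule.mem_span_range_iff_exists_fun K).1 hy.1
    rw [hcomb] at hlam
    obtain ⟨mu, hmu⟩ := (hVT fun b => ∑ u, lam u * f u b).1 (by
      rw [hlam]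
      exact ⟨hy.2.1.2, hy.2.2⟩)
    have h4 := hind lam (fun s => -mu s) fun b => by
      rw [hmu b, ← Finset.sum_add_distrib]
      refine Finset.sum_eq_zero fun s _ => ?_
      ring
    rw [← hlam, h4]
    have h5 : (fun b => ∑ u, (0 : S → K) u * f u b) = 0 := by
      funext b
      simp
    rw [h5, map_zero]
  have h4 : Submodule.span K (Set.range fun u => e (f u)) ⊔ (F ⊓ V ⊓ T) = F ⊓ V := by
    refine le_antisymm (sup_le (Submodule.span_le.2 ?_) inf_le_left) fun y hy => ?_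
    · rintro _ ⟨u, rfl⟩
      exact hf u
    · obtain ⟨x, rfl⟩ := e.surjective y
      obtain ⟨lam, mu, hx⟩ := hspan x hy
      have h5 : x = (fun b => ∑ u, lam u * f u b) + fun b => ∑ s, mu s * U s b := funext hx
      have h6 : e (fun b => ∑ u, lam u * f u b) ∈ Submodule.span K (Set.range fun u => e (f u)) := by
        rw [← hcomb]
        exact Submodule.sum_mem _ fun u _ => Submodule.smul_mem _ _ (Submodule.subset_span ⟨u, rfl⟩)
      have h7 : e (fun b => ∑ u, lam u * f u b) ∈ F ⊓ V := by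
        rw [← hcomb]
        exact Submodule.sum_mem _ fun u _ => Submodule.smul_mem _ _ (hf u)
      have h8 := (hVT fun b => ∑ s, mu s * U s b).2 ⟨mu, fun b => rfl⟩
      have h9 : e (fun b => ∑ s, mu s * U s b) ∈ F := by
        have h10 : e (fun b => ∑ s, mu s * U s b) = e x - e (fun b => ∑ u, lam u * f u b) := by
          rw [h5, map_add, add_sub_cancel_left]
        rw [h10]
        exact F.sub_mem hy.1 h7.1
      have h11 : e x = e (fun b => ∑ u, lam u * f u b) + e (fun b => ∑ s, mu s * U s b) := by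
        rw [← map_add, ← h5]
      rw [h11]
      exact Submodule.add_mem _ ((le_sup_left : _ ≤ Submodule.span K (Set.range fun u => e (f u)) ⊔ (F ⊓ V ⊓ T)) h6)
        ((le_sup_right : _ ≤ Submodule.span K (Set.range fun u => e (f u)) ⊔ (F ⊓ V ⊓ T)) ⟨⟨h9, h8.1⟩, h8.2⟩)
  rw [h3, h4, finrank_bot, add_zero, h1] at h2
  exact h2

private theorem UlB_lin {H : Type v} [AddCommGroup H] [Module K H] [FiniteDimensional K H] [DecidableEq S]
    (e : (β → K) ≃ₗ[K] H) (P F V T : Submodule K H) {σ : Type} (δ : σ → Derivation ℤ K K) (G : σ → β → β → K)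
    (Gz : ρ → β → K) (U : τ → β → K) (f : S → β → K) (hV : ∀ x, e x ∈ V ↔ ∀ r, ∑ b, Gz r b * x b = 0)
    (hVT : ∀ y, e y ∈ V ⊓ T ↔ ∃ mu : τ → K, ∀ b, y b = ∑ s, mu s * U s b) (hf : ∀ u, e (f u) ∈ F ⊓ V)
    (hind : ∀ (lam : S → K) (mu : τ → K), (∀ b, ∑ u, lam u * f u b + ∑ s, mu s * U s b = 0) → lam = 0)
    (hspan : ∀ x : β → K, e x ∈ F ⊓ V → ∃ (lam : S → K) (mu : τ → K),
      ∀ b, x b = ∑ u, lam u * f u b + ∑ s, mu s * U s b)
    (hPF : P ⊓ F ≤ V) (hPT : P ⊓ F ⊓ T = ⊥)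
    (hdim : finrank K V + finrank K ↥(F ⊓ V ⊓ T) = finrank K ↥((P ⊓ V) ⊔ (V ⊓ T)) + finrank K ↥(F ⊓ V))
    (sP : ∀ γ x, e x ∈ P → e (fun b' => δ γ (x b') + ∑ b, G γ b' b * x b) ∈ P)
    (sV : ∀ γ x, e x ∈ V → e (fun b' => δ γ (x b') + ∑ b, G γ b' b * x b) ∈ V)
    (sT : ∀ γ s, ∃ mu : τ → K, ∀ b', δ γ (U s b') + ∑ b, G γ b' b * U s b = ∑ s', mu s' * U s' b')
    {x : H} (hx : x ∈ P) (hx' : x ∈ F) (hx0 : x ≠ 0) :
    ∃ (c : S → β → K) (ν : σ → Matrix S S K) (ξ : σ → S → ρ → K),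
      (∀ (lam : S → K) (mu : ρ → K), (∀ b, ∑ v, lam v * c v b + ∑ r, mu r * Gz r b = 0) → lam = 0) ∧
      (∀ γ v b, δ γ (c v b) = ∑ b', c v b' * G γ b' b + ∑ v', ν γ v v' * c v' b + ∑ r, ξ γ v r * Gz r b) ∧
      (∀ v s, ∑ b, c v b * U s b = 0) ∧ (Matrix.of fun v u => ∑ b, c v b * f u b).det = 0 := by
  classical
  obtain ⟨y, rfl⟩ := e.surjective x
  have hyV : e y ∈ V := hPF ⟨hx, hx'⟩
  obtain ⟨lam, mu, hlm⟩ := hspan y ⟨hx', hyV⟩
  have hlam : lam ≠ 0 := by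
    intro h0
    have h1 := ((hVT y).2 ⟨mu, fun b => by
      rw [hlm b, h0]
      simp⟩).2
    have h2 : e y ∈ P ⊓ F ⊓ T := ⟨⟨hx, hx'⟩, h1⟩
    rw [hPT, Submodule.mem_bot] at h2
    exact hx0 h2
  have hUW : ∀ s, e (U s) ∈ V ⊓ T := fun s => (hVT _).2 ⟨Pi.single s 1, fun b => by
    rw [Finset.sum_eq_single s]
    · rw [Pi.single_eq_same, one_mul]
    · intro s' _ hs'
      rw [Pi.single_eq_of_ne hs', zero_mul]
    · intro hs'
      exact absurd (Finset.mem_univ s) hs'⟩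
  refine la_fun δ G Gz U f (((P ⊓ V) ⊔ (V ⊓ T)).comap e.toLinearMap) (V.comap e.toLinearMap) hV ?_ ?_ ?_ ?_ y ?_ lam
    hlam mu hlm
  · intro s
    exact (le_sup_right : V ⊓ T ≤ (P ⊓ V) ⊔ (V ⊓ T)) (hUW s)
  · exact Submodule.comap_mono (sup_le inf_le_right inf_le_left)
  · intro γ z hz
    obtain ⟨a, ha, b, hb, hab⟩ := Submodule.mem_sup.1 hz
    obtain ⟨a, rfl⟩ := e.surjective a
    obtain ⟨b, rfl⟩ := e.surjective b
    have hz1 : z = a + b := by
      apply e.injective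
      rw [map_add]
      exact hab.symm
    obtain ⟨nu, hnu⟩ := (hVT b).1 hb
    have h1 : e (fun b' => δ γ (a b') + ∑ c, G γ b' c * a c) ∈ P ⊓ V := ⟨sP γ a ha.1, sV γ a ha.2⟩
    choose m hm using sT γ
    have h2 : e (fun b' => δ γ (b b') + ∑ c, G γ b' c * b c) ∈ V ⊓ T := by
      refine (hVT _).2 ⟨fun s' => δ γ (nu s') + ∑ s, nu s * m s s', fun b' => ?_⟩
      have h3 : δ γ (b b') = ∑ s, (nu s * δ γ (U s b') + δ γ (nu s) * U s b') := by
        rw [hnu b', map_sum]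
        refine Finset.sum_congr rfl fun s _ => ?_
        rw [Derivation.leibniz, smul_eq_mul, smul_eq_mul, mul_comm (U s b')]
      have h4 : ∑ c, G γ b' c * b c = ∑ s, nu s * ∑ c, G γ b' c * U s c := by
        have h5 : ∀ c, G γ b' c * b c = ∑ s, nu s * (G γ b' c * U s c) := by
          intro c
          rw [hnu c, Finset.mul_sum]
          refine Finset.sum_congr rfl fun s _ => ?_
          ring
        rw [Finset.sum_congr rfl fun c _ => h5 c, Finset.sum_comm]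
        exact Finset.sum_congr rfl fun s _ => (Finset.mul_sum _ _ _).symm
      have h6 : ∑ s', (δ γ (nu s') + ∑ s, nu s * m s s') * U s' b' =
          ∑ s, δ γ (nu s) * U s b' + ∑ s, nu s * ∑ s', m s s' * U s' b' := by
        have h7 : ∀ s', (δ γ (nu s') + ∑ s, nu s * m s s') * U s' b' =
            δ γ (nu s') * U s' b' + ∑ s, nu s * (m s s' * U s' b') := by
          intro s'
          rw [add_mul, Finset.sum_mul]
          congr 1
          exact Finset.sum_congr rfl fun s _ => mul_assoc _ _ _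
        rw [Finset.sum_congr rfl fun s' _ => h7 s', Finset.sum_add_distrib, Finset.sum_comm]
        congr 1
        exact Finset.sum_congr rfl fun s _ => (Finset.mul_sum _ _ _).symm
      rw [h3, h4, h6, Finset.sum_add_distrib]
      have h8 : ∑ s, nu s * ∑ s', m s s' * U s' b' =
          ∑ s, nu s * δ γ (U s b') + ∑ s, nu s * ∑ c, G γ b' c * U s c := by
        rw [← Finset.sum_add_distrib]
        refine Finset.sum_congr rfl fun s _ => ?_
        rw [← hm s b', mul_add]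
      rw [h8]
      ring
    have h3 : (fun b' => δ γ (z b') + ∑ c, G γ b' c * z c) =
        (fun b' => δ γ (a b') + ∑ c, G γ b' c * a c) + fun b' => δ γ (b b') + ∑ c, G γ b' c * b c := by
      funext b'
      rw [hz1]
      simp only [Pi.add_apply, map_add, mul_add, Finset.sum_add_distrib]
      ring
    change e (fun b' => δ γ (z b') + ∑ c, G γ b' c * z c) ∈ (P ⊓ V) ⊔ (V ⊓ T)
    rw [h3, map_add]
    exact Submodule.add_mem _ ((le_sup_left : P ⊓ V ≤ (P ⊓ V) ⊔ (V ⊓ T)) h1)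
      ((le_sup_right : V ⊓ T ≤ (P ⊓ V) ⊔ (V ⊓ T)) h2)
  · rw [UlB_fr, UlB_fr]
    have h1 := UlB_dim e F V T hVT hf hind hspan
    omega
  · exact (le_sup_left : P ⊓ V ≤ (P ⊓ V) ⊔ (V ⊓ T)) ⟨hx, hyV⟩

end lin

section

variable {B : Type u} [CommRing B] {n : ℕ} {Q P : Ideal (MvPolynomial (Fin (n + 1)) B)}
  {β' : ℕ → Type} [∀ m, Fintype (β' m)] {lev' : ∀ m, β' m → ℕ} {z' : ∀ m, β' m → (prC P).Ch} {h' : ℕ → ℕ → ℕ}

theorem opp_mid (hP : IsHomog P) (hle : Q ≤ P) (hDP : Dat P lev' z' h') (d i : ℕ) {σ : Type}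
    (D : σ → Derivation ℤ B B) (V : ∀ γ, Lft (prC P) (D γ)) {G : σ → ∀ m, β' m → β' m → B}
    (hGm : ∀ γ m b, (V γ).Gm (z' m b) - ∑ b', G γ m b' b • z' m b' ∈ (prC P).Bc m)
    {ρ τ S : Type} [Fintype ρ] [Fintype τ] [Fintype S] [DecidableEq S] {Gz : ρ → β' d → B} {U : τ → β' d → B}
    {f : S → β' d → B} {p : ℕ} [Fact p.Prime] {K : Type u} [Field K] [CharP K p] {Λ : Type} [Fintype Λ] {bb : Λ → K}
    (φ : B →+* K) (hGd : Gd (bI φ Q) (bI φ P)) (hgood : GoodH hle hDP d i D G Gz U f K φ)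
    (hDX : Dgn p bb (prC (bI φ P))) (hDY : Dgn p bb (prC (bI φ Q))) (hY : IsOppC (prC (bI φ Q)))
    (DL : σ → Derivation ℤ K K) (hDL : ∀ γ x, DL γ (φ x) = φ (D γ x)) {x : (prC (bI φ P)).HdR d}
    (hx : x ∈ (prC (bI φ P)).Con d i) (hx' : x ∈ (prC (bI φ P)).Fil d (i + 1)) (hx0 : x ≠ 0) :
    ∃ (c : S → β' d → K) (ν : σ → Matrix S S K) (ξ : σ → S → ρ → K),
      (∀ (lam : S → K) (mu : ρ → K), (∀ b, ∑ v, lam v * c v b + ∑ r, mu r * φ (Gz r b) = 0) → lam = 0) ∧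
      (∀ γ v b, DL γ (c v b) = ∑ b', c v b' * φ (G γ d b' b) + ∑ v', ν γ v v' * c v' b +
        ∑ r, ξ γ v r * φ (Gz r b)) ∧
      (∀ v s, ∑ b, c v b * φ (U s b) = 0) ∧ (Matrix.of fun v u => ∑ b, c v b * φ (f u b)).det = 0 := by
  have hl := le_map φ hle
  obtain ⟨r, hr⟩ := exists_rH (le_map φ hle) d
  obtain ⟨g, hg⟩ := exists_gy hGd (le_map φ hle) d
  have fX := dgn_finite hDX d
  have fY := dgn_finite hDY d
  have fZ := dgn_finite hDY (d + 2)
  have hFil : ∀ {a b : ℕ} (_ : a ≤ b) {y : (prC (bI φ P)).HdR d}, y ∈ (prC (bI φ P)).Fil d b →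
      y ∈ (prC (bI φ P)).Fil d a := by
    intro a b hab y hy
    obtain ⟨c, hc, hcy⟩ := CovD.mem_Fil.1 hy
    exact CovD.mem_Fil.2 ⟨c, CovD.Fi_anti hab d hc, hcy⟩
  obtain ⟨c1, c2, c3⟩ := la_mid r g ((prC (bI φ P)).Con d i) ((prC (bI φ P)).Fil d (i + 1))
    ((prC (bI φ Q)).Con d i) ((prC (bI φ Q)).Fil d (i + 1)) ((prC (bI φ Q)).Con (d + 2) (i + 1))
    ((prC (bI φ Q)).Fil (d + 2) (i + 1 + 1))
    (fun y => ⟨fun h => res_con (le_map φ hle) hDX hDY hgood.akn.rinj i ((hr y _).2 rfl) h,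
      fun h => resR_Con (le_map φ hle) ((hr y _).2 rfl) h⟩)
    (fun y => ⟨fun h => by
      have key : ∀ a : ℕ, a ≤ i + 1 → y ∈ (prC (bI φ Q)).Fil d a := by
        intro a
        induction a with
        | zero =>
          intro _
          obtain ⟨c, hc⟩ := CovD.cl_surjective d y
          refine CovD.mem_Fil.2 ⟨c, ?_, hc⟩
          rw [CovD.Fi_zero]
          exact c.2.1
        | succ a ih =>
          intro ha
          exact hgood.akn.rinj a y (r y) ((hr y _).2 rfl) (ih (by omega)) (hFil ha h)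
      exact key (i + 1) le_rfl, fun h => resR_Fil (le_map φ hle) ((hr y _).2 rfl) h⟩)
    (by
      refine le_antisymm ?_ fun y hy => ?_
      · rintro _ ⟨x, hx, rfl⟩
        exact gys_Con hGd (le_map φ hle) hDX.car ((hg x _).2 rfl) hx
      · obtain ⟨x, hx, hxy⟩ := con_surj hGd (le_map φ hle) hDX hDY hgood.akn.gsurj hgood.akn.gsurj0 i hy
        exact ⟨x, hx, (hg x y).1 hxy⟩)
    (by
      refine le_antisymm ?_ fun y hy => ?_
      · rintro _ ⟨x, hx, rfl⟩
        exact gys_Fil hGd (le_map φ hle) ((hg x _).2 rfl) hx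
      · obtain ⟨x, hx, hxy⟩ := hgood.akn.gsurj (i + 1) y hy
        exact ⟨x, hx, (hg x y).1 hxy⟩)
    (hY d i) (hY (d + 2) (i + 1)) (dgn_dim hDX d i) (dgn_dim hDY d i) (dgn_dim hDY (d + 2) (i + 1))
  have mV : ∀ x : β' d → K, (hDP.ad K φ).eqv d x ∈ LinearMap.ker g ↔ ∀ r, ∑ b, φ (Gz r b) * x b = 0 :=
    fun x => (hg _ 0).symm.trans (hgood.lin.mem_V x)
  have mT : ∀ x : β' d → K, (hDP.ad K φ).eqv d x ∈ LinearMap.ker g →
      ((hDP.ad K φ).eqv d x ∈ LinearMap.range r ↔ ∃ mu : τ → K, ∀ b, x b = ∑ s, mu s * φ (U s b)) := by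
    intro x h1
    refine Iff.trans ?_ (hgood.lin.mem_T x ((hg _ 0).2 h1))
    constructor
    · rintro ⟨y, hy⟩
      exact ⟨y, (hr y _).2 hy⟩
    · rintro ⟨y, hy⟩
      exact ⟨y, (hr y _).1 hy⟩
  refine UlB_lin ((hDP.ad K φ).eqv d) ((prC (bI φ P)).Con d i) ((prC (bI φ P)).Fil d (i + 1)) (LinearMap.ker g)
    (LinearMap.range r) DL (fun γ b' b => φ (G γ d b' b)) (fun r b => φ (Gz r b)) (fun s b => φ (U s b))
    (fun u b => φ (f u b)) mV ?_ ?_ hgood.lin.f_ind ?_ c1 c2 c3 ?_ ?_ ?_ hx hx' hx0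
  · intro y
    constructor
    · intro h1
      exact (mT y h1.1).1 h1.2
    · rintro ⟨mu, hmu⟩
      have h1 : (hDP.ad K φ).eqv d y ∈ LinearMap.ker g := by
        refine (mV y).2 fun r => ?_
        have h2 : ∀ b, φ (Gz r b) * y b = ∑ s, mu s * (φ (Gz r b) * φ (U s b)) := by
          intro b
          rw [hmu b, Finset.mul_sum]
          refine Finset.sum_congr rfl fun s _ => ?_
          ring
        rw [Finset.sum_congr rfl fun b _ => h2 b, Finset.sum_comm]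
        refine Finset.sum_eq_zero fun s _ => ?_
        rw [← Finset.mul_sum, hgood.lin.U_V s r, mul_zero]
      exact ⟨h1, (mT y h1).2 ⟨mu, hmu⟩⟩
  · intro u
    exact ⟨(hDP.ad K φ).eqv_mem_Fil.2 (hgood.lin.f_F u), (mV _).2 (hgood.lin.f_V u)⟩
  · intro x h1
    exact hgood.lin.f_span x ((mV x).1 h1.2) ((hDP.ad K φ).eqv_mem_Fil.1 h1.1)
  · intro γ x h1
    exact con_stabU hP hDP (V γ) (hGm γ) φ (DL γ) (hDL γ) d i h1
  · intro γ x h1
    exact (mV _).2 (hgood.st.stV DL hDL γ x ((mV x).1 h1))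
  · intro γ s
    obtain ⟨mu, hmu⟩ := hgood.st.stT γ s
    refine ⟨mu, fun b' => ?_⟩
    rw [← hmu b', hDL]

end

end MPadcHS
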