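import Pool.Agent.Lib.MP_adc574_ag_HS.SpA
import Pool.Agent.Lib.MP_adc574_ag_HS.SpDefs
import Pool.Agent.Lib.MP_adc574_ag_HS.LaB
import Pool.Agent.Lib.MP_adc574_ag_HS.GyA
import Pool.Agent.Lib.MP_adc574_ag_DC.PUls
import Pool.Agent.Lib.MP_adc574_ag_DC.PUlf

/-!
# JOB UlC (HS, Part P): there is no family of functionals with determinant zero

Follow the proof of `no_family` in DC/PNof.lean. `exists_ult_setup` (DC/PUls.lean) gives `κ₀`, `ψ₀`, `K`, `DK`, `j : K → Ult U L`, `DU`, `φK : B → K`.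
`hgood K φK` (`φK` is injective: `hφK`, `ψ₀` injective (`MvPolynomial.map_injective`), `IsFractionRing.injective`, and `B` is a localization of `Ra R₀ n 1` at `g`: an element is `x / g ^ k`) gives `GoodH .. K φK`; only `GoodL` is needed.
`hkey κ₀ ψ₀ _ K DK hDK (bI φK Q) (bI φK P) (le_map φK hle) _ _`: `bI φK Q = bI (algebraMap (Ra κ₀ n 1) K) (cycG (bI ψ₀ I₀) 1)` (by `hQ`, `bI_bI`, `bI_cycG_map`, `hφK`, see `hideal` in DC/PNof.lean) and `bI φK P = hyp (bI φK Q)` (`hP`, `bI_hyp` GyA: import it). It gives submodules `V`, `T` with the stated properties and the position statement for `L := Ult U L`, `DL := DU`.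
`cU v b := ultMk (fun t => c t v b)`; `c' v : ↥V →ₗ[K] Ult U L`, `c' v x = ∑ b, j (x' b) * cU v b` where `x = eqv d x'` (`E := (hDP.ad K φK).eqv d`): the composition of `V.subtype`, `E.symm` and `fn v` of DC/PNof.lean.
* `c' v x = 0` for `x ∈ T`: `x ∈ V ∩ T`, so `x' = ∑ mu s • φK (U s)` (`mem_T`), and `∑ b, cU v b * j (φK (U s b)) = ultMk (∑ b, c t v b * φ t (U s b)) = 0`.
* independence: if `∑ v, lam v * c' v x = 0` for all `x ∈ V`: the functional `l b := ∑ v, lam v * cU v b` vanishes on `j x'` for all `x'` with `∑ b, φK (Gz r b) * x' b = 0` (`mem_V`), so `row_span` (LaB): `l b = ∑ r, mu r * j (φK (Gz r b))`. Write `lam v = ultMk (lam_t v)`, `mu r = ultMk (mu_t r)` (`ultMk_surjective`): for almost all `t`: `∑ v, lam_t v * c t v b - ∑ r, mu_t r * φ t (Gz r b) = 0` for all `b` (finitely many: `Filter.eventually_all`), so `lam_t = 0` by `hc`; so `lam = 0`.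
* the relation: `x, y : ↥V`, `gaussManin d (DK γ) x y`: `nab_coordU` (SpA): `y' b' = DK γ (x' b') + ∑ b, φK (G γ d b' b) * x' b`. The same computation as in DC/PNof.lean with `νU`, plus the term `∑ r, ξU r * ∑ b, j (φK (Gz r b) * x' b)`, which is `0` since `x ∈ V`.
* `f' u := ⟨E (fun b => φK (f u b)), _⟩ : ↥V` (`f_V`, `mem_V`); if `(∑ lam u • f' u) ∈ T` then by `mem_T` `∑ lam u φK (f u b) = ∑ mu s φK (U s b)`, `f_ind` gives `lam = 0`.
* the determinant: `c' v (f' u) = ultMk (∑ b, c t v b * φ t (f u b))`, `det_ult` (DC/PUlf.lean), so it is `0` by `hdet`. Contradiction.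
-/

set_option autoImplicit false

namespace MPadcHS

open MvPolynomial MPadcGP MPadcDC MPadcGM

universe u v w

/-- The homomorphism `φ` is injective. -/
private theorem UlC_inj {R₀ : Type u} [CommRing R₀] {κ : Type u} [Field κ] {n : ℕ} (ψ : R₀ →+* κ)
    (hψ : Function.Injective ψ) (g : Ra R₀ n 1) (B : Type u) [CommRing B] [Algebra (Ra R₀ n 1) B]
    [IsLocalization.Away g B] (K : Type u) [Field K] [Algebra (Ra κ n 1) K] [IsFractionRing (Ra κ n 1) K] (φ : B →+* K)
    (hφ : ∀ x, φ (algebraMap (Ra R₀ n 1) B x) = algebraMap (Ra κ n 1) K (MvPolynomial.map ψ x)) :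
    Function.Injective φ := by
  rw [injective_iff_map_eq_zero]
  intro x hx
  obtain ⟨⟨a, s⟩, ha⟩ := IsLocalization.surj (Submonoid.powers g) x
  have h1 : φ (algebraMap (Ra R₀ n 1) B a) = 0 := by
    rw [← ha, map_mul, hx, zero_mul]
  rw [hφ] at h1
  have h2 : (MvPolynomial.map ψ a : Ra κ n 1) = 0 :=
    IsFractionRing.injective (Ra κ n 1) K (h1.trans (map_zero _).symm)
  have h3 : a = 0 := MvPolynomial.map_injective ψ hψ (h2.trans (map_zero _).symm)
  have h4 : IsUnit (algebraMap (Ra R₀ n 1) B (s : Ra R₀ n 1)) := IsLocalization.map_units B s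
  have h5 : x * algebraMap (Ra R₀ n 1) B (s : Ra R₀ n 1) = 0 := by
    rw [ha, h3, map_zero]
  exact (h4.mul_left_eq_zero).1 h5

theorem no_familyH {R₀ : Type u} [CommRing R₀] [IsDomain R₀] {n : ℕ} {I₀ : Ideal (MvPolynomial (Fin n) R₀)}
    (hI₀ : IsHomog I₀) (d : ℕ)
    (hkey : ∀ (κ₀ : Type u) [Field κ₀] [IsAlgClosed κ₀] [CharZero κ₀] (ψ₀ : R₀ →+* κ₀), Function.Injective ψ₀ →
      KeyPosH (bI ψ₀ I₀) d)
    (g : Ra R₀ n 1) (hg : g ≠ 0) (B : Type u) [CommRing B] [Algebra (Ra R₀ n 1) B] [IsLocalization.Away g B]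
    {Q P : Ideal (MvPolynomial (Fin (n + 1)) B)} (hQ : Q = bI (algebraMap (Ra R₀ n 1) B) (cycG I₀ 1)) (hP : P = hyp Q)
    (hle : Q ≤ P) {β' : ℕ → Type} [∀ m, Fintype (β' m)] [∀ m, DecidableEq (β' m)] {lev' : ∀ m, β' m → ℕ}
    {z' : ∀ m, β' m → (prC P).Ch} {h' : ℕ → ℕ → ℕ} (hDP : Dat P lev' z' h') (D : Mon n 1 → Derivation ℤ B B)
    (hD : ∀ γ x, D γ (algebraMap (Ra R₀ n 1) B x) = algebraMap (Ra R₀ n 1) B (dR R₀ γ x))
    (V : ∀ γ, Lft (prC P) (D γ)) {G : Mon n 1 → ∀ m, β' m → β' m → B}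
    (hGm : ∀ γ m b, (V γ).Gm (z' m b) - ∑ b', G γ m b' b • z' m b' ∈ (prC P).Bc m) (i : ℕ)
    {ρ τ S : Type} [Fintype ρ] [Fintype τ] [Fintype S] [DecidableEq S] {Gz : ρ → β' d → B} {U' : τ → β' d → B}
    {f : S → β' d → B}
    (hgood : ∀ (K : Type u) [Field K] (φ : B →+* K), Function.Injective φ → ∀ (κ₀ : Type u) [Field κ₀]
      (ψ₀ : R₀ →+* κ₀) [Algebra (Ra κ₀ n 1) K] [IsFractionRing (Ra κ₀ n 1) K],
      (∀ x, φ (algebraMap (Ra R₀ n 1) B x) = algebraMap (Ra κ₀ n 1) K (MvPolynomial.map ψ₀ x)) →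
      GoodL hle hDP d i Gz U' f K φ)
    (U : Ultrafilter ℕ) (κ : ℕ → Type u) [∀ t, Field (κ t)] (hac : ∀ t, IsAlgClosed (κ t)) (p : ℕ → ℕ)
    (hcp : ∀ t, CharP (κ t) (p t)) (hpr : ∀ t, (p t).Prime) (hp : ∀ N : ℕ, ∀ᶠ t in (U : Filter ℕ), N < p t)
    (ψ : ∀ t, R₀ →+* κ t) (hψ : ∀ r : R₀, r ≠ 0 → ∀ᶠ t in (U : Filter ℕ), ψ t r ≠ 0)
    (L : ℕ → Type u) [∀ t, Field (L t)] [∀ t, Algebra (Ra (κ t) n 1) (L t)]
    [∀ t, IsFractionRing (Ra (κ t) n 1) (L t)] (φ : ∀ t, B →+* L t)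
    (hφ : ∀ t x, φ t (algebraMap (Ra R₀ n 1) B x) = algebraMap (Ra (κ t) n 1) (L t) (MvPolynomial.map (ψ t) x))
    (DL : ∀ t, Mon n 1 → Derivation ℤ (L t) (L t))
    (hDL : ∀ t γ P, DL t γ (algebraMap (Ra (κ t) n 1) (L t) P) = algebraMap (Ra (κ t) n 1) (L t) (pderiv γ P))
    (c : ∀ t, S → β' d → L t) (ν : ∀ t, Mon n 1 → Matrix S S (L t)) (ξ : ∀ t, Mon n 1 → S → ρ → L t)
    (hc : ∀ t (lam : S → L t) (mu : ρ → L t),
      (∀ b, ∑ v, lam v * c t v b + ∑ r, mu r * φ t (Gz r b) = 0) → lam = 0)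
    (hrel : ∀ t γ v b, DL t γ (c t v b) = ∑ b', c t v b' * φ t (G γ d b' b) + ∑ v', ν t γ v v' * c t v' b +
      ∑ r, ξ t γ v r * φ t (Gz r b))
    (hU : ∀ t v s, ∑ b, c t v b * φ t (U' s b) = 0)
    (hdet : ∀ t, (Matrix.of fun v u => ∑ b, c t v b * φ t (f u b)).det = 0) : False := by
  classical
  obtain ⟨κ₀, i1, i2, i3, ψ₀, hψ₀, K, i4, i5, i6, DK, hDK, j, halg, DU, hDU, hDUm, φK, hφK, hDφ, hjφ⟩ :=
    exists_ult_setup U κ hac p hcp hpr hp ψ hψ g hg B L φ hφ DL hDL D hD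
  let alg : Algebra K (Ult U L) := j.toAlgebra
  have hsm : ∀ (x : K) (y : Ult U L), x • y = j x * y := fun x y => Algebra.smul_def x y
  have hideal : bI (algebraMap (Ra κ₀ n 1) K) (cycG (bI ψ₀ I₀) 1) =
      bI φK (bI (algebraMap (Ra R₀ n 1) B) (cycG I₀ 1)) := by
    rw [← bI_cycG_map, bI_bI, bI_bI]
    congr 1
    exact (RingHom.ext hφK).symm
  have hQK : bI φK Q = bI (algebraMap (Ra κ₀ n 1) K) (cycG (bI ψ₀ I₀) 1) := by
    rw [hideal, hQ]
  have hPK : bI φK P = hyp (bI φK Q) := by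
    rw [hP, bI_hyp]
  have hPhom : IsHomog P := by
    rw [hP]
    refine isHomog_hyp ?_
    rw [hQ]
    exact (isHomog_cycG (e := 1) hI₀).map (algebraMap (Ra R₀ n 1) B)
  have hinj : Function.Injective φK := UlC_inj ψ₀ hψ₀ g B K φK hφK
  have hG := hgood K φK hinj κ₀ ψ₀ hφK
  obtain ⟨V', T', hV', hT', -, -, hpos⟩ := hkey κ₀ ψ₀ hψ₀ K DK hDK (bI φK Q) (bI φK P) (le_map φK hle) hQK hPK
  let cU : S → β' d → Ult U L := fun v b => ultMk U L fun t => c t v b
  let fn : S → ((β' d → K) →ₗ[K] Ult U L) := fun v =>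
    { toFun := fun x => ∑ b, j (x b) * cU v b
      map_add' := fun x y => by
        rw [← Finset.sum_add_distrib]
        refine Finset.sum_congr rfl fun b _ => ?_
        rw [Pi.add_apply, map_add, add_mul]
      map_smul' := fun r x => by
        rw [RingHom.id_apply, hsm, Finset.mul_sum]
        refine Finset.sum_congr rfl fun b _ => ?_
        rw [Pi.smul_apply, smul_eq_mul, map_mul, mul_assoc] }
  have hfn : ∀ v x, fn v x = ∑ b, j (x b) * cU v b := fun _ _ => rfl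
  obtain ⟨E, hE⟩ : ∃ E, E = (hDP.ad K φK).eqv d := ⟨_, rfl⟩
  let c' : S → (↥V' →ₗ[K] Ult U L) := fun v => ((fn v).comp E.symm.toLinearMap).comp V'.subtype
  have hc' : ∀ v (x : β' d → K) (hx : E x ∈ V'), c' v ⟨E x, hx⟩ = ∑ b, j (x b) * cU v b := by
    intro v x hx
    change fn v (E.symm (E x)) = _
    rw [LinearEquiv.symm_apply_apply, hfn]
  have mV : ∀ x : β' d → K, E x ∈ V' ↔ ∀ r, ∑ b, φK (Gz r b) * x b = 0 := by
    intro x
    rw [hV', hE]
    exact hG.mem_V x
  have mT : ∀ x : β' d → K, E x ∈ V' →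
      (E x ∈ T' ↔ ∃ mu : τ → K, ∀ b, x b = ∑ s, mu s * φK (U' s b)) := by
    intro x hx
    rw [hV', hE] at hx
    rw [hT', hE]
    exact hG.mem_T x hx
  have hUj : ∀ v s, ∑ b, cU v b * j (φK (U' s b)) = 0 := by
    intro v s
    have h1 : (fun t => ∑ b, c t v b * φ t (U' s b)) = ∑ b, (fun t => c t v b) * (fun t => φ t (U' s b)) := by
      funext t
      rw [Finset.sum_apply]
      rfl
    have h2 : ultMk U L (fun t => ∑ b, c t v b * φ t (U' s b)) = 0 := by
      rw [ultMk_eq_zero]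
      exact Filter.Eventually.of_forall fun t => hU t v s
    rw [h1, map_sum] at h2
    rw [← h2]
    refine Finset.sum_congr rfl fun b _ => ?_
    rw [map_mul, hjφ]
  obtain ⟨νU, hνU⟩ : ∃ νU : Mon n 1 → Matrix S S (Ult U L), ∀ γ v v', νU γ v v' = ultMk U L fun t => ν t γ v v' :=
    ⟨fun γ => Matrix.of fun v v' => ultMk U L fun t => ν t γ v v', fun _ _ _ => rfl⟩
  obtain ⟨ξU, hξU⟩ : ∃ ξU : Mon n 1 → S → ρ → Ult U L, ∀ γ v r, ξU γ v r = ultMk U L fun t => ξ t γ v r :=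
    ⟨fun γ v r => ultMk U L fun t => ξ t γ v r, fun _ _ _ => rfl⟩
  have hrelU : ∀ γ v b, DU γ (cU v b) = ∑ b', cU v b' * j (φK (G γ d b' b)) + ∑ v', νU γ v v' * cU v' b +
      ∑ r, ξU γ v r * j (φK (Gz r b)) := by
    intro γ v b
    rw [hDUm]
    have h1 : (fun t => DL t γ (c t v b)) = (∑ b', (fun t => c t v b') * (fun t => φ t (G γ d b' b))) +
        ∑ v', (fun t => ν t γ v v') * (fun t => c t v' b) + ∑ r, (fun t => ξ t γ v r) * (fun t => φ t (Gz r b)) := by
      funext t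
      rw [Pi.add_apply, Pi.add_apply, Finset.sum_apply, Finset.sum_apply, Finset.sum_apply]
      exact hrel t γ v b
    rw [h1, map_add, map_add, map_sum, map_sum, map_sum]
    congr 1
    · congr 1
      · refine Finset.sum_congr rfl fun b' _ => ?_
        rw [map_mul, hjφ]
      · refine Finset.sum_congr rfl fun v' _ => ?_
        rw [map_mul, hνU]
    · refine Finset.sum_congr rfl fun r _ => ?_
      rw [map_mul, hξU, hjφ]
  have hfV : ∀ u, E (fun b => φK (f u b)) ∈ V' := fun u => (mV _).2 (hG.f_V u)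
  refine hpos (Ult U L) (fun x hx => by
      obtain ⟨P₁, hP₁, hx0⟩ := hx
      exact halg x P₁ hP₁ hx0) DU hDU S c' ?_ ?_ νU ?_ (fun u => ⟨E (fun b => φK (f u b)), hfV u⟩) ?_ ?_
  · rintro v ⟨y, hy⟩ hyT
    obtain ⟨x', rfl⟩ := E.surjective y
    obtain ⟨mu, hmu⟩ := (mT x' hy).1 hyT
    rw [hc']
    have h1 : ∀ b, j (x' b) * cU v b = ∑ s, j (mu s) * (cU v b * j (φK (U' s b))) := by
      intro b
      rw [hmu b, map_sum, Finset.sum_mul]
      refine Finset.sum_congr rfl fun s _ => ?_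
      rw [map_mul]
      ring
    rw [Finset.sum_congr rfl fun b _ => h1 b, Finset.sum_comm]
    refine Finset.sum_eq_zero fun s _ => ?_
    rw [← Finset.mul_sum, hUj, mul_zero]
  · intro lam hlam
    obtain ⟨mu, hmu⟩ := row_span j (fun r b => φK (Gz r b)) (fun b => ∑ v, lam v * cU v b) (fun x hx => by
      have h1 := hlam ⟨E x, (mV x).2 hx⟩
      rw [← h1]
      have h2 : ∀ v, lam v * c' v ⟨E x, (mV x).2 hx⟩ = ∑ b, lam v * cU v b * j (x b) := by
        intro v
        rw [hc', Finset.mul_sum]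
        refine Finset.sum_congr rfl fun b _ => ?_
        ring
      rw [Finset.sum_congr rfl fun v _ => h2 v, Finset.sum_comm]
      exact Finset.sum_congr rfl fun b _ => Finset.sum_mul _ _ _)
    choose lt hlt using fun v => ultMk_surjective U L (lam v)
    choose mt hmt using fun r => ultMk_surjective U L (mu r)
    have h1 : ∀ b, ∀ᶠ t in (U : Filter ℕ), ∑ v, lt v t * c t v b = ∑ r, mt r t * φ t (Gz r b) := by
      intro b
      rw [← ultMk_eq U L (x := fun t => ∑ v, lt v t * c t v b) (y := fun t => ∑ r, mt r t * φ t (Gz r b))]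
      have e1 : (fun t => ∑ v, lt v t * c t v b) = ∑ v, lt v * (fun t => c t v b) := by
        funext t
        rw [Finset.sum_apply]
        rfl
      have e2 : (fun t => ∑ r, mt r t * φ t (Gz r b)) = ∑ r, mt r * (fun t => φ t (Gz r b)) := by
        funext t
        rw [Finset.sum_apply]
        rfl
      rw [e1, e2, map_sum, map_sum]
      have h2 := hmu b
      refine Eq.trans ?_ (h2.trans ?_)
      · refine Finset.sum_congr rfl fun v _ => ?_
        rw [map_mul, hlt]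
      · refine Finset.sum_congr rfl fun r _ => ?_
        rw [map_mul, hmt, hjφ]
    have h2 : ∀ᶠ t in (U : Filter ℕ), ∀ b, ∑ v, lt v t * c t v b = ∑ r, mt r t * φ t (Gz r b) :=
      Filter.eventually_all.2 h1
    funext v
    rw [← hlt v, Pi.zero_apply, ultMk_eq_zero]
    refine h2.mono fun t ht => ?_
    have h3 := hc t (fun v => lt v t) (fun r => -mt r t) fun b => by
      rw [ht b, ← Finset.sum_add_distrib]
      refine Finset.sum_eq_zero fun r _ => ?_
      ring
    exact congrFun h3 v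
  · rintro γ v ⟨x, hx⟩ ⟨y, hy⟩ hxy
    obtain ⟨x', rfl⟩ := E.surjective x
    have hx0 := (mV x').1 hx
    have h1 : y = E fun b' => DK γ (x' b') + ∑ b, φK (G γ d b' b) * x' b := by
      change (prC (bI φK P)).gaussManin d (DK γ) (E x') y at hxy
      rw [hE] at hxy ⊢
      exact nab_coordU hPhom hDP (V γ) (hGm γ) φK (DK γ) (hDφ γ) hxy
    subst h1
    simp only [hc']
    change DU γ (∑ b, j (x' b) * cU v b) = ∑ b', j (DK γ (x' b') + ∑ b, φK (G γ d b' b) * x' b) * cU v b' +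
      ∑ v', νU γ v v' * ∑ b, j (x' b) * cU v' b
    rw [map_sum]
    have e1 : ∀ b, DU γ (j (x' b) * cU v b) = j (DK γ (x' b)) * cU v b +
        ((∑ b', j (x' b) * (cU v b' * j (φK (G γ d b' b)))) + (∑ v', νU γ v v' * (j (x' b) * cU v' b)) +
          ∑ r, ξU γ v r * j (φK (Gz r b) * x' b)) := by
      intro b
      rw [Derivation.leibniz, smul_eq_mul, smul_eq_mul, hDU, hrelU, mul_add, mul_add, Finset.mul_sum, Finset.mul_sum,
        Finset.mul_sum, add_comm (_ + _ + _), mul_comm (cU v b)]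
      congr 2
      · congr 1
        exact Finset.sum_congr rfl fun v' _ => by ring
      · refine Finset.sum_congr rfl fun r _ => ?_
        rw [map_mul]
        ring
    rw [Finset.sum_congr rfl fun b _ => e1 b, Finset.sum_add_distrib, Finset.sum_add_distrib, Finset.sum_add_distrib]
    have e2 : ∑ b', j (DK γ (x' b') + ∑ b, φK (G γ d b' b) * x' b) * cU v b' =
        ∑ b, j (DK γ (x' b)) * cU v b + ∑ b, ∑ b', j (x' b) * (cU v b' * j (φK (G γ d b' b))) := by
      rw [Finset.sum_comm, ← Finset.sum_add_distrib]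
      refine Finset.sum_congr rfl fun b' _ => ?_
      rw [map_add, add_mul, map_sum, Finset.sum_mul]
      congr 1
      refine Finset.sum_congr rfl fun b _ => ?_
      rw [map_mul]
      ring
    have e3 : ∑ v', νU γ v v' * ∑ b, j (x' b) * cU v' b = ∑ b, ∑ v', νU γ v v' * (j (x' b) * cU v' b) := by
      simp only [Finset.mul_sum]
      exact Finset.sum_comm
    have e4 : ∑ b, ∑ r, ξU γ v r * j (φK (Gz r b) * x' b) = 0 := by
      rw [Finset.sum_comm]
      refine Finset.sum_eq_zero fun r _ => ?_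
      rw [← Finset.mul_sum, ← map_sum, hx0 r, map_zero, mul_zero]
    rw [e2, e3, e4, add_zero, add_assoc]
  · intro lam hlam
    have h1 : ((∑ v, lam v • (⟨E (fun b => φK (f v b)), hfV v⟩ : ↥V') : ↥V') : (prC (bI φK P)).HdR d) =
        E fun b => ∑ v, lam v * φK (f v b) := by
      rw [Submodule.coe_sum]
      have h2 : (fun b => ∑ v, lam v * φK (f v b)) = ∑ v, lam v • fun b => φK (f v b) := by
        funext b
        rw [Finset.sum_apply]
        rfl
      rw [h2, map_sum]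
      exact Finset.sum_congr rfl fun v _ => (map_smul E _ _).symm
    have h2 : E (fun b => ∑ v, lam v * φK (f v b)) ∈ V' := by
      rw [← h1]
      exact Subtype.property _
    rw [h1] at hlam
    obtain ⟨mu, hmu⟩ := (mT _ h2).1 hlam
    refine hG.f_ind lam (fun s => -mu s) fun b => ?_
    rw [hmu b, ← Finset.sum_add_distrib]
    refine Finset.sum_eq_zero fun s _ => ?_
    ring
  · have h1 := det_ult U L fun t => (Matrix.of fun v u : S => ∑ b, c t v b * φ t (f u b))
    have h2 : (Matrix.of fun v u : S => c' v ⟨E (fun b => φK (f u b)), hfV u⟩) =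
        Matrix.of fun v u => ultMk U L fun t => (Matrix.of fun v u : S => ∑ b, c t v b * φ t (f u b)) v u := by
      ext v u
      change c' v ⟨E (fun b => φK (f u b)), hfV u⟩ = ultMk U L fun t => ∑ b, c t v b * φ t (f u b)
      rw [hc']
      have e1 : (fun t => ∑ b, c t v b * φ t (f u b)) = ∑ b, (fun t => c t v b) * (fun t => φ t (f u b)) := by
        funext t
        rw [Finset.sum_apply]
        rfl
      rw [e1, map_sum]
      refine Finset.sum_congr rfl fun b _ => ?_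
      rw [map_mul, hjφ, mul_comm]
    rw [h2, h1, ultMk_eq_zero]
    exact Filter.Eventually.of_forall fun t => hdet t

end MPadcHS
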