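import Pool.Agent.Lib.MP_adc574_ag_HS.UlB
import Pool.Agent.Lib.MP_adc574_ag_HS.UlC
import Pool.Agent.Lib.MP_adc574_ag_HS.SpE
import Pool.Agent.Lib.MP_adc574_ag_HS.FiA
import Pool.Agent.Lib.MP_adc574_ag_DC.PPB
import Pool.Agent.Lib.MP_adc574_ag_DC.PWgA

/-!
# JOB UlD (HS, Part P): one Hodge level `i` in the middle degree, for large `p`

* `phi_ne`: `b * algebraMap g ^ k = algebraMap x` for some `x : Ra R₀ n 1`, `k` (`IsLocalization.Away`), `x ≠ 0` (`algebraMap` injective: `R₀` domain, `g ≠ 0`); `r :=` a nonzero coefficient of `x`. If `ψ r ≠ 0` then `map ψ x ≠ 0`, so `φ (algebraMap x) ≠ 0` (`IsFractionRing.injective`), so `φ b ≠ 0`.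
* `gd_at`: `bI φ Q = bI (algebraMap (Ra κ n 1) L) (cycG (bI ψ I₀) 1)` (`hQ`, `bI_bI`, `bI_cycG_map`, `hφ`: see `hideal` in DC/PNof.lean), `bI φ P = hyp (bI φ Q)` (`bI_hyp` GyA); `gd_gen` (FiA) over `R := κ`, `M := nonZeroDivisors`; smoothness: `IsSmoothProj.map`.
* `hyp_large_one`: as `weight_large_one` (DC/PWg1.lean). First `exists_good` (SpE): `κ₀ := AlgebraicClosure (FractionRing R₀)`, `ψ₀ : R₀ → κ₀` injective, `K₀ := FractionRing (Ra κ₀ n 1)`, `j₀` from `exists_phi ψ₀ g _ B K₀` (`map ψ₀ g ≠ 0`: `MvPolynomial.map_injective`), injective by the argument of `phi_ne` (`ψ₀ r ≠ 0` for all `r ≠ 0`), `DK` from `exists_derMv`, `gd_at` for `j₀`, `hakn`, and `hV`, `hT` from `hkey κ₀ ψ₀ _ K₀ DK _ (bI j₀ Q) (bI j₀ P)` (the submodules `V`, `T` describe `Vg`, `Tr`).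
  `Gd Q P` over `B` itself: `gd_gen` over `R := R₀`, `M := Submonoid.powers g`. `D` on `B`: `exists_derLoc g B (dR R₀ γ)`; `V γ`, `G γ`: `exists_Gu` (SpA).
  `exists_good` gives `ρ τ S Gz U' f g₂`. `r₂` from `phi_ne` for `g₂`. By contradiction as in `weight_large_one`: for every `t` a counterexample `p t ≥ t + N r + N r₂ + 1`, `κ t`, `ψ t`, `L t`, `φ t` and a class `x t ≠ 0` in `Con d i ⊓ Fil d (i + 1)`. `φ t g₂ ≠ 0`, so `GoodH` at `φ t` (`gd_at`); `Dgn` for both (`dgn_of` SpA, `p`-basis `exists_pbas_ratfun`, `charP_ratfun`, DC/PPB.lean); `DL t` from `exists_derMv`, compatible with `D` by the last part of `exists_phi` (the homomorphism given by `exists_phi` equals `φ t`: `IsLocalization.ringHom_ext`). `opp_mid` (UlB) gives `c t`, `ν t`, `ξ t`. `no_familyH` (UlC) with `U := Filter.hyperfilter ℕ`; its `hgood`: for injective `φ`, `φ g₂ ≠ 0`, `gd_at`, so `GoodH`, in particular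 `GoodL`.
-/

set_option autoImplicit false

namespace MPadcHS

open MvPolynomial MPadcGP MPadcDC MPadcGM

universe u v w

theorem phi_ne {R₀ : Type u} [CommRing R₀] [IsDomain R₀] {n : ℕ} (g : Ra R₀ n 1) (hg : g ≠ 0) (B : Type u) [CommRing B]
    [Algebra (Ra R₀ n 1) B] [IsLocalization.Away g B] (b : B) (hb : b ≠ 0) :
    ∃ r : R₀, r ≠ 0 ∧ ∀ (κ : Type u) [Field κ] (ψ : R₀ →+* κ) (L : Type u) [Field L] [Algebra (Ra κ n 1) L]
      [IsFractionRing (Ra κ n 1) L] (φ : B →+* L),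
      (∀ x, φ (algebraMap (Ra R₀ n 1) B x) = algebraMap (Ra κ n 1) L (MvPolynomial.map ψ x)) → ψ r ≠ 0 → φ b ≠ 0 := by
  have _ := hg
  obtain ⟨k, x, hx⟩ := IsLocalization.Away.surj g b
  have hu : IsUnit (algebraMap (Ra R₀ n 1) B g ^ k) := (IsLocalization.Away.algebraMap_isUnit g).pow k
  have hx0 : x ≠ 0 := by
    intro h0
    rw [h0, map_zero] at hx
    exact hb (hu.mul_left_eq_zero.1 hx)
  obtain ⟨γ₀, hγ₀⟩ : ∃ γ₀, MvPolynomial.coeff γ₀ x ≠ 0 := by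
    by_contra hne
    push Not at hne
    exact hx0 (MvPolynomial.ext _ _ fun m => by rw [hne m, MvPolynomial.coeff_zero])
  refine ⟨MvPolynomial.coeff γ₀ x, hγ₀, fun κ _ ψ L _ _ _ φ hφ hr h0 => hr ?_⟩
  have h1 : algebraMap (Ra κ n 1) L (MvPolynomial.map ψ x) = 0 := by
    rw [← hφ, ← hx, map_mul, h0, zero_mul]
  have h2 : (MvPolynomial.map ψ x : Ra κ n 1) = 0 :=
    (IsFractionRing.injective (Ra κ n 1) L) (by rw [h1, map_zero])
  have h3 := congrArg (MvPolynomial.coeff γ₀) h2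
  rw [coeff_map, MvPolynomial.coeff_zero] at h3
  exact h3

theorem gd_at {R₀ : Type u} [CommRing R₀] {n : ℕ} {I₀ : Ideal (MvPolynomial (Fin n) R₀)} (hI₀ : IsHomog I₀)
    (B : Type u) [CommRing B] [Algebra (Ra R₀ n 1) B]
    {Q P : Ideal (MvPolynomial (Fin (n + 1)) B)} (hQ : Q = bI (algebraMap (Ra R₀ n 1) B) (cycG I₀ 1)) (hP : P = hyp Q)
    (hsQ : IsSmoothProj Q) (κ : Type u) [Field κ] (ψ : R₀ →+* κ) (L : Type u) [Field L] [Algebra (Ra κ n 1) L]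
    [IsFractionRing (Ra κ n 1) L] (φ : B →+* L)
    (hφ : ∀ x, φ (algebraMap (Ra R₀ n 1) B x) = algebraMap (Ra κ n 1) L (MvPolynomial.map ψ x)) :
    bI φ Q = bI (algebraMap (Ra κ n 1) L) (cycG (bI ψ I₀) 1) ∧ bI φ P = hyp (bI φ Q) ∧ Gd (bI φ Q) (bI φ P) := by
  have hhQ : IsHomog Q := by
    rw [hQ]
    exact (isHomog_cycG hI₀).map _
  have h1 : bI φ Q = bI (algebraMap (Ra κ n 1) L) (cycG (bI ψ I₀) 1) := by
    rw [hQ, ← bI_cycG_map, bI_bI, bI_bI]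
    congr 1
    exact RingHom.ext hφ
  have h2 : bI φ P = hyp (bI φ Q) := by
    rw [hP, bI_hyp]
  exact ⟨h1, h2, gd_gen (hI₀.map ψ) (nonZeroDivisors (Ra κ n 1)) L h1 h2 (hsQ.map hhQ φ)⟩

theorem hyp_large_one {R₀ : Type u} [CommRing R₀] [IsDomain R₀] [CharZero R₀] {n : ℕ}
    {I₀ : Ideal (MvPolynomial (Fin n) R₀)} (hI₀ : IsHomog I₀) (d : ℕ)
    (hkey : ∀ (κ₀ : Type u) [Field κ₀] [IsAlgClosed κ₀] [CharZero κ₀] (ψ₀ : R₀ →+* κ₀), Function.Injective ψ₀ →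
      KeyPosH (bI ψ₀ I₀) d)
    (hakn : ∀ (κ₀ : Type u) [Field κ₀] [IsAlgClosed κ₀] [CharZero κ₀] (ψ₀ : R₀ →+* κ₀), Function.Injective ψ₀ →
      ∀ (K : Type u) [Field K] [Algebra (Ra κ₀ n 1) K] [IsFractionRing (Ra κ₀ n 1) K]
        (Q P : Ideal (MvPolynomial (Fin (n + 1)) K)) (hle : Q ≤ P),
        Q = bI (algebraMap (Ra κ₀ n 1) K) (cycG (bI ψ₀ I₀) 1) → P = hyp Q → Akn hle d)
    (g : Ra R₀ n 1) (hg : g ≠ 0) (B : Type u) [CommRing B] [IsDomain B] [CharZero B] [Algebra.FiniteType ℤ B]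
    [Algebra (Ra R₀ n 1) B] [IsLocalization.Away g B] {Q P : Ideal (MvPolynomial (Fin (n + 1)) B)}
    (hQ : Q = bI (algebraMap (Ra R₀ n 1) B) (cycG I₀ 1)) (hP : P = hyp Q) (hle : Q ≤ P)
    (hsQ : IsSmoothProj Q) (hsP : IsSmoothProj P) {β : ℕ → Type} [∀ m, Fintype (β m)] [∀ m, DecidableEq (β m)]
    {lev : ∀ m, β m → ℕ} {z : ∀ m, β m → (prC Q).Ch} {h : ℕ → ℕ → ℕ} (hDQ : Dat Q lev z h)
    {β' : ℕ → Type} [∀ m, Fintype (β' m)] [∀ m, DecidableEq (β' m)] {lev' : ∀ m, β' m → ℕ}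
    {z' : ∀ m, β' m → (prC P).Ch} {h' : ℕ → ℕ → ℕ} (hDP : Dat P lev' z' h') (N : R₀ → ℕ) (i : ℕ) :
    ∃ p₀ : ℕ, ∀ p : ℕ, p₀ ≤ p → p.Prime → ∀ (κ : Type u) [Field κ] [IsAlgClosed κ] [CharP κ p]
      (ψ : R₀ →+* κ), (∀ r : R₀, r ≠ 0 → N r < p → ψ r ≠ 0) → ∀ (L : Type u) [Field L] [Algebra (Ra κ n 1) L]
      [IsFractionRing (Ra κ n 1) L] (φ : B →+* L),
      (∀ x, φ (algebraMap (Ra R₀ n 1) B x) = algebraMap (Ra κ n 1) L (MvPolynomial.map ψ x)) →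
      IsOppC (prC (bI φ Q)) → (prC (bI φ P)).Con d i ⊓ (prC (bI φ P)).Fil d (i + 1) = ⊥ := by
  classical
  have hhQ : IsHomog Q := by
    rw [hQ]
    exact (isHomog_cycG hI₀).map _
  have hhP : IsHomog P := by
    rw [hP]
    exact isHomog_hyp hhQ
  -- the geometric generic point
  let κ₀ : Type u := AlgebraicClosure (FractionRing R₀)
  let ψ₀ : R₀ →+* κ₀ := (algebraMap (FractionRing R₀) κ₀).comp (algebraMap R₀ (FractionRing R₀))
  have hψ₀ : Function.Injective ψ₀ :=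
    (algebraMap (FractionRing R₀) κ₀).injective.comp (IsFractionRing.injective R₀ (FractionRing R₀))
  have hc0 : CharZero κ₀ := charZero_of_injective_ringHom hψ₀
  let K₀ : Type u := FractionRing (Ra κ₀ n 1)
  have hmap₀ : (MvPolynomial.map ψ₀ g : Ra κ₀ n 1) ≠ 0 := fun h0 =>
    hg (MvPolynomial.map_injective ψ₀ hψ₀ (by rw [h0, map_zero]))
  obtain ⟨j₀, hj₀, hj₀D⟩ := exists_phi ψ₀ g hmap₀ B K₀
  have hinj : Function.Injective j₀ := by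
    rw [injective_iff_map_eq_zero]
    intro b hb
    by_contra hb0
    obtain ⟨r, hr, hr'⟩ := phi_ne g hg B b hb0
    exact hr' κ₀ ψ₀ K₀ j₀ hj₀ (fun h0 => hr (hψ₀ (by rw [h0, map_zero]))) hb
  obtain ⟨DK, hDK⟩ := exists_derMv (κ := κ₀) (n := n) (e := 1) K₀
  obtain ⟨e1, e2, hGd₀⟩ := gd_at hI₀ B hQ hP hsQ κ₀ ψ₀ K₀ j₀ hj₀
  have hakn₀ : Akn (le_map j₀ hle) d := hakn κ₀ ψ₀ hψ₀ K₀ (bI j₀ Q) (bI j₀ P) (le_map j₀ hle) e1 e2
  obtain ⟨VV, TT, hVV, hTT, hVs, hTs, -⟩ :=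
    hkey κ₀ ψ₀ hψ₀ K₀ DK hDK (bI j₀ Q) (bI j₀ P) (le_map j₀ hle) e1 e2
  have hGB : Gd Q P := gd_gen hI₀ (Submonoid.powers g) B hQ hP hsQ
  choose D hD using fun γ : Mon n 1 => exists_derLoc g B (dR R₀ γ)
  choose V G hG using fun γ => exists_Gu hhP hDP hsP (D γ)
  obtain ⟨ρ, τ, S, iρ, iτ, iS, iSd, Gz, U', f, g₂, hg₂, hgood⟩ := exists_good hGB hle hDQ hDP d i D V hG j₀ hinj hGd₀
    DK (hj₀D D hD DK hDK) hakn₀ (fun γ x y hx hy => (hVV y).1 (hVs γ x y ((hVV x).2 hx) hy))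
    (fun γ x y hx hy => (hTT y).1 (hTs γ x y ((hTT x).2 hx) hy))
  obtain ⟨r₂, hr₂, hr₂'⟩ := phi_ne g hg B g₂ hg₂
  by_contra hcon
  push Not at hcon
  choose p hple hpr κ iF iA iC ψ hψ L iL iLa iLf φ hφ hopp hbad using fun t : ℕ => hcon (t + N r₂ + 1)
  have hne : ∀ t, φ t g₂ ≠ 0 := fun t =>
    hr₂' (κ t) (ψ t) (L t) (φ t) (hφ t) (hψ t r₂ hr₂ (by have := hple t; omega))
  have hGt : ∀ t, Gd (bI (φ t) Q) (bI (φ t) P) := fun t =>
    (gd_at hI₀ B hQ hP hsQ (κ t) (ψ t) (L t) (φ t) (hφ t)).2.2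
  have hmap : ∀ t, (MvPolynomial.map (ψ t) g : Ra (κ t) n 1) ≠ 0 := by
    intro t h0
    have h1 : IsUnit (φ t (algebraMap (Ra R₀ n 1) B g)) := (IsLocalization.Away.algebraMap_isUnit g).map (φ t)
    rw [hφ t, h0, map_zero] at h1
    exact not_isUnit_zero h1
  choose DL hDL using fun t => exists_derMv (κ := κ t) (n := n) (e := 1) (L t)
  have hφD : ∀ t γ x, DL t γ (φ t x) = φ t (D γ x) := by
    intro t
    obtain ⟨φ', hφ', hφD'⟩ := exists_phi (ψ t) g (hmap t) B (L t)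
    have h1 : φ t = φ' :=
      IsLocalization.ringHom_ext (Submonoid.powers g) (RingHom.ext fun x => (hφ t x).trans (hφ' x).symm)
    rw [h1]
    exact hφD' D hD (DL t) (hDL t)
  have hcL : ∀ t, CharP (L t) (p t) := fun t => charP_ratfun (κ := κ t) (σ := Mon n 1) (p t) (L t)
  have hfun : ∀ t, ∃ (c : S → β' d → L t) (ν : Mon n 1 → Matrix S S (L t)) (ξ : Mon n 1 → S → ρ → L t),
      (∀ (lam : S → L t) (mu : ρ → L t), (∀ b, ∑ v, lam v * c v b + ∑ r, mu r * φ t (Gz r b) = 0) → lam = 0) ∧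
      (∀ γ v b, DL t γ (c v b) = ∑ b', c v b' * φ t (G γ d b' b) + ∑ v', ν γ v v' * c v' b +
        ∑ r, ξ γ v r * φ t (Gz r b)) ∧
      (∀ v s, ∑ b, c v b * φ t (U' s b) = 0) ∧ (Matrix.of fun v u => ∑ b, c v b * φ t (f u b)).det = 0 := by
    intro t
    have hfp : Fact (p t).Prime := ⟨hpr t⟩
    have hcLt := hcL t
    obtain ⟨Λ, iΛ, bb, hbb⟩ := exists_pbas_ratfun (κ := κ t) (σ := Mon n 1) (p := p t) (L t)
    obtain ⟨x, hx, hx0⟩ := Submodule.exists_mem_ne_zero_of_ne_bot (hbad t)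
    exact opp_mid hhP hle hDP d i D V hG (φ t) (hGt t) (hgood (L t) (φ t) (hne t) (hGt t))
      (dgn_of hhP hDP hsP (φ t) hbb) (dgn_of hhQ hDQ hsQ (φ t) hbb) (hopp t) (DL t) (hφD t) hx.1 hx.2 hx0
  choose c ν ξ hc hrel hU hdet using hfun
  have hev : ∀ N' : ℕ, ∀ᶠ t in ((Filter.hyperfilter ℕ : Ultrafilter ℕ) : Filter ℕ), N' < t := fun N' =>
    Filter.hyperfilter_le_cofinite (by
      rw [Nat.cofinite_eq_atTop]
      exact Filter.eventually_gt_atTop N')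
  refine no_familyH hI₀ d hkey g hg B hQ hP hle hDP D hD V hG i (Gz := Gz) (U' := U') (f := f) ?_
    (Filter.hyperfilter ℕ) κ iA p iC hpr ?_ ψ ?_ L φ hφ DL hDL c ν ξ hc hrel hU hdet
  · intro K _ φ₁ hφ₁ κ₁ _ ψ₁ _ _ h1
    refine (hgood K φ₁ (fun h0 => hg₂ (hφ₁ (by rw [h0, map_zero]))) ?_).lin
    exact (gd_at hI₀ B hQ hP hsQ κ₁ ψ₁ K φ₁ h1).2.2
  · intro N'
    filter_upwards [hev N'] with t ht
    have := hple t
    omega
  · intro r' hr'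
    filter_upwards [hev (N r')] with t ht
    refine hψ t r' hr' ?_
    have := hple t
    omega

end MPadcHS
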