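import Pool.Agent.Lib.MP_adc574_ag_HS.VDefs
import Pool.Agent.Lib.MP_adc574_ag_DC.W1Q

/-!
# JOB V1A (HS): forms along a divisor, local theory

`R` = functions on a chart of `Y`, `t` the equation of the divisor, `u : R → R'` inverts `t` (`s = 1 / t`), `r : R → R'' = R / t`. `dlog t = fz s * df (u t)`.
* `loc_res_zero`: multiply `h` by `fz (u t)` (`fz` of a function is central, `fz (u t) * fz s = 1`): `mp u (df t * α + fz t * β) = 0`, so `df t * α + fz t * β = 0` (`hinj`). Apply the contraction `ct A D` (`ct_df_mul`: `ct (df t * α) = fz (D t) * α - df t * ct α`; `ct (fz t * β) = fz t * ct β`, as `ct A D` is `R`-linear, `fz_smul`; `ct_mul`):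
  `fz (D t) * α = df t * ct α - fz t * ct β`. Apply `mp r` (ring homomorphism; `mp_fz`, `mp_df`, `r t = 0`, so `mp r (fz t) = 0`, `mp r (df t) = df (r t) = 0`): `mp r (fz (D t)) * mp r α = 0`; `r (D t) = 1 - r g * r t = 1`. So `mp r α = 0`.
* `loc_ker`: put `N := {fz t * a + df t * b | a b : Fm A R}` (an additive subgroup). `W1_desc` (DC/W1Q.lean) with `π = r` as an `A`-algebra homomorphism, `g = t`, `Z = Fm A R ⧸ N`, `R = QuotientAddGroup.mk' N` (kills `fz t * ω` and `df t * ω`): gives `R'` with `R' (mp r ω) = mk ω`, so `mk α = 0`: `α = fz t * a + df t * b`. Degrees: project to the degree `q`: `Fm A R` is graded by the `Fd A R q`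
  (`DirectSum.decompose (fun i : ℕ => ⋀[R]^i (Ω[R⁄A]))`, see DC/W1D.lean `W1_dec` and GP for lemmas on `Fd`; `fz t * Fd p ⊆ Fd p` (`fz_mul_mem`), `df t * Fd p ⊆ Fd (p + 1)` (`df_mul_mem` or similar)): write `a = ∑ a_p`, `b = ∑ b_p` by components; the component of degree `q` of the equation is `α = fz t * a_q + df t * b_{q-1}` (`b`-term absent if `q = 0`).
* `loc_reg`: `α = fz t * α₁ + df t * α₂` (`loc_ker`), so `dlog t * mp u α = fz s * fz (u t) * (df (u t) * mp u α₁) + fz s * (df (u t) * df (u t)) * .. = mp u (df t * α₁)` (`df_sq`): `β := df t * α₁`.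
* `loc_lift`: `Fd` induction (`fd_ind`): `x` is a sum of terms `fz a * wd (t_i)`; lift the functions (`r` surjective): `mp r (fz a' * wd t') = fz a * wd t` (`mp_wd` or induction). Use the predicate `P x := ∃ α ∈ Fd A R q, mp r hr α = x`.
Find the exact names by grep in `Pool/Agent/Lib/MP_adc574_ag_GP/DRm.lean`, `DR.lean`, `GM.lean` and `Pool/Agent/Lib/MP_adc574_ag_DC/C1B.lean` (very similar computations).
-/

set_option autoImplicit false
set_option linter.unusedSectionVars false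

namespace MPadcHS

open MPadcGP MPadcDC

universe u

section local_theory

variable {A R R' R'' : Type u} [CommRing A] [CommRing R] [CommRing R'] [CommRing R''] [Algebra A R] [Algebra A R']
  [Algebra A R'']

/-- The residue is well defined. -/
theorem loc_res_zero (u : R →+* R') (hu : CC A A u) (r : R →+* R'') (hr : CC A A r) {t : R} {s : R'}
    (hs : u t * s = 1) (hinj : Function.Injective (mp u hu)) (hrt : r t = 0) (D : Derivation A R R) (g : R)
    (hD : D t + g * t = 1) {α β : Fm A R} (h : fz A s * df A (u t) * mp u hu α + mp u hu β = 0) :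
    mp r hr α = 0 := by
  have h1 : mp u hu (df A t * α + fz A t * β) = 0 := by
    have h2 : fz A (u t) * (fz A s * df A (u t) * mp u hu α + mp u hu β) = 0 := by rw [h, mul_zero]
    rw [mul_add, ← mul_assoc, ← mul_assoc, ← map_mul, hs, map_one, one_mul] at h2
    rw [map_add, map_mul, map_mul, mp_df, mp_fz, h2]
  have h3 : df A t * α + fz A t * β = 0 := hinj (by rw [h1, map_zero])
  have h4 := congrArg (ct A D) h3
  rw [map_add, ct_df_mul, ← fz_smul t β, map_smul, fz_smul, map_zero] at h4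
  have h5 := congrArg (mp r hr) h4
  rw [map_add, map_sub, map_mul, map_mul, map_mul, mp_fz, mp_fz, mp_df, hrt, map_zero, map_zero, df_zero, zero_mul,
    zero_mul, sub_zero, add_zero] at h5
  have h6 : r (D t) = 1 := by
    have h7 := congrArg r hD
    rw [map_add, map_mul, hrt, mul_zero, add_zero, map_one] at h7
    exact h7
  rw [h6, map_one, one_mul] at h5
  exact h5

private theorem V1A_ker (r : R →+* R'') (hr : CC A A r) (hb : ∀ a : A, r (algebraMap A R a) = algebraMap A R'' a)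
    (hsurj : Function.Surjective r) {t : R} (hker : ∀ x, r x = 0 → ∃ y, x = t * y) {α : Fm A R}
    (h : mp r hr α = 0) : ∃ a b : Fm A R, α = fz A t * a + df A t * b := by
  let N : AddSubgroup (Fm A R) :=
    { carrier := {x | ∃ a b, x = fz A t * a + df A t * b}
      zero_mem' := ⟨0, 0, by rw [mul_zero, mul_zero, add_zero]⟩
      add_mem' := by
        rintro x y ⟨a, b, rfl⟩ ⟨a', b', rfl⟩
        exact ⟨a + a', b + b', by rw [mul_add, mul_add]; abel⟩
      neg_mem' := by
        rintro x ⟨a, b, rfl⟩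
        exact ⟨-a, -b, by rw [mul_neg, mul_neg]; abel⟩ }
  have hN : ∀ x, x ∈ N ↔ ∃ a b, x = fz A t * a + df A t * b := fun x => Iff.rfl
  let π : R →ₐ[A] R'' := { r with commutes' := hb }
  have hπ : (π : R →+* R'') = r := rfl
  obtain ⟨F, hF⟩ := W1_desc π hsurj t hker (QuotientAddGroup.mk' N)
    (fun ω => (QuotientAddGroup.eq_zero_iff _).2 ((hN _).2 ⟨ω, 0, by rw [mul_zero, add_zero]⟩))
    (fun ω => (QuotientAddGroup.eq_zero_iff _).2 ((hN _).2 ⟨0, ω, by rw [mul_zero, zero_add]⟩))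
  have h1 := hF α
  have h2 : mp (π : R →+* R'') (CC.of_algHom π) α = 0 := (mp_congr _ hr hπ α).trans h
  rw [h2, map_zero] at h1
  exact (hN α).1 ((QuotientAddGroup.eq_zero_iff α).1 h1.symm)

/-- The forms which restrict to `0` on the divisor. -/
theorem loc_ker (r : R →+* R'') (hr : CC A A r) (hb : ∀ a : A, r (algebraMap A R a) = algebraMap A R'' a)
    (hsurj : Function.Surjective r) {t : R} (hker : ∀ x, r x = 0 → ∃ y, x = t * y) {q : ℕ} {α : Fm A R}
    (hα : α ∈ Fd A R q) (h : mp r hr α = 0) :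
    ∃ α₁ ∈ Fd A R q, ∃ α₂ : Fm A R, (∀ p, p + 1 = q → α₂ ∈ Fd A R p) ∧ (q = 0 → α₂ = 0) ∧
      α = fz A t * α₁ + df A t * α₂ := by
  classical
  obtain ⟨a, b, hab⟩ := V1A_ker r hr hb hsurj hker h
  have hα' : α ∈ (fun i : ℕ => ⋀[R]^i (Ω[R⁄A])) q := hα
  have h1 := DirectSum.decompose_of_mem_same (fun i : ℕ => ⋀[R]^i (Ω[R⁄A])) hα'
  have h2 : fz A t ∈ (fun i : ℕ => ⋀[R]^i (Ω[R⁄A])) 0 := fz_mem t
  have h3 : df A t ∈ (fun i : ℕ => ⋀[R]^i (Ω[R⁄A])) 1 := df_mem t
  have h4 : (DirectSum.decompose (fun i : ℕ => ⋀[R]^i (Ω[R⁄A])) (fz A t * a) q : Fm A R) =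
      fz A t * (DirectSum.decompose (fun i : ℕ => ⋀[R]^i (Ω[R⁄A])) a q : Fm A R) := by
    have h5 := DirectSum.coe_decompose_mul_add_of_left_mem (fun i : ℕ => ⋀[R]^i (Ω[R⁄A])) (j := q) (b := a) h2
    rwa [zero_add] at h5
  rcases q with _ | q
  · refine ⟨_, (DirectSum.decompose (fun i : ℕ => ⋀[R]^i (Ω[R⁄A])) a 0).2, 0, fun p hp => ?_, fun _ => rfl, ?_⟩
    · exact absurd hp (Nat.succ_ne_zero p)
    · have h5 : (DirectSum.decompose (fun i : ℕ => ⋀[R]^i (Ω[R⁄A])) (df A t * b) 0 : Fm A R) = 0 :=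
        DirectSum.coe_decompose_mul_of_left_mem_of_not_le (fun i : ℕ => ⋀[R]^i (Ω[R⁄A])) h3 (by omega)
      rw [hab, DirectSum.decompose_add, DirectSum.add_apply, Submodule.coe_add, h4, h5, add_zero] at h1
      rw [mul_zero, add_zero, h1, ← hab]
  · refine ⟨_, (DirectSum.decompose (fun i : ℕ => ⋀[R]^i (Ω[R⁄A])) a (q + 1)).2,
      (DirectSum.decompose (fun i : ℕ => ⋀[R]^i (Ω[R⁄A])) b q : Fm A R), fun p hp => ?_, fun h0 => ?_, ?_⟩
    · have h6 : p = q := Nat.succ_injective hp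
      subst h6
      exact (DirectSum.decompose (fun i : ℕ => ⋀[R]^i (Ω[R⁄A])) b p).2
    · exact absurd h0 (Nat.succ_ne_zero q)
    · have h5 : (DirectSum.decompose (fun i : ℕ => ⋀[R]^i (Ω[R⁄A])) (df A t * b) (q + 1) : Fm A R) =
          df A t * (DirectSum.decompose (fun i : ℕ => ⋀[R]^i (Ω[R⁄A])) b q : Fm A R) := by
        have h6 := DirectSum.coe_decompose_mul_add_of_left_mem (fun i : ℕ => ⋀[R]^i (Ω[R⁄A])) (j := q) (b := b) h3
        rwa [add_comm 1 q] at h6
      rw [hab, DirectSum.decompose_add, DirectSum.add_apply, Submodule.coe_add, h4, h5] at h1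
      rw [h1, ← hab]

/-- If `α` restricts to `0` then `dlog t ∧ α` is regular. -/
theorem loc_reg (u : R →+* R') (hu : CC A A u) (r : R →+* R'') (hr : CC A A r)
    (hb : ∀ a : A, r (algebraMap A R a) = algebraMap A R'' a) (hsurj : Function.Surjective r) {t : R} {s : R'}
    (hs : u t * s = 1) (hker : ∀ x, r x = 0 → ∃ y, x = t * y) {q : ℕ} {α : Fm A R}
    (hα : α ∈ Fd A R q) (h : mp r hr α = 0) :
    ∃ β ∈ Fd A R (q + 1), fz A s * df A (u t) * mp u hu α = mp u hu β := by
  obtain ⟨α₁, h1, α₂, -, -, rfl⟩ := loc_ker r hr hb hsurj hker hα h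
  refine ⟨df A t * α₁, ?_, ?_⟩
  · have h2 := fd_mul (df_mem (A := A) t) h1
    rwa [add_comm] at h2
  · rw [map_add, map_mul, map_mul, map_mul, mp_fz, mp_df, mul_add, ← mul_assoc (fz A s * df A (u t)) (df A (u t)),
      mul_assoc (fz A s) (df A (u t)) (df A (u t)), df_sq, mul_zero, zero_mul, add_zero,
      ← mul_assoc (fz A s * df A (u t)) (fz A (u t)), mul_assoc (fz A s) (df A (u t)) (fz A (u t)), ← fz_comm,
      ← mul_assoc (fz A s) (fz A (u t)), ← map_mul, mul_comm s, hs, map_one, one_mul]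

/-- Forms lift from the divisor. -/
theorem loc_lift (r : R →+* R'') (hr : CC A A r) (hsurj : Function.Surjective r) {q : ℕ} {x : Fm A R''}
    (hx : x ∈ Fd A R'' q) : ∃ α ∈ Fd A R q, mp r hr α = x := by
  refine fd_ind (P := fun x => ∃ α ∈ Fd A R q, mp r hr α = x) ?_ ?_ ?_ hx
  · exact ⟨0, Submodule.zero_mem _, map_zero _⟩
  · intro a t
    obtain ⟨a', rfl⟩ := hsurj a
    choose t' ht' using fun i => hsurj (t i)
    refine ⟨fz A a' * wd A t', fz_mul_mem _ (wd_mem _), ?_⟩
    rw [map_mul, mp_fz, mp_wd]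
    congr 2
    exact funext ht'
  · rintro a b ⟨a', ha', rfl⟩ ⟨b', hb', rfl⟩
    exact ⟨a' + b', Submodule.add_mem _ ha' hb', map_add _ _ _⟩

end local_theory

end MPadcHS
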