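import Pool.Agent.Lib.MP_adc574_ag_HS.VDefs

/-!
# JOB V1B (HS): reduction of the pole order

`u : R → R'` inverts `t`, `s = 1 / t`, `dl := fz s * df (u t)` (`= dlog t`), `v := D` a derivation with `v t + g t = 1`. Functions `fz x` are central; `mp u` is an injective ring homomorphism which commutes with `dd` (`mp_dd`).
(DIV) If `x ∈ Fd q`, `y ∈ Fd (q + 1)` and `df t * x = fz t * y` then `x = df t * a + fz t * b` with `a := ct D x`, `b := ct D y + fz g * x ∈ Fd q`: apply `ct D`: `fz (D t) * x - df t * ct D x = fz t * ct D y` and `fz (D t) = 1 - fz g * fz t`. If `q = 0` then `ct D x = 0` (`ct_mem_zero`), if `q = p + 1` then `ct D x ∈ Fd p` (`ct_mem`). This is DC/C1B.lean (`C1B_gen`, `div_zeta`).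
Proof of `loc_pole`: by `hden` there are `k`, `x ∈ Fd q` with `fz (u t) ^ k * η = mp u x`; induct on `k` (for all `η`, `x`).
* `k = 0`: `η = mp u x`: `ξ = 0`, `α = 0`, `β = x`.
* `k ≥ 1`: apply `dd` to `fz (u t) ^ k * η = mp u x` (`dd_mul`, `dd_fz`; `dd (fz (u t) ^ k) = k • (fz (u t) ^ (k - 1) * df (u t))`): `k • (fz (u t) ^ (k - 1) * df (u t) * η) + fz (u t) ^ k * dd η = mp u (dd x)`. Multiply by `fz (u t)` and use `dd η = dl * mp u α + mp u β`, `fz (u t) * dl = df (u t)`: `k • (df (u t) * mp u x) + mp u (fz t ^ k * (df t * α + fz t * β)) = mp u (fz t * dd x)`.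
  By injectivity `k • (df t * x) = fz t * dd x - fz t ^ k * (df t * α + fz t * β) = fz t * y'` with `y' := dd x - fz t ^ (k - 1) * (df t * α + fz t * β) ∈ Fd (q + 1)`. Divide by `k` (`CharZero K`, `Fm K R` is a `K`-module): (DIV) gives `x = df t * a + fz t * b`. So `η = (fz s) ^ k * mp u x = fz s ^ k * df (u t) * mp u a + fz s ^ (k - 1) * mp u b`.
  If `k = 1`: `η = dl * mp u a + mp u b`: done with `ξ = 0`. If `k = j + 2`: `ξ := -(j + 1 : K)⁻¹ • (fz s ^ (j + 1) * mp u a)`; `dd (fz s ^ (j + 1)) = -(j + 1) • (fz s ^ (j + 2) * df (u t))` (from `fz s ^ (j + 1) * fz (u t) ^ (j + 1) = 1`, or `dd (fz s) = - fz s * fz s * df (u t)`: apply `dd` to `fz s * fz (u t) = 1`): so `dd ξ = fz s ^ (j + 2) * df (u t) * mp u a - (j + 1)⁻¹ • (fz s ^ (j + 1) * mp u (dd a))`, and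
  `η - dd ξ = fz s ^ (j + 1) * mp u (b + (j + 1)⁻¹ • dd a)` has `fz (u t) ^ (j + 1) * (η - dd ξ) = mp u (b + ..)`, `b + .. ∈ Fd q`, `dd (η - dd ξ) = dd η`: induction hypothesis for `j + 1`. (If `q = 0`: `a = 0`, so `ξ = 0`.) If `q = p + 1`: `a ∈ Fd p`, `ξ ∈ Fd p`.
See DC/C1D.lean (the same computation for the cyclic cover, with the helper lemmas `c1d_dfpow`, `c1d_dfinv`, `c1d_dds`).
-/

set_option autoImplicit false
set_option linter.unusedSectionVars false

namespace MPadcHS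

open MPadcGP MPadcDC

universe u

section abs

variable {K : Type u} [Field K] [CharZero K] {R R' : Type u} [CommRing R] [Algebra K R] [CommRing R'] [Algebra K R']

omit [CharZero K] in
private theorem v1b_dfpow (t : R) (k : ℕ) :
    df K (t ^ k) = (k : R) • t ^ (k - 1) • df K t := by
  unfold df
  rw [Derivation.leibniz_pow, map_nsmul, map_smul, Nat.cast_smul_eq_nsmul]

omit [CharZero K] in
private theorem v1b_dfinv {t s : R} (h : t * s = 1) :
    df K s = -(s ^ 2 • df K t) := by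
  have h1 : df K (t * s) = 0 := by rw [h, df_one]
  rw [df_mul, ← fz_smul, ← fz_smul] at h1
  have h2 : s • (t • df K s + s • df K t) = 0 := by rw [h1, smul_zero]
  rw [smul_add, smul_smul, smul_smul, mul_comm s t, h, one_smul] at h2
  rw [pow_two]
  exact eq_neg_of_add_eq_zero_left h2

omit [CharZero K] in
private theorem v1b_dds (r : R) (a : Fm K R) :
    dd K (r • a) = df K r * a + r • dd K a := by
  rw [fz_smul, dd_mul, dd_fz, inv_fz, fz_smul]

omit [CharZero K] in
private theorem v1b_ddk (c : K) (a : Fm K R) :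
    dd K (algebraMap K R c • a) = algebraMap K R c • dd K a := by
  rw [v1b_dds, df_base, zero_mul, zero_add]

omit [CharZero K] in
private theorem v1b_div (D : Derivation K R R) (t g : R) (hD : D t + g * t = 1) {η x : Fm K R}
    (h : df K t * η = t • x) : η = df K t * ct K D η + t • (ct K D x + g • η) := by
  have h1 := congrArg (ct K D) h
  rw [ct_df_mul, map_smul, fz_smul] at h1
  have e : fz K (D t) * η = df K t * ct K D η + fz K t * ct K D x := by
    rw [← h1]
    abel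
  calc η = fz K (1 : R) * η := by rw [map_one, one_mul]
    _ = fz K (D t) * η + fz K (g * t) * η := by rw [← hD, map_add, add_mul]
    _ = df K t * ct K D η + t • (ct K D x + g • η) := by
      rw [e, mul_comm g, map_mul, fz_smul, fz_smul, mul_add, mul_assoc, add_assoc]

private theorem v1b_mod3 {E : Type u} [AddCommGroup E] [Module R E] {t s : R} {k : ℕ} {a b c d : E}
    (hu : t * s = 1) (h : t ^ (k + 1) • a = d) (hd : d = b + t • c) : t ^ k • a = s • b + c := by
  have h1 : t ^ k = s * t ^ (k + 1) := by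
    rw [pow_succ t k, ← mul_assoc, mul_comm s, mul_assoc, mul_comm s, hu, mul_one]
  rw [h1, ← smul_smul, h, hd, smul_add, smul_smul s t, mul_comm s, hu, one_smul]

private theorem v1b_mod4 {E : Type u} [AddCommGroup E] [Module R E] {s m c : R} {k : ℕ} {p b d b' : E}
    (hc : c * m = 1) (hp : p = -(s ^ 2 • d)) (hb : b = m • s ^ k • p + s ^ (k + 1) • b') :
    -(c • b) = s ^ (k + 2) • d - c • s ^ (k + 1) • b' := by
  rw [hb, hp, smul_add, smul_smul c m, hc, one_smul, smul_neg, smul_smul (s ^ k), ← pow_add, neg_add, neg_neg,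
    sub_eq_add_neg]

private theorem v1b_mod5 {E : Type u} [AddCommGroup E] [Module R E] {t s c : R} {k : ℕ} {e p y b d : E}
    (hu : t * s = 1) (he : t ^ (k + 1) • e = s • p + y) (hd : d = s ^ (k + 2) • p - c • s ^ (k + 1) • b) :
    t ^ (k + 1) • (e - d) = y + c • b := by
  have e10 : t ^ (k + 1) * s ^ (k + 1) = 1 := by rw [← mul_pow, hu, one_pow]
  rw [smul_sub, he, hd, smul_sub, smul_smul (t ^ (k + 1)) (s ^ (k + 2)), pow_succ s (k + 1), ← mul_assoc, e10, one_mul,
    smul_comm (t ^ (k + 1)) c, smul_smul (t ^ (k + 1)) (s ^ (k + 1)), e10, one_smul]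
  abel

/-- the differentiated equation -/
private theorem v1b_mod6 {E : Type u} [AddCommGroup E] [Module R E] {t s m : R} {k : ℕ} {a b c e : E}
    (hu : t * s = 1) (h : m • t ^ k • a + t ^ (k + 1) • (s • b + c) = e) :
    m • t ^ (k + 1) • a + t • (t ^ k • b + t ^ (k + 1) • c) = t • e := by
  have h1 : t ^ (k + 1) • s • b = t ^ k • b := by
    rw [smul_smul, pow_succ, mul_assoc, hu, mul_one]
  rw [← h, smul_add (t ^ (k + 1)) (s • b) c, h1, smul_add t (m • t ^ k • a), smul_comm t m, smul_smul t (t ^ k) a,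
    ← pow_succ']

private theorem v1b_mod7 {E : Type u} [AddCommGroup E] [Module R E] {t m m' : R} {a b c : E}
    (h : m • a + t • b = t • c) (hm : m' * m = 1) : a = t • m' • (c - b) := by
  have h1 : a = m' • (m • a) := by rw [smul_smul, hm, one_smul]
  rw [h1, eq_sub_of_add_eq h, smul_comm t m', smul_sub t]

private theorem v1b_main {T : Fm K R →+* Fm K R'} {τ : R →+* R'} {t g : R} {u : R'}
    (hTs : ∀ r e, T (r • e) = τ r • T e) (hTdf : ∀ r, T (df K r) = df K (τ r)) (hTdd : ∀ e, T (dd K e) = dd K (T e))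
    (hTm : ∀ q, ∀ e ∈ Fd K R q, T e ∈ Fd K R' q) (hT : Function.Injective T) (hu : τ t * u = 1)
    (D : Derivation K R R) (hD : D t + g * t = 1) {q : ℕ}
    {α β : Fm K R} (hα : α ∈ Fd K R q) (hβ : β ∈ Fd K R (q + 1)) (k : ℕ) :
    ∀ (η : Fm K R') (η₀ : Fm K R), η ∈ Fd K R' q → η₀ ∈ Fd K R q →
      dd K η = u • (df K (τ t) * T α) + T β → (τ t) ^ k • η = T η₀ →
      ∃ ξ : Fm K R', (∀ r, r + 1 = q → ξ ∈ Fd K R' r) ∧ (q = 0 → ξ = 0) ∧
        ∃ a : Fm K R, (∀ r, r + 1 = q → a ∈ Fd K R r) ∧ (q = 0 → a = 0) ∧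
          ∃ b ∈ Fd K R q, η - dd K ξ = u • (df K (τ t) * T a) + T b := by
  induction k with
  | zero =>
    intro η η₀ _ hη₀ _ h0
    rw [pow_zero, one_smul] at h0
    refine ⟨0, fun r _ => Submodule.zero_mem _, fun _ => rfl, 0, fun r _ => Submodule.zero_mem _, fun _ => rfl,
      η₀, hη₀, ?_⟩
    rw [map_zero, map_zero, mul_zero, smul_zero, zero_add, sub_zero, h0]
  | succ j ih =>
    intro η η₀ hη hη₀ hd h0
    have hk1 : ((j + 1 : ℕ) : K) ≠ 0 := Nat.cast_ne_zero.2 (by omega)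
    have e1 : ((j + 1 : ℕ) : R') • τ t ^ j • (df K (τ t) * η) +
        τ t ^ (j + 1) • (u • (df K (τ t) * T α) + T β) = T (dd K η₀) := by
      rw [hTdd, ← h0, v1b_dds, v1b_dfpow, smul_mul_assoc, smul_mul_assoc, hd]
      rfl
    have e2 : ((j + 1 : ℕ) : R) • (df K t * η₀) + t • (t ^ j • (df K t * α) + t ^ (j + 1) • β) = t • dd K η₀ := by
      apply hT
      rw [map_add, hTs, hTs, hTs, map_add, hTs, hTs, map_mul, map_mul, hTdf, ← h0, mul_smul_comm, map_pow, map_pow,
        map_natCast]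
      exact v1b_mod6 hu e1
    have hm : algebraMap K R ((j + 1 : ℕ) : K)⁻¹ * ((j + 1 : ℕ) : R) = 1 := by
      rw [← map_natCast (algebraMap K R), ← map_mul, inv_mul_cancel₀ hk1, map_one]
    have hdf1 : ∀ r : R, ∀ e ∈ Fd K R q, df K r * e ∈ Fd K R (q + 1) := by
      intro r e he
      have h4 : 1 + q = q + 1 := add_comm 1 q
      rw [← h4]
      exact fd_mul (df_mem _) he
    have e3 := v1b_mod7 e2 hm
    have hx : algebraMap K R ((j + 1 : ℕ) : K)⁻¹ • (dd K η₀ - (t ^ j • (df K t * α) + t ^ (j + 1) • β)) ∈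
        Fd K R (q + 1) :=
      Submodule.smul_mem _ _ (Submodule.sub_mem _ (dd_mem hη₀) (Submodule.add_mem _
        (Submodule.smul_mem _ _ (hdf1 t α hα)) (Submodule.smul_mem _ _ hβ)))
    have e5 := v1b_div D t g hD e3
    have hb : ∀ r, r + 1 = q → ct K D η₀ ∈ Fd K R r := by
      intro r hr
      rw [← hr] at hη₀
      exact ct_mem D hη₀
    have hb0 : q = 0 → ct K D η₀ = 0 := by
      intro hq
      rw [hq] at hη₀
      exact ct_mem_zero D hη₀
    have hy := Submodule.add_mem _ (ct_mem D hx) (Submodule.smul_mem (Fd K R q) g hη₀)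
    generalize ct K D η₀ = a at e5 hb hb0
    generalize ct K D (algebraMap K R ((j + 1 : ℕ) : K)⁻¹ •
      (dd K η₀ - (t ^ j • (df K t * α) + t ^ (j + 1) • β))) + g • η₀ = b at e5 hy
    have e6 : τ t ^ j • η = u • (df K (τ t) * T a) + T b := by
      refine v1b_mod3 hu h0 ?_
      rw [e5, map_add, map_mul, hTdf, hTs]
    cases j with
    | zero =>
      rw [pow_zero, one_smul] at e6
      refine ⟨0, fun r _ => Submodule.zero_mem _, fun _ => rfl, a, hb, hb0, b, hy, ?_⟩
      rw [map_zero, sub_zero, e6]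
    | succ i =>
      have hk : ((i + 1 : ℕ) : K) ≠ 0 := Nat.cast_ne_zero.2 (by omega)
      have hc' : algebraMap K R' ((i + 1 : ℕ) : K)⁻¹ * ((i + 1 : ℕ) : R') = 1 := by
        rw [← map_natCast (algebraMap K R'), ← map_mul, inv_mul_cancel₀ hk, map_one]
      have hc : τ (algebraMap K R ((i + 1 : ℕ) : K)⁻¹) = algebraMap K R' ((i + 1 : ℕ) : K)⁻¹ := by
        have h1 : τ (algebraMap K R ((i + 1 : ℕ) : K)⁻¹) * ((i + 1 : ℕ) : R') = 1 := by
          rw [← map_natCast τ, ← map_mul, ← map_natCast (algebraMap K R), ← map_mul, inv_mul_cancel₀ hk, map_one,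
            map_one]
        calc τ (algebraMap K R ((i + 1 : ℕ) : K)⁻¹)
            = τ (algebraMap K R ((i + 1 : ℕ) : K)⁻¹) *
                (algebraMap K R' ((i + 1 : ℕ) : K)⁻¹ * ((i + 1 : ℕ) : R')) := by rw [hc', mul_one]
          _ = (τ (algebraMap K R ((i + 1 : ℕ) : K)⁻¹) * ((i + 1 : ℕ) : R')) *
                algebraMap K R' ((i + 1 : ℕ) : K)⁻¹ := by ring
          _ = algebraMap K R' ((i + 1 : ℕ) : K)⁻¹ := by rw [h1, one_mul]
      let c' := algebraMap K R' ((i + 1 : ℕ) : K)⁻¹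
      let ξ₁ := -(c' • u ^ (i + 1) • T a)
      have e8 : dd K ξ₁ = u ^ (i + 2) • (df K (τ t) * T a) - c' • u ^ (i + 1) • T (dd K a) := by
        change dd K (-(algebraMap K R' ((i + 1 : ℕ) : K)⁻¹ • u ^ (i + 1) • T a)) = _
        rw [map_neg, v1b_ddk]
        refine v1b_mod4 (p := df K u * T a) hc' ?_ ?_
        · rw [v1b_dfinv hu, neg_mul, smul_mul_assoc]
        · rw [v1b_dds, v1b_dfpow, smul_mul_assoc, smul_mul_assoc, hTdd]
          rfl
      have e11 : τ t ^ (i + 1) • (η - dd K ξ₁) = T (b + algebraMap K R ((i + 1 : ℕ) : K)⁻¹ • dd K a) := by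
        rw [map_add, hTs, hc]
        exact v1b_mod5 hu e6 e8
      have hmb : ∀ r, r + 1 = q → ξ₁ ∈ Fd K R' r := fun r hr =>
        Submodule.neg_mem _ (Submodule.smul_mem _ _ (Submodule.smul_mem _ _ (hTm _ _ (hb r hr))))
      have hξ0 : q = 0 → ξ₁ = 0 := fun hq => by
        change -(c' • u ^ (i + 1) • T a) = 0
        rw [hb0 hq, map_zero, smul_zero, smul_zero, neg_zero]
      have hmd : dd K ξ₁ ∈ Fd K R' q := by
        rcases Nat.eq_zero_or_pos q with hq | hq
        · rw [hξ0 hq, map_zero]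
          exact Submodule.zero_mem _
        · obtain ⟨r, rfl⟩ := Nat.exists_eq_succ_of_ne_zero hq.ne'
          exact dd_mem (hmb r rfl)
      have hmdb : dd K a ∈ Fd K R q := by
        rcases Nat.eq_zero_or_pos q with hq | hq
        · rw [hb0 hq, map_zero]
          exact Submodule.zero_mem _
        · obtain ⟨r, rfl⟩ := Nat.exists_eq_succ_of_ne_zero hq.ne'
          exact dd_mem (hb r rfl)
      obtain ⟨ξ, h1, h2, a', h3, h4, b', h5, h6⟩ := ih _ _ (Submodule.sub_mem _ hη hmd)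
        (Submodule.add_mem _ hy (Submodule.smul_mem _ _ hmdb)) (by rw [map_sub, dd_dd, sub_zero, hd]) e11
      refine ⟨ξ₁ + ξ, fun r hr => Submodule.add_mem _ (hmb r hr) (h1 r hr), fun hq => ?_, a', h3, h4, b', h5, ?_⟩
      · rw [h2 hq, hξ0 hq, add_zero]
      · rw [map_add, ← sub_sub, h6]

end abs

/-- Reduction of the pole order to a logarithmic pole. -/
theorem loc_pole {K R R' : Type u} [Field K] [CharZero K] [CommRing R] [CommRing R'] [Algebra K R] [Algebra K R']
    (u : R →+* R') (hu : CC K K u) {t : R} {s : R'} (hs : u t * s = 1) (hinj : Function.Injective (mp u hu))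
    (hden : ∀ q, ∀ η ∈ Fd K R' q, ∃ k : ℕ, ∃ x ∈ Fd K R q, fz K (u t) ^ k * η = mp u hu x)
    (D : Derivation K R R) (g : R) (hD : D t + g * t = 1) {q : ℕ} {η : Fm K R'} (hη : η ∈ Fd K R' q)
    (hd : ∃ α ∈ Fd K R q, ∃ β ∈ Fd K R (q + 1), dd K η = fz K s * df K (u t) * mp u hu α + mp u hu β) :
    ∃ ξ : Fm K R', (∀ p, p + 1 = q → ξ ∈ Fd K R' p) ∧ (q = 0 → ξ = 0) ∧
      ∃ α : Fm K R, (∀ p, p + 1 = q → α ∈ Fd K R p) ∧ (q = 0 → α = 0) ∧
        ∃ β ∈ Fd K R q, η - dd K ξ = fz K s * df K (u t) * mp u hu α + mp u hu β := by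
  obtain ⟨α, hα, β, hβ, hd⟩ := hd
  obtain ⟨k, x, hx, h0⟩ := hden q η hη
  have h0' : (u t) ^ k • η = mp u hu x := by
    rw [fz_smul, map_pow, h0]
  have hform : ∀ a : Fm K R, fz K s * df K (u t) * mp u hu a = s • (df K (u t) * mp u hu a) := by
    intro a
    rw [fz_smul, mul_assoc]
  rw [hform] at hd
  obtain ⟨ξ, h1, h2, a, h3, h4, b, h5, h6⟩ := v1b_main (T := mp u hu) (τ := u) (t := t) (g := g) (u := s)
    (fun r e => mp_smul hu r e) (fun r => mp_df hu r) (fun e => mp_dd hu e) (fun q e he => mp_mem hu he) hinj hs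
    D hD hα hβ k η x hη hx hd h0'
  refine ⟨ξ, h1, h2, a, h3, h4, b, h5, ?_⟩
  rw [hform, h6]

end MPadcHS
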