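import Pool.Agent.Lib.MP_adc574_ag_HS.VDefs

/-!
# HS: the forms dlog t_C on smaller charts, the zero charts of the divisor

* `dl_rs`: `X.t C' = w * ρ h (X.t C)` with `w * v = 1` (`hX.tr`). On `D' := insert z C'` put `T := ro C' (ρ h (t C))` (`= ρ (t C)` restricted to `D'`, `CovD.ρ_comp`), `w' := ro C' w`, `v' := ro C' v`, `σ := ρ (s C) : Y.R D'` (restriction of `s C` from `insert z C` to `D'`): `T * σ = 1` (`hX.inv C` restricted). `s C'` is the inverse of `ro C' (t C') = w' * T` (`hX.inv C'`), so `s C' = v' * σ` (uniqueness of inverses).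
  `df (w' * T) = fz w' * df T + fz T * df w'` (`df_mul`). So `dl C' = fz (v' σ) * (fz w' * df T + fz T * df w') = fz σ * df T + fz v' * df w'`, and `rs (dl C) = fz σ * df T` (`rs_fz`, `rs_df`, `CovD.ρ_comp`). So `rs (dl C) = dl C' - re C' (fz v * df w)`, `θ := fz v * df w ∈ Fd 1`.
* `rs_re`: `CovD.rs_rs` twice.
* `s_zero`: a form over a ring with `0 = 1` is `0`.
* `rp_zero`: `X.rp α C = 0` for `z ∈ C` (`s_zero`), for `C = ∅` (`α ∅ = 0`), and for the other `C` by hypothesis: `funext`.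
-/

set_option autoImplicit false
set_option linter.unusedSectionVars false

namespace MPadcHS

open MPadcGP MPadcDC

universe u

variable {A : Type u} [CommRing A] {N : ℕ} {X : Dz A N}

private theorem V1C_alg {R : Type u} [CommRing R] {T σ w v s : R} (h1 : T * σ = 1) (h2 : w * v = 1)
    (h3 : w * T * s = 1) : s = v * σ := by
  calc s = s * (w * v) * (T * σ) := by rw [h1, h2, mul_one, mul_one]
    _ = (w * T * s) * (v * σ) := by ring
    _ = v * σ := by rw [h3, one_mul]

theorem dl_rs (hX : X.Ok) {C C' : Finset (Fin N)} (h : C ⊆ C') (hC : C.Nonempty) (hz : X.z ∉ C') :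
    ∃ θ ∈ Fd A (X.Y.R C') 1, X.Y.rs (Finset.insert_subset_insert X.z h) (X.dl C) = X.dl C' - X.re C' θ := by
  obtain ⟨w, v, hwv, ht⟩ := hX.tr h hC hz
  have hzC : X.z ∉ C := fun hh => hz (h hh)
  have hinv := hX.inv C hC hzC
  have hinv' := hX.inv C' (hC.mono h) hz
  have hT : X.Y.ρ (Finset.insert_subset_insert X.z h) (X.ro C (X.t C)) =
      X.ro C' (X.Y.ρ h (X.t C)) := by
    unfold Dz.ro
    rw [X.Y.ρ_comp, X.Y.ρ_comp]
  have h1 : X.ro C' (X.Y.ρ h (X.t C)) * X.Y.ρ (Finset.insert_subset_insert X.z h) (X.s C) = 1 := by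
    rw [← hT, ← map_mul, hinv, map_one]
  have h2 : X.ro C' w * X.ro C' v = 1 := by rw [← map_mul, hwv, map_one]
  have h3 : X.ro C' w * X.ro C' (X.Y.ρ h (X.t C)) * X.s C' = 1 := by
    rw [← map_mul, ← ht, hinv']
  have hs : X.s C' = X.ro C' v * X.Y.ρ (Finset.insert_subset_insert X.z h) (X.s C) :=
    V1C_alg h1 h2 h3
  have hL : X.Y.rs (Finset.insert_subset_insert X.z h) (X.dl C) =
      fz A (X.Y.ρ (Finset.insert_subset_insert X.z h) (X.s C)) *
        df A (X.ro C' (X.Y.ρ h (X.t C))) := by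
    unfold Dz.dl
    rw [map_mul, CovD.rs_fz, CovD.rs_df, hT]
  have hre : X.re C' (fz A v * df A w) = fz A (X.ro C' v) * df A (X.ro C' w) := by
    unfold Dz.re Dz.ro
    rw [map_mul, CovD.rs_fz, CovD.rs_df]
  have hR : X.dl C' = fz A (X.Y.ρ (Finset.insert_subset_insert X.z h) (X.s C)) *
        df A (X.ro C' (X.Y.ρ h (X.t C))) + fz A (X.ro C' v) * df A (X.ro C' w) := by
    unfold Dz.dl
    rw [ht, map_mul (X.ro C'), df_mul, hs]
    generalize X.Y.ρ (Finset.insert_subset_insert X.z h) (X.s C) = σ at h1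
    generalize X.ro C' (X.Y.ρ h (X.t C)) = T at h1
    generalize X.ro C' w = w' at h2
    generalize X.ro C' v = v' at h2
    have e1 : v' * σ * w' = σ := by
      calc v' * σ * w' = σ * (w' * v') := by ring
        _ = σ := by rw [h2, mul_one]
    have e2 : v' * σ * T = v' := by
      calc v' * σ * T = v' * (T * σ) := by ring
        _ = v' := by rw [h1, mul_one]
    rw [mul_add, ← mul_assoc, ← mul_assoc, ← map_mul (fz A) (v' * σ) w', ← map_mul (fz A) (v' * σ) T,
      e1, e2]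
  refine ⟨fz A v * df A w, fz_mul_mem v (df_mem w), ?_⟩
  rw [hL, hR, hre, add_sub_cancel_right]

theorem rs_re {C C' : Finset (Fin N)} (h : C ⊆ C') (x : X.Y.E C) :
    X.Y.rs (Finset.insert_subset_insert X.z h) (X.re C x) = X.re C' (X.Y.rs h x) := by
  unfold Dz.re
  rw [CovD.rs_rs, CovD.rs_rs]

theorem s_zero (hX : X.Ok) {C : Finset (Fin N)} (hz : X.z ∈ C) (x : X.S.E C) : x = 0 := by
  have hsub := hX.r_z C hz
  have h1 : (1 : X.S.R C) = 0 := Subsingleton.elim _ _
  calc x = fz A (1 : X.S.R C) * x := by rw [map_one, one_mul]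
    _ = 0 := by rw [h1, map_zero, zero_mul]

theorem rp_zero (hX : X.Ok) {α : X.Y.Ch} (h0 : α ∅ = 0)
    (h : ∀ C : Finset (Fin N), C.Nonempty → X.z ∉ C → X.r.e C (α C) = 0) : X.rp α = 0 := by
  funext C
  rw [Dz.rp_apply, CovD.Hm.push_apply]
  show X.r.e C (α C) = 0
  rcases Finset.eq_empty_or_nonempty C with hC | hC
  · rw [hC, h0, map_zero]
  · by_cases hz : X.z ∈ C
    · exact s_zero hX hz _
    · exact h C hC hz

end MPadcHS
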