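import Pool.Agent.Lib.MP_adc574_ag_HS.V1C

/-!
# JOB V2A (HS): the differential of a logarithmic cochain

`w` of degree `m + 2` with `w {z} = 0`, `w (insert z C) = dl C * re C (c C) + re C (β C)` for nonempty `C` without `z`; `c ∈ Tt m`, `β ∈ Tt (m + 1)`. Claim: `(Dt w) (insert z C) = - dl C * re C ((Dt c) C) + re C (κ C)`.
Fix `C` nonempty, `z ∉ C`, `D := insert z C`. `Dt w D = dd (w D) + ∑ j ∈ D, sg j D • ev (ic w) (D.erase j) D` (`CovD.Dt_apply`, `dc_apply`, `del_apply`), split the sum over `D = insert z C` (`Finset.sum_insert`).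
* `dd (w D) = dd (dl C * re (c C)) + re (dd (β C)) = - dl C * re (dd (c C)) + re (dd (β C))`: `dd (dl C) = 0` (`dl C = fz s * df (ro t)`, `dd = df s * df (ro t)`, and `df s = - fz (s * s) * df (ro t)` as `ro t * s = 1`: so it is a multiple of `df (ro t) * df (ro t) = 0`), `dd_mul` and `inv (dl C) = - dl C`.
* `j = z`: `D.erase z = C`: the term is `sg z D • re C (inv (w C))`, regular.
* `j ∈ C`, `C.erase j = ∅` (i.e. `C = {j}`): `D.erase j = {z}`, `w {z} = 0`: the term is `0`; also `c ∅ = 0`.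
* `j ∈ C`, `E := C.erase j` nonempty: `D.erase j = insert z E` (`j ≠ z`), `sg j D = sg j C` (`D.filter (· < j) = C.filter (· < j)`, as `j ≤ z` by `hX.last`), `ev (ic w) (D.erase j) D = inv (rs (w (insert z E))) = inv ((dl C - re C θ) * re C (rs (c E)) + re C (rs (β E)))` (`dl_rs`, `rs_re`; transport along `D.erase j = insert z E` with a cast lemma as `C2A_cast` in DC/C2A.lean)
  `= - dl C * re C (inv (rs (c E))) + re C (θ * inv (rs (c E)) + inv (rs (β E)))` (`inv (a * b) = inv a * inv b`, `inv (dl) = - dl`, `inv θ = - θ` for `θ ∈ Fd 1`).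
Sum: `Dt w D = - dl C * re C (dd (c C) + ∑ j ∈ C, sg j C • inv (rs (c (C.erase j)))) + re C (κ C)`, and the bracket is `Dt c C`. Here
`κ C := dd (β C) + sg z D • inv (w C) + ∑ j ∈ C, sg j C • (θ_j * inv (rs (c (C.erase j))) + inv (rs (β (C.erase j))))`, `κ C := 0` if `C = ∅` or `z ∈ C`. Degrees: `κ ∈ Tt (m + 2)`: `q + |C| = m + 3`: `dd (β C)`: `β C ∈ Fd (q - 1)`, `(q - 1) + |C| = m + 2`; `w C ∈ Fd q` (`w ∈ Tt (m + 2)`); `c (C.erase j) ∈ Fd (q - 1)` (`(q-1) + |C| - 1 = m + 1`), times `θ ∈ Fd 1`; `β (C.erase j) ∈ Fd q`. If `m + 3 < |C|` all are `0` (`β C`, `c (C.erase j)`, `β (C.erase j)`, `w C`).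
It may be convenient to prove first a version for one `C`: `∃ k : X.Y.E C, (degree conditions) ∧ equation`, and then `choose`.
-/

set_option autoImplicit false
set_option linter.unusedSectionVars false

namespace MPadcHS

open MPadcGP MPadcDC

universe u

variable {A : Type u} [CommRing A] {N : ℕ} {X : Dz A N}

private theorem V2A_ddl (hX : X.Ok) {C : Finset (Fin N)} (hC : C.Nonempty) (hz : X.z ∉ C) : dd A (X.dl C) = 0 := by
  have h1 := hX.inv C hC hz
  obtain ⟨T, hT⟩ : ∃ T, T = X.ro C (X.t C) := ⟨_, rfl⟩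
  obtain ⟨s, hs⟩ : ∃ s, s = X.s C := ⟨_, rfl⟩
  have hdl : X.dl C = fz A s * df A T := by rw [hs, hT]; rfl
  rw [← hT, ← hs] at h1
  rw [hdl, dd_mul, dd_fz, dd_df, mul_zero, add_zero]
  have h2 : fz A T * df A s + fz A s * df A T = 0 := by rw [← df_mul, h1, df_one]
  have h3 : fz A T * df A s = -(fz A s * df A T) := eq_neg_of_add_eq_zero_left h2
  have h4 : fz A s * fz A T = 1 := by rw [← map_mul, mul_comm, h1, map_one]
  have h5 : df A s = -(fz A s * (fz A s * df A T)) := by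
    rw [← mul_neg, ← h3, ← mul_assoc, h4, one_mul]
  rw [h5, neg_mul, mul_assoc, mul_assoc, df_sq, mul_zero, mul_zero, neg_zero]

private theorem V2A_invdl (C : Finset (Fin N)) : inv A (X.dl C) = -X.dl C := by
  unfold Dz.dl
  rw [map_mul, inv_fz, inv_df, mul_neg]

private theorem V2A_th (hX : X.Ok) (C : Finset (Fin N)) (j : Fin N) : ∃ θ ∈ Fd A (X.Y.R C) 1,
    X.z ∉ C → (C.erase j).Nonempty →
      X.Y.rs (Finset.insert_subset_insert X.z (Finset.erase_subset j C)) (X.dl (C.erase j)) = X.dl C - X.re C θ := by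
  by_cases h : X.z ∉ C ∧ (C.erase j).Nonempty
  · obtain ⟨θ, h1, h2⟩ := dl_rs hX (Finset.erase_subset j C) h.2 h.1
    exact ⟨θ, h1, fun _ _ => h2⟩
  · exact ⟨0, Submodule.zero_mem _, fun h1 h2 => absurd ⟨h1, h2⟩ h⟩

/-- The regular part. -/
private noncomputable def V2A_ka (X : Dz A N) (w c β : X.Y.Ch) (θ : ∀ C : Finset (Fin N), Fin N → X.Y.E C)
    (C : Finset (Fin N)) : X.Y.E C :=
  dd A (β C) + sg X.z (insert X.z C) • inv A (w C) + ∑ j ∈ C, sg j C • (θ C j * X.Y.ev (X.Y.ic c) (C.erase j) C +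
    X.Y.ev (X.Y.ic β) (C.erase j) C)

private theorem V2A_re_ev {C : Finset (Fin N)} (c : X.Y.Ch) : X.Y.ev c C (insert X.z C) = X.re C (c C) :=
  CovD.ev_of (Finset.subset_insert X.z C)

private theorem V2A_term (hX : X.Ok) {m : ℕ} {w c β : X.Y.Ch} (hz : w {X.z} = 0) (hc : c ∈ X.Y.Tt m) (hβ : β ∈ X.Y.Tt (m + 1))
    (h : ∀ C : Finset (Fin N), C.Nonempty → X.z ∉ C → w (insert X.z C) = X.dl C * X.re C (c C) + X.re C (β C))
    {C : Finset (Fin N)} (hzC : X.z ∉ C) {j : Fin N} (hj : j ∈ C) {θ : X.Y.E C} (hθ : θ ∈ Fd A (X.Y.R C) 1)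
    (hθ' : (C.erase j).Nonempty →
      X.Y.rs (Finset.insert_subset_insert X.z (Finset.erase_subset j C)) (X.dl (C.erase j)) = X.dl C - X.re C θ) :
    X.Y.ev (X.Y.ic w) ((insert X.z C).erase j) (insert X.z C) = -(X.dl C * X.re C (X.Y.ev (X.Y.ic c) (C.erase j) C)) +
      X.re C (θ * X.Y.ev (X.Y.ic c) (C.erase j) C + X.Y.ev (X.Y.ic β) (C.erase j) C) := by
  have hne : X.z ≠ j := fun h1 => hzC (h1 ▸ hj)
  rw [Finset.erase_insert_of_ne hne]
  rcases Finset.eq_empty_or_nonempty (C.erase j) with h0 | h0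
  · have h1 : w (insert X.z (C.erase j)) = 0 := by
      rw [h0]
      exact hz
    have h2 : c (C.erase j) = 0 := by
      rw [h0]
      exact hc.1
    have h3 : β (C.erase j) = 0 := by
      rw [h0]
      exact hβ.1
    rw [CovD.ev_ic, CovD.ev_ic, CovD.ev_ic, CovD.ev_eq_zero h1, CovD.ev_eq_zero h2, CovD.ev_eq_zero h3, map_zero, map_zero,
      map_zero, mul_zero, mul_zero, add_zero, map_zero, neg_zero, add_zero]
  · have hzE : X.z ∉ C.erase j := fun h1 => hzC (Finset.mem_of_mem_erase h1)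
    have hsub := Finset.insert_subset_insert X.z (Finset.erase_subset j C)
    have hinvθ : inv A θ = -θ := by rw [inv_mem hθ, pow_one, neg_one_mul]
    rw [CovD.ev_ic, CovD.ev_ic, CovD.ev_ic, CovD.ev_of hsub, h _ h0 hzE, map_add, map_mul, hθ' h0, rs_re, rs_re,
      CovD.ev_of (Finset.erase_subset j C), CovD.ev_of (Finset.erase_subset j C)]
    have hri : ∀ x : X.Y.E C, inv A (X.re C x) = X.re C (inv A x) := fun x => (CovD.rs_inv _ _).symm
    rw [map_add, map_mul, map_sub, V2A_invdl, hri, hri, hri, hinvθ, map_add, map_mul, map_neg]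
    rw [sub_mul, neg_mul, neg_mul, sub_neg_eq_add, add_assoc]

private theorem V2A_eq (hX : X.Ok) {m : ℕ} {w c β : X.Y.Ch} (hz : w {X.z} = 0) (hc : c ∈ X.Y.Tt m) (hβ : β ∈ X.Y.Tt (m + 1))
    (h : ∀ C : Finset (Fin N), C.Nonempty → X.z ∉ C → w (insert X.z C) = X.dl C * X.re C (c C) + X.re C (β C))
    {C : Finset (Fin N)} (hC : C.Nonempty) (hzC : X.z ∉ C) {θ : ∀ C : Finset (Fin N), Fin N → X.Y.E C}
    (hθ : ∀ j, θ C j ∈ Fd A (X.Y.R C) 1)
    (hθ' : ∀ j, (C.erase j).Nonempty →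
      X.Y.rs (Finset.insert_subset_insert X.z (Finset.erase_subset j C)) (X.dl (C.erase j)) = X.dl C - X.re C (θ C j)) :
    X.Y.Dt w (insert X.z C) = -(X.dl C * X.re C (X.Y.Dt c C)) + X.re C (V2A_ka X w c β θ C) := by
  have hrd : ∀ x : X.Y.E C, dd A (X.re C x) = X.re C (dd A x) := fun x => (CovD.rs_dd _ _).symm
  have hri : ∀ x : X.Y.E C, inv A (X.re C x) = X.re C (inv A x) := fun x => (CovD.rs_inv _ _).symm
  have hsg : ∀ j ∈ C, sg j (insert X.z C) = sg j C := by
    intro j _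
    have h1 := sg_erase_gt (J := insert X.z C) (hX.last j)
    rw [Finset.erase_insert hzC] at h1
    exact h1.symm
  have h1 : dd A (w (insert X.z C)) = -(X.dl C * X.re C (dd A (c C))) + X.re C (dd A (β C)) := by
    rw [h C hC hzC, map_add, dd_mul, V2A_ddl hX hC hzC, zero_mul, zero_add, V2A_invdl, hrd, hrd, neg_mul]
  have h2 : ∑ j ∈ C, sg j (insert X.z C) • X.Y.ev (X.Y.ic w) ((insert X.z C).erase j) (insert X.z C) =
      -(X.dl C * X.re C (∑ j ∈ C, sg j C • X.Y.ev (X.Y.ic c) (C.erase j) C)) +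
      X.re C (∑ j ∈ C, sg j C • (θ C j * X.Y.ev (X.Y.ic c) (C.erase j) C + X.Y.ev (X.Y.ic β) (C.erase j) C)) := by
    rw [map_sum, map_sum, Finset.mul_sum, ← Finset.sum_neg_distrib, ← Finset.sum_add_distrib]
    refine Finset.sum_congr rfl fun j hj => ?_
    rw [hsg j hj, V2A_term hX hz hc hβ h hzC hj (hθ j) (hθ' j), map_zsmul, map_zsmul, mul_smul_comm, smul_add, smul_neg]
  rw [CovD.Dt_apply, Pi.add_apply, CovD.dc_apply, CovD.del_apply, Finset.sum_insert hzC, Finset.erase_insert hzC, h1, h2,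
    CovD.Dt_apply, Pi.add_apply, CovD.dc_apply, CovD.del_apply, V2A_re_ev, CovD.ic_apply]
  unfold V2A_ka
  rw [map_add, map_add, map_add, map_zsmul, mul_add]
  abel

theorem Lg_Dt (hX : X.Ok) {m : ℕ} {w c : X.Y.Ch} (hw : w ∈ X.Y.Tt (m + 2)) (hz : w {X.z} = 0) (h : X.Lg m w c) :
    ∃ κ ∈ X.Y.Tt (m + 2), ∀ C : Finset (Fin N), C.Nonempty → X.z ∉ C →
      X.Y.Dt w (insert X.z C) = -(X.dl C * X.re C (X.Y.Dt c C)) + X.re C (κ C) := by
  classical
  obtain ⟨hc, β, hβ, hL⟩ := h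
  choose θ hθ1 hθ2 using V2A_th hX
  refine ⟨fun C => if C.Nonempty ∧ X.z ∉ C then V2A_ka X w c β θ C else 0, ?_, fun C hC hzC => ?_⟩
  · refine ⟨if_neg fun h => absurd h.1 Finset.not_nonempty_empty, fun J => ⟨fun q hq => ?_, fun hJ => ?_⟩⟩
    · change (if J.Nonempty ∧ X.z ∉ J then V2A_ka X w c β θ J else 0) ∈ Fd A (X.Y.R J) q
      split_ifs with h0
      · unfold V2A_ka
        refine Submodule.add_mem _ (Submodule.add_mem _ ?_ ?_) (Submodule.sum_mem _ fun j hj => ?_)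
        · exact ((CovD.dc_mem hβ).2 J).1 q hq
        · exact zsmul_mem (((CovD.ic_mem hw).2 J).1 q hq) _
        · have h1 := Finset.card_erase_add_one hj
          refine zsmul_mem (Submodule.add_mem _ ?_ ?_) _
          · cases q with
            | zero =>
              rw [CovD.ev_eq_zero (((CovD.ic_mem hc).2 (J.erase j)).2 (by omega)), mul_zero]
              exact Submodule.zero_mem _
            | succ q =>
              have h2 := fd_mul (hθ1 J j) (CovD.ev_mem (((CovD.ic_mem hc).2 (J.erase j)).1 q (by omega)) J)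
              rwa [add_comm] at h2
          · exact CovD.ev_mem (((CovD.ic_mem hβ).2 (J.erase j)).1 q (by omega)) J
      · exact Submodule.zero_mem _
    · change (if J.Nonempty ∧ X.z ∉ J then V2A_ka X w c β θ J else 0) = 0
      split_ifs with h0
      · unfold V2A_ka
        have e1 : dd A (β J) = 0 := ((CovD.dc_mem hβ).2 J).2 hJ
        have e2 : inv A (w J) = 0 := ((CovD.ic_mem hw).2 J).2 hJ
        rw [e1, e2, smul_zero, add_zero, zero_add]
        refine Finset.sum_eq_zero fun j hj => ?_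
        have h1 := Finset.card_erase_add_one hj
        rw [CovD.ev_eq_zero (((CovD.ic_mem hc).2 (J.erase j)).2 (by omega)), mul_zero,
          CovD.ev_eq_zero (((CovD.ic_mem hβ).2 (J.erase j)).2 (by omega)), add_zero, smul_zero]
      · rfl
  · change _ = _ + X.re C (if C.Nonempty ∧ X.z ∉ C then V2A_ka X w c β θ C else 0)
    rw [if_pos ⟨hC, hzC⟩]
    exact V2A_eq hX hz hc hβ hL hC hzC (fun j => hθ1 C j) (fun j hj => hθ2 C j hzC hj)

end MPadcHS
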