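import Pool.Agent.Lib.MP_adc574_ag_HS.V1A
import Pool.Agent.Lib.MP_adc574_ag_HS.V2A
import Pool.Agent.Lib.MP_adc574_ag_GP.Lit

/-!
# JOB V2B (HS): the residue of a closed logarithmic cochain is closed, exactness

`loc_res_zero` (V1A) for the chart `C` (nonempty, `z ∉ C`): `u = X.ro C`, `mp u = X.re C` (by `rfl`/`change`), `r = X.r.h C`, `mp r = X.r.e C`, `t = X.t C`, `s = X.s C`, data from `hX.inv`, `hX.inj`, `hX.r_t`, `hX.der`. Call (*): `dl C * re C α + re C β = 0 → X.r.e C α = 0`.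
* `Lg_res`: subtract the two equations for `w (insert z C)`: `dl C * re C (c C - c' C) + re C (β C - β' C) = 0`; (*) gives `X.r.e C (c C) = X.r.e C (c' C)`. For `z ∈ C`: `s_zero`; for `C = ∅`: `c ∅ = c' ∅ = 0`. So `rp c = rp c'` (`funext`, or `rp_zero` for `c - c'`).
* `Lg_zc`: `Lg_Dt` (V2A) with `Dt w = 0`: `dl C * re C (Dt c C) + re C (- κ C) = 0`; (*): `X.r.e C (Dt c C) = 0`. So `rp (Dt c) = 0` (`rp_zero`, `Dt c ∅ = 0` by `Dt_mem`), and `X.S.Dt (rp c) = rp (Dt c)` (`CovD.Hm.push_Dt`). `rp c ∈ X.S.Tt m` by `push_mem_Tt`. `Zc m = Tt m ⊓ ker Dt`.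
* `Lg_ex`: `γ' ∈ Tt (m' + 2)`, `Lg m' γ' a`, `γ' {z} = 0`: `Lg_Dt`: `Dt γ' (insert z C) = - dl C * re C (Dt a C) + re C (κ C)`, and `= dl C * re C (c C) + re C (β C)` (`Lg (m' + 1) (Dt γ') c`). (*): `X.r.e C (c C + Dt a C) = 0`. So `rp (c + Dt a) = 0` (`rp_zero`), `rp c = - X.S.Dt (rp a)`.
-/

set_option autoImplicit false
set_option linter.unusedSectionVars false

namespace MPadcHS

open MPadcGP MPadcDC

universe u

variable {A : Type u} [CommRing A] {N : ℕ} {X : Dz A N}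

/-- The equation `(*)`. -/
private theorem V2B_star (hX : X.Ok) {C : Finset (Fin N)} (hC : C.Nonempty) (hz : X.z ∉ C)
    {α β : X.Y.E C} (h : X.dl C * X.re C α + X.re C β = 0) : X.r.e C α = 0 := by
  obtain ⟨D, g, hD⟩ := hX.der C hC hz
  exact loc_res_zero (X.ro C : X.Y.R C →+* X.Y.R (insert X.z C)) (CC.of_algHom _) (X.r.h C)
    (X.r.cc C) (hX.inv C hC hz) (hX.inj C hC hz) (hX.r_t C hC hz) D g hD h

/-- The residue is determined. -/
theorem Lg_res (hX : X.Ok) {m : ℕ} {w c c' : X.Y.Ch} (h : X.Lg m w c) (h' : X.Lg m w c') : X.rp c = X.rp c' := by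
  obtain ⟨hc, β, -, e⟩ := h
  obtain ⟨hc', β', -, e'⟩ := h'
  rw [← sub_eq_zero, ← map_sub]
  refine rp_zero hX ?_ ?_
  · rw [Pi.sub_apply, hc.1, hc'.1, sub_zero]
  · intro C hC hz
    refine V2B_star hX hC hz (β := β C - β' C) ?_
    have h1 := e C hC hz
    rw [e' C hC hz] at h1
    rw [Pi.sub_apply, map_sub, map_sub, mul_sub]
    have h2 : X.dl C * X.re C (c C) - X.dl C * X.re C (c' C) + (X.re C (β C) - X.re C (β' C)) =
        (X.dl C * X.re C (c C) + X.re C (β C)) - (X.dl C * X.re C (c' C) + X.re C (β' C)) := by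
      abel
    rw [h2, ← h1, sub_self]

/-- The residue of a closed logarithmic cochain is closed. -/
theorem Lg_zc (hX : X.Ok) {m : ℕ} {w c : X.Y.Ch} (hw : w ∈ X.Y.Tt (m + 2)) (hz : w {X.z} = 0) (hd : X.Y.Dt w = 0)
    (h : X.Lg m w c) : X.rp c ∈ X.S.Zc m := by
  obtain ⟨κ, -, e⟩ := Lg_Dt hX hw hz h
  refine ⟨CovD.Hm.push_mem_Tt h.1, ?_⟩
  change X.S.Dt (X.rp c) = 0
  rw [Dz.rp_apply, ← CovD.Hm.push_Dt, ← Dz.rp_apply]
  refine rp_zero hX (CovD.Dt_mem h.1).1 ?_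
  intro C hC hzC
  refine V2B_star hX hC hzC (β := -κ C) ?_
  have h1 := e C hC hzC
  rw [hd, Pi.zero_apply] at h1
  rw [map_neg, ← neg_eq_zero, h1]
  abel

/-- The residue of the differential of a logarithmic cochain is exact. -/
theorem Lg_ex (hX : X.Ok) {m : ℕ} {γ a c : X.Y.Ch} (hγ : γ ∈ X.Y.Tt (m + 2)) (hz : γ {X.z} = 0) (h : X.Lg m γ a)
    (h' : X.Lg (m + 1) (X.Y.Dt γ) c) : X.rp c = -X.S.Dt (X.rp a) := by
  obtain ⟨κ, -, e⟩ := Lg_Dt hX hγ hz h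
  obtain ⟨hc, β, -, e'⟩ := h'
  rw [Dz.rp_apply X a, ← CovD.Hm.push_Dt, ← Dz.rp_apply, eq_neg_iff_add_eq_zero, ← map_add]
  refine rp_zero hX ?_ ?_
  · rw [Pi.add_apply, hc.1, (CovD.Dt_mem h.1).1, add_zero]
  · intro C hC hzC
    refine V2B_star hX hC hzC (β := β C - κ C) ?_
    have h1 := e C hC hzC
    rw [e' C hC hzC] at h1
    rw [Pi.add_apply, map_add, map_sub, mul_add]
    have h2 : X.dl C * X.re C (c C) + X.dl C * X.re C (X.Y.Dt a C) +
        (X.re C (β C) - X.re C (κ C)) = (X.dl C * X.re C (c C) + X.re C (β C)) -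
        (-(X.dl C * X.re C (X.Y.Dt a C)) + X.re C (κ C)) := by
      abel
    rw [h2, h1, sub_self]

end MPadcHS
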