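import Pool.Agent.Lib.MP_adc574_ag_HS.V1B
import Pool.Agent.Lib.MP_adc574_ag_HS.V2A

/-!
# JOB V2C (HS): reduction of the poles of a cochain

Step (`log_step`): let `ω ∈ Tt (m + 2)` be such that `ω {z} = 0`, `Lo X m r ω` (the components `ω (insert z C)` with `|C| ≤ r` are logarithmic), and `Lo X (m + 1) (r + 1) (Dt ω)` (the components of `Dt ω` with `|C| ≤ r + 1` are logarithmic; e.g. `Dt ω = 0`). Then there is `b ∈ Tt (m + 1)` with `b K = 0` unless `z ∈ K` and `|K| = r + 2`, and `Lo X m (r + 1) (ω - Dt b)`.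
Proof. For `C` with `|C| = r + 1`, `z ∉ C`, `D := insert z C`, `q + |D| = m + 3`: `Dt ω D = dd (ω D) + ∑ j ∈ D, sg j D • ev (ic ω) (D.erase j) D`. The term `j = z` is `± re C (inv (ω C))`, regular. For `j ∈ C`: if `C.erase j = ∅` then `D.erase j = {z}`, `ω {z} = 0`; otherwise `ω (D.erase j) = ω (insert z (C.erase j)) = dl * re α + re β` restricted to `D`: `(dl C - re C θ) * re C (rs α) + re C (rs β)` (`dl_rs`, `rs_re`, see V2A), and `inv` of it
is again of the form `dl C * re C α' + re C β'` with `α' ∈ Fd q`, `β' ∈ Fd (q + 1)` (`ω (D.erase j) ∈ Fd (q + 1)`). So `dd (ω D) = dl C * re C α + re C β` with `α ∈ Fd q`, `β ∈ Fd (q + 1)`, and `loc_pole` (V1B; `u = X.ro C`, `mp u = X.re C`, `hden = hX.den C`, `D, g` from `hX.der C`) gives `ξ_C` with `ω D - dd ξ_C` logarithmic, `ξ_C ∈ Fd (q - 1)` (`0` if `q = 0`). If `m + 3 < |D|` then `ω D = 0`: put `ξ_C = 0`.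
`b D := ξ_C` for these `D` (`C = D.erase z`), `b K := 0` otherwise; `b ∈ Tt (m + 1)`: `(q - 1) + |D| = m + 2`. `(Dt b) K = 0` for `K ∋ z`, `|K| ≤ r + 1` (all terms vanish: `b K = 0`, `b (K.erase j) = 0`), and `(Dt b) D = dd ξ_C` for `|D| = r + 2`, `z ∈ D` (`|D.erase j| = r + 1`). So `ω - Dt b` is logarithmic for `|C| ≤ r + 1`.
* `exists_Lo`: iterate `log_step` for `r = 0, 1, .., N` (start: `Lo X m 0 ω` is empty, since `C` is nonempty; `(ω - Dt b) {z} = 0`: `b {z} = 0` as `|{z}| = 1 ≠ r + 2`, `b ∅ = 0`; `Dt (ω - Dt b) = Dt ω`, `Dt_Dt`). Every `C` has `|C| ≤ N`.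
* `lg_of_lo`: choose `α_C`, `β_C` for every nonempty `C` without `z` (`classical`, `choose`), `c C := α_C`, `β C := β_C`, both `0` for the other `C`.
-/

set_option autoImplicit false
set_option linter.unusedSectionVars false

namespace MPadcHS

open MPadcGP MPadcDC

universe u

variable {K : Type u} [Field K] {N : ℕ}

/-- The components `ω (insert z C)`, `|C| ≤ r`, are logarithmic (`ω` of degree `m + 2`). -/
def Lo (X : Dz K N) (m r : ℕ) (ω : X.Y.Ch) : Prop :=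
  ∀ C : Finset (Fin N), C.Nonempty → X.z ∉ C → C.card ≤ r → ∃ α β : X.Y.E C,
    (∀ q, q + C.card = m + 1 → α ∈ Fd K (X.Y.R C) q) ∧ (m + 1 < C.card → α = 0) ∧
    (∀ q, q + C.card = m + 2 → β ∈ Fd K (X.Y.R C) q) ∧ (m + 2 < C.card → β = 0) ∧
    ω (insert X.z C) = X.dl C * X.re C α + X.re C β

variable {X : Dz K N}

/-- The logarithmic forms of degree `q + 1` on `U_C ∩ U_z`. -/
private def V2C_S (X : Dz K N) (C : Finset (Fin N)) (q : ℕ) :
    AddSubgroup (X.Y.E (insert X.z C)) where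
  carrier := {x | ∃ α ∈ Fd K (X.Y.R C) q, ∃ β ∈ Fd K (X.Y.R C) (q + 1),
    x = X.dl C * X.re C α + X.re C β}
  add_mem' := by
    rintro _ _ ⟨α, hα, β, hβ, rfl⟩ ⟨α', hα', β', hβ', rfl⟩
    refine ⟨α + α', Submodule.add_mem _ hα hα', β + β', Submodule.add_mem _ hβ hβ', ?_⟩
    rw [map_add, map_add, mul_add]
    abel
  zero_mem' := ⟨0, Submodule.zero_mem _, 0, Submodule.zero_mem _, by
    rw [map_zero, mul_zero, add_zero]⟩
  neg_mem' := by
    rintro _ ⟨α, hα, β, hβ, rfl⟩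
    refine ⟨-α, Submodule.neg_mem _ hα, -β, Submodule.neg_mem _ hβ, ?_⟩
    rw [map_neg, map_neg, mul_neg, neg_add]

private theorem V2C_mem {C : Finset (Fin N)} {q : ℕ} {x : X.Y.E (insert X.z C)} :
    x ∈ V2C_S X C q ↔ ∃ α ∈ Fd K (X.Y.R C) q, ∃ β ∈ Fd K (X.Y.R C) (q + 1),
      x = X.dl C * X.re C α + X.re C β := Iff.rfl

private theorem V2C_zero {ω : X.Y.Ch} (hz : ω {X.z} = 0) {E : Finset (Fin N)} (hE : E = ∅) :
    X.Y.ic ω (insert X.z E) = 0 := by
  subst hE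
  have h : (insert X.z (∅ : Finset (Fin N))) = {X.z} := insert_empty_eq _
  rw [h, CovD.ic_apply, hz, map_zero]

private theorem V2C_inv_dl (C : Finset (Fin N)) : inv K (X.dl C) = -X.dl C := by
  unfold Dz.dl
  rw [map_mul, inv_fz, inv_df, mul_neg]

private theorem V2C_inv_re (C : Finset (Fin N)) (x : X.Y.E C) :
    inv K (X.re C x) = X.re C (inv K x) := by
  unfold Dz.re
  rw [CovD.rs_inv]

private theorem V2C_dd (hX : X.Ok) {m r q : ℕ} {ω : X.Y.Ch} (hω : ω ∈ X.Y.Tt (m + 2))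
    (hz : ω {X.z} = 0) (h : Lo X m r ω) (hd : Lo X (m + 1) (r + 1) (X.Y.Dt ω))
    {C : Finset (Fin N)} (hC : C.Nonempty) (hzC : X.z ∉ C) (hc : C.card = r + 1)
    (hq : q + C.card = m + 2) : dd K (ω (insert X.z C)) ∈ V2C_S X C q := by
  have h0 : dd K (ω (insert X.z C)) = X.Y.Dt ω (insert X.z C) -
      X.Y.del (X.Y.ic ω) (insert X.z C) := by
    rw [CovD.Dt_apply, Pi.add_apply, CovD.dc_apply]
    abel
  rw [h0]
  refine AddSubgroup.sub_mem _ ?_ ?_
  · obtain ⟨α, β, h1, -, h3, -, h5⟩ := hd C hC hzC hc.le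
    exact ⟨α, h1 q (by omega), β, h3 (q + 1) (by omega), h5⟩
  · rw [CovD.del_apply]
    refine AddSubgroup.sum_mem _ fun j hj => AddSubgroup.zsmul_mem _ ?_ _
    by_cases hjz : j = X.z
    · subst hjz
      have e : (insert X.z C).erase X.z = C := Finset.erase_insert hzC
      rw [e, CovD.ev_of (Finset.subset_insert _ _)]
      refine ⟨0, Submodule.zero_mem _, inv K (ω C), inv_mem' ((hω.2 C).1 (q + 1) (by omega)), ?_⟩
      rw [map_zero, mul_zero, zero_add]
      rfl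
    · have hjC : j ∈ C := by
        rcases Finset.mem_insert.1 hj with h1 | h1
        · exact absurd h1 hjz
        · exact h1
      have e : (insert X.z C).erase j = insert X.z (C.erase j) :=
        Finset.erase_insert_of_ne (Ne.symm hjz)
      rw [e]
      rcases (C.erase j).eq_empty_or_nonempty with hE | hE
      · rw [CovD.ev_eq_zero (V2C_zero hz hE)]
        exact AddSubgroup.zero_mem _
      · have hEC : C.erase j ⊆ C := Finset.erase_subset j C
        have hzE : X.z ∉ C.erase j := fun h1 => hzC (hEC h1)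
        have hcE := Finset.card_erase_add_one hjC
        obtain ⟨α, β, h1, -, h3, -, h5⟩ := h (C.erase j) hE hzE (by omega)
        obtain ⟨θ, hθ, h6⟩ := dl_rs hX hEC hE hzC
        rw [CovD.ev_of (Finset.insert_subset_insert X.z hEC), CovD.ic_apply, CovD.rs_inv, h5,
          map_add, map_mul, h6, rs_re hEC, rs_re hEC]
        have h7 : inv K θ = -θ := by
          rw [inv_mem hθ, pow_one, neg_one_mul]
        have hα := CovD.rs_mem (X := X.Y) hEC (h1 q (by omega))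
        have hβ := CovD.rs_mem (X := X.Y) hEC (h3 (q + 1) (by omega))
        refine ⟨-inv K (X.Y.rs hEC α), Submodule.neg_mem _ (inv_mem' hα),
          θ * inv K (X.Y.rs hEC α) + inv K (X.Y.rs hEC β),
          Submodule.add_mem _ ?_ (inv_mem' hβ), ?_⟩
        · have h8 := fd_mul hθ (inv_mem' hα)
          rwa [add_comm] at h8
        · rw [map_add, map_mul, map_sub, V2C_inv_dl, V2C_inv_re, V2C_inv_re, V2C_inv_re, h7,
            map_neg, map_neg, map_add, map_mul, mul_neg, sub_mul, neg_mul, neg_mul]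
          abel

private theorem V2C_xi [CharZero K] (hX : X.Ok) {m r : ℕ} {ω : X.Y.Ch} (hω : ω ∈ X.Y.Tt (m + 2))
    (hz : ω {X.z} = 0) (h : Lo X m r ω) (hd : Lo X (m + 1) (r + 1) (X.Y.Dt ω))
    (C : Finset (Fin N)) : ∃ ξ : X.Y.E (insert X.z C), X.z ∉ C → C.card = r + 1 →
      (∀ p, p + (insert X.z C).card = m + 2 → ξ ∈ Fd K (X.Y.R (insert X.z C)) p) ∧
      (m + 2 < (insert X.z C).card → ξ = 0) ∧ ∃ α β : X.Y.E C,
    (∀ q, q + C.card = m + 1 → α ∈ Fd K (X.Y.R C) q) ∧ (m + 1 < C.card → α = 0) ∧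
    (∀ q, q + C.card = m + 2 → β ∈ Fd K (X.Y.R C) q) ∧ (m + 2 < C.card → β = 0) ∧
    ω (insert X.z C) - dd K ξ = X.dl C * X.re C α + X.re C β := by
  by_cases hh : X.z ∉ C ∧ C.card = r + 1
  swap
  · exact ⟨0, fun h1 h2 => absurd ⟨h1, h2⟩ hh⟩
  obtain ⟨hzC, hc⟩ := hh
  have hC : C.Nonempty := Finset.card_pos.1 (by omega)
  have hcD : (insert X.z C).card = C.card + 1 := Finset.card_insert_of_notMem hzC
  by_cases hm : m + 2 < C.card
  · refine ⟨0, fun _ _ => ⟨fun p _ => Submodule.zero_mem _, fun _ => rfl, 0, 0,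
      fun q _ => Submodule.zero_mem _, fun _ => rfl, fun q _ => Submodule.zero_mem _,
      fun _ => rfl, ?_⟩⟩
    rw [(hω.2 _).2 (by omega), map_zero, map_zero, sub_zero, mul_zero, add_zero]
  · obtain ⟨q, hq⟩ : ∃ q, q + C.card = m + 2 := ⟨m + 2 - C.card, by omega⟩
    obtain ⟨D, g, hD⟩ := hX.der C hC hzC
    obtain ⟨ξ, h1, h2, α, h3, h4, β, h5, h6⟩ := loc_pole
      (X.ro C : X.Y.R C →+* X.Y.R (insert X.z C)) (CC.of_algHom _) (hX.inv C hC hzC)
      (hX.inj C hC hzC) (hX.den C hC hzC) D g hD ((hω.2 (insert X.z C)).1 q (by omega))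
      (V2C_dd hX hω hz h hd hC hzC hc hq)
    refine ⟨ξ, fun _ _ => ⟨fun p hp => h1 p (by omega), fun hp => h2 (by omega), α, β,
      fun q' hq' => h3 q' (by omega), fun hp => h4 (by omega), fun q' hq' => ?_,
      fun hp => absurd hp hm, h6⟩⟩
    have : q' = q := by omega
    rw [this]
    exact h5

private theorem V2C_cast (ξ : ∀ C : Finset (Fin N), X.Y.E (insert X.z C)) {C C' : Finset (Fin N)}
    (e : C' = C) (h : insert X.z C' ⊆ insert X.z C) : X.Y.rs h (ξ C') = ξ C := by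
  subst e
  exact CovD.rs_id _ _ _

theorem log_step [CharZero K] (hX : X.Ok) {m r : ℕ} {ω : X.Y.Ch} (hω : ω ∈ X.Y.Tt (m + 2)) (hz : ω {X.z} = 0)
    (h : Lo X m r ω) (hd : Lo X (m + 1) (r + 1) (X.Y.Dt ω)) :
    ∃ b ∈ X.Y.Tt (m + 1), (∀ L : Finset (Fin N), X.z ∉ L ∨ L.card ≠ r + 2 → b L = 0) ∧
      Lo X m (r + 1) (ω - X.Y.Dt b) := by
  classical
  choose ξ hξ using V2C_xi hX hω hz h hd
  let b : X.Y.Ch := fun D => if h : X.z ∈ D ∧ D.card = r + 2 then
    X.Y.rs (Finset.insert_erase h.1).subset (ξ (D.erase X.z)) else 0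
  have hb0 : ∀ L : Finset (Fin N), X.z ∉ L ∨ L.card ≠ r + 2 → b L = 0 := by
    intro L hL
    refine dif_neg ?_
    rintro ⟨h1, h2⟩
    rcases hL with h3 | h3
    · exact h3 h1
    · exact h3 h2
  have hb1 : ∀ C : Finset (Fin N), X.z ∉ C → C.card = r + 1 → b (insert X.z C) = ξ C := by
    intro C hzC hc
    have h1 : X.z ∈ insert X.z C ∧ (insert X.z C).card = r + 2 :=
      ⟨Finset.mem_insert_self _ _, by rw [Finset.card_insert_of_notMem hzC, hc]⟩
    have h2 : b (insert X.z C) = X.Y.rs (Finset.insert_erase h1.1).subset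
        (ξ ((insert X.z C).erase X.z)) := dif_pos h1
    rw [h2]
    exact V2C_cast ξ (Finset.erase_insert hzC) _
  have hD : ∀ J : Finset (Fin N), X.z ∈ J → J.card = r + 2 →
      ∃ C : Finset (Fin N), X.z ∉ C ∧ C.card = r + 1 ∧ J = insert X.z C := by
    intro J hJ hc
    refine ⟨J.erase X.z, Finset.notMem_erase _ _, ?_, (Finset.insert_erase hJ).symm⟩
    have := Finset.card_erase_add_one hJ
    omega
  have hDt : ∀ J : Finset (Fin N), J.card ≤ r + 2 → X.Y.Dt b J = dd K (b J) := by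
    intro J hJ
    rw [CovD.Dt_apply, Pi.add_apply, CovD.dc_apply, CovD.del_apply, Finset.sum_eq_zero, add_zero]
    intro j hj
    have h1 := Finset.card_erase_add_one hj
    have h2 : X.Y.ic b (J.erase j) = 0 := by
      rw [CovD.ic_apply, hb0 _ (Or.inr (by omega)), map_zero]
    rw [CovD.ev_eq_zero h2, smul_zero]
  refine ⟨b, ⟨hb0 ∅ (Or.inl (Finset.notMem_empty _)), fun J => ?_⟩, hb0, ?_⟩
  · by_cases hJ : X.z ∈ J ∧ J.card = r + 2
    · obtain ⟨C, hzC, hc, rfl⟩ := hD J hJ.1 hJ.2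
      rw [hb1 C hzC hc]
      obtain ⟨h1, h2, -⟩ := hξ C hzC hc
      exact ⟨fun q hq => h1 q (by omega), fun hq => h2 (by omega)⟩
    · have h1 : b J = 0 := by
        refine hb0 J ?_
        by_contra h2
        rw [not_or, not_not, not_not] at h2
        exact hJ h2
      rw [h1]
      exact ⟨fun q _ => Submodule.zero_mem _, fun _ => rfl⟩
  · intro C hC hzC hc
    have hcD : (insert X.z C).card = C.card + 1 := Finset.card_insert_of_notMem hzC
    rw [Pi.sub_apply, hDt _ (by omega)]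
    rcases Nat.lt_or_ge C.card (r + 1) with h1 | h1
    · rw [hb0 _ (Or.inr (by omega)), map_zero, sub_zero]
      exact h C hC hzC (by omega)
    · have hc' : C.card = r + 1 := le_antisymm hc h1
      rw [hb1 C hzC hc']
      exact (hξ C hzC hc').2.2

theorem exists_Lo [CharZero K] (hX : X.Ok) {m : ℕ} {ω : X.Y.Ch} (hω : ω ∈ X.Y.Tt (m + 2)) (hz : ω {X.z} = 0)
    (hd : ∀ r, Lo X (m + 1) r (X.Y.Dt ω)) : ∃ b ∈ X.Y.Tt (m + 1), b {X.z} = 0 ∧ ∀ r, Lo X m r (ω - X.Y.Dt b) := by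
  have key : ∀ r : ℕ, ∃ b ∈ X.Y.Tt (m + 1), b {X.z} = 0 ∧ Lo X m r (ω - X.Y.Dt b) := by
    intro r
    induction r with
    | zero =>
      refine ⟨0, Submodule.zero_mem _, rfl, fun C hC _ hc => ?_⟩
      exact absurd (Finset.card_pos.2 hC) (by omega)
    | succ r ih =>
      obtain ⟨b, hb, hbz, hL⟩ := ih
      have h1 : ω - X.Y.Dt b ∈ X.Y.Tt (m + 2) := Submodule.sub_mem _ hω (CovD.Dt_mem hb)
      have h2 : (ω - X.Y.Dt b) {X.z} = 0 := by
        rw [Pi.sub_apply, hz, zero_sub, neg_eq_zero, CovD.Dt_apply, Pi.add_apply, CovD.dc_apply,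
          hbz, map_zero, zero_add, CovD.del_apply, Finset.sum_singleton]
        have h3 : X.Y.ic b (({X.z} : Finset (Fin N)).erase X.z) = 0 := by
          rw [Finset.erase_singleton, CovD.ic_apply, hb.1, map_zero]
        rw [CovD.ev_eq_zero h3, smul_zero]
      have h3 : X.Y.Dt (ω - X.Y.Dt b) = X.Y.Dt ω := by
        rw [map_sub, CovD.Dt_Dt, sub_zero]
      obtain ⟨b', hb', hb0, hL'⟩ := log_step hX h1 h2 hL (by rw [h3]; exact hd (r + 1))
      refine ⟨b + b', Submodule.add_mem _ hb hb', ?_, ?_⟩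
      · rw [Pi.add_apply, hbz, zero_add]
        refine hb0 _ (Or.inr ?_)
        rw [Finset.card_singleton]
        omega
      · rw [map_add, ← sub_sub]
        exact hL'
  obtain ⟨b, hb, hbz, hL⟩ := key N
  refine ⟨b, hb, hbz, fun r C hC hzC _ => hL C hC hzC ?_⟩
  have := Finset.card_le_univ C
  rwa [Fintype.card_fin] at this

theorem lg_of_lo {m : ℕ} {ω : X.Y.Ch} (h : ∀ r, Lo X m r ω) : ∃ c, X.Lg m ω c := by
  classical
  have hch : ∀ C : Finset (Fin N), ∃ α β : X.Y.E C,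
      (∀ q, q + C.card = m + 1 → α ∈ Fd K (X.Y.R C) q) ∧ (m + 1 < C.card → α = 0) ∧
      (∀ q, q + C.card = m + 2 → β ∈ Fd K (X.Y.R C) q) ∧ (m + 2 < C.card → β = 0) ∧
      (C = ∅ → α = 0 ∧ β = 0) ∧
      (C.Nonempty → X.z ∉ C → ω (insert X.z C) = X.dl C * X.re C α + X.re C β) := by
    intro C
    by_cases hh : C.Nonempty ∧ X.z ∉ C
    · obtain ⟨α, β, h1, h2, h3, h4, h5⟩ := h C.card C hh.1 hh.2 le_rfl
      exact ⟨α, β, h1, h2, h3, h4, fun h6 => absurd h6 hh.1.ne_empty, fun _ _ => h5⟩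
    · exact ⟨0, 0, fun q _ => Submodule.zero_mem _, fun _ => rfl, fun q _ => Submodule.zero_mem _,
        fun _ => rfl, fun _ => ⟨rfl, rfl⟩, fun h1 h2 => absurd ⟨h1, h2⟩ hh⟩
  choose c β h1 h2 h3 h4 h5 h6 using hch
  exact ⟨c, ⟨(h5 ∅ rfl).1, fun C => ⟨h1 C, h2 C⟩⟩, β, ⟨(h5 ∅ rfl).2, fun C => ⟨h3 C, h4 C⟩⟩, h6⟩

theorem lo_of_lg {m : ℕ} {ω c : X.Y.Ch} (h : X.Lg m ω c) (r : ℕ) : Lo X m r ω := by
  obtain ⟨hc, β, hβ, e⟩ := h
  intro C hC hzC _
  exact ⟨c C, β C, (hc.2 C).1, (hc.2 C).2, (hβ.2 C).1, (hβ.2 C).2, e C hC hzC⟩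

end MPadcHS
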