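import Pool.Agent.Lib.MP_adc574_ag_HS.V2B
import Pool.Agent.Lib.MP_adc574_ag_HS.V2C
import Pool.Agent.Lib.MP_adc574_ag_GP.Ad

/-!
# JOB V2D (HS): the residue map

* `exists_ResR`: `γ₀ := Pi.single {z} η ∈ Tt (m + 1)` (`η ∈ Fd (m + 1)`, `|{z}| = 1`), `ω := Dt γ₀ ∈ Tt (m + 2)`, `ω {z} = dd η = 0` (`Dt_apply` at `{z}`: `dc` is `dd η`, `del` has the single term `j = z` with `ev .. ∅ {z}`, `γ₀ ∅ = 0`), `Dt ω = 0` (`Dt_Dt`), so `Lo X (m + 1) r 0` trivially (`α = β = 0`). `exists_Lo`: `b`; `γ := γ₀ - b`: `γ {z} = η`, `Dt γ = ω - Dt b`; `lg_of_lo` gives `c`.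
* `ResR_zc`: `Lg_zc` with `w = Dt γ`, `w {z} = dd (γ {z}) = dd η = 0`, `Dt w = 0`.
* `ResR_zero` (`η = 0`, `m = m' + 1`): `γ ∈ Tt (m' + 2)`, `γ {z} = 0`; `exists_Lo` for `ω := γ` (with `m'`; `hd` from `lo_of_lg`), `b ∈ Tt (m' + 1)`, `b {z} = 0`; `lg_of_lo`: `Lg m' (γ - Dt b) a`; `(γ - Dt b) {z} = 0 - dd (b {z}) = 0`, `Dt (γ - Dt b) = Dt γ`. `Lg_ex` gives `rp c = - X.S.Dt (rp a)`, `rp a ∈ Tt m'` (`push_mem_Tt`), so `rp c ∈ X.S.Bc (m' + 1)` (`Bc (m' + 1) = (Tt m').map Dt`).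
* `exists_res`: `ResR` is additive and linear in `(η, c)` (`γ + γ'`, `a • γ`; `Lg` is linear: `β + β'`). So if `ResR m η c` and `ResR m η c'` then `ResR m 0 (c - c')` and `rp c - rp c' ∈ Bc m`: the class `cl (rp c)` depends only on `η`. Choose `c` for every `η ∈ Zz (m + 1)` (`exists_ResR`), `s η := cl ⟨rp c, ResR_zc⟩`. Linearity by uniqueness.
  `η = dd ξ`, `ξ ∈ Fd m`: `γ := Dt (Pi.single {z} ξ)`: `γ {z} = dd ξ = η`, `Dt γ = 0`, so `ResR m η 0` and `s η = cl 0 = 0`.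
-/

set_option autoImplicit false
set_option linter.unusedSectionVars false

namespace MPadcHS

open MPadcGP MPadcDC

universe u

variable {K : Type u} [Field K] [CharZero K] {N : ℕ} {X : Dz K N}

private theorem V2D_Dt_z {γ : X.Y.Ch} (h0 : γ ∅ = 0) : X.Y.Dt γ {X.z} = dd K (γ {X.z}) := by
  rw [CovD.Dt_apply, Pi.add_apply, CovD.dc_apply, CovD.del_apply, Finset.sum_singleton]
  have h1 : ({X.z} : Finset (Fin N)).erase X.z = ∅ := by
    ext j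
    rw [Finset.mem_erase, Finset.mem_singleton]
    exact ⟨fun h => absurd h.2 h.1, fun h => absurd h (Finset.notMem_empty j)⟩
  rw [h1, CovD.ev_eq_zero (by rw [CovD.ic_apply, h0, map_zero]), smul_zero, add_zero]

open Classical in
private theorem V2D_single {q : ℕ} {η : X.Y.E {X.z}} (hη : η ∈ Fd K (X.Y.R {X.z}) q) :
    (Pi.single {X.z} η : X.Y.Ch) ∈ X.Y.Tt q := by
  refine ⟨?_, fun J => ⟨fun q' hq => ?_, fun h => ?_⟩⟩
  · exact Pi.single_eq_of_ne (Finset.singleton_ne_empty X.z).symm _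
  · by_cases hJ : J = {X.z}
    · subst hJ
      rw [Pi.single_eq_same]
      rw [Finset.card_singleton] at hq
      have e : q' = q := by omega
      rw [e]
      exact hη
    · rw [Pi.single_eq_of_ne hJ]
      exact Submodule.zero_mem _
  · by_cases hJ : J = {X.z}
    · subst hJ
      rw [Finset.card_singleton] at h
      omega
    · exact Pi.single_eq_of_ne hJ _

private theorem V2D_Lo_zero {m r : ℕ} : Lo X m r 0 := by
  intro C _ _ _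
  refine ⟨0, 0, fun _ _ => Submodule.zero_mem _, fun _ => rfl, fun _ _ => Submodule.zero_mem _, fun _ => rfl, ?_⟩
  rw [map_zero, mul_zero, add_zero]
  rfl

private theorem V2D_Lg_zero {m : ℕ} : X.Lg m 0 0 := by
  refine ⟨Submodule.zero_mem _, 0, Submodule.zero_mem _, fun C _ _ => ?_⟩
  rw [Pi.zero_apply, Pi.zero_apply, map_zero, mul_zero, add_zero]

theorem exists_ResR (hX : X.Ok) {m : ℕ} {η : X.Y.E {X.z}} (hη : η ∈ X.Zz (m + 1)) : ∃ c, X.ResR m η c := by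
  classical
  have hγ : (Pi.single {X.z} η : X.Y.Ch) ∈ X.Y.Tt (m + 1) := V2D_single hη.1
  have h1 : X.Y.Dt (Pi.single {X.z} η) {X.z} = 0 := by
    rw [V2D_Dt_z hγ.1, Pi.single_eq_same]
    exact hη.2
  obtain ⟨b, hb, hbz, hL⟩ := exists_Lo hX (CovD.Dt_mem hγ) h1 (fun r => by
    rw [CovD.Dt_Dt]
    exact V2D_Lo_zero)
  obtain ⟨c, hc⟩ := lg_of_lo hL
  refine ⟨c, Pi.single {X.z} η - b, Submodule.sub_mem _ hγ hb, ?_, ?_⟩
  · rw [Pi.sub_apply, Pi.single_eq_same, hbz, sub_zero]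
  · rw [map_sub]
    exact hc

theorem ResR_zc (hX : X.Ok) {m : ℕ} {η : X.Y.E {X.z}} (hη : dd K η = 0) {c : X.Y.Ch} (h : X.ResR m η c) :
    X.rp c ∈ X.S.Zc m := by
  obtain ⟨γ, hγ, hγz, hL⟩ := h
  refine Lg_zc hX (CovD.Dt_mem hγ) ?_ (CovD.Dt_Dt γ) hL
  rw [V2D_Dt_z hγ.1, hγz]
  exact hη

theorem ResR_add {m : ℕ} {η η' : X.Y.E {X.z}} {c c' : X.Y.Ch} (h : X.ResR m η c) (h' : X.ResR m η' c') :
    X.ResR m (η + η') (c + c') := by
  obtain ⟨γ, hγ, rfl, hc, β, hβ, hw⟩ := h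
  obtain ⟨γ', hγ', rfl, hc', β', hβ', hw'⟩ := h'
  refine ⟨γ + γ', Submodule.add_mem _ hγ hγ', rfl, Submodule.add_mem _ hc hc', β + β',
    Submodule.add_mem _ hβ hβ', fun C hC hz => ?_⟩
  rw [map_add, Pi.add_apply, hw C hC hz, hw' C hC hz, Pi.add_apply, Pi.add_apply, map_add, map_add, mul_add]
  exact add_add_add_comm _ _ _ _

theorem ResR_smul {m : ℕ} {η : X.Y.E {X.z}} {c : X.Y.Ch} (h : X.ResR m η c) (a : K) :
    X.ResR m (a • η) (a • c) := by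
  obtain ⟨γ, hγ, rfl, hc, β, hβ, hw⟩ := h
  refine ⟨a • γ, Submodule.smul_mem _ a hγ, rfl, Submodule.smul_mem _ a hc, a • β,
    Submodule.smul_mem _ a hβ, fun C hC hz => ?_⟩
  have h1 : ∀ x : X.Y.E C, X.re C (a • x) = a • X.re C x := fun x => CovD.rs_smul _ a x
  rw [map_smul, Pi.smul_apply, hw C hC hz, Pi.smul_apply, Pi.smul_apply, h1, h1, mul_smul_comm, smul_add]

theorem ResR_zero (hX : X.Ok) {m : ℕ} {c : X.Y.Ch} (h : X.ResR (m + 1) 0 c) : X.rp c ∈ X.S.Bc (m + 1) := by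
  obtain ⟨γ, hγ, hγz, hL⟩ := h
  obtain ⟨b, hb, hbz, hLb⟩ := exists_Lo hX hγ hγz (fun r => lo_of_lg hL r)
  obtain ⟨a, ha⟩ := lg_of_lo hLb
  have h1 : (γ - X.Y.Dt b) {X.z} = 0 := by
    rw [Pi.sub_apply, hγz, V2D_Dt_z hb.1, hbz, map_zero, sub_zero]
  have h2 : X.Lg (m + 1) (X.Y.Dt (γ - X.Y.Dt b)) c := by
    rw [map_sub, CovD.Dt_Dt, sub_zero]
    exact hL
  rw [Lg_ex hX (Submodule.sub_mem _ hγ (CovD.Dt_mem hb)) h1 ha h2]
  exact Submodule.neg_mem _ ⟨_, CovD.Hm.push_mem_Tt ha.1, rfl⟩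

private theorem V2D_uniq (hX : X.Ok) {m : ℕ} {η : X.Y.E {X.z}} {c c' : X.Y.Ch} (h : X.ResR (m + 1) η c)
    (h' : X.ResR (m + 1) η c') (hc : X.rp c ∈ X.S.Zc (m + 1)) (hc' : X.rp c' ∈ X.S.Zc (m + 1)) :
    X.S.cl (m + 1) ⟨_, hc⟩ = X.S.cl (m + 1) ⟨_, hc'⟩ := by
  refine CovD.cl_eq.2 ?_
  have h1 : X.ResR (m + 1) 0 (c + (-1 : K) • c') := by
    have h2 := ResR_add h (ResR_smul h' (-1))
    rw [neg_one_smul K η, add_neg_cancel] at h2
    exact h2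
  have h3 := ResR_zero hX h1
  rw [map_add, map_smul, neg_one_smul, ← sub_eq_add_neg] at h3
  exact h3

/-- The residue map. -/
theorem exists_res (hX : X.Ok) (m : ℕ) : ∃ s : ↥(X.Zz (m + 2)) →ₗ[K] X.S.HdR (m + 1),
    (∀ (η : ↥(X.Zz (m + 2))) (c : X.Y.Ch) (_ : X.ResR (m + 1) (η : X.Y.E {X.z}) c) (hc : X.rp c ∈ X.S.Zc (m + 1)),
      s η = X.S.cl (m + 1) ⟨_, hc⟩) ∧
    ∀ (η : ↥(X.Zz (m + 2))) (ξ : X.Y.E {X.z}), ξ ∈ Fd K (X.Y.R {X.z}) (m + 1) → (η : X.Y.E {X.z}) = dd K ξ →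
      s η = 0 := by
  choose c hc using fun η : ↥(X.Zz (m + 2)) => exists_ResR hX (m := m + 1) η.2
  have hz : ∀ η, X.rp (c η) ∈ X.S.Zc (m + 1) := fun η => ResR_zc hX η.2.2 (hc η)
  have key : ∀ (η : ↥(X.Zz (m + 2))) (d : X.Y.Ch) (_ : X.ResR (m + 1) (η : X.Y.E {X.z}) d)
      (hd : X.rp d ∈ X.S.Zc (m + 1)), X.S.cl (m + 1) ⟨_, hz η⟩ = X.S.cl (m + 1) ⟨_, hd⟩ :=
    fun η d h hd => V2D_uniq hX (hc η) h (hz η) hd
  refine ⟨{ toFun := fun η => X.S.cl (m + 1) ⟨_, hz η⟩, map_add' := fun η η' => ?_, map_smul' := fun a η => ?_ },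
    fun η d h hd => key η d h hd, fun η ξ hξ hη => ?_⟩
  · have h1 : X.ResR (m + 1) ((η + η' : ↥(X.Zz (m + 2))) : X.Y.E {X.z}) (c η + c η') := ResR_add (hc η) (hc η')
    have h2 : X.rp (c η + c η') = X.rp (c η) + X.rp (c η') := map_add _ _ _
    have h3 : X.rp (c η + c η') ∈ X.S.Zc (m + 1) := by
      rw [h2]
      exact Submodule.add_mem _ (hz η) (hz η')
    rw [key _ _ h1 h3, ← map_add]
    exact congrArg _ (Subtype.ext h2)
  · have h1 : X.ResR (m + 1) ((a • η : ↥(X.Zz (m + 2))) : X.Y.E {X.z}) (a • c η) := ResR_smul (hc η) a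
    have h2 : X.rp (a • c η) = a • X.rp (c η) := map_smul _ _ _
    have h3 : X.rp (a • c η) ∈ X.S.Zc (m + 1) := by
      rw [h2]
      exact Submodule.smul_mem _ _ (hz η)
    rw [key _ _ h1 h3, RingHom.id_apply, ← map_smul]
    exact congrArg _ (Subtype.ext h2)
  · classical
    have hγ : (Pi.single {X.z} ξ : X.Y.Ch) ∈ X.Y.Tt (m + 1) := V2D_single hξ
    have h1 : X.ResR (m + 1) (η : X.Y.E {X.z}) 0 := by
      refine ⟨X.Y.Dt (Pi.single {X.z} ξ), CovD.Dt_mem hγ, ?_, ?_⟩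
      · rw [V2D_Dt_z hγ.1, Pi.single_eq_same, hη]
      · rw [CovD.Dt_Dt]
        exact V2D_Lg_zero
    have h2 : X.rp 0 ∈ X.S.Zc (m + 1) := by
      rw [map_zero]
      exact Submodule.zero_mem _
    refine (key η 0 h1 h2).trans (CovD.cl_eq_zero.2 ?_)
    change X.rp 0 ∈ X.S.Bc (m + 1)
    rw [map_zero]
    exact Submodule.zero_mem _

end MPadcHS
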