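import Pool.Agent.Lib.MP_adc574_ag_HS.V2D
import Pool.Agent.Lib.MP_adc574_ag_HS.V2E

/-!
# JOB V2F (HS): Gysin cocycles

`X := dzQ hle`; `X.Y = prC Q`, `X.S = prC P`, `X.z = Fin.last n`, `X.rp c = (rsH hle).push c` (all by `rfl`). `dlz_eq` (V2E).
* `gyr_ex`: `Lg (m + 1) (Dt v) c` with `β = 0` (`h.wl`, `dlz_eq`, `h.cm`). So `ResR (m + 1) 0 c` with `γ := v`; `ResR_zero` (V2D).
* `gyr_sur`: `exists_Lo` (V2C) for `ω = w₀` (`Dt w₀ = 0`: `Lo X (m + 1) r 0` with `α = β = 0`): `b ∈ Tt (m + 1)`, `b {z} = 0`, `lg_of_lo`: `Lg m (w₀ - Dt b) c` with `β`. `exists_rho` (V2R) for `β`: `ρ`. `v := -(b + ρ)`, `w := w₀ + Dt v`: `w ∈ Zc (m + 2)`, `w {z} = 0` (`(Dt b) {z} = dd (b {z}) + (term with b ∅ = 0) = 0`), `w (insert z C) = dl C * re C (c C)` so `GyR Q m c w` (`dlz_eq`). `Lg_zc` (V2B) for `w₀ - Dt b`: `rp c ∈ Zc m`.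
-/

set_option autoImplicit false
set_option linter.unusedSectionVars false

namespace MPadcHS

open MvPolynomial MPadcGP MPadcDC

universe u

variable {K : Type u} [Field K] [CharZero K] {n : ℕ} {Q P : Ideal (MvPolynomial (Fin (n + 1)) K)} {hle : Q ≤ P}

private theorem V2F_sing {N : ℕ} {Y : CovD.{u, u} K N} {z : Fin N} {m : ℕ} {b : Y.Ch} (hb : b ∈ Y.Tt m)
    (hz : b {z} = 0) : Y.Dt b {z} = 0 := by
  rw [CovD.Dt_apply, Pi.add_apply, CovD.dc_apply, hz, map_zero, zero_add, CovD.del_apply]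
  refine Finset.sum_eq_zero fun j hj => ?_
  have e : ({z} : Finset (Fin N)).erase j = ∅ := by
    rw [Finset.mem_singleton.mp hj]
    simp
  have e2 : Y.ic b (({z} : Finset (Fin N)).erase j) = 0 := by
    rw [e, CovD.ic_apply, hb.1, map_zero]
  rw [CovD.ev_eq_zero e2, smul_zero]

private theorem V2F_gen {N : ℕ} {X : Dz K N} (hX : X.Ok) {m : ℕ} {w₀ : X.Y.Ch} (hT0 : w₀ ∈ X.Y.Tt (m + 2))
    (hD0 : X.Y.Dt w₀ = 0) (hz : w₀ {X.z} = 0) : ∃ c v : X.Y.Ch, c ∈ X.Y.Tt m ∧ w₀ + X.Y.Dt v ∈ X.Y.Tt (m + 2) ∧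
      X.Y.Dt (w₀ + X.Y.Dt v) = 0 ∧ (w₀ + X.Y.Dt v) {X.z} = 0 ∧
      (∀ C : Finset (Fin N), C.Nonempty → X.z ∉ C →
        (w₀ + X.Y.Dt v) (insert X.z C) = X.dl C * X.re C (c C)) ∧ X.rp c ∈ X.S.Zc m ∧
      v ∈ X.Y.Tt (m + 1) ∧ v {X.z} = 0 := by
  have hlo : ∀ r, Lo X (m + 1) r (X.Y.Dt w₀) := by
    intro r C _ _ _
    refine ⟨0, 0, fun q _ => Submodule.zero_mem _, fun _ => rfl, fun q _ => Submodule.zero_mem _,
      fun _ => rfl, ?_⟩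
    rw [hD0, map_zero, mul_zero, add_zero]
    rfl
  obtain ⟨b, hb, hbz, hbL⟩ := exists_Lo hX hT0 hz hlo
  obtain ⟨c, hc⟩ := lg_of_lo hbL
  obtain ⟨hcT, β, hβ, hβe⟩ := hc
  obtain ⟨ρ, hρ, hρz, hDρz, hDρ⟩ := exists_rho hβ
  have hDbz : X.Y.Dt b {X.z} = 0 := V2F_sing hb hbz
  have hvT : -(b + ρ) ∈ X.Y.Tt (m + 1) := neg_mem (add_mem hb hρ)
  have hDv : X.Y.Dt (-(b + ρ)) = -(X.Y.Dt b) - X.Y.Dt ρ := by
    rw [map_neg, map_add, neg_add, sub_eq_add_neg]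
  have hwT : w₀ - X.Y.Dt b ∈ X.Y.Tt (m + 2) := Submodule.sub_mem _ hT0 (CovD.Dt_mem hb)
  have hwz : (w₀ - X.Y.Dt b) {X.z} = 0 := by
    rw [Pi.sub_apply, hDbz, sub_zero]
    exact hz
  have hwD : X.Y.Dt (w₀ - X.Y.Dt b) = 0 := by
    rw [map_sub, CovD.Dt_Dt, hD0, sub_zero]
  have hzc : X.rp c ∈ X.S.Zc m := Lg_zc hX hwT hwz hwD ⟨hcT, β, hβ, hβe⟩
  refine ⟨c, -(b + ρ), hcT, ?_, ?_, ?_, fun C hC hzC => ?_, hzc, hvT, ?_⟩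
  · exact Submodule.add_mem _ hT0 (CovD.Dt_mem hvT)
  · rw [map_add, CovD.Dt_Dt, hD0, add_zero]
  · rw [hDv, Pi.add_apply, Pi.sub_apply, Pi.neg_apply, hDbz, hDρz, neg_zero, sub_zero, add_zero]
    exact hz
  · have e4 := hβe C hC hzC
    have e5 := hDρ C hC hzC
    rw [hDv, Pi.add_apply, Pi.sub_apply, Pi.neg_apply, e5]
    rw [Pi.sub_apply] at e4
    rw [← add_sub_assoc, ← sub_eq_add_neg, e4, add_sub_cancel_right]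
  · rw [Pi.neg_apply, Pi.add_apply, hbz, hρz, add_zero, neg_zero]

theorem gyr_ex (hX : (dzQ hle).Ok) {m : ℕ} {c w v : (prC Q).Ch} (h : GyR Q (m + 1) c w) (hv : v ∈ (prC Q).Tt (m + 2))
    (hz : v {Fin.last n} = 0) (hw : (prC Q).Dt v = w) : (rsH hle).push c ∈ (prC P).Bc (m + 1) := by
  refine ResR_zero hX (c := c) ⟨v, hv, hz, h.cm, 0, Submodule.zero_mem _, fun C hC hzC => ?_⟩
  have e1 : (dzQ hle).Y.Dt v = w := hw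
  have e2 := h.wl C hC hzC
  have e3 := dlz_eq hle hC hzC
  rw [e1, Pi.zero_apply, map_zero, add_zero, e3]
  exact e2

theorem gyr_sur (hX : (dzQ hle).Ok) {m : ℕ} {w₀ : (prC Q).Ch} (h : w₀ ∈ (prC Q).Zc (m + 2))
    (hz : w₀ {Fin.last n} = 0) : ∃ c w v : (prC Q).Ch, GyR Q m c w ∧ (rsH hle).push c ∈ (prC P).Zc m ∧
      v ∈ (prC Q).Tt (m + 1) ∧ v {Fin.last n} = 0 ∧ w = w₀ + (prC Q).Dt v := by
  obtain ⟨c, v, h1, h2, h3, h4, h5, h6, h7, h8⟩ := V2F_gen hX (m := m) (w₀ := w₀) h.1 h.2 hz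
  refine ⟨c, w₀ + (prC Q).Dt v, v, ⟨h1, ⟨h2, h3⟩, h4, fun C hC hzC => ?_⟩, h6, h7, h8, rfl⟩
  have e3 := dlz_eq hle hC hzC
  have e6 := h5 C hC hzC
  rw [e3] at e6
  exact e6

end MPadcHS
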