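import Pool.Agent.Lib.MP_adc574_ag_HS.Defs

/-!
# JOB V3A (HS): the charts of the divisor `z = 0`

`P = hyp Q = Q ⊔ (z)`, `z = Fin.last n`; `(rsH hle).h C = cmap (RingHom.id A) .. : chart Q C →+* chart P C`, `cq Q C l hj ↦ cq P C l hj` (`cmap_cq`), constants to constants (`cmap_base`).
* `V3A_surj`: `chart_ind` (GP/Mod.lean) for `chart P C`: constants, `cq P C l hj`, sums and products are in the range.
* `rsH_t`: `cq P C z hj * lx P C j = lx P C z` (`cq_mul_lx`) in `LR P C`; `X z ∈ P`, so `lx P C z = 0` (`lx` is the image of `X z`, `Ideal.Quotient.eq_zero_iff_mem`), and `lx P C j` is a unit (`lx_isUnit`). So `cq P C z hj = 0` (`Subtype.ext`).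
* `chart_zero`: `z ∈ C`: `1 = cq P C z hz` (`cq_self`) and it is `0` by `rsH_t` (with `j = z`), so `1 = 0` in `chart P C`.
* `V3A_ker`: `t := cq Q C z hj`, `B := chart Q C ⧸ Ideal.span {t}`. `exists_chart_lift` (GP/Mod.lean) for the ideal `P`, `φ` = the structure map of `B`, `i = j`, `z l = mk (cq Q C l hj)`: `z j = 1` (`cq_self`), `z l` is a unit for `l ∈ C` (`cq_isUnit`), and `eval₂ φ z f = 0` for `f ∈ P`: the kernel of `eval₂Hom` is an ideal containing `Q` (`eval₂_cq hQ hj f`: `eval₂ _ (cq Q C · hj) f = 0` for `f ∈ Q`; map to `B`) and `X z`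
  (its value is `mk t = 0`). It gives `g : chart P C →+* B` with `g (cq P C l hj) = mk (cq Q C l hj)`. `g ∘ (rsH hle).h C = mk` by `chart_hom_ext'`. So `(rsH hle).h C x = 0` gives `mk x = 0`, `x ∈ span {t}` (`Ideal.mem_span_singleton'`).
-/

set_option autoImplicit false
set_option linter.unusedSectionVars false

namespace MPadcHS

open MvPolynomial MPadcGP MPadcDC

universe u

variable {A : Type u} [CommRing A] {n : ℕ} {Q P : Ideal (MvPolynomial (Fin (n + 1)) A)}

private theorem V3A_surj0 (hle : Q ≤ P) (C : Finset (Fin (n + 1))) (y : chart P C) :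
    ∃ x : chart Q C, cmap (RingHom.id A) (rs_mem hle) (Finset.Subset.refl C) x = y := by
  induction y using chart_ind with
  | h1 a => exact ⟨algebraMap A _ a, cmap_base (RingHom.id A) (rs_mem hle) (Finset.Subset.refl C) a⟩
  | h2 l m hm => exact ⟨cq Q C l hm, cmap_cq (RingHom.id A) (rs_mem hle) (Finset.Subset.refl C) l hm⟩
  | h3 x y hx hy =>
    obtain ⟨a, ha⟩ := hx
    obtain ⟨b, hb⟩ := hy
    exact ⟨a + b, by rw [map_add, ha, hb]⟩
  | h4 x y hx hy =>
    obtain ⟨a, ha⟩ := hx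
    obtain ⟨b, hb⟩ := hy
    exact ⟨a * b, by rw [map_mul, ha, hb]⟩

private theorem V3A_lx (hP : P = hyp Q) (C : Finset (Fin (n + 1))) : lx P C (Fin.last n) = 0 := by
  have h1 : (X (Fin.last n) : MvPolynomial (Fin (n + 1)) A) ∈ P := by
    rw [hP]
    exact (le_sup_right : Ideal.span {X (Fin.last n)} ≤ hyp Q) (Ideal.mem_span_singleton_self _)
  have h2 : (Ideal.Quotient.mk P (X (Fin.last n)) : CR P) = 0 := Ideal.Quotient.eq_zero_iff_mem.2 h1
  rw [lx, h2, map_zero]

private theorem V3A_cq (hP : P = hyp Q) {C : Finset (Fin (n + 1))} {j : Fin (n + 1)} (hj : j ∈ C) :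
    cq P C (Fin.last n) hj = 0 := by
  apply Subtype.ext
  apply (lx_isUnit P C hj).mul_right_cancel
  rw [cq_mul_lx, V3A_lx hP]
  exact (zero_mul _).symm

private theorem V3A_ev {R' : Type*} [CommRing R'] (hQ : IsHomog Q) {C : Finset (Fin (n + 1))} {j : Fin (n + 1)}
    (hj : j ∈ C) (g : chart Q C →+* R') {f : MvPolynomial (Fin (n + 1)) A} (hf : f ∈ Q) :
    eval₂ (g.comp (algebraMap A (chart Q C))) (fun l => g (cq Q C l hj)) f = 0 := by
  have h2 := eval₂_comp_left g (algebraMap A (chart Q C)) (fun l => cq Q C l hj) f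
  rw [eval₂_cq hQ hj hf, map_zero] at h2
  exact h2.symm

private theorem V3A_ker0 {R' : Type*} [CommRing R'] (hle : Q ≤ P) (hP : P = hyp Q) (hQ : IsHomog Q)
    {C : Finset (Fin (n + 1))} {j : Fin (n + 1)} (hj : j ∈ C) (mk : chart Q C →+* R')
    (hmk : mk (cq Q C (Fin.last n) hj) = 0) {x : chart Q C}
    (hx' : cmap (RingHom.id A) (rs_mem hle) (Finset.Subset.refl C) x = 0) : mk x = 0 := by
  have hker : ∀ f ∈ P, eval₂ (mk.comp (algebraMap A (chart Q C))) (fun l => mk (cq Q C l hj)) f = 0 := by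
    have h1 : P ≤ RingHom.ker (eval₂Hom (mk.comp (algebraMap A (chart Q C))) (fun l => mk (cq Q C l hj))) := by
      rw [hP, hyp]
      refine sup_le ?_ ?_
      · intro f hf
        rw [RingHom.mem_ker]
        exact V3A_ev hQ hj mk hf
      · rw [Ideal.span_singleton_le_iff_mem, RingHom.mem_ker, eval₂Hom_X']
        exact hmk
    intro f hf
    exact RingHom.mem_ker.1 (h1 hf)
  obtain ⟨g, hg0, hg1⟩ := exists_chart_lift P C (mk.comp (algebraMap A (chart Q C))) hj
    (fun l => mk (cq Q C l hj)) (by rw [cq_self, map_one]) (fun l hl => (cq_isUnit Q C hl hj).map mk) hker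
  have hcomp : g.comp (cmap (RingHom.id A) (rs_mem hle) (Finset.Subset.refl C)) = mk := by
    refine chart_hom_ext' Q C hj (fun a => ?_) fun l => ?_
    · rw [RingHom.comp_apply, cmap_base, RingHom.id_apply, hg0, RingHom.comp_apply]
    · rw [RingHom.comp_apply, cmap_cq, hg1]
  rw [← hcomp, RingHom.comp_apply, hx', map_zero]

theorem V3A_surj (hle : Q ≤ P) (C : Finset (Fin (n + 1))) : Function.Surjective ((rsH hle).h C) := by
  intro y
  exact V3A_surj0 hle C y

theorem rsH_t (hle : Q ≤ P) (hP : P = hyp Q) {C : Finset (Fin (n + 1))} {j : Fin (n + 1)} (hj : j ∈ C) :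
    (rsH hle).h C (cq Q C (Fin.last n) hj : chart Q C) = 0 := by
  have h1 : cmap (RingHom.id A) (rs_mem hle) (Finset.Subset.refl C) (cq Q C (Fin.last n) hj) =
      cq P C (Fin.last n) hj := cmap_cq (RingHom.id A) (rs_mem hle) (Finset.Subset.refl C) (Fin.last n) hj
  exact h1.trans (V3A_cq hP hj)

theorem chart_zero (hP : P = hyp Q) {C : Finset (Fin (n + 1))} (hC : Fin.last n ∈ C) :
    Subsingleton (chart P C) := by
  have h1 : (1 : chart P C) = 0 := by
    rw [← cq_self P C hC]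
    exact V3A_cq hP hC
  exact subsingleton_of_zero_eq_one h1.symm

theorem V3A_ker (hle : Q ≤ P) (hP : P = hyp Q) (hQ : IsHomog Q) {C : Finset (Fin (n + 1))} {j : Fin (n + 1)}
    (hj : j ∈ C) {x : chart Q C} (hx : (rsH hle).h C x = 0) : ∃ y : chart Q C, x = cq Q C (Fin.last n) hj * y := by
  have hx' : cmap (RingHom.id A) (rs_mem hle) (Finset.Subset.refl C) x = 0 := hx
  have h3 := V3A_ker0 (R' := chart Q C ⧸ Ideal.span {cq Q C (Fin.last n) hj}) hle hP hQ hj
    (Ideal.Quotient.mk (Ideal.span {cq Q C (Fin.last n) hj}))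
    (Ideal.Quotient.eq_zero_iff_mem.2 (Ideal.mem_span_singleton_self _)) hx'
  have h4 : x ∈ Ideal.span {cq Q C (Fin.last n) hj} := Ideal.Quotient.eq_zero_iff_mem.1 h3
  obtain ⟨y, hy⟩ := Ideal.mem_span_singleton'.1 h4
  exact ⟨y, by rw [← hy, mul_comm]⟩

end MPadcHS
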