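import Pool.Agent.Lib.MP_adc574_ag_HS.V2E
import Pool.Agent.Lib.MP_adc574_ag_HS.V3A
import Pool.Agent.Lib.MP_adc574_ag_DC.C1A
import Pool.Agent.Lib.MP_adc574_ag_DC.GSm
import Pool.Agent.Lib.MP_adc574_ag_DC.GNz
import Pool.Agent.Lib.MP_adc574_ag_GP.Lifts

/-!
# JOB V3B (HS): the generic hyperplane section satisfies the hypotheses of Part V

`Q = cyc (bI (algebraMap κ K) J) (frm a) 1`, `X := dzQ hle`, `(prC Q).R C = chart Q C`. For `C` nonempty, `z ∉ C`, `j := C.min' hC`: `X.t C = cq Q C z hj` (`dif_pos`), `X.s C = cq Q (insert z C) j _`.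
* `last`: `Fin.le_last`. `inv`: `X.ro C (X.t C) = tr Q _ (cq Q C z hj) = cq Q (insert z C) z _` (`tr_cq`); `cq_mul : cq l j * cq j m = cq l m` and `cq_self`.
* `tr`: `j := C.min' _`, `j' := C'.min' _`: `w := cq Q C' j _` (`= x_j / x_j'`), `v := cq Q C' j' _` (`= x_j' / x_j`); `cq_mul`, `cq_self`, `tr_cq`.
* `r_surj`, `r_t`, `r_ker`, `r_z`: V3A (`IsHomog Q` = `(cyc_smooth hJ le_rfl ha).1`).
* `inj`: `rs_inj` (DC/C1A.lean; `X.re C = rz Q z C` by `rfl`), smoothness `(cyc_smooth hJ le_rfl ha).2`, `zeta_nzd hJ le_rfl ha hz hj`. `den`: `rs_den`; `fz (x ^ k) = (fz x) ^ k` (`map_pow`).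
* `der`: `exists_der_chart hJ le_rfl ha hz hj`.
* `dzQ_et`: `smooth`: `(cyc_smooth ..).2.smooth hQ hC` is `Algebra.Smooth`, `.formallySmooth`; `et`: `tr_formallyEtale` (GP/Lifts.lean).
-/

set_option autoImplicit false
set_option linter.unusedSectionVars false

namespace MPadcHS

open MvPolynomial MPadcGP MPadcDC

universe u

variable {κ K : Type u} [Field κ] [CharZero κ] [Field K] [Algebra κ K] {n : ℕ} {J : Ideal (MvPolynomial (Fin n) κ)}
  {a : Mon n 1 → K} {m : ℕ}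

private theorem V3B_t {Q P : Ideal (MvPolynomial (Fin (n + 1)) K)} (hle : Q ≤ P) {C : Finset (Fin (n + 1))}
    (hC : C.Nonempty) : (dzQ hle).t C = (cq Q C (Fin.last n) (C.min'_mem hC) : chart Q C) := dif_pos hC

private theorem V3B_s {Q P : Ideal (MvPolynomial (Fin (n + 1)) K)} (hle : Q ≤ P) {C : Finset (Fin (n + 1))}
    (hC : C.Nonempty) : (dzQ hle).s C = (cq Q (insert (Fin.last n) C) (C.min' hC) (Finset.mem_insert_self _ _) :
    chart Q (insert (Fin.last n) C)) := dif_pos hC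

private theorem V3B_ro {Q P : Ideal (MvPolynomial (Fin (n + 1)) K)} (hle : Q ≤ P) {C : Finset (Fin (n + 1))}
    (hC : C.Nonempty) : (dzQ hle).ro C ((dzQ hle).t C) = (cq Q (insert (Fin.last n) C) (Fin.last n)
      (Finset.mem_insert_of_mem (C.min'_mem hC)) : chart Q (insert (Fin.last n) C)) := by
  rw [V3B_t hle hC]
  exact tr_cq Q (Finset.subset_insert (Fin.last n) C) (Fin.last n) (C.min'_mem hC)

private theorem V3B_ok [CharZero K] {Q P : Ideal (MvPolynomial (Fin (n + 1)) K)} (hle : Q ≤ P) (hP : P = hyp Q)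
    (hQ : IsHomog Q) (hS : IsSmoothProj Q)
    (hnz : ∀ {C : Finset (Fin (n + 1))}, Fin.last n ∉ C → ∀ {j : Fin (n + 1)} (hj : j ∈ C),
      cq Q C (Fin.last n) hj ∈ nonZeroDivisors (chart Q C))
    (hder : ∀ {C : Finset (Fin (n + 1))}, Fin.last n ∉ C → ∀ {j : Fin (n + 1)} (hj : j ∈ C),
      ∃ (v : Derivation K (chart Q C) (chart Q C)) (g : chart Q C),
        v (cq Q C (Fin.last n) hj) + g * cq Q C (Fin.last n) hj = 1) : (dzQ hle).Ok where
  last j := Fin.le_last j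
  inv C hC hz := by
    rw [V3B_ro hle hC, V3B_s hle hC]
    exact (cq_mul Q _ _ _).trans (cq_self Q _ _)
  tr {C C'} h hC hz := by
    have hC' : C'.Nonempty := hC.mono h
    refine ⟨(cq Q C' (C.min' hC) (C'.min'_mem hC') : chart Q C'), (cq Q C' (C'.min' hC') (h (C.min'_mem hC)) : chart Q C'),
      (cq_mul Q _ _ _).trans (cq_self Q _ _), ?_⟩
    rw [V3B_t hle hC, V3B_t hle hC']
    have h1 : tr Q h (cq Q C (Fin.last n) (C.min'_mem hC)) = cq Q C' (Fin.last n) (h (C.min'_mem hC)) :=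
      tr_cq Q h (Fin.last n) (C.min'_mem hC)
    have h2 : cq Q C' (C.min' hC) (C'.min'_mem hC') * tr Q h (cq Q C (Fin.last n) (C.min'_mem hC)) =
        cq Q C' (Fin.last n) (C'.min'_mem hC') := by
      rw [h1, mul_comm, cq_mul]
    exact h2.symm
  r_surj C hC hz := V3A_surj hle C
  r_t C hC hz := by
    rw [V3B_t hle hC]
    exact rsH_t hle hP (C.min'_mem hC)
  r_ker C hC hz x hx := by
    rw [V3B_t hle hC]
    exact V3A_ker hle hP hQ (C.min'_mem hC) hx
  r_z C hC := chart_zero hP hC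
  inj C hC hz := rs_inj hQ hS (C.min'_mem hC) (hnz hz (C.min'_mem hC))
  den C hC hz q η hη := by
    obtain ⟨k, η₀, h1, h2⟩ := rs_den hQ (C.min'_mem hC) hη
    refine ⟨k, η₀, h1, ?_⟩
    rw [map_pow] at h2
    rw [V3B_ro hle hC]
    exact h2
  der C hC hz := by
    rw [V3B_t hle hC]
    exact hder hz (C.min'_mem hC)

theorem dzQ_ok (hJ : Good J m) (ha : AlgebraicIndependent κ a) {P : Ideal (MvPolynomial (Fin (n + 1)) K)}
    (hle : cyc (bI (algebraMap κ K) J) (frm a) 1 ≤ P) (hP : P = hyp (cyc (bI (algebraMap κ K) J) (frm a) 1)) :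
    (dzQ hle).Ok := by
  have hK : CharZero K := charZero_of_injective_algebraMap (algebraMap κ K).injective
  have h1 := cyc_smooth (K := K) hJ le_rfl ha
  exact V3B_ok hle hP h1.1 h1.2 (fun hz _ hj => zeta_nzd hJ le_rfl ha hz hj)
    (fun hz _ hj => exists_der_chart hJ le_rfl ha hz hj)

theorem dzQ_et (hJ : Good J m) (ha : AlgebraicIndependent κ a) {P : Ideal (MvPolynomial (Fin (n + 1)) K)}
    (hle : cyc (bI (algebraMap κ K) J) (frm a) 1 ≤ P) : (dzQ hle).Et := by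
  have h1 := cyc_smooth (K := K) hJ le_rfl ha
  exact ⟨fun C hC => (IsSmoothProj.smooth h1.1 h1.2 hC).formallySmooth,
    fun C C' hC h => tr_formallyEtale h1.1 hC h⟩

end MPadcHS
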