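import Pool.Agent.Lib.MP_adc574_ag_HS.VDefs
import Pool.Agent.Lib.MP_adc574_ag_GP.Lifts

/-!
# JOB V4A (HS): lifts of a derivation which preserve the divisor

* `lft_of`: the proof of `CovD.exists_lft` (GP/Lifts.lean): there the lifts `V0 K` are chosen by `exists_lift_der`; here they are given. (For `K` nonempty and `K ⊆ J` extend `V0 K` to `X.R J` along the formally étale `X.ρ h` by `exists_lift_der (R := X.R J) (V0 K)`; `comm` by `der_unique`.)
* `exists_log`: for `K` nonempty, `z ∉ K`: `V₀` from `exists_lift_der D` (`hE.smooth K hK`), `v, g` from `hX.der K`. `V0 K := V₀ - V₀ (t K) • v'`, where `v' : Derivation ℤ _ _` is `v` with scalars restricted to `ℤ` (`v.restrictScalars ℤ` or build it by hand: `Derivation.mk'`); `v'` kills the constants (`v (algebraMap a) = 0`, `Derivation.map_algebraMap`), so `V0 K (algebraMap a) = algebraMap (D a)`;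
  `V0 K (t K) = V₀ (t K) * (1 - v (t K)) = V₀ (t K) * g * t K`. For the other `K` take any lift (`K` nonempty: `V₀`; `K = ∅`: `0`). `lft_of`: `V`. For `K ⊆ J`, `z ∉ J` (so `z ∉ K`): `X.t J = w * X.Y.ρ h (X.t K)`, `w * v' = 1` (`hX.tr`): `V.V K J (X.t J) = V.V K J w * ρ (t K) + w * ρ (V0 K (t K))` (Leibniz, `hV`) `= (V.V K J w + w * ρ (V₀ (t K) * g)) * ρ (t K)` and `ρ (t K) = v' * X.t J`.
* `exists_lf`: `V'.V K J := if X.z ∈ K ∧ K ≠ {X.z} then V.V (K.erase X.z) J else V.V K J`; `base`, `comm`: `K.erase z` is nonempty and contained in `K`. For `z ∉ C`, `C` nonempty: `(insert z C).erase z = C` (`Finset.erase_insert`), `insert z C ≠ {z}`. For `K ∌ z` it is unchanged.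
-/

set_option autoImplicit false
set_option linter.unusedSectionVars false

namespace MPadcHS

open MPadcGP MPadcDC

universe u

/-- Lifts with given values on the charts. -/
theorem lft_of {A : Type u} [CommRing A] {N : ℕ} (X : CovD.{u, u} A N)
    (h2 : ∀ (K J : Finset (Fin N)), K.Nonempty → ∀ h : K ⊆ J,
      @Algebra.FormallyEtale (X.R K) (X.R J) _ _ (X.ρ h).toRingHom.toAlgebra)
    (D : Derivation ℤ A A) (V0 : ∀ K : Finset (Fin N), Derivation ℤ (X.R K) (X.R K))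
    (hV0 : ∀ K : Finset (Fin N), K.Nonempty → ∀ a, V0 K (algebraMap A _ a) = algebraMap A _ (D a)) :
    ∃ V : Lft X D, ∀ (K J : Finset (Fin N)) (_ : K.Nonempty) (h : K ⊆ J) (x : X.R K),
      V.V K J (X.ρ h x) = X.ρ h (V0 K x) := by
  classical
  have h4 : ∀ K J : Finset (Fin N), ∃ V : Derivation ℤ (X.R J) (X.R J), K.Nonempty →
      ∀ h : K ⊆ J, ∀ x, V (X.ρ h x) = X.ρ h (V0 K x) := by
    intro K J
    by_cases hK : K.Nonempty ∧ K ⊆ J
    · let _ : Algebra (X.R K) (X.R J) := (X.ρ hK.2).toRingHom.toAlgebra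
      have h5 : Algebra.FormallyEtale (X.R K) (X.R J) := h2 K J hK.1 hK.2
      obtain ⟨V, hV⟩ := exists_lift_der (R := X.R J) (V0 K)
      exact ⟨V, fun _ _ => hV⟩
    · exact ⟨0, fun h h' => absurd ⟨h, h'⟩ hK⟩
  choose V hV using h4
  refine ⟨⟨V, fun K J hK hJ a => ?_, fun K J L hK hJ h x => ?_⟩, fun K J hK h x => hV K J hK h x⟩
  · rw [← (X.ρ hJ).commutes a, hV K J hK hJ, hV0 K hK, (X.ρ hJ).commutes]
  · let _ : Algebra (X.R K) (X.R J) := (X.ρ hJ).toRingHom.toAlgebra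
    have h5 : Algebra.FormallyEtale (X.R K) (X.R J) := h2 K J hK hJ
    have h6 := der_unique (R := X.R K) (S := X.R J) (T := X.R L) (X.ρ h).toRingHom
      (((X.ρ h : X.R J →+* X.R L) : X.R J →+ X.R L).comp
          ((V K J : X.R J →ₗ[ℤ] X.R J) : X.R J →+ X.R J) -
        ((V K L : X.R L →ₗ[ℤ] X.R L) : X.R L →+ X.R L).comp
          ((X.ρ h : X.R J →+* X.R L) : X.R J →+ X.R L))
      (fun x y => by
        change X.ρ h (V K J (x * y)) - V K L (X.ρ h (x * y)) =
          X.ρ h x * (X.ρ h (V K J y) - V K L (X.ρ h y)) +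
            X.ρ h y * (X.ρ h (V K J x) - V K L (X.ρ h x))
        rw [Derivation.leibniz, map_mul, Derivation.leibniz, map_add, smul_eq_mul, smul_eq_mul,
          smul_eq_mul, smul_eq_mul, map_mul, map_mul]
        ring)
      (fun r => by
        change X.ρ h (V K J (X.ρ hJ r)) - V K L (X.ρ h (X.ρ hJ r)) = 0
        rw [hV K J hK hJ, X.ρ_comp, X.ρ_comp, hV K L hK, sub_self]) x
    exact sub_eq_zero.1 h6

variable {A : Type u} [CommRing A] {N : ℕ} {X : Dz A N}

private theorem V4A_chart (hX : X.Ok) (hE : X.Et) (D : Derivation ℤ A A) (K : Finset (Fin N)) :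
    ∃ V : Derivation ℤ (X.Y.R K) (X.Y.R K), K.Nonempty →
      (∀ a, V (algebraMap A _ a) = algebraMap A _ (D a)) ∧
      (X.z ∉ K → ∃ h, V (X.t K) = h * X.t K) := by
  by_cases hK : K.Nonempty
  · have hs := hE.smooth K hK
    obtain ⟨V₀, hV₀⟩ := exists_lift_der (R := X.Y.R K) D
    by_cases hz : X.z ∈ K
    · exact ⟨V₀, fun _ => ⟨hV₀, fun h => absurd hz h⟩⟩
    · obtain ⟨v, g, hv⟩ := hX.der K hK hz
      refine ⟨V₀ - V₀ (X.t K) • v.restrictScalars ℤ, fun _ => ⟨fun a => ?_, fun _ =>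
        ⟨V₀ (X.t K) * g, ?_⟩⟩⟩
      · have h1 : (v.restrictScalars ℤ) (algebraMap A (X.Y.R K) a) = 0 := v.map_algebraMap a
        rw [Derivation.sub_apply, Derivation.smul_apply, h1, smul_zero, sub_zero, hV₀]
      · have h1 : (v.restrictScalars ℤ) (X.t K) = v (X.t K) := rfl
        rw [Derivation.sub_apply, Derivation.smul_apply, h1, smul_eq_mul]
        linear_combination (-V₀ (X.t K)) * hv
  · exact ⟨0, fun h => absurd h hK⟩

theorem exists_log (hX : X.Ok) (hE : X.Et) (D : Derivation ℤ A A) : ∃ V : Lft X.Y D,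
    ∀ K J : Finset (Fin N), K.Nonempty → K ⊆ J → X.z ∉ J → ∃ h, V.V K J (X.t J) = h * X.t J := by
  choose V0 hV0 using V4A_chart hX hE D
  obtain ⟨V, hV⟩ := lft_of X.Y hE.et D V0 fun K hK => (hV0 K hK).1
  refine ⟨V, fun K J hK h hz => ?_⟩
  obtain ⟨w, v, hwv, ht⟩ := hX.tr h hK hz
  obtain ⟨g, hg⟩ := (hV0 K hK).2 fun h' => hz (h h')
  refine ⟨(V.V K J w + w * X.Y.ρ h g) * v, ?_⟩
  have h1 : V.V K J (X.t J) = w * (X.Y.ρ h g * X.Y.ρ h (X.t K)) + X.Y.ρ h (X.t K) * V.V K J w := by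
    rw [ht, Derivation.leibniz, smul_eq_mul, smul_eq_mul, hV K J hK h, hg, map_mul]
  have h2 : X.Y.ρ h (X.t K) = v * X.t J := by
    rw [ht]
    linear_combination (-X.Y.ρ h (X.t K)) * hwv
  rw [h1, h2]
  ring

/-- Lifts which preserve the divisor, and are the same on `U_C` and `U_C ∩ U_z`. -/
theorem exists_lf (hX : X.Ok) (hE : X.Et) (D : Derivation ℤ A A) : ∃ V : Lft X.Y D,
    (∀ K J : Finset (Fin N), K.Nonempty → K ⊆ J → X.z ∉ J → ∃ h, V.V K J (X.t J) = h * X.t J) ∧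
    ∀ C J : Finset (Fin N), C.Nonempty → X.z ∉ C → V.V (insert X.z C) J = V.V C J := by
  classical
  obtain ⟨V, hV⟩ := exists_log hX hE D
  have hne : ∀ K : Finset (Fin N), X.z ∈ K ∧ K ≠ {X.z} → (K.erase X.z).Nonempty := by
    rintro K ⟨h1, h2⟩
    rw [Finset.nonempty_iff_ne_empty]
    intro h3
    rcases (Finset.erase_eq_empty_iff K X.z).1 h3 with h4 | h4
    · rw [h4] at h1
      exact absurd h1 (Finset.notMem_empty _)
    · exact h2 h4
  let W : ∀ (_ J : Finset (Fin N)), Derivation ℤ (X.Y.R J) (X.Y.R J) := fun K J =>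
    if X.z ∈ K ∧ K ≠ {X.z} then V.V (K.erase X.z) J else V.V K J
  have hW1 : ∀ K J : Finset (Fin N), (X.z ∈ K ∧ K ≠ {X.z}) → W K J = V.V (K.erase X.z) J :=
    fun K J h => if_pos h
  have hW2 : ∀ K J : Finset (Fin N), ¬ (X.z ∈ K ∧ K ≠ {X.z}) → W K J = V.V K J :=
    fun K J h => if_neg h
  refine ⟨⟨W, fun K J hK hJ a => ?_, fun K J L hK hJ h x => ?_⟩, fun K J hK h hz => ?_,
    fun C J hC hz => ?_⟩
  · by_cases hc : X.z ∈ K ∧ K ≠ {X.z}
    · rw [hW1 K J hc]
      exact V.base _ J (hne K hc) ((Finset.erase_subset _ _).trans hJ) a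
    · rw [hW2 K J hc]
      exact V.base K J hK hJ a
  · by_cases hc : X.z ∈ K ∧ K ≠ {X.z}
    · rw [hW1 K J hc, hW1 K L hc]
      exact V.comm _ J L (hne K hc) ((Finset.erase_subset _ _).trans hJ) h x
    · rw [hW2 K J hc, hW2 K L hc]
      exact V.comm K J L hK hJ h x
  · have hc : ¬ (X.z ∈ K ∧ K ≠ {X.z}) := fun hc => hz (h hc.1)
    obtain ⟨g, hg⟩ := hV K J hK h hz
    refine ⟨g, ?_⟩
    change W K J (X.t J) = g * X.t J
    rw [hW2 K J hc]
    exact hg
  · have hc : ¬ (X.z ∈ C ∧ C ≠ {X.z}) := fun hc => hz hc.1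
    have hc' : X.z ∈ insert X.z C ∧ insert X.z C ≠ {X.z} := by
      refine ⟨Finset.mem_insert_self _ _, fun h1 => ?_⟩
      obtain ⟨c, hc1⟩ := hC
      have h2 : c ∈ ({X.z} : Finset (Fin N)) := by
        rw [← h1]
        exact Finset.mem_insert_of_mem hc1
      rw [Finset.mem_singleton] at h2
      rw [h2] at hc1
      exact hz hc1
    change W (insert X.z C) J = W C J
    rw [hW1 _ J hc', hW2 C J hc, Finset.erase_insert hz]

end MPadcHS
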