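import Pool.Agent.Lib.MP_adc574_ag_HS.V1C
import Pool.Agent.Lib.MP_adc574_ag_GP.GM

/-!
# JOB V4C (HS): the induced lifts on the divisor

Let `K` be nonempty, `K ⊆ J`. If `z ∈ J` then `X.S.R J` is a subsingleton (`hX.r_z`): take the derivation `0`; all equations hold by `Subsingleton.elim`. If `z ∉ J` (`J` nonempty): `X.r.h J` is surjective (`hX.r_surj`) and `V := V.V K J` maps its kernel into itself: `X.r.h J x = 0` gives `x = X.t J * y` (`hX.r_ker`), `V x = V (t J) * y + t J * V y = t J * (h * y + V y)` (`hV`), and `X.r.h J` of it is `0` (`hX.r_t`).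
So there is a unique additive map `W : X.S.R J → X.S.R J` with `W (X.r.h J x) = X.r.h J (V x)`: define `W y := X.r.h J (V (x))` with a chosen preimage `x` of `y` (`Function.surjInv`); well defined: two preimages differ by an element of the kernel. It is a derivation (`Derivation.mk'` of the additive map as a `ℤ`-linear map): choose preimages, `X.r.h J` is a ring homomorphism.
If `K` is empty or `K ⊄ J` take `0`. `base`: `algebraMap A (X.S.R J) a = X.r.h J (algebraMap a)` (`X.r.base`, `RingHom.id_apply`), `V.base`. `comm`: `X.S.ρ h (X.r.h J x) = X.r.h L (X.Y.ρ h x)` (`X.r.comm`) and `V.comm`; elements of `X.S.R J` are `X.r.h J x` (for `z ∈ J` also `z ∈ L`, subsingleton; for `z ∉ J`, `z ∈ L`: subsingleton target).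
-/

set_option autoImplicit false
set_option linter.unusedSectionVars false

namespace MPadcHS

open MPadcGP MPadcDC

universe u

variable {A : Type u} [CommRing A] {N : ℕ} {X : Dz A N}

/-- Derivations which preserve the kernel descend. -/
private theorem V4C_desc {R S : Type u} [CommRing R] [CommRing S] (π : R →+* S)
    (hs : Function.Surjective π) (V : Derivation ℤ R R) (hV : ∀ x, π x = 0 → π (V x) = 0) :
    ∃ W : Derivation ℤ S S, ∀ x, W (π x) = π (V x) := by
  have h0 : ∀ x y, π x = π y → π (V x) = π (V y) := by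
    intro x y hxy
    have h1 : π (x - y) = 0 := by rw [map_sub, hxy, sub_self]
    have h2 := hV _ h1
    rw [map_sub, map_sub, sub_eq_zero] at h2
    exact h2
  have hi : ∀ y, π (Function.surjInv hs y) = y := Function.surjInv_eq hs
  refine ⟨Derivation.mk' (AddMonoidHom.toIntLinearMap
    { toFun := fun y => π (V (Function.surjInv hs y))
      map_zero' := ?_
      map_add' := ?_ }) ?_, ?_⟩
  · refine hV _ ?_
    rw [hi]
  · intro y y'
    rw [← map_add, ← map_add]
    refine h0 _ _ ?_
    rw [map_add, hi, hi, hi]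
  · intro y y'
    show π (V (Function.surjInv hs (y * y'))) =
      y * π (V (Function.surjInv hs y')) + y' * π (V (Function.surjInv hs y))
    have h1 : π (V (Function.surjInv hs (y * y'))) =
        π (V (Function.surjInv hs y * Function.surjInv hs y')) := by
      refine h0 _ _ ?_
      rw [map_mul, hi, hi, hi]
    rw [h1, Derivation.leibniz, smul_eq_mul, smul_eq_mul, map_add, map_mul, map_mul, hi, hi]
  · intro x
    show π (V (Function.surjInv hs (π x))) = π (V x)
    exact h0 _ _ (hi _)

/-- Lifts which preserve the divisor induce lifts on the divisor. -/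
theorem exists_lfS (hX : X.Ok) {D : Derivation ℤ A A} (V : Lft X.Y D)
    (hV : ∀ K J : Finset (Fin N), K.Nonempty → K ⊆ J → X.z ∉ J → ∃ h, V.V K J (X.t J) = h * X.t J) :
    ∃ VS : Lft X.S D, ∀ K J : Finset (Fin N), K.Nonempty → K ⊆ J → ∀ x : X.Y.R J,
      VS.V K J (X.r.h J x) = X.r.h J (V.V K J x) := by
  have key : ∀ K J : Finset (Fin N), ∃ W : Derivation ℤ (X.S.R J) (X.S.R J), K.Nonempty → K ⊆ J →
      ∀ x : X.Y.R J, W (X.r.h J x) = X.r.h J (V.V K J x) := by
    intro K J
    by_cases hK : K.Nonempty
    · by_cases hKJ : K ⊆ J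
      · by_cases hz : X.z ∈ J
        · have hsub := hX.r_z J hz
          exact ⟨0, fun _ _ x => Subsingleton.elim _ _⟩
        · obtain ⟨W, hW⟩ := V4C_desc (X.r.h J) (hX.r_surj J (hK.mono hKJ) hz) (V.V K J) (by
            intro x hx
            obtain ⟨y, rfl⟩ := hX.r_ker J (hK.mono hKJ) hz x hx
            obtain ⟨h, hh⟩ := hV K J hK hKJ hz
            rw [Derivation.leibniz, hh, smul_eq_mul, smul_eq_mul, map_add, map_mul, map_mul,
              map_mul, hX.r_t J (hK.mono hKJ) hz]
            ring)
          exact ⟨W, fun _ _ => hW⟩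
      · exact ⟨0, fun _ h => absurd h hKJ⟩
    · exact ⟨0, fun h => absurd h hK⟩
  choose W hW using key
  refine ⟨{ V := W, base := ?_, comm := ?_ }, fun K J hK hKJ x => hW K J hK hKJ x⟩
  · intro K J hK hKJ a
    have h1 := X.r.base J a
    rw [RingHom.id_apply] at h1
    have h2 := X.r.base J (D a)
    rw [RingHom.id_apply] at h2
    rw [← h1, hW K J hK hKJ, V.base K J hK hKJ, h2]
  · intro K J L hK hKJ h x
    by_cases hz : X.z ∈ L
    · have hsub := hX.r_z L hz
      exact Subsingleton.elim _ _
    · have hzJ : X.z ∉ J := fun h' => hz (h h')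
      obtain ⟨y, rfl⟩ := hX.r_surj J (hK.mono hKJ) hzJ x
      rw [hW K J hK hKJ, ← X.r.comm, V.comm K J L hK hKJ h, ← X.r.comm,
        hW K L hK (hKJ.trans h)]

end MPadcHS
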