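import Pool.Agent.Lib.MP_adc574_ag_HS.V1C
import Pool.Agent.Lib.MP_adc574_ag_GP.GM

/-!
# JOB V4D (HS): the Gauss-Manin operator of a logarithmic cochain

`V.Gm c J = LL A (V.V J J) (c J) - ∑ j ∈ J, sg j J • cz A (V.V (J.erase j) J - V.V J J) (ev (ic c) (J.erase j) J)` (`Lft.Gm`, `Lc_apply`, `Ic_apply`).
`w ∈ Tt (m + 2)`, `w {z} = 0`, `w (insert z C) = dl C * re C (c C) + re C (β C)`. Claim: `V.Gm w` is logarithmic with the residue `V.Gm c`.
Fix `C` nonempty, `z ∉ C`, `D := insert z C`, `d := V.V D D = V.V C D` (`hV2`). Facts: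
(a) `d` extends `V.V C C`: `d (ro C x) = ro C (V.V C C x)` (`V.comm`), so `LL A d (re C x) = re C (LL A (V.V C C) x)` (`mp_LL`, `CovD.rs`, as in the proof of `ev_Lc` in GP/GM.lean).
(b) `V.V C C (t C) = h * t C` (`hV1`), so `LL A d (dl C) = re C (dd (fz h))`: `dl C = fz (s C) * df (ro (t C))`, `d (s C) = - s C * s C * d (ro (t C)) = - ro h * s C` (from `ro t * s = 1`), `LL (df x) = df (d x)` (`LL_df`), `LL (fz x) = fz (d x)` (`LL_fz`), `LL_mul`; `df (ro (h * t)) = fz (ro h) * df (ro t) + fz (ro t) * df (ro h)`: the sum is `- fz (ro h) * dl + fz s * (fz (ro h) * df (ro t) + fz (ro t) * df (ro h)) = df (ro h)`.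
(c) the sum over `j ∈ D` (`Finset.sum_insert`): `j = z`: `D.erase z = C`, `V.V C D - V.V D D = 0`, `cz A 0 = 0` (`cz_of`, `ct` of the zero derivation; or `cz_sub`-type lemma; prove `cz A 0 e = 0` by `cz_of` and `ct_add`/`fm_ind`). `j ∈ C` with `C.erase j = ∅`: `D.erase j = {z}`, `w {z} = 0`, and `c ∅ = 0`.
  `j ∈ C` with `E := C.erase j` nonempty: `D.erase j = insert z E`, `sg j D = sg j C` (`hX.last`), `V.V (insert z E) D = V.V E D` (`hV2`). Let `θ := V.V E D - V.V C D` and `θ' := V.V E C - V.V C C` (both kill constants; `θ (ro C x) = ro C (θ' x)` by `V.comm`), `T := ρ (t E) ∈ Y.R C`: `θ' T = g_j * T` for some `g_j`: `V.V E C (t C) = h₁ * t C` and `V.V C C (t C) = h * t C` (`hV1 E C`, `hV1 C C`), `t C = w₀ * T` with `w₀ v₀ = 1` (`hX.tr`), so for a derivation `V'` with `V' (t C) = h₁ * t C`: `V' T = V' (v₀ * t C) = V' v₀ * t C + v₀ * h₁ * t C = (..) * T`.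
  `rs (dl E) = fz σ * df (ro C T)` with `σ` the inverse of `ro C T` (V1C header), so `cz θ (rs (dl E) * x) = fz (σ * ro C (θ' T)) * x - rs (dl E) * cz θ x = re C (fz g_j) * x - rs (dl E) * cz θ x` (`cz_of`, `ct_mul`/`ct_df_mul`).
  With `ev (ic w) (D.erase j) D = inv (rs (dl E) * re C (rs (c E)) + re C (rs (β E))) = - rs (dl E) * re C (inv (rs (c E))) + re C (inv (rs (β E)))`, `rs (dl E) = dl C - re C θ₁` (`dl_rs`): `cz θ (..) = - re C (fz g_j * inv (rs (c E))) + (dl C - re C θ₁) * re C (cz θ' (inv (rs (c E)))) + re C (cz θ' (inv (rs (β E))))` (`mp_cz` for `cz θ (re C x) = re C (cz θ' x)`).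
Sum: `V.Gm w D = dl C * re C (LL (V.V C C) (c C) - ∑ sg j C • cz θ' (inv (rs (c (C.erase j))))) + re C (β' C) = dl C * re C (V.Gm c C) + re C (β' C)`,
`β' C := dd (fz h) * c C + LL (V.V C C) (β C) + ∑ sg j C • (fz g_j * inv (rs (c E)) + θ₁ * cz θ' (inv (rs (c E))) - cz θ' (inv (rs (β E))))`. Degrees: `β' ∈ Tt (m + 1)` (`c E ∈ Fd (q)` where `q + |E| = m + 1`, i.e. `q + |C| = m + 2` ✓., `β E ∈ Fd (q + 1)`, `cz` lowers by one: `cz_mem`, `cz_mem_zero`). `V.Gm c ∈ Tt m` (`Gm_mem`).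
-/

set_option autoImplicit false
set_option linter.unusedSectionVars false

namespace MPadcHS

open MPadcGP MPadcDC

universe u

variable {A : Type u} [CommRing A] {N : ℕ} {X : Dz A N}

section

variable {R : Type u} [CommRing R] [Algebra A R]

private theorem V4D_cz_zero (e : Fm A R) : cz A (0 : Derivation ℤ R R) e = 0 := by
  have h := cz_sub (A := A) (D := (0 : Derivation ℤ R R)) (D' := 0) (D'' := 0) (fun a => rfl)
    (fun a => rfl) e
  rw [sub_self] at h
  exact left_eq_add.1 h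

private theorem V4D_cz_mul (D : Derivation ℤ R R) (e f : Fm A R) :
    cz A D (e * f) = cz A D e * f + inv A e * cz A D f := by
  by_cases h : ∀ a : A, D (algebraMap A R a) = 0
  · rw [cz_of h, cz_of h, cz_of h, ct_mul]
  · unfold cz
    rw [dif_neg h, AddMonoidHom.zero_apply, AddMonoidHom.zero_apply, AddMonoidHom.zero_apply, zero_mul,
      mul_zero, add_zero]

private theorem V4D_cz_dlog {D : Derivation ℤ R R} (h : ∀ a : A, D (algebraMap A R a) = 0) (s t : R) :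
    cz A D (fz A s * df A t) = fz A (s * D t) := by
  rw [cz_of h, ct_mul, ct_fz, zero_mul, zero_add, inv_fz, ct_df, map_mul]
  rfl

private theorem V4D_LL {d : Derivation ℤ R R} (hd : PC A d) {s t k : R} (hs : t * s = 1)
    (ht : d t = k * t) : LL A d (fz A s * df A t) = df A k := by
  have h1 : d s = -(s * k) := by
    have h2 : d (t * s) = 0 := by
      rw [hs]
      exact Derivation.map_one_eq_zero d
    rw [Derivation.leibniz, smul_eq_mul, smul_eq_mul, ht] at h2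
    linear_combination s * h2 - (d s + s * k) * hs
  rw [LL_mul A hd, LL_fz A hd, LL_df A hd, h1, ht, df_mul, map_neg, map_mul, mul_add, ← mul_assoc,
    ← mul_assoc, neg_mul, neg_add_cancel_left, ← map_mul, mul_comm s t, hs, map_one, one_mul]

end

private theorem V4D_inv_dl (C : Finset (Fin N)) : inv A (X.dl C) = -X.dl C := by
  unfold Dz.dl
  rw [map_mul, inv_fz, inv_df, mul_neg]

private theorem V4D_inv_one {C : Finset (Fin N)} {θ : X.Y.E C} (h : θ ∈ Fd A (X.Y.R C) 1) :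
    inv A θ = -θ := by
  rw [inv_mem h, pow_one, neg_one_mul]

private theorem V4D_term (hX : X.Ok) {D : Derivation ℤ A A} (V : Lft X.Y D)
    (hV1 : ∀ K J : Finset (Fin N), K.Nonempty → K ⊆ J → X.z ∉ J → ∃ h, V.V K J (X.t J) = h * X.t J)
    (hV2 : ∀ C J : Finset (Fin N), C.Nonempty → X.z ∉ C → V.V (insert X.z C) J = V.V C J) {m : ℕ}
    {w c β : X.Y.Ch} (hz : w {X.z} = 0) (hc : c ∈ X.Y.Tt m) (hβ : β ∈ X.Y.Tt (m + 1))
    (hw : ∀ C : Finset (Fin N), C.Nonempty → X.z ∉ C →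
      w (insert X.z C) = X.dl C * X.re C (c C) + X.re C (β C))
    {C : Finset (Fin N)} (hC : C.Nonempty) (hzC : X.z ∉ C) {j : Fin N} (hj : j ∈ C) :
    ∃ b : X.Y.E C, (∀ q, q + C.card = m + 2 → b ∈ Fd A (X.Y.R C) q) ∧ (m + 2 < C.card → b = 0) ∧
      cz A (V.V ((insert X.z C).erase j) (insert X.z C) - V.V (insert X.z C) (insert X.z C))
        (X.Y.ev (X.Y.ic w) ((insert X.z C).erase j) (insert X.z C)) =
      X.dl C * X.re C (cz A (V.V (C.erase j) C - V.V C C) (X.Y.ev (X.Y.ic c) (C.erase j) C)) +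
        X.re C b := by
  have hjz : j ≠ X.z := fun h => hzC (h ▸ hj)
  have hE : (insert X.z C).erase j = insert X.z (C.erase j) := Finset.erase_insert_of_ne hjz.symm
  rw [hE]
  have hcard := Finset.card_erase_add_one hj
  rcases (C.erase j).eq_empty_or_nonempty with hEe | hEn
  · refine ⟨0, fun q _ => Submodule.zero_mem _, fun _ => rfl, ?_⟩
    have h1 : X.Y.ic w (insert X.z (C.erase j)) = 0 := by
      rw [hEe, insert_empty_eq, CovD.ic_apply, hz, map_zero]
    have h2 : X.Y.ic c (C.erase j) = 0 := by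
      rw [hEe, CovD.ic_apply, hc.1, map_zero]
    rw [CovD.ev_eq_zero h1, CovD.ev_eq_zero h2]
    simp only [map_zero, mul_zero, add_zero]
  · have hEC : C.erase j ⊆ C := Finset.erase_subset j C
    have hzE : X.z ∉ C.erase j := fun h => hzC (hEC h)
    have hsub : C ⊆ insert X.z C := Finset.subset_insert X.z C
    obtain ⟨θ₁, hθ₁, hdl⟩ := dl_rs hX hEC hEn hzC
    obtain ⟨h₁, hh₁⟩ := hV1 (C.erase j) C hEn hEC hzC
    obtain ⟨h₀, hh₀⟩ := hV1 C C hC (Finset.Subset.refl C) hzC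
    rw [hV2 (C.erase j) _ hEn hzE, hV2 C _ hC hzC]
    obtain ⟨θ, hθ⟩ : ∃ θ, θ = V.V (C.erase j) (insert X.z C) - V.V C (insert X.z C) := ⟨_, rfl⟩
    obtain ⟨θ', hθ'⟩ : ∃ θ', θ' = V.V (C.erase j) C - V.V C C := ⟨_, rfl⟩
    rw [← hθ, ← hθ']
    have hb : ∀ a : A, θ (algebraMap A _ a) = 0 := fun a => by
      rw [hθ, Derivation.sub_apply, V.base _ _ hEn (hEC.trans hsub), V.base _ _ hC hsub, sub_self]
    have hb' : ∀ a : A, θ' (algebraMap A _ a) = 0 := fun a => by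
      rw [hθ', Derivation.sub_apply, V.base _ _ hEn hEC, V.base _ _ hC (Finset.Subset.refl C),
        sub_self]
    have hcom : ∀ x, X.ro C (θ' x) = θ (X.ro C x) := fun x => by
      rw [hθ, hθ', Derivation.sub_apply, Derivation.sub_apply, map_sub]
      unfold Dz.ro
      rw [V.comm _ _ _ hEn hEC hsub, V.comm _ _ _ hC (Finset.Subset.refl C) hsub]
    have hmp : ∀ e, X.re C (cz A θ' e) = cz A θ (X.re C e) := fun e =>
      mp_cz (CC.of_algHom (X.ro C)) hb' hb hcom e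
    have hdl2 : cz A θ (X.dl C) = X.re C (fz A (h₁ - h₀)) := by
      unfold Dz.dl Dz.re
      rw [V4D_cz_dlog hb, ← hcom, CovD.rs_fz]
      congr 1
      rw [hθ', Derivation.sub_apply, hh₁, hh₀, ← sub_mul, map_mul, mul_comm (X.s C), mul_assoc,
        hX.inv C hC hzC, mul_one]
      rfl
    have hev : X.Y.ev (X.Y.ic w) (insert X.z (C.erase j)) (insert X.z C) =
        -((X.dl C - X.re C θ₁) * X.re C (X.Y.ev (X.Y.ic c) (C.erase j) C)) +
          X.re C (X.Y.ev (X.Y.ic β) (C.erase j) C) := by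
      rw [CovD.ev_ic, CovD.ev_ic, CovD.ev_ic, CovD.ev_of (Finset.insert_subset_insert X.z hEC),
        CovD.ev_of hEC, CovD.ev_of hEC, hw _ hEn hzE, map_add, map_mul, rs_re hEC, rs_re hEC, hdl, map_add,
        map_mul, map_sub, V4D_inv_dl]
      unfold Dz.re
      rw [CovD.rs_inv, CovD.rs_inv, ← CovD.rs_inv _ θ₁, V4D_inv_one hθ₁, map_neg, ← neg_mul]
      congr 2
      abel
    refine ⟨-(fz A (h₁ - h₀) * X.Y.ev (X.Y.ic c) (C.erase j) C) +
      cz A θ' (θ₁ * X.Y.ev (X.Y.ic c) (C.erase j) C) +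
      cz A θ' (X.Y.ev (X.Y.ic β) (C.erase j) C), ?_, ?_, ?_⟩
    · intro q hq
      have hy : X.Y.ev (X.Y.ic c) (C.erase j) C ∈ Fd A (X.Y.R C) q :=
        CovD.ev_mem (((CovD.ic_mem hc).2 _).1 q (by omega)) _
      have hy' : X.Y.ev (X.Y.ic β) (C.erase j) C ∈ Fd A (X.Y.R C) (q + 1) :=
        CovD.ev_mem (((CovD.ic_mem hβ).2 _).1 (q + 1) (by omega)) _
      refine Submodule.add_mem _ (Submodule.add_mem _ (Submodule.neg_mem _ (fz_mul_mem _ hy)) ?_)
        (cz_mem hy')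
      have h5 := fd_mul hθ₁ hy
      rw [add_comm 1 q] at h5
      exact cz_mem h5
    · intro hq
      have hy : X.Y.ev (X.Y.ic c) (C.erase j) C = 0 :=
        CovD.ev_eq_zero (((CovD.ic_mem hc).2 _).2 (by omega)) _
      have hy' : cz A θ' (X.Y.ev (X.Y.ic β) (C.erase j) C) = 0 := by
        rcases Nat.lt_or_ge (m + 2) (C.erase j).card with h5 | h5
        · rw [CovD.ev_eq_zero (((CovD.ic_mem hβ).2 _).2 (by omega)), map_zero]
        · exact cz_mem_zero (CovD.ev_mem (((CovD.ic_mem hβ).2 _).1 0 (by omega)) _)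
      rw [hy, hy', mul_zero, mul_zero, map_zero, neg_zero, add_zero, add_zero]
    · rw [hev, map_add, map_neg, sub_mul, map_sub, V4D_cz_mul, hdl2, V4D_inv_dl, ← map_mul,
        ← map_mul, ← hmp, ← hmp, ← hmp, map_add, map_add, map_neg]
      rw [neg_mul]
      abel

private theorem V4D_main (hX : X.Ok) {D : Derivation ℤ A A} (V : Lft X.Y D)
    (hV1 : ∀ K J : Finset (Fin N), K.Nonempty → K ⊆ J → X.z ∉ J → ∃ h, V.V K J (X.t J) = h * X.t J)
    (hV2 : ∀ C J : Finset (Fin N), C.Nonempty → X.z ∉ C → V.V (insert X.z C) J = V.V C J) {m : ℕ}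
    {w c β : X.Y.Ch} (hz : w {X.z} = 0) (hc : c ∈ X.Y.Tt m) (hβ : β ∈ X.Y.Tt (m + 1))
    (hw : ∀ C : Finset (Fin N), C.Nonempty → X.z ∉ C →
      w (insert X.z C) = X.dl C * X.re C (c C) + X.re C (β C))
    {C : Finset (Fin N)} (hC : C.Nonempty) (hzC : X.z ∉ C) :
    ∃ b : X.Y.E C, (∀ q, q + C.card = m + 2 → b ∈ Fd A (X.Y.R C) q) ∧ (m + 2 < C.card → b = 0) ∧
      V.Gm w (insert X.z C) = X.dl C * X.re C (V.Gm c C) + X.re C b := by
  classical
  choose! b hb1 hb2 hb3 using fun (j : Fin N) (hj : j ∈ C) =>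
    V4D_term hX V hV1 hV2 hz hc hβ hw hC hzC hj
  obtain ⟨h₀, hh₀⟩ := hV1 C C hC (Finset.Subset.refl C) hzC
  have hsub : C ⊆ insert X.z C := Finset.subset_insert X.z C
  have hpcC : PC A (V.V C C) := V.pc hC (Finset.Subset.refl C)
  have hpcD : PC A (V.V C (insert X.z C)) := V.pc hC hsub
  have hcom : ∀ x, X.ro C (V.V C C x) = V.V C (insert X.z C) (X.ro C x) := fun x =>
    V.comm _ _ _ hC (Finset.Subset.refl C) hsub x
  have hLL' : ∀ e, X.re C (LL A (V.V C C) e) = LL A (V.V C (insert X.z C)) (X.re C e) := fun e =>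
    mp_LL (CC.of_algHom (X.ro C)) hpcC hpcD hcom e
  have hLL : ∀ e, LL A (V.V C (insert X.z C)) (X.re C e) = X.re C (LL A (V.V C C) e) := fun e =>
    (hLL' e).symm
  have hdl : LL A (V.V C (insert X.z C)) (X.dl C) = X.re C (df A h₀) := by
    unfold Dz.dl Dz.re
    rw [CovD.rs_df]
    refine V4D_LL hpcD (hX.inv C hC hzC) ?_
    rw [← hcom, hh₀, map_mul]
    rfl
  refine ⟨df A h₀ * c C + LL A (V.V C C) (β C) - ∑ j ∈ C, sg j C • b j, ?_, ?_, ?_⟩
  · intro q hq
    refine Submodule.sub_mem _ (Submodule.add_mem _ ?_ (LL_mem hpcC ((hβ.2 C).1 q hq)))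
      (Submodule.sum_mem _ fun j hj => zsmul_mem (hb1 j hj q hq) _)
    cases q with
    | zero =>
      rw [(hc.2 C).2 (by omega), mul_zero]
      exact Submodule.zero_mem _
    | succ q =>
      have h5 := fd_mul (df_mem (A := A) h₀) ((hc.2 C).1 q (by omega))
      rwa [add_comm 1 q] at h5
  · intro hq
    rw [(hc.2 C).2 (by omega), (hβ.2 C).2 hq, mul_zero, map_zero, add_zero, zero_sub,
      Finset.sum_eq_zero, neg_zero]
    intro j hj
    rw [hb2 j hj hq, smul_zero]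
  · have hI : ∑ j ∈ insert X.z C, sg j (insert X.z C) •
        cz A (V.V ((insert X.z C).erase j) (insert X.z C) - V.V (insert X.z C) (insert X.z C))
          (X.Y.ev (X.Y.ic w) ((insert X.z C).erase j) (insert X.z C)) =
        X.dl C * X.re C (∑ j ∈ C, sg j C •
          cz A (V.V (C.erase j) C - V.V C C) (X.Y.ev (X.Y.ic c) (C.erase j) C)) +
        X.re C (∑ j ∈ C, sg j C • b j) := by
      rw [Finset.sum_insert hzC, Finset.erase_insert hzC, hV2 C _ hC hzC, sub_self, V4D_cz_zero,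
        smul_zero, zero_add, map_sum, map_sum, Finset.mul_sum, ← Finset.sum_add_distrib]
      refine Finset.sum_congr rfl fun j hj => ?_
      have hs : sg j (insert X.z C) = sg j C := by
        have h5 := sg_erase_gt (J := insert X.z C) (hX.last j)
        rw [Finset.erase_insert hzC] at h5
        exact h5.symm
      have h6 := hb3 j hj
      rw [hV2 C _ hC hzC] at h6
      rw [hs, h6, map_zsmul, map_zsmul, smul_add, mul_smul_comm]
    have h1 : V.Gm w (insert X.z C) = V.Lc w (insert X.z C) - V.Ic (X.Y.ic w) (insert X.z C) := rfl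
    have h2 : V.Gm c C = V.Lc c C - V.Ic (X.Y.ic c) C := rfl
    rw [h1, h2, Lft.Lc_apply, Lft.Lc_apply, Lft.Ic_apply, Lft.Ic_apply, hI, hw C hC hzC,
      hV2 C _ hC hzC, map_add, LL_mul A hpcD, hdl, hLL, hLL]
    simp only [map_add, map_sub, mul_sub, map_mul]
    abel

theorem Lg_Gm (hX : X.Ok) {D : Derivation ℤ A A} (V : Lft X.Y D)
    (hV1 : ∀ K J : Finset (Fin N), K.Nonempty → K ⊆ J → X.z ∉ J → ∃ h, V.V K J (X.t J) = h * X.t J)
    (hV2 : ∀ C J : Finset (Fin N), C.Nonempty → X.z ∉ C → V.V (insert X.z C) J = V.V C J) {m : ℕ}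
    {w c : X.Y.Ch} (hw : w ∈ X.Y.Tt (m + 2)) (hz : w {X.z} = 0) (h : X.Lg m w c) :
    X.Lg m (V.Gm w) (V.Gm c) := by
  classical
  obtain ⟨hc, β, hβ, hl⟩ := h
  refine ⟨Lft.Gm_mem hc, ?_⟩
  choose b hb1 hb2 hb3 using fun (C : Finset (Fin N)) (hC : C.Nonempty ∧ X.z ∉ C) =>
    V4D_main hX V hV1 hV2 hz hc hβ hl hC.1 hC.2
  refine ⟨fun C => if hC : C.Nonempty ∧ X.z ∉ C then b C hC else 0, ?_, fun C hC hzC => ?_⟩
  · refine ⟨?_, fun J => ⟨fun q hq => ?_, fun hJ => ?_⟩⟩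
    · have h1 : ¬ ((∅ : Finset (Fin N)).Nonempty ∧ X.z ∉ (∅ : Finset (Fin N))) := fun h =>
        Finset.not_nonempty_empty h.1
      exact dif_neg h1
    · by_cases hJ : J.Nonempty ∧ X.z ∉ J
      · have h2 : (if hC : J.Nonempty ∧ X.z ∉ J then b J hC else 0) = b J hJ := dif_pos hJ
        show (if hC : J.Nonempty ∧ X.z ∉ J then b J hC else 0) ∈ Fd A (X.Y.R J) q
        rw [h2]
        exact hb1 J hJ q hq
      · have h2 : (if hC : J.Nonempty ∧ X.z ∉ J then b J hC else 0) = 0 := dif_neg hJ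
        show (if hC : J.Nonempty ∧ X.z ∉ J then b J hC else 0) ∈ Fd A (X.Y.R J) q
        rw [h2]
        exact Submodule.zero_mem _
    · by_cases hJ' : J.Nonempty ∧ X.z ∉ J
      · have h2 : (if hC : J.Nonempty ∧ X.z ∉ J then b J hC else 0) = b J hJ' := dif_pos hJ'
        show (if hC : J.Nonempty ∧ X.z ∉ J then b J hC else 0) = 0
        rw [h2]
        exact hb2 J hJ' hJ
      · exact dif_neg hJ'
  · have h2 : (if hC : C.Nonempty ∧ X.z ∉ C then b C hC else 0) = b C ⟨hC, hzC⟩ :=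
      dif_pos ⟨hC, hzC⟩
    show V.Gm w (insert X.z C) = X.dl C * X.re C (V.Gm c C) +
      X.re C (if hC : C.Nonempty ∧ X.z ∉ C then b C hC else 0)
    rw [h2]
    exact hb3 C ⟨hC, hzC⟩

end MPadcHS
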