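import Pool.Agent.Lib.MP_adc574_ag_HS.V2D
import Pool.Agent.Lib.MP_adc574_ag_HS.V4A
import Pool.Agent.Lib.MP_adc574_ag_HS.V4C
import Pool.Agent.Lib.MP_adc574_ag_HS.V4D
import Pool.Agent.Lib.MP_adc574_ag_DC.C2D

/-!
# JOB V4E (HS): the residue is compatible with the Gauss-Manin connection

* `LL_mem_Zz`: `LL_mem` (`PC A Vz`: `fun a => ⟨D a, hV a⟩`), `LL_dd`.
* `ResR_Gm`: `γ` with `γ {z} = η`, `Lg m (Dt γ) c`. `γ' := V.Gm γ ∈ Tt (m + 1)` (`Gm_mem`), `γ' {z} = LL A (V.V {z} {z}) η` (the sum over `j ∈ {z}` has the single term with `ev (ic γ) ∅ {z}`, `γ ∅ = 0`: `0`), `Dt γ' = V.Gm (Dt γ)` (`Gm_Dt`, `γ ∅ = 0`), `Lg_Gm` with `w = Dt γ ∈ Tt (m + 2)`, `w {z} = dd η = 0`.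
* `gm_res`: `V` from `exists_lf hX hE D`, `VS` from `exists_lfS`. `c` with `ResR (m + 1) η c` (`exists_ResR`), `rp c ∈ Zc` (`ResR_zc`), `s η = cl (rp c)` (`h1`). `V.Gm c`: `ResR (m + 1) (LL (V.V {z} {z}) η) (V.Gm c)`; `rp (V.Gm c) = VS.Gm (rp c)` (`CovD.Hm.push_Gm`, GP/Hom.lean, with `hc` = the property of `VS`, `c ∅ = 0`). So `gaussManin (m + 1) D (s η) (s ⟨LL (V.V {z} {z}) η, _⟩)`: `⟨VS, ⟨rp c, _⟩, ⟨VS.Gm (rp c), _⟩, rfl, .., ..⟩`.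
  It remains `s ⟨LL (V.V {z} {z}) η, _⟩ = s ⟨LL Vz η, _⟩`: `LL_sub` (GP/GM.lean): the difference is `dd (cz (V.V {z} {z} - Vz) η) + cz (..) (dd η) = dd ξ`, `ξ ∈ Fd (m + 1)` (`cz_mem`): `s` of the difference is `0` (`h2`), linearity.
* `rp_gm`: `V`, `VS` as above; `gm_unique` (DC/C2D.lean): the Gauss-Manin derivative of `cl ⟨rp c, hc⟩` is `cl (VS.Gm (rp c)) = cl (rp (V.Gm c))`, `V.Gm c ∈ X.Y.Zc m` (`Gm_mem`, `Gm_Dt`).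
-/

set_option autoImplicit false
set_option linter.unusedSectionVars false

namespace MPadcHS

open MPadcGP MPadcDC

universe u

section

variable {A : Type u} [CommRing A] {N : ℕ} {X : Dz A N}

private theorem V4E_Gm_z {D : Derivation ℤ A A} (V : Lft X.Y D) {c : X.Y.Ch} (h0 : c ∅ = 0) :
    V.Gm c {X.z} = LL A (V.V {X.z} {X.z}) (c {X.z}) := by
  change V.Lc c {X.z} - V.Ic (X.Y.ic c) {X.z} = _
  have h01 : X.Y.ic c (({X.z} : Finset (Fin N)).erase X.z) = 0 := by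
    rw [CovD.ic_apply, Finset.erase_singleton, h0, map_zero]
  rw [Lft.Lc_apply, Lft.Ic_apply, Finset.sum_singleton, CovD.ev_eq_zero h01, map_zero, smul_zero, sub_zero]

private theorem V4E_Dt_z {c : X.Y.Ch} (h0 : c ∅ = 0) : X.Y.Dt c {X.z} = dd A (c {X.z}) := by
  have h01 : X.Y.ic c (({X.z} : Finset (Fin N)).erase X.z) = 0 := by
    rw [CovD.ic_apply, Finset.erase_singleton, h0, map_zero]
  rw [CovD.Dt_apply, Pi.add_apply, CovD.dc_apply, CovD.del_apply, Finset.sum_singleton,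
    CovD.ev_eq_zero h01, smul_zero, add_zero]

theorem LL_mem_Zz {D : Derivation ℤ A A} (Vz : Derivation ℤ (X.Y.R {X.z}) (X.Y.R {X.z}))
    (hV : ∀ a, Vz (algebraMap A (X.Y.R {X.z}) a) = algebraMap A (X.Y.R {X.z}) (D a)) {m : ℕ} {η : X.Y.E {X.z}}
    (hη : η ∈ X.Zz m) : LL A Vz η ∈ X.Zz m := by
  have hpc : PC A Vz := fun a => ⟨D a, hV a⟩
  obtain ⟨h1, h2⟩ := hη
  exact ⟨LL_mem hpc h1, by rw [← LL_dd A hpc, h2, map_zero]⟩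

theorem ResR_Gm (hX : X.Ok) {D : Derivation ℤ A A} (V : Lft X.Y D)
    (hV1 : ∀ K J : Finset (Fin N), K.Nonempty → K ⊆ J → X.z ∉ J → ∃ h, V.V K J (X.t J) = h * X.t J)
    (hV2 : ∀ C J : Finset (Fin N), C.Nonempty → X.z ∉ C → V.V (insert X.z C) J = V.V C J) {m : ℕ}
    {η : X.Y.E {X.z}} (hη : dd A η = 0) {c : X.Y.Ch} (h : X.ResR m η c) :
    X.ResR m (LL A (V.V {X.z} {X.z}) η) (V.Gm c) := by
  obtain ⟨γ, hγ, hγz, hL⟩ := h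
  refine ⟨V.Gm γ, Lft.Gm_mem hγ, by rw [V4E_Gm_z V hγ.1, hγz], ?_⟩
  rw [← Lft.Gm_Dt hγ.1]
  exact Lg_Gm hX V hV1 hV2 (CovD.Dt_mem hγ) (by rw [V4E_Dt_z hγ.1, hγz, hη]) hL

/-- The restriction to the divisor is compatible with the connection. -/
theorem rp_gm (hX : X.Ok) (hE : X.Et) {D : Derivation ℤ A A} {m : ℕ} (c : ↥(X.Y.Zc m))
    (hc : X.rp (c : X.Y.Ch) ∈ X.S.Zc m) {y : X.S.HdR m} (h : X.S.gaussManin m D (X.S.cl m ⟨_, hc⟩) y) :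
    ∃ (c' : ↥(X.Y.Zc m)) (hc' : X.rp (c' : X.Y.Ch) ∈ X.S.Zc m), y = X.S.cl m ⟨_, hc'⟩ := by
  obtain ⟨V, hV1, _⟩ := exists_lf hX hE D
  obtain ⟨VS, hVS⟩ := exists_lfS hX V hV1
  have hp : VS.Gm (X.rp (c : X.Y.Ch)) = X.rp (V.Gm (c : X.Y.Ch)) :=
    CovD.Hm.push_Gm V VS hVS c.2.1.1
  have h1 : V.Gm (c : X.Y.Ch) ∈ X.Y.Zc m := V.Gm_mem_Zc c.2
  have h2 : VS.Gm (X.rp (c : X.Y.Ch)) ∈ X.S.Zc m := VS.Gm_mem_Zc hc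
  have h3 : X.rp (V.Gm (c : X.Y.Ch)) ∈ X.S.Zc m := hp ▸ h2
  refine ⟨⟨V.Gm (c : X.Y.Ch), h1⟩, h3, ?_⟩
  exact gm_unique h ⟨VS, ⟨X.rp (c : X.Y.Ch), hc⟩, ⟨X.rp (V.Gm (c : X.Y.Ch)), h3⟩, hp, rfl, rfl⟩

end

variable {K : Type u} [Field K] [CharZero K] {N : ℕ} {X : Dz K N}

/-- The residue is compatible with the Gauss-Manin connection. -/
theorem gm_res (hX : X.Ok) (hE : X.Et) {D : Derivation ℤ K K} (Vz : Derivation ℤ (X.Y.R {X.z}) (X.Y.R {X.z}))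
    (hV : ∀ a, Vz (algebraMap K (X.Y.R {X.z}) a) = algebraMap K (X.Y.R {X.z}) (D a)) {m : ℕ}
    (s : ↥(X.Zz (m + 2)) →ₗ[K] X.S.HdR (m + 1))
    (h1 : ∀ (η : ↥(X.Zz (m + 2))) (c : X.Y.Ch) (_ : X.ResR (m + 1) (η : X.Y.E {X.z}) c)
      (hc : X.rp c ∈ X.S.Zc (m + 1)), s η = X.S.cl (m + 1) ⟨_, hc⟩)
    (h2 : ∀ (η : ↥(X.Zz (m + 2))) (ξ : X.Y.E {X.z}), ξ ∈ Fd K (X.Y.R {X.z}) (m + 1) →
      (η : X.Y.E {X.z}) = dd K ξ → s η = 0)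
    (η : ↥(X.Zz (m + 2))) (hη : LL K Vz (η : X.Y.E {X.z}) ∈ X.Zz (m + 2)) :
    X.S.gaussManin (m + 1) D (s η) (s ⟨LL K Vz (η : X.Y.E {X.z}), hη⟩) := by
  have hpc : PC K Vz := fun a => ⟨D a, hV a⟩
  have hsub : ({X.z} : Finset (Fin N)) ⊆ {X.z} := Finset.Subset.refl _
  have hne : ({X.z} : Finset (Fin N)).Nonempty := Finset.singleton_nonempty X.z
  obtain ⟨V, hV1, hV2⟩ := exists_lf hX hE D
  obtain ⟨VS, hVS⟩ := exists_lfS hX V hV1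
  obtain ⟨c, hc⟩ := exists_ResR hX η.2
  have h0 : c ∅ = 0 := by
    obtain ⟨_, _, _, hL⟩ := hc
    exact hL.1.1
  have hrc : X.rp c ∈ X.S.Zc (m + 1) := ResR_zc hX η.2.2 hc
  have e2 : s η = X.S.cl (m + 1) ⟨X.rp c, hrc⟩ := h1 η c hc hrc
  have hG : X.ResR (m + 1) (LL K (V.V {X.z} {X.z}) (η : X.Y.E {X.z})) (V.Gm c) :=
    ResR_Gm hX V hV1 hV2 η.2.2 hc
  have hη' : LL K (V.V {X.z} {X.z}) (η : X.Y.E {X.z}) ∈ X.Zz (m + 2) :=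
    LL_mem_Zz (D := D) (V.V {X.z} {X.z}) (V.base {X.z} {X.z} hne hsub) η.2
  have hrG : X.rp (V.Gm c) ∈ X.S.Zc (m + 1) := ResR_zc hX hη'.2 hG
  have e1 : s ⟨LL K (V.V {X.z} {X.z}) (η : X.Y.E {X.z}), hη'⟩ = X.S.cl (m + 1) ⟨X.rp (V.Gm c), hrG⟩ :=
    h1 ⟨LL K (V.V {X.z} {X.z}) (η : X.Y.E {X.z}), hη'⟩ (V.Gm c) hG hrG
  have hp : VS.Gm (X.rp c) = X.rp (V.Gm c) := CovD.Hm.push_Gm V VS hVS h0
  have hd : LL K (V.V {X.z} {X.z}) (η : X.Y.E {X.z}) - LL K Vz (η : X.Y.E {X.z}) =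
      dd K (cz K (V.V {X.z} {X.z} - Vz) (η : X.Y.E {X.z})) := by
    rw [LL_sub hpc (fun a => by rw [V.base {X.z} {X.z} hne hsub, hV]), η.2.2, map_zero, add_zero]
  have key : s (⟨LL K (V.V {X.z} {X.z}) (η : X.Y.E {X.z}), hη'⟩ - ⟨LL K Vz (η : X.Y.E {X.z}), hη⟩) = 0 :=
    h2 _ (cz K (V.V {X.z} {X.z} - Vz) (η : X.Y.E {X.z})) (cz_mem η.2.1) hd
  rw [map_sub, sub_eq_zero] at key
  rw [← key]
  exact ⟨VS, ⟨X.rp c, hrc⟩, ⟨X.rp (V.Gm c), hrG⟩, hp, e2.symm, e1.symm⟩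

end MPadcHS
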