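import Pool.Agent.Lib.MP_adc574_ag_HS.V4E

/-!
# HS: the connection on the image of the residue map
-/

set_option autoImplicit false
set_option linter.unusedSectionVars false

namespace MPadcHS

open MPadcGP MPadcDC

universe u

/-- The Gauss-Manin connection as an operator. -/
theorem exists_nab0 {A : Type u} [CommRing A] {N : ℕ} {X : CovD.{u, u} A N} (m : ℕ) {D : Derivation ℤ A A}
    (V' : Lft X D) :
    ∃ nab : X.HdR m →+ X.HdR m, (∀ x : X.HdR m, X.gaussManin m D x (nab x)) ∧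
      ∀ (a : A) (x : X.HdR m), nab (a • x) = D a • x + a • nab x := by
  have hex : ∀ x : X.HdR m, ∃ (c : ↥(X.Zc m)), X.cl m c = x := by
    intro x
    obtain ⟨c, hc⟩ := X.cl_surjective m x
    exact ⟨c, hc⟩
  choose cc hcx using hex
  have hgm : ∀ x : X.HdR m, X.gaussManin m D x (X.cl m ⟨V'.Gm (cc x : X.Ch), V'.Gm_mem_Zc (cc x).2⟩) := fun x =>
    ⟨V', cc x, ⟨V'.Gm (cc x : X.Ch), V'.Gm_mem_Zc (cc x).2⟩, rfl, hcx x, rfl⟩
  have hun : ∀ (x : X.HdR m) (c c' : ↥(X.Zc m)), X.cl m c = x →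
      V'.Gm (c : X.Ch) = (c' : X.Ch) → X.cl m ⟨V'.Gm (cc x : X.Ch), V'.Gm_mem_Zc (cc x).2⟩ = X.cl m c' :=
    fun x c c' hc hc' => gm_unique (hgm x) ⟨V', c, c', hc', hc, rfl⟩
  have hadd : ∀ x y : X.HdR m, X.cl m ⟨V'.Gm (cc (x + y) : X.Ch), V'.Gm_mem_Zc (cc (x + y)).2⟩ =
      X.cl m ⟨V'.Gm (cc x : X.Ch), V'.Gm_mem_Zc (cc x).2⟩ +
        X.cl m ⟨V'.Gm (cc y : X.Ch), V'.Gm_mem_Zc (cc y).2⟩ := by
    intro x y
    have h1 := hun (x + y) (cc x + cc y) (⟨V'.Gm (cc x : X.Ch), V'.Gm_mem_Zc (cc x).2⟩ +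
      ⟨V'.Gm (cc y : X.Ch), V'.Gm_mem_Zc (cc y).2⟩)
      (by rw [map_add, hcx, hcx]) (V'.Gm_add _ _)
    rw [h1, map_add]
  refine ⟨AddMonoidHom.mk' (fun x => X.cl m ⟨V'.Gm (cc x : X.Ch), V'.Gm_mem_Zc (cc x).2⟩) hadd, hgm, fun a x => ?_⟩
  change X.cl m ⟨V'.Gm (cc (a • x) : X.Ch), V'.Gm_mem_Zc (cc (a • x)).2⟩ =
    D a • x + a • X.cl m ⟨V'.Gm (cc x : X.Ch), V'.Gm_mem_Zc (cc x).2⟩
  have h1 := hun (a • x) (a • cc x) (a • ⟨V'.Gm (cc x : X.Ch), V'.Gm_mem_Zc (cc x).2⟩ + D a • cc x)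
    (by rw [map_smul, hcx]) (Lft.Gm_smul a (cc x).2.1.1)
  rw [h1, map_add, map_smul, map_smul, hcx, add_comm]

variable {K : Type u} [Field K] [CharZero K] {N : ℕ} {X : Dz K N}

/-- The connection on the image of the residue map. -/
theorem exists_nabS (hX : X.Ok) (hE : X.Et) {D : Derivation ℤ K K} {m : ℕ}
    (s : ↥(X.Zz (m + 2)) →ₗ[K] X.S.HdR (m + 1))
    (h1 : ∀ (η : ↥(X.Zz (m + 2))) (c : X.Y.Ch) (_ : X.ResR (m + 1) (η : X.Y.E {X.z}) c)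
      (hc : X.rp c ∈ X.S.Zc (m + 1)), s η = X.S.cl (m + 1) ⟨_, hc⟩)
    (h2 : ∀ (η : ↥(X.Zz (m + 2))) (ξ : X.Y.E {X.z}), ξ ∈ Fd K (X.Y.R {X.z}) (m + 1) →
      (η : X.Y.E {X.z}) = dd K ξ → s η = 0) :
    (∀ x y, x ∈ LinearMap.range s → X.S.gaussManin (m + 1) D x y → y ∈ LinearMap.range s) ∧
    ∃ nab : ↥(LinearMap.range s) →+ ↥(LinearMap.range s),
      (∀ x : ↥(LinearMap.range s), X.S.gaussManin (m + 1) D (x : X.S.HdR (m + 1)) (nab x : X.S.HdR (m + 1))) ∧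
      ∀ (a : K) (x : ↥(LinearMap.range s)), nab (a • x) = D a • x + a • nab x := by
  have hz : ({X.z} : Finset (Fin N)).Nonempty := Finset.singleton_nonempty _
  have hsm := hE.smooth {X.z} hz
  refine (exists_lift_der (R := X.Y.R {X.z}) D).elim fun Vz hVz => ?_
  have hgr : ∀ η : ↥(X.Zz (m + 2)), ∃ η' : ↥(X.Zz (m + 2)), X.S.gaussManin (m + 1) D (s η) (s η') := by
    intro η
    have h3 := LL_mem_Zz Vz hVz η.2
    exact ⟨⟨_, h3⟩, gm_res hX hE Vz hVz s h1 h2 η h3⟩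
  have hst : ∀ x y, x ∈ LinearMap.range s → X.S.gaussManin (m + 1) D x y → y ∈ LinearMap.range s := by
    rintro x y ⟨η, rfl⟩ h
    obtain ⟨η', h3⟩ := hgr η
    exact ⟨η', gm_unique h3 h⟩
  refine ⟨hst, ?_⟩
  refine (exists_lf hX hE D).elim fun V hV => ?_
  refine (exists_lfS hX V hV.1).elim fun VS _ => ?_
  refine (exists_nab0 (m + 1) VS).elim fun nab hnab => ?_
  have hn := hnab.1
  have hl := hnab.2
  have hmem : ∀ x : ↥(LinearMap.range s), nab (x : X.S.HdR (m + 1)) ∈ LinearMap.range s := fun x =>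
    hst _ _ x.2 (hn _)
  refine ⟨{ toFun := fun x => ⟨nab x, hmem x⟩, map_zero' := Subtype.ext (map_zero nab),
            map_add' := fun x y => Subtype.ext (map_add nab _ _) }, fun x => hn _, fun a x => Subtype.ext ?_⟩
  exact hl a _

end MPadcHS
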