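import Pool.Agent.Lib.MP_adc574_ag_DC.GCxB
import Pool.Agent.Lib.MP_adc574_ag_HA.HDefs

/-!
# HS: the complex of forms for all `ν` (copies of DC/GCx, DC/GCxB), the incidence variety

`Cx.Sat`: outside of `P` nothing kills the cokernel (fourth clause of `incidence`).
-/

set_option autoImplicit false
set_option linter.unusedSectionVars false

namespace MPadcHS

open MvPolynomial TensorProduct MPadcGP MPadcDC

universe u v

/-- Elements outside of `P` do not kill elements of the cokernel in high weights. -/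
def Cx.Sat {κ : Type u} [Field κ] {Γ : Type} [Fintype Γ] {V : Type u} [AddCommGroup V] [Module κ V] (G : Cx κ Γ V)
    (m : ℕ) (P : Ideal (MvPolynomial Γ κ)) (k₀ : ℕ) : Prop :=
  ∀ k, k₀ ≤ k → ∀ r, r ∉ P → ∀ x ∈ G.VR (m + 1) (k + 1), r • x ∈ (G.VR m k).map G.TF → x ∈ (G.VR m k).map G.TF

variable {κ : Type u} [Field κ] [CharZero κ] {n : ℕ} {J : Ideal (MvPolynomial (Fin n) κ)} {e m ν : ℕ}

omit [CharZero κ] in
private theorem V5B_xm_zero : xm J 0 = 1 := map_one (Ideal.Quotient.mk J)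

omit [CharZero κ] in
private theorem V5B_xv (l : Fin n) : xv J l = xm J (Finsupp.single l 1) := by
  rw [xm_single, pow_one]

private theorem V5B_wd {q : ℕ} (t : Fin q → Fin n) : wd κ (fun i => xv J (t i)) ∈ Om J q q := by
  refine Submodule.subset_span ⟨0, t, ?_, ?_⟩
  · rw [map_zero, zero_add]
  · rw [V5B_xm_zero, map_one, one_mul]

private theorem V5B_cast {q q' j j' : ℕ} {w : Fm κ (CR J)} (h : w ∈ Om J q j) (hq : q = q') (hj : j = j') :
    w ∈ Om J q' j' := by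
  subst hq hj
  exact h

private theorem V5B_smul (a : κ) (y : Fm κ (CR J)) : a • y = fz κ (algebraMap κ (CR J) a) * y := by
  rw [← fz_smul]
  exact (algebraMap_smul (CR J) a y).symm

theorem cxS_ok0 (hJ : IsHomog J) (h1e : 1 ≤ e) (ν : ℕ) : (cxS hJ e ν).Ok0 := by

  have he : (e : κ) ≠ 0 := by
    rw [Nat.cast_ne_zero]
    omega
  constructor
  · intro q k
    exact Om_fg _ _
  · intro q k x hx
    exact dd_Om_mem hx
  · intro γ q k x hx
    change fz κ (xm J γ.1) * x ∈ Om J q (ν + e * (k + 1))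
    refine V5B_cast (Om_mul (fz_xm_mem γ.1) hx) (Nat.zero_add _) ?_
    rw [mon_degree]
    ring
  · intro γ q k x hx
    change df κ (xm J γ.1) * x ∈ Om J (q + 1) (ν + e * (k + 1))
    refine V5B_cast (Om_mul (df_xm_mem γ.1) hx) (Nat.add_comm _ _) ?_
    rw [mon_degree]
    ring
  · intro q k x hx
    exact ct_Om_mem hJ hx
  · intro x
    exact dd_dd κ x
  · intro γ x
    change dd κ (fz κ (xm J γ.1) * x) = fz κ (xm J γ.1) * dd κ x + df κ (xm J γ.1) * x
    rw [dd_mul, dd_fz, inv_fz, add_comm]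
  · intro γ x
    change dd κ (df κ (xm J γ.1) * x) = -(df κ (xm J γ.1) * dd κ x)
    rw [dd_mul, dd_df, inv_df, zero_mul, zero_add, neg_mul]
  · intro γ γ' x
    change fz κ (xm J γ.1) * (fz κ (xm J γ'.1) * x) = fz κ (xm J γ'.1) * (fz κ (xm J γ.1) * x)
    rw [← mul_assoc, ← mul_assoc, ← map_mul, ← map_mul, mul_comm (xm J γ.1)]
  · intro γ γ' x
    change fz κ (xm J γ.1) * (df κ (xm J γ'.1) * x) = df κ (xm J γ'.1) * (fz κ (xm J γ.1) * x)
    rw [← mul_assoc, ← mul_assoc, fz_comm]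
  · intro γ γ' x
    change df κ (xm J γ.1) * (df κ (xm J γ'.1) * x) = -(df κ (xm J γ'.1) * (df κ (xm J γ.1) * x))
    rw [← mul_assoc, ← mul_assoc, df_swap, neg_mul]
  · intro γ x
    change ct κ (eul hJ) (df κ (xm J γ.1) * x) + df κ (xm J γ.1) * ct κ (eul hJ) x =
      (e : κ) • (fz κ (xm J γ.1) * x)
    have h0 : ∀ (a : κ) (y : CR J), a • y = algebraMap κ (CR J) a * y := by
      intro a y
      obtain ⟨f, rfl⟩ := Ideal.Quotient.mk_surjective y
      exact (congrArg (Ideal.Quotient.mk J) (smul_eq_C_mul f a)).trans (map_mul _ _ _)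
    have h1 : eul hJ (xm J γ.1) = algebraMap κ (CR J) ((γ.1.degree : ℕ) : κ) * xm J γ.1 :=
      (eul_xm hJ γ.1).trans (h0 _ _)
    rw [mon_degree] at h1
    rw [ct_df_mul, sub_add_cancel, h1, V5B_smul, map_mul, mul_assoc]
  · intro q k x hx
    change ct κ (eul hJ) (dd κ x) + dd κ (ct κ (eul hJ) x) = ((e : κ) * ((ν : κ) / (e : κ) + (k : κ))) • x
    have h1 : dd κ (ct κ (eul hJ) x) + ct κ (eul hJ) (dd κ x) = ((ν + e * k : ℕ) : κ) • x :=
      (cartan κ (eul hJ) x).symm.trans (LL_Om hJ hx)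
    rw [add_comm, h1]
    congr 1
    push_cast
    field_simp
  · exact he
  · intro q
    refine (Om_indep hJ q).comp ?_
    intro k k' hk
    have h1 : e * k = e * k' := Nat.add_left_cancel hk
    exact Nat.eq_of_mul_eq_mul_left (by omega) h1

private theorem V5B_map (hJ : IsHomog J) {q k : ℕ} {w : FR J e} (h : Exd J e q (ν + e * k) w) :
    w ∈ ((cxS hJ e ν).VR q k).map (cxS hJ e ν).TF := by
  obtain ⟨b, hb, h1⟩ := h
  exact ⟨b, hb, (cxS_TF hJ b).trans h1⟩

private theorem V5B_le {j0 k ν e : ℕ} (he : 0 < e) (hk : j0 ≤ k) : j0 ≤ ν + e * k :=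
  hk.trans ((Nat.le_mul_of_pos_left k he).trans (Nat.le_add_left _ _))

private theorem V5B_it (hJ : IsHomog J) (g : Mon n e) (α : Fm κ (CR J)) (k : ℕ) :
    ((cxS hJ e ν).mul g)^[k] α = fz κ (xm J g.1) ^ k * α := by
  induction k with
  | zero => rw [Function.iterate_zero_apply, pow_zero, one_mul]
  | succ k ih =>
    rw [Function.iterate_succ_apply', ih, pow_succ', mul_assoc]
    rfl

theorem cxS_kos' (hJ : Good J m) (h1e : 1 ≤ e) {q : ℕ} (hq : q < m) : (cxS hJ.homog e ν).Kos q := by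
  have he : 0 < e := h1e
  obtain ⟨j0, h0⟩ := koszul (e := e) hJ he
  refine ⟨j0, fun k hk x hx hTx => ?_⟩
  rw [cxS_TF] at hTx
  refine V5B_map hJ.homog ((h0 (ν + e * k) (V5B_le he hk)).2 q hq x ?_ hTx)
  rw [cxS_VR] at hx
  have h1 : ν + e * k + e = ν + e * (k + 1) := by ring
  rw [h1]
  exact hx

theorem cxS_kos0' (hJ : Good J m) (h1e : 1 ≤ e) : (cxS hJ.homog e ν).Kos0 := by
  have he : 0 < e := h1e
  obtain ⟨j0, h0⟩ := koszul (e := e) hJ he
  refine ⟨j0, fun k hk x hx hTx => ?_⟩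
  rw [cxS_TF] at hTx
  exact (h0 (ν + e * k) (V5B_le he hk)).1 x hx hTx

theorem cxS_bad' (hJ : Good J m) (he : 1 ≤ e) (ν : ℕ) :
    ∃ (P : Ideal (Ra κ n e)) (k₀ : ℕ), (cxS hJ.homog e ν).Bad m P k₀ ∧ Cx.Sat (cxS hJ.homog e ν) m P k₀ := by
  obtain ⟨P, j0, hP, hP0, h1, h2, h3⟩ := incidence (e := e) hJ he
  refine ⟨P, j0 + 1, ⟨hP, hP0, fun k hk r hr x hx => ?_, fun π hπ => ?_⟩, fun k hk r hr x hx h => ?_⟩
  · have h4 : ν + e * k + e = ν + e * (k + 1) := by ring
    have h5 := h1 (ν + e * k) (V5B_le he ((Nat.le_succ j0).trans hk)) r hr ((1 : Ra κ n e) ⊗ₜ[κ] x) (by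
      rw [h4]
      exact Submodule.tmul_mem_baseChange_of_mem 1 hx)
    rw [TensorProduct.smul_tmul', smul_eq_mul, mul_one] at h5
    exact V5B_map hJ.homog h5
  · obtain ⟨l, hl⟩ := hJ.ne
    obtain ⟨h4, h5⟩ := h3 π hπ l hl
    obtain ⟨α, hα, h6⟩ := h5 (ν + e * j0) (V5B_le he le_rfl)
    refine ⟨mon0 e l, fun h => h4 ?_, α, ?_, fun k x hx => ?_⟩
    · rw [hπ] at h
      exact Ideal.mem_span_singleton.mp h
    · have h7 : ν + e * j0 + e = ν + e * (j0 + 1) := by ring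
      rw [h7] at hα
      exact hα
    · have h7 : ν + e * (j0 + 1 + k + 1) = ν + e * j0 + e + e * (k + 1) := by ring
      have hx' : x ∈ Om J (m + 1) (ν + e * j0 + e + e * (k + 1)) := by
        rw [← h7]
        exact hx
      obtain ⟨s, r, hs, hr⟩ := h6 (k + 1) x hx'
      refine ⟨s, r, fun h => hs ?_, ?_⟩
      · rw [hπ] at h
        exact Ideal.mem_span_singleton.mp h
      · rw [V5B_it]
        have h8 : ν + e * j0 + e * (k + 1) = ν + e * (j0 + 1 + k) := by ring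
        rw [h8] at hr
        exact V5B_map hJ.homog hr
  · have h4 : ν + e * k + e = ν + e * (k + 1) := by ring
    obtain ⟨b, hb, hb'⟩ := h
    refine V5B_map hJ.homog (h2 (ν + e * k) (V5B_le he ((Nat.le_succ j0).trans hk)) r hr x ?_ ⟨b, hb, ?_⟩)
    · rw [h4]
      exact hx
    · rw [← cxS_TF hJ.homog b]
      exact hb'

end MPadcHS
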