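import Pool.Agent.Lib.MP_adc574_ag_HS.V5B
import Pool.Agent.Lib.MP_adc574_ag_DC.C3C

/-!
# HS: all forms on the chart `z` come from the cone (`e = 1`)
-/

set_option autoImplicit false
set_option linter.unusedSectionVars false

namespace MPadcHS

open MvPolynomial TensorProduct MPadcGP MPadcGP2 MPadcDC

universe u

variable {κ : Type u} [Field κ] [CharZero κ] {n : ℕ} {J : Ideal (MvPolynomial (Fin n) κ)} {K : Type u} [Field K]
  [Algebra κ K]

private theorem V5C_up (hJ : IsHomog J) (a : Mon n 1 → K) {q : ℕ} (m k : ℕ) (t : K ⊗[κ] Fm κ (CR J))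
    (ht : t ∈ (cxS hJ 1 1).VK K q k) : ∃ t' ∈ (cxS hJ 1 1).VK K q (k + m), phK hJ a t' = phK hJ a t := by
  induction m with
  | zero => exact ⟨t, ht, rfl⟩
  | succ m ih =>
    obtain ⟨t', ht', h5⟩ := ih
    refine ⟨(cxS hJ 1 1).MK a t', MK_mem hJ a ht', ?_⟩
    rw [phK_MK hJ le_rfl, h5]

private theorem V5C_om0 (hJ : IsHomog J) (a : Mon n 1 → K) {q : ℕ} {w : Fm κ (CR J)} (hw : w ∈ Om J q 0) :
    (cxS hJ 1 1).MK a ((1 : K) ⊗ₜ[κ] w) ∈ (cxS hJ 1 1).VK K q 0 := by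
  unfold Cx.MK
  rw [LinearMap.sum_apply]
  refine Submodule.sum_mem _ fun g _ => ?_
  rw [LinearMap.smul_apply, LinearMap.baseChange_tmul]
  refine Submodule.smul_mem _ _ (Submodule.tmul_mem_baseChange_of_mem _ ?_)
  have h1 : fz κ (xm J g.1) * w ∈ Om J q (0 + g.1.degree) := c3c_om_fz J g.1 hw
  rw [c3c_deg] at h1
  exact h1

/-- Every form on the chart `z` comes from forms of one degree `1 + k`. -/
theorem ph_surj1 (hJ : IsHomog J) (a : Mon n 1 → K) {q : ℕ} {η : Fm K (Bz J a)} (hη : η ∈ Fd K (Bz J a) q) :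
    ∃ k, ∃ t ∈ (cxS hJ 1 1).VK K q k, phK hJ a t = η := by
  have h4 : η ∈ C3cS hJ a q := by
    refine fd_ind (P := fun e => e ∈ C3cS hJ a q) (Submodule.zero_mem _) ?_
      (fun x y hx hy => Submodule.add_mem _ hx hy) hη
    intro r t
    exact c3c_A hJ a r (c3c_wd hJ a t)
  unfold C3cS at h4
  clear hη
  induction h4 using Submodule.span_induction with
  | mem x hx =>
    obtain ⟨j, w, hw, rfl⟩ := hx
    cases j with
    | zero =>
      refine ⟨0, (cxS hJ 1 1).MK a ((1 : K) ⊗ₜ[κ] w), V5C_om0 hJ a hw, ?_⟩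
      rw [phK_MK hJ le_rfl, phK_tmul, one_smul]
    | succ j =>
      refine ⟨j, (1 : K) ⊗ₜ[κ] w, Submodule.tmul_mem_baseChange_of_mem _ ?_, ?_⟩
      · change w ∈ Om J q (1 + 1 * j)
        have h6 : 1 + 1 * j = j + 1 := by omega
        rw [h6]
        exact hw
      · rw [phK_tmul, one_smul]
  | zero => exact ⟨0, 0, Submodule.zero_mem _, map_zero _⟩
  | add x y _ _ hx hy =>
    obtain ⟨k, t, ht, h5⟩ := hx
    obtain ⟨k', t', ht', h6⟩ := hy
    obtain ⟨t₂, ht₂, h7⟩ := V5C_up hJ a k' k t ht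
    obtain ⟨t₃, ht₃, h8⟩ := V5C_up hJ a k k' t' ht'
    refine ⟨k + k', t₂ + t₃, ?_, ?_⟩
    · rw [add_comm k' k] at ht₃
      exact Submodule.add_mem _ ht₂ ht₃
    · rw [map_add, h7, h8, h5, h6]
  | smul c x _ hx =>
    obtain ⟨k, t, ht, h5⟩ := hx
    refine ⟨k, c • t, Submodule.smul_mem _ c ht, ?_⟩
    rw [map_smul, h5]

end MPadcHS
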