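import Pool.Agent.Lib.MP_adc574_ag_HS.V2E
import Pool.Agent.Lib.MP_adc574_ag_HS.V3B
import Pool.Agent.Lib.MP_adc574_ag_HS.V4F
import Pool.Agent.Lib.MP_adc574_ag_HS.V5A
import Pool.Agent.Lib.MP_adc574_ag_HS.V5B
import Pool.Agent.Lib.MP_adc574_ag_HS.V5C
import Pool.Agent.Lib.MP_adc574_ag_DC.C5P
import Pool.Agent.Lib.MP_adc574_ag_DC.C3G
import Pool.Agent.Lib.MP_adc574_ag_DC.GCT

/-!
# HS: the kernel of the Gysin map is generated by classes of forms on the cone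
-/

set_option autoImplicit false
set_option linter.unusedSectionVars false

namespace MPadcHS

open MvPolynomial TensorProduct MPadcGP MPadcGP2 MPadcDC

universe u

variable {κ : Type u} [Field κ] [CharZero κ] {n : ℕ} {J : Ideal (MvPolynomial (Fin n) κ)} {K : Type u} [Field K]
  [Algebra κ K] [Algebra (Ra κ n 1) K] [IsScalarTower κ (Ra κ n 1) K] [IsFractionRing (Ra κ n 1) K]

private theorem V5E_ct (θ : Derivation κ (CR J) (CR J)) (r : CR J) (x : Fm κ (CR J)) :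
    ct κ θ (fz κ r * x) = fz κ r * ct κ θ x := by
  rw [← fz_smul, map_smul, fz_smul]

omit [Algebra (Ra κ n 1) K] [IsScalarTower κ (Ra κ n 1) K] [IsFractionRing (Ra κ n 1) K] in
private theorem V5E_Vz (hJ : IsHomog J) (a : Mon n 1 → K) (D : Derivation ℤ K K)
    (hD : ∀ c : κ, D (algebraMap κ K c) = 0) (γ : Mon n 1) (ha : ∀ γ', D (a γ') = if γ' = γ then 1 else 0) :
    ∃ Vz : Derivation ℤ (Bz J a) (Bz J a), (∀ x : K, Vz (algebraMap K (Bz J a) x) = algebraMap K (Bz J a) (D x)) ∧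
      (∀ l, Vz (phi hJ a (xv J l)) = -(((1 : ℕ) : K)⁻¹ • (phi hJ a (xm J γ.1) * phi hJ a (xv J l)))) := by
  have h := exists_Vz hJ a D hD γ ha
  exact h.imp fun _ h => ⟨h.1, h.2.1⟩

private theorem V5E_TK (hJ : IsHomog J) (a : Mon n 1 → K) {q k : ℕ} {t : K ⊗[κ] Fm κ (CR J)}
    (ht : t ∈ (cxS hJ 1 1).VK K q k) : (cxS hJ 1 1).TK a t ∈ (cxS hJ 1 1).VK K (q + 1) (k + 1) := by
  unfold Cx.VK at ht ⊢
  rw [Submodule.baseChange_eq_span] at ht
  induction ht using Submodule.span_induction with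
  | mem x hx =>
    obtain ⟨v, hv, rfl⟩ := hx
    rw [TensorProduct.mk_apply]
    unfold Cx.TK
    rw [LinearMap.sum_apply]
    refine Submodule.sum_mem _ fun g _ => ?_
    rw [LinearMap.smul_apply, LinearMap.baseChange_tmul]
    exact Submodule.smul_mem _ _ (Submodule.tmul_mem_baseChange_of_mem _
      ((cxS_ok0 hJ le_rfl 1).wd_mem g q k v hv))
  | zero =>
    rw [map_zero]
    exact Submodule.zero_mem _
  | add x y _ _ hx hy =>
    rw [map_add]
    exact Submodule.add_mem _ hx hy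
  | smul c x _ hx =>
    rw [map_smul]
    exact Submodule.smul_mem _ _ hx

/-- The kernel of the Gysin map: the statement of `con_sec`. -/
def ConSec {m : ℕ} (hJ : Good J (m + 2)) (dK : Mon n 1 → Derivation ℤ K K)
    {P : Ideal (MvPolynomial (Fin (n + 1)) K)}
    (hle : cyc (bI (algebraMap κ K) J) (frm (ak κ n 1 K)) 1 ≤ P) : Prop :=
    ∃ s : ↥((dzQ hle).Zz (m + 2)) →ₗ[K] (prC P).HdR (m + 1),
      (∀ (η : ↥((dzQ hle).Zz (m + 2))) (c : (dzQ hle).Y.Ch) (_ : (dzQ hle).ResR (m + 1) (η : (dzQ hle).Y.E {(dzQ hle).z}) c)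
        (hc : (dzQ hle).rp c ∈ (prC P).Zc (m + 1)), s η = (prC P).cl (m + 1) ⟨_, hc⟩) ∧
      (∀ x, x ∈ Vg hle (m + 1) ↔ x ∈ LinearMap.range s) ∧
      (∀ γ x y, x ∈ LinearMap.range s → (prC P).gaussManin (m + 1) (dK γ) x y → y ∈ LinearMap.range s) ∧
      ∃ (nab : Mon n 1 → ↥(LinearMap.range s) →+ ↥(LinearMap.range s)) (c : Fm κ (CR J) →+ ↥(LinearMap.range s)),
        Con (cxS hJ.homog 1 1) (m + 2) dK nab c ∧
        (∀ γ (x : ↥(LinearMap.range s)), (prC P).gaussManin (m + 1) (dK γ) (x : (prC P).HdR (m + 1)) (nab γ x)) ∧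
        ∃ hZ : ∀ k, ∀ w ∈ (cxS hJ.homog 1 1).Vd (m + 3) k,
            phK hJ.homog (ak κ n 1 K) (1 ⊗ₜ[κ] (cxS hJ.homog 1 1).io w) ∈ (dzQ hle).Zz (m + 2),
          ∀ k w (hw : w ∈ (cxS hJ.homog 1 1).Vd (m + 3) k), (c w : (prC P).HdR (m + 1)) =
            algebraMap κ K ((cxS hJ.homog 1 1).lam k) • s ⟨_, hZ k w hw⟩

theorem con_sec {m : ℕ} (hJ : Good J (m + 2)) {dK : Mon n 1 → Derivation ℤ K K}
    (hdK : ∀ γ r, dK γ (algebraMap (Ra κ n 1) K r) = algebraMap (Ra κ n 1) K (pderiv γ r))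
    {P : Ideal (MvPolynomial (Fin (n + 1)) K)}
    (hle : cyc (bI (algebraMap κ K) J) (frm (ak κ n 1 K)) 1 ≤ P)
    (hP : P = hyp (cyc (bI (algebraMap κ K) J) (frm (ak κ n 1 K)) 1)) :
    ConSec hJ dK hle := by
  unfold ConSec
  classical
  have hch : CharZero K := charZero_of_injective_algebraMap (algebraMap κ K).injective
  have hOk0 : (cxS hJ.homog 1 1).Ok0 := cxS_ok0 hJ.homog le_rfl 1
  have hX : (dzQ hle).Ok := dzQ_ok hJ ak_indep hle hP
  have hE : (dzQ hle).Et := dzQ_et hJ ak_indep hle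
  have hres : ∃ s : ↥((dzQ hle).Zz (m + 2)) →ₗ[K] (prC P).HdR (m + 1),
      (∀ (η : ↥((dzQ hle).Zz (m + 2))) (c : (dzQ hle).Y.Ch)
        (_ : (dzQ hle).ResR (m + 1) (η : (dzQ hle).Y.E {(dzQ hle).z}) c)
        (hc : (dzQ hle).rp c ∈ (prC P).Zc (m + 1)), s η = (prC P).cl (m + 1) ⟨_, hc⟩) ∧
      ∀ (η : ↥((dzQ hle).Zz (m + 2))) (ξ : (dzQ hle).Y.E {(dzQ hle).z}),
        ξ ∈ Fd K ((dzQ hle).Y.R {(dzQ hle).z}) (m + 1) → (η : (dzQ hle).Y.E {(dzQ hle).z}) = dd K ξ → s η = 0 :=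
    exists_res hX m
  obtain ⟨s, hs1, hs2⟩ := hres
  have hph : MPadcDC.Ph (cxS hJ.homog 1 1) (fun γ => algebraMap (Ra κ n 1) K (X γ)) (MPadcDC.ddl K (Bz J (ak κ n 1 K)))
      (phK hJ.homog (ak κ n 1 K)) := ph_cyc hJ.homog 1
  have hphi : ∀ x : Fm κ (CR J), phK hJ.homog (ak κ n 1 K) (1 ⊗ₜ[κ] x) = ph hJ.homog (ak κ n 1 K) x := fun x => by
    rw [phK_tmul, one_smul]
  have hfd : ∀ (q k : ℕ) (x : Fm κ (CR J)), x ∈ (cxS hJ.homog 1 1).Vd q k →
      phK hJ.homog (ak κ n 1 K) (1 ⊗ₜ[κ] x) ∈ Fd K (Bz J (ak κ n 1 K)) q := fun q k x hx => by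
    rw [hphi]
    exact ph_mem hJ.homog (ak κ n 1 K) (j := 1 + 1 * k) hx
  have hZ : ∀ k, ∀ w ∈ (cxS hJ.homog 1 1).Vd (m + 3) k,
      phK hJ.homog (ak κ n 1 K) (1 ⊗ₜ[κ] (cxS hJ.homog 1 1).io w) ∈ (dzQ hle).Zz (m + 2) := fun k w hw => by
    have h3 := hOk0.io_mem (m + 2) k w hw
    exact ⟨hfd (m + 2) k _ h3, cyc_top hJ le_rfl (ak_indep (κ := κ) (n := n) (e := 1) (K := K))
      (C := {Fin.last n}) (Finset.singleton_nonempty _) (q := m + 3) (Nat.lt_succ_self (m + 2))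
      (dd_mem (hfd (m + 2) k _ h3))⟩
  have hcK : ∀ γ (c : κ), dK γ (algebraMap κ K c) = 0 := fun γ c => by
    rw [IsScalarTower.algebraMap_apply κ (Ra κ n 1) K, hdK, MvPolynomial.algebraMap_eq, pderiv_C, map_zero]
  have haK : ∀ γ γ', dK γ (ak κ n 1 K γ') = if γ' = γ then 1 else 0 := fun γ γ' => by
    unfold ak
    rw [hdK, pderiv_X, Pi.single_apply]
    split_ifs
    · exact map_one _
    · exact map_zero _
  have hst := fun γ => exists_nabS hX hE (D := dK γ) s hs1 hs2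
  have hst1 : ∀ γ x y, x ∈ LinearMap.range s → (prC P).gaussManin (m + 1) (dK γ) x y → y ∈ LinearMap.range s :=
    fun γ => (hst γ).1
  have hst2 : ∀ γ, ∃ nab : ↥(LinearMap.range s) →+ ↥(LinearMap.range s),
      (∀ x : ↥(LinearMap.range s), (prC P).gaussManin (m + 1) (dK γ) (x : (prC P).HdR (m + 1))
        (nab x : (prC P).HdR (m + 1))) ∧
      ∀ (a : K) (x : ↥(LinearMap.range s)), nab (a • x) = dK γ a • x + a • nab x := fun γ => (hst γ).2
  choose nab hgm hleib using hst2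
  have hcon := exists_con hOk0 (H := ↥(LinearMap.range s)) (m := m + 2) (nab := nab) (s := s.rangeRestrict)
    (fun k => by
      have h1 : (cxS hJ.homog 1 1).θ = ((1 : ℕ) : κ) / ((1 : ℕ) : κ) := rfl
      rw [h1, Nat.cast_one, div_one]
      have h2 : (1 : κ) + (k : κ) = ((k + 1 : ℕ) : κ) := by
        rw [Nat.cast_add, Nat.cast_one, add_comm]
      rw [h2]
      exact Nat.cast_ne_zero.2 (Nat.succ_ne_zero k)) (fun γ x => V5E_ct _ _ _) hph hdK hleib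
    ((dzQ hle).Zz (m + 2)) s.surjective_rangeRestrict hZ ?_ ?_ ?_
  · obtain ⟨c, hc, hcw⟩ := hcon
    refine ⟨s, hs1, fun x => ?_, hst1, nab, c, hc, hgm, hZ, fun k w hw => ?_⟩
    · rw [gys_iff hX]
      constructor
      · rintro ⟨η, c, hc, hη, hr, rfl⟩
        exact ⟨⟨η, hη⟩, hs1 ⟨η, hη⟩ c hr hc⟩
      · rintro ⟨η, rfl⟩
        obtain ⟨c, hc⟩ := exists_ResR hX η.2
        have hc' := ResR_zc hX η.2.2 hc
        exact ⟨η.1, c, hc', η.2, hc, (hs1 η c hc hc').symm⟩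
    · exact congrArg Subtype.val (hcw k w hw)
  · intro k u hu h
    refine Subtype.ext ?_
    have h3 := hOk0.io_mem (m + 1) k u hu
    exact hs2 ⟨_, h⟩ _ (hfd (m + 1) k _ h3) rfl
  · intro η hη
    obtain ⟨k, t, ht, rfl⟩ := ph_surj1 hJ.homog (ak κ n 1 K) hη.1
    have h4 : phK hJ.homog (ak κ n 1 K) t = phK hJ.homog (ak κ n 1 K)
        ((cxS hJ.homog 1 1).io.baseChange K ((cxS hJ.homog 1 1).TK (fun γ => algebraMap (Ra κ n 1) K (X γ)) t)) := by
      have h5 := congrArg (phK hJ.homog (ak κ n 1 K)) (V5A_io_TK hOk0 (fun γ => algebraMap (Ra κ n 1) K (X γ)) t)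
      rw [map_add, map_smul, hph.wd, hph.mul, add_zero] at h5
      rw [h5]
      have h6 : (cxS hJ.homog 1 1).e = ((1 : ℕ) : κ) := rfl
      rw [h6, Nat.cast_one, map_one, one_smul]
    rw [h4]
    have ht2 := V5E_TK hJ.homog (fun γ => algebraMap (Ra κ n 1) K (X γ)) ht
    generalize (cxS hJ.homog 1 1).TK (fun γ => algebraMap (Ra κ n 1) K (X γ)) t = t2 at ht2
    clear h4 hη
    unfold Cx.VK at ht2
    rw [Submodule.baseChange_eq_span] at ht2
    induction ht2 using Submodule.span_induction with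
    | mem x hx =>
      obtain ⟨w, hw, rfl⟩ := hx
      refine Submodule.subset_span ⟨k + 1, w, hw, ?_⟩
      rw [TensorProduct.mk_apply, LinearMap.baseChange_tmul]
    | zero =>
      rw [map_zero, map_zero]
      exact Submodule.zero_mem _
    | add x y _ _ hx hy =>
      rw [map_add, map_add]
      exact Submodule.add_mem _ hx hy
    | smul c x _ hx =>
      rw [map_smul, map_smul]
      exact Submodule.smul_mem _ _ hx
  · intro γ k w hw h'
    refine (V5E_Vz hJ.homog (ak κ n 1 K) (dK γ) (hcK γ) γ (haK γ)).elim fun Vz hV => ?_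
    have hVz1 := hV.1
    have hVz2 := hV.2
    have h3 := hOk0.io_mem (m + 2) k w hw
    have hLL : LL K Vz (phK hJ.homog (ak κ n 1 K) (1 ⊗ₜ[κ] (cxS hJ.homog 1 1).io w)) ∈ (dzQ hle).Zz (m + 2) :=
      LL_mem_Zz (X := dzQ hle) Vz hVz1 (hZ k w hw)
    have g1 := gm_res hX hE Vz hVz1 s hs1 hs2 ⟨_, hZ k w hw⟩ hLL
    have g2 : nab γ (s.rangeRestrict ⟨_, hZ k w hw⟩) = s.rangeRestrict ⟨_, hLL⟩ :=
      Subtype.ext (gm_unique (hgm γ (s.rangeRestrict ⟨_, hZ k w hw⟩)) g1)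
    refine g2.trans ?_
    have g3 : (⟨_, hLL⟩ : ↥((dzQ hle).Zz (m + 2))) =
        -(algebraMap κ K ((cxS hJ.homog 1 1).θ + k) • (⟨_, h'⟩ : ↥((dzQ hle).Zz (m + 2)))) := Subtype.ext ?_
    · refine (congrArg s.rangeRestrict g3).trans ?_
      exact (map_neg s.rangeRestrict _).trans (congrArg Neg.neg (map_smul s.rangeRestrict _ _))
    change LL K Vz (phK hJ.homog (ak κ n 1 K) (1 ⊗ₜ[κ] (cxS hJ.homog 1 1).io w)) =
      -(algebraMap κ K ((cxS hJ.homog 1 1).θ + k) •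
        phK hJ.homog (ak κ n 1 K) (1 ⊗ₜ[κ] (cxS hJ.homog 1 1).io ((cxS hJ.homog 1 1).mul γ w)))
    have h4 : (cxS hJ.homog 1 1).io ((cxS hJ.homog 1 1).mul γ w) =
        fz κ (xm J γ.1) * (cxS hJ.homog 1 1).io w := V5E_ct _ _ _
    have h5 : ct κ (eul hJ.homog) ((cxS hJ.homog 1 1).io w) = 0 :=
      CliffordAlgebra.contractLeft_contractLeft _ _
    have h6 : algebraMap κ K ((cxS hJ.homog 1 1).θ + k) = ((1 + 1 * k : ℕ) : K) / ((1 : ℕ) : K) := by
      have h7 : (cxS hJ.homog 1 1).θ = ((1 : ℕ) : κ) / ((1 : ℕ) : κ) := rfl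
      rw [h7, map_add, map_div₀, map_natCast, map_natCast, Nat.cast_add, Nat.cast_mul, Nat.cast_one,
        div_one, div_one, one_mul]
    rw [h4, hphi, hphi, h6, LL_ph hJ.homog (ak κ n 1 K) Vz hVz1 (hcK γ) hVz2 (j := 1 + 1 * k) h3, h5,
      mul_zero, map_zero, smul_zero, sub_zero]

end MPadcHS
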