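import Pool.Agent.Lib.MP_adc574_ag_HA.HDefs

/-!
# HS: copies of the files HALat1, HALat2, HALat3 of HA for `Ok0`, `Con`
-/

set_option autoImplicit false
set_option linter.unusedSectionVars false

namespace MPadcHS

open MvPolynomial TensorProduct MPadcDC

universe u

section main

variable {κ : Type u} [Field κ] [CharZero κ] {Γ : Type} [Fintype Γ] [DecidableEq Γ] {V : Type u}
  [AddCommGroup V] [Module κ V] {K : Type u} [Field K] [Algebra (MvPolynomial Γ κ) K]
  [IsFractionRing (MvPolynomial Γ κ) K] {H : Type u} [AddCommGroup H] [Module K H]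
  [Module (MvPolynomial Γ κ) H] [IsScalarTower (MvPolynomial Γ κ) K H]
  {G : Cx κ Γ V} {m : ℕ} {P : Ideal (MvPolynomial Γ κ)} {k₀ : ℕ} {dK : Γ → Derivation ℤ K K}
  {nab : Γ → H →+ H} {c : V →+ H}

theorem EE_mono {j k : ℕ} (h : j ≤ k) : EE G m c j ≤ EE G m c k := by
  refine Submodule.span_mono ?_
  rintro y ⟨i, hi, x, hx, rfl⟩
  exact ⟨i, le_trans hi h, x, hx, rfl⟩

theorem EE_le_MM (k : ℕ) : EE G m c k ≤ MM G m c := by
  refine Submodule.span_mono ?_
  rintro y ⟨i, -, x, hx, rfl⟩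
  exact ⟨i, x, hx, rfl⟩

theorem mem_MM {x : H} (hx : x ∈ MM G m c) : ∃ k, x ∈ EE G m c k := by
  unfold MM at hx
  induction hx using Submodule.span_induction with
  | mem x hx =>
    obtain ⟨j, y, hy, rfl⟩ := hx
    exact ⟨j, Submodule.subset_span ⟨j, le_refl j, y, hy, rfl⟩⟩
  | zero => exact ⟨0, Submodule.zero_mem _⟩
  | add x y _ _ h1 h2 =>
    obtain ⟨k1, h1⟩ := h1
    obtain ⟨k2, h2⟩ := h2
    exact ⟨max k1 k2, Submodule.add_mem _ (EE_mono (le_max_left k1 k2) h1) (EE_mono (le_max_right k1 k2) h2)⟩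
  | smul r x _ h1 =>
    obtain ⟨k1, h1⟩ := h1
    exact ⟨k1, Submodule.smul_mem _ r h1⟩

theorem EE_fg (hG : G.Ok0) (hC : Con G m dK nab c) (k : ℕ) : (EE G m c k).FG := by
  classical
  have hfg : ∀ j, ∃ S : Finset V, Submodule.span κ (S : Set V) = G.Vd (m + 1) j := fun j => hG.fg (m + 1) j
  choose S hS using hfg
  rw [Submodule.fg_def]
  refine ⟨⋃ j ∈ Finset.range (k + 1), c '' (S j : Set V), ?_, ?_⟩
  · exact Set.Finite.biUnion (Finset.finite_toSet _) fun j _ => ((S j).finite_toSet).image _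
  · refine le_antisymm ?_ ?_
    · refine Submodule.span_le.2 ?_
      intro y hy
      simp only [Set.mem_iUnion] at hy
      obtain ⟨j, hj, x, hx, rfl⟩ := hy
      refine Submodule.subset_span ⟨j, Nat.lt_succ_iff.1 (Finset.mem_range.1 hj), x, ?_, rfl⟩
      rw [← hS j]
      exact Submodule.subset_span hx
    · refine Submodule.span_le.2 ?_
      rintro y ⟨j, hj, x, hx, rfl⟩
      rw [← hS j] at hx
      show c x ∈ Submodule.span (MvPolynomial Γ κ) (⋃ j ∈ Finset.range (k + 1), c '' (S j : Set V))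
      induction hx using Submodule.span_induction with
      | mem x hx =>
        refine Submodule.subset_span ?_
        simp only [Set.mem_iUnion]
        exact ⟨j, Finset.mem_range.2 (Nat.lt_succ_of_le hj), x, hx, rfl⟩
      | zero => rw [map_zero]; exact Submodule.zero_mem _
      | add x y _ _ h1 h2 => rw [map_add]; exact Submodule.add_mem _ h1 h2
      | smul a x _ h1 =>
        rw [hC.smul, algebraMap_smul]
        exact Submodule.smul_mem _ _ h1

theorem nab_smul (hC : Con G m dK nab c) (γ : Γ) (r : MvPolynomial Γ κ) (x : H) :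
    nab γ (r • x) = pderiv γ r • x + r • nab γ x := by
  rw [← algebraMap_smul K r x, hC.leib, hC.dK_alg, algebraMap_smul, algebraMap_smul]

theorem nab_EE (hG : G.Ok0) (hC : Con G m dK nab c) {k : ℕ} (γ : Γ) {x : H} (hx : x ∈ EE G m c k) :
    nab γ x ∈ EE G m c (k + 1) := by
  unfold EE at hx
  induction hx using Submodule.span_induction with
  | mem x hx =>
    obtain ⟨j, hj, y, hy, rfl⟩ := hx
    rw [hC.nabc γ j y hy]
    exact Submodule.subset_span ⟨j + 1, Nat.succ_le_succ hj, G.mul γ y, hG.mul_mem γ (m + 1) j y hy, rfl⟩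
  | zero => rw [map_zero]; exact Submodule.zero_mem _
  | add x y _ _ h1 h2 => rw [map_add]; exact Submodule.add_mem _ h1 h2
  | smul r x hx h1 =>
    rw [nab_smul hC]
    refine Submodule.add_mem _ (Submodule.smul_mem _ _ ?_) (Submodule.smul_mem _ _ h1)
    exact EE_mono (Nat.le_succ k) hx

theorem nab_MM (hG : G.Ok0) (hC : Con G m dK nab c) (γ : Γ) {x : H} (hx : x ∈ MM G m c) :
    nab γ x ∈ MM G m c := by
  obtain ⟨k, hk⟩ := mem_MM hx
  exact EE_le_MM (k + 1) (nab_EE hG hC γ hk)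

/-- The `R`-linear extension of `c`. -/
theorem exists_cR (hC : Con G m dK nab c) :
    ∃ cR : MvPolynomial Γ κ ⊗[κ] V →ₗ[MvPolynomial Γ κ] H, ∀ r x, cR (r ⊗ₜ[κ] x) = r • c x := by
  let f : MvPolynomial Γ κ →+ V →+ H :=
    { toFun := fun r =>
        { toFun := fun x => r • c x
          map_zero' := by rw [map_zero, smul_zero]
          map_add' := fun x y => by rw [map_add, smul_add] }
      map_zero' := AddMonoidHom.ext fun x => zero_smul _ _
      map_add' := fun r r' => AddMonoidHom.ext fun x => add_smul _ _ _ }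
  have hf : ∀ r x, f r x = r • c x := fun r x => rfl
  have hc : ∀ (a : κ) x, c (a • x) = (C a : MvPolynomial Γ κ) • c x := by
    intro a x
    rw [hC.smul, algebraMap_smul]
  let g : MvPolynomial Γ κ ⊗[κ] V →+ H := TensorProduct.liftAddHom f (by
    intro a r x
    rw [hf, hf, hc, ← mul_smul, mul_comm, ← smul_eq_C_mul])
  have hg : ∀ r x, g (r ⊗ₜ[κ] x) = r • c x := fun r x => rfl
  refine ⟨{ toFun := g, map_add' := g.map_add, map_smul' := ?_ }, hg⟩
  intro r ω
  rw [RingHom.id_apply]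
  induction ω using TensorProduct.induction_on with
  | zero => rw [smul_zero, map_zero, smul_zero]
  | tmul s x => rw [TensorProduct.smul_tmul', hg, hg, smul_eq_mul, mul_smul]
  | add ω ω' h h' => rw [smul_add, map_add, map_add, h, h', smul_add]

/-- The key fact. -/
theorem cR_TF (hG : G.Ok0) (hC : Con G m dK nab c)
    {cR : MvPolynomial Γ κ ⊗[κ] V →ₗ[MvPolynomial Γ κ] H} (hcR : ∀ r x, cR (r ⊗ₜ[κ] x) = r • c x)
    {k : ℕ} {ω : MvPolynomial Γ κ ⊗[κ] V} (hω : ω ∈ G.VR m k) : cR (G.TF ω) ∈ EE G m c k := by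
  have h0 : ∀ ω ∈ Submodule.span (MvPolynomial Γ κ)
      ((G.Vd m k).map (TensorProduct.mk κ (MvPolynomial Γ κ) V 1) :
        Set (MvPolynomial Γ κ ⊗[κ] V)), cR (G.TF ω) ∈ EE G m c k := by
    intro ω hω
    induction hω using Submodule.span_induction with
    | mem ω h =>
      obtain ⟨x, hx, rfl⟩ := h
      have h1 : cR (G.TF ((1 : MvPolynomial Γ κ) ⊗ₜ[κ] x)) = -c (G.d x) := by
        have h2 := hC.rel k x hx
        rw [eq_neg_iff_add_eq_zero, add_comm, ← h2]
        refine congrArg (c (G.d x) + ·) ?_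
        unfold Cx.TF
        rw [LinearMap.sum_apply, map_sum]
        refine Finset.sum_congr rfl fun γ _ => ?_
        rw [LinearMap.smul_apply, LinearMap.baseChange_tmul, map_smul, hcR, one_smul,
          algebraMap_smul]
      show cR (G.TF ((1 : MvPolynomial Γ κ) ⊗ₜ[κ] x)) ∈ _
      rw [h1]
      exact Submodule.neg_mem _ (Submodule.subset_span ⟨k, le_rfl, _, hG.d_mem m k x hx, rfl⟩)
    | zero =>
      rw [map_zero, map_zero]
      exact Submodule.zero_mem _
    | add x y _ _ hx hy =>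
      rw [map_add, map_add]
      exact Submodule.add_mem _ hx hy
    | smul r x _ hx =>
      rw [map_smul, map_smul]
      exact Submodule.smul_mem _ _ hx
  unfold Cx.VR at hω
  rw [Submodule.baseChange_eq_span] at hω
  exact h0 ω hω

theorem EE_kill (hG : G.Ok0) (hB : G.Bad m P k₀) (hC : Con G m dK nab c) {k : ℕ} (hk : k₀ ≤ k)
    {r : MvPolynomial Γ κ} (hr : r ∈ P) {x : H} (hx : x ∈ EE G m c (k + 1)) : r • x ∈ EE G m c k := by
  obtain ⟨cR, hcR⟩ := exists_cR hC
  unfold EE at hx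
  induction hx using Submodule.span_induction with
  | mem y h =>
    obtain ⟨j, hj, x, hx, rfl⟩ := h
    rcases Nat.lt_or_ge k j with h1 | h1
    · have h2 : j = k + 1 := by omega
      subst h2
      obtain ⟨ω, hω, h3⟩ := hB.kill k hk r hr x hx
      rw [← hcR, ← h3]
      exact cR_TF hG hC hcR hω
    · exact Submodule.smul_mem _ _ (Submodule.subset_span ⟨j, h1, x, hx, rfl⟩)
  | zero =>
    rw [smul_zero]
    exact Submodule.zero_mem _
  | add x y _ _ h h' =>
    rw [smul_add]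
    exact Submodule.add_mem _ h h'
  | smul s x _ h =>
    rw [smul_comm]
    exact Submodule.smul_mem _ _ h

theorem EE_kill_pow (hG : G.Ok0) (hB : G.Bad m P k₀) (hC : Con G m dK nab c) {k : ℕ} (hk : k₀ ≤ k) (i : ℕ)
    {r : MvPolynomial Γ κ} (hr : r ∈ P) {x : H} (hx : x ∈ EE G m c (k + i)) : r ^ i • x ∈ EE G m c k := by
  induction i generalizing x with
  | zero =>
    rw [pow_zero, one_smul]
    exact hx
  | succ i ih =>
    rw [pow_succ, mul_smul]
    exact ih (EE_kill hG hB hC (le_trans hk (Nat.le_add_right k i)) hr hx)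

theorem EE_spn (hG : G.Ok0) (hB : G.Bad m P k₀) (hC : Con G m dK nab c) (h : H) :
    ∃ r : MvPolynomial Γ κ, r ≠ 0 ∧ r • h ∈ EE G m c k₀ := by
  obtain ⟨r₀, hr₀, hr₀'⟩ := (Submodule.ne_bot_iff _).1 hB.ne
  have h0 := hC.span h
  induction h0 using Submodule.span_induction with
  | mem y h =>
    obtain ⟨j, x, hx, rfl⟩ := h
    refine ⟨r₀ ^ j, pow_ne_zero _ hr₀', EE_kill_pow hG hB hC le_rfl j hr₀ ?_⟩
    exact Submodule.subset_span ⟨j, Nat.le_add_left j k₀, x, hx, rfl⟩
  | zero =>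
    refine ⟨1, one_ne_zero, ?_⟩
    rw [smul_zero]
    exact Submodule.zero_mem _
  | add x y _ _ h h' =>
    obtain ⟨r, hr, h1⟩ := h
    obtain ⟨r', hr', h2⟩ := h'
    refine ⟨r * r', mul_ne_zero hr hr', ?_⟩
    rw [smul_add, mul_smul r r' y, mul_comm r r', mul_smul r' r x]
    exact Submodule.add_mem _ (Submodule.smul_mem _ _ h1) (Submodule.smul_mem _ _ h2)
  | smul f x _ h =>
    obtain ⟨r, hr, h1⟩ := h
    obtain ⟨u, v, hv, rfl⟩ := IsFractionRing.div_surjective (A := MvPolynomial Γ κ) f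
    have hv0 : v ≠ 0 := nonZeroDivisors.ne_zero hv
    have hv1 : algebraMap (MvPolynomial Γ κ) K v ≠ 0 := fun h2 =>
      hv0 ((map_eq_zero_iff _ (IsFractionRing.injective (MvPolynomial Γ κ) K)).1 h2)
    refine ⟨v * r, mul_ne_zero hv0 hr, ?_⟩
    have h2 : (v * r) • ((algebraMap (MvPolynomial Γ κ) K u / algebraMap (MvPolynomial Γ κ) K v) • x) =
        u • (r • x) := by
      rw [← algebraMap_smul K (v * r), ← algebraMap_smul K u, ← algebraMap_smul K r, smul_smul,
        smul_smul, map_mul]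
      refine congrArg (· • x) ?_
      field_simp
    rw [h2]
    exact Submodule.smul_mem _ _ h1

theorem H_fin (hG : G.Ok0) (hB : G.Bad m P k₀) (hC : Con G m dK nab c) : Module.Finite K H := by
  obtain ⟨S, hS⟩ := EE_fg (k := k₀) hG hC
  refine ⟨⟨S, ?_⟩⟩
  rw [eq_top_iff]
  intro h _
  obtain ⟨r, hr, h1⟩ := EE_spn hG hB hC h
  rw [← hS] at h1
  have h2 : r • h ∈ Submodule.span K (S : Set H) :=
    Submodule.span_le_restrictScalars (MvPolynomial Γ κ) K (S : Set H) h1
  have hr1 : algebraMap (MvPolynomial Γ κ) K r ≠ 0 := fun h3 =>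
    hr ((map_eq_zero_iff _ (IsFractionRing.injective (MvPolynomial Γ κ) K)).1 h3)
  have h3 : h = (algebraMap (MvPolynomial Γ κ) K r)⁻¹ • (r • h) := by
    rw [← algebraMap_smul K r, smul_smul, inv_mul_cancel₀ hr1, one_smul]
  rw [h3]
  exact Submodule.smul_mem _ _ h2

/-- The generator at the bad prime. -/
theorem EE_gen (hG : G.Ok0) (hC : Con G m dK nab c) {γ₀ : Γ} {α : V} {k₀ k : ℕ}
    (hgen : ∀ x ∈ G.Vd (m + 1) (k₀ + k + 1), ∃ s r : MvPolynomial Γ κ, s ∉ P ∧
      s ⊗ₜ[κ] x - r ⊗ₜ[κ] ((G.mul γ₀)^[k + 1] α) ∈ (G.VR m (k₀ + k)).map G.TF)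
    (hP : P.IsPrime) {x : H} (hx : x ∈ EE G m c (k₀ + k + 1)) :
    ∃ s r : MvPolynomial Γ κ, s ∉ P ∧ s • x - r • c ((G.mul γ₀)^[k + 1] α) ∈ EE G m c (k₀ + k) := by
  obtain ⟨cR, hcR⟩ := exists_cR hC
  have h1P : (1 : MvPolynomial Γ κ) ∉ P := (Ideal.ne_top_iff_one P).1 hP.ne_top
  unfold EE at hx
  induction hx using Submodule.span_induction with
  | mem y h =>
    obtain ⟨j, hj, x, hx, rfl⟩ := h
    rcases Nat.lt_or_ge (k₀ + k) j with h1 | h1
    · have h2 : j = k₀ + k + 1 := by omega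
      subst h2
      obtain ⟨s, r, hs, ω, hω, h3⟩ := hgen x hx
      refine ⟨s, r, hs, ?_⟩
      rw [← hcR, ← hcR, ← map_sub, ← h3]
      exact cR_TF hG hC hcR hω
    · refine ⟨1, 0, h1P, ?_⟩
      rw [one_smul, zero_smul, sub_zero]
      exact Submodule.subset_span ⟨j, h1, x, hx, rfl⟩
  | zero =>
    refine ⟨1, 0, h1P, ?_⟩
    rw [smul_zero, zero_smul, sub_zero]
    exact Submodule.zero_mem _
  | add x y _ _ h h' =>
    obtain ⟨s, r, hs, h1⟩ := h
    obtain ⟨s', r', hs', h2⟩ := h'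
    refine ⟨s * s', s' * r + s * r', fun h3 => ?_, ?_⟩
    · rcases hP.mem_or_mem h3 with h4 | h4
      · exact hs h4
      · exact hs' h4
    · have h3 := Submodule.add_mem _ (Submodule.smul_mem _ s' h1) (Submodule.smul_mem _ s h2)
      have h4 : (s * s') • (x + y) - (s' * r + s * r') • c ((G.mul γ₀)^[k + 1] α) =
          s' • (s • x - r • c ((G.mul γ₀)^[k + 1] α)) +
            s • (s' • y - r' • c ((G.mul γ₀)^[k + 1] α)) := by
        module
      rw [h4]
      exact h3
  | smul f x _ h =>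
    obtain ⟨s, r, hs, h1⟩ := h
    refine ⟨s, f * r, hs, ?_⟩
    have h2 : s • (f • x) - (f * r) • c ((G.mul γ₀)^[k + 1] α) =
        f • (s • x - r • c ((G.mul γ₀)^[k + 1] α)) := by
      module
    rw [h2]
    exact Submodule.smul_mem _ _ h1

/-- The iterated derivative of a class. -/
theorem nab_iter (hG : G.Ok0) (hC : Con G m dK nab c) (γ₀ : Γ) {α : V} {j : ℕ} (hα : α ∈ G.Vd (m + 1) j) (k : ℕ) :
    (nab γ₀)^[k] (c α) = c ((G.mul γ₀)^[k] α) := by
  have h1 : ∀ k, (G.mul γ₀)^[k] α ∈ G.Vd (m + 1) (j + k) := by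
    intro k
    induction k with
    | zero => exact hα
    | succ k ih =>
      rw [Function.iterate_succ_apply']
      exact hG.mul_mem γ₀ (m + 1) (j + k) _ ih
  induction k with
  | zero => rfl
  | succ k ih =>
    rw [Function.iterate_succ_apply', Function.iterate_succ_apply', ih]
    exact hC.nabc γ₀ (j + k) _ (h1 k)

theorem V6A_mon (hC : Con G m dK nab c) {k : ℕ} {x : V} (hx : x ∈ G.Vd (m + 1) k)
    (r : MvPolynomial Γ κ) :
    r • c x ∈ AddSubgroup.closure {y : H | y ∈ MM G m c ∧ ∃ z : ℤ,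
      ∑ γ, (X γ : MvPolynomial Γ κ) • nab γ y = (C ((z : κ) - G.θ) : MvPolynomial Γ κ) • y} := by
  induction r using MvPolynomial.induction_on' with
  | monomial d a =>
    apply AddSubgroup.subset_closure
    refine ⟨(MM G m c).smul_mem _ (Submodule.subset_span ⟨k, x, hx, rfl⟩), ((∑ γ, (d γ : ℤ)) - k : ℤ), ?_⟩
    have heul : ∑ γ, (X γ : MvPolynomial Γ κ) • c (G.mul γ x) = -((C (G.θ + k) : MvPolynomial Γ κ) • c x) := by
      have h := hC.eul k x hx
      simp only [algebraMap_smul] at h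
      exact h
    have h1 : ∀ γ, (X γ : MvPolynomial Γ κ) • nab γ ((monomial d a : MvPolynomial Γ κ) • c x) =
        (C (d γ : κ) * monomial d a : MvPolynomial Γ κ) • c x +
          (monomial d a : MvPolynomial Γ κ) • ((X γ : MvPolynomial Γ κ) • c (G.mul γ x)) := by
      intro γ
      rw [nab_smul hC, smul_add, smul_smul, X_mul_pderiv_monomial, hC.nabc γ k x hx, smul_smul, smul_smul,
        mul_comm (X γ)]
      congr 2
      rw [nsmul_eq_mul]
      congr 1
    rw [Finset.sum_congr rfl (fun γ _ => h1 γ), Finset.sum_add_distrib, ← Finset.smul_sum, heul,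
      ← Finset.sum_smul, ← Finset.sum_mul, smul_neg, smul_smul, smul_smul, ← sub_eq_add_neg, ← sub_smul]
    congr 1
    rw [mul_comm (monomial d a) (C _), ← sub_mul]
    congr 1
    rw [← map_sum, ← map_sub]
    congr 1
    push_cast
    ring
  | add p q hp hq =>
    rw [add_smul]
    exact add_mem hp hq

theorem MM_eig (hG : G.Ok0) (hC : Con G m dK nab c) {x : H} (hx : x ∈ MM G m c) :
    x ∈ AddSubgroup.closure {y : H | y ∈ MM G m c ∧ ∃ z : ℤ,
      ∑ γ, (X γ : MvPolynomial Γ κ) • nab γ y = (C ((z : κ) - G.θ) : MvPolynomial Γ κ) • y} := by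
  have key : ∀ r : MvPolynomial Γ κ, r • x ∈ AddSubgroup.closure {y : H | y ∈ MM G m c ∧ ∃ z : ℤ,
      ∑ γ, (X γ : MvPolynomial Γ κ) • nab γ y = (C ((z : κ) - G.θ) : MvPolynomial Γ κ) • y} := by
    refine Submodule.span_induction (p := fun x _ => ∀ r : MvPolynomial Γ κ,
      r • x ∈ AddSubgroup.closure {y : H | y ∈ MM G m c ∧ ∃ z : ℤ,
        ∑ γ, (X γ : MvPolynomial Γ κ) • nab γ y = (C ((z : κ) - G.θ) : MvPolynomial Γ κ) • y}) ?_ ?_ ?_ ?_ hx
    · rintro y ⟨j, v, hv, rfl⟩ r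
      exact V6A_mon hC hv r
    · intro r
      rw [smul_zero]
      exact zero_mem _
    · intro y z _ _ hy hz r
      rw [smul_add]
      exact add_mem (hy r) (hz r)
    · intro a y _ hy r
      rw [smul_smul]
      exact hy (r * a)
  have := key 1
  rwa [one_smul] at this

end main

end MPadcHS
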