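import Pool.Agent.Lib.MP_adc574_ag_HS.V6A
import Pool.Agent.Lib.MP_adc574_ag_HA.HLow
import Pool.Agent.Lib.MP_adc574_ag_DC.AHull

/-!
# JOB V6B (HS): stable subspaces meet the lattice in finitely generated submodules

`R = MvPolynomial Γ κ`. V6A.lean has the lemmas on `EE`, `MM` for `Ok0`, `Con` (copies of HALat1, HALat2, HALat3 with the same names).
* `con_quot`: copy of `HCon_quot` (private, in HA/HCon.lean): replace `HCon_nab_MM`, `HCon_nab_smul`, `HCon_MM_eig` by `nab_MM`, `nab_smul`, `MM_eig` (V6A) and `low_neg` by `MPadcHA.low_neg` (HA/HLow.lean). The only hypothesis on the numbers is `hneg`.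
* `MM_not_fg`: if `MM` is finitely generated then so is its image modulo `⊥.restrictScalars`, so `⊥ = ⊤` by `con_quot` with `N = ⊥`, a contradiction to `h ≠ 0`.
* `principal0`: copy of `principal` (HA/HAIrr1.lean) with `MM_not_fg` in place of `sub_zero`: there `hfg : (MM G m c).FG` is proved under the assumption that `P` is not principal.
* `irr_fg`: `N ≠ ⊤`, so there is `h ≠ 0` in `H`. `principal0`: `P = (π)`. Copy of `irr` (HA/HAIrr3.lean): Case 1, `∀ k, k₀ ≤ k → ∀ x ∈ N, x ∈ EE (k + 1) → x ∈ lo P (EE k)`: the part of `irr_sub` (HA/HAIrr2.lean) which proves `hfg : (N.restrictScalars _ ⊓ MM G m c).FG` (`hull`, DC/AHull.lean) is the claim. Case 2, otherwise: the proof of `irr` and of `irr_quot` (there `quot_zero` is `con_quot`) gives `N = ⊤`, a contradiction.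
The proofs can be copied nearly literally (`principal` ↦ `principal0`, `quot_zero hG hC N hst` ↦ `con_quot hG hC hneg N hst`).
-/

set_option autoImplicit false
set_option linter.unusedSectionVars false

namespace MPadcHS

open MvPolynomial TensorProduct MPadcDC

universe u

section main

variable {κ : Type u} [Field κ] [CharZero κ] {Γ : Type} [Fintype Γ] [DecidableEq Γ] {V : Type u}
  [AddCommGroup V] [Module κ V] {K : Type u} [Field K] [Algebra (MvPolynomial Γ κ) K]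
  [IsFractionRing (MvPolynomial Γ κ) K] {H : Type u} [AddCommGroup H] [Module K H]
  [Module (MvPolynomial Γ κ) H] [IsScalarTower (MvPolynomial Γ κ) K H]
  {G : Cx κ Γ V} {m : ℕ} {P : Ideal (MvPolynomial Γ κ)} {k₀ : ℕ} {dK : Γ → Derivation ℤ K K}
  {nab : Γ → H →+ H} {c : V →+ H}

theorem con_quot (hG : G.Ok0) (hC : Con G m dK nab c)
    (hneg : ∀ k, ∀ x ∈ G.Vd (m + 1) k, (∃ n : ℕ, -(G.θ + k) = n) → c x = 0) (N : Submodule K H)
    (hst : ∀ γ, ∀ x ∈ N, nab γ x ∈ N)
    (hfg : ((MM G m c).map ((N.restrictScalars (MvPolynomial Γ κ)).mkQ)).FG) : N = ⊤ := by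
  let N' : Submodule (MvPolynomial Γ κ) H := N.restrictScalars (MvPolynomial Γ κ)
  have hN' : ∀ x, x ∈ N' ↔ x ∈ N := fun x => Iff.rfl
  let Q : Submodule (MvPolynomial Γ κ) (H ⧸ N') := (MM G m c).map N'.mkQ
  have hQ : Q.FG := hfg
  have hwd : ∀ γ (x y : H), N'.mkQ x = N'.mkQ y → N'.mkQ (nab γ x) = N'.mkQ (nab γ y) := by
    intro γ x y h
    rw [Submodule.mkQ_apply, Submodule.mkQ_apply, Submodule.Quotient.eq] at h ⊢
    rw [← map_sub]
    exact hst γ _ h
  have hsur : ∀ q : H ⧸ N', ∃ x : H, N'.mkQ x = q := fun q => N'.mkQ_surjective q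
  choose s hs using hsur
  let dq : Γ → (H ⧸ N') →+ (H ⧸ N') := fun γ => AddMonoidHom.mk' (fun q => N'.mkQ (nab γ (s q))) (by
    intro a b
    show N'.mkQ (nab γ (s (a + b))) = N'.mkQ (nab γ (s a)) + N'.mkQ (nab γ (s b))
    rw [← map_add, ← map_add]
    apply hwd
    rw [hs, map_add, hs, hs])
  have hdq : ∀ γ (x : H), dq γ (N'.mkQ x) = N'.mkQ (nab γ x) := by
    intro γ x
    show N'.mkQ (nab γ (s (N'.mkQ x))) = _
    exact hwd γ _ _ (hs _)
  have hdQ : ∀ γ, ∀ q ∈ Q, dq γ q ∈ Q := by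
    rintro γ q ⟨x, hx, rfl⟩
    rw [hdq]
    exact Submodule.mem_map_of_mem (nab_MM hG hC γ hx)
  let dl : Γ → Q →+ Q := fun γ => AddMonoidHom.mk' (fun x => ⟨dq γ x, hdQ γ x x.2⟩) (by
    intro a b
    apply Subtype.ext
    simp)
  have hdl : ∀ γ (x : Q), ((dl γ x : Q) : H ⧸ N') = dq γ x := fun γ x => rfl
  have hfin : Module.Finite (MvPolynomial Γ κ) Q := Module.Finite.iff_fg.mpr hQ
  have hz : ∀ x : Q, x = 0 := by
    refine MPadcHA.low_neg hfin dl ?_ ?_ G.θ ?_ ?_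
    · rintro γ r ⟨_, x, hx, rfl⟩
      apply Subtype.ext
      rw [hdl]
      simp only [Submodule.coe_smul, Submodule.coe_add, hdl]
      rw [← map_smul, hdq, nab_smul hC, map_add, map_smul, map_smul, hdq]
    · rintro γ γ' ⟨_, x, hx, rfl⟩
      apply Subtype.ext
      rw [hdl, hdl, hdl, hdl]
      simp only [hdq]
      rw [hC.comm γ γ' x]
    · rintro ⟨_, x, hx, rfl⟩
      have h2 := MM_eig hG hC hx
      have h3 : ∃ h : N'.mkQ x ∈ Q, (⟨N'.mkQ x, h⟩ : Q) ∈ AddSubgroup.closure {y : Q | ∃ z : ℤ,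
          ∑ γ, (X γ : MvPolynomial Γ κ) • dl γ y = (C ((z : κ) - G.θ) : MvPolynomial Γ κ) • y} := by
        refine AddSubgroup.closure_induction (p := fun y _ => ∃ h : N'.mkQ y ∈ Q,
          (⟨N'.mkQ y, h⟩ : Q) ∈ AddSubgroup.closure {y : Q | ∃ z : ℤ,
          ∑ γ, (X γ : MvPolynomial Γ κ) • dl γ y = (C ((z : κ) - G.θ) : MvPolynomial Γ κ) • y}) ?_ ?_ ?_ ?_ h2
        · rintro y ⟨hy, z, hz⟩
          refine ⟨Submodule.mem_map_of_mem hy, AddSubgroup.subset_closure ⟨z, ?_⟩⟩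
          apply Subtype.ext
          rw [Submodule.coe_sum]
          simp only [Submodule.coe_smul, hdl, hdq]
          rw [← map_smul, ← hz, map_sum]
          simp only [map_smul]
        · refine ⟨by rw [map_zero]; exact Q.zero_mem, ?_⟩
          have : (⟨N'.mkQ 0, by rw [map_zero]; exact Q.zero_mem⟩ : Q) = 0 := Subtype.ext (map_zero _)
          rw [this]
          exact zero_mem _
        · rintro y z _ _ ⟨hy, hy'⟩ ⟨hz, hz'⟩
          refine ⟨by rw [map_add]; exact Q.add_mem hy hz, ?_⟩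
          have : (⟨N'.mkQ (y + z), by rw [map_add]; exact Q.add_mem hy hz⟩ : Q) =
              ⟨N'.mkQ y, hy⟩ + ⟨N'.mkQ z, hz⟩ := Subtype.ext (map_add _ _ _)
          rw [this]
          exact add_mem hy' hz'
        · rintro y _ ⟨hy, hy'⟩
          refine ⟨by rw [map_neg]; exact Q.neg_mem hy, ?_⟩
          have : (⟨N'.mkQ (-y), by rw [map_neg]; exact Q.neg_mem hy⟩ : Q) =
              -⟨N'.mkQ y, hy⟩ := Subtype.ext (map_neg _ _)
          rw [this]
          exact neg_mem hy'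
      obtain ⟨h, h4⟩ := h3
      exact h4
    · rw [eq_top_iff]
      rintro ⟨_, x, hx, rfl⟩ _
      have h5 : ∃ h : N'.mkQ x ∈ Q, (⟨N'.mkQ x, h⟩ : Q) ∈
          Submodule.span (MvPolynomial Γ κ) {y : Q | ∃ z : ℤ, (∀ n : ℕ, (z : κ) - G.θ ≠ n) ∧
            ∑ γ, (X γ : MvPolynomial Γ κ) • dl γ y = (C ((z : κ) - G.θ) : MvPolynomial Γ κ) • y} := by
        refine Submodule.span_induction (p := fun x _ => ∃ h : N'.mkQ x ∈ Q, (⟨N'.mkQ x, h⟩ : Q) ∈
          Submodule.span (MvPolynomial Γ κ) {y : Q | ∃ z : ℤ, (∀ n : ℕ, (z : κ) - G.θ ≠ n) ∧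
            ∑ γ, (X γ : MvPolynomial Γ κ) • dl γ y = (C ((z : κ) - G.θ) : MvPolynomial Γ κ) • y}) ?_ ?_ ?_ ?_ hx
        · rintro y ⟨k, v, hv, rfl⟩
          have hcv : c v ∈ MM G m c := Submodule.subset_span ⟨k, v, hv, rfl⟩
          refine ⟨Submodule.mem_map_of_mem hcv, ?_⟩
          by_cases hn : ∃ n : ℕ, -(G.θ + k) = n
          · have h6 : (⟨N'.mkQ (c v), Submodule.mem_map_of_mem hcv⟩ : Q) = 0 := by
              apply Subtype.ext
              change N'.mkQ (c v) = 0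
              rw [hneg k v hv hn, map_zero]
            rw [h6]
            exact Submodule.zero_mem _
          · apply Submodule.subset_span
            refine ⟨-(k : ℤ), fun n h => hn ⟨n, ?_⟩, ?_⟩
            · rw [← h]
              push_cast
              ring
            · apply Subtype.ext
              rw [Submodule.coe_sum]
              simp only [Submodule.coe_smul, hdl, hdq]
              have heul := hC.eul k v hv
              simp only [algebraMap_smul] at heul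
              simp only [← map_smul, ← map_sum]
              congr 1
              have h7 : ∑ γ, (X γ : MvPolynomial Γ κ) • nab γ (c v) =
                  ∑ γ, (X γ : MvPolynomial Γ κ) • c (G.mul γ v) :=
                Finset.sum_congr rfl fun γ _ => by rw [hC.nabc γ k v hv]
              rw [h7, heul, ← neg_smul, ← C_neg]
              congr 2
              push_cast
              ring
        · refine ⟨by rw [map_zero]; exact Q.zero_mem, ?_⟩
          have : (⟨N'.mkQ 0, by rw [map_zero]; exact Q.zero_mem⟩ : Q) = 0 := Subtype.ext (map_zero _)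
          rw [this]
          exact Submodule.zero_mem _
        · rintro y z _ _ ⟨hy, hy'⟩ ⟨hz, hz'⟩
          refine ⟨by rw [map_add]; exact Q.add_mem hy hz, ?_⟩
          have : (⟨N'.mkQ (y + z), by rw [map_add]; exact Q.add_mem hy hz⟩ : Q) =
              ⟨N'.mkQ y, hy⟩ + ⟨N'.mkQ z, hz⟩ := Subtype.ext (map_add _ _ _)
          rw [this]
          exact Submodule.add_mem _ hy' hz'
        · rintro r y _ ⟨hy, hy'⟩
          refine ⟨by rw [map_smul]; exact Q.smul_mem r hy, ?_⟩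
          have : (⟨N'.mkQ (r • y), by rw [map_smul]; exact Q.smul_mem r hy⟩ : Q) =
              r • ⟨N'.mkQ y, hy⟩ := Subtype.ext (map_smul _ _ _)
          rw [this]
          exact Submodule.smul_mem _ r hy'
      obtain ⟨h, h6⟩ := h5
      exact h6
  have hle : ∀ x ∈ MM G m c, x ∈ N := by
    intro x hx
    have h1 := hz ⟨N'.mkQ x, Submodule.mem_map_of_mem hx⟩
    have h2 : N'.mkQ x = 0 := congrArg Subtype.val h1
    rw [Submodule.mkQ_apply, Submodule.Quotient.mk_eq_zero] at h2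
    exact h2
  rw [eq_top_iff]
  intro h _
  have h1 := hC.span h
  refine (Submodule.span_le.mpr ?_) h1
  rintro y ⟨k, x, hx, rfl⟩
  exact hle _ (Submodule.subset_span ⟨k, x, hx, rfl⟩)

theorem MM_not_fg (hG : G.Ok0) (hC : Con G m dK nab c)
    (hneg : ∀ k, ∀ x ∈ G.Vd (m + 1) k, (∃ n : ℕ, -(G.θ + k) = n) → c x = 0) (hH : ∃ h : H, h ≠ 0) :
    ¬ (MM G m c).FG := by
  intro hfg
  have h1 : (⊥ : Submodule K H) = ⊤ := by
    refine con_quot hG hC hneg ⊥ ?_ (hfg.map _)
    intro γ x hx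
    rw [(Submodule.mem_bot K).1 hx, map_zero]
    exact Submodule.zero_mem _
  obtain ⟨h, hh⟩ := hH
  refine hh ((Submodule.mem_bot K).1 ?_)
  rw [h1]
  exact Submodule.mem_top

theorem principal0 (hG : G.Ok0) (hB : G.Bad m P k₀) (hC : Con G m dK nab c)
    (hneg : ∀ k, ∀ x ∈ G.Vd (m + 1) k, (∃ n : ℕ, -(G.θ + k) = n) → c x = 0) (hH : ∃ h : H, h ≠ 0) :
    ∃ π : MvPolynomial Γ κ, Prime π ∧ P = Ideal.span {π} := by
  have hPp := hB.prime
  obtain ⟨π, hπP, hπ⟩ := hPp.exists_mem_prime_of_ne_bot hB.ne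
  refine ⟨π, hπ, ?_⟩
  by_contra hne
  have hle : Ideal.span {π} ≤ P := (Ideal.span_singleton_le_iff_mem P).2 hπP
  obtain ⟨s, hsP, hs⟩ : ∃ s ∈ P, ¬ π ∣ s := by
    by_contra hcon
    push Not at hcon
    exact hne (le_antisymm (fun s hs => Ideal.mem_span_singleton.2 (hcon s hs)) hle)
  have hrel : IsRelPrime π s := (hπ.irreducible.isRelPrime_iff_not_dvd).2 hs
  have hfg : (MM G m c).FG := by
    refine hull (K := K) (EE_fg hG hC k₀) ?_
    intro x hx
    obtain ⟨k, hk⟩ := mem_MM hx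
    have hk' : x ∈ EE G m c (k₀ + k) := EE_mono (by omega) hk
    exact ⟨π ^ k, s ^ k, pow_ne_zero k hπ.ne_zero, hrel.pow,
      EE_kill_pow hG hB hC le_rfl k hπP hk', EE_kill_pow hG hB hC le_rfl k hsP hk'⟩
  exact MM_not_fg hG hC hneg hH hfg

private theorem V6B_sub (hG : G.Ok0) (hB : G.Bad m P k₀) (hC : Con G m dK nab c)
    (hneg : ∀ k, ∀ x ∈ G.Vd (m + 1) k, (∃ n : ℕ, -(G.θ + k) = n) → c x = 0) (hH : ∃ h : H, h ≠ 0)
    (N : Submodule K H) {j : ℕ} (hj : k₀ ≤ j)
    (h : ∀ k, j ≤ k → ∀ x ∈ N, x ∈ EE G m c (k + 1) → x ∈ lo P (EE G m c k)) :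
    (N.restrictScalars (MvPolynomial Γ κ) ⊓ MM G m c).FG := by
  have hPp := hB.prime
  obtain ⟨π, hπ, hP⟩ := principal0 hG hB hC hneg hH
  have hπP : π ∈ P := by
    rw [hP]
    exact Ideal.mem_span_singleton_self π
  have hrel : ∀ s, s ∉ P → ∀ i, IsRelPrime (π ^ i) s := by
    intro s hs i
    have h1 : IsRelPrime π s := (hπ.irreducible.isRelPrime_iff_not_dvd).2 fun hd =>
      hs (by rw [hP]; exact Ideal.mem_span_singleton.2 hd)
    exact h1.pow_left
  have key : ∀ i, ∀ x ∈ N, x ∈ EE G m c (j + i) → ∃ s, s ∉ P ∧ s • x ∈ EE G m c j := by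
    intro i
    induction i with
    | zero =>
      intro x _ hx
      exact ⟨1, (Ideal.ne_top_iff_one P).1 hPp.ne_top, by rw [one_smul]; exact hx⟩
    | succ i ih =>
      intro x hxN hx
      obtain ⟨s, hs, hsx⟩ := h (j + i) (by omega) x hxN hx
      have hsN : s • x ∈ N := by
        rw [← algebraMap_smul K s x]
        exact N.smul_mem _ hxN
      obtain ⟨s', hs', hsx'⟩ := ih (s • x) hsN hsx
      refine ⟨s' * s, ?_, by rw [mul_smul]; exact hsx'⟩
      exact fun hm => (hPp.mem_or_mem hm).elim hs' hs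
  refine hull (K := K) (EE_fg hG hC j) ?_
  rintro x ⟨hxN, hxM⟩
  obtain ⟨i, hi⟩ := mem_MM hxM
  have hi' : x ∈ EE G m c (j + i) := EE_mono (by omega) hi
  obtain ⟨s, hs, hsx⟩ := key i x hxN hi'
  exact ⟨π ^ i, s, pow_ne_zero i hπ.ne_zero, hrel s hs i, EE_kill_pow hG hB hC hj i hπP hi', hsx⟩

theorem irr_quot0 (hG : G.Ok0) (hB : G.Bad m P k₀) (hC : Con G m dK nab c)
    (hneg : ∀ k, ∀ x ∈ G.Vd (m + 1) k, (∃ n : ℕ, -(G.θ + k) = n) → c x = 0) (N : Submodule K H)
    (hst : ∀ γ, ∀ x ∈ N, nab γ x ∈ N) {j : ℕ} (hj : k₀ ≤ j)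
    (h : ∀ k, j ≤ k → ∀ x ∈ EE G m c (k + 1), ∃ n ∈ N, x - n ∈ lo P (EE G m c k)) : N = ⊤ := by
  have hPp := hB.prime
  by_cases hH : ∃ h : H, h ≠ 0
  swap
  · push Not at hH
    rw [eq_top_iff]
    intro x _
    rw [hH x]
    exact N.zero_mem
  obtain ⟨π, hπ, hP⟩ := principal0 hG hB hC hneg hH
  have hπP : π ∈ P := by
    rw [hP]
    exact Ideal.mem_span_singleton_self π
  have hrel : ∀ s, s ∉ P → ∀ i, IsRelPrime (π ^ i) s := by
    intro s hs i
    have h1 : IsRelPrime π s := (hπ.irreducible.isRelPrime_iff_not_dvd).2 fun hd =>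
      hs (by rw [hP]; exact Ideal.mem_span_singleton.2 hd)
    exact h1.pow_left
  have hNs : ∀ (s : MvPolynomial Γ κ) (x : H), x ∈ N → s • x ∈ N := by
    intro s x hx
    rw [← algebraMap_smul K s x]
    exact N.smul_mem _ hx
  have key : ∀ i, ∀ x ∈ EE G m c (j + i), ∃ s, s ∉ P ∧ ∃ n ∈ N, s • x - n ∈ EE G m c j := by
    intro i
    induction i with
    | zero =>
      intro x hx
      refine ⟨1, (Ideal.ne_top_iff_one P).1 hPp.ne_top, 0, N.zero_mem, ?_⟩
      rw [one_smul, _root_.sub_zero]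
      exact hx
    | succ i ih =>
      intro x hx
      obtain ⟨n, hn, s, hs, hsx⟩ := h (j + i) (by omega) x hx
      obtain ⟨s', hs', n', hn', hsx'⟩ := ih (s • (x - n)) hsx
      refine ⟨s' * s, fun hm => (hPp.mem_or_mem hm).elim hs' hs, (s' * s) • n + n',
        N.add_mem (hNs _ _ hn) hn', ?_⟩
      have e1 : (s' * s) • x - ((s' * s) • n + n') = s' • (s • (x - n)) - n' := by
        rw [smul_smul, smul_sub]
        abel
      rw [e1]
      exact hsx'
  refine con_quot hG hC hneg N hst ?_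
  let e := Submodule.Quotient.restrictScalarsEquiv (MvPolynomial Γ κ) N
  have he0 : ∀ n ∈ N, (N.restrictScalars (MvPolynomial Γ κ)).mkQ n = 0 := fun n hn =>
    (Submodule.Quotient.mk_eq_zero (N.restrictScalars (MvPolynomial Γ κ))).2 hn
  refine Submodule.fg_of_fg_map_injective e.toLinearMap e.injective ?_
  have hE : (((EE G m c j).map ((N.restrictScalars (MvPolynomial Γ κ)).mkQ)).map e.toLinearMap).FG :=
    ((EE_fg hG hC j).map _).map _
  refine hull (K := K) hE ?_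
  rintro y ⟨z, ⟨x, hx, rfl⟩, rfl⟩
  obtain ⟨i, hi⟩ := mem_MM hx
  have hi' : x ∈ EE G m c (j + i) := EE_mono (by omega) hi
  obtain ⟨s, hs, n, hn, hsx⟩ := key i x hi'
  refine ⟨π ^ i, s, pow_ne_zero i hπ.ne_zero, hrel s hs i, ?_, ?_⟩
  · refine ⟨(N.restrictScalars (MvPolynomial Γ κ)).mkQ (π ^ i • x),
      ⟨π ^ i • x, EE_kill_pow hG hB hC hj i hπP hi', rfl⟩, ?_⟩
    rw [map_smul, map_smul]
  · refine ⟨(N.restrictScalars (MvPolynomial Γ κ)).mkQ (s • x - n), ⟨s • x - n, hsx, rfl⟩, ?_⟩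
    rw [map_sub, he0 n hn, _root_.sub_zero, map_smul, map_smul]

/-- A stable subspace meets the lattice in a finitely generated module. -/
theorem irr_fg (hG : G.Ok0) (hB : G.Bad m P k₀) (hC : Con G m dK nab c)
    (hneg : ∀ k, ∀ x ∈ G.Vd (m + 1) k, (∃ n : ℕ, -(G.θ + k) = n) → c x = 0) (N : Submodule K H)
    (hst : ∀ γ, ∀ x ∈ N, nab γ x ∈ N) (hN : N ≠ ⊤) :
    (N.restrictScalars (MvPolynomial Γ κ) ⊓ MM G m c).FG := by
  have hH : ∃ h : H, h ≠ 0 := by
    by_contra hcon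
    refine hN (eq_top_iff.2 fun x _ => ?_)
    by_contra hx
    exact hcon ⟨x, fun h0 => hx (by rw [h0]; exact Submodule.zero_mem _)⟩
  obtain ⟨π, hπ, hP⟩ := principal0 hG hB hC hneg hH
  obtain ⟨γ₀, hγ, α, hα, hgen⟩ := hB.gen π hP
  have hPp : P.IsPrime := hB.prime
  -- the polynomials act through `K`
  have hsm : ∀ (r : MvPolynomial Γ κ), ∀ x ∈ N, r • x ∈ N := by
    intro r x hx
    have h1 : r • x = algebraMap (MvPolynomial Γ κ) K r • x := (algebraMap_smul K r x).symm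
    rw [h1]
    exact N.smul_mem _ hx
  have hu : ∀ k, nab γ₀ (c ((G.mul γ₀)^[k] α)) = c ((G.mul γ₀)^[k + 1] α) := by
    intro k
    rw [← nab_iter hG hC γ₀ hα k, ← nab_iter hG hC γ₀ hα (k + 1), Function.iterate_succ_apply']
  have hmem : ∀ k, (G.mul γ₀)^[k] α ∈ G.Vd (m + 1) (k₀ + k) := by
    intro k
    induction k with
    | zero => simpa using hα
    | succ k ih =>
      rw [Function.iterate_succ_apply']
      exact hG.mul_mem γ₀ (m + 1) (k₀ + k) _ ih
  have huE : ∀ k, c ((G.mul γ₀)^[k] α) ∈ EE G m c (k₀ + k) := fun k =>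
    Submodule.subset_span ⟨k₀ + k, le_rfl, _, hmem k, rfl⟩
  by_cases h1 : ∀ k, k₀ ≤ k → ∀ x ∈ N, x ∈ EE G m c (k + 1) → x ∈ lo P (EE G m c k)
  · exact V6B_sub hG hB hC hneg hH N le_rfl h1
  simp only [not_forall] at h1
  obtain ⟨k', hk', x, hxN, hxE, hxlo⟩ := h1
  obtain ⟨k, rfl⟩ := Nat.exists_eq_add_of_le hk'
  obtain ⟨s, r, hs, hsr⟩ := EE_gen (P := P) hG hC (hgen k) hPp hxE
  have hr : r ∉ P := by
    intro hrP
    have h2 : r • c ((G.mul γ₀)^[k + 1] α) ∈ EE G m c (k₀ + k) :=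
      EE_kill hG hB hC (Nat.le_add_right k₀ k) hrP (huE (k + 1))
    apply hxlo
    refine ⟨s, hs, ?_⟩
    have h3 := Submodule.add_mem _ hsr h2
    rwa [sub_add_cancel] at h3
  have claim : ∀ i, ∃ n ∈ N, ∃ r : MvPolynomial Γ κ, r ∉ P ∧
      n - r • c ((G.mul γ₀)^[k + i + 1] α) ∈ EE G m c (k₀ + k + i) := by
    intro i
    induction i with
    | zero => exact ⟨s • x, hsm s x hxN, r, hr, hsr⟩
    | succ i ih =>
      obtain ⟨n, hn, r₁, hr₁, h2⟩ := ih
      refine ⟨nab γ₀ n, hst γ₀ n hn, r₁, hr₁, ?_⟩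
      have h3 := nab_EE hG hC γ₀ h2
      rw [map_sub, nab_smul hC, hu] at h3
      have h4 : pderiv γ₀ r₁ • c ((G.mul γ₀)^[k + i + 1] α) ∈ EE G m c (k₀ + k + i + 1) := by
        refine Submodule.smul_mem _ _ ?_
        have h5 := huE (k + i + 1)
        rwa [show k₀ + (k + i + 1) = k₀ + k + i + 1 by omega] at h5
      have h6 := Submodule.add_mem _ h3 h4
      have h7 : nab γ₀ n - (pderiv γ₀ r₁ • c ((G.mul γ₀)^[k + i + 1] α)
          + r₁ • c ((G.mul γ₀)^[k + i + 1 + 1] α)) + pderiv γ₀ r₁ • c ((G.mul γ₀)^[k + i + 1] α)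
          = nab γ₀ n - r₁ • c ((G.mul γ₀)^[k + i + 1 + 1] α) := by abel
      rw [h7] at h6
      exact h6
  refine absurd (irr_quot0 hG hB hC hneg N hst (Nat.le_add_right k₀ k) ?_) hN
  intro l hl y hy
  obtain ⟨i, rfl⟩ := Nat.exists_eq_add_of_le hl
  obtain ⟨n, hn, r₁, hr₁, h2⟩ := claim i
  have hy' : y ∈ EE G m c (k₀ + (k + i) + 1) := by
    rwa [show k₀ + (k + i) + 1 = k₀ + k + i + 1 by omega]
  obtain ⟨s', r', hs', h3⟩ := EE_gen (P := P) hG hC (hgen (k + i)) hPp hy'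
  rw [show k₀ + (k + i) = k₀ + k + i by omega] at h3
  have hrs : r₁ * s' ∉ P := fun h4 => (hPp.mem_or_mem h4).elim hr₁ hs'
  have hne : r₁ * s' ≠ 0 := fun h0 => hrs (by rw [h0]; exact P.zero_mem)
  have hneK : algebraMap (MvPolynomial Γ κ) K (r₁ * s') ≠ 0 := by
    intro h0
    exact hne (IsFractionRing.injective (MvPolynomial Γ κ) K (by rw [h0, map_zero]))
  refine ⟨((algebraMap (MvPolynomial Γ κ) K (r₁ * s'))⁻¹ * algebraMap (MvPolynomial Γ κ) K r') • n,
    N.smul_mem _ hn, r₁ * s', hrs, ?_⟩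
  have h5 : (r₁ * s') • (((algebraMap (MvPolynomial Γ κ) K (r₁ * s'))⁻¹
      * algebraMap (MvPolynomial Γ κ) K r') • n) = r' • n := by
    rw [← algebraMap_smul K (r₁ * s'), smul_smul, ← mul_assoc, mul_inv_cancel₀ hneK, one_mul,
      algebraMap_smul]
  have h6 : (r₁ * s') • (y - ((algebraMap (MvPolynomial Γ κ) K (r₁ * s'))⁻¹
      * algebraMap (MvPolynomial Γ κ) K r') • n)
      = r₁ • (s' • y - r' • c ((G.mul γ₀)^[k + i + 1] α))
        - r' • (n - r₁ • c ((G.mul γ₀)^[k + i + 1] α)) := by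
    rw [smul_sub, h5, smul_sub, smul_sub, smul_smul, smul_smul, smul_smul, mul_comm r₁ r']
    abel
  rw [h6]
  exact Submodule.sub_mem _ (Submodule.smul_mem _ _ h3) (Submodule.smul_mem _ _ h2)

end main

end MPadcHS
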