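import Pool.Agent.Lib.MP_adc574_ag_HA.HLow

/-!
# JOB V6C (HS): eigenvectors with eigenvalue 0 in a finitely generated module are flat

`R = MvPolynomial Γ κ`, `Eu y := ∑ γ, X γ • dl γ y`. Let `M⁻ := Submodule.span R {y | ∃ z : ℤ, (∀ n : ℕ, (z : κ) - θ ≠ n) ∧ Eu y = C ((z : κ) - θ) • y}`.
* `M⁻` is stable under `dl γ`: for a generator `y` (eigenvalue `z - θ`): `dl γ y` has the eigenvalue `z - 1 - θ` (`Eu (dl γ' y) = dl γ' (Eu y) - dl γ' y` by `hleib`, `hcomm`: `dl γ' (X γ • dl γ y) = pderiv γ' (X γ) • dl γ y + X γ • dl γ' (dl γ y)`; see the private lemma `HLow_Eu_dl` in HA/HLow.lean), and `z - 1 - θ = n` would give `z - θ = n + 1`. Then `span_induction` with `hleib`.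
* The restriction of `dl` to `M⁻` (as `AddMonoidHom`s `↥M⁻ →+ ↥M⁻`) satisfies the hypotheses of `MPadcHA.low_neg`: `M⁻` is finitely generated (`R` is Noetherian, `M` is finite: `inferInstance` / `Module.Finite` of a submodule of a Noetherian module, `isNoetherian_of_isNoetherianRing_of_finite`); `heig`: for `x ∈ M⁻`, `x` is in the closure of the eigenvectors in `M` (`heig`), so by `MPadcHA.eig_sub` in the closure of the eigenvectors in `M⁻`
  (then transport to the subtype by `AddSubgroup.closure_induction`, as in `HCon_quot` in HA/HCon.lean); `hgen` by definition (`Submodule.span_induction` transported to the subtype). So `M⁻ = 0`: (*) every `y` with `Eu y = C (z - θ) • y`, `z - θ ∉ ℕ`, is `0`.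
* `low_zero`: `Eu y = 0`, `θ = z₀` an integer: `dl γ y` has the eigenvalue `-1 = (z₀ - 1) - θ`, not a natural number in characteristic 0, so `dl γ y = 0` by (*).
-/

set_option autoImplicit false
set_option linter.unusedSectionVars false

namespace MPadcHS

open MvPolynomial

universe u

variable {κ : Type u} [Field κ] [CharZero κ] {Γ : Type} [Fintype Γ] [DecidableEq Γ]

private theorem V6C_dl {M : Type u} [AddCommGroup M] [Module (MvPolynomial Γ κ) M] (dl : Γ → M →+ M)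
    (hleib : ∀ γ (r : MvPolynomial Γ κ) x, dl γ (r • x) = pderiv γ r • x + r • dl γ x)
    (hcomm : ∀ γ γ' x, dl γ (dl γ' x) = dl γ' (dl γ x)) {a : κ} {y : M}
    (hy : ∑ γ, (X γ : MvPolynomial Γ κ) • dl γ y = (C a : MvPolynomial Γ κ) • y) (γ : Γ) :
    ∑ γ', (X γ' : MvPolynomial Γ κ) • dl γ' (dl γ y) = (C (a - 1) : MvPolynomial Γ κ) • dl γ y := by
  have h1 : ∀ γ' : Γ, dl γ ((X γ' : MvPolynomial Γ κ) • dl γ' y) =
      (if γ' = γ then dl γ y else 0) + (X γ' : MvPolynomial Γ κ) • dl γ' (dl γ y) := by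
    intro γ'
    rw [hleib, hcomm γ γ' y]
    congr 1
    split_ifs with h
    · subst h
      rw [pderiv_X_self, one_smul]
    · rw [pderiv_X_of_ne h, zero_smul]
  have h2 := congrArg (dl γ) hy
  rw [map_sum, Finset.sum_congr rfl fun γ' _ => h1 γ', Finset.sum_add_distrib, Finset.sum_ite_eq' Finset.univ γ,
    if_pos (Finset.mem_univ γ), hleib, pderiv_C, zero_smul, zero_add] at h2
  have h3 : (C (a - 1) : MvPolynomial Γ κ) = C a - 1 := by rw [C_sub, C_1]
  rw [h3, sub_smul, one_smul, ← h2]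
  abel

private theorem V6C_sub {M : Type u} [AddCommGroup M] [Module (MvPolynomial Γ κ) M]
    (hfg : Module.Finite (MvPolynomial Γ κ) M) (dl : Γ → M →+ M)
    (hleib : ∀ γ (r : MvPolynomial Γ κ) x, dl γ (r • x) = pderiv γ r • x + r • dl γ x)
    (hcomm : ∀ γ γ' x, dl γ (dl γ' x) = dl γ' (dl γ x)) (θ : κ)
    (heig : ∀ x : M, x ∈ AddSubgroup.closure {y : M | ∃ z : ℤ,
      ∑ γ, (X γ : MvPolynomial Γ κ) • dl γ y = (C ((z : κ) - θ) : MvPolynomial Γ κ) • y})
    (N : Submodule (MvPolynomial Γ κ) M)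
    (hN : N = Submodule.span (MvPolynomial Γ κ) {y : M | ∃ z : ℤ, (∀ n : ℕ, (z : κ) - θ ≠ n) ∧
      ∑ γ, (X γ : MvPolynomial Γ κ) • dl γ y = (C ((z : κ) - θ) : MvPolynomial Γ κ) • y}) {x : M} (hx : x ∈ N) :
    x = 0 := by
  have hst : ∀ γ, ∀ x ∈ N, dl γ x ∈ N := by
    intro γ x hx
    rw [hN] at hx ⊢
    induction hx using Submodule.span_induction with
    | mem y hy =>
      obtain ⟨z, hz, hy⟩ := hy
      refine Submodule.subset_span ⟨z - 1, fun n hn => hz (n + 1) ?_, ?_⟩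
      · push_cast at hn ⊢
        rw [← hn]
        ring
      · rw [V6C_dl dl hleib hcomm hy γ]
        congr 2
        push_cast
        ring
    | zero =>
      rw [map_zero]
      exact Submodule.zero_mem _
    | add y z _ _ hy hz =>
      rw [map_add]
      exact Submodule.add_mem _ hy hz
    | smul r y hy0 hy =>
      rw [hleib]
      exact Submodule.add_mem _ (Submodule.smul_mem _ _ hy0) (Submodule.smul_mem _ _ hy)
  let dn : Γ → N →+ N := fun γ => AddMonoidHom.mk' (fun x => ⟨dl γ x, hst γ x x.2⟩) (by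
    intro a b
    apply Subtype.ext
    simp)
  have hdn : ∀ γ (x : N), ((dn γ x : N) : M) = dl γ x := fun γ x => rfl
  have hnoe : IsNoetherian (MvPolynomial Γ κ) M := isNoetherian_of_isNoetherianRing_of_finite _ _
  have hfin : Module.Finite (MvPolynomial Γ κ) N := Module.Finite.iff_fg.mpr (IsNoetherian.noetherian N)
  have htr : ∀ {z : ℤ} {y : M} (hy : y ∈ N),
      ∑ γ, (X γ : MvPolynomial Γ κ) • dl γ y = (C ((z : κ) - θ) : MvPolynomial Γ κ) • y →
      ∑ γ, (X γ : MvPolynomial Γ κ) • dn γ ⟨y, hy⟩ = (C ((z : κ) - θ) : MvPolynomial Γ κ) • (⟨y, hy⟩ : N) := by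
    intro z y hy hz
    apply Subtype.ext
    rw [Submodule.coe_sum]
    simpa only [Submodule.coe_smul, hdn] using hz
  have hz : ∀ x : N, x = 0 := by
    refine MPadcHA.low_neg hfin dn ?_ ?_ θ ?_ ?_
    · intro γ r x
      apply Subtype.ext
      rw [hdn]
      simp only [Submodule.coe_smul, Submodule.coe_add, hdn]
      exact hleib γ r x
    · intro γ γ' x
      apply Subtype.ext
      rw [hdn, hdn, hdn, hdn]
      exact hcomm γ γ' x
    · intro x
      have h2 := MPadcHA.eig_sub dl hleib θ N hst x x.2 (heig x)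
      have h3 : ∃ h : (x : M) ∈ N, (⟨x, h⟩ : N) ∈ AddSubgroup.closure {y : N | ∃ z : ℤ,
          ∑ γ, (X γ : MvPolynomial Γ κ) • dn γ y = (C ((z : κ) - θ) : MvPolynomial Γ κ) • y} := by
        refine AddSubgroup.closure_induction (p := fun y _ => ∃ h : y ∈ N,
          (⟨y, h⟩ : N) ∈ AddSubgroup.closure {y : N | ∃ z : ℤ,
          ∑ γ, (X γ : MvPolynomial Γ κ) • dn γ y = (C ((z : κ) - θ) : MvPolynomial Γ κ) • y}) ?_ ?_ ?_ ?_ h2
        · rintro y ⟨hy, z, hz⟩
          exact ⟨hy, AddSubgroup.subset_closure ⟨z, htr hy hz⟩⟩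
        · exact ⟨N.zero_mem, zero_mem _⟩
        · rintro y z _ _ ⟨hy, hy'⟩ ⟨hz, hz'⟩
          exact ⟨N.add_mem hy hz, add_mem hy' hz'⟩
        · rintro y _ ⟨hy, hy'⟩
          exact ⟨N.neg_mem hy, neg_mem hy'⟩
      obtain ⟨h, h4⟩ := h3
      exact h4
    · refine eq_top_iff.2 fun x _ => ?_
      have h1 : (x : M) ∈ Submodule.span (MvPolynomial Γ κ) {y : M | ∃ z : ℤ, (∀ n : ℕ, (z : κ) - θ ≠ n) ∧
          ∑ γ, (X γ : MvPolynomial Γ κ) • dl γ y = (C ((z : κ) - θ) : MvPolynomial Γ κ) • y} := hN ▸ x.2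
      have h3 : ∃ h : (x : M) ∈ N, (⟨x, h⟩ : N) ∈ Submodule.span (MvPolynomial Γ κ) {y : N | ∃ z : ℤ,
          (∀ n : ℕ, (z : κ) - θ ≠ n) ∧
          ∑ γ, (X γ : MvPolynomial Γ κ) • dn γ y = (C ((z : κ) - θ) : MvPolynomial Γ κ) • y} := by
        refine Submodule.span_induction (p := fun y _ => ∃ h : y ∈ N,
          (⟨y, h⟩ : N) ∈ Submodule.span (MvPolynomial Γ κ) {y : N | ∃ z : ℤ, (∀ n : ℕ, (z : κ) - θ ≠ n) ∧
          ∑ γ, (X γ : MvPolynomial Γ κ) • dn γ y = (C ((z : κ) - θ) : MvPolynomial Γ κ) • y}) ?_ ?_ ?_ ?_ h1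
        · rintro y ⟨z, hz1, hz2⟩
          have hy : y ∈ N := hN ▸ Submodule.subset_span ⟨z, hz1, hz2⟩
          exact ⟨hy, Submodule.subset_span ⟨z, hz1, htr hy hz2⟩⟩
        · exact ⟨N.zero_mem, Submodule.zero_mem _⟩
        · rintro y z _ _ ⟨hy, hy'⟩ ⟨hz, hz'⟩
          exact ⟨N.add_mem hy hz, Submodule.add_mem _ hy' hz'⟩
        · rintro r y _ ⟨hy, hy'⟩
          exact ⟨N.smul_mem r hy, Submodule.smul_mem _ r hy'⟩
      obtain ⟨h, h4⟩ := h3
      exact h4
  exact congrArg Subtype.val (hz ⟨x, hx⟩)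

/-- In a finitely generated module with commuting operators `dl γ` over `∂ / ∂ a_γ`, such that `∑ a_γ dl γ` is
diagonalizable with integral eigenvalues, the vectors of eigenvalue `0` are flat. -/
theorem low_zero {M : Type u} [AddCommGroup M] [Module (MvPolynomial Γ κ) M]
    (hfg : Module.Finite (MvPolynomial Γ κ) M) (dl : Γ → M →+ M)
    (hleib : ∀ γ (r : MvPolynomial Γ κ) x, dl γ (r • x) = pderiv γ r • x + r • dl γ x)
    (hcomm : ∀ γ γ' x, dl γ (dl γ' x) = dl γ' (dl γ x)) (θ : κ) (z₀ : ℤ) (hθ : θ = z₀)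
    (heig : ∀ x : M, x ∈ AddSubgroup.closure {y : M | ∃ z : ℤ,
      ∑ γ, (X γ : MvPolynomial Γ κ) • dl γ y = (C ((z : κ) - θ) : MvPolynomial Γ κ) • y})
    {y : M} (hy : ∑ γ, (X γ : MvPolynomial Γ κ) • dl γ y = 0) (γ : Γ) : dl γ y = 0 := by
  have h1 : ∑ γ, (X γ : MvPolynomial Γ κ) • dl γ y = (C (0 : κ) : MvPolynomial Γ κ) • y := by
    rw [hy, C_0, zero_smul]
  have h2 := V6C_dl dl hleib hcomm h1 γ
  refine V6C_sub hfg dl hleib hcomm θ heig _ rfl (Submodule.subset_span ⟨z₀ - 1, fun n hn => ?_, ?_⟩)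
  · rw [hθ] at hn
    push_cast at hn
    have h3 : ((n + 1 : ℕ) : κ) = 0 := by
      push_cast
      rw [← hn]
      ring
    exact absurd (Nat.cast_eq_zero.1 h3) (Nat.succ_ne_zero n)
  · rw [h2, hθ]
    congr 2
    push_cast
    ring

end MPadcHS
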