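import Pool.Agent.Lib.MP_adc574_ag_HS.V6B
import Pool.Agent.Lib.MP_adc574_ag_HS.V6C

/-!
# JOB V6D (HS): no flat vectors in the quotient by the fixed part

`R = MvPolynomial Γ κ`. `T` a stable subspace which contains the flat vectors of `MM` (`hfl`). Claim: `x ∈ H` with `nab γ x ∈ T` for all `γ` is in `T`. (`r • t ∈ T` for `t ∈ T`, `r ∈ R`: `algebraMap_smul`.)
Suppose `x ∉ T` (so `T ≠ ⊤`). (U) If `r • x ∈ T`, `r ∈ R`, then `r = 0` (`algebraMap R K r ≠ 0` is invertible). `(N₀) := T.restrictScalars R ⊓ MM G m c` is f.g. (`irr_fg`, V6B).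
1. `I := {r ∈ R | ∃ u ∈ MM, ∃ t ∈ T, r • x = u + t}` is an ideal, nonzero (`EE_spn`, `EE_le_MM`, V6A), stable under every `pderiv γ`: `nab γ (r • x) = pderiv γ r • x + r • nab γ x` (`nab_smul`) `= nab γ u + nab γ t`. A nonzero ideal of `R` stable under all `pderiv γ` contains `1`: take `r ≠ 0` in `I` of minimal total degree; if `totalDegree r > 0` then some `pderiv γ r ≠ 0` (characteristic 0) has a smaller total degree; so `r` is a constant `≠ 0`. (Or induct on the total degree.) So `x = u + t`, `u ∈ MM`, `t ∈ T`.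
2. `N := {u ∈ MM | ∃ r, u - r • x ∈ T}` (an `R`-submodule). It is f.g.: `N₀ ≤ N` and the map `N → R`, `u ↦ r` (unique by (U)), is `R`-linear with kernel `N₀`; its image is an ideal, f.g. (`R` is Noetherian): `Submodule.fg_of_fg_map_of_fg_inf_ker` or: `N = N₀ ⊔ span {finitely many preimages of generators of the image}`.
   `N` is stable: `u - r • x = t`: `nab γ u - pderiv γ r • x = r • nab γ x + nab γ t ∈ T`, `nab γ u ∈ MM` (`nab_MM`).
3. `low_zero` (V6C) for `M = ↥N` (`dl γ` = restriction of `nab γ`, `hleib` from `nab_smul`, `hcomm` from `hC.comm`, `θ = G.θ = z₀`; `heig`: for `u ∈ N ≤ MM` by `MM_eig` (V6A) `u` is a sum of eigenvectors in `MM`, by `MPadcHA.eig_sub` with `N` a sum of eigenvectors in `N`; transport to the subtype by `AddSubgroup.closure_induction`, as in `HCon_sub`/`HCon_quot` in HA/HCon.lean).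
   So: `y ∈ N`, `∑ γ, X γ • nab γ y = 0` implies `nab γ y = 0` for all `γ`.
4. For `u` in the additive closure of the eigenvectors `y ∈ N` (`∑ γ, X γ • nab γ y = C (z - G.θ) • y`) there are `r : R` and `u' ∈ N` with `u - r • x ∈ T`, `nab γ u' = 0` for all `γ`, `u' - C (constantCoeff r) • x ∈ T`. Closure induction: sums and negatives clear. Eigenvector `y`, `y - r • x ∈ T`, eigenvalue `l = z - G.θ`: applying `nab γ`: `nab γ y - pderiv γ r • x ∈ T`.
   If `l = 0`: `nab γ y = 0` (3.), `u' := y`; `pderiv γ r • x ∈ T`, so `pderiv γ r = 0` for all `γ` (U), so `r = C (constantCoeff r)` (characteristic 0). If `l ≠ 0`: `u' := 0`: `∑ X γ • nab γ y - C l • y = 0`, so `(∑ X γ * pderiv γ r - C l * r) • x ∈ T`, so it is `0` by (U); its constant coefficient is `- l * constantCoeff r`, so `constantCoeff r = 0`.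
5. Apply 4. to `u` of 1.: `u - 1 • x = -t ∈ T`, so `r = 1` (U) and `u' - x ∈ T` with `u' ∈ MM` flat: `u' ∈ T` by `hfl`; so `x ∈ T`.
-/

set_option autoImplicit false
set_option linter.unusedSectionVars false

namespace MPadcHS

open MvPolynomial TensorProduct MPadcDC

universe u

section main

variable {κ : Type u} [Field κ] [CharZero κ] {Γ : Type} [Fintype Γ] [DecidableEq Γ] {V : Type u}
  [AddCommGroup V] [Module κ V] {K : Type u} [Field K] [Algebra (MvPolynomial Γ κ) K]
  [IsFractionRing (MvPolynomial Γ κ) K] {H : Type u} [AddCommGroup H] [Module K H]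
  [Module (MvPolynomial Γ κ) H] [IsScalarTower (MvPolynomial Γ κ) K H]
  {G : Cx κ Γ V} {m : ℕ} {P : Ideal (MvPolynomial Γ κ)} {k₀ : ℕ} {dK : Γ → Derivation ℤ K K}
  {nab : Γ → H →+ H} {c : V →+ H}

/-- A polynomial whose partial derivatives vanish is constant. -/
private theorem V6D_const {r : MvPolynomial Γ κ} (h : ∀ γ, pderiv γ r = 0) : r = C (constantCoeff r) := by
  classical
  ext d
  rw [coeff_C]
  split_ifs with h0
  · subst h0
    rfl
  · obtain ⟨γ, hγ⟩ : ∃ γ, d γ ≠ 0 := by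
      by_contra hcon
      push Not at hcon
      exact h0 (Finsupp.ext fun γ => (hcon γ).symm)
    have h1 := coeff_pderiv (i := γ) r (d - Finsupp.single γ 1)
    have h2 : d - Finsupp.single γ 1 + Finsupp.single γ 1 = d := Finsupp.sub_add_single_one_cancel hγ
    rw [h γ, coeff_zero, h2] at h1
    have h3 : (((d - Finsupp.single γ 1 : Γ →₀ ℕ) γ : κ) + 1) ≠ 0 := Nat.cast_add_one_ne_zero _
    exact (mul_eq_zero.1 h1.symm).resolve_right h3

private theorem V6D_deg {r : MvPolynomial Γ κ} {γ : Γ} (h : pderiv γ r ≠ 0) :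
    (pderiv γ r).totalDegree < r.totalDegree := by
  classical
  obtain ⟨d, hd, hd'⟩ := Finset.exists_mem_eq_sup (pderiv γ r).support
    (Finset.nonempty_of_ne_empty fun h0 => h (support_eq_empty.1 h0)) (fun s => s.sum fun _ e => e)
  have h1 : d + Finsupp.single γ 1 ∈ r.support := by
    rw [mem_support_iff] at hd ⊢
    intro h0
    rw [coeff_pderiv, h0, zero_mul] at hd
    exact hd rfl
  have h2 := le_totalDegree h1
  have h3 : ((d + Finsupp.single γ 1).sum fun _ e => e) = (d.sum fun _ e => e) + 1 := by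
    rw [Finsupp.sum_add_index' (fun _ => rfl) (fun _ _ _ => rfl), Finsupp.sum_single_index rfl]
  rw [h3] at h2
  have h4 : (pderiv γ r).totalDegree = d.sum fun _ e => e := hd'
  omega

/-- A nonzero ideal which is stable under the partial derivatives is everything. -/
theorem ideal_pderiv {I : Ideal (MvPolynomial Γ κ)} (h0 : I ≠ ⊥) (h : ∀ γ, ∀ r ∈ I, pderiv γ r ∈ I) : I = ⊤ := by
  classical
  have key : ∀ n : ℕ, ∀ r ∈ I, r ≠ 0 → r.totalDegree = n → I = ⊤ := by
    intro n
    induction n using Nat.strong_induction_on with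
    | _ n ih =>
      intro r hr hr0 hn
      by_cases h1 : ∀ γ, pderiv γ r = 0
      · have h2 := V6D_const h1
        have h3 : constantCoeff r ≠ 0 := fun h3 => hr0 (by rw [h2, h3, map_zero])
        refine Ideal.eq_top_of_isUnit_mem I hr ?_
        rw [h2]
        exact (IsUnit.mk0 _ h3).map C
      · push Not at h1
        obtain ⟨γ, hγ⟩ := h1
        exact ih _ (hn ▸ V6D_deg hγ) _ (h γ r hr) hγ rfl
  obtain ⟨r, hr, hr0⟩ := (Submodule.ne_bot_iff _).1 h0
  exact key _ r hr hr0 rfl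

/-- No flat vectors in the quotient by the fixed part. -/
theorem noflat_quot (hG : G.Ok0) (hB : G.Bad m P k₀) (hC : Con G m dK nab c)
    (hneg : ∀ k, ∀ x ∈ G.Vd (m + 1) k, (∃ n : ℕ, -(G.θ + k) = n) → c x = 0) (z₀ : ℤ) (hθ : G.θ = z₀)
    (T : Submodule K H) (hst : ∀ γ, ∀ x ∈ T, nab γ x ∈ T)
    (hfl : ∀ x ∈ MM G m c, (∀ γ, nab γ x = 0) → x ∈ T) (x : H) (hx : ∀ γ, nab γ x ∈ T) : x ∈ T := by
  classical
  by_contra hxT
  have hTne : T ≠ ⊤ := fun h => hxT (h ▸ Submodule.mem_top)
  let T' : Submodule (MvPolynomial Γ κ) H := T.restrictScalars (MvPolynomial Γ κ)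
  have hT' : ∀ y, y ∈ T' ↔ y ∈ T := fun y => Iff.rfl
  have hTs : ∀ (r : MvPolynomial Γ κ) (t : H), t ∈ T → r • t ∈ T := fun r t ht => T'.smul_mem r ht
  have hinj : Function.Injective (algebraMap (MvPolynomial Γ κ) K) := IsFractionRing.injective _ _
  have hU : ∀ r : MvPolynomial Γ κ, r • x ∈ T → r = 0 := by
    intro r hr
    by_contra h0
    have h1 : algebraMap (MvPolynomial Γ κ) K r ≠ 0 := fun h => h0 ((map_eq_zero_iff _ hinj).1 h)
    apply hxT
    have h2 := T.smul_mem (algebraMap (MvPolynomial Γ κ) K r)⁻¹ hr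
    rwa [← algebraMap_smul K r x, smul_smul, inv_mul_cancel₀ h1, one_smul] at h2
  -- step 1
  have hxu : ∃ u ∈ MM G m c, ∃ t ∈ T, u + t = x := by
    let I : Ideal (MvPolynomial Γ κ) :=
      (MM G m c ⊔ T').comap (LinearMap.toSpanSingleton (MvPolynomial Γ κ) H x)
    have memI : ∀ r, r ∈ I ↔ ∃ u ∈ MM G m c, ∃ t ∈ T, u + t = r • x := by
      intro r
      show LinearMap.toSpanSingleton (MvPolynomial Γ κ) H x r ∈ MM G m c ⊔ T' ↔ _
      rw [LinearMap.toSpanSingleton_apply, Submodule.mem_sup]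
      exact Iff.rfl
    have hI0 : I ≠ ⊥ := by
      obtain ⟨r, hr, hr'⟩ := EE_spn hG hB hC x
      exact (Submodule.ne_bot_iff _).2
        ⟨r, (memI r).2 ⟨r • x, EE_le_MM k₀ hr', 0, T.zero_mem, add_zero _⟩, hr⟩
    have hId : ∀ γ, ∀ r ∈ I, pderiv γ r ∈ I := by
      intro γ r hr
      obtain ⟨u, hu, t, ht, h⟩ := (memI r).1 hr
      refine (memI _).2 ⟨nab γ u, nab_MM hG hC γ hu, nab γ t - r • nab γ x,
        T.sub_mem (hst γ t ht) (hTs r _ (hx γ)), ?_⟩
      have h1 := nab_smul hC γ r x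
      rw [← h, map_add] at h1
      rw [← add_sub_assoc, h1, add_sub_cancel_right]
    have h1 : (1 : MvPolynomial Γ κ) ∈ I := by
      rw [ideal_pderiv hI0 hId]
      trivial
    obtain ⟨u, hu, t, ht, h⟩ := (memI 1).1 h1
    exact ⟨u, hu, t, ht, by rw [h, one_smul]⟩
  -- step 2
  let N : Submodule (MvPolynomial Γ κ) H :=
    MM G m c ⊓ (T' ⊔ Submodule.span (MvPolynomial Γ κ) {x})
  have memN : ∀ u, u ∈ N ↔ u ∈ MM G m c ∧ ∃ r : MvPolynomial Γ κ, u - r • x ∈ T := by
    intro u
    show u ∈ MM G m c ⊓ (T' ⊔ Submodule.span (MvPolynomial Γ κ) {x}) ↔ _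
    rw [Submodule.mem_inf, Submodule.mem_sup]
    refine and_congr_right fun _ => ⟨?_, ?_⟩
    · rintro ⟨t, ht, w, hw, h⟩
      obtain ⟨r, rfl⟩ := Submodule.mem_span_singleton.1 hw
      refine ⟨r, ?_⟩
      rw [← h, add_sub_cancel_right]
      exact ht
    · rintro ⟨r, hr⟩
      exact ⟨u - r • x, hr, r • x, Submodule.mem_span_singleton.2 ⟨r, rfl⟩, sub_add_cancel _ _⟩
  have hNM : N ≤ MM G m c := inf_le_left
  have hNst' : ∀ γ (u : H) (r : MvPolynomial Γ κ), u - r • x ∈ T → nab γ u - pderiv γ r • x ∈ T := by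
    intro γ u r h
    have h1 := T.add_mem (hst γ _ h) (hTs r _ (hx γ))
    rw [map_sub, nab_smul hC, ← sub_sub, sub_add_cancel] at h1
    exact h1
  have hNst : ∀ γ, ∀ u ∈ N, nab γ u ∈ N := by
    intro γ u hu
    obtain ⟨hu1, r, hr⟩ := (memN u).1 hu
    exact (memN _).2 ⟨nab_MM hG hC γ hu1, pderiv γ r, hNst' γ u r hr⟩
  have hNfg : N.FG := by
    refine Submodule.fg_of_fg_map_of_fg_inf_ker T'.mkQ ?_ ?_
    · have h1 : (Submodule.span (MvPolynomial Γ κ) {T'.mkQ x}).FG := Submodule.fg_span_singleton _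
      have h2 := isNoetherian_of_fg_of_noetherian _ h1
      refine isNoetherian_submodule.1 h2 _ ?_
      rintro _ ⟨u, hu, rfl⟩
      obtain ⟨-, r, hr⟩ := (memN u).1 hu
      refine Submodule.mem_span_singleton.2 ⟨r, ?_⟩
      rw [← map_smul, eq_comm, ← sub_eq_zero, ← map_sub, Submodule.mkQ_apply, Submodule.Quotient.mk_eq_zero]
      exact hr
    · have h1 : N ⊓ LinearMap.ker T'.mkQ = T.restrictScalars (MvPolynomial Γ κ) ⊓ MM G m c := by
        rw [Submodule.ker_mkQ]
        show MM G m c ⊓ (T' ⊔ Submodule.span (MvPolynomial Γ κ) {x}) ⊓ T' = T' ⊓ MM G m c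
        rw [inf_assoc, inf_eq_right.2 (le_sup_left : T' ≤ T' ⊔ Submodule.span (MvPolynomial Γ κ) {x}), inf_comm]
      rw [h1]
      exact irr_fg hG hB hC hneg T hst hTne
  -- step 3
  have heig : ∀ u ∈ N, u ∈ AddSubgroup.closure {y : H | y ∈ N ∧ ∃ z : ℤ,
      ∑ γ, (X γ : MvPolynomial Γ κ) • nab γ y = (C ((z : κ) - G.θ) : MvPolynomial Γ κ) • y} := by
    intro u hu
    have h1 : u ∈ AddSubgroup.closure {y : H | ∃ z : ℤ,
        ∑ γ, (X γ : MvPolynomial Γ κ) • nab γ y = (C ((z : κ) - G.θ) : MvPolynomial Γ κ) • y} :=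
      AddSubgroup.closure_mono (fun y hy => hy.2) (MM_eig hG hC (hNM hu))
    exact MPadcHA.eig_sub nab (nab_smul hC) G.θ N hNst u hu h1
  let dl : Γ → N →+ N := fun γ => AddMonoidHom.mk' (fun x => ⟨nab γ x, hNst γ x x.2⟩) (by
    intro a b
    apply Subtype.ext
    simp)
  have hdl : ∀ γ (x : N), ((dl γ x : N) : H) = nab γ x := fun γ x => rfl
  have hfin : Module.Finite (MvPolynomial Γ κ) N := Module.Finite.iff_fg.mpr hNfg
  have hlow : ∀ y ∈ N, ∑ γ, (X γ : MvPolynomial Γ κ) • nab γ y = 0 → ∀ γ, nab γ y = 0 := by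
    intro y hy hy0 γ
    have h0 : dl γ (⟨y, hy⟩ : N) = 0 := by
      refine low_zero hfin dl ?_ ?_ G.θ z₀ hθ ?_ ?_ γ
      · intro γ r x
        apply Subtype.ext
        rw [hdl]
        simp only [Submodule.coe_smul, Submodule.coe_add, hdl]
        exact nab_smul hC γ r x
      · intro γ γ' x
        apply Subtype.ext
        rw [hdl, hdl, hdl, hdl]
        exact hC.comm γ γ' x
      · intro x
        have h2 := heig x x.2
        have h3 : ∃ h : (x : H) ∈ N, (⟨x, h⟩ : N) ∈ AddSubgroup.closure {y : N | ∃ z : ℤ,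
            ∑ γ, (X γ : MvPolynomial Γ κ) • dl γ y = (C ((z : κ) - G.θ) : MvPolynomial Γ κ) • y} := by
          refine AddSubgroup.closure_induction (p := fun y _ => ∃ h : y ∈ N,
            (⟨y, h⟩ : N) ∈ AddSubgroup.closure {y : N | ∃ z : ℤ,
            ∑ γ, (X γ : MvPolynomial Γ κ) • dl γ y = (C ((z : κ) - G.θ) : MvPolynomial Γ κ) • y}) ?_ ?_ ?_ ?_ h2
          · rintro y ⟨hy, z, hz⟩
            refine ⟨hy, AddSubgroup.subset_closure ⟨z, ?_⟩⟩
            apply Subtype.ext
            rw [Submodule.coe_sum]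
            simpa only [Submodule.coe_smul, hdl] using hz
          · exact ⟨N.zero_mem, zero_mem _⟩
          · rintro y z _ _ ⟨hy, hy'⟩ ⟨hz, hz'⟩
            exact ⟨N.add_mem hy hz, add_mem hy' hz'⟩
          · rintro y _ ⟨hy, hy'⟩
            exact ⟨N.neg_mem hy, neg_mem hy'⟩
        obtain ⟨h, h4⟩ := h3
        exact h4
      · apply Subtype.ext
        rw [Submodule.coe_sum]
        simp only [Submodule.coe_smul, hdl]
        exact hy0
    rw [← hdl γ (⟨y, hy⟩ : N), h0]
    rfl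
  -- step 4
  have h4 : ∀ u ∈ AddSubgroup.closure {y : H | y ∈ N ∧ ∃ z : ℤ,
      ∑ γ, (X γ : MvPolynomial Γ κ) • nab γ y = (C ((z : κ) - G.θ) : MvPolynomial Γ κ) • y},
      ∃ r : MvPolynomial Γ κ, ∃ u' ∈ N, u - r • x ∈ T ∧ (∀ γ, nab γ u' = 0) ∧
        u' - (C (constantCoeff r) : MvPolynomial Γ κ) • x ∈ T := by
    intro u hu
    induction hu using AddSubgroup.closure_induction with
    | mem y hy =>
      obtain ⟨hyN, z, hz⟩ := hy
      obtain ⟨-, r, hr⟩ := (memN y).1 hyN
      by_cases hl : (z : κ) - G.θ = 0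
      · rw [hl, map_zero, zero_smul] at hz
        have h1 := hlow y hyN hz
        have h2 : ∀ γ, pderiv γ r = 0 := by
          intro γ
          apply hU
          have h3 := hNst' γ y r hr
          rw [h1 γ, zero_sub] at h3
          exact (T.neg_mem_iff).1 h3
        refine ⟨r, y, hyN, hr, h1, ?_⟩
        rw [← V6D_const h2]
        exact hr
      · have h1 : (∑ γ, X γ * pderiv γ r - C ((z : κ) - G.θ) * r) • x ∈ T := by
          have h2 : ∑ γ, (X γ : MvPolynomial Γ κ) • (nab γ y - pderiv γ r • x) ∈ T :=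
            T.sum_mem fun γ _ => hTs _ _ (hNst' γ y r hr)
          have h3 : ∑ γ, (X γ : MvPolynomial Γ κ) • (nab γ y - pderiv γ r • x) =
              (C ((z : κ) - G.θ) : MvPolynomial Γ κ) • y - (∑ γ, X γ * pderiv γ r) • x := by
            rw [← hz, Finset.sum_smul, ← Finset.sum_sub_distrib]
            refine Finset.sum_congr rfl fun γ _ => ?_
            rw [smul_sub, smul_smul]
          rw [h3] at h2
          have h5 := T.sub_mem (hTs (C ((z : κ) - G.θ)) _ hr) h2
          have h6 : (C ((z : κ) - G.θ) : MvPolynomial Γ κ) • (y - r • x) -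
              ((C ((z : κ) - G.θ) : MvPolynomial Γ κ) • y - (∑ γ, X γ * pderiv γ r) • x) =
              (∑ γ, X γ * pderiv γ r - C ((z : κ) - G.θ) * r) • x := by
            rw [smul_sub, smul_smul, sub_smul]
            abel
          rw [h6] at h5
          exact h5
        have h2 := congrArg constantCoeff (hU _ h1)
        have h3 : constantCoeff (∑ γ, X γ * pderiv γ r - C ((z : κ) - G.θ) * r) =
            -(((z : κ) - G.θ) * constantCoeff r) := by
          rw [map_sub, map_sum, map_mul, constantCoeff_C]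
          have h5 : ∑ γ, constantCoeff (X γ * pderiv γ r) = 0 := by
            refine Finset.sum_eq_zero fun γ _ => ?_
            rw [map_mul, constantCoeff_X, zero_mul]
          rw [h5, zero_sub]
        rw [h3, map_zero, neg_eq_zero] at h2
        have h5 : constantCoeff r = 0 := (mul_eq_zero.1 h2).resolve_left hl
        refine ⟨r, 0, N.zero_mem, hr, fun γ => map_zero _, ?_⟩
        rw [h5, map_zero, zero_smul, sub_zero]
        exact T.zero_mem
    | zero =>
      refine ⟨0, 0, N.zero_mem, ?_, fun γ => map_zero _, ?_⟩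
      · rw [zero_smul, sub_zero]
        exact T.zero_mem
      · rw [map_zero, map_zero, zero_smul, sub_zero]
        exact T.zero_mem
    | add a b _ _ ha hb =>
      obtain ⟨r, u, hu, h1, h2, h3⟩ := ha
      obtain ⟨r', u', hu', h1', h2', h3'⟩ := hb
      refine ⟨r + r', u + u', N.add_mem hu hu', ?_, fun γ => by rw [map_add, h2, h2', add_zero], ?_⟩
      · rw [add_smul, add_sub_add_comm]
        exact T.add_mem h1 h1'
      · rw [map_add, map_add, add_smul, add_sub_add_comm]
        exact T.add_mem h3 h3'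
    | neg a _ ha =>
      obtain ⟨r, u, hu, h1, h2, h3⟩ := ha
      refine ⟨-r, -u, N.neg_mem hu, ?_, fun γ => by rw [map_neg, h2, neg_zero], ?_⟩
      · rw [neg_smul, ← neg_sub']
        exact T.neg_mem h1
      · rw [map_neg, map_neg, neg_smul, ← neg_sub']
        exact T.neg_mem h3
  -- step 5
  obtain ⟨u, hu, t, ht, hut⟩ := hxu
  have h5 : u - (1 : MvPolynomial Γ κ) • x ∈ T := by
    rw [one_smul, ← hut, sub_add_cancel_left]
    exact T.neg_mem ht
  have huN : u ∈ N := (memN u).2 ⟨hu, 1, h5⟩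
  obtain ⟨r, u', hu', h1, h2, h3⟩ := h4 u (heig u huN)
  have h6 : r = 1 := by
    have h7 : (r - 1) • x ∈ T := by
      have h8 := T.sub_mem h5 h1
      rw [sub_sub_sub_cancel_left, ← sub_smul] at h8
      exact h8
    exact sub_eq_zero.1 (hU _ h7)
  rw [h6, map_one, C_1, one_smul] at h3
  have h7 := T.sub_mem (hfl u' (hNM hu') h2) h3
  rw [sub_sub_cancel] at h7
  exact hxT h7

end main

end MPadcHS
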