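import Pool.Agent.Lib.MP_adc574_ag_HA.HCon
import Pool.Agent.Lib.MP_adc574_ag_HA.HLPos

/-!
# JOB V6E (HS): the position theorem in the quotient by a stable subspace without flat vectors in the quotient

`H' := H ⧸ T` with `nab' γ (mk x) = mk (nab γ x)` (well defined as `T` is stable; `QuotientAddGroup.map` or as `hwd`, `dq` in `HCon_quot` in HA/HCon.lean) and `c' := mk ∘ c` (`T.mkQ.toAddMonoidHom.comp c`). The `R`-module structure on `H ⧸ T` is `Submodule.Quotient.module'`, and `IsScalarTower R K (H ⧸ T)` is an instance or follows from `Submodule.Quotient.mk_smul` (`R = MvPolynomial Γ κ`).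
* `con_qt`: all fields of `Con` for `nab'`, `c'` follow from those for `nab`, `c` by applying `T.mkQ` (for `x' ∈ H'` take a preimage; `span`: `Submodule.map_span`, i.e. `mkQ` of the span is in the span of the images).
* `keypos_quot`: `hfl : ∀ x, (∀ γ, nab γ x ∈ T) → x ∈ T` says that `H'` has no flat vector `≠ 0`: `MPadcHA.conR_of_flat hG (con_qt ..) hneg' hfl'` (`hneg'` from `hneg`). `cv' v := T.liftQ (cv v) _ : H' →ₗ[K] L` (`hc0`), `f' u := mk (f u)`: linearly independent over `K` by `hf` (`Fintype.linearIndependent_iff`: `∑ lam u • mk (f u) = 0` gives `∑ lam u • f u ∈ T`).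
  `e : g ≃ Fin N := Fintype.equivFin g`; apply `MPadcHA.keypos` to `cv' ∘ e.symm`, `f' ∘ e.symm` (`hci`, `hst` transported by `Equiv.sum_comp`), and `Matrix.det_submatrix_equiv_self e.symm`.
-/

set_option autoImplicit false
set_option linter.unusedSectionVars false

namespace MPadcHS

open MvPolynomial TensorProduct MPadcDC

universe u

section main

variable {κ : Type u} [Field κ] [CharZero κ] {Γ : Type} [Fintype Γ] [DecidableEq Γ] {V : Type u}
  [AddCommGroup V] [Module κ V] {K : Type u} [Field K] [Algebra (MvPolynomial Γ κ) K]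
  [IsFractionRing (MvPolynomial Γ κ) K] {H : Type u} [AddCommGroup H] [Module K H]
  [Module (MvPolynomial Γ κ) H] [IsScalarTower (MvPolynomial Γ κ) K H]
  {G : Cx κ Γ V} {m : ℕ} {P : Ideal (MvPolynomial Γ κ)} {k₀ : ℕ} {dK : Γ → Derivation ℤ K K}
  {nab : Γ → H →+ H} {c : V →+ H}

theorem con_qt (hC : Con G m dK nab c) (T : Submodule K H) (nab' : Γ → (H ⧸ T) →+ (H ⧸ T))
    (hn : ∀ γ x, nab' γ (T.mkQ x) = T.mkQ (nab γ x)) :
    Con G m dK nab' ((T.mkQ : H →ₗ[K] H ⧸ T).toAddMonoidHom.comp c) := by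
  have hc : ∀ v, ((T.mkQ : H →ₗ[K] H ⧸ T).toAddMonoidHom.comp c) v = T.mkQ (c v) := fun _ => rfl
  have hsur : ∀ q : H ⧸ T, ∃ x : H, T.mkQ x = q := fun q => T.mkQ_surjective q
  refine ⟨hC.dK_alg, ?_, ?_, ?_, ?_, ?_, ?_, ?_⟩
  · intro γ f q
    obtain ⟨x, rfl⟩ := hsur q
    rw [← map_smul, hn, hC.leib, map_add, map_smul, map_smul, hn]
  · intro γ γ' q
    obtain ⟨x, rfl⟩ := hsur q
    rw [hn, hn, hn, hn, hC.comm]
  · intro a v
    rw [hc, hc, hC.smul, map_smul]
  · intro q
    obtain ⟨x, rfl⟩ := hsur q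
    have h1 : T.mkQ x ∈ (Submodule.span K {y | ∃ k, ∃ v ∈ G.Vd (m + 1) k, c v = y}).map T.mkQ :=
      Submodule.mem_map_of_mem (hC.span x)
    rw [Submodule.map_span] at h1
    refine Submodule.span_mono ?_ h1
    rintro _ ⟨_, ⟨k, v, hv, rfl⟩, rfl⟩
    exact ⟨k, v, hv, rfl⟩
  · intro γ k v hv
    rw [hc, hc, hn, hC.nabc γ k v hv]
  · intro k v hv
    have h1 := congrArg T.mkQ (hC.rel k v hv)
    rw [map_add, map_sum, map_zero] at h1
    simp only [map_smul] at h1
    exact h1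
  · intro k v hv
    have h1 := congrArg T.mkQ (hC.eul k v hv)
    rw [map_neg, map_sum] at h1
    simp only [map_smul] at h1
    exact h1

theorem keypos_quot (hG : G.Ok0) (hB : G.Bad m P k₀) (hC : Con G m dK nab c)
    (hneg : ∀ k, ∀ x ∈ G.Vd (m + 1) k, (∃ n : ℕ, -(G.θ + k) = n) → c x = 0)
    (T : Submodule K H) (hst : ∀ γ, ∀ x ∈ T, nab γ x ∈ T) (hfl : ∀ x, (∀ γ, nab γ x ∈ T) → x ∈ T)
    {L : Type u} [Field L] [Algebra K L] (hcl : ∀ x : L, IsAlgebraic K x → x ∈ (algebraMap K L).range)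
    (DL : Γ → Derivation ℤ L L) (hDL : ∀ γ x, DL γ (algebraMap K L x) = algebraMap K L (dK γ x))
    {g : Type} [Fintype g] [DecidableEq g] (cv : g → H →ₗ[K] L) (hc0 : ∀ v, ∀ x ∈ T, cv v x = 0)
    (hci : ∀ lam : g → L, (∀ x, ∑ v, lam v * cv v x = 0) → lam = 0)
    (hcs : ∀ γ v, ∃ ν : g → L, ∀ x, DL γ (cv v x) = cv v (nab γ x) + ∑ v', ν v' * cv v' x)
    (f : g → H) (hf : ∀ lam : g → K, ∑ u, lam u • f u ∈ T → lam = 0) :
    (Matrix.of fun v u : g => cv v (f u)).det ≠ 0 := by
  classical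
  have hsur : ∀ q : H ⧸ T, ∃ x : H, T.mkQ x = q := fun q => T.mkQ_surjective q
  have hwd : ∀ γ (x y : H), T.mkQ x = T.mkQ y → T.mkQ (nab γ x) = T.mkQ (nab γ y) := by
    intro γ x y h
    rw [Submodule.mkQ_apply, Submodule.mkQ_apply, Submodule.Quotient.eq] at h ⊢
    rw [← map_sub]
    exact hst γ _ h
  choose s hs using hsur
  let nab' : Γ → (H ⧸ T) →+ (H ⧸ T) := fun γ => AddMonoidHom.mk' (fun q => T.mkQ (nab γ (s q))) (by
    intro a b
    show T.mkQ (nab γ (s (a + b))) = T.mkQ (nab γ (s a)) + T.mkQ (nab γ (s b))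
    rw [← map_add, ← map_add]
    apply hwd
    rw [hs, map_add, hs, hs])
  have hn : ∀ γ x, nab' γ (T.mkQ x) = T.mkQ (nab γ x) := by
    intro γ x
    show T.mkQ (nab γ (s (T.mkQ x))) = _
    exact hwd γ _ _ (hs _)
  have hC' := con_qt hC T nab' hn
  have hneg' : ∀ k, ∀ x ∈ G.Vd (m + 1) k, (∃ n : ℕ, -(G.θ + k) = n) →
      ((T.mkQ : H →ₗ[K] H ⧸ T).toAddMonoidHom.comp c) x = 0 := by
    intro k x hx hk
    show T.mkQ (c x) = 0
    rw [hneg k x hx hk, map_zero]
  have hfl' : ∀ q : H ⧸ T, (∀ γ, nab' γ q = 0) → q = 0 := by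
    intro q hq
    obtain ⟨x, rfl⟩ := T.mkQ_surjective q
    rw [Submodule.mkQ_apply, Submodule.Quotient.mk_eq_zero]
    apply hfl
    intro γ
    have h1 := hq γ
    rw [hn, Submodule.mkQ_apply, Submodule.Quotient.mk_eq_zero] at h1
    exact h1
  have hR := MPadcHA.conR_of_flat hG hC' hneg' hfl'
  let e : g ≃ Fin (Fintype.card g) := Fintype.equivFin g
  let cv' : Fin (Fintype.card g) → (H ⧸ T) →ₗ[K] L := fun i => T.liftQ (cv (e.symm i)) (fun x hx => by
    rw [LinearMap.mem_ker]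
    exact hc0 _ x hx)
  have hcv : ∀ i x, cv' i (T.mkQ x) = cv (e.symm i) x := by
    intro i x
    exact Submodule.liftQ_apply T (cv (e.symm i)) x
  have h := MPadcHA.keypos hG hB hR hcl DL hDL cv' ?_ ?_ (fun i => T.mkQ (f (e.symm i))) ?_
  · have h2 : (Matrix.of fun v u : Fin (Fintype.card g) => cv' v (T.mkQ (f (e.symm u)))) =
        (Matrix.of fun v u : g => cv v (f u)).submatrix e.symm e.symm := by
      ext i j
      simp only [Matrix.of_apply, Matrix.submatrix_apply]
      exact hcv _ _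
    rw [h2, Matrix.det_submatrix_equiv_self] at h
    exact h
  · intro lam hl
    have h1 : (fun v => lam (e v)) = 0 := by
      apply hci
      intro x
      have h2 := hl (T.mkQ x)
      simp only [hcv] at h2
      rw [← h2]
      refine Fintype.sum_equiv e _ _ ?_
      intro v
      rw [Equiv.symm_apply_apply]
    funext i
    have h3 := congrFun h1 (e.symm i)
    simp only [Equiv.apply_symm_apply] at h3
    exact h3
  · intro γ i
    obtain ⟨ν, hν⟩ := hcs γ (e.symm i)
    refine ⟨fun j => ν (e.symm j), ?_⟩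
    intro q
    obtain ⟨x, rfl⟩ := T.mkQ_surjective q
    rw [hn, hcv, hcv, hν]
    congr 1
    refine Fintype.sum_equiv e _ _ ?_
    intro v
    show ν v * cv v x = ν (e.symm (e v)) * cv' (e v) (T.mkQ x)
    rw [hcv, Equiv.symm_apply_apply]
  · rw [Fintype.linearIndependent_iff]
    intro lam hl i
    have h1 : (fun u => lam (e u)) = 0 := by
      apply hf
      rw [← Submodule.Quotient.mk_eq_zero, ← Submodule.mkQ_apply, map_sum, ← hl]
      refine Fintype.sum_equiv e _ _ ?_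
      intro u
      rw [map_smul, Equiv.symm_apply_apply]
    have h3 := congrFun h1 (e.symm i)
    simp only [Equiv.apply_symm_apply] at h3
    exact h3

end main

end MPadcHS
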