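import Pool.Agent.Lib.MP_adc574_ag_HS.VFF
import Pool.Agent.Lib.MP_adc574_ag_DC.GKosB

/-!
# JOB VFG (HS): exactness of `d + dF` on the charts of the cone

`P_j := (homogeneousComponent j) ⊗ 1` on `FG κ Γ C` (`LinearMap.rTensor`, `κ`-linear). `P_j (thG b * x) = thG b * P_{j-1} x` for `j ≥ 1`, `P_0 (thG b * x) = 0` (on `r ⊗ v`: `thG b * (r ⊗ v) = ∑ g, (X g * r) ⊗ (df (b g) * v)`, `homogeneousComponent (j + 1) (X g * r) = X g * homogeneousComponent j r`). `P_j` commutes with `ddl.baseChange`, maps `FdG q` to `FdG q` (write `x ∈ FdG q` as a sum of `r ⊗ v`, `v ∈ Fd q`: `Submodule.baseChange_eq_span`), `∑ j ∈ range N, P_j x = x` for large `N`, `P_i P_j = 0` for `i ≠ j`.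
* `exact_fra`: by induction on `N`: for all `x ∈ FdG q` with `P_j x = 0` for `j ≥ N` and `nG b x = 0` the claim holds. `N = 0`: `x = 0`, `y = 0`. `N + 1`: apply `P_{N+1}` to `nG b x = 0`: `d (P_{N+1} x) + thG b * P_N x = 0` and `P_{N+1} x = 0`: `thG b * P_N x = 0`.
  `q = 0`: `P_N x = 0` by `kosC_zero` (DC/GKosB.lean), so the induction hypothesis applies. `q = q' + 1`, `q' < m` (`q ≤ m`): `kosC`: `P_N x = thG b * y'`, `y' ∈ FdG q'`. If `N = 0`: `P_0 x = P_0 P_0 x = P_0 (thG b * y') = 0`: induction hypothesis. If `N = N' + 1`: `y₁ := P_{N'} y'`: `thG b * y₁ = P_N (thG b * y') = P_N x`. `x₁ := x - nG b y₁ = (x - P_N x) - d y₁` has `P_j x₁ = 0` for `j ≥ N` (`d y₁ = P_{N'} (d y')`), `x₁ ∈ FdG q`, `nG b x₁ = 0` (`nG b (nG b y) = 0`: `dd_dd`, `thG b * thG b = 0`-type identity, `d (thG b * y) = - thG b * d y`: prove `nG_nG` on `r ⊗ v`: `df_sq`/`df_swap` for the double sum and `dd_mul`, `dd_df`, `inv_df`). Induction gives `y₂`; `y = y₁ + y₂`.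
* `nG_exact`: choose `l ∈ C`. If `X l ∈ J`: `LR J C` is the zero ring (`lx J C l = 0` is a unit; as `GBaseC_LR_zero` in DC/GBaseC.lean), so all forms and all of `FG` are `0` (`x = 0`, `y = 0`). Otherwise `exists_fraC` (VFF) and `exact_fra` with `m + 2`.
-/

set_option autoImplicit false
set_option linter.unusedSectionVars false

namespace MPadcHS

open MvPolynomial TensorProduct MPadcGP MPadcDC

universe u

section aux

variable {κ : Type u} [Field κ] {Γ : Type} [Fintype Γ] {C : Type u} [CommRing C] [Algebra κ C]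

omit [Fintype Γ] in
private theorem VFG_X (g : Γ) (j : ℕ) (r : MvPolynomial Γ κ) :
    homogeneousComponent (j + 1) (X g * r) = X g * homogeneousComponent j r := by
  induction r using MvPolynomial.induction_on' with
  | monomial u a =>
    have h1 : (X g * monomial u a : MvPolynomial Γ κ) = monomial (Finsupp.single g 1 + u) a := by
      rw [X, monomial_mul, one_mul]
    have h2 : (Finsupp.single g 1 + u).degree = u.degree + 1 := by
      rw [map_add, Finsupp.degree_single, add_comm]
    rw [h1, homogeneousComponent_of_mem (isHomogeneous_monomial a h2), homogeneousComponent_of_mem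
      (isHomogeneous_monomial a rfl)]
    by_cases h3 : j = u.degree
    · rw [if_pos (congrArg (· + 1) h3), if_pos h3, h1]
    · rw [if_neg (fun h4 => h3 (Nat.succ_injective h4)), if_neg h3, mul_zero]
  | add p q hp hq => rw [mul_add, map_add, map_add, mul_add, hp, hq]

omit [Fintype Γ] in
private theorem VFG_X0 (g : Γ) (r : MvPolynomial Γ κ) : homogeneousComponent 0 (X g * r) = 0 := by
  induction r using MvPolynomial.induction_on' with
  | monomial u a =>
    have h1 : (X g * monomial u a : MvPolynomial Γ κ) = monomial (Finsupp.single g 1 + u) a := by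
      rw [X, monomial_mul, one_mul]
    have h2 : (Finsupp.single g 1 + u).degree = u.degree + 1 := by
      rw [map_add, Finsupp.degree_single, add_comm]
    rw [h1, homogeneousComponent_of_mem (isHomogeneous_monomial a h2), if_neg (Nat.succ_ne_zero _).symm]
  | add p q hp hq => rw [mul_add, map_add, hp, hq, add_zero]

/-- The component of degree `j` in the coefficients. -/
private noncomputable def VFG_P (j : ℕ) : FG κ Γ C →ₗ[κ] FG κ Γ C :=
  (homogeneousComponent j : MvPolynomial Γ κ →ₗ[κ] MvPolynomial Γ κ).rTensor (Fm κ C)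

/-- The exterior derivative. -/
private noncomputable def VFG_d : FG κ Γ C →ₗ[MvPolynomial Γ κ] FG κ Γ C :=
  (MPadcDC.ddl κ C).baseChange (MvPolynomial Γ κ)

omit [Fintype Γ] in
private theorem VFG_P_tmul (j : ℕ) (r : MvPolynomial Γ κ) (w : Fm κ C) :
    VFG_P j (r ⊗ₜ[κ] w : FG κ Γ C) = homogeneousComponent j r ⊗ₜ[κ] w := rfl

omit [Fintype Γ] in
private theorem VFG_d_tmul (r : MvPolynomial Γ κ) (w : Fm κ C) :
    VFG_d (r ⊗ₜ[κ] w : FG κ Γ C) = r ⊗ₜ[κ] dd κ w := rfl

private theorem VFG_th_tmul (b : Γ → C) (r : MvPolynomial Γ κ) (w : Fm κ C) :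
    thG κ b * (r ⊗ₜ[κ] w : FG κ Γ C) = ∑ g, (X g * r) ⊗ₜ[κ] (df κ (b g) * w) := by
  rw [thG, Finset.sum_mul]
  exact Finset.sum_congr rfl fun g _ => Algebra.TensorProduct.tmul_mul_tmul _ _ _ _

omit [Fintype Γ] in
private theorem VFG_Pd (j : ℕ) (x : FG κ Γ C) : VFG_P j (VFG_d x) = VFG_d (VFG_P j x) := by
  induction x using TensorProduct.induction_on with
  | zero => simp only [map_zero]
  | tmul r w => rw [VFG_d_tmul, VFG_P_tmul, VFG_P_tmul, VFG_d_tmul]
  | add x y hx hy => simp only [map_add, hx, hy]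

private theorem VFG_Pth (b : Γ → C) (j : ℕ) (x : FG κ Γ C) : VFG_P (j + 1) (thG κ b * x) = thG κ b * VFG_P j x := by
  induction x using TensorProduct.induction_on with
  | zero => simp only [map_zero, mul_zero]
  | tmul r w =>
    rw [VFG_P_tmul, VFG_th_tmul, VFG_th_tmul, map_sum]
    exact Finset.sum_congr rfl fun g _ => by rw [VFG_P_tmul, VFG_X]
  | add x y hx hy => simp only [map_add, mul_add, hx, hy]

private theorem VFG_P0 (b : Γ → C) (x : FG κ Γ C) : VFG_P 0 (thG κ b * x) = 0 := by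
  induction x using TensorProduct.induction_on with
  | zero => simp only [map_zero, mul_zero]
  | tmul r w =>
    rw [VFG_th_tmul, map_sum]
    exact Finset.sum_eq_zero fun g _ => by rw [VFG_P_tmul, VFG_X0, TensorProduct.zero_tmul]
  | add x y hx hy => simp only [map_add, mul_add, hx, hy, add_zero]

omit [Fintype Γ] in
private theorem VFG_PP (i j : ℕ) (x : FG κ Γ C) : VFG_P i (VFG_P j x) = if i = j then VFG_P j x else 0 := by
  induction x using TensorProduct.induction_on with
  | zero => simp only [map_zero, ite_self]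
  | tmul r w =>
    rw [VFG_P_tmul, VFG_P_tmul, homogeneousComponent_of_mem (homogeneousComponent_mem _ _)]
    split_ifs
    · rfl
    · exact TensorProduct.zero_tmul _ _
  | add x y hx hy =>
    rw [map_add, map_add, hx, hy]
    split_ifs
    · rfl
    · exact add_zero _

private theorem VFG_P_mem (j : ℕ) {q : ℕ} {x : FG κ Γ C} (hx : x ∈ FdG κ Γ (C := C) q) : VFG_P j x ∈ FdG κ Γ (C := C) q := by
  refine FdG_ind (P := fun w => VFG_P j w ∈ FdG κ Γ q) ?_ ?_ ?_ hx
  · rw [map_zero]
    exact Submodule.zero_mem _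
  · intro r c t
    rw [VFG_P_tmul]
    exact tmul_FdG _ (fz_mul_mem c (wd_mem t))
  · intro x y hx hy
    rw [map_add]
    exact Submodule.add_mem _ hx hy

private theorem VFG_d_mem {q : ℕ} {x : FG κ Γ C} (hx : x ∈ FdG κ Γ (C := C) q) : VFG_d x ∈ FdG κ Γ (C := C) (q + 1) := by
  refine FdG_ind (P := fun w => VFG_d w ∈ FdG κ Γ (q + 1)) ?_ ?_ ?_ hx
  · rw [map_zero]
    exact Submodule.zero_mem _
  · intro r c t
    rw [VFG_d_tmul]
    exact tmul_FdG _ (dd_mem (fz_mul_mem c (wd_mem t)))
  · intro x y hx hy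
    rw [map_add]
    exact Submodule.add_mem _ hx hy

omit [Fintype Γ] in
private theorem VFG_sum (x : FG κ Γ C) : ∃ N, ∀ M, N ≤ M → VFG_P M x = 0 ∧ ∑ j ∈ Finset.range M, VFG_P j x = x := by
  induction x using TensorProduct.induction_on with
  | zero => exact ⟨0, fun M _ => ⟨map_zero _, Finset.sum_eq_zero fun j _ => map_zero _⟩⟩
  | tmul r w =>
    have h1 : ∀ M, r.totalDegree + 1 ≤ M → homogeneousComponent M r = 0 := fun M hM =>
      homogeneousComponent_eq_zero _ _ hM
    refine ⟨r.totalDegree + 1, fun M hM => ⟨by rw [VFG_P_tmul, h1 M hM, TensorProduct.zero_tmul], ?_⟩⟩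
    have h2 : ∑ j ∈ Finset.range M, VFG_P j (r ⊗ₜ[κ] w : FG κ Γ C) =
        (∑ j ∈ Finset.range M, homogeneousComponent j r) ⊗ₜ[κ] w := by
      rw [TensorProduct.sum_tmul]
      rfl
    have h3 : ∑ j ∈ Finset.range M, homogeneousComponent j r = ∑ j ∈ Finset.range (r.totalDegree + 1),
        homogeneousComponent j r := by
      refine (Finset.sum_subset (Finset.range_mono hM) fun j _ hj => h1 j ?_).symm
      rw [Finset.mem_range, not_lt] at hj
      exact hj
    rw [h2, h3, sum_homogeneousComponent]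
  | add x y hx hy =>
    obtain ⟨N, hN⟩ := hx
    obtain ⟨N', hN'⟩ := hy
    refine ⟨N + N', fun M hM => ?_⟩
    obtain ⟨h1, h2⟩ := hN M (by omega)
    obtain ⟨h3, h4⟩ := hN' M (by omega)
    refine ⟨by rw [map_add, h1, h3, add_zero], ?_⟩
    simp only [map_add, Finset.sum_add_distrib, h2, h4]

omit [Fintype Γ] in
private theorem VFG_zero {x : FG κ Γ C} (h : ∀ j, VFG_P j x = 0) : x = 0 := by
  obtain ⟨N, hN⟩ := VFG_sum x
  rw [← (hN N (le_refl _)).2]
  exact Finset.sum_eq_zero fun j _ => h j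

private theorem VFG_dd (x : FG κ Γ C) : VFG_d (VFG_d x) = 0 := by
  induction x using TensorProduct.induction_on with
  | zero => simp only [map_zero]
  | tmul r w => rw [VFG_d_tmul, VFG_d_tmul, dd_dd, TensorProduct.tmul_zero]
  | add x y hx hy => simp only [map_add, hx, hy, add_zero]

private theorem VFG_dth (b : Γ → C) (x : FG κ Γ C) : VFG_d (thG κ b * x) = -(thG κ b * VFG_d x) := by
  induction x using TensorProduct.induction_on with
  | zero => simp only [map_zero, mul_zero, neg_zero]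
  | tmul r w =>
    rw [VFG_d_tmul, VFG_th_tmul, VFG_th_tmul, map_sum, ← Finset.sum_neg_distrib]
    refine Finset.sum_congr rfl fun g _ => ?_
    rw [VFG_d_tmul, dd_mul, dd_df, zero_mul, zero_add, inv_df, neg_mul, TensorProduct.tmul_neg]
  | add x y hx hy => simp only [map_add, mul_add, hx, hy, neg_add]

private theorem VFG_nG (b : Γ → C) (x : FG κ Γ C) : nG κ b x = VFG_d x + thG κ b * x := rfl

end aux

theorem nG_nG {κ : Type u} [Field κ] [CharZero κ] {Γ : Type} [Fintype Γ] [DecidableEq Γ] {C : Type u} [CommRing C]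
    [Algebra κ C] (b : Γ → C) (x : FG κ Γ C) : nG κ b (nG κ b x) = 0 := by
  rw [VFG_nG, VFG_nG, map_add, VFG_dd, VFG_dth, mul_add, ← mul_assoc, thG_sq, zero_mul, add_zero, zero_add,
    neg_add_cancel]

theorem exact_fra {κ : Type u} [Field κ] [CharZero κ] {Γ : Type} [Fintype Γ] [DecidableEq Γ] {C : Type u} [CommRing C]
    [Algebra κ C] {b : Γ → C} {D : Γ → Derivation κ C C} {m : ℕ} (hF : Fra κ b D m) {q : ℕ} (hq : q ≤ m)
    {x : FG κ Γ C} (hx : x ∈ FdG κ Γ (C := C) q) (h : nG κ b x = 0) :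
    ∃ y : FG κ Γ C, (∀ r, r + 1 = q → y ∈ FdG κ Γ (C := C) r) ∧ (q = 0 → y = 0) ∧ nG κ b y = x := by
  have key : ∀ (N : ℕ) (x : FG κ Γ C), x ∈ FdG κ Γ (C := C) q → (∀ j, N ≤ j → VFG_P j x = 0) → nG κ b x = 0 →
      ∃ y : FG κ Γ C, (∀ r, r + 1 = q → y ∈ FdG κ Γ (C := C) r) ∧ (q = 0 → y = 0) ∧ nG κ b y = x := by
    intro N
    induction N with
    | zero =>
      intro x _ h1 _
      have h2 : x = 0 := VFG_zero fun j => h1 j (Nat.zero_le _)
      exact ⟨0, fun r _ => Submodule.zero_mem _, fun _ => rfl, by rw [map_zero, h2]⟩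
    | succ N ih =>
      intro x hx h1 h2
      have h3 : thG κ b * VFG_P N x = 0 := by
        have h4 := congrArg (VFG_P (N + 1)) h2
        rw [map_zero, VFG_nG, map_add, VFG_Pd, VFG_Pth, h1 (N + 1) (le_refl _), map_zero, zero_add] at h4
        exact h4
      have h5 : VFG_P N x ∈ FdG κ Γ (C := C) q := VFG_P_mem N hx
      have h6 : VFG_P N x = 0 → ∀ j, N ≤ j → VFG_P j x = 0 := by
        intro h7 j hj
        rcases Nat.eq_or_lt_of_le hj with h8 | h8
        · rw [← h8]
          exact h7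
        · exact h1 j h8
      cases q with
      | zero => exact ih x hx (h6 (kosC_zero hF h5 h3)) h2
      | succ q =>
        obtain ⟨y', hy', hy2⟩ := kosC hF (Nat.lt_of_succ_le hq) h5 h3
        cases N with
        | zero =>
          refine ih x hx (h6 ?_) h2
          have h7 := VFG_PP 0 0 x
          rw [if_pos rfl] at h7
          rw [← h7, ← hy2, VFG_P0]
        | succ N =>
          have h7 : thG κ b * VFG_P N y' = VFG_P (N + 1) x := by
            rw [← VFG_Pth, hy2, VFG_PP, if_pos rfl]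
          have h8 : VFG_P N y' ∈ FdG κ Γ (C := C) q := VFG_P_mem N hy'
          obtain ⟨y₂, h9, -, h10⟩ := ih (x - nG κ b (VFG_P N y')) (by
            rw [VFG_nG]
            exact Submodule.sub_mem _ hx (Submodule.add_mem _ (VFG_d_mem h8) (thG_mul_mem b h8))) (by
            intro j hj
            have h11 : VFG_P j (VFG_P N y') = 0 := by
              rw [VFG_PP, if_neg (by omega)]
            rw [VFG_nG, map_sub, map_add, VFG_Pd, h11, map_zero, zero_add, h7, VFG_PP]
            by_cases h12 : j = N + 1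
            · rw [if_pos h12, h12, sub_self]
            · rw [if_neg h12, sub_zero]
              exact h1 j (by omega)) (by
            rw [map_sub, h2, nG_nG, sub_zero])
          refine ⟨VFG_P N y' + y₂, fun r hr => Submodule.add_mem _ ?_ (h9 r hr), fun h0 => absurd h0 (Nat.succ_ne_zero _), ?_⟩
          · have h13 : r = q := Nat.succ_injective hr
            rw [h13]
            exact h8
          · rw [map_add, h10, add_sub_cancel]
  obtain ⟨N, hN⟩ := VFG_sum x
  exact key N x hx (fun j hj => (hN j hj).1) h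

theorem nG_exact {κ : Type u} [Field κ] [CharZero κ] {n : ℕ} {J : Ideal (MvPolynomial (Fin n) κ)} {m : ℕ}
    (hJ : Good J (m + 2)) {C : Finset (Fin n)} (hC : C.Nonempty) {q : ℕ} (hq : q ≤ m + 2)
    {x : FG κ (Mon n 1) (LR J C)} (hx : x ∈ FdG κ (Mon n 1) (C := LR J C) q) (h : nG κ (bC J 1 C) x = 0) :
    ∃ y : FG κ (Mon n 1) (LR J C), (∀ r, r + 1 = q → y ∈ FdG κ (Mon n 1) (C := LR J C) r) ∧ (q = 0 → y = 0) ∧
      nG κ (bC J 1 C) y = x := by
  obtain ⟨l, hl⟩ := hC
  by_cases h1 : (X l : MvPolynomial (Fin n) κ) ∈ J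
  · have h2 : lx J C l = 0 := by
      unfold lx
      rw [Ideal.Quotient.eq_zero_iff_mem.2 h1, map_zero]
    have h3 : IsUnit (0 : LR J C) := h2 ▸ lx_isUnit J C hl
    have h4 : (0 : LR J C) = 1 := isUnit_zero_iff.1 h3
    have h5 : (1 : Fm κ (LR J C)) = 0 := by
      have h6 := congrArg (fz κ) h4
      rw [map_zero, map_one] at h6
      exact h6.symm
    have h6 : x = 0 := by
      have h7 : (1 : FG κ (Mon n 1) (LR J C)) = 0 := by
        rw [Algebra.TensorProduct.one_def, h5, TensorProduct.tmul_zero]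
      rw [← one_mul x, h7, zero_mul]
    exact ⟨0, fun r _ => Submodule.zero_mem _, fun _ => rfl, by rw [map_zero, h6]⟩
  · obtain ⟨D, hD⟩ := exists_fraC hJ h1 hl
    exact exact_fra hD hq hx h

end MPadcHS
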