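import Pool.Agent.Lib.MP_adc574_ag_HS.VFE
import Pool.Agent.Lib.MP_adc574_ag_HS.VFG
import Pool.Agent.Lib.MP_adc574_ag_HS.F8

/-!
# HS: flat vectors are restrictions
-/

set_option autoImplicit false
set_option linter.unusedSectionVars false

namespace MPadcHS

open MvPolynomial TensorProduct MPadcGP MPadcGP2 MPadcDC

universe u

variable {κ : Type u} [Field κ] [CharZero κ] {n : ℕ} {J : Ideal (MvPolynomial (Fin n) κ)} {K : Type u} [Field K]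
  [Algebra κ K] [Algebra (Ra κ n 1) K] [IsScalarTower κ (Ra κ n 1) K] [IsFractionRing (Ra κ n 1) K]

/-- Flat vectors of the lattice are restrictions. -/
theorem fp_sec {m : ℕ} (hJ : Good J (m + 2)) {dK : Mon n 1 → Derivation ℤ K K}
    (hdK : ∀ γ r, dK γ (algebraMap (Ra κ n 1) K r) = algebraMap (Ra κ n 1) K (pderiv γ r))
    {P : Ideal (MvPolynomial (Fin (n + 1)) K)}
    (hle : cyc (bI (algebraMap κ K) J) (frm (ak κ n 1 K)) 1 ≤ P)
    (hP : P = hyp (cyc (bI (algebraMap κ K) J) (frm (ak κ n 1 K)) 1))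
    (s : ↥((dzQ hle).Zz (m + 2)) →ₗ[K] (prC P).HdR (m + 1))
    (hs : ∀ (η : ↥((dzQ hle).Zz (m + 2))) (c : (dzQ hle).Y.Ch)
      (_ : (dzQ hle).ResR (m + 1) (η : (dzQ hle).Y.E {(dzQ hle).z}) c)
      (hc : (dzQ hle).rp c ∈ (prC P).Zc (m + 1)), s η = (prC P).cl (m + 1) ⟨_, hc⟩)
    (nab : Mon n 1 → ↥(LinearMap.range s) →+ ↥(LinearMap.range s)) (c : Fm κ (CR J) →+ ↥(LinearMap.range s))
    (hC : Con (cxS hJ.homog 1 1) (m + 2) dK nab c)
    (hZ : ∀ k, ∀ w ∈ (cxS hJ.homog 1 1).Vd (m + 3) k,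
      phK hJ.homog (ak κ n 1 K) (1 ⊗ₜ[κ] (cxS hJ.homog 1 1).io w) ∈ (dzQ hle).Zz (m + 2))
    (hcw : ∀ k w (hw : w ∈ (cxS hJ.homog 1 1).Vd (m + 3) k), (c w : (prC P).HdR (m + 1)) =
      algebraMap κ K ((cxS hJ.homog 1 1).lam k) • s ⟨_, hZ k w hw⟩)
    [Module (Ra κ n 1) ↥(LinearMap.range s)] [IsScalarTower (Ra κ n 1) K ↥(LinearMap.range s)]
    (u : ↥(LinearMap.range s)) (hu : u ∈ MM (cxS hJ.homog 1 1) (m + 2) c) (hf : ∀ γ, nab γ u = 0) :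
    (u : (prC P).HdR (m + 1)) ∈ Tr hle (m + 1) := by
  haveI : CharZero K := charZero_of_injective_algebraMap (algebraMap κ K).injective
  obtain ⟨cR, hcR⟩ := exists_cR hC
  obtain ⟨w, hw, rfl, hl⟩ := flat_loc hJ hC hcR hu hf
  exact fp_core hJ hle s hs c hZ hcw cR hcR hw hl fun C hCn q hq x hx h => nG_exact hJ hCn hq hx h

end MPadcHS
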