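import Pool.Agent.Lib.MP_adc574_ag_HS.V5E
import Pool.Agent.Lib.MP_adc574_ag_HS.V7S
import Pool.Agent.Lib.MP_adc574_ag_HS.V6D
import Pool.Agent.Lib.MP_adc574_ag_HS.V6E
import Pool.Agent.Lib.MP_adc574_ag_DC.DefsL

/-!
# HS: the position theorem for the generic hyperplane section
-/

set_option autoImplicit false
set_option linter.unusedSectionVars false

namespace MPadcHS

open MvPolynomial TensorProduct MPadcGP MPadcGP2 MPadcDC

universe u

/-- The image of the restriction is a subspace. -/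
theorem exists_tr {K : Type u} [CommRing K] {n : ℕ} {Q P : Ideal (MvPolynomial (Fin (n + 1)) K)} (hle : Q ≤ P)
    (m : ℕ) : ∃ T : Submodule K ((prC P).HdR m), ∀ x, x ∈ T ↔ x ∈ Tr hle m := by
  refine ⟨{ carrier := Tr hle m, add_mem' := ?_, zero_mem' := ?_, smul_mem' := ?_ }, fun x => Iff.rfl⟩
  · rintro x y ⟨x', c, c', hc, h1, h2⟩ ⟨y', e, e', he, h3, h4⟩
    refine ⟨x' + y', c + e, c' + e', ?_, ?_, ?_⟩
    · change (c' : (prC P).Ch) + (e' : (prC P).Ch) = (rsH hle).push ((c : (prC Q).Ch) + (e : (prC Q).Ch))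
      rw [hc, he, map_add]
    · rw [map_add, h1, h3]
    · rw [map_add, h2, h4]
  · refine ⟨0, 0, 0, ?_, map_zero _, map_zero _⟩
    change (0 : (prC P).Ch) = (rsH hle).push (0 : (prC Q).Ch)
    rw [map_zero]
  · rintro a x ⟨x', c, c', hc, h1, h2⟩
    refine ⟨a • x', a • c, a • c', ?_, ?_, ?_⟩
    · change a • (c' : (prC P).Ch) = (rsH hle).push (a • (c : (prC Q).Ch))
      rw [hc, CovD.Hm.push_smul, RingHom.id_apply]
    · rw [map_smul, h1]
    · rw [map_smul, h2]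

section

variable {κ : Type u} [Field κ] [CharZero κ] {n : ℕ} {J : Ideal (MvPolynomial (Fin n) κ)} {K : Type u} [Field K]
  [Algebra κ K] [Algebra (Ra κ n 1) K] [IsScalarTower κ (Ra κ n 1) K] [IsFractionRing (Ra κ n 1) K]

private theorem V7A_aux {m : ℕ} (hJ : Good J (m + 2)) {DK : Mon n 1 → Derivation ℤ K K}
    (hDK : ∀ γ r, DK γ (algebraMap (Ra κ n 1) K r) = algebraMap (Ra κ n 1) K (pderiv γ r))
    (Q P : Ideal (MvPolynomial (Fin (n + 1)) K)) (hle : Q ≤ P)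
    (hQ : Q = cyc (bI (algebraMap κ K) J) (frm (ak κ n 1 K)) 1) (hP : P = hyp Q) :
    ∃ V T : Submodule K ((prC P).HdR (m + 1)), (∀ x, x ∈ V ↔ x ∈ Vg hle (m + 1)) ∧
      (∀ x, x ∈ T ↔ x ∈ Tr hle (m + 1)) ∧
      (∀ γ x y, x ∈ V → (prC P).gaussManin (m + 1) (DK γ) x y → y ∈ V) ∧
      (∀ γ x y, x ∈ T → (prC P).gaussManin (m + 1) (DK γ) x y → y ∈ T) ∧
    ∀ (L : Type u) [Field L] [Algebra K L], (∀ x : L, IsAlgebraic K x → x ∈ (algebraMap K L).range) →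
    ∀ (DL : Mon n 1 → Derivation ℤ L L), (∀ γ x, DL γ (algebraMap K L x) = algebraMap K L (DK γ x)) →
    ∀ (g : Type) [Fintype g] [DecidableEq g] (c : g → (↥V →ₗ[K] L)),
      (∀ v (x : ↥V), (x : (prC P).HdR (m + 1)) ∈ T → c v x = 0) →
      (∀ lam : g → L, (∀ x, ∑ v, lam v * c v x = 0) → lam = 0) →
      ∀ (ν : Mon n 1 → Matrix g g L),
        (∀ (γ : Mon n 1) (v : g) (x y : ↥V), (prC P).gaussManin (m + 1) (DK γ) x y →
            DL γ (c v x) = c v y + ∑ v', ν γ v v' * c v' x) →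
        ∀ f : g → ↥V, (∀ lam : g → K, ((∑ v, lam v • f v : ↥V) : (prC P).HdR (m + 1)) ∈ T → lam = 0) →
          (Matrix.of fun v u => c v (f u)).det ≠ 0 := by
  subst hQ
  have hh0 := con_sec hJ hDK hle hP
  obtain ⟨s, hs, hV, hstV, nab, cc, hC, hgm, hZ, hcw⟩ := hh0
  have hh1 := exists_tr hle (m + 1)
  obtain ⟨T, hT⟩ := hh1
  have hX : (dzQ hle).Ok := dzQ_ok hJ ak_indep hle hP
  have hE : (dzQ hle).Et := dzQ_et hJ ak_indep hle
  have hstT : ∀ γ x y, x ∈ T → (prC P).gaussManin (m + 1) (DK γ) x y → y ∈ T := by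
    intro γ x y hx h
    rw [hT] at hx ⊢
    obtain ⟨x', c, c', hc, -, rfl⟩ := hx
    have hc2 : (dzQ hle).rp (c : (prC (cyc (bI (algebraMap κ K) J) (frm (ak κ n 1 K)) 1)).Ch) ∈ (prC P).Zc (m + 1) := by
      rw [Dz.rp_apply]
      change (rsH hle).push _ ∈ _
      rw [← hc]
      exact c'.2
    have h1 : c' = ⟨_, hc2⟩ := Subtype.ext hc
    rw [h1] at h
    have hh2 := rp_gm hX hE c hc2 h
    obtain ⟨e, he, rfl⟩ := hh2
    exact ⟨_, e, ⟨_, he⟩, rfl, rfl, rfl⟩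
  refine ⟨LinearMap.range s, T, fun x => (hV x).symm, hT, hstV, hstT, ?_⟩
  intro L _ _ hcl DL hDL g _ _ c hc0 hci ν hst f hf
  have hh3 := cxS_bad' hJ le_rfl 1
  obtain ⟨Pb, k₀, hB, -⟩ := hh3
  let iM : Module (Ra κ n 1) ↥(LinearMap.range s) := Module.compHom _ (algebraMap (Ra κ n 1) K)
  have iT : IsScalarTower (Ra κ n 1) K ↥(LinearMap.range s) := IsScalarTower.of_algebraMap_smul fun r x => rfl
  have hOk0 : (cxS hJ.homog 1 1).Ok0 := cxS_ok0 hJ.homog le_rfl 1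
  have hθ : (cxS hJ.homog 1 1).θ = ((1 : ℤ) : κ) := by
    change ((1 : ℕ) : κ) / ((1 : ℕ) : κ) = _
    rw [Nat.cast_one, div_one, Int.cast_one]
  have hneg : ∀ k, ∀ x ∈ (cxS hJ.homog 1 1).Vd (m + 2 + 1) k,
      (∃ N : ℕ, -((cxS hJ.homog 1 1).θ + k) = N) → cc x = 0 := by
    rintro k x - ⟨N, hN⟩
    exfalso
    rw [hθ, Int.cast_one] at hN
    have h1 : ((N + k + 1 : ℕ) : κ) = 0 := by
      push_cast
      rw [← hN]
      ring
    exact absurd (Nat.cast_eq_zero.1 h1) (Nat.succ_ne_zero _)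
  have hT' : ∀ γ, ∀ x ∈ T.comap (LinearMap.range s).subtype, nab γ x ∈ T.comap (LinearMap.range s).subtype :=
    fun γ x hx => hstT γ _ _ hx (hgm γ x)
  refine keypos_quot hOk0 hB hC hneg (T.comap (LinearMap.range s).subtype) hT'
    (noflat_quot hOk0 hB hC hneg 1 hθ _ hT' ?_) hcl DL hDL c (fun v x hx => hc0 v x hx) hci
    (fun γ v => ⟨ν γ v, fun x => hst γ v x (nab γ x) (hgm γ x)⟩) f hf
  intro x hx hfl
  exact (hT _).2 (fp_sec hJ hDK hle hP s hs nab cc hC hZ hcw x hx hfl)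

end

/-- The position theorem for the generic hyperplane section. -/
theorem keyposH {κ : Type u} [Field κ] [CharZero κ] {n : ℕ} {J : Ideal (MvPolynomial (Fin n) κ)} {m : ℕ}
    (hJ : Good J (m + 2)) : KeyPosH J (m + 1) := by
  intro K _ _ _ DK hDK Q P hle hQ hP
  letI : Algebra κ K := ((algebraMap (Ra κ n 1) K).comp (algebraMap κ (Ra κ n 1))).toAlgebra
  haveI : IsScalarTower κ (Ra κ n 1) K := IsScalarTower.of_algebraMap_eq' rfl
  exact V7A_aux hJ hDK Q P hle (hQ.trans (bI_cycG (algebraMap (Ra κ n 1) K) J)) hP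

end MPadcHS
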