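import Pool.Agent.Lib.MP_adc574_ag_GP.Hom

/-!
# HS, Part V: the residue along a divisor with an affine complement which is one of the charts (definitions)

`Dz A N`: cover data `Y` (the ambient scheme), `S` (the divisor), with the restriction `r : Y → S`, an index `z` such that
`U_z` is the complement of the divisor, `t C` the local equation on `U_C`, `z ∉ C`, and `s C = 1 / t C` on `U_C ∩ U_z`.
* `re C`: the restriction of forms from `U_C` to `U_C ∩ U_z`; `dl C = dlog t_C` on `U_C ∩ U_z`.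
* `Lg m w c`: the cochain `w` of degree `m + 2` is logarithmic with the residue `c` (a cochain of degree `m` of `Y`):
  `w (C ∪ z) = dlog t_C ∧ c_C + (regular on U_C)`.
* `ResR m η c`: `c` is a residue of the closed form `η` of degree `m + 1` on `U_z`.
* `Zz m`: the closed forms of degree `m` on `U_z`.
-/

set_option autoImplicit false

namespace MPadcDC

end MPadcDC

namespace MPadcHS

open MPadcGP

universe u

/-- A divisor `S` in `Y` with the complement `U_z`. -/
structure Dz (A : Type u) [CommRing A] (N : ℕ) where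
  /-- the ambient scheme -/
  Y : CovD.{u, u} A N
  /-- the divisor -/
  S : CovD.{u, u} A N
  /-- the restriction to the divisor -/
  r : CovD.Hm (RingHom.id A) Y S
  /-- the complement of the divisor -/
  z : Fin N
  /-- the local equations -/
  t : ∀ C : Finset (Fin N), Y.R C
  /-- the inverses of the local equations -/
  s : ∀ C : Finset (Fin N), Y.R (insert z C)

namespace Dz

variable {A : Type u} [CommRing A] {N : ℕ}

/-- The restriction of functions from `U_C` to `U_C ∩ U_z`. -/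
noncomputable def ro (X : Dz A N) (C : Finset (Fin N)) : X.Y.R C →ₐ[A] X.Y.R (insert X.z C) :=
  X.Y.ρ (Finset.subset_insert X.z C)

/-- The restriction of forms from `U_C` to `U_C ∩ U_z`. -/
noncomputable def re (X : Dz A N) (C : Finset (Fin N)) : X.Y.E C →+* X.Y.E (insert X.z C) :=
  X.Y.rs (Finset.subset_insert X.z C)

/-- The properties of a smooth divisor in a smooth scheme with affine charts. -/
structure Ok (X : Dz A N) : Prop where
  last : ∀ j : Fin N, j ≤ X.z
  inv : ∀ C : Finset (Fin N), C.Nonempty → X.z ∉ C → X.ro C (X.t C) * X.s C = 1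
  tr : ∀ {C C' : Finset (Fin N)} (h : C ⊆ C'), C.Nonempty → X.z ∉ C' → ∃ w v : X.Y.R C', w * v = 1 ∧
    X.t C' = w * X.Y.ρ h (X.t C)
  r_surj : ∀ C : Finset (Fin N), C.Nonempty → X.z ∉ C → Function.Surjective (X.r.h C)
  r_t : ∀ C : Finset (Fin N), C.Nonempty → X.z ∉ C → X.r.h C (X.t C) = 0
  r_ker : ∀ C : Finset (Fin N), C.Nonempty → X.z ∉ C → ∀ x, X.r.h C x = 0 → ∃ y, x = X.t C * y
  r_z : ∀ C : Finset (Fin N), X.z ∈ C → Subsingleton (X.S.R C)
  inj : ∀ C : Finset (Fin N), C.Nonempty → X.z ∉ C → Function.Injective (X.re C)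
  den : ∀ C : Finset (Fin N), C.Nonempty → X.z ∉ C → ∀ q, ∀ η ∈ Fd A (X.Y.R (insert X.z C)) q,
    ∃ k : ℕ, ∃ x ∈ Fd A (X.Y.R C) q, fz A (X.ro C (X.t C)) ^ k * η = X.re C x
  der : ∀ C : Finset (Fin N), C.Nonempty → X.z ∉ C → ∃ (D : Derivation A (X.Y.R C) (X.Y.R C)) (g : X.Y.R C),
    D (X.t C) + g * X.t C = 1

/-- The charts are formally smooth, the restrictions formally étale. -/
structure Et (X : Dz A N) : Prop where
  smooth : ∀ C : Finset (Fin N), C.Nonempty → Algebra.FormallySmooth A (X.Y.R C)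
  et : ∀ (C C' : Finset (Fin N)), C.Nonempty → ∀ h : C ⊆ C',
    @Algebra.FormallyEtale (X.Y.R C) (X.Y.R C') _ _ (X.Y.ρ h).toRingHom.toAlgebra

/-- `dlog t_C`. -/
noncomputable def dl (X : Dz A N) (C : Finset (Fin N)) : X.Y.E (insert X.z C) :=
  fz A (X.s C) * df A (X.ro C (X.t C))

/-- The restriction of cochains to the divisor. -/
noncomputable def rp (X : Dz A N) : X.Y.Ch →ₗ[A] X.S.Ch where
  toFun c := X.r.push c
  map_add' := map_add _
  map_smul' a c := by
    rw [CovD.Hm.push_smul, RingHom.id_apply]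

theorem rp_apply (X : Dz A N) (c : X.Y.Ch) : X.rp c = X.r.push c := rfl

/-- `w` is logarithmic with the residue `c`. -/
def Lg (X : Dz A N) (m : ℕ) (w c : X.Y.Ch) : Prop :=
  c ∈ X.Y.Tt m ∧ ∃ β ∈ X.Y.Tt (m + 1), ∀ C : Finset (Fin N), C.Nonempty → X.z ∉ C →
    w (insert X.z C) = X.dl C * X.re C (c C) + X.re C (β C)

/-- `c` is a residue of the closed form `η` of degree `m + 1` on `U_z`. -/
def ResR (X : Dz A N) (m : ℕ) (η : X.Y.E {X.z}) (c : X.Y.Ch) : Prop :=
  ∃ γ ∈ X.Y.Tt (m + 1), γ {X.z} = η ∧ X.Lg m (X.Y.Dt γ) c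

/-- The closed forms of degree `m` on `U_z`. -/
noncomputable def Zz (X : Dz A N) (m : ℕ) : Submodule A (X.Y.E {X.z}) where
  carrier := {η | η ∈ Fd A (X.Y.R {X.z}) m ∧ dd A η = 0}
  add_mem' ha hb := ⟨Submodule.add_mem _ ha.1 hb.1, by rw [map_add, ha.2, hb.2, add_zero]⟩
  zero_mem' := ⟨Submodule.zero_mem _, map_zero _⟩
  smul_mem' a x hx := ⟨by
    rw [← algebraMap_smul (X.Y.R {X.z})]
    exact Submodule.smul_mem _ _ hx.1, by rw [dd_smul, hx.2, smul_zero]⟩

end Dz

end MPadcHS
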