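import Pool.Agent.Lib.MP_adc574_ag_HS.V6B

/-!
# JOB VFA (HS): forms over `R` of given weight, the operators `∂_γ + x^γ`

`R = MvPolynomial Γ κ`. `WF G q z N` = the span of the `r ⊗ v`, `v ∈ Vd q k`, `k ≤ N`, `r` homogeneous of degree `z + k`. `pG γ (r ⊗ v) = pderiv γ r ⊗ v + r ⊗ mul γ v`. All statements: `Submodule.span_induction` on `WF` (or on `VR q k`: `Submodule.baseChange_eq_span`).
* `WF_mono`: span_mono. `d_WF`: `d (r ⊗ v) = r ⊗ d v`, `hG.d_mem`. `TF_WF`: `TF (r ⊗ v) = ∑ γ, (X γ * r) ⊗ wd γ v` (`LinearMap.baseChange_tmul`, `TensorProduct.smul_tmul'`), `hG.wd_mem`, `X γ * r` is homogeneous of degree `j + 1`, `(j + 1 : ℤ) = z + (k + 1)`.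
* `pG_WF`: `r ⊗ mul γ v`: degree `j`, `(j : ℤ) = (z - 1) + (k + 1)`; `pderiv γ r ⊗ v`: if `j = i + 1`, `pderiv γ r` is homogeneous of degree `i` (`MvPolynomial.IsHomogeneous.pderiv`: degree `j - 1`); if `j = 0` then `r = C a` and `pderiv γ r = 0` (`isHomogeneous_zero_iff`-like lemma: totalDegree 0; e.g. `MvPolynomial.totalDegree_eq_zero_iff_eq_C`).
* `WF_neg`: if `z + N < 0` there are no generators, the span of the empty set is `⊥`.
* `pG_nF`: `pG γ ∘ nF = nF ∘ pG γ`: check on `r ⊗ v` (`TensorProduct.induction_on`; all maps are additive): `nF (r ⊗ v) = r ⊗ d v + ∑ γ', (X γ' * r) ⊗ wd γ' v`; `pderiv γ (X γ' * r) = δ r + X γ' * pderiv γ r`: the extra term is `r ⊗ wd γ v`; `d (mul γ v) = mul γ (d v) + wd γ v` (`hG.d_mul`), `mul γ (wd γ' v) = wd γ' (mul γ v)` (`hG.mul_wd`).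
* `cR` is any `R`-linear map with `cR (r ⊗ x) = r • c x`. `cR_nF`: for `v ∈ VR m k`: on generators `1 ⊗ x`, `x ∈ Vd m k`: `hC.rel` (see the proof of `cR_TF` in V6A.lean). `cR_pG`: for `w ∈ WF (m + 1) z N`: `nab γ (r • c v) = pderiv γ r • c v + r • c (mul γ v)` (`nab_smul`, `hC.nabc`). `cR_EE`: clear.
* `cR_eig`: `∑ γ, X γ • nab γ (r • c v) = (∑ γ, X γ * pderiv γ r) • c v + r • ∑ γ, X γ • c (mul γ v)`; Euler's formula `∑ γ, X γ * pderiv γ r = j • r` (`MvPolynomial.IsHomogeneous.sum_X_mul_pderiv` or similar), `hC.eul`: `= C ((j : κ) - (G.θ + k)) • (r • c v)` and `j = z + k`.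
* `exists_WF`: `u ∈ MM`: `u` is a sum of `r • c v`, `v ∈ Vd (m + 1) k`; `r` is a sum of homogeneous polynomials (`MvPolynomial.sum_homogeneousComponent`) of degree `j`: `r_j ⊗ v ∈ WF (m + 1) (j - k) k`.
-/

set_option autoImplicit false
set_option linter.unusedSectionVars false

namespace MPadcHS

open MvPolynomial TensorProduct MPadcDC

universe u

section defs

variable {κ : Type u} [Field κ] {Γ : Type} [Fintype Γ] {V : Type u} [AddCommGroup V] [Module κ V]

/-- The forms over `R` of degree `q` and weight `z`, with components up to `N`. -/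
noncomputable def WF (G : Cx κ Γ V) (q : ℕ) (z : ℤ) (N : ℕ) : Submodule κ (MvPolynomial Γ κ ⊗[κ] V) :=
  Submodule.span κ {w | ∃ (k j : ℕ) (r : MvPolynomial Γ κ) (v : V), k ≤ N ∧ (j : ℤ) = z + k ∧ r.IsHomogeneous j ∧
    v ∈ G.Vd q k ∧ r ⊗ₜ[κ] v = w}

/-- The operator `∂_γ + x^γ`. -/
noncomputable def pG (G : Cx κ Γ V) (γ : Γ) : MvPolynomial Γ κ ⊗[κ] V →ₗ[κ] MvPolynomial Γ κ ⊗[κ] V :=
  ((pderiv γ : Derivation κ (MvPolynomial Γ κ) (MvPolynomial Γ κ)) : MvPolynomial Γ κ →ₗ[κ] MvPolynomial Γ κ).rTensor V +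
    ((G.mul γ).baseChange (MvPolynomial Γ κ)).restrictScalars κ

theorem pG_tmul (G : Cx κ Γ V) (γ : Γ) (r : MvPolynomial Γ κ) (v : V) :
    pG G γ (r ⊗ₜ[κ] v) = pderiv γ r ⊗ₜ[κ] v + r ⊗ₜ[κ] G.mul γ v := rfl

end defs

section main

variable {κ : Type u} [Field κ] [CharZero κ] {Γ : Type} [Fintype Γ] [DecidableEq Γ] {V : Type u}
  [AddCommGroup V] [Module κ V] {K : Type u} [Field K] [Algebra (MvPolynomial Γ κ) K]
  [IsFractionRing (MvPolynomial Γ κ) K] {H : Type u} [AddCommGroup H] [Module K H]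
  [Module (MvPolynomial Γ κ) H] [IsScalarTower (MvPolynomial Γ κ) K H]
  {G : Cx κ Γ V} {m : ℕ} {P : Ideal (MvPolynomial Γ κ)} {k₀ : ℕ} {dK : Γ → Derivation ℤ K K}
  {nab : Γ → H →+ H} {c : V →+ H}

private theorem VFA_smul {r : MvPolynomial Γ κ} {j : ℕ} (a : κ) (hr : r.IsHomogeneous j) : (a • r).IsHomogeneous j := by
  rw [smul_eq_C_mul]
  have h := (isHomogeneous_C Γ a).mul hr
  rwa [zero_add] at h

private theorem VFA_ind {q : ℕ} {z : ℤ} {N : ℕ} {p : MvPolynomial Γ κ ⊗[κ] V → Prop} (h0 : p 0)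
    (hadd : ∀ x y, p x → p y → p (x + y))
    (hgen : ∀ (k j : ℕ) (r : MvPolynomial Γ κ) (v : V), k ≤ N → (j : ℤ) = z + k → r.IsHomogeneous j →
      v ∈ G.Vd q k → p (r ⊗ₜ[κ] v)) {w : MvPolynomial Γ κ ⊗[κ] V} (hw : w ∈ WF G q z N) : p w := by
  have key : ∀ a : κ, p (a • w) := by
    unfold WF at hw
    induction hw using Submodule.span_induction with
    | mem x hx =>
      intro a
      obtain ⟨k, j, r, v, hk, hj, hr, hv, rfl⟩ := hx
      rw [TensorProduct.smul_tmul']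
      exact hgen k j (a • r) v hk hj (VFA_smul a hr) hv
    | zero =>
      intro a
      rw [smul_zero]
      exact h0
    | add x y _ _ hx hy =>
      intro a
      rw [smul_add]
      exact hadd _ _ (hx a) (hy a)
    | smul b x _ hx =>
      intro a
      rw [smul_smul]
      exact hx (a * b)
  have h1 := key 1
  rwa [one_smul] at h1

private theorem VFA_mem {q : ℕ} {z : ℤ} {N k j : ℕ} {r : MvPolynomial Γ κ} {v : V} (hk : k ≤ N) (hj : (j : ℤ) = z + k)
    (hr : r.IsHomogeneous j) (hv : v ∈ G.Vd q k) : r ⊗ₜ[κ] v ∈ WF G q z N :=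
  Submodule.subset_span ⟨k, j, r, v, hk, hj, hr, hv, rfl⟩

private theorem VFA_TF (r : MvPolynomial Γ κ) (v : V) : G.TF (r ⊗ₜ[κ] v) = ∑ γ, (X γ * r) ⊗ₜ[κ] G.wd γ v := by
  unfold Cx.TF
  rw [LinearMap.sum_apply]
  refine Finset.sum_congr rfl fun γ _ => ?_
  rw [LinearMap.smul_apply, LinearMap.baseChange_tmul, TensorProduct.smul_tmul', smul_eq_mul]

private theorem VFA_nF (r : MvPolynomial Γ κ) (v : V) :
    G.nF (r ⊗ₜ[κ] v) = r ⊗ₜ[κ] G.d v + ∑ γ, (X γ * r) ⊗ₜ[κ] G.wd γ v := by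
  unfold Cx.nF
  rw [LinearMap.add_apply, LinearMap.baseChange_tmul, VFA_TF]

private theorem VFA_zero {r : MvPolynomial Γ κ} (hr : r.IsHomogeneous 0) (γ : Γ) : pderiv γ r = 0 := by
  rw [← totalDegree_zero_iff_isHomogeneous, totalDegree_eq_zero_iff_eq_C] at hr
  rw [hr, pderiv_C]

theorem WF_mono {q : ℕ} {z : ℤ} {N N' : ℕ} (h : N ≤ N') : WF G q z N ≤ WF G q z N' := by
  refine Submodule.span_mono ?_
  rintro w ⟨k, j, r, v, hk, hj, hr, hv, rfl⟩
  exact ⟨k, j, r, v, hk.trans h, hj, hr, hv, rfl⟩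

theorem d_WF (hG : G.Ok0) {q : ℕ} {z : ℤ} {N : ℕ} {w : MvPolynomial Γ κ ⊗[κ] V} (hw : w ∈ WF G q z N) :
    G.d.baseChange (MvPolynomial Γ κ) w ∈ WF G (q + 1) z N := by
  refine VFA_ind (p := fun w => G.d.baseChange (MvPolynomial Γ κ) w ∈ WF G (q + 1) z N) ?_ (fun x y hx hy => ?_)
    (fun k j r v hk hj hr hv => ?_) hw
  · rw [map_zero]
    exact Submodule.zero_mem _
  · rw [map_add]
    exact Submodule.add_mem _ hx hy
  · rw [LinearMap.baseChange_tmul]
    exact VFA_mem hk hj hr (hG.d_mem q k v hv)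

theorem TF_WF (hG : G.Ok0) {q : ℕ} {z : ℤ} {N : ℕ} {w : MvPolynomial Γ κ ⊗[κ] V} (hw : w ∈ WF G q z N) :
    G.TF w ∈ WF G (q + 1) z (N + 1) := by
  refine VFA_ind (p := fun w => G.TF w ∈ WF G (q + 1) z (N + 1)) ?_ (fun x y hx hy => ?_)
    (fun k j r v hk hj hr hv => ?_) hw
  · rw [map_zero]
    exact Submodule.zero_mem _
  · rw [map_add]
    exact Submodule.add_mem _ hx hy
  · rw [VFA_TF]
    refine Submodule.sum_mem _ fun γ _ => ?_
    refine VFA_mem (k := k + 1) (j := 1 + j) (Nat.succ_le_succ hk) ?_ ((isHomogeneous_X κ γ).mul hr)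
      (hG.wd_mem γ q k v hv)
    push_cast
    rw [hj]
    ring

theorem pG_WF (hG : G.Ok0) (γ : Γ) {q : ℕ} {z : ℤ} {N : ℕ} {w : MvPolynomial Γ κ ⊗[κ] V} (hw : w ∈ WF G q z N) :
    pG G γ w ∈ WF G q (z - 1) (N + 1) := by
  refine VFA_ind (p := fun w => pG G γ w ∈ WF G q (z - 1) (N + 1)) ?_ (fun x y hx hy => ?_)
    (fun k j r v hk hj hr hv => ?_) hw
  · rw [map_zero]
    exact Submodule.zero_mem _
  · rw [map_add]
    exact Submodule.add_mem _ hx hy
  · rw [pG_tmul]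
    refine Submodule.add_mem _ ?_ ?_
    · rcases Nat.eq_zero_or_pos j with h0 | h0
      · subst h0
        rw [VFA_zero hr, TensorProduct.zero_tmul]
        exact Submodule.zero_mem _
      · refine VFA_mem (k := k) (j := j - 1) (hk.trans (Nat.le_succ N)) ?_ hr.pderiv hv
        push_cast [h0]
        rw [hj]
        ring
    · refine VFA_mem (k := k + 1) (j := j) (Nat.succ_le_succ hk) ?_ hr (hG.mul_mem γ q k v hv)
      push_cast
      rw [hj]
      ring

theorem WF_neg {q : ℕ} {z : ℤ} {N : ℕ} (hz : z + N < 0) {w : MvPolynomial Γ κ ⊗[κ] V} (hw : w ∈ WF G q z N) :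
    w = 0 := by
  refine VFA_ind (p := fun w => w = 0) rfl (fun x y hx hy => ?_) (fun k j r v hk hj hr hv => ?_) hw
  · rw [hx, hy, add_zero]
  · exfalso
    have h1 : (0 : ℤ) ≤ j := Int.natCast_nonneg j
    have h2 : (k : ℤ) ≤ N := by exact_mod_cast hk
    omega

theorem pG_nF (hG : G.Ok0) (γ : Γ) (w : MvPolynomial Γ κ ⊗[κ] V) : pG G γ (G.nF w) = G.nF (pG G γ w) := by
  induction w using TensorProduct.induction_on with
  | zero => rw [map_zero, map_zero, map_zero]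
  | add x y hx hy => rw [map_add, map_add, hx, hy, map_add, map_add]
  | tmul r v =>
    rw [VFA_nF, pG_tmul, map_add, map_add, VFA_nF, VFA_nF, map_sum, pG_tmul, hG.d_mul, TensorProduct.tmul_add]
    have h1 : ∀ γ' : Γ, pG G γ ((X γ' * r) ⊗ₜ[κ] G.wd γ' v) =
        (X γ' * pderiv γ r) ⊗ₜ[κ] G.wd γ' v + (X γ' * r) ⊗ₜ[κ] G.wd γ' (G.mul γ v) +
          (if γ' = γ then r ⊗ₜ[κ] G.wd γ v else 0) := by
      intro γ'
      rw [pG_tmul, Derivation.leibniz, smul_eq_mul, smul_eq_mul, hG.mul_wd, TensorProduct.add_tmul]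
      by_cases h : γ' = γ
      · subst h
        rw [if_pos rfl, pderiv_X_self, mul_one]
        abel
      · rw [if_neg h, pderiv_X_of_ne h, mul_zero, TensorProduct.zero_tmul]
        abel
    rw [Finset.sum_congr rfl fun γ' _ => h1 γ', Finset.sum_add_distrib, Finset.sum_add_distrib,
      Finset.sum_ite_eq' Finset.univ γ, if_pos (Finset.mem_univ γ)]
    abel

theorem cR_nF (hG : G.Ok0) (hC : Con G m dK nab c) {cR : MvPolynomial Γ κ ⊗[κ] V →ₗ[MvPolynomial Γ κ] H}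
    (hcR : ∀ r x, cR (r ⊗ₜ[κ] x) = r • c x) {k : ℕ} {v : MvPolynomial Γ κ ⊗[κ] V} (hv : v ∈ G.VR m k) :
    cR (G.nF v) = 0 := by
  have h0 : ∀ v ∈ Submodule.span (MvPolynomial Γ κ)
      ((G.Vd m k).map (TensorProduct.mk κ (MvPolynomial Γ κ) V 1) :
        Set (MvPolynomial Γ κ ⊗[κ] V)), cR (G.nF v) = 0 := by
    intro v hv
    induction hv using Submodule.span_induction with
    | mem v h =>
      obtain ⟨x, hx, rfl⟩ := h
      change cR (G.nF ((1 : MvPolynomial Γ κ) ⊗ₜ[κ] x)) = 0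
      rw [VFA_nF, map_add, hcR, one_smul, map_sum, ← hC.rel k x hx]
      refine congrArg (c (G.d x) + ·) (Finset.sum_congr rfl fun γ _ => ?_)
      rw [hcR, mul_one, algebraMap_smul]
    | zero => rw [map_zero, map_zero]
    | add x y _ _ hx hy => rw [map_add, map_add, hx, hy, add_zero]
    | smul r x _ hx => rw [map_smul, map_smul, hx, smul_zero]
  unfold Cx.VR at hv
  rw [Submodule.baseChange_eq_span] at hv
  exact h0 v hv

theorem cR_pG (hG : G.Ok0) (hC : Con G m dK nab c) {cR : MvPolynomial Γ κ ⊗[κ] V →ₗ[MvPolynomial Γ κ] H}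
    (hcR : ∀ r x, cR (r ⊗ₜ[κ] x) = r • c x) (γ : Γ) {z : ℤ} {N : ℕ} {w : MvPolynomial Γ κ ⊗[κ] V}
    (hw : w ∈ WF G (m + 1) z N) : cR (pG G γ w) = nab γ (cR w) := by
  refine VFA_ind (p := fun w => cR (pG G γ w) = nab γ (cR w)) ?_ (fun x y hx hy => ?_)
    (fun k j r v hk hj hr hv => ?_) hw
  · rw [map_zero, map_zero, map_zero]
  · rw [map_add, map_add, hx, hy, map_add, map_add]
  · rw [pG_tmul, map_add, hcR, hcR, hcR, nab_smul hC, hC.nabc γ k v hv]

theorem cR_EE {cR : MvPolynomial Γ κ ⊗[κ] V →ₗ[MvPolynomial Γ κ] H}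
    (hcR : ∀ r x, cR (r ⊗ₜ[κ] x) = r • c x) {z : ℤ} {N : ℕ} {w : MvPolynomial Γ κ ⊗[κ] V}
    (hw : w ∈ WF G (m + 1) z N) : cR w ∈ EE G m c N := by
  refine VFA_ind (p := fun w => cR w ∈ EE G m c N) ?_ (fun x y hx hy => ?_)
    (fun k j r v hk hj hr hv => ?_) hw
  · rw [map_zero]
    exact Submodule.zero_mem _
  · rw [map_add]
    exact Submodule.add_mem _ hx hy
  · rw [hcR]
    exact Submodule.smul_mem _ _ (Submodule.subset_span ⟨k, hk, v, hv, rfl⟩)

theorem cR_eig (hG : G.Ok0) (hC : Con G m dK nab c) {cR : MvPolynomial Γ κ ⊗[κ] V →ₗ[MvPolynomial Γ κ] H}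
    (hcR : ∀ r x, cR (r ⊗ₜ[κ] x) = r • c x) {z : ℤ} {N : ℕ} {w : MvPolynomial Γ κ ⊗[κ] V}
    (hw : w ∈ WF G (m + 1) z N) :
    ∑ γ, (X γ : MvPolynomial Γ κ) • nab γ (cR w) = (C ((z : κ) - G.θ) : MvPolynomial Γ κ) • cR w := by
  refine VFA_ind (p := fun w => ∑ γ, (X γ : MvPolynomial Γ κ) • nab γ (cR w) =
    (C ((z : κ) - G.θ) : MvPolynomial Γ κ) • cR w) ?_ (fun x y hx hy => ?_)
    (fun k j r v hk hj hr hv => ?_) hw
  · rw [map_zero, smul_zero]
    exact Finset.sum_eq_zero fun γ _ => by rw [map_zero, smul_zero]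
  · rw [map_add, smul_add, ← hx, ← hy, ← Finset.sum_add_distrib]
    exact Finset.sum_congr rfl fun γ _ => by rw [map_add, smul_add]
  · have h1 : ∀ γ : Γ, (X γ : MvPolynomial Γ κ) • nab γ (cR (r ⊗ₜ[κ] v)) =
        (X γ * pderiv γ r) • c v + r • (X γ : MvPolynomial Γ κ) • c (G.mul γ v) := by
      intro γ
      rw [hcR, nab_smul hC, hC.nabc γ k v hv, smul_add, smul_smul, smul_comm r]
    have h2 : ∑ γ, (X γ : MvPolynomial Γ κ) • c (G.mul γ v) = -((C (G.θ + k) : MvPolynomial Γ κ) • c v) := by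
      have h3 := hC.eul k v hv
      rw [algebraMap_smul] at h3
      rw [← h3]
      exact Finset.sum_congr rfl fun γ _ => by rw [algebraMap_smul]
    have h4 : ((j : ℕ) : κ) = (z : κ) + k := by
      have h5 := congrArg (fun t : ℤ => (t : κ)) hj
      push_cast at h5
      exact h5
    rw [Finset.sum_congr rfl fun γ _ => h1 γ, Finset.sum_add_distrib, ← Finset.sum_smul, hr.sum_X_mul_pderiv,
      ← Finset.smul_sum, h2, hcR, smul_neg, smul_smul, smul_smul, ← sub_eq_add_neg, ← sub_smul]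
    congr 1
    have h6 : j • r = C ((z : κ) + k) * r := by
      rw [nsmul_eq_mul, ← h4, map_natCast]
    rw [h6, map_sub, map_add, map_add]
    ring

theorem exists_WF {cR : MvPolynomial Γ κ ⊗[κ] V →ₗ[MvPolynomial Γ κ] H}
    (hcR : ∀ r x, cR (r ⊗ₜ[κ] x) = r • c x) {u : H} (hu : u ∈ MM G m c) :
    u ∈ AddSubgroup.closure {y : H | ∃ (z : ℤ) (N : ℕ), ∃ w ∈ WF G (m + 1) z N, cR w = y} := by
  unfold MM at hu
  induction hu using Submodule.span_induction with
  | mem y hy =>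
    obtain ⟨k, x, hx, rfl⟩ := hy
    refine AddSubgroup.subset_closure ⟨-(k : ℤ), k, (1 : MvPolynomial Γ κ) ⊗ₜ[κ] x,
      VFA_mem (k := k) (j := 0) le_rfl ?_ (isHomogeneous_one Γ κ) hx, ?_⟩
    · push_cast
      ring
    · rw [hcR, one_smul]
  | zero => exact AddSubgroup.zero_mem _
  | add x y _ _ hx hy => exact AddSubgroup.add_mem _ hx hy
  | smul r x hm hx =>
    clear hm
    have h1 : ∀ (i : ℕ) (s : MvPolynomial Γ κ), s.IsHomogeneous i → s • x ∈ AddSubgroup.closure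
        {y : H | ∃ (z : ℤ) (N : ℕ), ∃ w ∈ WF G (m + 1) z N, cR w = y} := by
      intro i s hs
      induction hx using AddSubgroup.closure_induction with
      | mem y hy =>
        obtain ⟨z, N, w, hw, rfl⟩ := hy
        refine AddSubgroup.subset_closure ⟨z + i, N, s • w, ?_, map_smul cR s w⟩
        refine VFA_ind (p := fun w => s • w ∈ WF G (m + 1) (z + i) N) ?_ (fun x y hx hy => ?_)
          (fun k j r v hk hj hr hv => ?_) hw
        · rw [smul_zero]
          exact Submodule.zero_mem _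
        · rw [smul_add]
          exact Submodule.add_mem _ hx hy
        · rw [TensorProduct.smul_tmul', smul_eq_mul]
          refine VFA_mem (k := k) (j := i + j) hk ?_ (hs.mul hr) hv
          push_cast
          rw [hj]
          ring
      | zero =>
        rw [smul_zero]
        exact AddSubgroup.zero_mem _
      | add x y _ _ hx hy =>
        rw [smul_add]
        exact AddSubgroup.add_mem _ hx hy
      | neg x _ hx =>
        rw [smul_neg]
        exact AddSubgroup.neg_mem _ hx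
    rw [← sum_homogeneousComponent r, Finset.sum_smul]
    exact AddSubgroup.sum_mem _ fun i _ => h1 i _ (homogeneousComponent_isHomogeneous i r)

end main

end MPadcHS
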