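import Pool.Agent.Lib.MP_adc574_ag_HS.V5B
import Pool.Agent.Lib.MP_adc574_ag_HS.VFA

/-!
# JOB VFB (HS): the kernel of the class map in low weights

`R = MvPolynomial Γ κ`, `u_i := c ((G.mul γ₀)^[i] α) ∈ EE (k₀ + i)`.
* `gen_mem`: let `s ∉ P`, `s • y - r • u_{i+1} ∈ EE (k₀ + i)`, `y ∈ EE (k₀ + i)`. Claim `r ∈ P`. Otherwise `r • u_{i+1} ∈ EE (k₀ + i)`, so `u_{i+1} ∈ lo P (EE (k₀ + i))` (`lo P E = {x | ∃ s ∉ P, s • x ∈ E}`). Then by induction on `l`: `u_{i+1+l} ∈ lo P (EE (k₀ + i + l))`: if `s • x ∈ EE j` then `s • (nab γ₀ (s • x)) = s • pderiv γ₀ s • x + s • s • nab γ₀ x`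
  and `nab γ₀ (s • x) ∈ EE (j + 1)` (`nab_EE`), `s • x ∈ EE j`, so `(s * s) • nab γ₀ x ∈ EE (j + 1)` (`P` prime: `s * s ∉ P`); and `nab γ₀ u_k = u_{k+1}` (`nab_iter` / `hC.nabc`). Hence for `k ≥ k₀ + i`, every `x ∈ EE (k + 1)` is in `lo P (EE k)`: `EE_gen` (V6A) gives `s' • x - r' • u ∈ EE k` with `u = u_{..} ∈ lo P (EE k)`, so (multiply by the `s` of `u`) `x ∈ lo P (EE k)`.
  `irr_quot0` (V6B) with `N = ⊥` (`n = 0`) gives `⊥ = ⊤`, a contradiction to `∃ h ≠ 0`. (Compare the proof of `irr` in HA/HAIrr3.lean: the same indices.)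
* `pr_deg`: the projection `π_j ⊗ 1` (`homogeneousComponent j` on `R`, `LinearMap.rTensor`) of `R ⊗ V`: it commutes with `TF` up to a shift: `(π_{j+1} ⊗ 1) (TF y) = TF ((π_j ⊗ 1) y)` (on `r ⊗ v`: `homogeneousComponent (j + 1) (X γ * r) = X γ * homogeneousComponent j r`; prove it e.g. via `r = ∑ homogeneousComponent` or coefficients), `(π_0 ⊗ 1) (TF y) = 0`. If `x` is a sum of `r ⊗ v` with `r` homogeneous of degree `j`, `v ∈ Vd (m + 1) (k + 1)`, and `x ∈ (VR m k).map TF` then: `j = 0` implies `x = 0`, and `j = i + 1` implies `x = TF y`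
  with `y` in the span of the `r ⊗ v`, `r` homogeneous of degree `i`, `v ∈ Vd m k`. (`y := (π_i ⊗ 1) y'`; `y' ∈ VR m k` is an `R`-combination of `1 ⊗ v`, so `(π_i ⊗ 1) y'` is a sum of `homogeneousComponent i r ⊗ v`.)
* `wf_step`: `w ∈ WF (m + 1) z (k + 1)`, `k₀ ≤ k`, `cR w = 0`: `w = x + w'`, `x` in the span of the `r ⊗ v`, `r` homogeneous of degree `j = z + k + 1`, `v ∈ Vd (m + 1) (k + 1)`, `w' ∈ WF (m + 1) z k` (`span_induction`; if `z + k + 1 < 0` take `x = 0`). `x ∈ VR (m + 1) (k + 1)`. `P = (π)` by `principal0`; `hB.gen`: `γ₀, α, hgen`. Write `k = k₀ + i`.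
  For `x ∈ VR (m + 1) (k₀ + i + 1)` there are `s ∉ P`, `r` with `s • x - r ⊗ (mul γ₀)^[i+1] α ∈ (VR m (k₀ + i)).map TF` (`hgen` for generators, sums: multiply by each others `s`; as in `EE_gen`). `cR` of it: `s • cR x - r • u_{i+1} ∈ EE (k₀ + i)` (`cR_TF`), `cR x = - cR w' ∈ EE (k₀ + i)` (`cR_EE`). `gen_mem`: `r ∈ P`. `hB.kill` with `(mul γ₀)^[i+1] α ∈ Vd (m + 1) (k₀ + i + 1)`: `r ⊗ (..) ∈ (VR m k).map TF`. So `s • x ∈ (VR m k).map TF` and `hS` (`Sat`): `x ∈ (VR m k).map TF`.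
  `pr_deg`: `x = TF y`, `y ∈ WF m z k` (`i = z + k`) (or `x = 0`, `y = 0`). `w - nF y = w' - d y ∈ WF (m + 1) z k` (`d_WF`).
* `ker_low`: by induction on `N`: if `N ≤ k₀` then `w = 0` (`WF_neg`, `WF_mono`); otherwise `N = k + 1`, `k ≥ k₀`: `wf_step`, `cR (w - nF y) = 0` (`cR_nF` for the components of `y`: `y ∈ WF m z k` is a sum of elements of the `VR m k'`), induction, `v := y + v'`.
-/

set_option autoImplicit false
set_option linter.unusedSectionVars false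

namespace MPadcHS

open MvPolynomial TensorProduct MPadcDC

universe u

section main

variable {κ : Type u} [Field κ] [CharZero κ] {Γ : Type} [Fintype Γ] [DecidableEq Γ] {V : Type u}
  [AddCommGroup V] [Module κ V] {K : Type u} [Field K] [Algebra (MvPolynomial Γ κ) K]
  [IsFractionRing (MvPolynomial Γ κ) K] {H : Type u} [AddCommGroup H] [Module K H]
  [Module (MvPolynomial Γ κ) H] [IsScalarTower (MvPolynomial Γ κ) K H]
  {G : Cx κ Γ V} {m : ℕ} {P : Ideal (MvPolynomial Γ κ)} {k₀ : ℕ} {dK : Γ → Derivation ℤ K K}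
  {nab : Γ → H →+ H} {c : V →+ H}

omit [Fintype Γ] [CharZero κ] [DecidableEq Γ] in
private theorem VFB_hcX (γ : Γ) (j : ℕ) (r : MvPolynomial Γ κ) :
    homogeneousComponent (j + 1) (X γ * r) = X γ * homogeneousComponent j r := by
  classical
  ext d
  rw [coeff_homogeneousComponent, coeff_X_mul', coeff_X_mul', coeff_homogeneousComponent]
  by_cases hd : γ ∈ d.support
  · rw [if_pos hd, if_pos hd]
    have h1 : d = Finsupp.single γ 1 + (d - Finsupp.single γ 1) := by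
      rw [add_tsub_cancel_of_le]
      rw [Finsupp.single_le_iff]
      exact Nat.one_le_iff_ne_zero.2 (Finsupp.mem_support_iff.1 hd)
    have h2 : d.degree = (d - Finsupp.single γ 1).degree + 1 := by
      conv_lhs => rw [h1]
      rw [map_add, Finsupp.degree_single, add_comm]
    by_cases h3 : (d - Finsupp.single γ 1).degree = j
    · rw [if_pos h3, if_pos (by rw [h2, h3])]
    · rw [if_neg h3, if_neg (by rw [h2]; omega)]
  · rw [if_neg hd, if_neg hd, ite_self]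

omit [Fintype Γ] [CharZero κ] [DecidableEq Γ] in
private theorem VFB_hcX0 (γ : Γ) (r : MvPolynomial Γ κ) :
    homogeneousComponent 0 (X γ * r) = 0 := by
  classical
  rw [homogeneousComponent_zero, coeff_X_mul', if_neg (by simp), map_zero]

/-- The projection to the homogeneous part of degree `j`. -/
private noncomputable def VFB_pr (κ : Type u) [Field κ] (Γ : Type) (V : Type u) [AddCommGroup V] [Module κ V] (j : ℕ) :
    MvPolynomial Γ κ ⊗[κ] V →ₗ[κ] MvPolynomial Γ κ ⊗[κ] V :=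
  (homogeneousComponent j : MvPolynomial Γ κ →ₗ[κ] MvPolynomial Γ κ).rTensor V

omit [Fintype Γ] [CharZero κ] [DecidableEq Γ] in
private theorem VFB_pr_tmul (j : ℕ) (r : MvPolynomial Γ κ) (v : V) :
    VFB_pr κ Γ V j (r ⊗ₜ[κ] v) = homogeneousComponent j r ⊗ₜ[κ] v := rfl

omit [CharZero κ] [DecidableEq Γ] in
private theorem VFB_TF_tmul (r : MvPolynomial Γ κ) (v : V) :
    G.TF (r ⊗ₜ[κ] v) = ∑ γ, (X γ * r) ⊗ₜ[κ] G.wd γ v := by
  unfold Cx.TF
  rw [LinearMap.sum_apply]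
  refine Finset.sum_congr rfl fun γ _ => ?_
  rw [LinearMap.smul_apply, LinearMap.baseChange_tmul, TensorProduct.smul_tmul', smul_eq_mul]

omit [CharZero κ] [DecidableEq Γ] in
private theorem VFB_pr_TF (j : ℕ) (y : MvPolynomial Γ κ ⊗[κ] V) :
    VFB_pr κ Γ V (j + 1) (G.TF y) = G.TF (VFB_pr κ Γ V j y) := by
  induction y using TensorProduct.induction_on with
  | zero => simp only [map_zero]
  | tmul r v =>
    rw [VFB_TF_tmul, map_sum, VFB_pr_tmul, VFB_TF_tmul]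
    refine Finset.sum_congr rfl fun γ _ => ?_
    rw [VFB_pr_tmul, VFB_hcX]
  | add x y h h' => simp only [map_add, h, h']

omit [CharZero κ] [DecidableEq Γ] in
private theorem VFB_pr0_TF (y : MvPolynomial Γ κ ⊗[κ] V) :
    VFB_pr κ Γ V 0 (G.TF y) = 0 := by
  induction y using TensorProduct.induction_on with
  | zero => simp only [map_zero]
  | tmul r v =>
    rw [VFB_TF_tmul, map_sum]
    refine Finset.sum_eq_zero fun γ _ => ?_
    rw [VFB_pr_tmul, VFB_hcX0, TensorProduct.zero_tmul]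
  | add x y h h' => simp only [map_add, h, h', add_zero]

/-- The forms with homogeneous coefficients of degree `j`. -/
private def VFB_S (G : Cx κ Γ V) (j q k : ℕ) : Set (MvPolynomial Γ κ ⊗[κ] V) :=
  {w | ∃ (r : MvPolynomial Γ κ) (v : V), r.IsHomogeneous j ∧ v ∈ G.Vd q k ∧ r ⊗ₜ[κ] v = w}

omit [Fintype Γ] [CharZero κ] [DecidableEq Γ] in
private theorem VFB_pr_self {j q k : ℕ} {x : MvPolynomial Γ κ ⊗[κ] V}
    (hx : x ∈ Submodule.span κ (VFB_S G j q k)) : VFB_pr κ Γ V j x = x := by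
  induction hx using Submodule.span_induction with
  | mem x h =>
    obtain ⟨r, v, hr, -, rfl⟩ := h
    rw [VFB_pr_tmul, homogeneousComponent_of_mem ((mem_homogeneousSubmodule _ _).2 hr), if_pos rfl]
  | zero => rw [map_zero]
  | add x y _ _ h h' => rw [map_add, h, h']
  | smul a x _ h => rw [map_smul, h]

omit [CharZero κ] [DecidableEq Γ] in
private theorem VFB_VR_induction {q k : ℕ} {p : MvPolynomial Γ κ ⊗[κ] V → Prop}
    (h1 : ∀ v ∈ G.Vd q k, p ((1 : MvPolynomial Γ κ) ⊗ₜ[κ] v)) (h2 : p 0)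
    (h3 : ∀ x y, p x → p y → p (x + y)) (h4 : ∀ (r : MvPolynomial Γ κ) x, p x → p (r • x))
    {x : MvPolynomial Γ κ ⊗[κ] V} (hx : x ∈ G.VR q k) : p x := by
  unfold Cx.VR at hx
  rw [Submodule.baseChange_eq_span] at hx
  have h0 : ∀ ω ∈ Submodule.span (MvPolynomial Γ κ)
      ((G.Vd q k).map (TensorProduct.mk κ (MvPolynomial Γ κ) V 1) :
        Set (MvPolynomial Γ κ ⊗[κ] V)), p ω := by
    intro ω hω
    induction hω using Submodule.span_induction with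
    | mem ω h =>
      obtain ⟨x, hx, rfl⟩ := h
      exact h1 x hx
    | zero => exact h2
    | add x y _ _ h h' => exact h3 x y h h'
    | smul r x _ h => exact h4 r x h
  exact h0 x hx

omit [CharZero κ] [DecidableEq Γ] in
private theorem VFB_pr_VR {q k : ℕ} (i : ℕ) {y : MvPolynomial Γ κ ⊗[κ] V} (hy : y ∈ G.VR q k) :
    VFB_pr κ Γ V i y ∈ Submodule.span κ (VFB_S G i q k) := by
  have key : ∀ r : MvPolynomial Γ κ, VFB_pr κ Γ V i (r • y) ∈ Submodule.span κ (VFB_S G i q k) := by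
    refine VFB_VR_induction (G := G) (q := q) (k := k)
      (p := fun y => ∀ r : MvPolynomial Γ κ, VFB_pr κ Γ V i (r • y) ∈ Submodule.span κ (VFB_S G i q k))
      ?_ ?_ ?_ ?_ hy
    · intro v hv r
      rw [TensorProduct.smul_tmul', smul_eq_mul, mul_one, VFB_pr_tmul]
      exact Submodule.subset_span ⟨_, v, homogeneousComponent_isHomogeneous i r, hv, rfl⟩
    · intro r
      rw [smul_zero, map_zero]
      exact Submodule.zero_mem _
    · intro x y hx hy r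
      rw [smul_add, map_add]
      exact Submodule.add_mem _ (hx r) (hy r)
    · intro a x hx r
      rw [smul_smul]
      exact hx (r * a)
  have := key 1
  rwa [one_smul] at this

omit [CharZero κ] [DecidableEq Γ] in
private theorem VFB_S_VR {j q k : ℕ} {x : MvPolynomial Γ κ ⊗[κ] V}
    (hx : x ∈ Submodule.span κ (VFB_S G j q k)) : x ∈ G.VR q k := by
  induction hx using Submodule.span_induction with
  | mem x h =>
    obtain ⟨r, v, -, hv, rfl⟩ := h
    exact Submodule.tmul_mem_baseChange_of_mem r hv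
  | zero => exact Submodule.zero_mem _
  | add x y _ _ h h' => exact Submodule.add_mem _ h h'
  | smul a x _ h =>
    rw [← algebraMap_smul (MvPolynomial Γ κ) a x]
    exact Submodule.smul_mem _ _ h

theorem gen_mem (hG : G.Ok0) (hB : G.Bad m P k₀) (hC : Con G m dK nab c)
    (hneg : ∀ k, ∀ x ∈ G.Vd (m + 1) k, (∃ n : ℕ, -(G.θ + k) = n) → c x = 0) (hH : ∃ h : H, h ≠ 0)
    {γ₀ : Γ} {α : V} (hα : α ∈ G.Vd (m + 1) k₀)
    (hgen : ∀ k, ∀ x ∈ G.Vd (m + 1) (k₀ + k + 1), ∃ s r : MvPolynomial Γ κ, s ∉ P ∧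
      s ⊗ₜ[κ] x - r ⊗ₜ[κ] ((G.mul γ₀)^[k + 1] α) ∈ (G.VR m (k₀ + k)).map G.TF)
    {i : ℕ} {s r : MvPolynomial Γ κ} (hs : s ∉ P) {y : H} (hy : y ∈ EE G m c (k₀ + i))
    (h : s • y - r • c ((G.mul γ₀)^[i + 1] α) ∈ EE G m c (k₀ + i)) : r ∈ P := by
  by_contra hr
  have hPp : P.IsPrime := hB.prime
  have hu : ∀ k, nab γ₀ (c ((G.mul γ₀)^[k] α)) = c ((G.mul γ₀)^[k + 1] α) := by
    intro k
    rw [← nab_iter hG hC γ₀ hα k, ← nab_iter hG hC γ₀ hα (k + 1), Function.iterate_succ_apply']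
  have h1 : r • c ((G.mul γ₀)^[i + 1] α) ∈ EE G m c (k₀ + i) := by
    have h2 := Submodule.sub_mem _ (Submodule.smul_mem _ s hy) h
    rwa [sub_sub_cancel] at h2
  have claim : ∀ l, c ((G.mul γ₀)^[i + l + 1] α) ∈ lo P (EE G m c (k₀ + i + l)) := by
    intro l
    induction l with
    | zero => exact ⟨r, hr, h1⟩
    | succ l ih =>
      obtain ⟨t, ht, hx⟩ := ih
      refine ⟨t * t, fun hm => (hPp.mem_or_mem hm).elim ht ht, ?_⟩
      have h2 := nab_EE hG hC γ₀ hx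
      rw [nab_smul hC, hu] at h2
      have h3 := Submodule.smul_mem _ t h2
      rw [smul_add, smul_smul t t] at h3
      have h4 : t • (pderiv γ₀ t • c ((G.mul γ₀)^[i + l + 1] α)) ∈ EE G m c (k₀ + i + l + 1) := by
        rw [smul_comm]
        exact Submodule.smul_mem _ _ (EE_mono (Nat.le_succ _) hx)
      have h5 := Submodule.sub_mem _ h3 h4
      rwa [add_sub_cancel_left] at h5
  have h6 : (⊥ : Submodule K H) = ⊤ := by
    refine irr_quot0 hG hB hC hneg ⊥ ?_ (j := k₀ + i) (Nat.le_add_right _ _) ?_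
    · intro γ x hx
      rw [(Submodule.mem_bot K).1 hx, map_zero]
      exact Submodule.zero_mem _
    · intro k hk x hx
      obtain ⟨l, rfl⟩ := Nat.exists_eq_add_of_le hk
      refine ⟨0, Submodule.zero_mem _, ?_⟩
      rw [_root_.sub_zero]
      have hx' : x ∈ EE G m c (k₀ + (i + l) + 1) := by
        rwa [show k₀ + (i + l) + 1 = k₀ + i + l + 1 by omega]
      obtain ⟨s', r', hs', h3⟩ := EE_gen (P := P) hG hC (hgen (i + l)) hPp hx'
      rw [show k₀ + (i + l) = k₀ + i + l by omega] at h3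
      obtain ⟨t, ht, h4⟩ := claim l
      refine ⟨t * s', fun hm => (hPp.mem_or_mem hm).elim ht hs', ?_⟩
      have h5 := Submodule.add_mem _ (Submodule.smul_mem _ t h3) (Submodule.smul_mem _ r' h4)
      have e1 : t • (s' • x - r' • c ((G.mul γ₀)^[i + l + 1] α)) + r' • (t • c ((G.mul γ₀)^[i + l + 1] α)) =
          (t * s') • x := by
        rw [smul_sub, smul_smul, smul_comm r' t]
        abel
      rwa [e1] at h5
  obtain ⟨h, hh⟩ := hH
  apply hh
  have h7 : h ∈ (⊥ : Submodule K H) := by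
    rw [h6]; exact Submodule.mem_top
  exact (Submodule.mem_bot K).1 h7

theorem pr_deg {j k : ℕ} {x : MvPolynomial Γ κ ⊗[κ] V}
    (hx : x ∈ Submodule.span κ {w : MvPolynomial Γ κ ⊗[κ] V | ∃ (r : MvPolynomial Γ κ) (v : V),
      r.IsHomogeneous j ∧ v ∈ G.Vd (m + 1) (k + 1) ∧ r ⊗ₜ[κ] v = w})
    (h : x ∈ (G.VR m k).map G.TF) : (j = 0 → x = 0) ∧ ∀ i, j = i + 1 →
    ∃ y ∈ Submodule.span κ {w : MvPolynomial Γ κ ⊗[κ] V | ∃ (r : MvPolynomial Γ κ) (v : V),
      r.IsHomogeneous i ∧ v ∈ G.Vd m k ∧ r ⊗ₜ[κ] v = w}, G.TF y = x := by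
  obtain ⟨y, hy, h1⟩ := h
  have h2 : VFB_pr κ Γ V j x = x := VFB_pr_self (G := G) (q := m + 1) (k := k + 1) hx
  constructor
  · rintro rfl
    rw [← h2, ← h1]
    exact VFB_pr0_TF y
  · rintro i rfl
    refine ⟨VFB_pr κ Γ V i y, VFB_pr_VR i hy, ?_⟩
    rw [← VFB_pr_TF]
    have h3 : G.TF y = x := h1
    rw [h3, h2]

omit [Fintype Γ] [CharZero κ] [DecidableEq Γ] in
private theorem VFB_split {q k : ℕ} {z : ℤ} {w : MvPolynomial Γ κ ⊗[κ] V} (hw : w ∈ Submodule.span κ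
      {w : MvPolynomial Γ κ ⊗[κ] V | ∃ (k' j : ℕ) (r : MvPolynomial Γ κ) (v : V), k' ≤ k + 1 ∧
        (j : ℤ) = z + k' ∧ r.IsHomogeneous j ∧ v ∈ G.Vd q k' ∧ r ⊗ₜ[κ] v = w}) :
    ∃ x w' : MvPolynomial Γ κ ⊗[κ] V, w = x + w' ∧ w' ∈ Submodule.span κ
      {w : MvPolynomial Γ κ ⊗[κ] V | ∃ (k' j : ℕ) (r : MvPolynomial Γ κ) (v : V), k' ≤ k ∧
        (j : ℤ) = z + k' ∧ r.IsHomogeneous j ∧ v ∈ G.Vd q k' ∧ r ⊗ₜ[κ] v = w} ∧
      ((∀ j : ℕ, (j : ℤ) ≠ z + (k + 1 : ℕ)) → x = 0) ∧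
      ∀ j : ℕ, (j : ℤ) = z + (k + 1 : ℕ) → x ∈ Submodule.span κ (VFB_S G j q (k + 1)) := by
  induction hw using Submodule.span_induction with
  | mem w h =>
    obtain ⟨k', j, r, v, h1, h2, h3, h4, rfl⟩ := h
    rcases Nat.lt_or_ge k k' with h5 | h5
    · have h6 : k' = k + 1 := by omega
      subst h6
      refine ⟨r ⊗ₜ[κ] v, 0, by rw [add_zero], Submodule.zero_mem _, fun h => absurd h2 (h j), ?_⟩
      intro j' hj'
      have h7 : j' = j := by
        have : (j' : ℤ) = j := by rw [hj', h2]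
        exact_mod_cast this
      subst h7
      exact Submodule.subset_span ⟨r, v, h3, h4, rfl⟩
    · exact ⟨0, r ⊗ₜ[κ] v, by rw [zero_add], Submodule.subset_span ⟨k', j, r, v, h5, h2, h3, h4, rfl⟩,
        fun _ => rfl, fun _ _ => Submodule.zero_mem _⟩
  | zero => exact ⟨0, 0, by rw [add_zero], Submodule.zero_mem _, fun _ => rfl, fun _ _ => Submodule.zero_mem _⟩
  | add w₁ w₂ _ _ h h' =>
    obtain ⟨x₁, y₁, a1, a2, a3, a4⟩ := h
    obtain ⟨x₂, y₂, b1, b2, b3, b4⟩ := h'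
    refine ⟨x₁ + x₂, y₁ + y₂, by rw [a1, b1]; abel, Submodule.add_mem _ a2 b2, ?_, ?_⟩
    · intro hj
      rw [a3 hj, b3 hj, add_zero]
    · intro j hj
      exact Submodule.add_mem _ (a4 j hj) (b4 j hj)
  | smul a w _ h =>
    obtain ⟨x₁, y₁, a1, a2, a3, a4⟩ := h
    refine ⟨a • x₁, a • y₁, by rw [a1, smul_add], Submodule.smul_mem _ _ a2, ?_, ?_⟩
    · intro hj
      rw [a3 hj, smul_zero]
    · intro j hj
      exact Submodule.smul_mem _ _ (a4 j hj)

omit [CharZero κ] [DecidableEq Γ] in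
private theorem VFB_gen (hP : P.IsPrime) {i : ℕ} {γ₀ : Γ} {α : V}
    (hgen : ∀ x ∈ G.Vd (m + 1) (k₀ + i + 1), ∃ s r : MvPolynomial Γ κ, s ∉ P ∧
      s ⊗ₜ[κ] x - r ⊗ₜ[κ] ((G.mul γ₀)^[i + 1] α) ∈ (G.VR m (k₀ + i)).map G.TF)
    {x : MvPolynomial Γ κ ⊗[κ] V} (hx : x ∈ G.VR (m + 1) (k₀ + i + 1)) :
    ∃ s r : MvPolynomial Γ κ, s ∉ P ∧
      s • x - r ⊗ₜ[κ] ((G.mul γ₀)^[i + 1] α) ∈ (G.VR m (k₀ + i)).map G.TF := by
  have h1P : (1 : MvPolynomial Γ κ) ∉ P := (Ideal.ne_top_iff_one P).1 hP.ne_top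
  refine VFB_VR_induction (G := G) (q := m + 1) (k := k₀ + i + 1)
    (p := fun x => ∃ s r : MvPolynomial Γ κ, s ∉ P ∧
      s • x - r ⊗ₜ[κ] ((G.mul γ₀)^[i + 1] α) ∈ (G.VR m (k₀ + i)).map G.TF) ?_ ?_ ?_ ?_ hx
  · intro v hv
    obtain ⟨s, r, hs, h⟩ := hgen v hv
    refine ⟨s, r, hs, ?_⟩
    rw [TensorProduct.smul_tmul', smul_eq_mul, mul_one]
    exact h
  · refine ⟨1, 0, h1P, ?_⟩
    rw [smul_zero, TensorProduct.zero_tmul, _root_.sub_zero]
    exact Submodule.zero_mem _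
  · rintro x y ⟨s, r, hs, h1⟩ ⟨s', r', hs', h2⟩
    refine ⟨s * s', s' * r + s * r', fun h3 => (hP.mem_or_mem h3).elim hs hs', ?_⟩
    have h3 := Submodule.add_mem _ (Submodule.smul_mem _ s' h1) (Submodule.smul_mem _ s h2)
    have e1 : s' • (s • x - r ⊗ₜ[κ] ((G.mul γ₀)^[i + 1] α)) + s • (s' • y - r' ⊗ₜ[κ] ((G.mul γ₀)^[i + 1] α)) =
        (s * s') • (x + y) - (s' * r + s * r') ⊗ₜ[κ] ((G.mul γ₀)^[i + 1] α) := by
      rw [TensorProduct.add_tmul, smul_sub, smul_sub, TensorProduct.smul_tmul', TensorProduct.smul_tmul',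
        smul_eq_mul, smul_eq_mul, smul_smul, smul_smul, smul_add, mul_comm s' s]
      abel
    rwa [e1] at h3
  · rintro a x ⟨s, r, hs, h1⟩
    refine ⟨s, a * r, hs, ?_⟩
    have h3 := Submodule.smul_mem _ a h1
    rw [smul_sub, TensorProduct.smul_tmul', smul_eq_mul, smul_comm a s] at h3
    exact h3

theorem wf_step (hG : G.Ok0) (hB : G.Bad m P k₀) (hS : Cx.Sat G m P k₀) (hC : Con G m dK nab c)
    (hneg : ∀ k, ∀ x ∈ G.Vd (m + 1) k, (∃ n : ℕ, -(G.θ + k) = n) → c x = 0) (hH : ∃ h : H, h ≠ 0)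
    {cR : MvPolynomial Γ κ ⊗[κ] V →ₗ[MvPolynomial Γ κ] H} (hcR : ∀ r x, cR (r ⊗ₜ[κ] x) = r • c x)
    {z : ℤ} {k : ℕ} (hk : k₀ ≤ k) {w : MvPolynomial Γ κ ⊗[κ] V} (hw : w ∈ WF G (m + 1) z (k + 1)) (h0 : cR w = 0) :
    ∃ y ∈ WF G m z k, w - G.nF y ∈ WF G (m + 1) z k := by
  obtain ⟨x, w', hxw, hw', hx0, hxS⟩ := VFB_split (G := G) (q := m + 1) (k := k) (z := z) hw
  have hw'' : w' ∈ WF G (m + 1) z k := hw'
  by_cases hj : ∀ j : ℕ, (j : ℤ) ≠ z + (k + 1 : ℕ)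
  · refine ⟨0, Submodule.zero_mem _, ?_⟩
    rw [map_zero, _root_.sub_zero, hxw, hx0 hj, zero_add]
    exact hw''
  push Not at hj
  obtain ⟨j, hj⟩ := hj
  have hxj := hxS j hj
  have hxV : x ∈ G.VR (m + 1) (k + 1) := VFB_S_VR hxj
  obtain ⟨π, hπ, hP⟩ := principal0 hG hB hC hneg hH
  obtain ⟨γ₀, hγ, α, hα, hgen⟩ := hB.gen π hP
  have hPp : P.IsPrime := hB.prime
  obtain ⟨i, rfl⟩ := Nat.exists_eq_add_of_le hk
  obtain ⟨s, r, hs, ω, hω, h1⟩ := VFB_gen hPp (hgen i) hxV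
  have h2 : s • cR x - r • c ((G.mul γ₀)^[i + 1] α) ∈ EE G m c (k₀ + i) := by
    rw [← hcR, ← map_smul, ← map_sub, ← h1]
    exact cR_TF hG hC hcR hω
  have h3 : cR x ∈ EE G m c (k₀ + i) := by
    have h4 : cR x = - cR w' := by
      rw [eq_neg_iff_add_eq_zero, ← map_add, ← hxw, h0]
    rw [h4]
    exact Submodule.neg_mem _ (cR_EE hcR hw'')
  have hr : r ∈ P := gen_mem hG hB hC hneg hH hα hgen hs h3 h2
  have hmem : ∀ k, (G.mul γ₀)^[k] α ∈ G.Vd (m + 1) (k₀ + k) := by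
    intro k
    induction k with
    | zero => simpa using hα
    | succ k ih =>
      rw [Function.iterate_succ_apply']
      exact hG.mul_mem γ₀ (m + 1) (k₀ + k) _ ih
  have h4 := hB.kill (k₀ + i) hk r hr _ (hmem (i + 1))
  have h5 : s • x ∈ (G.VR m (k₀ + i)).map G.TF := by
    have h6 : s • x - r ⊗ₜ[κ] ((G.mul γ₀)^[i + 1] α) ∈ (G.VR m (k₀ + i)).map G.TF := ⟨ω, hω, h1⟩
    have h7 := Submodule.add_mem _ h6 h4
    rwa [sub_add_cancel] at h7
  have h6 := hS (k₀ + i) hk s hs x hxV h5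
  obtain ⟨p0, p1⟩ := pr_deg (G := G) (m := m) (j := j) (k := k₀ + i) hxj h6
  have key : ∃ y ∈ WF G m z (k₀ + i), G.TF y = x := by
    rcases Nat.eq_zero_or_pos j with hj0 | hj0
    · refine ⟨0, Submodule.zero_mem _, ?_⟩
      rw [map_zero, p0 hj0]
    · obtain ⟨l, rfl⟩ : ∃ l, j = l + 1 := ⟨j - 1, by omega⟩
      obtain ⟨y, hy, hyx⟩ := p1 l rfl
      refine ⟨y, ?_, hyx⟩
      refine (Submodule.span_mono ?_ : _ ≤ WF G m z (k₀ + i)) hy
      rintro y ⟨r, v, hr, hv, rfl⟩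
      refine ⟨k₀ + i, l, r, v, le_rfl, ?_, hr, hv, rfl⟩
      push_cast at hj ⊢
      linarith
  obtain ⟨y, hy, hyx⟩ := key
  refine ⟨y, hy, ?_⟩
  have e1 : w - G.nF y = w' - G.d.baseChange (MvPolynomial Γ κ) y := by
    unfold Cx.nF
    rw [LinearMap.add_apply, hyx, hxw]
    abel
  rw [e1]
  exact Submodule.sub_mem _ hw'' (d_WF hG hy)

/-- The kernel of the class map in the weights `< - k₀`. -/
theorem ker_low (hG : G.Ok0) (hB : G.Bad m P k₀) (hS : Cx.Sat G m P k₀) (hC : Con G m dK nab c)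
    (hneg : ∀ k, ∀ x ∈ G.Vd (m + 1) k, (∃ n : ℕ, -(G.θ + k) = n) → c x = 0) (hH : ∃ h : H, h ≠ 0)
    {cR : MvPolynomial Γ κ ⊗[κ] V →ₗ[MvPolynomial Γ κ] H} (hcR : ∀ r x, cR (r ⊗ₜ[κ] x) = r • c x)
    {z : ℤ} (hz : z + k₀ < 0) {N : ℕ} {w : MvPolynomial Γ κ ⊗[κ] V} (hw : w ∈ WF G (m + 1) z N) (h0 : cR w = 0) :
    ∃ v ∈ WF G m z N, G.nF v = w := by
  induction N generalizing w with
  | zero =>
    refine ⟨0, Submodule.zero_mem _, ?_⟩
    rw [map_zero, WF_neg (G := G) (q := m + 1) (z := z) (N := 0) (by push_cast; omega) hw]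
  | succ k ih =>
    rcases Nat.lt_or_ge k k₀ with h1 | h1
    · refine ⟨0, Submodule.zero_mem _, ?_⟩
      rw [map_zero, WF_neg (G := G) (q := m + 1) (z := z) (N := k + 1) (by push_cast; omega) hw]
    · obtain ⟨y, hy, h2⟩ := wf_step hG hB hS hC hneg hH hcR h1 hw h0
      have h3 : cR (G.nF y) = 0 := by
        have h4 : ∀ y ∈ WF G m z k, cR (G.nF y) = 0 := by
          intro y hy
          unfold WF at hy
          induction hy using Submodule.span_induction with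
          | mem y h =>
            obtain ⟨k', j, r, v, -, -, -, hv, rfl⟩ := h
            exact cR_nF hG hC hcR (k := k') (Submodule.tmul_mem_baseChange_of_mem r hv)
          | zero => rw [map_zero, map_zero]
          | add x y _ _ h h' => rw [map_add, map_add, h, h', add_zero]
          | smul a x _ h =>
            rw [← algebraMap_smul (MvPolynomial Γ κ) a x, map_smul, map_smul, h, smul_zero]
        exact h4 y hy
      obtain ⟨v, hv, h5⟩ := ih h2 (by rw [map_sub, h0, h3, _root_.sub_zero])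
      refine ⟨y + v, Submodule.add_mem _ (WF_mono (Nat.le_succ k) hy) (WF_mono (Nat.le_succ k) hv), ?_⟩
      rw [map_add, h5]
      abel

end main

end MPadcHS
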