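import Pool.Agent.Lib.MP_adc574_ag_HS.VFB

/-!
# JOB VFC (HS): flat vectors of the lattice

* `flat_lift`: `u ∈ MM` flat (`nab γ u = 0` for all `γ`), `G.θ = z₀`. By `exists_WF` (VFA) `u` is a finite sum of `cR w_i`, `w_i ∈ WF (m + 1) z_i N_i`; collect the terms with the same `z` (`WF_mono`; `WF` is a submodule): by `AddSubgroup.closure_induction` prove: there are a finitely supported family `w : ℤ →₀ R ⊗ V` and `N` with `w z ∈ WF (m + 1) z N` and `u = ∑ cR (w z)`. `Eu y := ∑ γ, X γ • nab γ y`, a `κ`-linear map (through `C`): `Eu (cR (w z)) = C (z - z₀) • cR (w z)` (`cR_eig`), `Eu u = 0`. So `u` is the component of eigenvalue `0`: apply `Eu` repeatedly (Vandermonde) or: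
  eigenvectors of a linear endomorphism with distinct eigenvalues are independent: `Module.End.eigenspaces_iSupIndep` for the `κ`-module `H` (`Module.compHom H (C : κ →+* R)`) and `Eu` as a `κ`-linear endomorphism; the vectors `cR (w z)` (`z ≠ z₀`) and `cR (w z₀) - u` have distinct eigenvalues and their sum is `0`, so all are `0`. So `u = cR (w z₀)`. (Or use the induction: for a finite set `s` of integers and eigenvectors `y_z`, `∑ y_z = 0` implies `y_z = 0`.)
* `flat_ker`: `w ∈ WF (m + 1) z₀ N` with `cR w = u` (`flat_lift`). For every `i`: `(pG γ)^[i] w ∈ WF (m + 1) (z₀ - i) (N + i)` (`pG_WF`), and `cR ((pG γ)^[i + 1] w) = nab γ (..) = 0`: by induction `cR ((pG γ)^[i] w) = (nab γ)^[i] u` (`cR_pG`), `= 0` for `i ≥ 1`. Choose `i ≥ 1` with `z₀ - i + k₀ < 0`: `ker_low` (VFB).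
-/

set_option autoImplicit false
set_option linter.unusedSectionVars false

namespace MPadcHS

open MvPolynomial TensorProduct MPadcDC

universe u

section main

variable {κ : Type u} [Field κ] [CharZero κ] {Γ : Type} [Fintype Γ] [DecidableEq Γ] {V : Type u}
  [AddCommGroup V] [Module κ V] {K : Type u} [Field K] [Algebra (MvPolynomial Γ κ) K]
  [IsFractionRing (MvPolynomial Γ κ) K] {H : Type u} [AddCommGroup H] [Module K H]
  [Module (MvPolynomial Γ κ) H] [IsScalarTower (MvPolynomial Γ κ) K H]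
  {G : Cx κ Γ V} {m : ℕ} {P : Ideal (MvPolynomial Γ κ)} {k₀ : ℕ} {dK : Γ → Derivation ℤ K K}
  {nab : Γ → H →+ H} {c : V →+ H}

private theorem VFC_ind (T : H →+ H)
    (hT : ∀ (a : κ) (y : H), T ((C a : MvPolynomial Γ κ) • y) = (C a : MvPolynomial Γ κ) • T y) (θ : κ) (s : Finset ℤ) :
    ∀ y : ℤ → H, (∀ z ∈ s, T (y z) = (C ((z : κ) - θ) : MvPolynomial Γ κ) • y z) → ∑ z ∈ s, y z = 0 →
      ∀ z ∈ s, y z = 0 := by
  classical
  induction s using Finset.induction_on with
  | empty =>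
    intro y _ _ z hz
    exact absurd hz (Finset.notMem_empty z)
  | insert z₁ s hz₁ ih =>
    intro y hy hsum
    rw [Finset.sum_insert hz₁] at hsum
    have h1 : ∀ z ∈ s, y z = 0 := by
      intro z hz
      have h2 := ih (fun z => (C ((z : κ) - z₁) : MvPolynomial Γ κ) • y z) (fun z hz => ?_) ?_ z hz
      · have hne : (z : κ) - z₁ ≠ 0 := by
          intro h
          have h3 : (z : κ) = (z₁ : κ) := sub_eq_zero.1 h
          have h4 : z = z₁ := Int.cast_injective h3
          exact hz₁ (h4 ▸ hz)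
        have h5 : (C ((z : κ) - z₁)⁻¹ : MvPolynomial Γ κ) • (C ((z : κ) - z₁) : MvPolynomial Γ κ) • y z = 0 := by
          have h2' : (C ((z : κ) - z₁) : MvPolynomial Γ κ) • y z = 0 := h2
          rw [h2', smul_zero]
        rwa [smul_smul, ← map_mul, inv_mul_cancel₀ hne, map_one, one_smul] at h5
      · show T ((C ((z : κ) - z₁) : MvPolynomial Γ κ) • y z) =
          (C ((z : κ) - θ) : MvPolynomial Γ κ) • (C ((z : κ) - z₁) : MvPolynomial Γ κ) • y z
        rw [hT, hy z (Finset.mem_insert_of_mem hz), smul_comm]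
      · have h6 : ∀ z ∈ s, (C ((z : κ) - z₁) : MvPolynomial Γ κ) • y z =
            T (y z) - (C ((z₁ : κ) - θ) : MvPolynomial Γ κ) • y z := by
          intro z hz
          rw [hy z (Finset.mem_insert_of_mem hz), ← sub_smul, ← map_sub]
          congr 2
          ring
        rw [Finset.sum_congr rfl h6, Finset.sum_sub_distrib, ← map_sum, ← Finset.smul_sum,
          eq_neg_of_add_eq_zero_right hsum, map_neg, hy z₁ (Finset.mem_insert_self z₁ s), smul_neg, sub_self]
    intro z hz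
    rcases Finset.mem_insert.1 hz with h | h
    · rw [h]
      rwa [Finset.sum_eq_zero h1, add_zero] at hsum
    · exact h1 z h

theorem flat_lift (hG : G.Ok0) (hC : Con G m dK nab c) (z₀ : ℤ) (hθ : G.θ = z₀)
    {cR : MvPolynomial Γ κ ⊗[κ] V →ₗ[MvPolynomial Γ κ] H} (hcR : ∀ r x, cR (r ⊗ₜ[κ] x) = r • c x)
    {u : H} (hu : u ∈ MM G m c) (hf : ∀ γ, nab γ u = 0) : ∃ N, ∃ w ∈ WF G (m + 1) z₀ N, cR w = u := by
  classical
  have hfs : ∃ (f : ℤ →₀ MvPolynomial Γ κ ⊗[κ] V) (N : ℕ), (∀ z, f z ∈ WF G (m + 1) z N) ∧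
      f.sum (fun _ x => cR x) = u := by
    have h := exists_WF (G := G) (m := m) (c := c) hcR hu
    clear hu hf
    induction h using AddSubgroup.closure_induction with
    | mem y hy =>
      obtain ⟨z, N, w, hw, rfl⟩ := hy
      refine ⟨Finsupp.single z w, N, fun z' => ?_, Finsupp.sum_single_index (map_zero cR)⟩
      rw [Finsupp.single_apply]
      by_cases hz : z = z'
      · rw [if_pos hz, ← hz]
        exact hw
      · rw [if_neg hz]
        exact Submodule.zero_mem _
    | zero => exact ⟨0, 0, fun z => Submodule.zero_mem _, Finsupp.sum_zero_index⟩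
    | add x y _ _ hx hy =>
      obtain ⟨f, N, hf1, hf2⟩ := hx
      obtain ⟨g, N', hg1, hg2⟩ := hy
      refine ⟨f + g, max N N', fun z => ?_, ?_⟩
      · exact Submodule.add_mem _ (WF_mono (le_max_left N N') (hf1 z)) (WF_mono (le_max_right N N') (hg1 z))
      · rw [Finsupp.sum_add_index' (fun _ => map_zero cR) (fun _ => map_add cR), hf2, hg2]
    | neg x _ hx =>
      obtain ⟨f, N, hf1, hf2⟩ := hx
      refine ⟨-f, N, fun z => Submodule.neg_mem _ (hf1 z), ?_⟩
      rw [Finsupp.sum_neg_index (fun _ => map_zero cR), ← hf2, Finsupp.sum, Finsupp.sum, ← Finset.sum_neg_distrib]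
      exact Finset.sum_congr rfl fun z _ => map_neg cR (f z)
  obtain ⟨f, N, hf1, hf2⟩ := hfs
  let T : H →+ H :=
    { toFun := fun y => ∑ γ, (X γ : MvPolynomial Γ κ) • nab γ y
      map_zero' := Finset.sum_eq_zero fun γ _ => by rw [map_zero, smul_zero]
      map_add' := fun x y => by
        rw [← Finset.sum_add_distrib]
        exact Finset.sum_congr rfl fun γ _ => by rw [map_add, smul_add] }
  have hT : ∀ y, T y = ∑ γ, (X γ : MvPolynomial Γ κ) • nab γ y := fun _ => rfl
  have hTC : ∀ (a : κ) (y : H), T ((C a : MvPolynomial Γ κ) • y) = (C a : MvPolynomial Γ κ) • T y := by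
    intro a y
    rw [hT, hT, Finset.smul_sum]
    refine Finset.sum_congr rfl fun γ _ => ?_
    rw [nab_smul hC, pderiv_C, zero_smul, zero_add, smul_comm]
  have hTu : T u = 0 := by
    rw [hT]
    exact Finset.sum_eq_zero fun γ _ => by rw [hf γ, smul_zero]
  let y : ℤ → H := fun z => if z = z₀ then cR (f z) - u else cR (f z)
  have hy1 : ∀ z ∈ insert z₀ f.support, T (y z) = (C ((z : κ) - G.θ) : MvPolynomial Γ κ) • y z := by
    intro z _
    have h1 : T (cR (f z)) = (C ((z : κ) - G.θ) : MvPolynomial Γ κ) • cR (f z) := cR_eig hG hC hcR (hf1 z)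
    show T (if z = z₀ then cR (f z) - u else cR (f z)) =
      (C ((z : κ) - G.θ) : MvPolynomial Γ κ) • (if z = z₀ then cR (f z) - u else cR (f z))
    by_cases hz : z = z₀
    · rw [if_pos hz, map_sub, hTu, sub_zero, h1, hz, hθ, sub_self, map_zero, zero_smul, zero_smul]
    · rw [if_neg hz, h1]
  have hy2 : ∑ z ∈ insert z₀ f.support, y z = 0 := by
    have h1 : ∑ z ∈ insert z₀ f.support, cR (f z) = u := by
      rw [← hf2, Finsupp.sum]
      refine (Finset.sum_subset (Finset.subset_insert z₀ f.support) fun z _ hz => ?_).symm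
      rw [Finsupp.notMem_support_iff.1 hz, map_zero]
    have h2 : ∀ z, y z = cR (f z) - (if z = z₀ then u else 0) := by
      intro z
      show (if z = z₀ then cR (f z) - u else cR (f z)) = cR (f z) - (if z = z₀ then u else 0)
      by_cases hz : z = z₀
      · rw [if_pos hz, if_pos hz]
      · rw [if_neg hz, if_neg hz, sub_zero]
    rw [Finset.sum_congr rfl fun z _ => h2 z, Finset.sum_sub_distrib, h1, Finset.sum_ite_eq',
      if_pos (Finset.mem_insert_self z₀ f.support), sub_self]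
  have hy3 := VFC_ind T hTC G.θ (insert z₀ f.support) y hy1 hy2 z₀ (Finset.mem_insert_self z₀ f.support)
  refine ⟨N, f z₀, hf1 z₀, ?_⟩
  have hy4 : (if z₀ = z₀ then cR (f z₀) - u else cR (f z₀)) = 0 := hy3
  rw [if_pos rfl] at hy4
  exact sub_eq_zero.1 hy4

/-- A flat vector comes from a form of weight `z₀` which is exact after some `(∂_γ + x^γ)^i`. -/
theorem flat_ker (hG : G.Ok0) (hB : G.Bad m P k₀) (hS : Cx.Sat G m P k₀) (hC : Con G m dK nab c)
    (hneg : ∀ k, ∀ x ∈ G.Vd (m + 1) k, (∃ n : ℕ, -(G.θ + k) = n) → c x = 0) (hH : ∃ h : H, h ≠ 0)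
    (z₀ : ℤ) (hθ : G.θ = z₀) {cR : MvPolynomial Γ κ ⊗[κ] V →ₗ[MvPolynomial Γ κ] H}
    (hcR : ∀ r x, cR (r ⊗ₜ[κ] x) = r • c x) {u : H} (hu : u ∈ MM G m c) (hf : ∀ γ, nab γ u = 0) :
    ∃ N, ∃ w ∈ WF G (m + 1) z₀ N, cR w = u ∧ ∀ γ, ∃ (i N' : ℕ), ∃ v ∈ WF G m (z₀ - i) N', G.nF v = (pG G γ)^[i] w := by
  obtain ⟨N, w, hw, hwu⟩ := flat_lift hG hC z₀ hθ hcR hu hf
  refine ⟨N, w, hw, hwu, fun γ => ?_⟩
  have key : ∀ i : ℕ, (pG G γ)^[i + 1] w ∈ WF G (m + 1) (z₀ - (i + 1 : ℕ)) (N + (i + 1)) ∧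
      cR ((pG G γ)^[i + 1] w) = 0 := by
    intro i
    induction i with
    | zero =>
      refine ⟨?_, ?_⟩
      · have h := pG_WF hG γ hw
        rw [Function.iterate_succ_apply', Function.iterate_zero_apply]
        rwa [zero_add, Nat.cast_one]
      · rw [Function.iterate_succ_apply', Function.iterate_zero_apply, cR_pG hG hC hcR γ hw, hwu, hf γ]
    | succ i ih =>
      obtain ⟨h1, h2⟩ := ih
      refine ⟨?_, ?_⟩
      · have h := pG_WF hG γ h1
        rw [Function.iterate_succ_apply']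
        have e : z₀ - ((i + 1 : ℕ) : ℤ) - 1 = z₀ - ((i + 1 + 1 : ℕ) : ℤ) := by
          push_cast
          ring
        rw [e] at h
        exact h
      · rw [Function.iterate_succ_apply', cR_pG hG hC hcR γ h1, h2, map_zero]
  obtain ⟨h1, h2⟩ := key (z₀ + k₀).toNat
  have hz : z₀ - (((z₀ + k₀).toNat + 1 : ℕ) : ℤ) + k₀ < 0 := by
    push_cast
    have h3 := Int.self_le_toNat (z₀ + k₀)
    linarith
  obtain ⟨v, hv, hvw⟩ := ker_low hG hB hS hC hneg hH hcR hz h1 h2
  exact ⟨(z₀ + k₀).toNat + 1, N + ((z₀ + k₀).toNat + 1), v, hv, hvw⟩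

end main

end MPadcHS
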