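import Pool.Agent.Lib.MP_adc574_ag_HS.FDefs
import Pool.Agent.Lib.MP_adc574_ag_DC.GKosA

/-!
# JOB VFD (HS): the operator `∂ / ∂ a_γ + b_γ` is bijective if `b_γ` is a unit

`P := (pderiv γ) ⊗ 1` and `M := ` multiplication with `1 ⊗ fz (b γ)` are commuting `κ`-linear operators on `FG κ Γ C`, `Dg = P + M`.
* `Dg_nG`: check on `r ⊗ v` (`TensorProduct.induction_on`): `nG (r ⊗ v) = r ⊗ dd v + ∑ g, (X g * r) ⊗ (df (b g) * v)` (`thG κ b = ∑ g, X g ⊗ df κ (b g)`, `Algebra.TensorProduct.tmul_mul_tmul`); `dd (fz (b γ) * v) = df (b γ) * v + fz (b γ) * dd v` (`dd_mul`, `dd_fz`, `inv_fz`); `pderiv γ (X g * r) = (if g = γ then r else 0) + X g * pderiv γ r`: the extra terms `r ⊗ (df (b γ) * v)` agree; `fz` is central (`fz_comm`).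
* Let `u` be the inverse of `b γ`; `M' := ` multiplication with `1 ⊗ fz u` is the inverse of `M`, commutes with `P`. Every `x` is killed by a power of `P`: (`TensorProduct.induction_on`; `pderiv γ` is locally nilpotent: `(pderiv γ)^[N] r = 0` for `N > totalDegree r` (or induction on `r`, `MvPolynomial.induction_on`)).
  Surjectivity: for all `N` and `x` with `P^[N] x = 0` there is `y` with `Dg y = x`: `N = 0`: `x = 0`. `N + 1`: `y₀ := M' x`, `Dg y₀ = x + P (M' x)`, `P (M' x)` is killed by `P^[N]`, so `= Dg y₁`; `y := y₀ - y₁`. If `x ∈ FdG q` then `M' x`, `P x`, `y ∈ FdG q` (`FdG q = (Fd κ C q).restrictScalars κ` base changed: `Submodule.baseChange_eq_span`, `span_induction`; `pderiv γ` of the coefficients: prove `P x ∈ FdG q` for `x ∈ FdG q` by `span_induction` over `MvPolynomial`: for `r • x`: `P (r • x) = pderiv γ r • x + r • P x`; see `dX`, `dX_mem` in DC/GKosA.lean, `dX g` is `P`).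
  Injectivity: `Dg y = 0`, so `y = - M' (P y)`, and by iteration `y = (-1)^N M'^[N] (P^[N] y) = 0`.
* `Dg_pow`: induction on `i`: `i = 0`: clear. `(Dg)^[i + 1] w = nG v`: `v = Dg v'`, `v' ∈ FdG q` (`Dg_surj`): `Dg ((Dg)^[i] w) = Dg (nG v')` (`Dg_nG`), so `(Dg)^[i] w = nG v'` (`Dg_inj`).
-/

set_option autoImplicit false
set_option linter.unusedSectionVars false

namespace MPadcHS

open MvPolynomial TensorProduct MPadcGP MPadcDC

universe u

variable {κ : Type u} [Field κ] [CharZero κ] {Γ : Type} [Fintype Γ] [DecidableEq Γ] {C : Type u} [CommRing C]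
  [Algebra κ C] {b : Γ → C} {γ : Γ}

/-- `∂ / ∂ a_γ + b_γ`. -/
noncomputable def Dg (b : Γ → C) (γ : Γ) : FG κ Γ C →ₗ[κ] FG κ Γ C :=
  ((pderiv γ : Derivation κ (MvPolynomial Γ κ) (MvPolynomial Γ κ)) : MvPolynomial Γ κ →ₗ[κ] MvPolynomial Γ κ).rTensor
    (Fm κ C) + LinearMap.mulLeft κ ((1 : MvPolynomial Γ κ) ⊗ₜ[κ] fz κ (b γ))

theorem Dg_tmul (r : MvPolynomial Γ κ) (v : Fm κ C) :
    Dg b γ (r ⊗ₜ[κ] v) = pderiv γ r ⊗ₜ[κ] v + r ⊗ₜ[κ] (fz κ (b γ) * v) := by
  change pderiv γ r ⊗ₜ[κ] v + ((1 : MvPolynomial Γ κ) ⊗ₜ[κ] fz κ (b γ)) * (r ⊗ₜ[κ] v) = _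
  rw [Algebra.TensorProduct.tmul_mul_tmul, one_mul]

omit [CharZero κ] [DecidableEq Γ] in
private theorem VFD_apply (x : FG κ Γ C) :
    Dg b γ x = dX γ x + ((1 : MvPolynomial Γ κ) ⊗ₜ[κ] fz κ (b γ) : FG κ Γ C) * x := rfl

omit [CharZero κ] [DecidableEq Γ] in
private theorem VFD_mul (r s : MvPolynomial Γ κ) (v w : Fm κ C) :
    (r ⊗ₜ[κ] v : FG κ Γ C) * s ⊗ₜ[κ] w = (r * s) ⊗ₜ[κ] (v * w) :=
  Algebra.TensorProduct.tmul_mul_tmul r s v w

omit [CharZero κ] [DecidableEq Γ] in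
private theorem VFD_dX (g : Γ) (r : MvPolynomial Γ κ) (w : Fm κ C) :
    dX g (r ⊗ₜ[κ] w : FG κ Γ C) = pderiv g r ⊗ₜ[κ] w := rfl

omit [CharZero κ] [DecidableEq Γ] in
private theorem VFD_comm (a : C) (y : FG κ Γ C) :
    ((1 : MvPolynomial Γ κ) ⊗ₜ[κ] fz κ a : FG κ Γ C) * y = y * ((1 : MvPolynomial Γ κ) ⊗ₜ[κ] fz κ a : FG κ Γ C) := by
  induction y using TensorProduct.induction_on with
  | zero => rw [mul_zero, zero_mul]
  | tmul r v => rw [VFD_mul, VFD_mul, one_mul, mul_one, fz_comm]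
  | add x y hx hy => rw [mul_add, add_mul, hx, hy]

omit [CharZero κ] [DecidableEq Γ] in
private theorem VFD_dX_m (a : C) (y : FG κ Γ C) :
    dX γ (((1 : MvPolynomial Γ κ) ⊗ₜ[κ] fz κ a : FG κ Γ C) * y) =
      ((1 : MvPolynomial Γ κ) ⊗ₜ[κ] fz κ a : FG κ Γ C) * dX γ y := by
  rw [dX_tz_mul, pderiv_one, TensorProduct.zero_tmul, zero_mul, zero_add]

omit [CharZero κ] [DecidableEq Γ] in
private theorem VFD_d_m (a : C) (y : FG κ Γ C) :
    (MPadcDC.ddl κ C).baseChange (MvPolynomial Γ κ) (((1 : MvPolynomial Γ κ) ⊗ₜ[κ] fz κ a : FG κ Γ C) * y) =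
      ((1 : MvPolynomial Γ κ) ⊗ₜ[κ] df κ a : FG κ Γ C) * y +
        ((1 : MvPolynomial Γ κ) ⊗ₜ[κ] fz κ a : FG κ Γ C) * (MPadcDC.ddl κ C).baseChange (MvPolynomial Γ κ) y := by
  induction y using TensorProduct.induction_on with
  | zero => simp only [mul_zero, map_zero, add_zero]
  | tmul r v =>
    rw [VFD_mul, VFD_mul, one_mul, LinearMap.baseChange_tmul, LinearMap.baseChange_tmul, VFD_mul, one_mul]
    change r ⊗ₜ[κ] dd κ (fz κ a * v) = r ⊗ₜ[κ] (df κ a * v) + r ⊗ₜ[κ] (fz κ a * dd κ v)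
    rw [dd_mul, dd_fz, inv_fz, TensorProduct.tmul_add]
  | add x y hx hy =>
    simp only [mul_add, map_add, hx, hy]
    abel

omit [CharZero κ] [DecidableEq Γ] in
private theorem VFD_d_dX (y : FG κ Γ C) :
    dX γ ((MPadcDC.ddl κ C).baseChange (MvPolynomial Γ κ) y) =
      (MPadcDC.ddl κ C).baseChange (MvPolynomial Γ κ) (dX γ y) := by
  induction y using TensorProduct.induction_on with
  | zero => simp only [map_zero]
  | tmul r v => rw [LinearMap.baseChange_tmul, VFD_dX, VFD_dX, LinearMap.baseChange_tmul]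
  | add x y hx hy => simp only [map_add, hx, hy]

theorem Dg_nG (x : FG κ Γ C) : Dg b γ (nG κ b x) = nG κ b (Dg b γ x) := by
  have e1 : thG κ b * (((1 : MvPolynomial Γ κ) ⊗ₜ[κ] fz κ (b γ) : FG κ Γ C) * x) =
      ((1 : MvPolynomial Γ κ) ⊗ₜ[κ] fz κ (b γ) : FG κ Γ C) * (thG κ b * x) := by
    rw [← mul_assoc, ← mul_assoc, VFD_comm]
  rw [VFD_apply, VFD_apply, nG_apply, nG_apply, map_add, map_add, VFD_d_dX, dX_thG, VFD_d_m, mul_add, mul_add, e1]
  abel

omit [CharZero κ] [Fintype Γ] [DecidableEq Γ] in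
private theorem VFD_nil (γ : Γ) (r : MvPolynomial Γ κ) : ∃ N : ℕ, (pderiv γ)^[N] r = 0 := by
  classical
  have h0 : ∀ N : ℕ, (pderiv γ)^[N] (0 : MvPolynomial Γ κ) = 0 := by
    intro N
    induction N with
    | zero => rfl
    | succ N ih => rw [Function.iterate_succ_apply', ih, map_zero]
  have hadd : ∀ (N : ℕ) (p q : MvPolynomial Γ κ), (pderiv γ)^[N] (p + q) = (pderiv γ)^[N] p + (pderiv γ)^[N] q := by
    intro N
    induction N with
    | zero => intro p q; rfl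
    | succ N ih =>
      intro p q
      rw [Function.iterate_succ_apply, Function.iterate_succ_apply, Function.iterate_succ_apply, map_add, ih]
  induction r using MvPolynomial.induction_on' with
  | monomial d a =>
    have key : ∀ (n : ℕ) (d : Γ →₀ ℕ) (a : κ), d γ = n → (pderiv γ)^[n + 1] (monomial d a) = 0 := by
      intro n
      induction n with
      | zero =>
        intro d a hd
        rw [Function.iterate_succ_apply, pderiv_monomial, hd, Nat.cast_zero, mul_zero, map_zero]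
        rfl
      | succ n ih =>
        intro d a hd
        rw [Function.iterate_succ_apply, pderiv_monomial]
        exact ih _ _ (by rw [Finsupp.tsub_apply, Finsupp.single_eq_same, hd]; rfl)
    exact ⟨_, key _ d a rfl⟩
  | add p q hp hq =>
    obtain ⟨N, hN⟩ := hp
    obtain ⟨M, hM⟩ := hq
    refine ⟨N + M, ?_⟩
    rw [hadd, Function.iterate_add_apply (pderiv γ) N M q, hM, h0, add_zero, add_comm N M, Function.iterate_add_apply, hN, h0]

omit [CharZero κ] [DecidableEq Γ] in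
private theorem VFD_nilx (γ : Γ) (x : FG κ Γ C) : ∃ N : ℕ, (dX γ)^[N] x = 0 := by
  have h0 : ∀ N : ℕ, (dX γ)^[N] (0 : FG κ Γ C) = 0 := by
    intro N
    induction N with
    | zero => rfl
    | succ N ih => rw [Function.iterate_succ_apply', ih, map_zero]
  have hadd : ∀ (N : ℕ) (p q : FG κ Γ C), (dX γ)^[N] (p + q) = (dX γ)^[N] p + (dX γ)^[N] q := by
    intro N
    induction N with
    | zero => intro p q; rfl
    | succ N ih =>
      intro p q
      rw [Function.iterate_succ_apply, Function.iterate_succ_apply, Function.iterate_succ_apply, map_add, ih]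
  induction x using TensorProduct.induction_on with
  | zero => exact ⟨0, rfl⟩
  | tmul r v =>
    obtain ⟨N, hN⟩ := VFD_nil γ r
    refine ⟨N, ?_⟩
    have h1 : ∀ (N : ℕ) (r : MvPolynomial Γ κ), (dX γ)^[N] (r ⊗ₜ[κ] v : FG κ Γ C) = (pderiv γ)^[N] r ⊗ₜ[κ] v := by
      intro N
      induction N with
      | zero => intro r; rfl
      | succ N ih =>
        intro r
        rw [Function.iterate_succ_apply, VFD_dX, ih, Function.iterate_succ_apply]
    rw [h1, hN, TensorProduct.zero_tmul]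
  | add x y hx hy =>
    obtain ⟨N, hN⟩ := hx
    obtain ⟨M, hM⟩ := hy
    refine ⟨N + M, ?_⟩
    rw [hadd, Function.iterate_add_apply, Function.iterate_add_apply, hM, h0, add_zero, ← Function.iterate_add_apply,
      add_comm N M, Function.iterate_add_apply, hN, h0]

theorem Dg_inj (hu : IsUnit (b γ)) : Function.Injective (Dg b γ : FG κ Γ C →ₗ[κ] FG κ Γ C) := by
  obtain ⟨u, hu⟩ := hu.exists_left_inv
  have hM : ∀ y : FG κ Γ C, ((1 : MvPolynomial Γ κ) ⊗ₜ[κ] fz κ u : FG κ Γ C) *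
      (((1 : MvPolynomial Γ κ) ⊗ₜ[κ] fz κ (b γ) : FG κ Γ C) * y) = y := by
    intro y
    rw [← mul_assoc, VFD_mul, one_mul, ← map_mul, hu, map_one, ← Algebra.TensorProduct.one_def, one_mul]
  rw [injective_iff_map_eq_zero]
  intro y hy
  obtain ⟨N, hN⟩ := VFD_nilx γ y
  induction N generalizing y with
  | zero => exact hN
  | succ N ih =>
    have h1 : dX γ y = 0 := by
      refine ih (dX γ y) ?_ ?_
      · have h2 := congrArg (dX γ) hy
        rw [VFD_apply, map_add, VFD_dX_m, map_zero] at h2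
        rw [VFD_apply]
        exact h2
      · rw [← Function.iterate_succ_apply]
        exact hN
    rw [VFD_apply, h1, zero_add] at hy
    rw [← hM y, hy, mul_zero]

theorem Dg_surj (hu : IsUnit (b γ)) {q : ℕ} {x : FG κ Γ C} (hx : x ∈ FdG κ Γ (C := C) q) :
    ∃ y ∈ FdG κ Γ (C := C) q, Dg b γ y = x := by
  obtain ⟨u, hu⟩ := hu.exists_right_inv
  have hM : ∀ y : FG κ Γ C, ((1 : MvPolynomial Γ κ) ⊗ₜ[κ] fz κ (b γ) : FG κ Γ C) *
      (((1 : MvPolynomial Γ κ) ⊗ₜ[κ] fz κ u : FG κ Γ C) * y) = y := by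
    intro y
    rw [← mul_assoc, VFD_mul, one_mul, ← map_mul, hu, map_one, ← Algebra.TensorProduct.one_def, one_mul]
  have hmem : ∀ y ∈ FdG κ Γ (C := C) q, ((1 : MvPolynomial Γ κ) ⊗ₜ[κ] fz κ u : FG κ Γ C) * y ∈ FdG κ Γ (C := C) q :=
    fun y hy => tz_mul_FdG ((1 : MvPolynomial Γ κ) ⊗ₜ[κ] u) hy
  have hit : ∀ (N : ℕ) (y : FG κ Γ C), (dX γ)^[N] (((1 : MvPolynomial Γ κ) ⊗ₜ[κ] fz κ u : FG κ Γ C) * y) =
      ((1 : MvPolynomial Γ κ) ⊗ₜ[κ] fz κ u : FG κ Γ C) * (dX γ)^[N] y := by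
    intro N
    induction N with
    | zero => intro y; rfl
    | succ N ih => intro y; rw [Function.iterate_succ_apply, VFD_dX_m, ih, Function.iterate_succ_apply]
  obtain ⟨N, hN⟩ := VFD_nilx γ x
  induction N generalizing x with
  | zero =>
    have h1 : x = 0 := hN
    exact ⟨0, Submodule.zero_mem _, by rw [map_zero, h1]⟩
  | succ N ih =>
    obtain ⟨y, hy, h1⟩ := ih (x := ((1 : MvPolynomial Γ κ) ⊗ₜ[κ] fz κ u : FG κ Γ C) * dX γ x)
      (hmem _ (dX_mem γ hx)) (by rw [hit, ← Function.iterate_succ_apply, hN, mul_zero])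
    refine ⟨((1 : MvPolynomial Γ κ) ⊗ₜ[κ] fz κ u : FG κ Γ C) * x - y, Submodule.sub_mem _ (hmem _ hx) hy, ?_⟩
    rw [map_sub, h1, VFD_apply, VFD_dX_m, hM]
    abel

theorem Dg_pow (hu : IsUnit (b γ)) {q : ℕ} (i : ℕ) {w v : FG κ Γ C} (hv : v ∈ FdG κ Γ (C := C) q)
    (h : nG κ b v = (Dg b γ)^[i] w) : ∃ y ∈ FdG κ Γ (C := C) q, nG κ b y = w := by
  induction i generalizing v with
  | zero => exact ⟨v, hv, h⟩
  | succ i ih =>
    obtain ⟨v', hv', h1⟩ := Dg_surj hu hv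
    rw [← h1, ← Dg_nG, Function.iterate_succ_apply'] at h
    exact ih hv' (Dg_inj hu h)

end MPadcHS
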