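import Pool.Agent.Lib.MP_adc574_ag_HS.VFC
import Pool.Agent.Lib.MP_adc574_ag_HS.VFD

/-!
# JOB VFE (HS): a flat vector comes from a form which is locally exact

`G := cxS hJ.homog 1 1`: `G.d = dd`, `G.mul γ v = fz (xm J γ.1) * v`, `G.wd γ v = df (xm J γ.1) * v`, `G.Vd q k = Om J q (1 + 1 * k)`, all by `rfl` (see the proofs in V5B.lean). `loG Γ φ (r ⊗ v) = r ⊗ mpA φ v`, `mpA φ v = mp φ v`.
* `lo_pG`, `lo_nF`: check on `r ⊗ v` (`TensorProduct.induction_on`): `mp_fz`, `mp_df`, `mp_dd`, `map_mul`. `G.nF (r ⊗ v) = r ⊗ G.d v + ∑ g, (X g * r) ⊗ G.wd g v` (`Cx.nF`, `Cx.TF`).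
* `WF_VR`, `WF_Fd`: `span_induction`: `r ⊗ v = r • (1 ⊗ v)`; `Om J q j ≤ Fd q` (`c5c_om_fd`, DC/C5C.lean; copy it or import that file), `loG` of `r ⊗ v` is `r ⊗ mp v`, `mp_mem`.
* `flat_loc`: if every `h : ↥H` is `0` take `w = 0`, `v = 0` (`u = 0`). Otherwise `cxS_bad'` (V5B) gives `P, k₀, Bad, Sat`; `θ = 1` (`z₀ = 1`), `hneg` vacuous: both as in V7A.lean (copy the lines for `hθ` and `hneg`). `flat_ker` (VFC): `w`, and for `γ := mon0 1 l` numbers `i, N'` and `v ∈ WF`, `G.nF v = (pG G γ)^[i] w`. Apply `loG (lmC J {l})`: `nG (bC J 1 {l}) (loG v) = (Dg (bC J 1 {l}) γ)^[i] (loG w)`; `bC J 1 {l} (mon0 1 l) = lx J {l} l` is a unit (`lx_isUnit`; `xm J (single l 1) = mk (X l)`, see `bl_mon0` in DC/GEul.lean). `Dg_pow` (VFD).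
-/

set_option autoImplicit false
set_option linter.unusedSectionVars false

namespace MPadcHS

open MvPolynomial TensorProduct MPadcGP MPadcDC

universe u

variable {κ : Type u} [Field κ] [CharZero κ] {n : ℕ} {J : Ideal (MvPolynomial (Fin n) κ)}

private theorem VFE_A {k R V V' : Type u} [CommRing k] [CommRing R] [Algebra k R] [AddCommGroup V] [Module k V]
    [AddCommGroup V'] [Module k V'] (f : V → V') (L : R ⊗[k] V →+ R ⊗[k] V') (hL : ∀ r v, L (r ⊗ₜ[k] v) = r ⊗ₜ[k] f v)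
    (D : R → R) (M : V → V) (M' : V' → V') (hM : ∀ v, f (M v) = M' (f v)) (p : R ⊗[k] V →+ R ⊗[k] V)
    (hp : ∀ r v, p (r ⊗ₜ[k] v) = D r ⊗ₜ[k] v + r ⊗ₜ[k] M v) (q : R ⊗[k] V' →+ R ⊗[k] V')
    (hq : ∀ r v, q (r ⊗ₜ[k] v) = D r ⊗ₜ[k] v + r ⊗ₜ[k] M' v) (x : R ⊗[k] V) : L (p x) = q (L x) := by
  induction x using TensorProduct.induction_on with
  | zero => rw [map_zero, map_zero, map_zero]
  | tmul r v => rw [hp, map_add, hL, hL, hL, hq, hM]
  | add x y hx hy => rw [map_add, map_add, hx, hy, map_add, map_add]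

private theorem VFE_B {k R V V' : Type u} [CommRing k] [CommRing R] [Algebra k R] [AddCommGroup V] [Module k V]
    [AddCommGroup V'] [Module k V'] (f : V → V') (L : R ⊗[k] V →+ R ⊗[k] V') (hL : ∀ r v, L (r ⊗ₜ[k] v) = r ⊗ₜ[k] f v)
    (M : V →ₗ[k] V) (M' : V' →ₗ[k] V') (hM : ∀ v, f (M v) = M' (f v)) (x : R ⊗[k] V) :
    L (M.baseChange R x) = M'.baseChange R (L x) := by
  induction x using TensorProduct.induction_on with
  | zero => rw [map_zero, map_zero, map_zero]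
  | tmul r v => rw [LinearMap.baseChange_tmul, hL, hL, LinearMap.baseChange_tmul, hM]
  | add x y hx hy => rw [map_add, map_add, hx, hy, map_add, map_add]

private theorem VFE_C {S S' : Type u} [Ring S] [Ring S'] (L : S →+* S') (a b x : S) (a' b' : S') (ha : L a = a')
    (hb : L b = b') : L (a + b * x) = a' + b' * L x := by
  rw [map_add, map_mul, ha, hb]

theorem lo_pG (hJ : IsHomog J) (C : Finset (Fin n)) (γ : Mon n 1) (x : Ra κ n 1 ⊗[κ] Fm κ (CR J)) :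
    loG (Mon n 1) (lmC J C) (pG (cxS hJ 1 1) γ x) = Dg (bC J 1 C) γ (loG (Mon n 1) (lmC J C) x) := by
  refine VFE_A (k := κ) (R := Ra κ n 1) (V := Fm κ (CR J)) (V' := Fm κ (LR J C))
    (mp ((lmC J C : CR J →ₐ[κ] LR J C) : CR J →+* LR J C) (CC.of_algHom (lmC J C)))
    (loG (Mon n 1) (lmC J C)).toRingHom.toAddMonoidHom (fun r v => loG_tmul (lmC J C) r v)
    (fun r => pderiv γ r) (fun v => fz κ (xm J γ.1) * v) (fun v => fz κ (bC J 1 C γ) * v) (fun v => ?_)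
    (pG (cxS hJ 1 1) γ).toAddMonoidHom (fun r v => pG_tmul (cxS hJ 1 1) γ r v)
    (Dg (bC J 1 C) γ).toAddMonoidHom (fun r v => Dg_tmul r v) x
  rw [map_mul, mp_fz]
  rfl

omit [CharZero κ] in
private theorem VFE_dd (C : Finset (Fin n)) (x : Ra κ n 1 ⊗[κ] Fm κ (CR J)) :
    loG (Mon n 1) (lmC J C) ((MPadcDC.ddl κ (CR J)).baseChange (Ra κ n 1) x) =
      (MPadcDC.ddl κ (LR J C)).baseChange (Ra κ n 1) (loG (Mon n 1) (lmC J C) x) :=
  VFE_B (k := κ) (R := Ra κ n 1) (V := Fm κ (CR J)) (V' := Fm κ (LR J C))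
    (mp ((lmC J C : CR J →ₐ[κ] LR J C) : CR J →+* LR J C) (CC.of_algHom (lmC J C)))
    (loG (Mon n 1) (lmC J C)).toRingHom.toAddMonoidHom (fun r v => loG_tmul (lmC J C) r v)
    (MPadcDC.ddl κ (CR J)) (MPadcDC.ddl κ (LR J C)) (fun v => mp_dd _ v) x

theorem lo_nF (hJ : IsHomog J) (C : Finset (Fin n)) (x : Ra κ n 1 ⊗[κ] Fm κ (CR J)) :
    loG (Mon n 1) (lmC J C) ((cxS hJ 1 1).nF x) = nG κ (bC J 1 C) (loG (Mon n 1) (lmC J C) x) := by
  have h1 : loG (Mon n 1) (lmC J C) (thF J 1) = thG κ (bC J 1 C) := loG_thG (lmC J C) (fun g : Mon n 1 => xm J g.1)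
  exact (congrArg (loG (Mon n 1) (lmC J C)) (cxS_nF hJ x)).trans
    (VFE_C (loG (Mon n 1) (lmC J C)).toRingHom _ _ _ _ _ (VFE_dd C x) h1)

private theorem VFE_le {κ : Type u} [Field κ] {Γ : Type} [Fintype Γ] {V : Type u} [AddCommGroup V] [Module κ V]
    (G : Cx κ Γ V) {q : ℕ} {z : ℤ} {N : ℕ} (S : Submodule (MvPolynomial Γ κ) (MvPolynomial Γ κ ⊗[κ] V))
    (hS : ∀ (k : ℕ) (r : MvPolynomial Γ κ) (v : V), v ∈ G.Vd q k → r ⊗ₜ[κ] v ∈ S) {w : MvPolynomial Γ κ ⊗[κ] V}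
    (hw : w ∈ WF G q z N) : w ∈ S := by
  unfold WF at hw
  induction hw using Submodule.span_induction with
  | mem w hw =>
    obtain ⟨k, j, r, v, -, -, -, hv, rfl⟩ := hw
    exact hS k r v hv
  | zero => exact Submodule.zero_mem _
  | add x y _ _ hx hy => exact Submodule.add_mem _ hx hy
  | smul a x _ hx => exact Submodule.smul_of_tower_mem _ a hx

private theorem VFE_VR {κ : Type u} [Field κ] {Γ : Type} [Fintype Γ] {V : Type u} [AddCommGroup V] [Module κ V]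
    (G : Cx κ Γ V) {q : ℕ} {z : ℤ} {N : ℕ} {w : MvPolynomial Γ κ ⊗[κ] V} (hw : w ∈ WF G q z N) :
    w ∈ ⨆ k, G.VR q k :=
  VFE_le G _ (fun k r _ hv => Submodule.mem_iSup_of_mem k (Submodule.tmul_mem_baseChange_of_mem r hv)) hw

theorem WF_VR (hJ : IsHomog J) {q : ℕ} {z : ℤ} {N : ℕ} {w : Ra κ n 1 ⊗[κ] Fm κ (CR J)}
    (hw : w ∈ WF (cxS hJ 1 1) q z N) : w ∈ ⨆ k, (cxS hJ 1 1).VR q k := VFE_VR (cxS hJ 1 1) hw

theorem WF_Fd (hJ : IsHomog J) {q : ℕ} {z : ℤ} {N : ℕ} {w : Ra κ n 1 ⊗[κ] Fm κ (CR J)}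
    (hw : w ∈ WF (cxS hJ 1 1) q z N) (C : Finset (Fin n)) :
    loG (Mon n 1) (lmC J C) w ∈ FdG κ (Mon n 1) (C := LR J C) q :=
  loG_mem (lmC J C) (VFE_le (cxS hJ 1 1) (FdG κ (Mon n 1) (C := CR J) q)
    (fun k r v hv => tmul_FdG (κ := κ) (C := CR J) r (Om_le (j := 1 + 1 * k) hv)) hw)

variable {K : Type u} [Field K] [Algebra κ K] [Algebra (Ra κ n 1) K] [IsScalarTower κ (Ra κ n 1) K]
  [IsFractionRing (Ra κ n 1) K] {H : Type u} [AddCommGroup H] [Module K H] [Module (Ra κ n 1) H]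
  [IsScalarTower (Ra κ n 1) K H] {dK : Mon n 1 → Derivation ℤ K K} {nab : Mon n 1 → H →+ H} {c : Fm κ (CR J) →+ H}

/-- A flat vector of the lattice comes from a form which is exact on every chart of the cone. -/
theorem flat_loc {m : ℕ} (hJ : Good J (m + 2)) (hC : Con (cxS hJ.homog 1 1) (m + 2) dK nab c)
    {cR : Ra κ n 1 ⊗[κ] Fm κ (CR J) →ₗ[Ra κ n 1] H} (hcR : ∀ r x, cR (r ⊗ₜ[κ] x) = r • c x) {u : H}
    (hu : u ∈ MM (cxS hJ.homog 1 1) (m + 2) c) (hfl : ∀ g, nab g u = 0) :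
    ∃ w ∈ ⨆ k, (cxS hJ.homog 1 1).VR (m + 3) k, cR w = u ∧ ∀ l : Fin n,
      ∃ v ∈ FdG κ (Mon n 1) (C := LR J {l}) (m + 2), nG κ (bC J 1 {l}) v = loG (Mon n 1) (lmC J {l}) w := by
  classical
  by_cases hH : ∃ h : H, h ≠ 0
  · have hOk0 : (cxS hJ.homog 1 1).Ok0 := cxS_ok0 hJ.homog le_rfl 1
    have hθ : (cxS hJ.homog 1 1).θ = ((1 : ℤ) : κ) := by
      change ((1 : ℕ) : κ) / ((1 : ℕ) : κ) = _
      rw [Nat.cast_one, div_one, Int.cast_one]
    have hneg : ∀ k, ∀ x ∈ (cxS hJ.homog 1 1).Vd (m + 2 + 1) k,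
        (∃ N : ℕ, -((cxS hJ.homog 1 1).θ + k) = N) → c x = 0 := by
      rintro k x - ⟨N, hN⟩
      exfalso
      rw [hθ, Int.cast_one] at hN
      have h1 : ((N + k + 1 : ℕ) : κ) = 0 := by
        push_cast
        rw [← hN]
        ring
      exact absurd (Nat.cast_eq_zero.1 h1) (Nat.succ_ne_zero _)
    obtain ⟨P, k₀, hB, hS⟩ := cxS_bad' hJ le_rfl 1
    obtain ⟨N, w, hw, hwu, hk⟩ := flat_ker hOk0 hB hS hC hneg hH 1 hθ hcR hu hfl
    refine ⟨w, WF_VR hJ.homog hw, hwu, fun l => ?_⟩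
    obtain ⟨i, N', v, hv, hvw⟩ := hk (mon0 1 l)
    have h1 := (lo_nF hJ.homog {l} v).symm.trans (congrArg (loG (Mon n 1) (lmC J {l})) hvw)
    have h2 : ∀ (i : ℕ) (x : Ra κ n 1 ⊗[κ] Fm κ (CR J)),
        loG (Mon n 1) (lmC J {l}) ((pG (cxS hJ.homog 1 1) (mon0 1 l))^[i] x) =
          (Dg (bC J 1 {l}) (mon0 1 l))^[i] (loG (Mon n 1) (lmC J {l}) x) := by
      intro i x
      induction i with
      | zero => rfl
      | succ i ih =>
        rw [Function.iterate_succ_apply', Function.iterate_succ_apply', ← ih]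
        exact lo_pG hJ.homog {l} (mon0 1 l) _
    have h3 : bC J 1 {l} (mon0 1 l) = lx J {l} l := rfl
    have h5 : IsUnit (bC J 1 {l} (mon0 1 l)) := by
      rw [h3]
      exact lx_isUnit J {l} (Finset.mem_singleton_self l)
    exact Dg_pow h5 i (WF_Fd hJ.homog hv {l}) (h1.trans (h2 i w))
  · push Not at hH
    exact ⟨0, Submodule.zero_mem _, (cR.map_zero).trans (hH u).symm, fun l => ⟨0, Submodule.zero_mem _,
      (LinearMap.map_zero (nG κ (bC J 1 {l}))).trans (map_zero (loG (Mon n 1) (lmC J {l}))).symm⟩⟩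

end MPadcHS
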