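import Pool.Agent.Lib.MP_adc574_ag_HS.FDefs
import Pool.Agent.Lib.MP_adc574_ag_DC.GFra
import Pool.Agent.Lib.MP_adc574_ag_GP.Lifts

/-!
# JOB VFF (HS): the derivations on the smaller charts of the cone

* `fra_loc` (general): `ψ : C₀ → C'` a homomorphism of `κ`-algebras which is a localization (`IsLocalization M C'` for a submonoid `M` of `C₀`, algebra structure `ψ.toRingHom.toAlgebra`). Every `D : Derivation κ C₀ C₀` extends: `C'` is formally étale over `C₀` (`Algebra.FormallyEtale.of_isLocalization M`), `exists_lift_der` (GP/Lifts.lean, with `A := C₀`, `R := C'`, `D.restrictScalars ℤ`) gives `V : Derivation ℤ C' C'` with `V (ψ x) = ψ (D x)`; `V` kills the image of `κ` (`D (algebraMap κ C₀ a) = 0`), so it is a `κ`-derivation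
  (`Derivation.mk'` with `V (a • x) = V (algebraMap a * x) = a • V x`, `Algebra.smul_def`). Let `D' g` be the extensions. `tr`: apply `ψ`. `sum`: `T x := ∑ g, fz (D' g x) * df (ψ (b g))` and `df x` are both additive with `T (x * y) = fz x * T y + fz y * T x`; they agree on the image of `ψ` (apply `mp ψ` to `hF.sum`: `mp_fz`, `mp_df`). For `x : C'` there is `s ∈ M` with `ψ s * x = ψ y`:
  `fz (ψ s) * T x + fz x * T (ψ s) = T (ψ y)`, the same for `df`, so `fz (ψ s) * (T x - df x) = 0` and `fz (ψ s)` is a unit.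
* `exists_fraC`: `C₀ = LR J {l}`, `C' = LR J C`, `ψ = lmap (RingHom.id κ) _ (Finset.singleton_subset_iff.2 hlC)` (GP/Mod2.lean; as an algebra homomorphism: `lmap_base`). It is a localization of `C₀` at the powers of the image of `∏ j ∈ C, X j` (both are localizations of `CR J`: `IsLocalization.Away` of a product; e.g. `IsLocalization.isLocalization_isLocalization_atPrime_isLocalization`-like lemmas are not needed: `IsLocalization.Away.mul` / `IsLocalization.Away.of_...`, or check the three properties directly (map of the generator is a unit; surjectivity up to powers; kernel killed by powers), using that `LR J C` and `LR J {l}` are localizations of `CR J` and `ψ` is compatible with the maps from `CR J`).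
  `exists_fra hJ le_rfl hl` (DC/GFra.lean; `bl J 1 l g = lm J l (xm J g.1)`), `ψ (bl J 1 l g) = bC J 1 C g` (`ψ ∘ algebraMap (CR J) (LR J {l}) = algebraMap (CR J) (LR J C)`).
-/

set_option autoImplicit false
set_option linter.unusedSectionVars false

namespace MPadcHS

open MvPolynomial TensorProduct MPadcGP MPadcDC

universe u

/-- Derivations extend to localizations. -/
private theorem VFF_der {κ : Type u} [Field κ] {C₀ C' : Type u} [CommRing C₀] [CommRing C']
    [Algebra κ C₀] [Algebra κ C'] (ψ : C₀ →ₐ[κ] C') (M : Submonoid C₀)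
    (hM : @IsLocalization _ _ M C' _ ψ.toRingHom.toAlgebra) (D : Derivation κ C₀ C₀) :
    ∃ V : Derivation κ C' C', ∀ x, V (ψ x) = ψ (D x) := by
  let _ : Algebra C₀ C' := ψ.toRingHom.toAlgebra
  have hL : IsLocalization M C' := hM
  have hfe : Algebra.FormallyEtale C₀ C' := Algebra.FormallyEtale.of_isLocalization M
  obtain ⟨V, hV⟩ := exists_lift_der (A := C₀) (R := C') (D.restrictScalars ℤ)
  have hV1 : ∀ x, V (ψ x) = ψ (D x) := hV
  have hV2 : ∀ a : κ, V (algebraMap κ C' a) = 0 := by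
    intro a
    rw [← ψ.commutes a, hV1, Derivation.map_algebraMap, map_zero]
  have hV3 : ∀ (a : κ) (x : C'), V (a • x) = a • V x := by
    intro a x
    rw [Algebra.smul_def, Derivation.leibniz, hV2, smul_zero, add_zero, smul_eq_mul, Algebra.smul_def]
  exact ⟨Derivation.mk' ({ toFun := V, map_add' := map_add V, map_smul' := hV3 } : C' →ₗ[κ] C')
    fun x y => V.leibniz x y, hV1⟩

theorem fra_loc {κ : Type u} [Field κ] [CharZero κ] {Γ : Type} [Fintype Γ] {C₀ C' : Type u} [CommRing C₀] [CommRing C']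
    [Algebra κ C₀] [Algebra κ C'] (ψ : C₀ →ₐ[κ] C') (M : Submonoid C₀)
    (hM : @IsLocalization _ _ M C' _ ψ.toRingHom.toAlgebra) {b : Γ → C₀} {D : Γ → Derivation κ C₀ C₀} {m : ℕ}
    (hF : Fra κ b D m) : ∃ D' : Γ → Derivation κ C' C', Fra κ (fun g => ψ (b g)) D' m := by
  have h1 : ∀ g, ∃ V : Derivation κ C' C', ∀ x, V (ψ x) = ψ (D g x) := fun g => VFF_der ψ M hM (D g)
  choose D' hD' using h1
  have h2 : ∀ x, ∑ g, fz κ (D' g (ψ x)) * df κ (ψ (b g)) = df κ (ψ x) := by
    intro x
    have h3 := congrArg (mp (ψ : C₀ →+* C') (CC.of_algHom ψ)) (hF.sum x)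
    rw [map_sum, mp_df] at h3
    refine Eq.trans (Finset.sum_congr rfl fun g _ => ?_) h3
    rw [map_mul, mp_fz, mp_df, hD']
    rfl
  refine ⟨D', ⟨fun x => ?_, ?_⟩⟩
  · let _ : Algebra C₀ C' := ψ.toRingHom.toAlgebra
    have hL : IsLocalization M C' := hM
    obtain ⟨⟨y, s⟩, hs⟩ := IsLocalization.surj M x
    have hu : IsUnit (ψ s) := IsLocalization.map_units C' s
    have hs1 : x * ψ s = ψ y := hs
    obtain ⟨T, hT⟩ : ∃ T : C' → Fm κ C', ∀ x, T x = ∑ g, fz κ (D' g x) * df κ (ψ (b g)) := ⟨_, fun x => rfl⟩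
    have hT1 : T (x * ψ s) = fz κ x * T (ψ s) + fz κ (ψ s) * T x := by
      rw [hT, hT, hT, Finset.mul_sum, Finset.mul_sum, ← Finset.sum_add_distrib]
      refine Finset.sum_congr rfl fun g _ => ?_
      rw [Derivation.leibniz, smul_eq_mul, smul_eq_mul, map_add, map_mul, map_mul, add_mul, mul_assoc, mul_assoc]
    have hT2 : T (x * ψ s) = df κ (x * ψ s) := by
      rw [hs1, hT]
      exact h2 y
    have hT3 : T (ψ s) = df κ (ψ s) := by
      rw [hT]
      exact h2 s
    rw [hT1, hT3, df_mul] at hT2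
    have hT4 := add_left_cancel hT2
    rw [← hT]
    exact (hu.map (fz κ)).mul_left_cancel hT4
  · have h3 := congrArg ψ hF.tr
    rw [map_sum, map_natCast] at h3
    refine Eq.trans (Finset.sum_congr rfl fun g _ => ?_) h3
    exact hD' g _

/-- `S[1/x_C]` is a localization of `S[1/x_l]`. -/
private theorem VFF_loc {κ : Type u} [Field κ] {n : ℕ} {J : Ideal (MvPolynomial (Fin n) κ)} {l : Fin n}
    {C : Finset (Fin n)} (hlC : l ∈ C) : ∃ (ψ : LR J {l} →ₐ[κ] LR J C) (M : Submonoid (LR J {l})),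
      @IsLocalization _ _ M (LR J C) _ ψ.toRingHom.toAlgebra ∧
      ∀ x : CR J, ψ (algebraMap (CR J) (LR J {l}) x) = algebraMap (CR J) (LR J C) x := by
  have hid : ∀ f ∈ J, MvPolynomial.map (RingHom.id κ) f ∈ J := fun f hf => by rwa [MvPolynomial.map_id]
  obtain ⟨ψ, hψ⟩ : ∃ ψ : LR J {l} →ₐ[κ] LR J C, ∀ l', ψ (lx J {l} l') = lx J C l' :=
    ⟨{ lmap (RingHom.id κ) hid (Finset.singleton_subset_iff.2 hlC) with
        commutes' := fun r => lmap_base (RingHom.id κ) hid (Finset.singleton_subset_iff.2 hlC) r },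
      fun l' => lmap_lx (RingHom.id κ) hid (Finset.singleton_subset_iff.2 hlC) l'⟩
  have h1 : ∀ x : CR J, ψ (algebraMap (CR J) (LR J {l}) x) = algebraMap (CR J) (LR J C) x := by
    have h2 : ((ψ : LR J {l} →+* LR J C).comp (algebraMap (CR J) (LR J {l}))).comp (Ideal.Quotient.mk J) =
        (algebraMap (CR J) (LR J C)).comp (Ideal.Quotient.mk J) := by
      refine MvPolynomial.ringHom_ext (fun a => ?_) fun l' => hψ l'
      have h3 : algebraMap (CR J) (LR J {l}) (Ideal.Quotient.mk J (MvPolynomial.C a)) = algebraMap κ (LR J {l}) a := by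
        rw [IsScalarTower.algebraMap_apply κ (CR J) (LR J {l})]
        rfl
      have h4 : algebraMap (CR J) (LR J C) (Ideal.Quotient.mk J (MvPolynomial.C a)) = algebraMap κ (LR J C) a := by
        rw [IsScalarTower.algebraMap_apply κ (CR J) (LR J C)]
        rfl
      rw [RingHom.comp_apply, RingHom.comp_apply, RingHom.comp_apply, h4]
      exact (congrArg ψ h3).trans (ψ.commutes a)
    intro x
    obtain ⟨f, rfl⟩ := Ideal.Quotient.mk_surjective x
    exact RingHom.congr_fun h2 f
  let _ : Algebra (LR J {l}) (LR J C) := ψ.toRingHom.toAlgebra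
  have hst : IsScalarTower (CR J) (LR J {l}) (LR J C) := IsScalarTower.of_algebraMap_eq fun x => (h1 x).symm
  obtain ⟨x0, hx0⟩ : ∃ x0 : CR J, x0 = Ideal.Quotient.mk J (∏ j ∈ ({l} : Finset (Fin n)), X j) := ⟨_, rfl⟩
  obtain ⟨p, hp⟩ : ∃ p : CR J, p = Ideal.Quotient.mk J (∏ j ∈ C, X j) := ⟨_, rfl⟩
  have hL1 : IsLocalization (Submonoid.powers x0) (LR J {l}) := by
    rw [hx0]
    infer_instance
  have hL2 : IsLocalization (Submonoid.powers p) (LR J C) := by
    rw [hp]
    infer_instance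
  obtain ⟨p', hp'⟩ : ∃ p', p = x0 * p' := by
    rw [hp, hx0]
    exact map_dvd (Ideal.Quotient.mk J) (Finset.prod_dvd_prod_of_subset _ _ _ (Finset.singleton_subset_iff.2 hlC))
  have hL3 : IsLocalization (Submonoid.powers x0 ⊔ Submonoid.powers p) (LR J C) := by
    refine IsLocalization.isLocalization_of_is_exists_mul_mem (LR J C) (Submonoid.powers p) _ le_sup_right ?_
    rintro ⟨x, hx⟩
    obtain ⟨_, ⟨i, rfl⟩, _, ⟨j, rfl⟩, rfl⟩ := Submonoid.mem_sup.1 hx
    refine ⟨p' ^ i, i + j, ?_⟩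
    change p ^ (i + j) = p' ^ i * (x0 ^ i * p ^ j)
    rw [pow_add, ← mul_assoc, ← mul_pow, mul_comm p', ← hp']
  exact ⟨ψ, _, IsLocalization.isLocalization_of_submonoid_le (LR J {l}) (LR J C) (Submonoid.powers x0)
    (Submonoid.powers x0 ⊔ Submonoid.powers p) le_sup_left, h1⟩

theorem exists_fraC {κ : Type u} [Field κ] [CharZero κ] {n : ℕ} {J : Ideal (MvPolynomial (Fin n) κ)} {m : ℕ}
    (hJ : Good J m) {l : Fin n} (hl : (X l : MvPolynomial (Fin n) κ) ∉ J) {C : Finset (Fin n)} (hlC : l ∈ C) :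
    ∃ D : Mon n 1 → Derivation κ (LR J C) (LR J C), Fra κ (bC J 1 C) D m := by
  obtain ⟨D, hD, -⟩ := exists_fra hJ (le_refl 1) hl
  obtain ⟨ψ, M, hM, hψ⟩ := VFF_loc (κ := κ) (J := J) hlC
  obtain ⟨D', hD'⟩ := fra_loc ψ M hM hD
  have h1 : (fun g => ψ (bl J 1 l g)) = bC J 1 C := funext fun g => hψ (xm J g.1)
  rw [h1] at hD'
  exact ⟨D', hD'⟩

end MPadcHS
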