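import Pool.Agent.Lib.MP_adc574_ag_DC.WSiB

/-!
# HS: refinement of coverings, converse
-/

set_option autoImplicit false

namespace MPadcHS

open MPadcDC

universe u v w

/-- Refinement: if the covering by the intersections `⋂_{l ∈ s i} U_l`, which contains the `U_l`, is acyclic then the
covering by the `U_l` is acyclic. -/
theorem ac_of_cover {ι₁ ι₂ : Type} [DecidableEq ι₁] [DecidableEq ι₂] [Fintype ι₁] [Fintype ι₂] (M : ASy.{u} ι₁)
    (S₁ : Sgn ι₁) (S₂ : Sgn ι₂) (s : ι₂ → Finset ι₁) (hs : ∀ i, (s i).Nonempty) (a : ι₁ → ι₂)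
    (ha : ∀ l, s (a l) = {l}) (h : (M.pb s).Ac S₂ Finset.univ) : M.Ac S₁ Finset.univ := by
  obtain ⟨S⟩ := exists_sgn (ι₁ ⊕ ι₂)
  have hl : ∀ Γ : Finset ι₁, (Γ.map Function.Embedding.inl).biUnion (Sum.elim (fun l => {l}) s) = Γ := by
    intro Γ
    ext x
    simp only [Finset.mem_biUnion, Finset.mem_map, Function.Embedding.inl_apply]
    constructor
    · rintro ⟨y, ⟨l, hl, rfl⟩, hx⟩
      rw [Sum.elim_inl, Finset.mem_singleton] at hx
      rw [hx]
      exact hl
    · intro hx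
      exact ⟨Sum.inl x, ⟨x, hx, rfl⟩, Finset.mem_singleton_self x⟩
  have hr : ∀ Γ : Finset ι₂, (Γ.map Function.Embedding.inr).biUnion (Sum.elim (fun l => {l}) s) = Γ.biUnion s := by
    intro Γ
    ext x
    simp only [Finset.mem_biUnion, Finset.mem_map, Function.Embedding.inr_apply]
    constructor
    · rintro ⟨y, ⟨l, hl, rfl⟩, hx⟩
      exact ⟨l, hl, hx⟩
    · rintro ⟨l, hl, hx⟩
      exact ⟨Sum.inr l, ⟨l, hl, rfl⟩, hx⟩
  -- adding an index which does not change the union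
  have hbi : ∀ (i x : ι₁ ⊕ ι₂), Sum.elim (fun l => {l}) s x ⊆ Sum.elim (fun l => {l}) s i → ∀ Γ : Finset (ι₁ ⊕ ι₂),
      i ∈ Γ → Function.Bijective ((M.pb (Sum.elim (fun l => {l}) s)).ρ (Finset.subset_insert x Γ)) := by
    intro i x hx Γ hi
    refine M.ρ_bij _ ?_
    rw [Finset.biUnion_insert]
    exact (Finset.union_eq_right.mpr (hx.trans (Finset.subset_biUnion_of_mem (Sum.elim (fun l => {l}) s) hi))).symm
  have h1 : ((M.pb (Sum.elim (fun l => {l}) s)).comap Function.Embedding.inr).Ac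
      (S.comap Function.Embedding.inr) Finset.univ := by
    refine ASy.ac_sgn _ S₂ _ (ASy.ac_congr (M.pb s) ((M.pb (Sum.elim (fun l => {l}) s)).comap Function.Embedding.inr)
      (fun Γ _ => (AddEquiv.ofBijective (M.ρ (hr Γ).ge) (M.ρ_bij (hr Γ).ge (hr Γ).symm) :
        M.N (Γ.biUnion s) ≃+ M.N ((Γ.map Function.Embedding.inr).biUnion (Sum.elim (fun l => {l}) s)))) ?_ S₂ h)
    intro Γ Δ h2 _ _ x
    exact (M.ρ_comp _ _ x).trans (M.ρ_comp _ _ x).symm
  have h2 : (M.pb (Sum.elim (fun l => {l}) s)).Ac S (Finset.univ.map Function.Embedding.inr) :=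
    (ASy.ac_map _ S Function.Embedding.inr).mpr h1
  have h3 : (M.pb (Sum.elim (fun l => {l}) s)).Ac S Finset.univ := by
    refine (ASy.ac_ext _ S (Finset.subset_univ _) ?_).mp h2
    rintro (i | i) _ hi
    · refine ⟨Sum.inr (a i), Finset.mem_map_of_mem _ (Finset.mem_univ (a i)), hbi _ _ ?_⟩
      exact (ha i).le
    · exact absurd (Finset.mem_map_of_mem _ (Finset.mem_univ i)) hi
  have h4 : (M.pb (Sum.elim (fun l => {l}) s)).Ac S (Finset.univ.map Function.Embedding.inl) := by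
    refine (ASy.ac_ext _ S (Finset.subset_univ _) ?_).mpr h3
    rintro (i | i) _ hi
    · exact absurd (Finset.mem_map_of_mem _ (Finset.mem_univ i)) hi
    · obtain ⟨l, hl⟩ := hs i
      refine ⟨Sum.inl l, Finset.mem_map_of_mem _ (Finset.mem_univ l), hbi _ _ ?_⟩
      exact Finset.singleton_subset_iff.mpr hl
  have h5 := (ASy.ac_map _ S Function.Embedding.inl).mp h4
  refine ASy.ac_sgn _ (S.comap Function.Embedding.inl) _
    (ASy.ac_congr ((M.pb (Sum.elim (fun l => {l}) s)).comap Function.Embedding.inl) M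
      (fun Γ _ => (AddEquiv.ofBijective (M.ρ (hl Γ).le) (M.ρ_bij (hl Γ).le (hl Γ)) :
        M.N ((Γ.map Function.Embedding.inl).biUnion (Sum.elim (fun l => {l}) s)) ≃+ M.N Γ)) ?_ _ h5)
  intro Γ Δ h6 _ _ x
  exact (M.ρ_comp _ _ x).trans (M.ρ_comp _ _ x).symm

end MPadcHS
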