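import Pool.Agent.Lib.MP_adc574_ag_HS.ZvA
import Pool.Agent.Lib.MP_adc574_ag_DC.WVgB
import Pool.Agent.Lib.MP_adc574_ag_DC.WTwA

/-!
# HS: the Veronese embedding, converse
-/

set_option autoImplicit false

namespace MPadcHS

open MvPolynomial MPadcGP MPadcDC

universe u v w

section equiv

variable {A : Type u} [CommRing A] {R : Type v} [CommRing R] [Algebra A R] {S : Type w} [CommRing S] [Algebra A S]

/-- the map of forms of an isomorphism -/
private noncomputable def ZvB_m (g : R ≃ₐ[A] S) : Fm A R →+* Fm A S :=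
  mp ((g : R →ₐ[A] S) : R →+* S) (CC.of_algHom _)

private theorem ZvB_fz (g : R ≃ₐ[A] S) (r : R) : ZvB_m g (fz A r) = fz A (g r) := mp_fz _ _

private theorem ZvB_df (g : R ≃ₐ[A] S) (r : R) : ZvB_m g (df A r) = df A (g r) := mp_df _ _

private theorem ZvB_symm (g : R ≃ₐ[A] S) (e : Fm A R) : ZvB_m g.symm (ZvB_m g e) = e := by
  have h1 : (ZvB_m g.symm).comp (ZvB_m g) = RingHom.id (Fm A R) := hom_ext' (fun r => by
    rw [RingHom.comp_apply, ZvB_fz, ZvB_fz, AlgEquiv.symm_apply_apply, RingHom.id_apply]) (fun t => by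
    rw [RingHom.comp_apply, ZvB_df, ZvB_df, AlgEquiv.symm_apply_apply, RingHom.id_apply])
  rw [← RingHom.comp_apply, h1, RingHom.id_apply]

private theorem ZvB_symm' (g : R ≃ₐ[A] S) (e : Fm A S) : ZvB_m g (ZvB_m g.symm e) = e := by
  have h1 : (ZvB_m g).comp (ZvB_m g.symm) = RingHom.id (Fm A S) := hom_ext' (fun r => by
    rw [RingHom.comp_apply, ZvB_fz, ZvB_fz, AlgEquiv.apply_symm_apply, RingHom.id_apply]) (fun t => by
    rw [RingHom.comp_apply, ZvB_df, ZvB_df, AlgEquiv.apply_symm_apply, RingHom.id_apply])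
  rw [← RingHom.comp_apply, h1, RingHom.id_apply]

private theorem ZvB_exact (g : R ≃ₐ[A] S) {q : ℕ} {e : Fm A R} (he : e ∈ exactForms A R q) :
    ZvB_m g e ∈ exactForms A S q := by
  obtain ⟨f, hf, rfl⟩ := Submodule.mem_map.1 he
  refine Submodule.mem_map.2 ⟨ZvB_m g f, ?_, ?_⟩
  · exact mp_mem _ hf
  · rw [MPadcGP.ddl_apply, MPadcGP.ddl_apply]
    exact (mp_dd _ _).symm

private theorem ZvB_sq {R' : Type v} [CommRing R'] [Algebra A R'] {S' : Type w} [CommRing S'] [Algebra A S']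
    (g : R ≃ₐ[A] S) (g' : R' ≃ₐ[A] S') (φ : R →ₐ[A] R') (ψ : S →ₐ[A] S') (h : ∀ r, g' (φ r) = ψ (g r)) (e : Fm A R) :
    ZvB_m g' (mp (φ : R →+* R') (CC.of_algHom _) e) = mp (ψ : S →+* S') (CC.of_algHom _) (ZvB_m g e) := by
  have h1 : (ZvB_m g').comp (mp (φ : R →+* R') (CC.of_algHom _)) =
      (mp (ψ : S →+* S') (CC.of_algHom _)).comp (ZvB_m g) := hom_ext' (fun r => by
    rw [RingHom.comp_apply, RingHom.comp_apply, mp_fz, ZvB_fz, ZvB_fz, mp_fz]
    exact congrArg _ (h r)) (fun r => by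
    rw [RingHom.comp_apply, RingHom.comp_apply, mp_df, ZvB_df, ZvB_df, mp_df]
    exact congrArg _ (h r))
  exact RingHom.congr_fun h1 e

/-- the isomorphism of the exact forms -/
private noncomputable def ZvB_e (g : R ≃ₐ[A] S) (q : ℕ) : exactForms A R q ≃+ exactForms A S q where
  toFun x := ⟨ZvB_m g x.1, ZvB_exact g x.2⟩
  invFun x := ⟨ZvB_m g.symm x.1, ZvB_exact g.symm x.2⟩
  left_inv x := Subtype.ext (ZvB_symm g x.1)
  right_inv x := Subtype.ext (ZvB_symm' g x.1)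
  map_add' x y := Subtype.ext (map_add (ZvB_m g) x.1 y.1)

end equiv

section

variable {A : Type u} [CommRing A] {n : ℕ} {I : Ideal (MvPolynomial (Fin n) A)}

/-- the isomorphisms commute with the restrictions -/
private theorem ZvB_rs (hI : IsHomog I) {d : ℕ} (hd : 1 ≤ d) {Γ Δ : Finset (Fin (Fintype.card (Mon n d)))}
    (h : Γ ⊆ Δ) (hΓ : Γ.Nonempty) (hΔ : Δ.Nonempty) (e : Fm A (chart (ver I d) Γ)) :
    @ZvB_m A _ (chart (ver I d) Δ) _ _ (chart I (sp n d Δ)) _ _ (vc hI hd hΔ) ((prC (ver I d)).rs (J := Γ) (K := Δ) h e) =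
      (prC I).rs (J := sp n d Γ) (K := sp n d Δ) (sp_mono h)
        (@ZvB_m A _ (chart (ver I d) Γ) _ _ (chart I (sp n d Γ)) _ _ (vc hI hd hΓ) e) :=
  @ZvB_sq A _ (chart (ver I d) Γ) _ _ (chart I (sp n d Γ)) _ _ (chart (ver I d) Δ) _ _ (chart I (sp n d Δ)) _ _
    (vc hI hd hΓ) (vc hI hd hΔ) (tr (ver I d) h) (tr I (sp_mono h)) (fun r => vc_tr hI hd h hΓ hΔ r) e

private theorem ZvB_supp {n d : ℕ} (hd : 1 ≤ d) (i : Fin (Fintype.card (Mon n d))) :
    ((mono n d i).support).Nonempty := by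
  rw [Finset.nonempty_iff_ne_empty]
  intro h0
  have h1 := mono_deg n d i
  rw [Finsupp.support_eq_empty.1 h0] at h1
  simp at h1
  omega

private theorem ZvB_one {n d : ℕ} (hd : 1 ≤ d) (l : Fin n) :
    ∃ i : Fin (Fintype.card (Mon n d)), (mono n d i).support = {l} := by
  obtain ⟨i, hi⟩ := exists_mono (n := n) (d := d) (Finsupp.single l d) (by
    rw [Finset.sum_eq_single l]
    · exact Finsupp.single_eq_same
    · intro b _ hb
      exact Finsupp.single_eq_of_ne hb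
    · intro h0
      exact absurd (Finset.mem_univ _) h0)
  refine ⟨i, ?_⟩
  rw [hi]
  exact Finsupp.support_single _ (by omega)

theorem bk_of_ver (hI : IsHomog I) {d : ℕ} (hd : 1 ≤ d) (h : (prC (ver I d)).IsBlochKatoOrdinary) :
    (prC I).IsBlochKatoOrdinary := by
  rw [bk_iff_ac] at h ⊢
  intro q
  choose a ha using ZvB_one (n := n) hd
  refine ac_of_cover (exS (prC I) q) (sgF n) (sgF (Fintype.card (Mon n d))) (fun i => (mono n d i).support)
    (ZvB_supp hd) a ha ?_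
  refine ASy.ac_congr (exS (prC (ver I d)) q) ((exS (prC I) q).pb fun i => (mono n d i).support)
    (fun Γ hΓ => @ZvB_e A _ (chart (ver I d) Γ) _ _ (chart I (sp n d Γ)) _ _ (vc hI hd hΓ) q) ?_ _ (h q)
  intro Γ Δ hΓΔ hΓ hΔ x
  exact Subtype.ext (ZvB_rs hI hd hΓΔ hΓ hΔ x.1)

theorem smooth_of_ver (hI : IsHomog I) {d : ℕ} (hd : 1 ≤ d) (hs : IsSmoothProj (ver I d)) : IsSmoothProj I := by
  intro l
  obtain ⟨i, hi⟩ := ZvB_one (n := n) hd l
  have h1 : Algebra.Smooth A (chart (ver I d) {i}) := hs i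
  have h2 : Algebra.Smooth A (chart I (sp n d {i})) := Algebra.Smooth.of_equiv (vc hI hd (Finset.singleton_nonempty i))
  have h3 : sp n d {i} = {l} := by
    unfold sp
    rw [Finset.singleton_biUnion, hi]
  rw [h3] at h2
  exact h2

theorem open_of_ver (hI : IsHomog I) {d : ℕ} (hd : 1 ≤ d) {𝔓 : Ideal A} (h : IsOpenOrd (ver I d) 𝔓) : IsOpenOrd I 𝔓 := by
  obtain ⟨f, hf, hall⟩ := h
  refine ⟨f, hf, fun 𝔪 h𝔪 hle hf𝔪 => ?_⟩
  obtain ⟨h1, h2⟩ := hall 𝔪 h𝔪 hle hf𝔪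
  rw [bI_ver (Ideal.Quotient.mk 𝔪) hI hd] at h1 h2
  exact ⟨smooth_of_ver (hI.map _) hd h1, bk_of_ver (hI.map _) hd h2⟩

end

/-- Veronese re-embedding, converse. -/
theorem oppRel_of_ver {k : Type u} [Field k] [CharZero k] {n : ℕ} {Y : Ideal (MvPolynomial (Fin n) k)} (hY : IsHomog Y)
    (hs : IsSmoothProj Y) {d : ℕ} (hd : 1 ≤ d) : OppRel (ver Y d) Y 1 := by
  intro A hA IX IY hIX hIY hXk hYk
  have hfA := pred_ft hA
  have hcA := pred_cz A
  have hVk : bI (algebraMap A k) (ver IY d) = ver Y d := by rw [bI_ver _ hIY hd, hYk]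
  obtain ⟨A', hle, hA', heq⟩ := exists_eq_model A hA IX (ver IY d) (hXk.trans hVk.symm)
  have hfA' := pred_ft hA'
  have hcA' := pred_cz A'
  obtain ⟨p₁, h₁⟩ := open_iff_opp hIY (algebraMap A k) Subtype.val_injective (hYk.symm ▸ hs)
  obtain ⟨p₂, h₂⟩ := open_iff_opp (ver_homog hIY hd) (algebraMap A k) Subtype.val_injective
    (hVk.symm ▸ ver_smooth hY hd hs)
  obtain ⟨p₃, h₃⟩ := opp_upd (Subalgebra.inclusion hle).toRingHom hIX (algebraMap A k)
    Subtype.val_injective (hXk.symm ▸ ver_smooth hY hd hs)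
  obtain ⟨p₄, h₄⟩ := exists_over A A' (Subalgebra.inclusion hle).toRingHom (Subalgebra.inclusion_injective hle)
  refine ⟨p₁ + p₂ + p₃ + p₄ + 1, fun p hp hpr _ 𝔓 h𝔓 hopp => ?_⟩
  obtain ⟨𝔓', h𝔓', hc⟩ := h₄ p hpr (by omega) 𝔓 h𝔓
  have h6 := h₃ p hpr (by omega) 𝔓 h𝔓 𝔓' h𝔓' hc hopp
  rw [heq] at h6
  have hpr' : 𝔓'.IsPrime := h𝔓'.1.1
  have h7 : OppAt (ver IY d) 𝔓 := by
    rw [← hc]
    exact opp_down _ (ver_homog hIY hd) h6
  exact (h₁ p hpr (by omega) 𝔓 h𝔓).1 (open_of_ver hIY hd ((h₂ p hpr (by omega) 𝔓 h𝔓).2 h7))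

end MPadcHS
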