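import Pool.Agent.Lib.MP_adc574_ag_HS.TSec
import Pool.Agent.Lib.MP_adc574_ag_DC.WVeB

/-!
# HS: hypersurface sections are hyperplane sections of the Veronese embedding
-/

set_option autoImplicit false

namespace MPadcHS

open MvPolynomial MPadcGP MPadcDC

universe u v w

section

variable {A : Type u} [CommRing A] {n : ℕ}

/-- The exponent of the variable `x_l`. -/
noncomputable def one1 (n : ℕ) (l : Fin n) : Mon n 1 :=
  ⟨Finsupp.single l 1, Finset.mem_finsuppAntidiag.2 ⟨by
    rw [Finset.sum_eq_single l]
    · exact Finsupp.single_eq_same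
    · intro b _ hb
      exact Finsupp.single_eq_of_ne hb
    · intro h0
      exact absurd (Finset.mem_univ _) h0, Finset.subset_univ _⟩⟩

theorem one1_inj : Function.Injective (one1 n) := by
  intro l l' h
  have h1 : Finsupp.single l 1 = Finsupp.single l' 1 := congrArg Subtype.val h
  exact (Finsupp.single_left_inj one_ne_zero).1 h1

theorem one1_surj : Function.Surjective (one1 n) := by
  intro g
  have h1 := (Finset.mem_finsuppAntidiag.1 g.2).1
  have h2 : ∃ l, g.1 l ≠ 0 := by
    by_contra h
    rw [Finset.sum_eq_zero fun l _ => by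
      by_contra h'
      exact h ⟨l, h'⟩] at h1
    exact absurd h1 (by omega)
  obtain ⟨l, hl⟩ := h2
  refine ⟨l, Subtype.ext ?_⟩
  ext l'
  have h3 := Finset.sum_erase_add Finset.univ (fun l => g.1 l) (Finset.mem_univ l)
  change ∑ x ∈ Finset.univ.erase l, g.1 x + g.1 l = ∑ x, g.1 x at h3
  rw [h1] at h3
  have h4 : ∑ x ∈ Finset.univ.erase l, g.1 x = 0 := by omega
  change (Finsupp.single l 1) l' = g.1 l'
  by_cases h : l' = l
  · subst h
    rw [Finsupp.single_eq_same]
    omega
  · rw [Finsupp.single_eq_of_ne h]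
    exact ((Finset.sum_eq_zero_iff.1 h4) l' (Finset.mem_erase.2 ⟨h, Finset.mem_univ _⟩)).symm

/-- The variables as exponents of degree one. -/
noncomputable def oneE (n : ℕ) : Fin n ≃ Mon n 1 := Equiv.ofBijective (one1 n) ⟨one1_inj, one1_surj⟩

/-- The coefficients of a form of degree `e` as the coefficients of a linear form in the monomials. -/
noncomputable def vco {e : ℕ} (a : Mon n e → A) : Mon (Fintype.card (Mon n e)) 1 → A :=
  fun g => a ((Fintype.equivFin (Mon n e)).symm ((oneE _).symm g))

theorem frm_one (b : Mon n 1 → A) : frm b = ∑ l, C (b (one1 n l)) * X l := by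
  unfold frm
  rw [← (oneE n).sum_comp]
  refine Finset.sum_congr rfl fun l _ => ?_
  have h1 : oneE n l = one1 n l := rfl
  rw [h1, C_mul_X_eq_monomial]
  rfl

theorem vm_frm {e : ℕ} (a : Mon n e → A) : vm A n e (frm (vco a)) = frm a := by
  rw [frm_one, map_sum]
  unfold frm
  rw [← (Fintype.equivFin (Mon n e)).symm.sum_comp]
  refine Finset.sum_congr rfl fun i _ => ?_
  have h1 : vco a (one1 _ i) = a ((Fintype.equivFin (Mon n e)).symm i) := by
    unfold vco
    have h2 : (oneE (Fintype.card (Mon n e))).symm (one1 _ i) = i := (oneE _).symm_apply_apply i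
    rw [h2]
  rw [map_mul, vm_X, h1, ← algebraMap_eq, AlgHom.commutes, algebraMap_eq, C_mul_monomial, mul_one]
  rfl

theorem ZwA_hc {f : MvPolynomial (Fin n) A} {e : ℕ} {F : MvPolynomial (Fin n) A} (hF : F.IsHomogeneous e) (d : ℕ) :
    homogeneousComponent (d + e) (f * F) = homogeneousComponent d f * F := by
  conv_lhs => rw [← sum_homogeneousComponent f, Finset.sum_mul, map_sum]
  rw [Finset.sum_congr rfl fun i _ => homogeneousComponent_of_mem
    ((homogeneousComponent_isHomogeneous i f).mul hF)]
  have h1 : ∀ i, (if d + e = i + e then homogeneousComponent i f * F else 0) =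
      if d = i then homogeneousComponent i f * F else 0 := by
    intro i
    by_cases h : d = i
    · rw [if_pos (by omega), if_pos h]
    · rw [if_neg (by omega), if_neg h]
  rw [Finset.sum_congr rfl fun i _ => h1 i]
  rw [Finset.sum_ite_eq]
  by_cases h : d ∈ Finset.range (f.totalDegree + 1)
  · rw [if_pos h]
  · rw [if_neg h, homogeneousComponent_eq_zero _ _ (by
      rw [Finset.mem_range] at h
      omega), zero_mul]

theorem exists_pow_idx {e : ℕ} (l : Fin n) : ∃ i : Fin (Fintype.card (Mon n e)), vm A n e (X i) = X l ^ e := by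
  obtain ⟨i, hi⟩ := exists_mono (n := n) (d := e) (Finsupp.single l e) (by
    rw [Finset.sum_eq_single l]
    · exact Finsupp.single_eq_same
    · intro b _ hb
      exact Finsupp.single_eq_of_ne hb
    · intro h0
      exact absurd (Finset.mem_univ _) h0)
  exact ⟨i, by rw [vm_X, hi, X_pow_eq_monomial]⟩

/-- Hypersurface sections are hyperplane sections of the Veronese embedding. -/
theorem sec_ver {I : Ideal (MvPolynomial (Fin n) A)} (hI : IsHomog I) {e : ℕ} (he : 1 ≤ e) (a : Mon n e → A) :
    sec (ver I e) (frm (vco a)) = ver (sec I (frm a)) e := by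
  have hL := frm_hom (vco a)
  have hF := frm_hom a
  apply le_antisymm
  · intro g hg
    rw [mem_ver, mem_sec]
    obtain ⟨N, hN⟩ := mem_sec.1 hg
    refine ⟨e * N, fun l => ?_⟩
    obtain ⟨i, hi⟩ := exists_pow_idx (A := A) (n := n) (e := e) l
    obtain ⟨u, hu, y, hy, h1⟩ := Submodule.mem_sup.1 (hN i)
    obtain ⟨h, rfl⟩ := Ideal.mem_span_singleton'.1 hy
    have h2 := congrArg (vm A n e) h1
    rw [map_add, map_mul, map_mul, map_pow, hi, vm_frm, ← pow_mul] at h2
    rw [← h2]
    exact Submodule.add_mem_sup (mem_ver.1 hu) (Ideal.mem_span_singleton'.2 ⟨_, rfl⟩)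
  · -- homogeneous elements
    have key : ∀ (D : ℕ) (g : MvPolynomial (Fin (Fintype.card (Mon n e))) A), g.IsHomogeneous D →
        vm A n e g ∈ sec I (frm a) → g ∈ sec (ver I e) (frm (vco a)) := by
      intro D g hg hmem
      obtain ⟨N, hN⟩ := mem_sec.1 hmem
      -- the pure powers
      have hpure : ∀ l : Fin n, ∀ i, vm A n e (X i) = X l ^ e →
          (X i ^ (N + 1) * g : MvPolynomial (Fin (Fintype.card (Mon n e))) A) ∈ ver I e ⊔ Ideal.span {frm (vco a)} := by
        intro l i hi
        have h1 : X l ^ (e * (N + 1)) * vm A n e g ∈ I ⊔ Ideal.span {frm a} := by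
          have h2 : e * (N + 1) = (e * (N + 1) - N) + N := by
            have h3 : N + 1 ≤ e * (N + 1) := Nat.le_mul_of_pos_left _ he
            omega
          rw [h2, pow_add, mul_assoc]
          exact Ideal.mul_mem_left _ _ (hN l)
        obtain ⟨u, hu, y, hy, h2⟩ := Submodule.mem_sup.1 h1
        obtain ⟨h, rfl⟩ := Ideal.mem_span_singleton'.1 hy
        have hdeg : (X l ^ (e * (N + 1)) * vm A n e g).IsHomogeneous (e * (N + 1) + e * D) :=
          (by
            have h3 := (isHomogeneous_X A l).pow (e * (N + 1))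
            rwa [one_mul] at h3 : (X l ^ (e * (N + 1)) : MvPolynomial (Fin n) A).IsHomogeneous (e * (N + 1))).mul
            (vm_homog hg)
        have hd2 : e * (N + 1) + e * D = e * (N + D) + e := by ring
        rw [hd2] at hdeg
        have h3 := congrArg (homogeneousComponent (e * (N + D) + e)) h2
        rw [map_add, ZwA_hc hF, homogeneousComponent_of_mem hdeg, if_pos rfl] at h3
        obtain ⟨H, -, hH⟩ := vm_surj (homogeneousComponent_isHomogeneous (e * (N + D)) h)
        have h4 : X i ^ (N + 1) * g - H * frm (vco a) ∈ ver I e := by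
          rw [mem_ver, map_sub, map_mul, map_mul, map_pow, hi, vm_frm, hH, ← pow_mul, ← h3, add_sub_cancel_right]
          exact hI u hu _
        have h5 : X i ^ (N + 1) * g = (X i ^ (N + 1) * g - H * frm (vco a)) + H * frm (vco a) := by ring
        rw [h5]
        exact Submodule.add_mem_sup h4 (Ideal.mem_span_singleton'.2 ⟨_, rfl⟩)
      refine mem_sec.2 ⟨e * (N + 1), fun i => ?_⟩
      choose p hp using fun l => exists_pow_idx (A := A) (n := n) (e := e) l
      have h6 : X i ^ e - ∏ l, X (p l) ^ (mono n e i l) ∈ ver I e := by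
        rw [mem_ver, map_sub, map_pow, vm_X, map_prod]
        have h7 : ∀ l, vm A n e (X (p l) ^ (mono n e i l)) = X l ^ (e * mono n e i l) := by
          intro l
          rw [map_pow, hp, ← pow_mul]
        rw [Finset.prod_congr rfl fun l _ => h7 l, monomial_pow, one_pow]
        have h8 : ∏ l, (X l : MvPolynomial (Fin n) A) ^ (e * mono n e i l) = monomial (e • mono n e i) 1 := by
          rw [monomial_eq, C_1, one_mul, Finsupp.prod_fintype]
          · refine Finset.prod_congr rfl fun l _ => ?_
            rw [Finsupp.smul_apply, smul_eq_mul]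
          · intro l
            exact pow_zero _
        rw [h8, sub_self]
        exact I.zero_mem
      obtain ⟨l, hl⟩ : ∃ l, mono n e i l ≠ 0 := by
        by_contra h9
        have h10 := mono_deg n e i
        rw [Finset.sum_eq_zero fun l _ => by
          by_contra h'
          exact h9 ⟨l, h'⟩] at h10
        omega
      have h11 : (∏ l, X (p l) ^ (mono n e i l)) ^ (N + 1) * g ∈ ver I e ⊔ Ideal.span {frm (vco a)} := by
        rw [← Finset.mul_prod_erase Finset.univ _ (Finset.mem_univ l), mul_pow, ← pow_mul]
        have h12 : mono n e i l * (N + 1) = (mono n e i l * (N + 1) - (N + 1)) + (N + 1) := by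
          have h13 : N + 1 ≤ mono n e i l * (N + 1) := Nat.le_mul_of_pos_left _ (Nat.pos_of_ne_zero hl)
          omega
        rw [h12, pow_add]
        have h14 : ∀ x y z : MvPolynomial (Fin (Fintype.card (Mon n e))) A,
            x * X (p l) ^ (N + 1) * y * z = x * y * (X (p l) ^ (N + 1) * z) := fun x y z => by ring
        rw [h14]
        exact Ideal.mul_mem_left _ _ (hpure l (p l) (hp l))
      have h15 : (X i ^ e) ^ (N + 1) - (∏ l, X (p l) ^ (mono n e i l)) ^ (N + 1) ∈ ver I e := by
        obtain ⟨c, hc⟩ := sub_dvd_pow_sub_pow (X i ^ e : MvPolynomial (Fin (Fintype.card (Mon n e))) A)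
          (∏ l, X (p l) ^ (mono n e i l)) (N + 1)
        rw [hc]
        exact Ideal.mul_mem_right _ _ h6
      have h16 : (X i ^ (e * (N + 1)) * g : MvPolynomial (Fin (Fintype.card (Mon n e))) A) =
          ((X i ^ e) ^ (N + 1) - (∏ l, X (p l) ^ (mono n e i l)) ^ (N + 1)) * g +
            (∏ l, X (p l) ^ (mono n e i l)) ^ (N + 1) * g := by
        rw [pow_mul]
        ring
      rw [h16]
      exact Ideal.add_mem _ (Submodule.mem_sup_left (Ideal.mul_mem_right _ _ h15)) h11
    intro g hg
    rw [← sum_homogeneousComponent g]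
    refine Ideal.sum_mem _ fun D _ => key D _ (homogeneousComponent_isHomogeneous D g) ?_
    rw [vm_comp he]
    exact sec_homog hI hF _ (mem_ver.1 hg) _

end

end MPadcHS
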