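import Pool.Agent.Lib.MP_adc574_ag_HS.ZwA

/-!
# HS: a saturated homogeneous ideal is prime if the ideal of the Veronese embedding is prime
-/

set_option autoImplicit false

namespace MPadcHS

open MvPolynomial MPadcGP MPadcDC

universe u v w

attribute [local instance] MvPolynomial.gradedAlgebra

theorem isHomogeneous_of_isHomog {A : Type u} [CommRing A] {n : ℕ} {I : Ideal (MvPolynomial (Fin n) A)}
    (hI : IsHomog I) : I.IsHomogeneous (homogeneousSubmodule (Fin n) A) := by
  intro i r hr
  have h1 := hI r hr i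
  have h2 : ((DirectSum.decompose (homogeneousSubmodule (Fin n) A) r) i : MvPolynomial (Fin n) A) =
      homogeneousComponent i r := by
    have h3 := decomposition.decompose'_apply (σ := Fin n) (R := A) r i
    exact h3
  rw [h2]
  exact h1

theorem prime_of_ver {A : Type u} [CommRing A] {n : ℕ} {I : Ideal (MvPolynomial (Fin n) A)}
    (hI : IsHomog I) {e : ℕ} (he : 1 ≤ e) (hsat : ∀ g, (∀ l, ∃ N : ℕ, X l ^ N * g ∈ I) → g ∈ I)
    (hp : (ver I e).IsPrime) : I.IsPrime := by
  refine (isHomogeneous_of_isHomog hI).isPrime_of_homogeneous_mem_or_mem ?_ ?_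
  · intro h
    apply hp.ne_top
    rw [Ideal.eq_top_iff_one, mem_ver, map_one, h]
    exact Submodule.mem_top
  · rintro f g ⟨a, hf⟩ ⟨b, hg⟩ hfg
    have hf' : f.IsHomogeneous a := hf
    have hg' : g.IsHomogeneous b := hg
    by_contra hcon
    rw [not_or] at hcon
    obtain ⟨h1, h2⟩ := hcon
    have h3 : ∃ l, ∀ N : ℕ, X l ^ N * f ∉ I := by
      by_contra h
      push Not at h
      exact h1 (hsat f h)
    have h4 : ∃ l, ∀ N : ℕ, X l ^ N * g ∉ I := by
      by_contra h
      push Not at h
      exact h2 (hsat g h)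
    obtain ⟨l, hl⟩ := h3
    obtain ⟨l', hl'⟩ := h4
    have hd : ∀ c : ℕ, (e - 1) * c + c = e * c := fun c => by
      obtain ⟨e', rfl⟩ := Nat.exists_eq_add_of_le' he
      rw [Nat.add_sub_cancel]
      ring
    have h5 : (X l ^ ((e - 1) * a) * f).IsHomogeneous (e * a) := by
      rw [← hd a]
      refine IsHomogeneous.mul ?_ hf'
      have h6 := (isHomogeneous_X A l).pow ((e - 1) * a)
      rwa [one_mul] at h6
    have h6 : (X l' ^ ((e - 1) * b) * g).IsHomogeneous (e * b) := by
      rw [← hd b]
      refine IsHomogeneous.mul ?_ hg'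
      have h6 := (isHomogeneous_X A l').pow ((e - 1) * b)
      rwa [one_mul] at h6
    obtain ⟨G, -, hG⟩ := vm_surj h5
    obtain ⟨H, -, hH⟩ := vm_surj h6
    have h7 : G * H ∈ ver I e := by
      rw [mem_ver, map_mul, hG, hH]
      have h8 : X l ^ ((e - 1) * a) * f * (X l' ^ ((e - 1) * b) * g) =
          X l ^ ((e - 1) * a) * X l' ^ ((e - 1) * b) * (f * g) := by ring
      rw [h8]
      exact Ideal.mul_mem_left _ _ hfg
    rcases hp.mem_or_mem h7 with h8 | h8
    · rw [mem_ver, hG] at h8
      exact hl _ h8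
    · rw [mem_ver, hH] at h8
      exact hl' _ h8

end MPadcHS
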