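import Pool.Agent.Lib.MP_adc574_ag_DC.GBaseB
import Pool.Agent.Lib.MP_adc574_ag_DC.PTop
import Pool.Agent.Lib.MP_adc574_ag_DC.WVgA
import Pool.Agent.Lib.MP_adc574_ag_HS.FiF
import Pool.Agent.Lib.MP_adc574_ag_HS.NDesc
import Pool.Agent.Lib.MP_adc574_ag_HS.TSmr
import Pool.Agent.Lib.MP_adc574_ag_HS.V2F
import Pool.Agent.Lib.MP_adc574_ag_HS.ZwA

/-!
# HS: the conditions on the ideals for generic hypersurface sections
-/

set_option autoImplicit false

namespace MPadcHS

open MvPolynomial MPadcGP MPadcDC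

universe u v w

/-- The conditions on an ideal over a finitely generated ring do not depend on the field. -/
theorem good_bI {R₀ : Type u} [CommRing R₀] [IsDomain R₀] [CharZero R₀] [Algebra.FiniteType ℤ R₀] {n : ℕ}
    {I : Ideal (MvPolynomial (Fin n) R₀)} (hI : IsHomog I) {k : Type u} [Field k] [IsAlgClosed k] (j : R₀ →+* k)
    (hj : Function.Injective j) {m : ℕ} (h : Good (bI j I) m) {κ : Type u} [Field κ] [IsAlgClosed κ] (ψ : R₀ →+* κ)
    (hψ : Function.Injective ψ) : Good (bI ψ I) m := by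
  obtain ⟨F, iF, iA, iFr⟩ : ∃ (F : Type u) (_ : Field F) (_ : Algebra R₀ F), IsFractionRing R₀ F :=
    ⟨FractionRing R₀, inferInstance, inferInstance, inferInstance⟩
  obtain ⟨jF, hjF⟩ : ∃ jF : F →+* k, jF.comp (algebraMap R₀ F) = j :=
    ⟨IsFractionRing.lift hj, RingHom.ext fun a => IsFractionRing.lift_algebraMap hj a⟩
  obtain ⟨ψF, hψF⟩ : ∃ ψF : F →+* κ, ψF.comp (algebraMap R₀ F) = ψ :=
    ⟨IsFractionRing.lift hψ, RingHom.ext fun a => IsFractionRing.lift_algebraMap hψ a⟩
  let : Algebra F k := jF.toAlgebra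
  let : Algebra F κ := ψF.toAlgebra
  have hcF : CharZero F := charZero_of_injective_algebraMap (IsFractionRing.injective R₀ F)
  have h1 : bI (algebraMap F k) (bI (algebraMap R₀ F) I) = bI j I := by
    rw [bI_bI]
    exact congrArg (fun φ => bI φ I) hjF
  have h2 : bI (algebraMap F κ) (bI (algebraMap R₀ F) I) = bI ψ I := by
    rw [bI_bI]
    exact congrArg (fun φ => bI φ I) hψF
  have hp : (bI (algebraMap R₀ F) I).IsPrime := by
    rw [← comap_bI (algebraMap F k) (bI (algebraMap R₀ F) I), h1]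
    have := h.prime
    exact Ideal.IsPrime.comap _
  have hs : IsSmoothProj (bI (algebraMap R₀ F) I) :=
    smooth_bI hI j hj h.smooth (algebraMap R₀ F) (IsFractionRing.injective R₀ F)
  obtain ⟨l, hl⟩ := h.ne
  have hl' : (X l : MvPolynomial (Fin n) F) ∉ bI (algebraMap R₀ F) I :=
    x_notMem j hj hl (algebraMap R₀ F) (IsFractionRing.injective R₀ F)
  obtain ⟨m', hm'⟩ := MPadcDC.exists_good (hI.map _) hp hs ⟨l, hl'⟩
  have h3 : Good (bI (algebraMap F k) (bI (algebraMap R₀ F) I)) m' := Good.map hm' (h1.symm ▸ h.prime)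
  rw [h1] at h3
  have h4 : m' = m := (h3.rank l hl).symm.trans (h.rank l hl)
  have h5 := Good.map (K := κ) hm' (h2.symm ▸ isPrime_bI j hj h.prime ψ hψ)
  rw [h2, h4] at h5
  exact h5

theorem sat_sec {A : Type u} [CommRing A] {n : ℕ} (I : Ideal (MvPolynomial (Fin n) A)) (F : MvPolynomial (Fin n) A) :
    Sat (secU I F) (sec I F) := by
  refine ⟨?_, fun l f hf => ?_⟩
  · refine sup_le (isSec_sec I F).le ?_
    rw [Ideal.span_le, Set.singleton_subset_iff]
    exact (isSec_sec I F).mem
  · obtain ⟨N, hN⟩ := (isSec_sec I F).sat f hf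
    exact ⟨N, hN l⟩

/-- The conditions over a subfield. -/
theorem good_desc {κ k : Type u} [Field κ] [CharZero κ] [Field k] [Algebra κ k] {n m : ℕ}
    {J : Ideal (MvPolynomial (Fin n) κ)} (hJ : IsHomog J) (hsJ : IsSmoothProj J)
    (hG : Good (bI (algebraMap κ k) J) m) : Good J m := by
  have hp : J.IsPrime := by
    rw [← comap_bI (algebraMap κ k) J]
    have := hG.prime
    exact Ideal.IsPrime.comap _
  obtain ⟨l, hl⟩ := hG.ne
  have hlJ : (X l : MvPolynomial (Fin n) κ) ∉ J := fun h => hl ((X_mem_bI l).2 h)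
  obtain ⟨m', hm'⟩ := MPadcDC.exists_good hJ hp hsJ ⟨l, hlJ⟩
  have h3 : Good (bI (algebraMap κ k) J) m' := Good.map hm' hG.prime
  have h4 : m' = m := (h3.rank l hl).symm.trans (hG.rank l hl)
  exact h4 ▸ hm'

private theorem ZxB_rank {K : Type u} [Field K] {A B : Type u} [CommRing A] [IsDomain A] [CommRing B] [IsDomain B]
    [Algebra K A] [Algebra K B] (E : A ≃ₐ[K] B) : Module.finrank B (Ω[B⁄K]) = Module.finrank A (Ω[A⁄K]) := by
  let _ : Algebra A B := E.toRingEquiv.toRingHom.toAlgebra
  have hst : IsScalarTower K A B := IsScalarTower.of_algebraMap_eq fun a => (E.commutes a).symm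
  have hb : Function.Bijective (algebraMap A B) := E.bijective
  have hfe : Algebra.FormallyEtale A B := Algebra.FormallyEtale.of_equiv (AlgEquiv.ofBijective (Algebra.ofId A B) hb)
  have hf : FaithfulSMul A B := (faithfulSMul_iff_algebraMap_injective _ _).2 hb.1
  have hbc : IsBaseChange B (KaehlerDifferential.map K K A B) :=
    KaehlerDifferential.isBaseChange_of_formallyEtale K A B
  exact hbc.finrank_eq

theorem good_ver {κ : Type u} [Field κ] [CharZero κ] {n m : ℕ} {I : Ideal (MvPolynomial (Fin n) κ)} (h : Good I m)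
    {e : ℕ} (he : 1 ≤ e) : Good (ver I e) m := by
  obtain ⟨m', hm'⟩ := MPadcDC.exists_good (ver_homog h.homog he) (ver_prime h.prime e) (ver_smooth h.homog he h.smooth)
    (ver_ne h.prime e h.ne)
  obtain ⟨l, hl⟩ := h.ne
  obtain ⟨i, hi⟩ := exists_mono (n := n) (d := e) (Finsupp.single l e) (by
    rw [Finset.sum_eq_single l]
    · exact Finsupp.single_eq_same
    · intro b _ hb
      exact Finsupp.single_eq_of_ne hb
    · intro h0
      exact absurd (Finset.mem_univ _) h0)
  have hs : (mono n e i).support = {l} := by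
    rw [hi]
    exact Finsupp.support_single _ (by omega)
  have h3 : sp n e {i} = {l} := by
    unfold sp
    rw [Finset.singleton_biUnion, hs]
  have hXi : (X i : MvPolynomial (Fin (Fintype.card (Mon n e))) κ) ∉ ver I e := by
    rw [mem_ver, vm_X, hi, ← X_pow_eq_monomial]
    intro h4
    have := h.prime
    exact hl (h.prime.mem_of_pow_mem _ h4)
  have h5 : Module.finrank (chart (ver I e) {i}) (Ω[chart (ver I e) {i}⁄κ]) =
      Module.finrank (chart I (sp n e {i})) (Ω[chart I (sp n e {i})⁄κ]) := by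
    have hd1 : IsDomain (chart (ver I e) {i}) := chart_domain (ver_prime h.prime e) hXi
    have hd2 : IsDomain (chart I (sp n e {i})) := by
      rw [h3]
      exact chart_domain h.prime hl
    exact (@ZxB_rank κ _ (chart (ver I e) {i}) (chart I (sp n e {i})) _ hd1 _ hd2 _ _
      (vc h.homog he (Finset.singleton_nonempty i))).symm
  have h6 : m' = m := by
    rw [← hm'.rank i hXi, h5, h3]
    exact h.rank l hl
  exact h6 ▸ hm'

end MPadcHS
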