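import Pool.Agent.Lib.MP_adc574_ag_HS.TSec

/-!
# HS: the saturation commutes with extensions of the field
-/

set_option autoImplicit false

namespace MPadcHS

open MvPolynomial MPadcGP MPadcDC

universe u v w

section

variable {κ K : Type u} [Field κ] [Field K] [Algebra κ K] {n : ℕ}

/-- The coordinate of a polynomial. -/
noncomputable def ZyA_c (lam : K →ₗ[κ] κ) (f : MvPolynomial (Fin n) K) : MvPolynomial (Fin n) κ :=
  ∑ α ∈ f.support, monomial α (lam (coeff α f))

theorem ZyA_coeff (lam : K →ₗ[κ] κ) (f : MvPolynomial (Fin n) K) (α : Fin n →₀ ℕ) :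
    coeff α (ZyA_c lam f) = lam (coeff α f) := by
  unfold ZyA_c
  rw [coeff_sum]
  simp only [coeff_monomial]
  rw [Finset.sum_ite_eq']
  by_cases h : α ∈ f.support
  · rw [if_pos h]
  · rw [if_neg h, notMem_support_iff.1 h, map_zero]

theorem ZyA_add (lam : K →ₗ[κ] κ) (f g : MvPolynomial (Fin n) K) : ZyA_c lam (f + g) = ZyA_c lam f + ZyA_c lam g := by
  ext α
  rw [coeff_add, ZyA_coeff, ZyA_coeff, ZyA_coeff, coeff_add, map_add]

theorem ZyA_mon (lam : K →ₗ[κ] κ) (f : MvPolynomial (Fin n) K) (β : Fin n →₀ ℕ) (a : κ) :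
    ZyA_c lam (monomial β (algebraMap κ K a) * f) = monomial β a * ZyA_c lam f := by
  ext α
  rw [ZyA_coeff, coeff_monomial_mul', coeff_monomial_mul', ZyA_coeff]
  by_cases h : β ≤ α
  · rw [if_pos h, if_pos h, ← Algebra.smul_def, map_smul, smul_eq_mul]
  · rw [if_neg h, if_neg h, map_zero]

theorem ZyA_mul (lam : K →ₗ[κ] κ) (f : MvPolynomial (Fin n) K) (g : MvPolynomial (Fin n) κ) :
    ZyA_c lam (MvPolynomial.map (algebraMap κ K) g * f) = g * ZyA_c lam f := by
  induction g using MvPolynomial.induction_on' with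
  | monomial β a => rw [map_monomial, ZyA_mon]
  | add p q hp hq => rw [map_add, add_mul, ZyA_add, hp, hq, add_mul]

/-- The coordinates of the elements of `bI J` are in `J`. -/
theorem ZyA_mem (lam : K →ₗ[κ] κ) {J : Ideal (MvPolynomial (Fin n) κ)} {f : MvPolynomial (Fin n) K}
    (hf : f ∈ bI (algebraMap κ K) J) : ZyA_c lam f ∈ J := by
  have h1 : ∀ x ∈ bI (algebraMap κ K) J, ∀ y : MvPolynomial (Fin n) K, ZyA_c lam (y * x) ∈ J := by
    intro x hx
    refine Submodule.span_induction (p := fun x _ => ∀ y : MvPolynomial (Fin n) K, ZyA_c lam (y * x) ∈ J)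
      ?_ ?_ ?_ ?_ hx
    · rintro _ ⟨j, hj, rfl⟩ y
      rw [mul_comm]
      have h2 := ZyA_mul lam y j
      rw [h2]
      exact Ideal.mul_mem_right _ _ hj
    · intro y
      rw [mul_zero]
      have h2 : ZyA_c lam (0 : MvPolynomial (Fin n) K) = 0 := by
        ext α
        rw [ZyA_coeff, coeff_zero, coeff_zero, map_zero]
      rw [h2]
      exact J.zero_mem
    · intro a b _ _ ha hb y
      rw [mul_add, ZyA_add]
      exact J.add_mem (ha y) (hb y)
    · intro c a _ ha y
      rw [smul_eq_mul, ← mul_assoc]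
      exact ha _
  have h2 := h1 f hf 1
  rwa [one_mul] at h2

/-- A polynomial all of whose coordinates are in `J` is in `bI J`. -/
theorem ZyA_of {ι : Type u} (b : Module.Basis ι κ K) {J : Ideal (MvPolynomial (Fin n) κ)} {f : MvPolynomial (Fin n) K}
    (h : ∀ i, ZyA_c (b.coord i) f ∈ J) : f ∈ bI (algebraMap κ K) J := by
  classical
  obtain ⟨s, hs⟩ : ∃ s : Finset ι, ∀ α ∈ f.support, (b.repr (coeff α f)).support ⊆ s :=
    ⟨f.support.biUnion fun α => (b.repr (coeff α f)).support, fun α hα =>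
      Finset.subset_biUnion_of_mem (fun α => (b.repr (coeff α f)).support) hα⟩
  have h1 : f = ∑ i ∈ s, C (b i) * MvPolynomial.map (algebraMap κ K) (ZyA_c (b.coord i) f) := by
    ext α
    rw [coeff_sum]
    have h2 : ∀ i, coeff α (C (b i) * MvPolynomial.map (algebraMap κ K) (ZyA_c (b.coord i) f)) =
        b.repr (coeff α f) i • b i := by
      intro i
      rw [coeff_C_mul, coeff_map, ZyA_coeff, Module.Basis.coord_apply, Algebra.smul_def, mul_comm]
    rw [Finset.sum_congr rfl fun i _ => h2 i]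
    by_cases hα : α ∈ f.support
    · have h3 := b.linearCombination_repr (coeff α f)
      rw [Finsupp.linearCombination_apply, Finsupp.sum_of_support_subset _ (hs α hα) _
        (fun i _ => zero_smul κ (b i))] at h3
      exact h3.symm
    · rw [notMem_support_iff.1 hα, map_zero]
      simp
  rw [h1]
  exact Ideal.sum_mem _ fun i _ => Ideal.mul_mem_left _ _ (Ideal.mem_map_of_mem _ (h i))

theorem bI_secU (I : Ideal (MvPolynomial (Fin n) κ)) (F : MvPolynomial (Fin n) κ) :
    bI (algebraMap κ K) (I ⊔ Ideal.span {F}) =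
      bI (algebraMap κ K) I ⊔ Ideal.span {MvPolynomial.map (algebraMap κ K) F} := by
  unfold bI
  rw [Ideal.map_sup, Ideal.map_span, Set.image_singleton]

/-- The saturation commutes with extensions of the field. -/
theorem bI_sec (I : Ideal (MvPolynomial (Fin n) κ)) (F : MvPolynomial (Fin n) κ) :
    bI (algebraMap κ K) (sec I F) = sec (bI (algebraMap κ K) I) (MvPolynomial.map (algebraMap κ K) F) := by
  apply le_antisymm
  · unfold bI
    rw [Ideal.map_le_iff_le_comap]
    intro g hg
    rw [Ideal.mem_comap, mem_sec]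
    obtain ⟨N, hN⟩ := mem_sec.1 hg
    refine ⟨N, fun l => ?_⟩
    have h1 := Ideal.mem_map_of_mem (MvPolynomial.map (algebraMap κ K)) (hN l)
    rw [map_mul, map_pow, map_X] at h1
    have h2 := bI_secU (K := K) I F
    unfold bI at h2
    rw [← h2]
    exact h1
  · intro f hf
    obtain ⟨N, hN⟩ := mem_sec.1 hf
    obtain ⟨ι, b⟩ : ∃ ι : Type u, Nonempty (Module.Basis ι κ K) :=
      ⟨_, ⟨Module.Free.chooseBasis κ K⟩⟩
    obtain ⟨b⟩ := b
    refine ZyA_of b fun i => mem_sec.2 ⟨N, fun l => ?_⟩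
    have h1 := hN l
    rw [← bI_secU] at h1
    have h2 := ZyA_mem (b.coord i) h1
    have h3 := ZyA_mul (b.coord i) f (X l ^ N)
    rw [map_pow, map_X] at h3
    rwa [h3] at h2

end

end MPadcHS
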