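import Pool.Agent.Lib.MP_adc574_ag_HS.ZyA
import Pool.Agent.Lib.MP_adc574_ag_HS.ZwB
import Pool.Agent.Lib.MP_adc574_ag_HS.ZxC
import Pool.Agent.Lib.MP_adc574_ag_HS.TkGe
import Pool.Agent.Lib.MP_adc574_ag_DC.WTwA

/-!
# HS: the invariants of generic hypersurface sections
-/

set_option autoImplicit false

namespace MPadcHS

open MvPolynomial MPadcGP MPadcDC

universe u v w

/-- On an affine open set `x_l ≠ 0` there are functions `f`, `g` with `df ∧ dg ≠ 0`. -/
def Dim2 {κ : Type u} [Field κ] {n : ℕ} (I : Ideal (MvPolynomial (Fin n) κ)) : Prop :=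
  ∃ (l : Fin n) (f g : chart I {l}), df κ f * df κ g ≠ 0

theorem good_of_dim2 {κ : Type u} [Field κ] [CharZero κ] {n : ℕ} {I : Ideal (MvPolynomial (Fin n) κ)} (h : Geo I)
    (h2 : Dim2 I) : ∃ m, Good I (m + 2) := by
  obtain ⟨l₀, hl₀, -⟩ := h.np
  obtain ⟨m', hm'⟩ := MPadcDC.exists_good h.homog h.prime h.smooth ⟨l₀, hl₀⟩
  obtain ⟨l, f, g, hfg⟩ := h2
  by_cases hm : 2 ≤ m'
  · exact ⟨m' - 2, by rwa [Nat.sub_add_cancel hm]⟩
  · exfalso
    refine hfg (chart_top hm' (Finset.singleton_nonempty l) (q := 2) (by omega) ?_)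
    have h1 : (df κ f : Fm κ (chart I {l})) ∈ Fd κ (chart I {l}) 1 := df_mem f
    have h2 : (df κ g : Fm κ (chart I {l})) ∈ Fd κ (chart I {l}) 1 := df_mem g
    exact fd_mul h1 h2

/-- The field of definition of a section. -/
theorem desc_sec {k : Type u} [Field k] {κ : Subfield k} {n : ℕ} {I : Ideal (MvPolynomial (Fin n) k)}
    (h : ∃ J : Ideal (MvPolynomial (Fin n) κ), IsHomog J ∧ bI (algebraMap κ k) J = I) {e : ℕ} {a : Mon n e → k}
    {κ' : Subfield k} (hle : κ ≤ κ') (hκ' : ∀ g, a g ∈ κ') :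
    ∃ J : Ideal (MvPolynomial (Fin n) κ'), IsHomog J ∧ bI (algebraMap κ' k) J = sec I (frm a) := by
  obtain ⟨J, hJ, rfl⟩ := h
  refine ⟨sec (bI (Subfield.inclusion hle) J) (frm fun g => (⟨a g, hκ' g⟩ : κ')),
    sec_homog (hJ.map _) (frm_hom _), ?_⟩
  rw [bI_sec, bI_frm, bI_bI]
  rfl

/-- A generic hypersurface section of a smooth integral scheme of dimension at least two is smooth and integral. -/
theorem good_sec {k : Type u} [Field k] [IsAlgClosed k] [CharZero k] {κ : Subfield k} {n m : ℕ}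
    {J : Ideal (MvPolynomial (Fin n) κ)} (hJ : IsHomog J) (hG : Good (bI (algebraMap κ k) J) (m + 2)) {e : ℕ}
    (he : 1 ≤ e) {a : Mon n e → k} (ha : AlgebraicIndependent κ a) :
    Good (sec (bI (algebraMap κ k) J) (frm a)) (m + 1) := by
  obtain ⟨κb, hκb⟩ : ∃ κb, κb = algebraicClosure κ k := ⟨_, rfl⟩
  have h1 : IsAlgClosed κb := by
    rw [hκb]
    exact (algebraicClosure.isAlgClosure κ k).isAlgClosed
  have h2 : AlgebraicIndependent κb a := by
    rw [hκb]
    exact ha.algebraicClosure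
  have h3 : CharZero κb := ⟨fun x y hxy => by
    have h4 := congrArg (algebraMap κb k) hxy
    rw [map_natCast, map_natCast] at h4
    exact Nat.cast_injective h4⟩
  obtain ⟨Jb, hJb⟩ : ∃ Jb, Jb = bI (algebraMap κ κb) J := ⟨_, rfl⟩
  have h4 : bI (algebraMap κb k) Jb = bI (algebraMap κ k) J := by
    rw [hJb, bI_bI, ← IsScalarTower.algebraMap_eq]
  have hJbh : IsHomog Jb := hJb ▸ hJ.map _
  rw [← h4] at hG ⊢
  have hsb : IsSmoothProj Jb := (geo_desc hJbh (geo_of_good hG)).smooth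
  have hgb : Good Jb (m + 2) := good_desc hJbh hsb hG
  have h5 := good_sec1 (K := k) (good_ver hgb he)
    (a := vco a) (h2.comp _ ((Fintype.equivFin (Mon n e)).symm.injective.comp (oneE _).symm.injective))
  rw [bI_ver _ hJbh he, sec_ver hG.homog he] at h5
  have hh : IsHomog (sec (bI (algebraMap κb k) Jb) (frm a)) := sec_homog hG.homog (frm_hom a)
  have hp : (sec (bI (algebraMap κb k) Jb) (frm a)).IsPrime := prime_of_ver hh he (fun g hg => sec_sat hg) h5.prime
  have hD := dv_gen (K := k) hgb he h2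
  have hs := isSec_sec (bI (algebraMap κb k) Jb) (frm a)
  refine ⟨hh, hp, smooth_sec hG.homog hG.smooth (frm_hom a) hs hD, ?_, fun l hl => ?_⟩
  · by_contra hcon
    push Not at hcon
    obtain ⟨i, hi⟩ := h5.ne
    apply hi
    rw [mem_ver, vm_X]
    obtain ⟨l, hl⟩ : ∃ l, mono n e i l ≠ 0 := by
      by_contra h9
      have h10 := mono_deg n e i
      rw [Finset.sum_eq_zero fun l _ => by
        by_contra h'
        exact h9 ⟨l, h'⟩] at h10
      omega
    have h6 : monomial (mono n e i) (1 : k) = monomial (mono n e i - Finsupp.single l 1) 1 * X l := by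
      rw [X, monomial_mul, one_mul, tsub_add_cancel_of_le]
      rw [Finsupp.single_le_iff]
      omega
    rw [h6]
    exact Ideal.mul_mem_left _ _ (hcon l)
  · exact rank_sec (m := m + 1) hG (frm_hom a) hs hD hp l hl

/-- One generic hypersurface section. -/
theorem tinv_sec {k : Type u} [Field k] [IsAlgClosed k] [CharZero k] {κ : Subfield k} {n : ℕ}
    {I : Ideal (MvPolynomial (Fin n) k)} (h : TInv κ I) (h2 : Dim2 I) {e : ℕ} (he : 1 ≤ e) {a : Mon n e → k}
    (ha : AlgebraicIndependent κ a) {κ' : Subfield k} (hle : κ ≤ κ') (hκ' : ∀ g, a g ∈ κ') :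
    TInv κ' (sec I (frm a)) := by
  obtain ⟨m, hm⟩ := good_of_dim2 h.geo h2
  obtain ⟨J, hJ, hJI⟩ := h.desc
  subst hJI
  exact ⟨desc_sec ⟨J, hJ, rfl⟩ hle hκ', geo_of_good (good_sec hJ hm he ha)⟩

end MPadcHS
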