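import Pool.Agent.Lib.MP_adc574_ag_HS.TSec
import Pool.Agent.Lib.MP_adc574_ag_DC.TStm

/-!
# Towers of generic hypersurface sections and generic cyclic covers: definition

`cyc`, `frm`, `Mon` in DC/DefsL, `ver` in DC/WVeD, `sec` in HS/TSec (the saturation of the ideal `(I, F)`), `Homogeneous`,
`SmoothProj`, `proj`, `Fun`, `dif`, `change`, `Cover.Ordinary` in GP/Def, `SmoothVariety`, `DefinedOver`, `Model`, `fibre` in
DC/TStm, `Binomial` in DC/WBiD.
-/

set_option autoImplicit false

namespace OrdRed

open MvPolynomial MPadcDC MPadcHS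

universe u

/-- The projective scheme with the ideal `I` has dimension at least two: on an affine open set `x_l ≠ 0` there are
functions `f`, `g` with `df ∧ dg ≠ 0`. -/
def DimTwo {k : Type u} [Field k] {n : ℕ} (I : Ideal (MvPolynomial (Fin n) k)) : Prop :=
  ∃ (l : Fin n) (f g : Fun I {l}), dif k f * dif k g ≠ 0

/-- Towers of generic hypersurface sections and generic cyclic covers over the projective scheme `Y` with the ideal
`I₀`, which is defined over the subfield `κ₀` of `k`. `GenTower κ₀ I₀ E κ n I`: the projective scheme with the ideal `I` is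
such a tower, `I` is defined over `κ` (a subfield of `k`), and `E` is the product of the degrees of the covers. -/
inductive GenTower {k : Type u} [Field k] {n₀ : ℕ} (κ₀ : Subfield k) (I₀ : Ideal (MvPolynomial (Fin n₀) k)) :
    ℕ → Subfield k → ∀ n : ℕ, Ideal (MvPolynomial (Fin n) k) → Prop
  | base : GenTower κ₀ I₀ 1 κ₀ n₀ I₀
  /-- Veronese re-embedding. -/
  | veronese {E : ℕ} {κ : Subfield k} {n : ℕ} {I : Ideal (MvPolynomial (Fin n) k)} (d : ℕ) :
      GenTower κ₀ I₀ E κ n I → 1 ≤ d → GenTower κ₀ I₀ E κ _ (ver I d)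
  /-- The hypersurface section `F = 0` of a tower of dimension at least two, where the coefficients `a_γ` of the form
  `F` of degree `e` are algebraically independent over `κ`. It is defined over every field `κ'` which contains `κ` and
  the `a_γ`. -/
  | hypersurface {E : ℕ} {κ : Subfield k} {n : ℕ} {I : Ideal (MvPolynomial (Fin n) k)} (e : ℕ) (a : Mon n e → k)
      (κ' : Subfield k) : GenTower κ₀ I₀ E κ n I → 1 ≤ e → DimTwo I → AlgebraicIndependent κ a → κ ≤ κ' →
      (∀ g, a g ∈ κ') → GenTower κ₀ I₀ E κ' n (sec I (frm a))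
  /-- The cyclic cover `z ^ e = F` of degree `e` of the tower, where the coefficients `a_γ` of the form `F` are
  algebraically independent over `κ`. It is defined over every field `κ'` which contains `κ` and the `a_γ`. -/
  | cover {E : ℕ} {κ : Subfield k} {n : ℕ} {I : Ideal (MvPolynomial (Fin n) k)} (e : ℕ) (a : Mon n e → k)
      (κ' : Subfield k) : GenTower κ₀ I₀ E κ n I → 2 ≤ e → AlgebraicIndependent κ a → κ ≤ κ' → (∀ g, a g ∈ κ') →
      GenTower κ₀ I₀ (E * e) κ' (n + 1) (cyc I (frm a) e)

end OrdRed
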