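import Pool.Agent.Lib.MP_adc574_ag_HS.ZyD
import Pool.Agent.Lib.MP_adc574_ag_HS.ZyC
import Pool.Agent.Lib.MP_adc574_ag_DC.TFin

/-!
# HS: the towers, the invariants and the deductions
-/

set_option autoImplicit false

namespace MPadcHS

open MvPolynomial MPadcGP MPadcDC OrdRed

universe u

theorem gen_inv {k : Type u} [Field k] [IsAlgClosed k] [CharZero k] {n₀ : ℕ} {κ₀ : Subfield k}
    {I₀ : Ideal (MvPolynomial (Fin n₀) k)} (h₀ : TInv κ₀ I₀) {E : ℕ} {κ : Subfield k} {n : ℕ}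
    {I : Ideal (MvPolynomial (Fin n) k)} (h : GenTower κ₀ I₀ E κ n I) : TInv κ I := by
  induction h with
  | base => exact h₀
  | veronese d _ hd ih =>
    refine ⟨?_, geo_ver ih.geo hd⟩
    obtain ⟨J, hJ, hJI⟩ := ih.desc
    exact ⟨ver J d, ver_homog hJ hd, by rw [bI_ver _ hJ hd, hJI]⟩
  | hypersurface e a κ' _ he h2 ha hle hκ' ih => exact tinv_sec ih h2 he ha hle hκ'
  | cover e a κ' _ he ha hle hκ' ih => exact tinv_cyc ih (by omega) ha hle hκ'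

/-- Over smooth toric varieties. -/
theorem toric_open' {k : Type u} [Field k] [CharZero k] {n₀ : ℕ} {I₀ : Ideal (MvPolynomial (Fin n₀) k)} (h₀ : Geo I₀)
    (hb₀ : Binomial I₀) {E : ℕ} {n : ℕ} {I : Ideal (MvPolynomial (Fin n) k)} (hI : Geo I) (hrel : OppRel I₀ I E)
    (A : Subalgebra ℤ k) (hA : A.FG) (X : Ideal (MvPolynomial (Fin n) A)) (hX : IsHomog X)
    (hXk : bI (algebraMap A k) X = I) :
    ∃ p₀ : ℕ, ∀ p : ℕ, p₀ ≤ p → p.Prime → (p : ZMod E) = 1 →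
      ∀ 𝔓 ∈ (Ideal.span {(p : A)}).minimalPrimes, IsOpenOrd X 𝔓 := by
  have hs₀ := h₀.smooth
  have hfA := pred_ft hA
  have hcA := pred_cz A
  obtain ⟨A', hle, hA', Y', hY', hYk'⟩ := exists_modelY h₀.homog A hA
  have hfA' := pred_ft hA'
  have hcA' := pred_cz A'
  have hcomp : (algebraMap A' k).comp (Subalgebra.inclusion hle).toRingHom = algebraMap A k := rfl
  obtain ⟨p₁, h₁⟩ := exists_over A A' (Subalgebra.inclusion hle).toRingHom (Subalgebra.inclusion_injective hle)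
  obtain ⟨p₂, h₂⟩ := binom_opp hb₀ h₀.homog hs₀ A' hA' Y' hY' hYk'
  obtain ⟨p₃, h₃⟩ := hrel A' hA' Y' (bI (Subalgebra.inclusion hle).toRingHom X) hY' (hX.map _) hYk'
    (by rw [bI_bI, hcomp, hXk])
  obtain ⟨p₄, h₄⟩ := open_iff_opp hX (algebraMap A k) Subtype.val_injective (hXk.symm ▸ hI.smooth)
  refine ⟨p₁ + p₂ + p₃ + p₄ + 1, fun p hp hpr hpE 𝔓 h𝔓 => ?_⟩
  obtain ⟨𝔓', h𝔓', hc⟩ := h₁ p hpr (by omega) 𝔓 h𝔓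
  have hpr' : 𝔓'.IsPrime := h𝔓'.1.1
  refine (h₄ p hpr (by omega) 𝔓 h𝔓).2 ?_
  rw [← hc]
  exact opp_down _ hX (h₃ p (by omega) hpr hpE 𝔓' h𝔓' (h₂ p (by omega) hpr 𝔓' h𝔓'))

/-- The final theorem. -/
theorem final_of_rel {k : Type u} [Field k] [IsAlgClosed k] [CharZero k] {n₀ : ℕ}
    {I₀ : Ideal (MvPolynomial (Fin n₀) k)} (h₀ : Geo I₀) {E : ℕ} {n : ℕ} {I : Ideal (MvPolynomial (Fin n) k)}
    (hI : Geo I) (hrel : OppRel I₀ I E)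
    (A : Subalgebra ℤ k) (hA : A.FG) (Y : Ideal (MvPolynomial (Fin n₀) A)) (hY : Model Y I₀)
    (X : Ideal (MvPolynomial (Fin n) A)) (hX : Model X I) :
    SmoothVariety I ∧ ∃ b : A, b ≠ 0 ∧ ∃ p₀ : ℕ, ∀ p : ℕ, p₀ ≤ p → p.Prime → (p : ZMod E) = 1 →
      ¬ IsUnit (p : A) ∧ ∀ 𝔓 ∈ (Ideal.span {(p : A)}).minimalPrimes,
        (Binomial I₀ ∨ ∃ 𝔪 : Ideal A, 𝔪.IsMaximal ∧ 𝔓 ≤ 𝔪 ∧ b ∉ 𝔪 ∧ (proj (fibre Y 𝔪)).Ordinary) →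
        ∃ f ∉ 𝔓, ∀ 𝔫 : Ideal A, 𝔫.IsMaximal → 𝔓 ≤ 𝔫 → f ∉ 𝔫 →
          SmoothProj (fibre X 𝔫) ∧ (proj (fibre X 𝔫)).Ordinary := by
  obtain ⟨b, hb, p₁, h3⟩ := OppRel.point h₀.smooth hI.smooth hrel A hA Y hY.1 hY.2 X hX.1 hX.2
  obtain ⟨p₂, h4⟩ := exists_minimal A hA
  have h5 : ∃ p₃ : ℕ, ∀ p : ℕ, p₃ ≤ p → p.Prime → (p : ZMod E) = 1 → Binomial I₀ →
      ∀ 𝔓 ∈ (Ideal.span {(p : A)}).minimalPrimes, IsOpenOrd X 𝔓 := by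
    by_cases hbin : Binomial I₀
    · obtain ⟨p₃, h6⟩ := toric_open' h₀ hbin hI hrel A hA X hX.1 hX.2
      exact ⟨p₃, fun p hp hpr hpE _ => h6 p hp hpr hpE⟩
    · exact ⟨0, fun p _ _ _ h => absurd h hbin⟩
  obtain ⟨p₃, h6⟩ := h5
  refine ⟨hI.var, b, hb, p₁ + p₂ + p₃ + 1, fun p hp hpr hpE => ⟨?_, fun 𝔓 h𝔓 hor => ?_⟩⟩
  · intro hu
    obtain ⟨𝔓, h𝔓⟩ := h4 p hpr (by omega)
    exact h𝔓.1.1.ne_top (Ideal.eq_top_of_isUnit_mem _ (h𝔓.1.2 (Ideal.mem_span_singleton_self _)) hu)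
  · have h7 : IsOpenOrd X 𝔓 := by
      rcases hor with hor | ⟨𝔪, h𝔪, hle, hb𝔪, hor⟩
      · exact h6 p (by omega) hpr hpE hor 𝔓 h𝔓
      · exact h3 p (by omega) hpr hpE 𝔪 h𝔪 hb𝔪 (Or.inr ((ordinary_proj_iff _).1 hor)) 𝔓 h𝔓 hle
    obtain ⟨f, hf, h8⟩ := h7
    refine ⟨f, hf, fun 𝔫 h𝔫 hle' hf' => ?_⟩
    obtain ⟨h9, h10⟩ := h8 𝔫 h𝔫 hle' hf'
    exact ⟨h9, (ordinary_proj_iff _).2 h10⟩

/-- The unconditional case: density of the ordinary fibres. -/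
theorem dense_of_rel {k : Type u} [Field k] [IsAlgClosed k] [CharZero k] {n₀ : ℕ}
    {I₀ : Ideal (MvPolynomial (Fin n₀) k)} (h₀ : Geo I₀) (hb₀ : Binomial I₀) {E : ℕ} {n : ℕ}
    {I : Ideal (MvPolynomial (Fin n) k)} (hI : Geo I) (hrel : OppRel I₀ I E) (A : Subalgebra ℤ k) (hA : A.FG)
    (X : Ideal (MvPolynomial (Fin n) A)) (hX : Model X I) (b : A) (hb : b ≠ 0) :
    ∃ p₀ : ℕ, ∀ p : ℕ, p₀ ≤ p → p.Prime → (p : ZMod E) = 1 → HasOrdinaryFibre X b p := by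
  have hfA := pred_ft hA
  have hcA := pred_cz A
  obtain ⟨p₁, h₁⟩ := toric_open' h₀ hb₀ hI hrel A hA X hX.1 hX.2
  obtain ⟨p₂, h₂⟩ := exists_minimal A hA
  obtain ⟨BA, hBA⟩ := exists_resB A
  refine ⟨p₁ + p₂ + BA 0 + BA b + 1, fun p hp hpr hpE => ?_⟩
  have hfact : Fact p.Prime := ⟨hpr⟩
  obtain ⟨𝔓, h𝔓⟩ := h₂ p hpr (by omega)
  have hpr𝔓 : 𝔓.IsPrime := h𝔓.1.1
  obtain ⟨f, hf, h4⟩ := h₁ p (by omega) hpr hpE 𝔓 h𝔓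
  have hb𝔓 : b ∉ 𝔓 := by
    obtain ⟨-, -, hne, -⟩ := hBA p hpr (by omega) 𝔓 h𝔓 _ _ (frac_ker 𝔓) (frac_surj 𝔓)
    intro h
    refine hne b hb (by omega) ?_
    rw [← RingHom.mem_ker, frac_ker 𝔓]
    exact h
  have hp𝔓 : (p : A) ∈ 𝔓 := h𝔓.1.2 (Ideal.mem_span_singleton_self _)
  obtain ⟨𝔪, h𝔪, hle, hfm⟩ := exists_max_not_mem (p := p) 𝔓 hp𝔓 (f * b)
    (fun h => (hpr𝔓.mem_or_mem h).elim hf hb𝔓)
  obtain ⟨h5, h6⟩ := h4 𝔪 h𝔪 hle fun h => hfm (Ideal.mul_mem_right _ _ h)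
  exact ⟨𝔪, h𝔪, fun h => hfm (Ideal.mul_mem_left _ _ h), hle hp𝔓, h5, (ordinary_proj_iff _).2 h6⟩

/-- The towers are smooth and integral. -/
theorem gen_variety {k : Type u} [Field k] [IsAlgClosed k] [CharZero k] {n₀ : ℕ}
    (I₀ : Ideal (MvPolynomial (Fin n₀) k)) (h₀ : SmoothVariety I₀) (κ₀ : Subfield k) (hκ₀ : DefinedOver κ₀ I₀)
    {E : ℕ} {κ : Subfield k} {n : ℕ} (I : Ideal (MvPolynomial (Fin n) k)) (hT : GenTower κ₀ I₀ E κ n I) :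
    SmoothVariety I :=
  (gen_inv (κ₀ := κ₀) ⟨hκ₀, geo_of h₀⟩ hT).geo.var

end MPadcHS
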