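import Pool.Agent.Lib.MP_adc574_ag_HS.AkC
import Pool.Agent.Lib.MP_adc574_ag_HS.AkE
import Pool.Agent.Lib.MP_adc574_ag_HS.AkG
import Pool.Agent.Lib.MP_adc574_ag_HS.AkH
import Pool.Agent.Lib.MP_adc574_ag_HS.FiC
import Pool.Agent.Lib.MP_adc574_ag_HS.V7A
import Pool.Agent.Lib.MP_adc574_ag_HS.ZvB
import Pool.Agent.Lib.MP_adc574_ag_HS.ZyG

/-!
# HS: the towers, the relation
-/

set_option autoImplicit false

namespace MPadcHS

open MvPolynomial MPadcGP MPadcDC OrdRed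

universe u

theorem aknG_of {κ : Type u} [Field κ] [CharZero κ] {n : ℕ} {J : Ideal (MvPolynomial (Fin n) κ)} {d : ℕ}
    (hJ : Good J (d + 1)) : AknG J d := by
  intro K _ _ _ Q P hle hQ hP
  let : Algebra κ K := ((algebraMap (Ra κ n 1) K).comp (algebraMap κ (Ra κ n 1))).toAlgebra
  have : IsScalarTower κ (Ra κ n 1) K := IsScalarTower.of_algebraMap_eq' rfl
  have hQ' : Q = cyc (bI (algebraMap κ K) J) (frm (ak κ n 1 K)) 1 := hQ.trans (bI_cycG (algebraMap (Ra κ n 1) K) J)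
  clear hQ
  subst hQ'
  have hK : CharZero K := charZero_of_injective_algebraMap (algebraMap κ K).injective
  have h : AkH hle d := akH_of hJ hle hP
  have hX : (dzQ hle).Ok := dzQ_ok hJ ak_indep hle hP
  have top := h.top {Fin.last n} (Finset.singleton_nonempty _)
  exact ⟨ak_rinj h, ak_gsurj h, ak_gsurj0 hX top, ak_rsurj h, fun j hj x hx => ak_ginj hX top j hj x hx⟩

/-- The generic hyperplane section in one more variable. -/
theorem oppRel_hyp1 {k : Type u} [Field k] [IsAlgClosed k] [CharZero k] (κ : Subfield k) {n m : ℕ}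
    {J : Ideal (MvPolynomial (Fin n) κ)} (hJ : IsHomog J) (hsJ : IsSmoothProj J)
    (hG : Good (bI (algebraMap κ k) J) (m + 2)) (a : Mon n 1 → k) (ha : AlgebraicIndependent κ a) :
    IsSmoothProj (hyp (cyc (bI (algebraMap κ k) J) (frm a) 1)) ∧
      OppRel (bI (algebraMap κ k) J) (hyp (cyc (bI (algebraMap κ k) J) (frm a) 1)) 1 := by
  have hcκ : CharZero κ := ⟨fun x y hxy => by
      have h1 := congrArg (algebraMap κ k) hxy
      rw [map_natCast, map_natCast] at h1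
      exact Nat.cast_injective h1⟩
  have hGJ : Good J (m + 2) := good_desc hJ hsJ hG
  have hc := cyc_smooth (K := k) hGJ le_rfl ha
  have hd := dv_hyp (K := k) hGJ le_rfl ha
  have hsX : IsSmoothProj (hyp (cyc (bI (algebraMap κ k) J) (frm a) 1)) :=
    smooth_sec hc.1 hc.2 (isHomogeneous_X _ _) (isSec_sup _ _) hd
  refine ⟨hsX, oppRel_hyp' κ hJ hsJ (m + 1) ?_ a ha hc.2 hsX⟩
  intro R₀ I₀ hI₀ hR₀ hIJ κ₀ _ _ _ ψ₀ hψ₀
  have hfR := pred_ft (k := κ) hR₀
  have hcR := pred_cz (k := κ) R₀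
  have hji : Function.Injective ((algebraMap κ k).comp (algebraMap R₀ κ)) :=
    (algebraMap κ k).injective.comp Subtype.val_injective
  have hIk : bI ((algebraMap κ k).comp (algebraMap R₀ κ)) I₀ = bI (algebraMap κ k) J := by
    rw [← bI_bI, hIJ]
  have hg : Good (bI ψ₀ I₀) (m + 2) := good_bI hI₀ _ hji (hIk.symm ▸ hG) ψ₀ hψ₀
  exact ⟨keyposH hg, aknG_of hg⟩

/-- The generic hyperplane section. -/
theorem oppRel_sec1 {k : Type u} [Field k] [IsAlgClosed k] [CharZero k] (κ : Subfield k) {n m : ℕ}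
    {J : Ideal (MvPolynomial (Fin n) κ)} (hJ : IsHomog J) (hsJ : IsSmoothProj J)
    (hG : Good (bI (algebraMap κ k) J) (m + 2)) (a : Mon n 1 → k) (ha : AlgebraicIndependent κ a) :
    OppRel (bI (algebraMap κ k) J) (sec (bI (algebraMap κ k) J) (frm a)) 1 := by
  obtain ⟨hsX, h1⟩ := oppRel_hyp1 κ hJ hsJ hG a ha
  exact OppRel.trans hG.smooth (isHomog_hyp (isHomog_cyc hG.homog (isHomogeneous_frm a))) (dvd_refl _) (dvd_refl _) h1
    (oppRel_sat hG.homog (frm_hom a) (sat_sec _ _) hsX)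

/-- The generic hypersurface section of degree `e`. -/
theorem oppRel_sec {k : Type u} [Field k] [IsAlgClosed k] [CharZero k] (κ : Subfield k) {n m e : ℕ} (he : 1 ≤ e)
    {J : Ideal (MvPolynomial (Fin n) κ)} (hJ : IsHomog J) (hsJ : IsSmoothProj J)
    (hG : Good (bI (algebraMap κ k) J) (m + 2)) (a : Mon n e → k) (ha : AlgebraicIndependent κ a) :
    OppRel (bI (algebraMap κ k) J) (sec (bI (algebraMap κ k) J) (frm a)) 1 := by
  have hcκ : CharZero κ := ⟨fun x y hxy => by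
      have h1 := congrArg (algebraMap κ k) hxy
      rw [map_natCast, map_natCast] at h1
      exact Nat.cast_injective h1⟩
  have hGJ : Good J (m + 2) := good_desc hJ hsJ hG
  have hv : bI (algebraMap κ k) (ver J e) = ver (bI (algebraMap κ k) J) e := bI_ver _ hJ he
  have hgv : Good (bI (algebraMap κ k) (ver J e)) (m + 2) := by
    rw [hv]
    exact good_ver hG he
  have hva : AlgebraicIndependent κ (vco a) :=
    ha.comp _ ((Fintype.equivFin (Mon n e)).symm.injective.comp (oneE _).symm.injective)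
  have h1 := oppRel_sec1 κ (ver_homog hJ he) (ver_smooth hJ he hsJ) hgv (vco a) hva
  rw [hv, sec_ver hG.homog he] at h1
  have hs : IsSmoothProj (sec (bI (algebraMap κ k) J) (frm a)) :=
    smooth_sec hG.homog hG.smooth (frm_hom a) (isSec_sec _ _) (dv_gen hGJ he ha)
  have hh : IsHomog (sec (bI (algebraMap κ k) J) (frm a)) := sec_homog hG.homog (frm_hom a)
  exact OppRel.trans hG.smooth (ver_homog hG.homog he) (dvd_refl _) (dvd_refl _) (oppRel_ver hG.homog hG.smooth he)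
    (OppRel.trans (ver_smooth hG.homog he hG.smooth) (ver_homog hh he) (dvd_refl _) (dvd_refl _) h1
      (oppRel_of_ver hh hs he))

/-- The relation for one generic hypersurface section. -/
theorem opp_sec {k : Type u} [Field k] [IsAlgClosed k] [CharZero k] {κ : Subfield k} {n : ℕ}
    {I : Ideal (MvPolynomial (Fin n) k)} (h : TInv κ I) (h2 : Dim2 I) {e : ℕ} (he : 1 ≤ e) {a : Mon n e → k}
    (ha : AlgebraicIndependent κ a) : OppRel I (sec I (frm a)) 1 := by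
  obtain ⟨m, hm⟩ := good_of_dim2 h.geo h2
  obtain ⟨J, hJ, hJI⟩ := h.desc
  subst hJI
  exact oppRel_sec κ he hJ (geo_desc hJ h.geo).smooth hm a ha

theorem gen_opp {k : Type u} [Field k] [IsAlgClosed k] [CharZero k] {n₀ : ℕ} {κ₀ : Subfield k}
    {I₀ : Ideal (MvPolynomial (Fin n₀) k)} (h₀ : TInv κ₀ I₀) {E : ℕ} {κ : Subfield k} {n : ℕ}
    {I : Ideal (MvPolynomial (Fin n) k)} (h : GenTower κ₀ I₀ E κ n I) : OppRel I₀ I E := by
  induction h with
  | base => exact OppRel.refl h₀.geo.smooth 1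
  | veronese d ht hd ih =>
    have h1 := gen_inv h₀ ht
    exact OppRel.trans h₀.geo.smooth h1.geo.homog (dvd_refl _) (one_dvd _) ih
      (oppRel_ver h1.geo.homog h1.geo.smooth hd)
  | hypersurface e a κ' ht he h2 ha hle hκ' ih =>
    have h1 := gen_inv h₀ ht
    exact OppRel.trans h₀.geo.smooth h1.geo.homog (dvd_refl _) (one_dvd _) ih (opp_sec h1 h2 he ha)
  | @cover E κ n I e a κ' ht he ha hle hκ' ih =>
    have h1 := gen_inv h₀ ht
    obtain ⟨J, hJ, hJI⟩ := h1.desc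
    subst hJI
    have h2 : Geo J := geo_desc hJ h1.geo
    obtain ⟨l, hl, -⟩ := h1.geo.np
    exact OppRel.trans h₀.geo.smooth h1.geo.homog (dvd_mul_right E e) (dvd_mul_left e E) ih
      (oppRel_cyc κ he hJ h2.smooth h1.geo.prime ⟨l, hl⟩ a ha)

/-- Towers over smooth toric varieties. -/
theorem gen_dense {k : Type u} [Field k] [IsAlgClosed k] [CharZero k] {n₀ : ℕ}
    (I₀ : Ideal (MvPolynomial (Fin n₀) k)) (h₀ : SmoothVariety I₀) (κ₀ : Subfield k) (hκ₀ : DefinedOver κ₀ I₀)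
    (hb₀ : Binomial I₀) {E : ℕ} {κ : Subfield k} {n : ℕ} (I : Ideal (MvPolynomial (Fin n) k))
    (hT : GenTower κ₀ I₀ E κ n I) (A : Subalgebra ℤ k) (hA : A.FG)
    (X : Ideal (MvPolynomial (Fin n) A)) (hX : Model X I) (b : A) (hb : b ≠ 0) :
    ∃ p₀ : ℕ, ∀ p : ℕ, p₀ ≤ p → p.Prime → (p : ZMod E) = 1 → HasOrdinaryFibre X b p := by
  have hti : TInv κ₀ I₀ := ⟨hκ₀, geo_of h₀⟩
  exact dense_of_rel hti.geo hb₀ (gen_inv hti hT).geo (gen_opp hti hT) A hA X hX b hb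

/-- Towers over any smooth base. -/
theorem gen_final {k : Type u} [Field k] [IsAlgClosed k] [CharZero k] {n₀ : ℕ}
    (I₀ : Ideal (MvPolynomial (Fin n₀) k)) (h₀ : SmoothVariety I₀) (κ₀ : Subfield k) (hκ₀ : DefinedOver κ₀ I₀)
    {E : ℕ} {κ : Subfield k} {n : ℕ} (I : Ideal (MvPolynomial (Fin n) k)) (hT : GenTower κ₀ I₀ E κ n I)
    (A : Subalgebra ℤ k) (hA : A.FG) (Y : Ideal (MvPolynomial (Fin n₀) A)) (hY : Model Y I₀)
    (X : Ideal (MvPolynomial (Fin n) A)) (hX : Model X I) :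
    SmoothVariety I ∧ ∃ b : A, b ≠ 0 ∧ ∃ p₀ : ℕ, ∀ p : ℕ, p₀ ≤ p → p.Prime → (p : ZMod E) = 1 →
      ¬ IsUnit (p : A) ∧ ∀ 𝔓 ∈ (Ideal.span {(p : A)}).minimalPrimes,
        (Binomial I₀ ∨ ∃ 𝔪 : Ideal A, 𝔪.IsMaximal ∧ 𝔓 ≤ 𝔪 ∧ b ∉ 𝔪 ∧ (proj (fibre Y 𝔪)).Ordinary) →
        ∃ f ∉ 𝔓, ∀ 𝔫 : Ideal A, 𝔫.IsMaximal → 𝔓 ≤ 𝔫 → f ∉ 𝔫 →
          SmoothProj (fibre X 𝔫) ∧ (proj (fibre X 𝔫)).Ordinary := by
  have hti : TInv κ₀ I₀ := ⟨hκ₀, geo_of h₀⟩
  exact final_of_rel hti.geo (gen_inv hti hT).geo (gen_opp hti hT) A hA Y hY X hX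

end MPadcHS
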